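import Pool.Agent.helper21.OE.SpecA

/-!
# Project OE (MP_2e0e07_nt): rows, block W (the period relations of level one), row CLU
-/

namespace Pool.Agent.OE

open MvPolynomial Matrix

/-- the monomial `X^a Y^(j-a) Z^b W^(j-b)` -/
noncomputable def mon {A : Type} [CommRing A] (j a b : ℕ) : Pol A :=
  X 0 ^ a * X 1 ^ (j - a) * X 2 ^ b * X 3 ^ (j - b)

/-- the coefficient of this monomial -/
noncomputable def cf {A : Type} [CommRing A] (P : Pol A) (j a b : ℕ) : A :=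
  coeff (Finsupp.equivFunOnFinite.symm ![a, j - a, b, j - b]) P

/-- ROW EXQ (short-medium; model OD.EXQ). (a) a polynomial of bidegree `(j, j)` is
`∑ cf a b * mon a b` over `a, b ≤ j`. (b) `cf (mon s t)` is `1` at `(s, t)` and `0` at the other
`(a, b)`, for `s, t, a, b ≤ j`. -/
def EXQ_stmt : Prop := ∀ {A : Type} [CommRing A] (j : ℕ),
  (∀ P : Pol A, BiHom j P → P = ∑ a ∈ Finset.range (j + 1), ∑ b ∈ Finset.range (j + 1),
    C (cf P j a b) * mon j a b) ∧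
  (∀ s t a b : ℕ, s ≤ j → t ≤ j → a ≤ j → b ≤ j →
    cf (mon j s t : Pol A) j a b = if s = a ∧ t = b then 1 else 0)

/-- ROW CFU (short). `diag(u, 1)` multiplies the coefficient of `X^a Y^(j-a) Z^b W^(j-b)` by
`π(u)^a π(ū)^b` (EXQ, `act` on `mon`; model: the first half of OD.CFD). -/
def CFU_stmt : Prop := ∀ (d t : ℤ) {κ : Type} [Field κ] (π : Oz d t →+* κ) (j : ℕ) (P : Pol κ),
  BiHom j P → ∀ (u : Oz d t) (a b : ℕ), a ≤ j → b ≤ j →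
  cf (act π !![u, 0; 0, 1] P) j a b = π u ^ a * π (star u) ^ b * cf P j a b

/-- ROW CFW (short; model OD.CFW). `w = (0 -1; 1 0)` sends `X, Y, Z, W` to `Y, -X, W, -Z`, so `mon a b` to
`(-1)^(a+b) mon (j-a) (j-b)`. -/
def CFW_stmt : Prop := ∀ (d t : ℤ) {κ : Type} [Field κ] (π : Oz d t →+* κ) (j : ℕ) (P : Pol κ),
  BiHom j P → ∀ a b, a ≤ j → b ≤ j →
  cf (act π !![0, -1; 1, 0] P) j a b = (-1) ^ (a + b) * cf P j (j - a) (j - b)

/-- ROW CFE (short-medium). The value of `act π g P` at `(x, 1, y, 1)` is the value of `P` at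
`(π(g00) x + π(g10), π(g01) x + π(g11), π(ḡ00) y + π(ḡ10), π(ḡ01) y + π(ḡ11))` (`eval` of `aeval`), and `P` is
`∑ cf a b * mon a b` (EXQ). -/
def CFE_stmt : Prop := ∀ (d t : ℤ) {κ : Type} [Field κ] (π : Oz d t →+* κ) (j : ℕ) (P : Pol κ),
  BiHom j P → ∀ (g : Mat d t) (x y : κ), eval ![x, 1, y, 1] (act π g P) =
    ∑ a ∈ Finset.range (j + 1), ∑ b ∈ Finset.range (j + 1),
      (π (g 0 0) * x + π (g 1 0)) ^ a * (π (g 0 1) * x + π (g 1 1)) ^ (j - a) *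
      ((π (star (g 0 0)) * y + π (star (g 1 0))) ^ b *
        (π (star (g 0 1)) * y + π (star (g 1 1))) ^ (j - b)) * cf P j a b

/-- the period relations of level one -/
structure RelP {d t : ℤ} {κ : Type} [Field κ] (π : Oz d t →+* κ) (j : ℕ) (g : Pol κ) : Prop where
  hom : BiHom j g
  uni : ∀ u : Oz d t, IsUnit u → act π !![u, 0; 0, 1] g = g
  inv : act π !![0, -1; 1, 0] g = -g
  tri : g + act π !![0, -1; 1, 1] g + act π !![-1, -1; 1, 0] g = 0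
  sqr : ∀ x y : Oz d t, x * y = 2 → g + act π !![0, 1; 1, x] g + act π !![1, y; x, 1] g +
    act π !![y, 1; 1, 0] g = 0
  hex : ∀ x y : Oz d t, x * y = 3 → g + act π !![0, 1; 1, y] g + act π !![1, x; y, 2] g +
    act π !![x, 2; 2, y] g + act π !![2, x; y, 1] g + act π !![x, 1; 1, 0] g = 0

/-- ROW WRQ (medium; model OD.WRL). For a modular symbol `φ` of level one the polynomial `g = φ(e1, e2)`
satisfies the period relations, and if it vanishes then `φ = 0` (all `φ(γ e1, γ e2) = act γ g = 0`, MAN with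
`S = 0`). Every relation says that a cycle of cusps `v0, v1, ..., v0` with consecutive determinants units has
`∑ φ(v_i, v_(i+1)) = 0` (add), `φ(v_i, v_(i+1)) = act γ_i g`, `γ_i = (v_i v_(i+1))` (columns, `equiv`, `N = 1`).
`uni`: `diag(u, 1) e1 = u • e1`. `inv`: `w e1 = e2`, `w e2 = -e1`, `φ(e2, e1) = -g`. `tri`: `e1, e2, (-1, 1), -e1`.
`sqr`: `e1, e2, (1, x), (y, 1), e1`, determinants `1, -1, 1 - x y = -1, -1`. `hex`: `e1, e2, (1, y), (x, 2), (2, y), (x, 1), e1`,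
determinants `1, -1, 2 - x y = -1, x y - 4 = -1, 2 - x y = -1, -1`. -/
def WRQ_stmt : Prop := ∀ (d t : ℤ), IsEuc d t → ∀ {κ : Type} [Field κ] (π : Oz d t →+* κ) (j : ℕ)
  (φ : Sy d t κ), IsSym π j 1 (fun _ => 1) φ →
  RelP π j (φ ![1, 0] ![0, 1]) ∧ (φ ![1, 0] ![0, 1] = 0 → φ = 0)

/-- the numerical statement: modulo `ℓ` the solutions of the period relations have dimension at most
`s + 1` (certificates: helper21) -/
def NUMQ_stmt (d t : ℤ) (ℓ j s : ℕ) : Prop := ∀ {κ : Type} [Field κ] (π : Oz d t →+* κ),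
  ((ℓ : ℕ) : κ) = 0 → ∃ F : Fin (s + 1) → (Pol κ →ₗ[κ] κ), ∀ g : Pol κ, RelP π j g →
    (∀ i, F i g = 0) → g = 0

/-- ROW WDQ (short; model OD.WDM). The dimension bound: the linear map `φ ↦ (F i (φ(e1, e2)))_i` from
`Sym π j 1 1` to `κ^(s+1)` is injective (WRQ). -/
def WDQ_stmt : Prop := ∀ (d t : ℤ), IsEuc d t → ∀ (ℓ : ℕ) {κ : Type} [Field κ]
  (π : Oz d t →+* κ), ((ℓ : ℕ) : κ) = 0 → ∀ (j s : ℕ), NUMQ_stmt d t ℓ j s →
  Module.finrank κ (Sym π j 1 (fun _ => 1)) ≤ s + 1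

/-- ROW CLU (medium). Existence of the class for `ℓ` unramified (`ℓ ∤ t² - 4 d`): a character `χ` modulo `ℓ^r` with
`χ = χ^c` is modulo `ℓ` a power of the norm. Proof. (1) If `ℓ ∣ x - y` then `χ x = χ y`:
`ℓ^(r+1) ∣ x^(ℓ^r) - y^(ℓ^r)` (`dvd_sub_pow_of_dvd_sub`), so `(χ x - χ y)^(ℓ^r) = 0` (`sub_pow_char_pow`).
If `ℓ ∤ N(x)` then `χ x ≠ 0` (REQ). (2) If `N(x) ≡ 1` modulo `ℓ` then `χ x = 1` (Hilbert 90): for `z = 1` or `z = ω` the element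
`y = z + x z̄` is prime to `ℓ`; and `x ȳ ≡ y`, `χ ȳ = χ y`. Indeed `N(y) ≡ 2 N(z) + Tr(z² x̄)`; with `x = a + b ω` it is
`2 + 2a + tb` for `z = 1` and `2d + a(t² - 2d) + tbd` for `z = ω`; if both are `0` then `a (t² - 4d) = 0`, `a = 0`, `tb = -2`,
so `t = 1`, `b = -2`, `N(x) = 4d = 1`, `4d - t² = 0`, excluded. (3) Every integer `m` is a norm modulo `ℓ`: solve
`A² + (4d - t²) B² = 4m` in `ZMod ℓ` (`FiniteField.exists_root_sum_quadratic`), `y = B`, `x = (A - tB)/2`: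
`4 N(x + y ω) = (2x + ty)² + (4d - t²) y²`. (4) Let `g` be an integer primitive root modulo `ℓ`, `N(y0) ≡ g`. Then
`N(y0^(ℓ-1)) ≡ 1`, `χ(y0)^(ℓ-1) = 1`, and `u = π(N(y0)) = g` is a primitive root of unity of order `ℓ - 1` in `κ`
(`ZMod ℓ → κ` is injective), so `χ(y0) = u^i` (`IsPrimitiveRoot.eq_pow_of_pow_eq_one`). (5) If `ℓ ∤ N(x)`, `N(x) ≡ g^a`:
with `y'` an inverse of `y0^a` modulo `ℓ` (REQ) `N(x y') ≡ 1`, `χ(x y') = 1`, `χ(x) = χ(y0)^a = u^(i a) = π(N(x))^i`.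
(6) `j ≡ i + k` modulo `ℓ - 1`, `1 ≤ j ≤ ℓ - 1` (NRF). (Model for (1), (4), (6): OD.CLS.) -/
def CLU_stmt : Prop := ∀ (d t : ℤ), IsEuc d t → ∀ ℓ : ℕ, ℓ.Prime → ℓ ≠ 2 →
  ¬ ((ℓ : ℕ) : ℤ) ∣ t ^ 2 - 4 * d → ∀ {κ : Type} [Field κ] (π : Oz d t →+* κ),
  ((ℓ : ℕ) : κ) = 0 → ∀ (r : ℕ) (χ : Oz d t →* κ),
  (∀ x y : Oz d t, ((ℓ : ℕ) : Oz d t) ^ r ∣ x - y → χ x = χ y) → (∀ x, χ (star x) = χ x) →
  ∀ k : ℕ, ∃ j, 1 ≤ j ∧ j ≤ ℓ - 1 ∧ ∀ x : Oz d t, ¬ ((ℓ : ℕ) : ℤ) ∣ x.norm →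
    χ x * π (x * star x) ^ k = π (x * star x) ^ j

end Pool.Agent.OE
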