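import Pool.Agent.helper21.OE.SpecB
import Pool.Agent.helper21.OD.Asm

/-!
# Project OE: assembly
-/

namespace Pool.Agent.OE

open Polynomial

/-- the operator at `ℓ` preserves the modular symbols -/
theorem ASM_stab (hTSU : TSU_stmt) (hUSU : USU_stmt) (d t : ℤ) (hdt : IsEuc d t) (ℓ : ℕ)
    (hℓ : ℓ.Prime) (F : Finset (GO d t)) (hF : IsReps ℓ F) {A : Type} [CommRing A]
    (f : Oz d t →+* A) (k r : ℕ) (χ : Oz d t →* A)
    (hχ : ∀ x y : Oz d t, ((ℓ : ℕ) : Oz d t) ^ r ∣ x - y → χ x = χ y) (φ : Sy d t A)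
    (hφ : IsSym f k (ℓ ^ r) (fun x => χ x) φ) :
    IsSym f k (ℓ ^ r) (fun x => χ x) (op f ℓ F r φ) := by
  by_cases hr : r = 0
  · subst hr
    have h1 : (fun x => χ x) = fun _ : Oz d t => (1 : A) := by
      funext x
      rw [hχ x 1 (by rw [pow_zero]; exact one_dvd _), map_one]
    rw [h1, pow_zero] at hφ ⊢
    rw [op, if_pos rfl]
    exact hTSU d t hdt ℓ hℓ F hF f k φ hφ
  · rw [op, if_neg hr]
    exact hUSU d t hdt ℓ hℓ f k r (fun x => χ x) (by omega) hχ φ hφ

/-- base change of modular symbols -/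
noncomputable def ASM_bc {d t : ℤ} {A B : Type} [CommRing A] [CommRing B] (ρ : A →+* B)
    (S : Submodule A (Sy d t A)) : S →+ Sy d t B where
  toFun φ := fun u v => MvPolynomial.map ρ (φ.1 u v)
  map_zero' := by
    funext u v
    simp
  map_add' φ ψ := by
    funext u v
    simp

theorem ASM_bc_smul {d t : ℤ} {A B : Type} [CommRing A] [CommRing B] (ρ : A →+* B)
    (S : Submodule A (Sy d t A)) (a : A) (φ : S) :
    ASM_bc ρ S (a • φ) = ρ a • ASM_bc ρ S φ := by
  funext u v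
  simp [ASM_bc, MvPolynomial.smul_eq_C_mul]

/-- the independent families in the ordinary part -/
theorem ASM_indep (hFIN : FIN_stmt) (hTSU : TSU_stmt) (hUSU : USU_stmt) (hFCU : FCU_stmt)
    (hMPC : MPC_stmt) (hDEN : DEN_stmt) (hDVI : DVI_stmt) (hLAT : OD.LAT_stmt)
    (d t : ℤ) (hdt : IsEuc d t) (ℓ : ℕ)
    (hℓ : ℓ.Prime) (hℓ2 : ℓ ≠ 2) (F : Finset (GO d t)) (hF : IsReps ℓ F) {R L : Type} [CommRing R]
    [IsDomain R] [IsDiscreteValuationRing R] [Field L] [Algebra R L] [IsFractionRing R L]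
    (f : Oz d t →+* R) (hf : ((ℓ : ℕ) : R) ∈ IsLocalRing.maximalIdeal R) (k r j : ℕ)
    (χ : Oz d t →* R) (hχ : ∀ x y : Oz d t, ((ℓ : ℕ) : Oz d t) ^ r ∣ x - y → χ x = χ y)
    (hj : 1 ≤ j)
    (hcl : InClass f ℓ k χ j) (m : ℕ) (n : ℕ) (b : Fin n → Sy d t L) (hb : LinearIndependent L b)
    (hO : ∀ i, b i ∈ Ord L f ℓ F k r χ) :
    n ≤ Module.finrank (IsLocalRing.ResidueField R)
      ((Sym (fbar f) j 1 (fun _ => 1)).map ((opT (fbar f) ℓ F) ^ m)) := by
  have hN : ℓ ^ r ≠ 0 := pow_ne_zero _ hℓ.ne_zero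
  have hinj : Function.Injective (algebraMap R L) := IsFractionRing.injective R L
  set S : Submodule R (Sy d t R) := Sym f k (ℓ ^ r) (fun x => χ x) with hS
  have hfin : Module.Finite R S := hFIN d t hdt f k (ℓ ^ r) (fun x => χ x) hN
  have hst : ∀ x ∈ S, op f ℓ F r x ∈ S := fun x hx =>
    ASM_stab hTSU hUSU d t hdt ℓ hℓ F hF f k r χ hχ x hx
  set u : S →ₗ[R] S := (op f ℓ F r).restrict hst with hu
  -- base change to L
  set ι := ASM_bc (algebraMap R L) S with hι
  have hιu : ∀ x, ι (u x) = op ((algebraMap R L).comp f) ℓ F r (ι x) := by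
    intro x
    exact ((hMPC d t f (algebraMap R L) ℓ F k r (ℓ ^ r) (fun x => χ x) x.1).2).symm
  have hιinj : ∀ x, ι x = 0 → x = 0 := by
    intro x hx
    apply Subtype.ext
    funext a c
    have h1 := congrFun (congrFun hx a) c
    have h2 : MvPolynomial.map (algebraMap R L) (x.1 a c) = 0 := h1
    exact (map_eq_zero_iff _ (MvPolynomial.map_injective _ hinj)).mp h2
  -- the polynomial
  choose hbS q hqm hqu hq0 using hO
  have hQm : (∏ i, q i).Monic := Polynomial.monic_prod_of_monic _ _ fun i _ => hqm i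
  have hQu : IsUnit ((∏ i, q i).coeff 0) := by
    refine Finset.prod_induction q (fun p => IsUnit (p.coeff 0)) ?_ ?_ fun i _ => hqu i
    · intro p p' hp hp'
      rw [Polynomial.mul_coeff_zero]
      exact hp.mul hp'
    · simp
  have hQ0 : ∀ i, aeval (op ((algebraMap R L).comp f) ℓ F r)
      ((∏ i, q i).map (algebraMap R L)) (b i) = 0 := by
    intro i
    obtain ⟨s, hs⟩ := Finset.dvd_prod_of_mem q (Finset.mem_univ i)
    rw [hs, Polynomial.map_mul, mul_comm, map_mul, Module.End.mul_apply, hq0 i, map_zero]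
  -- denominators
  have hden := fun i => hDEN d t hdt f k (ℓ ^ r) (fun x => χ x) hN (b i) (hbS i)
  choose s φ' hs hφ' hsφ using hden
  set y : Fin n → S := fun i => ⟨φ' i, hφ' i⟩ with hy
  have hιy : ∀ i, ι (y i) = algebraMap R L (s i) • b i := by
    intro i
    funext a c
    exact hsφ i a c
  have hyQ : ∀ i, aeval u (∏ i, q i) (y i) = 0 := by
    intro i
    apply hιinj
    rw [OD.ASM_aeval (algebraMap R L) ι (ASM_bc_smul _ _) u _ hιu, hιy, map_smul, hQ0, smul_zero]
  have hyind : LinearIndependent R y := by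
    rw [Fintype.linearIndependent_iff]
    intro g hg i
    rw [Fintype.linearIndependent_iff] at hb
    have h1 : ∑ i, (algebraMap R L (g i) * algebraMap R L (s i)) • b i = 0 := by
      have h2 := congrArg ι hg
      rw [map_sum, map_zero] at h2
      rw [← h2]
      refine Finset.sum_congr rfl fun i _ => ?_
      rw [hι, ASM_bc_smul, ← hι, hιy, smul_smul]
    have h3 := hb _ h1 i
    rw [← map_mul, map_eq_zero_iff _ hinj] at h3
    exact (mul_eq_zero.mp h3).resolve_right (hs i)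
  have hnz : NoZeroSMulDivisors R S := by
    refine ⟨fun {a x} h => ?_⟩
    by_cases ha : a = 0
    · exact Or.inl ha
    · refine Or.inr (Subtype.ext ?_)
      funext v w
      have h1 := congrFun (congrFun (congrArg Subtype.val h) v) w
      have h2 : a • x.1 v w = 0 := h1
      refine MvPolynomial.ext _ _ fun d => ?_
      have h3 := congrArg (MvPolynomial.coeff d) h2
      rw [MvPolynomial.coeff_smul, MvPolynomial.coeff_zero, smul_eq_mul] at h3
      exact (mul_eq_zero.mp h3).resolve_left ha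
  -- reduction
  obtain ⟨ϖ, hϖ⟩ := IsDiscreteValuationRing.exists_irreducible R
  set red := ASM_bc (IsLocalRing.residue R) S with hred
  have hredu : ∀ x, red (u x) = op (fbar f) ℓ F r (red x) := by
    intro x
    exact ((hMPC d t f (IsLocalRing.residue R) ℓ F k r (ℓ ^ r) (fun x => χ x) x.1).2).symm
  have hker : ∀ x, red x = 0 → ∃ z, x = ϖ • z := by
    intro x hx
    obtain ⟨z, hz, hxz⟩ := hDVI d t f k (ℓ ^ r) (fun x => χ x) ϖ hϖ.ne_zero x.1 x.2 (by
      intro a c d
      have h1 := congrFun (congrFun hx a) c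
      have h2 : MvPolynomial.map (IsLocalRing.residue R) (x.1 a c) = 0 := h1
      have h3 := congrArg (MvPolynomial.coeff d) h2
      rw [MvPolynomial.coeff_map, MvPolynomial.coeff_zero, IsLocalRing.residue_eq_zero_iff,
        hϖ.maximalIdeal_eq, Ideal.mem_span_singleton] at h3
      exact h3)
    exact ⟨⟨z, hz⟩, Subtype.ext hxz⟩
  -- the factorisation
  have hℓκ : ((ℓ : ℕ) : IsLocalRing.ResidueField R) = 0 := by
    rw [← map_natCast (IsLocalRing.residue R), IsLocalRing.residue_eq_zero_iff]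
    exact hf
  obtain ⟨Λ, M, hΛ⟩ := hFCU d t hdt ℓ hℓ hℓ2 F hF (fbar f) hℓκ k r j
    ((IsLocalRing.residue R : R →* IsLocalRing.ResidueField R).comp χ) hj
    (fun x y h => by simp [hχ x y h])
    (fun x hx => by
      have h1 := hcl x hx
      rw [map_mul, map_pow, map_pow] at h1
      exact h1) m
  have hfinj : Module.Finite (IsLocalRing.ResidueField R) (Sym (fbar f) j 1 (fun _ => 1)) :=
    hFIN d t hdt (fbar f) j 1 (fun _ => 1) one_ne_zero
  have hfin1 : Module.Finite (IsLocalRing.ResidueField R)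
      ((Sym (fbar f) j 1 (fun _ => 1)).map ((opT (fbar f) ℓ F) ^ m)) := Module.Finite.map _ _
  have hfin2 : Module.Finite (IsLocalRing.ResidueField R)
      (((Sym (fbar f) j 1 (fun _ => 1)).map ((opT (fbar f) ℓ F) ^ m)).map Λ) :=
    Module.Finite.map _ _
  refine (hLAT u (op (fbar f) ℓ F r) red ϖ hϖ (ASM_bc_smul _ _) hredu hker (∏ i, q i) hQm hQu M
    (((Sym (fbar f) j 1 (fun _ => 1)).map ((opT (fbar f) ℓ F) ^ m)).map Λ) hfin2 ?_ n y hyind
    hyQ).trans (Submodule.finrank_map_le _ _)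
  intro x
  exact hΛ (red x) ((hMPC d t f (IsLocalRing.residue R) ℓ F k r (ℓ ^ r) (fun x => χ x) x.1).1 x.2)

/-- the rank bound -/
theorem ASM_rank (hFIN : FIN_stmt) (hTSU : TSU_stmt) (hUSU : USU_stmt) (hFCU : FCU_stmt)
    (hMPC : MPC_stmt) (hDEN : DEN_stmt) (hDVI : DVI_stmt) (hLAT : OD.LAT_stmt)
    (d t : ℤ) (hdt : IsEuc d t) (ℓ : ℕ)
    (hℓ : ℓ.Prime) (hℓ2 : ℓ ≠ 2) (F : Finset (GO d t)) (hF : IsReps ℓ F) {R L : Type} [CommRing R]
    [IsDomain R] [IsDiscreteValuationRing R] [Field L] [Algebra R L] [IsFractionRing R L]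
    (f : Oz d t →+* R) (hf : ((ℓ : ℕ) : R) ∈ IsLocalRing.maximalIdeal R) (k r j : ℕ)
    (χ : Oz d t →* R) (hχ : ∀ x y : Oz d t, ((ℓ : ℕ) : Oz d t) ^ r ∣ x - y → χ x = χ y)
    (hj : 1 ≤ j) (hcl : InClass f ℓ k χ j) (m : ℕ) :
    Module.Finite L (Ord L f ℓ F k r χ) ∧
    Module.finrank L (Ord L f ℓ F k r χ) ≤ Module.finrank (IsLocalRing.ResidueField R)
      ((Sym (fbar f) j 1 (fun _ => 1)).map ((opT (fbar f) ℓ F) ^ m)) := by
  set B := Module.finrank (IsLocalRing.ResidueField R)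
      ((Sym (fbar f) j 1 (fun _ => 1)).map ((opT (fbar f) ℓ F) ^ m)) with hB
  have h1 : Module.rank L (Ord L f ℓ F k r χ) ≤ B := by
    refine rank_le fun s hs => ?_
    have hs' : LinearIndependent L (fun i : Fin s.card => ((s.equivFin.symm i).1 : Sy d t L)) := by
      have h2 := hs.comp (fun i : Fin s.card => s.equivFin.symm i) s.equivFin.symm.injective
      exact h2.map' (Submodule.subtype _) (Submodule.ker_subtype _)
    exact ASM_indep hFIN hTSU hUSU hFCU hMPC hDEN hDVI hLAT d t hdt ℓ hℓ hℓ2 F hF f hf k r j χ hχ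
      hj hcl m s.card _ hs' fun i => ((s.equivFin.symm i).1).2
  have h2 : Module.Finite L (Ord L f ℓ F k r χ) := by
    rw [← Module.rank_lt_aleph0_iff]
    exact lt_of_le_of_lt h1 (Cardinal.natCast_lt_aleph0)
  exact ⟨h2, Module.finrank_le_of_rank_le h1⟩

end Pool.Agent.OE
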