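import Pool.Agent.helper21.OE.Rows

/-!
# Project OE: assembly, invariance under complex conjugation
-/

namespace Pool.Agent.OE

open Polynomial

theorem ASC_cjcj {d t : ℤ} {A : Type} [CommRing A] (φ : Sy d t A) : cj (cj φ) = φ := by
  funext u v
  show sw (sw (φ (cv (cv u)) (cv (cv v)))) = φ u v
  rw [CJA.2.2.1, (CMG d t).2.2.2.2.2.1, (CMG d t).2.2.2.2.2.1]

/-- `cj` commutes with the operator at `ℓ` -/
theorem ASC_comm (d t : ℤ) (hdt : IsEuc d t) (ℓ : ℕ)
    (hℓ : ℓ.Prime) (F : Finset (GO d t)) (hF : IsReps ℓ F) {A : Type} [CommRing A]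
    (f : Oz d t →+* A) (k r : ℕ) (χ : Oz d t →* A)
    (hχ : ∀ x y : Oz d t, ((ℓ : ℕ) : Oz d t) ^ r ∣ x - y → χ x = χ y)
    (hχc : ∀ x, χ (star x) = χ x) (φ : Sy d t A)
    (hφ : IsSym f k (ℓ ^ r) (fun x => χ x) φ) :
    cj (op f ℓ F r φ) = op f ℓ F r (cj φ) := by
  by_cases hr : r = 0
  · subst hr
    have h1 : (fun x => χ x) = fun _ : Oz d t => (1 : A) := by
      funext x
      rw [hχ x 1 (by rw [pow_zero]; exact one_dvd _), map_one]
    rw [h1, pow_zero] at hφ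
    rw [op, if_pos rfl]
    exact M_CJT d t hdt ℓ hℓ F hF f k φ hφ
  · rw [op, if_neg hr]
    exact M_CJU d t hdt ℓ hℓ f k r (fun x => χ x) (map_one χ) hχc φ hφ

/-- the antisymmetric modular symbols -/
noncomputable def ASC_S {d t : ℤ} {A : Type} [CommRing A] (f : Oz d t →+* A) (k N : ℕ) (χ : Oz d t → A) :
    Submodule A (Sy d t A) := Sym f k N χ ⊓ LinearMap.ker (cj + LinearMap.id)

theorem ASC_mem {d t : ℤ} {A : Type} [CommRing A] (f : Oz d t →+* A) (k N : ℕ) (χ : Oz d t → A)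
    (φ : Sy d t A) : φ ∈ ASC_S f k N χ ↔ IsSym f k N χ φ ∧ cj φ = -φ := by
  rw [ASC_S, Submodule.mem_inf, LinearMap.mem_ker, LinearMap.add_apply, LinearMap.id_apply,
    add_eq_zero_iff_eq_neg]
  rfl

theorem ASC_opT_pow (d t : ℤ) (hdt : IsEuc d t) (ℓ : ℕ)
    (hℓ : ℓ.Prime) (F : Finset (GO d t)) (hF : IsReps ℓ F) {A : Type} [CommRing A]
    (f : Oz d t →+* A) (k n : ℕ) (φ : Sy d t A) (hφ : IsSym f k 1 (fun _ => 1) φ) :
    IsSym f k 1 (fun _ => 1) ((opT f ℓ F ^ n) φ) := by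
  induction n with
  | zero => simpa using hφ
  | succ n ih =>
    rw [pow_succ', Module.End.mul_apply]
    exact M_TSU d t hdt ℓ hℓ F hF f k _ ih

theorem ASC_op_pow (d t : ℤ) (hdt : IsEuc d t) (ℓ : ℕ)
    (hℓ : ℓ.Prime) (F : Finset (GO d t)) (hF : IsReps ℓ F) {A : Type} [CommRing A]
    (f : Oz d t →+* A) (k r : ℕ) (χ : Oz d t →* A)
    (hχ : ∀ x y : Oz d t, ((ℓ : ℕ) : Oz d t) ^ r ∣ x - y → χ x = χ y)
    (hχc : ∀ x, χ (star x) = χ x) (φ : Sy d t A)
    (hφ : IsSym f k (ℓ ^ r) (fun x => χ x) φ) (n : ℕ) :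
    IsSym f k (ℓ ^ r) (fun x => χ x) ((op f ℓ F r ^ n) φ) ∧
    cj ((op f ℓ F r ^ n) φ) = (op f ℓ F r ^ n) (cj φ) := by
  induction n with
  | zero => simpa using hφ
  | succ n ih =>
    rw [pow_succ', Module.End.mul_apply, Module.End.mul_apply]
    refine ⟨ASM_stab M_TSU M_USU d t hdt ℓ hℓ F hF f k r χ hχ _ ih.1, ?_⟩
    rw [ASC_comm d t hdt ℓ hℓ F hF f k r χ hχ hχc _ ih.1, ih.2]

/-- there are no antisymmetric ordinary symbols -/
theorem ASC_zero (d t : ℤ) (hdt : IsEuc d t) (ℓ : ℕ)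
    (hℓ : ℓ.Prime) (hℓ2 : ℓ ≠ 2) (F : Finset (GO d t)) (hF : IsReps ℓ F) {R L : Type} [CommRing R]
    [IsDomain R] [IsDiscreteValuationRing R] [Field L] [Algebra R L] [IsFractionRing R L]
    (f : Oz d t →+* R) (hf : ((ℓ : ℕ) : R) ∈ IsLocalRing.maximalIdeal R) (k r j : ℕ)
    (χ : Oz d t →* R) (hχ : ∀ x y : Oz d t, ((ℓ : ℕ) : Oz d t) ^ r ∣ x - y → χ x = χ y)
    (hχc : ∀ x, χ (star x) = χ x) (hj : 1 ≤ j)
    (hcl : InClass f ℓ k χ j) (m : ℕ)
    (hcr : ∀ w ∈ (Sym (fbar f) j 1 (fun _ => 1)).map ((opT (fbar f) ℓ F) ^ m), cj w = w)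
    (b : Sy d t L) (hO : b ∈ Ord L f ℓ F k r χ) (hbc : cj b = -b) : b = 0 := by
  by_contra hb0
  have hN : ℓ ^ r ≠ 0 := pow_ne_zero _ hℓ.ne_zero
  have hinj : Function.Injective (algebraMap R L) := IsFractionRing.injective R L
  set S0 : Submodule R (Sy d t R) := Sym f k (ℓ ^ r) (fun x => χ x) with hS0
  set S : Submodule R (Sy d t R) := ASC_S f k (ℓ ^ r) (fun x => χ x) with hS
  have hmem : ∀ φ, φ ∈ S ↔ IsSym f k (ℓ ^ r) (fun x => χ x) φ ∧ cj φ = -φ :=
    fun φ => ASC_mem f k (ℓ ^ r) (fun x => χ x) φ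
  have hfin0 : Module.Finite R S0 := M_FIN d t hdt f k (ℓ ^ r) (fun x => χ x) hN
  have hfin : Module.Finite R S := by
    have h1 : S ≤ S0 := fun φ hφ => ((hmem φ).mp hφ).1
    have h2 : IsNoetherian R S0 := isNoetherian_of_isNoetherianRing_of_finite R S0
    exact Module.Finite.of_injective (Submodule.inclusion h1) (Submodule.inclusion_injective h1)
  have hst : ∀ x ∈ S, op f ℓ F r x ∈ S := by
    intro x hx
    obtain ⟨h1, h2⟩ := (hmem x).mp hx
    refine (hmem _).mpr ⟨ASM_stab M_TSU M_USU d t hdt ℓ hℓ F hF f k r χ hχ x h1, ?_⟩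
    rw [ASC_comm d t hdt ℓ hℓ F hF f k r χ hχ hχc x h1, h2, map_neg]
  set u : S →ₗ[R] S := (op f ℓ F r).restrict hst with hu
  -- base change to L
  set ι := ASM_bc (algebraMap R L) S with hι
  have hιu : ∀ x, ι (u x) = op ((algebraMap R L).comp f) ℓ F r (ι x) := by
    intro x
    exact ((M_MPC d t f (algebraMap R L) ℓ F k r (ℓ ^ r) (fun x => χ x) x.1).2).symm
  have hιinj : ∀ x, ι x = 0 → x = 0 := by
    intro x hx
    apply Subtype.ext
    funext a c
    have h1 := congrFun (congrFun hx a) c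
    have h2 : MvPolynomial.map (algebraMap R L) (x.1 a c) = 0 := h1
    exact (map_eq_zero_iff _ (MvPolynomial.map_injective _ hinj)).mp h2
  obtain ⟨hbS, q, hqm, hqu, hq0⟩ := hO
  -- denominators
  obtain ⟨s, φ', hs, hφ', hsφ⟩ := M_DEN d t hdt f k (ℓ ^ r) (fun x => χ x) hN b hbS
  have hφ'c : cj φ' = -φ' := by
    funext a c
    apply MvPolynomial.map_injective _ hinj
    show MvPolynomial.map (algebraMap R L) (sw (φ' (cv a) (cv c))) =
      MvPolynomial.map (algebraMap R L) (-(φ' a c))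
    rw [CJA.2.2.2.2, hsφ, map_neg, hsφ, map_smul]
    have h1 := congrFun (congrFun hbc a) c
    have h2 : sw (b (cv a) (cv c)) = -(b a c) := h1
    rw [h2, smul_neg]
  set y : Fin 1 → S := fun _ => ⟨φ', (hmem φ').mpr ⟨hφ', hφ'c⟩⟩ with hy
  have hιy : ∀ i, ι (y i) = algebraMap R L s • b := by
    intro i
    funext a c
    exact hsφ a c
  have hyQ : ∀ i, aeval u q (y i) = 0 := by
    intro i
    apply hιinj
    rw [OD.ASM_aeval (algebraMap R L) ι (ASM_bc_smul _ _) u _ hιu, hιy i, map_smul, hq0,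
      smul_zero]
  have hs0 : algebraMap R L s ≠ 0 := by
    intro h
    exact hs ((map_eq_zero_iff _ hinj).mp h)
  have hyind : LinearIndependent R y := by
    rw [Fintype.linearIndependent_iff]
    intro g hg i
    have h2 := congrArg ι hg
    rw [map_sum, map_zero, Fin.sum_univ_one] at h2
    rw [hι, ASM_bc_smul, ← hι, hιy 0, smul_smul] at h2
    have h3 := (smul_eq_zero.mp h2).resolve_right hb0
    rw [← map_mul, map_eq_zero_iff _ hinj] at h3
    have h4 : i = 0 := Subsingleton.elim _ _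
    rw [h4]
    exact (mul_eq_zero.mp h3).resolve_right hs
  have hnz : NoZeroSMulDivisors R S := by
    refine ⟨fun {a x} h => ?_⟩
    by_cases ha : a = 0
    · exact Or.inl ha
    · refine Or.inr (Subtype.ext ?_)
      funext v w
      have h1 := congrFun (congrFun (congrArg Subtype.val h) v) w
      have h2 : a • x.1 v w = 0 := h1
      refine MvPolynomial.ext _ _ fun d => ?_
      have h3 := congrArg (MvPolynomial.coeff d) h2
      rw [MvPolynomial.coeff_smul, MvPolynomial.coeff_zero, smul_eq_mul] at h3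
      exact (mul_eq_zero.mp h3).resolve_left ha
  -- reduction
  obtain ⟨ϖ, hϖ⟩ := IsDiscreteValuationRing.exists_irreducible R
  set red := ASM_bc (IsLocalRing.residue R) S with hred
  have hredu : ∀ x, red (u x) = op (fbar f) ℓ F r (red x) := by
    intro x
    exact ((M_MPC d t f (IsLocalRing.residue R) ℓ F k r (ℓ ^ r) (fun x => χ x) x.1).2).symm
  have hker : ∀ x, red x = 0 → ∃ z, x = ϖ • z := by
    intro x hx
    obtain ⟨hx1, hx2⟩ := (hmem x.1).mp x.2
    obtain ⟨z, hz, hxz⟩ := DVI d t f k (ℓ ^ r) (fun x => χ x) ϖ hϖ.ne_zero x.1 hx1 (by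
      intro a c d
      have h1 := congrFun (congrFun hx a) c
      have h2 : MvPolynomial.map (IsLocalRing.residue R) (x.1 a c) = 0 := h1
      have h3 := congrArg (MvPolynomial.coeff d) h2
      rw [MvPolynomial.coeff_map, MvPolynomial.coeff_zero, IsLocalRing.residue_eq_zero_iff,
        hϖ.maximalIdeal_eq, Ideal.mem_span_singleton] at h3
      exact h3)
    have hzc : cj z = -z := by
      funext a c
      have h1 := congrFun (congrFun hx2 a) c
      rw [hxz, map_smul] at h1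
      have h2 : ϖ • (cj z) a c = -(ϖ • z a c) := h1
      refine MvPolynomial.ext _ _ fun e => ?_
      have h3 := congrArg (MvPolynomial.coeff e) h2
      rw [MvPolynomial.coeff_smul, MvPolynomial.coeff_neg, MvPolynomial.coeff_smul, smul_eq_mul,
        smul_eq_mul, ← mul_neg] at h3
      exact mul_left_cancel₀ hϖ.ne_zero h3
    exact ⟨⟨z, (hmem z).mpr ⟨hz, hzc⟩⟩, Subtype.ext hxz⟩
  -- the factorisation
  have hℓκ : ((ℓ : ℕ) : IsLocalRing.ResidueField R) = 0 := by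
    rw [← map_natCast (IsLocalRing.residue R), IsLocalRing.residue_eq_zero_iff]
    exact hf
  have h2κ : (2 : IsLocalRing.ResidueField R) ≠ 0 := by
    intro h2
    have hc : Nat.Coprime ℓ 2 := (Nat.coprime_primes hℓ Nat.prime_two).2 hℓ2
    obtain ⟨a, b, hab⟩ := Nat.isCoprime_iff_coprime.2 hc
    have h3 : ((a * (ℓ : ℤ) + b * ((2 : ℕ) : ℤ) : ℤ) : IsLocalRing.ResidueField R) =
      ((1 : ℤ) : IsLocalRing.ResidueField R) := by rw [hab]
    push_cast at h3
    rw [hℓκ, h2] at h3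
    simp at h3
  set χb : Oz d t →* IsLocalRing.ResidueField R :=
    (IsLocalRing.residue R : R →* IsLocalRing.ResidueField R).comp χ with hχb
  have hχb1 : ∀ x y : Oz d t, ((ℓ : ℕ) : Oz d t) ^ r ∣ x - y → χb x = χb y :=
    fun x y h => by simp [hχb, hχ x y h]
  have hχbc : ∀ x, χb (star x) = χb x := fun x => by simp [hχb, hχc x]
  obtain ⟨Λ, M, hΛc, hΛ⟩ := M_FCV d t hdt ℓ hℓ hℓ2 F hF (fbar f) hℓκ k r j χb hj hχb1
    (fun x hx => by
      have h1 := hcl x hx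
      rw [map_mul, map_pow, map_pow] at h1
      exact h1) m
  have hbot : ∀ x, ((op (fbar f) ℓ F r) ^ M) (red x) ∈
      (⊥ : Submodule (IsLocalRing.ResidueField R) (Sy d t (IsLocalRing.ResidueField R))) := by
    intro x
    obtain ⟨hx1, hx2⟩ := (hmem x.1).mp x.2
    have hrs : IsSym (fbar f) k (ℓ ^ r) (fun x => χb x) (red x) :=
      (M_MPC d t f (IsLocalRing.residue R) ℓ F k r (ℓ ^ r) (fun x => χ x) x.1).1 hx1
    have hrc : cj (red x) = -(red x) := by
      funext a c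
      show sw (MvPolynomial.map (IsLocalRing.residue R) (x.1 (cv a) (cv c))) =
        -(MvPolynomial.map (IsLocalRing.residue R) (x.1 a c))
      rw [← CJA.2.2.2.2, ← map_neg]
      congr 1
      exact congrFun (congrFun hx2 a) c
    obtain ⟨z, hz, hΛz⟩ := hΛ (red x) hrs
    obtain ⟨w, hw, hwz⟩ := hz
    have hzs : IsSym (fbar f) j 1 (fun _ => 1) z := by
      rw [← hwz]
      exact ASC_opT_pow d t hdt ℓ hℓ F hF (fbar f) j m w hw
    have h1 : cj (((op (fbar f) ℓ F r) ^ M) (red x)) = ((op (fbar f) ℓ F r) ^ M) (red x) := by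
      rw [← hΛz, hΛc z hzs, hcr z ⟨w, hw, hwz⟩]
    have h2 := (ASC_op_pow d t hdt ℓ hℓ F hF (fbar f) k r χb hχb1 hχbc (red x) hrs M).2
    rw [hrc, map_neg, h1] at h2
    rw [Submodule.mem_bot]
    have h3 : (2 : IsLocalRing.ResidueField R) • ((op (fbar f) ℓ F r) ^ M) (red x) = 0 := by
      rw [two_smul]
      nth_rewrite 1 [h2]
      exact neg_add_cancel _
    exact (smul_eq_zero.mp h3).resolve_left h2κ
  have hfb : Module.Finite (IsLocalRing.ResidueField R)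
      (⊥ : Submodule (IsLocalRing.ResidueField R) (Sy d t (IsLocalRing.ResidueField R))) :=
    inferInstance
  have h1 := OD.LAT u (op (fbar f) ℓ F r) red ϖ hϖ (ASM_bc_smul _ _) hredu hker q hqm hqu M
    ⊥ hfb hbot 1 y hyind hyQ
  rw [finrank_bot] at h1
  omega

/-- the invariance -/
theorem ASC_main (d t : ℤ) (hdt : IsEuc d t) (ℓ : ℕ)
    (hℓ : ℓ.Prime) (hℓ2 : ℓ ≠ 2) (F : Finset (GO d t)) (hF : IsReps ℓ F) {R L : Type} [CommRing R]
    [IsDomain R] [IsDiscreteValuationRing R] [Field L] [Algebra R L] [IsFractionRing R L]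
    (f : Oz d t →+* R) (hf : ((ℓ : ℕ) : R) ∈ IsLocalRing.maximalIdeal R) (k r j : ℕ)
    (χ : Oz d t →* R) (hχ : ∀ x y : Oz d t, ((ℓ : ℕ) : Oz d t) ^ r ∣ x - y → χ x = χ y)
    (hχc : ∀ x, χ (star x) = χ x) (hj : 1 ≤ j)
    (hcl : InClass f ℓ k χ j) (m : ℕ)
    (hcr : ∀ w ∈ (Sym (fbar f) j 1 (fun _ => 1)).map ((opT (fbar f) ℓ F) ^ m), cj w = w)
    (φ : Sy d t L) (hφ : φ ∈ Ord L f ℓ F k r χ) : cj φ = φ := by
  set χL : Oz d t →* L := (algebraMap R L : R →* L).comp χ with hχL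
  have hχL1 : ∀ x y : Oz d t, ((ℓ : ℕ) : Oz d t) ^ r ∣ x - y → χL x = χL y :=
    fun x y h => by simp [hχL, hχ x y h]
  have hχLc : ∀ x, χL (star x) = χL x := fun x => by simp [hχL, hχc x]
  obtain ⟨hS, q, hqm, hqu, hq0⟩ := hφ
  have hSc : IsSym ((algebraMap R L).comp f) k (ℓ ^ r) (fun x => χL x) (cj φ) :=
    M_CJS _ k (ℓ ^ r) (fun x => χL x) φ hχLc hS
  -- the polynomial kills the conjugate
  set S : Submodule L (Sy d t L) := Sym ((algebraMap R L).comp f) k (ℓ ^ r) (fun x => χL x)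
    with hSd
  have hst : ∀ x ∈ S, op ((algebraMap R L).comp f) ℓ F r x ∈ S := fun x hx =>
    ASM_stab M_TSU M_USU d t hdt ℓ hℓ F hF _ k r χL hχL1 x hx
  set u : S →ₗ[L] S := (op ((algebraMap R L).comp f) ℓ F r).restrict hst with hu
  set g1 : S →+ Sy d t L := (cj.comp S.subtype).toAddMonoidHom with hg1
  set g2 : S →+ Sy d t L := (S.subtype).toAddMonoidHom with hg2
  have hQc : aeval (op ((algebraMap R L).comp f) ℓ F r) (q.map (algebraMap R L)) (cj φ) = 0 := by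
    have h1 := OD.ASM_aeval (RingHom.id L) g1 (fun a x => by simp [g1]) u
      (op ((algebraMap R L).comp f) ℓ F r) (fun x =>
        ASC_comm d t hdt ℓ hℓ F hF _ k r χL hχL1 hχLc x.1 x.2) (q.map (algebraMap R L)) ⟨φ, hS⟩
    have h2 := OD.ASM_aeval (RingHom.id L) g2 (fun a x => by simp [g2]) u
      (op ((algebraMap R L).comp f) ℓ F r) (fun x => rfl) (q.map (algebraMap R L)) ⟨φ, hS⟩
    rw [Polynomial.map_id] at h1 h2
    have h3 : aeval u (q.map (algebraMap R L)) ⟨φ, hS⟩ = 0 := by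
      apply Subtype.ext
      have h4 : g2 (⟨φ, hS⟩ : S) = φ := rfl
      rw [h4, hq0] at h2
      exact h2
    rw [h3, map_zero] at h1
    exact h1.symm
  have hcO : cj φ ∈ Ord L f ℓ F k r χ := ⟨hSc, q, hqm, hqu, hQc⟩
  have hφO : φ ∈ Ord L f ℓ F k r χ := ⟨hS, q, hqm, hqu, hq0⟩
  have h1 := ASC_zero d t hdt ℓ hℓ hℓ2 F hF f hf k r j χ hχ hχc hj hcl m hcr (φ - cj φ)
    (Submodule.sub_mem _ hφO hcO) (by rw [map_sub, ASC_cjcj]; abel)
  exact (sub_eq_zero.mp h1).symm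

end Pool.Agent.OE
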