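import Pool.Agent.helper21.OE.SpecB

/-!
# Project OE: the checker for the certificates modulo `ℓ` of the period relations, arithmetic part

Elements of `O / ℓ` are pairs of natural numbers; vectors of such elements are pairs of large natural
numbers, the digits in base `CKB`.
-/

namespace Pool.Agent.OE

open Finset

/-- the base -/
def CKB : ℕ := 17592186044416

/-- product of two elements of `O / l` -/
def CK_mul (nd t l : ℕ) (p q : ℕ × ℕ) : ℕ × ℕ :=
  (Nat.mod (Nat.add (Nat.mul p.1 q.1) (Nat.mul nd (Nat.mul p.2 q.2))) l,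
   Nat.mod (Nat.add (Nat.add (Nat.mul p.1 q.2) (Nat.mul p.2 q.1))
    (Nat.mul t (Nat.mul p.2 q.2))) l)

/-- powers -/
noncomputable def CK_pow (nd t l : ℕ) (p : ℕ × ℕ) (s : ℕ) : ℕ × ℕ :=
  Nat.rec (motive := fun _ => ℕ × ℕ) (1, 0) (fun _ q => CK_mul nd t l p q) s

/-- conjugate -/
def CK_st (t l : ℕ) (p : ℕ × ℕ) : ℕ × ℕ :=
  (Nat.mod (Nat.add p.1 (Nat.mul t p.2)) l, Nat.mod (Nat.mul (Nat.sub l 1) p.2) l)

/-- `a x + c` -/
def CK_aff (l : ℕ) (a c : ℕ × ℕ) (x : ℕ) : ℕ × ℕ :=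
  (Nat.mod (Nat.add (Nat.mul a.1 x) c.1) l, Nat.mod (Nat.add (Nat.mul a.2 x) c.2) l)

/-- `(a x + c)^s (b x + e)^(j-s)` -/
noncomputable def CK_A (nd t l j : ℕ) (g : (ℕ × ℕ) × (ℕ × ℕ) × (ℕ × ℕ) × (ℕ × ℕ)) (x s : ℕ) :
    ℕ × ℕ :=
  CK_mul nd t l (CK_pow nd t l (CK_aff l g.1 g.2.2.1 x) s)
    (CK_pow nd t l (CK_aff l g.2.1 g.2.2.2 x) (Nat.sub j s))

/-- sum over `s < K` -/
noncomputable def CK_sm (f : ℕ → ℕ) (K : ℕ) : ℕ :=
  Nat.rec (motive := fun _ => ℕ) 0 (fun s r => Nat.add r (f s)) K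

theorem CK_sm_eq (f : ℕ → ℕ) (K : ℕ) : CK_sm f K = ∑ s ∈ range K, f s := by
  induction K with
  | zero => rfl
  | succ K ih =>
    rw [Finset.sum_range_succ, ← ih]
    rfl

section sem

variable {κ : Type} [Field κ]

/-- the value of a pair in the field; `w` is the image of `ω` -/
def CK_i (w : κ) (p : ℕ × ℕ) : κ := (p.1 : κ) + (p.2 : κ) * w

theorem CK_mod (l : ℕ) (hl : (l : κ) = 0) (a : ℕ) : ((a % l : ℕ) : κ) = (a : κ) := by
  have h := Nat.div_add_mod a l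
  have h2 := congrArg (Nat.cast : ℕ → κ) h
  rw [Nat.cast_add, Nat.cast_mul, hl, zero_mul, zero_add] at h2
  exact h2

theorem CK_i_mul (nd t l : ℕ) (hl : (l : κ) = 0) (w : κ) (hw : w * w = t * w + nd) (p q : ℕ × ℕ) :
    CK_i w (CK_mul nd t l p q) = CK_i w p * CK_i w q := by
  have h1 : ((CK_mul nd t l p q).1 : κ) = p.1 * q.1 + nd * (p.2 * q.2) := by
    rw [CK_mul]
    simp only
    rw [show Nat.mod = (fun a b => a % b) from rfl]
    simp only
    rw [CK_mod l hl]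
    push_cast [Nat.add_eq, Nat.mul_eq]
    ring
  have h2 : ((CK_mul nd t l p q).2 : κ) = p.1 * q.2 + p.2 * q.1 + t * (p.2 * q.2) := by
    rw [CK_mul]
    simp only
    rw [show Nat.mod = (fun a b => a % b) from rfl]
    simp only
    rw [CK_mod l hl]
    push_cast [Nat.add_eq, Nat.mul_eq]
    ring
  rw [CK_i, CK_i, CK_i, h1, h2]
  linear_combination (-(p.2 : κ) * q.2) * hw

theorem CK_i_pow (nd t l : ℕ) (hl : (l : κ) = 0) (w : κ) (hw : w * w = t * w + nd) (p : ℕ × ℕ)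
    (s : ℕ) : CK_i w (CK_pow nd t l p s) = CK_i w p ^ s := by
  induction s with
  | zero => simp [CK_pow, CK_i]
  | succ s ih =>
    have h : CK_pow nd t l p (s + 1) = CK_mul nd t l p (CK_pow nd t l p s) := rfl
    rw [h, CK_i_mul nd t l hl w hw, ih, pow_succ']

/-- `w'` is the image of the conjugate of `ω` -/
theorem CK_i_st (t l : ℕ) (hl1 : 1 ≤ l) (hl : (l : κ) = 0) (w w' : κ) (hw : w' = t - w)
    (p : ℕ × ℕ) : CK_i w (CK_st t l p) = CK_i w' p := by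
  have h1 : ((CK_st t l p).1 : κ) = p.1 + t * p.2 := by
    rw [CK_st]
    simp only
    rw [show Nat.mod = (fun a b => a % b) from rfl]
    simp only
    rw [CK_mod l hl]
    push_cast [Nat.add_eq, Nat.mul_eq]
    ring
  have h2 : ((CK_st t l p).2 : κ) = - p.2 := by
    rw [CK_st]
    simp only
    rw [show Nat.mod = (fun a b => a % b) from rfl]
    simp only
    rw [CK_mod l hl, Nat.mul_eq, Nat.sub_eq, Nat.cast_mul, Nat.cast_sub hl1, hl]
    push_cast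
    ring
  rw [CK_i, CK_i, h1, h2, hw]
  ring

theorem CK_i_aff (l : ℕ) (hl : (l : κ) = 0) (w : κ) (a c : ℕ × ℕ) (x : ℕ) :
    CK_i w (CK_aff l a c x) = CK_i w a * x + CK_i w c := by
  have h1 : ((CK_aff l a c x).1 : κ) = a.1 * x + c.1 := by
    rw [CK_aff]
    simp only
    rw [show Nat.mod = (fun a b => a % b) from rfl]
    simp only
    rw [CK_mod l hl]
    push_cast [Nat.add_eq, Nat.mul_eq]
    ring
  have h2 : ((CK_aff l a c x).2 : κ) = a.2 * x + c.2 := by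
    rw [CK_aff]
    simp only
    rw [show Nat.mod = (fun a b => a % b) from rfl]
    simp only
    rw [CK_mod l hl]
    push_cast [Nat.add_eq, Nat.mul_eq]
    ring
  rw [CK_i, CK_i, CK_i, h1, h2]
  ring

theorem CK_i_A (nd t l j : ℕ) (hl : (l : κ) = 0) (w : κ) (hw : w * w = t * w + nd)
    (g : (ℕ × ℕ) × (ℕ × ℕ) × (ℕ × ℕ) × (ℕ × ℕ)) (x s : ℕ) :
    CK_i w (CK_A nd t l j g x s) = (CK_i w g.1 * x + CK_i w g.2.2.1) ^ s *
      (CK_i w g.2.1 * x + CK_i w g.2.2.2) ^ (j - s) := by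
  rw [CK_A, CK_i_mul nd t l hl w hw, CK_i_pow nd t l hl w hw, CK_i_pow nd t l hl w hw,
    CK_i_aff l hl, CK_i_aff l hl]
  rfl

end sem

/-! ## bounds -/

theorem CK_mul_lt (nd t l : ℕ) (hl : 0 < l) (p q : ℕ × ℕ) :
    (CK_mul nd t l p q).1 < l ∧ (CK_mul nd t l p q).2 < l :=
  ⟨Nat.mod_lt _ hl, Nat.mod_lt _ hl⟩

theorem CK_st_lt (t l : ℕ) (hl : 0 < l) (p : ℕ × ℕ) :
    (CK_st t l p).1 < l ∧ (CK_st t l p).2 < l :=
  ⟨Nat.mod_lt _ hl, Nat.mod_lt _ hl⟩

theorem CK_A_lt (nd t l j : ℕ) (hl : 0 < l) (g : (ℕ × ℕ) × (ℕ × ℕ) × (ℕ × ℕ) × (ℕ × ℕ))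
    (x s : ℕ) : (CK_A nd t l j g x s).1 < l ∧ (CK_A nd t l j g x s).2 < l :=
  CK_mul_lt nd t l hl _ _

/-! ## packed numbers -/

/-- the number with the digits `D i`, `i < n` -/
def CK_pk (n : ℕ) (D : ℕ → ℕ) : ℕ := ∑ i ∈ range n, D i * CKB ^ i

theorem CK_reindex {M : Type} [AddCommMonoid M] (K L : ℕ) (hK : 0 < K) (f : ℕ → ℕ → M) :
    ∑ s ∈ range L, ∑ r ∈ range K, f s r = ∑ i ∈ range (L * K), f (i / K) (i % K) := by
  induction L with
  | zero => simp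
  | succ L ih =>
    rw [Finset.sum_range_succ, ih, Nat.succ_mul, Finset.sum_range_add]
    congr 1
    refine Finset.sum_congr rfl fun r hr => ?_
    rw [Finset.mem_range] at hr
    rw [show (L * K + r) / K = L by
      rw [mul_comm, Nat.mul_add_div hK, Nat.div_eq_of_lt hr, add_zero],
      show (L * K + r) % K = r by rw [mul_comm, Nat.mul_add_mod, Nat.mod_eq_of_lt hr]]

theorem CK_pk_mul (K : ℕ) (hK : 0 < K) (a b : ℕ → ℕ) :
    (∑ s ∈ range K, a s * CKB ^ (K * s)) * (∑ r ∈ range K, b r * CKB ^ r) =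
      CK_pk (K * K) (fun i => a (i / K) * b (i % K)) := by
  rw [CK_pk, Finset.sum_mul_sum, CK_reindex K K hK
    (fun s r => a s * CKB ^ (K * s) * (b r * CKB ^ r))]
  refine Finset.sum_congr rfl fun i _ => ?_
  rw [show a (i / K) * CKB ^ (K * (i / K)) * (b (i % K) * CKB ^ (i % K)) =
    a (i / K) * b (i % K) * (CKB ^ (K * (i / K)) * CKB ^ (i % K)) by ring, ← pow_add,
    Nat.div_add_mod]

theorem CK_pk_add (n : ℕ) (D E : ℕ → ℕ) :
    CK_pk n D + CK_pk n E = CK_pk n (fun i => D i + E i) := by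
  rw [CK_pk, CK_pk, CK_pk, ← Finset.sum_add_distrib]
  exact Finset.sum_congr rfl fun i _ => by ring

theorem CK_pk_smul (n a : ℕ) (D : ℕ → ℕ) :
    a * CK_pk n D = CK_pk n (fun i => a * D i) := by
  rw [CK_pk, CK_pk, Finset.mul_sum]
  exact Finset.sum_congr rfl fun i _ => by ring

theorem CK_pk_lt (n : ℕ) (D : ℕ → ℕ) (hD : ∀ i < n, D i < CKB) : CK_pk n D < CKB ^ n := by
  induction n with
  | zero => simp [CK_pk]
  | succ n ih =>
    have h1 := ih fun i hi => hD i (by omega)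
    have h2 := hD n (by omega)
    rw [CK_pk, Finset.sum_range_succ, ← CK_pk, pow_succ]
    calc CK_pk n D + D n * CKB ^ n < CKB ^ n + D n * CKB ^ n := by omega
      _ = (D n + 1) * CKB ^ n := by ring
      _ ≤ CKB * CKB ^ n := Nat.mul_le_mul_right _ (by omega)
      _ = CKB ^ n * CKB := by ring

theorem CK_digit (n : ℕ) (D : ℕ → ℕ) (hD : ∀ i < n, D i < CKB) (i : ℕ) (hi : i < n) :
    CK_pk n D / CKB ^ i % CKB = D i := by
  have hB : 0 < CKB := by norm_num [CKB]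
  have h1 : CK_pk n D = CK_pk i D + CKB ^ i * (D i + CKB *
      ∑ k ∈ range (n - (i + 1)), D (i + 1 + k) * CKB ^ k) := by
    conv_lhs => rw [CK_pk, show n = (i + 1) + (n - (i + 1)) by omega, Finset.sum_range_add,
      Finset.sum_range_succ, ← CK_pk]
    have h2 : ∑ x ∈ range (n - (i + 1)), D (i + 1 + x) * CKB ^ (i + 1 + x) =
        CKB ^ i * (CKB * ∑ k ∈ range (n - (i + 1)), D (i + 1 + k) * CKB ^ k) := by
      rw [Finset.mul_sum, Finset.mul_sum]
      refine Finset.sum_congr rfl fun k _ => ?_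
      rw [pow_add, pow_succ]
      ring
    rw [h2]
    ring
  have h3 : CK_pk i D < CKB ^ i := CK_pk_lt i D fun k hk => hD k (by omega)
  rw [h1, Nat.add_mul_div_left _ _ (Nat.pow_pos hB), Nat.div_eq_of_lt h3, zero_add,
    Nat.add_mul_mod_self_left, Nat.mod_eq_of_lt (hD i hi)]

end Pool.Agent.OE
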