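import Pool.Agent.helper21.OE.CKA

/-!
# Project OE: the checker for the certificates modulo `ℓ`, rows and combinations
-/

namespace Pool.Agent.OE

open Finset

/-- codes of matrices: the four entries as pairs -/
abbrev CK_G : Type := (ℕ × ℕ) × (ℕ × ℕ) × (ℕ × ℕ) × (ℕ × ℕ)

/-- packed sum with stride `K` -/
noncomputable def CK_out (c : ℕ → ℕ) (K : ℕ) : ℕ :=
  CK_sm (fun s => Nat.mul (c s) (Nat.pow CKB (Nat.mul K s))) K

/-- packed sum with stride one -/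
noncomputable def CK_inn (c : ℕ → ℕ) (K : ℕ) : ℕ :=
  CK_sm (fun s => Nat.mul (c s) (Nat.pow CKB s)) K

/-- the pair `A B - A' B'` -/
def CK_cmb (nd t l : ℕ) (a1 a2 b1 b2 a1' a2' b1' b2' : ℕ) : ℕ × ℕ :=
  (Nat.add (Nat.add (Nat.mul a1 b1) (Nat.mul nd (Nat.mul a2 b2)))
    (Nat.mul (Nat.sub l 1) (Nat.add (Nat.mul a1' b1') (Nat.mul nd (Nat.mul a2' b2')))),
   Nat.add (Nat.add (Nat.add (Nat.mul a1 b2) (Nat.mul a2 b1)) (Nat.mul t (Nat.mul a2 b2)))
    (Nat.mul (Nat.sub l 1) (Nat.add (Nat.add (Nat.mul a1' b2') (Nat.mul a2' b1'))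
      (Nat.mul t (Nat.mul a2' b2')))))

/-- the contribution of one matrix -/
noncomputable def CK_one (nd t l j K : ℕ) (x y : ℕ) (g : CK_G) : ℕ × ℕ :=
  CK_cmb nd t l
    (CK_out (fun s => (CK_A nd t l j g x s).1) K) (CK_out (fun s => (CK_A nd t l j g x s).2) K)
    (CK_inn (fun s => (CK_st t l (CK_A nd t l j g y s)).1) K)
    (CK_inn (fun s => (CK_st t l (CK_A nd t l j g y s)).2) K)
    (CK_out (fun s => (CK_A nd t l j g x (Nat.sub j s)).1) K)
    (CK_out (fun s => (CK_A nd t l j g x (Nat.sub j s)).2) K)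
    (CK_inn (fun s => (CK_st t l (CK_A nd t l j g y (Nat.sub j s))).1) K)
    (CK_inn (fun s => (CK_st t l (CK_A nd t l j g y (Nat.sub j s))).2) K)

/-- the value of a pair of packed numbers -/
def CK_V {κ : Type} [Field κ] (K : ℕ) (w : κ) (c : ℕ → ℕ → κ) (β : ℕ) (P : ℕ × ℕ) (v : κ) :
    Prop :=
  ∃ D E : ℕ → ℕ, P.1 = CK_pk (K * K) D ∧ P.2 = CK_pk (K * K) E ∧ (∀ i, D i ≤ β) ∧
    (∀ i, E i ≤ β) ∧ ∑ i ∈ range (K * K), ((D i : κ) + (E i : κ) * w) * c (i / K) (i % K) = v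

theorem CK_V_add {κ : Type} [Field κ] (K : ℕ) (w : κ) (c : ℕ → ℕ → κ) (β β' : ℕ) (P P' : ℕ × ℕ)
    (v v' : κ) (h : CK_V K w c β P v) (h' : CK_V K w c β' P' v') :
    CK_V K w c (β + β') (Nat.add P.1 P'.1, Nat.add P.2 P'.2) (v + v') := by
  obtain ⟨D, E, h1, h2, h3, h4, h5⟩ := h
  obtain ⟨D', E', h1', h2', h3', h4', h5'⟩ := h'
  refine ⟨fun i => D i + D' i, fun i => E i + E' i, ?_, ?_, fun i => add_le_add (h3 i) (h3' i),
    fun i => add_le_add (h4 i) (h4' i), ?_⟩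
  · show P.1 + P'.1 = _
    rw [h1, h1', CK_pk_add]
  · show P.2 + P'.2 = _
    rw [h2, h2', CK_pk_add]
  · rw [← h5, ← h5', ← Finset.sum_add_distrib]
    refine Finset.sum_congr rfl fun i _ => ?_
    push_cast
    ring

theorem CK_V_mul {κ : Type} [Field κ] (nd t K : ℕ) (ht : t ≤ 1) (w : κ)
    (hw : w * w = t * w + nd) (c : ℕ → ℕ → κ) (β α : ℕ) (P : ℕ × ℕ) (v : κ)
    (h : CK_V K w c β P v) (y1 y2 : ℕ) (hy1 : y1 ≤ α) (hy2 : y2 ≤ α) :
    CK_V K w c (α * (3 + nd) * β) (Nat.add (Nat.mul y1 P.1) (Nat.mul nd (Nat.mul y2 P.2)),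
      Nat.add (Nat.add (Nat.mul y1 P.2) (Nat.mul y2 P.1)) (Nat.mul t (Nat.mul y2 P.2)))
      (((y1 : κ) + y2 * w) * v) := by
  obtain ⟨D, E, h1, h2, h3, h4, h5⟩ := h
  refine ⟨fun i => y1 * D i + nd * (y2 * E i), fun i => y1 * E i + y2 * D i + t * (y2 * E i),
    ?_, ?_, fun i => ?_, fun i => ?_, ?_⟩
  · show y1 * P.1 + nd * (y2 * P.2) = _
    rw [h1, h2, CK_pk_smul, CK_pk_smul, CK_pk_smul, CK_pk_add]
  · show y1 * P.2 + y2 * P.1 + t * (y2 * P.2) = _
    rw [h1, h2, CK_pk_smul, CK_pk_smul, CK_pk_smul, CK_pk_smul, CK_pk_add, CK_pk_add]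
  · have e1 : y1 * D i ≤ α * β := Nat.mul_le_mul hy1 (h3 i)
    have e2 : nd * (y2 * E i) ≤ nd * (α * β) := Nat.mul_le_mul_left _ (Nat.mul_le_mul hy2 (h4 i))
    calc y1 * D i + nd * (y2 * E i) ≤ α * β + nd * (α * β) := add_le_add e1 e2
      _ ≤ α * (3 + nd) * β := by nlinarith [Nat.zero_le (α * β)]
  · have e1 : y1 * E i ≤ α * β := Nat.mul_le_mul hy1 (h4 i)
    have e2 : y2 * D i ≤ α * β := Nat.mul_le_mul hy2 (h3 i)
    have e3 : t * (y2 * E i) ≤ 1 * (α * β) := Nat.mul_le_mul ht (Nat.mul_le_mul hy2 (h4 i))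
    calc y1 * E i + y2 * D i + t * (y2 * E i) ≤ α * β + α * β + 1 * (α * β) :=
          add_le_add (add_le_add e1 e2) e3
      _ ≤ α * (3 + nd) * β := by nlinarith [Nat.zero_le (nd * (α * β))]
  · rw [← h5, Finset.mul_sum]
    refine Finset.sum_congr rfl fun i _ => ?_
    push_cast
    linear_combination (-(y2 : κ) * E i * c (i / K) (i % K)) * hw

theorem CK_one_V {κ : Type} [Field κ] (nd t l j : ℕ) (ht : t ≤ 1) (hl0 : 0 < l)
    (hl : (l : κ) = 0) (w w' : κ) (hw : w * w = t * w + nd) (hw' : w' = t - w)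
    (c : ℕ → ℕ → κ) (hc : ∀ s r, s ≤ j → r ≤ j → c (j - s) (j - r) = - c s r)
    (x y : ℕ) (g : CK_G) :
    CK_V (j + 1) w c (l ^ 3 * (3 + nd)) (CK_one nd t l j (j + 1) x y g)
      (2 * ∑ s ∈ range (j + 1), ∑ r ∈ range (j + 1),
        (CK_i w g.1 * x + CK_i w g.2.2.1) ^ s * (CK_i w g.2.1 * x + CK_i w g.2.2.2) ^ (j - s) *
        ((CK_i w' g.1 * y + CK_i w' g.2.2.1) ^ r *
          (CK_i w' g.2.1 * y + CK_i w' g.2.2.2) ^ (j - r)) * c s r) := by
  set K := j + 1 with hK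
  have hK0 : 0 < K := by omega
  set A : ℕ → ℕ × ℕ := fun s => CK_A nd t l j g x s with hA
  set Bb : ℕ → ℕ × ℕ := fun s => CK_st t l (CK_A nd t l j g y s) with hBb
  have hAl : ∀ s, (A s).1 < l ∧ (A s).2 < l := fun s => CK_A_lt nd t l j hl0 g x s
  have hBl : ∀ s, (Bb s).1 < l ∧ (Bb s).2 < l := fun s => CK_st_lt t l hl0 _
  have hwt : w' * w' = t * w' + nd := by
    rw [hw']
    linear_combination hw
  have hAi : ∀ s, CK_i w (A s) = (CK_i w g.1 * x + CK_i w g.2.2.1) ^ s *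
      (CK_i w g.2.1 * x + CK_i w g.2.2.2) ^ (j - s) := fun s => CK_i_A nd t l j hl w hw g x s
  have hBi : ∀ s, CK_i w (Bb s) = (CK_i w' g.1 * y + CK_i w' g.2.2.1) ^ s *
      (CK_i w' g.2.1 * y + CK_i w' g.2.2.2) ^ (j - s) := by
    intro s
    rw [hBb]
    simp only
    rw [CK_i_st t l hl0 hl w w' hw', CK_i_A nd t l j hl w' hwt]
  have hout : ∀ c : ℕ → ℕ, CK_out c K = ∑ s ∈ range K, c s * CKB ^ (K * s) := fun c => CK_sm_eq _ K
  have hinn : ∀ c : ℕ → ℕ, CK_inn c K = ∑ s ∈ range K, c s * CKB ^ s := fun c => CK_sm_eq _ K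
  have hprod : ∀ a b : ℕ → ℕ, CK_out a K * CK_inn b K =
      CK_pk (K * K) (fun i => a (i / K) * b (i % K)) := by
    intro a b
    rw [hout, hinn, CK_pk_mul K hK0]
  refine ⟨fun i => (A (i / K)).1 * (Bb (i % K)).1 + nd * ((A (i / K)).2 * (Bb (i % K)).2) +
      (l - 1) * ((A (j - i / K)).1 * (Bb (j - i % K)).1 +
        nd * ((A (j - i / K)).2 * (Bb (j - i % K)).2)),
    fun i => (A (i / K)).1 * (Bb (i % K)).2 + (A (i / K)).2 * (Bb (i % K)).1 +
      t * ((A (i / K)).2 * (Bb (i % K)).2) +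
      (l - 1) * ((A (j - i / K)).1 * (Bb (j - i % K)).2 + (A (j - i / K)).2 * (Bb (j - i % K)).1 +
        t * ((A (j - i / K)).2 * (Bb (j - i % K)).2)), ?_, ?_, fun i => ?_, fun i => ?_, ?_⟩
  · show CK_out (fun s => (A s).1) K * CK_inn (fun s => (Bb s).1) K +
      nd * (CK_out (fun s => (A s).2) K * CK_inn (fun s => (Bb s).2) K) +
      (l - 1) * (CK_out (fun s => (A (j - s)).1) K * CK_inn (fun s => (Bb (j - s)).1) K +
      nd * (CK_out (fun s => (A (j - s)).2) K * CK_inn (fun s => (Bb (j - s)).2) K)) = _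
    rw [hprod, hprod, hprod, hprod, CK_pk_smul, CK_pk_smul, CK_pk_add, CK_pk_add, CK_pk_smul,
      CK_pk_add]
  · show CK_out (fun s => (A s).1) K * CK_inn (fun s => (Bb s).2) K +
      CK_out (fun s => (A s).2) K * CK_inn (fun s => (Bb s).1) K +
      t * (CK_out (fun s => (A s).2) K * CK_inn (fun s => (Bb s).2) K) +
      (l - 1) * (CK_out (fun s => (A (j - s)).1) K * CK_inn (fun s => (Bb (j - s)).2) K +
      CK_out (fun s => (A (j - s)).2) K * CK_inn (fun s => (Bb (j - s)).1) K +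
      t * (CK_out (fun s => (A (j - s)).2) K * CK_inn (fun s => (Bb (j - s)).2) K)) = _
    rw [hprod, hprod, hprod, hprod, hprod, hprod, CK_pk_smul, CK_pk_smul, CK_pk_add, CK_pk_add,
      CK_pk_add, CK_pk_add, CK_pk_smul, CK_pk_add]
  · have m1 : ∀ u v : ℕ, u < l → v < l → u * v ≤ l ^ 2 := fun u v hu hv => by
      rw [pow_two]; exact Nat.mul_le_mul hu.le hv.le
    have e1 := m1 _ _ (hAl (i / K)).1 (hBl (i % K)).1
    have e2 := Nat.mul_le_mul_left nd (m1 _ _ (hAl (i / K)).2 (hBl (i % K)).2)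
    have e3 := m1 _ _ (hAl (j - i / K)).1 (hBl (j - i % K)).1
    have e4 := Nat.mul_le_mul_left nd (m1 _ _ (hAl (j - i / K)).2 (hBl (j - i % K)).2)
    have e5 := Nat.mul_le_mul_left (l - 1) (add_le_add e3 e4)
    calc _ ≤ l ^ 2 + nd * l ^ 2 + (l - 1) * (l ^ 2 + nd * l ^ 2) :=
          add_le_add (add_le_add e1 e2) e5
      _ = (1 + (l - 1)) * (l ^ 2 * (1 + nd)) := by ring
      _ = l * (l ^ 2 * (1 + nd)) := by rw [show 1 + (l - 1) = l by omega]
      _ ≤ l ^ 3 * (3 + nd) := by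
          have e6 : l * (l ^ 2 * (1 + nd)) = l ^ 3 * (1 + nd) := by ring
          rw [e6]
          exact Nat.mul_le_mul_left _ (by omega)
  · have m1 : ∀ u v : ℕ, u < l → v < l → u * v ≤ l ^ 2 := fun u v hu hv => by
      rw [pow_two]; exact Nat.mul_le_mul hu.le hv.le
    have e1 := m1 _ _ (hAl (i / K)).1 (hBl (i % K)).2
    have e1' := m1 _ _ (hAl (i / K)).2 (hBl (i % K)).1
    have e2 := Nat.mul_le_mul ht (m1 _ _ (hAl (i / K)).2 (hBl (i % K)).2)
    have e3 := m1 _ _ (hAl (j - i / K)).1 (hBl (j - i % K)).2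
    have e3' := m1 _ _ (hAl (j - i / K)).2 (hBl (j - i % K)).1
    have e4 := Nat.mul_le_mul ht (m1 _ _ (hAl (j - i / K)).2 (hBl (j - i % K)).2)
    have e5 := Nat.mul_le_mul_left (l - 1) (add_le_add (add_le_add e3 e3') e4)
    calc _ ≤ l ^ 2 + l ^ 2 + 1 * l ^ 2 + (l - 1) * (l ^ 2 + l ^ 2 + 1 * l ^ 2) :=
          add_le_add (add_le_add (add_le_add e1 e1') e2) e5
      _ = (1 + (l - 1)) * (l ^ 2 * 3) := by ring
      _ = l * (l ^ 2 * 3) := by rw [show 1 + (l - 1) = l by omega]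
      _ ≤ l ^ 3 * (3 + nd) := by
          have e6 : l * (l ^ 2 * 3) = l ^ 3 * 3 := by ring
          rw [e6]
          exact Nat.mul_le_mul_left _ (by omega)
  · have hl1 : ((l - 1 : ℕ) : κ) = -1 := by
      rw [Nat.cast_sub (by omega), hl]
      simp
    have hterm : ∀ i, (((A (i / K)).1 * (Bb (i % K)).1 + nd * ((A (i / K)).2 * (Bb (i % K)).2) +
      (l - 1) * ((A (j - i / K)).1 * (Bb (j - i % K)).1 +
        nd * ((A (j - i / K)).2 * (Bb (j - i % K)).2)) : ℕ) : κ) +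
      (((A (i / K)).1 * (Bb (i % K)).2 + (A (i / K)).2 * (Bb (i % K)).1 +
      t * ((A (i / K)).2 * (Bb (i % K)).2) +
      (l - 1) * ((A (j - i / K)).1 * (Bb (j - i % K)).2 + (A (j - i / K)).2 * (Bb (j - i % K)).1 +
        t * ((A (j - i / K)).2 * (Bb (j - i % K)).2)) : ℕ) : κ) * w =
      CK_i w (A (i / K)) * CK_i w (Bb (i % K)) -
        CK_i w (A (j - i / K)) * CK_i w (Bb (j - i % K)) := by
      intro i
      simp only [Nat.cast_add, Nat.cast_mul, hl1, CK_i]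
      linear_combination (-((A (i / K)).2 : κ) * (Bb (i % K)).2 +
        ((A (j - i / K)).2 : κ) * (Bb (j - i % K)).2) * hw
    simp only [hterm]
    rw [← CK_reindex K K hK0 (fun s r => (CK_i w (A s) * CK_i w (Bb r) -
        CK_i w (A (j - s)) * CK_i w (Bb (j - r))) * c s r)]
    have hflip : ∑ s ∈ range K, ∑ r ∈ range K, CK_i w (A (j - s)) * CK_i w (Bb (j - r)) * c s r =
        - ∑ s ∈ range K, ∑ r ∈ range K, CK_i w (A s) * CK_i w (Bb r) * c s r := by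
      rw [← Finset.sum_flip (fun s => ∑ r ∈ range K, CK_i w (A s) * CK_i w (Bb r) * c s r),
        ← Finset.sum_neg_distrib]
      refine Finset.sum_congr rfl fun s hs => ?_
      rw [← Finset.sum_flip (fun r => CK_i w (A (j - s)) * CK_i w (Bb r) * c (j - s) r),
        ← Finset.sum_neg_distrib]
      refine Finset.sum_congr rfl fun r hr => ?_
      rw [Finset.mem_range] at hs hr
      rw [hc s r (by omega) (by omega)]
      ring
    simp only [sub_mul, Finset.sum_sub_distrib]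
    rw [hflip, sub_neg_eq_add, ← two_mul]
    simp only [hAi, hBi]

end Pool.Agent.OE
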