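import Pool.Agent.helper21.OE.CKC

/-!
# Project OE: the checker for the certificates modulo `ℓ`, the final theorem
-/

namespace Pool.Agent.OE

open Finset

/-- the cycle of the relation `tri` -/
def CK_tri (l : ℕ) : List CK_G :=
  [((1, 0), (0, 0), (0, 0), (1, 0)), ((0, 0), (Nat.sub l 1, 0), (1, 0), (1, 0)),
    ((Nat.sub l 1, 0), (Nat.sub l 1, 0), (1, 0), (0, 0))]

/-- the cycle of the relation `sqr` -/
def CK_sqr (x y : ℕ × ℕ) : List CK_G :=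
  [((1, 0), (0, 0), (0, 0), (1, 0)), ((0, 0), (1, 0), (1, 0), x), ((1, 0), y, x, (1, 0)),
    (y, (1, 0), (1, 0), (0, 0))]

/-- the cycle of the relation `hex` -/
def CK_hex (x y : ℕ × ℕ) : List CK_G :=
  [((1, 0), (0, 0), (0, 0), (1, 0)), ((0, 0), (1, 0), (1, 0), y), ((1, 0), x, y, (2, 0)),
    (x, (2, 0), (2, 0), y), ((2, 0), x, y, (1, 0)), (x, (1, 0), (1, 0), (0, 0))]

/-- the cycles -/
def CK_pl (t l p : ℕ) : List CK_G :=
  Nat.rec (motive := fun _ => List CK_G) (CK_tri l)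
    (fun p1 _ => Nat.rec (motive := fun _ => List CK_G) (CK_sqr (0, 1) (t, Nat.sub l 1))
      (fun p2 _ => Nat.rec (motive := fun _ => List CK_G) (CK_sqr (t, Nat.sub l 1) (0, 1))
        (fun p3 _ => Nat.rec (motive := fun _ => List CK_G) (CK_hex (0, 1) (t, Nat.sub l 1))
          (fun _ _ => CK_hex (t, Nat.sub l 1) (0, 1)) p3) p2) p1) p

/-- sum of the contributions of a list of matrices -/
noncomputable def CK_rowL (nd t l j K x y : ℕ) (L : List CK_G) : ℕ × ℕ :=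
  List.rec (motive := fun _ => ℕ × ℕ) (0, 0)
    (fun g _ r => (Nat.add (CK_one nd t l j K x y g).1 r.1,
      Nat.add (CK_one nd t l j K x y g).2 r.2)) L

/-- the row of the relation `p` at the point `(x, y)` -/
noncomputable def CK_row (nd t l j K : ℕ) (q : ℕ × ℕ × ℕ) : ℕ × ℕ :=
  CK_rowL nd t l j K q.2.1 q.2.2 (CK_pl t l q.1)

/-- a digit in base `32` -/
def CK_d32 (ys r : ℕ) : ℕ := Nat.mod (Nat.div ys (Nat.pow 32 r)) 32

/-- first component of a combination of rows -/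
noncomputable def CK_SX (nd t l j K : ℕ) (ys1 ys2 : ℕ) (rows : List (ℕ × ℕ × ℕ × ℕ)) : ℕ :=
  List.rec (motive := fun _ => ℕ) 0
    (fun q _ r => Nat.add (Nat.add (Nat.mul (CK_d32 ys1 q.1) (CK_row nd t l j K q.2).1)
      (Nat.mul nd (Nat.mul (CK_d32 ys2 q.1) (CK_row nd t l j K q.2).2))) r) rows

/-- second component of a combination of rows -/
noncomputable def CK_SY (nd t l j K : ℕ) (ys1 ys2 : ℕ) (rows : List (ℕ × ℕ × ℕ × ℕ)) : ℕ :=
  List.rec (motive := fun _ => ℕ) 0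
    (fun q _ r => Nat.add (Nat.add (Nat.add (Nat.mul (CK_d32 ys1 q.1) (CK_row nd t l j K q.2).2)
      (Nat.mul (CK_d32 ys2 q.1) (CK_row nd t l j K q.2).1))
      (Nat.mul t (Nat.mul (CK_d32 ys2 q.1) (CK_row nd t l j K q.2).2))) r) rows

/-- a digit in the large base -/
def CK_dig (X i : ℕ) : ℕ := Nat.mod (Nat.div X (Nat.pow CKB i)) CKB

/-- the test of one combination -/
def CK_tc (l n X Y : ℕ) (pos : List ℕ) (iv : ℕ) : Bool :=
  List.rec (motive := fun _ => Bool) true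
    (fun i _ r => and (Nat.beq (Nat.mod (CK_dig X i) l) (cond (Nat.beq i iv) 1
      (cond (Nat.beq (Nat.add i (Nat.add iv 1)) n) (Nat.sub l 1) 0)))
      (and (Nat.beq (Nat.mod (CK_dig Y i) l) 0) r)) pos

/-- the test of a list of combinations -/
noncomputable def CK_tgs (nd t l j K n : ℕ) (rows : List (ℕ × ℕ × ℕ × ℕ)) (pos : List ℕ)
    (tg : List (ℕ × ℕ × ℕ)) : Bool :=
  List.rec (motive := fun _ => Bool) true
    (fun q _ r => and (CK_tc l n (CK_SX nd t l j K q.2.1 q.2.2 rows)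
      (CK_SY nd t l j K q.2.1 q.2.2 rows) pos q.1) r) tg

section sem

variable {κ : Type} [Field κ]

/-- the value of the relation for one matrix at the point `(x, y)` -/
def CK_val (w w' : κ) (c : ℕ → ℕ → κ) (j x y : ℕ) (g : CK_G) : κ :=
  ∑ s ∈ range (j + 1), ∑ r ∈ range (j + 1),
    (CK_i w g.1 * x + CK_i w g.2.2.1) ^ s * (CK_i w g.2.1 * x + CK_i w g.2.2.2) ^ (j - s) *
    ((CK_i w' g.1 * y + CK_i w' g.2.2.1) ^ r *
      (CK_i w' g.2.1 * y + CK_i w' g.2.2.2) ^ (j - r)) * c s r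

theorem CK_rowL_V (nd t l j : ℕ) (ht : t ≤ 1) (hl0 : 0 < l)
    (hl : (l : κ) = 0) (w w' : κ) (hw : w * w = t * w + nd) (hw' : w' = t - w)
    (c : ℕ → ℕ → κ) (hc : ∀ s r, s ≤ j → r ≤ j → c (j - s) (j - r) = - c s r)
    (x y : ℕ) (L : List CK_G) :
    CK_V (j + 1) w c (L.length * (l ^ 3 * (3 + nd))) (CK_rowL nd t l j (j + 1) x y L)
      (2 * (L.map (CK_val w w' c j x y)).sum) := by
  induction L with
  | nil =>
    refine ⟨fun _ => 0, fun _ => 0, ?_, ?_, fun i => by simp, fun i => by simp, ?_⟩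
    · show 0 = CK_pk _ _
      simp [CK_pk]
    · show 0 = CK_pk _ _
      simp [CK_pk]
    · simp
  | cons g L ih =>
    have h1 := CK_one_V nd t l j ht hl0 hl w w' hw hw' c hc x y g
    have h2 := CK_V_add _ _ _ _ _ _ _ _ _ h1 ih
    have e1 : 2 * ((g :: L).map (CK_val w w' c j x y)).sum = 2 * CK_val w w' c j x y g +
        2 * (L.map (CK_val w w' c j x y)).sum := by
      rw [List.map_cons, List.sum_cons, mul_add]
    rw [e1, List.length_cons, Nat.succ_mul, add_comm (L.length * _)]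
    exact h2

/-- matching of a matrix and its code -/
def CK_cd {d t : ℤ} (π : Oz d t →+* κ) (w w' : κ) (g : Mat d t) (G : CK_G) : Prop :=
  (π (g 0 0) = CK_i w G.1 ∧ π (g 0 1) = CK_i w G.2.1 ∧ π (g 1 0) = CK_i w G.2.2.1 ∧
    π (g 1 1) = CK_i w G.2.2.2) ∧
  (π (star (g 0 0)) = CK_i w' G.1 ∧ π (star (g 0 1)) = CK_i w' G.2.1 ∧
    π (star (g 1 0)) = CK_i w' G.2.2.1 ∧ π (star (g 1 1)) = CK_i w' G.2.2.2)

theorem CK_ev (hCFE : CFE_stmt) {d t : ℤ} (π : Oz d t →+* κ) (w w' : κ) (j : ℕ) (P : Pol κ)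
    (hP : BiHom j P) (g : Mat d t) (G : CK_G) (hG : CK_cd π w w' g G) (x y : ℕ) :
    MvPolynomial.eval ![(x : κ), 1, (y : κ), 1] (act π g P) =
      CK_val w w' (cf P j) j x y G := by
  obtain ⟨⟨h1, h2, h3, h4⟩, h5, h6, h7, h8⟩ := hG
  rw [hCFE d t π j P hP g x y, h1, h2, h3, h4, h5, h6, h7, h8]
  rfl

theorem CK_act_one {d t : ℤ} (π : Oz d t →+* κ) (P : Pol κ) :
    act π !![1, 0; 0, 1] P = P := by
  have h : act π !![1, 0; 0, 1] = AlgHom.id κ (Pol κ) := by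
    refine MvPolynomial.algHom_ext fun i => ?_
    fin_cases i <;> simp [act]
  rw [h]
  rfl

theorem CK_pl_le (t l p : ℕ) : (CK_pl t l p).length ≤ 6 := by
  rcases p with _ | _ | _ | _ | p
  · show (CK_tri l).length ≤ 6
    simp [CK_tri]
  · show (CK_sqr (0, 1) (t, Nat.sub l 1)).length ≤ 6
    simp [CK_sqr]
  · show (CK_sqr (t, Nat.sub l 1) (0, 1)).length ≤ 6
    simp [CK_sqr]
  · show (CK_hex (0, 1) (t, Nat.sub l 1)).length ≤ 6
    simp [CK_hex]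
  · show (CK_hex (t, Nat.sub l 1) (0, 1)).length ≤ 6
    simp [CK_hex]

/-- the relation `p` is available: `sqr` for `d = 2`, `hex` for `d = 3` -/
def CK_ok (d : ℤ) (p : ℕ) : Prop := p = 0 ∨ ((p = 1 ∨ p = 2) ∧ d = 2) ∨ ((p = 3 ∨ p = 4) ∧ d = 3)

/-- the values of a relation sum up to zero -/
theorem CK_rel (hCFE : CFE_stmt) {d t : ℤ} (π : Oz d t →+* κ) (tn l j : ℕ) (htn : (tn : ℤ) = t)
    (hl0 : 0 < l) (hl : (l : κ) = 0) (g : Pol κ) (hg : RelP π j g) (p : ℕ) (hp : CK_ok d p)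
    (x y : ℕ) :
    ((CK_pl tn l p).map (CK_val (π ⟨0, 1⟩) (π (star ⟨0, 1⟩)) (cf g j) j x y)).sum = 0 := by
  have hl1 : ((Nat.sub l 1 : ℕ) : κ) = -1 := by
    rw [Nat.sub_eq, Nat.cast_sub (by omega), hl]
    simp
  have hE := fun (γ : Mat d t) (G : CK_G) (hG : CK_cd π (π ⟨0, 1⟩) (π (star ⟨0, 1⟩)) γ G) =>
    CK_ev hCFE π _ _ j g hg.hom γ G hG x y
  have c0 : ∀ w : κ, CK_i w (0, 0) = 0 := fun w => by simp [CK_i]
  have c1 : ∀ w : κ, CK_i w (1, 0) = 1 := fun w => by simp [CK_i]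
  have c2 : ∀ w : κ, CK_i w (2, 0) = 2 := fun w => by simp [CK_i]
  have cm : ∀ w : κ, CK_i w (Nat.sub l 1, 0) = -1 := fun w => by
    simp only [CK_i, hl1]; simp
  have cm' : ∀ w : κ, CK_i w (l - 1, 0) = -1 := cm
  have cw : ∀ w : κ, CK_i w (0, 1) = w := fun w => by simp [CK_i]
  have hst : (star ⟨0, 1⟩ : Oz d t) = ⟨t, -1⟩ := by
    ext <;> simp
  have hsum : (⟨0, 1⟩ : Oz d t) + star ⟨0, 1⟩ = algebraMap ℤ (Oz d t) t := by
    rw [hst]
    ext <;> simp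
  have hπt : π (algebraMap ℤ (Oz d t) t) = (tn : κ) := by
    have e1 : π (algebraMap ℤ (Oz d t) t) = ((t : ℤ) : κ) := by simp
    have e2 : ((tn : ℤ) : κ) = ((t : ℤ) : κ) := congrArg (Int.cast : ℤ → κ) htn
    rw [e1, ← e2]
    simp
  have hws : π (star ⟨0, 1⟩) = (tn : κ) - π ⟨0, 1⟩ := by
    have h := congrArg π hsum
    rw [map_add, hπt] at h
    linear_combination h
  have cw' : CK_i (π ⟨0, 1⟩) (tn, Nat.sub l 1) = π (star ⟨0, 1⟩) := by
    simp only [CK_i, hl1, hws]; ring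
  have cw'' : CK_i (π (star ⟨0, 1⟩)) (tn, Nat.sub l 1) = π ⟨0, 1⟩ := by
    simp only [CK_i, hl1, hws]; ring
  have hss : (star (star ⟨0, 1⟩) : Oz d t) = ⟨0, 1⟩ := star_star _
  have hI : CK_cd π (π ⟨0, 1⟩) (π (star ⟨0, 1⟩)) (!![1, 0; 0, 1] : Mat d t)
      ((1, 0), (0, 0), (0, 0), (1, 0)) := by
    simp [CK_cd, c0, c1]
  have hg1 : MvPolynomial.eval ![(x : κ), 1, (y : κ), 1] g =
      MvPolynomial.eval ![(x : κ), 1, (y : κ), 1] (act π !![1, 0; 0, 1] g) := by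
    rw [CK_act_one]
  have hπ2 : π 2 = 2 := map_ofNat π 2
  have hsq : ∀ (X Y : Oz d t) (X' Y' : ℕ × ℕ), X * Y = 2 → π X = CK_i (π ⟨0, 1⟩) X' →
      π (star X) = CK_i (π (star ⟨0, 1⟩)) X' → π Y = CK_i (π ⟨0, 1⟩) Y' →
      π (star Y) = CK_i (π (star ⟨0, 1⟩)) Y' →
      ((CK_sqr X' Y').map (CK_val (π ⟨0, 1⟩) (π (star ⟨0, 1⟩)) (cf g j) j x y)).sum = 0 := by
    intro X Y X' Y' hXY h1 h2 h3 h4
    have h := congrArg (MvPolynomial.eval ![(x : κ), 1, (y : κ), 1]) (hg.sqr X Y hXY)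
    rw [map_add, map_add, map_add, map_zero, hg1, hE _ _ hI,
      hE !![0, 1; 1, X] ((0, 0), (1, 0), (1, 0), X') (by simp [CK_cd, c0, c1, h1, h2]),
      hE !![1, Y; X, 1] ((1, 0), Y', X', (1, 0)) (by simp [CK_cd, c1, h1, h2, h3, h4]),
      hE !![Y, 1; 1, 0] (Y', (1, 0), (1, 0), (0, 0)) (by simp [CK_cd, c0, c1, h3, h4])] at h
    simp only [CK_sqr, List.map_cons, List.map_nil, List.sum_cons, List.sum_nil]
    linear_combination h
  have hhx : ∀ (X Y : Oz d t) (X' Y' : ℕ × ℕ), X * Y = 3 → π X = CK_i (π ⟨0, 1⟩) X' →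
      π (star X) = CK_i (π (star ⟨0, 1⟩)) X' → π Y = CK_i (π ⟨0, 1⟩) Y' →
      π (star Y) = CK_i (π (star ⟨0, 1⟩)) Y' →
      ((CK_hex X' Y').map (CK_val (π ⟨0, 1⟩) (π (star ⟨0, 1⟩)) (cf g j) j x y)).sum = 0 := by
    intro X Y X' Y' hXY h1 h2 h3 h4
    have hs2 : (star 2 : Oz d t) = 2 := by
      ext <;> simp
    have h := congrArg (MvPolynomial.eval ![(x : κ), 1, (y : κ), 1]) (hg.hex X Y hXY)
    rw [map_add, map_add, map_add, map_add, map_add, map_zero, hg1, hE _ _ hI,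
      hE !![0, 1; 1, Y] ((0, 0), (1, 0), (1, 0), Y') (by simp [CK_cd, c0, c1, h3, h4]),
      hE !![1, X; Y, 2] ((1, 0), X', Y', (2, 0))
        (by simp [CK_cd, c1, c2, h1, h2, h3, h4, hπ2, hs2]),
      hE !![X, 2; 2, Y] (X', (2, 0), (2, 0), Y')
        (by simp [CK_cd, c2, h1, h2, h3, h4, hπ2, hs2]),
      hE !![2, X; Y, 1] ((2, 0), X', Y', (1, 0))
        (by simp [CK_cd, c1, c2, h1, h2, h3, h4, hπ2, hs2]),
      hE !![X, 1; 1, 0] (X', (1, 0), (1, 0), (0, 0)) (by simp [CK_cd, c0, c1, h1, h2])] at h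
    simp only [CK_hex, List.map_cons, List.map_nil, List.sum_cons, List.sum_nil]
    linear_combination h
  have hnorm : (⟨0, 1⟩ : Oz d t) * star ⟨0, 1⟩ = algebraMap ℤ (Oz d t) d := by
    rw [hst]
    ext <;> simp
  rcases hp with rfl | ⟨hp, rfl⟩ | ⟨hp, rfl⟩
  · have h := congrArg (MvPolynomial.eval ![(x : κ), 1, (y : κ), 1]) hg.tri
    rw [map_add, map_add, map_zero, hg1, hE _ _ hI,
      hE !![0, -1; 1, 1] ((0, 0), (Nat.sub l 1, 0), (1, 0), (1, 0))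
        (by simp [CK_cd, c0, c1, cm']),
      hE !![-1, -1; 1, 0] ((Nat.sub l 1, 0), (Nat.sub l 1, 0), (1, 0), (0, 0))
        (by simp [CK_cd, c0, c1, cm'])] at h
    show ((CK_tri l).map (CK_val (π ⟨0, 1⟩) (π (star ⟨0, 1⟩)) (cf g j) j x y)).sum = 0
    simp only [CK_tri, List.map_cons, List.map_nil, List.sum_cons, List.sum_nil]
    linear_combination h
  · have h2 : (⟨0, 1⟩ : Oz 2 t) * star ⟨0, 1⟩ = 2 := by
      rw [hnorm]; simp
    rcases hp with rfl | rfl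
    · exact hsq ⟨0, 1⟩ (star ⟨0, 1⟩) (0, 1) (tn, Nat.sub l 1) h2 (cw _).symm (cw _).symm
        cw'.symm (by rw [hss, cw''])
    · exact hsq (star ⟨0, 1⟩) ⟨0, 1⟩ (tn, Nat.sub l 1) (0, 1) (by rw [mul_comm]; exact h2)
        cw'.symm (by rw [hss, cw'']) (cw _).symm (cw _).symm
  · have h3 : (⟨0, 1⟩ : Oz 3 t) * star ⟨0, 1⟩ = 3 := by
      rw [hnorm]; simp
    rcases hp with rfl | rfl
    · exact hhx ⟨0, 1⟩ (star ⟨0, 1⟩) (0, 1) (tn, Nat.sub l 1) h3 (cw _).symm (cw _).symm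
        cw'.symm (by rw [hss, cw''])
    · exact hhx (star ⟨0, 1⟩) ⟨0, 1⟩ (tn, Nat.sub l 1) (0, 1) (by rw [mul_comm]; exact h3)
        cw'.symm (by rw [hss, cw'']) (cw _).symm (cw _).symm

end sem

end Pool.Agent.OE
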