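import Pool.Agent.helper21.OE.CKD

/-!
# Project OE: the checker for the certificates modulo `ℓ`, soundness
-/

namespace Pool.Agent.OE

open Finset

/-- certificates -/
structure CK_Cert where
  /-- the rows: number, relation, point -/
  rows : List (ℕ × ℕ × ℕ × ℕ)
  /-- the free coordinates -/
  fre : List ℕ
  /-- the other coordinates -/
  pos : List ℕ
  /-- the combinations -/
  tg : List (List (ℕ × ℕ × ℕ))

/-- the test of the shape -/
def CK_chk1 (d j m l nd : ℕ) (C : CK_Cert) : Bool :=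
  C.rows.all (fun q => q.2.1 == 0 || ((q.2.1 == 1 || q.2.1 == 2) && d == 2) ||
    ((q.2.1 == 3 || q.2.1 == 4) && d == 3)) &&
  C.fre.all (fun i => decide (i < (j + 1) * (j + 1))) &&
  decide (C.rows.length * (32 * (3 + nd) * (6 * (l ^ 3 * (3 + nd)))) < CKB) &&
  (C.pos == (List.range ((j + 1) * (j + 1))).filter (fun i => i / (j + 1) % m == i % (j + 1) % m &&
    !C.fre.contains i && !C.fre.contains ((j + 1) * (j + 1) - 1 - i))) &&
  (C.tg.flatten.map Prod.fst == C.pos.filter (fun i => decide (2 * i + 1 < (j + 1) * (j + 1))))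

section sem

variable {κ : Type} [Field κ]

theorem CK_V_mono (K : ℕ) (w : κ) (c : ℕ → ℕ → κ) (β β' : ℕ) (hβ : β ≤ β') (P : ℕ × ℕ) (v : κ)
    (h : CK_V K w c β P v) : CK_V K w c β' P v := by
  obtain ⟨D, E, h1, h2, h3, h4, h5⟩ := h
  exact ⟨D, E, h1, h2, fun i => (h3 i).trans hβ, fun i => (h4 i).trans hβ, h5⟩

theorem CK_flip (K i : ℕ) (hi : i < K * K) :
    (K * K - 1 - i) / K = K - 1 - i / K ∧ (K * K - 1 - i) % K = K - 1 - i % K := by
  have hK : 0 < K := by
    rcases Nat.eq_zero_or_pos K with h | h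
    · subst h; simp at hi
    · exact h
  have h1 : i / K < K := Nat.div_lt_of_lt_mul hi
  have h2 : i % K < K := Nat.mod_lt _ hK
  have h3 : K * K - 1 - i = K * (K - 1 - i / K) + (K - 1 - i % K) := by
    have h4 := Nat.div_add_mod i K
    have h5 : K * (K - 1 - i / K) = K * K - K - K * (i / K) := by
      rw [Nat.mul_sub, Nat.mul_sub, mul_one]
    have h6 : K * (i / K) + K ≤ K * K := by
      calc K * (i / K) + K = K * (i / K + 1) := by ring
        _ ≤ K * K := Nat.mul_le_mul_left _ h1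
    omega
  have e1 : (K - 1 - i % K) / K = 0 := Nat.div_eq_of_lt (by omega)
  have e2 : (K - 1 - i % K) % K = K - 1 - i % K := Nat.mod_eq_of_lt (by omega)
  constructor
  · rw [h3, Nat.mul_add_div hK, e1, add_zero]
  · rw [h3, Nat.mul_add_mod, e2]

theorem CK_S_V (hCFE : CFE_stmt) {d t : ℤ} (π : Oz d t →+* κ) (tn nd l j : ℕ)
    (htn : (tn : ℤ) = t) (ht1 : tn ≤ 1) (hl0 : 0 < l) (hl : (l : κ) = 0)
    (hw : π ⟨0, 1⟩ * π ⟨0, 1⟩ = tn * π ⟨0, 1⟩ + nd) (hw' : π (star ⟨0, 1⟩) = tn - π ⟨0, 1⟩)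
    (g : Pol κ) (hg : RelP π j g)
    (hc : ∀ s r, s ≤ j → r ≤ j → cf g j (j - s) (j - r) = - cf g j s r)
    (ys1 ys2 : ℕ) (rows : List (ℕ × ℕ × ℕ × ℕ)) (hrows : ∀ q ∈ rows, CK_ok d q.2.1) :
    CK_V (j + 1) (π ⟨0, 1⟩) (cf g j) (rows.length * (32 * (3 + nd) * (6 * (l ^ 3 * (3 + nd)))))
      (CK_SX nd tn l j (j + 1) ys1 ys2 rows, CK_SY nd tn l j (j + 1) ys1 ys2 rows) 0 := by
  induction rows with
  | nil =>
    refine ⟨fun _ => 0, fun _ => 0, ?_, ?_, fun i => by simp, fun i => by simp, ?_⟩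
    · show 0 = CK_pk _ _
      simp [CK_pk]
    · show 0 = CK_pk _ _
      simp [CK_pk]
    · simp
  | cons q rows ih =>
    have h1 := CK_rowL_V nd tn l j ht1 hl0 hl (π ⟨0, 1⟩) (π (star ⟨0, 1⟩)) hw hw' (cf g j) hc
      q.2.2.1 q.2.2.2 (CK_pl tn l q.2.1)
    rw [CK_rel hCFE π tn l j htn hl0 hl g hg q.2.1 (hrows q List.mem_cons_self) q.2.2.1 q.2.2.2,
      mul_zero] at h1
    have h2 := CK_V_mono _ _ _ _ (6 * (l ^ 3 * (3 + nd)))
      (Nat.mul_le_mul_right _ (CK_pl_le tn l q.2.1)) _ _ h1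
    have hd : ∀ ys r, CK_d32 ys r ≤ 32 := fun ys r => (Nat.mod_lt _ (by norm_num)).le
    have h3 := CK_V_mul nd tn (j + 1) ht1 _ hw _ _ 32 _ _ h2 (CK_d32 ys1 q.1) (CK_d32 ys2 q.1)
      (hd _ _) (hd _ _)
    have h4 := CK_V_add _ _ _ _ _ _ _ _ _ h3
      (ih fun q' hq' => hrows q' (List.mem_cons_of_mem _ hq'))
    rw [mul_zero, add_zero] at h4
    rw [List.length_cons, Nat.succ_mul, add_comm (rows.length * _)]
    exact h4

theorem CK_tc_iff (l n X Y : ℕ) (pos : List ℕ) (iv : ℕ) (h : CK_tc l n X Y pos iv = true) :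
    ∀ i ∈ pos, CK_dig X i % l = (if i = iv then 1 else if i + (iv + 1) = n then l - 1 else 0) ∧
      CK_dig Y i % l = 0 := by
  induction pos with
  | nil => simp
  | cons i pos ih =>
    have h' : (and (Nat.beq (Nat.mod (CK_dig X i) l) (cond (Nat.beq i iv) 1
      (cond (Nat.beq (Nat.add i (Nat.add iv 1)) n) (Nat.sub l 1) 0)))
      (and (Nat.beq (Nat.mod (CK_dig Y i) l) 0) (CK_tc l n X Y pos iv))) = true := h
    rw [Bool.and_eq_true, Bool.and_eq_true, Nat.beq_eq, Nat.beq_eq] at h'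
    obtain ⟨h1, h2, h3⟩ := h'
    intro k hk
    rw [List.mem_cons] at hk
    rcases hk with rfl | hk
    · refine ⟨?_, h2⟩
      have h4 : CK_dig X k % l = (cond (Nat.beq k iv) 1
        (cond (Nat.beq (Nat.add k (Nat.add iv 1)) n) (Nat.sub l 1) 0)) := h1
      rw [h4]
      by_cases e1 : k = iv
      · rw [if_pos e1, e1]
        have : Nat.beq iv iv = true := Nat.beq_refl iv
        rw [this]
        rfl
      · rw [if_neg e1]
        have e2 : Nat.beq k iv = false := by
          rw [Bool.eq_false_iff]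
          intro e3
          exact e1 (Nat.eq_of_beq_eq_true e3)
        rw [e2, cond_false]
        by_cases e3 : k + (iv + 1) = n
        · rw [if_pos e3]
          have : Nat.beq (Nat.add k (Nat.add iv 1)) n = true := by
            rw [Nat.beq_eq]; exact e3
          rw [this]
          rfl
        · rw [if_neg e3]
          have e4 : Nat.beq (Nat.add k (Nat.add iv 1)) n = false := by
            rw [Bool.eq_false_iff]
            intro e5
            exact e3 (Nat.eq_of_beq_eq_true e5)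
          rw [e4]
          rfl
    · exact ih h3 k hk

theorem CK_tgs_iff (nd t l j K n : ℕ) (rows : List (ℕ × ℕ × ℕ × ℕ)) (pos : List ℕ)
    (tg : List (ℕ × ℕ × ℕ)) (h : CK_tgs nd t l j K n rows pos tg = true) :
    ∀ q ∈ tg, CK_tc l n (CK_SX nd t l j K q.2.1 q.2.2 rows)
      (CK_SY nd t l j K q.2.1 q.2.2 rows) pos q.1 = true := by
  induction tg with
  | nil => simp
  | cons q tg ih =>
    have h' : (and (CK_tc l n (CK_SX nd t l j K q.2.1 q.2.2 rows)
      (CK_SY nd t l j K q.2.1 q.2.2 rows) pos q.1) (CK_tgs nd t l j K n rows pos tg)) = true := h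
    rw [Bool.and_eq_true] at h'
    intro q' hq'
    rw [List.mem_cons] at hq'
    rcases hq' with rfl | hq'
    · exact h'.1
    · exact ih h'.2 q' hq'

end sem

/-- the coefficient as a linear map -/
noncomputable def CK_lin (κ : Type) [Field κ] (j a b : ℕ) : Pol κ →ₗ[κ] κ where
  toFun P := cf P j a b
  map_add' P Q := by simp [cf]
  map_smul' r P := by simp [cf]

theorem CK_sound (hEXQ : EXQ_stmt) (hCFE : CFE_stmt) (hCFU : CFU_stmt) (hCFW : CFW_stmt)
    (d tn nd l j s m : ℕ) (ht1 : tn ≤ 1) (hnd : l ∣ nd + d) (hlp : l.Prime) (hl2 : l ≠ 2)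
    (hm : ∀ {κ : Type} [Field κ] (π : Oz d tn →+* κ), (l : κ) = 0 → ∀ g : Pol κ, RelP π j g →
      ∀ a b, a ≤ j → b ≤ j → a % m ≠ b % m → cf g j a b = 0)
    (C : CK_Cert) (h1 : CK_chk1 d j m l nd C = true)
    (h2 : ∀ ch ∈ C.tg, CK_tgs nd tn l j (j + 1) ((j + 1) * (j + 1)) C.rows C.pos ch = true)
    (hs : C.fre.length = s + 1) : NUMQ_stmt d tn l j s := by
  intro κ _ π hl
  simp only [CK_chk1, Bool.and_eq_true, Bool.or_eq_true, List.all_eq_true, beq_iff_eq,
    decide_eq_true_eq] at h1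
  obtain ⟨⟨⟨⟨hrows, hfre⟩, hbd⟩, hpos⟩, htg⟩ := h1
  set K := j + 1 with hK
  set n := K * K with hn
  refine ⟨fun i => CK_lin κ j (C.fre.get (i.cast hs.symm) / K) (C.fre.get (i.cast hs.symm) % K),
    fun g hg hF => ?_⟩
  have hl0 : 0 < l := hlp.pos
  have h2ne : (2 : κ) ≠ 0 := by
    intro h0
    have hcop : Nat.Coprime 2 l := (Nat.coprime_primes Nat.prime_two hlp).mpr (Ne.symm hl2)
    have hb := Nat.gcd_eq_gcd_ab 2 l
    rw [Nat.Coprime.gcd_eq_one hcop] at hb
    have hb' := congrArg (Int.cast : ℤ → κ) hb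
    push_cast at hb'
    rw [h0, hl] at hb'
    simp at hb'
  -- parity and flip
  have hpar : ∀ a b, a ≤ j → b ≤ j → Odd (a + b) → cf g j a b = 0 := by
    intro a b ha hb hab
    have h3 := hCFU d tn π j g hg.hom (-1) a b ha hb
    rw [hg.uni (-1) isUnit_one.neg] at h3
    have h4 : π (star (-1 : Oz d tn)) = -1 := by simp
    rw [h4, map_neg, map_one, ← pow_add, hab.neg_one_pow] at h3
    have h5 : 2 * cf g j a b = 0 := by linear_combination h3
    exact (mul_eq_zero.mp h5).resolve_left h2ne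
  have hflip : ∀ a b, a ≤ j → b ≤ j → cf g j (j - a) (j - b) = - cf g j a b := by
    intro a b ha hb
    rcases Nat.even_or_odd (a + b) with hab | hab
    · have h3 := hCFW d tn π j g hg.hom a b ha hb
      rw [hg.inv, hab.neg_one_pow, one_mul] at h3
      have h4 : cf (-g) j a b = - cf g j a b := by simp [cf]
      rw [← h3, h4]
    · rw [hpar a b ha hb hab, hpar (j - a) (j - b) (by omega) (by omega)
        (by rw [Nat.odd_iff] at hab ⊢; omega), neg_zero]
  -- the image of ω
  have hst : (star ⟨0, 1⟩ : Oz d tn) = ⟨tn, -1⟩ := by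
    ext <;> simp
  have hw' : π (star ⟨0, 1⟩) = tn - π ⟨0, 1⟩ := by
    have h3 : (⟨0, 1⟩ : Oz d tn) + star ⟨0, 1⟩ = ((tn : ℕ) : Oz d tn) := by
      rw [hst]
      ext <;> simp
    have h4 := congrArg π h3
    rw [map_add, map_natCast] at h4
    linear_combination h4
  have hw : π ⟨0, 1⟩ * π ⟨0, 1⟩ = tn * π ⟨0, 1⟩ + nd := by
    have h3 : (⟨0, 1⟩ : Oz d tn) * ⟨0, 1⟩ + ((d : ℕ) : Oz d tn) =
        ((tn : ℕ) : Oz d tn) * ⟨0, 1⟩ := by
      ext <;> simp
    have h4 := congrArg π h3
    rw [map_add, map_mul, map_mul, map_natCast, map_natCast] at h4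
    obtain ⟨z, hz⟩ := hnd
    have h5 : (nd : κ) + d = 0 := by
      have h6 := congrArg (Nat.cast : ℕ → κ) hz
      rw [Nat.cast_add, Nat.cast_mul, hl, zero_mul] at h6
      exact h6
    linear_combination h4 - h5
  -- the coefficients by index
  set c : ℕ → κ := fun i => cf g j (i / K) (i % K) with hc
  have hle : ∀ i < n, i / K ≤ j ∧ i % K ≤ j := by
    intro i hi
    have e1 : i / K < K := Nat.div_lt_of_lt_mul hi
    have e2 : i % K < K := Nat.mod_lt _ (by omega)
    omega
  have hcf : ∀ i < n, c (n - 1 - i) = - c i := by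
    intro i hi
    obtain ⟨e1, e2⟩ := CK_flip K i hi
    show cf g j ((K * K - 1 - i) / K) ((K * K - 1 - i) % K) = - cf g j (i / K) (i % K)
    rw [e1, e2]
    exact hflip _ _ (hle i hi).1 (hle i hi).2
  have hcfre : ∀ i ∈ C.fre, c i = 0 := by
    intro i hi
    obtain ⟨k, hk⟩ := List.mem_iff_get.mp hi
    have h3 : cf g j (C.fre.get ((k.cast hs).cast hs.symm) / K)
      (C.fre.get ((k.cast hs).cast hs.symm) % K) = 0 := hF (k.cast hs)
    have h4 : (k.cast hs).cast hs.symm = k := by ext; rfl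
    rw [h4, hk] at h3
    exact h3
  -- outside pos
  have hout : ∀ i < n, i ∉ C.pos → c i = 0 := by
    intro i hi hip
    by_cases e1 : i / K % m = i % K % m
    · by_cases e2 : i ∈ C.fre
      · exact hcfre i e2
      · by_cases e3 : n - 1 - i ∈ C.fre
        · have e4 := hcfre _ e3
          rw [hcf i hi, neg_eq_zero] at e4
          exact e4
        · exfalso
          apply hip
          rw [hpos, List.mem_filter]
          refine ⟨List.mem_range.mpr hi, ?_⟩
          simp [e1, e2, e3]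
    · exact hm π hl g hg _ _ (hle i hi).1 (hle i hi).2 e1
  have hposlt : ∀ i ∈ C.pos, i < n := by
    intro i hi
    rw [hpos, List.mem_filter] at hi
    exact List.mem_range.mp hi.1
  -- the targets
  have hrows' : ∀ q ∈ C.rows, CK_ok d q.2.1 := by
    intro q hq
    rcases hrows q hq with (e | ⟨e, e'⟩) | ⟨e, e'⟩
    · exact Or.inl e
    · exact Or.inr (Or.inl ⟨e, by exact_mod_cast e'⟩)
    · exact Or.inr (Or.inr ⟨e, by exact_mod_cast e'⟩)
  have htar : ∀ iv, iv ∈ C.pos → 2 * iv + 1 < n → c iv = 0 := by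
    intro iv hiv hlt
    have h3 : iv ∈ C.tg.flatten.map Prod.fst := by
      rw [htg, List.mem_filter]
      exact ⟨hiv, by simpa using hlt⟩
    rw [List.mem_map] at h3
    obtain ⟨q, hq, rfl⟩ := h3
    rw [List.mem_flatten] at hq
    obtain ⟨ch, hch, hq⟩ := hq
    have h4 := CK_tc_iff _ _ _ _ _ _ (CK_tgs_iff _ _ _ _ _ _ _ _ _ (h2 ch hch) q hq)
    obtain ⟨D, E, hD, hE, hDb, hEb, hsum⟩ := CK_S_V hCFE π tn nd l j rfl ht1 hl0 hl hw hw' g hg
      hflip q.2.1 q.2.2 C.rows hrows'
    have hX : ∀ i < n, CK_dig (CK_SX nd tn l j K q.2.1 q.2.2 C.rows) i = D i := by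
      intro i hi
      have e1 : CK_SX nd tn l j K q.2.1 q.2.2 C.rows = CK_pk (K * K) D := hD
      rw [e1]
      exact CK_digit (K * K) D (fun k _ => lt_of_le_of_lt (hDb k) hbd) i hi
    have hY : ∀ i < n, CK_dig (CK_SY nd tn l j K q.2.1 q.2.2 C.rows) i = E i := by
      intro i hi
      have e1 : CK_SY nd tn l j K q.2.1 q.2.2 C.rows = CK_pk (K * K) E := hE
      rw [e1]
      exact CK_digit (K * K) E (fun k _ => lt_of_le_of_lt (hEb k) hbd) i hi
    have h5 : ∀ i ∈ range n, ((D i : κ) + (E i : κ) * π ⟨0, 1⟩) * cf g j (i / K) (i % K) =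
        (if i = q.1 then c i else 0) + (if i = n - 1 - q.1 then - c i else 0) := by
      intro i hi
      rw [Finset.mem_range] at hi
      by_cases hip : i ∈ C.pos
      · obtain ⟨e1, e2⟩ := h4 i hip
        rw [hX i hi] at e1
        rw [hY i hi] at e2
        have e3 : (E i : κ) = 0 := by
          rw [← CK_mod l hl (E i), e2, Nat.cast_zero]
        have e4 : (D i : κ) = ((if i = q.1 then 1 else if i + (q.1 + 1) = n then l - 1 else 0 : ℕ) :
            κ) := by
          rw [← CK_mod l hl (D i), e1]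
        rw [e3, zero_mul, add_zero, e4]
        by_cases e5 : i = q.1
        · have e6 : ¬ (i = n - 1 - q.1) := by omega
          rw [if_pos e5, if_pos e5, if_neg e6]
          simp [hc]
        · rw [if_neg e5, if_neg e5]
          by_cases e6 : i + (q.1 + 1) = n
          · rw [if_pos e6, if_pos (by omega), Nat.cast_sub hlp.one_le, hl]
            simp [hc]
          · rw [if_neg e6, if_neg (by omega)]
            simp
      · have e1 : c i = 0 := hout i hi hip
        have e2 : cf g j (i / K) (i % K) = 0 := e1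
        rw [e2, e1]
        simp
    rw [Finset.sum_congr rfl h5, Finset.sum_add_distrib, Finset.sum_ite_eq', Finset.sum_ite_eq',
      if_pos (Finset.mem_range.mpr (by omega)), if_pos (Finset.mem_range.mpr (by omega)),
      hcf q.1 (by omega)] at hsum
    have h6 : 2 * c q.1 = 0 := by linear_combination hsum
    exact (mul_eq_zero.mp h6).resolve_left h2ne
  have hlow : ∀ i, 2 * i + 1 < n → c i = 0 := by
    intro i hi
    by_cases hip : i ∈ C.pos
    · exact htar i hip hi
    · exact hout i (by omega) hip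
  have hall : ∀ i < n, c i = 0 := by
    intro i hi
    rcases lt_trichotomy (2 * i + 1) n with h3 | h3 | h3
    · exact hlow i h3
    · have h4 := hcf i hi
      rw [show n - 1 - i = i by omega] at h4
      have h5 : 2 * c i = 0 := by linear_combination h4
      exact (mul_eq_zero.mp h5).resolve_left h2ne
    · have h4 := hcf i hi
      rw [hlow (n - 1 - i) (by omega)] at h4
      linear_combination h4
  rw [(hEXQ j).1 g hg.hom]
  refine Finset.sum_eq_zero fun a ha => Finset.sum_eq_zero fun b hb => ?_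
  rw [Finset.mem_range] at ha hb
  have hK0 : 0 < K := by omega
  have h3 := hall (a * K + b) (by
    calc a * K + b < a * K + K := by omega
      _ = (a + 1) * K := by ring
      _ ≤ K * K := Nat.mul_le_mul_right _ ha)
  have h4 : (a * K + b) / K = a := by
    rw [mul_comm, Nat.mul_add_div hK0, Nat.div_eq_of_lt hb, add_zero]
  have h5 : (a * K + b) % K = b := by
    rw [mul_comm, Nat.mul_add_mod, Nat.mod_eq_of_lt hb]
  have h6 : cf g j ((a * K + b) / K) ((a * K + b) % K) = 0 := h3
  rw [h4, h5] at h6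
  rw [h6]
  simp

end Pool.Agent.OE
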