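import Pool.Agent.helper21.OE.DefC
import Pool.Agent.helper21.OE.SpecB

/-!
# Project OE (MP_2e0e07_nt): rows, block C (complex conjugation)

Notation as in `SpecA`. `cv u` is the conjugate vector, `cm g` the conjugate matrix, `sw` exchanges
`X, Y` and `Z, W`, `(cj φ)(u, v) = sw (φ(ū, v̄))`.
-/

namespace Pool.Agent.OE

open MvPolynomial Matrix

/-- the conjugate matrix -/
def cm {d t : ℤ} (g : Mat d t) : Mat d t := fun i j => star (g i j)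

/-- complex conjugation on scalar symbols -/
def cs {d t : ℤ} {κ : Type} (ψ : Vec d t → Vec d t → κ) : Vec d t → Vec d t → κ :=
  fun u v => ψ (cv u) (cv v)

/-- ROW CMG (short). Conjugation of matrices and vectors: `star` is a ring homomorphism
(`star_mul`, `star_add`, commutativity), `star` of an integer is itself. (4): the determinant of `cm g` is
`star (det g)`, a unit (`Matrix.GeneralLinearGroup.mkOfDetNeZero` is for fields; use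
`Matrix.GeneralLinearGroup.mk''` or `Matrix.nonsing_inv`, or `⟨cm g, cm g⁻¹, _, _⟩` with (1)). -/
def CMG_stmt : Prop := ∀ (d t : ℤ),
  (∀ g h : Mat d t, cm (g * h) = cm g * cm h) ∧
  (∀ (g : Mat d t) (u : Vec d t), cv (g *ᵥ u) = cm g *ᵥ cv u) ∧
  (∀ g : Mat d t, cm g.adjugate = (cm g).adjugate) ∧
  (∀ g : GO d t, ∃ g' : GO d t, g'.val = cm g.val) ∧
  (∀ g : Mat d t, cm (cm g) = g) ∧ (∀ u : Vec d t, cv (cv u) = u) ∧
  (∀ u : Vec d t, cv u = 0 ↔ u = 0) ∧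
  (∀ (ℓ : ℕ) (g : Mat d t), cm (al ℓ g) = al ℓ (cm g)) ∧
  (∀ (n : ℕ) (x : Oz d t), ((n : ℕ) : Oz d t) ∣ star x ↔ ((n : ℕ) : Oz d t) ∣ x) ∧
  (∀ x : Oz d t, (star x).norm = x.norm)

/-- ROW CJA (short). (a) both sides are algebra homomorphisms of `P`, compare on the variables
(`MvPolynomial.algHom_ext`). (b) weighted homogeneity of `aeval` (as in ACH; `sw` exchanges the two
weights). (c) (d) (e) algebra homomorphisms, compare on the variables. -/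
def CJA_stmt : Prop := (∀ {d t : ℤ} {A : Type} [CommRing A] (f : Oz d t →+* A) (g : Mat d t)
    (P : Pol A), sw (act f g P) = act f (cm g) (sw P)) ∧
  (∀ {A : Type} [CommRing A] (k : ℕ) (P : Pol A), BiHom k P → BiHom k (sw P)) ∧
  (∀ {A : Type} [CommRing A] (P : Pol A), sw (sw P) = P) ∧
  (∀ {A : Type} [CommRing A] (P : Pol A), eval ![0, 1, 0, 1] (sw P) = eval ![0, 1, 0, 1] P) ∧
  (∀ {A B : Type} [CommRing A] [CommRing B] (ρ : A →+* B) (P : Pol A),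
    map ρ (sw P) = sw (map ρ P))

/-- ROW CJS (short-medium). `cj` preserves modular symbols with `χ = χ^c`. Equivariance: let `γ'` be the conjugate
of `γ` (CMG (4)), `N ∣ γ'10`; `φ(cv (γ u), cv (γ v)) = φ(γ' ū, γ' v̄) = χ(γ'11) act γ' (φ(ū, v̄))`, `χ(γ'11) = χ(γ11)`, and
`sw (act γ' P) = act γ (sw P)` (CJA (a), CMG (5)). The other axioms directly (`cv (c • u) = star c • cv u`). -/
def CJS_stmt : Prop := ∀ {d t : ℤ} {A : Type} [CommRing A] (f : Oz d t →+* A) (k N : ℕ)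
  (χ : Oz d t → A) (φ : Sy d t A), (∀ x, χ (star x) = χ x) → IsSym f k N χ φ →
  IsSym f k N χ (cj φ)

/-- ROW PRC (short-medium). Conjugation permutes the classes of `Γ⁰(ℓ) \ GL₂(O)`: for `g ∈ F` let `σ g ∈ F` be
the representative of the conjugate `g'` of `g`, `g' = h (σ g)`, `ℓ ∣ h01`. Injective: if `σ g1 = σ g2` then
`g1' g2'⁻¹ = h1 h2⁻¹`, and its conjugate `g1 g2⁻¹` has upper right entry divisible by `ℓ`, so `g1 = g2` by
uniqueness (model: OE.PRG helper74). -/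
def PRC_stmt : Prop := ∀ (d t : ℤ) (ℓ : ℕ) (F : Finset (GO d t)), IsReps ℓ F →
  ∃ σ : Equiv.Perm F, ∀ g : F, ∃ h : GO d t, ((ℓ : ℕ) : Oz d t) ∣ h.val 0 1 ∧
    cm (g : GO d t).val = h.val * (σ g : GO d t).val

/-- ROW PRX (short). Conjugation permutes the representatives modulo `ℓ` (REP; injective:
`ℓ ∣ star z` implies `ℓ ∣ z`). -/
def PRX_stmt : Prop := ∀ (d t : ℤ) (ℓ : ℕ), ℓ.Prime → ∃ σ : Equiv.Perm (Fin ℓ × Fin ℓ), ∀ x,
  ((ℓ : ℕ) : Oz d t) ∣ star (rep d t x) - rep d t (σ x)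

/-- ROW CJU (medium). `cj` commutes with `U_ℓ`. `cj (opU φ)(u, v) = ∑ x, sw (act (adj M_x) (φ(M_x ū, M_x v̄)))
= ∑ x, act (adj M'_x) ((cj φ)(M'_x u, M'_x v))` with `M'_x = cm M_x = (1 x̄; 0 ℓ)` (CJA (a), CMG (2) (3) (5)). With
`x̄ = y + ℓ z`, `y = rep (σ x)` (PRX): `M'_x = (1 z; 0 1) M_y`, and by TR1 for `cj φ` (CJS), `h = (1 z; 0 1)`,
`χ(h11) = 1`, the term is that of `y`; `Equiv.sum_comp`. -/
def CJU_stmt : Prop := ∀ (d t : ℤ), IsEuc d t → ∀ ℓ : ℕ, ℓ.Prime → ∀ {A : Type} [CommRing A]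
  (f : Oz d t →+* A) (k r : ℕ) (χ : Oz d t → A), χ 1 = 1 → (∀ x, χ (star x) = χ x) →
  ∀ φ : Sy d t A, IsSym f k (ℓ ^ r) χ φ → cj (opU f ℓ φ) = opU f ℓ (cj φ)

/-- ROW CJT (medium). `cj` commutes with `T_ℓ` on level one. `cj (opT φ)(u, v) =
∑ g ∈ F, act (adj (α g')) ((cj φ)(α g' u, α g' v))`, `g' = cm g`; `g' = h (σ g)` (PRC), `α h = h' α` (CNJ), so
`α g' = h' α (σ g)` and by TR1 for `cj φ` (CJS; `N = 1`, `χ = 1`) the term is that of `σ g`; `Equiv.sum_comp`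
(`Finset.sum_coe_sort`; model: OE.TSU helper17). -/
def CJT_stmt : Prop := ∀ (d t : ℤ), IsEuc d t → ∀ ℓ : ℕ, ℓ.Prime → ∀ F : Finset (GO d t),
  IsReps ℓ F → ∀ {A : Type} [CommRing A] (f : Oz d t →+* A) (k : ℕ) (φ : Sy d t A),
  IsSym f k 1 (fun _ => 1) φ → cj (opT f ℓ F φ) = opT f ℓ F (cj φ)

/-- ROW CEV (short). (a) by CJA (d). (b) as CJS: `cs` preserves scalar symbols
(`π(γ'11 * star γ'11) = π(γ11 * star γ11)`). -/
def CEV_stmt : Prop := (∀ {d t : ℤ} {κ : Type} [Field κ] (φ : Sy d t κ),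
    evS (cj φ) = cs (evS φ)) ∧
  (∀ {d t : ℤ} {κ : Type} [Field κ] (π : Oz d t →+* κ) (j N : ℕ) (ψ : Vec d t → Vec d t → κ),
    IsSc π j N ψ → IsSc π j N (cs ψ))

/-- ROW CBU (medium). `cj (bU ψ) = bU (cs ψ)` for `ψ` scalar of level `ℓ`. `sw (lin π k a b) = lin π k ā b̄`, so
`cj (bU ψ)(u, v) = ∑ x, C(ψ(M_x ū, M_x v̄)) lin π k 1 x̄`. `x̄ = y + ℓ z`, `y = rep (σ x)` (PRX): `lin π k 1 x̄ = lin π k 1 y`
(`π ℓ = 0`), `M_x ū = cv (M'_x u)`, `M'_x = (1 z; 0 1) M_y`, so `ψ(M_x ū, M_x v̄) = (cs ψ)((1 z; 0 1) M_y u, ..) =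
(cs ψ)(M_y u, M_y v)` (CEV (b), `h11 = 1`); `Equiv.sum_comp`. -/
def CBU_stmt : Prop := ∀ (d t : ℤ) (ℓ : ℕ), ℓ.Prime → ∀ {κ : Type} [Field κ] (π : Oz d t →+* κ),
  ((ℓ : ℕ) : κ) = 0 → ∀ (k j : ℕ) (ψ : Vec d t → Vec d t → κ), IsSc π j (ℓ ^ 1) ψ →
  cj (bU π ℓ k ψ) = bU π ℓ k (cs ψ)

/-- ROW CBT (medium). The same for `bT`. `cj (bT ψ)(u, v) = ∑ g ∈ F, C((cs ψ)(α g' u, α g' v)) lin π k g'00 g'01`,
`g' = cm g = h (σ g)` (PRC): the top row of `g'` is modulo `ℓ` the top row of `σ g` times `h00`, a factor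
`π(N h00)^k = π(N h00)^j` of `lin`; `α g' = h' α (σ g)` (CNJ), a factor `π(N h11)^j` of `cs ψ` (CEV (b), `h'11 = h11`,
`h'10 = ℓ h10`); `π(N h00) π(N h11) = 1` (DTU). (Model: step (1) of OE.BJH helper99.) -/
def CBT_stmt : Prop := ∀ (d t : ℤ), IsEuc d t → ∀ ℓ : ℕ, ℓ.Prime → ∀ F : Finset (GO d t),
  IsReps ℓ F → ∀ {κ : Type} [Field κ] (π : Oz d t →+* κ), ((ℓ : ℕ) : κ) = 0 → ∀ (k j : ℕ),
  (∀ x : Oz d t, ¬ ((ℓ : ℕ) : ℤ) ∣ x.norm → π (x * star x) ^ k = π (x * star x) ^ j) →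
  ∀ ψ : Vec d t → Vec d t → κ, IsSc π j (ℓ ^ 1) ψ → cj (bT π ℓ F k ψ) = bT π ℓ F k (cs ψ)

/-- ROW FCV (medium). FCU (helper63) with the additional information that the map `Λ` commutes with
`cj` on the modular symbols of level one and weight `j + 2`. `Λ w = bU k (evS w)`: for such a `w`, `evS w` is
scalar of level `ℓ` with character `N^j` (EVT with `r = 0`, `χ = 1`, `k = j`), so
`cj (Λ w) = bU k (cs (evS w)) = bU k (evS (cj w)) = Λ (cj w)` (CBU, CEV). `Λ w = bT k (evS w)` (`r = 0`): the same with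
CBT; its hypothesis `π(N x)^k = π(N x)^j` is the class condition with `χ = 1`. `Λ = 0`: clear. -/
def FCV_stmt : Prop := ∀ (d t : ℤ), IsEuc d t → ∀ ℓ : ℕ, ℓ.Prime → ℓ ≠ 2 →
  ∀ F : Finset (GO d t), IsReps ℓ F → ∀ {κ : Type} [Field κ] (π : Oz d t →+* κ),
  ((ℓ : ℕ) : κ) = 0 → ∀ (k r j : ℕ) (χ : Oz d t →* κ), 1 ≤ j →
  (∀ x y : Oz d t, ((ℓ : ℕ) : Oz d t) ^ r ∣ x - y → χ x = χ y) →
  (∀ x : Oz d t, ¬ ((ℓ : ℕ) : ℤ) ∣ x.norm → χ x * π (x * star x) ^ k = π (x * star x) ^ j) →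
  ∀ n : ℕ, ∃ (Λ : Sy d t κ →ₗ[κ] Sy d t κ) (m : ℕ),
    (∀ w : Sy d t κ, IsSym π j 1 (fun _ => 1) w → cj (Λ w) = Λ (cj w)) ∧
    ∀ φ : Sy d t κ, IsSym π k (ℓ ^ r) χ φ →
      ((op π ℓ F r) ^ m) φ ∈ ((Sym π j 1 (fun _ => 1)).map ((opT π ℓ F) ^ n)).map Λ

/-- the numerical statement: modulo `ℓ` the period relations have no antisymmetric solution
(certificates: helper21) -/
def NUMA_stmt (d t : ℤ) (ℓ j : ℕ) : Prop := ∀ {κ : Type} [Field κ] (π : Oz d t →+* κ),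
  ((ℓ : ℕ) : κ) = 0 → ∀ g : Pol κ, RelP π j g → sw g = -g → g = 0

/-- ROW WDA (short). For `w` of level one, `w' = w - cj w` is a modular symbol (CJS), `g' = w'(e1, e2)` satisfies the
period relations (WRQ) and `sw g' = -g'` (`cv e1 = e1`, `cv e2 = e2`, CJA (c)), so `g' = 0`, `w' = 0` (WRQ). -/
def WDA_stmt : Prop := ∀ (d t : ℤ), IsEuc d t → ∀ (ℓ : ℕ) {κ : Type} [Field κ]
  (π : Oz d t →+* κ), ((ℓ : ℕ) : κ) = 0 → ∀ j : ℕ, NUMA_stmt d t ℓ j →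
  ∀ w : Sy d t κ, IsSym π j 1 (fun _ => 1) w → cj w = w

end Pool.Agent.OE
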