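import Pool.Agent.helper21.OE.CKD
import Pool.Agent.helper21.OE.SpecC

/-!
# Project OE: the checker for the antisymmetric solutions modulo `ℓ`, definitions and values
-/

namespace Pool.Agent.OE

open Finset

/-- the pair `A B` -/
def CL_cmb (nd t a1 a2 b1 b2 : ℕ) : ℕ × ℕ :=
  (Nat.add (Nat.mul a1 b1) (Nat.mul nd (Nat.mul a2 b2)),
   Nat.add (Nat.add (Nat.mul a1 b2) (Nat.mul a2 b1)) (Nat.mul t (Nat.mul a2 b2)))

/-- the contribution of one matrix -/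
noncomputable def CL_one (nd t l j K : ℕ) (x y : ℕ) (g : CK_G) : ℕ × ℕ :=
  CL_cmb nd t
    (CK_out (fun s => (CK_A nd t l j g x s).1) K) (CK_out (fun s => (CK_A nd t l j g x s).2) K)
    (CK_inn (fun s => (CK_st t l (CK_A nd t l j g y s)).1) K)
    (CK_inn (fun s => (CK_st t l (CK_A nd t l j g y s)).2) K)

/-- sum of the contributions of a list of matrices -/
noncomputable def CL_rowL (nd t l j K x y : ℕ) (L : List CK_G) : ℕ × ℕ :=
  List.rec (motive := fun _ => ℕ × ℕ) (0, 0)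
    (fun g _ r => (Nat.add (CL_one nd t l j K x y g).1 r.1,
      Nat.add (CL_one nd t l j K x y g).2 r.2)) L

/-- the row of the relation `p` at the point `(x, y)`, the code is `(p, x + 1, y + 1)` -/
noncomputable def CL_row (nd t l j K : ℕ) (q : ℕ × ℕ × ℕ) : ℕ × ℕ :=
  Nat.rec (motive := fun _ => ℕ × ℕ) (0, 0)
    (fun x _ => Nat.rec (motive := fun _ => ℕ × ℕ) (0, 0)
      (fun y _ => CL_rowL nd t l j K x y (CK_pl t l q.1)) q.2.2) q.2.1

/-- the row in one number -/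
noncomputable def CL_s1 (nd t l j K n : ℕ) (q : ℕ × ℕ × ℕ) : ℕ :=
  Nat.add (CL_row nd t l j K q).1 (Nat.mul (Nat.pow CKB n) (CL_row nd t l j K q).2)

/-- the row times `ω` in one number -/
noncomputable def CL_s2 (nd t l j K n : ℕ) (q : ℕ × ℕ × ℕ) : ℕ :=
  Nat.add (Nat.mul nd (CL_row nd t l j K q).2)
    (Nat.mul (Nat.pow CKB n) (Nat.add (CL_row nd t l j K q).1
      (Nat.mul t (CL_row nd t l j K q).2)))

/-- a combination of rows -/
noncomputable def CL_S (nd t l j K n ys1 ys2 : ℕ) (rows : List (ℕ × ℕ × ℕ × ℕ)) : ℕ :=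
  List.rec (motive := fun _ => ℕ) 0
    (fun q _ r => Nat.add (Nat.add (Nat.mul (CK_d32 ys1 q.1) (CL_s1 nd t l j K n q.2))
      (Nat.mul (CK_d32 ys2 q.1) (CL_s2 nd t l j K n q.2))) r) rows

/-- `K` consecutive digits, `w = 44 K` -/
def CL_chunk (w S i : ℕ) : ℕ := Nat.mod (Nat.shiftRight S (Nat.mul w i)) (Nat.pow 2 w)

/-- a digit -/
def CL_d (w S i b : ℕ) : ℕ := Nat.mod (Nat.shiftRight (CL_chunk w S i) (Nat.mul 44 b)) CKB

/-- the antisymmetrised coefficient modulo `l` -/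
def CL_w (l j w S n0 a b : ℕ) : ℕ :=
  Nat.mod (Nat.add (Nat.add (CL_d w S (Nat.add n0 a) b)
    (CL_d w S (Nat.add n0 (Nat.sub j b)) (Nat.sub j a)))
    (Nat.mul (Nat.sub l 1) (Nat.add (CL_d w S (Nat.add n0 b) a)
      (CL_d w S (Nat.add n0 (Nat.sub j a)) (Nat.sub j b))))) l

/-- the test of one combination; `pos` is the list of the `(a + 1, b + 1)` -/
noncomputable def CL_tc (l j K w S : ℕ) (pos : List (ℕ × ℕ)) (va vb ev : ℕ) : Bool :=
  List.rec (motive := fun _ => Bool) true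
    (fun q _ r => and (Nat.rec (motive := fun _ => Bool) true
      (fun a _ => Nat.rec (motive := fun _ => Bool) true
        (fun b _ => and (Nat.beq (CL_w l j w S 0 a b)
          (cond (Nat.beq a va) (cond (Nat.beq b vb) ev 0) 0))
          (Nat.beq (CL_w l j w S K a b) 0)) q.2) q.1) r) pos

/-- the test of a list of combinations -/
noncomputable def CL_tgs (nd t l j K n w : ℕ) (rows : List (ℕ × ℕ × ℕ × ℕ)) (pos : List (ℕ × ℕ))
    (tg : List (ℕ × ℕ × ℕ × ℕ × ℕ)) : Bool :=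
  List.rec (motive := fun _ => Bool) true
    (fun q _ r => and (CL_tc l j K w (CL_S nd t l j K n q.2.2.2.1 q.2.2.2.2 rows) pos q.1 q.2.1
      q.2.2.1) r) tg

section sem

variable {κ : Type} [Field κ]

theorem CL_one_V (nd t l j : ℕ) (ht : t ≤ 1) (hl0 : 0 < l)
    (hl : (l : κ) = 0) (w w' : κ) (hw : w * w = t * w + nd) (hw' : w' = t - w)
    (c : ℕ → ℕ → κ) (x y : ℕ) (g : CK_G) :
    CK_V (j + 1) w c (l ^ 2 * (3 + nd)) (CL_one nd t l j (j + 1) x y g)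
      (CK_val w w' c j x y g) := by
  set K := j + 1 with hK
  have hK0 : 0 < K := by omega
  set A : ℕ → ℕ × ℕ := fun s => CK_A nd t l j g x s with hA
  set Bb : ℕ → ℕ × ℕ := fun s => CK_st t l (CK_A nd t l j g y s) with hBb
  have hAl : ∀ s, (A s).1 < l ∧ (A s).2 < l := fun s => CK_A_lt nd t l j hl0 g x s
  have hBl : ∀ s, (Bb s).1 < l ∧ (Bb s).2 < l := fun s => CK_st_lt t l hl0 _
  have hwt : w' * w' = t * w' + nd := by
    rw [hw']
    linear_combination hw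
  have hAi : ∀ s, CK_i w (A s) = (CK_i w g.1 * x + CK_i w g.2.2.1) ^ s *
      (CK_i w g.2.1 * x + CK_i w g.2.2.2) ^ (j - s) := fun s => CK_i_A nd t l j hl w hw g x s
  have hBi : ∀ s, CK_i w (Bb s) = (CK_i w' g.1 * y + CK_i w' g.2.2.1) ^ s *
      (CK_i w' g.2.1 * y + CK_i w' g.2.2.2) ^ (j - s) := by
    intro s
    rw [hBb]
    simp only
    rw [CK_i_st t l hl0 hl w w' hw', CK_i_A nd t l j hl w' hwt]
  have hout : ∀ c : ℕ → ℕ, CK_out c K = ∑ s ∈ range K, c s * CKB ^ (K * s) := fun c => CK_sm_eq _ K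
  have hinn : ∀ c : ℕ → ℕ, CK_inn c K = ∑ s ∈ range K, c s * CKB ^ s := fun c => CK_sm_eq _ K
  have hprod : ∀ a b : ℕ → ℕ, CK_out a K * CK_inn b K =
      CK_pk (K * K) (fun i => a (i / K) * b (i % K)) := by
    intro a b
    rw [hout, hinn, CK_pk_mul K hK0]
  have m1 : ∀ u v : ℕ, u < l → v < l → u * v ≤ l ^ 2 := fun u v hu hv => by
    rw [pow_two]; exact Nat.mul_le_mul hu.le hv.le
  refine ⟨fun i => (A (i / K)).1 * (Bb (i % K)).1 + nd * ((A (i / K)).2 * (Bb (i % K)).2),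
    fun i => (A (i / K)).1 * (Bb (i % K)).2 + (A (i / K)).2 * (Bb (i % K)).1 +
      t * ((A (i / K)).2 * (Bb (i % K)).2), ?_, ?_, fun i => ?_, fun i => ?_, ?_⟩
  · show CK_out (fun s => (A s).1) K * CK_inn (fun s => (Bb s).1) K +
      nd * (CK_out (fun s => (A s).2) K * CK_inn (fun s => (Bb s).2) K) = _
    rw [hprod, hprod, CK_pk_smul, CK_pk_add]
  · show CK_out (fun s => (A s).1) K * CK_inn (fun s => (Bb s).2) K +
      CK_out (fun s => (A s).2) K * CK_inn (fun s => (Bb s).1) K +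
      t * (CK_out (fun s => (A s).2) K * CK_inn (fun s => (Bb s).2) K) = _
    rw [hprod, hprod, hprod, CK_pk_smul, CK_pk_add, CK_pk_add]
  · have e1 := m1 _ _ (hAl (i / K)).1 (hBl (i % K)).1
    have e2 := Nat.mul_le_mul_left nd (m1 _ _ (hAl (i / K)).2 (hBl (i % K)).2)
    calc _ ≤ l ^ 2 + nd * l ^ 2 := add_le_add e1 e2
      _ ≤ l ^ 2 * (3 + nd) := by nlinarith [Nat.zero_le (l ^ 2)]
  · have e1 := m1 _ _ (hAl (i / K)).1 (hBl (i % K)).2
    have e1' := m1 _ _ (hAl (i / K)).2 (hBl (i % K)).1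
    have e2 := Nat.mul_le_mul ht (m1 _ _ (hAl (i / K)).2 (hBl (i % K)).2)
    calc _ ≤ l ^ 2 + l ^ 2 + 1 * l ^ 2 := add_le_add (add_le_add e1 e1') e2
      _ ≤ l ^ 2 * (3 + nd) := by nlinarith [Nat.zero_le (l ^ 2), Nat.zero_le (nd * l ^ 2)]
  · have hterm : ∀ i, (((A (i / K)).1 * (Bb (i % K)).1 + nd * ((A (i / K)).2 * (Bb (i % K)).2) :
      ℕ) : κ) + (((A (i / K)).1 * (Bb (i % K)).2 + (A (i / K)).2 * (Bb (i % K)).1 +
      t * ((A (i / K)).2 * (Bb (i % K)).2) : ℕ) : κ) * w =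
      CK_i w (A (i / K)) * CK_i w (Bb (i % K)) := by
      intro i
      simp only [Nat.cast_add, Nat.cast_mul, CK_i]
      linear_combination (-((A (i / K)).2 : κ) * (Bb (i % K)).2) * hw
    simp only [hterm]
    rw [← CK_reindex K K hK0 (fun s r => CK_i w (A s) * CK_i w (Bb r) * c s r)]
    simp only [hAi, hBi]
    rfl

theorem CL_rowL_V (nd t l j : ℕ) (ht : t ≤ 1) (hl0 : 0 < l)
    (hl : (l : κ) = 0) (w w' : κ) (hw : w * w = t * w + nd) (hw' : w' = t - w)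
    (c : ℕ → ℕ → κ) (x y : ℕ) (L : List CK_G) :
    CK_V (j + 1) w c (L.length * (l ^ 2 * (3 + nd))) (CL_rowL nd t l j (j + 1) x y L)
      (L.map (CK_val w w' c j x y)).sum := by
  induction L with
  | nil =>
    refine ⟨fun _ => 0, fun _ => 0, ?_, ?_, fun i => by simp, fun i => by simp, ?_⟩
    · show 0 = CK_pk _ _
      simp [CK_pk]
    · show 0 = CK_pk _ _
      simp [CK_pk]
    · simp
  | cons g L ih =>
    have h1 := CL_one_V nd t l j ht hl0 hl w w' hw hw' c x y g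
    have h2 := CK_V_add _ _ _ _ _ _ _ _ _ h1 ih
    rw [List.map_cons, List.sum_cons, List.length_cons, Nat.succ_mul, add_comm (L.length * _)]
    exact h2

theorem CL_V_mono (K : ℕ) (w : κ) (c : ℕ → ℕ → κ) (β β' : ℕ) (hβ : β ≤ β') (P : ℕ × ℕ) (v : κ)
    (h : CK_V K w c β P v) : CK_V K w c β' P v := by
  obtain ⟨D, E, h1, h2, h3, h4, h5⟩ := h
  exact ⟨D, E, h1, h2, fun i => (h3 i).trans hβ, fun i => (h4 i).trans hβ, h5⟩

theorem CL_row_V (hCFE : CFE_stmt) {d t : ℤ} (π : Oz d t →+* κ) (tn nd l j : ℕ)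
    (htn : (tn : ℤ) = t) (ht1 : tn ≤ 1) (hl0 : 0 < l) (hl : (l : κ) = 0)
    (hw : π ⟨0, 1⟩ * π ⟨0, 1⟩ = tn * π ⟨0, 1⟩ + nd) (hw' : π (star ⟨0, 1⟩) = tn - π ⟨0, 1⟩)
    (g : Pol κ) (hg : RelP π j g) (q : ℕ × ℕ × ℕ) (hq : CK_ok d q.1) :
    CK_V (j + 1) (π ⟨0, 1⟩) (cf g j) (6 * (l ^ 2 * (3 + nd))) (CL_row nd tn l j (j + 1) q) 0 := by
  have h0 : CK_V (j + 1) (π ⟨0, 1⟩) (cf g j) (6 * (l ^ 2 * (3 + nd))) (0, 0) 0 := by
    refine ⟨fun _ => 0, fun _ => 0, ?_, ?_, fun i => by simp, fun i => by simp, ?_⟩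
    · show 0 = CK_pk _ _
      simp [CK_pk]
    · show 0 = CK_pk _ _
      simp [CK_pk]
    · simp
  obtain ⟨p, x, y⟩ := q
  rcases x with _ | x
  · exact h0
  · rcases y with _ | y
    · exact h0
    · have h1 := CL_rowL_V nd tn l j ht1 hl0 hl (π ⟨0, 1⟩) (π (star ⟨0, 1⟩)) hw hw' (cf g j)
        x y (CK_pl tn l p)
      rw [CK_rel hCFE π tn l j htn hl0 hl g hg p hq x y] at h1
      exact CL_V_mono _ _ _ _ _ (Nat.mul_le_mul_right _ (CK_pl_le tn l p)) _ _ h1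

/-- the value of one packed number -/
def CL_V2 (K : ℕ) (w : κ) (c : ℕ → ℕ → κ) (β : ℕ) (S : ℕ) (v : κ) : Prop :=
  ∃ D E : ℕ → ℕ, S = CK_pk (K * K) D + CKB ^ (K * K) * CK_pk (K * K) E ∧ (∀ i, D i ≤ β) ∧
    (∀ i, E i ≤ β) ∧ ∑ i ∈ range (K * K), ((D i : κ) + (E i : κ) * w) * c (i / K) (i % K) = v

theorem CL_V2_add (K : ℕ) (w : κ) (c : ℕ → ℕ → κ) (β β' : ℕ) (S S' : ℕ) (v v' : κ)
    (h : CL_V2 K w c β S v) (h' : CL_V2 K w c β' S' v') :
    CL_V2 K w c (β + β') (Nat.add S S') (v + v') := by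
  obtain ⟨D, E, h1, h3, h4, h5⟩ := h
  obtain ⟨D', E', h1', h3', h4', h5'⟩ := h'
  refine ⟨fun i => D i + D' i, fun i => E i + E' i, ?_, fun i => add_le_add (h3 i) (h3' i),
    fun i => add_le_add (h4 i) (h4' i), ?_⟩
  · show S + S' = _
    rw [h1, h1', ← CK_pk_add, ← CK_pk_add]
    ring
  · rw [← h5, ← h5', ← Finset.sum_add_distrib]
    refine Finset.sum_congr rfl fun i _ => ?_
    push_cast
    ring

theorem CL_V2_mul (K : ℕ) (w : κ) (c : ℕ → ℕ → κ) (β : ℕ) (S : ℕ) (v : κ)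
    (h : CL_V2 K w c β S v) (y α : ℕ) (hy : y ≤ α) :
    CL_V2 K w c (α * β) (Nat.mul y S) ((y : κ) * v) := by
  obtain ⟨D, E, h1, h3, h4, h5⟩ := h
  refine ⟨fun i => y * D i, fun i => y * E i, ?_, fun i => Nat.mul_le_mul hy (h3 i),
    fun i => Nat.mul_le_mul hy (h4 i), ?_⟩
  · show y * S = _
    rw [h1, ← CK_pk_smul, ← CK_pk_smul]
    ring
  · rw [← h5, Finset.mul_sum]
    refine Finset.sum_congr rfl fun i _ => ?_
    push_cast
    ring

theorem CL_V2_s1 (K : ℕ) (w : κ) (c : ℕ → ℕ → κ) (β : ℕ) (P : ℕ × ℕ) (v : κ)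
    (h : CK_V K w c β P v) :
    CL_V2 K w c β (Nat.add P.1 (Nat.mul (Nat.pow CKB (K * K)) P.2)) v := by
  obtain ⟨D, E, h1, h2, h3, h4, h5⟩ := h
  refine ⟨D, E, ?_, h3, h4, h5⟩
  show P.1 + CKB ^ (K * K) * P.2 = _
  rw [h1, h2]

theorem CL_V2_s2 (nd t K : ℕ) (ht : t ≤ 1) (w : κ) (hw : w * w = t * w + nd)
    (c : ℕ → ℕ → κ) (β : ℕ) (P : ℕ × ℕ) (v : κ) (h : CK_V K w c β P v) :
    CL_V2 K w c ((2 + nd) * β) (Nat.add (Nat.mul nd P.2) (Nat.mul (Nat.pow CKB (K * K))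
      (Nat.add P.1 (Nat.mul t P.2)))) (w * v) := by
  obtain ⟨D, E, h1, h2, h3, h4, h5⟩ := h
  refine ⟨fun i => nd * E i, fun i => D i + t * E i, ?_, fun i => ?_, fun i => ?_, ?_⟩
  · show nd * P.2 + CKB ^ (K * K) * (P.1 + t * P.2) = _
    rw [h1, h2, CK_pk_smul, CK_pk_smul, CK_pk_add]
  · calc nd * E i ≤ nd * β := Nat.mul_le_mul_left _ (h4 i)
      _ ≤ (2 + nd) * β := Nat.mul_le_mul_right _ (by omega)
  · calc D i + t * E i ≤ β + 1 * β := add_le_add (h3 i) (Nat.mul_le_mul ht (h4 i))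
      _ ≤ (2 + nd) * β := by nlinarith [Nat.zero_le (nd * β)]
  · rw [← h5, Finset.mul_sum]
    refine Finset.sum_congr rfl fun i _ => ?_
    push_cast
    linear_combination (-(E i : κ) * c (i / K) (i % K)) * hw

theorem CL_S_V (hCFE : CFE_stmt) {d t : ℤ} (π : Oz d t →+* κ) (tn nd l j : ℕ)
    (htn : (tn : ℤ) = t) (ht1 : tn ≤ 1) (hl0 : 0 < l) (hl : (l : κ) = 0)
    (hw : π ⟨0, 1⟩ * π ⟨0, 1⟩ = tn * π ⟨0, 1⟩ + nd) (hw' : π (star ⟨0, 1⟩) = tn - π ⟨0, 1⟩)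
    (g : Pol κ) (hg : RelP π j g) (ys1 ys2 : ℕ) (rows : List (ℕ × ℕ × ℕ × ℕ))
    (hrows : ∀ q ∈ rows, CK_ok d q.2.1) :
    CL_V2 (j + 1) (π ⟨0, 1⟩) (cf g j)
      (rows.length * (32 * (3 + nd) * (6 * (l ^ 2 * (3 + nd)))))
      (CL_S nd tn l j (j + 1) ((j + 1) * (j + 1)) ys1 ys2 rows) 0 := by
  induction rows with
  | nil =>
    refine ⟨fun _ => 0, fun _ => 0, ?_, fun i => by simp, fun i => by simp, ?_⟩
    · show 0 = _
      simp [CK_pk]
    · simp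
  | cons q rows ih =>
    have h1 := CL_row_V hCFE π tn nd l j htn ht1 hl0 hl hw hw' g hg q.2
      (hrows q List.mem_cons_self)
    set β := 6 * (l ^ 2 * (3 + nd)) with hβ
    have hd : ∀ ys r, CK_d32 ys r ≤ 32 := fun ys r => (Nat.mod_lt _ (by norm_num)).le
    have h2 := CL_V2_mul _ _ _ _ _ _ (CL_V2_s1 _ _ _ _ _ _ h1) (CK_d32 ys1 q.1) 32 (hd _ _)
    have h3 := CL_V2_mul _ _ _ _ _ _ (CL_V2_s2 nd tn _ ht1 _ hw _ _ _ _ h1) (CK_d32 ys2 q.1) 32
      (hd _ _)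
    have h4 := CL_V2_add _ _ _ _ _ _ _ _ _ h2 h3
    have h5 := CL_V2_add _ _ _ _ _ _ _ _ _ h4
      (ih fun q' hq' => hrows q' (List.mem_cons_of_mem _ hq'))
    rw [mul_zero, mul_zero, mul_zero, add_zero, add_zero] at h5
    rw [List.length_cons, Nat.succ_mul, add_comm (rows.length * _)]
    have e1 : 32 * β + 32 * ((2 + nd) * β) = 32 * (3 + nd) * β := by ring
    rw [e1] at h5
    exact h5

end sem

end Pool.Agent.OE
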