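import Pool.Agent.helper21.OE.CLA
import Pool.Agent.helper21.OE.CKE

/-!
# Project OE: the checker for the antisymmetric solutions modulo `ℓ`, soundness
-/

namespace Pool.Agent.OE

open Finset

/-- certificates -/
structure CL_Cert where
  /-- the rows: number, relation, point -/
  rows : List (ℕ × ℕ × ℕ × ℕ)
  /-- the coordinates -/
  pos : List (ℕ × ℕ)
  /-- the combinations -/
  tg : List (List (ℕ × ℕ × ℕ × ℕ × ℕ))

/-- canonical points of the orbits -/
def CL_can (j m a b : ℕ) : Bool := decide (a < b) && decide (a + b ≤ j) && a % m == b % m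

/-- the test of the shape -/
def CL_chk1 (d j m l nd : ℕ) (C : CL_Cert) : Bool :=
  C.rows.all (fun q => q.2.1 == 0 || ((q.2.1 == 1 || q.2.1 == 2) && d == 2) ||
    ((q.2.1 == 3 || q.2.1 == 4) && d == 3)) &&
  decide (C.rows.length * (32 * (3 + nd) * (6 * (l ^ 2 * (3 + nd)))) < CKB) &&
  (C.pos == ((List.range ((j + 1) * (j + 1))).filter (fun i => CL_can j m (i / (j + 1))
    (i % (j + 1)))).map (fun i => (i / (j + 1) + 1, i % (j + 1) + 1))) &&
  (C.tg.flatten.map (fun q => (q.1 + 1, q.2.1 + 1)) == C.pos) &&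
  C.tg.flatten.all (fun q => q.2.2.1 == if q.1 + q.2.1 = j then 2 else 1)

theorem CL_dig_chunk (K S i b : ℕ) (hb : b < K) :
    CL_d (44 * K) S i b = S / CKB ^ (i * K + b) % CKB := by
  have h1 : CKB = 2 ^ 44 := by norm_num [CKB]
  show Nat.mod (Nat.shiftRight (Nat.mod (Nat.shiftRight S (Nat.mul (44 * K) i))
    (Nat.pow 2 (44 * K))) (Nat.mul 44 b)) CKB = _
  have e1 : Nat.shiftRight S (Nat.mul (44 * K) i) = S / CKB ^ (i * K) := by
    show S >>> (44 * K * i) = _
    rw [Nat.shiftRight_eq_div_pow, h1, ← pow_mul]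
    congr 2
    ring
  have e2 : Nat.pow 2 (44 * K) = CKB ^ K := by
    show 2 ^ (44 * K) = _
    rw [h1, ← pow_mul]
  have e3 : ∀ X, Nat.shiftRight X (Nat.mul 44 b) = X / CKB ^ b := by
    intro X
    show X >>> (44 * b) = _
    rw [Nat.shiftRight_eq_div_pow, h1, ← pow_mul]
  rw [e1, e2, e3]
  show S / CKB ^ (i * K) % CKB ^ K / CKB ^ b % CKB = _
  obtain ⟨e, rfl⟩ : ∃ e, K = b + (e + 1) := ⟨K - b - 1, by omega⟩
  rw [pow_add CKB b (e + 1), Nat.mod_mul_right_div_self, Nat.mod_mod_of_dvd _ (dvd_pow_self _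
    (by omega)), Nat.div_div_eq_div_mul, ← pow_add]

theorem CL_digit2 (n : ℕ) (D E : ℕ → ℕ) (hD : ∀ i < n, D i < CKB) (hE : ∀ i < n, E i < CKB)
    (i : ℕ) (hi : i < n) :
    (CK_pk n D + CKB ^ n * CK_pk n E) / CKB ^ i % CKB = D i ∧
    (CK_pk n D + CKB ^ n * CK_pk n E) / CKB ^ (n + i) % CKB = E i := by
  have h1 : CK_pk n D + CKB ^ n * CK_pk n E = CK_pk (n + n) (fun i => if i < n then D i else
      E (i - n)) := by
    rw [CK_pk, CK_pk, CK_pk, Finset.sum_range_add, Finset.mul_sum]
    congr 1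
    · refine Finset.sum_congr rfl fun k hk => ?_
      rw [if_pos (Finset.mem_range.mp hk)]
    · refine Finset.sum_congr rfl fun k hk => ?_
      rw [if_neg (by omega), Nat.add_sub_cancel_left, pow_add]
      ring
  have h2 : ∀ k < n + n, (fun i => if i < n then D i else E (i - n)) k < CKB := by
    intro k hk
    show (if k < n then D k else E (k - n)) < CKB
    split_ifs with h
    · exact hD k h
    · exact hE _ (by omega)
  rw [h1]
  constructor
  · rw [CK_digit (n + n) _ h2 i (by omega)]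
    exact if_pos hi
  · rw [CK_digit (n + n) _ h2 (n + i) (by omega)]
    show (if n + i < n then D (n + i) else E (n + i - n)) = E i
    rw [if_neg (by omega), Nat.add_sub_cancel_left]

theorem CL_tc_iff (l j K w S : ℕ) (pos : List (ℕ × ℕ)) (va vb ev : ℕ)
    (h : CL_tc l j K w S pos va vb ev = true) :
    ∀ a b, (a + 1, b + 1) ∈ pos → CL_w l j w S 0 a b = (if a = va ∧ b = vb then ev else 0) ∧
      CL_w l j w S K a b = 0 := by
  induction pos with
  | nil => simp
  | cons q pos ih =>
    have h' : (and (Nat.rec (motive := fun _ => Bool) true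
      (fun a _ => Nat.rec (motive := fun _ => Bool) true
        (fun b _ => and (Nat.beq (CL_w l j w S 0 a b)
          (cond (Nat.beq a va) (cond (Nat.beq b vb) ev 0) 0))
          (Nat.beq (CL_w l j w S K a b) 0)) q.2) q.1) (CL_tc l j K w S pos va vb ev)) = true := h
    rw [Bool.and_eq_true] at h'
    intro a b hab
    rw [List.mem_cons] at hab
    rcases hab with rfl | hab
    · have h1 : (and (Nat.beq (CL_w l j w S 0 a b)
          (cond (Nat.beq a va) (cond (Nat.beq b vb) ev 0) 0))
          (Nat.beq (CL_w l j w S K a b) 0)) = true := h'.1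
      rw [Bool.and_eq_true, Nat.beq_eq, Nat.beq_eq] at h1
      refine ⟨?_, h1.2⟩
      rw [h1.1]
      by_cases e1 : a = va
      · have e2 : Nat.beq a va = true := by rw [Nat.beq_eq]; exact e1
        rw [e2, cond_true]
        by_cases e3 : b = vb
        · have e4 : Nat.beq b vb = true := by rw [Nat.beq_eq]; exact e3
          rw [e4, cond_true, if_pos ⟨e1, e3⟩]
        · have e4 : Nat.beq b vb = false := by
            rw [Bool.eq_false_iff]
            intro e5
            exact e3 (Nat.eq_of_beq_eq_true e5)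
          rw [e4, cond_false, if_neg fun e => e3 e.2]
      · have e2 : Nat.beq a va = false := by
          rw [Bool.eq_false_iff]
          intro e5
          exact e1 (Nat.eq_of_beq_eq_true e5)
        rw [e2, cond_false, if_neg fun e => e1 e.1]
    · exact ih h'.2 a b hab

theorem CL_tgs_iff (nd t l j K n w : ℕ) (rows : List (ℕ × ℕ × ℕ × ℕ)) (pos : List (ℕ × ℕ))
    (tg : List (ℕ × ℕ × ℕ × ℕ × ℕ)) (h : CL_tgs nd t l j K n w rows pos tg = true) :
    ∀ q ∈ tg, CL_tc l j K w (CL_S nd t l j K n q.2.2.2.1 q.2.2.2.2 rows) pos q.1 q.2.1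
      q.2.2.1 = true := by
  induction tg with
  | nil => simp
  | cons q tg ih =>
    have h' : (and (CL_tc l j K w (CL_S nd t l j K n q.2.2.2.1 q.2.2.2.2 rows) pos q.1 q.2.1
      q.2.2.1) (CL_tgs nd t l j K n w rows pos tg)) = true := h
    rw [Bool.and_eq_true] at h'
    intro q' hq'
    rw [List.mem_cons] at hq'
    rcases hq' with rfl | hq'
    · exact h'.1
    · exact ih h'.2 q' hq'

theorem CL_sw_mon {κ : Type} [Field κ] (j s t : ℕ) : sw (mon j s t : Pol κ) = mon j t s := by
  simp only [mon, sw, map_mul, map_pow, MvPolynomial.aeval_X]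
  simp only [Matrix.cons_val]
  ring

theorem CL_cf_lin {κ : Type} [Field κ] (j a b : ℕ) (P : Pol κ) :
    cf P j a b = CK_lin κ j a b P := rfl

theorem CL_sw_cf (hEXQ : EXQ_stmt) {κ : Type} [Field κ] (j : ℕ) (P : Pol κ) (hP : BiHom j P)
    (a b : ℕ) (ha : a ≤ j) (hb : b ≤ j) : cf (sw P) j a b = cf P j b a := by
  have h1 : ∀ Q : Pol κ, ∀ s t, s ≤ j → t ≤ j → ∀ a b, a ≤ j → b ≤ j → ∀ r : κ,
      cf (MvPolynomial.C r * mon j s t) j a b = if s = a ∧ t = b then r else 0 := by
    intro Q s t hs ht a b ha hb r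
    have h2 := (hEXQ (A := κ) j).2 s t a b hs ht ha hb
    rw [MvPolynomial.C_mul']
    rw [CL_cf_lin, map_smul, ← CL_cf_lin, h2]
    split_ifs <;> simp
  have h3 : sw P = ∑ s ∈ range (j + 1), ∑ t ∈ range (j + 1),
      MvPolynomial.C (cf P j s t) * mon j t s := by
    conv_lhs => rw [(hEXQ (A := κ) j).1 P hP]
    rw [map_sum]
    refine Finset.sum_congr rfl fun s _ => ?_
    rw [map_sum]
    refine Finset.sum_congr rfl fun t _ => ?_
    rw [map_mul, CL_sw_mon]
    congr 1
    rw [sw, MvPolynomial.aeval_C]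
    rfl
  rw [h3, CL_cf_lin, map_sum]
  rw [Finset.sum_eq_single b]
  · rw [map_sum, Finset.sum_eq_single a]
    · rw [← CL_cf_lin, h1 P a b ha hb a b ha hb, if_pos ⟨rfl, rfl⟩]
    · intro t ht hta
      rw [← CL_cf_lin, h1 P t b (by rw [Finset.mem_range] at ht; omega) hb a b ha hb,
        if_neg fun e => hta e.1]
    · intro h
      exact absurd (Finset.mem_range.mpr (by omega)) h
  · intro s hs hsb
    rw [map_sum]
    refine Finset.sum_eq_zero fun t ht => ?_
    rw [Finset.mem_range] at hs ht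
    rw [← CL_cf_lin, h1 P t s (by omega) (by omega) a b ha hb, if_neg fun e => hsb e.2]
  · intro h
    exact absurd (Finset.mem_range.mpr (by omega)) h

end Pool.Agent.OE
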