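import Pool.Agent.helper21.OE.CLB

/-!
# Project OE: the checker for the antisymmetric solutions modulo `ℓ`, the theorem
-/

namespace Pool.Agent.OE

open Finset

/-- the indicator function of the point `(va, vb)` -/
def CL_de (κ : Type) [Field κ] (va vb a b : ℕ) : κ := if a = va ∧ b = vb then 1 else 0

/-- antisymmetrisation -/
def CL_as {κ : Type} [Field κ] (j : ℕ) (D : ℕ → ℕ → κ) (a b : ℕ) : κ :=
  D a b - D b a - D (j - a) (j - b) + D (j - b) (j - a)

theorem CL_as_sum {κ : Type} [Field κ] (j : ℕ) (D c : ℕ → ℕ → κ)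
    (hT : ∀ a b, a ≤ j → b ≤ j → c b a = - c a b)
    (hR : ∀ a b, a ≤ j → b ≤ j → c (j - a) (j - b) = - c a b) :
    ∑ a ∈ range (j + 1), ∑ b ∈ range (j + 1), CL_as j D a b * c a b =
      4 * ∑ a ∈ range (j + 1), ∑ b ∈ range (j + 1), D a b * c a b := by
  have h1 : ∀ D' : ℕ → ℕ → κ, ∑ a ∈ range (j + 1), ∑ b ∈ range (j + 1), D' b a * c a b =
      - ∑ a ∈ range (j + 1), ∑ b ∈ range (j + 1), D' a b * c a b := by
    intro D'
    rw [Finset.sum_comm, ← Finset.sum_neg_distrib]
    refine Finset.sum_congr rfl fun b hb => ?_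
    rw [← Finset.sum_neg_distrib]
    refine Finset.sum_congr rfl fun a ha => ?_
    rw [Finset.mem_range] at ha hb
    rw [hT b a (by omega) (by omega)]
    ring
  have h2 : ∀ D' : ℕ → ℕ → κ, ∑ a ∈ range (j + 1), ∑ b ∈ range (j + 1),
      D' (j - a) (j - b) * c a b =
      - ∑ a ∈ range (j + 1), ∑ b ∈ range (j + 1), D' a b * c a b := by
    intro D'
    rw [← Finset.sum_flip (fun a => ∑ b ∈ range (j + 1), D' a b * c a b),
      ← Finset.sum_neg_distrib]
    refine Finset.sum_congr rfl fun a ha => ?_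
    rw [← Finset.sum_flip (fun b => D' (j - a) b * c (j - a) b), ← Finset.sum_neg_distrib]
    refine Finset.sum_congr rfl fun b hb => ?_
    rw [Finset.mem_range] at ha hb
    rw [hR a b (by omega) (by omega)]
    ring
  have h3 := h1 D
  have h4 := h2 D
  have h5 := h2 (fun a b => D b a)
  simp only [CL_as, sub_mul, add_mul, Finset.sum_add_distrib, Finset.sum_sub_distrib]
  rw [h3, h4, h5, h3]
  ring

theorem CL_sound (hEXQ : EXQ_stmt) (hCFE : CFE_stmt) (hCFU : CFU_stmt) (hCFW : CFW_stmt)
    (d tn nd l j m : ℕ) (ht1 : tn ≤ 1) (hnd : l ∣ nd + d) (hlp : l.Prime) (hl2 : l ≠ 2)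
    (hm : ∀ {κ : Type} [Field κ] (π : Oz d tn →+* κ), (l : κ) = 0 → ∀ g : Pol κ, RelP π j g →
      ∀ a b, a ≤ j → b ≤ j → a % m ≠ b % m → cf g j a b = 0)
    (C : CL_Cert) (h1 : CL_chk1 d j m l nd C = true)
    (h2 : ∀ ch ∈ C.tg, CL_tgs nd tn l j (j + 1) ((j + 1) * (j + 1)) (44 * (j + 1)) C.rows C.pos
      ch = true) : NUMA_stmt d tn l j := by
  intro κ _ π hl g hg hanti
  simp only [CL_chk1, Bool.and_eq_true, Bool.or_eq_true, List.all_eq_true, beq_iff_eq,
    decide_eq_true_eq] at h1
  obtain ⟨⟨⟨⟨hrows, hbd⟩, hpos⟩, htg⟩, hev⟩ := h1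
  set K := j + 1 with hK
  set n := K * K with hn
  have hl0 : 0 < l := hlp.pos
  have h2ne : (2 : κ) ≠ 0 := by
    exact_mod_cast (fun h : ((2 : ℕ) : κ) = 0 => by
      have hcop : Nat.Coprime 2 l := (Nat.coprime_primes Nat.prime_two hlp).mpr (Ne.symm hl2)
      have hb := Nat.gcd_eq_gcd_ab 2 l
      rw [Nat.Coprime.gcd_eq_one hcop] at hb
      have hb' := congrArg (Int.cast : ℤ → κ) hb
      push_cast at hb'
      push_cast at h
      rw [h, hl] at hb'
      simp at hb' : ((2 : ℕ) : κ) ≠ 0)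
  have h4ne : (4 : κ) ≠ 0 := by
    have h3 : (4 : κ) = 2 * 2 := by norm_num
    rw [h3]
    exact mul_ne_zero h2ne h2ne
  -- symmetries
  have hpar : ∀ a b, a ≤ j → b ≤ j → Odd (a + b) → cf g j a b = 0 := by
    intro a b ha hb hab
    have h3 := hCFU d tn π j g hg.hom (-1) a b ha hb
    rw [hg.uni (-1) isUnit_one.neg] at h3
    have h4 : π (star (-1 : Oz d tn)) = -1 := by simp
    rw [h4, map_neg, map_one, ← pow_add, hab.neg_one_pow] at h3
    have h5 : 2 * cf g j a b = 0 := by linear_combination h3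
    exact (mul_eq_zero.mp h5).resolve_left h2ne
  have hR : ∀ a b, a ≤ j → b ≤ j → cf g j (j - a) (j - b) = - cf g j a b := by
    intro a b ha hb
    rcases Nat.even_or_odd (a + b) with hab | hab
    · have h3 := hCFW d tn π j g hg.hom a b ha hb
      rw [hg.inv, hab.neg_one_pow, one_mul] at h3
      have h4 : cf (-g) j a b = - cf g j a b := by simp [cf]
      rw [← h3, h4]
    · rw [hpar a b ha hb hab, hpar (j - a) (j - b) (by omega) (by omega)
        (by rw [Nat.odd_iff] at hab ⊢; omega), neg_zero]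
  have hT : ∀ a b, a ≤ j → b ≤ j → cf g j b a = - cf g j a b := by
    intro a b ha hb
    rw [← CL_sw_cf hEXQ j g hg.hom a b ha hb, hanti]
    simp [cf]
  have hdiag : ∀ a, a ≤ j → cf g j a a = 0 := by
    intro a ha
    have h3 := hT a a ha ha
    have h5 : 2 * cf g j a a = 0 := by linear_combination h3
    exact (mul_eq_zero.mp h5).resolve_left h2ne
  -- the image of ω
  have hst : (star ⟨0, 1⟩ : Oz d tn) = ⟨tn, -1⟩ := by
    ext <;> simp
  have hw' : π (star ⟨0, 1⟩) = tn - π ⟨0, 1⟩ := by
    have h3 : (⟨0, 1⟩ : Oz d tn) + star ⟨0, 1⟩ = ((tn : ℕ) : Oz d tn) := by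
      rw [hst]
      ext <;> simp
    have h4 := congrArg π h3
    rw [map_add, map_natCast] at h4
    linear_combination h4
  have hw : π ⟨0, 1⟩ * π ⟨0, 1⟩ = tn * π ⟨0, 1⟩ + nd := by
    have h3 : (⟨0, 1⟩ : Oz d tn) * ⟨0, 1⟩ + ((d : ℕ) : Oz d tn) =
        ((tn : ℕ) : Oz d tn) * ⟨0, 1⟩ := by
      ext <;> simp
    have h4 := congrArg π h3
    rw [map_add, map_mul, map_mul, map_natCast, map_natCast] at h4
    obtain ⟨z, hz⟩ := hnd
    have h5 : (nd : κ) + d = 0 := by
      have h6 := congrArg (Nat.cast : ℕ → κ) hz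
      rw [Nat.cast_add, Nat.cast_mul, hl, zero_mul] at h6
      exact h6
    linear_combination h4 - h5
  have hrows' : ∀ q ∈ C.rows, CK_ok d q.2.1 := by
    intro q hq
    rcases hrows q hq with (e | ⟨e, e'⟩) | ⟨e, e'⟩
    · exact Or.inl e
    · exact Or.inr (Or.inl ⟨e, by exact_mod_cast e'⟩)
    · exact Or.inr (Or.inr ⟨e, by exact_mod_cast e'⟩)
  -- membership in pos
  have hmem : ∀ a b, a < b → a + b ≤ j → a % m = b % m → (a + 1, b + 1) ∈ C.pos := by
    intro a b hab hs hmod
    rw [hpos, List.mem_map]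
    have hK0 : 0 < K := by omega
    have e1 : (a * K + b) / K = a := by
      rw [mul_comm, Nat.mul_add_div hK0, Nat.div_eq_of_lt (by omega), add_zero]
    have e2 : (a * K + b) % K = b := by
      rw [mul_comm, Nat.mul_add_mod, Nat.mod_eq_of_lt (by omega)]
    refine ⟨a * K + b, ?_, by rw [e1, e2]⟩
    rw [List.mem_filter, List.mem_range]
    refine ⟨?_, ?_⟩
    · calc a * K + b < a * K + K := by omega
        _ = (a + 1) * K := by ring
        _ ≤ K * K := Nat.mul_le_mul_right _ (by omega)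
    · rw [e1, e2]
      simp [CL_can, hab, hs, hmod]
  have hpos' : ∀ a b, (a + 1, b + 1) ∈ C.pos → a < b ∧ a + b ≤ j ∧ a % m = b % m := by
    intro a b h
    rw [hpos, List.mem_map] at h
    obtain ⟨i, hi, he⟩ := h
    rw [List.mem_filter] at hi
    rw [Prod.mk.injEq] at he
    have e1 : i / K = a := by omega
    have e2 : i % K = b := by omega
    have h3 := hi.2
    rw [e1, e2] at h3
    simp only [CL_can, Bool.and_eq_true, decide_eq_true_eq, beq_iff_eq] at h3
    exact ⟨h3.1.1, h3.1.2, h3.2⟩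
  -- reduction to canonical points
  have hcanon : ∀ f : ℕ → ℕ → κ, (∀ a b, a ≤ j → b ≤ j → f b a = - f a b) →
      (∀ a b, a ≤ j → b ≤ j → f (j - a) (j - b) = - f a b) →
      (∀ a b, (a + 1, b + 1) ∈ C.pos → f a b = 0) →
      ∀ a b, a ≤ j → b ≤ j → a ≠ b → a % m = b % m → f a b = 0 := by
    intro f hfT hfR hf
    have hlt : ∀ a b, a ≤ j → b ≤ j → a < b → a % m = b % m → f a b = 0 := by
      intro a b ha hb hab hmod
      by_cases hs : a + b ≤ j
      · exact hf a b (hmem a b hab hs hmod)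
      · have h3 : f (j - b) (j - a) = 0 := by
          refine hf _ _ (hmem _ _ (by omega) (by omega) ?_)
          have h4 : (m : ℤ) ∣ (b : ℤ) - a := by
            have h5 : a ≡ b [MOD m] := hmod
            exact (Nat.modEq_iff_dvd.mp h5)
          have h6 : (j - b) ≡ (j - a) [MOD m] := by
            rw [Nat.modEq_iff_dvd, Nat.cast_sub ha, Nat.cast_sub hb]
            have h7 : (j : ℤ) - a - (j - b) = b - a := by ring
            rw [h7]
            exact h4
          exact h6
        have h4 := hfR b a hb ha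
        rw [h3] at h4
        have h5 := hfT a b ha hb
        rw [h5] at h4
        linear_combination -h4
    intro a b ha hb hab hmod
    rcases lt_or_gt_of_ne hab with h3 | h3
    · exact hlt a b ha hb h3 hmod
    · have h4 := hlt b a hb ha h3 hmod.symm
      have h5 := hfT a b ha hb
      rw [h4] at h5
      linear_combination h5
  -- the targets
  have htar : ∀ va vb, (va + 1, vb + 1) ∈ C.pos → cf g j va vb = 0 := by
    intro va vb hv
    obtain ⟨hv1, hv2, hv3⟩ := hpos' va vb hv
    rw [← htg, List.mem_map] at hv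
    obtain ⟨q, hq, he⟩ := hv
    rw [Prod.mk.injEq] at he
    have e1 : q.1 = va := by omega
    have e2 : q.2.1 = vb := by omega
    have hqe := hev q hq
    rw [e1, e2] at hqe
    rw [List.mem_flatten] at hq
    obtain ⟨ch, hch, hq⟩ := hq
    have h4 := CL_tc_iff _ _ _ _ _ _ _ _ _ (CL_tgs_iff _ _ _ _ _ _ _ _ _ _ (h2 ch hch) q hq)
    obtain ⟨D, E, hS, hDb, hEb, hsum⟩ := CL_S_V hCFE π tn nd l j rfl ht1 hl0 hl hw hw' g hg
      q.2.2.2.1 q.2.2.2.2 C.rows hrows'
    have hdig : ∀ i < n, CL_S nd tn l j K n q.2.2.2.1 q.2.2.2.2 C.rows / CKB ^ i % CKB = D i ∧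
        CL_S nd tn l j K n q.2.2.2.1 q.2.2.2.2 C.rows / CKB ^ (n + i) % CKB = E i := by
      intro i hi
      have h5 : CL_S nd tn l j K n q.2.2.2.1 q.2.2.2.2 C.rows =
        CK_pk (K * K) D + CKB ^ (K * K) * CK_pk (K * K) E := hS
      rw [h5]
      exact CL_digit2 n D E (fun k _ => lt_of_le_of_lt (hDb k) hbd)
        (fun k _ => lt_of_le_of_lt (hEb k) hbd) i hi
    have hidx : ∀ a b, a ≤ j → b ≤ j → a * K + b < n := by
      intro a b ha hb
      calc a * K + b < a * K + K := by omega
        _ = (a + 1) * K := by ring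
        _ ≤ K * K := Nat.mul_le_mul_right _ (by omega)
    have hd1 : ∀ a b, a ≤ j → b ≤ j → CL_d (44 * K) (CL_S nd tn l j K n q.2.2.2.1 q.2.2.2.2
        C.rows) (Nat.add 0 a) b = D (a * K + b) := by
      intro a b ha hb
      rw [show Nat.add 0 a = a from Nat.zero_add a, CL_dig_chunk K _ a b (by omega)]
      exact (hdig _ (hidx a b ha hb)).1
    have hd2 : ∀ a b, a ≤ j → b ≤ j → CL_d (44 * K) (CL_S nd tn l j K n q.2.2.2.1 q.2.2.2.2
        C.rows) (Nat.add K a) b = E (a * K + b) := by
      intro a b ha hb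
      rw [show Nat.add K a = K + a from rfl, CL_dig_chunk K _ (K + a) b (by omega),
        show (K + a) * K + b = n + (a * K + b) by rw [hn]; ring]
      exact (hdig _ (hidx a b ha hb)).2
    have hl1 : ((l - 1 : ℕ) : κ) = -1 := by
      rw [Nat.cast_sub hlp.one_le, hl]
      simp
    have hW1 : ∀ a b, a ≤ j → b ≤ j → ((CL_w l j (44 * K) (CL_S nd tn l j K n q.2.2.2.1
        q.2.2.2.2 C.rows) 0 a b : ℕ) : κ) = CL_as j (fun a b => (D (a * K + b) : κ)) a b := by
      intro a b ha hb
      show ((((CL_d _ _ (Nat.add 0 a) b + CL_d _ _ (Nat.add 0 (j - b)) (j - a)) +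
        (l - 1) * (CL_d _ _ (Nat.add 0 b) a + CL_d _ _ (Nat.add 0 (j - a)) (j - b))) % l : ℕ) :
        κ) = _
      rw [CK_mod l hl, hd1 a b ha hb, hd1 (j - b) (j - a) (by omega) (by omega), hd1 b a hb ha,
        hd1 (j - a) (j - b) (by omega) (by omega)]
      simp only [Nat.cast_add, Nat.cast_mul, hl1, CL_as]
      ring
    have hW2 : ∀ a b, a ≤ j → b ≤ j → ((CL_w l j (44 * K) (CL_S nd tn l j K n q.2.2.2.1
        q.2.2.2.2 C.rows) K a b : ℕ) : κ) = CL_as j (fun a b => (E (a * K + b) : κ)) a b := by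
      intro a b ha hb
      show ((((CL_d _ _ (Nat.add K a) b + CL_d _ _ (Nat.add K (j - b)) (j - a)) +
        (l - 1) * (CL_d _ _ (Nat.add K b) a + CL_d _ _ (Nat.add K (j - a)) (j - b))) % l : ℕ) :
        κ) = _
      rw [CK_mod l hl, hd2 a b ha hb, hd2 (j - b) (j - a) (by omega) (by omega), hd2 b a hb ha,
        hd2 (j - a) (j - b) (by omega) (by omega)]
      simp only [Nat.cast_add, Nat.cast_mul, hl1, CL_as]
      ring
    set G : ℕ → ℕ → κ := fun a b => (D (a * K + b) : κ) + (E (a * K + b) : κ) * π ⟨0, 1⟩ with hG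
    -- the antisymmetrised combination
    set Z : ℕ → ℕ → κ := fun a b => CL_as j G a b - CL_as j (CL_de κ va vb) a b with hZ
    have hZT : ∀ a b, a ≤ j → b ≤ j → Z b a = - Z a b := by
      intro a b _ _
      simp only [hZ, CL_as]
      ring
    have hZR : ∀ a b, a ≤ j → b ≤ j → Z (j - a) (j - b) = - Z a b := by
      intro a b ha hb
      simp only [hZ, CL_as]
      rw [show j - (j - a) = a by omega, show j - (j - b) = b by omega]
      ring
    have hZ0 : ∀ a b, (a + 1, b + 1) ∈ C.pos → Z a b = 0 := by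
      intro a b hab
      obtain ⟨hp1, hp2, hp3⟩ := hpos' a b hab
      obtain ⟨h5, h6⟩ := h4 a b hab
      have h7 := hW1 a b (by omega) (by omega)
      have h8 := hW2 a b (by omega) (by omega)
      rw [h5, e1, e2, hqe] at h7
      rw [h6] at h8
      have h9 : CL_as j G a b = CL_as j (fun a b => (D (a * K + b) : κ)) a b +
          CL_as j (fun a b => (E (a * K + b) : κ)) a b * π ⟨0, 1⟩ := by
        simp only [CL_as, hG]
        ring
      show CL_as j G a b - CL_as j (CL_de κ va vb) a b = 0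
      rw [h9, ← h7, ← h8]
      have hc1 : CL_de κ va vb b a = 0 := if_neg (by omega)
      have hc2 : CL_de κ va vb (j - a) (j - b) = 0 := if_neg (by omega)
      have hc3 : CL_as j (CL_de κ va vb) a b = CL_de κ va vb a b +
          CL_de κ va vb (j - b) (j - a) := by
        rw [CL_as, hc1, hc2]
        ring
      rw [hc3, CL_de, CL_de]
      by_cases h10 : a = va ∧ b = vb
      · rw [if_pos h10, if_pos h10]
        obtain ⟨rfl, rfl⟩ := h10
        by_cases h11 : a + b = j
        · rw [if_pos h11, if_pos (by omega)]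
          push_cast
          ring
        · rw [if_neg h11, if_neg (by omega)]
          push_cast
          ring
      · rw [if_neg h10, if_neg h10, if_neg (by omega)]
        simp
    have hZc : ∀ a b, a ≤ j → b ≤ j → Z a b * cf g j a b = 0 := by
      intro a b ha hb
      by_cases h5 : a = b
      · subst h5
        rw [hdiag a ha, mul_zero]
      · by_cases h6 : a % m = b % m
        · rw [hcanon Z hZT hZR hZ0 a b ha hb h5 h6, zero_mul]
        · rw [hm π hl g hg a b ha hb h6, mul_zero]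
    have hs1 := CL_as_sum j G (cf g j) hT hR
    have hs2 := CL_as_sum j (CL_de κ va vb) (cf g j) hT hR
    have hs3 : ∑ a ∈ range (j + 1), ∑ b ∈ range (j + 1), G a b * cf g j a b = 0 := by
      rw [← hsum, CK_reindex K K (by omega) (fun a b => G a b * cf g j a b)]
      refine Finset.sum_congr rfl fun i hi => ?_
      simp only [hG]
      rw [show i / K * K + i % K = i by rw [mul_comm]; exact Nat.div_add_mod i K]
    have hs4 : ∑ a ∈ range (j + 1), ∑ b ∈ range (j + 1), CL_de κ va vb a b * cf g j a b =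
        cf g j va vb := by
      rw [Finset.sum_eq_single va, Finset.sum_eq_single vb]
      · simp [CL_de]
      · intro b _ hb
        rw [CL_de, if_neg (by tauto), zero_mul]
      · intro h
        exact absurd (Finset.mem_range.mpr (by omega)) h
      · intro a _ ha
        refine Finset.sum_eq_zero fun b _ => ?_
        rw [CL_de, if_neg (by tauto), zero_mul]
      · intro h
        exact absurd (Finset.mem_range.mpr (by omega)) h
    have hs5 : ∑ a ∈ range (j + 1), ∑ b ∈ range (j + 1), CL_as j G a b * cf g j a b =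
        ∑ a ∈ range (j + 1), ∑ b ∈ range (j + 1), CL_as j (CL_de κ va vb) a b * cf g j a b := by
      refine Finset.sum_congr rfl fun a ha => Finset.sum_congr rfl fun b hb => ?_
      rw [Finset.mem_range] at ha hb
      have h5 := hZc a b (by omega) (by omega)
      simp only [hZ, sub_mul] at h5
      linear_combination h5
    rw [hs1, hs2, hs3, hs4, mul_zero] at hs5
    exact (mul_eq_zero.mp hs5.symm).resolve_left h4ne
  have hall : ∀ a b, a ≤ j → b ≤ j → cf g j a b = 0 := by
    intro a b ha hb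
    by_cases h5 : a = b
    · subst h5
      exact hdiag a ha
    · by_cases h6 : a % m = b % m
      · exact hcanon (cf g j) hT hR htar a b ha hb h5 h6
      · exact hm π hl g hg a b ha hb h6
  rw [(hEXQ j).1 g hg.hom]
  refine Finset.sum_eq_zero fun a ha => Finset.sum_eq_zero fun b hb => ?_
  rw [Finset.mem_range] at ha hb
  rw [hall a b (by omega) (by omega)]
  simp

end Pool.Agent.OE
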