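import Pool.Agent.helper21.OE.Defs

/-!
# MP_2e0e07_nt, project OE: complex conjugation on modular symbols, definitions
-/

namespace Pool.Agent.OE

open MvPolynomial Matrix

/-- exchange of the variables `X, Y` and `Z, W` -/
noncomputable def sw {A : Type*} [CommRing A] : Pol A →ₐ[A] Pol A := aeval ![X 2, X 3, X 0, X 1]

/-- the conjugate vector -/
def cv {d t : ℤ} (u : Vec d t) : Vec d t := fun i => star (u i)

/-- complex conjugation on modular symbols: `(cj φ)(u, v)` is `φ(ū, v̄)` with the variables `X, Y` and
`Z, W` exchanged; for a prime `v` it exchanges the Hecke operators at `v` and at `v̄` -/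
noncomputable def cj {d t : ℤ} {A : Type*} [CommRing A] : Sy d t A →ₗ[A] Sy d t A where
  toFun φ := fun u v => sw (φ (cv u) (cv v))
  map_add' φ ψ := by
    ext1 u; ext1 v; simp
  map_smul' a φ := by
    ext1 u; ext1 v; simp

end Pool.Agent.OE
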