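import Pool.Agent.helper21.OE.Defs

/-!
# MP_2e0e07_nt, project OE: the exceptional classes
-/

namespace Pool.Agent.OE

/-- the exceptional classes `j` for the primes `ℓ ≤ 31`: only for the discriminants `-11` (`d = 3`) and
`-7` (`d = 2`, `t = 1`) -/
def Exc (d t : ℤ) (ℓ j : ℕ) : Prop :=
  (d = 3 ∧ ((j = 10 ∧ 13 ≤ ℓ) ∨ (j = 19 ∧ ℓ = 23) ∨ (j = 30 ∧ ℓ = 31))) ∨
    (d = 2 ∧ t = 1 ∧ j = 30 ∧ ℓ = 31)

end Pool.Agent.OE
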