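import Pool.Agent.helper21.OE.DefX

/-!
# MP_2e0e07_nt, project OE: the exceptions of the uniform part
-/

namespace Pool.Agent.OE

/-- the exceptions of the uniform part: discriminant `-11` and `j = 10`; the three pairs
`(j, ℓ) = (12, 37)`, `(12, 127)`, `(20, 409)` for the discriminants `-8`, `-7`, `-4` -/
def Exu (d t : ℤ) (ℓ j : ℕ) : Prop :=
  (d = 3 ∧ j = 10) ∨ (d = 2 ∧ t = 0 ∧ j = 12 ∧ ℓ = 37) ∨ (d = 2 ∧ t = 1 ∧ j = 12 ∧ ℓ = 127) ∨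
    (d = 1 ∧ t = 0 ∧ j = 20 ∧ ℓ = 409)

end Pool.Agent.OE
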