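import Mathlib

/-!
# MP_2e0e07_nt, project OE: ordinary Bianchi modular symbols over the norm-Euclidean imaginary
quadratic fields, definitions
-/

namespace Pool.Agent.OE

open MvPolynomial Matrix

/-- The ring `ℤ[ω]`, `ω ^ 2 = t ω - d`, with elements `x + y ω`; `star` is complex conjugation. -/
abbrev Oz (d t : ℤ) : Type := QuadraticAlgebra ℤ (-d) t

/-- the rings of integers of the norm-Euclidean imaginary quadratic fields, of discriminant
`t ^ 2 - 4 d = -4, -8, -3, -7, -11` -/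
def IsEuc (d t : ℤ) : Prop := (t = 0 ∧ (d = 1 ∨ d = 2)) ∨ (t = 1 ∧ (d = 1 ∨ d = 2 ∨ d = 3))

/-- column vectors -/
abbrev Vec (d t : ℤ) : Type := Fin 2 → Oz d t

/-- two by two matrices -/
abbrev Mat (d t : ℤ) : Type := Matrix (Fin 2) (Fin 2) (Oz d t)

/-- `GL₂` of the ring -/
abbrev GO (d t : ℤ) : Type := GL (Fin 2) (Oz d t)

/-- polynomials in `X = X 0`, `Y = X 1`, `Z = X 2`, `W = X 3` -/
abbrev Pol (A : Type*) [CommRing A] : Type _ := MvPolynomial (Fin 4) A

/-- functions of two vectors with polynomial values -/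
abbrev Sy (d t : ℤ) (A : Type*) [CommRing A] : Type _ := Vec d t → Vec d t → Pol A

/-- `(g P)(X, Y, Z, W) = P((X, Y) g, (Z, W) ḡ)`, the coefficients of `g` taken in `A` by `f` -/
noncomputable def act {d t : ℤ} {A : Type*} [CommRing A] (f : Oz d t →+* A) (g : Mat d t) :
    Pol A →ₐ[A] Pol A :=
  aeval ![C (f (g 0 0)) * X 0 + C (f (g 1 0)) * X 1, C (f (g 0 1)) * X 0 + C (f (g 1 1)) * X 1,
    C (f (star (g 0 0))) * X 2 + C (f (star (g 1 0))) * X 3,
    C (f (star (g 0 1))) * X 2 + C (f (star (g 1 1))) * X 3]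

/-- homogeneous of degree `k` in `(X, Y)` and of degree `k` in `(Z, W)` -/
def BiHom {A : Type*} [CommRing A] (k : ℕ) (P : Pol A) : Prop :=
  IsWeightedHomogeneous (![1, 1, 0, 0] : Fin 4 → ℕ) P k ∧
    IsWeightedHomogeneous (![0, 0, 1, 1] : Fin 4 → ℕ) P k

/-- Modular symbols of weight `k + 2`, level `Γ₀(N)` and character `χ`: functions `φ(u, v)` of two
nonzero vectors of `O²` which depend only on the lines `K u`, `K v` (cusps), with values in
`Sym^k ⊗ conj Sym^k`, additive and `Γ₀(N)`-equivariant. -/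
structure IsSym {d t : ℤ} {A : Type*} [CommRing A] (f : Oz d t →+* A) (k N : ℕ)
    (χ : Oz d t → A) (φ : Sy d t A) : Prop where
  zero_left : ∀ v, φ 0 v = 0
  zero_right : ∀ u, φ u 0 = 0
  add : ∀ u v w, u ≠ 0 → v ≠ 0 → w ≠ 0 → φ u v + φ v w = φ u w
  smul_left : ∀ (c : Oz d t) (u v : Vec d t), c ≠ 0 → φ (c • u) v = φ u v
  smul_right : ∀ (c : Oz d t) (u v : Vec d t), c ≠ 0 → φ u (c • v) = φ u v
  hom : ∀ u v, BiHom k (φ u v)
  equiv : ∀ (γ : GO d t) (u v : Vec d t), ((N : ℕ) : Oz d t) ∣ γ.val 1 0 →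
    φ (γ.val *ᵥ u) (γ.val *ᵥ v) = χ (γ.val 1 1) • act f γ.val (φ u v)

/-- the module of modular symbols -/
def Sym {d t : ℤ} {A : Type*} [CommRing A] (f : Oz d t →+* A) (k N : ℕ) (χ : Oz d t → A) :
    Submodule A (Sy d t A) where
  carrier := {φ | IsSym f k N χ φ}
  add_mem' := by
    rintro φ ψ h h'
    refine ⟨fun v => ?_, fun u => ?_, fun u v w hu hv hw => ?_, fun c u v hc => ?_,
      fun c u v hc => ?_, fun u v => ?_, fun γ u v hγ => ?_⟩
    · simp [h.zero_left, h'.zero_left]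
    · simp [h.zero_right, h'.zero_right]
    · simp only [Pi.add_apply]
      rw [← h.add u v w hu hv hw, ← h'.add u v w hu hv hw]; ring
    · simp [h.smul_left c u v hc, h'.smul_left c u v hc]
    · simp [h.smul_right c u v hc, h'.smul_right c u v hc]
    · exact ⟨((h.hom u v).1).add (h'.hom u v).1, ((h.hom u v).2).add (h'.hom u v).2⟩
    · simp only [Pi.add_apply, map_add, smul_add]
      rw [h.equiv γ u v hγ, h'.equiv γ u v hγ]
  zero_mem' := by
    refine ⟨fun v => rfl, fun u => rfl, fun u v w _ _ _ => by simp, fun c u v _ => rfl,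
      fun c u v _ => rfl, fun u v => ⟨?_, ?_⟩, fun γ u v _ => by simp⟩
    · exact isWeightedHomogeneous_zero A _ k
    · exact isWeightedHomogeneous_zero A _ k
  smul_mem' := by
    rintro a φ h
    refine ⟨fun v => ?_, fun u => ?_, fun u v w hu hv hw => ?_, fun c u v hc => ?_,
      fun c u v hc => ?_, fun u v => ?_, fun γ u v hγ => ?_⟩
    · simp [h.zero_left]
    · simp [h.zero_right]
    · simp only [Pi.smul_apply]
      rw [← h.add u v w hu hv hw, smul_add]
    · simp [h.smul_left c u v hc]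
    · simp [h.smul_right c u v hc]
    · exact ⟨(weightedHomogeneousSubmodule A _ k).smul_mem a (h.hom u v).1,
        (weightedHomogeneousSubmodule A _ k).smul_mem a (h.hom u v).2⟩
    · simp only [Pi.smul_apply, map_smul]
      rw [h.equiv γ u v hγ, smul_comm]

/-- representatives `x + y ω`, `0 ≤ x, y < ℓ`, of the ring modulo `ℓ` -/
def rep (d t : ℤ) {ℓ : ℕ} (x : Fin ℓ × Fin ℓ) : Oz d t := ⟨((x.1 : ℕ) : ℤ), ((x.2 : ℕ) : ℤ)⟩

/-- the Hecke operator `U_ℓ`: sum over the matrices `M = (1 x; 0 ℓ)` of `adj(M) φ(M u, M v)` -/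
noncomputable def opU {d t : ℤ} {A : Type*} [CommRing A] (f : Oz d t →+* A) (ℓ : ℕ) :
    Sy d t A →ₗ[A] Sy d t A where
  toFun φ := fun u v => ∑ x : Fin ℓ × Fin ℓ, act f !![((ℓ : ℕ) : Oz d t), - rep d t x; 0, 1]
    (φ (!![1, rep d t x; 0, ((ℓ : ℕ) : Oz d t)] *ᵥ u)
      (!![1, rep d t x; 0, ((ℓ : ℕ) : Oz d t)] *ᵥ v))
  map_add' φ ψ := by
    ext1 u; ext1 v; simp [Finset.sum_add_distrib]
  map_smul' a φ := by
    ext1 u; ext1 v; simp [Finset.smul_sum]

/-- `F` is a set of representatives of `Γ⁰(ℓ) \ GL₂(O)`, where `Γ⁰(ℓ)` is the subgroup of the matrices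
whose upper right entry is divisible by `ℓ` -/
def IsReps {d t : ℤ} (ℓ : ℕ) (F : Finset (GO d t)) : Prop :=
  ∀ γ : GO d t, ∃! g : GO d t, g ∈ F ∧ ((ℓ : ℕ) : Oz d t) ∣ (γ * g⁻¹).val 0 1

/-- the matrix `α g`, `α = diag(1, ℓ)` -/
def al {d t : ℤ} (ℓ : ℕ) (g : Mat d t) : Mat d t := !![1, 0; 0, ((ℓ : ℕ) : Oz d t)] * g

/-- the Hecke operator `T_ℓ` of level one, that is of the double coset of `α = diag(1, ℓ)`: sum over
the representatives `M = α g` of `adj(M) φ(M u, M v)` -/
noncomputable def opT {d t : ℤ} {A : Type*} [CommRing A] (f : Oz d t →+* A) (ℓ : ℕ)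
    (F : Finset (GO d t)) : Sy d t A →ₗ[A] Sy d t A where
  toFun φ := fun u v => ∑ g ∈ F, act f (al ℓ g.val).adjugate
    (φ (al ℓ g.val *ᵥ u) (al ℓ g.val *ᵥ v))
  map_add' φ ψ := by
    ext1 u; ext1 v; simp [Finset.sum_add_distrib]
  map_smul' a φ := by
    ext1 u; ext1 v; simp [Finset.smul_sum]

/-- the Hecke operator at `ℓ` of level `Γ₀(ℓ ^ r)` -/
noncomputable def op {d t : ℤ} {A : Type*} [CommRing A] (f : Oz d t →+* A) (ℓ : ℕ)
    (F : Finset (GO d t)) (r : ℕ) : Sy d t A →ₗ[A] Sy d t A :=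
  if r = 0 then opT f ℓ F else opU f ℓ

/-- the ordinary part of the modular symbols over `L` of weight `k + 2`, level `Γ₀(ℓ ^ r)` and
character `χ`: killed by a monic polynomial over `R` in the Hecke operator whose constant term is a
unit (all eigenvalues are units) -/
def Ord {d t : ℤ} {R : Type*} [CommRing R] (L : Type*) [Field L] [Algebra R L] (f : Oz d t →+* R)
    (ℓ : ℕ) (F : Finset (GO d t)) (k r : ℕ) (χ : Oz d t →* R) : Submodule L (Sy d t L) where
  carrier := {φ | φ ∈ Sym ((algebraMap R L).comp f) k (ℓ ^ r) (fun x => algebraMap R L (χ x)) ∧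
    ∃ q : Polynomial R, q.Monic ∧ IsUnit (q.coeff 0) ∧
      Polynomial.aeval (op ((algebraMap R L).comp f) ℓ F r) (q.map (algebraMap R L)) φ = 0}
  add_mem' := by
    rintro φ ψ ⟨h, q, hq, hu, h0⟩ ⟨h', q', hq', hu', h0'⟩
    refine ⟨Submodule.add_mem _ h h', q * q', hq.mul hq', ?_, ?_⟩
    · rw [Polynomial.mul_coeff_zero]; exact hu.mul hu'
    · rw [Polynomial.map_mul, map_add]
      have h1 : Polynomial.aeval (op ((algebraMap R L).comp f) ℓ F r)
          (q.map (algebraMap R L) * q'.map (algebraMap R L)) φ = 0 := by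
        rw [mul_comm, map_mul, Module.End.mul_apply, h0, map_zero]
      have h2 : Polynomial.aeval (op ((algebraMap R L).comp f) ℓ F r)
          (q.map (algebraMap R L) * q'.map (algebraMap R L)) ψ = 0 := by
        rw [map_mul, Module.End.mul_apply, h0', map_zero]
      rw [h1, h2, add_zero]
  zero_mem' := ⟨Submodule.zero_mem _, 1, Polynomial.monic_one, by simp, by simp⟩
  smul_mem' := by
    rintro a φ ⟨h, q, hq, hu, h0⟩
    exact ⟨Submodule.smul_mem _ a h, q, hq, hu, by rw [map_smul, h0, smul_zero]⟩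

/-- `χ` and the weight `k` belong to the class `j`: `χ(x) N(x)^k = N(x)^j` modulo the maximal ideal
for all `x` prime to `ℓ`, `N(x) = x x̄` -/
def InClass {d t : ℤ} {R : Type*} [CommRing R] [IsLocalRing R] (f : Oz d t →+* R) (ℓ k : ℕ)
    (χ : Oz d t →* R) (j : ℕ) : Prop :=
  ∀ x : Oz d t, ¬ ((ℓ : ℕ) : ℤ) ∣ x.norm →
    IsLocalRing.residue R (χ x * f (x * star x) ^ k) = IsLocalRing.residue R (f (x * star x) ^ j)

/-- reduction modulo the maximal ideal -/
noncomputable abbrev fbar {d t : ℤ} {R : Type*} [CommRing R] [IsLocalRing R]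
    (f : Oz d t →+* R) : Oz d t →+* IsLocalRing.ResidueField R :=
  (IsLocalRing.residue R).comp f

/-- the number of base changes from `ℚ` among the cuspidal eigenforms of weight `j + 2` and level one:
the dimension of the space of cusp forms of weight `j + 2`, level one over `ℚ`, for even `j`;
half the dimension of the space spanned by the forms without complex multiplication by the field,
of weight `j + 2`, level the absolute value of the discriminant and quadratic character, for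
odd `j` -/
def sdim (d t : ℤ) (j : ℕ) : ℕ :=
  if j % 2 = 0 then (if (j + 2) % 12 = 2 then (j + 2) / 12 - 1 else (j + 2) / 12)
  else if t = 1 ∧ d = 1 then (j - 1) / 6
  else if t = 0 ∧ d = 1 then (j - 1) / 4
  else if t = 1 ∧ d = 2 then (j - 1) / 3
  else (j - 1) / 2

end Pool.Agent.OE
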