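import Pool.Agent.helper21.OE.NUB

/-!
# Project OE: certificates over the integers for the antisymmetric part (discriminants -4 and -3)
-/

namespace Pool.Agent.OE

set_option maxRecDepth 100000

/-- certificate, `m = 4`, `j = 1`, antisymmetric part -/
def CA_4_1 : OD.NUM_Cert where
  tri := []
  fre := []
  cols := []
  tg := []

theorem NA_4_1 (l : ℕ) (hlp : l.Prime) (hl2 : l ≠ 2) (hl3 : l ≠ 3 ∨ (0 : ℤ) = 0)
    (hD : ¬ l ∣ ((1).factorial ^ 8)) : NUMA_stmt 1 0 l 1 :=
  NUB_one 0 (Or.inl rfl) 4 1 ((1).factorial ^ 8) rfl (by norm_num) CA_4_1 rfl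
    (by decide +kernel) (by decide +kernel) (by decide +kernel) l hlp hl2 hl3 hD

/-- certificate, `m = 4`, `j = 2`, antisymmetric part -/
def CA_4_2 : OD.NUM_Cert where
  tri := []
  fre := []
  cols := []
  tg := []

theorem NA_4_2 (l : ℕ) (hlp : l.Prime) (hl2 : l ≠ 2) (hl3 : l ≠ 3 ∨ (0 : ℤ) = 0)
    (hD : ¬ l ∣ ((2).factorial ^ 8)) : NUMA_stmt 1 0 l 2 :=
  NUB_one 0 (Or.inl rfl) 4 2 ((2).factorial ^ 8) rfl (by norm_num) CA_4_2 rfl
    (by decide +kernel) (by decide +kernel) (by decide +kernel) l hlp hl2 hl3 hD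

/-- certificate, `m = 4`, `j = 3`, antisymmetric part -/
def CA_4_3 : OD.NUM_Cert where
  tri := []
  fre := []
  cols := []
  tg := []

theorem NA_4_3 (l : ℕ) (hlp : l.Prime) (hl2 : l ≠ 2) (hl3 : l ≠ 3 ∨ (0 : ℤ) = 0)
    (hD : ¬ l ∣ ((3).factorial ^ 8)) : NUMA_stmt 1 0 l 3 :=
  NUB_one 0 (Or.inl rfl) 4 3 ((3).factorial ^ 8) rfl (by norm_num) CA_4_3 rfl
    (by decide +kernel) (by decide +kernel) (by decide +kernel) l hlp hl2 hl3 hD

/-- certificate, `m = 4`, `j = 4`, antisymmetric part -/
def CA_4_4 : OD.NUM_Cert where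
  tri := [(0, 4)]
  fre := []
  cols := [((0, 4), [.negSucc 1])]
  tg := [((0, 4), .ofNat 1, [.negSucc 0])]

theorem NA_4_4 (l : ℕ) (hlp : l.Prime) (hl2 : l ≠ 2) (hl3 : l ≠ 3 ∨ (0 : ℤ) = 0)
    (hD : ¬ l ∣ ((4).factorial ^ 8)) : NUMA_stmt 1 0 l 4 :=
  NUB_one 0 (Or.inl rfl) 4 4 ((4).factorial ^ 8) rfl (by norm_num) CA_4_4 rfl
    (by decide +kernel) (by decide +kernel) (by decide +kernel) l hlp hl2 hl3 hD

/-- certificate, `m = 4`, `j = 5`, antisymmetric part -/
def CA_4_5 : OD.NUM_Cert where
  tri := [(0, 5)]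
  fre := []
  cols := [((0, 4), [.ofNat 2])]
  tg := [((0, 4), .ofNat 2, [.ofNat 1])]

theorem NA_4_5 (l : ℕ) (hlp : l.Prime) (hl2 : l ≠ 2) (hl3 : l ≠ 3 ∨ (0 : ℤ) = 0)
    (hD : ¬ l ∣ ((5).factorial ^ 8)) : NUMA_stmt 1 0 l 5 :=
  NUB_one 0 (Or.inl rfl) 4 5 ((5).factorial ^ 8) rfl (by norm_num) CA_4_5 rfl
    (by decide +kernel) (by decide +kernel) (by decide +kernel) l hlp hl2 hl3 hD

/-- certificate, `m = 4`, `j = 6`, antisymmetric part -/
def CA_4_6 : OD.NUM_Cert where
  tri := [(0, 5), (0, 6)]
  fre := []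
  cols := [((0, 4), [.ofNat 8, .negSucc 1]), ((1, 5), [.ofNat 2, .ofNat 0])]
  tg := [((0, 4), .ofNat 2, [.ofNat 0, .negSucc 0]), ((1, 5), .ofNat 1, [.ofNat 1, .ofNat 4])]

theorem NA_4_6 (l : ℕ) (hlp : l.Prime) (hl2 : l ≠ 2) (hl3 : l ≠ 3 ∨ (0 : ℤ) = 0)
    (hD : ¬ l ∣ ((6).factorial ^ 8)) : NUMA_stmt 1 0 l 6 :=
  NUB_one 0 (Or.inl rfl) 4 6 ((6).factorial ^ 8) rfl (by norm_num) CA_4_6 rfl
    (by decide +kernel) (by decide +kernel) (by decide +kernel) l hlp hl2 hl3 hD

/-- certificate, `m = 4`, `j = 7`, antisymmetric part -/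
def CA_4_7 : OD.NUM_Cert where
  tri := [(0, 6), (0, 7)]
  fre := []
  cols := [((0, 4), [.negSucc 9, .ofNat 2]), ((1, 5), [.negSucc 0, .ofNat 0])]
  tg := [((0, 4), .ofNat 2, [.ofNat 0, .ofNat 1]), ((1, 5), .ofNat 1, [.negSucc 0, .negSucc 4])]

theorem NA_4_7 (l : ℕ) (hlp : l.Prime) (hl2 : l ≠ 2) (hl3 : l ≠ 3 ∨ (0 : ℤ) = 0)
    (hD : ¬ l ∣ ((7).factorial ^ 8)) : NUMA_stmt 1 0 l 7 :=
  NUB_one 0 (Or.inl rfl) 4 7 ((7).factorial ^ 8) rfl (by norm_num) CA_4_7 rfl
    (by decide +kernel) (by decide +kernel) (by decide +kernel) l hlp hl2 hl3 hD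

/-- certificate, `m = 4`, `j = 8`, antisymmetric part -/
def CA_4_8 : OD.NUM_Cert where
  tri := [(0, 8), (1, 7), (2, 6), (3, 4)]
  fre := []
  cols := [((0, 4), [.negSucc 1, .negSucc 63, .negSucc 335, .ofNat 280]), ((0, 8), [.negSucc 1, .ofNat 0, .ofNat 0, .ofNat 0]), ((1, 5), [.ofNat 0, .negSucc 5, .negSucc 41, .ofNat 35]), ((2, 6), [.ofNat 0, .ofNat 0, .negSucc 1, .ofNat 0])]
  tg := [((0, 4), .ofNat 560, [.ofNat 0, .negSucc 34, .ofNat 0, .negSucc 5]), ((0, 8), .ofNat 280, [.negSucc 279, .ofNat 35, .ofNat 0, .ofNat 6]), ((1, 5), .ofNat 70, [.ofNat 0, .ofNat 35, .ofNat 0, .ofNat 8]), ((2, 6), .ofNat 5, [.ofNat 0, .ofNat 0, .negSucc 4, .negSucc 5])]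

theorem NA_4_8 (l : ℕ) (hlp : l.Prime) (hl2 : l ≠ 2) (hl3 : l ≠ 3 ∨ (0 : ℤ) = 0)
    (hD : ¬ l ∣ ((8).factorial ^ 8)) : NUMA_stmt 1 0 l 8 :=
  NUB_one 0 (Or.inl rfl) 4 8 ((8).factorial ^ 8) rfl (by norm_num) CA_4_8 rfl
    (by decide +kernel) (by decide +kernel) (by decide +kernel) l hlp hl2 hl3 hD

/-- certificate, `m = 4`, `j = 9`, antisymmetric part -/
def CA_4_9 : OD.NUM_Cert where
  tri := [(0, 1), (0, 8), (0, 9), (4, 5)]
  fre := []
  cols := [((0, 4), [.ofNat 8, .negSucc 13, .ofNat 2, .ofNat 1008]), ((0, 8), [.ofNat 16, .negSucc 9, .ofNat 2, .ofNat 0]), ((1, 5), [.ofNat 8, .negSucc 0, .ofNat 0, .ofNat 112]), ((2, 6), [.ofNat 8, .ofNat 0, .ofNat 0, .ofNat 0])]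
  tg := [((0, 4), .ofNat 560, [.ofNat 0, .ofNat 112, .ofNat 560, .ofNat 1]), ((0, 8), .ofNat 560, [.ofNat 0, .negSucc 111, .negSucc 279, .negSucc 0]), ((1, 5), .ofNat 140, [.ofNat 0, .negSucc 251, .negSucc 1259, .negSucc 0]), ((2, 6), .ofNat 112, [.ofNat 14, .ofNat 224, .ofNat 1008, .ofNat 1])]

theorem NA_4_9 (l : ℕ) (hlp : l.Prime) (hl2 : l ≠ 2) (hl3 : l ≠ 3 ∨ (0 : ℤ) = 0)
    (hD : ¬ l ∣ ((9).factorial ^ 8)) : NUMA_stmt 1 0 l 9 :=
  NUB_one 0 (Or.inl rfl) 4 9 ((9).factorial ^ 8) rfl (by norm_num) CA_4_9 rfl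
    (by decide +kernel) (by decide +kernel) (by decide +kernel) l hlp hl2 hl3 hD

/-- certificate, `m = 4`, `j = 10`, antisymmetric part -/
def CA_4_10 : OD.NUM_Cert where
  tri := [(0, 1), (0, 3), (0, 7), (0, 9), (0, 10), (1, 9)]
  fre := []
  cols := [((0, 4), [.ofNat 8, .ofNat 104, .ofNat 140, .ofNat 16, .negSucc 1, .negSucc 119]), ((0, 8), [.ofNat 16, .ofNat 176, .ofNat 128, .ofNat 12, .negSucc 1, .negSucc 39]), ((1, 5), [.ofNat 8, .ofNat 84, .ofNat 36, .ofNat 1, .ofNat 0, .negSucc 9]), ((1, 9), [.ofNat 16, .ofNat 168, .ofNat 72, .ofNat 2, .ofNat 0, .negSucc 1]), ((2, 6), [.ofNat 8, .ofNat 72, .ofNat 8, .ofNat 0, .ofNat 0, .ofNat 0]), ((3, 7), [.ofNat 8, .ofNat 68, .ofNat 2, .ofNat 0, .ofNat 0, .ofNat 0])]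
  tg := [((0, 4), .ofNat 40, [.negSucc 24, .ofNat 3, .negSucc 1, .ofNat 20, .ofNat 56, .ofNat 0]), ((0, 8), .ofNat 40, [.ofNat 25, .negSucc 2, .ofNat 2, .negSucc 19, .negSucc 75, .ofNat 0]), ((1, 5), .ofNat 90, [.ofNat 475, .negSucc 56, .ofNat 38, .negSucc 389, .negSucc 923, .negSucc 9]), ((1, 9), .ofNat 9, [.negSucc 24, .ofNat 3, .negSucc 1, .ofNat 30, .ofNat 96, .ofNat 1]), ((2, 6), .ofNat 40, [.negSucc 509, .ofNat 61, .negSucc 33, .ofNat 180, .ofNat 192, .ofNat 0]), ((3, 7), .ofNat 10, [.ofNat 195, .negSucc 22, .ofNat 12, .negSucc 59, .negSucc 55, .ofNat 0])]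

theorem NA_4_10 (l : ℕ) (hlp : l.Prime) (hl2 : l ≠ 2) (hl3 : l ≠ 3 ∨ (0 : ℤ) = 0)
    (hD : ¬ l ∣ ((10).factorial ^ 8)) : NUMA_stmt 1 0 l 10 :=
  NUB_one 0 (Or.inl rfl) 4 10 ((10).factorial ^ 8) rfl (by norm_num) CA_4_10 rfl
    (by decide +kernel) (by decide +kernel) (by decide +kernel) l hlp hl2 hl3 hD

/-- certificate, `m = 4`, `j = 11`, antisymmetric part -/
def CA_4_11 : OD.NUM_Cert where
  tri := [(0, 10), (0, 11), (1, 9), (1, 10), (2, 9), (3, 8)]
  fre := []
  cols := [((0, 4), [.negSucc 17, .ofNat 2, .negSucc 615, .ofNat 154, .ofNat 2310, .ofNat 11550]), ((0, 8), [.negSucc 13, .ofNat 2, .negSucc 197, .ofNat 66, .ofNat 330, .ofNat 330]), ((1, 5), [.negSucc 0, .ofNat 0, .negSucc 74, .ofNat 12, .ofNat 300, .ofNat 1800]), ((1, 9), [.negSucc 0, .ofNat 0, .negSucc 20, .ofNat 4, .ofNat 20, .ofNat 0]), ((2, 6), [.ofNat 0, .ofNat 0, .negSucc 4, .ofNat 0, .ofNat 20, .ofNat 180]), ((3, 7), [.ofNat 0, .ofNat 0, .ofNat 0, .ofNat 0, .ofNat 0, .ofNat 8])]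
  tg := [((0, 4), .ofNat 12, [.ofNat 96, .ofNat 177, .negSucc 3, .ofNat 8, .negSucc 0, .ofNat 0]), ((0, 8), .ofNat 12, [.negSucc 95, .negSucc 170, .ofNat 4, .negSucc 7, .ofNat 1, .ofNat 0]), ((1, 5), .ofNat 8, [.negSucc 571, .negSucc 1066, .ofNat 24, .negSucc 46, .ofNat 6, .ofNat 0]), ((1, 9), .ofNat 24, [.ofNat 924, .ofNat 1617, .negSucc 39, .ofNat 77, .negSucc 9, .ofNat 0]), ((2, 6), .ofNat 60, [.ofNat 14520, .ofNat 27885, .negSucc 619, .ofNat 1135, .negSucc 151, .ofNat 0]), ((3, 7), .ofNat 8, [.negSucc 4619, .negSucc 9239, .ofNat 200, .negSucc 309, .ofNat 41, .ofNat 1])]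

theorem NA_4_11 (l : ℕ) (hlp : l.Prime) (hl2 : l ≠ 2) (hl3 : l ≠ 3 ∨ (0 : ℤ) = 0)
    (hD : ¬ l ∣ ((11).factorial ^ 8)) : NUMA_stmt 1 0 l 11 :=
  NUB_one 0 (Or.inl rfl) 4 11 ((11).factorial ^ 8) rfl (by norm_num) CA_4_11 rfl
    (by decide +kernel) (by decide +kernel) (by decide +kernel) l hlp hl2 hl3 hD

/-- certificate, `m = 4`, `j = 12`, antisymmetric part -/
def CA_4_12 : OD.NUM_Cert where
  tri := [(0, 10), (0, 11), (0, 12), (1, 8), (1, 9), (1, 10), (1, 11), (2, 9), (2, 10)]
  fre := []
  cols := [((0, 4), [.negSucc 93, .ofNat 20, .negSucc 1, .ofNat 4788, .negSucc 2431, .ofNat 864, .negSucc 191, .ofNat 9856, .negSucc 3695]), ((0, 8), [.negSucc 71, .ofNat 16, .negSucc 1, .ofNat 1992, .negSucc 927, .ofNat 336, .negSucc 95, .ofNat 1584, .negSucc 791]), ((0, 12), [.negSucc 131, .ofNat 24, .negSucc 1, .ofNat 0, .ofNat 0, .ofNat 0, .ofNat 0, .ofNat 0, .ofNat 0]), ((1, 5), [.negSucc 10, .ofNat 1, .ofNat 0, .ofNat 1190, .negSucc 419, .ofNat 98, .negSucc 13, .ofNat 1540, .negSucc 461]), ((1, 9), [.negSucc 10,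 .ofNat 1, .ofNat 0, .ofNat 504, .negSucc 165, .ofNat 36, .negSucc 5, .ofNat 176, .negSucc 65]), ((2, 6), [.negSucc 0, .ofNat 0, .ofNat 0, .ofNat 270, .negSucc 59, .ofNat 6, .ofNat 0, .ofNat 170, .negSucc 29]), ((2, 10), [.negSucc 1, .ofNat 0, .ofNat 0, .ofNat 180, .negSucc 39, .ofNat 4, .ofNat 0, .ofNat 20, .negSucc 1]), ((3, 7), [.ofNat 0, .ofNat 0, .ofNat 0, .ofNat 45, .negSucc 4, .ofNat 0, .ofNat 0, .ofNat 10, .ofNat 0]), ((4, 8), [.ofNat 0, .ofNat 0, .ofNat 0, .ofNat 8, .ofNat 0, .ofNat 0, .ofNat 0, .ofNat 0, .ofNat 0])]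
  tg := [((0, 4), .ofNat 46656, [.negSucc 122363, .negSucc 743513, .negSucc 846143, .ofNat 0, .ofNat 7452, .negSucc 163, .negSucc 110260, .ofNat 3726, .ofNat 10256]), ((0, 8), .ofNat 10368, [.ofNat 26676, .ofNat 161598, .ofNat 178560, .ofNat 0, .negSucc 1619, .ofNat 76, .ofNat 24007, .negSucc 809, .negSucc 2223]), ((0, 12), .ofNat 46656, [.ofNat 4644, .ofNat 32646, .ofNat 38592, .ofNat 0, .negSucc 323, .negSucc 355, .ofNat 4459, .negSucc 161, .negSucc 495]), ((1, 5), .ofNat 216, [.ofNat 5292, .ofNat 32178, .ofNat 36864, .ofNat 0, .negSucc 323, .negSucc 7, .ofNat 4753, .negSucc 161, .negSucc 447]), ((1, 9), .ofNat 2916, [.negSucc 42011, .negSucc 253769, .negSucc 272447, .ofNat 0, .ofNat 2592, .ofNat 238, .negSucc 37714, .ofNat 1296, .ofNat 3608]), ((2, 6), .ofNat 486, [.negSucc 44495, .negSucc 271055, .negSucc 315935, .ofNat 0, .ofNat 2754, .ofNat 320, .negSucc 39567, .ofNat 1377, .ofNat 3826]), ((2, 10), .ofNat 432, [.ofNat 14796, .ofNat 88962, .ofNat 91008, .ofNat 0, .negSucc 971, .negSucc 363, .ofNat 13289,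 .negSucc 485, .negSucc 1375]), ((3, 7), .ofNat 810, [.ofNat 145908, .ofNat 893550, .ofNat 1092672, .ofNat 0, .negSucc 9233, .negSucc 3061, .ofNat 125305, .negSucc 4535, .negSucc 12711]), ((4, 8), .ofNat 12, [.negSucc 2789, .negSucc 17249, .negSucc 22859, .ofNat 3, .ofNat 207, .ofNat 220, .negSucc 2134, .ofNat 90, .ofNat 260])]

theorem NA_4_12 (l : ℕ) (hlp : l.Prime) (hl2 : l ≠ 2) (hl3 : l ≠ 3 ∨ (0 : ℤ) = 0)
    (hD : ¬ l ∣ ((12).factorial ^ 8)) : NUMA_stmt 1 0 l 12 :=
  NUB_one 0 (Or.inl rfl) 4 12 ((12).factorial ^ 8) rfl (by norm_num) CA_4_12 rfl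
    (by decide +kernel) (by decide +kernel) (by decide +kernel) l hlp hl2 hl3 hD

/-- certificate, `m = 4`, `j = 13`, antisymmetric part -/
def CA_4_13 : OD.NUM_Cert where
  tri := [(0, 1), (0, 4), (0, 9), (0, 10), (0, 11), (0, 12), (0, 13), (1, 2), (1, 12)]
  fre := []
  cols := [((0, 4), [.ofNat 8, .negSucc 589, .ofNat 840, .negSucc 369, .ofNat 114, .negSucc 21, .ofNat 2, .ofNat 234, .ofNat 234]), ((0, 8), [.ofNat 16, .negSucc 779, .ofNat 720, .negSucc 295, .ofNat 88, .negSucc 17, .ofNat 2, .ofNat 260, .ofNat 130]), ((0, 12), [.ofNat 24, .negSucc 1209, .ofNat 935, .negSucc 351, .ofNat 90, .negSucc 13, .ofNat 2, .ofNat 78, .ofNat 26]), ((1, 5), [.ofNat 8, .negSucc 429, .ofNat 220, .negSucc 65, .ofNat 12, .negSucc 0, .ofNat 0, .ofNat 202, .ofNat 16]), ((1, 9), [.ofNat 16, .negSucc 619, .ofNat 221, .negSucc 65, .ofNat 12, .negSucc 0, .ofNat 0, .ofNat 228, .ofNat 8]), ((2, 6), [.ofNat 8, .negSucc 309, .ofNat 55, .negSucc 10, .ofNat 1, .ofNat 0, .ofNat 0, .ofNat 178, .ofNat 0]), ((2, 10), [.ofNat 16, .negSucc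 539, .ofNat 65, .negSucc 11, .ofNat 1, .ofNat 0, .ofNat 0, .ofNat 212, .ofNat 0]), ((3, 7), [.ofNat 8, .negSucc 229, .ofNat 10, .negSucc 0, .ofNat 0, .ofNat 0, .ofNat 0, .ofNat 162, .ofNat 0]), ((4, 8), [.ofNat 8, .negSucc 189, .ofNat 1, .ofNat 0, .ofNat 0, .ofNat 0, .ofNat 0, .ofNat 154, .ofNat 0])]
  tg := [((0, 4), .ofNat 6000, [.ofNat 2075, .ofNat 92, .ofNat 880, .ofNat 4240, .ofNat 10160, .ofNat 12720, .negSucc 2559, .ofNat 0, .ofNat 0]), ((0, 8), .ofNat 8000, [.negSucc 2974, .negSucc 131, .negSucc 1279, .negSucc 6239, .negSucc 15359, .negSucc 21119, .negSucc 639, .ofNat 0, .ofNat 0]), ((0, 12), .ofNat 24000, [.ofNat 625, .ofNat 28, .ofNat 320, .ofNat 1760, .ofNat 5440, .ofNat 12480, .ofNat 24160, .ofNat 0, .ofNat 0]), ((1, 5), .ofNat 1600, [.negSucc 4604, .negSucc 203, .negSucc 1919, .negSucc 9119, .negSucc 21119, .negSucc 21439, .ofNat 22040, .ofNat 0, .ofNat 200]), ((1, 9), .ofNat 960, [.ofNat 1535, .ofNat 68, .ofNat 640, .ofNat 3040, .ofNat 7040, .ofNat 5760, .negSucc 16359, .ofNat 0, .negSucc 119]),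 ((2, 6), .ofNat 32000, [.ofNat 240775, .ofNat 10866, .ofNat 99840, .ofNat 465920, .ofNat 1063680, .ofNat 1218560, .negSucc 282079, .ofNat 250, .negSucc 3999]), ((2, 10), .ofNat 32000, [.negSucc 38974, .negSucc 1937, .negSucc 17919, .negSucc 85759, .negSucc 202239, .negSucc 174079, .ofNat 419040, .negSucc 249, .ofNat 4000]), ((3, 7), .ofNat 6400, [.negSucc 68964, .negSucc 2997, .negSucc 25599, .negSucc 116479, .negSucc 259839, .negSucc 327679, .negSucc 111199, .ofNat 50, .negSucc 799]), ((4, 8), .ofNat 16, [.ofNat 93, .ofNat 4, .ofNat 32, .ofNat 144, .ofNat 320, .ofNat 432, .ofNat 286, .ofNat 0, .ofNat 2])]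

theorem NA_4_13 (l : ℕ) (hlp : l.Prime) (hl2 : l ≠ 2) (hl3 : l ≠ 3 ∨ (0 : ℤ) = 0)
    (hD : ¬ l ∣ ((13).factorial ^ 8)) : NUMA_stmt 1 0 l 13 :=
  NUB_one 0 (Or.inl rfl) 4 13 ((13).factorial ^ 8) rfl (by norm_num) CA_4_13 rfl
    (by decide +kernel) (by decide +kernel) (by decide +kernel) l hlp hl2 hl3 hD

/-- certificate, `m = 4`, `j = 14`, antisymmetric part -/
def CA_4_14 : OD.NUM_Cert where
  tri := [(0, 13), (0, 14), (1, 11), (1, 12), (1, 13), (2, 11), (2, 12), (3, 10), (3, 11), (4, 10), (5, 9), (6, 7)]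
  fre := []
  cols := [((0, 4), [.ofNat 24, .negSucc 1, .negSucc 5319, .ofNat 1540, .negSucc 279, .ofNat 27300, .negSucc 8189, .ofNat 196196, .negSucc 87359, .negSucc 418417, .negSucc 968967, .ofNat 566280]), ((0, 8), [.ofNat 20, .negSucc 1, .negSucc 2463, .ofNat 756, .negSucc 167, .ofNat 7280, .negSucc 2729, .ofNat 25480, .negSucc 14559, .negSucc 30029, .negSucc 24023, .ofNat 3432]), ((0, 12), [.ofNat 16, .negSucc 1, .negSucc 727, .ofNat 196, .negSucc 55, .ofNat 364, .negSucc 181, .ofNat 0, .ofNat 0, .ofNat 0, .ofNat 0, .ofNat 0]), ((1, 5), [.ofNat 1, .ofNat 0, .negSucc 785, .ofNat 153, .negSucc 17, .ofNat 3900, .negSucc 935, .ofNat 33852, .negSucc 13103, .negSucc 72071, .negSucc 177605, .ofNat 113256]), ((1, 9), [.ofNat 1, .ofNat 0, .negSucc 399, .ofNat 75, .negSucc 9, .ofNat 910, .negSucc 259, .ofNat 3250, .negSucc 1559, .negSucc 2859, .negSucc 1429, .ofNat 0]), ((1, 13), [.ofNat 2, .ofNat 0, .negSucc 155, .ofNat 26, .negSucc 1, .ofNat 0, .ofNat 0, .ofNat 0, .ofNat 0, .ofNat 0, .ofNat 0, .ofNat 0]), ((2,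 6), [.ofNat 0, .ofNat 0, .negSucc 95, .ofNat 8, .ofNat 0, .ofNat 392, .negSucc 55, .ofNat 4536, .negSucc 1343, .negSucc 9239, .negSucc 24639, .ofNat 17952]), ((2, 10), [.ofNat 0, .ofNat 0, .negSucc 47, .ofNat 4, .ofNat 0, .ofNat 76, .negSucc 11, .ofNat 276, .negSucc 95, .negSucc 131, .ofNat 0, .ofNat 0]), ((3, 7), [.ofNat 0, .ofNat 0, .negSucc 6, .ofNat 0, .ofNat 0, .ofNat 21, .ofNat 0, .ofNat 420, .negSucc 69, .negSucc 769, .negSucc 2309, .ofNat 2013]), ((3, 11), [.ofNat 0, .ofNat 0, .negSucc 5, .ofNat 0, .ofNat 0, .ofNat 6, .ofNat 0, .ofNat 22, .negSucc 1, .ofNat 0, .ofNat 0, .ofNat 0]), ((4, 8), [.ofNat 0, .ofNat 0, .ofNat 0, .ofNat 0, .ofNat 0, .ofNat 0, .ofNat 0, .ofNat 20, .ofNat 0, .negSucc 29, .negSucc 119, .ofNat 120]), ((5, 9), [.ofNat 0, .ofNat 0, .ofNat 0, .ofNat 0, .ofNat 0, .ofNat 0, .ofNat 0, .ofNat 0, .ofNat 0, .ofNat 0, .negSucc 1, .ofNat 0])]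
  tg := [((0, 4), .ofNat 61326720, [.negSucc 229197149, .negSucc 1187955677, .negSucc 623765, .ofNat 13400946, .negSucc 6331103, .negSucc 6526664, .negSucc 1273187, .ofNat 1713039, .ofNat 1134732, .negSucc 252569, .ofNat 0, .negSucc 348648]), ((0, 8), .ofNat 74954880, [.ofNat 226125900, .ofNat 1117103988, .ofNat 585156, .negSucc 13482611, .ofNat 5209776, .ofNat 6044247, .ofNat 1228458, .negSucc 1595120, .negSucc 1169057, .ofNat 261966, .ofNat 0, .ofNat 331345]), ((0, 12), .ofNat 25945920, [.ofNat 18693675, .ofNat 102933831, .ofNat 61347, .negSucc 1002572, .ofNat 875160, .ofNat 669042, .ofNat 113421, .negSucc 172589, .negSucc 75404, .ofNat 16176, .ofNat 0, .ofNat 32809]), ((1, 5), .ofNat 2676960, [.ofNat 97297200, .ofNat 519807288, .ofNat 250536, .negSucc 5786351, .ofNat 2532816, .ofNat 2865357, .ofNat 559218, .negSucc 758570, .negSucc 499817, .ofNat 109866, .ofNat 0, .ofNat 153895]), ((1, 9), .ofNat 12046320, [.negSucc 183963779, .negSucc 945644699, .negSucc 317459, .ofNat 12010284, .negSucc 3068207, .negSucc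 5243732, .negSucc 1120349, .ofNat 1448403, .ofNat 1153614, .negSucc 248393, .ofNat 0, .negSucc 303498]), ((1, 13), .ofNat 4015440, [.negSucc 9008999, .negSucc 49489439, .negSucc 68639, .ofNat 545688, .negSucc 576575, .negSucc 426590, .negSucc 61709, .ofNat 99561, .ofNat 21318, .negSucc 5837, .ofNat 0, .negSucc 18052]), ((2, 6), .ofNat 1235520, [.negSucc 179504324, .negSucc 1022266244, .negSucc 413984, .ofNat 11033451, .negSucc 3778631, .negSucc 5649731, .negSucc 1145594, .ofNat 1518792, .ofNat 999471, .negSucc 215075, .ofNat 0, .negSucc 306900]), ((2, 10), .ofNat 823680, [.ofNat 22522500, .ofNat 153237084, .negSucc 29171, .negSucc 1899611, .ofNat 102960, .ofNat 971883, .ofNat 279114, .negSucc 297164, .negSucc 265649, .ofNat 52854, .ofNat 0, .ofNat 62741]), ((3, 7), .ofNat 13860, [.ofNat 4504500, .ofNat 29249220, .ofNat 8580, .negSucc 293435, .ofNat 20592, .ofNat 160677, .ofNat 39270, .negSucc 44186, .negSucc 29765, .ofNat 6186, .ofNat 0, .ofNat 8911]), ((3, 11), .ofNat 33, [.ofNat 0, .negSucc 12011, .ofNat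 0, .ofNat 0, .ofNat 0, .negSucc 98, .negSucc 65, .ofNat 33, .ofNat 33, .negSucc 5, .ofNat 0, .negSucc 6]), ((4, 8), .ofNat 187200, [.negSucc 88062974, .negSucc 730524794, .negSucc 152294, .ofNat 6217497, .ofNat 4643496, .negSucc 3874463, .negSucc 1586804, .ofNat 1089264, .ofNat 815397, .negSucc 158171, .ofNat 0, .negSucc 219526]), ((5, 9), .ofNat 9360, [.ofNat 9009000, .ofNat 161921760, .ofNat 68640, .negSucc 545687, .negSucc 3438863, .ofNat 735471, .ofNat 679470, .negSucc 202520, .negSucc 227237, .ofNat 61998, .negSucc 9359, .ofNat 39893])]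

theorem NA_4_14 (l : ℕ) (hlp : l.Prime) (hl2 : l ≠ 2) (hl3 : l ≠ 3 ∨ (0 : ℤ) = 0)
    (hD : ¬ l ∣ ((14).factorial ^ 8)) : NUMA_stmt 1 0 l 14 :=
  NUB_one 0 (Or.inl rfl) 4 14 ((14).factorial ^ 8) rfl (by norm_num) CA_4_14 rfl
    (by decide +kernel) (by decide +kernel) (by decide +kernel) l hlp hl2 hl3 hD

/-- certificate, `m = 4`, `j = 15`, antisymmetric part -/
def CA_4_15 : OD.NUM_Cert where
  tri := [(0, 1), (0, 4), (0, 5), (0, 11), (0, 12), (0, 13), (0, 14), (0, 15), (1, 2), (1, 4), (1, 6), (1, 14)]
  fre := []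
  cols := [((0, 4), [.ofNat 8, .negSucc 1035, .ofNat 2552, .ofNat 1694, .negSucc 619, .ofNat 160, .negSucc 25, .ofNat 2, .ofNat 330, .ofNat 10080, .ofNat 48950, .ofNat 330]), ((0, 8), [.ofNat 16, .negSucc 1399, .ofNat 3038, .ofNat 1400, .negSucc 489, .ofNat 126, .negSucc 21, .ofNat 2, .ofNat 420, .ofNat 9030, .ofNat 34930, .ofNat 210]), ((0, 12), [.ofNat 24, .negSucc 1859, .ofNat 3795, .ofNat 1377, .negSucc 455, .ofNat 108, .negSucc 17, .ofNat 2, .ofNat 270, .ofNat 4095, .ofNat 15015, .ofNat 90]), ((1, 5), [.ofNat 8, .negSucc 795, .ofNat 1751, .ofNat 364, .negSucc 90, .ofNat 14, .negSucc 0, .ofNat 0, .ofNat 290, .ofNat 7075, .ofNat 27100, .ofNat 20]), ((1, 9), [.ofNat 16, .negSucc 1111, .ofNat 2122, .ofNat 364, .negSucc 90, .ofNat 14, .negSucc 0, .ofNat 0, .ofNat 372, .ofNat 5922, .ofNat 18088, .ofNat 12]), ((1, 13), [.ofNat 24, .negSucc 1715, .ofNat 3289, .ofNat 442, .negSucc 103, .ofNat 15, .negSucc 0, .ofNat 0, .ofNat 246, .ofNat 2717, .ofNat 7722, .ofNat 4]), ((2, 6), [.ofNat 8, .negSucc 603, .ofNat 1167,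 .ofNat 78, .negSucc 12, .ofNat 1, .ofNat 0, .ofNat 0, .ofNat 258, .ofNat 4827, .ofNat 14354, .ofNat 0]), ((2, 10), [.ofNat 16, .negSucc 919, .ofNat 1538, .ofNat 78, .negSucc 12, .ofNat 1, .ofNat 0, .ofNat 0, .ofNat 340, .ofNat 3930, .ofNat 9000, .ofNat 0]), ((3, 7), [.ofNat 8, .negSucc 459, .ofNat 757, .ofNat 12, .negSucc 0, .ofNat 0, .ofNat 0, .ofNat 0, .ofNat 234, .ofNat 3225, .ofNat 7077, .ofNat 0]), ((3, 11), [.ofNat 16, .negSucc 823, .ofNat 1254, .ofNat 13, .negSucc 0, .ofNat 0, .ofNat 0, .ofNat 0, .ofNat 324, .ofNat 2958, .ofNat 5082, .ofNat 0]), ((4, 8), [.ofNat 8, .negSucc 363, .ofNat 497, .ofNat 1, .ofNat 0, .ofNat 0, .ofNat 0, .ofNat 0, .ofNat 218, .ofNat 2197, .ofNat 3269, .ofNat 0]), ((5, 9), [.ofNat 8, .negSucc 315, .ofNat 371, .ofNat 0, .ofNat 0, .ofNat 0, .ofNat 0, .ofNat 0, .ofNat 210, .ofNat 1695, .ofNat 1670, .ofNat 0])]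
  tg := [((0, 4), .ofNat 3600, [.ofNat 34657, .ofNat 1610, .ofNat 624, .negSucc 1343, .negSucc 7103, .negSucc 20543, .negSucc 42047, .negSucc 66047, .ofNat 0, .ofNat 0, .ofNat 0, .ofNat 0]), ((0, 8), .ofNat 4800, [.negSucc 48016, .negSucc 2229, .negSucc 863, .ofNat 1824, .ofNat 9504, .ofNat 26784, .ofNat 52128, .ofNat 75648, .ofNat 0, .ofNat 0, .ofNat 0, .ofNat 0]), ((0, 12), .ofNat 14400, [.ofNat 5423, .ofNat 250, .ofNat 96, .negSucc 95, .negSucc 95, .ofNat 1824, .ofNat 11808, .ofNat 44448, .ofNat 0, .ofNat 0, .ofNat 0, .ofNat 0]), ((1, 5), .ofNat 960, [.negSucc 753759, .negSucc 14914, .negSucc 2999, .negSucc 479, .negSucc 1439, .negSucc 2399, .negSucc 33119, .negSucc 145919, .ofNat 21462, .negSucc 1319, .ofNat 96, .negSucc 1535]), ((1, 9), .ofNat 2880, [.ofNat 4176227, .ofNat 73396, .ofNat 11760, .ofNat 16608, .ofNat 82272, .ofNat 232800, .ofNat 668160, .ofNat 1656024, .negSucc 128771, .ofNat 7920, .negSucc 575, .ofNat 9576]), ((1, 13), .ofNat 960, [.negSucc 673836, .negSucc 11200, .negSucc 1559, .negSucc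 3647, .negSucc 18431, .negSucc 52799, .negSucc 142559, .negSucc 334343, .ofNat 21462, .negSucc 1319, .ofNat 96, .negSucc 1655]), ((2, 6), .ofNat 15360, [.negSucc 6399559, .ofNat 22091, .ofNat 52776, .negSucc 232127, .negSucc 1233983, .negSucc 3650495, .negSucc 8359871, .negSucc 15571967, .ofNat 341082, .negSucc 20999, .ofNat 1536, .negSucc 32255]), ((2, 10), .ofNat 76800, [.ofNat 101071384, .ofNat 1490585, .ofNat 134328, .ofNat 841152, .ofNat 4329792, .ofNat 12541632, .ofNat 32151744, .ofNat 71589504, .negSucc 3422369, .ofNat 210600, .negSucc 15359, .ofNat 293760]), ((3, 7), .ofNat 76800, [.negSucc 37557631, .negSucc 1734114, .negSucc 671303, .ofNat 1550784, .ofNat 8495424, .ofNat 25708224, .ofNat 55420608, .ofNat 90271488, .ofNat 12150, .negSucc 599, .ofNat 0, .ofNat 19200]), ((3, 11), .ofNat 25600, [.ofNat 1284928, .ofNat 55585, .ofNat 21016, .negSucc 47935, .negSucc 258495, .negSucc 773695, .negSucc 1812031, .negSucc 3639551, .negSucc 4049, .ofNat 200, .ofNat 0, .negSucc 6399]), ((4, 8), .ofNat 25600, [.ofNat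 11753488, .ofNat 551615, .ofNat 215016, .negSucc 520895, .negSucc 2895935, .negSucc 8872895, .negSucc 18973631, .negSucc 29720831, .ofNat 4050, .negSucc 199, .ofNat 0, .ofNat 6400]), ((5, 9), .ofNat 76800, [.negSucc 175547767, .negSucc 3345864, .negSucc 632375, .negSucc 222143, .negSucc 746303, .negSucc 1278143, .negSucc 9862847, .negSucc 42718847, .ofNat 5139330, .negSucc 316199, .ofNat 23040, .negSucc 416639])]

theorem NA_4_15 (l : ℕ) (hlp : l.Prime) (hl2 : l ≠ 2) (hl3 : l ≠ 3 ∨ (0 : ℤ) = 0)
    (hD : ¬ l ∣ ((15).factorial ^ 8)) : NUMA_stmt 1 0 l 15 :=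
  NUB_one 0 (Or.inl rfl) 4 15 ((15).factorial ^ 8) rfl (by norm_num) CA_4_15 rfl
    (by decide +kernel) (by decide +kernel) (by decide +kernel) l hlp hl2 hl3 hD

/-- certificate, `m = 4`, `j = 16`, antisymmetric part -/
def CA_4_16 : OD.NUM_Cert where
  tri := [(0, 12), (0, 13), (0, 14), (0, 15), (0, 16), (1, 12), (1, 13), (1, 14), (1, 15), (2, 10), (2, 12), (2, 13), (2, 14), (3, 10), (3, 12), (3, 13), (4, 12)]
  fre := []
  cols := [((0, 4), [.negSucc 2313, .ofNat 780, .negSucc 185, .ofNat 28, .negSucc 1, .ofNat 29744, .negSucc 10239, .ofNat 2496, .negSucc 383, .negSucc 631487, .negSucc 179399, .ofNat 63360, .negSucc 15839, .ofNat 2242240, .ofNat 677040, .negSucc 246399, .negSucc 1798159]), ((0, 8), [.negSucc 1889, .ofNat 616, .negSucc 147, .ofNat 24, .negSucc 1, .ofNat 15680, .negSucc 5375, .ofNat 1408, .negSucc 255, .negSucc 227583, .negSucc 59359, .ofNat 22400, .negSucc 6719, .ofNat 464128, .ofNat 141120, .negSucc 62719, .negSucc 254799]), ((0, 12), [.negSucc 1820, .ofNat 564, .negSucc 125, .ofNat 20,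 .negSucc 1, .ofNat 7296, .negSucc 2303, .ofNat 576, .negSucc 127, .negSucc 48047, .negSucc 11039, .ofNat 3840, .negSucc 1439, .ofNat 32032, .ofNat 7840, .negSucc 4479, .negSucc 3639]), ((0, 16), [.negSucc 3639, .ofNat 1120, .negSucc 239, .ofNat 32, .negSucc 1, .ofNat 0, .ofNat 0, .ofNat 0, .ofNat 0, .ofNat 0, .ofNat 0, .ofNat 0, .ofNat 0, .ofNat 0, .ofNat 0, .ofNat 0, .ofNat 0]), ((1, 5), [.negSucc 454, .ofNat 105, .negSucc 14, .ofNat 1, .ofNat 0, .ofNat 5335, .negSucc 1319, .ofNat 220, .negSucc 21, .negSucc 170939, .negSucc 29974, .ofNat 8250, .negSucc 1649, .ofNat 539000, .ofNat 109725, .negSucc 34649, .negSucc 300299]), ((1, 9), [.negSucc 454, .ofNat 105, .negSucc 14, .ofNat 1, .ofNat 0, .ofNat 3220, .negSucc 769, .ofNat 126, .negSucc 13, .negSucc 63167, .negSucc 10079, .ofNat 2730, .negSucc 629, .ofNat 105840, .ofNat 19600, .negSucc 7349, .negSucc 31849]), ((1, 13), [.negSucc 467, .ofNat 106, .negSucc 14, .ofNat 1, .ofNat 0, .ofNat 1378, .negSucc 315, .ofNat 48, .negSucc 5, .negSucc 9008, .negSucc 1364,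 .ofNat 330, .negSucc 89, .ofNat 3003, .ofNat 455, .negSucc 209, .ofNat 0]), ((2, 6), [.negSucc 90, .ofNat 14, .negSucc 0, .ofNat 0, .ofNat 0, .ofNat 910, .negSucc 139, .ofNat 10, .ofNat 0, .negSucc 45163, .negSucc 4304, .ofNat 750, .negSucc 89, .ofNat 122696, .ofNat 13860, .negSucc 3359, .negSucc 38219]), ((2, 10), [.negSucc 90, .ofNat 14, .negSucc 0, .ofNat 0, .ofNat 0, .ofNat 546, .negSucc 83, .ofNat 6, .ofNat 0, .negSucc 15015, .negSucc 1379, .ofNat 230, .negSucc 29, .ofNat 20034, .ofNat 2030, .negSucc 559, .negSucc 2729]), ((2, 14), [.negSucc 181, .ofNat 28, .negSucc 1, .ofNat 0, .ofNat 0, .ofNat 364, .negSucc 55, .ofNat 4, .ofNat 0, .negSucc 2001, .negSucc 181, .ofNat 28, .negSucc 1, .ofNat 0, .ofNat 0, .ofNat 0, .ofNat 0]), ((3, 7), [.negSucc 12, .ofNat 1, .ofNat 0, .ofNat 0, .ofNat 0, .ofNat 117, .negSucc 8, .ofNat 0, .ofNat 0, .negSucc 10295, .negSucc 467, .ofNat 36, .ofNat 0, .ofNat 24108, .ofNat 1218, .negSucc 167, .negSucc 3275]), ((3, 11), [.negSucc 12, .ofNat 1, .ofNat 0, .ofNat 0, .ofNat 0, .ofNat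 65, .negSucc 4, .ofNat 0, .ofNat 0, .negSucc 2892, .negSucc 129, .ofNat 10, .ofNat 0, .ofNat 2871, .ofNat 135, .negSucc 19, .negSucc 129]), ((4, 8), [.negSucc 0, .ofNat 0, .ofNat 0, .ofNat 0, .ofNat 0, .ofNat 8, .ofNat 0, .ofNat 0, .ofNat 0, .negSucc 1847, .negSucc 27, .ofNat 0, .ofNat 0, .ofNat 3696, .ofNat 56, .ofNat 0, .negSucc 139]), ((4, 12), [.negSucc 1, .ofNat 0, .ofNat 0, .ofNat 0, .ofNat 0, .ofNat 8, .ofNat 0, .ofNat 0, .ofNat 0, .negSucc 791, .negSucc 11, .ofNat 0, .ofNat 0, .ofNat 528, .ofNat 8, .ofNat 0, .negSucc 1]), ((5, 9), [.ofNat 0, .ofNat 0, .ofNat 0, .ofNat 0, .ofNat 0, .ofNat 0, .ofNat 0, .ofNat 0, .ofNat 0, .negSucc 230, .ofNat 0, .ofNat 0, .ofNat 0, .ofNat 385, .ofNat 0, .ofNat 0, .ofNat 0]), ((6, 10), [.ofNat 0, .ofNat 0, .ofNat 0, .ofNat 0, .ofNat 0, .ofNat 0, .ofNat 0, .ofNat 0, .ofNat 0, .negSucc 29, .ofNat 0, .ofNat 0, .ofNat 0, .ofNat 40, .ofNat 0, .ofNat 0, .ofNat 0])]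
  tg := [((0, 4), .ofNat 26880, [.negSucc 197551860472511999, .negSucc 597931150452556499, .negSucc 1705383116378987899, .negSucc 15765681870946526309, .negSucc 22901994163125672959, .negSucc 157893906803006219, .negSucc 575120092009733199, .negSucc 71660270329709949, .negSucc 1166125168931185854, .ofNat 0, .negSucc 89545094677963223, .negSucc 495864626014454075, .negSucc 258583837999937119, .ofNat 0, .negSucc 25819224065329111, .negSucc 110836365299444631, .negSucc 30094933049983]), ((0, 8), .ofNat 53760, [.ofNat 366724971733114624, .ofNat 1109968206442587052, .ofNat 3165784283946392324, .ofNat 29266589667377946330, .ofNat 42514067658060195840, .ofNat 293106014646821460, .ofNat 1067622947113493680, .ofNat 133026388859191170, .ofNat 2164733951837862755, .ofNat 0, .ofNat 166226844111062680, .ofNat 920497233099472124, .ofNat 480021552084366496, .ofNat 0, .ofNat 47929461119127744, .ofNat 205750848583352358, .ofNat 55866664306112]), ((0, 12), .ofNat 13440, [.ofNat 7534931781912192, .ofNat 22806013662246636, .ofNat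 65045934840589252, .ofNat 601327353277188570, .ofNat 873517279342233600, .ofNat 6022316437287780, .ofNat 21935964811139120, .ofNat 2733232919754050, .ofNat 44477807376989630, .ofNat 0, .ofNat 3415387626264960, .ofNat 18913039447698096, .ofNat 9862785268504864, .ofNat 0, .ofNat 984784914345412, .ofNat 4227469432527947, .ofNat 1147867030816]), ((0, 16), .ofNat 26880, [.negSucc 1760977915739391, .negSucc 5329960186460595, .negSucc 15201790550773531, .negSucc 140535338593647989, .negSucc 204148449177811199, .negSucc 1407466789960139, .negSucc 5126622338583759, .negSucc 638779878787469, .negSucc 10394843483449564, .ofNat 0, .negSucc 798205260196071, .negSucc 4420138861356355, .negSucc 2305017158511711, .ofNat 0, .negSucc 230152645851167, .negSucc 987995714574881, .negSucc 268266329407]), ((1, 5), .ofNat 1680, [.ofNat 116076328237967104, .ofNat 351328771683689332, .ofNat 1002038704747273724, .ofNat 9263504071134749190, .ofNat 13456615318249036800, .ofNat 92774347500468060, .ofNat 337925587826394400, .ofNat 42105708549210390,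 .ofNat 685184779083579845, .ofNat 0, .ofNat 52614365549776360, .ofNat 291357140110860332, .ofNat 151937128736330848, .ofNat 0, .ofNat 15170703633407664, .ofNat 65124561664109394, .ofNat 17682998877632]), ((1, 9), .ofNat 3360, [.negSucc 122977333942702847, .negSucc 372216078289895363, .negSucc 1061612219199411627, .negSucc 9814240775259945149, .negSucc 14256642166851947519, .negSucc 98289996651957179, .negSucc 358016044207695439, .negSucc 44608990133982469, .negSucc 725920596119119204, .ofNat 0, .negSucc 55742411055019751, .negSucc 308678994760655987, .negSucc 160970141824250079, .ofNat 0, .negSucc 16072636989744783, .negSucc 68996367211239565, .negSucc 18734293986495]), ((1, 13), .ofNat 1120, [.negSucc 661323852397823, .negSucc 2001632031909371, .negSucc 5708933996555283, .negSucc 52777136320758049, .negSucc 76666628050703359, .negSucc 528565038402659, .negSucc 1925269819931919, .negSucc 239889646811849, .negSucc 3903716154577714, .ofNat 0, .negSucc 299760816396119, .negSucc 1659954525153787, .negSucc 865634266894111,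 .ofNat 0, .negSucc 86432335711663, .negSucc 371035392480505, .negSucc 100745682751]), ((2, 6), .ofNat 1120, [.negSucc 291355842383027967, .negSucc 881848106165469843, .negSucc 2515153910825835227, .negSucc 23251735069797629749, .negSucc 33776598133214059519, .negSucc 232867015849434539, .negSucc 848205622959519439, .negSucc 105686873195458309, .negSucc 1719838932953251004, .ofNat 0, .negSucc 132063987799277703, .negSucc 731317110731491419, .negSucc 381367767263264895, .ofNat 0, .negSucc 38079022689219279, .negSucc 163465039009271409, .negSucc 44384975921087]), ((2, 10), .ofNat 840, [.ofNat 64034102592970496, .ofNat 193812321180034148, .ofNat 552779797534351516, .ofNat 5110259594405490150, .ofNat 7423410947978480640, .ofNat 51179445249696540, .ofNat 186418385971890800, .ofNat 23227830358857180, .ofNat 377985702209941210, .ofNat 0, .ofNat 29024984961373160, .ofNat 160728662633134714, .ofNat 83816897354282096, .ofNat 0, .ofNat 8368996569891696, .ofNat 35926298895090033, .ofNat 9754917143488]), ((2, 14), .ofNat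 112, [.negSucc 2093430527, .negSucc 6336196883, .negSucc 18071719067, .negSucc 167066808149, .negSucc 242689336319, .negSucc 1673180459, .negSucc 6094470479, .negSucc 759376589, .negSucc 12357273704, .ofNat 0, .negSucc 948897287, .negSucc 5254610627, .negSucc 2740178415, .ofNat 0, .negSucc 273602831, .negSucc 1174518005, .negSucc 318911]), ((3, 7), .ofNat 672, [.ofNat 351640471599192832, .ofNat 1064311878541978276, .ofNat 3035566062837185612, .ofNat 28062766885224627150, .ofNat 40765336296108641280, .ofNat 281049683450463900, .ofNat 1023708406981111600, .ofNat 127554613726878870, .ofNat 2075691939148514645, .ofNat 0, .ofNat 159389434483893544, .ofNat 882634415712562772, .ofNat 460276823132591584, .ofNat 0, .ofNat 45957978350304144, .ofNat 197287697878512150, .ofNat 53568700518080]), ((3, 11), .ofNat 160, [.negSucc 7477888933521663, .negSucc 22633361803229451, .negSucc 64553507635282243, .negSucc 596775032693599449, .negSucc 866904357662786559, .negSucc 5976724772567219, .negSucc 21769899616226159, .negSucc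 2712541107865329, .negSucc 44141090217975414, .ofNat 0, .negSucc 3389531594093751, .negSucc 18769859167763419, .negSucc 9788119514247327, .ofNat 0, .negSucc 977329646243119, .negSucc 4195465573051009, .negSucc 1139177157183]), ((4, 8), .ofNat 224, [.negSucc 138112932453963711, .negSucc 418027065890599395, .negSucc 1192271551364381291, .negSucc 11022141477810694349, .negSucc 16011297313767060479, .negSucc 110387168377044299, .negSucc 402079343776702479, .negSucc 50099300770664319, .negSucc 815264236460108644, .ofNat 0, .negSucc 62602982241027479, .negSucc 346670071520681061, .negSucc 180781755565068447, .ofNat 0, .negSucc 18050798108505587, .negSucc 77488186633285301, .negSucc 21040042070959]), ((4, 12), .ofNat 192, [.negSucc 25961787087841023, .negSucc 78578663770185291, .negSucc 224117319192893923, .negSucc 2071887731399733449, .negSucc 3009724610681564159, .negSucc 20750034857084819, .negSucc 75580889711613999, .negSucc 9417419185661969, .negSucc 153249345671438764, .ofNat 0, .negSucc 11767799489354439, .negSucc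 65165328305114995, .negSucc 33982461772092063, .ofNat 0, .negSucc 3393099899712023, .negSucc 14565846712915187, .negSucc 3955003219903]), ((5, 9), .ofNat 32340, [.ofNat 1401714724698376704, .ofNat 4242576586893798672, .ofNat 12100420718526661184, .ofNat 111864238436184001200, .ofNat 162499418465226332160, .ofNat 1120324625529055380, .ofNat 4080722396188780860, .ofNat 508460187800221020, .ofNat 8274155536676290065, .ofNat 560, .ofNat 635360646236503944, .ofNat 3518371054976542364, .ofNat 1834762641186070912, .ofNat 420, .ofNat 183198409097406816, .ofNat 786431294047256703, .ofNat 213536388337536]), ((6, 10), .ofNat 4200, [.ofNat 28828128341806823680, .ofNat 87254232400476505540, .ofNat 248861252095315929180, .ofNat 2300636902556563117350, .ofNat 3342016751645522380800, .ofNat 23040966553384445820, .ofNat 83925485615538997360, .ofNat 10457160287657342070, .ofNat 170169017655252274925, .negSucc 1399, .ofNat 13067037058425933304, .ofNat 72359982055925180748, .ofNat 37734334929320092008, .negSucc 839, .ofNat 3767719034691954672,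 .ofNat 16174005935196067146, .ofNat 4391659943511104])]

theorem NA_4_16 (l : ℕ) (hlp : l.Prime) (hl2 : l ≠ 2) (hl3 : l ≠ 3 ∨ (0 : ℤ) = 0)
    (hD : ¬ l ∣ ((16).factorial ^ 8)) : NUMA_stmt 1 0 l 16 :=
  NUB_one 0 (Or.inl rfl) 4 16 ((16).factorial ^ 8) rfl (by norm_num) CA_4_16 rfl
    (by decide +kernel) (by decide +kernel) (by decide +kernel) l hlp hl2 hl3 hD

/-- certificate, `m = 4`, `j = 17`, antisymmetric part -/
def CA_4_17 : OD.NUM_Cert where
  tri := [(0, 1), (0, 3), (0, 6), (0, 7), (0, 13), (0, 14), (0, 15), (0, 16), (0, 17), (1, 2), (1, 4), (1, 12), (1, 14), (1, 15), (1, 16), (2, 4)]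
  fre := []
  cols := [((0, 4), [.ofNat 8, .ofNat 398, .negSucc 10737, .ofNat 18018, .ofNat 3094, .negSucc 965, .ofNat 214, .negSucc 29, .ofNat 2, .ofNat 442, .ofNat 18802, .ofNat 102102, .ofNat 13702, .negSucc 3093, .ofNat 442, .negSucc 88535]), ((0, 8), [.ofNat 16, .ofNat 652, .negSucc 12319, .ofNat 19420, .ofNat 2506, .negSucc 763, .ofNat 172, .negSucc 25, .ofNat 2, .ofNat 612, .ofNat 19278, .ofNat 57834, .ofNat 7548, .negSucc 1835, .ofNat 306, .negSucc 68543]), ((0, 12), [.ofNat 24, .ofNat 890, .negSucc 13299, .ofNat 20240, .ofNat 2385, .negSucc 689, .ofNat 146, .negSucc 21, .ofNat 2, .ofNat 510, .ofNat 11815, .ofNat 30957, .ofNat 3570, .negSucc 849, .ofNat 170, .negSucc 23119]), ((0, 16), [.ofNat 32, .ofNat 1240, .negSucc 20383, .ofNat 30888, .ofNat 2940, .negSucc 799, .ofNat 152, .negSucc 17, .ofNat 2, .ofNat 136, .ofNat 2380, .ofNat 6188, .ofNat 680, .negSucc 135, .ofNat 34, .ofNat 0]), ((1, 5), [.ofNat 8, .ofNat 350, .negSucc 7083, .ofNat 10648, .ofNat 560, .negSucc 119, .ofNat 16, .negSucc 0, .ofNat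 0, .ofNat 394, .ofNat 13925, .ofNat 22616, .ofNat 1660, .negSucc 257, .ofNat 24, .negSucc 60719]), ((1, 9), [.ofNat 16, .ofNat 588, .negSucc 8063, .ofNat 11468, .ofNat 560, .negSucc 119, .ofNat 16, .negSucc 0, .ofNat 0, .ofNat 548, .ofNat 13566, .ofNat 14616, .ofNat 1016, .negSucc 155, .ofNat 16, .negSucc 42559]), ((1, 13), [.ofNat 24, .ofNat 842, .negSucc 9723, .ofNat 13156, .ofNat 561, .negSucc 119, .ofNat 16, .negSucc 0, .ofNat 0, .ofNat 462, .ofNat 7979, .ofNat 7293, .ofNat 484, .negSucc 69, .ofNat 8, .negSucc 10799]), ((2, 6), [.ofNat 8, .ofNat 310, .negSucc 4543, .ofNat 6105, .ofNat 105, .negSucc 14, .ofNat 1, .ofNat 0, .ofNat 0, .ofNat 354, .ofNat 10095, .ofNat 5005, .ofNat 165, .negSucc 10, .ofNat 0, .negSucc 40439]), ((2, 10), [.ofNat 16, .ofNat 540, .negSucc 5207, .ofNat 6554, .ofNat 105, .negSucc 14, .ofNat 1, .ofNat 0, .ofNat 0, .ofNat 500, .ofNat 9450, .ofNat 3185, .ofNat 105, .negSucc 6, .ofNat 0, .negSucc 25199]), ((2, 14), [.ofNat 24, .ofNat 818, .negSucc 8007, .ofNat 9867, .ofNat 119, .negSucc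 15, .ofNat 1, .ofNat 0, .ofNat 0, .ofNat 438, .ofNat 6097, .ofNat 1547, .ofNat 47, .negSucc 2, .ofNat 0, .negSucc 5095]), ((3, 7), [.ofNat 8, .ofNat 278, .negSucc 2799, .ofNat 3313, .ofNat 14, .negSucc 0, .ofNat 0, .ofNat 0, .ofNat 0, .ofNat 322, .ofNat 7175, .ofNat 910, .ofNat 10, .ofNat 0, .ofNat 0, .negSucc 26039]), ((3, 11), [.ofNat 16, .ofNat 508, .negSucc 3463, .ofNat 3762, .ofNat 14, .negSucc 0, .ofNat 0, .ofNat 0, .ofNat 0, .ofNat 468, .ofNat 6786, .ofNat 546, .ofNat 6, .ofNat 0, .ofNat 0, .negSucc 14639]), ((4, 8), [.ofNat 8, .ofNat 254, .negSucc 1659, .ofNat 1688, .ofNat 1, .ofNat 0, .ofNat 0, .ofNat 0, .ofNat 0, .ofNat 298, .ofNat 5069, .ofNat 117, .ofNat 0, .ofNat 0, .ofNat 0, .negSucc 16303]), ((4, 12), [.ofNat 16, .ofNat 492, .negSucc 2639, .ofNat 2508, .ofNat 1, .ofNat 0, .ofNat 0, .ofNat 0, .ofNat 0, .ofNat 452, .ofNat 5478, .ofNat 69, .ofNat 0, .ofNat 0, .ofNat 0, .negSucc 9663]), ((5, 9), [.ofNat 8, .ofNat 238, .negSucc 979, .ofNat 820, .ofNat 0, .ofNat 0, .ofNat 0, .ofNat 0, .ofNat 0, .ofNat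 282, .ofNat 3705, .ofNat 8, .ofNat 0, .ofNat 0, .ofNat 0, .negSucc 10319]), ((6, 10), [.ofNat 8, .ofNat 230, .negSucc 663, .ofNat 449, .ofNat 0, .ofNat 0, .ofNat 0, .ofNat 0, .ofNat 0, .ofNat 274, .ofNat 3035, .ofNat 0, .ofNat 0, .ofNat 0, .ofNat 0, .negSucc 7479])]
  tg := [((0, 4), .ofNat 96000, [.negSucc 171056118, .ofNat 6515474, .ofNat 293548, .ofNat 113856, .negSucc 410111, .negSucc 2621439, .negSucc 9080575, .negSucc 24584191, .negSucc 33399935, .ofNat 88490, .negSucc 3479, .ofNat 2560, .negSucc 85759, .negSucc 491519, .negSucc 1573759, .ofNat 0]), ((0, 8), .ofNat 4608000, [.ofNat 7181336241, .negSucc 273794685, .negSucc 12361651, .negSucc 4793663, .ofNat 16670208, .ofNat 105492480, .ofNat 361945344, .ofNat 968552448, .ofNat 1300631424, .negSucc 3451109, .ofNat 135720, .negSucc 99839, .ofNat 3344640, .ofNat 19169280, .ofNat 61376640, .ofNat 0]), ((0, 12), .ofNat 6144000, [.ofNat 1492071547, .negSucc 56459561, .negSucc 2506043, .negSucc 973247, .ofNat 4348416, .ofNat 29286400, .ofNat 106251008, .ofNat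 303374336, .ofNat 433707648, .negSucc 1150369, .ofNat 45240, .negSucc 33279, .ofNat 1114880, .ofNat 6389760, .ofNat 20458880, .ofNat 0]), ((0, 16), .ofNat 18432000, [.negSucc 358784756, .ofNat 13586422, .ofNat 603524, .ofNat 234048, .negSucc 984575, .negSucc 6512639, .negSucc 23063807, .negSucc 64167935, .negSucc 81644927, .ofNat 265470, .negSucc 10439, .ofNat 7680, .negSucc 257279, .negSucc 1474559, .negSucc 4721279, .ofNat 0]), ((1, 5), .ofNat 230400, [.ofNat 3902824341, .negSucc 148617285, .negSucc 6691795, .negSucc 2595647, .ofNat 9436800, .ofNat 60446976, .ofNat 209659008, .ofNat 567638016, .ofNat 770075520, .negSucc 2059709, .ofNat 81000, .negSucc 59519, .ofNat 1991040, .ofNat 11393280, .ofNat 36401280, .ofNat 0]), ((1, 9), .ofNat 1228800, [.negSucc 9908895658, .ofNat 377831114, .ofNat 17063164, .ofNat 6616512, .negSucc 22817279, .negSucc 143704063, .negSucc 489079551, .negSucc 1285218303, .negSucc 1677793919, .ofNat 4714690, .negSucc 185399, .ofNat 135680, .negSucc 4514559, .negSucc 25681919, .negSucc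 81243519, .ofNat 0]), ((1, 13), .ofNat 3686400, [.negSucc 3437366498, .ofNat 129841754, .ofNat 5741404, .ofNat 2231232, .negSucc 10682879, .negSucc 73519103, .negSucc 274428671, .negSucc 828678143, .negSucc 1295253119, .ofNat 2883090, .negSucc 113399, .ofNat 84480, .negSucc 2876159, .negSucc 16773119, .negSucc 55413119, .ofNat 0]), ((2, 6), .ofNat 344064000, [.negSucc 23371925583572, .ofNat 889438239158, .ofNat 39993730756, .ofNat 15515260992, .negSucc 57689716223, .negSucc 371781795839, .negSucc 1297458124031, .negSucc 3544231993343, .negSucc 4861227891071, .ofNat 12895768830, .negSucc 507257159, .ofNat 372395520, .negSucc 12453745919, .negSucc 71327907839, .negSucc 228403297919, .negSucc 23999]), ((2, 10), .ofNat 516096000, [.ofNat 10735402369797, .negSucc 408797938261, .negSucc 18406210563, .negSucc 7139323967, .ofNat 25835582976, .ofNat 164942561280, .ofNat 570042832128, .ofNat 1541603352576, .ofNat 2108758124928, .negSucc 5667027869, .ofNat 223210440, .negSucc 162516479, .ofNat 5405594880, .ofNat 30867701760,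 .ofNat 98629668480, .ofNat 72000]), ((2, 14), .ofNat 1032192000, [.ofNat 827218852677, .negSucc 31255395541, .negSucc 1383281283, .negSucc 537488447, .ofNat 2582877696, .ofNat 17798430720, .ofNat 66548606208, .ofNat 202107150336, .ofNat 316539285888, .negSucc 683072669, .ofNat 26506440, .negSucc 20590079, .ofNat 702670080, .ofNat 4108124160, .ofNat 13631882880, .negSucc 71999]), ((3, 7), .ofNat 206438400, [.ofNat 30551037068853, .negSucc 1161885512437, .negSucc 52170647619, .negSucc 20243259455, .ofNat 77089076736, .ofNat 499850674176, .ofNat 1754206008576, .ofNat 4822206799872, .ofNat 6649448147328, .negSucc 17630848829, .ofNat 693255240, .negSucc 508300799, .ofNat 16999691520, .ofNat 97407959040, .ofNat 312154066560, .negSucc 14399]), ((3, 11), .ofNat 34406400, [.negSucc 979068770840, .ofNat 37234848686, .ofNat 1671855892, .ofNat 648669504, .negSucc 2444348927, .negSucc 15770173439, .negSucc 55152969983, .negSucc 152519958527, .negSucc 215540621183, .ofNat 564793110, .negSucc 22182119, .ofNat 16074240, .negSucc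 534186239, .negSucc 3060449279, .negSucc 9860135039, .ofNat 4800]), ((4, 8), .ofNat 1228800, [.negSucc 240783458690, .ofNat 9150812186, .ofNat 410293468, .ofNat 159253440, .negSucc 623940095, .negSucc 4073754623, .negSucc 14379651839, .negSucc 39714201599, .negSucc 54840010367, .ofNat 145555410, .negSucc 5723639, .ofNat 4200960, .negSucc 140624639, .negSucc 805908479, .negSucc 2581487999, .ofNat 0]), ((4, 12), .ofNat 3686400, [.ofNat 51269207949, .negSucc 1948422853, .negSucc 87351651, .negSucc 33898559, .ofNat 129836544, .ofNat 840769536, .ofNat 2953340160, .ofNat 8238489600, .ofNat 11805370752, .negSucc 30990989, .ofNat 1217160, .negSucc 867839, .ofNat 28796160, .ofNat 165150720, .ofNat 533827200, .ofNat 0]), ((5, 9), .ofNat 147456, [.ofNat 23715763911, .negSucc 900677905, .negSucc 40330155, .negSucc 15661247, .ofNat 63306240, .ofNat 416280576, .ofNat 1477494528, .ofNat 4093059072, .ofNat 5641071744, .negSucc 14987369, .ofNat 589464, .negSucc 434687, .ofNat 14571264, .ofNat 83496960, .ofNat 267090816, .ofNat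 0]), ((6, 10), .ofNat 22937600, [.negSucc 1372920397428, .ofNat 52114661494, .ofNat 2331486276, .ofNat 905758784, .negSucc 3745527295, .negSucc 24748982271, .negSucc 88149316863, .negSucc 244461887487, .negSucc 335906003327, .ofNat 895481790, .negSucc 35243079, .ofNat 26037760, .negSucc 873698559, .negSucc 5004984319, .negSucc 15985925759, .negSucc 4799])]

theorem NA_4_17 (l : ℕ) (hlp : l.Prime) (hl2 : l ≠ 2) (hl3 : l ≠ 3 ∨ (0 : ℤ) = 0)
    (hD : ¬ l ∣ ((17).factorial ^ 8)) : NUMA_stmt 1 0 l 17 :=
  NUB_one 0 (Or.inl rfl) 4 17 ((17).factorial ^ 8) rfl (by norm_num) CA_4_17 rfl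
    (by decide +kernel) (by decide +kernel) (by decide +kernel) l hlp hl2 hl3 hD

/-- certificate, `m = 4`, `j = 18`, antisymmetric part -/
def CA_4_18 : OD.NUM_Cert where
  tri := [(0, 1), (0, 11), (0, 12), (0, 13), (0, 14), (0, 15), (0, 16), (0, 17), (0, 18), (1, 2), (1, 5), (1, 8), (1, 14), (1, 15), (1, 16), (1, 17), (2, 3), (2, 14), (2, 15), (2, 16), (4, 14)]
  fre := []
  cols := [((0, 4), [.ofNat 8, .ofNat 34892, .negSucc 21475, .ofNat 10556, .negSucc 4059, .ofNat 1180, .negSucc 243, .ofNat 32, .negSucc 1, .ofNat 504, .negSucc 84167, .ofNat 576576, .ofNat 60840, .negSucc 17975, .ofNat 3780, .negSucc 503, .ofNat 18564, .negSucc 431459, .ofNat 129948, .negSucc 27845, .negSucc 6119999]), ((0, 8), [.ofNat 16, .ofNat 31944, .negSucc 18773, .ofNat 8820, .negSucc 3269, .ofNat 936, .negSucc 197, .ofNat 28, .negSucc 1, .ofNat 720, .negSucc 81143, .ofNat 436788, .ofNat 34380, .negSucc 10319, .ofNat 2340, .negSucc 359, .ofNat 18360, .negSucc 169829, .ofNat 55080, .negSucc 13769, .negSucc 1285199]), ((0, 12), [.ofNat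 24, .ofNat 31836, .negSucc 18564, .ofNat 8574, .negSucc 3074, .ofNat 836, .negSucc 167, .ofNat 24, .negSucc 1, .ofNat 648, .negSucc 51299, .ofNat 262548, .ofNat 18630, .negSucc 5255, .ofNat 1188, .negSucc 215, .ofNat 9180, .negSucc 48194, .ofNat 15300, .negSucc 4589, .negSucc 91799]), ((0, 16), [.ofNat 32, .ofNat 36192, .negSucc 20383, .ofNat 9128, .negSucc 3179, .ofNat 832, .negSucc 153, .ofNat 20, .negSucc 1, .ofNat 288, .negSucc 17135, .ofNat 87516, .ofNat 6120, .negSucc 1631, .ofNat 324, .negSucc 71, .ofNat 816, .negSucc 3059, .ofNat 816, .negSucc 305, .ofNat 0]), ((1, 5), [.ofNat 8, .ofNat 12298, .negSucc 6174, .ofNat 2379, .negSucc 679, .ofNat 136, .negSucc 16, .ofNat 1, .ofNat 0, .ofNat 452, .negSucc 58565, .ofNat 294437, .ofNat 9555, .negSucc 2053, .ofNat 299, .negSucc 25, .ofNat 14144, .negSucc 65194, .ofNat 15470, .negSucc 2651, .negSucc 972399]), ((1, 9), [.ofNat 16, .ofNat 12376, .negSucc 6187, .ofNat 2380, .negSucc 679, .ofNat 136, .negSucc 16, .ofNat 1, .ofNat 0, .ofNat 648, .negSucc 53675, .ofNat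 218646, .ofNat 6246, .negSucc 1307, .ofNat 189, .negSucc 17, .ofNat 13056, .negSucc 26621, .ofNat 6324, .negSucc 1223, .negSucc 171359]), ((1, 13), [.ofNat 24, .ofNat 12454, .negSucc 6200, .ofNat 2381, .negSucc 679, .ofNat 136, .negSucc 16, .ofNat 1, .ofNat 0, .ofNat 588, .negSucc 32209, .ofNat 122837, .ofNat 3405, .negSucc 689, .ofNat 95, .negSucc 9, .ofNat 5440, .negSucc 6884, .ofNat 1530, .negSucc 339, .negSucc 6799]), ((1, 17), [.ofNat 32, .ofNat 24752, .negSucc 12375, .ofNat 4760, .negSucc 1359, .ofNat 272, .negSucc 33, .ofNat 2, .ofNat 0, .ofNat 272, .negSucc 12375, .ofNat 48620, .ofNat 1360, .negSucc 271, .ofNat 34, .negSucc 1, .ofNat 0, .ofNat 0, .ofNat 0, .ofNat 0, .ofNat 0]), ((2, 6), [.ofNat 8, .ofNat 4356, .negSucc 1818, .ofNat 560, .negSucc 119, .ofNat 16, .negSucc 0, .ofNat 0, .ofNat 0, .ofNat 408, .negSucc 39755, .ofNat 146520, .ofNat 1440, .negSucc 191, .ofNat 12, .ofNat 0, .ofNat 10580, .negSucc 8414, .ofNat 1276, .negSucc 131, .negSucc 118799]), ((2, 10), [.ofNat 16, .ofNat 4368, .negSucc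 1819, .ofNat 560, .negSucc 119, .ofNat 16, .negSucc 0, .ofNat 0, .ofNat 0, .ofNat 592, .negSucc 34551, .ofNat 103034, .ofNat 960, .negSucc 127, .ofNat 8, .ofNat 0, .ofNat 9080, .negSucc 3429, .ofNat 504, .negSucc 55, .negSucc 16799]), ((2, 14), [.ofNat 24, .ofNat 4732, .negSucc 1910, .ofNat 574, .negSucc 120, .ofNat 16, .negSucc 0, .ofNat 0, .ofNat 0, .ofNat 552, .negSucc 21475, .ofNat 57486, .ofNat 482, .negSucc 63, .ofNat 4, .ofNat 0, .ofNat 3244, .negSucc 720, .ofNat 100, .negSucc 11, .negSucc 239]), ((3, 7), [.ofNat 8, .ofNat 1364, .negSucc 454, .ofNat 105, .negSucc 14, .ofNat 1, .ofNat 0, .ofNat 0, .ofNat 0, .ofNat 372, .negSucc 26165, .ofNat 68310, .ofNat 165, .negSucc 10, .ofNat 0, .ofNat 0, .ofNat 7784, .negSucc 824, .ofNat 55, .ofNat 0, .negSucc 9899]), ((3, 11), [.ofNat 16, .ofNat 1366, .negSucc 454, .ofNat 105, .negSucc 14, .ofNat 1, .ofNat 0, .ofNat 0, .ofNat 0, .ofNat 552, .negSucc 22091, .ofNat 45540, .ofNat 105, .negSucc 6, .ofNat 0, .ofNat 0, .ofNat 6320, .negSucc 314, .ofNat 21, .ofNat 0, .negSucc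 1049]), ((3, 15), [.ofNat 24, .ofNat 2730, .negSucc 909, .ofNat 210, .negSucc 29, .ofNat 2, .ofNat 0, .ofNat 0, .ofNat 0, .ofNat 540, .negSucc 18017, .ofNat 38610, .ofNat 90, .negSucc 5, .ofNat 0, .ofNat 0, .ofNat 2520, .negSucc 89, .ofNat 6, .ofNat 0, .ofNat 0]), ((4, 8), [.ofNat 8, .ofNat 364, .negSucc 90, .ofNat 14, .negSucc 0, .ofNat 0, .ofNat 0, .ofNat 0, .ofNat 0, .ofNat 344, .negSucc 16715, .ofNat 29404, .ofNat 10, .ofNat 0, .ofNat 0, .ofNat 0, .ofNat 5684, .negSucc 44, .ofNat 0, .ofNat 0, .negSucc 419]), ((4, 12), [.ofNat 16, .ofNat 376, .negSucc 91, .ofNat 14, .negSucc 0, .ofNat 0, .ofNat 0, .ofNat 0, .ofNat 0, .ofNat 528, .negSucc 15095, .ofNat 19998, .ofNat 6, .ofNat 0, .ofNat 0, .ofNat 0, .ofNat 4696, .negSucc 14, .ofNat 0, .ofNat 0, .negSucc 29]), ((5, 9), [.ofNat 8, .ofNat 78, .negSucc 12, .ofNat 1, .ofNat 0, .ofNat 0, .ofNat 0, .ofNat 0, .ofNat 0, .ofNat 324, .negSucc 10565, .ofNat 11511, .ofNat 0, .ofNat 0, .ofNat 0, .ofNat 0, .ofNat 4224, .ofNat 0, .ofNat 0, .ofNat 0, .ofNat 0]), ((5, 13),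 [.ofNat 16, .ofNat 156, .negSucc 25, .ofNat 2, .ofNat 0, .ofNat 0, .ofNat 0, .ofNat 0, .ofNat 0, .ofNat 520, .negSucc 12843, .ofNat 12870, .ofNat 0, .ofNat 0, .ofNat 0, .ofNat 0, .ofNat 4160, .ofNat 0, .ofNat 0, .ofNat 0, .ofNat 0]), ((6, 10), [.ofNat 8, .ofNat 12, .negSucc 0, .ofNat 0, .ofNat 0, .ofNat 0, .ofNat 0, .ofNat 0, .ofNat 0, .ofNat 312, .negSucc 7115, .ofNat 4218, .ofNat 0, .ofNat 0, .ofNat 0, .ofNat 0, .ofNat 3364, .ofNat 0, .ofNat 0, .ofNat 0, .ofNat 0]), ((7, 11), [.ofNat 8, .ofNat 2, .ofNat 0, .ofNat 0, .ofNat 0, .ofNat 0, .ofNat 0, .ofNat 0, .ofNat 0, .ofNat 308, .negSucc 6005, .ofNat 2310, .ofNat 0, .ofNat 0, .ofNat 0, .ofNat 0, .ofNat 3080, .ofNat 0, .ofNat 0, .ofNat 0, .ofNat 0])]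
  tg := [((0, 4), .ofNat 447174000, [.ofNat 3144349025448261464396736624192, .negSucc 707087165131556630839243244537, .negSucc 5721227171866312751868651761039, .negSucc 25818434196222488397021986461031, .negSucc 85842693847395288195091570254383, .negSucc 234896816137753199955657587385923, .negSucc 560482429350544365222819161312495, .negSucc 1206443978529078006707087295145031, .negSucc 2432059931453961242265770789713295, .negSucc 117373735119282765856410287084, .negSucc 2134598974045035932015044019, .negSucc 302341384706272547168189439, .ofNat 32638402743106536825423546880, .ofNat 263035181338323521555522062080, .ofNat 1393617572188047901490732554240, .ofNat 3310302506241225592695120230400, .ofNat 93668735056206885245170500, .ofNat 1501547435975131737454080000, .ofNat 14119712006988797416806144000, .ofNat 74117928069348982061836320000, .negSucc 4940924080083975362695679]), ((0, 8), .ofNat 596232000, [.negSucc 4118466788030084373265077891677, .ofNat 926142416846204264186218643142, .ofNat 7493660501237637685083602300160,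 .ofNat 33816972255783112190775196480488, .ofNat 112436717662133869083416047475856, .ofNat 307667732827283740229567933031516, .ofNat 734119606911499785068594178263664, .ofNat 1580199722415530932431818892819288, .ofNat 3185510887349384234111317865524464, .ofNat 153736059821441881285145853615, .ofNat 2795896673434425695615371980, .ofNat 396006595159166808971893760, .negSucc 42749763662979876125695358719, .negSucc 344523349557519150571258547519, .negSucc 1825359602200444499254310960959, .negSucc 4335832574548129890604573747199, .negSucc 122687262541021941212950499, .negSucc 1966726084052867525955839999, .negSucc 18493991756860650960466991999, .negSucc 97079625283551173148428087999, .ofNat 6471619900116836289726720]), ((0, 12), .ofNat 3577392000, [.negSucc 1905168119278319838885943134371, .ofNat 428425697547198911617119554058, .ofNat 3466504361561663304270249683040, .ofNat 15643447124422169722155735204312, .ofNat 52012280528466962392727643621744, .ofNat 142324507172618968678732884217284, .ofNat 339597559676789341139687682917136,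 .ofNat 730987109569117847652966111728712, .ofNat 1473590561378519021226748591178736, .ofNat 71117009078849512283510524785, .ofNat 1293358300837817927828612220, .ofNat 183189322374520916219709440, .negSucc 19775681346783046799623940479, .negSucc 159373605690266712540229939679, .negSucc 844396009320311113045362278239, .negSucc 2005719705101381844797699635199, .negSucc 56754096430746018635330999, .negSucc 909790955600452426650239999, .negSucc 8555165139554253887138471999, .negSucc 44908218674788104234009683999, .ofNat 2993716970020076553751680]), ((0, 16), .ofNat 170352000, [.ofNat 69579840184415922062024642424, .negSucc 15646803693903402381927878885, .negSucc 126602380669380352372507114079, .negSucc 571324147111473128125286780903, .negSucc 1899573129624184349166255544847, .negSucc 5197922620680752876708561110427, .negSucc 12402655540068244274699974380911, .negSucc 26696838849032351837484814642103, .negSucc 53817925421101642274690059776911, .negSucc 2597308907297079673481111894, .negSucc 47235549956384983114309139,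 .negSucc 6690372175206732985978879, .ofNat 722240065705238521447986560, .ofNat 5820583444228259215409748960, .ofNat 30838716429456899840255600480, .ofNat 73252147736207449850675251200, .ofNat 2072751963201075426270000, .ofNat 33227046291266842035840000, .ofNat 312448553562275253118632000, .ofNat 1640121229585870791899412000, .negSucc 109335415716632923359359]), ((1, 5), .ofNat 794976000, [.negSucc 48275216312796232540939485127331, .ofNat 10855915031207923150941321880998, .ofNat 87838047577151287858030184353440, .ofNat 396390631444818475004788851914472, .ofNat 1317943580950071686790706627346064, .ofNat 3606372739941159261329500137308604, .ofNat 8605091323334161485805395275228016, .ofNat 18522544272723919854978350624982072, .ofNat 37339436025199691890490041145264016, .ofNat 1802039915564538316452654897735, .ofNat 32772515512461713634742726020, .ofNat 4641849752962741621525027840, .negSucc 501097664341828979252178393279, .negSucc 4038381291075948579829209353279, .negSucc 21396221987506882905558815180639, .negSucc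 50823101461137771824564549881599, .negSucc 1438096855656710551052750999, .negSucc 23053270069244346564843391999, .negSucc 216780053961915465406065407999, .negSucc 1137933156035056308456023403999, .ofNat 75858047825067195485557760]), ((1, 9), .ofNat 3577392000, [.ofNat 120688055356788621133754988340668, .negSucc 27139790855535295155312594607001, .negSucc 219595145462113169325640967768159, .negSucc 990976698286567389777315871701527, .negSucc 3294859350276276038826632669997935, .negSucc 9015932938654945154886011761548995, .negSucc 21512730906303423968148349146263183, .negSucc 46306366273961685786589148249547527, .negSucc 93348601336169617206611607143070383, .negSucc 4505100332966242589512946625464, .negSucc 81931298675523099646636859579, .negSucc 11604625783830355547447509759, .ofNat 1252744312141253561410909056320, .ofNat 10095954446919866064133547056320, .ofNat 53490561428512768250977505444960, .ofNat 127057768996875924976398656745600, .ofNat 3595242573318416768660913000, .ofNat 57633182133136757103535488000,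 .ofNat 541950200352978166718020416000, .ofNat 2844833233641687728094213468000, .negSucc 189645142465014393109155839]), ((1, 13), .ofNat 794976000, [.negSucc 2241789688747205305812851, .ofNat 504123652625185892353278, .ofNat 4078996312771552686654240, .ofNat 18407466566927539888192392, .ofNat 61202259788555187802513104, .ofNat 167471631194661881403270444, .ofNat 399600591624180070467702576, .ofNat 860144229927552923147242392, .ofNat 1733957277841148119066487376, .ofNat 83682576899249345029635, .ofNat 1521880023780863881620, .ofNat 215556795136459696640, .negSucc 23269819646133899948479, .negSucc 187533111791868933948479, .negSucc 993591194267321460089439, .negSucc 2360107597809963234822399, .negSucc 66781900707428906999, .negSucc 1070540684857384831999, .negSucc 10066765657745893823999, .negSucc 52842990886961691051999, .ofNat 3522672758644981760]), ((1, 17), .ofNat 3312400, [.negSucc 1507172821224660827, .ofNat 338926292500471242, .ofNat 2742341269272877920, .ofNat 12375484398254508888, .ofNat 41146760114831135856,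 .ofNat 112592493457158236676, .ofNat 268654617364001389584, .ofNat 578281723832989707048, .ofNat 1165753101392283209904, .ofNat 56260453933603185, .ofNat 1023171897221340, .ofNat 144920526974720, .negSucc 15644482576244479, .negSucc 126079984482120479, .negSucc 667999166424274719, .negSucc 1586718881060027119, .negSucc 44897996543399, .negSucc 719732913535999, .negSucc 6767965645022399, .negSucc 35526757953887199, .ofNat 2368320572800]), ((2, 6), .ofNat 9539712000, [.ofNat 1568954696672825561095346669364276, .negSucc 352819524712932959327330796063413, .negSucc 2854755044488791024579370806585119, .negSucc 12882778999741196900366846277712295, .negSucc 42833443932871835413701343993204751, .negSucc 117207873531241104841488712754270171, .negSucc 279667280195387231994383000144111087, .negSucc 601986589614045491577836280634834295, .negSucc 1213539534308059099163753499939049487, .negSucc 58566676755986934543398009028254, .negSucc 1065113655874606536822083829059, .negSucc 150861094520461732199590376319, .ofNat 16285779619645101833908468354240,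 .ofNat 131248242421853126825337129714240, .ofNat 695381720525922037752099143866720, .ofNat 1651761500565152850434205179539200, .ofNat 46738450664486042365614711000, .ofNat 749236132148010537410505216000, .ofNat 7045397406502791629800520832000, .ofNat 36983067213884009501139112620000, .negSucc 2465402529621045579400442879]), ((2, 10), .ofNat 1589952000, [.negSucc 2071201923338875942133431835, .ofNat 465762637842002893615130754, .ofNat 3768607309914910625250157920, .ofNat 17006760423865713118572808056, .ofNat 56545107162831071948751277872, .ofNat 154727968629797415647457307092, .ofNat 369193202240962395457679183568, .ofNat 794692023215775789127472839656, .ofNat 1602012743157461167331834133168, .ofNat 77314796786552341834165005, .ofNat 1406073392240220846949260, .ofNat 199154118210301894613120, .negSucc 21499115393716128240914239, .negSucc 173262881787131653051026239, .negSucc 917984413483879721495231519, .negSucc 2180516495551207995450886399, .negSucc 61700168344854060020999, .negSucc 989078474496920743935999,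 .negSucc 9300740607731041096991999, .negSucc 48821932275550319060083999, .ofNat 3254616893645354298880]), ((2, 14), .ofNat 9784320, [.negSucc 265243857156385539151385504243, .ofNat 59646853929814873091188300566, .ofNat 482618294105375498286191551776, .ofNat 2177932861943687701889414211624, .ofNat 7241323097562887602203236095248, .ofNat 19814892380545990638458572551324, .ofNat 47279904433677167941743283037424, .ofNat 101770462413131268936543161178360, .ofNat 205158190720376148589646929579536, .ofNat 9901147099104930961146049167, .ofNat 180065654536252425014936196, .ofNat 25504228191099682479437696, .negSucc 2753236286729003460388074175, .negSucc 22188524715719175240076781375, .negSucc 117559627527474606388909234015, .negSucc 279242984160989832176924489471, .negSucc 7901494516094925614308439, .negSucc 126664129967106992863948799, .negSucc 1191078612571364819935127039, .negSucc 6252271922246610983612678879, .ofNat 416795257241363761453056]), ((3, 7), .ofNat 9539712000, [.ofNat 475472666852165409889155668285388,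 .negSucc 106922169702235777574757160016081, .negSucc 865135237550971628950111412552159, .negSucc 3904133943742131949989339809550647, .negSucc 12980701010943357720842084019433775, .negSucc 35519916745940145415866104527184435, .negSucc 84753337892917934477219349112209743, .negSucc 182432398959647900900402951903122247, .negSucc 367763887594461679614028161248400143, .negSucc 17748666704584106549596171437764, .negSucc 322783335639528158813851474379, .negSucc 45718545658452799376460213759, .ofNat 4935415333495790766464329169920, .ofNat 39774859004097383686158083094720, .ofNat 210735849696528685654250257168960, .ofNat 500567318701376487999237716044800, .ofNat 14164115655543161699844453000, .ofNat 227056461610951831737889920000, .ofNat 2135111932171847847336728064000, .ofNat 11207740818679099929359807136000, .negSucc 747141723154189292189070719]), ((3, 11), .ofNat 4769856000, [.negSucc 2217276185603902835268642021775307, .ofNat 498611165523797626799523455854962, .ofNat 4034393337998054943398481808404960, .ofNat 18206184755429443796575346648758968,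 .ofNat 60533025829974972385694359019386416, .ofNat 165640363802224058409259815618953076, .ofNat 395231042416233395130831643647783504, .ofNat 850738731994422134383046184163312968, .ofNat 1714996816298267521441633817590114704, .ofNat 82767525357101427478429711110165, .ofNat 1505238582822351030422612371980, .ofNat 213199726495425213424813506560, .negSucc 23015369016841989403120844299519, .negSucc 185482476289134033883711323433919, .negSucc 982726481584266283925251253773759, .negSucc 2334300312983609561295529658265599, .negSucc 66051654537988373084211380999, .negSucc 1058834545528108440106963583999, .negSucc 9956687672806471855517829023999, .negSucc 52265163792064112359773947279999, .ofNat 3484153066018254089636292480]), ((3, 15), .ofNat 1907942400, [.ofNat 307846573437407063609781102178524, .negSucc 69227162489153968631878806994985, .negSucc 560135076119593499268449280574559, .negSucc 2527746263057796786996671758610903, .negSucc 8404403881909914470744185493901167, .negSucc 22997504212833068112873948711795107,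 .negSucc 54873868629402816195568109830221071, .negSucc 118116545532480214279969422923702183, .negSucc 238110117621494477329727092724954831, .negSucc 11491441273085094685757732400704, .negSucc 208987289421246097245362307419, .negSucc 29600645010099680032399976959, .ofNat 3195453292753661807040508966400, .ofNat 25752382643636736611359163106240, .ofNat 136441721579902301774373243421760, .ofNat 324094200529263181297952169845760, .ofNat 9170610161878828707171527400, .ofNat 147008563387065594458808345600, .ofNat 1382386282214597535981212889600, .ofNat 7256494111106666687788911820800, .negSucc 483739729704905320291392383]), ((4, 8), .ofNat 1059968000, [.negSucc 1140650990863220648136360048952427, .ofNat 256504500297639416558209173999642, .ofNat 2075444993455378002601273580129760, .ofNat 9365952160561961062900743382558488, .ofNat 31140485042509061409004631387481456, .ofNat 85211687350753572918770515151458116, .ofNat 203321842844396749546173671962590864, .ofNat 437652279817752189065182589440290888, .ofNat 882259427372638594998770687943450864,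 .ofNat 42578755151407109308282011097065, .ofNat 774351834078906797958808919580, .ofNat 109678027869378633251041311360, .negSucc 11839978999726318153299701101119, .negSucc 95419222801664929355024841117119, .negSucc 505551785674961253805482665718559, .negSucc 1200852641752376920989369010310399, .negSucc 33979477020536925079771568999, .negSucc 544704661222840003769648127999, .negSucc 5122097884530820030372796351999, .negSucc 26887183136731884550375324259999, .ofNat 1792380522045983222700605440]), ((4, 12), .ofNat 1589952000, [.ofNat 1837995935496857106496904587415892, .negSucc 413320316871795280458569963462837, .negSucc 3344282776128947226218030980254239, .negSucc 15091892385192475494139226380856231, .negSucc 50178437923608223630731463684007183, .negSucc 137306447162236941831970060357618523, .negSucc 327624070587025136548089925572224495, .negSucc 705214055753553832849462907937813431, .negSucc 1421634886178032200922893599721855695, .negSucc 68609574298950928299975149028734, .negSucc 1247757232564605557893266281219,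 .negSucc 176730455723947224145028608639, .ofNat 19078432800375002924668294153280, .ofNat 153754430656308965323367237417280, .ofNat 814624398432825111511817302081440, .ofNat 1935002285844856277017104111852800, .ofNat 54753067462635302728022055000, .ofNat 877713657721115803734345472000, .ofNat 8253528176800233513773993952000, .ofNat 43324850211083353131451416548000, .negSucc 2888164864426347010559541759]), ((5, 9), .ofNat 99372000, [.ofNat 253839720868903233888640158820947, .negSucc 57082342696161285159043636329107, .negSucc 461868163038004916994048922697639, .negSucc 2084292830280491626762183088089511, .negSucc 6929983048478879543277658678232543, .negSucc 18962952827064417848701184687135783, .negSucc 45247109104875666126012973640757935, .negSucc 97394850341123275680857836251415511, .negSucc 196337432371620052302888494254979735, .negSucc 9475448151234369931456894528484, .negSucc 172323747571691105296368611069, .negSucc 24407676145308611812073219039, .ofNat 2634861134964462865188416843280, .ofNat 21234531048951464824034730443280,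 .ofNat 112505161691387282757427872874840, .ofNat 267236956640368980762648027766400, .ofNat 7561770454989854861554797000, .ofNat 121218216850149876339736672000, .ofNat 1139868292481423487651785844000, .ofNat 5983456041373409814613186607000, .negSucc 398875181849177325753348159]), ((5, 13), .ofNat 198744000, [.negSucc 371333652554400615190088669618513, .ofNat 83503853286518020676710548493146, .ofNat 675651515028530554462243843324080, .ofNat 3049042391835610175328393893849544, .ofNat 10137640825963380960722031083417328, .ofNat 27740270562806390706628242421455108, .ofNat 66190485216134931817791986306381232, .ofNat 142475674781554841449031094115021944, .ofNat 287215474576413154676479337801005632, .ofNat 13861316737757031245626382436495, .ofNat 252086656842434549882982075240, .ofNat 35705174518700298580846498880, .negSucc 3854450382591200139233248417759, .negSucc 31063286501009318733166095257759, .negSucc 164580044758488286944182614970479, .negSucc 390932021462630433621397295529599, .negSucc 11061861529069002146169674999,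 .negSucc 177326082242047611812232383999, .negSucc 1667475267579085558326382103999, .negSucc 8752998069554972498188585661999, .ofNat 583501186033256372312296320]), ((6, 10), .ofNat 3179904000, [.negSucc 9010325469598113278652545788823531, .ofNat 2026201748485133105149594821998298, .ofNat 16394528243147175671676533904553440, .ofNat 73984310692163718583536248679195672, .ofNat 245987517445469430611173156096324464, .ofNat 673111269787161408187715770862456004, .ofNat 1606096863791857099679483756904041616, .ofNat 3457139401321432029570818873423539272, .ofNat 6969217274104816331784216368377637616, .ofNat 336341654965089966422066784134985, .ofNat 6116824610612065384455814789020, .ofNat 866377827997044704283699379840, .negSucc 93527349903940466085281424393279, .negSucc 753743485418315038452441793913279, .negSucc 3993496842728941166984397809220639, .negSucc 9485875372823037645650277333177599, .negSucc 268413519730577339912050256999, .negSucc 4302776503714533697032241151999, .negSucc 40460902937397158385779448383999, .negSucc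 212389480185613309553264394467999, .ofNat 14158521755002866287862466560]), ((7, 11), .ofNat 3179904000, [.ofNat 9325318289669273820611163736889676, .negSucc 2097035926999765133771337201410513, .negSucc 16967666106198814643320959173668319, .negSucc 76570735205304531346116569683344695, .negSucc 254587018327417953880562364243381551, .negSucc 696642630314296137300622831047749171, .negSucc 1662244555919099279759163595227236687, .negSucc 3577997864545173150033240346139725895, .negSucc 7212854799770893856569720067255017487, .negSucc 348099854684104157466775579614404, .negSucc 6330663260556340024487624173259, .negSucc 896665612407133082281292331519, .ofNat 96796981372795543403829409661440, .ofNat 780093675195951397231311687157440, .ofNat 4133105876462610733333984464089920, .ofNat 9817492986927089842225439144985600, .ofNat 277797013346921894616027237000, .ofNat 4453197674360816868778252416000, .ofNat 41875379469002924397754219200000, .ofNat 219814424106101699712225565632000, .negSucc 14653490855807851032809066879])]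

theorem NA_4_18 (l : ℕ) (hlp : l.Prime) (hl2 : l ≠ 2) (hl3 : l ≠ 3 ∨ (0 : ℤ) = 0)
    (hD : ¬ l ∣ ((18).factorial ^ 8)) : NUMA_stmt 1 0 l 18 :=
  NUB_one 0 (Or.inl rfl) 4 18 ((18).factorial ^ 8) rfl (by norm_num) CA_4_18 rfl
    (by decide +kernel) (by decide +kernel) (by decide +kernel) l hlp hl2 hl3 hD

end Pool.Agent.OE
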