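import Pool.Agent.helper21.OE.NUB

/-!
# Project OE: certificates over the integers for the antisymmetric part (discriminants -4 and -3)
-/

namespace Pool.Agent.OE

set_option maxRecDepth 100000

/-- certificate, `m = 6`, `j = 1`, antisymmetric part -/
def CA_6_1 : OD.NUM_Cert where
  tri := []
  fre := []
  cols := []
  tg := []

theorem NA_6_1 (l : ℕ) (hlp : l.Prime) (hl2 : l ≠ 2) (hl3 : l ≠ 3 ∨ (1 : ℤ) = 0)
    (hD : ¬ l ∣ ((1).factorial ^ 8)) : NUMA_stmt 1 1 l 1 :=
  NUB_one 1 (Or.inr rfl) 6 1 ((1).factorial ^ 8) rfl (by norm_num) CA_6_1 rfl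
    (by decide +kernel) (by decide +kernel) (by decide +kernel) l hlp hl2 hl3 hD

/-- certificate, `m = 6`, `j = 2`, antisymmetric part -/
def CA_6_2 : OD.NUM_Cert where
  tri := []
  fre := []
  cols := []
  tg := []

theorem NA_6_2 (l : ℕ) (hlp : l.Prime) (hl2 : l ≠ 2) (hl3 : l ≠ 3 ∨ (1 : ℤ) = 0)
    (hD : ¬ l ∣ ((2).factorial ^ 8)) : NUMA_stmt 1 1 l 2 :=
  NUB_one 1 (Or.inr rfl) 6 2 ((2).factorial ^ 8) rfl (by norm_num) CA_6_2 rfl
    (by decide +kernel) (by decide +kernel) (by decide +kernel) l hlp hl2 hl3 hD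

/-- certificate, `m = 6`, `j = 3`, antisymmetric part -/
def CA_6_3 : OD.NUM_Cert where
  tri := []
  fre := []
  cols := []
  tg := []

theorem NA_6_3 (l : ℕ) (hlp : l.Prime) (hl2 : l ≠ 2) (hl3 : l ≠ 3 ∨ (1 : ℤ) = 0)
    (hD : ¬ l ∣ ((3).factorial ^ 8)) : NUMA_stmt 1 1 l 3 :=
  NUB_one 1 (Or.inr rfl) 6 3 ((3).factorial ^ 8) rfl (by norm_num) CA_6_3 rfl
    (by decide +kernel) (by decide +kernel) (by decide +kernel) l hlp hl2 hl3 hD

/-- certificate, `m = 6`, `j = 4`, antisymmetric part -/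
def CA_6_4 : OD.NUM_Cert where
  tri := []
  fre := []
  cols := []
  tg := []

theorem NA_6_4 (l : ℕ) (hlp : l.Prime) (hl2 : l ≠ 2) (hl3 : l ≠ 3 ∨ (1 : ℤ) = 0)
    (hD : ¬ l ∣ ((4).factorial ^ 8)) : NUMA_stmt 1 1 l 4 :=
  NUB_one 1 (Or.inr rfl) 6 4 ((4).factorial ^ 8) rfl (by norm_num) CA_6_4 rfl
    (by decide +kernel) (by decide +kernel) (by decide +kernel) l hlp hl2 hl3 hD

/-- certificate, `m = 6`, `j = 5`, antisymmetric part -/
def CA_6_5 : OD.NUM_Cert where
  tri := []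
  fre := []
  cols := []
  tg := []

theorem NA_6_5 (l : ℕ) (hlp : l.Prime) (hl2 : l ≠ 2) (hl3 : l ≠ 3 ∨ (1 : ℤ) = 0)
    (hD : ¬ l ∣ ((5).factorial ^ 8)) : NUMA_stmt 1 1 l 5 :=
  NUB_one 1 (Or.inr rfl) 6 5 ((5).factorial ^ 8) rfl (by norm_num) CA_6_5 rfl
    (by decide +kernel) (by decide +kernel) (by decide +kernel) l hlp hl2 hl3 hD

/-- certificate, `m = 6`, `j = 6`, antisymmetric part -/
def CA_6_6 : OD.NUM_Cert where
  tri := [(0, 6)]
  fre := []
  cols := [((0, 6), [.negSucc 1])]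
  tg := [((0, 6), .ofNat 1, [.negSucc 0])]

theorem NA_6_6 (l : ℕ) (hlp : l.Prime) (hl2 : l ≠ 2) (hl3 : l ≠ 3 ∨ (1 : ℤ) = 0)
    (hD : ¬ l ∣ ((6).factorial ^ 8)) : NUMA_stmt 1 1 l 6 :=
  NUB_one 1 (Or.inr rfl) 6 6 ((6).factorial ^ 8) rfl (by norm_num) CA_6_6 rfl
    (by decide +kernel) (by decide +kernel) (by decide +kernel) l hlp hl2 hl3 hD

/-- certificate, `m = 6`, `j = 7`, antisymmetric part -/
def CA_6_7 : OD.NUM_Cert where
  tri := [(0, 7)]
  fre := []
  cols := [((0, 6), [.ofNat 2])]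
  tg := [((0, 6), .ofNat 2, [.ofNat 1])]

theorem NA_6_7 (l : ℕ) (hlp : l.Prime) (hl2 : l ≠ 2) (hl3 : l ≠ 3 ∨ (1 : ℤ) = 0)
    (hD : ¬ l ∣ ((7).factorial ^ 8)) : NUMA_stmt 1 1 l 7 :=
  NUB_one 1 (Or.inr rfl) 6 7 ((7).factorial ^ 8) rfl (by norm_num) CA_6_7 rfl
    (by decide +kernel) (by decide +kernel) (by decide +kernel) l hlp hl2 hl3 hD

/-- certificate, `m = 6`, `j = 8`, antisymmetric part -/
def CA_6_8 : OD.NUM_Cert where
  tri := [(0, 7), (0, 8)]
  fre := []
  cols := [((0, 6), [.ofNat 10, .negSucc 1]), ((1, 7), [.ofNat 2, .ofNat 0])]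
  tg := [((0, 6), .ofNat 2, [.ofNat 0, .negSucc 0]), ((1, 7), .ofNat 1, [.ofNat 1, .ofNat 5])]

theorem NA_6_8 (l : ℕ) (hlp : l.Prime) (hl2 : l ≠ 2) (hl3 : l ≠ 3 ∨ (1 : ℤ) = 0)
    (hD : ¬ l ∣ ((8).factorial ^ 8)) : NUMA_stmt 1 1 l 8 :=
  NUB_one 1 (Or.inr rfl) 6 8 ((8).factorial ^ 8) rfl (by norm_num) CA_6_8 rfl
    (by decide +kernel) (by decide +kernel) (by decide +kernel) l hlp hl2 hl3 hD

/-- certificate, `m = 6`, `j = 9`, antisymmetric part -/
def CA_6_9 : OD.NUM_Cert where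
  tri := [(0, 8), (0, 9)]
  fre := []
  cols := [((0, 6), [.negSucc 11, .ofNat 2]), ((1, 7), [.negSucc 0, .ofNat 0])]
  tg := [((0, 6), .ofNat 2, [.ofNat 0, .ofNat 1]), ((1, 7), .ofNat 1, [.negSucc 0, .negSucc 5])]

theorem NA_6_9 (l : ℕ) (hlp : l.Prime) (hl2 : l ≠ 2) (hl3 : l ≠ 3 ∨ (1 : ℤ) = 0)
    (hD : ¬ l ∣ ((9).factorial ^ 8)) : NUMA_stmt 1 1 l 9 :=
  NUB_one 1 (Or.inr rfl) 6 9 ((9).factorial ^ 8) rfl (by norm_num) CA_6_9 rfl
    (by decide +kernel) (by decide +kernel) (by decide +kernel) l hlp hl2 hl3 hD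

/-- certificate, `m = 6`, `j = 10`, antisymmetric part -/
def CA_6_10 : OD.NUM_Cert where
  tri := [(0, 8), (0, 9), (0, 10)]
  fre := []
  cols := [((0, 6), [.negSucc 50, .ofNat 14, .negSucc 1]), ((1, 7), [.negSucc 8, .ofNat 1, .ofNat 0]), ((2, 8), [.negSucc 1, .ofNat 0, .ofNat 0])]
  tg := [((0, 6), .ofNat 2, [.ofNat 0, .ofNat 0, .negSucc 0]), ((1, 7), .ofNat 1, [.ofNat 0, .ofNat 1, .ofNat 7]), ((2, 8), .ofNat 2, [.negSucc 1, .negSucc 17, .negSucc 74])]

theorem NA_6_10 (l : ℕ) (hlp : l.Prime) (hl2 : l ≠ 2) (hl3 : l ≠ 3 ∨ (1 : ℤ) = 0)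
    (hD : ¬ l ∣ ((10).factorial ^ 8)) : NUMA_stmt 1 1 l 10 :=
  NUB_one 1 (Or.inr rfl) 6 10 ((10).factorial ^ 8) rfl (by norm_num) CA_6_10 rfl
    (by decide +kernel) (by decide +kernel) (by decide +kernel) l hlp hl2 hl3 hD

/-- certificate, `m = 6`, `j = 11`, antisymmetric part -/
def CA_6_11 : OD.NUM_Cert where
  tri := [(0, 9), (0, 10), (0, 11)]
  fre := []
  cols := [((0, 6), [.ofNat 65, .negSucc 15, .ofNat 2]), ((1, 7), [.ofNat 10, .negSucc 0, .ofNat 0]), ((2, 8), [.ofNat 1, .ofNat 0, .ofNat 0])]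
  tg := [((0, 6), .ofNat 2, [.ofNat 0, .ofNat 0, .ofNat 1]), ((1, 7), .ofNat 1, [.ofNat 0, .negSucc 0, .negSucc 7]), ((2, 8), .ofNat 2, [.ofNat 2, .ofNat 20, .ofNat 95])]

theorem NA_6_11 (l : ℕ) (hlp : l.Prime) (hl2 : l ≠ 2) (hl3 : l ≠ 3 ∨ (1 : ℤ) = 0)
    (hD : ¬ l ∣ ((11).factorial ^ 8)) : NUMA_stmt 1 1 l 11 :=
  NUB_one 1 (Or.inr rfl) 6 11 ((11).factorial ^ 8) rfl (by norm_num) CA_6_11 rfl
    (by decide +kernel) (by decide +kernel) (by decide +kernel) l hlp hl2 hl3 hD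

/-- certificate, `m = 6`, `j = 12`, antisymmetric part -/
def CA_6_12 : OD.NUM_Cert where
  tri := [(0, 11), (1, 9), (1, 10), (1, 11), (5, 6)]
  fre := []
  cols := [((0, 6), [.ofNat 18, .negSucc 1559, .ofNat 576, .negSucc 143, .ofNat 5544]), ((0, 12), [.ofNat 24, .ofNat 0, .ofNat 0, .ofNat 0, .ofNat 0]), ((1, 7), [.ofNat 1, .negSucc 284, .ofNat 65, .negSucc 9, .ofNat 462]), ((2, 8), [.ofNat 0, .negSucc 39, .ofNat 4, .ofNat 0, .ofNat 0]), ((3, 9), [.ofNat 0, .negSucc 5, .ofNat 0, .ofNat 0, .ofNat 0])]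
  tg := [((0, 6), .ofNat 5544, [.ofNat 0, .ofNat 0, .ofNat 0, .negSucc 230, .negSucc 4]), ((0, 12), .ofNat 3696, [.ofNat 308, .ofNat 0, .ofNat 0, .ofNat 77, .ofNat 1]), ((1, 7), .ofNat 154, [.ofNat 0, .ofNat 0, .ofNat 0, .ofNat 77, .ofNat 2]), ((2, 8), .ofNat 616, [.ofNat 0, .ofNat 0, .ofNat 154, .negSucc 1308, .negSucc 49]), ((3, 9), .ofNat 126, [.ofNat 0, .negSucc 41, .negSucc 419, .ofNat 315, .ofNat 40])]

theorem NA_6_12 (l : ℕ) (hlp : l.Prime) (hl2 : l ≠ 2) (hl3 : l ≠ 3 ∨ (1 : ℤ) = 0)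
    (hD : ¬ l ∣ ((12).factorial ^ 8)) : NUMA_stmt 1 1 l 12 :=
  NUB_one 1 (Or.inr rfl) 6 12 ((12).factorial ^ 8) rfl (by norm_num) CA_6_12 rfl
    (by decide +kernel) (by decide +kernel) (by decide +kernel) l hlp hl2 hl3 hD

/-- certificate, `m = 6`, `j = 13`, antisymmetric part -/
def CA_6_13 : OD.NUM_Cert where
  tri := [(0, 1), (0, 11), (0, 12), (0, 13), (1, 12)]
  fre := []
  cols := [((0, 6), [.ofNat 12, .ofNat 99, .negSucc 19, .ofNat 2, .ofNat 182]), ((0, 12), [.ofNat 24, .ofNat 90, .negSucc 13, .ofNat 2, .ofNat 26]), ((1, 7), [.ofNat 12, .ofNat 12, .negSucc 0, .ofNat 0, .ofNat 12]), ((2, 8), [.ofNat 12, .ofNat 1, .ofNat 0, .ofNat 0, .ofNat 0]), ((3, 9), [.ofNat 12, .ofNat 0, .ofNat 0, .ofNat 0, .ofNat 0])]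
  tg := [((0, 6), .ofNat 84, [.ofNat 0, .ofNat 0, .ofNat 12, .ofNat 71, .ofNat 1]), ((0, 12), .ofNat 84, [.ofNat 0, .ofNat 0, .negSucc 11, .negSucc 28, .negSucc 0]), ((1, 7), .ofNat 14, [.ofNat 0, .ofNat 0, .negSucc 25, .negSucc 168, .negSucc 0]), ((2, 8), .ofNat 4, [.ofNat 0, .ofNat 4, .ofNat 84, .ofNat 369, .ofNat 3]), ((3, 9), .ofNat 12, [.ofNat 1, .negSucc 11, .negSucc 227, .negSucc 963, .negSucc 7])]

theorem NA_6_13 (l : ℕ) (hlp : l.Prime) (hl2 : l ≠ 2) (hl3 : l ≠ 3 ∨ (1 : ℤ) = 0)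
    (hD : ¬ l ∣ ((13).factorial ^ 8)) : NUMA_stmt 1 1 l 13 :=
  NUB_one 1 (Or.inr rfl) 6 13 ((13).factorial ^ 8) rfl (by norm_num) CA_6_13 rfl
    (by decide +kernel) (by decide +kernel) (by decide +kernel) l hlp hl2 hl3 hD

/-- certificate, `m = 6`, `j = 14`, antisymmetric part -/
def CA_6_14 : OD.NUM_Cert where
  tri := [(0, 1), (0, 13), (0, 14), (1, 2), (1, 12), (1, 13), (6, 8)]
  fre := []
  cols := [((0, 6), [.ofNat 12, .ofNat 22, .negSucc 1, .ofNat 336, .ofNat 1120, .negSucc 223, .negSucc 162161]), ((0, 12), [.ofNat 24, .ofNat 16, .negSucc 1, .ofNat 168, .ofNat 196, .negSucc 55, .ofNat 0]), ((1, 7), [.ofNat 12, .ofNat 1, .ofNat 0, .ofNat 294, .ofNat 112, .negSucc 13, .negSucc 18017]), ((1, 13), [.ofNat 24, .ofNat 2, .ofNat 0, .ofNat 156, .ofNat 26, .negSucc 1, .ofNat 0]), ((2, 8), [.ofNat 12, .ofNat 0, .ofNat 0, .ofNat 264, .ofNat 6, .ofNat 0, .negSucc 989]), ((3, 9), [.ofNat 12, .ofNat 0, .ofNat 0, .ofNat 246, .ofNat 0, .ofNat 0,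 .ofNat 0]), ((4, 10), [.ofNat 12, .ofNat 0, .ofNat 0, .ofNat 240, .ofNat 0, .ofNat 0, .ofNat 0])]
  tg := [((0, 6), .ofNat 20790, [.ofNat 0, .ofNat 29568, .negSucc 20789, .ofNat 0, .negSucc 2144, .ofNat 1683, .negSucc 12]), ((0, 12), .ofNat 20790, [.ofNat 0, .negSucc 29567, .ofNat 10395, .ofNat 0, .ofNat 2145, .negSucc 1682, .ofNat 13]), ((1, 7), .ofNat 385, [.ofNat 0, .negSucc 6852, .ofNat 5390, .ofNat 0, .ofNat 495, .negSucc 417, .ofNat 3]), ((1, 13), .ofNat 495, [.ofNat 0, .ofNat 5082, .ofNat 0, .ofNat 0, .negSucc 329, .ofNat 297, .negSucc 1]), ((2, 8), .ofNat 198, [.ofNat 0, .ofNat 18018, .negSucc 18017, .ofNat 0, .negSucc 1286, .ofNat 1287, .negSucc 7]), ((3, 9), .ofNat 2970, [.negSucc 9899, .negSucc 69233, .ofNat 831600, .ofNat 495, .ofNat 10230, .negSucc 16433, .ofNat 74]), ((4, 10), .ofNat 90, [.ofNat 615, .negSucc 10571, .negSucc 36539, .negSucc 29, .ofNat 420, .negSucc 71, .ofNat 2])]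

theorem NA_6_14 (l : ℕ) (hlp : l.Prime) (hl2 : l ≠ 2) (hl3 : l ≠ 3 ∨ (1 : ℤ) = 0)
    (hD : ¬ l ∣ ((14).factorial ^ 8)) : NUMA_stmt 1 1 l 14 :=
  NUB_one 1 (Or.inr rfl) 6 14 ((14).factorial ^ 8) rfl (by norm_num) CA_6_14 rfl
    (by decide +kernel) (by decide +kernel) (by decide +kernel) l hlp hl2 hl3 hD

/-- certificate, `m = 6`, `j = 15`, antisymmetric part -/
def CA_6_15 : OD.NUM_Cert where
  tri := [(0, 13), (0, 14), (0, 15), (1, 13), (2, 12), (4, 11), (7, 8)]
  fre := []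
  cols := [((0, 6), [.ofNat 141, .negSucc 23, .ofNat 2, .negSucc 1484, .negSucc 25199, .ofNat 343980, .ofNat 347490]), ((0, 12), [.ofNat 108, .negSucc 17, .ofNat 2, .negSucc 359, .negSucc 1469, .ofNat 0, .ofNat 0]), ((1, 7), [.ofNat 14, .negSucc 0, .ofNat 0, .negSucc 139, .negSucc 3331, .ofNat 50960, .ofNat 41184]), ((1, 13), [.ofNat 15, .negSucc 0, .ofNat 0, .negSucc 28, .negSucc 90, .ofNat 0, .ofNat 0]), ((2, 8), [.ofNat 1, .ofNat 0, .ofNat 0, .negSucc 6, .negSucc 307, .ofNat 5460, .ofNat 2574]), ((3, 9), [.ofNat 0, .ofNat 0, .ofNat 0, .ofNat 0, .negSucc 14, .ofNat 360, .ofNat 0]), ((4, 10), [.ofNat 0, .ofNat 0, .ofNat 0, .ofNat 0, .ofNat 0, .ofNat 10, .ofNat 0])]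
  tg := [((0, 6), .ofNat 378378, [.negSucc 1286, .ofNat 615186, .ofNat 1667952, .negSucc 21878, .ofNat 0, .ofNat 0, .negSucc 58]), ((0, 12), .ofNat 378378, [.ofNat 1287, .negSucc 615185, .negSucc 1478762, .ofNat 21879, .ofNat 0, .ofNat 0, .ofNat 59]), ((1, 7), .ofNat 14014, [.negSucc 285, .negSucc 269697, .negSucc 764477, .ofNat 9152, .ofNat 0, .ofNat 0, .ofNat 25]), ((1, 13), .ofNat 126126, [.ofNat 5148, .ofNat 1070784, .ofNat 2409264, .negSucc 38609, .ofNat 0, .ofNat 0, .negSucc 106]), ((2, 8), .ofNat 18018, [.ofNat 14157, .ofNat 1593306, .ofNat 5003856, .negSucc 47618, .ofNat 0, .ofNat 0, .negSucc 127]), ((3, 9), .ofNat 3510, [.negSucc 22697, .negSucc 577043, .negSucc 2539133, .ofNat 8892, .negSucc 233, .ofNat 0, .ofNat 5]), ((4, 10), .ofNat 4290, [.ofNat 106392, .negSucc 933503, .ofNat 3305016, .ofNat 54912, .ofNat 10296, .ofNat 429, .ofNat 430])]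

theorem NA_6_15 (l : ℕ) (hlp : l.Prime) (hl2 : l ≠ 2) (hl3 : l ≠ 3 ∨ (1 : ℤ) = 0)
    (hD : ¬ l ∣ ((15).factorial ^ 8)) : NUMA_stmt 1 1 l 15 :=
  NUB_one 1 (Or.inr rfl) 6 15 ((15).factorial ^ 8) rfl (by norm_num) CA_6_15 rfl
    (by decide +kernel) (by decide +kernel) (by decide +kernel) l hlp hl2 hl3 hD

/-- certificate, `m = 6`, `j = 16`, antisymmetric part -/
def CA_6_16 : OD.NUM_Cert where
  tri := [(0, 1), (0, 11), (0, 12), (0, 13), (0, 14), (0, 15), (0, 16), (1, 14), (1, 15)]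
  fre := []
  cols := [((0, 6), [.ofNat 12, .ofNat 4620, .negSucc 2029, .ofNat 680, .negSucc 164, .ofNat 26, .negSucc 1, .ofNat 1920, .negSucc 319]), ((0, 12), [.ofNat 24, .ofNat 4380, .negSucc 1820, .ofNat 564, .negSucc 125, .ofNat 20, .negSucc 1, .ofNat 576, .negSucc 127]), ((1, 7), [.ofNat 12, .ofNat 1365, .negSucc 454, .ofNat 105, .negSucc 14, .ofNat 1, .ofNat 0, .ofNat 171, .negSucc 17]), ((1, 13), [.ofNat 24, .ofNat 1443, .negSucc 467, .ofNat 106, .negSucc 14, .ofNat 1, .ofNat 0, .ofNat 48, .negSucc 5]), ((2, 8), [.ofNat 12, .ofNat 364, .negSucc 90, .ofNat 14, .negSucc 0, .ofNat 0, .ofNat 0, .ofNat 8, .ofNat 0]), ((2, 14), [.ofNat 24, .ofNat 728, .negSucc 181, .ofNat 28, .negSucc 1, .ofNat 0, .ofNat 0, .ofNat 4, .ofNat 0]), ((3, 9), [.ofNat 12, .ofNat 78, .negSucc 12, .ofNat 1, .ofNat 0, .ofNat 0, .ofNat 0, .ofNat 0, .ofNat 0]), ((4, 10), [.ofNat 12, .ofNat 12, .negSucc 0, .ofNat 0, .ofNat 0, .ofNat 0, .ofNat 0, .ofNat 0, .ofNat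 0]), ((5, 11), [.ofNat 12, .ofNat 2, .ofNat 0, .ofNat 0, .ofNat 0, .ofNat 0, .ofNat 0, .ofNat 0, .ofNat 0])]
  tg := [((0, 6), .ofNat 756, [.negSucc 0, .ofNat 6, .ofNat 60, .ofNat 324, .ofNat 1248, .ofNat 3822, .ofNat 9462, .ofNat 0, .ofNat 0]), ((0, 12), .ofNat 756, [.ofNat 1, .negSucc 5, .negSucc 59, .negSucc 323, .negSucc 1247, .negSucc 3821, .negSucc 9839, .ofNat 0, .ofNat 0]), ((1, 7), .ofNat 756, [.ofNat 13, .negSucc 77, .negSucc 779, .negSucc 4211, .negSucc 16223, .negSucc 50063, .negSucc 122753, .ofNat 0, .negSucc 62]), ((1, 13), .ofNat 108, [.negSucc 0, .ofNat 6, .ofNat 60, .ofNat 324, .ofNat 1248, .ofNat 3984, .ofNat 10506, .ofNat 0, .ofNat 9]), ((2, 8), .ofNat 72, [.negSucc 6, .ofNat 42, .ofNat 420, .ofNat 2268, .ofNat 8760, .ofNat 27276, .ofNat 65526, .ofNat 12, .ofNat 123]), ((2, 14), .ofNat 168, [.ofNat 5, .negSucc 29, .negSucc 299, .negSucc 1619, .negSucc 6463, .negSucc 22847, .negSucc 60273, .negSucc 27, .negSucc 286]),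 ((3, 9), .ofNat 84, [.ofNat 23, .negSucc 137, .negSucc 1379, .negSucc 7367, .negSucc 27527, .negSucc 79211, .negSucc 180637, .ofNat 0, .negSucc 6]), ((4, 10), .ofNat 126, [.negSucc 79, .ofNat 480, .ofNat 4674, .ofNat 24282, .ofNat 88374, .ofNat 248430, .ofNat 558825, .ofNat 0, .ofNat 0]), ((5, 11), .ofNat 42, [.ofNat 43, .negSucc 215, .negSucc 2075, .negSucc 10655, .negSucc 38375, .negSucc 107015, .negSucc 239789, .ofNat 0, .ofNat 0])]

theorem NA_6_16 (l : ℕ) (hlp : l.Prime) (hl2 : l ≠ 2) (hl3 : l ≠ 3 ∨ (1 : ℤ) = 0)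
    (hD : ¬ l ∣ ((16).factorial ^ 8)) : NUMA_stmt 1 1 l 16 :=
  NUB_one 1 (Or.inr rfl) 6 16 ((16).factorial ^ 8) rfl (by norm_num) CA_6_16 rfl
    (by decide +kernel) (by decide +kernel) (by decide +kernel) l hlp hl2 hl3 hD

/-- certificate, `m = 6`, `j = 17`, antisymmetric part -/
def CA_6_17 : OD.NUM_Cert where
  tri := [(0, 1), (0, 13), (0, 14), (0, 15), (0, 16), (0, 17), (1, 15), (1, 16), (2, 15)]
  fre := []
  cols := [((0, 6), [.ofNat 12, .ofNat 2710, .negSucc 844, .ofNat 191, .negSucc 27, .ofNat 2, .negSucc 2430, .ofNat 374, .ofNat 14960]), ((0, 12), [.ofNat 24, .ofNat 2385, .negSucc 689, .ofNat 146, .negSucc 21, .ofNat 2, .negSucc 849, .ofNat 170, .ofNat 2720]), ((1, 7), [.ofNat 12, .ofNat 560, .negSucc 119, .ofNat 16, .negSucc 0, .ofNat 0, .negSucc 204, .ofNat 20, .ofNat 1440]), ((1, 13), [.ofNat 24, .ofNat 561, .negSucc 119, .ofNat 16, .negSucc 0, .ofNat 0, .negSucc 69, .ofNat 8, .ofNat 192]), ((2, 8), [.ofNat 12, .ofNat 105,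 .negSucc 14, .ofNat 1, .ofNat 0, .ofNat 0, .negSucc 8, .ofNat 0, .ofNat 72]), ((2, 14), [.ofNat 24, .ofNat 119, .negSucc 15, .ofNat 1, .ofNat 0, .ofNat 0, .negSucc 2, .ofNat 0, .ofNat 6]), ((3, 9), [.ofNat 12, .ofNat 14, .negSucc 0, .ofNat 0, .ofNat 0, .ofNat 0, .ofNat 0, .ofNat 0, .ofNat 0]), ((4, 10), [.ofNat 12, .ofNat 1, .ofNat 0, .ofNat 0, .ofNat 0, .ofNat 0, .ofNat 0, .ofNat 0, .ofNat 0]), ((5, 11), [.ofNat 12, .ofNat 0, .ofNat 0, .ofNat 0, .ofNat 0, .ofNat 0, .ofNat 0, .ofNat 0, .ofNat 0])]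
  tg := [((0, 6), .ofNat 84, [.ofNat 0, .ofNat 0, .ofNat 0, .ofNat 108, .ofNat 48, .negSucc 810, .ofNat 44, .ofNat 79, .ofNat 4]), ((0, 12), .ofNat 84, [.ofNat 0, .ofNat 0, .ofNat 0, .negSucc 107, .negSucc 47, .ofNat 853, .negSucc 43, .negSucc 78, .negSucc 3]), ((1, 7), .ofNat 21, [.ofNat 0, .ofNat 0, .ofNat 0, .negSucc 350, .negSucc 141, .ofNat 2641, .negSucc 142, .negSucc 254, .negSucc 12]), ((1, 13), .ofNat 6, [.ofNat 0, .ofNat 0, .ofNat 0, .ofNat 54, .ofNat 14, .negSucc 472, .ofNat 22, .ofNat 39, .ofNat 2]), ((2, 8), .ofNat 12, [.ofNat 0, .ofNat 0, .ofNat 0, .ofNat 1128, .ofNat 368, .negSucc 8510, .ofNat 460, .ofNat 807, .ofNat 42]), ((2, 14), .ofNat 42, [.ofNat 0, .ofNat 0, .ofNat 0, .negSucc 1151, .ofNat 608, .ofNat 13434, .negSucc 487, .negSucc 809, .negSucc 44]), ((3, 9), .ofNat 42, [.ofNat 0, .ofNat 0, .negSucc 41, .negSucc 10277, .negSucc 10447, .ofNat 43726, .negSucc 3911, .negSucc 7089, .negSucc 354]), ((4, 10), .ofNat 42,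 [.ofNat 0, .ofNat 42, .ofNat 588, .ofNat 29952, .ofNat 34942, .negSucc 101763, .ofNat 10406, .ofNat 18687, .ofNat 946]), ((5, 11), .ofNat 84, [.ofNat 7, .negSucc 83, .negSucc 1091, .negSucc 42635, .negSucc 53771, .ofNat 123702, .negSucc 14255, .negSucc 25595, .negSucc 1295])]

theorem NA_6_17 (l : ℕ) (hlp : l.Prime) (hl2 : l ≠ 2) (hl3 : l ≠ 3 ∨ (1 : ℤ) = 0)
    (hD : ¬ l ∣ ((17).factorial ^ 8)) : NUMA_stmt 1 1 l 17 :=
  NUB_one 1 (Or.inr rfl) 6 17 ((17).factorial ^ 8) rfl (by norm_num) CA_6_17 rfl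
    (by decide +kernel) (by decide +kernel) (by decide +kernel) l hlp hl2 hl3 hD

/-- certificate, `m = 6`, `j = 18`, antisymmetric part -/
def CA_6_18 : OD.NUM_Cert where
  tri := [(0, 1), (0, 3), (0, 5), (0, 15), (0, 16), (0, 17), (0, 18), (1, 2), (1, 4), (1, 16), (1, 17), (2, 3)]
  fre := []
  cols := [((0, 6), [.ofNat 12, .ofNat 616, .ofNat 7782, .ofNat 1036, .negSucc 218, .ofNat 30, .negSucc 1, .ofNat 648, .ofNat 27810, .ofNat 3024, .negSucc 431, .ofNat 20196]), ((0, 12), [.ofNat 24, .ofNat 1016, .ofNat 9354, .ofNat 836, .negSucc 167, .ofNat 24, .negSucc 1, .ofNat 648, .ofNat 18090, .ofNat 1188, .negSucc 215, .ofNat 9180]), ((0, 18), [.ofNat 36, .ofNat 1632, .ofNat 17136, .ofNat 1632, .negSucc 305, .ofNat 36, .negSucc 1, .ofNat 0, .ofNat 0, .ofNat 0, .ofNat 0, .ofNat 0]), ((1, 7), [.ofNat 12, .ofNat 550, .ofNat 5747, .ofNat 136, .negSucc 16, .ofNat 1, .ofNat 0, .ofNat 582, .ofNat 20605, .ofNat 242, .negSucc 21, .ofNat 14960]), ((1,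 13), [.ofNat 24, .ofNat 956, .ofNat 7474, .ofNat 136, .negSucc 16, .ofNat 1, .ofNat 0, .ofNat 588, .ofNat 12530, .ofNat 95, .negSucc 9, .ofNat 5440]), ((2, 8), [.ofNat 12, .ofNat 496, .ofNat 4172, .ofNat 16, .negSucc 0, .ofNat 0, .ofNat 0, .ofNat 528, .ofNat 14980, .ofNat 10, .ofNat 0, .ofNat 10856]), ((2, 14), [.ofNat 24, .ofNat 920, .ofNat 6370, .ofNat 16, .negSucc 0, .ofNat 0, .ofNat 0, .ofNat 552, .ofNat 9266, .ofNat 4, .ofNat 0, .ofNat 3244]), ((3, 9), [.ofNat 12, .ofNat 454, .ofNat 3003, .ofNat 1, .ofNat 0, .ofNat 0, .ofNat 0, .ofNat 486, .ofNat 10773, .ofNat 0, .ofNat 0, .ofNat 7776]), ((3, 15), [.ofNat 24, .ofNat 908, .ofNat 6006, .ofNat 2, .ofNat 0, .ofNat 0, .ofNat 0, .ofNat 540, .ofNat 8190, .ofNat 0, .ofNat 0, .ofNat 2520]), ((4, 10), [.ofNat 12, .ofNat 424, .ofNat 2198, .ofNat 0, .ofNat 0, .ofNat 0, .ofNat 0, .ofNat 456, .ofNat 7858, .ofNat 0, .ofNat 0, .ofNat 5636]), ((5, 11), [.ofNat 12, .ofNat 406, .ofNat 1727, .ofNat 0,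 .ofNat 0, .ofNat 0, .ofNat 0, .ofNat 438, .ofNat 6145, .ofNat 0, .ofNat 0, .ofNat 4376]), ((6, 12), [.ofNat 12, .ofNat 400, .ofNat 1572, .ofNat 0, .ofNat 0, .ofNat 0, .ofNat 0, .ofNat 432, .ofNat 5580, .ofNat 0, .ofNat 0, .ofNat 3960])]
  tg := [((0, 6), .ofNat 653184, [.ofNat 605624, .ofNat 6537, .ofNat 708, .ofNat 0, .negSucc 311039, .negSucc 4774463, .negSucc 16049663, .negSucc 24236, .negSucc 2435, .negSucc 31103, .negSucc 318815, .ofNat 3300]), ((0, 12), .ofNat 1306368, [.negSucc 1214215, .negSucc 12926, .negSucc 1499, .ofNat 0, .ofNat 622080, .ofNat 9548928, .ofNat 31446144, .ofNat 48411, .ofNat 4956, .ofNat 62208, .ofNat 637632, .negSucc 6683]), ((0, 18), .ofNat 93312, [.ofNat 424, .negSucc 20, .ofNat 12, .ofNat 0, .ofNat 0, .ofNat 0, .ofNat 0, .ofNat 9, .negSucc 11, .ofNat 0, .ofNat 0, .ofNat 12]), ((1, 7), .ofNat 217728, [.negSucc 2610519, .negSucc 29012, .negSucc 2675, .ofNat 0, .ofNat 1347840, .ofNat 20507904, .ofNat 69330816,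 .ofNat 105321, .ofNat 10164, .ofNat 134784, .ofNat 1363392, .negSucc 13907]), ((1, 13), .ofNat 31104, [.ofNat 199048, .ofNat 2319, .ofNat 156, .ofNat 0, .negSucc 103679, .negSucc 1534463, .negSucc 4945535, .negSucc 8138, .negSucc 731, .negSucc 10367, .negSucc 103679, .ofNat 1020]), ((2, 8), .ofNat 62208, [.ofNat 4191032, .ofNat 48153, .ofNat 3588, .ofNat 0, .negSucc 2135807, .negSucc 32431103, .negSucc 111507839, .negSucc 170684, .negSucc 15683, .negSucc 207359, .negSucc 2104703, .ofNat 21732]), ((2, 14), .ofNat 435456, [.negSucc 8680711, .negSucc 118046, .ofNat 804, .ofNat 0, .ofNat 3939840, .ofNat 57283200, .ofNat 182611584, .ofNat 372123, .ofNat 25116, .ofNat 393984, .ofNat 3893184, .negSucc 38075]), ((3, 9), .ofNat 20412, [.negSucc 4385743, .negSucc 48890, .negSucc 4469, .ofNat 20412, .ofNat 2523312, .ofNat 36271152, .ofNat 126332784, .ofNat 177084, .ofNat 17052, .ofNat 219672, .ofNat 2241432, .negSucc 23342]), ((3, 15), .ofNat 326592,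 [.ofNat 9446264, .ofNat 136641, .negSucc 3899, .ofNat 0, .negSucc 4043519, .negSucc 58475519, .negSucc 185784191, .negSucc 413108, .negSucc 24611, .negSucc 404351, .negSucc 3981311, .ofNat 38868]), ((4, 10), .ofNat 4536, [.ofNat 2666236, .ofNat 3237, .ofNat 3252, .negSucc 27215, .negSucc 1422575, .negSucc 18897515, .negSucc 66212639, .negSucc 84557, .negSucc 8525, .negSucc 107783, .negSucc 1103273, .ofNat 11541]), ((5, 11), .ofNat 72576, [.negSucc 89215095, .ofNat 692175, .negSucc 114275, .ofNat 1088640, .ofNat 40179456, .ofNat 502343424, .ofNat 1762881408, .ofNat 2132917, .ofNat 218148, .ofNat 2740608, .ofNat 28085184, .negSucc 294275]), ((6, 12), .ofNat 15552, [.ofNat 24886456, .negSucc 264746, .ofNat 32052, .negSucc 311039, .negSucc 10419839, .negSucc 127464191, .negSucc 447384383, .negSucc 532520, .negSucc 54515, .negSucc 684287, .negSucc 7013951, .ofNat 73524])]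

theorem NA_6_18 (l : ℕ) (hlp : l.Prime) (hl2 : l ≠ 2) (hl3 : l ≠ 3 ∨ (1 : ℤ) = 0)
    (hD : ¬ l ∣ ((18).factorial ^ 8)) : NUMA_stmt 1 1 l 18 :=
  NUB_one 1 (Or.inr rfl) 6 18 ((18).factorial ^ 8) rfl (by norm_num) CA_6_18 rfl
    (by decide +kernel) (by decide +kernel) (by decide +kernel) l hlp hl2 hl3 hD

/-- certificate, `m = 6`, `j = 19`, antisymmetric part -/
def CA_6_19 : OD.NUM_Cert where
  tri := [(0, 1), (0, 3), (0, 13), (0, 14), (0, 15), (0, 16), (0, 17), (0, 18), (0, 19), (1, 2), (1, 17), (1, 18)]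
  fre := []
  cols := [((0, 6), [.ofNat 12, .ofNat 703, .ofNat 28847, .negSucc 12914, .ofNat 4591, .negSucc 1254, .ofNat 249, .negSucc 31, .ofNat 2, .ofNat 741, .negSucc 3704, .ofNat 494]), ((0, 12), [.ofNat 24, .ofNat 1154, .ofNat 27139, .negSucc 11648, .ofNat 3911, .negSucc 1003, .ofNat 192, .negSucc 25, .ofNat 2, .ofNat 798, .negSucc 1595, .ofNat 266]), ((0, 18), [.ofNat 36, .ofNat 1785, .ofNat 35700, .negSucc 14687, .ofNat 4692, .negSucc 1121, .ofNat 189, .negSucc 19, .ofNat 2, .ofNat 171, .negSucc 170, .ofNat 38]), ((1, 7), [.ofNat 12, .ofNat 631, .ofNat 8568, .negSucc 3059, .ofNat 816, .negSucc 152, .ofNat 18, .negSucc 0, .ofNat 0, .ofNat 669, .negSucc 281, .ofNat 24]), ((1, 13), [.ofNat 24, .ofNat 1082, .ofNat 8569, .negSucc 3059, .ofNat 816, .negSucc 152, .ofNat 18, .negSucc 0, .ofNat 0, .ofNat 726, .negSucc 122, .ofNat 12]), ((2, 8), [.ofNat 12, .ofNat 571, .ofNat 2380, .negSucc 679, .ofNat 136, .negSucc 16, .ofNat 1, .ofNat 0,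 .ofNat 0, .ofNat 609, .negSucc 10, .ofNat 0]), ((2, 14), [.ofNat 24, .ofNat 1034, .ofNat 2394, .negSucc 680, .ofNat 136, .negSucc 16, .ofNat 1, .ofNat 0, .ofNat 0, .ofNat 678, .negSucc 4, .ofNat 0]), ((3, 9), [.ofNat 12, .ofNat 523, .ofNat 560, .negSucc 119, .ofNat 16, .negSucc 0, .ofNat 0, .ofNat 0, .ofNat 0, .ofNat 561, .ofNat 0, .ofNat 0]), ((3, 15), [.ofNat 24, .ofNat 1010, .ofNat 665, .negSucc 134, .ofNat 17, .negSucc 0, .ofNat 0, .ofNat 0, .ofNat 0, .ofNat 654, .ofNat 0, .ofNat 0]), ((4, 10), [.ofNat 12, .ofNat 487, .ofNat 105, .negSucc 14, .ofNat 1, .ofNat 0, .ofNat 0, .ofNat 0, .ofNat 0, .ofNat 525, .ofNat 0, .ofNat 0]), ((5, 11), [.ofNat 12, .ofNat 463, .ofNat 14, .negSucc 0, .ofNat 0, .ofNat 0, .ofNat 0, .ofNat 0, .ofNat 0, .ofNat 501, .ofNat 0, .ofNat 0]), ((6, 12), [.ofNat 12, .ofNat 451, .ofNat 1, .ofNat 0, .ofNat 0, .ofNat 0, .ofNat 0, .ofNat 0, .ofNat 0, .ofNat 489, .ofNat 0, .ofNat 0])]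
  tg := [((0, 6), .ofNat 1100736, [.ofNat 193169, .negSucc 5171, .ofNat 14544, .ofNat 127008, .ofNat 578736, .ofNat 1776528, .ofNat 3878784, .ofNat 5280912, .negSucc 543095, .ofNat 0, .ofNat 0, .ofNat 0]), ((0, 12), .ofNat 42336, [.negSucc 7618, .ofNat 204, .negSucc 575, .negSucc 5039, .negSucc 23039, .negSucc 71135, .negSucc 157247, .negSucc 222767, .negSucc 287, .ofNat 0, .ofNat 0, .ofNat 0]), ((0, 18), .ofNat 1100736, [.ofNat 4925, .negSucc 131, .ofNat 432, .ofNat 4032, .ofNat 20304, .ofNat 73008, .ofNat 209664, .ofNat 511056, .ofNat 1100952, .ofNat 0, .ofNat 0, .ofNat 0]), ((1, 7), .ofNat 336, [.negSucc 746, .ofNat 20, .negSucc 55, .negSucc 487, .negSucc 2215, .negSucc 6759, .negSucc 14559, .negSucc 18591, .ofNat 7168, .ofNat 0, .ofNat 0, .ofNat 28]), ((1, 13), .ofNat 624, [.ofNat 747, .negSucc 19, .ofNat 56, .ofNat 488, .ofNat 2216, .ofNat 6760, .ofNat 14560, .ofNat 17680, .negSucc 15831, .ofNat 0, .ofNat 0, .negSucc 51]), ((2, 8),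 .ofNat 366912, [.ofNat 4498703, .negSucc 120443, .ofNat 335808, .ofNat 2920176, .ofNat 13214592, .ofNat 40057056, .ofNat 84765408, .ofNat 97402032, .negSucc 77449271, .ofNat 0, .negSucc 61151, .negSucc 810263]), ((2, 14), .ofNat 366912, [.negSucc 1387204, .ofNat 37140, .negSucc 103679, .negSucc 902159, .negSucc 4086719, .negSucc 12411359, .negSucc 25797407, .negSucc 18909071, .ofNat 80317176, .ofNat 0, .ofNat 61152, .ofNat 810264]), ((3, 9), .ofNat 1651104, [.negSucc 56963016, .ofNat 1520850, .negSucc 4216103, .negSucc 36513287, .negSucc 164112695, .negSucc 492885431, .negSucc 1038583727, .negSucc 1306652255, .ofNat 307680336, .ofNat 3822, .ofNat 275184, .ofNat 3508596]), ((3, 15), .ofNat 3302208, [.ofNat 9091109, .negSucc 235103, .ofNat 676512, .ofNat 5881680, .ofNat 26606880, .ofNat 80600832, .ofNat 164874528, .ofNat 87862320, .negSucc 652260599, .negSucc 7643, .negSucc 550367, .negSucc 7017191]), ((4, 10), .ofNat 117936, [.ofNat 7825642,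 .negSucc 209774, .ofNat 567324, .ofNat 4861188, .ofNat 21576132, .ofNat 63925524, .ofNat 133680456, .ofNat 179557560, .ofNat 24475284, .ofNat 273, .ofNat 19656, .ofNat 250614]), ((5, 11), .ofNat 122304, [.negSucc 10477990, .ofNat 280380, .negSucc 715487, .negSucc 6059087, .negSucc 26569247, .negSucc 77787839, .negSucc 160879263, .negSucc 213835439, .negSucc 27514327, .ofNat 0, .negSucc 20383, .negSucc 270087]), ((6, 12), .ofNat 36, [.ofNat 1573, .negSucc 41, .ofNat 102, .ofNat 858, .ofNat 3738, .ofNat 10878, .ofNat 22344, .ofNat 28968, .ofNat 948, .ofNat 0, .ofNat 0, .ofNat 3])]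

theorem NA_6_19 (l : ℕ) (hlp : l.Prime) (hl2 : l ≠ 2) (hl3 : l ≠ 3 ∨ (1 : ℤ) = 0)
    (hD : ¬ l ∣ ((19).factorial ^ 8)) : NUMA_stmt 1 1 l 19 :=
  NUB_one 1 (Or.inr rfl) 6 19 ((19).factorial ^ 8) rfl (by norm_num) CA_6_19 rfl
    (by decide +kernel) (by decide +kernel) (by decide +kernel) l hlp hl2 hl3 hD

/-- certificate, `m = 6`, `j = 20`, antisymmetric part -/
def CA_6_20 : OD.NUM_Cert where
  tri := [(0, 1), (0, 5), (0, 6), (0, 11), (0, 16), (0, 17), (0, 18), (0, 19), (0, 20), (1, 2), (1, 4), (1, 7), (1, 19), (2, 3), (2, 6)]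
  fre := []
  cols := [((0, 6), [.ofNat 12, .ofNat 13508, .negSucc 35757, .ofNat 169598, .negSucc 5845, .ofNat 1504, .negSucc 280, .ofNat 34, .negSucc 1, .ofNat 840, .ofNat 47810, .negSucc 1016919, .negSucc 559, .ofNat 34580, .negSucc 2956779]), ((0, 12), [.ofNat 24, .ofNat 16240, .negSucc 39655, .ofNat 167972, .negSucc 4914, .ofNat 1196, .negSucc 217, .ofNat 28, .negSucc 1, .ofNat 960, .ofNat 37360, .negSucc 619999, .negSucc 319, .ofNat 21280, .negSucc 1079959]), ((0, 18), [.ofNat 36, .ofNat 24072, .negSucc 57323, .ofNat 199784, .negSucc 4997, .ofNat 1158, .negSucc 190, .ofNat 22, .negSucc 1, .ofNat 360, .ofNat 9690, .negSucc 155039, .negSucc 79, .ofNat 1140, .negSucc 38759]), ((1, 7), [.ofNat 12, .ofNat 10362, .negSucc 25422, .ofNat 75504, .negSucc 968, .ofNat 171, .negSucc 18, .ofNat 1, .ofNat 0, .ofNat 762, .ofNat 36838, .negSucc 622440, .negSucc 25, .ofNat 26676, .negSucc 1822859]), ((1, 13), [.ofNat 24, .ofNat 12894, .negSucc 28840,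 .ofNat 75660, .negSucc 968, .ofNat 171, .negSucc 18, .ofNat 1, .ofNat 0, .ofNat 876, .ofNat 27182, .negSucc 354412, .negSucc 13, .ofNat 14364, .negSucc 568574]), ((1, 19), [.ofNat 36, .ofNat 23256, .negSucc 54263, .ofNat 151164, .negSucc 1937, .ofNat 342, .negSucc 37, .ofNat 2, .ofNat 0, .ofNat 342, .ofNat 7752, .negSucc 100775, .negSucc 1, .ofNat 0, .ofNat 0]), ((2, 8), [.ofNat 12, .ofNat 7832, .negSucc 17667, .ofNat 31812, .negSucc 152, .ofNat 18, .negSucc 0, .ofNat 0, .ofNat 0, .ofNat 696, .ofNat 27950, .negSucc 367647, .ofNat 0, .ofNat 20252, .negSucc 1083879]), ((2, 14), [.ofNat 24, .ofNat 10564, .negSucc 21565, .ofNat 32188, .negSucc 152, .ofNat 18, .negSucc 0, .ofNat 0, .ofNat 0, .ofNat 816, .ofNat 20092, .negSucc 197807, .ofNat 0, .ofNat 9544, .negSucc 281309]), ((3, 9), [.ofNat 12, .ofNat 5852, .negSucc 11997, .ofNat 12375, .negSucc 16, .ofNat 1, .ofNat 0, .ofNat 0, .ofNat 0, .ofNat 642, .ofNat 20948, .negSucc 208425, .ofNat 0,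 .ofNat 15176, .negSucc 618099]), ((3, 15), [.ofNat 24, .ofNat 9190, .negSucc 17380, .ofNat 13741, .negSucc 16, .ofNat 1, .ofNat 0, .ofNat 0, .ofNat 0, .ofNat 780, .ofNat 15910, .negSucc 116544, .ofNat 0, .ofNat 6700, .negSucc 138774]), ((4, 10), [.ofNat 12, .ofNat 4368, .negSucc 8007, .ofNat 4368, .negSucc 0, .ofNat 0, .ofNat 0, .ofNat 0, .ofNat 0, .ofNat 600, .ofNat 15670, .negSucc 112959, .ofNat 0, .ofNat 11340, .negSucc 336419]), ((4, 16), [.ofNat 24, .ofNat 8736, .negSucc 16015, .ofNat 8736, .negSucc 1, .ofNat 0, .ofNat 0, .ofNat 0, .ofNat 0, .ofNat 768, .ofNat 14528, .negSucc 91519, .ofNat 0, .ofNat 5760, .negSucc 96095]), ((5, 11), [.ofNat 12, .ofNat 3338, .negSucc 5382, .ofNat 1366, .ofNat 0, .ofNat 0, .ofNat 0, .ofNat 0, .ofNat 0, .ofNat 570, .ofNat 11990, .negSucc 59024, .ofNat 0, .ofNat 8660, .negSucc 175979]), ((6, 12), [.ofNat 12, .ofNat 2732, .negSucc 3897, .ofNat 376, .ofNat 0, .ofNat 0, .ofNat 0, .ofNat 0, .ofNat 0, .ofNat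 552, .ofNat 9818, .negSucc 32095, .ofNat 0, .ofNat 7076, .negSucc 95329]), ((7, 13), [.ofNat 12, .ofNat 2532, .negSucc 3417, .ofNat 156, .ofNat 0, .ofNat 0, .ofNat 0, .ofNat 0, .ofNat 0, .ofNat 546, .ofNat 9100, .negSucc 23997, .ofNat 0, .ofNat 6552, .negSucc 70979])]
  tg := [((0, 6), .ofNat 45239040, [.ofNat 386599992, .ofNat 4988755, .ofNat 1993434, .negSucc 102271, .negSucc 13336703, .negSucc 111541759, .negSucc 519519999, .negSucc 1761047679, .negSucc 4829430719, .negSucc 15355283, .negSucc 1999199, .negSucc 104447, .ofNat 0, .ofNat 2327640, .ofNat 22848]), ((0, 12), .ofNat 3053635200, [.negSucc 25357624183, .negSucc 321655474, .negSucc 128434841, .ofNat 6755392, .ofNat 894029184, .ofNat 7485565120, .ofNat 34892236160, .ofNat 118339807040, .ofNat 323123988480, .ofNat 998093460, .ofNat 129948000, .ofNat 6789120, .ofNat 0, .negSucc 151296599, .negSucc 1485119]), ((0, 18), .ofNat 6107270400, [.negSucc 1475750551, .negSucc 30170974, .negSucc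 12243905, .ofNat 295936, .ofNat 12396672, .ofNat 87007360, .ofNat 350727680, .ofNat 1061822720, .ofNat 2671535040, .ofNat 76776420, .ofNat 9996000, .ofNat 522240, .ofNat 0, .negSucc 11638199, .negSucc 114239]), ((1, 7), .ofNat 29314897920, [.negSucc 3333382078103, .negSucc 43590213874, .negSucc 17429389145, .ofNat 876928000, .ofNat 112993021440, .ofNat 944152168960, .ofNat 4394674319360, .ofNat 14856079723520, .ofNat 40734099513600, .ofNat 133344265236, .ofNat 17356968720, .ofNat 907026432, .negSucc 2442908159, .negSucc 20209141679, .negSucc 198412031]), ((1, 13), .ofNat 146574489600, [.ofNat 8867714979096, .ofNat 115158619075, .ofNat 46043841978, .negSucc 2339652607, .negSucc 303319420415, .negSucc 2535683617279, .negSucc 11806563082239, .negSucc 39695187266559, .negSucc 107221386789119, .negSucc 353468820179, .negSucc 45982313999, .negSucc 2404392959, .ofNat 12214540800, .ofNat 53543002800, .ofNat 525960960]), ((1, 19), .ofNat 12214540800,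 [.ofNat 5931957288, .ofNat 122202725, .ofNat 48968694, .negSucc 1183743, .negSucc 49586687, .negSucc 348029439, .negSucc 1402910719, .negSucc 4247290879, .negSucc 10686140159, .negSucc 307498379, .negSucc 41554799, .negSucc 2088959, .ofNat 0, .ofNat 48123600, .ofNat 456960]), ((2, 8), .ofNat 3053635200, [.ofNat 1765140137396, .ofNat 26856879425, .ofNat 10621204278, .negSucc 523651407, .negSucc 66647453615, .negSucc 556364015679, .negSucc 2590978967839, .negSucc 8782815686959, .negSucc 24218864583719, .negSucc 74594457419, .negSucc 10566218249, .negSucc 545997839, .ofNat 1526817600, .ofNat 12122443725, .ofNat 118995240]), ((2, 14), .ofNat 3053635200, [.negSucc 370074515923, .negSucc 8370652924, .negSucc 3226197821, .ofNat 158706832, .ofNat 20196594864, .ofNat 168596686720, .ofNat 784221078560, .ofNat 2616200691440, .ofNat 6997916829480, .ofNat 18394117980, .ofNat 3249146250, .ofNat 163718160, .negSucc 1526817599, .negSucc 3603281324, .negSucc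 35371559]), ((3, 9), .ofNat 48858163200, [.negSucc 93608845521783, .negSucc 1491014001774, .negSucc 588788710241, .ofNat 28336289792, .ofNat 3549942249984, .ofNat 29646426360320, .ofNat 138431627253760, .ofNat 472331164426240, .ofNat 1314841868532480, .ofNat 4037710333860, .ofNat 581746779600, .ofNat 29995115520, .negSucc 61072703999, .negSucc 665557527599, .negSucc 6533157119]), ((3, 15), .ofNat 48858163200, [.ofNat 3279376697336, .ofNat 273932333375, .ofNat 101591144898, .negSucc 4877129727, .negSucc 611891974655, .negSucc 5102226004479, .negSucc 23714095523839, .negSucc 78680251381759, .negSucc 209007746891519, .negSucc 365954823779, .negSucc 103698075599, .negSucc 5019509759, .ofNat 61072704000, .ofNat 108972250800, .ofNat 1069743360]), ((4, 10), .ofNat 832809600, [.ofNat 3898263944736, .ofNat 59912169175, .ofNat 23798575458, .negSucc 1103649247, .negSucc 135560942495, .negSucc 1135108071679, .negSucc 5329256511039, .negSucc 18359288755359,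 .negSucc 51732534252719, .negSucc 166848441059, .negSucc 23168407499, .negSucc 1200148319, .ofNat 1388016000, .ofNat 26671666350, .ofNat 261809520]), ((4, 16), .ofNat 1832181120, [.ofNat 7176265488, .negSucc 12993657474, .negSucc 4744818665, .ofNat 225721376, .ofNat 28166134752, .ofNat 234760338560, .ofNat 1090785263680, .ofNat 3611949937120, .ofNat 9570866705040, .ofNat 13004431860, .ofNat 4872942900, .ofNat 231964320, .negSucc 3053635199, .negSucc 5006942849, .negSucc 49151759]), ((5, 11), .ofNat 2874009600, [.negSucc 24391477738743, .negSucc 363337148574, .negSucc 145307641601, .ofNat 6401349632, .ofNat 769453668864, .ofNat 6474243269120, .ofNat 30632532674560, .ofNat 106728727920640, .ofNat 304710922894080, .ofNat 1039744668900, .ofNat 138668014800, .ofNat 7221273600, .negSucc 3592511999, .negSucc 160757309999, .negSucc 1577990399]), ((6, 12), .ofNat 277603200, [.ofNat 3250286480188, .ofNat 48502780075, .ofNat 19473162834, .negSucc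 816344623, .negSucc 96364053647, .negSucc 815065658239, .negSucc 3885526503519, .negSucc 13671301472079, .negSucc 39453718011959, .negSucc 139618480259, .negSucc 18255462749, .negSucc 953206319, .ofNat 138801600, .ofNat 21238242375, .ofNat 208473720]), ((7, 13), .ofNat 73287244800, [.negSucc 946778827331591, .negSucc 14238100153824, .negSucc 5722457189885, .ofNat 234876517376, .ofNat 27524305930752, .ofNat 233354109570560, .ofNat 1116029955297280, .ofNat 3942523929809920, .ofNat 11426188823581440, .ofNat 40908004643100, .ofNat 5326038874800, .ofNat 278259916800, .negSucc 12214540799, .negSucc 6201035878799, .negSucc 60869356799])]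

theorem NA_6_20 (l : ℕ) (hlp : l.Prime) (hl2 : l ≠ 2) (hl3 : l ≠ 3 ∨ (1 : ℤ) = 0)
    (hD : ¬ l ∣ ((20).factorial ^ 8)) : NUMA_stmt 1 1 l 20 :=
  NUB_one 1 (Or.inr rfl) 6 20 ((20).factorial ^ 8) rfl (by norm_num) CA_6_20 rfl
    (by decide +kernel) (by decide +kernel) (by decide +kernel) l hlp hl2 hl3 hD

/-- certificate, `m = 6`, `j = 21`, antisymmetric part -/
def CA_6_21 : OD.NUM_Cert where
  tri := [(0, 1), (0, 4), (0, 6), (0, 16), (0, 17), (0, 18), (0, 19), (0, 20), (0, 21), (1, 2), (1, 4), (1, 18), (1, 19), (1, 20), (2, 4)]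
  fre := []
  cols := [((0, 6), [.ofNat 12, .negSucc 4634, .negSucc 49259, .negSucc 23351, .ofNat 7350, .negSucc 1784, .ofNat 315, .negSucc 35, .ofNat 2, .ofNat 945, .ofNat 61110, .ofNat 29505, .negSucc 5354, .ofNat 630, .negSucc 341774]), ((0, 12), [.ofNat 24, .negSucc 6353, .negSucc 55103, .negSucc 20474, .ofNat 6111, .negSucc 1413, .ofNat 246, .negSucc 29, .ofNat 2, .ofNat 1134, .ofNat 51219, .ofNat 13734, .negSucc 2645, .ofNat 378, .negSucc 188999]), ((0, 18), [.ofNat 36, .negSucc 9044, .negSucc 72827, .negSucc 20501, .ofNat 6003, .negSucc 1330, .ofNat 213, .negSucc 23, .ofNat 2, .ofNat 567, .ofNat 17955, .ofNat 4011, .negSucc 692, .ofNat 126, .negSucc 17954]), ((1, 7), [.ofNat 12, .negSucc 3878, .negSucc 35763, .negSucc 4844, .ofNat 1140, .negSucc 189, .ofNat 20, .negSucc 0, .ofNat 0, .ofNat 861, .ofNat 47845, .ofNat 3024, .negSucc 370, .ofNat 28, .negSucc 250704]), ((1, 13), [.ofNat 24, .negSucc 5489, .negSucc 40447, .negSucc 4844,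 .ofNat 1140, .negSucc 189, .ofNat 20, .negSucc 0, .ofNat 0, .ofNat 1038, .ofNat 38075, .ofNat 1576, .negSucc 187, .ofNat 16, .negSucc 122359]), ((1, 19), [.ofNat 36, .negSucc 8720, .negSucc 65891, .negSucc 5813, .ofNat 1311, .negSucc 208, .ofNat 21, .negSucc 0, .ofNat 0, .ofNat 531, .ofNat 13566, .ofNat 399, .negSucc 40, .ofNat 4, .negSucc 4844]), ((2, 8), [.ofNat 12, .negSucc 3230, .negSucc 25443, .negSucc 968, .ofNat 171, .negSucc 18, .ofNat 1, .ofNat 0, .ofNat 0, .ofNat 789, .ofNat 36943, .ofNat 247, .negSucc 12, .ofNat 0, .negSucc 180132]), ((2, 14), [.ofNat 24, .negSucc 4841, .negSucc 30127, .negSucc 968, .ofNat 171, .negSucc 18, .ofNat 1, .ofNat 0, .ofNat 0, .ofNat 966, .ofNat 28469, .ofNat 133, .negSucc 6, .ofNat 0, .negSucc 76411]), ((3, 9), [.ofNat 12, .negSucc 2690, .negSucc 17723, .negSucc 152, .ofNat 18, .negSucc 0, .ofNat 0, .ofNat 0, .ofNat 0, .ofNat 729, .ofNat 28188, .ofNat 12, .ofNat 0, .ofNat 0, .negSucc 126602]), ((3,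 15), [.ofNat 24, .negSucc 4409, .negSucc 23567, .negSucc 152, .ofNat 18, .negSucc 0, .ofNat 0, .ofNat 0, .ofNat 0, .ofNat 918, .ofNat 22185, .ofNat 6, .ofNat 0, .ofNat 0, .negSucc 47699]), ((4, 10), [.ofNat 12, .negSucc 2258, .negSucc 12123, .negSucc 16, .ofNat 1, .ofNat 0, .ofNat 0, .ofNat 0, .ofNat 0, .ofNat 681, .ofNat 21400, .ofNat 0, .ofNat 0, .ofNat 0, .negSucc 87234]), ((4, 16), [.ofNat 24, .negSucc 4193, .negSucc 20383, .negSucc 17, .ofNat 1, .ofNat 0, .ofNat 0, .ofNat 0, .ofNat 0, .ofNat 894, .ofNat 19079, .ofNat 0, .ofNat 0, .ofNat 0, .negSucc 33919]), ((5, 11), [.ofNat 12, .negSucc 1934, .negSucc 8259, .negSucc 0, .ofNat 0, .ofNat 0, .ofNat 0, .ofNat 0, .ofNat 0, .ofNat 645, .ofNat 16435, .ofNat 0, .ofNat 0, .ofNat 0, .negSucc 59724]), ((6, 12), [.ofNat 12, .negSucc 1718, .negSucc 5843, .ofNat 0, .ofNat 0, .ofNat 0, .ofNat 0, .ofNat 0, .ofNat 0, .ofNat 621, .ofNat 13185, .ofNat 0, .ofNat 0, .ofNat 0, .negSucc 42344]), ((7, 13),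 [.ofNat 12, .negSucc 1610, .negSucc 4683, .ofNat 0, .ofNat 0, .ofNat 0, .ofNat 0, .ofNat 0, .ofNat 0, .ofNat 609, .ofNat 11578, .ofNat 0, .ofNat 0, .ofNat 0, .negSucc 33942])]
  tg := [((0, 6), .ofNat 34292160, [.negSucc 1238139464, .negSucc 2647419, .negSucc 414485, .ofNat 28226880, .ofNat 338722560, .ofNat 2389813632, .ofNat 13237426944, .ofNat 71847300672, .ofNat 240744190176, .ofNat 28882896, .negSucc 873151, .ofNat 15676416, .ofNat 250822656, .ofNat 1980453888, .negSucc 34495]), ((0, 12), .ofNat 54867456, [.ofNat 2011529433, .ofNat 4297490, .ofNat 673965, .negSucc 45909503, .negSucc 550914047, .negSucc 3886631423, .negSucc 21525678719, .negSucc 116807588351, .negSucc 391359765887, .negSucc 46934705, .ofNat 1418872, .negSucc 25474175, .negSucc 407586815, .negSucc 3218237567, .ofNat 56056]), ((0, 18), .ofNat 274337280, [.negSucc 152531444, .negSucc 308089, .negSucc 53936, .ofNat 3732480, .ofNat 44789760, .ofNat 314648064, .ofNat 1728978048,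 .ofNat 9259536384, .ofNat 30982476672, .ofNat 3610362, .negSucc 109143, .ofNat 1959552, .ofNat 31352832, .ofNat 247556736, .negSucc 4311]), ((1, 7), .ofNat 18289152, [.ofNat 8458356903, .ofNat 18091954, .ofNat 2830473, .negSucc 192720383, .negSucc 2312644607, .negSucc 16317656063, .negSucc 90396311039, .negSucc 490709270015, .negSucc 1644296008319, .negSucc 197292857, .ofNat 5964056, .negSucc 107122175, .negSucc 1713954815, .negSucc 13531577471, .ofNat 235592]), ((1, 13), .ofNat 91445760, [.negSucc 22817201954, .negSucc 48734829, .negSucc 7645706, .ofNat 520680960, .ofNat 6248171520, .ofNat 44085441024, .ofNat 244217006208, .ofNat 1325503678464, .ofNat 4440493757952, .ofNat 532394142, .negSucc 16092103, .ofNat 289360512, .ofNat 4629768192, .ofNat 36548257536, .negSucc 635431]), ((1, 19), .ofNat 45722880, [.ofNat 15292995, .ofNat 8800, .ofNat 8622, .negSucc 622079, .negSucc 7464959, .negSucc 52441343, .negSucc 288163007, .negSucc 1543256063,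 .negSucc 5163746111, .negSucc 417731, .ofNat 11984, .negSucc 326591, .negSucc 5225471, .negSucc 41259455, .ofNat 392]), ((2, 8), .ofNat 548674560, [.negSucc 1408891599374, .negSucc 3016827969, .negSucc 470945456, .ofNat 32055160320, .ofNat 384661923840, .ofNat 2714348289024, .ofNat 15038659335168, .ofNat 81647257112064, .ofNat 273607655836032, .ofNat 32853250122, .negSucc 993141463, .ofNat 17837148672, .ofNat 285302932992, .ofNat 2252031901056, .negSucc 39231751]), ((2, 14), .ofNat 109734912, [.ofNat 84985350285, .ofNat 182007062, .ofNat 28401291, .negSucc 1932802559, .negSucc 23193630719, .negSucc 163675966463, .negSucc 906750899711, .negSucc 4920305306111, .negSucc 16478453448575, .negSucc 1981599437, .ofNat 59899336, .negSucc 1076447231, .negSucc 17204866559, .negSucc 135712257407, .ofNat 2365720]), ((3, 9), .ofNat 548674560, [.ofNat 4434121403295, .ofNat 9505902370, .ofNat 1480198113, .negSucc 100685514239, .negSucc 1208226170879,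 .negSucc 8527101382655, .negSucc 47257436524031, .negSucc 256671372658175, .negSucc 860326822551167, .negSucc 103359505577, .ofNat 3124104536, .negSucc 56090216447, .negSucc 897169125887, .negSucc 7082154705023, .ofNat 123358088]), ((3, 15), .ofNat 548674560, [.negSucc 653892597734, .negSucc 1401401649, .negSucc 218135816, .ofNat 14808614400, .ofNat 177703372800, .ofNat 1254209577984, .ofNat 6948187319808, .ofNat 37693129711104, .ofNat 126207143217792, .ofNat 15237789882, .negSucc 460117783, .ofNat 8261471232, .ofNat 131909202432, .ofNat 1039789892736, .negSucc 18110791]), ((4, 10), .ofNat 137168640, [.negSucc 2266804777259, .negSucc 4870823569, .negSucc 754973882, .ofNat 51327509760, .ofNat 616067285760, .ofNat 4349912253696, .ofNat 24122459938752, .ofNat 131113635641856, .ofNat 439638041803968, .ofNat 52808605878, .negSucc 1596313095, .ofNat 28658121408, .ofNat 458484219648, .ofNat 3619835884224, .negSucc 63050847]), ((4, 16), .ofNat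 274337280, [.ofNat 173142731355, .ofNat 371350810, .ofNat 57640797, .negSucc 3904796159, .negSucc 46857553919, .negSucc 330738038783, .negSucc 1832239035647, .negSucc 9938274683903, .negSucc 33272120431871, .negSucc 4032456161, .ofNat 121641464, .negSucc 2180328191, .negSucc 34793805311, .negSucc 274167887615, .ofNat 4774952]), ((5, 11), .ofNat 137168640, [.ofNat 3201428198580, .ofNat 6916390270, .ofNat 1060490349, .negSucc 72132664319, .negSucc 866277815039, .negSucc 6121769591807, .negSucc 33980733734975, .negSucc 184873926037247, .negSucc 620170570805183, .negSucc 74478316793, .ofNat 2251667768, .negSucc 40427843903, .negSucc 646891225343, .negSucc 5108024400191, .ofNat 88973024]), ((6, 12), .ofNat 548674560, [.negSucc 11997161243624, .negSucc 26125369069, .negSucc 3941564102, .ofNat 268564999680, .ofNat 3227718067200, .ofNat 22831763798016, .ofNat 126860839967232, .ofNat 690816571716096, .ofNat 2318250147147648, .ofNat 278501262438,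 .negSucc 8419838055, .ofNat 151167679488, .ofNat 2418957209088, .ofNat 19101426148224, .negSucc 332713527]), ((7, 13), .ofNat 548674560, [.ofNat 4998844244505, .ofNat 10951357310, .ofNat 1631941119, .negSucc 111384046079, .negSucc 1339351925759, .negSucc 9480288688127, .negSucc 52708877093375, .negSucc 287179573298687, .negSucc 963923891220863, .negSucc 115845924053, .ofNat 3502132648, .negSucc 62872879103, .negSucc 1006057511423, .negSucc 7944289218431, .ofNat 138363064])]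

theorem NA_6_21 (l : ℕ) (hlp : l.Prime) (hl2 : l ≠ 2) (hl3 : l ≠ 3 ∨ (1 : ℤ) = 0)
    (hD : ¬ l ∣ ((21).factorial ^ 8)) : NUMA_stmt 1 1 l 21 :=
  NUB_one 1 (Or.inr rfl) 6 21 ((21).factorial ^ 8) rfl (by norm_num) CA_6_21 rfl
    (by decide +kernel) (by decide +kernel) (by decide +kernel) l hlp hl2 hl3 hD

/-- certificate, `m = 6`, `j = 22`, antisymmetric part -/
def CA_6_22 : OD.NUM_Cert where
  tri := [(0, 1), (0, 3), (0, 6), (0, 16), (0, 17), (0, 18), (0, 19), (0, 20), (0, 21), (0, 22), (1, 2), (1, 15), (1, 17), (1, 18), (1, 19), (1, 20), (1, 21), (2, 19)]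
  fre := []
  cols := [((0, 6), [.ofNat 12, .ofNat 1000, .negSucc 66605, .negSucc 82619, .ofNat 30702, .negSucc 9134, .ofNat 2100, .negSucc 350, .ofNat 38, .negSucc 1, .ofNat 1056, .negSucc 2980031, .negSucc 517439, .ofNat 157080, .negSucc 36959, .ofNat 6336, .negSucc 703, .ofNat 314160]), ((0, 12), [.ofNat 24, .ofNat 1640, .negSucc 75326, .negSucc 74822, .ofNat 26586, .negSucc 7524, .ofNat 1660, .negSucc 275, .ofNat 32, .negSucc 1, .ofNat 1320, .negSucc 1708079, .negSucc 268883, .ofNat 77770, .negSucc 18039, .ofNat 3300, .negSucc 439, .ofNat 97020]), ((0, 18), [.ofNat 36, .ofNat 2352, .negSucc 93176, .negSucc 74765, .ofNat 26352, .negSucc 7315, .ofNat 1544, .negSucc 236, .ofNat 26, .negSucc 1, .ofNat 792, .negSucc 682175, .negSucc 105335, .ofNat 29282, .negSucc 6247, .ofNat 1056, .negSucc 175, .ofNat 10164]), ((1, 7), [.ofNat 12, .ofNat 910, .negSucc 49265, .negSucc 20348, .ofNat 5985, .negSucc 1329, .ofNat 210, .negSucc 20, .ofNat 1,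 .ofNat 0, .ofNat 966, .negSucc 820373, .negSucc 92777, .ofNat 21315, .negSucc 3604, .ofNat 420, .negSucc 29, .ofNat 31605]), ((1, 13), [.ofNat 24, .ofNat 1532, .negSucc 55895, .negSucc 20348, .ofNat 5985, .negSucc 1329, .ofNat 210, .negSucc 20, .ofNat 1, .ofNat 0, .ofNat 1212, .negSucc 488411, .negSucc 53990, .ofNat 12096, .negSucc 1973, .ofNat 225, .negSucc 17, .ofNat 9324]), ((1, 19), [.ofNat 36, .ofNat 2298, .negSucc 81395, .negSucc 21317, .ofNat 6156, .negSucc 1348, .ofNat 211, .negSucc 20, .ofNat 1, .ofNat 0, .ofNat 738, .negSucc 166667, .negSucc 18125, .ofNat 4009, .negSucc 630, .ofNat 66, .negSucc 5, .ofNat 651]), ((2, 8), [.ofNat 12, .ofNat 832, .negSucc 35784, .negSucc 4844, .ofNat 1140, .negSucc 189, .ofNat 20, .negSucc 0, .ofNat 0, .ofNat 0, .ofNat 888, .negSucc 217055, .negSucc 15959, .ofNat 2660, .negSucc 279, .ofNat 14, .ofNat 0, .ofNat 2184]), ((2, 14), [.ofNat 24, .ofNat 1448, .negSucc 41734, .negSucc 4844, .ofNat 1140,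 .negSucc 189, .ofNat 20, .negSucc 0, .ofNat 0, .ofNat 0, .ofNat 1128, .negSucc 124031, .negSucc 9119, .ofNat 1520, .negSucc 159, .ofNat 8, .ofNat 0, .ofNat 616]), ((2, 20), [.ofNat 36, .ofNat 2280, .negSucc 77519, .negSucc 9689, .ofNat 2280, .negSucc 379, .ofNat 40, .negSucc 1, .ofNat 0, .ofNat 0, .ofNat 720, .negSucc 62015, .negSucc 4559, .ofNat 760, .negSucc 79, .ofNat 4, .ofNat 0, .ofNat 40]), ((3, 9), [.ofNat 12, .ofNat 766, .negSucc 25499, .negSucc 968, .ofNat 171, .negSucc 18, .ofNat 1, .ofNat 0, .ofNat 0, .ofNat 0, .ofNat 822, .negSucc 50387, .negSucc 2222, .ofNat 247, .negSucc 12, .ofNat 0, .ofNat 0, .ofNat 78]), ((3, 15), [.ofNat 24, .ofNat 1388, .negSucc 32129, .negSucc 968, .ofNat 171, .negSucc 18, .ofNat 1, .ofNat 0, .ofNat 0, .ofNat 0, .ofNat 1068, .negSucc 27134, .negSucc 1196, .ofNat 133, .negSucc 6, .ofNat 0, .ofNat 0, .ofNat 21]), ((4, 10), [.ofNat 12, .ofNat 712, .negSucc 17849, .negSucc 152, .ofNat 18, .negSucc 0, .ofNat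 0, .ofNat 0, .ofNat 0, .ofNat 0, .ofNat 768, .negSucc 9791, .negSucc 215, .ofNat 12, .ofNat 0, .ofNat 0, .ofNat 0, .ofNat 0]), ((4, 16), [.ofNat 24, .ofNat 1352, .negSucc 26570, .negSucc 153, .ofNat 18, .negSucc 0, .ofNat 0, .ofNat 0, .ofNat 0, .ofNat 0, .ofNat 1032, .negSucc 4959, .negSucc 107, .ofNat 6, .ofNat 0, .ofNat 0, .ofNat 0, .ofNat 0]), ((5, 11), [.ofNat 12, .ofNat 670, .negSucc 12375, .negSucc 16, .ofNat 1, .ofNat 0, .ofNat 0, .ofNat 0, .ofNat 0, .ofNat 0, .ofNat 726, .negSucc 1495, .negSucc 10, .ofNat 0, .ofNat 0, .ofNat 0, .ofNat 0, .ofNat 0]), ((5, 17), [.ofNat 24, .ofNat 1340, .negSucc 24751, .negSucc 33, .ofNat 2, .ofNat 0, .ofNat 0, .ofNat 0, .ofNat 0, .ofNat 0, .ofNat 1020, .negSucc 1359, .negSucc 9, .ofNat 0, .ofNat 0, .ofNat 0, .ofNat 0, .ofNat 0]), ((6, 12), [.ofNat 12, .ofNat 640, .negSucc 8720, .negSucc 0, .ofNat 0, .ofNat 0, .ofNat 0, .ofNat 0, .ofNat 0, .ofNat 0, .ofNat 696, .negSucc 159, .ofNat 0, .ofNat 0, .ofNat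 0, .ofNat 0, .ofNat 0, .ofNat 0]), ((7, 13), [.ofNat 12, .ofNat 622, .negSucc 6629, .ofNat 0, .ofNat 0, .ofNat 0, .ofNat 0, .ofNat 0, .ofNat 0, .ofNat 0, .ofNat 678, .negSucc 8, .ofNat 0, .ofNat 0, .ofNat 0, .ofNat 0, .ofNat 0, .ofNat 0]), ((8, 14), [.ofNat 12, .ofNat 616, .negSucc 5949, .ofNat 0, .ofNat 0, .ofNat 0, .ofNat 0, .ofNat 0, .ofNat 0, .ofNat 0, .ofNat 672, .ofNat 0, .ofNat 0, .ofNat 0, .ofNat 0, .ofNat 0, .ofNat 0, .ofNat 0])]
  tg := [((0, 6), .ofNat 49480200, [.ofNat 975733717, .negSucc 20969975, .negSucc 184877, .negSucc 2523581, .negSucc 43239635, .negSucc 310969745, .negSucc 1302807239, .negSucc 3180086027, .negSucc 5759694485, .ofNat 26421608403, .ofNat 161721, .ofNat 96390, .negSucc 7287083, .negSucc 62614943, .negSucc 305652689, .negSucc 1040703551, .negSucc 2579126507, .ofNat 0]), ((0, 12), .ofNat 222660900, [.negSucc 4166710981, .ofNat 89560896, .ofNat 789588, .ofNat 11524572, .ofNat 193851306, .ofNat 1385823816,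 .ofNat 5806308690, .ofNat 14316408288, .ofNat 26459575506, .negSucc 110955507587, .negSucc 700790, .negSucc 417689, .ofNat 31577364, .ofNat 271331424, .ofNat 1324494990, .ofNat 4509715392, .ofNat 11176214868, .ofNat 0]), ((0, 18), .ofNat 445321800, [.negSucc 448181488, .ofNat 9607992, .ofNat 84726, .negSucc 336905, .ofNat 1454112, .ofNat 27080082, .ofNat 112647780, .negSucc 12042323, .negSucc 1081900637, .negSucc 16106121350, .negSucc 53906, .negSucc 32129, .ofNat 2429028, .ofNat 20871648, .ofNat 101884230, .ofNat 346901184, .ofNat 859708836, .ofNat 0]), ((1, 7), .ofNat 3562574400, [.negSucc 934210144741, .ofNat 20076637101, .ofNat 177002928, .ofNat 2359465632, .ofNat 40709400336, .ofNat 293470161696, .ofNat 1229972642640, .ofNat 2994903667728, .ofNat 5404971163536, .negSucc 25366992649127, .negSucc 154046570, .negSucc 91827539, .ofNat 6942868884, .ofNat 59662479744, .ofNat 291280555440, .ofNat 992007658152, .ofNat 2459351863458, .ofNat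 0]), ((1, 13), .ofNat 23750496, [.ofNat 3103286522, .negSucc 66706214, .negSucc 588095, .negSucc 8785871, .negSucc 146973023, .negSucc 1049450255, .negSucc 4403883455, .negSucc 10941867215, .negSucc 20646069695, .ofNat 81186052176, .ofNat 524433, .ofNat 312732, .negSucc 23651963, .negSucc 203301503, .negSucc 992945519, .negSucc 3384025847, .negSucc 8400532013, .ofNat 0]), ((1, 19), .ofNat 209563200, [.ofNat 1511028778, .negSucc 32381858, .negSucc 285551, .ofNat 1907712, .ofNat 5051376, .negSucc 24344063, .negSucc 68841359, .ofNat 1152679248, .ofNat 7750508976, .ofNat 62285726952, .ofNat 172389, .ofNat 102060, .negSucc 7674155, .negSucc 65632895, .negSucc 318018959, .negSucc 1068740567, .negSucc 2577846221, .ofNat 0]), ((2, 8), .ofNat 6925644633600, [.ofNat 10672197577082594, .negSucc 229331222556206, .negSucc 2021885367695, .negSucc 25761705817823, .negSucc 450516914263151, .negSucc 3262365549423071, .negSucc 13680837408455279, .negSucc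 33135609206686895, .negSucc 59238616698040751, .ofNat 291760005064647096, .ofNat 1743220583097, .ofNat 1039337577180, .negSucc 78593969504987, .negSucc 675474468859007, .negSucc 3298378338798479, .negSucc 11236872778609463, .negSucc 27869005214288405, .ofNat 7125148800]), ((2, 14), .ofNat 3462822316800, [.negSucc 1468334343463441, .ofNat 31563099090951, .ofNat 278268859728, .ofNat 4225113932832, .ofNat 70504201989936, .ofNat 503811714187296, .ofNat 2122123147608240, .ofNat 5337262498519728, .ofNat 10406076723117936, .negSucc 37361237017672727, .negSucc 248745837920, .negSucc 148522788539, .ofNat 11244249076284, .ofNat 96735223638144, .ofNat 473048119005840, .ofNat 1616211124472952, .ofNat 4027505830328358, .negSucc 7125148799]), ((2, 20), .ofNat 37035532800, [.negSucc 876910359513, .ofNat 18790240467, .ofNat 165690576, .negSucc 1320519455, .negSucc 5985947087, .negSucc 9167719967, .negSucc 84179405519, .negSucc 1230867492623, .negSucc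 7325970937487, .negSucc 42832491975575, .negSucc 98221556, .negSucc 57497579, .ofNat 4283694828, .ofNat 36340472448, .ofNat 174165299280, .ofNat 567700368984, .ofNat 1283597501886, .ofNat 38102400]), ((3, 9), .ofNat 21375446400, [.negSucc 117307796752873, .ofNat 2520384274347, .ofNat 22221156816, .ofNat 258318340704, .ofNat 4647258178992, .ofNat 33952355567712, .ofNat 142418221429680, .ofNat 340079333506416, .ofNat 588047172097392, .negSucc 3274778336645015, .negSucc 18820340636, .negSucc 11222559179, .ofNat 848735785548, .ofNat 7295139427968, .ofNat 35625064643280, .ofNat 121344104075544, .ofNat 300752428359726, .ofNat 0]), ((3, 15), .ofNat 3053635200, [.ofNat 2861243233058, .negSucc 61487137598, .negSucc 542104271, .negSucc 7159092767, .negSucc 124324233263, .negSucc 901054204703, .negSucc 3800664419759, .negSucc 9336353121071, .negSucc 16808898590063, .ofNat 79343027888472, .ofNat 469698729, .ofNat 280696860, .negSucc 21265618715, .negSucc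 183059657855, .negSucc 895647177359, .negSucc 3056308081847, .negSucc 7579772481941, .ofNat 0]), ((4, 10), .ofNat 213754464, [.ofNat 2865057676670, .negSucc 61543298084, .negSucc 542613599, .negSucc 5514425999, .negSucc 103836522239, .negSucc 769293613295, .negSucc 3231528882623, .negSucc 7580763252719, .negSucc 12632644377359, .ofNat 81249147662400, .ofNat 448554435, .ofNat 267642900, .negSucc 20251474739, .negSucc 174107946095, .negSucc 850404399263, .negSucc 2897019828359, .negSucc 7181033440769, .ofNat 0]), ((4, 16), .ofNat 213754464, [.negSucc 289975191841, .ofNat 6230596101, .ofNat 54935928, .ofNat 696325032, .ofNat 12384510336, .ofNat 90911996568, .ofNat 387274508208, .ofNat 960750026208, .ofNat 1737084519576, .negSucc 8142153544907, .negSucc 46839470, .negSucc 28210139, .ofNat 2150358084, .ofNat 18572425200, .ofNat 91163117304, .ofNat 311912205192, .ofNat 774483194898, .ofNat 0]), ((5, 11), .ofNat 64774080, [.negSucc 1607428173105,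 .ofNat 34517873703, .ofNat 304347024, .ofNat 2446682976, .ofNat 50349340368, .ofNat 382404004128, .ofNat 1610301364560, .ofNat 3661118549424, .ofNat 5691639341808, .negSucc 46433414390903, .negSucc 242570432, .negSucc 144906299, .ofNat 10963925532, .ofNat 94253689152, .ofNat 460325481840, .ofNat 1568021600376, .ofNat 3886685897094, .ofNat 0]), ((5, 17), .ofNat 712514880, [.ofNat 1074778215014, .negSucc 23087951276, .negSucc 203607215, .negSucc 2532549023, .negSucc 45677131631, .negSucc 337799162591, .negSucc 1447507136879, .negSucc 3616030340495, .negSucc 6582521372111, .ofNat 30276373603176, .ofNat 168714987, .ofNat 104165460, .negSucc 7974010547, .negSucc 69014006207, .negSucc 339412323599, .negSucc 1163123504423, .negSucc 2890565560385, .ofNat 0]), ((6, 12), .ofNat 1068772320, [.ofNat 39733599052126, .negSucc 852916044152, .negSucc 7520397263, .negSucc 40777515935, .negSucc 1004112967967, .negSucc 7961059271807, .negSucc 33701653087199,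 .negSucc 72945979115183, .negSucc 99982085470847, .ofNat 1164747846330504, .ofNat 5724301863, .ofNat 3413298420, .negSucc 258133718051, .negSucc 2218514244911, .negSucc 10832113106639, .negSucc 36889365209255, .negSucc 91428602668073, .ofNat 0]), ((7, 13), .ofNat 1943222400, [.negSucc 91181333343477, .ofNat 1956527726709, .ofNat 17248922352, .ofNat 53517211488, .ofNat 1816749694224, .ofNat 15260898874464, .ofNat 65139778262160, .ofNat 132933421473552, .ofNat 151018523715024, .negSucc 2688276037092551, .negSucc 12520820738, .negSucc 7463220659, .ofNat 564248463156, .ofNat 4848571840896, .ofNat 23669461312560, .ofNat 80595550459368, .ofNat 199740123959922, .ofNat 0]), ((8, 14), .ofNat 2308548211200, [.ofNat 116903511357758594, .negSucc 2508023650787006, .negSucc 22108140174095, .negSucc 47949538153823, .negSucc 2078282895405551, .negSucc 18023388778891871, .negSucc 77304463585559279, .negSucc 153151873949931695, .negSucc 155211059505467951,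 .ofNat 3446357970633259896, .ofNat 15716689958697, .ofNat 9367849981980, .negSucc 708226759036187, .negSucc 6085632154670207, .negSucc 29707720157742479, .negSucc 101156347147988663, .negSucc 250712817384428405, .ofNat 7125148800])]

theorem NA_6_22 (l : ℕ) (hlp : l.Prime) (hl2 : l ≠ 2) (hl3 : l ≠ 3 ∨ (1 : ℤ) = 0)
    (hD : ¬ l ∣ ((22).factorial ^ 8)) : NUMA_stmt 1 1 l 22 :=
  NUB_one 1 (Or.inr rfl) 6 22 ((22).factorial ^ 8) rfl (by norm_num) CA_6_22 rfl
    (by decide +kernel) (by decide +kernel) (by decide +kernel) l hlp hl2 hl3 hD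

end Pool.Agent.OE
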