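import Pool.Agent.helper21.OE.NUB

/-!
# Project OE: certificates modulo `11` for the antisymmetric part, discriminant -8
-/

namespace Pool.Agent.OE

set_option maxRecDepth 100000

/-- certificate `NB_2_0_11_1`, rows -/
def NB_2_0_11_1_r : List (ℕ × ℕ × ℕ × ℕ) :=
  []

/-- certificate `NB_2_0_11_1`, coordinates -/
def NB_2_0_11_1_p : List (ℕ × ℕ) := []

/-- certificate `NB_2_0_11_1`, combinations -/
def NB_2_0_11_1_c : List (ℕ × ℕ × ℕ × ℕ × ℕ) :=
  []

theorem NB_2_0_11_1 : NUMA_stmt 2 0 11 1 :=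
  NUB_two 2 0 9 11 1 2 4 88 2 0 rfl rfl rfl rfl rfl (by norm_num) (by norm_num)
    (by norm_num) (by norm_num) NB_2_0_11_1_r NB_2_0_11_1_p NB_2_0_11_1_c (by decide +kernel) (by decide +kernel)

/-- certificate `NB_2_0_11_2`, rows -/
def NB_2_0_11_2_r : List (ℕ × ℕ × ℕ × ℕ) :=
  [(0, 2, 1, 2)]

/-- certificate `NB_2_0_11_2`, coordinates -/
def NB_2_0_11_2_p : List (ℕ × ℕ) := [(1, 3)]

/-- certificate `NB_2_0_11_2`, combinations -/
def NB_2_0_11_2_c : List (ℕ × ℕ × ℕ × ℕ × ℕ) :=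
  [(0, 2, 2, 10, 1)]

theorem NB_2_0_11_2 : NUMA_stmt 2 0 11 2 :=
  NUB_two 2 0 9 11 2 3 9 132 2 0 rfl rfl rfl rfl rfl (by norm_num) (by norm_num)
    (by norm_num) (by norm_num) NB_2_0_11_2_r NB_2_0_11_2_p NB_2_0_11_2_c (by decide +kernel) (by decide +kernel)

/-- certificate `NB_2_0_11_3`, rows -/
def NB_2_0_11_3_r : List (ℕ × ℕ × ℕ × ℕ) :=
  [(0, 2, 1, 2)]

/-- certificate `NB_2_0_11_3`, coordinates -/
def NB_2_0_11_3_p : List (ℕ × ℕ) := [(1, 3)]

/-- certificate `NB_2_0_11_3`, combinations -/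
def NB_2_0_11_3_c : List (ℕ × ℕ × ℕ × ℕ × ℕ) :=
  [(0, 2, 1, 3, 5)]

theorem NB_2_0_11_3 : NUMA_stmt 2 0 11 3 :=
  NUB_two 2 0 9 11 3 4 16 176 2 0 rfl rfl rfl rfl rfl (by norm_num) (by norm_num)
    (by norm_num) (by norm_num) NB_2_0_11_3_r NB_2_0_11_3_p NB_2_0_11_3_c (by decide +kernel) (by decide +kernel)

/-- certificate `NB_2_0_11_4`, rows -/
def NB_2_0_11_4_r : List (ℕ × ℕ × ℕ × ℕ) :=
  [(0, 2, 1, 2), (1, 2, 2, 1), (2, 0, 2, 1)]

/-- certificate `NB_2_0_11_4`, coordinates -/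
def NB_2_0_11_4_p : List (ℕ × ℕ) := [(1, 3), (1, 5), (2, 4)]

/-- certificate `NB_2_0_11_4`, combinations -/
def NB_2_0_11_4_c : List (ℕ × ℕ × ℕ × ℕ × ℕ) :=
  [(0, 2, 1, 2338, 264),
    (0, 4, 2, 6279, 198),
    (1, 3, 2, 7334, 231)]

theorem NB_2_0_11_4 : NUMA_stmt 2 0 11 4 :=
  NUB_two 2 0 9 11 4 5 25 220 2 0 rfl rfl rfl rfl rfl (by norm_num) (by norm_num)
    (by norm_num) (by norm_num) NB_2_0_11_4_r NB_2_0_11_4_p NB_2_0_11_4_c (by decide +kernel) (by decide +kernel)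

/-- certificate `NB_2_0_11_5`, rows -/
def NB_2_0_11_5_r : List (ℕ × ℕ × ℕ × ℕ) :=
  [(0, 2, 1, 2), (1, 2, 2, 1), (2, 0, 2, 1)]

/-- certificate `NB_2_0_11_5`, coordinates -/
def NB_2_0_11_5_p : List (ℕ × ℕ) := [(1, 3), (1, 5), (2, 4)]

/-- certificate `NB_2_0_11_5`, combinations -/
def NB_2_0_11_5_c : List (ℕ × ℕ × ℕ × ℕ × ℕ) :=
  [(0, 2, 1, 9382, 132),
    (0, 4, 1, 7365, 231),
    (1, 3, 1, 321, 330)]

theorem NB_2_0_11_5 : NUMA_stmt 2 0 11 5 :=
  NUB_two 2 0 9 11 5 6 36 264 2 0 rfl rfl rfl rfl rfl (by norm_num) (by norm_num)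
    (by norm_num) (by norm_num) NB_2_0_11_5_r NB_2_0_11_5_p NB_2_0_11_5_c (by decide +kernel) (by decide +kernel)

/-- certificate `NB_2_0_11_6`, rows -/
def NB_2_0_11_6_r : List (ℕ × ℕ × ℕ × ℕ) :=
  [(0, 1, 1, 3), (1, 0, 2, 1), (2, 2, 1, 3), (3, 0, 4, 1), (4, 0, 2, 4), (5, 2, 2, 3)]

/-- certificate `NB_2_0_11_6`, coordinates -/
def NB_2_0_11_6_p : List (ℕ × ℕ) := [(1, 3), (1, 5), (1, 7), (2, 4), (2, 6), (3, 5)]

/-- certificate `NB_2_0_11_6`, combinations -/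
def NB_2_0_11_6_c : List (ℕ × ℕ × ℕ × ℕ × ℕ) :=
  [(0, 2, 1, 3478757, 2057),
    (0, 4, 1, 138676514, 304157826),
    (0, 6, 2, 109322248, 141795424),
    (1, 3, 1, 270666819, 239213831),
    (1, 5, 2, 272666724, 239212808),
    (2, 4, 2, 304293930, 44371242)]

theorem NB_2_0_11_6 : NUMA_stmt 2 0 11 6 :=
  NUB_two 2 0 9 11 6 7 49 308 2 0 rfl rfl rfl rfl rfl (by norm_num) (by norm_num)
    (by norm_num) (by norm_num) NB_2_0_11_6_r NB_2_0_11_6_p NB_2_0_11_6_c (by decide +kernel) (by decide +kernel)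

/-- certificate `NB_2_0_11_7`, rows -/
def NB_2_0_11_7_r : List (ℕ × ℕ × ℕ × ℕ) :=
  [(0, 0, 1, 2), (1, 1, 1, 3), (2, 2, 1, 2), (3, 1, 3, 2), (4, 2, 3, 2), (5, 0, 2, 3)]

/-- certificate `NB_2_0_11_7`, coordinates -/
def NB_2_0_11_7_p : List (ℕ × ℕ) := [(1, 3), (1, 5), (1, 7), (2, 4), (2, 6), (3, 5)]

/-- certificate `NB_2_0_11_7`, combinations -/
def NB_2_0_11_7_c : List (ℕ × ℕ × ℕ × ℕ × ℕ) :=
  [(0, 2, 1, 206569770, 306221351),
    (0, 4, 1, 236260488, 339873993),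
    (0, 6, 1, 307274026, 104008934),
    (1, 3, 1, 274866212, 212083009),
    (1, 5, 1, 38830244, 173343914),
    (2, 4, 1, 236031305, 168922154)]

theorem NB_2_0_11_7 : NUMA_stmt 2 0 11 7 :=
  NUB_two 2 0 9 11 7 8 64 352 2 0 rfl rfl rfl rfl rfl (by norm_num) (by norm_num)
    (by norm_num) (by norm_num) NB_2_0_11_7_r NB_2_0_11_7_p NB_2_0_11_7_c (by decide +kernel) (by decide +kernel)

/-- certificate `NB_2_0_11_8`, rows -/
def NB_2_0_11_8_r : List (ℕ × ℕ × ℕ × ℕ) :=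
  [(0, 1, 3, 4), (1, 1, 2, 2), (2, 2, 4, 4), (3, 2, 2, 4), (4, 0, 3, 4), (5, 2, 2, 1), (6, 0, 1, 4), (7, 1, 3, 2), (8, 0, 3, 2), (9, 0, 4, 2), (10, 2, 4, 1)]

/-- certificate `NB_2_0_11_8`, coordinates -/
def NB_2_0_11_8_p : List (ℕ × ℕ) := [(1, 3), (1, 5), (1, 7), (1, 9), (2, 4), (2, 6), (2, 8), (3, 5), (3, 7), (4, 6)]

/-- certificate `NB_2_0_11_8`, combinations -/
def NB_2_0_11_8_c : List (ℕ × ℕ × ℕ × ℕ × ℕ) :=
  [(0, 2, 1, 3702200708926756, 11259205327756517),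
    (0, 4, 1, 11613082726081705, 4503840280086851),
    (0, 6, 1, 1450497564449866, 7881333875574023),
    (0, 8, 2, 10280747588190250, 9007302434826471),
    (1, 3, 1, 5845145656272167, 2252074725182534),
    (1, 5, 1, 11373359149420545, 4503771761846468),
    (1, 7, 2, 10281740500536577, 9007302535318628),
    (2, 4, 1, 2429027454386441, 3377768708575331),
    (2, 6, 2, 5878127885685024, 2252143444821024),
    (3, 5, 2, 10282876784477255, 9007543019898086)]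

theorem NB_2_0_11_8 : NUMA_stmt 2 0 11 8 :=
  NUB_two 2 0 9 11 8 9 81 396 2 0 rfl rfl rfl rfl rfl (by norm_num) (by norm_num)
    (by norm_num) (by norm_num) NB_2_0_11_8_r NB_2_0_11_8_p NB_2_0_11_8_c (by decide +kernel) (by decide +kernel)

/-- certificate `NB_2_0_11_9`, rows -/
def NB_2_0_11_9_r : List (ℕ × ℕ × ℕ × ℕ) :=
  [(0, 0, 1, 2), (1, 1, 1, 3), (2, 2, 1, 2), (3, 1, 3, 2), (4, 2, 3, 2), (5, 0, 2, 3), (6, 2, 1, 3), (7, 0, 3, 1), (8, 2, 2, 2), (9, 1, 1, 2)]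

/-- certificate `NB_2_0_11_9`, coordinates -/
def NB_2_0_11_9_p : List (ℕ × ℕ) := [(1, 3), (1, 5), (1, 7), (1, 9), (2, 4), (2, 6), (2, 8), (3, 5), (3, 7), (4, 6)]

/-- certificate `NB_2_0_11_9`, combinations -/
def NB_2_0_11_9_c : List (ℕ × ℕ × ℕ × ℕ × ℕ) :=
  [(0, 2, 1, 317007519327365, 321062770477248),
    (0, 4, 1, 70647189669991, 107761812709440),
    (0, 6, 1, 246361815784515, 112159857188928),
    (0, 8, 1, 140808529580098, 257296458321952),
    (1, 3, 1, 35532506891402, 1110249046048),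
    (1, 5, 1, 281657584263490, 112153413722368),
    (1, 7, 1, 316937550767203, 7699802620160),
    (2, 4, 1, 352094209059114, 354044894020896),
    (2, 6, 1, 35193032377606, 358442942563616),
    (3, 5, 1, 246432578837638, 43990132205632)]

theorem NB_2_0_11_9 : NUMA_stmt 2 0 11 9 :=
  NUB_two 2 0 9 11 9 10 100 440 2 0 rfl rfl rfl rfl rfl (by norm_num) (by norm_num)
    (by norm_num) (by norm_num) NB_2_0_11_9_r NB_2_0_11_9_p NB_2_0_11_9_c (by decide +kernel) (by decide +kernel)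

/-- certificate `NB_2_0_11_10`, rows -/
def NB_2_0_11_10_r : List (ℕ × ℕ × ℕ × ℕ) :=
  [(0, 1, 3, 1), (1, 1, 4, 2), (2, 0, 3, 5), (3, 0, 4, 1), (4, 1, 3, 5), (5, 2, 4, 5), (6, 1, 3, 3), (7, 1, 1, 2), (8, 0, 5, 1), (9, 2, 4, 3), (10, 2, 2, 3), (11, 1, 1, 3), (12, 0, 4, 5), (13, 0, 1, 2), (14, 0, 2, 3), (15, 1, 5, 3), (16, 2, 4, 2), (17, 2, 4, 1), (18, 1, 1, 5)]

/-- certificate `NB_2_0_11_10`, coordinates -/
def NB_2_0_11_10_p : List (ℕ × ℕ) := [(1, 3), (1, 5), (1, 7), (1, 9), (1, 11), (2, 4), (2, 6), (2, 8), (2, 10), (3, 5), (3, 7), (3, 9), (4, 6), (4, 8), (5, 7)]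

/-- certificate `NB_2_0_11_10`, combinations -/
def NB_2_0_11_10_c : List (ℕ × ℕ × ℕ × ℕ × ℕ) :=
  [(0, 2, 1, 4068151265527466991106171049, 12691681043931722108729557288),
    (0, 4, 1, 5346023570289428956324077670, 7593489746952183160930041952),
    (0, 6, 1, 10023546566028787639474489514, 1637187791467846552390729866),
    (0, 8, 1, 12583749076289968710508092418, 5039067268902171143163609289),
    (0, 10, 2, 6239651107488519360749966561, 2756501984597530733099089921),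
    (1, 3, 1, 6588729584090857833936038213, 2635571623637776857176211682),
    (1, 5, 1, 239601078839664019235903717, 359390979144803902127341861),
    (1, 7, 1, 12735017102121371048886994154, 5272201057214594127646163239),
    (1, 9, 2, 3833813277261175313208147973, 12778383692373405846477996100),
    (2, 4, 1, 2835009225703061541243456618, 4033089871246375965927932072),
    (2, 6, 1, 2675584497740196703485821251, 3793949232378146274082291715),
    (2, 8, 2, 1437494595952047386092774599, 8745482715924161783284105384),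
    (3, 5, 1, 5349572427508980791993539690, 7592167484191738567955841192),
    (3, 7, 2, 11186535495208057416500579338, 10177039781053394765341524192),
    (4, 6, 2, 12468984950943000253155288105, 5073030528426187764566851907)]

theorem NB_2_0_11_10 : NUMA_stmt 2 0 11 10 :=
  NUB_two 2 0 9 11 10 11 121 484 2 0 rfl rfl rfl rfl rfl (by norm_num) (by norm_num)
    (by norm_num) (by norm_num) NB_2_0_11_10_r NB_2_0_11_10_p NB_2_0_11_10_c (by decide +kernel) (by decide +kernel)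

end Pool.Agent.OE
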