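import Pool.Agent.helper21.OE.NUB

/-!
# Project OE: certificates modulo `13` for the antisymmetric part, discriminant -8
-/

namespace Pool.Agent.OE

set_option maxRecDepth 100000

/-- certificate `NB_2_0_13_1`, rows -/
def NB_2_0_13_1_r : List (ℕ × ℕ × ℕ × ℕ) :=
  []

/-- certificate `NB_2_0_13_1`, coordinates -/
def NB_2_0_13_1_p : List (ℕ × ℕ) := []

/-- certificate `NB_2_0_13_1`, combinations -/
def NB_2_0_13_1_c : List (ℕ × ℕ × ℕ × ℕ × ℕ) :=
  []

theorem NB_2_0_13_1 : NUMA_stmt 2 0 13 1 :=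
  NUB_two 2 0 11 13 1 2 4 88 2 0 rfl rfl rfl rfl rfl (by norm_num) (by norm_num)
    (by norm_num) (by norm_num) NB_2_0_13_1_r NB_2_0_13_1_p NB_2_0_13_1_c (by decide +kernel) (by decide +kernel)

/-- certificate `NB_2_0_13_2`, rows -/
def NB_2_0_13_2_r : List (ℕ × ℕ × ℕ × ℕ) :=
  [(0, 2, 1, 2)]

/-- certificate `NB_2_0_13_2`, coordinates -/
def NB_2_0_13_2_p : List (ℕ × ℕ) := [(1, 3)]

/-- certificate `NB_2_0_13_2`, combinations -/
def NB_2_0_13_2_c : List (ℕ × ℕ × ℕ × ℕ × ℕ) :=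
  [(0, 2, 2, 1, 12)]

theorem NB_2_0_13_2 : NUMA_stmt 2 0 13 2 :=
  NUB_two 2 0 11 13 2 3 9 132 2 0 rfl rfl rfl rfl rfl (by norm_num) (by norm_num)
    (by norm_num) (by norm_num) NB_2_0_13_2_r NB_2_0_13_2_p NB_2_0_13_2_c (by decide +kernel) (by decide +kernel)

/-- certificate `NB_2_0_13_3`, rows -/
def NB_2_0_13_3_r : List (ℕ × ℕ × ℕ × ℕ) :=
  [(0, 2, 1, 2)]

/-- certificate `NB_2_0_13_3`, coordinates -/
def NB_2_0_13_3_p : List (ℕ × ℕ) := [(1, 3)]

/-- certificate `NB_2_0_13_3`, combinations -/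
def NB_2_0_13_3_c : List (ℕ × ℕ × ℕ × ℕ × ℕ) :=
  [(0, 2, 1, 8, 3)]

theorem NB_2_0_13_3 : NUMA_stmt 2 0 13 3 :=
  NUB_two 2 0 11 13 3 4 16 176 2 0 rfl rfl rfl rfl rfl (by norm_num) (by norm_num)
    (by norm_num) (by norm_num) NB_2_0_13_3_r NB_2_0_13_3_p NB_2_0_13_3_c (by decide +kernel) (by decide +kernel)

/-- certificate `NB_2_0_13_4`, rows -/
def NB_2_0_13_4_r : List (ℕ × ℕ × ℕ × ℕ) :=
  [(0, 2, 1, 2), (1, 2, 2, 1), (2, 0, 2, 1)]

/-- certificate `NB_2_0_13_4`, coordinates -/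
def NB_2_0_13_4_p : List (ℕ × ℕ) := [(1, 3), (1, 5), (2, 4)]

/-- certificate `NB_2_0_13_4`, combinations -/
def NB_2_0_13_4_c : List (ℕ × ℕ × ℕ × ℕ × ℕ) :=
  [(0, 2, 1, 1378, 330),
    (0, 4, 2, 10377, 198),
    (1, 3, 2, 11370, 165)]

theorem NB_2_0_13_4 : NUMA_stmt 2 0 13 4 :=
  NUB_two 2 0 11 13 4 5 25 220 2 0 rfl rfl rfl rfl rfl (by norm_num) (by norm_num)
    (by norm_num) (by norm_num) NB_2_0_13_4_r NB_2_0_13_4_p NB_2_0_13_4_c (by decide +kernel) (by decide +kernel)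

/-- certificate `NB_2_0_13_5`, rows -/
def NB_2_0_13_5_r : List (ℕ × ℕ × ℕ × ℕ) :=
  [(0, 2, 1, 2), (1, 2, 2, 1), (2, 0, 2, 1)]

/-- certificate `NB_2_0_13_5`, coordinates -/
def NB_2_0_13_5_p : List (ℕ × ℕ) := [(1, 3), (1, 5), (2, 4)]

/-- certificate `NB_2_0_13_5`, combinations -/
def NB_2_0_13_5_c : List (ℕ × ℕ × ℕ × ℕ × ℕ) :=
  [(0, 2, 1, 230, 165),
    (0, 4, 1, 6343, 264),
    (1, 3, 1, 6405, 363)]

theorem NB_2_0_13_5 : NUMA_stmt 2 0 13 5 :=
  NUB_two 2 0 11 13 5 6 36 264 2 0 rfl rfl rfl rfl rfl (by norm_num) (by norm_num)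
    (by norm_num) (by norm_num) NB_2_0_13_5_r NB_2_0_13_5_p NB_2_0_13_5_c (by decide +kernel) (by decide +kernel)

/-- certificate `NB_2_0_13_6`, rows -/
def NB_2_0_13_6_r : List (ℕ × ℕ × ℕ × ℕ) :=
  [(0, 2, 3, 3), (1, 0, 3, 2), (2, 1, 2, 2), (3, 1, 3, 2), (4, 0, 1, 2), (5, 2, 2, 1)]

/-- certificate `NB_2_0_13_6`, coordinates -/
def NB_2_0_13_6_p : List (ℕ × ℕ) := [(1, 3), (1, 5), (1, 7), (2, 4), (2, 6), (3, 5)]

/-- certificate `NB_2_0_13_6`, combinations -/
def NB_2_0_13_6_c : List (ℕ × ℕ × ℕ × ℕ × ℕ) :=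
  [(0, 2, 1, 71705962, 268575755),
    (0, 4, 1, 34614658, 67280901),
    (0, 6, 2, 239153346, 201593863),
    (1, 3, 1, 112303105, 235111427),
    (1, 5, 2, 305209638, 335719432),
    (2, 4, 2, 335616328, 402989058)]

theorem NB_2_0_13_6 : NUMA_stmt 2 0 13 6 :=
  NUB_two 2 0 11 13 6 7 49 308 2 0 rfl rfl rfl rfl rfl (by norm_num) (by norm_num)
    (by norm_num) (by norm_num) NB_2_0_13_6_r NB_2_0_13_6_p NB_2_0_13_6_c (by decide +kernel) (by decide +kernel)

/-- certificate `NB_2_0_13_7`, rows -/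
def NB_2_0_13_7_r : List (ℕ × ℕ × ℕ × ℕ) :=
  [(0, 2, 3, 3), (1, 0, 3, 2), (2, 1, 2, 2), (3, 1, 3, 2), (4, 0, 1, 2), (5, 2, 2, 1)]

/-- certificate `NB_2_0_13_7`, coordinates -/
def NB_2_0_13_7_p : List (ℕ × ℕ) := [(1, 3), (1, 5), (1, 7), (2, 4), (2, 6), (3, 5)]

/-- certificate `NB_2_0_13_7`, combinations -/
def NB_2_0_13_7_c : List (ℕ × ℕ × ℕ × ℕ × ℕ) :=
  [(0, 2, 1, 275984457, 140646476),
    (0, 4, 1, 238097700, 414291208),
    (0, 6, 1, 379757632, 345180262),
    (1, 3, 1, 35784800, 270868648),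
    (1, 5, 1, 240190560, 135434535),
    (2, 4, 1, 277027075, 172208460)]

theorem NB_2_0_13_7 : NUMA_stmt 2 0 13 7 :=
  NUB_two 2 0 11 13 7 8 64 352 2 0 rfl rfl rfl rfl rfl (by norm_num) (by norm_num)
    (by norm_num) (by norm_num) NB_2_0_13_7_r NB_2_0_13_7_p NB_2_0_13_7_c (by decide +kernel) (by decide +kernel)

/-- certificate `NB_2_0_13_8`, rows -/
def NB_2_0_13_8_r : List (ℕ × ℕ × ℕ × ℕ) :=
  [(0, 1, 1, 3), (1, 0, 2, 1), (2, 2, 1, 3), (3, 0, 4, 1), (4, 0, 2, 4), (5, 2, 2, 3), (6, 0, 2, 3), (7, 2, 4, 2), (8, 1, 3, 3), (9, 1, 4, 1)]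

/-- certificate `NB_2_0_13_8`, coordinates -/
def NB_2_0_13_8_p : List (ℕ × ℕ) := [(1, 3), (1, 5), (1, 7), (1, 9), (2, 4), (2, 6), (2, 8), (3, 5), (3, 7), (4, 6)]

/-- certificate `NB_2_0_13_8`, combinations -/
def NB_2_0_13_8_c : List (ℕ × ℕ × ℕ × ℕ × ℕ) :=
  [(0, 2, 1, 217944132234280, 431386817205252),
    (0, 4, 1, 423483910951946, 216706936998915),
    (0, 6, 1, 395070767568010, 434719611168769),
    (0, 8, 2, 258669983901769, 180320074730506),
    (1, 3, 1, 358546118382852, 254124725645321),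
    (1, 5, 1, 389269030086983, 252063309111304),
    (1, 7, 2, 47691722822881, 83666365589513),
    (2, 4, 1, 423494656827488, 223304006765571),
    (2, 6, 2, 392877972983915, 424652006501379),
    (3, 5, 2, 213517928144008, 359781122441217)]

theorem NB_2_0_13_8 : NUMA_stmt 2 0 13 8 :=
  NUB_two 2 0 11 13 8 9 81 396 2 0 rfl rfl rfl rfl rfl (by norm_num) (by norm_num)
    (by norm_num) (by norm_num) NB_2_0_13_8_r NB_2_0_13_8_p NB_2_0_13_8_c (by decide +kernel) (by decide +kernel)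

/-- certificate `NB_2_0_13_9`, rows -/
def NB_2_0_13_9_r : List (ℕ × ℕ × ℕ × ℕ) :=
  [(0, 2, 3, 3), (1, 0, 3, 2), (2, 1, 2, 2), (3, 1, 3, 2), (4, 0, 1, 2), (5, 2, 2, 1), (6, 1, 2, 3), (7, 2, 3, 1), (8, 2, 1, 2), (9, 0, 3, 1)]

/-- certificate `NB_2_0_13_9`, coordinates -/
def NB_2_0_13_9_p : List (ℕ × ℕ) := [(1, 3), (1, 5), (1, 7), (1, 9), (2, 4), (2, 6), (2, 8), (3, 5), (3, 7), (4, 6)]

/-- certificate `NB_2_0_13_9`, combinations -/
def NB_2_0_13_9_c : List (ℕ × ℕ × ℕ × ℕ × ℕ) :=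
  [(0, 2, 1, 425863357411392, 426961903200522),
    (0, 4, 1, 259489074020704, 8798509011969),
    (0, 6, 1, 355421636304128, 247672915367210),
    (0, 8, 1, 360925474593952, 246576591509797),
    (1, 3, 1, 357344774258976, 13205279943688),
    (1, 5, 1, 176336564261248, 151048835933408),
    (1, 7, 1, 181741886278688, 119065095998534),
    (2, 4, 1, 424657409846400, 388372724976743),
    (2, 6, 1, 216642482349216, 321100590356679),
    (3, 5, 1, 214485603193920, 181496030830979)]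

theorem NB_2_0_13_9 : NUMA_stmt 2 0 13 9 :=
  NUB_two 2 0 11 13 9 10 100 440 2 0 rfl rfl rfl rfl rfl (by norm_num) (by norm_num)
    (by norm_num) (by norm_num) NB_2_0_13_9_r NB_2_0_13_9_p NB_2_0_13_9_c (by decide +kernel) (by decide +kernel)

/-- certificate `NB_2_0_13_10`, rows -/
def NB_2_0_13_10_r : List (ℕ × ℕ × ℕ × ℕ) :=
  [(0, 1, 3, 1), (1, 1, 4, 2), (2, 0, 3, 5), (3, 1, 5, 3), (4, 0, 4, 1), (5, 1, 3, 5), (6, 2, 4, 2), (7, 2, 4, 5), (8, 1, 3, 3), (9, 0, 5, 2), (10, 2, 3, 2), (11, 2, 1, 5), (12, 0, 4, 5), (13, 0, 1, 2), (14, 0, 3, 4)]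

/-- certificate `NB_2_0_13_10`, coordinates -/
def NB_2_0_13_10_p : List (ℕ × ℕ) := [(1, 3), (1, 5), (1, 7), (1, 9), (1, 11), (2, 4), (2, 6), (2, 8), (2, 10), (3, 5), (3, 7), (3, 9), (4, 6), (4, 8), (5, 7)]

/-- certificate `NB_2_0_13_10`, combinations -/
def NB_2_0_13_10_c : List (ℕ × ℕ × ℕ × ℕ × ℕ) :=
  [(0, 2, 1, 11893622867738905027979, 335522814260052261),
    (0, 4, 1, 1489833898453632037001, 121598572113428680),
    (0, 6, 1, 9887569954746599318604, 221815890352635970),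
    (0, 8, 1, 9455372722127845403655, 154260392938537095),
    (0, 10, 2, 13332434041078478447712, 294996058046660936),
    (1, 3, 1, 1593576495232757128, 224054124512411980),
    (1, 5, 1, 83419376562804721029, 7889074413305960),
    (1, 7, 1, 2657640821338631406758, 191405465681526789),
    (1, 9, 2, 7387209434055503316042, 85570869304557702),
    (2, 4, 1, 7096343366799479646530, 157625999910338763),
    (2, 6, 1, 8379806171797639079042, 441359669857026279),
    (2, 8, 2, 8271065878117041383522, 224059795077202144),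
    (3, 5, 1, 11888966040489891470628, 154255197940842785),
    (3, 7, 2, 224932356272646563049, 406462382240432320),
    (4, 6, 2, 3922321292347340795977, 398578750658412834)]

theorem NB_2_0_13_10 : NUMA_stmt 2 0 13 10 :=
  NUB_two 2 0 11 13 10 11 121 484 2 0 rfl rfl rfl rfl rfl (by norm_num) (by norm_num)
    (by norm_num) (by norm_num) NB_2_0_13_10_r NB_2_0_13_10_p NB_2_0_13_10_c (by decide +kernel) (by decide +kernel)

/-- certificate `NB_2_0_13_11`, rows -/
def NB_2_0_13_11_r : List (ℕ × ℕ × ℕ × ℕ) :=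
  [(0, 1, 4, 3), (1, 1, 3, 2), (2, 0, 2, 1), (3, 1, 2, 3), (4, 1, 1, 2), (5, 2, 4, 3), (6, 0, 3, 1), (7, 2, 2, 4), (8, 1, 3, 1), (9, 0, 3, 4), (10, 1, 1, 3), (11, 0, 2, 4), (12, 0, 3, 2), (13, 2, 4, 2), (14, 2, 4, 1)]

/-- certificate `NB_2_0_13_11`, coordinates -/
def NB_2_0_13_11_p : List (ℕ × ℕ) := [(1, 3), (1, 5), (1, 7), (1, 9), (1, 11), (2, 4), (2, 6), (2, 8), (2, 10), (3, 5), (3, 7), (3, 9), (4, 6), (4, 8), (5, 7)]

/-- certificate `NB_2_0_13_11`, combinations -/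
def NB_2_0_13_11_c : List (ℕ × ℕ × ℕ × ℕ × ℕ) :=
  [(0, 2, 1, 12217696270802108881030, 7241616056946282040488),
    (0, 4, 1, 2774225468367663443306, 9889948877768832881862),
    (0, 6, 1, 8533143789897048529985, 13355453977195371888906),
    (0, 8, 1, 5952966182951624638688, 9567383306436079694120),
    (0, 10, 1, 2702595758141376372809, 7458474617764230273383),
    (1, 3, 1, 4728419439826406805861, 2744097442457614389574),
    (1, 5, 1, 42990448768616636588, 5953838789215141466444),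
    (1, 7, 1, 148878062756542219397, 7125415546162510145925),
    (1, 9, 1, 3553709653303276771656, 5056899672231915131974),
    (2, 4, 1, 2509912617170728288296, 2558632595278756159720),
    (2, 6, 1, 14395638243665204453636, 2696720597001782527083),
    (2, 8, 1, 1187555487977593541984, 1379044015244057841799),
    (3, 5, 1, 14180148700038613304356, 10971345306959838613804),
    (3, 7, 1, 13061712534283320863074, 13357933386098480092390),
    (4, 6, 1, 3767000055581874884929, 10921961251524322763813)]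

theorem NB_2_0_13_11 : NUMA_stmt 2 0 13 11 :=
  NUB_two 2 0 11 13 11 12 144 528 2 0 rfl rfl rfl rfl rfl (by norm_num) (by norm_num)
    (by norm_num) (by norm_num) NB_2_0_13_11_r NB_2_0_13_11_p NB_2_0_13_11_c (by decide +kernel) (by decide +kernel)

/-- certificate `NB_2_0_13_12`, rows -/
def NB_2_0_13_12_r : List (ℕ × ℕ × ℕ × ℕ) :=
  [(0, 0, 2, 1), (1, 1, 6, 2), (2, 2, 4, 2), (3, 2, 5, 4), (4, 1, 4, 6), (5, 1, 3, 1), (6, 2, 3, 2), (7, 0, 6, 2), (8, 2, 4, 3), (9, 0, 4, 5), (10, 2, 2, 3), (11, 1, 5, 1), (12, 2, 5, 6), (13, 0, 6, 3), (14, 2, 5, 2), (15, 0, 5, 2), (16, 1, 6, 1), (17, 0, 1, 6), (18, 0, 4, 3), (19, 0, 5, 3), (20, 0, 1, 4)]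

/-- certificate `NB_2_0_13_12`, coordinates -/
def NB_2_0_13_12_p : List (ℕ × ℕ) := [(1, 3), (1, 5), (1, 7), (1, 9), (1, 11), (1, 13), (2, 4), (2, 6), (2, 8), (2, 10), (2, 12), (3, 5), (3, 7), (3, 9), (3, 11), (4, 6), (4, 8), (4, 10), (5, 7), (5, 9), (6, 8)]

/-- certificate `NB_2_0_13_12`, combinations -/
def NB_2_0_13_12_c : List (ℕ × ℕ × ℕ × ℕ × ℕ) :=
  [(0, 2, 1, 11536452962954987548350913512457, 12993607758205994239072),
    (0, 4, 1, 14385331526770869118465935248385, 7260647802252611707804896),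
    (0, 6, 1, 15660304374420990082123515930880, 10880346225108224131271872),
    (0, 8, 1, 14431955009217123574158514684993, 13302912374296295771279744),
    (0, 10, 1, 2535538501008340332612473063785, 13309991346098390017880224),
    (0, 12, 2, 1430016707506388293083931546955, 4839246575547243091406208),
    (1, 3, 1, 13006273390909109548829121809794, 14509484975272240916571392),
    (1, 5, 1, 3889734661435116056301059382658, 1218373295273646784490848),
    (1, 7, 1, 1712433868149461129222787438722, 2426121617243799952856448),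
    (1, 9, 1, 10271504458540571393822202072200, 7261827537061301995153536),
    (1, 11, 2, 11457415847417676447861067327489, 8463675499499353830106144),
    (2, 4, 1, 11499431829351161834999427115112, 2424936462358453400214912),
    (2, 6, 1, 13076751357941271488927863476620, 12099890438266187262499840),
    (2, 8, 1, 6431497871522070071217213255687, 14180047297542298577952),
    (2, 10, 2, 10586955179600002884836871182726, 7253558556601772668062752),
    (3, 5, 1, 4131168367815310550434779991270, 8466034331866189636314336),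
    (3, 7, 1, 1677885111708491601485114677417, 6052902796060978545170816),
    (3, 9, 2, 8993641686348469642150268903776, 8462484317675108705538272),
    (4, 6, 1, 128985326235972498658908340290, 10880334765696767924212000),
    (4, 8, 2, 13946683597668418583144508162120, 8464841958825544217986272),
    (5, 7, 2, 8956698116457752921334691867914, 7258280746316161273373920)]

theorem NB_2_0_13_12 : NUMA_stmt 2 0 13 12 :=
  NUB_two 2 0 11 13 12 13 169 572 2 0 rfl rfl rfl rfl rfl (by norm_num) (by norm_num)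
    (by norm_num) (by norm_num) NB_2_0_13_12_r NB_2_0_13_12_p NB_2_0_13_12_c (by decide +kernel) (by decide +kernel)

end Pool.Agent.OE
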