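import Pool.Agent.helper21.OE.NUB

/-!
# Project OE: certificates modulo `5` for the antisymmetric part, discriminant -8
-/

namespace Pool.Agent.OE

set_option maxRecDepth 100000

/-- certificate `NB_2_0_5_1`, rows -/
def NB_2_0_5_1_r : List (ℕ × ℕ × ℕ × ℕ) :=
  []

/-- certificate `NB_2_0_5_1`, coordinates -/
def NB_2_0_5_1_p : List (ℕ × ℕ) := []

/-- certificate `NB_2_0_5_1`, combinations -/
def NB_2_0_5_1_c : List (ℕ × ℕ × ℕ × ℕ × ℕ) :=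
  []

theorem NB_2_0_5_1 : NUMA_stmt 2 0 5 1 :=
  NUB_two 2 0 3 5 1 2 4 88 2 0 rfl rfl rfl rfl rfl (by norm_num) (by norm_num)
    (by norm_num) (by norm_num) NB_2_0_5_1_r NB_2_0_5_1_p NB_2_0_5_1_c (by decide +kernel) (by decide +kernel)

/-- certificate `NB_2_0_5_2`, rows -/
def NB_2_0_5_2_r : List (ℕ × ℕ × ℕ × ℕ) :=
  [(0, 2, 1, 2)]

/-- certificate `NB_2_0_5_2`, coordinates -/
def NB_2_0_5_2_p : List (ℕ × ℕ) := [(1, 3)]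

/-- certificate `NB_2_0_5_2`, combinations -/
def NB_2_0_5_2_c : List (ℕ × ℕ × ℕ × ℕ × ℕ) :=
  [(0, 2, 2, 2, 3)]

theorem NB_2_0_5_2 : NUMA_stmt 2 0 5 2 :=
  NUB_two 2 0 3 5 2 3 9 132 2 0 rfl rfl rfl rfl rfl (by norm_num) (by norm_num)
    (by norm_num) (by norm_num) NB_2_0_5_2_r NB_2_0_5_2_p NB_2_0_5_2_c (by decide +kernel) (by decide +kernel)

/-- certificate `NB_2_0_5_3`, rows -/
def NB_2_0_5_3_r : List (ℕ × ℕ × ℕ × ℕ) :=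
  [(0, 2, 1, 2)]

/-- certificate `NB_2_0_5_3`, coordinates -/
def NB_2_0_5_3_p : List (ℕ × ℕ) := [(1, 3)]

/-- certificate `NB_2_0_5_3`, combinations -/
def NB_2_0_5_3_c : List (ℕ × ℕ × ℕ × ℕ × ℕ) :=
  [(0, 2, 1, 2, 3)]

theorem NB_2_0_5_3 : NUMA_stmt 2 0 5 3 :=
  NUB_two 2 0 3 5 3 4 16 176 2 0 rfl rfl rfl rfl rfl (by norm_num) (by norm_num)
    (by norm_num) (by norm_num) NB_2_0_5_3_r NB_2_0_5_3_p NB_2_0_5_3_c (by decide +kernel) (by decide +kernel)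

/-- certificate `NB_2_0_5_4`, rows -/
def NB_2_0_5_4_r : List (ℕ × ℕ × ℕ × ℕ) :=
  [(0, 2, 1, 2), (1, 2, 2, 1), (2, 0, 2, 1)]

/-- certificate `NB_2_0_5_4`, coordinates -/
def NB_2_0_5_4_p : List (ℕ × ℕ) := [(1, 3), (1, 5), (2, 4)]

/-- certificate `NB_2_0_5_4`, combinations -/
def NB_2_0_5_4_c : List (ℕ × ℕ × ℕ × ℕ × ℕ) :=
  [(0, 2, 1, 4163, 99),
    (0, 4, 2, 1060, 132),
    (1, 3, 2, 2177, 66)]

theorem NB_2_0_5_4 : NUMA_stmt 2 0 5 4 :=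
  NUB_two 2 0 3 5 4 5 25 220 2 0 rfl rfl rfl rfl rfl (by norm_num) (by norm_num)
    (by norm_num) (by norm_num) NB_2_0_5_4_r NB_2_0_5_4_p NB_2_0_5_4_c (by decide +kernel) (by decide +kernel)

end Pool.Agent.OE
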