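import Pool.Agent.helper21.OE.NUB

/-!
# Project OE: certificates modulo `7` for the antisymmetric part, discriminant -8
-/

namespace Pool.Agent.OE

set_option maxRecDepth 100000

/-- certificate `NB_2_0_7_1`, rows -/
def NB_2_0_7_1_r : List (ℕ × ℕ × ℕ × ℕ) :=
  []

/-- certificate `NB_2_0_7_1`, coordinates -/
def NB_2_0_7_1_p : List (ℕ × ℕ) := []

/-- certificate `NB_2_0_7_1`, combinations -/
def NB_2_0_7_1_c : List (ℕ × ℕ × ℕ × ℕ × ℕ) :=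
  []

theorem NB_2_0_7_1 : NUMA_stmt 2 0 7 1 :=
  NUB_two 2 0 5 7 1 2 4 88 2 0 rfl rfl rfl rfl rfl (by norm_num) (by norm_num)
    (by norm_num) (by norm_num) NB_2_0_7_1_r NB_2_0_7_1_p NB_2_0_7_1_c (by decide +kernel) (by decide +kernel)

/-- certificate `NB_2_0_7_2`, rows -/
def NB_2_0_7_2_r : List (ℕ × ℕ × ℕ × ℕ) :=
  [(0, 2, 1, 2)]

/-- certificate `NB_2_0_7_2`, coordinates -/
def NB_2_0_7_2_p : List (ℕ × ℕ) := [(1, 3)]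

/-- certificate `NB_2_0_7_2`, combinations -/
def NB_2_0_7_2_c : List (ℕ × ℕ × ℕ × ℕ × ℕ) :=
  [(0, 2, 2, 4, 3)]

theorem NB_2_0_7_2 : NUMA_stmt 2 0 7 2 :=
  NUB_two 2 0 5 7 2 3 9 132 2 0 rfl rfl rfl rfl rfl (by norm_num) (by norm_num)
    (by norm_num) (by norm_num) NB_2_0_7_2_r NB_2_0_7_2_p NB_2_0_7_2_c (by decide +kernel) (by decide +kernel)

/-- certificate `NB_2_0_7_3`, rows -/
def NB_2_0_7_3_r : List (ℕ × ℕ × ℕ × ℕ) :=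
  [(0, 2, 1, 2)]

/-- certificate `NB_2_0_7_3`, coordinates -/
def NB_2_0_7_3_p : List (ℕ × ℕ) := [(1, 3)]

/-- certificate `NB_2_0_7_3`, combinations -/
def NB_2_0_7_3_c : List (ℕ × ℕ × ℕ × ℕ × ℕ) :=
  [(0, 2, 1, 3, 3)]

theorem NB_2_0_7_3 : NUMA_stmt 2 0 7 3 :=
  NUB_two 2 0 5 7 3 4 16 176 2 0 rfl rfl rfl rfl rfl (by norm_num) (by norm_num)
    (by norm_num) (by norm_num) NB_2_0_7_3_r NB_2_0_7_3_p NB_2_0_7_3_c (by decide +kernel) (by decide +kernel)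

/-- certificate `NB_2_0_7_4`, rows -/
def NB_2_0_7_4_r : List (ℕ × ℕ × ℕ × ℕ) :=
  [(0, 2, 1, 2), (1, 2, 2, 1), (2, 0, 2, 1)]

/-- certificate `NB_2_0_7_4`, coordinates -/
def NB_2_0_7_4_p : List (ℕ × ℕ) := [(1, 3), (1, 5), (2, 4)]

/-- certificate `NB_2_0_7_4`, combinations -/
def NB_2_0_7_4_c : List (ℕ × ℕ × ℕ × ℕ × ℕ) :=
  [(0, 2, 1, 5220, 33),
    (0, 4, 2, 3110, 165),
    (1, 3, 2, 4227, 33)]

theorem NB_2_0_7_4 : NUMA_stmt 2 0 7 4 :=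
  NUB_two 2 0 5 7 4 5 25 220 2 0 rfl rfl rfl rfl rfl (by norm_num) (by norm_num)
    (by norm_num) (by norm_num) NB_2_0_7_4_r NB_2_0_7_4_p NB_2_0_7_4_c (by decide +kernel) (by decide +kernel)

/-- certificate `NB_2_0_7_5`, rows -/
def NB_2_0_7_5_r : List (ℕ × ℕ × ℕ × ℕ) :=
  [(0, 2, 1, 2), (1, 2, 2, 1), (2, 0, 2, 1)]

/-- certificate `NB_2_0_7_5`, coordinates -/
def NB_2_0_7_5_p : List (ℕ × ℕ) := [(1, 3), (1, 5), (2, 4)]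

/-- certificate `NB_2_0_7_5`, combinations -/
def NB_2_0_7_5_c : List (ℕ × ℕ × ℕ × ℕ × ℕ) :=
  [(0, 2, 1, 3141, 132),
    (0, 4, 1, 162, 99),
    (1, 3, 1, 1024, 66)]

theorem NB_2_0_7_5 : NUMA_stmt 2 0 7 5 :=
  NUB_two 2 0 5 7 5 6 36 264 2 0 rfl rfl rfl rfl rfl (by norm_num) (by norm_num)
    (by norm_num) (by norm_num) NB_2_0_7_5_r NB_2_0_7_5_p NB_2_0_7_5_c (by decide +kernel) (by decide +kernel)

/-- certificate `NB_2_0_7_6`, rows -/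
def NB_2_0_7_6_r : List (ℕ × ℕ × ℕ × ℕ) :=
  [(0, 2, 3, 3), (1, 0, 3, 2), (2, 1, 2, 2), (3, 1, 3, 2), (4, 0, 1, 2), (5, 2, 2, 1)]

/-- certificate `NB_2_0_7_6`, coordinates -/
def NB_2_0_7_6_p : List (ℕ × ℕ) := [(1, 3), (1, 5), (1, 7), (2, 4), (2, 6), (3, 5)]

/-- certificate `NB_2_0_7_6`, combinations -/
def NB_2_0_7_6_c : List (ℕ × ℕ × ℕ × ℕ × ℕ) :=
  [(0, 2, 1, 36771910, 167906304),
    (0, 4, 1, 167871521, 67310598),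
    (0, 6, 2, 69337120, 37890),
    (1, 3, 1, 71436290, 134252548),
    (1, 5, 2, 4198404, 33557507),
    (2, 4, 2, 203592837, 100766723)]

theorem NB_2_0_7_6 : NUMA_stmt 2 0 7 6 :=
  NUB_two 2 0 5 7 6 7 49 308 2 0 rfl rfl rfl rfl rfl (by norm_num) (by norm_num)
    (by norm_num) (by norm_num) NB_2_0_7_6_r NB_2_0_7_6_p NB_2_0_7_6_c (by decide +kernel) (by decide +kernel)

end Pool.Agent.OE
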