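import Pool.Agent.helper21.OE.NUB

/-!
# Project OE: certificates modulo `11` for the antisymmetric part, discriminant -7
-/

namespace Pool.Agent.OE

set_option maxRecDepth 100000

/-- certificate `NB_2_1_11_1`, rows -/
def NB_2_1_11_1_r : List (ℕ × ℕ × ℕ × ℕ) :=
  []

/-- certificate `NB_2_1_11_1`, coordinates -/
def NB_2_1_11_1_p : List (ℕ × ℕ) := []

/-- certificate `NB_2_1_11_1`, combinations -/
def NB_2_1_11_1_c : List (ℕ × ℕ × ℕ × ℕ × ℕ) :=
  []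

theorem NB_2_1_11_1 : NUMA_stmt 2 1 11 1 :=
  NUB_two 2 1 9 11 1 2 4 88 2 1 rfl rfl rfl rfl rfl (by norm_num) (by norm_num)
    (by norm_num) (by norm_num) NB_2_1_11_1_r NB_2_1_11_1_p NB_2_1_11_1_c (by decide +kernel) (by decide +kernel)

/-- certificate `NB_2_1_11_2`, rows -/
def NB_2_1_11_2_r : List (ℕ × ℕ × ℕ × ℕ) :=
  [(0, 2, 1, 2)]

/-- certificate `NB_2_1_11_2`, coordinates -/
def NB_2_1_11_2_p : List (ℕ × ℕ) := [(1, 3)]

/-- certificate `NB_2_1_11_2`, combinations -/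
def NB_2_1_11_2_c : List (ℕ × ℕ × ℕ × ℕ × ℕ) :=
  [(0, 2, 2, 10, 3)]

theorem NB_2_1_11_2 : NUMA_stmt 2 1 11 2 :=
  NUB_two 2 1 9 11 2 3 9 132 2 1 rfl rfl rfl rfl rfl (by norm_num) (by norm_num)
    (by norm_num) (by norm_num) NB_2_1_11_2_r NB_2_1_11_2_p NB_2_1_11_2_c (by decide +kernel) (by decide +kernel)

/-- certificate `NB_2_1_11_3`, rows -/
def NB_2_1_11_3_r : List (ℕ × ℕ × ℕ × ℕ) :=
  [(0, 2, 1, 2)]

/-- certificate `NB_2_1_11_3`, coordinates -/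
def NB_2_1_11_3_p : List (ℕ × ℕ) := [(1, 3)]

/-- certificate `NB_2_1_11_3`, combinations -/
def NB_2_1_11_3_c : List (ℕ × ℕ × ℕ × ℕ × ℕ) :=
  [(0, 2, 1, 10, 1)]

theorem NB_2_1_11_3 : NUMA_stmt 2 1 11 3 :=
  NUB_two 2 1 9 11 3 4 16 176 2 1 rfl rfl rfl rfl rfl (by norm_num) (by norm_num)
    (by norm_num) (by norm_num) NB_2_1_11_3_r NB_2_1_11_3_p NB_2_1_11_3_c (by decide +kernel) (by decide +kernel)

/-- certificate `NB_2_1_11_4`, rows -/
def NB_2_1_11_4_r : List (ℕ × ℕ × ℕ × ℕ) :=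
  [(0, 2, 1, 2), (1, 2, 2, 1), (2, 0, 2, 1)]

/-- certificate `NB_2_1_11_4`, coordinates -/
def NB_2_1_11_4_p : List (ℕ × ℕ) := [(1, 3), (1, 5), (2, 4)]

/-- certificate `NB_2_1_11_4`, combinations -/
def NB_2_1_11_4_c : List (ℕ × ℕ × ℕ × ℕ × ℕ) :=
  [(0, 2, 1, 10249, 66),
    (0, 4, 2, 1028, 231),
    (1, 3, 2, 6179, 231)]

theorem NB_2_1_11_4 : NUMA_stmt 2 1 11 4 :=
  NUB_two 2 1 9 11 4 5 25 220 2 1 rfl rfl rfl rfl rfl (by norm_num) (by norm_num)
    (by norm_num) (by norm_num) NB_2_1_11_4_r NB_2_1_11_4_p NB_2_1_11_4_c (by decide +kernel) (by decide +kernel)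

/-- certificate `NB_2_1_11_5`, rows -/
def NB_2_1_11_5_r : List (ℕ × ℕ × ℕ × ℕ) :=
  [(0, 2, 1, 2), (1, 2, 2, 1), (2, 0, 2, 1)]

/-- certificate `NB_2_1_11_5`, coordinates -/
def NB_2_1_11_5_p : List (ℕ × ℕ) := [(1, 3), (1, 5), (2, 4)]

/-- certificate `NB_2_1_11_5`, combinations -/
def NB_2_1_11_5_c : List (ℕ × ℕ × ℕ × ℕ × ℕ) :=
  [(0, 2, 1, 4137, 33),
    (0, 4, 1, 1346, 330),
    (1, 3, 1, 10570, 66)]

theorem NB_2_1_11_5 : NUMA_stmt 2 1 11 5 :=
  NUB_two 2 1 9 11 5 6 36 264 2 1 rfl rfl rfl rfl rfl (by norm_num) (by norm_num)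
    (by norm_num) (by norm_num) NB_2_1_11_5_r NB_2_1_11_5_p NB_2_1_11_5_c (by decide +kernel) (by decide +kernel)

/-- certificate `NB_2_1_11_6`, rows -/
def NB_2_1_11_6_r : List (ℕ × ℕ × ℕ × ℕ) :=
  [(0, 2, 3, 3), (1, 0, 3, 2), (2, 1, 2, 2), (3, 1, 3, 2), (4, 0, 1, 2), (5, 1, 2, 3)]

/-- certificate `NB_2_1_11_6`, coordinates -/
def NB_2_1_11_6_p : List (ℕ × ℕ) := [(1, 3), (1, 5), (1, 7), (2, 4), (2, 6), (3, 5)]

/-- certificate `NB_2_1_11_6`, combinations -/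
def NB_2_1_11_6_c : List (ℕ × ℕ × ℕ × ℕ × ℕ) :=
  [(0, 2, 1, 342099113, 134358020),
    (0, 4, 1, 4232417, 335873033),
    (0, 6, 2, 70396194, 167938055),
    (1, 3, 1, 342889507, 33588229),
    (1, 5, 2, 33849382, 33587210),
    (2, 4, 2, 205692010, 8194)]

theorem NB_2_1_11_6 : NUMA_stmt 2 1 11 6 :=
  NUB_two 2 1 9 11 6 7 49 308 2 1 rfl rfl rfl rfl rfl (by norm_num) (by norm_num)
    (by norm_num) (by norm_num) NB_2_1_11_6_r NB_2_1_11_6_p NB_2_1_11_6_c (by decide +kernel) (by decide +kernel)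

/-- certificate `NB_2_1_11_7`, rows -/
def NB_2_1_11_7_r : List (ℕ × ℕ × ℕ × ℕ) :=
  [(0, 2, 3, 3), (1, 0, 3, 2), (2, 1, 2, 2), (3, 1, 3, 2), (4, 0, 1, 2), (5, 1, 2, 3)]

/-- certificate `NB_2_1_11_7`, coordinates -/
def NB_2_1_11_7_p : List (ℕ × ℕ) := [(1, 3), (1, 5), (1, 7), (2, 4), (2, 6), (3, 5)]

/-- certificate `NB_2_1_11_7`, combinations -/
def NB_2_1_11_7_c : List (ℕ × ℕ × ℕ × ℕ × ℕ) :=
  [(0, 2, 1, 110332106, 33594370),
    (0, 4, 1, 67279016, 134359046),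
    (0, 6, 1, 210045956, 201528323),
    (1, 3, 1, 144900362, 33587202),
    (1, 5, 1, 77695306, 201530370),
    (2, 4, 1, 136325282, 235112455)]

theorem NB_2_1_11_7 : NUMA_stmt 2 1 11 7 :=
  NUB_two 2 1 9 11 7 8 64 352 2 1 rfl rfl rfl rfl rfl (by norm_num) (by norm_num)
    (by norm_num) (by norm_num) NB_2_1_11_7_r NB_2_1_11_7_p NB_2_1_11_7_c (by decide +kernel) (by decide +kernel)

/-- certificate `NB_2_1_11_8`, rows -/
def NB_2_1_11_8_r : List (ℕ × ℕ × ℕ × ℕ) :=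
  [(0, 1, 3, 4), (1, 1, 2, 2), (2, 2, 4, 4), (3, 0, 3, 4), (4, 2, 2, 1), (5, 0, 1, 4), (6, 1, 3, 2), (7, 2, 4, 1), (8, 2, 1, 2), (9, 0, 3, 2), (10, 2, 2, 4)]

/-- certificate `NB_2_1_11_8`, coordinates -/
def NB_2_1_11_8_p : List (ℕ × ℕ) := [(1, 3), (1, 5), (1, 7), (1, 9), (2, 4), (2, 6), (2, 8), (3, 5), (3, 7), (4, 6)]

/-- certificate `NB_2_1_11_8`, combinations -/
def NB_2_1_11_8_c : List (ℕ × ℕ × ℕ × ℕ × ℕ) :=
  [(0, 2, 1, 4514664809668678, 9016203662072039),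
    (0, 4, 1, 1198742898416906, 2463183350766856),
    (0, 6, 1, 1233928304397377, 2606986299710563),
    (0, 8, 2, 6971248665041121, 1340412319212867),
    (1, 3, 1, 7952845192374568, 3589947609285826),
    (1, 5, 1, 11610991036144809, 10491545530935557),
    (1, 7, 2, 9258096218177706, 5880302070472936),
    (2, 4, 1, 3557160942347555, 7044822491801705),
    (2, 6, 2, 4616064458659975, 9082214415538186),
    (3, 5, 2, 3633993549451588, 7108622051185953)]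

theorem NB_2_1_11_8 : NUMA_stmt 2 1 11 8 :=
  NUB_two 2 1 9 11 8 9 81 396 2 1 rfl rfl rfl rfl rfl (by norm_num) (by norm_num)
    (by norm_num) (by norm_num) NB_2_1_11_8_r NB_2_1_11_8_p NB_2_1_11_8_c (by decide +kernel) (by decide +kernel)

/-- certificate `NB_2_1_11_9`, rows -/
def NB_2_1_11_9_r : List (ℕ × ℕ × ℕ × ℕ) :=
  [(0, 2, 3, 3), (1, 0, 3, 2), (2, 1, 2, 2), (3, 1, 3, 2), (4, 0, 1, 2), (5, 1, 2, 3), (6, 2, 3, 1), (7, 2, 1, 2), (8, 0, 3, 1), (9, 1, 3, 1), (10, 2, 2, 1)]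

/-- certificate `NB_2_1_11_9`, coordinates -/
def NB_2_1_11_9_p : List (ℕ × ℕ) := [(1, 3), (1, 5), (1, 7), (1, 9), (2, 4), (2, 6), (2, 8), (3, 5), (3, 7), (4, 6)]

/-- certificate `NB_2_1_11_9`, combinations -/
def NB_2_1_11_9_c : List (ℕ × ℕ × ℕ × ℕ × ℕ) :=
  [(0, 2, 1, 3558094896564552, 6790800776174598),
    (0, 4, 1, 9225217302144099, 5981516396236805),
    (0, 6, 1, 7107381676838949, 1196312943135745),
    (0, 8, 1, 5666034813082886, 11576004296450058),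
    (1, 3, 1, 221011803047045, 105561941320705),
    (1, 5, 1, 11618643734724673, 10203787042193417),
    (1, 7, 1, 5955204092761376, 11611187594789888),
    (2, 4, 1, 11403145792984261, 10238970374128641),
    (2, 6, 1, 3669150097706050, 6825984175281159),
    (3, 5, 1, 11331674318045475, 10203787075780613)]

theorem NB_2_1_11_9 : NUMA_stmt 2 1 11 9 :=
  NUB_two 2 1 9 11 9 10 100 440 2 1 rfl rfl rfl rfl rfl (by norm_num) (by norm_num)
    (by norm_num) (by norm_num) NB_2_1_11_9_r NB_2_1_11_9_p NB_2_1_11_9_c (by decide +kernel) (by decide +kernel)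

/-- certificate `NB_2_1_11_10`, rows -/
def NB_2_1_11_10_r : List (ℕ × ℕ × ℕ × ℕ) :=
  [(0, 1, 3, 1), (1, 0, 3, 5), (2, 1, 5, 3), (3, 0, 4, 1), (4, 1, 3, 5), (5, 2, 4, 2), (6, 2, 4, 5), (7, 0, 5, 2), (8, 2, 3, 2), (9, 0, 5, 1), (10, 1, 1, 3), (11, 0, 4, 5), (12, 1, 4, 5), (13, 2, 2, 2), (14, 0, 1, 2), (15, 1, 4, 2), (16, 2, 2, 3)]

/-- certificate `NB_2_1_11_10`, coordinates -/
def NB_2_1_11_10_p : List (ℕ × ℕ) := [(1, 3), (1, 5), (1, 7), (1, 9), (1, 11), (2, 4), (2, 6), (2, 8), (2, 10), (3, 5), (3, 7), (3, 9), (4, 6), (4, 8), (5, 7)]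

/-- certificate `NB_2_1_11_10`, combinations -/
def NB_2_1_11_10_c : List (ℕ × ℕ × ℕ × ℕ × ℕ) :=
  [(0, 2, 1, 7631502404993907563988192, 1549052658211911203039240),
    (0, 4, 1, 3708470199172610490794080, 7405045348009609046004740),
    (0, 6, 1, 11151989833701764394850442, 8576007775074834295296009),
    (0, 8, 1, 9978592342968906594488359, 6233898465891829313181702),
    (0, 10, 2, 3669505991945020791619690, 7329486331362190988153857),
    (1, 3, 1, 11034992477704379551454215, 8764719110867592585158660),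
    (1, 5, 1, 6197264708209762597149706, 12391645306721971352905731),
    (1, 7, 1, 5224413329708988532858950, 10011638315880327866746882),
    (1, 9, 2, 5073157838661135578080421, 9709307698470484942260228),
    (2, 4, 1, 1398089112003084964596009, 2795941877134629617532930),
    (2, 6, 1, 11183823192179253675595872, 8651634809588528141314051),
    (2, 8, 2, 7604421548965709096453192, 1473749592391416557864969),
    (3, 5, 1, 6244269141185261068361989, 12467234297074506887333888),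
    (3, 7, 2, 1371003564245725108869380, 2720231831151106689337346),
    (4, 6, 2, 7524105604019934036464869, 1322305276677976894740488)]

theorem NB_2_1_11_10 : NUMA_stmt 2 1 11 10 :=
  NUB_two 2 1 9 11 10 11 121 484 2 1 rfl rfl rfl rfl rfl (by norm_num) (by norm_num)
    (by norm_num) (by norm_num) NB_2_1_11_10_r NB_2_1_11_10_p NB_2_1_11_10_c (by decide +kernel) (by decide +kernel)

end Pool.Agent.OE
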