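import Pool.Agent.helper21.OE.NUB

/-!
# Project OE: certificates modulo `13` for the antisymmetric part, discriminant -7
-/

namespace Pool.Agent.OE

set_option maxRecDepth 100000

/-- certificate `NB_2_1_13_1`, rows -/
def NB_2_1_13_1_r : List (ℕ × ℕ × ℕ × ℕ) :=
  []

/-- certificate `NB_2_1_13_1`, coordinates -/
def NB_2_1_13_1_p : List (ℕ × ℕ) := []

/-- certificate `NB_2_1_13_1`, combinations -/
def NB_2_1_13_1_c : List (ℕ × ℕ × ℕ × ℕ × ℕ) :=
  []

theorem NB_2_1_13_1 : NUMA_stmt 2 1 13 1 :=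
  NUB_two 2 1 11 13 1 2 4 88 2 1 rfl rfl rfl rfl rfl (by norm_num) (by norm_num)
    (by norm_num) (by norm_num) NB_2_1_13_1_r NB_2_1_13_1_p NB_2_1_13_1_c (by decide +kernel) (by decide +kernel)

/-- certificate `NB_2_1_13_2`, rows -/
def NB_2_1_13_2_r : List (ℕ × ℕ × ℕ × ℕ) :=
  [(0, 2, 1, 2)]

/-- certificate `NB_2_1_13_2`, coordinates -/
def NB_2_1_13_2_p : List (ℕ × ℕ) := [(1, 3)]

/-- certificate `NB_2_1_13_2`, combinations -/
def NB_2_1_13_2_c : List (ℕ × ℕ × ℕ × ℕ × ℕ) :=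
  [(0, 2, 2, 11, 8)]

theorem NB_2_1_13_2 : NUMA_stmt 2 1 13 2 :=
  NUB_two 2 1 11 13 2 3 9 132 2 1 rfl rfl rfl rfl rfl (by norm_num) (by norm_num)
    (by norm_num) (by norm_num) NB_2_1_13_2_r NB_2_1_13_2_p NB_2_1_13_2_c (by decide +kernel) (by decide +kernel)

/-- certificate `NB_2_1_13_3`, rows -/
def NB_2_1_13_3_r : List (ℕ × ℕ × ℕ × ℕ) :=
  [(0, 2, 1, 2)]

/-- certificate `NB_2_1_13_3`, coordinates -/
def NB_2_1_13_3_p : List (ℕ × ℕ) := [(1, 3)]

/-- certificate `NB_2_1_13_3`, combinations -/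
def NB_2_1_13_3_c : List (ℕ × ℕ × ℕ × ℕ × ℕ) :=
  [(0, 2, 1, 12, 9)]

theorem NB_2_1_13_3 : NUMA_stmt 2 1 13 3 :=
  NUB_two 2 1 11 13 3 4 16 176 2 1 rfl rfl rfl rfl rfl (by norm_num) (by norm_num)
    (by norm_num) (by norm_num) NB_2_1_13_3_r NB_2_1_13_3_p NB_2_1_13_3_c (by decide +kernel) (by decide +kernel)

/-- certificate `NB_2_1_13_4`, rows -/
def NB_2_1_13_4_r : List (ℕ × ℕ × ℕ × ℕ) :=
  [(0, 2, 1, 2), (1, 2, 2, 1), (2, 0, 2, 1)]

/-- certificate `NB_2_1_13_4`, coordinates -/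
def NB_2_1_13_4_p : List (ℕ × ℕ) := [(1, 3), (1, 5), (2, 4)]

/-- certificate `NB_2_1_13_4`, combinations -/
def NB_2_1_13_4_c : List (ℕ × ℕ × ℕ × ℕ × ℕ) :=
  [(0, 2, 1, 12680, 198),
    (0, 4, 2, 1098, 33),
    (1, 3, 2, 43, 33)]

theorem NB_2_1_13_4 : NUMA_stmt 2 1 13 4 :=
  NUB_two 2 1 11 13 4 5 25 220 2 1 rfl rfl rfl rfl rfl (by norm_num) (by norm_num)
    (by norm_num) (by norm_num) NB_2_1_13_4_r NB_2_1_13_4_p NB_2_1_13_4_c (by decide +kernel) (by decide +kernel)

/-- certificate `NB_2_1_13_5`, rows -/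
def NB_2_1_13_5_r : List (ℕ × ℕ × ℕ × ℕ) :=
  [(0, 2, 1, 2), (1, 2, 2, 1), (2, 2, 2, 2)]

/-- certificate `NB_2_1_13_5`, coordinates -/
def NB_2_1_13_5_p : List (ℕ × ℕ) := [(1, 3), (1, 5), (2, 4)]

/-- certificate `NB_2_1_13_5`, combinations -/
def NB_2_1_13_5_c : List (ℕ × ℕ × ℕ × ℕ × ℕ) :=
  [(0, 2, 1, 12649, 2246),
    (0, 4, 1, 1030, 11495),
    (1, 3, 1, 4427, 5285)]

theorem NB_2_1_13_5 : NUMA_stmt 2 1 13 5 :=
  NUB_two 2 1 11 13 5 6 36 264 2 1 rfl rfl rfl rfl rfl (by norm_num) (by norm_num)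
    (by norm_num) (by norm_num) NB_2_1_13_5_r NB_2_1_13_5_p NB_2_1_13_5_c (by decide +kernel) (by decide +kernel)

/-- certificate `NB_2_1_13_6`, rows -/
def NB_2_1_13_6_r : List (ℕ × ℕ × ℕ × ℕ) :=
  [(0, 2, 3, 3), (1, 0, 3, 2), (2, 1, 2, 2), (3, 1, 3, 2), (4, 0, 1, 2), (5, 2, 2, 1)]

/-- certificate `NB_2_1_13_6`, coordinates -/
def NB_2_1_13_6_p : List (ℕ × ℕ) := [(1, 3), (1, 5), (1, 7), (2, 4), (2, 6), (3, 5)]

/-- certificate `NB_2_1_13_6`, combinations -/
def NB_2_1_13_6_c : List (ℕ × ℕ × ℕ × ℕ × ℕ) :=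
  [(0, 2, 1, 308548812, 373335142),
    (0, 4, 1, 10653955, 74744930),
    (0, 6, 2, 276832617, 4397098),
    (1, 3, 1, 76687591, 407182402),
    (1, 5, 2, 10629320, 405868710),
    (2, 4, 2, 34648418, 112560229)]

theorem NB_2_1_13_6 : NUMA_stmt 2 1 13 6 :=
  NUB_two 2 1 11 13 6 7 49 308 2 1 rfl rfl rfl rfl rfl (by norm_num) (by norm_num)
    (by norm_num) (by norm_num) NB_2_1_13_6_r NB_2_1_13_6_p NB_2_1_13_6_c (by decide +kernel) (by decide +kernel)

/-- certificate `NB_2_1_13_7`, rows -/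
def NB_2_1_13_7_r : List (ℕ × ℕ × ℕ × ℕ) :=
  [(0, 2, 3, 3), (1, 0, 3, 2), (2, 1, 2, 2), (3, 1, 3, 2), (4, 0, 1, 2), (5, 2, 2, 1)]

/-- certificate `NB_2_1_13_7`, coordinates -/
def NB_2_1_13_7_p : List (ℕ × ℕ) := [(1, 3), (1, 5), (1, 7), (2, 4), (2, 6), (3, 5)]

/-- certificate `NB_2_1_13_7`, combinations -/
def NB_2_1_13_7_c : List (ℕ × ℕ × ℕ × ℕ × ℕ) :=
  [(0, 2, 1, 43126988, 244657354),
    (0, 4, 1, 173419776, 74848549),
    (0, 6, 1, 241511809, 144844139),
    (1, 3, 1, 274760940, 375432330),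
    (1, 5, 1, 347119753, 180655370),
    (2, 4, 1, 207948012, 242230565)]

theorem NB_2_1_13_7 : NUMA_stmt 2 1 13 7 :=
  NUB_two 2 1 11 13 7 8 64 352 2 1 rfl rfl rfl rfl rfl (by norm_num) (by norm_num)
    (by norm_num) (by norm_num) NB_2_1_13_7_r NB_2_1_13_7_p NB_2_1_13_7_c (by decide +kernel) (by decide +kernel)

/-- certificate `NB_2_1_13_8`, rows -/
def NB_2_1_13_8_r : List (ℕ × ℕ × ℕ × ℕ) :=
  [(0, 2, 3, 3), (1, 0, 3, 2), (2, 1, 2, 2), (3, 1, 3, 2), (4, 0, 1, 2), (5, 2, 2, 1), (6, 1, 2, 3), (7, 2, 3, 1), (8, 2, 1, 2), (9, 1, 3, 1)]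

/-- certificate `NB_2_1_13_8`, coordinates -/
def NB_2_1_13_8_p : List (ℕ × ℕ) := [(1, 3), (1, 5), (1, 7), (1, 9), (2, 4), (2, 6), (2, 8), (3, 5), (3, 7), (4, 6)]

/-- certificate `NB_2_1_13_8`, combinations -/
def NB_2_1_13_8_c : List (ℕ × ℕ × ℕ × ℕ × ℕ) :=
  [(0, 2, 1, 291786324975818, 153152460761094),
    (0, 4, 1, 387309820518752, 353057083041792),
    (0, 6, 1, 355319625650215, 286050325009420),
    (0, 8, 2, 248570302181477, 289345739229187),
    (1, 3, 1, 36630770746408, 327794387135498),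
    (1, 5, 1, 351953620150662, 213550136170497),
    (1, 7, 2, 321170250797095, 253099403023372),
    (2, 4, 1, 39687948444748, 70755291504642),
    (2, 6, 2, 180332800420137, 291552346019848),
    (3, 5, 2, 76291677466986, 355248656975878)]

theorem NB_2_1_13_8 : NUMA_stmt 2 1 13 8 :=
  NUB_two 2 1 11 13 8 9 81 396 2 1 rfl rfl rfl rfl rfl (by norm_num) (by norm_num)
    (by norm_num) (by norm_num) NB_2_1_13_8_r NB_2_1_13_8_p NB_2_1_13_8_c (by decide +kernel) (by decide +kernel)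

/-- certificate `NB_2_1_13_9`, rows -/
def NB_2_1_13_9_r : List (ℕ × ℕ × ℕ × ℕ) :=
  [(0, 2, 3, 3), (1, 0, 3, 2), (2, 1, 2, 2), (3, 1, 3, 2), (4, 0, 1, 2), (5, 2, 2, 1), (6, 1, 2, 3), (7, 2, 3, 1), (8, 2, 1, 2), (9, 0, 3, 1)]

/-- certificate `NB_2_1_13_9`, coordinates -/
def NB_2_1_13_9_p : List (ℕ × ℕ) := [(1, 3), (1, 5), (1, 7), (1, 9), (2, 4), (2, 6), (2, 8), (3, 5), (3, 7), (4, 6)]

/-- certificate `NB_2_1_13_9`, combinations -/
def NB_2_1_13_9_c : List (ℕ × ℕ × ℕ × ℕ × ℕ) :=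
  [(0, 2, 1, 11000630973568, 13195615964160),
    (0, 4, 1, 428088392683623, 396239731663874),
    (0, 6, 1, 5811404484737, 328045543270404),
    (0, 8, 1, 41991931073605, 221115894304775),
    (1, 3, 1, 247470883013894, 77012024925195),
    (1, 5, 1, 391850345178306, 422431820916740),
    (1, 7, 1, 140948143341606, 222212218160133),
    (2, 4, 1, 247431020357766, 38725810655238),
    (2, 6, 1, 398031095869610, 5509537433606),
    (3, 5, 1, 188062802152808, 40930269893634)]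

theorem NB_2_1_13_9 : NUMA_stmt 2 1 13 9 :=
  NUB_two 2 1 11 13 9 10 100 440 2 1 rfl rfl rfl rfl rfl (by norm_num) (by norm_num)
    (by norm_num) (by norm_num) NB_2_1_13_9_r NB_2_1_13_9_p NB_2_1_13_9_c (by decide +kernel) (by decide +kernel)

/-- certificate `NB_2_1_13_10`, rows -/
def NB_2_1_13_10_r : List (ℕ × ℕ × ℕ × ℕ) :=
  [(0, 1, 4, 3), (1, 1, 3, 2), (2, 0, 2, 1), (3, 1, 2, 3), (4, 1, 1, 2), (5, 2, 4, 3), (6, 2, 2, 4), (7, 1, 3, 1), (8, 0, 3, 4), (9, 1, 1, 3), (10, 0, 2, 4), (11, 0, 3, 2), (12, 2, 4, 2), (13, 2, 4, 1), (14, 0, 4, 1)]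

/-- certificate `NB_2_1_13_10`, coordinates -/
def NB_2_1_13_10_p : List (ℕ × ℕ) := [(1, 3), (1, 5), (1, 7), (1, 9), (1, 11), (2, 4), (2, 6), (2, 8), (2, 10), (3, 5), (3, 7), (3, 9), (4, 6), (4, 8), (5, 7)]

/-- certificate `NB_2_1_13_10`, combinations -/
def NB_2_1_13_10_c : List (ℕ × ℕ × ℕ × ℕ × ℕ) :=
  [(0, 2, 1, 5061580109708649638923, 13323170304797302754564),
    (0, 4, 1, 117679241066704961674, 3840393923457416759332),
    (0, 6, 1, 7236140827765849173094, 3655927717711531149479),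
    (0, 8, 1, 13068449743668415338791, 6318022583190917787943),
    (0, 10, 2, 11923810501470143586538, 9558880218010000458952),
    (1, 3, 1, 7089651230130707864610, 5765030153554133154),
    (1, 5, 1, 9864621821142242796678, 11819754900492069711052),
    (1, 7, 1, 13356748049982662290721, 87633579533706461513),
    (1, 9, 2, 3922424916097864434692, 6281123196100160041220),
    (2, 4, 1, 8306084927673146121447, 297455088838119522563),
    (2, 6, 1, 7390664052145516708938, 6172746597749773971460),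
    (2, 8, 2, 9455442772332584803555, 1623321725068872193282),
    (3, 5, 1, 7416900902175798036676, 11035772529208553937155),
    (3, 7, 2, 2374020048799043498026, 3914177913433954322597),
    (4, 6, 2, 12003216985042857570316, 13098346144462122650667)]

theorem NB_2_1_13_10 : NUMA_stmt 2 1 13 10 :=
  NUB_two 2 1 11 13 10 11 121 484 2 1 rfl rfl rfl rfl rfl (by norm_num) (by norm_num)
    (by norm_num) (by norm_num) NB_2_1_13_10_r NB_2_1_13_10_p NB_2_1_13_10_c (by decide +kernel) (by decide +kernel)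

/-- certificate `NB_2_1_13_11`, rows -/
def NB_2_1_13_11_r : List (ℕ × ℕ × ℕ × ℕ) :=
  [(0, 1, 4, 3), (1, 1, 3, 2), (2, 0, 2, 1), (3, 1, 2, 3), (4, 1, 1, 2), (5, 2, 4, 3), (6, 0, 3, 1), (7, 2, 2, 4), (8, 1, 3, 1), (9, 0, 3, 4), (10, 1, 1, 3), (11, 0, 2, 4), (12, 0, 3, 2), (13, 2, 4, 2), (14, 2, 4, 1)]

/-- certificate `NB_2_1_13_11`, coordinates -/
def NB_2_1_13_11_p : List (ℕ × ℕ) := [(1, 3), (1, 5), (1, 7), (1, 9), (1, 11), (2, 4), (2, 6), (2, 8), (2, 10), (3, 5), (3, 7), (3, 9), (4, 6), (4, 8), (5, 7)]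

/-- certificate `NB_2_1_13_11`, combinations -/
def NB_2_1_13_11_c : List (ℕ × ℕ × ℕ × ℕ × ℕ) :=
  [(0, 2, 1, 6093335434034013114402, 6020602583378930504038),
    (0, 4, 1, 264462991277458201920, 2769691437793235310914),
    (0, 6, 1, 12998083386462941905096, 14214443827843507228864),
    (0, 8, 1, 6354155041381135056932, 7497675032035008388290),
    (0, 10, 1, 5990990366076790907148, 1183157969059573699779),
    (1, 3, 1, 81979416859769012234, 3840464888089762866504),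
    (1, 5, 1, 1404624626985270085638, 12143759721479541005444),
    (1, 7, 1, 1624647917446867780776, 14507617823878717702373),
    (1, 9, 1, 12106080322007981039816, 1590216595230452620480),
    (2, 4, 1, 2772032081520129869994, 2403960722459346579777),
    (2, 6, 1, 10741886897253241626722, 3737879933431620642886),
    (2, 8, 1, 11889335408941305474311, 14242473176624965846251),
    (3, 5, 1, 377015581701482522636, 2585223996884374526145),
    (3, 7, 1, 4773360825290350238721, 3736660474670484726145),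
    (4, 6, 1, 9857886867115404960998, 10634698836103689154755)]

theorem NB_2_1_13_11 : NUMA_stmt 2 1 13 11 :=
  NUB_two 2 1 11 13 11 12 144 528 2 1 rfl rfl rfl rfl rfl (by norm_num) (by norm_num)
    (by norm_num) (by norm_num) NB_2_1_13_11_r NB_2_1_13_11_p NB_2_1_13_11_c (by decide +kernel) (by decide +kernel)

/-- certificate `NB_2_1_13_12`, rows -/
def NB_2_1_13_12_r : List (ℕ × ℕ × ℕ × ℕ) :=
  [(0, 1, 3, 1), (1, 1, 4, 2), (2, 0, 3, 5), (3, 1, 5, 3), (4, 0, 4, 1), (5, 1, 3, 5), (6, 2, 4, 2), (7, 2, 4, 5), (8, 1, 3, 3), (9, 0, 5, 2), (10, 2, 3, 2), (11, 1, 1, 2), (12, 2, 1, 5), (13, 2, 4, 1), (14, 1, 4, 3), (15, 2, 4, 3), (16, 2, 2, 3), (17, 1, 1, 5), (18, 1, 1, 3), (19, 0, 4, 5), (20, 1, 2, 1)]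

/-- certificate `NB_2_1_13_12`, coordinates -/
def NB_2_1_13_12_p : List (ℕ × ℕ) := [(1, 3), (1, 5), (1, 7), (1, 9), (1, 11), (1, 13), (2, 4), (2, 6), (2, 8), (2, 10), (2, 12), (3, 5), (3, 7), (3, 9), (3, 11), (4, 6), (4, 8), (4, 10), (5, 7), (5, 9), (6, 8)]

/-- certificate `NB_2_1_13_12`, combinations -/
def NB_2_1_13_12_c : List (ℕ × ℕ × ℕ × ℕ × ℕ) :=
  [(0, 2, 1, 9083154444365924618764882881866, 327174130700319616279253397864),
    (0, 4, 1, 10470506676358195033455322273825, 12887072142107555109780246957383),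
    (0, 6, 1, 9234155472297769346945800973477, 12686803715137438664389639378023),
    (0, 8, 1, 11779159327207565831084517268868, 4247656605269360616317652212997),
    (0, 10, 1, 1666317162553254587924888981696, 4005976769967734197257920155814),
    (0, 12, 2, 14026254801078025801597868844289, 11497021430890487931876050996391),
    (1, 3, 1, 6617067576053319201764253499458, 10621732311942543678158001189088),
    (1, 5, 1, 8915728002951806716822955502887, 10583307846895150996188431396106),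
    (1, 7, 1, 12957681749926657886918363225217, 1307304652046148421574996625513),
    (1, 9, 1, 10460715435061578010792494771432, 11569796259796825511040033925289),
    (1, 11, 2, 49642125839123025852284142698, 14315852073182151650686814756868),
    (2, 4, 1, 13112267212322327437696726052134, 5240246581341761035678381082754),
    (2, 6, 1, 483273353978481975014711176236, 43688547544463190131710394434),
    (2, 8, 1, 6703874717673905971807095166122, 159704365250815715935522987046),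
    (2, 10, 2, 5361990106514635578439910104267, 11612312870791814350353397259656),
    (3, 5, 1, 3847532152825522272261387628715, 2978838101054882024880344302912),
    (3, 7, 1, 11651776014148439913569939691723, 6352032645778090761983354732939),
    (3, 9, 2, 11615796914572646087433633796323, 11458768369749173337281461100936),
    (4, 6, 1, 123920006156297676237758963876, 1558807162450878896390101020908),
    (4, 8, 2, 10146320005903968471476185960551, 13085180962920120033532599937035),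
    (5, 7, 2, 12963761397738424115872086032486, 2986378020233649300199199413472)]

theorem NB_2_1_13_12 : NUMA_stmt 2 1 13 12 :=
  NUB_two 2 1 11 13 12 13 169 572 2 1 rfl rfl rfl rfl rfl (by norm_num) (by norm_num)
    (by norm_num) (by norm_num) NB_2_1_13_12_r NB_2_1_13_12_p NB_2_1_13_12_c (by decide +kernel) (by decide +kernel)

end Pool.Agent.OE
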