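import Pool.Agent.helper21.OE.NUB

/-!
# Project OE: certificates modulo `11` for the antisymmetric part, discriminant -11
-/

namespace Pool.Agent.OE

set_option maxRecDepth 100000

/-- certificate `NB_3_1_11_1`, rows -/
def NB_3_1_11_1_r : List (ℕ × ℕ × ℕ × ℕ) :=
  []

/-- certificate `NB_3_1_11_1`, coordinates -/
def NB_3_1_11_1_p : List (ℕ × ℕ) := []

/-- certificate `NB_3_1_11_1`, combinations -/
def NB_3_1_11_1_c : List (ℕ × ℕ × ℕ × ℕ × ℕ) :=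
  []

theorem NB_3_1_11_1 : NUMA_stmt 3 1 11 1 :=
  NUB_two 3 1 8 11 1 2 4 88 3 1 rfl rfl rfl rfl rfl (by norm_num) (by norm_num)
    (by norm_num) (by norm_num) NB_3_1_11_1_r NB_3_1_11_1_p NB_3_1_11_1_c (by decide +kernel) (by decide +kernel)

/-- certificate `NB_3_1_11_2`, rows -/
def NB_3_1_11_2_r : List (ℕ × ℕ × ℕ × ℕ) :=
  [(0, 0, 1, 2)]

/-- certificate `NB_3_1_11_2`, coordinates -/
def NB_3_1_11_2_p : List (ℕ × ℕ) := [(1, 3)]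

/-- certificate `NB_3_1_11_2`, combinations -/
def NB_3_1_11_2_c : List (ℕ × ℕ × ℕ × ℕ × ℕ) :=
  [(0, 2, 2, 1, 0)]

theorem NB_3_1_11_2 : NUMA_stmt 3 1 11 2 :=
  NUB_two 3 1 8 11 2 3 9 132 3 1 rfl rfl rfl rfl rfl (by norm_num) (by norm_num)
    (by norm_num) (by norm_num) NB_3_1_11_2_r NB_3_1_11_2_p NB_3_1_11_2_c (by decide +kernel) (by decide +kernel)

/-- certificate `NB_3_1_11_3`, rows -/
def NB_3_1_11_3_r : List (ℕ × ℕ × ℕ × ℕ) :=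
  [(0, 0, 1, 2)]

/-- certificate `NB_3_1_11_3`, coordinates -/
def NB_3_1_11_3_p : List (ℕ × ℕ) := [(1, 3)]

/-- certificate `NB_3_1_11_3`, combinations -/
def NB_3_1_11_3_c : List (ℕ × ℕ × ℕ × ℕ × ℕ) :=
  [(0, 2, 1, 6, 0)]

theorem NB_3_1_11_3 : NUMA_stmt 3 1 11 3 :=
  NUB_two 3 1 8 11 3 4 16 176 3 1 rfl rfl rfl rfl rfl (by norm_num) (by norm_num)
    (by norm_num) (by norm_num) NB_3_1_11_3_r NB_3_1_11_3_p NB_3_1_11_3_c (by decide +kernel) (by decide +kernel)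

/-- certificate `NB_3_1_11_4`, rows -/
def NB_3_1_11_4_r : List (ℕ × ℕ × ℕ × ℕ) :=
  [(0, 0, 1, 2), (1, 0, 2, 3), (2, 3, 1, 2)]

/-- certificate `NB_3_1_11_4`, coordinates -/
def NB_3_1_11_4_p : List (ℕ × ℕ) := [(1, 3), (1, 5), (2, 4)]

/-- certificate `NB_3_1_11_4`, combinations -/
def NB_3_1_11_4_c : List (ℕ × ℕ × ℕ × ℕ × ℕ) :=
  [(0, 2, 1, 3074, 1288),
    (0, 4, 2, 5128, 9414),
    (1, 3, 2, 6215, 2213)]

theorem NB_3_1_11_4 : NUMA_stmt 3 1 11 4 :=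
  NUB_two 3 1 8 11 4 5 25 220 3 1 rfl rfl rfl rfl rfl (by norm_num) (by norm_num)
    (by norm_num) (by norm_num) NB_3_1_11_4_r NB_3_1_11_4_p NB_3_1_11_4_c (by decide +kernel) (by decide +kernel)

/-- certificate `NB_3_1_11_5`, rows -/
def NB_3_1_11_5_r : List (ℕ × ℕ × ℕ × ℕ) :=
  [(0, 0, 1, 2), (1, 0, 1, 3), (2, 0, 2, 3)]

/-- certificate `NB_3_1_11_5`, coordinates -/
def NB_3_1_11_5_p : List (ℕ × ℕ) := [(1, 3), (1, 5), (2, 4)]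

/-- certificate `NB_3_1_11_5`, combinations -/
def NB_3_1_11_5_c : List (ℕ × ℕ × ℕ × ℕ × ℕ) :=
  [(0, 2, 1, 168, 0),
    (0, 4, 1, 201, 0),
    (1, 3, 1, 8417, 0)]

theorem NB_3_1_11_5 : NUMA_stmt 3 1 11 5 :=
  NUB_two 3 1 8 11 5 6 36 264 3 1 rfl rfl rfl rfl rfl (by norm_num) (by norm_num)
    (by norm_num) (by norm_num) NB_3_1_11_5_r NB_3_1_11_5_p NB_3_1_11_5_c (by decide +kernel) (by decide +kernel)

end Pool.Agent.OE
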