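import Pool.Agent.helper21.OE.NUB

/-!
# Project OE: certificates modulo `13` for the antisymmetric part, discriminant -11
-/

namespace Pool.Agent.OE

set_option maxRecDepth 100000

/-- certificate `NB_3_1_13_1`, rows -/
def NB_3_1_13_1_r : List (ℕ × ℕ × ℕ × ℕ) :=
  []

/-- certificate `NB_3_1_13_1`, coordinates -/
def NB_3_1_13_1_p : List (ℕ × ℕ) := []

/-- certificate `NB_3_1_13_1`, combinations -/
def NB_3_1_13_1_c : List (ℕ × ℕ × ℕ × ℕ × ℕ) :=
  []

theorem NB_3_1_13_1 : NUMA_stmt 3 1 13 1 :=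
  NUB_two 3 1 10 13 1 2 4 88 3 1 rfl rfl rfl rfl rfl (by norm_num) (by norm_num)
    (by norm_num) (by norm_num) NB_3_1_13_1_r NB_3_1_13_1_p NB_3_1_13_1_c (by decide +kernel) (by decide +kernel)

/-- certificate `NB_3_1_13_2`, rows -/
def NB_3_1_13_2_r : List (ℕ × ℕ × ℕ × ℕ) :=
  [(0, 4, 1, 2)]

/-- certificate `NB_3_1_13_2`, coordinates -/
def NB_3_1_13_2_p : List (ℕ × ℕ) := [(1, 3)]

/-- certificate `NB_3_1_13_2`, combinations -/
def NB_3_1_13_2_c : List (ℕ × ℕ × ℕ × ℕ × ℕ) :=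
  [(0, 2, 2, 0, 2)]

theorem NB_3_1_13_2 : NUMA_stmt 3 1 13 2 :=
  NUB_two 3 1 10 13 2 3 9 132 3 1 rfl rfl rfl rfl rfl (by norm_num) (by norm_num)
    (by norm_num) (by norm_num) NB_3_1_13_2_r NB_3_1_13_2_p NB_3_1_13_2_c (by decide +kernel) (by decide +kernel)

/-- certificate `NB_3_1_13_3`, rows -/
def NB_3_1_13_3_r : List (ℕ × ℕ × ℕ × ℕ) :=
  [(0, 4, 1, 2)]

/-- certificate `NB_3_1_13_3`, coordinates -/
def NB_3_1_13_3_p : List (ℕ × ℕ) := [(1, 3)]

/-- certificate `NB_3_1_13_3`, combinations -/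
def NB_3_1_13_3_c : List (ℕ × ℕ × ℕ × ℕ × ℕ) :=
  [(0, 2, 1, 3, 0)]

theorem NB_3_1_13_3 : NUMA_stmt 3 1 13 3 :=
  NUB_two 3 1 10 13 3 4 16 176 3 1 rfl rfl rfl rfl rfl (by norm_num) (by norm_num)
    (by norm_num) (by norm_num) NB_3_1_13_3_r NB_3_1_13_3_p NB_3_1_13_3_c (by decide +kernel) (by decide +kernel)

/-- certificate `NB_3_1_13_4`, rows -/
def NB_3_1_13_4_r : List (ℕ × ℕ × ℕ × ℕ) :=
  [(0, 4, 1, 2), (1, 4, 2, 1), (2, 0, 2, 1)]

/-- certificate `NB_3_1_13_4`, coordinates -/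
def NB_3_1_13_4_p : List (ℕ × ℕ) := [(1, 3), (1, 5), (2, 4)]

/-- certificate `NB_3_1_13_4`, combinations -/
def NB_3_1_13_4_c : List (ℕ × ℕ × ℕ × ℕ × ℕ) :=
  [(0, 2, 1, 6473, 231),
    (0, 4, 2, 200, 396),
    (1, 3, 2, 10342, 132)]

theorem NB_3_1_13_4 : NUMA_stmt 3 1 13 4 :=
  NUB_two 3 1 10 13 4 5 25 220 3 1 rfl rfl rfl rfl rfl (by norm_num) (by norm_num)
    (by norm_num) (by norm_num) NB_3_1_13_4_r NB_3_1_13_4_p NB_3_1_13_4_c (by decide +kernel) (by decide +kernel)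

/-- certificate `NB_3_1_13_5`, rows -/
def NB_3_1_13_5_r : List (ℕ × ℕ × ℕ × ℕ) :=
  [(0, 4, 1, 2), (1, 4, 2, 1), (2, 0, 2, 1)]

/-- certificate `NB_3_1_13_5`, coordinates -/
def NB_3_1_13_5_p : List (ℕ × ℕ) := [(1, 3), (1, 5), (2, 4)]

/-- certificate `NB_3_1_13_5`, combinations -/
def NB_3_1_13_5_c : List (ℕ × ℕ × ℕ × ℕ × ℕ) :=
  [(0, 2, 1, 6343, 0),
    (0, 4, 1, 230, 0),
    (1, 3, 1, 12492, 264)]

theorem NB_3_1_13_5 : NUMA_stmt 3 1 13 5 :=
  NUB_two 3 1 10 13 5 6 36 264 3 1 rfl rfl rfl rfl rfl (by norm_num) (by norm_num)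
    (by norm_num) (by norm_num) NB_3_1_13_5_r NB_3_1_13_5_p NB_3_1_13_5_c (by decide +kernel) (by decide +kernel)

/-- certificate `NB_3_1_13_6`, rows -/
def NB_3_1_13_6_r : List (ℕ × ℕ × ℕ × ℕ) :=
  [(0, 4, 3, 3), (1, 0, 3, 2), (2, 3, 2, 2), (3, 3, 3, 2), (4, 0, 1, 2), (5, 4, 2, 1)]

/-- certificate `NB_3_1_13_6`, coordinates -/
def NB_3_1_13_6_p : List (ℕ × ℕ) := [(1, 3), (1, 5), (1, 7), (2, 4), (2, 6), (3, 5)]

/-- certificate `NB_3_1_13_6`, combinations -/
def NB_3_1_13_6_c : List (ℕ × ℕ × ℕ × ℕ × ℕ) :=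
  [(0, 2, 1, 110208197, 105026955),
    (0, 4, 1, 406201733, 311656487),
    (0, 6, 2, 305433702, 67177475),
    (1, 3, 1, 73469986, 43384869),
    (1, 5, 2, 371561512, 312520844),
    (2, 4, 2, 378896679, 2138312)]

theorem NB_3_1_13_6 : NUMA_stmt 3 1 13 6 :=
  NUB_two 3 1 10 13 6 7 49 308 3 1 rfl rfl rfl rfl rfl (by norm_num) (by norm_num)
    (by norm_num) (by norm_num) NB_3_1_13_6_r NB_3_1_13_6_p NB_3_1_13_6_c (by decide +kernel) (by decide +kernel)

/-- certificate `NB_3_1_13_7`, rows -/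
def NB_3_1_13_7_r : List (ℕ × ℕ × ℕ × ℕ) :=
  [(0, 4, 3, 3), (1, 0, 3, 2), (2, 3, 2, 2), (3, 3, 3, 2), (4, 0, 1, 2), (5, 4, 2, 1)]

/-- certificate `NB_3_1_13_7`, coordinates -/
def NB_3_1_13_7_p : List (ℕ × ℕ) := [(1, 3), (1, 5), (1, 7), (2, 4), (2, 6), (3, 5)]

/-- certificate `NB_3_1_13_7`, combinations -/
def NB_3_1_13_7_c : List (ℕ × ℕ × ℕ × ℕ × ℕ) :=
  [(0, 2, 1, 204868868, 79801632),
    (0, 4, 1, 274799685, 172203),
    (0, 6, 1, 414583908, 370318722),
    (1, 3, 1, 171257186, 212110375),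
    (1, 5, 1, 303403105, 211978560),
    (2, 4, 1, 271715370, 39944386)]

theorem NB_3_1_13_7 : NUMA_stmt 3 1 13 7 :=
  NUB_two 3 1 10 13 7 8 64 352 3 1 rfl rfl rfl rfl rfl (by norm_num) (by norm_num)
    (by norm_num) (by norm_num) NB_3_1_13_7_r NB_3_1_13_7_p NB_3_1_13_7_c (by decide +kernel) (by decide +kernel)

/-- certificate `NB_3_1_13_8`, rows -/
def NB_3_1_13_8_r : List (ℕ × ℕ × ℕ × ℕ) :=
  [(0, 4, 3, 3), (1, 0, 3, 2), (2, 3, 2, 2), (3, 3, 3, 2), (4, 0, 1, 2), (5, 4, 2, 1), (6, 3, 2, 3), (7, 4, 3, 1), (8, 4, 1, 2), (9, 3, 3, 1)]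

/-- certificate `NB_3_1_13_8`, coordinates -/
def NB_3_1_13_8_p : List (ℕ × ℕ) := [(1, 3), (1, 5), (1, 7), (1, 9), (2, 4), (2, 6), (2, 8), (3, 5), (3, 7), (4, 6)]

/-- certificate `NB_3_1_13_8`, combinations -/
def NB_3_1_13_8_c : List (ℕ × ℕ × ℕ × ℕ × ℕ) :=
  [(0, 2, 1, 428127851577442, 4400328278025),
    (0, 4, 1, 259863113700387, 143249037691911),
    (0, 6, 1, 118920208265569, 83943391037451),
    (0, 8, 2, 289481978549537, 38908209794059),
    (1, 3, 1, 110058582056032, 8806025441280),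
    (1, 5, 1, 186237502760968, 258593907611658),
    (1, 7, 2, 149956715652332, 284952927379458),
    (2, 4, 1, 316738067861516, 214651828900866),
    (2, 6, 2, 295024730574057, 79550579186696),
    (3, 5, 2, 73713831741796, 435454252295173)]

theorem NB_3_1_13_8 : NUMA_stmt 3 1 13 8 :=
  NUB_two 3 1 10 13 8 9 81 396 3 1 rfl rfl rfl rfl rfl (by norm_num) (by norm_num)
    (by norm_num) (by norm_num) NB_3_1_13_8_r NB_3_1_13_8_p NB_3_1_13_8_c (by decide +kernel) (by decide +kernel)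

/-- certificate `NB_3_1_13_9`, rows -/
def NB_3_1_13_9_r : List (ℕ × ℕ × ℕ × ℕ) :=
  [(0, 4, 3, 3), (1, 0, 3, 2), (2, 3, 2, 2), (3, 3, 3, 2), (4, 0, 1, 2), (5, 4, 2, 1), (6, 3, 2, 3), (7, 4, 3, 1), (8, 4, 1, 2), (9, 0, 3, 1)]

/-- certificate `NB_3_1_13_9`, coordinates -/
def NB_3_1_13_9_p : List (ℕ × ℕ) := [(1, 3), (1, 5), (1, 7), (1, 9), (2, 4), (2, 6), (2, 8), (3, 5), (3, 7), (4, 6)]

/-- certificate `NB_3_1_13_9`, combinations -/
def NB_3_1_13_9_c : List (ℕ × ℕ × ℕ × ℕ × ℕ) :=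
  [(0, 2, 1, 116622321098985, 425517849355429),
    (0, 4, 1, 398160754185227, 387031490692427),
    (0, 6, 1, 107997156251755, 111054031294816),
    (0, 8, 1, 321061824765032, 5498799697930),
    (1, 3, 1, 388232066958504, 179225032330284),
    (1, 5, 1, 388448931613994, 74767198790764),
    (1, 7, 1, 323539126290789, 328754248324324),
    (2, 4, 1, 143212875350409, 329863457481961),
    (2, 6, 1, 432417716699334, 75875971303527),
    (3, 5, 1, 431193447604422, 153937074324672)]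

theorem NB_3_1_13_9 : NUMA_stmt 3 1 13 9 :=
  NUB_two 3 1 10 13 9 10 100 440 3 1 rfl rfl rfl rfl rfl (by norm_num) (by norm_num)
    (by norm_num) (by norm_num) NB_3_1_13_9_r NB_3_1_13_9_p NB_3_1_13_9_c (by decide +kernel) (by decide +kernel)

/-- certificate `NB_3_1_13_11`, rows -/
def NB_3_1_13_11_r : List (ℕ × ℕ × ℕ × ℕ) :=
  [(0, 3, 4, 3), (1, 3, 3, 2), (2, 0, 2, 1), (3, 3, 2, 3), (4, 3, 1, 2), (5, 4, 4, 3), (6, 0, 3, 1), (7, 4, 2, 4), (8, 3, 3, 1), (9, 0, 3, 4), (10, 3, 1, 3), (11, 0, 2, 4), (12, 0, 3, 2), (13, 4, 4, 2), (14, 4, 4, 1)]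

/-- certificate `NB_3_1_13_11`, coordinates -/
def NB_3_1_13_11_p : List (ℕ × ℕ) := [(1, 3), (1, 5), (1, 7), (1, 9), (1, 11), (2, 4), (2, 6), (2, 8), (2, 10), (3, 5), (3, 7), (3, 9), (4, 6), (4, 8), (5, 7)]

/-- certificate `NB_3_1_13_11`, combinations -/
def NB_3_1_13_11_c : List (ℕ × ℕ × ℕ × ℕ × ℕ) :=
  [(0, 2, 1, 3765663553019894334695, 4911530449213987228000),
    (0, 4, 1, 10627740916373385188610, 11071940019523942388747),
    (0, 6, 1, 2620735022819615869984, 51132932496610636129),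
    (0, 8, 1, 1330588899522466001161, 4912756374829912853763),
    (0, 10, 1, 13325839856437783800904, 10738679462715107348779),
    (1, 3, 1, 7164661924559477441609, 12212898666129961264512),
    (1, 5, 1, 5063822651287375192064, 5029085513319414046824),
    (1, 7, 1, 12037949552614649795841, 10931255317782478269831),
    (1, 9, 1, 7240423647886153100614, 14359962938401678001163),
    (2, 4, 1, 1560012227009689390343, 2744245952748982643842),
    (2, 6, 1, 10663419522339521474569, 408279565909100890242),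
    (2, 8, 1, 445111412141426282884, 8347590060197004324011),
    (3, 5, 1, 6276541122131114887554, 13036515834472193798508),
    (3, 7, 1, 14582230257535963798668, 4950866787358860513612),
    (4, 6, 1, 308235548561508769991, 1627173382299895342434)]

theorem NB_3_1_13_11 : NUMA_stmt 3 1 13 11 :=
  NUB_two 3 1 10 13 11 12 144 528 3 1 rfl rfl rfl rfl rfl (by norm_num) (by norm_num)
    (by norm_num) (by norm_num) NB_3_1_13_11_r NB_3_1_13_11_p NB_3_1_13_11_c (by decide +kernel) (by decide +kernel)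

/-- certificate `NB_3_1_13_12`, rows -/
def NB_3_1_13_12_r : List (ℕ × ℕ × ℕ × ℕ) :=
  [(0, 3, 3, 1), (1, 3, 4, 2), (2, 0, 3, 5), (3, 3, 5, 3), (4, 0, 4, 1), (5, 3, 3, 5), (6, 4, 4, 2), (7, 4, 4, 5), (8, 3, 3, 3), (9, 0, 5, 2), (10, 4, 3, 2), (11, 3, 1, 2), (12, 4, 1, 5), (13, 4, 4, 1), (14, 3, 4, 3), (15, 4, 4, 3), (16, 4, 2, 3), (17, 3, 1, 5), (18, 3, 1, 3), (19, 0, 4, 5), (20, 0, 1, 2)]

/-- certificate `NB_3_1_13_12`, coordinates -/
def NB_3_1_13_12_p : List (ℕ × ℕ) := [(1, 3), (1, 5), (1, 7), (1, 9), (1, 11), (1, 13), (2, 4), (2, 6), (2, 8), (2, 10), (2, 12), (3, 5), (3, 7), (3, 9), (3, 11), (4, 6), (4, 8), (4, 10), (5, 7), (5, 9), (6, 8)]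

/-- certificate `NB_3_1_13_12`, combinations -/
def NB_3_1_13_12_c : List (ℕ × ℕ × ℕ × ℕ × ℕ) :=
  [(0, 2, 1, 11770335106071794507549625296171, 15209885635099160575909822818),
    (0, 4, 1, 13005809097436819458522746268999, 7750431887525662031863644203),
    (0, 6, 1, 15221751910435163971365030277412, 7474044912456082592366723336),
    (0, 8, 1, 5077221423402424916064433735685, 1668669673343783689496264709),
    (0, 10, 1, 11806246283336683316222379755777, 5005300036973394793074884802),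
    (0, 12, 2, 5517578700456867358752247257289, 8861847987572649409349189641),
    (1, 3, 1, 4210513752568779164905524734979, 6422084567787439881235497001),
    (1, 5, 1, 5280049225442748925291146649734, 11616882252099320006026756294),
    (1, 7, 1, 11647903683065255637035792837804, 6395344364901157187837296835),
    (1, 9, 1, 11496911221340510396886698625377, 7816057659065670012575482114),
    (1, 11, 2, 10385515461817011222427883244704, 2483366250547621748868677924),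
    (2, 4, 1, 2905918425111589481684766107911, 11500971908587755917285818603),
    (2, 6, 1, 5120248571358736316864118757602, 1241912000547624098994717026),
    (2, 8, 1, 2939231471688889610240347477381, 10146892500025840874734059850),
    (2, 10, 2, 283695084128189021257343206758, 2633155395274769214623219716),
    (3, 5, 1, 15303769399136940773596083786057, 1674827498694738318845149314),
    (3, 7, 1, 4009928817163983407932583842150, 2522171523648748325965988068),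
    (3, 9, 2, 6506962688848127177591442740616, 477529365082075645300015328),
    (4, 6, 1, 6708559450357192792685724175595, 11464472629822406669799424228),
    (4, 8, 2, 13084222293974363254625988351361, 15249503891928545598218993865),
    (5, 7, 2, 4250094022862478635031196798080, 13861885966881340857956466848)]

theorem NB_3_1_13_12 : NUMA_stmt 3 1 13 12 :=
  NUB_two 3 1 10 13 12 13 169 572 3 1 rfl rfl rfl rfl rfl (by norm_num) (by norm_num)
    (by norm_num) (by norm_num) NB_3_1_13_12_r NB_3_1_13_12_p NB_3_1_13_12_c (by decide +kernel) (by decide +kernel)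

end Pool.Agent.OE
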