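import Pool.Agent.helper21.OE.DefX
import Pool.Agent.helper21.OE.PA
import Pool.Agent.helper21.OE.PB
import Pool.Agent.helper21.OE.PC
import Pool.Agent.helper21.OE.PD
import Pool.Agent.helper21.OE.PE
import Pool.Agent.helper21.OE.Q20x3a
import Pool.Agent.helper21.OE.Q20x5a
import Pool.Agent.helper21.OE.Q20x7a
import Pool.Agent.helper21.OE.Q20x11a
import Pool.Agent.helper21.OE.Q20x13a
import Pool.Agent.helper21.OE.Q20x17a
import Pool.Agent.helper21.OE.Q20x19a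
import Pool.Agent.helper21.OE.Q20x23a
import Pool.Agent.helper21.OE.Q20x23b
import Pool.Agent.helper21.OE.Q20x29a
import Pool.Agent.helper21.OE.Q20x29b
import Pool.Agent.helper21.OE.Q20x29c
import Pool.Agent.helper21.OE.Q20x31a
import Pool.Agent.helper21.OE.Q20x31b
import Pool.Agent.helper21.OE.Q20x31c
import Pool.Agent.helper21.OE.Q20x31d
import Pool.Agent.helper21.OE.Q21x3a
import Pool.Agent.helper21.OE.Q21x5a
import Pool.Agent.helper21.OE.Q21x7a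
import Pool.Agent.helper21.OE.Q21x11a
import Pool.Agent.helper21.OE.Q21x13a
import Pool.Agent.helper21.OE.Q21x17a
import Pool.Agent.helper21.OE.Q21x19a
import Pool.Agent.helper21.OE.Q21x23a
import Pool.Agent.helper21.OE.Q21x23b
import Pool.Agent.helper21.OE.Q21x29a
import Pool.Agent.helper21.OE.Q21x29b
import Pool.Agent.helper21.OE.Q21x29c
import Pool.Agent.helper21.OE.Q21x31a
import Pool.Agent.helper21.OE.Q21x31b
import Pool.Agent.helper21.OE.Q21x31c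
import Pool.Agent.helper21.OE.Q21x31d
import Pool.Agent.helper21.OE.Q31x3a
import Pool.Agent.helper21.OE.Q31x5a
import Pool.Agent.helper21.OE.Q31x7a
import Pool.Agent.helper21.OE.Q31x11a
import Pool.Agent.helper21.OE.Q31x13a
import Pool.Agent.helper21.OE.Q31x17a
import Pool.Agent.helper21.OE.Q31x19a
import Pool.Agent.helper21.OE.Q31x23a
import Pool.Agent.helper21.OE.Q31x23b
import Pool.Agent.helper21.OE.Q31x29a
import Pool.Agent.helper21.OE.Q31x29b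
import Pool.Agent.helper21.OE.Q31x29c
import Pool.Agent.helper21.OE.Q31x31a
import Pool.Agent.helper21.OE.Q31x31b
import Pool.Agent.helper21.OE.Q31x31c
import Pool.Agent.helper21.OE.Q31x31d
import Pool.Agent.helper21.OE.Q10x29a
import Pool.Agent.helper21.OE.Q10x31a
import Pool.Agent.helper21.OE.Q11x29a
import Pool.Agent.helper21.OE.Q11x31a
import Pool.Agent.helper21.OE.Q11x3a

/-!
# Project OE: the certificates put together
-/

namespace Pool.Agent.OE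

theorem QL_fac (l j : ℕ) (hlp : l.Prime) (hj : j < l) : ¬ l ∣ j.factorial ^ 8 := by
  intro h
  have h1 := hlp.dvd_of_dvd_pow h
  rw [hlp.dvd_factorial] at h1
  omega

/-- discriminant `-4`, weights up to `22` -/
theorem QL_four (l j : ℕ) (hlp : l.Prime) (hl2 : l ≠ 2) (h1 : 1 ≤ j) (h22 : j ≤ 22) (hjl : j < l)
    (h409 : ¬ (j = 20 ∧ l = 409)) : NUMA_stmt 1 0 l j := by
  have hf := QL_fac l j hlp hjl
  have h3 : l ≠ 3 ∨ (0 : ℤ) = 0 := Or.inr rfl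
  have h20 : j = 20 → ¬ l ∣ (409 * (20).factorial) ^ 8 := by
    intro h h5
    have h6 := hlp.dvd_of_dvd_pow h5
    rcases hlp.dvd_mul.mp h6 with h7 | h7
    · have h8 : Nat.Prime 409 := by norm_num
      exact h409 ⟨h, (Nat.prime_dvd_prime_iff_eq hlp h8).mp h7⟩
    · rw [hlp.dvd_factorial] at h7
      omega
  interval_cases j
  · exact @NA_4_1 l hlp hl2 h3 hf
  · exact @NA_4_2 l hlp hl2 h3 hf
  · exact @NA_4_3 l hlp hl2 h3 hf
  · exact @NA_4_4 l hlp hl2 h3 hf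
  · exact @NA_4_5 l hlp hl2 h3 hf
  · exact @NA_4_6 l hlp hl2 h3 hf
  · exact @NA_4_7 l hlp hl2 h3 hf
  · exact @NA_4_8 l hlp hl2 h3 hf
  · exact @NA_4_9 l hlp hl2 h3 hf
  · exact @NA_4_10 l hlp hl2 h3 hf
  · exact @NA_4_11 l hlp hl2 h3 hf
  · exact @NA_4_12 l hlp hl2 h3 hf
  · exact @NA_4_13 l hlp hl2 h3 hf
  · exact @NA_4_14 l hlp hl2 h3 hf
  · exact @NA_4_15 l hlp hl2 h3 hf
  · exact @NA_4_16 l hlp hl2 h3 hf
  · exact @NA_4_17 l hlp hl2 h3 hf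
  · exact @NA_4_18 l hlp hl2 h3 hf
  · exact @NA_4_19 l hlp hl2 h3 hf
  · exact @NA_4_20 l hlp hl2 h3 (h20 rfl)
  · exact @NA_4_21 l hlp hl2 h3 hf
  · exact @NA_4_22 l hlp hl2 h3 hf

/-- discriminant `-3`, weights up to `22` -/
theorem QL_three (l j : ℕ) (hlp : l.Prime) (hl2 : l ≠ 2) (hl3 : l ≠ 3) (h1 : 1 ≤ j) (h22 : j ≤ 22)
    (hjl : j < l) : NUMA_stmt 1 1 l j := by
  have hf := QL_fac l j hlp hjl
  have h3 : l ≠ 3 ∨ (1 : ℤ) = 0 := Or.inl hl3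
  interval_cases j
  · exact @NA_6_1 l hlp hl2 h3 hf
  · exact @NA_6_2 l hlp hl2 h3 hf
  · exact @NA_6_3 l hlp hl2 h3 hf
  · exact @NA_6_4 l hlp hl2 h3 hf
  · exact @NA_6_5 l hlp hl2 h3 hf
  · exact @NA_6_6 l hlp hl2 h3 hf
  · exact @NA_6_7 l hlp hl2 h3 hf
  · exact @NA_6_8 l hlp hl2 h3 hf
  · exact @NA_6_9 l hlp hl2 h3 hf
  · exact @NA_6_10 l hlp hl2 h3 hf
  · exact @NA_6_11 l hlp hl2 h3 hf
  · exact @NA_6_12 l hlp hl2 h3 hf
  · exact @NA_6_13 l hlp hl2 h3 hf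
  · exact @NA_6_14 l hlp hl2 h3 hf
  · exact @NA_6_15 l hlp hl2 h3 hf
  · exact @NA_6_16 l hlp hl2 h3 hf
  · exact @NA_6_17 l hlp hl2 h3 hf
  · exact @NA_6_18 l hlp hl2 h3 hf
  · exact @NA_6_19 l hlp hl2 h3 hf
  · exact @NA_6_20 l hlp hl2 h3 hf
  · exact @NA_6_21 l hlp hl2 h3 hf
  · exact @NA_6_22 l hlp hl2 h3 hf

theorem QL_2_0_3 (j : ℕ) (h1' : 1 ≤ j) (h2' : j ≤ 2) :
    NUMA_stmt 2 0 3 j := by
  interval_cases j
  · exact @NB_2_0_3_1
  · exact @NB_2_0_3_2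

theorem QL_2_0_5 (j : ℕ) (h1' : 1 ≤ j) (h2' : j ≤ 4) :
    NUMA_stmt 2 0 5 j := by
  interval_cases j
  · exact @NB_2_0_5_1
  · exact @NB_2_0_5_2
  · exact @NB_2_0_5_3
  · exact @NB_2_0_5_4

theorem QL_2_0_7 (j : ℕ) (h1' : 1 ≤ j) (h2' : j ≤ 6) :
    NUMA_stmt 2 0 7 j := by
  interval_cases j
  · exact @NB_2_0_7_1
  · exact @NB_2_0_7_2
  · exact @NB_2_0_7_3
  · exact @NB_2_0_7_4
  · exact @NB_2_0_7_5
  · exact @NB_2_0_7_6

theorem QL_2_0_11 (j : ℕ) (h1' : 1 ≤ j) (h2' : j ≤ 10) :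
    NUMA_stmt 2 0 11 j := by
  interval_cases j
  · exact @NB_2_0_11_1
  · exact @NB_2_0_11_2
  · exact @NB_2_0_11_3
  · exact @NB_2_0_11_4
  · exact @NB_2_0_11_5
  · exact @NB_2_0_11_6
  · exact @NB_2_0_11_7
  · exact @NB_2_0_11_8
  · exact @NB_2_0_11_9
  · exact @NB_2_0_11_10

theorem QL_2_0_13 (j : ℕ) (h1' : 1 ≤ j) (h2' : j ≤ 12) :
    NUMA_stmt 2 0 13 j := by
  interval_cases j
  · exact @NB_2_0_13_1
  · exact @NB_2_0_13_2
  · exact @NB_2_0_13_3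
  · exact @NB_2_0_13_4
  · exact @NB_2_0_13_5
  · exact @NB_2_0_13_6
  · exact @NB_2_0_13_7
  · exact @NB_2_0_13_8
  · exact @NB_2_0_13_9
  · exact @NB_2_0_13_10
  · exact @NB_2_0_13_11
  · exact @NB_2_0_13_12

theorem QL_2_0_17 (j : ℕ) (h1' : 1 ≤ j) (h2' : j ≤ 16) :
    NUMA_stmt 2 0 17 j := by
  interval_cases j
  · exact @NB_2_0_17_1
  · exact @NB_2_0_17_2
  · exact @NB_2_0_17_3
  · exact @NB_2_0_17_4
  · exact @NB_2_0_17_5
  · exact @NB_2_0_17_6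
  · exact @NB_2_0_17_7
  · exact @NB_2_0_17_8
  · exact @NB_2_0_17_9
  · exact @NB_2_0_17_10
  · exact @NB_2_0_17_11
  · exact @NB_2_0_17_12
  · exact @NB_2_0_17_13
  · exact @NB_2_0_17_14
  · exact @NB_2_0_17_15
  · exact @NB_2_0_17_16

theorem QL_2_0_19 (j : ℕ) (h1' : 1 ≤ j) (h2' : j ≤ 18) :
    NUMA_stmt 2 0 19 j := by
  interval_cases j
  · exact @NB_2_0_19_1
  · exact @NB_2_0_19_2
  · exact @NB_2_0_19_3
  · exact @NB_2_0_19_4
  · exact @NB_2_0_19_5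
  · exact @NB_2_0_19_6
  · exact @NB_2_0_19_7
  · exact @NB_2_0_19_8
  · exact @NB_2_0_19_9
  · exact @NB_2_0_19_10
  · exact @NB_2_0_19_11
  · exact @NB_2_0_19_12
  · exact @NB_2_0_19_13
  · exact @NB_2_0_19_14
  · exact @NB_2_0_19_15
  · exact @NB_2_0_19_16
  · exact @NB_2_0_19_17
  · exact @NB_2_0_19_18

theorem QL_2_0_23 (j : ℕ) (h1' : 1 ≤ j) (h2' : j ≤ 22) :
    NUMA_stmt 2 0 23 j := by
  interval_cases j
  · exact @NB_2_0_23_1
  · exact @NB_2_0_23_2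
  · exact @NB_2_0_23_3
  · exact @NB_2_0_23_4
  · exact @NB_2_0_23_5
  · exact @NB_2_0_23_6
  · exact @NB_2_0_23_7
  · exact @NB_2_0_23_8
  · exact @NB_2_0_23_9
  · exact @NB_2_0_23_10
  · exact @NB_2_0_23_11
  · exact @NB_2_0_23_12
  · exact @NB_2_0_23_13
  · exact @NB_2_0_23_14
  · exact @NB_2_0_23_15
  · exact @NB_2_0_23_16
  · exact @NB_2_0_23_17
  · exact @NB_2_0_23_18
  · exact @NB_2_0_23_19
  · exact @NB_2_0_23_20
  · exact @NB_2_0_23_21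
  · exact @NB_2_0_23_22

theorem QL_2_0_29 (j : ℕ) (h1' : 1 ≤ j) (h2' : j ≤ 28) :
    NUMA_stmt 2 0 29 j := by
  interval_cases j
  · exact @NB_2_0_29_1
  · exact @NB_2_0_29_2
  · exact @NB_2_0_29_3
  · exact @NB_2_0_29_4
  · exact @NB_2_0_29_5
  · exact @NB_2_0_29_6
  · exact @NB_2_0_29_7
  · exact @NB_2_0_29_8
  · exact @NB_2_0_29_9
  · exact @NB_2_0_29_10
  · exact @NB_2_0_29_11
  · exact @NB_2_0_29_12
  · exact @NB_2_0_29_13
  · exact @NB_2_0_29_14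
  · exact @NB_2_0_29_15
  · exact @NB_2_0_29_16
  · exact @NB_2_0_29_17
  · exact @NB_2_0_29_18
  · exact @NB_2_0_29_19
  · exact @NB_2_0_29_20
  · exact @NB_2_0_29_21
  · exact @NB_2_0_29_22
  · exact @NB_2_0_29_23
  · exact @NB_2_0_29_24
  · exact @NB_2_0_29_25
  · exact @NB_2_0_29_26
  · exact @NB_2_0_29_27
  · exact @NB_2_0_29_28

theorem QL_2_0_31 (j : ℕ) (h1' : 1 ≤ j) (h2' : j ≤ 30) :
    NUMA_stmt 2 0 31 j := by
  interval_cases j
  · exact @NB_2_0_31_1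
  · exact @NB_2_0_31_2
  · exact @NB_2_0_31_3
  · exact @NB_2_0_31_4
  · exact @NB_2_0_31_5
  · exact @NB_2_0_31_6
  · exact @NB_2_0_31_7
  · exact @NB_2_0_31_8
  · exact @NB_2_0_31_9
  · exact @NB_2_0_31_10
  · exact @NB_2_0_31_11
  · exact @NB_2_0_31_12
  · exact @NB_2_0_31_13
  · exact @NB_2_0_31_14
  · exact @NB_2_0_31_15
  · exact @NB_2_0_31_16
  · exact @NB_2_0_31_17
  · exact @NB_2_0_31_18
  · exact @NB_2_0_31_19
  · exact @NB_2_0_31_20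
  · exact @NB_2_0_31_21
  · exact @NB_2_0_31_22
  · exact @NB_2_0_31_23
  · exact @NB_2_0_31_24
  · exact @NB_2_0_31_25
  · exact @NB_2_0_31_26
  · exact @NB_2_0_31_27
  · exact @NB_2_0_31_28
  · exact @NB_2_0_31_29
  · exact @NB_2_0_31_30

theorem QL_2_1_3 (j : ℕ) (h1' : 1 ≤ j) (h2' : j ≤ 2) :
    NUMA_stmt 2 1 3 j := by
  interval_cases j
  · exact @NB_2_1_3_1
  · exact @NB_2_1_3_2

theorem QL_2_1_5 (j : ℕ) (h1' : 1 ≤ j) (h2' : j ≤ 4) :
    NUMA_stmt 2 1 5 j := by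
  interval_cases j
  · exact @NB_2_1_5_1
  · exact @NB_2_1_5_2
  · exact @NB_2_1_5_3
  · exact @NB_2_1_5_4

theorem QL_2_1_7 (j : ℕ) (h1' : 1 ≤ j) (h2' : j ≤ 3) :
    NUMA_stmt 2 1 7 j := by
  interval_cases j
  · exact @NB_2_1_7_1
  · exact @NB_2_1_7_2
  · exact @NB_2_1_7_3

theorem QL_2_1_11 (j : ℕ) (h1' : 1 ≤ j) (h2' : j ≤ 10) :
    NUMA_stmt 2 1 11 j := by
  interval_cases j
  · exact @NB_2_1_11_1
  · exact @NB_2_1_11_2
  · exact @NB_2_1_11_3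
  · exact @NB_2_1_11_4
  · exact @NB_2_1_11_5
  · exact @NB_2_1_11_6
  · exact @NB_2_1_11_7
  · exact @NB_2_1_11_8
  · exact @NB_2_1_11_9
  · exact @NB_2_1_11_10

theorem QL_2_1_13 (j : ℕ) (h1' : 1 ≤ j) (h2' : j ≤ 12) :
    NUMA_stmt 2 1 13 j := by
  interval_cases j
  · exact @NB_2_1_13_1
  · exact @NB_2_1_13_2
  · exact @NB_2_1_13_3
  · exact @NB_2_1_13_4
  · exact @NB_2_1_13_5
  · exact @NB_2_1_13_6
  · exact @NB_2_1_13_7
  · exact @NB_2_1_13_8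
  · exact @NB_2_1_13_9
  · exact @NB_2_1_13_10
  · exact @NB_2_1_13_11
  · exact @NB_2_1_13_12

theorem QL_2_1_17 (j : ℕ) (h1' : 1 ≤ j) (h2' : j ≤ 16) :
    NUMA_stmt 2 1 17 j := by
  interval_cases j
  · exact @NB_2_1_17_1
  · exact @NB_2_1_17_2
  · exact @NB_2_1_17_3
  · exact @NB_2_1_17_4
  · exact @NB_2_1_17_5
  · exact @NB_2_1_17_6
  · exact @NB_2_1_17_7
  · exact @NB_2_1_17_8
  · exact @NB_2_1_17_9
  · exact @NB_2_1_17_10
  · exact @NB_2_1_17_11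
  · exact @NB_2_1_17_12
  · exact @NB_2_1_17_13
  · exact @NB_2_1_17_14
  · exact @NB_2_1_17_15
  · exact @NB_2_1_17_16

theorem QL_2_1_19 (j : ℕ) (h1' : 1 ≤ j) (h2' : j ≤ 18) :
    NUMA_stmt 2 1 19 j := by
  interval_cases j
  · exact @NB_2_1_19_1
  · exact @NB_2_1_19_2
  · exact @NB_2_1_19_3
  · exact @NB_2_1_19_4
  · exact @NB_2_1_19_5
  · exact @NB_2_1_19_6
  · exact @NB_2_1_19_7
  · exact @NB_2_1_19_8
  · exact @NB_2_1_19_9
  · exact @NB_2_1_19_10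
  · exact @NB_2_1_19_11
  · exact @NB_2_1_19_12
  · exact @NB_2_1_19_13
  · exact @NB_2_1_19_14
  · exact @NB_2_1_19_15
  · exact @NB_2_1_19_16
  · exact @NB_2_1_19_17
  · exact @NB_2_1_19_18

theorem QL_2_1_23 (j : ℕ) (h1' : 1 ≤ j) (h2' : j ≤ 22) :
    NUMA_stmt 2 1 23 j := by
  interval_cases j
  · exact @NB_2_1_23_1
  · exact @NB_2_1_23_2
  · exact @NB_2_1_23_3
  · exact @NB_2_1_23_4
  · exact @NB_2_1_23_5
  · exact @NB_2_1_23_6
  · exact @NB_2_1_23_7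
  · exact @NB_2_1_23_8
  · exact @NB_2_1_23_9
  · exact @NB_2_1_23_10
  · exact @NB_2_1_23_11
  · exact @NB_2_1_23_12
  · exact @NB_2_1_23_13
  · exact @NB_2_1_23_14
  · exact @NB_2_1_23_15
  · exact @NB_2_1_23_16
  · exact @NB_2_1_23_17
  · exact @NB_2_1_23_18
  · exact @NB_2_1_23_19
  · exact @NB_2_1_23_20
  · exact @NB_2_1_23_21
  · exact @NB_2_1_23_22

theorem QL_2_1_29 (j : ℕ) (h1' : 1 ≤ j) (h2' : j ≤ 28) :
    NUMA_stmt 2 1 29 j := by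
  interval_cases j
  · exact @NB_2_1_29_1
  · exact @NB_2_1_29_2
  · exact @NB_2_1_29_3
  · exact @NB_2_1_29_4
  · exact @NB_2_1_29_5
  · exact @NB_2_1_29_6
  · exact @NB_2_1_29_7
  · exact @NB_2_1_29_8
  · exact @NB_2_1_29_9
  · exact @NB_2_1_29_10
  · exact @NB_2_1_29_11
  · exact @NB_2_1_29_12
  · exact @NB_2_1_29_13
  · exact @NB_2_1_29_14
  · exact @NB_2_1_29_15
  · exact @NB_2_1_29_16
  · exact @NB_2_1_29_17
  · exact @NB_2_1_29_18
  · exact @NB_2_1_29_19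
  · exact @NB_2_1_29_20
  · exact @NB_2_1_29_21
  · exact @NB_2_1_29_22
  · exact @NB_2_1_29_23
  · exact @NB_2_1_29_24
  · exact @NB_2_1_29_25
  · exact @NB_2_1_29_26
  · exact @NB_2_1_29_27
  · exact @NB_2_1_29_28

theorem QL_2_1_31 (j : ℕ) (h1' : 1 ≤ j) (h2' : j ≤ 30) (h30 : j ≠ 30) :
    NUMA_stmt 2 1 31 j := by
  interval_cases j
  · exact @NB_2_1_31_1
  · exact @NB_2_1_31_2
  · exact @NB_2_1_31_3
  · exact @NB_2_1_31_4
  · exact @NB_2_1_31_5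
  · exact @NB_2_1_31_6
  · exact @NB_2_1_31_7
  · exact @NB_2_1_31_8
  · exact @NB_2_1_31_9
  · exact @NB_2_1_31_10
  · exact @NB_2_1_31_11
  · exact @NB_2_1_31_12
  · exact @NB_2_1_31_13
  · exact @NB_2_1_31_14
  · exact @NB_2_1_31_15
  · exact @NB_2_1_31_16
  · exact @NB_2_1_31_17
  · exact @NB_2_1_31_18
  · exact @NB_2_1_31_19
  · exact @NB_2_1_31_20
  · exact @NB_2_1_31_21
  · exact @NB_2_1_31_22
  · exact @NB_2_1_31_23
  · exact @NB_2_1_31_24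
  · exact @NB_2_1_31_25
  · exact @NB_2_1_31_26
  · exact @NB_2_1_31_27
  · exact @NB_2_1_31_28
  · exact @NB_2_1_31_29
  · exact absurd rfl h30

theorem QL_3_1_3 (j : ℕ) (h1' : 1 ≤ j) (h2' : j ≤ 2) :
    NUMA_stmt 3 1 3 j := by
  interval_cases j
  · exact @NB_3_1_3_1
  · exact @NB_3_1_3_2

theorem QL_3_1_5 (j : ℕ) (h1' : 1 ≤ j) (h2' : j ≤ 4) :
    NUMA_stmt 3 1 5 j := by
  interval_cases j
  · exact @NB_3_1_5_1
  · exact @NB_3_1_5_2
  · exact @NB_3_1_5_3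
  · exact @NB_3_1_5_4

theorem QL_3_1_7 (j : ℕ) (h1' : 1 ≤ j) (h2' : j ≤ 6) :
    NUMA_stmt 3 1 7 j := by
  interval_cases j
  · exact @NB_3_1_7_1
  · exact @NB_3_1_7_2
  · exact @NB_3_1_7_3
  · exact @NB_3_1_7_4
  · exact @NB_3_1_7_5
  · exact @NB_3_1_7_6

theorem QL_3_1_11 (j : ℕ) (h1' : 1 ≤ j) (h2' : j ≤ 5) :
    NUMA_stmt 3 1 11 j := by
  interval_cases j
  · exact @NB_3_1_11_1
  · exact @NB_3_1_11_2
  · exact @NB_3_1_11_3
  · exact @NB_3_1_11_4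
  · exact @NB_3_1_11_5

theorem QL_3_1_13 (j : ℕ) (h1' : 1 ≤ j) (h2' : j ≤ 12) (h10 : j ≠ 10) :
    NUMA_stmt 3 1 13 j := by
  interval_cases j
  · exact @NB_3_1_13_1
  · exact @NB_3_1_13_2
  · exact @NB_3_1_13_3
  · exact @NB_3_1_13_4
  · exact @NB_3_1_13_5
  · exact @NB_3_1_13_6
  · exact @NB_3_1_13_7
  · exact @NB_3_1_13_8
  · exact @NB_3_1_13_9
  · exact absurd rfl h10
  · exact @NB_3_1_13_11
  · exact @NB_3_1_13_12

theorem QL_3_1_17 (j : ℕ) (h1' : 1 ≤ j) (h2' : j ≤ 16) (h10 : j ≠ 10) :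
    NUMA_stmt 3 1 17 j := by
  interval_cases j
  · exact @NB_3_1_17_1
  · exact @NB_3_1_17_2
  · exact @NB_3_1_17_3
  · exact @NB_3_1_17_4
  · exact @NB_3_1_17_5
  · exact @NB_3_1_17_6
  · exact @NB_3_1_17_7
  · exact @NB_3_1_17_8
  · exact @NB_3_1_17_9
  · exact absurd rfl h10
  · exact @NB_3_1_17_11
  · exact @NB_3_1_17_12
  · exact @NB_3_1_17_13
  · exact @NB_3_1_17_14
  · exact @NB_3_1_17_15
  · exact @NB_3_1_17_16

theorem QL_3_1_19 (j : ℕ) (h1' : 1 ≤ j) (h2' : j ≤ 18) (h10 : j ≠ 10) :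
    NUMA_stmt 3 1 19 j := by
  interval_cases j
  · exact @NB_3_1_19_1
  · exact @NB_3_1_19_2
  · exact @NB_3_1_19_3
  · exact @NB_3_1_19_4
  · exact @NB_3_1_19_5
  · exact @NB_3_1_19_6
  · exact @NB_3_1_19_7
  · exact @NB_3_1_19_8
  · exact @NB_3_1_19_9
  · exact absurd rfl h10
  · exact @NB_3_1_19_11
  · exact @NB_3_1_19_12
  · exact @NB_3_1_19_13
  · exact @NB_3_1_19_14
  · exact @NB_3_1_19_15
  · exact @NB_3_1_19_16
  · exact @NB_3_1_19_17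
  · exact @NB_3_1_19_18

theorem QL_3_1_23 (j : ℕ) (h1' : 1 ≤ j) (h2' : j ≤ 22) (h10 : j ≠ 10) (h19 : j ≠ 19) :
    NUMA_stmt 3 1 23 j := by
  interval_cases j
  · exact @NB_3_1_23_1
  · exact @NB_3_1_23_2
  · exact @NB_3_1_23_3
  · exact @NB_3_1_23_4
  · exact @NB_3_1_23_5
  · exact @NB_3_1_23_6
  · exact @NB_3_1_23_7
  · exact @NB_3_1_23_8
  · exact @NB_3_1_23_9
  · exact absurd rfl h10
  · exact @NB_3_1_23_11
  · exact @NB_3_1_23_12
  · exact @NB_3_1_23_13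
  · exact @NB_3_1_23_14
  · exact @NB_3_1_23_15
  · exact @NB_3_1_23_16
  · exact @NB_3_1_23_17
  · exact @NB_3_1_23_18
  · exact absurd rfl h19
  · exact @NB_3_1_23_20
  · exact @NB_3_1_23_21
  · exact @NB_3_1_23_22

theorem QL_3_1_29 (j : ℕ) (h1' : 1 ≤ j) (h2' : j ≤ 28) (h10 : j ≠ 10) :
    NUMA_stmt 3 1 29 j := by
  interval_cases j
  · exact @NB_3_1_29_1
  · exact @NB_3_1_29_2
  · exact @NB_3_1_29_3
  · exact @NB_3_1_29_4
  · exact @NB_3_1_29_5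
  · exact @NB_3_1_29_6
  · exact @NB_3_1_29_7
  · exact @NB_3_1_29_8
  · exact @NB_3_1_29_9
  · exact absurd rfl h10
  · exact @NB_3_1_29_11
  · exact @NB_3_1_29_12
  · exact @NB_3_1_29_13
  · exact @NB_3_1_29_14
  · exact @NB_3_1_29_15
  · exact @NB_3_1_29_16
  · exact @NB_3_1_29_17
  · exact @NB_3_1_29_18
  · exact @NB_3_1_29_19
  · exact @NB_3_1_29_20
  · exact @NB_3_1_29_21
  · exact @NB_3_1_29_22
  · exact @NB_3_1_29_23
  · exact @NB_3_1_29_24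
  · exact @NB_3_1_29_25
  · exact @NB_3_1_29_26
  · exact @NB_3_1_29_27
  · exact @NB_3_1_29_28

theorem QL_3_1_31 (j : ℕ) (h1' : 1 ≤ j) (h2' : j ≤ 30) (h10 : j ≠ 10) (h30 : j ≠ 30) :
    NUMA_stmt 3 1 31 j := by
  interval_cases j
  · exact @NB_3_1_31_1
  · exact @NB_3_1_31_2
  · exact @NB_3_1_31_3
  · exact @NB_3_1_31_4
  · exact @NB_3_1_31_5
  · exact @NB_3_1_31_6
  · exact @NB_3_1_31_7
  · exact @NB_3_1_31_8
  · exact @NB_3_1_31_9
  · exact absurd rfl h10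
  · exact @NB_3_1_31_11
  · exact @NB_3_1_31_12
  · exact @NB_3_1_31_13
  · exact @NB_3_1_31_14
  · exact @NB_3_1_31_15
  · exact @NB_3_1_31_16
  · exact @NB_3_1_31_17
  · exact @NB_3_1_31_18
  · exact @NB_3_1_31_19
  · exact @NB_3_1_31_20
  · exact @NB_3_1_31_21
  · exact @NB_3_1_31_22
  · exact @NB_3_1_31_23
  · exact @NB_3_1_31_24
  · exact @NB_3_1_31_25
  · exact @NB_3_1_31_26
  · exact @NB_3_1_31_27
  · exact @NB_3_1_31_28
  · exact @NB_3_1_31_29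
  · exact absurd rfl h30

theorem QL_1_0_29 (j : ℕ) (h1' : 23 ≤ j) (h2' : j ≤ 28) :
    NUMA_stmt 1 0 29 j := by
  interval_cases j
  · exact @NB_1_0_29_23
  · exact @NB_1_0_29_24
  · exact @NB_1_0_29_25
  · exact @NB_1_0_29_26
  · exact @NB_1_0_29_27
  · exact @NB_1_0_29_28

theorem QL_1_0_31 (j : ℕ) (h1' : 23 ≤ j) (h2' : j ≤ 30) :
    NUMA_stmt 1 0 31 j := by
  interval_cases j
  · exact @NB_1_0_31_23
  · exact @NB_1_0_31_24
  · exact @NB_1_0_31_25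
  · exact @NB_1_0_31_26
  · exact @NB_1_0_31_27
  · exact @NB_1_0_31_28
  · exact @NB_1_0_31_29
  · exact @NB_1_0_31_30

theorem QL_1_1_29 (j : ℕ) (h1' : 23 ≤ j) (h2' : j ≤ 28) :
    NUMA_stmt 1 1 29 j := by
  interval_cases j
  · exact @NB_1_1_29_23
  · exact @NB_1_1_29_24
  · exact @NB_1_1_29_25
  · exact @NB_1_1_29_26
  · exact @NB_1_1_29_27
  · exact @NB_1_1_29_28

theorem QL_1_1_31 (j : ℕ) (h1' : 23 ≤ j) (h2' : j ≤ 30) :
    NUMA_stmt 1 1 31 j := by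
  interval_cases j
  · exact @NB_1_1_31_23
  · exact @NB_1_1_31_24
  · exact @NB_1_1_31_25
  · exact @NB_1_1_31_26
  · exact @NB_1_1_31_27
  · exact @NB_1_1_31_28
  · exact @NB_1_1_31_29
  · exact @NB_1_1_31_30

/-- all the cases with `ℓ ≤ 31` -/
theorem QL_all (d t : ℤ) (hdt : IsEuc d t) (l j : ℕ) (hlp : l.Prime) (hl2 : l ≠ 2) (h31 : l ≤ 31)
    (h1 : 1 ≤ j) (hjl : j ≤ l - 1) (hram : ((l : ℕ) : ℤ) ∣ t ^ 2 - 4 * d → 2 * j ≤ l - 1)
    (hexc : ¬ Exc d t l j) : NUMA_stmt d t l j := by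
  have hpl := hlp.two_le
  have hcases : l = 3 ∨ l = 5 ∨ l = 7 ∨ l = 11 ∨ l = 13 ∨ l = 17 ∨ l = 19 ∨ l = 23 ∨ l = 29 ∨
      l = 31 := by
    interval_cases l <;> first | omega | (exfalso; revert hlp; norm_num)
  unfold Exc at hexc
  rcases hdt with ⟨rfl, rfl | rfl⟩ | ⟨rfl, rfl | rfl | rfl⟩
  · rcases le_or_gt j 22 with h22 | h22
    · exact @QL_four l j hlp hl2 h1 h22 (by omega) (by omega)
    · rcases hcases with rfl | rfl | rfl | rfl | rfl | rfl | rfl | rfl | rfl | rfl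
      all_goals first
        | omega
        | exact @QL_1_0_29 j (by omega) (by omega)
        | exact @QL_1_0_31 j (by omega) (by omega)
  · rcases hcases with rfl | rfl | rfl | rfl | rfl | rfl | rfl | rfl | rfl | rfl
    · exact @QL_2_0_3 j h1 (by omega)
    · exact @QL_2_0_5 j h1 (by omega)
    · exact @QL_2_0_7 j h1 (by omega)
    · exact @QL_2_0_11 j h1 (by omega)
    · exact @QL_2_0_13 j h1 (by omega)
    · exact @QL_2_0_17 j h1 (by omega)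
    · exact @QL_2_0_19 j h1 (by omega)
    · exact @QL_2_0_23 j h1 (by omega)
    · exact @QL_2_0_29 j h1 (by omega)
    · exact @QL_2_0_31 j h1 (by omega)
  · rcases eq_or_ne l 3 with hl3 | hl3
    · subst hl3
      have h2 := hram (by norm_num)
      have h4 : j = 1 := by omega
      subst h4
      exact @NB_1_1_3_1
    · rcases le_or_gt j 22 with h22 | h22
      · exact @QL_three l j hlp hl2 hl3 h1 h22 (by omega)
      · rcases hcases with rfl | rfl | rfl | rfl | rfl | rfl | rfl | rfl | rfl | rfl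
        all_goals first
          | omega
          | exact @QL_1_1_29 j (by omega) (by omega)
          | exact @QL_1_1_31 j (by omega) (by omega)
  · rcases hcases with rfl | rfl | rfl | rfl | rfl | rfl | rfl | rfl | rfl | rfl
    · exact @QL_2_1_3 j h1 (by omega)
    · exact @QL_2_1_5 j h1 (by omega)
    · have h2 := hram (by norm_num)
      exact @QL_2_1_7 j h1 (by omega)
    · exact @QL_2_1_11 j h1 (by omega)
    · exact @QL_2_1_13 j h1 (by omega)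
    · exact @QL_2_1_17 j h1 (by omega)
    · exact @QL_2_1_19 j h1 (by omega)
    · exact @QL_2_1_23 j h1 (by omega)
    · exact @QL_2_1_29 j h1 (by omega)
    · exact @QL_2_1_31 j h1 (by omega) (by omega)
  · rcases hcases with rfl | rfl | rfl | rfl | rfl | rfl | rfl | rfl | rfl | rfl
    · exact @QL_3_1_3 j h1 (by omega)
    · exact @QL_3_1_5 j h1 (by omega)
    · exact @QL_3_1_7 j h1 (by omega)
    · have h2 := hram (by norm_num)
      exact @QL_3_1_11 j h1 (by omega)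
    · exact @QL_3_1_13 j h1 (by omega) (by omega)
    · exact @QL_3_1_17 j h1 (by omega) (by omega)
    · exact @QL_3_1_19 j h1 (by omega) (by omega)
    · exact @QL_3_1_23 j h1 (by omega) (by omega) (by omega)
    · exact @QL_3_1_29 j h1 (by omega) (by omega)
    · exact @QL_3_1_31 j h1 (by omega) (by omega) (by omega)

end Pool.Agent.OE
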