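import Pool.Agent.helper21.OE.AsmC
import Pool.Agent.helper21.OE.QAll

/-!
# Project OE: the final statements
-/

namespace Pool.Agent.OE

theorem FIN_kap {ℓ : ℕ} {R : Type} [CommRing R] [IsLocalRing R]
    (hf : ((ℓ : ℕ) : R) ∈ IsLocalRing.maximalIdeal R) :
    ((ℓ : ℕ) : IsLocalRing.ResidueField R) = 0 := by
  rw [← map_natCast (IsLocalRing.residue R), IsLocalRing.residue_eq_zero_iff]
  exact hf

/-- existence of the class -/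
theorem FIN_class (d t : ℤ) (hdt : IsEuc d t) (ℓ : ℕ)
    (hℓ : ℓ.Prime) (hℓ2 : ℓ ≠ 2) {R : Type} [CommRing R] [IsLocalRing R]
    (f : Oz d t →+* R) (hf : ((ℓ : ℕ) : R) ∈ IsLocalRing.maximalIdeal R) (k r : ℕ)
    (χ : Oz d t →* R) (hχ : ∀ x y : Oz d t, ((ℓ : ℕ) : Oz d t) ^ r ∣ x - y → χ x = χ y)
    (hχc : ∀ x, χ (star x) = χ x) (hneg : χ (-1) = 1) :
    ∃ j, 1 ≤ j ∧ j ≤ ℓ - 1 ∧ (((ℓ : ℕ) : ℤ) ∣ t ^ 2 - 4 * d → 2 * j ≤ ℓ - 1) ∧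
      InClass f ℓ k χ j := by
  have hκ := FIN_kap hf
  set χb : Oz d t →* IsLocalRing.ResidueField R :=
    (IsLocalRing.residue R : R →* IsLocalRing.ResidueField R).comp χ with hχb
  have hχb1 : ∀ x y : Oz d t, ((ℓ : ℕ) : Oz d t) ^ r ∣ x - y → χb x = χb y :=
    fun x y h => by simp [hχb, hχ x y h]
  by_cases hram : ((ℓ : ℕ) : ℤ) ∣ t ^ 2 - 4 * d
  · obtain ⟨j, h1, h2, h3⟩ := CLR d t hdt ℓ hℓ hℓ2 hram (fbar f) hκ r χb hχb1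
      (by simp [hχb, hneg]) k
    refine ⟨j, h1, by omega, fun _ => h2, fun x hx => ?_⟩
    rw [map_mul, map_pow, map_pow]
    exact h3 x hx
  · obtain ⟨j, h1, h2, h3⟩ := M_CLU d t hdt ℓ hℓ hℓ2 hram (fbar f) hκ r χb hχb1
      (fun x => by simp [hχb, hχc x]) k
    refine ⟨j, h1, h2, fun h => absurd h hram, fun x hx => ?_⟩
    rw [map_mul, map_pow, map_pow]
    exact h3 x hx

/-- the invariance from the numerical statement -/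
theorem FIN_num (d t : ℤ) (hdt : IsEuc d t) (ℓ : ℕ)
    (hℓ : ℓ.Prime) (hℓ2 : ℓ ≠ 2) (F : Finset (GO d t)) (hF : IsReps ℓ F) {R L : Type} [CommRing R]
    [IsDomain R] [IsDiscreteValuationRing R] [Field L] [Algebra R L] [IsFractionRing R L]
    (f : Oz d t →+* R) (hf : ((ℓ : ℕ) : R) ∈ IsLocalRing.maximalIdeal R) (k r j : ℕ)
    (χ : Oz d t →* R) (hχ : ∀ x y : Oz d t, ((ℓ : ℕ) : Oz d t) ^ r ∣ x - y → χ x = χ y)
    (hχc : ∀ x, χ (star x) = χ x) (hj : 1 ≤ j)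
    (hcl : InClass f ℓ k χ j) (hnum : NUMA_stmt d t ℓ j)
    (φ : Sy d t L) (hφ : φ ∈ Ord L f ℓ F k r χ) : cj φ = φ := by
  refine ASC_main d t hdt ℓ hℓ hℓ2 F hF f hf k r j χ hχ hχc hj hcl 0 (fun w hw => ?_) φ hφ
  rw [pow_zero] at hw
  obtain ⟨w', hw', rfl⟩ := hw
  exact M_WDA d t hdt ℓ (fbar f) (FIN_kap hf) j @hnum w' hw'

/-- all the cases with `ℓ ≤ 31` -/
theorem FIN_31 (d t : ℤ) (hdt : IsEuc d t) (ℓ : ℕ)
    (hℓ : ℓ.Prime) (hℓ2 : ℓ ≠ 2) (h31 : ℓ ≤ 31) (F : Finset (GO d t)) (hF : IsReps ℓ F)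
    {R L : Type} [CommRing R]
    [IsDomain R] [IsDiscreteValuationRing R] [Field L] [Algebra R L] [IsFractionRing R L]
    (f : Oz d t →+* R) (hf : ((ℓ : ℕ) : R) ∈ IsLocalRing.maximalIdeal R) (k r : ℕ)
    (χ : Oz d t →* R) (hχ : ∀ x y : Oz d t, ((ℓ : ℕ) : Oz d t) ^ r ∣ x - y → χ x = χ y)
    (hχc : ∀ x, χ (star x) = χ x) (hexc : ∀ j, Exc d t ℓ j → ¬ InClass f ℓ k χ j)
    (φ : Sy d t L) (hφ : φ ∈ Ord L f ℓ F k r χ) : cj φ = φ := by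
  by_cases hneg : χ (-1) = 1
  · obtain ⟨j, h1, h2, h3, h4⟩ := FIN_class d t hdt ℓ hℓ hℓ2 f hf k r χ hχ hχc hneg
    exact FIN_num d t hdt ℓ hℓ hℓ2 F hF f hf k r j χ hχ hχc h1 h4
      (@QL_all d t hdt ℓ j hℓ hℓ2 h31 h1 h2 h3 fun h => hexc j h h4) φ hφ
  · have h0 : φ = 0 := by
      refine M_NEG d t hdt _ k (ℓ ^ r) _ φ hφ.1 ?_
      intro h
      apply hneg
      apply IsFractionRing.injective R L
      rw [h, map_one]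
    rw [h0, map_zero]

/-- the cases of weight at most `22` for the discriminants `-4` and `-3` -/
theorem FIN_22 (t : ℤ) (hdt : IsEuc 1 t) (ℓ : ℕ)
    (hℓ : ℓ.Prime) (hℓ2 : ℓ ≠ 2) (F : Finset (GO 1 t)) (hF : IsReps ℓ F)
    {R L : Type} [CommRing R]
    [IsDomain R] [IsDiscreteValuationRing R] [Field L] [Algebra R L] [IsFractionRing R L]
    (f : Oz 1 t →+* R) (hf : ((ℓ : ℕ) : R) ∈ IsLocalRing.maximalIdeal R) (k r j : ℕ)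
    (χ : Oz 1 t →* R) (hχ : ∀ x y : Oz 1 t, ((ℓ : ℕ) : Oz 1 t) ^ r ∣ x - y → χ x = χ y)
    (hχc : ∀ x, χ (star x) = χ x) (hj : 1 ≤ j) (hcl : InClass f ℓ k χ j)
    (h22 : j ≤ 22) (hjl : j < ℓ) (h3 : ¬ (t = 1 ∧ ℓ = 3)) (h409 : ¬ (t = 0 ∧ j = 20 ∧ ℓ = 409))
    (φ : Sy 1 t L) (hφ : φ ∈ Ord L f ℓ F k r χ) : cj φ = φ := by
  refine FIN_num 1 t hdt ℓ hℓ hℓ2 F hF f hf k r j χ hχ hχc hj hcl ?_ φ hφ
  have ht : t = 0 ∨ t = 1 := by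
    rcases hdt with ⟨h, _⟩ | ⟨h, _⟩
    · exact Or.inl h
    · exact Or.inr h
  rcases ht with rfl | rfl
  · exact @QL_four ℓ j hℓ hℓ2 hj h22 hjl fun h => h409 ⟨rfl, h⟩
  · exact @QL_three ℓ j hℓ hℓ2 (fun h => h3 ⟨rfl, h⟩) hj h22 hjl

end Pool.Agent.OE
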