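import Pool.Agent.helper21.OE.Rows

/-!
# MP_2e0e07_nt, project OE: complex conjugation and Hecke operators
-/

namespace Pool.Agent.OE

open MvPolynomial Matrix

/-- the operator `∑ i, c i • adj(M i) φ(M i u, M i v)` of a finite family of matrices `M i` with
coefficients `c i`; all the Hecke operators are of this kind -/
noncomputable def opM {d t : ℤ} {A : Type*} [CommRing A] (f : Oz d t →+* A) {n : ℕ} (c : Fin n → A)
    (M : Fin n → Mat d t) (φ : Sy d t A) : Sy d t A :=
  fun u v => ∑ i, c i • act f (M i).adjugate (φ (M i *ᵥ u) (M i *ᵥ v))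

/-- the conjugate matrices -/
def conjM {d t : ℤ} {n : ℕ} (M : Fin n → Mat d t) : Fin n → Mat d t :=
  fun i => !![star (M i 0 0), star (M i 0 1); star (M i 1 0), star (M i 1 1)]

theorem HEK_cj {d t : ℤ} {A : Type} [CommRing A] (f : Oz d t →+* A) {n : ℕ} (c : Fin n → A)
    (M : Fin n → Mat d t) (φ : Sy d t A) :
    cj (opM f c M φ) = opM f c (conjM M) (cj φ) := by
  obtain ⟨h1, h2, h3, -, h5, h6, -⟩ := CMG d t
  have hM : ∀ i, conjM M i = cm (M i) := by
    intro i
    funext a b
    fin_cases a <;> fin_cases b <;> rfl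
  ext1 u
  ext1 v
  show sw (∑ i, c i • act f (M i).adjugate (φ (M i *ᵥ cv u) (M i *ᵥ cv v))) =
    ∑ i, c i • act f (conjM M i).adjugate (sw (φ (cv (conjM M i *ᵥ u)) (cv (conjM M i *ᵥ v))))
  rw [map_sum]
  refine Finset.sum_congr rfl fun i _ => ?_
  rw [map_smul, CJA.1, hM i, h3, h2, h2, h5]

/-- a symbol invariant under complex conjugation has the same eigenvalue for an operator and for the
conjugate operator -/
theorem HEK_eig {d t : ℤ} {A : Type} [CommRing A] (f : Oz d t →+* A) {n : ℕ} (c : Fin n → A)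
    (M : Fin n → Mat d t) (φ : Sy d t A) (hφ : cj φ = φ) (a : A) (h : opM f c M φ = a • φ) :
    opM f c (conjM M) φ = a • φ := by
  have h1 := HEK_cj f c M φ
  rw [h, map_smul, hφ] at h1
  exact h1.symm

end Pool.Agent.OE
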