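import Pool.Agent.helper21.OE.NID

/-!
# Project OE: certificates over the integers
-/

namespace Pool.Agent.OE

set_option maxRecDepth 100000

/-- certificate, `d = 2`, `t = 0`, `j = 1` -/
def NIC_2_0_1 : NI_Cert where
  tab0 := [[[(.ofNat 1, .ofNat 0), (.ofNat 0, .ofNat 0)], [(.ofNat 0, .ofNat 0), (.ofNat 1, .ofNat 0)]], [[(.ofNat 1, .ofNat 0), (.negSucc 0, .ofNat 0)], [(.ofNat 1, .ofNat 0), (.ofNat 0, .ofNat 0)]], [[(.ofNat 0, .ofNat 0), (.negSucc 0, .ofNat 0)], [(.ofNat 1, .ofNat 0), (.negSucc 0, .ofNat 0)]]]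
  tab1 := [[[(.ofNat 1, .ofNat 0), (.ofNat 0, .ofNat 0)], [(.ofNat 0, .ofNat 0), (.ofNat 1, .ofNat 0)]], [[(.ofNat 0, .ofNat 1), (.ofNat 1, .ofNat 0)], [(.ofNat 1, .ofNat 0), (.ofNat 0, .ofNat 0)]], [[(.ofNat 1, .ofNat 0), (.ofNat 0, .negSucc 0)], [(.ofNat 0, .ofNat 1), (.ofNat 1, .ofNat 0)]], [[(.ofNat 0, .ofNat 0), (.ofNat 1, .ofNat 0)], [(.ofNat 1, .ofNat 0), (.ofNat 0, .negSucc 0)]]]
  rws := []
  cols := []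
  tg := []

theorem NIT_2_0_1 (l : ℕ) (hlp : l.Prime) (hl2 : l ≠ 2) (hls : ¬ l ∣ 8) (hE : ¬ l ∣ 1)
    (hj : 1 < l) : NUMA_stmt 2 0 l 1 :=
  @NI_fin 2 0 1 1 8 1 (by norm_num) NIC_2_0_1 (by decide +kernel) (by decide +kernel)
    (by decide +kernel) (by decide +kernel) l hlp hl2 hls hE hj

/-- certificate, `d = 2`, `t = 0`, `j = 2` -/
def NIC_2_0_2 : NI_Cert where
  tab0 := [[[(.ofNat 1, .ofNat 0), (.ofNat 0, .ofNat 0), (.ofNat 0, .ofNat 0)], [(.ofNat 0, .ofNat 0), (.ofNat 1, .ofNat 0), (.ofNat 0, .ofNat 0)], [(.ofNat 0, .ofNat 0), (.ofNat 0, .ofNat 0), (.ofNat 1, .ofNat 0)]], [[(.ofNat 1, .ofNat 0), (.negSucc 1, .ofNat 0), (.ofNat 1, .ofNat 0)], [(.ofNat 1, .ofNat 0), (.negSucc 0, .ofNat 0), (.ofNat 0, .ofNat 0)], [(.ofNat 1, .ofNat 0), (.ofNat 0, .ofNat 0), (.ofNat 0, .ofNat 0)]], [[(.ofNat 0, .ofNat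 0), (.ofNat 0, .ofNat 0), (.ofNat 1, .ofNat 0)], [(.ofNat 0, .ofNat 0), (.negSucc 0, .ofNat 0), (.ofNat 1, .ofNat 0)], [(.ofNat 1, .ofNat 0), (.negSucc 1, .ofNat 0), (.ofNat 1, .ofNat 0)]]]
  tab1 := [[[(.ofNat 1, .ofNat 0), (.ofNat 0, .ofNat 0), (.ofNat 0, .ofNat 0)], [(.ofNat 0, .ofNat 0), (.ofNat 1, .ofNat 0), (.ofNat 0, .ofNat 0)], [(.ofNat 0, .ofNat 0), (.ofNat 0, .ofNat 0), (.ofNat 1, .ofNat 0)]], [[(.negSucc 1, .ofNat 0), (.ofNat 0, .ofNat 2), (.ofNat 1, .ofNat 0)], [(.ofNat 0, .ofNat 1), (.ofNat 1, .ofNat 0), (.ofNat 0, .ofNat 0)], [(.ofNat 1, .ofNat 0), (.ofNat 0, .ofNat 0), (.ofNat 0, .ofNat 0)]], [[(.ofNat 1, .ofNat 0), (.ofNat 0, .negSucc 1), (.negSucc 1, .ofNat 0)], [(.ofNat 0, .ofNat 1), (.ofNat 3, .ofNat 0), (.ofNat 0, .negSucc 0)], [(.negSucc 1, .ofNat 0), (.ofNat 0, .ofNat 2), (.ofNat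 1, .ofNat 0)]], [[(.ofNat 0, .ofNat 0), (.ofNat 0, .ofNat 0), (.ofNat 1, .ofNat 0)], [(.ofNat 0, .ofNat 0), (.ofNat 1, .ofNat 0), (.ofNat 0, .negSucc 0)], [(.ofNat 1, .ofNat 0), (.ofNat 0, .negSucc 1), (.negSucc 1, .ofNat 0)]]]
  rws := [(0, 0, 2, 0)]
  cols := [((0, 2), [.negSucc 1])]
  tg := [((0, 2), .ofNat 1, [.negSucc 0])]

theorem NIT_2_0_2 (l : ℕ) (hlp : l.Prime) (hl2 : l ≠ 2) (hls : ¬ l ∣ 8) (hE : ¬ l ∣ 1)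
    (hj : 2 < l) : NUMA_stmt 2 0 l 2 :=
  @NI_fin 2 0 1 1 8 2 (by norm_num) NIC_2_0_2 (by decide +kernel) (by decide +kernel)
    (by decide +kernel) (by decide +kernel) l hlp hl2 hls hE hj

/-- certificate, `d = 2`, `t = 0`, `j = 3` -/
def NIC_2_0_3 : NI_Cert where
  tab0 := [[[(.ofNat 1, .ofNat 0), (.ofNat 0, .ofNat 0), (.ofNat 0, .ofNat 0), (.ofNat 0, .ofNat 0)], [(.ofNat 0, .ofNat 0), (.ofNat 1, .ofNat 0), (.ofNat 0, .ofNat 0), (.ofNat 0, .ofNat 0)], [(.ofNat 0, .ofNat 0), (.ofNat 0, .ofNat 0), (.ofNat 1, .ofNat 0), (.ofNat 0, .ofNat 0)], [(.ofNat 0, .ofNat 0), (.ofNat 0, .ofNat 0), (.ofNat 0, .ofNat 0), (.ofNat 1, .ofNat 0)]], [[(.ofNat 1, .ofNat 0), (.negSucc 2, .ofNat 0), (.ofNat 3, .ofNat 0), (.negSucc 0, .ofNat 0)], [(.ofNat 1, .ofNat 0), (.negSucc 1, .ofNat 0), (.ofNat 1, .ofNat 0), (.ofNat 0,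 .ofNat 0)], [(.ofNat 1, .ofNat 0), (.negSucc 0, .ofNat 0), (.ofNat 0, .ofNat 0), (.ofNat 0, .ofNat 0)], [(.ofNat 1, .ofNat 0), (.ofNat 0, .ofNat 0), (.ofNat 0, .ofNat 0), (.ofNat 0, .ofNat 0)]], [[(.ofNat 0, .ofNat 0), (.ofNat 0, .ofNat 0), (.ofNat 0, .ofNat 0), (.negSucc 0, .ofNat 0)], [(.ofNat 0, .ofNat 0), (.ofNat 0, .ofNat 0), (.ofNat 1, .ofNat 0), (.negSucc 0, .ofNat 0)], [(.ofNat 0, .ofNat 0), (.negSucc 0, .ofNat 0), (.ofNat 2, .ofNat 0), (.negSucc 0, .ofNat 0)], [(.ofNat 1, .ofNat 0), (.negSucc 2, .ofNat 0), (.ofNat 3, .ofNat 0), (.negSucc 0, .ofNat 0)]]]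
  tab1 := [[[(.ofNat 1, .ofNat 0), (.ofNat 0, .ofNat 0), (.ofNat 0, .ofNat 0), (.ofNat 0, .ofNat 0)], [(.ofNat 0, .ofNat 0), (.ofNat 1, .ofNat 0), (.ofNat 0, .ofNat 0), (.ofNat 0, .ofNat 0)], [(.ofNat 0, .ofNat 0), (.ofNat 0, .ofNat 0), (.ofNat 1, .ofNat 0), (.ofNat 0, .ofNat 0)], [(.ofNat 0, .ofNat 0), (.ofNat 0, .ofNat 0), (.ofNat 0, .ofNat 0), (.ofNat 1, .ofNat 0)]], [[(.ofNat 0, .negSucc 1), (.negSucc 5, .ofNat 0), (.ofNat 0, .ofNat 3), (.ofNat 1, .ofNat 0)], [(.negSucc 1, .ofNat 0), (.ofNat 0, .ofNat 2), (.ofNat 1, .ofNat 0), (.ofNat 0, .ofNat 0)], [(.ofNat 0, .ofNat 1), (.ofNat 1, .ofNat 0), (.ofNat 0, .ofNat 0), (.ofNat 0, .ofNat 0)], [(.ofNat 1, .ofNat 0), (.ofNat 0, .ofNat 0), (.ofNat 0, .ofNat 0), (.ofNat 0, .ofNat 0)]], [[(.ofNat 1, .ofNat 0), (.ofNat 0, .negSucc 2), (.negSucc 5, .ofNat 0),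 (.ofNat 0, .ofNat 2)], [(.ofNat 0, .ofNat 1), (.ofNat 5, .ofNat 0), (.ofNat 0, .negSucc 3), (.negSucc 1, .ofNat 0)], [(.negSucc 1, .ofNat 0), (.ofNat 0, .ofNat 4), (.ofNat 5, .ofNat 0), (.ofNat 0, .negSucc 0)], [(.ofNat 0, .negSucc 1), (.negSucc 5, .ofNat 0), (.ofNat 0, .ofNat 3), (.ofNat 1, .ofNat 0)]], [[(.ofNat 0, .ofNat 0), (.ofNat 0, .ofNat 0), (.ofNat 0, .ofNat 0), (.ofNat 1, .ofNat 0)], [(.ofNat 0, .ofNat 0), (.ofNat 0, .ofNat 0), (.ofNat 1, .ofNat 0), (.ofNat 0, .negSucc 0)], [(.ofNat 0, .ofNat 0), (.ofNat 1, .ofNat 0), (.ofNat 0, .negSucc 1), (.negSucc 1, .ofNat 0)], [(.ofNat 1, .ofNat 0), (.ofNat 0, .negSucc 2), (.negSucc 5, .ofNat 0), (.ofNat 0, .ofNat 2)]]]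
  rws := [(0, 0, 3, 0)]
  cols := [((0, 2), [.ofNat 2])]
  tg := [((0, 2), .ofNat 2, [.ofNat 1])]

theorem NIT_2_0_3 (l : ℕ) (hlp : l.Prime) (hl2 : l ≠ 2) (hls : ¬ l ∣ 8) (hE : ¬ l ∣ 1)
    (hj : 3 < l) : NUMA_stmt 2 0 l 3 :=
  @NI_fin 2 0 1 1 8 3 (by norm_num) NIC_2_0_3 (by decide +kernel) (by decide +kernel)
    (by decide +kernel) (by decide +kernel) l hlp hl2 hls hE hj

/-- certificate, `d = 2`, `t = 0`, `j = 4` -/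
def NIC_2_0_4 : NI_Cert where
  tab0 := [[[(.ofNat 1, .ofNat 0), (.ofNat 0, .ofNat 0), (.ofNat 0, .ofNat 0), (.ofNat 0, .ofNat 0), (.ofNat 0, .ofNat 0)], [(.ofNat 0, .ofNat 0), (.ofNat 1, .ofNat 0), (.ofNat 0, .ofNat 0), (.ofNat 0, .ofNat 0), (.ofNat 0, .ofNat 0)], [(.ofNat 0, .ofNat 0), (.ofNat 0, .ofNat 0), (.ofNat 1, .ofNat 0), (.ofNat 0, .ofNat 0), (.ofNat 0, .ofNat 0)], [(.ofNat 0, .ofNat 0), (.ofNat 0, .ofNat 0), (.ofNat 0, .ofNat 0), (.ofNat 1, .ofNat 0), (.ofNat 0, .ofNat 0)], [(.ofNat 0, .ofNat 0), (.ofNat 0, .ofNat 0), (.ofNat 0, .ofNat 0), (.ofNat 0, .ofNat 0), (.ofNat 1, .ofNat 0)]], [[(.ofNat 1, .ofNat 0), (.negSucc 3, .ofNat 0), (.ofNat 6, .ofNat 0), (.negSucc 3, .ofNat 0), (.ofNat 1, .ofNat 0)], [(.ofNat 1, .ofNat 0), (.negSucc 2, .ofNat 0), (.ofNat 3, .ofNat 0), (.negSucc 0, .ofNat 0),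 (.ofNat 0, .ofNat 0)], [(.ofNat 1, .ofNat 0), (.negSucc 1, .ofNat 0), (.ofNat 1, .ofNat 0), (.ofNat 0, .ofNat 0), (.ofNat 0, .ofNat 0)], [(.ofNat 1, .ofNat 0), (.negSucc 0, .ofNat 0), (.ofNat 0, .ofNat 0), (.ofNat 0, .ofNat 0), (.ofNat 0, .ofNat 0)], [(.ofNat 1, .ofNat 0), (.ofNat 0, .ofNat 0), (.ofNat 0, .ofNat 0), (.ofNat 0, .ofNat 0), (.ofNat 0, .ofNat 0)]], [[(.ofNat 0, .ofNat 0), (.ofNat 0, .ofNat 0), (.ofNat 0, .ofNat 0), (.ofNat 0, .ofNat 0), (.ofNat 1, .ofNat 0)], [(.ofNat 0, .ofNat 0), (.ofNat 0, .ofNat 0), (.ofNat 0, .ofNat 0), (.negSucc 0, .ofNat 0), (.ofNat 1, .ofNat 0)], [(.ofNat 0, .ofNat 0), (.ofNat 0, .ofNat 0), (.ofNat 1, .ofNat 0), (.negSucc 1, .ofNat 0), (.ofNat 1, .ofNat 0)], [(.ofNat 0, .ofNat 0), (.negSucc 0, .ofNat 0), (.ofNat 3, .ofNat 0), (.negSucc 2, .ofNat 0), (.ofNat 1, .ofNat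 0)], [(.ofNat 1, .ofNat 0), (.negSucc 3, .ofNat 0), (.ofNat 6, .ofNat 0), (.negSucc 3, .ofNat 0), (.ofNat 1, .ofNat 0)]]]
  tab1 := [[[(.ofNat 1, .ofNat 0), (.ofNat 0, .ofNat 0), (.ofNat 0, .ofNat 0), (.ofNat 0, .ofNat 0), (.ofNat 0, .ofNat 0)], [(.ofNat 0, .ofNat 0), (.ofNat 1, .ofNat 0), (.ofNat 0, .ofNat 0), (.ofNat 0, .ofNat 0), (.ofNat 0, .ofNat 0)], [(.ofNat 0, .ofNat 0), (.ofNat 0, .ofNat 0), (.ofNat 1, .ofNat 0), (.ofNat 0, .ofNat 0), (.ofNat 0, .ofNat 0)], [(.ofNat 0, .ofNat 0), (.ofNat 0, .ofNat 0), (.ofNat 0, .ofNat 0), (.ofNat 1, .ofNat 0), (.ofNat 0, .ofNat 0)], [(.ofNat 0, .ofNat 0), (.ofNat 0, .ofNat 0), (.ofNat 0, .ofNat 0), (.ofNat 0, .ofNat 0), (.ofNat 1, .ofNat 0)]], [[(.ofNat 4, .ofNat 0), (.ofNat 0, .negSucc 7), (.negSucc 11, .ofNat 0), (.ofNat 0, .ofNat 4), (.ofNat 1, .ofNat 0)],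 [(.ofNat 0, .negSucc 1), (.negSucc 5, .ofNat 0), (.ofNat 0, .ofNat 3), (.ofNat 1, .ofNat 0), (.ofNat 0, .ofNat 0)], [(.negSucc 1, .ofNat 0), (.ofNat 0, .ofNat 2), (.ofNat 1, .ofNat 0), (.ofNat 0, .ofNat 0), (.ofNat 0, .ofNat 0)], [(.ofNat 0, .ofNat 1), (.ofNat 1, .ofNat 0), (.ofNat 0, .ofNat 0), (.ofNat 0, .ofNat 0), (.ofNat 0, .ofNat 0)], [(.ofNat 1, .ofNat 0), (.ofNat 0, .ofNat 0), (.ofNat 0, .ofNat 0), (.ofNat 0, .ofNat 0), (.ofNat 0, .ofNat 0)]], [[(.ofNat 1, .ofNat 0), (.ofNat 0, .negSucc 3), (.negSucc 11, .ofNat 0), (.ofNat 0, .ofNat 8), (.ofNat 4, .ofNat 0)], [(.ofNat 0, .ofNat 1), (.ofNat 7, .ofNat 0), (.ofNat 0, .negSucc 8), (.negSucc 9, .ofNat 0), (.ofNat 0, .ofNat 2)], [(.negSucc 1, .ofNat 0), (.ofNat 0, .ofNat 6), (.ofNat 13, .ofNat 0), (.ofNat 0, .negSucc 5), (.negSucc 1, .ofNat 0)], [(.ofNat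 0, .negSucc 1), (.negSucc 9, .ofNat 0), (.ofNat 0, .ofNat 9), (.ofNat 7, .ofNat 0), (.ofNat 0, .negSucc 0)], [(.ofNat 4, .ofNat 0), (.ofNat 0, .negSucc 7), (.negSucc 11, .ofNat 0), (.ofNat 0, .ofNat 4), (.ofNat 1, .ofNat 0)]], [[(.ofNat 0, .ofNat 0), (.ofNat 0, .ofNat 0), (.ofNat 0, .ofNat 0), (.ofNat 0, .ofNat 0), (.ofNat 1, .ofNat 0)], [(.ofNat 0, .ofNat 0), (.ofNat 0, .ofNat 0), (.ofNat 0, .ofNat 0), (.ofNat 1, .ofNat 0), (.ofNat 0, .negSucc 0)], [(.ofNat 0, .ofNat 0), (.ofNat 0, .ofNat 0), (.ofNat 1, .ofNat 0), (.ofNat 0, .negSucc 1), (.negSucc 1, .ofNat 0)], [(.ofNat 0, .ofNat 0), (.ofNat 1, .ofNat 0), (.ofNat 0, .negSucc 2), (.negSucc 5, .ofNat 0), (.ofNat 0, .ofNat 2)], [(.ofNat 1, .ofNat 0), (.ofNat 0, .negSucc 3), (.negSucc 11, .ofNat 0), (.ofNat 0, .ofNat 8), (.ofNat 4, .ofNat 0)]]]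
  rws := [(0, 0, 4, 0), (0, 1, 2, 0), (0, 1, 3, 0)]
  cols := [((0, 2), [.negSucc 1, .ofNat 12, .negSucc 15]), ((0, 4), [.negSucc 1, .ofNat 0, .ofNat 0]), ((1, 3), [.ofNat 0, .ofNat 6, .negSucc 1])]
  tg := [((0, 2), .ofNat 36, [.ofNat 0, .negSucc 0, .negSucc 2]), ((0, 4), .ofNat 18, [.negSucc 17, .ofNat 1, .ofNat 3]), ((1, 3), .ofNat 9, [.ofNat 0, .ofNat 4, .ofNat 3])]

theorem NIT_2_0_4 (l : ℕ) (hlp : l.Prime) (hl2 : l ≠ 2) (hls : ¬ l ∣ 8) (hE : ¬ l ∣ 1)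
    (hj : 4 < l) : NUMA_stmt 2 0 l 4 :=
  @NI_fin 2 0 1 2 8 4 (by norm_num) NIC_2_0_4 (by decide +kernel) (by decide +kernel)
    (by decide +kernel) (by decide +kernel) l hlp hl2 hls hE hj

/-- certificate, `d = 2`, `t = 0`, `j = 5` -/
def NIC_2_0_5 : NI_Cert where
  tab0 := [[[(.ofNat 1, .ofNat 0), (.ofNat 0, .ofNat 0), (.ofNat 0, .ofNat 0), (.ofNat 0, .ofNat 0), (.ofNat 0, .ofNat 0), (.ofNat 0, .ofNat 0)], [(.ofNat 0, .ofNat 0), (.ofNat 1, .ofNat 0), (.ofNat 0, .ofNat 0), (.ofNat 0, .ofNat 0), (.ofNat 0, .ofNat 0), (.ofNat 0, .ofNat 0)], [(.ofNat 0, .ofNat 0), (.ofNat 0, .ofNat 0), (.ofNat 1, .ofNat 0), (.ofNat 0, .ofNat 0), (.ofNat 0, .ofNat 0), (.ofNat 0, .ofNat 0)], [(.ofNat 0, .ofNat 0), (.ofNat 0, .ofNat 0), (.ofNat 0, .ofNat 0), (.ofNat 1, .ofNat 0), (.ofNat 0, .ofNat 0), (.ofNat 0, .ofNat 0)],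 [(.ofNat 0, .ofNat 0), (.ofNat 0, .ofNat 0), (.ofNat 0, .ofNat 0), (.ofNat 0, .ofNat 0), (.ofNat 1, .ofNat 0), (.ofNat 0, .ofNat 0)], [(.ofNat 0, .ofNat 0), (.ofNat 0, .ofNat 0), (.ofNat 0, .ofNat 0), (.ofNat 0, .ofNat 0), (.ofNat 0, .ofNat 0), (.ofNat 1, .ofNat 0)]], [[(.ofNat 1, .ofNat 0), (.negSucc 4, .ofNat 0), (.ofNat 10, .ofNat 0), (.negSucc 9, .ofNat 0), (.ofNat 5, .ofNat 0), (.negSucc 0, .ofNat 0)], [(.ofNat 1, .ofNat 0), (.negSucc 3, .ofNat 0), (.ofNat 6, .ofNat 0), (.negSucc 3, .ofNat 0), (.ofNat 1, .ofNat 0), (.ofNat 0, .ofNat 0)], [(.ofNat 1, .ofNat 0), (.negSucc 2, .ofNat 0), (.ofNat 3, .ofNat 0), (.negSucc 0, .ofNat 0), (.ofNat 0, .ofNat 0), (.ofNat 0, .ofNat 0)], [(.ofNat 1, .ofNat 0), (.negSucc 1, .ofNat 0), (.ofNat 1, .ofNat 0), (.ofNat 0, .ofNat 0), (.ofNat 0, .ofNat 0), (.ofNat 0, .ofNat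 0)], [(.ofNat 1, .ofNat 0), (.negSucc 0, .ofNat 0), (.ofNat 0, .ofNat 0), (.ofNat 0, .ofNat 0), (.ofNat 0, .ofNat 0), (.ofNat 0, .ofNat 0)], [(.ofNat 1, .ofNat 0), (.ofNat 0, .ofNat 0), (.ofNat 0, .ofNat 0), (.ofNat 0, .ofNat 0), (.ofNat 0, .ofNat 0), (.ofNat 0, .ofNat 0)]], [[(.ofNat 0, .ofNat 0), (.ofNat 0, .ofNat 0), (.ofNat 0, .ofNat 0), (.ofNat 0, .ofNat 0), (.ofNat 0, .ofNat 0), (.negSucc 0, .ofNat 0)], [(.ofNat 0, .ofNat 0), (.ofNat 0, .ofNat 0), (.ofNat 0, .ofNat 0), (.ofNat 0, .ofNat 0), (.ofNat 1, .ofNat 0), (.negSucc 0, .ofNat 0)], [(.ofNat 0, .ofNat 0), (.ofNat 0, .ofNat 0), (.ofNat 0, .ofNat 0), (.negSucc 0, .ofNat 0), (.ofNat 2, .ofNat 0), (.negSucc 0, .ofNat 0)], [(.ofNat 0, .ofNat 0), (.ofNat 0, .ofNat 0), (.ofNat 1, .ofNat 0), (.negSucc 2, .ofNat 0), (.ofNat 3, .ofNat 0), (.negSucc 0,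 .ofNat 0)], [(.ofNat 0, .ofNat 0), (.negSucc 0, .ofNat 0), (.ofNat 4, .ofNat 0), (.negSucc 5, .ofNat 0), (.ofNat 4, .ofNat 0), (.negSucc 0, .ofNat 0)], [(.ofNat 1, .ofNat 0), (.negSucc 4, .ofNat 0), (.ofNat 10, .ofNat 0), (.negSucc 9, .ofNat 0), (.ofNat 5, .ofNat 0), (.negSucc 0, .ofNat 0)]]]
  tab1 := [[[(.ofNat 1, .ofNat 0), (.ofNat 0, .ofNat 0), (.ofNat 0, .ofNat 0), (.ofNat 0, .ofNat 0), (.ofNat 0, .ofNat 0), (.ofNat 0, .ofNat 0)], [(.ofNat 0, .ofNat 0), (.ofNat 1, .ofNat 0), (.ofNat 0, .ofNat 0), (.ofNat 0, .ofNat 0), (.ofNat 0, .ofNat 0), (.ofNat 0, .ofNat 0)], [(.ofNat 0, .ofNat 0), (.ofNat 0, .ofNat 0), (.ofNat 1, .ofNat 0), (.ofNat 0, .ofNat 0), (.ofNat 0, .ofNat 0), (.ofNat 0, .ofNat 0)], [(.ofNat 0, .ofNat 0), (.ofNat 0, .ofNat 0), (.ofNat 0, .ofNat 0), (.ofNat 1, .ofNat 0), (.ofNat 0, .ofNat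 0), (.ofNat 0, .ofNat 0)], [(.ofNat 0, .ofNat 0), (.ofNat 0, .ofNat 0), (.ofNat 0, .ofNat 0), (.ofNat 0, .ofNat 0), (.ofNat 1, .ofNat 0), (.ofNat 0, .ofNat 0)], [(.ofNat 0, .ofNat 0), (.ofNat 0, .ofNat 0), (.ofNat 0, .ofNat 0), (.ofNat 0, .ofNat 0), (.ofNat 0, .ofNat 0), (.ofNat 1, .ofNat 0)]], [[(.ofNat 0, .ofNat 4), (.ofNat 20, .ofNat 0), (.ofNat 0, .negSucc 19), (.negSucc 19, .ofNat 0), (.ofNat 0, .ofNat 5), (.ofNat 1, .ofNat 0)], [(.ofNat 4, .ofNat 0), (.ofNat 0, .negSucc 7), (.negSucc 11, .ofNat 0), (.ofNat 0, .ofNat 4), (.ofNat 1, .ofNat 0), (.ofNat 0, .ofNat 0)], [(.ofNat 0, .negSucc 1), (.negSucc 5, .ofNat 0), (.ofNat 0, .ofNat 3), (.ofNat 1, .ofNat 0), (.ofNat 0, .ofNat 0), (.ofNat 0, .ofNat 0)], [(.negSucc 1, .ofNat 0), (.ofNat 0, .ofNat 2), (.ofNat 1, .ofNat 0), (.ofNat 0, .ofNat 0), (.ofNat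 0, .ofNat 0), (.ofNat 0, .ofNat 0)], [(.ofNat 0, .ofNat 1), (.ofNat 1, .ofNat 0), (.ofNat 0, .ofNat 0), (.ofNat 0, .ofNat 0), (.ofNat 0, .ofNat 0), (.ofNat 0, .ofNat 0)], [(.ofNat 1, .ofNat 0), (.ofNat 0, .ofNat 0), (.ofNat 0, .ofNat 0), (.ofNat 0, .ofNat 0), (.ofNat 0, .ofNat 0), (.ofNat 0, .ofNat 0)]], [[(.ofNat 1, .ofNat 0), (.ofNat 0, .negSucc 4), (.negSucc 19, .ofNat 0), (.ofNat 0, .ofNat 20), (.ofNat 20, .ofNat 0), (.ofNat 0, .negSucc 3)], [(.ofNat 0, .ofNat 1), (.ofNat 9, .ofNat 0), (.ofNat 0, .negSucc 15), (.negSucc 27, .ofNat 0), (.ofNat 0, .ofNat 12), (.ofNat 4, .ofNat 0)], [(.negSucc 1, .ofNat 0), (.ofNat 0, .ofNat 8), (.ofNat 25, .ofNat 0), (.ofNat 0, .negSucc 18), (.negSucc 13, .ofNat 0), (.ofNat 0, .ofNat 2)], [(.ofNat 0, .negSucc 1), (.negSucc 13, .ofNat 0), (.ofNat 0, .ofNat 19), (.ofNat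 25, .ofNat 0), (.ofNat 0, .negSucc 7), (.negSucc 1, .ofNat 0)], [(.ofNat 4, .ofNat 0), (.ofNat 0, .negSucc 11), (.negSucc 27, .ofNat 0), (.ofNat 0, .ofNat 16), (.ofNat 9, .ofNat 0), (.ofNat 0, .negSucc 0)], [(.ofNat 0, .ofNat 4), (.ofNat 20, .ofNat 0), (.ofNat 0, .negSucc 19), (.negSucc 19, .ofNat 0), (.ofNat 0, .ofNat 5), (.ofNat 1, .ofNat 0)]], [[(.ofNat 0, .ofNat 0), (.ofNat 0, .ofNat 0), (.ofNat 0, .ofNat 0), (.ofNat 0, .ofNat 0), (.ofNat 0, .ofNat 0), (.ofNat 1, .ofNat 0)], [(.ofNat 0, .ofNat 0), (.ofNat 0, .ofNat 0), (.ofNat 0, .ofNat 0), (.ofNat 0, .ofNat 0), (.ofNat 1, .ofNat 0), (.ofNat 0, .negSucc 0)], [(.ofNat 0, .ofNat 0), (.ofNat 0, .ofNat 0), (.ofNat 0, .ofNat 0), (.ofNat 1, .ofNat 0), (.ofNat 0, .negSucc 1), (.negSucc 1, .ofNat 0)], [(.ofNat 0, .ofNat 0), (.ofNat 0, .ofNat 0), (.ofNat 1,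 .ofNat 0), (.ofNat 0, .negSucc 2), (.negSucc 5, .ofNat 0), (.ofNat 0, .ofNat 2)], [(.ofNat 0, .ofNat 0), (.ofNat 1, .ofNat 0), (.ofNat 0, .negSucc 3), (.negSucc 11, .ofNat 0), (.ofNat 0, .ofNat 8), (.ofNat 4, .ofNat 0)], [(.ofNat 1, .ofNat 0), (.ofNat 0, .negSucc 4), (.negSucc 19, .ofNat 0), (.ofNat 0, .ofNat 20), (.ofNat 20, .ofNat 0), (.ofNat 0, .negSucc 3)]]]
  rws := [(0, 0, 1, 0), (0, 0, 4, 0), (0, 0, 5, 0)]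
  cols := [((0, 2), [.ofNat 4, .negSucc 7, .ofNat 2]), ((0, 4), [.ofNat 8, .negSucc 5, .ofNat 2]), ((1, 3), [.ofNat 4, .negSucc 0, .ofNat 0])]
  tg := [((0, 2), .ofNat 12, [.negSucc 0, .negSucc 3, .negSucc 7]), ((0, 4), .ofNat 12, [.ofNat 1, .ofNat 4, .ofNat 14]), ((1, 3), .ofNat 6, [.ofNat 1, .negSucc 1, .negSucc 9])]

theorem NIT_2_0_5 (l : ℕ) (hlp : l.Prime) (hl2 : l ≠ 2) (hls : ¬ l ∣ 8) (hE : ¬ l ∣ 1)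
    (hj : 5 < l) : NUMA_stmt 2 0 l 5 :=
  @NI_fin 2 0 1 1 8 5 (by norm_num) NIC_2_0_5 (by decide +kernel) (by decide +kernel)
    (by decide +kernel) (by decide +kernel) l hlp hl2 hls hE hj

/-- certificate, `d = 2`, `t = 0`, `j = 6` -/
def NIC_2_0_6 : NI_Cert where
  tab0 := [[[(.ofNat 1, .ofNat 0), (.ofNat 0, .ofNat 0), (.ofNat 0, .ofNat 0), (.ofNat 0, .ofNat 0), (.ofNat 0, .ofNat 0), (.ofNat 0, .ofNat 0), (.ofNat 0, .ofNat 0)], [(.ofNat 0, .ofNat 0), (.ofNat 1, .ofNat 0), (.ofNat 0, .ofNat 0), (.ofNat 0, .ofNat 0), (.ofNat 0, .ofNat 0), (.ofNat 0, .ofNat 0), (.ofNat 0, .ofNat 0)], [(.ofNat 0, .ofNat 0), (.ofNat 0, .ofNat 0), (.ofNat 1, .ofNat 0), (.ofNat 0, .ofNat 0), (.ofNat 0, .ofNat 0), (.ofNat 0, .ofNat 0), (.ofNat 0, .ofNat 0)], [(.ofNat 0, .ofNat 0), (.ofNat 0, .ofNat 0), (.ofNat 0, .ofNat 0),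 (.ofNat 1, .ofNat 0), (.ofNat 0, .ofNat 0), (.ofNat 0, .ofNat 0), (.ofNat 0, .ofNat 0)], [(.ofNat 0, .ofNat 0), (.ofNat 0, .ofNat 0), (.ofNat 0, .ofNat 0), (.ofNat 0, .ofNat 0), (.ofNat 1, .ofNat 0), (.ofNat 0, .ofNat 0), (.ofNat 0, .ofNat 0)], [(.ofNat 0, .ofNat 0), (.ofNat 0, .ofNat 0), (.ofNat 0, .ofNat 0), (.ofNat 0, .ofNat 0), (.ofNat 0, .ofNat 0), (.ofNat 1, .ofNat 0), (.ofNat 0, .ofNat 0)], [(.ofNat 0, .ofNat 0), (.ofNat 0, .ofNat 0), (.ofNat 0, .ofNat 0), (.ofNat 0, .ofNat 0), (.ofNat 0, .ofNat 0), (.ofNat 0, .ofNat 0), (.ofNat 1, .ofNat 0)]], [[(.ofNat 1, .ofNat 0), (.negSucc 5, .ofNat 0), (.ofNat 15, .ofNat 0), (.negSucc 19, .ofNat 0), (.ofNat 15, .ofNat 0), (.negSucc 5, .ofNat 0), (.ofNat 1, .ofNat 0)], [(.ofNat 1, .ofNat 0), (.negSucc 4, .ofNat 0), (.ofNat 10, .ofNat 0), (.negSucc 9, .ofNat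 0), (.ofNat 5, .ofNat 0), (.negSucc 0, .ofNat 0), (.ofNat 0, .ofNat 0)], [(.ofNat 1, .ofNat 0), (.negSucc 3, .ofNat 0), (.ofNat 6, .ofNat 0), (.negSucc 3, .ofNat 0), (.ofNat 1, .ofNat 0), (.ofNat 0, .ofNat 0), (.ofNat 0, .ofNat 0)], [(.ofNat 1, .ofNat 0), (.negSucc 2, .ofNat 0), (.ofNat 3, .ofNat 0), (.negSucc 0, .ofNat 0), (.ofNat 0, .ofNat 0), (.ofNat 0, .ofNat 0), (.ofNat 0, .ofNat 0)], [(.ofNat 1, .ofNat 0), (.negSucc 1, .ofNat 0), (.ofNat 1, .ofNat 0), (.ofNat 0, .ofNat 0), (.ofNat 0, .ofNat 0), (.ofNat 0, .ofNat 0), (.ofNat 0, .ofNat 0)], [(.ofNat 1, .ofNat 0), (.negSucc 0, .ofNat 0), (.ofNat 0, .ofNat 0), (.ofNat 0, .ofNat 0), (.ofNat 0, .ofNat 0), (.ofNat 0, .ofNat 0), (.ofNat 0, .ofNat 0)], [(.ofNat 1, .ofNat 0), (.ofNat 0, .ofNat 0), (.ofNat 0, .ofNat 0), (.ofNat 0, .ofNat 0), (.ofNat 0, .ofNat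 0), (.ofNat 0, .ofNat 0), (.ofNat 0, .ofNat 0)]], [[(.ofNat 0, .ofNat 0), (.ofNat 0, .ofNat 0), (.ofNat 0, .ofNat 0), (.ofNat 0, .ofNat 0), (.ofNat 0, .ofNat 0), (.ofNat 0, .ofNat 0), (.ofNat 1, .ofNat 0)], [(.ofNat 0, .ofNat 0), (.ofNat 0, .ofNat 0), (.ofNat 0, .ofNat 0), (.ofNat 0, .ofNat 0), (.ofNat 0, .ofNat 0), (.negSucc 0, .ofNat 0), (.ofNat 1, .ofNat 0)], [(.ofNat 0, .ofNat 0), (.ofNat 0, .ofNat 0), (.ofNat 0, .ofNat 0), (.ofNat 0, .ofNat 0), (.ofNat 1, .ofNat 0), (.negSucc 1, .ofNat 0), (.ofNat 1, .ofNat 0)], [(.ofNat 0, .ofNat 0), (.ofNat 0, .ofNat 0), (.ofNat 0, .ofNat 0), (.negSucc 0, .ofNat 0), (.ofNat 3, .ofNat 0), (.negSucc 2, .ofNat 0), (.ofNat 1, .ofNat 0)], [(.ofNat 0, .ofNat 0), (.ofNat 0, .ofNat 0), (.ofNat 1, .ofNat 0), (.negSucc 3, .ofNat 0), (.ofNat 6, .ofNat 0), (.negSucc 3, .ofNat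 0), (.ofNat 1, .ofNat 0)], [(.ofNat 0, .ofNat 0), (.negSucc 0, .ofNat 0), (.ofNat 5, .ofNat 0), (.negSucc 9, .ofNat 0), (.ofNat 10, .ofNat 0), (.negSucc 4, .ofNat 0), (.ofNat 1, .ofNat 0)], [(.ofNat 1, .ofNat 0), (.negSucc 5, .ofNat 0), (.ofNat 15, .ofNat 0), (.negSucc 19, .ofNat 0), (.ofNat 15, .ofNat 0), (.negSucc 5, .ofNat 0), (.ofNat 1, .ofNat 0)]]]
  tab1 := [[[(.ofNat 1, .ofNat 0), (.ofNat 0, .ofNat 0), (.ofNat 0, .ofNat 0), (.ofNat 0, .ofNat 0), (.ofNat 0, .ofNat 0), (.ofNat 0, .ofNat 0), (.ofNat 0, .ofNat 0)], [(.ofNat 0, .ofNat 0), (.ofNat 1, .ofNat 0), (.ofNat 0, .ofNat 0), (.ofNat 0, .ofNat 0), (.ofNat 0, .ofNat 0), (.ofNat 0, .ofNat 0), (.ofNat 0, .ofNat 0)], [(.ofNat 0, .ofNat 0), (.ofNat 0, .ofNat 0), (.ofNat 1, .ofNat 0), (.ofNat 0, .ofNat 0), (.ofNat 0, .ofNat 0), (.ofNat 0, .ofNat 0),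 (.ofNat 0, .ofNat 0)], [(.ofNat 0, .ofNat 0), (.ofNat 0, .ofNat 0), (.ofNat 0, .ofNat 0), (.ofNat 1, .ofNat 0), (.ofNat 0, .ofNat 0), (.ofNat 0, .ofNat 0), (.ofNat 0, .ofNat 0)], [(.ofNat 0, .ofNat 0), (.ofNat 0, .ofNat 0), (.ofNat 0, .ofNat 0), (.ofNat 0, .ofNat 0), (.ofNat 1, .ofNat 0), (.ofNat 0, .ofNat 0), (.ofNat 0, .ofNat 0)], [(.ofNat 0, .ofNat 0), (.ofNat 0, .ofNat 0), (.ofNat 0, .ofNat 0), (.ofNat 0, .ofNat 0), (.ofNat 0, .ofNat 0), (.ofNat 1, .ofNat 0), (.ofNat 0, .ofNat 0)], [(.ofNat 0, .ofNat 0), (.ofNat 0, .ofNat 0), (.ofNat 0, .ofNat 0), (.ofNat 0, .ofNat 0), (.ofNat 0, .ofNat 0), (.ofNat 0, .ofNat 0), (.ofNat 1, .ofNat 0)]], [[(.negSucc 7, .ofNat 0), (.ofNat 0, .ofNat 24), (.ofNat 60, .ofNat 0), (.ofNat 0, .negSucc 39), (.negSucc 29, .ofNat 0), (.ofNat 0, .ofNat 6), (.ofNat 1, .ofNat 0)],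 [(.ofNat 0, .ofNat 4), (.ofNat 20, .ofNat 0), (.ofNat 0, .negSucc 19), (.negSucc 19, .ofNat 0), (.ofNat 0, .ofNat 5), (.ofNat 1, .ofNat 0), (.ofNat 0, .ofNat 0)], [(.ofNat 4, .ofNat 0), (.ofNat 0, .negSucc 7), (.negSucc 11, .ofNat 0), (.ofNat 0, .ofNat 4), (.ofNat 1, .ofNat 0), (.ofNat 0, .ofNat 0), (.ofNat 0, .ofNat 0)], [(.ofNat 0, .negSucc 1), (.negSucc 5, .ofNat 0), (.ofNat 0, .ofNat 3), (.ofNat 1, .ofNat 0), (.ofNat 0, .ofNat 0), (.ofNat 0, .ofNat 0), (.ofNat 0, .ofNat 0)], [(.negSucc 1, .ofNat 0), (.ofNat 0, .ofNat 2), (.ofNat 1, .ofNat 0), (.ofNat 0, .ofNat 0), (.ofNat 0, .ofNat 0), (.ofNat 0, .ofNat 0), (.ofNat 0, .ofNat 0)], [(.ofNat 0, .ofNat 1), (.ofNat 1, .ofNat 0), (.ofNat 0, .ofNat 0), (.ofNat 0, .ofNat 0), (.ofNat 0, .ofNat 0), (.ofNat 0, .ofNat 0), (.ofNat 0, .ofNat 0)], [(.ofNat 1, .ofNat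 0), (.ofNat 0, .ofNat 0), (.ofNat 0, .ofNat 0), (.ofNat 0, .ofNat 0), (.ofNat 0, .ofNat 0), (.ofNat 0, .ofNat 0), (.ofNat 0, .ofNat 0)]], [[(.ofNat 1, .ofNat 0), (.ofNat 0, .negSucc 5), (.negSucc 29, .ofNat 0), (.ofNat 0, .ofNat 40), (.ofNat 60, .ofNat 0), (.ofNat 0, .negSucc 23), (.negSucc 7, .ofNat 0)], [(.ofNat 0, .ofNat 1), (.ofNat 11, .ofNat 0), (.ofNat 0, .negSucc 24), (.negSucc 59, .ofNat 0), (.ofNat 0, .ofNat 40), (.ofNat 28, .ofNat 0), (.ofNat 0, .negSucc 3)], [(.negSucc 1, .ofNat 0), (.ofNat 0, .ofNat 10), (.ofNat 41, .ofNat 0), (.ofNat 0, .negSucc 43), (.negSucc 51, .ofNat 0), (.ofNat 0, .ofNat 16), (.ofNat 4, .ofNat 0)], [(.ofNat 0, .negSucc 1), (.negSucc 17, .ofNat 0), (.ofNat 0, .ofNat 33), (.ofNat 63, .ofNat 0), (.ofNat 0, .negSucc 32), (.negSucc 17, .ofNat 0), (.ofNat 0, .ofNat 2)], [(.ofNat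 4, .ofNat 0), (.ofNat 0, .negSucc 15), (.negSucc 51, .ofNat 0), (.ofNat 0, .ofNat 44), (.ofNat 41, .ofNat 0), (.ofNat 0, .negSucc 9), (.negSucc 1, .ofNat 0)], [(.ofNat 0, .ofNat 4), (.ofNat 28, .ofNat 0), (.ofNat 0, .negSucc 39), (.negSucc 59, .ofNat 0), (.ofNat 0, .ofNat 25), (.ofNat 11, .ofNat 0), (.ofNat 0, .negSucc 0)], [(.negSucc 7, .ofNat 0), (.ofNat 0, .ofNat 24), (.ofNat 60, .ofNat 0), (.ofNat 0, .negSucc 39), (.negSucc 29, .ofNat 0), (.ofNat 0, .ofNat 6), (.ofNat 1, .ofNat 0)]], [[(.ofNat 0, .ofNat 0), (.ofNat 0, .ofNat 0), (.ofNat 0, .ofNat 0), (.ofNat 0, .ofNat 0), (.ofNat 0, .ofNat 0), (.ofNat 0, .ofNat 0), (.ofNat 1, .ofNat 0)], [(.ofNat 0, .ofNat 0), (.ofNat 0, .ofNat 0), (.ofNat 0, .ofNat 0), (.ofNat 0, .ofNat 0), (.ofNat 0, .ofNat 0), (.ofNat 1, .ofNat 0), (.ofNat 0, .negSucc 0)], [(.ofNat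 0, .ofNat 0), (.ofNat 0, .ofNat 0), (.ofNat 0, .ofNat 0), (.ofNat 0, .ofNat 0), (.ofNat 1, .ofNat 0), (.ofNat 0, .negSucc 1), (.negSucc 1, .ofNat 0)], [(.ofNat 0, .ofNat 0), (.ofNat 0, .ofNat 0), (.ofNat 0, .ofNat 0), (.ofNat 1, .ofNat 0), (.ofNat 0, .negSucc 2), (.negSucc 5, .ofNat 0), (.ofNat 0, .ofNat 2)], [(.ofNat 0, .ofNat 0), (.ofNat 0, .ofNat 0), (.ofNat 1, .ofNat 0), (.ofNat 0, .negSucc 3), (.negSucc 11, .ofNat 0), (.ofNat 0, .ofNat 8), (.ofNat 4, .ofNat 0)], [(.ofNat 0, .ofNat 0), (.ofNat 1, .ofNat 0), (.ofNat 0, .negSucc 4), (.negSucc 19, .ofNat 0), (.ofNat 0, .ofNat 20), (.ofNat 20, .ofNat 0), (.ofNat 0, .negSucc 3)], [(.ofNat 1, .ofNat 0), (.ofNat 0, .negSucc 5), (.negSucc 29, .ofNat 0), (.ofNat 0, .ofNat 40), (.ofNat 60, .ofNat 0), (.ofNat 0, .negSucc 23), (.negSucc 7, .ofNat 0)]]]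
  rws := [(0, 0, 3, 0), (0, 0, 5, 0), (0, 0, 6, 0), (0, 2, 3, 0), (0, 2, 4, 0), (1, 2, 3, 1)]
  cols := [((0, 2), [.ofNat 20, .ofNat 10, .negSucc 1, .ofNat 100, .negSucc 149, .ofNat 1200]), ((0, 4), [.ofNat 24, .ofNat 8, .negSucc 1, .ofNat 20, .negSucc 29, .negSucc 1799]), ((0, 6), [.ofNat 40, .ofNat 12, .negSucc 1, .ofNat 0, .ofNat 0, .ofNat 2400]), ((1, 3), [.ofNat 10, .ofNat 1, .ofNat 0, .ofNat 25, .negSucc 29, .ofNat 990]), ((1, 5), [.ofNat 20, .ofNat 2, .ofNat 0, .ofNat 0, .ofNat 0, .negSucc 1799]), ((2, 4), [.ofNat 8, .ofNat 0, .ofNat 0, .ofNat 8, .negSucc 1, .ofNat 976])]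
  tg := [((0, 2), .ofNat 600, [.ofNat 595, .negSucc 4149, .negSucc 10599, .negSucc 1019, .negSucc 723, .ofNat 2]), ((0, 4), .ofNat 288, [.negSucc 287, .ofNat 1980, .ofNat 4920, .ofNat 498, .ofNat 352, .negSucc 0]), ((0, 6), .ofNat 3600, [.ofNat 60, .ofNat 300, .ofNat 600, .negSucc 209, .negSucc 111, .ofNat 1]), ((1, 3), .ofNat 360, [.negSucc 1499, .ofNat 10500, .ofNat 27000, .ofNat 2562, .ofNat 1808, .negSucc 4]), ((1, 5), .ofNat 300, [.ofNat 645, .negSucc 4349, .negSucc 10799, .negSucc 1079, .negSucc 763, .ofNat 2]), ((2, 4), .ofNat 48, [.ofNat 300, .negSucc 2099, .negSucc 5399, .negSucc 497, .negSucc 351, .ofNat 1])]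

theorem NIT_2_0_6 (l : ℕ) (hlp : l.Prime) (hl2 : l ≠ 2) (hls : ¬ l ∣ 8) (hE : ¬ l ∣ 1)
    (hj : 6 < l) : NUMA_stmt 2 0 l 6 :=
  @NI_fin 2 0 1 2 8 6 (by norm_num) NIC_2_0_6 (by decide +kernel) (by decide +kernel)
    (by decide +kernel) (by decide +kernel) l hlp hl2 hls hE hj

/-- certificate, `d = 2`, `t = 0`, `j = 7` -/
def NIC_2_0_7 : NI_Cert where
  tab0 := [[[(.ofNat 1, .ofNat 0), (.ofNat 0, .ofNat 0), (.ofNat 0, .ofNat 0), (.ofNat 0, .ofNat 0), (.ofNat 0, .ofNat 0), (.ofNat 0, .ofNat 0), (.ofNat 0, .ofNat 0), (.ofNat 0, .ofNat 0)], [(.ofNat 0, .ofNat 0), (.ofNat 1, .ofNat 0), (.ofNat 0, .ofNat 0), (.ofNat 0, .ofNat 0), (.ofNat 0, .ofNat 0), (.ofNat 0, .ofNat 0), (.ofNat 0, .ofNat 0), (.ofNat 0, .ofNat 0)], [(.ofNat 0, .ofNat 0), (.ofNat 0, .ofNat 0), (.ofNat 1, .ofNat 0), (.ofNat 0, .ofNat 0), (.ofNat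 0, .ofNat 0), (.ofNat 0, .ofNat 0), (.ofNat 0, .ofNat 0), (.ofNat 0, .ofNat 0)], [(.ofNat 0, .ofNat 0), (.ofNat 0, .ofNat 0), (.ofNat 0, .ofNat 0), (.ofNat 1, .ofNat 0), (.ofNat 0, .ofNat 0), (.ofNat 0, .ofNat 0), (.ofNat 0, .ofNat 0), (.ofNat 0, .ofNat 0)], [(.ofNat 0, .ofNat 0), (.ofNat 0, .ofNat 0), (.ofNat 0, .ofNat 0), (.ofNat 0, .ofNat 0), (.ofNat 1, .ofNat 0), (.ofNat 0, .ofNat 0), (.ofNat 0, .ofNat 0), (.ofNat 0, .ofNat 0)], [(.ofNat 0, .ofNat 0), (.ofNat 0, .ofNat 0), (.ofNat 0, .ofNat 0), (.ofNat 0, .ofNat 0), (.ofNat 0, .ofNat 0), (.ofNat 1, .ofNat 0), (.ofNat 0, .ofNat 0), (.ofNat 0, .ofNat 0)], [(.ofNat 0, .ofNat 0), (.ofNat 0, .ofNat 0), (.ofNat 0, .ofNat 0), (.ofNat 0, .ofNat 0), (.ofNat 0, .ofNat 0), (.ofNat 0, .ofNat 0), (.ofNat 1, .ofNat 0), (.ofNat 0, .ofNat 0)], [(.ofNat 0, .ofNat 0),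 (.ofNat 0, .ofNat 0), (.ofNat 0, .ofNat 0), (.ofNat 0, .ofNat 0), (.ofNat 0, .ofNat 0), (.ofNat 0, .ofNat 0), (.ofNat 0, .ofNat 0), (.ofNat 1, .ofNat 0)]], [[(.ofNat 1, .ofNat 0), (.negSucc 6, .ofNat 0), (.ofNat 21, .ofNat 0), (.negSucc 34, .ofNat 0), (.ofNat 35, .ofNat 0), (.negSucc 20, .ofNat 0), (.ofNat 7, .ofNat 0), (.negSucc 0, .ofNat 0)], [(.ofNat 1, .ofNat 0), (.negSucc 5, .ofNat 0), (.ofNat 15, .ofNat 0), (.negSucc 19, .ofNat 0), (.ofNat 15, .ofNat 0), (.negSucc 5, .ofNat 0), (.ofNat 1, .ofNat 0), (.ofNat 0, .ofNat 0)], [(.ofNat 1, .ofNat 0), (.negSucc 4, .ofNat 0), (.ofNat 10, .ofNat 0), (.negSucc 9, .ofNat 0), (.ofNat 5, .ofNat 0), (.negSucc 0, .ofNat 0), (.ofNat 0, .ofNat 0), (.ofNat 0, .ofNat 0)], [(.ofNat 1, .ofNat 0), (.negSucc 3, .ofNat 0), (.ofNat 6, .ofNat 0), (.negSucc 3, .ofNat 0), (.ofNat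 1, .ofNat 0), (.ofNat 0, .ofNat 0), (.ofNat 0, .ofNat 0), (.ofNat 0, .ofNat 0)], [(.ofNat 1, .ofNat 0), (.negSucc 2, .ofNat 0), (.ofNat 3, .ofNat 0), (.negSucc 0, .ofNat 0), (.ofNat 0, .ofNat 0), (.ofNat 0, .ofNat 0), (.ofNat 0, .ofNat 0), (.ofNat 0, .ofNat 0)], [(.ofNat 1, .ofNat 0), (.negSucc 1, .ofNat 0), (.ofNat 1, .ofNat 0), (.ofNat 0, .ofNat 0), (.ofNat 0, .ofNat 0), (.ofNat 0, .ofNat 0), (.ofNat 0, .ofNat 0), (.ofNat 0, .ofNat 0)], [(.ofNat 1, .ofNat 0), (.negSucc 0, .ofNat 0), (.ofNat 0, .ofNat 0), (.ofNat 0, .ofNat 0), (.ofNat 0, .ofNat 0), (.ofNat 0, .ofNat 0), (.ofNat 0, .ofNat 0), (.ofNat 0, .ofNat 0)], [(.ofNat 1, .ofNat 0), (.ofNat 0, .ofNat 0), (.ofNat 0, .ofNat 0), (.ofNat 0, .ofNat 0), (.ofNat 0, .ofNat 0), (.ofNat 0, .ofNat 0), (.ofNat 0, .ofNat 0), (.ofNat 0, .ofNat 0)]], [[(.ofNat 0,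 .ofNat 0), (.ofNat 0, .ofNat 0), (.ofNat 0, .ofNat 0), (.ofNat 0, .ofNat 0), (.ofNat 0, .ofNat 0), (.ofNat 0, .ofNat 0), (.ofNat 0, .ofNat 0), (.negSucc 0, .ofNat 0)], [(.ofNat 0, .ofNat 0), (.ofNat 0, .ofNat 0), (.ofNat 0, .ofNat 0), (.ofNat 0, .ofNat 0), (.ofNat 0, .ofNat 0), (.ofNat 0, .ofNat 0), (.ofNat 1, .ofNat 0), (.negSucc 0, .ofNat 0)], [(.ofNat 0, .ofNat 0), (.ofNat 0, .ofNat 0), (.ofNat 0, .ofNat 0), (.ofNat 0, .ofNat 0), (.ofNat 0, .ofNat 0), (.negSucc 0, .ofNat 0), (.ofNat 2, .ofNat 0), (.negSucc 0, .ofNat 0)], [(.ofNat 0, .ofNat 0), (.ofNat 0, .ofNat 0), (.ofNat 0, .ofNat 0), (.ofNat 0, .ofNat 0), (.ofNat 1, .ofNat 0), (.negSucc 2, .ofNat 0), (.ofNat 3, .ofNat 0), (.negSucc 0, .ofNat 0)], [(.ofNat 0, .ofNat 0), (.ofNat 0, .ofNat 0), (.ofNat 0, .ofNat 0), (.negSucc 0, .ofNat 0), (.ofNat 4,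 .ofNat 0), (.negSucc 5, .ofNat 0), (.ofNat 4, .ofNat 0), (.negSucc 0, .ofNat 0)], [(.ofNat 0, .ofNat 0), (.ofNat 0, .ofNat 0), (.ofNat 1, .ofNat 0), (.negSucc 4, .ofNat 0), (.ofNat 10, .ofNat 0), (.negSucc 9, .ofNat 0), (.ofNat 5, .ofNat 0), (.negSucc 0, .ofNat 0)], [(.ofNat 0, .ofNat 0), (.negSucc 0, .ofNat 0), (.ofNat 6, .ofNat 0), (.negSucc 14, .ofNat 0), (.ofNat 20, .ofNat 0), (.negSucc 14, .ofNat 0), (.ofNat 6, .ofNat 0), (.negSucc 0, .ofNat 0)], [(.ofNat 1, .ofNat 0), (.negSucc 6, .ofNat 0), (.ofNat 21, .ofNat 0), (.negSucc 34, .ofNat 0), (.ofNat 35, .ofNat 0), (.negSucc 20, .ofNat 0), (.ofNat 7, .ofNat 0), (.negSucc 0, .ofNat 0)]]]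
  tab1 := [[[(.ofNat 1, .ofNat 0), (.ofNat 0, .ofNat 0), (.ofNat 0, .ofNat 0), (.ofNat 0, .ofNat 0), (.ofNat 0, .ofNat 0), (.ofNat 0, .ofNat 0), (.ofNat 0, .ofNat 0), (.ofNat 0, .ofNat 0)], [(.ofNat 0, .ofNat 0), (.ofNat 1, .ofNat 0), (.ofNat 0, .ofNat 0), (.ofNat 0, .ofNat 0), (.ofNat 0, .ofNat 0), (.ofNat 0, .ofNat 0), (.ofNat 0, .ofNat 0), (.ofNat 0, .ofNat 0)], [(.ofNat 0, .ofNat 0), (.ofNat 0, .ofNat 0), (.ofNat 1, .ofNat 0), (.ofNat 0, .ofNat 0), (.ofNat 0, .ofNat 0), (.ofNat 0, .ofNat 0), (.ofNat 0, .ofNat 0), (.ofNat 0, .ofNat 0)], [(.ofNat 0, .ofNat 0), (.ofNat 0, .ofNat 0), (.ofNat 0, .ofNat 0), (.ofNat 1, .ofNat 0), (.ofNat 0, .ofNat 0), (.ofNat 0, .ofNat 0), (.ofNat 0, .ofNat 0), (.ofNat 0, .ofNat 0)], [(.ofNat 0, .ofNat 0), (.ofNat 0, .ofNat 0), (.ofNat 0, .ofNat 0), (.ofNat 0, .ofNat 0),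 (.ofNat 1, .ofNat 0), (.ofNat 0, .ofNat 0), (.ofNat 0, .ofNat 0), (.ofNat 0, .ofNat 0)], [(.ofNat 0, .ofNat 0), (.ofNat 0, .ofNat 0), (.ofNat 0, .ofNat 0), (.ofNat 0, .ofNat 0), (.ofNat 0, .ofNat 0), (.ofNat 1, .ofNat 0), (.ofNat 0, .ofNat 0), (.ofNat 0, .ofNat 0)], [(.ofNat 0, .ofNat 0), (.ofNat 0, .ofNat 0), (.ofNat 0, .ofNat 0), (.ofNat 0, .ofNat 0), (.ofNat 0, .ofNat 0), (.ofNat 0, .ofNat 0), (.ofNat 1, .ofNat 0), (.ofNat 0, .ofNat 0)], [(.ofNat 0, .ofNat 0), (.ofNat 0, .ofNat 0), (.ofNat 0, .ofNat 0), (.ofNat 0, .ofNat 0), (.ofNat 0, .ofNat 0), (.ofNat 0, .ofNat 0), (.ofNat 0, .ofNat 0), (.ofNat 1, .ofNat 0)]], [[(.ofNat 0, .negSucc 7), (.negSucc 55, .ofNat 0), (.ofNat 0, .ofNat 84), (.ofNat 140, .ofNat 0), (.ofNat 0, .negSucc 69), (.negSucc 41, .ofNat 0), (.ofNat 0, .ofNat 7), (.ofNat 1, .ofNat 0)],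 [(.negSucc 7, .ofNat 0), (.ofNat 0, .ofNat 24), (.ofNat 60, .ofNat 0), (.ofNat 0, .negSucc 39), (.negSucc 29, .ofNat 0), (.ofNat 0, .ofNat 6), (.ofNat 1, .ofNat 0), (.ofNat 0, .ofNat 0)], [(.ofNat 0, .ofNat 4), (.ofNat 20, .ofNat 0), (.ofNat 0, .negSucc 19), (.negSucc 19, .ofNat 0), (.ofNat 0, .ofNat 5), (.ofNat 1, .ofNat 0), (.ofNat 0, .ofNat 0), (.ofNat 0, .ofNat 0)], [(.ofNat 4, .ofNat 0), (.ofNat 0, .negSucc 7), (.negSucc 11, .ofNat 0), (.ofNat 0, .ofNat 4), (.ofNat 1, .ofNat 0), (.ofNat 0, .ofNat 0), (.ofNat 0, .ofNat 0), (.ofNat 0, .ofNat 0)], [(.ofNat 0, .negSucc 1), (.negSucc 5, .ofNat 0), (.ofNat 0, .ofNat 3), (.ofNat 1, .ofNat 0), (.ofNat 0, .ofNat 0), (.ofNat 0, .ofNat 0), (.ofNat 0, .ofNat 0), (.ofNat 0, .ofNat 0)], [(.negSucc 1, .ofNat 0), (.ofNat 0, .ofNat 2), (.ofNat 1, .ofNat 0), (.ofNat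 0, .ofNat 0), (.ofNat 0, .ofNat 0), (.ofNat 0, .ofNat 0), (.ofNat 0, .ofNat 0), (.ofNat 0, .ofNat 0)], [(.ofNat 0, .ofNat 1), (.ofNat 1, .ofNat 0), (.ofNat 0, .ofNat 0), (.ofNat 0, .ofNat 0), (.ofNat 0, .ofNat 0), (.ofNat 0, .ofNat 0), (.ofNat 0, .ofNat 0), (.ofNat 0, .ofNat 0)], [(.ofNat 1, .ofNat 0), (.ofNat 0, .ofNat 0), (.ofNat 0, .ofNat 0), (.ofNat 0, .ofNat 0), (.ofNat 0, .ofNat 0), (.ofNat 0, .ofNat 0), (.ofNat 0, .ofNat 0), (.ofNat 0, .ofNat 0)]], [[(.ofNat 1, .ofNat 0), (.ofNat 0, .negSucc 6), (.negSucc 41, .ofNat 0), (.ofNat 0, .ofNat 70), (.ofNat 140, .ofNat 0), (.ofNat 0, .negSucc 83), (.negSucc 55, .ofNat 0), (.ofNat 0, .ofNat 8)], [(.ofNat 0, .ofNat 1), (.ofNat 13, .ofNat 0), (.ofNat 0, .negSucc 35), (.negSucc 109, .ofNat 0), (.ofNat 0, .ofNat 100), (.ofNat 108, .ofNat 0), (.ofNat 0, .negSucc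 31), (.negSucc 7, .ofNat 0)], [(.negSucc 1, .ofNat 0), (.ofNat 0, .ofNat 12), (.ofNat 61, .ofNat 0), (.ofNat 0, .negSucc 84), (.negSucc 139, .ofNat 0), (.ofNat 0, .ofNat 68), (.ofNat 36, .ofNat 0), (.ofNat 0, .negSucc 3)], [(.ofNat 0, .negSucc 1), (.negSucc 21, .ofNat 0), (.ofNat 0, .ofNat 51), (.ofNat 129, .ofNat 0), (.ofNat 0, .negSucc 95), (.negSucc 83, .ofNat 0), (.ofNat 0, .ofNat 20), (.ofNat 4, .ofNat 0)], [(.ofNat 4, .ofNat 0), (.ofNat 0, .negSucc 19), (.negSucc 83, .ofNat 0), (.ofNat 0, .ofNat 96), (.ofNat 129, .ofNat 0), (.ofNat 0, .negSucc 50), (.negSucc 21, .ofNat 0), (.ofNat 0, .ofNat 2)], [(.ofNat 0, .ofNat 4), (.ofNat 36, .ofNat 0), (.ofNat 0, .negSucc 67), (.negSucc 139, .ofNat 0), (.ofNat 0, .ofNat 85), (.ofNat 61, .ofNat 0), (.ofNat 0, .negSucc 11), (.negSucc 1, .ofNat 0)], [(.negSucc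 7, .ofNat 0), (.ofNat 0, .ofNat 32), (.ofNat 108, .ofNat 0), (.ofNat 0, .negSucc 99), (.negSucc 109, .ofNat 0), (.ofNat 0, .ofNat 36), (.ofNat 13, .ofNat 0), (.ofNat 0, .negSucc 0)], [(.ofNat 0, .negSucc 7), (.negSucc 55, .ofNat 0), (.ofNat 0, .ofNat 84), (.ofNat 140, .ofNat 0), (.ofNat 0, .negSucc 69), (.negSucc 41, .ofNat 0), (.ofNat 0, .ofNat 7), (.ofNat 1, .ofNat 0)]], [[(.ofNat 0, .ofNat 0), (.ofNat 0, .ofNat 0), (.ofNat 0, .ofNat 0), (.ofNat 0, .ofNat 0), (.ofNat 0, .ofNat 0), (.ofNat 0, .ofNat 0), (.ofNat 0, .ofNat 0), (.ofNat 1, .ofNat 0)], [(.ofNat 0, .ofNat 0), (.ofNat 0, .ofNat 0), (.ofNat 0, .ofNat 0), (.ofNat 0, .ofNat 0), (.ofNat 0, .ofNat 0), (.ofNat 0, .ofNat 0), (.ofNat 1, .ofNat 0), (.ofNat 0, .negSucc 0)], [(.ofNat 0, .ofNat 0), (.ofNat 0, .ofNat 0), (.ofNat 0, .ofNat 0), (.ofNat 0,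 .ofNat 0), (.ofNat 0, .ofNat 0), (.ofNat 1, .ofNat 0), (.ofNat 0, .negSucc 1), (.negSucc 1, .ofNat 0)], [(.ofNat 0, .ofNat 0), (.ofNat 0, .ofNat 0), (.ofNat 0, .ofNat 0), (.ofNat 0, .ofNat 0), (.ofNat 1, .ofNat 0), (.ofNat 0, .negSucc 2), (.negSucc 5, .ofNat 0), (.ofNat 0, .ofNat 2)], [(.ofNat 0, .ofNat 0), (.ofNat 0, .ofNat 0), (.ofNat 0, .ofNat 0), (.ofNat 1, .ofNat 0), (.ofNat 0, .negSucc 3), (.negSucc 11, .ofNat 0), (.ofNat 0, .ofNat 8), (.ofNat 4, .ofNat 0)], [(.ofNat 0, .ofNat 0), (.ofNat 0, .ofNat 0), (.ofNat 1, .ofNat 0), (.ofNat 0, .negSucc 4), (.negSucc 19, .ofNat 0), (.ofNat 0, .ofNat 20), (.ofNat 20, .ofNat 0), (.ofNat 0, .negSucc 3)], [(.ofNat 0, .ofNat 0), (.ofNat 1, .ofNat 0), (.ofNat 0, .negSucc 5), (.negSucc 29, .ofNat 0), (.ofNat 0, .ofNat 40), (.ofNat 60, .ofNat 0), (.ofNat 0, .negSucc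 23), (.negSucc 7, .ofNat 0)], [(.ofNat 1, .ofNat 0), (.ofNat 0, .negSucc 6), (.negSucc 41, .ofNat 0), (.ofNat 0, .ofNat 70), (.ofNat 140, .ofNat 0), (.ofNat 0, .negSucc 83), (.negSucc 55, .ofNat 0), (.ofNat 0, .ofNat 8)]]]
  rws := [(0, 0, 1, 0), (0, 0, 3, 0), (0, 0, 6, 0), (0, 0, 7, 0), (0, 1, 2, 0), (0, 1, 4, 0)]
  cols := [((0, 2), [.ofNat 4, .ofNat 30, .negSucc 11, .ofNat 2, .ofNat 42, .ofNat 210]), ((0, 4), [.ofNat 8, .ofNat 38, .negSucc 9, .ofNat 2, .ofNat 42, .ofNat 112]), ((0, 6), [.ofNat 12, .ofNat 55, .negSucc 7, .ofNat 2, .ofNat 21, .ofNat 35]), ((1, 3), [.ofNat 4, .ofNat 17, .negSucc 0, .ofNat 0, .ofNat 27, .ofNat 58]), ((1, 5), [.ofNat 8, .ofNat 30, .negSucc 0, .ofNat 0, .ofNat 34, .ofNat 35]), ((2, 4), [.ofNat 4, .ofNat 13, .ofNat 0, .ofNat 0, .ofNat 23, .ofNat 17])]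
  tg := [((0, 2), .ofNat 60, [.ofNat 125, .negSucc 25, .ofNat 20, .ofNat 80, .negSucc 9, .ofNat 4]), ((0, 4), .ofNat 24, [.negSucc 55, .ofNat 11, .negSucc 17, .negSucc 55, .ofNat 5, .negSucc 1]), ((0, 6), .ofNat 120, [.ofNat 30, .negSucc 2, .ofNat 50, .ofNat 180, .negSucc 4, .ofNat 2]), ((1, 3), .ofNat 24, [.negSucc 129, .ofNat 28, .ofNat 1, .negSucc 27, .ofNat 9, .negSucc 2]), ((1, 5), .ofNat 40, [.ofNat 70, .negSucc 13, .negSucc 34, .negSucc 139, .negSucc 4, .ofNat 1]), ((2, 4), .ofNat 8, [.ofNat 32, .negSucc 6, .ofNat 13, .ofNat 56, .negSucc 1, .ofNat 1])]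

theorem NIT_2_0_7 (l : ℕ) (hlp : l.Prime) (hl2 : l ≠ 2) (hls : ¬ l ∣ 8) (hE : ¬ l ∣ 1)
    (hj : 7 < l) : NUMA_stmt 2 0 l 7 :=
  @NI_fin 2 0 1 1 8 7 (by norm_num) NIC_2_0_7 (by decide +kernel) (by decide +kernel)
    (by decide +kernel) (by decide +kernel) l hlp hl2 hls hE hj

/-- certificate, `d = 2`, `t = 0`, `j = 8` -/
def NIC_2_0_8 : NI_Cert where
  tab0 := [[[(.ofNat 1, .ofNat 0), (.ofNat 0, .ofNat 0), (.ofNat 0, .ofNat 0), (.ofNat 0, .ofNat 0), (.ofNat 0, .ofNat 0), (.ofNat 0, .ofNat 0), (.ofNat 0, .ofNat 0), (.ofNat 0, .ofNat 0), (.ofNat 0, .ofNat 0)], [(.ofNat 0, .ofNat 0), (.ofNat 1, .ofNat 0), (.ofNat 0, .ofNat 0), (.ofNat 0, .ofNat 0), (.ofNat 0, .ofNat 0), (.ofNat 0, .ofNat 0), (.ofNat 0, .ofNat 0), (.ofNat 0, .ofNat 0), (.ofNat 0, .ofNat 0)], [(.ofNat 0, .ofNat 0), (.ofNat 0, .ofNat 0), (.ofNat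 1, .ofNat 0), (.ofNat 0, .ofNat 0), (.ofNat 0, .ofNat 0), (.ofNat 0, .ofNat 0), (.ofNat 0, .ofNat 0), (.ofNat 0, .ofNat 0), (.ofNat 0, .ofNat 0)], [(.ofNat 0, .ofNat 0), (.ofNat 0, .ofNat 0), (.ofNat 0, .ofNat 0), (.ofNat 1, .ofNat 0), (.ofNat 0, .ofNat 0), (.ofNat 0, .ofNat 0), (.ofNat 0, .ofNat 0), (.ofNat 0, .ofNat 0), (.ofNat 0, .ofNat 0)], [(.ofNat 0, .ofNat 0), (.ofNat 0, .ofNat 0), (.ofNat 0, .ofNat 0), (.ofNat 0, .ofNat 0), (.ofNat 1, .ofNat 0), (.ofNat 0, .ofNat 0), (.ofNat 0, .ofNat 0), (.ofNat 0, .ofNat 0), (.ofNat 0, .ofNat 0)], [(.ofNat 0, .ofNat 0), (.ofNat 0, .ofNat 0), (.ofNat 0, .ofNat 0), (.ofNat 0, .ofNat 0), (.ofNat 0, .ofNat 0), (.ofNat 1, .ofNat 0), (.ofNat 0, .ofNat 0), (.ofNat 0, .ofNat 0), (.ofNat 0, .ofNat 0)], [(.ofNat 0, .ofNat 0), (.ofNat 0, .ofNat 0), (.ofNat 0, .ofNat 0),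 (.ofNat 0, .ofNat 0), (.ofNat 0, .ofNat 0), (.ofNat 0, .ofNat 0), (.ofNat 1, .ofNat 0), (.ofNat 0, .ofNat 0), (.ofNat 0, .ofNat 0)], [(.ofNat 0, .ofNat 0), (.ofNat 0, .ofNat 0), (.ofNat 0, .ofNat 0), (.ofNat 0, .ofNat 0), (.ofNat 0, .ofNat 0), (.ofNat 0, .ofNat 0), (.ofNat 0, .ofNat 0), (.ofNat 1, .ofNat 0), (.ofNat 0, .ofNat 0)], [(.ofNat 0, .ofNat 0), (.ofNat 0, .ofNat 0), (.ofNat 0, .ofNat 0), (.ofNat 0, .ofNat 0), (.ofNat 0, .ofNat 0), (.ofNat 0, .ofNat 0), (.ofNat 0, .ofNat 0), (.ofNat 0, .ofNat 0), (.ofNat 1, .ofNat 0)]], [[(.ofNat 1, .ofNat 0), (.negSucc 7, .ofNat 0), (.ofNat 28, .ofNat 0), (.negSucc 55, .ofNat 0), (.ofNat 70, .ofNat 0), (.negSucc 55, .ofNat 0), (.ofNat 28, .ofNat 0), (.negSucc 7, .ofNat 0), (.ofNat 1, .ofNat 0)], [(.ofNat 1, .ofNat 0), (.negSucc 6, .ofNat 0), (.ofNat 21, .ofNat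 0), (.negSucc 34, .ofNat 0), (.ofNat 35, .ofNat 0), (.negSucc 20, .ofNat 0), (.ofNat 7, .ofNat 0), (.negSucc 0, .ofNat 0), (.ofNat 0, .ofNat 0)], [(.ofNat 1, .ofNat 0), (.negSucc 5, .ofNat 0), (.ofNat 15, .ofNat 0), (.negSucc 19, .ofNat 0), (.ofNat 15, .ofNat 0), (.negSucc 5, .ofNat 0), (.ofNat 1, .ofNat 0), (.ofNat 0, .ofNat 0), (.ofNat 0, .ofNat 0)], [(.ofNat 1, .ofNat 0), (.negSucc 4, .ofNat 0), (.ofNat 10, .ofNat 0), (.negSucc 9, .ofNat 0), (.ofNat 5, .ofNat 0), (.negSucc 0, .ofNat 0), (.ofNat 0, .ofNat 0), (.ofNat 0, .ofNat 0), (.ofNat 0, .ofNat 0)], [(.ofNat 1, .ofNat 0), (.negSucc 3, .ofNat 0), (.ofNat 6, .ofNat 0), (.negSucc 3, .ofNat 0), (.ofNat 1, .ofNat 0), (.ofNat 0, .ofNat 0), (.ofNat 0, .ofNat 0), (.ofNat 0, .ofNat 0), (.ofNat 0, .ofNat 0)], [(.ofNat 1, .ofNat 0), (.negSucc 2, .ofNat 0),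 (.ofNat 3, .ofNat 0), (.negSucc 0, .ofNat 0), (.ofNat 0, .ofNat 0), (.ofNat 0, .ofNat 0), (.ofNat 0, .ofNat 0), (.ofNat 0, .ofNat 0), (.ofNat 0, .ofNat 0)], [(.ofNat 1, .ofNat 0), (.negSucc 1, .ofNat 0), (.ofNat 1, .ofNat 0), (.ofNat 0, .ofNat 0), (.ofNat 0, .ofNat 0), (.ofNat 0, .ofNat 0), (.ofNat 0, .ofNat 0), (.ofNat 0, .ofNat 0), (.ofNat 0, .ofNat 0)], [(.ofNat 1, .ofNat 0), (.negSucc 0, .ofNat 0), (.ofNat 0, .ofNat 0), (.ofNat 0, .ofNat 0), (.ofNat 0, .ofNat 0), (.ofNat 0, .ofNat 0), (.ofNat 0, .ofNat 0), (.ofNat 0, .ofNat 0), (.ofNat 0, .ofNat 0)], [(.ofNat 1, .ofNat 0), (.ofNat 0, .ofNat 0), (.ofNat 0, .ofNat 0), (.ofNat 0, .ofNat 0), (.ofNat 0, .ofNat 0), (.ofNat 0, .ofNat 0), (.ofNat 0, .ofNat 0), (.ofNat 0, .ofNat 0), (.ofNat 0, .ofNat 0)]], [[(.ofNat 0, .ofNat 0), (.ofNat 0, .ofNat 0), (.ofNat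 0, .ofNat 0), (.ofNat 0, .ofNat 0), (.ofNat 0, .ofNat 0), (.ofNat 0, .ofNat 0), (.ofNat 0, .ofNat 0), (.ofNat 0, .ofNat 0), (.ofNat 1, .ofNat 0)], [(.ofNat 0, .ofNat 0), (.ofNat 0, .ofNat 0), (.ofNat 0, .ofNat 0), (.ofNat 0, .ofNat 0), (.ofNat 0, .ofNat 0), (.ofNat 0, .ofNat 0), (.ofNat 0, .ofNat 0), (.negSucc 0, .ofNat 0), (.ofNat 1, .ofNat 0)], [(.ofNat 0, .ofNat 0), (.ofNat 0, .ofNat 0), (.ofNat 0, .ofNat 0), (.ofNat 0, .ofNat 0), (.ofNat 0, .ofNat 0), (.ofNat 0, .ofNat 0), (.ofNat 1, .ofNat 0), (.negSucc 1, .ofNat 0), (.ofNat 1, .ofNat 0)], [(.ofNat 0, .ofNat 0), (.ofNat 0, .ofNat 0), (.ofNat 0, .ofNat 0), (.ofNat 0, .ofNat 0), (.ofNat 0, .ofNat 0), (.negSucc 0, .ofNat 0), (.ofNat 3, .ofNat 0), (.negSucc 2, .ofNat 0), (.ofNat 1, .ofNat 0)], [(.ofNat 0, .ofNat 0), (.ofNat 0, .ofNat 0), (.ofNat 0, .ofNat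 0), (.ofNat 0, .ofNat 0), (.ofNat 1, .ofNat 0), (.negSucc 3, .ofNat 0), (.ofNat 6, .ofNat 0), (.negSucc 3, .ofNat 0), (.ofNat 1, .ofNat 0)], [(.ofNat 0, .ofNat 0), (.ofNat 0, .ofNat 0), (.ofNat 0, .ofNat 0), (.negSucc 0, .ofNat 0), (.ofNat 5, .ofNat 0), (.negSucc 9, .ofNat 0), (.ofNat 10, .ofNat 0), (.negSucc 4, .ofNat 0), (.ofNat 1, .ofNat 0)], [(.ofNat 0, .ofNat 0), (.ofNat 0, .ofNat 0), (.ofNat 1, .ofNat 0), (.negSucc 5, .ofNat 0), (.ofNat 15, .ofNat 0), (.negSucc 19, .ofNat 0), (.ofNat 15, .ofNat 0), (.negSucc 5, .ofNat 0), (.ofNat 1, .ofNat 0)], [(.ofNat 0, .ofNat 0), (.negSucc 0, .ofNat 0), (.ofNat 7, .ofNat 0), (.negSucc 20, .ofNat 0), (.ofNat 35, .ofNat 0), (.negSucc 34, .ofNat 0), (.ofNat 21, .ofNat 0), (.negSucc 6, .ofNat 0), (.ofNat 1, .ofNat 0)], [(.ofNat 1, .ofNat 0), (.negSucc 7, .ofNat 0),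 (.ofNat 28, .ofNat 0), (.negSucc 55, .ofNat 0), (.ofNat 70, .ofNat 0), (.negSucc 55, .ofNat 0), (.ofNat 28, .ofNat 0), (.negSucc 7, .ofNat 0), (.ofNat 1, .ofNat 0)]]]
  tab1 := [[[(.ofNat 1, .ofNat 0), (.ofNat 0, .ofNat 0), (.ofNat 0, .ofNat 0), (.ofNat 0, .ofNat 0), (.ofNat 0, .ofNat 0), (.ofNat 0, .ofNat 0), (.ofNat 0, .ofNat 0), (.ofNat 0, .ofNat 0), (.ofNat 0, .ofNat 0)], [(.ofNat 0, .ofNat 0), (.ofNat 1, .ofNat 0), (.ofNat 0, .ofNat 0), (.ofNat 0, .ofNat 0), (.ofNat 0, .ofNat 0), (.ofNat 0, .ofNat 0), (.ofNat 0, .ofNat 0), (.ofNat 0, .ofNat 0), (.ofNat 0, .ofNat 0)], [(.ofNat 0, .ofNat 0), (.ofNat 0, .ofNat 0), (.ofNat 1, .ofNat 0), (.ofNat 0, .ofNat 0), (.ofNat 0, .ofNat 0), (.ofNat 0, .ofNat 0), (.ofNat 0, .ofNat 0), (.ofNat 0, .ofNat 0), (.ofNat 0, .ofNat 0)], [(.ofNat 0, .ofNat 0), (.ofNat 0,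 .ofNat 0), (.ofNat 0, .ofNat 0), (.ofNat 1, .ofNat 0), (.ofNat 0, .ofNat 0), (.ofNat 0, .ofNat 0), (.ofNat 0, .ofNat 0), (.ofNat 0, .ofNat 0), (.ofNat 0, .ofNat 0)], [(.ofNat 0, .ofNat 0), (.ofNat 0, .ofNat 0), (.ofNat 0, .ofNat 0), (.ofNat 0, .ofNat 0), (.ofNat 1, .ofNat 0), (.ofNat 0, .ofNat 0), (.ofNat 0, .ofNat 0), (.ofNat 0, .ofNat 0), (.ofNat 0, .ofNat 0)], [(.ofNat 0, .ofNat 0), (.ofNat 0, .ofNat 0), (.ofNat 0, .ofNat 0), (.ofNat 0, .ofNat 0), (.ofNat 0, .ofNat 0), (.ofNat 1, .ofNat 0), (.ofNat 0, .ofNat 0), (.ofNat 0, .ofNat 0), (.ofNat 0, .ofNat 0)], [(.ofNat 0, .ofNat 0), (.ofNat 0, .ofNat 0), (.ofNat 0, .ofNat 0), (.ofNat 0, .ofNat 0), (.ofNat 0, .ofNat 0), (.ofNat 0, .ofNat 0), (.ofNat 1, .ofNat 0), (.ofNat 0, .ofNat 0), (.ofNat 0, .ofNat 0)], [(.ofNat 0, .ofNat 0), (.ofNat 0, .ofNat 0), (.ofNat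 0, .ofNat 0), (.ofNat 0, .ofNat 0), (.ofNat 0, .ofNat 0), (.ofNat 0, .ofNat 0), (.ofNat 0, .ofNat 0), (.ofNat 1, .ofNat 0), (.ofNat 0, .ofNat 0)], [(.ofNat 0, .ofNat 0), (.ofNat 0, .ofNat 0), (.ofNat 0, .ofNat 0), (.ofNat 0, .ofNat 0), (.ofNat 0, .ofNat 0), (.ofNat 0, .ofNat 0), (.ofNat 0, .ofNat 0), (.ofNat 0, .ofNat 0), (.ofNat 1, .ofNat 0)]], [[(.ofNat 16, .ofNat 0), (.ofNat 0, .negSucc 63), (.negSucc 223, .ofNat 0), (.ofNat 0, .ofNat 224), (.ofNat 280, .ofNat 0), (.ofNat 0, .negSucc 111), (.negSucc 55, .ofNat 0), (.ofNat 0, .ofNat 8), (.ofNat 1, .ofNat 0)], [(.ofNat 0, .negSucc 7), (.negSucc 55, .ofNat 0), (.ofNat 0, .ofNat 84), (.ofNat 140, .ofNat 0), (.ofNat 0, .negSucc 69), (.negSucc 41, .ofNat 0), (.ofNat 0, .ofNat 7), (.ofNat 1, .ofNat 0), (.ofNat 0, .ofNat 0)], [(.negSucc 7, .ofNat 0), (.ofNat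 0, .ofNat 24), (.ofNat 60, .ofNat 0), (.ofNat 0, .negSucc 39), (.negSucc 29, .ofNat 0), (.ofNat 0, .ofNat 6), (.ofNat 1, .ofNat 0), (.ofNat 0, .ofNat 0), (.ofNat 0, .ofNat 0)], [(.ofNat 0, .ofNat 4), (.ofNat 20, .ofNat 0), (.ofNat 0, .negSucc 19), (.negSucc 19, .ofNat 0), (.ofNat 0, .ofNat 5), (.ofNat 1, .ofNat 0), (.ofNat 0, .ofNat 0), (.ofNat 0, .ofNat 0), (.ofNat 0, .ofNat 0)], [(.ofNat 4, .ofNat 0), (.ofNat 0, .negSucc 7), (.negSucc 11, .ofNat 0), (.ofNat 0, .ofNat 4), (.ofNat 1, .ofNat 0), (.ofNat 0, .ofNat 0), (.ofNat 0, .ofNat 0), (.ofNat 0, .ofNat 0), (.ofNat 0, .ofNat 0)], [(.ofNat 0, .negSucc 1), (.negSucc 5, .ofNat 0), (.ofNat 0, .ofNat 3), (.ofNat 1, .ofNat 0), (.ofNat 0, .ofNat 0), (.ofNat 0, .ofNat 0), (.ofNat 0, .ofNat 0), (.ofNat 0, .ofNat 0), (.ofNat 0, .ofNat 0)], [(.negSucc 1, .ofNat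 0), (.ofNat 0, .ofNat 2), (.ofNat 1, .ofNat 0), (.ofNat 0, .ofNat 0), (.ofNat 0, .ofNat 0), (.ofNat 0, .ofNat 0), (.ofNat 0, .ofNat 0), (.ofNat 0, .ofNat 0), (.ofNat 0, .ofNat 0)], [(.ofNat 0, .ofNat 1), (.ofNat 1, .ofNat 0), (.ofNat 0, .ofNat 0), (.ofNat 0, .ofNat 0), (.ofNat 0, .ofNat 0), (.ofNat 0, .ofNat 0), (.ofNat 0, .ofNat 0), (.ofNat 0, .ofNat 0), (.ofNat 0, .ofNat 0)], [(.ofNat 1, .ofNat 0), (.ofNat 0, .ofNat 0), (.ofNat 0, .ofNat 0), (.ofNat 0, .ofNat 0), (.ofNat 0, .ofNat 0), (.ofNat 0, .ofNat 0), (.ofNat 0, .ofNat 0), (.ofNat 0, .ofNat 0), (.ofNat 0, .ofNat 0)]], [[(.ofNat 1, .ofNat 0), (.ofNat 0, .negSucc 7), (.negSucc 55, .ofNat 0), (.ofNat 0, .ofNat 112), (.ofNat 280, .ofNat 0), (.ofNat 0, .negSucc 223), (.negSucc 223, .ofNat 0), (.ofNat 0, .ofNat 64), (.ofNat 16, .ofNat 0)], [(.ofNat 0,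 .ofNat 1), (.ofNat 15, .ofNat 0), (.ofNat 0, .negSucc 48), (.negSucc 181, .ofNat 0), (.ofNat 0, .ofNat 210), (.ofNat 308, .ofNat 0), (.ofNat 0, .negSucc 139), (.negSucc 71, .ofNat 0), (.ofNat 0, .ofNat 8)], [(.negSucc 1, .ofNat 0), (.ofNat 0, .ofNat 14), (.ofNat 85, .ofNat 0), (.ofNat 0, .negSucc 145), (.negSucc 309, .ofNat 0), (.ofNat 0, .ofNat 208), (.ofNat 172, .ofNat 0), (.ofNat 0, .negSucc 39), (.negSucc 7, .ofNat 0)], [(.ofNat 0, .negSucc 1), (.negSucc 25, .ofNat 0), (.ofNat 0, .ofNat 73), (.ofNat 231, .ofNat 0), (.ofNat 0, .negSucc 224), (.negSucc 275, .ofNat 0), (.ofNat 0, .ofNat 104), (.ofNat 44, .ofNat 0), (.ofNat 0, .negSucc 3)], [(.ofNat 4, .ofNat 0), (.ofNat 0, .negSucc 23), (.negSucc 123, .ofNat 0), (.ofNat 0, .ofNat 180), (.ofNat 321, .ofNat 0), (.ofNat 0, .negSucc 179), (.negSucc 123, .ofNat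 0), (.ofNat 0, .ofNat 24), (.ofNat 4, .ofNat 0)], [(.ofNat 0, .ofNat 4), (.ofNat 44, .ofNat 0), (.ofNat 0, .negSucc 103), (.negSucc 275, .ofNat 0), (.ofNat 0, .ofNat 225), (.ofNat 231, .ofNat 0), (.ofNat 0, .negSucc 72), (.negSucc 25, .ofNat 0), (.ofNat 0, .ofNat 2)], [(.negSucc 7, .ofNat 0), (.ofNat 0, .ofNat 40), (.ofNat 172, .ofNat 0), (.ofNat 0, .negSucc 207), (.negSucc 309, .ofNat 0), (.ofNat 0, .ofNat 146), (.ofNat 85, .ofNat 0), (.ofNat 0, .negSucc 13), (.negSucc 1, .ofNat 0)], [(.ofNat 0, .negSucc 7), (.negSucc 71, .ofNat 0), (.ofNat 0, .ofNat 140), (.ofNat 308, .ofNat 0), (.ofNat 0, .negSucc 209), (.negSucc 181, .ofNat 0), (.ofNat 0, .ofNat 49), (.ofNat 15, .ofNat 0), (.ofNat 0, .negSucc 0)], [(.ofNat 16, .ofNat 0), (.ofNat 0, .negSucc 63), (.negSucc 223, .ofNat 0), (.ofNat 0, .ofNat 224), (.ofNat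 280, .ofNat 0), (.ofNat 0, .negSucc 111), (.negSucc 55, .ofNat 0), (.ofNat 0, .ofNat 8), (.ofNat 1, .ofNat 0)]], [[(.ofNat 0, .ofNat 0), (.ofNat 0, .ofNat 0), (.ofNat 0, .ofNat 0), (.ofNat 0, .ofNat 0), (.ofNat 0, .ofNat 0), (.ofNat 0, .ofNat 0), (.ofNat 0, .ofNat 0), (.ofNat 0, .ofNat 0), (.ofNat 1, .ofNat 0)], [(.ofNat 0, .ofNat 0), (.ofNat 0, .ofNat 0), (.ofNat 0, .ofNat 0), (.ofNat 0, .ofNat 0), (.ofNat 0, .ofNat 0), (.ofNat 0, .ofNat 0), (.ofNat 0, .ofNat 0), (.ofNat 1, .ofNat 0), (.ofNat 0, .negSucc 0)], [(.ofNat 0, .ofNat 0), (.ofNat 0, .ofNat 0), (.ofNat 0, .ofNat 0), (.ofNat 0, .ofNat 0), (.ofNat 0, .ofNat 0), (.ofNat 0, .ofNat 0), (.ofNat 1, .ofNat 0), (.ofNat 0, .negSucc 1), (.negSucc 1, .ofNat 0)], [(.ofNat 0, .ofNat 0), (.ofNat 0, .ofNat 0), (.ofNat 0, .ofNat 0), (.ofNat 0, .ofNat 0), (.ofNat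 0, .ofNat 0), (.ofNat 1, .ofNat 0), (.ofNat 0, .negSucc 2), (.negSucc 5, .ofNat 0), (.ofNat 0, .ofNat 2)], [(.ofNat 0, .ofNat 0), (.ofNat 0, .ofNat 0), (.ofNat 0, .ofNat 0), (.ofNat 0, .ofNat 0), (.ofNat 1, .ofNat 0), (.ofNat 0, .negSucc 3), (.negSucc 11, .ofNat 0), (.ofNat 0, .ofNat 8), (.ofNat 4, .ofNat 0)], [(.ofNat 0, .ofNat 0), (.ofNat 0, .ofNat 0), (.ofNat 0, .ofNat 0), (.ofNat 1, .ofNat 0), (.ofNat 0, .negSucc 4), (.negSucc 19, .ofNat 0), (.ofNat 0, .ofNat 20), (.ofNat 20, .ofNat 0), (.ofNat 0, .negSucc 3)], [(.ofNat 0, .ofNat 0), (.ofNat 0, .ofNat 0), (.ofNat 1, .ofNat 0), (.ofNat 0, .negSucc 5), (.negSucc 29, .ofNat 0), (.ofNat 0, .ofNat 40), (.ofNat 60, .ofNat 0), (.ofNat 0, .negSucc 23), (.negSucc 7, .ofNat 0)], [(.ofNat 0, .ofNat 0), (.ofNat 1, .ofNat 0), (.ofNat 0, .negSucc 6), (.negSucc 41,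 .ofNat 0), (.ofNat 0, .ofNat 70), (.ofNat 140, .ofNat 0), (.ofNat 0, .negSucc 83), (.negSucc 55, .ofNat 0), (.ofNat 0, .ofNat 8)], [(.ofNat 1, .ofNat 0), (.ofNat 0, .negSucc 7), (.negSucc 55, .ofNat 0), (.ofNat 0, .ofNat 112), (.ofNat 280, .ofNat 0), (.ofNat 0, .negSucc 223), (.negSucc 223, .ofNat 0), (.ofNat 0, .ofNat 64), (.ofNat 16, .ofNat 0)]]]
  rws := [(0, 0, 5, 0), (0, 0, 6, 0), (0, 0, 7, 0), (0, 0, 8, 0), (0, 1, 2, 0), (0, 1, 6, 0), (0, 1, 7, 0), (0, 2, 6, 0), (1, 0, 1, 1), (1, 0, 4, 0), (1, 0, 8, 0)]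
  cols := [((0, 2), [.ofNat 70, .negSucc 41, .ofNat 14, .negSucc 1, .ofNat 56, .ofNat 280, .negSucc 95, .negSucc 783, .ofNat 260, .ofNat 4760, .ofNat 64]), ((0, 4), [.ofNat 60, .negSucc 33, .ofNat 12, .negSucc 1, .ofNat 64, .ofNat 160, .negSucc 63, .negSucc 335, .negSucc 271, .negSucc 5919, .negSucc 127]), ((0, 6), [.ofNat 62, .negSucc 28, .ofNat 10, .negSucc 1, .ofNat 48, .ofNat 64, .negSucc 31, .negSucc 55, .ofNat 240, .ofNat 6920, .ofNat 256]), ((0, 8), [.ofNat 112, .negSucc 55, .ofNat 16, .negSucc 1, .ofNat 0, .ofNat 0, .ofNat 0, .ofNat 0, .negSucc 255, .negSucc 8959, .negSucc 511]), ((1, 3), [.ofNat 20, .negSucc 6, .ofNat 1, .ofNat 0, .ofNat 38, .ofNat 45, .negSucc 9, .negSucc 139, .ofNat 136, .ofNat 2790, .ofNat 48]), ((1, 5), [.ofNat 22, .negSucc 6, .ofNat 1, .ofNat 0, .ofNat 52, .ofNat 24, .negSucc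 5, .negSucc 41, .negSucc 159, .negSucc 4279, .negSucc 119]), ((1, 7), [.ofNat 42, .negSucc 13, .ofNat 2, .ofNat 0, .ofNat 42, .ofNat 14, .negSucc 1, .ofNat 0, .ofNat 192, .ofNat 6160, .ofNat 252]), ((2, 4), [.ofNat 6, .negSucc 0, .ofNat 0, .ofNat 0, .ofNat 32, .ofNat 4, .ofNat 0, .negSucc 11, .ofNat 80, .ofNat 2040, .ofNat 48]), ((2, 6), [.ofNat 12, .negSucc 1, .ofNat 0, .ofNat 0, .ofNat 48, .ofNat 4, .ofNat 0, .negSucc 1, .negSucc 127, .negSucc 3839, .negSucc 119]), ((3, 5), [.ofNat 2, .ofNat 0, .ofNat 0, .ofNat 0, .ofNat 30, .ofNat 0, .ofNat 0, .ofNat 0, .ofNat 64, .ofNat 1840, .ofNat 48])]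
  tg := [((0, 2), .ofNat 30, [.negSucc 15086684, .negSucc 81120029, .negSucc 225370939, .negSucc 376666479, .ofNat 1052795, .negSucc 9122949, .negSucc 17387729, .negSucc 1119259, .ofNat 58950, .negSucc 3806, .ofNat 37950]), ((0, 4), .ofNat 720, [.negSucc 25021432619, .negSucc 134539453559, .negSucc 373784766059, .negSucc 624710869599, .ofNat 1746059580, .negSucc 15130822949, .negSucc 28838580209, .negSucc 1856327939, .ofNat 97743030, .negSucc 6311870, .ofNat 62903470]), ((0, 6), .ofNat 360, [.ofNat 13221941670, .ofNat 71093955540, .ofNat 197517047700, .ofNat 330112578880, .negSucc 922661009, .ofNat 7995497400, .ofNat 15239010150, .ofNat 980929260, .negSucc 51650024, .ofNat 3335364, .negSucc 33240024]), ((0, 8), .ofNat 360, [.negSucc 1060370279, .negSucc 5701576799, .negSucc 15840426779, .negSucc 26474292999,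 .ofNat 73995360, .negSucc 641221049, .negSucc 1222134569, .negSucc 78668339, .ofNat 4142220, .negSucc 267488, .ofNat 2665780]), ((1, 3), .ofNat 45, [.ofNat 3281688990, .ofNat 17645532000, .ofNat 49023757410, .ofNat 81933995680, .negSucc 229004729, .ofNat 1984482975, .ofNat 3782322255, .ofNat 243466770, .negSucc 12819659, .ofNat 827847, .negSucc 8250339]), ((1, 5), .ofNat 180, [.ofNat 12975525990, .ofNat 69768996180, .ofNat 193835992500, .ofNat 323960365760, .negSucc 905465369, .ofNat 7846489410, .ofNat 14955010920, .ofNat 962648040, .negSucc 50687174, .ofNat 3273183, .negSucc 32620174]), ((1, 7), .ofNat 90, [.negSucc 5819464889, .negSucc 31291075739, .negSucc 86934548099, .negSucc 145294738879, .ofNat 406097190, .negSucc 3519113729, .negSucc 6707251229, .negSucc 431743199, .ofNat 22733085, .negSucc 1468016,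 .ofNat 14630165]), ((2, 4), .ofNat 24, [.negSucc 6285233609, .negSucc 33795494643, .negSucc 93892451023, .negSucc 156923575039, .ofNat 438599782, .negSucc 3800769305, .negSucc 7244071275, .negSucc 466298239, .ofNat 24552675, .negSucc 1585520, .ofNat 15801275]), ((2, 6), .ofNat 15, [.negSucc 1207763459, .negSucc 6494106379, .negSucc 18042277269, .negSucc 30154269119, .ofNat 84280820, .negSucc 730352189, .negSucc 1392014269, .negSucc 89603394, .ofNat 4717965, .negSucc 304667, .ofNat 3036285]), ((3, 5), .ofNat 90, [.ofNat 33841694610, .ofNat 181965684060, .ofNat 505546804380, .ofNat 844926404800, .negSucc 2361560519, .ofNat 20464550670, .ofNat 39004384470, .ofNat 2510697960, .negSucc 132199304, .ofNat 8536941, .negSucc 85078944])]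

theorem NIT_2_0_8 (l : ℕ) (hlp : l.Prime) (hl2 : l ≠ 2) (hls : ¬ l ∣ 8) (hE : ¬ l ∣ 1)
    (hj : 8 < l) : NUMA_stmt 2 0 l 8 :=
  @NI_fin 2 0 1 1 8 8 (by norm_num) NIC_2_0_8 (by decide +kernel) (by decide +kernel)
    (by decide +kernel) (by decide +kernel) l hlp hl2 hls hE hj

/-- certificate, `d = 2`, `t = 0`, `j = 9` -/
def NIC_2_0_9 : NI_Cert where
  tab0 := [[[(.ofNat 1, .ofNat 0), (.ofNat 0, .ofNat 0), (.ofNat 0, .ofNat 0), (.ofNat 0, .ofNat 0), (.ofNat 0, .ofNat 0), (.ofNat 0, .ofNat 0), (.ofNat 0, .ofNat 0), (.ofNat 0, .ofNat 0), (.ofNat 0, .ofNat 0), (.ofNat 0, .ofNat 0)], [(.ofNat 0, .ofNat 0), (.ofNat 1, .ofNat 0), (.ofNat 0, .ofNat 0), (.ofNat 0, .ofNat 0), (.ofNat 0, .ofNat 0), (.ofNat 0, .ofNat 0), (.ofNat 0, .ofNat 0), (.ofNat 0, .ofNat 0), (.ofNat 0, .ofNat 0), (.ofNat 0, .ofNat 0)], [(.ofNat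 0, .ofNat 0), (.ofNat 0, .ofNat 0), (.ofNat 1, .ofNat 0), (.ofNat 0, .ofNat 0), (.ofNat 0, .ofNat 0), (.ofNat 0, .ofNat 0), (.ofNat 0, .ofNat 0), (.ofNat 0, .ofNat 0), (.ofNat 0, .ofNat 0), (.ofNat 0, .ofNat 0)], [(.ofNat 0, .ofNat 0), (.ofNat 0, .ofNat 0), (.ofNat 0, .ofNat 0), (.ofNat 1, .ofNat 0), (.ofNat 0, .ofNat 0), (.ofNat 0, .ofNat 0), (.ofNat 0, .ofNat 0), (.ofNat 0, .ofNat 0), (.ofNat 0, .ofNat 0), (.ofNat 0, .ofNat 0)], [(.ofNat 0, .ofNat 0), (.ofNat 0, .ofNat 0), (.ofNat 0, .ofNat 0), (.ofNat 0, .ofNat 0), (.ofNat 1, .ofNat 0), (.ofNat 0, .ofNat 0), (.ofNat 0, .ofNat 0), (.ofNat 0, .ofNat 0), (.ofNat 0, .ofNat 0), (.ofNat 0, .ofNat 0)], [(.ofNat 0, .ofNat 0), (.ofNat 0, .ofNat 0), (.ofNat 0, .ofNat 0), (.ofNat 0, .ofNat 0), (.ofNat 0, .ofNat 0), (.ofNat 1, .ofNat 0), (.ofNat 0, .ofNat 0), (.ofNat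 0, .ofNat 0), (.ofNat 0, .ofNat 0), (.ofNat 0, .ofNat 0)], [(.ofNat 0, .ofNat 0), (.ofNat 0, .ofNat 0), (.ofNat 0, .ofNat 0), (.ofNat 0, .ofNat 0), (.ofNat 0, .ofNat 0), (.ofNat 0, .ofNat 0), (.ofNat 1, .ofNat 0), (.ofNat 0, .ofNat 0), (.ofNat 0, .ofNat 0), (.ofNat 0, .ofNat 0)], [(.ofNat 0, .ofNat 0), (.ofNat 0, .ofNat 0), (.ofNat 0, .ofNat 0), (.ofNat 0, .ofNat 0), (.ofNat 0, .ofNat 0), (.ofNat 0, .ofNat 0), (.ofNat 0, .ofNat 0), (.ofNat 1, .ofNat 0), (.ofNat 0, .ofNat 0), (.ofNat 0, .ofNat 0)], [(.ofNat 0, .ofNat 0), (.ofNat 0, .ofNat 0), (.ofNat 0, .ofNat 0), (.ofNat 0, .ofNat 0), (.ofNat 0, .ofNat 0), (.ofNat 0, .ofNat 0), (.ofNat 0, .ofNat 0), (.ofNat 0, .ofNat 0), (.ofNat 1, .ofNat 0), (.ofNat 0, .ofNat 0)], [(.ofNat 0, .ofNat 0), (.ofNat 0, .ofNat 0), (.ofNat 0, .ofNat 0), (.ofNat 0, .ofNat 0),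 (.ofNat 0, .ofNat 0), (.ofNat 0, .ofNat 0), (.ofNat 0, .ofNat 0), (.ofNat 0, .ofNat 0), (.ofNat 0, .ofNat 0), (.ofNat 1, .ofNat 0)]], [[(.ofNat 1, .ofNat 0), (.negSucc 8, .ofNat 0), (.ofNat 36, .ofNat 0), (.negSucc 83, .ofNat 0), (.ofNat 126, .ofNat 0), (.negSucc 125, .ofNat 0), (.ofNat 84, .ofNat 0), (.negSucc 35, .ofNat 0), (.ofNat 9, .ofNat 0), (.negSucc 0, .ofNat 0)], [(.ofNat 1, .ofNat 0), (.negSucc 7, .ofNat 0), (.ofNat 28, .ofNat 0), (.negSucc 55, .ofNat 0), (.ofNat 70, .ofNat 0), (.negSucc 55, .ofNat 0), (.ofNat 28, .ofNat 0), (.negSucc 7, .ofNat 0), (.ofNat 1, .ofNat 0), (.ofNat 0, .ofNat 0)], [(.ofNat 1, .ofNat 0), (.negSucc 6, .ofNat 0), (.ofNat 21, .ofNat 0), (.negSucc 34, .ofNat 0), (.ofNat 35, .ofNat 0), (.negSucc 20, .ofNat 0), (.ofNat 7, .ofNat 0), (.negSucc 0, .ofNat 0), (.ofNat 0, .ofNat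 0), (.ofNat 0, .ofNat 0)], [(.ofNat 1, .ofNat 0), (.negSucc 5, .ofNat 0), (.ofNat 15, .ofNat 0), (.negSucc 19, .ofNat 0), (.ofNat 15, .ofNat 0), (.negSucc 5, .ofNat 0), (.ofNat 1, .ofNat 0), (.ofNat 0, .ofNat 0), (.ofNat 0, .ofNat 0), (.ofNat 0, .ofNat 0)], [(.ofNat 1, .ofNat 0), (.negSucc 4, .ofNat 0), (.ofNat 10, .ofNat 0), (.negSucc 9, .ofNat 0), (.ofNat 5, .ofNat 0), (.negSucc 0, .ofNat 0), (.ofNat 0, .ofNat 0), (.ofNat 0, .ofNat 0), (.ofNat 0, .ofNat 0), (.ofNat 0, .ofNat 0)], [(.ofNat 1, .ofNat 0), (.negSucc 3, .ofNat 0), (.ofNat 6, .ofNat 0), (.negSucc 3, .ofNat 0), (.ofNat 1, .ofNat 0), (.ofNat 0, .ofNat 0), (.ofNat 0, .ofNat 0), (.ofNat 0, .ofNat 0), (.ofNat 0, .ofNat 0), (.ofNat 0, .ofNat 0)], [(.ofNat 1, .ofNat 0), (.negSucc 2, .ofNat 0), (.ofNat 3, .ofNat 0), (.negSucc 0, .ofNat 0), (.ofNat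 0, .ofNat 0), (.ofNat 0, .ofNat 0), (.ofNat 0, .ofNat 0), (.ofNat 0, .ofNat 0), (.ofNat 0, .ofNat 0), (.ofNat 0, .ofNat 0)], [(.ofNat 1, .ofNat 0), (.negSucc 1, .ofNat 0), (.ofNat 1, .ofNat 0), (.ofNat 0, .ofNat 0), (.ofNat 0, .ofNat 0), (.ofNat 0, .ofNat 0), (.ofNat 0, .ofNat 0), (.ofNat 0, .ofNat 0), (.ofNat 0, .ofNat 0), (.ofNat 0, .ofNat 0)], [(.ofNat 1, .ofNat 0), (.negSucc 0, .ofNat 0), (.ofNat 0, .ofNat 0), (.ofNat 0, .ofNat 0), (.ofNat 0, .ofNat 0), (.ofNat 0, .ofNat 0), (.ofNat 0, .ofNat 0), (.ofNat 0, .ofNat 0), (.ofNat 0, .ofNat 0), (.ofNat 0, .ofNat 0)], [(.ofNat 1, .ofNat 0), (.ofNat 0, .ofNat 0), (.ofNat 0, .ofNat 0), (.ofNat 0, .ofNat 0), (.ofNat 0, .ofNat 0), (.ofNat 0, .ofNat 0), (.ofNat 0, .ofNat 0), (.ofNat 0, .ofNat 0), (.ofNat 0, .ofNat 0), (.ofNat 0, .ofNat 0)]], [[(.ofNat 0, .ofNat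 0), (.ofNat 0, .ofNat 0), (.ofNat 0, .ofNat 0), (.ofNat 0, .ofNat 0), (.ofNat 0, .ofNat 0), (.ofNat 0, .ofNat 0), (.ofNat 0, .ofNat 0), (.ofNat 0, .ofNat 0), (.ofNat 0, .ofNat 0), (.negSucc 0, .ofNat 0)], [(.ofNat 0, .ofNat 0), (.ofNat 0, .ofNat 0), (.ofNat 0, .ofNat 0), (.ofNat 0, .ofNat 0), (.ofNat 0, .ofNat 0), (.ofNat 0, .ofNat 0), (.ofNat 0, .ofNat 0), (.ofNat 0, .ofNat 0), (.ofNat 1, .ofNat 0), (.negSucc 0, .ofNat 0)], [(.ofNat 0, .ofNat 0), (.ofNat 0, .ofNat 0), (.ofNat 0, .ofNat 0), (.ofNat 0, .ofNat 0), (.ofNat 0, .ofNat 0), (.ofNat 0, .ofNat 0), (.ofNat 0, .ofNat 0), (.negSucc 0, .ofNat 0), (.ofNat 2, .ofNat 0), (.negSucc 0, .ofNat 0)], [(.ofNat 0, .ofNat 0), (.ofNat 0, .ofNat 0), (.ofNat 0, .ofNat 0), (.ofNat 0, .ofNat 0), (.ofNat 0, .ofNat 0), (.ofNat 0, .ofNat 0), (.ofNat 1, .ofNat 0), (.negSucc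 2, .ofNat 0), (.ofNat 3, .ofNat 0), (.negSucc 0, .ofNat 0)], [(.ofNat 0, .ofNat 0), (.ofNat 0, .ofNat 0), (.ofNat 0, .ofNat 0), (.ofNat 0, .ofNat 0), (.ofNat 0, .ofNat 0), (.negSucc 0, .ofNat 0), (.ofNat 4, .ofNat 0), (.negSucc 5, .ofNat 0), (.ofNat 4, .ofNat 0), (.negSucc 0, .ofNat 0)], [(.ofNat 0, .ofNat 0), (.ofNat 0, .ofNat 0), (.ofNat 0, .ofNat 0), (.ofNat 0, .ofNat 0), (.ofNat 1, .ofNat 0), (.negSucc 4, .ofNat 0), (.ofNat 10, .ofNat 0), (.negSucc 9, .ofNat 0), (.ofNat 5, .ofNat 0), (.negSucc 0, .ofNat 0)], [(.ofNat 0, .ofNat 0), (.ofNat 0, .ofNat 0), (.ofNat 0, .ofNat 0), (.negSucc 0, .ofNat 0), (.ofNat 6, .ofNat 0), (.negSucc 14, .ofNat 0), (.ofNat 20, .ofNat 0), (.negSucc 14, .ofNat 0), (.ofNat 6, .ofNat 0), (.negSucc 0, .ofNat 0)], [(.ofNat 0, .ofNat 0), (.ofNat 0, .ofNat 0), (.ofNat 1, .ofNat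 0), (.negSucc 6, .ofNat 0), (.ofNat 21, .ofNat 0), (.negSucc 34, .ofNat 0), (.ofNat 35, .ofNat 0), (.negSucc 20, .ofNat 0), (.ofNat 7, .ofNat 0), (.negSucc 0, .ofNat 0)], [(.ofNat 0, .ofNat 0), (.negSucc 0, .ofNat 0), (.ofNat 8, .ofNat 0), (.negSucc 27, .ofNat 0), (.ofNat 56, .ofNat 0), (.negSucc 69, .ofNat 0), (.ofNat 56, .ofNat 0), (.negSucc 27, .ofNat 0), (.ofNat 8, .ofNat 0), (.negSucc 0, .ofNat 0)], [(.ofNat 1, .ofNat 0), (.negSucc 8, .ofNat 0), (.ofNat 36, .ofNat 0), (.negSucc 83, .ofNat 0), (.ofNat 126, .ofNat 0), (.negSucc 125, .ofNat 0), (.ofNat 84, .ofNat 0), (.negSucc 35, .ofNat 0), (.ofNat 9, .ofNat 0), (.negSucc 0, .ofNat 0)]]]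
  tab1 := [[[(.ofNat 1, .ofNat 0), (.ofNat 0, .ofNat 0), (.ofNat 0, .ofNat 0), (.ofNat 0, .ofNat 0), (.ofNat 0, .ofNat 0), (.ofNat 0, .ofNat 0), (.ofNat 0, .ofNat 0), (.ofNat 0, .ofNat 0), (.ofNat 0, .ofNat 0), (.ofNat 0, .ofNat 0)], [(.ofNat 0, .ofNat 0), (.ofNat 1, .ofNat 0), (.ofNat 0, .ofNat 0), (.ofNat 0, .ofNat 0), (.ofNat 0, .ofNat 0), (.ofNat 0, .ofNat 0), (.ofNat 0, .ofNat 0), (.ofNat 0, .ofNat 0), (.ofNat 0, .ofNat 0), (.ofNat 0, .ofNat 0)], [(.ofNat 0, .ofNat 0), (.ofNat 0, .ofNat 0), (.ofNat 1, .ofNat 0), (.ofNat 0, .ofNat 0), (.ofNat 0, .ofNat 0), (.ofNat 0, .ofNat 0), (.ofNat 0, .ofNat 0), (.ofNat 0, .ofNat 0), (.ofNat 0, .ofNat 0), (.ofNat 0, .ofNat 0)], [(.ofNat 0, .ofNat 0), (.ofNat 0, .ofNat 0), (.ofNat 0, .ofNat 0), (.ofNat 1, .ofNat 0), (.ofNat 0, .ofNat 0), (.ofNat 0, .ofNat 0), (.ofNat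 0, .ofNat 0), (.ofNat 0, .ofNat 0), (.ofNat 0, .ofNat 0), (.ofNat 0, .ofNat 0)], [(.ofNat 0, .ofNat 0), (.ofNat 0, .ofNat 0), (.ofNat 0, .ofNat 0), (.ofNat 0, .ofNat 0), (.ofNat 1, .ofNat 0), (.ofNat 0, .ofNat 0), (.ofNat 0, .ofNat 0), (.ofNat 0, .ofNat 0), (.ofNat 0, .ofNat 0), (.ofNat 0, .ofNat 0)], [(.ofNat 0, .ofNat 0), (.ofNat 0, .ofNat 0), (.ofNat 0, .ofNat 0), (.ofNat 0, .ofNat 0), (.ofNat 0, .ofNat 0), (.ofNat 1, .ofNat 0), (.ofNat 0, .ofNat 0), (.ofNat 0, .ofNat 0), (.ofNat 0, .ofNat 0), (.ofNat 0, .ofNat 0)], [(.ofNat 0, .ofNat 0), (.ofNat 0, .ofNat 0), (.ofNat 0, .ofNat 0), (.ofNat 0, .ofNat 0), (.ofNat 0, .ofNat 0), (.ofNat 0, .ofNat 0), (.ofNat 1, .ofNat 0), (.ofNat 0, .ofNat 0), (.ofNat 0, .ofNat 0), (.ofNat 0, .ofNat 0)], [(.ofNat 0, .ofNat 0), (.ofNat 0, .ofNat 0), (.ofNat 0, .ofNat 0),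 (.ofNat 0, .ofNat 0), (.ofNat 0, .ofNat 0), (.ofNat 0, .ofNat 0), (.ofNat 0, .ofNat 0), (.ofNat 1, .ofNat 0), (.ofNat 0, .ofNat 0), (.ofNat 0, .ofNat 0)], [(.ofNat 0, .ofNat 0), (.ofNat 0, .ofNat 0), (.ofNat 0, .ofNat 0), (.ofNat 0, .ofNat 0), (.ofNat 0, .ofNat 0), (.ofNat 0, .ofNat 0), (.ofNat 0, .ofNat 0), (.ofNat 0, .ofNat 0), (.ofNat 1, .ofNat 0), (.ofNat 0, .ofNat 0)], [(.ofNat 0, .ofNat 0), (.ofNat 0, .ofNat 0), (.ofNat 0, .ofNat 0), (.ofNat 0, .ofNat 0), (.ofNat 0, .ofNat 0), (.ofNat 0, .ofNat 0), (.ofNat 0, .ofNat 0), (.ofNat 0, .ofNat 0), (.ofNat 0, .ofNat 0), (.ofNat 1, .ofNat 0)]], [[(.ofNat 0, .ofNat 16), (.ofNat 144, .ofNat 0), (.ofNat 0, .negSucc 287), (.negSucc 671, .ofNat 0), (.ofNat 0, .ofNat 504), (.ofNat 504, .ofNat 0), (.ofNat 0, .negSucc 167), (.negSucc 71, .ofNat 0), (.ofNat 0, .ofNat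 9), (.ofNat 1, .ofNat 0)], [(.ofNat 16, .ofNat 0), (.ofNat 0, .negSucc 63), (.negSucc 223, .ofNat 0), (.ofNat 0, .ofNat 224), (.ofNat 280, .ofNat 0), (.ofNat 0, .negSucc 111), (.negSucc 55, .ofNat 0), (.ofNat 0, .ofNat 8), (.ofNat 1, .ofNat 0), (.ofNat 0, .ofNat 0)], [(.ofNat 0, .negSucc 7), (.negSucc 55, .ofNat 0), (.ofNat 0, .ofNat 84), (.ofNat 140, .ofNat 0), (.ofNat 0, .negSucc 69), (.negSucc 41, .ofNat 0), (.ofNat 0, .ofNat 7), (.ofNat 1, .ofNat 0), (.ofNat 0, .ofNat 0), (.ofNat 0, .ofNat 0)], [(.negSucc 7, .ofNat 0), (.ofNat 0, .ofNat 24), (.ofNat 60, .ofNat 0), (.ofNat 0, .negSucc 39), (.negSucc 29, .ofNat 0), (.ofNat 0, .ofNat 6), (.ofNat 1, .ofNat 0), (.ofNat 0, .ofNat 0), (.ofNat 0, .ofNat 0), (.ofNat 0, .ofNat 0)], [(.ofNat 0, .ofNat 4), (.ofNat 20, .ofNat 0), (.ofNat 0, .negSucc 19), (.negSucc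 19, .ofNat 0), (.ofNat 0, .ofNat 5), (.ofNat 1, .ofNat 0), (.ofNat 0, .ofNat 0), (.ofNat 0, .ofNat 0), (.ofNat 0, .ofNat 0), (.ofNat 0, .ofNat 0)], [(.ofNat 4, .ofNat 0), (.ofNat 0, .negSucc 7), (.negSucc 11, .ofNat 0), (.ofNat 0, .ofNat 4), (.ofNat 1, .ofNat 0), (.ofNat 0, .ofNat 0), (.ofNat 0, .ofNat 0), (.ofNat 0, .ofNat 0), (.ofNat 0, .ofNat 0), (.ofNat 0, .ofNat 0)], [(.ofNat 0, .negSucc 1), (.negSucc 5, .ofNat 0), (.ofNat 0, .ofNat 3), (.ofNat 1, .ofNat 0), (.ofNat 0, .ofNat 0), (.ofNat 0, .ofNat 0), (.ofNat 0, .ofNat 0), (.ofNat 0, .ofNat 0), (.ofNat 0, .ofNat 0), (.ofNat 0, .ofNat 0)], [(.negSucc 1, .ofNat 0), (.ofNat 0, .ofNat 2), (.ofNat 1, .ofNat 0), (.ofNat 0, .ofNat 0), (.ofNat 0, .ofNat 0), (.ofNat 0, .ofNat 0), (.ofNat 0, .ofNat 0), (.ofNat 0, .ofNat 0), (.ofNat 0, .ofNat 0), (.ofNat 0,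 .ofNat 0)], [(.ofNat 0, .ofNat 1), (.ofNat 1, .ofNat 0), (.ofNat 0, .ofNat 0), (.ofNat 0, .ofNat 0), (.ofNat 0, .ofNat 0), (.ofNat 0, .ofNat 0), (.ofNat 0, .ofNat 0), (.ofNat 0, .ofNat 0), (.ofNat 0, .ofNat 0), (.ofNat 0, .ofNat 0)], [(.ofNat 1, .ofNat 0), (.ofNat 0, .ofNat 0), (.ofNat 0, .ofNat 0), (.ofNat 0, .ofNat 0), (.ofNat 0, .ofNat 0), (.ofNat 0, .ofNat 0), (.ofNat 0, .ofNat 0), (.ofNat 0, .ofNat 0), (.ofNat 0, .ofNat 0), (.ofNat 0, .ofNat 0)]], [[(.ofNat 1, .ofNat 0), (.ofNat 0, .negSucc 8), (.negSucc 71, .ofNat 0), (.ofNat 0, .ofNat 168), (.ofNat 504, .ofNat 0), (.ofNat 0, .negSucc 503), (.negSucc 671, .ofNat 0), (.ofNat 0, .ofNat 288), (.ofNat 144, .ofNat 0), (.ofNat 0, .negSucc 15)], [(.ofNat 0, .ofNat 1), (.ofNat 17, .ofNat 0), (.ofNat 0, .negSucc 63), (.negSucc 279, .ofNat 0), (.ofNat 0, .ofNat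 392), (.ofNat 728, .ofNat 0), (.ofNat 0, .negSucc 447), (.negSucc 351, .ofNat 0), (.ofNat 0, .ofNat 80), (.ofNat 16, .ofNat 0)], [(.negSucc 1, .ofNat 0), (.ofNat 0, .ofNat 16), (.ofNat 113, .ofNat 0), (.ofNat 0, .negSucc 230), (.negSucc 601, .ofNat 0), (.ofNat 0, .ofNat 518), (.ofNat 588, .ofNat 0), (.ofNat 0, .negSucc 211), (.negSucc 87, .ofNat 0), (.ofNat 0, .ofNat 8)], [(.ofNat 0, .negSucc 1), (.negSucc 29, .ofNat 0), (.ofNat 0, .ofNat 99), (.ofNat 377, .ofNat 0), (.ofNat 0, .negSucc 455), (.negSucc 725, .ofNat 0), (.ofNat 0, .ofNat 380), (.ofNat 252, .ofNat 0), (.ofNat 0, .negSucc 47), (.negSucc 7, .ofNat 0)], [(.ofNat 4, .ofNat 0), (.ofNat 0, .negSucc 27), (.negSucc 171, .ofNat 0), (.ofNat 0, .ofNat 304), (.ofNat 681, .ofNat 0), (.ofNat 0, .negSucc 500), (.negSucc 483, .ofNat 0), (.ofNat 0, .ofNat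 148), (.ofNat 52, .ofNat 0), (.ofNat 0, .negSucc 3)], [(.ofNat 0, .ofNat 4), (.ofNat 52, .ofNat 0), (.ofNat 0, .negSucc 147), (.negSucc 483, .ofNat 0), (.ofNat 0, .ofNat 501), (.ofNat 681, .ofNat 0), (.ofNat 0, .negSucc 303), (.negSucc 171, .ofNat 0), (.ofNat 0, .ofNat 28), (.ofNat 4, .ofNat 0)], [(.negSucc 7, .ofNat 0), (.ofNat 0, .ofNat 48), (.ofNat 252, .ofNat 0), (.ofNat 0, .negSucc 379), (.negSucc 725, .ofNat 0), (.ofNat 0, .ofNat 456), (.ofNat 377, .ofNat 0), (.ofNat 0, .negSucc 98), (.negSucc 29, .ofNat 0), (.ofNat 0, .ofNat 2)], [(.ofNat 0, .negSucc 7), (.negSucc 87, .ofNat 0), (.ofNat 0, .ofNat 212), (.ofNat 588, .ofNat 0), (.ofNat 0, .negSucc 517), (.negSucc 601, .ofNat 0), (.ofNat 0, .ofNat 231), (.ofNat 113, .ofNat 0), (.ofNat 0, .negSucc 15), (.negSucc 1, .ofNat 0)], [(.ofNat 16, .ofNat 0),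 (.ofNat 0, .negSucc 79), (.negSucc 351, .ofNat 0), (.ofNat 0, .ofNat 448), (.ofNat 728, .ofNat 0), (.ofNat 0, .negSucc 391), (.negSucc 279, .ofNat 0), (.ofNat 0, .ofNat 64), (.ofNat 17, .ofNat 0), (.ofNat 0, .negSucc 0)], [(.ofNat 0, .ofNat 16), (.ofNat 144, .ofNat 0), (.ofNat 0, .negSucc 287), (.negSucc 671, .ofNat 0), (.ofNat 0, .ofNat 504), (.ofNat 504, .ofNat 0), (.ofNat 0, .negSucc 167), (.negSucc 71, .ofNat 0), (.ofNat 0, .ofNat 9), (.ofNat 1, .ofNat 0)]], [[(.ofNat 0, .ofNat 0), (.ofNat 0, .ofNat 0), (.ofNat 0, .ofNat 0), (.ofNat 0, .ofNat 0), (.ofNat 0, .ofNat 0), (.ofNat 0, .ofNat 0), (.ofNat 0, .ofNat 0), (.ofNat 0, .ofNat 0), (.ofNat 0, .ofNat 0), (.ofNat 1, .ofNat 0)], [(.ofNat 0, .ofNat 0), (.ofNat 0, .ofNat 0), (.ofNat 0, .ofNat 0), (.ofNat 0, .ofNat 0), (.ofNat 0, .ofNat 0), (.ofNat 0, .ofNat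 0), (.ofNat 0, .ofNat 0), (.ofNat 0, .ofNat 0), (.ofNat 1, .ofNat 0), (.ofNat 0, .negSucc 0)], [(.ofNat 0, .ofNat 0), (.ofNat 0, .ofNat 0), (.ofNat 0, .ofNat 0), (.ofNat 0, .ofNat 0), (.ofNat 0, .ofNat 0), (.ofNat 0, .ofNat 0), (.ofNat 0, .ofNat 0), (.ofNat 1, .ofNat 0), (.ofNat 0, .negSucc 1), (.negSucc 1, .ofNat 0)], [(.ofNat 0, .ofNat 0), (.ofNat 0, .ofNat 0), (.ofNat 0, .ofNat 0), (.ofNat 0, .ofNat 0), (.ofNat 0, .ofNat 0), (.ofNat 0, .ofNat 0), (.ofNat 1, .ofNat 0), (.ofNat 0, .negSucc 2), (.negSucc 5, .ofNat 0), (.ofNat 0, .ofNat 2)], [(.ofNat 0, .ofNat 0), (.ofNat 0, .ofNat 0), (.ofNat 0, .ofNat 0), (.ofNat 0, .ofNat 0), (.ofNat 0, .ofNat 0), (.ofNat 1, .ofNat 0), (.ofNat 0, .negSucc 3), (.negSucc 11, .ofNat 0), (.ofNat 0, .ofNat 8), (.ofNat 4, .ofNat 0)], [(.ofNat 0, .ofNat 0), (.ofNat 0, .ofNat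 0), (.ofNat 0, .ofNat 0), (.ofNat 0, .ofNat 0), (.ofNat 1, .ofNat 0), (.ofNat 0, .negSucc 4), (.negSucc 19, .ofNat 0), (.ofNat 0, .ofNat 20), (.ofNat 20, .ofNat 0), (.ofNat 0, .negSucc 3)], [(.ofNat 0, .ofNat 0), (.ofNat 0, .ofNat 0), (.ofNat 0, .ofNat 0), (.ofNat 1, .ofNat 0), (.ofNat 0, .negSucc 5), (.negSucc 29, .ofNat 0), (.ofNat 0, .ofNat 40), (.ofNat 60, .ofNat 0), (.ofNat 0, .negSucc 23), (.negSucc 7, .ofNat 0)], [(.ofNat 0, .ofNat 0), (.ofNat 0, .ofNat 0), (.ofNat 1, .ofNat 0), (.ofNat 0, .negSucc 6), (.negSucc 41, .ofNat 0), (.ofNat 0, .ofNat 70), (.ofNat 140, .ofNat 0), (.ofNat 0, .negSucc 83), (.negSucc 55, .ofNat 0), (.ofNat 0, .ofNat 8)], [(.ofNat 0, .ofNat 0), (.ofNat 1, .ofNat 0), (.ofNat 0, .negSucc 7), (.negSucc 55, .ofNat 0), (.ofNat 0, .ofNat 112), (.ofNat 280, .ofNat 0), (.ofNat 0,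 .negSucc 223), (.negSucc 223, .ofNat 0), (.ofNat 0, .ofNat 64), (.ofNat 16, .ofNat 0)], [(.ofNat 1, .ofNat 0), (.ofNat 0, .negSucc 8), (.negSucc 71, .ofNat 0), (.ofNat 0, .ofNat 168), (.ofNat 504, .ofNat 0), (.ofNat 0, .negSucc 503), (.negSucc 671, .ofNat 0), (.ofNat 0, .ofNat 288), (.ofNat 144, .ofNat 0), (.ofNat 0, .negSucc 15)]]]
  rws := [(0, 0, 1, 0), (0, 0, 6, 0), (0, 0, 7, 0), (0, 0, 8, 0), (0, 0, 9, 0), (0, 1, 2, 0), (0, 1, 7, 0), (0, 1, 8, 0), (0, 2, 4, 0), (1, 0, 6, 0), (1, 0, 9, 1)]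
  cols := [((0, 2), [.ofNat 4, .negSucc 111, .ofNat 56, .negSucc 15, .ofNat 2, .ofNat 72, .negSucc 431, .ofNat 126, .negSucc 2015, .negSucc 8063, .ofNat 64]), ((0, 4), [.ofNat 8, .negSucc 93, .ofNat 46, .negSucc 13, .ofNat 2, .ofNat 90, .negSucc 269, .ofNat 90, .negSucc 1115, .ofNat 11952, .negSucc 127]), ((0, 6), [.ofNat 12, .negSucc 84, .ofNat 39, .negSucc 11, .ofNat 2, .ofNat 81, .negSucc 134, .ofNat 54, .negSucc 377, .negSucc 17159, .ofNat 256]), ((0, 8), [.ofNat 16, .negSucc 111, .ofNat 44, .negSucc 9, .ofNat 2, .ofNat 36, .negSucc 35, .ofNat 18, .ofNat 0, .ofNat 24864, .negSucc 511]), ((1, 3), [.ofNat 4, .negSucc 26, .ofNat 8, .negSucc 0, .ofNat 0, .ofNat 51, .negSucc 62, .ofNat 12, .negSucc 677, .negSucc 5255, .ofNat 48]), ((1, 5), [.ofNat 8, .negSucc 27, .ofNat 8, .negSucc 0, .ofNat 0, .ofNat 74,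 .negSucc 37, .ofNat 8, .negSucc 391, .ofNat 9824, .negSucc 119]), ((1, 7), [.ofNat 12, .negSucc 34, .ofNat 9, .negSucc 0, .ofNat 0, .ofNat 69, .negSucc 16, .ofNat 4, .negSucc 69, .negSucc 15679, .ofNat 252]), ((2, 4), [.ofNat 4, .negSucc 6, .ofNat 1, .ofNat 0, .ofNat 0, .ofNat 43, .negSucc 4, .ofNat 0, .negSucc 245, .negSucc 4455, .ofNat 48]), ((2, 6), [.ofNat 8, .negSucc 7, .ofNat 1, .ofNat 0, .ofNat 0, .ofNat 66, .negSucc 2, .ofNat 0, .negSucc 119, .ofNat 9136, .negSucc 119]), ((3, 5), [.ofNat 4, .negSucc 0, .ofNat 0, .ofNat 0, .ofNat 0, .ofNat 39, .ofNat 0, .ofNat 0, .negSucc 89, .negSucc 4191, .ofNat 48])]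
  tg := [((0, 2), .ofNat 1260, [.ofNat 324119, .ofNat 1634, .negSucc 383771, .negSucc 3333531, .negSucc 9456159, .negSucc 41637, .ofNat 11200, .negSucc 111839, .negSucc 3847, .negSucc 59, .negSucc 5599]), ((0, 4), .ofNat 1080, [.negSucc 356517, .negSucc 1782, .ofNat 422442, .ofNat 3669290, .ofNat 10406240, .ofNat 45799, .negSucc 12255, .ofNat 123360, .ofNat 4232, .ofNat 66, .ofNat 6160]), ((0, 6), .ofNat 1080, [.ofNat 81008, .ofNat 368, .negSucc 96443, .negSucc 836883, .negSucc 2370339, .negSucc 10405, .ofNat 2720, .negSucc 28379, .negSucc 960, .negSucc 14, .negSucc 1399]), ((0, 8), .ofNat 7560, [.negSucc 16143, .ofNat 101, .ofNat 20646, .ofNat 174350, .ofNat 489440, .ofNat 2077, .negSucc 447, .ofNat 6180, .ofNat 191, .ofNat 3, .ofNat 280]), ((1, 3), .ofNat 180, [.negSucc 178183, .negSucc 883, .ofNat 210996,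 .ofNat 1832560, .ofNat 5199220, .ofNat 22892, .negSucc 6187, .ofNat 61380, .ofNat 2116, .ofNat 33, .ofNat 3080]), ((1, 5), .ofNat 120, [.ofNat 80918, .ofNat 398, .negSucc 95903, .negSucc 833103, .negSucc 2363529, .negSucc 10395, .ofNat 2800, .negSucc 27949, .negSucc 960, .negSucc 14, .negSucc 1399]), ((1, 7), .ofNat 840, [.negSucc 48221, .negSucc 221, .ofNat 57528, .ofNat 499320, .ofNat 1414350, .ofNat 6196, .negSucc 1623, .ofNat 16930, .ofNat 573, .ofNat 9, .ofNat 840]), ((2, 4), .ofNat 24, [.ofNat 32408, .ofNat 158, .negSucc 38375, .negSucc 333207, .negSucc 945327, .negSucc 4163, .ofNat 1128, .negSucc 11151, .negSucc 384, .negSucc 5, .negSucc 559]), ((2, 6), .ofNat 360, [.negSucc 129781, .negSucc 721, .ofNat 153288, .ofNat 1333960, .ofNat 3786910, .ofNat 16676, .negSucc 4543, .ofNat 44610, .ofNat 1543,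 .ofNat 24, .ofNat 2240]), ((3, 5), .ofNat 360, [.negSucc 226465, .negSucc 925, .ofNat 269064, .ofNat 2331640, .ofNat 6611770, .ofNat 29108, .negSucc 7831, .ofNat 78150, .ofNat 2689, .ofNat 42, .ofNat 3920])]

theorem NIT_2_0_9 (l : ℕ) (hlp : l.Prime) (hl2 : l ≠ 2) (hls : ¬ l ∣ 8) (hE : ¬ l ∣ 1)
    (hj : 9 < l) : NUMA_stmt 2 0 l 9 :=
  @NI_fin 2 0 1 1 8 9 (by norm_num) NIC_2_0_9 (by decide +kernel) (by decide +kernel)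
    (by decide +kernel) (by decide +kernel) l hlp hl2 hls hE hj

end Pool.Agent.OE
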