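import Pool.Agent.helper21.OE.NID

/-!
# Project OE: certificates over the integers
-/

namespace Pool.Agent.OE

set_option maxRecDepth 100000

/-- certificate, `d = 2`, `t = 1`, `j = 1` -/
def NIC_2_1_1 : NI_Cert where
  tab0 := [[[(.ofNat 1, .ofNat 0), (.ofNat 0, .ofNat 0)], [(.ofNat 0, .ofNat 0), (.ofNat 1, .ofNat 0)]], [[(.ofNat 1, .ofNat 0), (.negSucc 0, .ofNat 0)], [(.ofNat 1, .ofNat 0), (.ofNat 0, .ofNat 0)]], [[(.ofNat 0, .ofNat 0), (.negSucc 0, .ofNat 0)], [(.ofNat 1, .ofNat 0), (.negSucc 0, .ofNat 0)]]]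
  tab1 := [[[(.ofNat 1, .ofNat 0), (.ofNat 0, .ofNat 0)], [(.ofNat 0, .ofNat 0), (.ofNat 1, .ofNat 0)]], [[(.ofNat 0, .ofNat 1), (.ofNat 1, .ofNat 0)], [(.ofNat 1, .ofNat 0), (.ofNat 0, .ofNat 0)]], [[(.ofNat 1, .ofNat 0), (.ofNat 1, .negSucc 0)], [(.ofNat 0, .ofNat 1), (.ofNat 1, .ofNat 0)]], [[(.ofNat 0, .ofNat 0), (.ofNat 1, .ofNat 0)], [(.ofNat 1, .ofNat 0), (.ofNat 1, .negSucc 0)]]]
  rws := []
  cols := []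
  tg := []

theorem NIT_2_1_1 (l : ℕ) (hlp : l.Prime) (hl2 : l ≠ 2) (hls : ¬ l ∣ 7) (hE : ¬ l ∣ 7)
    (hj : 1 < l) : NUMA_stmt 2 1 l 1 :=
  @NI_fin 2 1 7 1 7 1 (by norm_num) NIC_2_1_1 (by decide +kernel) (by decide +kernel)
    (by decide +kernel) (by decide +kernel) l hlp hl2 hls hE hj

/-- certificate, `d = 2`, `t = 1`, `j = 2` -/
def NIC_2_1_2 : NI_Cert where
  tab0 := [[[(.ofNat 1, .ofNat 0), (.ofNat 0, .ofNat 0), (.ofNat 0, .ofNat 0)], [(.ofNat 0, .ofNat 0), (.ofNat 1, .ofNat 0), (.ofNat 0, .ofNat 0)], [(.ofNat 0, .ofNat 0), (.ofNat 0, .ofNat 0), (.ofNat 1, .ofNat 0)]], [[(.ofNat 1, .ofNat 0), (.negSucc 1, .ofNat 0), (.ofNat 1, .ofNat 0)], [(.ofNat 1, .ofNat 0), (.negSucc 0, .ofNat 0), (.ofNat 0, .ofNat 0)], [(.ofNat 1, .ofNat 0), (.ofNat 0, .ofNat 0), (.ofNat 0, .ofNat 0)]], [[(.ofNat 0, .ofNat 0), (.ofNat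 0, .ofNat 0), (.ofNat 1, .ofNat 0)], [(.ofNat 0, .ofNat 0), (.negSucc 0, .ofNat 0), (.ofNat 1, .ofNat 0)], [(.ofNat 1, .ofNat 0), (.negSucc 1, .ofNat 0), (.ofNat 1, .ofNat 0)]]]
  tab1 := [[[(.ofNat 1, .ofNat 0), (.ofNat 0, .ofNat 0), (.ofNat 0, .ofNat 0)], [(.ofNat 0, .ofNat 0), (.ofNat 1, .ofNat 0), (.ofNat 0, .ofNat 0)], [(.ofNat 0, .ofNat 0), (.ofNat 0, .ofNat 0), (.ofNat 1, .ofNat 0)]], [[(.negSucc 1, .ofNat 1), (.ofNat 0, .ofNat 2), (.ofNat 1, .ofNat 0)], [(.ofNat 0, .ofNat 1), (.ofNat 1, .ofNat 0), (.ofNat 0, .ofNat 0)], [(.ofNat 1, .ofNat 0), (.ofNat 0, .ofNat 0), (.ofNat 0, .ofNat 0)]], [[(.ofNat 1, .ofNat 0), (.ofNat 2, .negSucc 1), (.negSucc 0, .negSucc 0)], [(.ofNat 0, .ofNat 1), (.ofNat 3, .ofNat 0), (.ofNat 1, .negSucc 0)], [(.negSucc 1, .ofNat 1), (.ofNat 0, .ofNat 2), (.ofNat 1, .ofNat 0)]],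 [[(.ofNat 0, .ofNat 0), (.ofNat 0, .ofNat 0), (.ofNat 1, .ofNat 0)], [(.ofNat 0, .ofNat 0), (.ofNat 1, .ofNat 0), (.ofNat 1, .negSucc 0)], [(.ofNat 1, .ofNat 0), (.ofNat 2, .negSucc 1), (.negSucc 0, .negSucc 0)]]]
  rws := [(0, 0, 2, 0)]
  cols := [((0, 2), [.negSucc 1])]
  tg := [((0, 2), .ofNat 1, [.negSucc 0])]

theorem NIT_2_1_2 (l : ℕ) (hlp : l.Prime) (hl2 : l ≠ 2) (hls : ¬ l ∣ 7) (hE : ¬ l ∣ 7)
    (hj : 2 < l) : NUMA_stmt 2 1 l 2 :=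
  @NI_fin 2 1 7 1 7 2 (by norm_num) NIC_2_1_2 (by decide +kernel) (by decide +kernel)
    (by decide +kernel) (by decide +kernel) l hlp hl2 hls hE hj

/-- certificate, `d = 2`, `t = 1`, `j = 3` -/
def NIC_2_1_3 : NI_Cert where
  tab0 := [[[(.ofNat 1, .ofNat 0), (.ofNat 0, .ofNat 0), (.ofNat 0, .ofNat 0), (.ofNat 0, .ofNat 0)], [(.ofNat 0, .ofNat 0), (.ofNat 1, .ofNat 0), (.ofNat 0, .ofNat 0), (.ofNat 0, .ofNat 0)], [(.ofNat 0, .ofNat 0), (.ofNat 0, .ofNat 0), (.ofNat 1, .ofNat 0), (.ofNat 0, .ofNat 0)], [(.ofNat 0, .ofNat 0), (.ofNat 0, .ofNat 0), (.ofNat 0, .ofNat 0), (.ofNat 1, .ofNat 0)]], [[(.ofNat 1, .ofNat 0), (.negSucc 2, .ofNat 0), (.ofNat 3, .ofNat 0), (.negSucc 0, .ofNat 0)], [(.ofNat 1, .ofNat 0), (.negSucc 1, .ofNat 0), (.ofNat 1, .ofNat 0), (.ofNat 0, .ofNat 0)], [(.ofNat 1, .ofNat 0), (.negSucc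 0, .ofNat 0), (.ofNat 0, .ofNat 0), (.ofNat 0, .ofNat 0)], [(.ofNat 1, .ofNat 0), (.ofNat 0, .ofNat 0), (.ofNat 0, .ofNat 0), (.ofNat 0, .ofNat 0)]], [[(.ofNat 0, .ofNat 0), (.ofNat 0, .ofNat 0), (.ofNat 0, .ofNat 0), (.negSucc 0, .ofNat 0)], [(.ofNat 0, .ofNat 0), (.ofNat 0, .ofNat 0), (.ofNat 1, .ofNat 0), (.negSucc 0, .ofNat 0)], [(.ofNat 0, .ofNat 0), (.negSucc 0, .ofNat 0), (.ofNat 2, .ofNat 0), (.negSucc 0, .ofNat 0)], [(.ofNat 1, .ofNat 0), (.negSucc 2, .ofNat 0), (.ofNat 3, .ofNat 0), (.negSucc 0, .ofNat 0)]]]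
  tab1 := [[[(.ofNat 1, .ofNat 0), (.ofNat 0, .ofNat 0), (.ofNat 0, .ofNat 0), (.ofNat 0, .ofNat 0)], [(.ofNat 0, .ofNat 0), (.ofNat 1, .ofNat 0), (.ofNat 0, .ofNat 0), (.ofNat 0, .ofNat 0)], [(.ofNat 0, .ofNat 0), (.ofNat 0, .ofNat 0), (.ofNat 1, .ofNat 0), (.ofNat 0, .ofNat 0)], [(.ofNat 0, .ofNat 0), (.ofNat 0, .ofNat 0), (.ofNat 0, .ofNat 0), (.ofNat 1, .ofNat 0)]], [[(.negSucc 1, .negSucc 0), (.negSucc 5, .ofNat 3), (.ofNat 0, .ofNat 3), (.ofNat 1, .ofNat 0)], [(.negSucc 1, .ofNat 1), (.ofNat 0, .ofNat 2), (.ofNat 1, .ofNat 0), (.ofNat 0, .ofNat 0)], [(.ofNat 0, .ofNat 1), (.ofNat 1, .ofNat 0), (.ofNat 0, .ofNat 0), (.ofNat 0, .ofNat 0)], [(.ofNat 1, .ofNat 0), (.ofNat 0, .ofNat 0), (.ofNat 0, .ofNat 0), (.ofNat 0, .ofNat 0)]], [[(.ofNat 1, .ofNat 0), (.ofNat 3, .negSucc 2), (.negSucc 2, .negSucc 2), (.negSucc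 2, .ofNat 1)], [(.ofNat 0, .ofNat 1), (.ofNat 5, .ofNat 0), (.ofNat 4, .negSucc 3), (.negSucc 0, .negSucc 0)], [(.negSucc 1, .ofNat 1), (.ofNat 0, .ofNat 4), (.ofNat 5, .ofNat 0), (.ofNat 1, .negSucc 0)], [(.negSucc 1, .negSucc 0), (.negSucc 5, .ofNat 3), (.ofNat 0, .ofNat 3), (.ofNat 1, .ofNat 0)]], [[(.ofNat 0, .ofNat 0), (.ofNat 0, .ofNat 0), (.ofNat 0, .ofNat 0), (.ofNat 1, .ofNat 0)], [(.ofNat 0, .ofNat 0), (.ofNat 0, .ofNat 0), (.ofNat 1, .ofNat 0), (.ofNat 1, .negSucc 0)], [(.ofNat 0, .ofNat 0), (.ofNat 1, .ofNat 0), (.ofNat 2, .negSucc 1), (.negSucc 0, .negSucc 0)], [(.ofNat 1, .ofNat 0), (.ofNat 3, .negSucc 2), (.negSucc 2, .negSucc 2), (.negSucc 2, .ofNat 1)]]]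
  rws := [(0, 0, 3, 0)]
  cols := [((0, 2), [.ofNat 2])]
  tg := [((0, 2), .ofNat 2, [.ofNat 1])]

theorem NIT_2_1_3 (l : ℕ) (hlp : l.Prime) (hl2 : l ≠ 2) (hls : ¬ l ∣ 7) (hE : ¬ l ∣ 7)
    (hj : 3 < l) : NUMA_stmt 2 1 l 3 :=
  @NI_fin 2 1 7 1 7 3 (by norm_num) NIC_2_1_3 (by decide +kernel) (by decide +kernel)
    (by decide +kernel) (by decide +kernel) l hlp hl2 hls hE hj

/-- certificate, `d = 2`, `t = 1`, `j = 4` -/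
def NIC_2_1_4 : NI_Cert where
  tab0 := [[[(.ofNat 1, .ofNat 0), (.ofNat 0, .ofNat 0), (.ofNat 0, .ofNat 0), (.ofNat 0, .ofNat 0), (.ofNat 0, .ofNat 0)], [(.ofNat 0, .ofNat 0), (.ofNat 1, .ofNat 0), (.ofNat 0, .ofNat 0), (.ofNat 0, .ofNat 0), (.ofNat 0, .ofNat 0)], [(.ofNat 0, .ofNat 0), (.ofNat 0, .ofNat 0), (.ofNat 1, .ofNat 0), (.ofNat 0, .ofNat 0), (.ofNat 0, .ofNat 0)], [(.ofNat 0, .ofNat 0), (.ofNat 0, .ofNat 0), (.ofNat 0, .ofNat 0), (.ofNat 1, .ofNat 0), (.ofNat 0, .ofNat 0)], [(.ofNat 0, .ofNat 0), (.ofNat 0, .ofNat 0), (.ofNat 0, .ofNat 0), (.ofNat 0, .ofNat 0), (.ofNat 1, .ofNat 0)]], [[(.ofNat 1, .ofNat 0), (.negSucc 3, .ofNat 0), (.ofNat 6, .ofNat 0), (.negSucc 3, .ofNat 0), (.ofNat 1, .ofNat 0)], [(.ofNat 1, .ofNat 0), (.negSucc 2, .ofNat 0), (.ofNat 3, .ofNat 0), (.negSucc 0, .ofNat 0), (.ofNat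 0, .ofNat 0)], [(.ofNat 1, .ofNat 0), (.negSucc 1, .ofNat 0), (.ofNat 1, .ofNat 0), (.ofNat 0, .ofNat 0), (.ofNat 0, .ofNat 0)], [(.ofNat 1, .ofNat 0), (.negSucc 0, .ofNat 0), (.ofNat 0, .ofNat 0), (.ofNat 0, .ofNat 0), (.ofNat 0, .ofNat 0)], [(.ofNat 1, .ofNat 0), (.ofNat 0, .ofNat 0), (.ofNat 0, .ofNat 0), (.ofNat 0, .ofNat 0), (.ofNat 0, .ofNat 0)]], [[(.ofNat 0, .ofNat 0), (.ofNat 0, .ofNat 0), (.ofNat 0, .ofNat 0), (.ofNat 0, .ofNat 0), (.ofNat 1, .ofNat 0)], [(.ofNat 0, .ofNat 0), (.ofNat 0, .ofNat 0), (.ofNat 0, .ofNat 0), (.negSucc 0, .ofNat 0), (.ofNat 1, .ofNat 0)], [(.ofNat 0, .ofNat 0), (.ofNat 0, .ofNat 0), (.ofNat 1, .ofNat 0), (.negSucc 1, .ofNat 0), (.ofNat 1, .ofNat 0)], [(.ofNat 0, .ofNat 0), (.negSucc 0, .ofNat 0), (.ofNat 3, .ofNat 0), (.negSucc 2, .ofNat 0), (.ofNat 1, .ofNat 0)], [(.ofNat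 1, .ofNat 0), (.negSucc 3, .ofNat 0), (.ofNat 6, .ofNat 0), (.negSucc 3, .ofNat 0), (.ofNat 1, .ofNat 0)]]]
  tab1 := [[[(.ofNat 1, .ofNat 0), (.ofNat 0, .ofNat 0), (.ofNat 0, .ofNat 0), (.ofNat 0, .ofNat 0), (.ofNat 0, .ofNat 0)], [(.ofNat 0, .ofNat 0), (.ofNat 1, .ofNat 0), (.ofNat 0, .ofNat 0), (.ofNat 0, .ofNat 0), (.ofNat 0, .ofNat 0)], [(.ofNat 0, .ofNat 0), (.ofNat 0, .ofNat 0), (.ofNat 1, .ofNat 0), (.ofNat 0, .ofNat 0), (.ofNat 0, .ofNat 0)], [(.ofNat 0, .ofNat 0), (.ofNat 0, .ofNat 0), (.ofNat 0, .ofNat 0), (.ofNat 1, .ofNat 0), (.ofNat 0, .ofNat 0)], [(.ofNat 0, .ofNat 0), (.ofNat 0, .ofNat 0), (.ofNat 0, .ofNat 0), (.ofNat 0, .ofNat 0), (.ofNat 1, .ofNat 0)]], [[(.ofNat 2, .negSucc 2), (.negSucc 7, .negSucc 3), (.negSucc 11, .ofNat 6), (.ofNat 0, .ofNat 4), (.ofNat 1, .ofNat 0)], [(.negSucc 1, .negSucc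 0), (.negSucc 5, .ofNat 3), (.ofNat 0, .ofNat 3), (.ofNat 1, .ofNat 0), (.ofNat 0, .ofNat 0)], [(.negSucc 1, .ofNat 1), (.ofNat 0, .ofNat 2), (.ofNat 1, .ofNat 0), (.ofNat 0, .ofNat 0), (.ofNat 0, .ofNat 0)], [(.ofNat 0, .ofNat 1), (.ofNat 1, .ofNat 0), (.ofNat 0, .ofNat 0), (.ofNat 0, .ofNat 0), (.ofNat 0, .ofNat 0)], [(.ofNat 1, .ofNat 0), (.ofNat 0, .ofNat 0), (.ofNat 0, .ofNat 0), (.ofNat 0, .ofNat 0), (.ofNat 0, .ofNat 0)]], [[(.ofNat 1, .ofNat 0), (.ofNat 4, .negSucc 3), (.negSucc 5, .negSucc 5), (.negSucc 11, .ofNat 4), (.negSucc 0, .ofNat 3)], [(.ofNat 0, .ofNat 1), (.ofNat 7, .ofNat 0), (.ofNat 9, .negSucc 8), (.negSucc 4, .negSucc 4), (.negSucc 2, .ofNat 1)], [(.negSucc 1, .ofNat 1), (.ofNat 0, .ofNat 6), (.ofNat 13, .ofNat 0), (.ofNat 6, .negSucc 5), (.negSucc 0, .negSucc 0)], [(.negSucc 1, .negSucc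 0), (.negSucc 9, .ofNat 5), (.ofNat 0, .ofNat 9), (.ofNat 7, .ofNat 0), (.ofNat 1, .negSucc 0)], [(.ofNat 2, .negSucc 2), (.negSucc 7, .negSucc 3), (.negSucc 11, .ofNat 6), (.ofNat 0, .ofNat 4), (.ofNat 1, .ofNat 0)]], [[(.ofNat 0, .ofNat 0), (.ofNat 0, .ofNat 0), (.ofNat 0, .ofNat 0), (.ofNat 0, .ofNat 0), (.ofNat 1, .ofNat 0)], [(.ofNat 0, .ofNat 0), (.ofNat 0, .ofNat 0), (.ofNat 0, .ofNat 0), (.ofNat 1, .ofNat 0), (.ofNat 1, .negSucc 0)], [(.ofNat 0, .ofNat 0), (.ofNat 0, .ofNat 0), (.ofNat 1, .ofNat 0), (.ofNat 2, .negSucc 1), (.negSucc 0, .negSucc 0)], [(.ofNat 0, .ofNat 0), (.ofNat 1, .ofNat 0), (.ofNat 3, .negSucc 2), (.negSucc 2, .negSucc 2), (.negSucc 2, .ofNat 1)], [(.ofNat 1, .ofNat 0), (.ofNat 4, .negSucc 3), (.negSucc 5, .negSucc 5), (.negSucc 11, .ofNat 4), (.negSucc 0, .ofNat 3)]]]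
  rws := [(0, 0, 1, 0), (0, 0, 4, 0), (1, 0, 1, 1)]
  cols := [((0, 2), [.ofNat 4, .negSucc 1, .ofNat 8]), ((0, 4), [.ofNat 8, .negSucc 1, .ofNat 8]), ((1, 3), [.ofNat 4, .ofNat 0, .ofNat 4])]
  tg := [((0, 2), .ofNat 4, [.negSucc 0, .ofNat 0, .ofNat 1]), ((0, 4), .ofNat 2, [.ofNat 1, .negSucc 1, .negSucc 0]), ((1, 3), .ofNat 2, [.ofNat 0, .ofNat 4, .ofNat 1])]

theorem NIT_2_1_4 (l : ℕ) (hlp : l.Prime) (hl2 : l ≠ 2) (hls : ¬ l ∣ 7) (hE : ¬ l ∣ 7)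
    (hj : 4 < l) : NUMA_stmt 2 1 l 4 :=
  @NI_fin 2 1 7 1 7 4 (by norm_num) NIC_2_1_4 (by decide +kernel) (by decide +kernel)
    (by decide +kernel) (by decide +kernel) l hlp hl2 hls hE hj

/-- certificate, `d = 2`, `t = 1`, `j = 5` -/
def NIC_2_1_5 : NI_Cert where
  tab0 := [[[(.ofNat 1, .ofNat 0), (.ofNat 0, .ofNat 0), (.ofNat 0, .ofNat 0), (.ofNat 0, .ofNat 0), (.ofNat 0, .ofNat 0), (.ofNat 0, .ofNat 0)], [(.ofNat 0, .ofNat 0), (.ofNat 1, .ofNat 0), (.ofNat 0, .ofNat 0), (.ofNat 0, .ofNat 0), (.ofNat 0, .ofNat 0), (.ofNat 0, .ofNat 0)], [(.ofNat 0, .ofNat 0), (.ofNat 0, .ofNat 0), (.ofNat 1, .ofNat 0), (.ofNat 0, .ofNat 0), (.ofNat 0, .ofNat 0), (.ofNat 0, .ofNat 0)], [(.ofNat 0, .ofNat 0), (.ofNat 0, .ofNat 0), (.ofNat 0, .ofNat 0), (.ofNat 1, .ofNat 0), (.ofNat 0, .ofNat 0), (.ofNat 0, .ofNat 0)], [(.ofNat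 0, .ofNat 0), (.ofNat 0, .ofNat 0), (.ofNat 0, .ofNat 0), (.ofNat 0, .ofNat 0), (.ofNat 1, .ofNat 0), (.ofNat 0, .ofNat 0)], [(.ofNat 0, .ofNat 0), (.ofNat 0, .ofNat 0), (.ofNat 0, .ofNat 0), (.ofNat 0, .ofNat 0), (.ofNat 0, .ofNat 0), (.ofNat 1, .ofNat 0)]], [[(.ofNat 1, .ofNat 0), (.negSucc 4, .ofNat 0), (.ofNat 10, .ofNat 0), (.negSucc 9, .ofNat 0), (.ofNat 5, .ofNat 0), (.negSucc 0, .ofNat 0)], [(.ofNat 1, .ofNat 0), (.negSucc 3, .ofNat 0), (.ofNat 6, .ofNat 0), (.negSucc 3, .ofNat 0), (.ofNat 1, .ofNat 0), (.ofNat 0, .ofNat 0)], [(.ofNat 1, .ofNat 0), (.negSucc 2, .ofNat 0), (.ofNat 3, .ofNat 0), (.negSucc 0, .ofNat 0), (.ofNat 0, .ofNat 0), (.ofNat 0, .ofNat 0)], [(.ofNat 1, .ofNat 0), (.negSucc 1, .ofNat 0), (.ofNat 1, .ofNat 0), (.ofNat 0, .ofNat 0), (.ofNat 0, .ofNat 0), (.ofNat 0, .ofNat 0)], [(.ofNat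 1, .ofNat 0), (.negSucc 0, .ofNat 0), (.ofNat 0, .ofNat 0), (.ofNat 0, .ofNat 0), (.ofNat 0, .ofNat 0), (.ofNat 0, .ofNat 0)], [(.ofNat 1, .ofNat 0), (.ofNat 0, .ofNat 0), (.ofNat 0, .ofNat 0), (.ofNat 0, .ofNat 0), (.ofNat 0, .ofNat 0), (.ofNat 0, .ofNat 0)]], [[(.ofNat 0, .ofNat 0), (.ofNat 0, .ofNat 0), (.ofNat 0, .ofNat 0), (.ofNat 0, .ofNat 0), (.ofNat 0, .ofNat 0), (.negSucc 0, .ofNat 0)], [(.ofNat 0, .ofNat 0), (.ofNat 0, .ofNat 0), (.ofNat 0, .ofNat 0), (.ofNat 0, .ofNat 0), (.ofNat 1, .ofNat 0), (.negSucc 0, .ofNat 0)], [(.ofNat 0, .ofNat 0), (.ofNat 0, .ofNat 0), (.ofNat 0, .ofNat 0), (.negSucc 0, .ofNat 0), (.ofNat 2, .ofNat 0), (.negSucc 0, .ofNat 0)], [(.ofNat 0, .ofNat 0), (.ofNat 0, .ofNat 0), (.ofNat 1, .ofNat 0), (.negSucc 2, .ofNat 0), (.ofNat 3, .ofNat 0), (.negSucc 0, .ofNat 0)], [(.ofNat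 0, .ofNat 0), (.negSucc 0, .ofNat 0), (.ofNat 4, .ofNat 0), (.negSucc 5, .ofNat 0), (.ofNat 4, .ofNat 0), (.negSucc 0, .ofNat 0)], [(.ofNat 1, .ofNat 0), (.negSucc 4, .ofNat 0), (.ofNat 10, .ofNat 0), (.negSucc 9, .ofNat 0), (.ofNat 5, .ofNat 0), (.negSucc 0, .ofNat 0)]]]
  tab1 := [[[(.ofNat 1, .ofNat 0), (.ofNat 0, .ofNat 0), (.ofNat 0, .ofNat 0), (.ofNat 0, .ofNat 0), (.ofNat 0, .ofNat 0), (.ofNat 0, .ofNat 0)], [(.ofNat 0, .ofNat 0), (.ofNat 1, .ofNat 0), (.ofNat 0, .ofNat 0), (.ofNat 0, .ofNat 0), (.ofNat 0, .ofNat 0), (.ofNat 0, .ofNat 0)], [(.ofNat 0, .ofNat 0), (.ofNat 0, .ofNat 0), (.ofNat 1, .ofNat 0), (.ofNat 0, .ofNat 0), (.ofNat 0, .ofNat 0), (.ofNat 0, .ofNat 0)], [(.ofNat 0, .ofNat 0), (.ofNat 0, .ofNat 0), (.ofNat 0, .ofNat 0), (.ofNat 1, .ofNat 0), (.ofNat 0, .ofNat 0), (.ofNat 0, .ofNat 0)],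 [(.ofNat 0, .ofNat 0), (.ofNat 0, .ofNat 0), (.ofNat 0, .ofNat 0), (.ofNat 0, .ofNat 0), (.ofNat 1, .ofNat 0), (.ofNat 0, .ofNat 0)], [(.ofNat 0, .ofNat 0), (.ofNat 0, .ofNat 0), (.ofNat 0, .ofNat 0), (.ofNat 0, .ofNat 0), (.ofNat 0, .ofNat 0), (.ofNat 1, .ofNat 0)]], [[(.ofNat 6, .negSucc 0), (.ofNat 10, .negSucc 14), (.negSucc 19, .negSucc 9), (.negSucc 19, .ofNat 10), (.ofNat 0, .ofNat 5), (.ofNat 1, .ofNat 0)], [(.ofNat 2, .negSucc 2), (.negSucc 7, .negSucc 3), (.negSucc 11, .ofNat 6), (.ofNat 0, .ofNat 4), (.ofNat 1, .ofNat 0), (.ofNat 0, .ofNat 0)], [(.negSucc 1, .negSucc 0), (.negSucc 5, .ofNat 3), (.ofNat 0, .ofNat 3), (.ofNat 1, .ofNat 0), (.ofNat 0, .ofNat 0), (.ofNat 0, .ofNat 0)], [(.negSucc 1, .ofNat 1), (.ofNat 0, .ofNat 2), (.ofNat 1, .ofNat 0), (.ofNat 0, .ofNat 0), (.ofNat 0, .ofNat 0), (.ofNat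 0, .ofNat 0)], [(.ofNat 0, .ofNat 1), (.ofNat 1, .ofNat 0), (.ofNat 0, .ofNat 0), (.ofNat 0, .ofNat 0), (.ofNat 0, .ofNat 0), (.ofNat 0, .ofNat 0)], [(.ofNat 1, .ofNat 0), (.ofNat 0, .ofNat 0), (.ofNat 0, .ofNat 0), (.ofNat 0, .ofNat 0), (.ofNat 0, .ofNat 0), (.ofNat 0, .ofNat 0)]], [[(.ofNat 1, .ofNat 0), (.ofNat 5, .negSucc 4), (.negSucc 9, .negSucc 9), (.negSucc 29, .ofNat 10), (.negSucc 4, .ofNat 15), (.ofNat 5, .ofNat 1)], [(.ofNat 0, .ofNat 1), (.ofNat 9, .ofNat 0), (.ofNat 16, .negSucc 15), (.negSucc 13, .negSucc 13), (.negSucc 17, .ofNat 6), (.negSucc 0, .ofNat 3)], [(.negSucc 1, .ofNat 1), (.ofNat 0, .ofNat 8), (.ofNat 25, .ofNat 0), (.ofNat 19, .negSucc 18), (.negSucc 6, .negSucc 6), (.negSucc 2, .ofNat 1)], [(.negSucc 1, .negSucc 0), (.negSucc 13, .ofNat 7), (.ofNat 0, .ofNat 19), (.ofNat 25, .ofNat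 0), (.ofNat 8, .negSucc 7), (.negSucc 0, .negSucc 0)], [(.ofNat 2, .negSucc 2), (.negSucc 11, .negSucc 5), (.negSucc 27, .ofNat 14), (.ofNat 0, .ofNat 16), (.ofNat 9, .ofNat 0), (.ofNat 1, .negSucc 0)], [(.ofNat 6, .negSucc 0), (.ofNat 10, .negSucc 14), (.negSucc 19, .negSucc 9), (.negSucc 19, .ofNat 10), (.ofNat 0, .ofNat 5), (.ofNat 1, .ofNat 0)]], [[(.ofNat 0, .ofNat 0), (.ofNat 0, .ofNat 0), (.ofNat 0, .ofNat 0), (.ofNat 0, .ofNat 0), (.ofNat 0, .ofNat 0), (.ofNat 1, .ofNat 0)], [(.ofNat 0, .ofNat 0), (.ofNat 0, .ofNat 0), (.ofNat 0, .ofNat 0), (.ofNat 0, .ofNat 0), (.ofNat 1, .ofNat 0), (.ofNat 1, .negSucc 0)], [(.ofNat 0, .ofNat 0), (.ofNat 0, .ofNat 0), (.ofNat 0, .ofNat 0), (.ofNat 1, .ofNat 0), (.ofNat 2, .negSucc 1), (.negSucc 0, .negSucc 0)], [(.ofNat 0, .ofNat 0), (.ofNat 0, .ofNat 0), (.ofNat 1,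 .ofNat 0), (.ofNat 3, .negSucc 2), (.negSucc 2, .negSucc 2), (.negSucc 2, .ofNat 1)], [(.ofNat 0, .ofNat 0), (.ofNat 1, .ofNat 0), (.ofNat 4, .negSucc 3), (.negSucc 5, .negSucc 5), (.negSucc 11, .ofNat 4), (.negSucc 0, .ofNat 3)], [(.ofNat 1, .ofNat 0), (.ofNat 5, .negSucc 4), (.negSucc 9, .negSucc 9), (.negSucc 29, .ofNat 10), (.negSucc 4, .ofNat 15), (.ofNat 5, .ofNat 1)]]]
  rws := [(0, 0, 2, 0), (0, 0, 5, 0), (1, 0, 1, 1)]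
  cols := [((0, 2), [.negSucc 7, .ofNat 2, .ofNat 15]), ((0, 4), [.negSucc 15, .ofNat 2, .ofNat 15]), ((1, 3), [.negSucc 7, .ofNat 0, .ofNat 4])]
  tg := [((0, 2), .ofNat 8, [.ofNat 1, .negSucc 6, .ofNat 2]), ((0, 4), .ofNat 8, [.negSucc 0, .ofNat 11, .negSucc 1]), ((1, 3), .ofNat 8, [.ofNat 0, .negSucc 14, .ofNat 2])]

theorem NIT_2_1_5 (l : ℕ) (hlp : l.Prime) (hl2 : l ≠ 2) (hls : ¬ l ∣ 7) (hE : ¬ l ∣ 7)
    (hj : 5 < l) : NUMA_stmt 2 1 l 5 :=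
  @NI_fin 2 1 7 1 7 5 (by norm_num) NIC_2_1_5 (by decide +kernel) (by decide +kernel)
    (by decide +kernel) (by decide +kernel) l hlp hl2 hls hE hj

/-- certificate, `d = 2`, `t = 1`, `j = 6` -/
def NIC_2_1_6 : NI_Cert where
  tab0 := [[[(.ofNat 1, .ofNat 0), (.ofNat 0, .ofNat 0), (.ofNat 0, .ofNat 0), (.ofNat 0, .ofNat 0), (.ofNat 0, .ofNat 0), (.ofNat 0, .ofNat 0), (.ofNat 0, .ofNat 0)], [(.ofNat 0, .ofNat 0), (.ofNat 1, .ofNat 0), (.ofNat 0, .ofNat 0), (.ofNat 0, .ofNat 0), (.ofNat 0, .ofNat 0), (.ofNat 0, .ofNat 0), (.ofNat 0, .ofNat 0)], [(.ofNat 0, .ofNat 0), (.ofNat 0, .ofNat 0), (.ofNat 1, .ofNat 0), (.ofNat 0, .ofNat 0), (.ofNat 0, .ofNat 0), (.ofNat 0, .ofNat 0), (.ofNat 0, .ofNat 0)], [(.ofNat 0, .ofNat 0), (.ofNat 0, .ofNat 0), (.ofNat 0, .ofNat 0), (.ofNat 1, .ofNat 0), (.ofNat 0, .ofNat 0), (.ofNat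 0, .ofNat 0), (.ofNat 0, .ofNat 0)], [(.ofNat 0, .ofNat 0), (.ofNat 0, .ofNat 0), (.ofNat 0, .ofNat 0), (.ofNat 0, .ofNat 0), (.ofNat 1, .ofNat 0), (.ofNat 0, .ofNat 0), (.ofNat 0, .ofNat 0)], [(.ofNat 0, .ofNat 0), (.ofNat 0, .ofNat 0), (.ofNat 0, .ofNat 0), (.ofNat 0, .ofNat 0), (.ofNat 0, .ofNat 0), (.ofNat 1, .ofNat 0), (.ofNat 0, .ofNat 0)], [(.ofNat 0, .ofNat 0), (.ofNat 0, .ofNat 0), (.ofNat 0, .ofNat 0), (.ofNat 0, .ofNat 0), (.ofNat 0, .ofNat 0), (.ofNat 0, .ofNat 0), (.ofNat 1, .ofNat 0)]], [[(.ofNat 1, .ofNat 0), (.negSucc 5, .ofNat 0), (.ofNat 15, .ofNat 0), (.negSucc 19, .ofNat 0), (.ofNat 15, .ofNat 0), (.negSucc 5, .ofNat 0), (.ofNat 1, .ofNat 0)], [(.ofNat 1, .ofNat 0), (.negSucc 4, .ofNat 0), (.ofNat 10, .ofNat 0), (.negSucc 9, .ofNat 0), (.ofNat 5, .ofNat 0), (.negSucc 0, .ofNat 0), (.ofNat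 0, .ofNat 0)], [(.ofNat 1, .ofNat 0), (.negSucc 3, .ofNat 0), (.ofNat 6, .ofNat 0), (.negSucc 3, .ofNat 0), (.ofNat 1, .ofNat 0), (.ofNat 0, .ofNat 0), (.ofNat 0, .ofNat 0)], [(.ofNat 1, .ofNat 0), (.negSucc 2, .ofNat 0), (.ofNat 3, .ofNat 0), (.negSucc 0, .ofNat 0), (.ofNat 0, .ofNat 0), (.ofNat 0, .ofNat 0), (.ofNat 0, .ofNat 0)], [(.ofNat 1, .ofNat 0), (.negSucc 1, .ofNat 0), (.ofNat 1, .ofNat 0), (.ofNat 0, .ofNat 0), (.ofNat 0, .ofNat 0), (.ofNat 0, .ofNat 0), (.ofNat 0, .ofNat 0)], [(.ofNat 1, .ofNat 0), (.negSucc 0, .ofNat 0), (.ofNat 0, .ofNat 0), (.ofNat 0, .ofNat 0), (.ofNat 0, .ofNat 0), (.ofNat 0, .ofNat 0), (.ofNat 0, .ofNat 0)], [(.ofNat 1, .ofNat 0), (.ofNat 0, .ofNat 0), (.ofNat 0, .ofNat 0), (.ofNat 0, .ofNat 0), (.ofNat 0, .ofNat 0), (.ofNat 0, .ofNat 0), (.ofNat 0, .ofNat 0)]], [[(.ofNat 0,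 .ofNat 0), (.ofNat 0, .ofNat 0), (.ofNat 0, .ofNat 0), (.ofNat 0, .ofNat 0), (.ofNat 0, .ofNat 0), (.ofNat 0, .ofNat 0), (.ofNat 1, .ofNat 0)], [(.ofNat 0, .ofNat 0), (.ofNat 0, .ofNat 0), (.ofNat 0, .ofNat 0), (.ofNat 0, .ofNat 0), (.ofNat 0, .ofNat 0), (.negSucc 0, .ofNat 0), (.ofNat 1, .ofNat 0)], [(.ofNat 0, .ofNat 0), (.ofNat 0, .ofNat 0), (.ofNat 0, .ofNat 0), (.ofNat 0, .ofNat 0), (.ofNat 1, .ofNat 0), (.negSucc 1, .ofNat 0), (.ofNat 1, .ofNat 0)], [(.ofNat 0, .ofNat 0), (.ofNat 0, .ofNat 0), (.ofNat 0, .ofNat 0), (.negSucc 0, .ofNat 0), (.ofNat 3, .ofNat 0), (.negSucc 2, .ofNat 0), (.ofNat 1, .ofNat 0)], [(.ofNat 0, .ofNat 0), (.ofNat 0, .ofNat 0), (.ofNat 1, .ofNat 0), (.negSucc 3, .ofNat 0), (.ofNat 6, .ofNat 0), (.negSucc 3, .ofNat 0), (.ofNat 1, .ofNat 0)], [(.ofNat 0, .ofNat 0), (.negSucc 0, .ofNat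 0), (.ofNat 5, .ofNat 0), (.negSucc 9, .ofNat 0), (.ofNat 10, .ofNat 0), (.negSucc 4, .ofNat 0), (.ofNat 1, .ofNat 0)], [(.ofNat 1, .ofNat 0), (.negSucc 5, .ofNat 0), (.ofNat 15, .ofNat 0), (.negSucc 19, .ofNat 0), (.ofNat 15, .ofNat 0), (.negSucc 5, .ofNat 0), (.ofNat 1, .ofNat 0)]]]
  tab1 := [[[(.ofNat 1, .ofNat 0), (.ofNat 0, .ofNat 0), (.ofNat 0, .ofNat 0), (.ofNat 0, .ofNat 0), (.ofNat 0, .ofNat 0), (.ofNat 0, .ofNat 0), (.ofNat 0, .ofNat 0)], [(.ofNat 0, .ofNat 0), (.ofNat 1, .ofNat 0), (.ofNat 0, .ofNat 0), (.ofNat 0, .ofNat 0), (.ofNat 0, .ofNat 0), (.ofNat 0, .ofNat 0), (.ofNat 0, .ofNat 0)], [(.ofNat 0, .ofNat 0), (.ofNat 0, .ofNat 0), (.ofNat 1, .ofNat 0), (.ofNat 0, .ofNat 0), (.ofNat 0, .ofNat 0), (.ofNat 0, .ofNat 0), (.ofNat 0, .ofNat 0)], [(.ofNat 0, .ofNat 0), (.ofNat 0, .ofNat 0), (.ofNat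 0, .ofNat 0), (.ofNat 1, .ofNat 0), (.ofNat 0, .ofNat 0), (.ofNat 0, .ofNat 0), (.ofNat 0, .ofNat 0)], [(.ofNat 0, .ofNat 0), (.ofNat 0, .ofNat 0), (.ofNat 0, .ofNat 0), (.ofNat 0, .ofNat 0), (.ofNat 1, .ofNat 0), (.ofNat 0, .ofNat 0), (.ofNat 0, .ofNat 0)], [(.ofNat 0, .ofNat 0), (.ofNat 0, .ofNat 0), (.ofNat 0, .ofNat 0), (.ofNat 0, .ofNat 0), (.ofNat 0, .ofNat 0), (.ofNat 1, .ofNat 0), (.ofNat 0, .ofNat 0)], [(.ofNat 0, .ofNat 0), (.ofNat 0, .ofNat 0), (.ofNat 0, .ofNat 0), (.ofNat 0, .ofNat 0), (.ofNat 0, .ofNat 0), (.ofNat 0, .ofNat 0), (.ofNat 1, .ofNat 0)]], [[(.ofNat 2, .ofNat 5), (.ofNat 36, .negSucc 5), (.ofNat 30, .negSucc 44), (.negSucc 39, .negSucc 19), (.negSucc 29, .ofNat 15), (.ofNat 0, .ofNat 6), (.ofNat 1, .ofNat 0)], [(.ofNat 6, .negSucc 0), (.ofNat 10, .negSucc 14), (.negSucc 19, .negSucc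 9), (.negSucc 19, .ofNat 10), (.ofNat 0, .ofNat 5), (.ofNat 1, .ofNat 0), (.ofNat 0, .ofNat 0)], [(.ofNat 2, .negSucc 2), (.negSucc 7, .negSucc 3), (.negSucc 11, .ofNat 6), (.ofNat 0, .ofNat 4), (.ofNat 1, .ofNat 0), (.ofNat 0, .ofNat 0), (.ofNat 0, .ofNat 0)], [(.negSucc 1, .negSucc 0), (.negSucc 5, .ofNat 3), (.ofNat 0, .ofNat 3), (.ofNat 1, .ofNat 0), (.ofNat 0, .ofNat 0), (.ofNat 0, .ofNat 0), (.ofNat 0, .ofNat 0)], [(.negSucc 1, .ofNat 1), (.ofNat 0, .ofNat 2), (.ofNat 1, .ofNat 0), (.ofNat 0, .ofNat 0), (.ofNat 0, .ofNat 0), (.ofNat 0, .ofNat 0), (.ofNat 0, .ofNat 0)], [(.ofNat 0, .ofNat 1), (.ofNat 1, .ofNat 0), (.ofNat 0, .ofNat 0), (.ofNat 0, .ofNat 0), (.ofNat 0, .ofNat 0), (.ofNat 0, .ofNat 0), (.ofNat 0, .ofNat 0)], [(.ofNat 1, .ofNat 0), (.ofNat 0, .ofNat 0), (.ofNat 0, .ofNat 0), (.ofNat 0, .ofNat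 0), (.ofNat 0, .ofNat 0), (.ofNat 0, .ofNat 0), (.ofNat 0, .ofNat 0)]], [[(.ofNat 1, .ofNat 0), (.ofNat 6, .negSucc 5), (.negSucc 14, .negSucc 14), (.negSucc 59, .ofNat 20), (.negSucc 14, .ofNat 45), (.ofNat 30, .ofNat 6), (.ofNat 7, .negSucc 4)], [(.ofNat 0, .ofNat 1), (.ofNat 11, .ofNat 0), (.ofNat 25, .negSucc 24), (.negSucc 29, .negSucc 29), (.negSucc 59, .ofNat 20), (.negSucc 6, .ofNat 21), (.ofNat 5, .ofNat 1)], [(.negSucc 1, .ofNat 1), (.ofNat 0, .ofNat 10), (.ofNat 41, .ofNat 0), (.ofNat 44, .negSucc 43), (.negSucc 25, .negSucc 25), (.negSucc 23, .ofNat 8), (.negSucc 0, .ofNat 3)], [(.negSucc 1, .negSucc 0), (.negSucc 17, .ofNat 9), (.ofNat 0, .ofNat 33), (.ofNat 63, .ofNat 0), (.ofNat 33, .negSucc 32), (.negSucc 8, .negSucc 8), (.negSucc 2, .ofNat 1)], [(.ofNat 2, .negSucc 2), (.negSucc 15, .negSucc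 7), (.negSucc 51, .ofNat 26), (.ofNat 0, .ofNat 44), (.ofNat 41, .ofNat 0), (.ofNat 10, .negSucc 9), (.negSucc 0, .negSucc 0)], [(.ofNat 6, .negSucc 0), (.ofNat 14, .negSucc 20), (.negSucc 39, .negSucc 19), (.negSucc 59, .ofNat 30), (.ofNat 0, .ofNat 25), (.ofNat 11, .ofNat 0), (.ofNat 1, .negSucc 0)], [(.ofNat 2, .ofNat 5), (.ofNat 36, .negSucc 5), (.ofNat 30, .negSucc 44), (.negSucc 39, .negSucc 19), (.negSucc 29, .ofNat 15), (.ofNat 0, .ofNat 6), (.ofNat 1, .ofNat 0)]], [[(.ofNat 0, .ofNat 0), (.ofNat 0, .ofNat 0), (.ofNat 0, .ofNat 0), (.ofNat 0, .ofNat 0), (.ofNat 0, .ofNat 0), (.ofNat 0, .ofNat 0), (.ofNat 1, .ofNat 0)], [(.ofNat 0, .ofNat 0), (.ofNat 0, .ofNat 0), (.ofNat 0, .ofNat 0), (.ofNat 0, .ofNat 0), (.ofNat 0, .ofNat 0), (.ofNat 1, .ofNat 0), (.ofNat 1, .negSucc 0)], [(.ofNat 0, .ofNat 0), (.ofNat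 0, .ofNat 0), (.ofNat 0, .ofNat 0), (.ofNat 0, .ofNat 0), (.ofNat 1, .ofNat 0), (.ofNat 2, .negSucc 1), (.negSucc 0, .negSucc 0)], [(.ofNat 0, .ofNat 0), (.ofNat 0, .ofNat 0), (.ofNat 0, .ofNat 0), (.ofNat 1, .ofNat 0), (.ofNat 3, .negSucc 2), (.negSucc 2, .negSucc 2), (.negSucc 2, .ofNat 1)], [(.ofNat 0, .ofNat 0), (.ofNat 0, .ofNat 0), (.ofNat 1, .ofNat 0), (.ofNat 4, .negSucc 3), (.negSucc 5, .negSucc 5), (.negSucc 11, .ofNat 4), (.negSucc 0, .ofNat 3)], [(.ofNat 0, .ofNat 0), (.ofNat 1, .ofNat 0), (.ofNat 5, .negSucc 4), (.negSucc 9, .negSucc 9), (.negSucc 29, .ofNat 10), (.negSucc 4, .ofNat 15), (.ofNat 5, .ofNat 1)], [(.ofNat 1, .ofNat 0), (.ofNat 6, .negSucc 5), (.negSucc 14, .negSucc 14), (.negSucc 59, .ofNat 20), (.negSucc 14, .ofNat 45), (.ofNat 30, .ofNat 6), (.ofNat 7, .negSucc 4)]]]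
  rws := [(0, 0, 4, 0), (0, 0, 5, 0), (0, 0, 6, 0), (0, 1, 4, 0), (0, 1, 5, 0), (1, 0, 6, 1)]
  cols := [((0, 2), [.negSucc 19, .ofNat 10, .negSucc 1, .ofNat 90, .negSucc 47, .ofNat 6]), ((0, 4), [.negSucc 15, .ofNat 8, .negSucc 1, .ofNat 36, .negSucc 23, .ofNat 22]), ((0, 6), [.negSucc 29, .ofNat 12, .negSucc 1, .ofNat 0, .ofNat 0, .negSucc 89]), ((1, 3), [.negSucc 4, .ofNat 1, .ofNat 0, .ofNat 18, .negSucc 5, .ofNat 0]), ((1, 5), [.negSucc 9, .ofNat 2, .ofNat 0, .ofNat 10, .negSucc 1, .ofNat 24]), ((2, 4), [.negSucc 1, .ofNat 0, .ofNat 0, .ofNat 4, .ofNat 0, .ofNat 0])]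
  tg := [((0, 2), .ofNat 30, [.ofNat 142, .ofNat 410, .negSucc 74, .ofNat 71, .ofNat 163, .ofNat 9]), ((0, 4), .ofNat 16, [.negSucc 79, .negSucc 231, .ofNat 33, .negSucc 39, .negSucc 91, .negSucc 4]), ((0, 6), .ofNat 120, [.ofNat 64, .ofNat 200, .negSucc 14, .ofNat 32, .ofNat 76, .ofNat 3]), ((1, 3), .ofNat 12, [.negSucc 231, .negSucc 667, .ofNat 147, .negSucc 115, .negSucc 267, .negSucc 14]), ((1, 5), .ofNat 5, [.ofNat 44, .ofNat 130, .negSucc 14, .ofNat 22, .ofNat 51, .ofNat 3]), ((2, 4), .ofNat 8, [.ofNat 232, .ofNat 656, .negSucc 218, .ofNat 120, .ofNat 276, .ofNat 15])]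

theorem NIT_2_1_6 (l : ℕ) (hlp : l.Prime) (hl2 : l ≠ 2) (hls : ¬ l ∣ 7) (hE : ¬ l ∣ 7)
    (hj : 6 < l) : NUMA_stmt 2 1 l 6 :=
  @NI_fin 2 1 7 1 7 6 (by norm_num) NIC_2_1_6 (by decide +kernel) (by decide +kernel)
    (by decide +kernel) (by decide +kernel) l hlp hl2 hls hE hj

/-- certificate, `d = 2`, `t = 1`, `j = 7` -/
def NIC_2_1_7 : NI_Cert where
  tab0 := [[[(.ofNat 1, .ofNat 0), (.ofNat 0, .ofNat 0), (.ofNat 0, .ofNat 0), (.ofNat 0, .ofNat 0), (.ofNat 0, .ofNat 0), (.ofNat 0, .ofNat 0), (.ofNat 0, .ofNat 0), (.ofNat 0, .ofNat 0)], [(.ofNat 0, .ofNat 0), (.ofNat 1, .ofNat 0), (.ofNat 0, .ofNat 0), (.ofNat 0, .ofNat 0), (.ofNat 0, .ofNat 0), (.ofNat 0, .ofNat 0), (.ofNat 0, .ofNat 0), (.ofNat 0, .ofNat 0)], [(.ofNat 0, .ofNat 0), (.ofNat 0, .ofNat 0), (.ofNat 1, .ofNat 0), (.ofNat 0, .ofNat 0), (.ofNat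 0, .ofNat 0), (.ofNat 0, .ofNat 0), (.ofNat 0, .ofNat 0), (.ofNat 0, .ofNat 0)], [(.ofNat 0, .ofNat 0), (.ofNat 0, .ofNat 0), (.ofNat 0, .ofNat 0), (.ofNat 1, .ofNat 0), (.ofNat 0, .ofNat 0), (.ofNat 0, .ofNat 0), (.ofNat 0, .ofNat 0), (.ofNat 0, .ofNat 0)], [(.ofNat 0, .ofNat 0), (.ofNat 0, .ofNat 0), (.ofNat 0, .ofNat 0), (.ofNat 0, .ofNat 0), (.ofNat 1, .ofNat 0), (.ofNat 0, .ofNat 0), (.ofNat 0, .ofNat 0), (.ofNat 0, .ofNat 0)], [(.ofNat 0, .ofNat 0), (.ofNat 0, .ofNat 0), (.ofNat 0, .ofNat 0), (.ofNat 0, .ofNat 0), (.ofNat 0, .ofNat 0), (.ofNat 1, .ofNat 0), (.ofNat 0, .ofNat 0), (.ofNat 0, .ofNat 0)], [(.ofNat 0, .ofNat 0), (.ofNat 0, .ofNat 0), (.ofNat 0, .ofNat 0), (.ofNat 0, .ofNat 0), (.ofNat 0, .ofNat 0), (.ofNat 0, .ofNat 0), (.ofNat 1, .ofNat 0), (.ofNat 0, .ofNat 0)], [(.ofNat 0, .ofNat 0), (.ofNat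 0, .ofNat 0), (.ofNat 0, .ofNat 0), (.ofNat 0, .ofNat 0), (.ofNat 0, .ofNat 0), (.ofNat 0, .ofNat 0), (.ofNat 0, .ofNat 0), (.ofNat 1, .ofNat 0)]], [[(.ofNat 1, .ofNat 0), (.negSucc 6, .ofNat 0), (.ofNat 21, .ofNat 0), (.negSucc 34, .ofNat 0), (.ofNat 35, .ofNat 0), (.negSucc 20, .ofNat 0), (.ofNat 7, .ofNat 0), (.negSucc 0, .ofNat 0)], [(.ofNat 1, .ofNat 0), (.negSucc 5, .ofNat 0), (.ofNat 15, .ofNat 0), (.negSucc 19, .ofNat 0), (.ofNat 15, .ofNat 0), (.negSucc 5, .ofNat 0), (.ofNat 1, .ofNat 0), (.ofNat 0, .ofNat 0)], [(.ofNat 1, .ofNat 0), (.negSucc 4, .ofNat 0), (.ofNat 10, .ofNat 0), (.negSucc 9, .ofNat 0), (.ofNat 5, .ofNat 0), (.negSucc 0, .ofNat 0), (.ofNat 0, .ofNat 0), (.ofNat 0, .ofNat 0)], [(.ofNat 1, .ofNat 0), (.negSucc 3, .ofNat 0), (.ofNat 6, .ofNat 0), (.negSucc 3, .ofNat 0), (.ofNat 1, .ofNat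 0), (.ofNat 0, .ofNat 0), (.ofNat 0, .ofNat 0), (.ofNat 0, .ofNat 0)], [(.ofNat 1, .ofNat 0), (.negSucc 2, .ofNat 0), (.ofNat 3, .ofNat 0), (.negSucc 0, .ofNat 0), (.ofNat 0, .ofNat 0), (.ofNat 0, .ofNat 0), (.ofNat 0, .ofNat 0), (.ofNat 0, .ofNat 0)], [(.ofNat 1, .ofNat 0), (.negSucc 1, .ofNat 0), (.ofNat 1, .ofNat 0), (.ofNat 0, .ofNat 0), (.ofNat 0, .ofNat 0), (.ofNat 0, .ofNat 0), (.ofNat 0, .ofNat 0), (.ofNat 0, .ofNat 0)], [(.ofNat 1, .ofNat 0), (.negSucc 0, .ofNat 0), (.ofNat 0, .ofNat 0), (.ofNat 0, .ofNat 0), (.ofNat 0, .ofNat 0), (.ofNat 0, .ofNat 0), (.ofNat 0, .ofNat 0), (.ofNat 0, .ofNat 0)], [(.ofNat 1, .ofNat 0), (.ofNat 0, .ofNat 0), (.ofNat 0, .ofNat 0), (.ofNat 0, .ofNat 0), (.ofNat 0, .ofNat 0), (.ofNat 0, .ofNat 0), (.ofNat 0, .ofNat 0), (.ofNat 0, .ofNat 0)]], [[(.ofNat 0, .ofNat 0), (.ofNat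 0, .ofNat 0), (.ofNat 0, .ofNat 0), (.ofNat 0, .ofNat 0), (.ofNat 0, .ofNat 0), (.ofNat 0, .ofNat 0), (.ofNat 0, .ofNat 0), (.negSucc 0, .ofNat 0)], [(.ofNat 0, .ofNat 0), (.ofNat 0, .ofNat 0), (.ofNat 0, .ofNat 0), (.ofNat 0, .ofNat 0), (.ofNat 0, .ofNat 0), (.ofNat 0, .ofNat 0), (.ofNat 1, .ofNat 0), (.negSucc 0, .ofNat 0)], [(.ofNat 0, .ofNat 0), (.ofNat 0, .ofNat 0), (.ofNat 0, .ofNat 0), (.ofNat 0, .ofNat 0), (.ofNat 0, .ofNat 0), (.negSucc 0, .ofNat 0), (.ofNat 2, .ofNat 0), (.negSucc 0, .ofNat 0)], [(.ofNat 0, .ofNat 0), (.ofNat 0, .ofNat 0), (.ofNat 0, .ofNat 0), (.ofNat 0, .ofNat 0), (.ofNat 1, .ofNat 0), (.negSucc 2, .ofNat 0), (.ofNat 3, .ofNat 0), (.negSucc 0, .ofNat 0)], [(.ofNat 0, .ofNat 0), (.ofNat 0, .ofNat 0), (.ofNat 0, .ofNat 0), (.negSucc 0, .ofNat 0), (.ofNat 4, .ofNat 0), (.negSucc 5,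 .ofNat 0), (.ofNat 4, .ofNat 0), (.negSucc 0, .ofNat 0)], [(.ofNat 0, .ofNat 0), (.ofNat 0, .ofNat 0), (.ofNat 1, .ofNat 0), (.negSucc 4, .ofNat 0), (.ofNat 10, .ofNat 0), (.negSucc 9, .ofNat 0), (.ofNat 5, .ofNat 0), (.negSucc 0, .ofNat 0)], [(.ofNat 0, .ofNat 0), (.negSucc 0, .ofNat 0), (.ofNat 6, .ofNat 0), (.negSucc 14, .ofNat 0), (.ofNat 20, .ofNat 0), (.negSucc 14, .ofNat 0), (.ofNat 6, .ofNat 0), (.negSucc 0, .ofNat 0)], [(.ofNat 1, .ofNat 0), (.negSucc 6, .ofNat 0), (.ofNat 21, .ofNat 0), (.negSucc 34, .ofNat 0), (.ofNat 35, .ofNat 0), (.negSucc 20, .ofNat 0), (.ofNat 7, .ofNat 0), (.negSucc 0, .ofNat 0)]]]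
  tab1 := [[[(.ofNat 1, .ofNat 0), (.ofNat 0, .ofNat 0), (.ofNat 0, .ofNat 0), (.ofNat 0, .ofNat 0), (.ofNat 0, .ofNat 0), (.ofNat 0, .ofNat 0), (.ofNat 0, .ofNat 0), (.ofNat 0, .ofNat 0)], [(.ofNat 0, .ofNat 0), (.ofNat 1, .ofNat 0), (.ofNat 0, .ofNat 0), (.ofNat 0, .ofNat 0), (.ofNat 0, .ofNat 0), (.ofNat 0, .ofNat 0), (.ofNat 0, .ofNat 0), (.ofNat 0, .ofNat 0)], [(.ofNat 0, .ofNat 0), (.ofNat 0, .ofNat 0), (.ofNat 1, .ofNat 0), (.ofNat 0, .ofNat 0), (.ofNat 0, .ofNat 0), (.ofNat 0, .ofNat 0), (.ofNat 0, .ofNat 0), (.ofNat 0, .ofNat 0)], [(.ofNat 0, .ofNat 0), (.ofNat 0, .ofNat 0), (.ofNat 0, .ofNat 0), (.ofNat 1, .ofNat 0), (.ofNat 0, .ofNat 0), (.ofNat 0, .ofNat 0), (.ofNat 0, .ofNat 0), (.ofNat 0, .ofNat 0)], [(.ofNat 0, .ofNat 0), (.ofNat 0, .ofNat 0), (.ofNat 0, .ofNat 0), (.ofNat 0, .ofNat 0), (.ofNat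 1, .ofNat 0), (.ofNat 0, .ofNat 0), (.ofNat 0, .ofNat 0), (.ofNat 0, .ofNat 0)], [(.ofNat 0, .ofNat 0), (.ofNat 0, .ofNat 0), (.ofNat 0, .ofNat 0), (.ofNat 0, .ofNat 0), (.ofNat 0, .ofNat 0), (.ofNat 1, .ofNat 0), (.ofNat 0, .ofNat 0), (.ofNat 0, .ofNat 0)], [(.ofNat 0, .ofNat 0), (.ofNat 0, .ofNat 0), (.ofNat 0, .ofNat 0), (.ofNat 0, .ofNat 0), (.ofNat 0, .ofNat 0), (.ofNat 0, .ofNat 0), (.ofNat 1, .ofNat 0), (.ofNat 0, .ofNat 0)], [(.ofNat 0, .ofNat 0), (.ofNat 0, .ofNat 0), (.ofNat 0, .ofNat 0), (.ofNat 0, .ofNat 0), (.ofNat 0, .ofNat 0), (.ofNat 0, .ofNat 0), (.ofNat 0, .ofNat 0), (.ofNat 1, .ofNat 0)]], [[(.negSucc 9, .ofNat 7), (.ofNat 14, .ofNat 35), (.ofNat 126, .negSucc 20), (.ofNat 70, .negSucc 104), (.negSucc 69, .negSucc 34), (.negSucc 41, .ofNat 21), (.ofNat 0, .ofNat 7), (.ofNat 1, .ofNat 0)],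 [(.ofNat 2, .ofNat 5), (.ofNat 36, .negSucc 5), (.ofNat 30, .negSucc 44), (.negSucc 39, .negSucc 19), (.negSucc 29, .ofNat 15), (.ofNat 0, .ofNat 6), (.ofNat 1, .ofNat 0), (.ofNat 0, .ofNat 0)], [(.ofNat 6, .negSucc 0), (.ofNat 10, .negSucc 14), (.negSucc 19, .negSucc 9), (.negSucc 19, .ofNat 10), (.ofNat 0, .ofNat 5), (.ofNat 1, .ofNat 0), (.ofNat 0, .ofNat 0), (.ofNat 0, .ofNat 0)], [(.ofNat 2, .negSucc 2), (.negSucc 7, .negSucc 3), (.negSucc 11, .ofNat 6), (.ofNat 0, .ofNat 4), (.ofNat 1, .ofNat 0), (.ofNat 0, .ofNat 0), (.ofNat 0, .ofNat 0), (.ofNat 0, .ofNat 0)], [(.negSucc 1, .negSucc 0), (.negSucc 5, .ofNat 3), (.ofNat 0, .ofNat 3), (.ofNat 1, .ofNat 0), (.ofNat 0, .ofNat 0), (.ofNat 0, .ofNat 0), (.ofNat 0, .ofNat 0), (.ofNat 0, .ofNat 0)], [(.negSucc 1, .ofNat 1), (.ofNat 0, .ofNat 2), (.ofNat 1, .ofNat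 0), (.ofNat 0, .ofNat 0), (.ofNat 0, .ofNat 0), (.ofNat 0, .ofNat 0), (.ofNat 0, .ofNat 0), (.ofNat 0, .ofNat 0)], [(.ofNat 0, .ofNat 1), (.ofNat 1, .ofNat 0), (.ofNat 0, .ofNat 0), (.ofNat 0, .ofNat 0), (.ofNat 0, .ofNat 0), (.ofNat 0, .ofNat 0), (.ofNat 0, .ofNat 0), (.ofNat 0, .ofNat 0)], [(.ofNat 1, .ofNat 0), (.ofNat 0, .ofNat 0), (.ofNat 0, .ofNat 0), (.ofNat 0, .ofNat 0), (.ofNat 0, .ofNat 0), (.ofNat 0, .ofNat 0), (.ofNat 0, .ofNat 0), (.ofNat 0, .ofNat 0)]], [[(.ofNat 1, .ofNat 0), (.ofNat 7, .negSucc 6), (.negSucc 20, .negSucc 20), (.negSucc 104, .ofNat 35), (.negSucc 34, .ofNat 105), (.ofNat 105, .ofNat 21), (.ofNat 49, .negSucc 34), (.negSucc 2, .negSucc 6)], [(.ofNat 0, .ofNat 1), (.ofNat 13, .ofNat 0), (.ofNat 36, .negSucc 35), (.negSucc 54, .negSucc 54), (.negSucc 149, .ofNat 50), (.negSucc 26,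 .ofNat 81), (.ofNat 40, .ofNat 8), (.ofNat 7, .negSucc 4)], [(.negSucc 1, .ofNat 1), (.ofNat 0, .ofNat 12), (.ofNat 61, .ofNat 0), (.ofNat 85, .negSucc 84), (.negSucc 69, .negSucc 69), (.negSucc 101, .ofNat 34), (.negSucc 8, .ofNat 27), (.ofNat 5, .ofNat 1)], [(.negSucc 1, .negSucc 0), (.negSucc 21, .ofNat 11), (.ofNat 0, .ofNat 51), (.ofNat 129, .ofNat 0), (.ofNat 96, .negSucc 95), (.negSucc 41, .negSucc 41), (.negSucc 29, .ofNat 10), (.negSucc 0, .ofNat 3)], [(.ofNat 2, .negSucc 2), (.negSucc 19, .negSucc 9), (.negSucc 83, .ofNat 42), (.ofNat 0, .ofNat 96), (.ofNat 129, .ofNat 0), (.ofNat 51, .negSucc 50), (.negSucc 10, .negSucc 10), (.negSucc 2, .ofNat 1)], [(.ofNat 6, .negSucc 0), (.ofNat 18, .negSucc 26), (.negSucc 67, .negSucc 33), (.negSucc 139, .ofNat 70), (.ofNat 0, .ofNat 85), (.ofNat 61, .ofNat 0),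 (.ofNat 12, .negSucc 11), (.negSucc 0, .negSucc 0)], [(.ofNat 2, .ofNat 5), (.ofNat 48, .negSucc 7), (.ofNat 54, .negSucc 80), (.negSucc 99, .negSucc 49), (.negSucc 109, .ofNat 55), (.ofNat 0, .ofNat 36), (.ofNat 13, .ofNat 0), (.ofNat 1, .negSucc 0)], [(.negSucc 9, .ofNat 7), (.ofNat 14, .ofNat 35), (.ofNat 126, .negSucc 20), (.ofNat 70, .negSucc 104), (.negSucc 69, .negSucc 34), (.negSucc 41, .ofNat 21), (.ofNat 0, .ofNat 7), (.ofNat 1, .ofNat 0)]], [[(.ofNat 0, .ofNat 0), (.ofNat 0, .ofNat 0), (.ofNat 0, .ofNat 0), (.ofNat 0, .ofNat 0), (.ofNat 0, .ofNat 0), (.ofNat 0, .ofNat 0), (.ofNat 0, .ofNat 0), (.ofNat 1, .ofNat 0)], [(.ofNat 0, .ofNat 0), (.ofNat 0, .ofNat 0), (.ofNat 0, .ofNat 0), (.ofNat 0, .ofNat 0), (.ofNat 0, .ofNat 0), (.ofNat 0, .ofNat 0), (.ofNat 1, .ofNat 0), (.ofNat 1, .negSucc 0)], [(.ofNat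 0, .ofNat 0), (.ofNat 0, .ofNat 0), (.ofNat 0, .ofNat 0), (.ofNat 0, .ofNat 0), (.ofNat 0, .ofNat 0), (.ofNat 1, .ofNat 0), (.ofNat 2, .negSucc 1), (.negSucc 0, .negSucc 0)], [(.ofNat 0, .ofNat 0), (.ofNat 0, .ofNat 0), (.ofNat 0, .ofNat 0), (.ofNat 0, .ofNat 0), (.ofNat 1, .ofNat 0), (.ofNat 3, .negSucc 2), (.negSucc 2, .negSucc 2), (.negSucc 2, .ofNat 1)], [(.ofNat 0, .ofNat 0), (.ofNat 0, .ofNat 0), (.ofNat 0, .ofNat 0), (.ofNat 1, .ofNat 0), (.ofNat 4, .negSucc 3), (.negSucc 5, .negSucc 5), (.negSucc 11, .ofNat 4), (.negSucc 0, .ofNat 3)], [(.ofNat 0, .ofNat 0), (.ofNat 0, .ofNat 0), (.ofNat 1, .ofNat 0), (.ofNat 5, .negSucc 4), (.negSucc 9, .negSucc 9), (.negSucc 29, .ofNat 10), (.negSucc 4, .ofNat 15), (.ofNat 5, .ofNat 1)], [(.ofNat 0, .ofNat 0), (.ofNat 1, .ofNat 0), (.ofNat 6, .negSucc 5), (.negSucc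 14, .negSucc 14), (.negSucc 59, .ofNat 20), (.negSucc 14, .ofNat 45), (.ofNat 30, .ofNat 6), (.ofNat 7, .negSucc 4)], [(.ofNat 1, .ofNat 0), (.ofNat 7, .negSucc 6), (.negSucc 20, .negSucc 20), (.negSucc 104, .ofNat 35), (.negSucc 34, .ofNat 105), (.ofNat 105, .ofNat 21), (.ofNat 49, .negSucc 34), (.negSucc 2, .negSucc 6)]]]
  rws := [(0, 0, 1, 0), (0, 0, 3, 0), (0, 0, 6, 0), (0, 0, 7, 0), (0, 1, 2, 0), (0, 1, 4, 0)]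
  cols := [((0, 2), [.ofNat 4, .ofNat 30, .negSucc 11, .ofNat 2, .ofNat 42, .ofNat 210]), ((0, 4), [.ofNat 8, .ofNat 38, .negSucc 9, .ofNat 2, .ofNat 42, .ofNat 112]), ((0, 6), [.ofNat 12, .ofNat 55, .negSucc 7, .ofNat 2, .ofNat 21, .ofNat 35]), ((1, 3), [.ofNat 4, .ofNat 17, .negSucc 0, .ofNat 0, .ofNat 27, .ofNat 58]), ((1, 5), [.ofNat 8, .ofNat 30, .negSucc 0, .ofNat 0, .ofNat 34, .ofNat 35]), ((2, 4), [.ofNat 4, .ofNat 13, .ofNat 0, .ofNat 0, .ofNat 23, .ofNat 17])]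
  tg := [((0, 2), .ofNat 60, [.ofNat 125, .negSucc 25, .ofNat 20, .ofNat 80, .negSucc 9, .ofNat 4]), ((0, 4), .ofNat 24, [.negSucc 55, .ofNat 11, .negSucc 17, .negSucc 55, .ofNat 5, .negSucc 1]), ((0, 6), .ofNat 120, [.ofNat 30, .negSucc 2, .ofNat 50, .ofNat 180, .negSucc 4, .ofNat 2]), ((1, 3), .ofNat 24, [.negSucc 129, .ofNat 28, .ofNat 1, .negSucc 27, .ofNat 9, .negSucc 2]), ((1, 5), .ofNat 40, [.ofNat 70, .negSucc 13, .negSucc 34, .negSucc 139, .negSucc 4, .ofNat 1]), ((2, 4), .ofNat 8, [.ofNat 32, .negSucc 6, .ofNat 13, .ofNat 56, .negSucc 1, .ofNat 1])]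

theorem NIT_2_1_7 (l : ℕ) (hlp : l.Prime) (hl2 : l ≠ 2) (hls : ¬ l ∣ 7) (hE : ¬ l ∣ 7)
    (hj : 7 < l) : NUMA_stmt 2 1 l 7 :=
  @NI_fin 2 1 7 1 7 7 (by norm_num) NIC_2_1_7 (by decide +kernel) (by decide +kernel)
    (by decide +kernel) (by decide +kernel) l hlp hl2 hls hE hj

/-- certificate, `d = 2`, `t = 1`, `j = 8` -/
def NIC_2_1_8 : NI_Cert where
  tab0 := [[[(.ofNat 1, .ofNat 0), (.ofNat 0, .ofNat 0), (.ofNat 0, .ofNat 0), (.ofNat 0, .ofNat 0), (.ofNat 0, .ofNat 0), (.ofNat 0, .ofNat 0), (.ofNat 0, .ofNat 0), (.ofNat 0, .ofNat 0), (.ofNat 0, .ofNat 0)], [(.ofNat 0, .ofNat 0), (.ofNat 1, .ofNat 0), (.ofNat 0, .ofNat 0), (.ofNat 0, .ofNat 0), (.ofNat 0, .ofNat 0), (.ofNat 0, .ofNat 0), (.ofNat 0, .ofNat 0), (.ofNat 0, .ofNat 0), (.ofNat 0, .ofNat 0)], [(.ofNat 0, .ofNat 0), (.ofNat 0, .ofNat 0), (.ofNat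 1, .ofNat 0), (.ofNat 0, .ofNat 0), (.ofNat 0, .ofNat 0), (.ofNat 0, .ofNat 0), (.ofNat 0, .ofNat 0), (.ofNat 0, .ofNat 0), (.ofNat 0, .ofNat 0)], [(.ofNat 0, .ofNat 0), (.ofNat 0, .ofNat 0), (.ofNat 0, .ofNat 0), (.ofNat 1, .ofNat 0), (.ofNat 0, .ofNat 0), (.ofNat 0, .ofNat 0), (.ofNat 0, .ofNat 0), (.ofNat 0, .ofNat 0), (.ofNat 0, .ofNat 0)], [(.ofNat 0, .ofNat 0), (.ofNat 0, .ofNat 0), (.ofNat 0, .ofNat 0), (.ofNat 0, .ofNat 0), (.ofNat 1, .ofNat 0), (.ofNat 0, .ofNat 0), (.ofNat 0, .ofNat 0), (.ofNat 0, .ofNat 0), (.ofNat 0, .ofNat 0)], [(.ofNat 0, .ofNat 0), (.ofNat 0, .ofNat 0), (.ofNat 0, .ofNat 0), (.ofNat 0, .ofNat 0), (.ofNat 0, .ofNat 0), (.ofNat 1, .ofNat 0), (.ofNat 0, .ofNat 0), (.ofNat 0, .ofNat 0), (.ofNat 0, .ofNat 0)], [(.ofNat 0, .ofNat 0), (.ofNat 0, .ofNat 0), (.ofNat 0, .ofNat 0), (.ofNat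 0, .ofNat 0), (.ofNat 0, .ofNat 0), (.ofNat 0, .ofNat 0), (.ofNat 1, .ofNat 0), (.ofNat 0, .ofNat 0), (.ofNat 0, .ofNat 0)], [(.ofNat 0, .ofNat 0), (.ofNat 0, .ofNat 0), (.ofNat 0, .ofNat 0), (.ofNat 0, .ofNat 0), (.ofNat 0, .ofNat 0), (.ofNat 0, .ofNat 0), (.ofNat 0, .ofNat 0), (.ofNat 1, .ofNat 0), (.ofNat 0, .ofNat 0)], [(.ofNat 0, .ofNat 0), (.ofNat 0, .ofNat 0), (.ofNat 0, .ofNat 0), (.ofNat 0, .ofNat 0), (.ofNat 0, .ofNat 0), (.ofNat 0, .ofNat 0), (.ofNat 0, .ofNat 0), (.ofNat 0, .ofNat 0), (.ofNat 1, .ofNat 0)]], [[(.ofNat 1, .ofNat 0), (.negSucc 7, .ofNat 0), (.ofNat 28, .ofNat 0), (.negSucc 55, .ofNat 0), (.ofNat 70, .ofNat 0), (.negSucc 55, .ofNat 0), (.ofNat 28, .ofNat 0), (.negSucc 7, .ofNat 0), (.ofNat 1, .ofNat 0)], [(.ofNat 1, .ofNat 0), (.negSucc 6, .ofNat 0), (.ofNat 21, .ofNat 0), (.negSucc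 34, .ofNat 0), (.ofNat 35, .ofNat 0), (.negSucc 20, .ofNat 0), (.ofNat 7, .ofNat 0), (.negSucc 0, .ofNat 0), (.ofNat 0, .ofNat 0)], [(.ofNat 1, .ofNat 0), (.negSucc 5, .ofNat 0), (.ofNat 15, .ofNat 0), (.negSucc 19, .ofNat 0), (.ofNat 15, .ofNat 0), (.negSucc 5, .ofNat 0), (.ofNat 1, .ofNat 0), (.ofNat 0, .ofNat 0), (.ofNat 0, .ofNat 0)], [(.ofNat 1, .ofNat 0), (.negSucc 4, .ofNat 0), (.ofNat 10, .ofNat 0), (.negSucc 9, .ofNat 0), (.ofNat 5, .ofNat 0), (.negSucc 0, .ofNat 0), (.ofNat 0, .ofNat 0), (.ofNat 0, .ofNat 0), (.ofNat 0, .ofNat 0)], [(.ofNat 1, .ofNat 0), (.negSucc 3, .ofNat 0), (.ofNat 6, .ofNat 0), (.negSucc 3, .ofNat 0), (.ofNat 1, .ofNat 0), (.ofNat 0, .ofNat 0), (.ofNat 0, .ofNat 0), (.ofNat 0, .ofNat 0), (.ofNat 0, .ofNat 0)], [(.ofNat 1, .ofNat 0), (.negSucc 2, .ofNat 0), (.ofNat 3, .ofNat 0),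 (.negSucc 0, .ofNat 0), (.ofNat 0, .ofNat 0), (.ofNat 0, .ofNat 0), (.ofNat 0, .ofNat 0), (.ofNat 0, .ofNat 0), (.ofNat 0, .ofNat 0)], [(.ofNat 1, .ofNat 0), (.negSucc 1, .ofNat 0), (.ofNat 1, .ofNat 0), (.ofNat 0, .ofNat 0), (.ofNat 0, .ofNat 0), (.ofNat 0, .ofNat 0), (.ofNat 0, .ofNat 0), (.ofNat 0, .ofNat 0), (.ofNat 0, .ofNat 0)], [(.ofNat 1, .ofNat 0), (.negSucc 0, .ofNat 0), (.ofNat 0, .ofNat 0), (.ofNat 0, .ofNat 0), (.ofNat 0, .ofNat 0), (.ofNat 0, .ofNat 0), (.ofNat 0, .ofNat 0), (.ofNat 0, .ofNat 0), (.ofNat 0, .ofNat 0)], [(.ofNat 1, .ofNat 0), (.ofNat 0, .ofNat 0), (.ofNat 0, .ofNat 0), (.ofNat 0, .ofNat 0), (.ofNat 0, .ofNat 0), (.ofNat 0, .ofNat 0), (.ofNat 0, .ofNat 0), (.ofNat 0, .ofNat 0), (.ofNat 0, .ofNat 0)]], [[(.ofNat 0, .ofNat 0), (.ofNat 0, .ofNat 0), (.ofNat 0, .ofNat 0), (.ofNat 0,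 .ofNat 0), (.ofNat 0, .ofNat 0), (.ofNat 0, .ofNat 0), (.ofNat 0, .ofNat 0), (.ofNat 0, .ofNat 0), (.ofNat 1, .ofNat 0)], [(.ofNat 0, .ofNat 0), (.ofNat 0, .ofNat 0), (.ofNat 0, .ofNat 0), (.ofNat 0, .ofNat 0), (.ofNat 0, .ofNat 0), (.ofNat 0, .ofNat 0), (.ofNat 0, .ofNat 0), (.negSucc 0, .ofNat 0), (.ofNat 1, .ofNat 0)], [(.ofNat 0, .ofNat 0), (.ofNat 0, .ofNat 0), (.ofNat 0, .ofNat 0), (.ofNat 0, .ofNat 0), (.ofNat 0, .ofNat 0), (.ofNat 0, .ofNat 0), (.ofNat 1, .ofNat 0), (.negSucc 1, .ofNat 0), (.ofNat 1, .ofNat 0)], [(.ofNat 0, .ofNat 0), (.ofNat 0, .ofNat 0), (.ofNat 0, .ofNat 0), (.ofNat 0, .ofNat 0), (.ofNat 0, .ofNat 0), (.negSucc 0, .ofNat 0), (.ofNat 3, .ofNat 0), (.negSucc 2, .ofNat 0), (.ofNat 1, .ofNat 0)], [(.ofNat 0, .ofNat 0), (.ofNat 0, .ofNat 0), (.ofNat 0, .ofNat 0), (.ofNat 0, .ofNat 0),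 (.ofNat 1, .ofNat 0), (.negSucc 3, .ofNat 0), (.ofNat 6, .ofNat 0), (.negSucc 3, .ofNat 0), (.ofNat 1, .ofNat 0)], [(.ofNat 0, .ofNat 0), (.ofNat 0, .ofNat 0), (.ofNat 0, .ofNat 0), (.negSucc 0, .ofNat 0), (.ofNat 5, .ofNat 0), (.negSucc 9, .ofNat 0), (.ofNat 10, .ofNat 0), (.negSucc 4, .ofNat 0), (.ofNat 1, .ofNat 0)], [(.ofNat 0, .ofNat 0), (.ofNat 0, .ofNat 0), (.ofNat 1, .ofNat 0), (.negSucc 5, .ofNat 0), (.ofNat 15, .ofNat 0), (.negSucc 19, .ofNat 0), (.ofNat 15, .ofNat 0), (.negSucc 5, .ofNat 0), (.ofNat 1, .ofNat 0)], [(.ofNat 0, .ofNat 0), (.negSucc 0, .ofNat 0), (.ofNat 7, .ofNat 0), (.negSucc 20, .ofNat 0), (.ofNat 35, .ofNat 0), (.negSucc 34, .ofNat 0), (.ofNat 21, .ofNat 0), (.negSucc 6, .ofNat 0), (.ofNat 1, .ofNat 0)], [(.ofNat 1, .ofNat 0), (.negSucc 7, .ofNat 0), (.ofNat 28, .ofNat 0), (.negSucc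 55, .ofNat 0), (.ofNat 70, .ofNat 0), (.negSucc 55, .ofNat 0), (.ofNat 28, .ofNat 0), (.negSucc 7, .ofNat 0), (.ofNat 1, .ofNat 0)]]]
  tab1 := [[[(.ofNat 1, .ofNat 0), (.ofNat 0, .ofNat 0), (.ofNat 0, .ofNat 0), (.ofNat 0, .ofNat 0), (.ofNat 0, .ofNat 0), (.ofNat 0, .ofNat 0), (.ofNat 0, .ofNat 0), (.ofNat 0, .ofNat 0), (.ofNat 0, .ofNat 0)], [(.ofNat 0, .ofNat 0), (.ofNat 1, .ofNat 0), (.ofNat 0, .ofNat 0), (.ofNat 0, .ofNat 0), (.ofNat 0, .ofNat 0), (.ofNat 0, .ofNat 0), (.ofNat 0, .ofNat 0), (.ofNat 0, .ofNat 0), (.ofNat 0, .ofNat 0)], [(.ofNat 0, .ofNat 0), (.ofNat 0, .ofNat 0), (.ofNat 1, .ofNat 0), (.ofNat 0, .ofNat 0), (.ofNat 0, .ofNat 0), (.ofNat 0, .ofNat 0), (.ofNat 0, .ofNat 0), (.ofNat 0, .ofNat 0), (.ofNat 0, .ofNat 0)], [(.ofNat 0, .ofNat 0), (.ofNat 0, .ofNat 0), (.ofNat 0, .ofNat 0), (.ofNat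 1, .ofNat 0), (.ofNat 0, .ofNat 0), (.ofNat 0, .ofNat 0), (.ofNat 0, .ofNat 0), (.ofNat 0, .ofNat 0), (.ofNat 0, .ofNat 0)], [(.ofNat 0, .ofNat 0), (.ofNat 0, .ofNat 0), (.ofNat 0, .ofNat 0), (.ofNat 0, .ofNat 0), (.ofNat 1, .ofNat 0), (.ofNat 0, .ofNat 0), (.ofNat 0, .ofNat 0), (.ofNat 0, .ofNat 0), (.ofNat 0, .ofNat 0)], [(.ofNat 0, .ofNat 0), (.ofNat 0, .ofNat 0), (.ofNat 0, .ofNat 0), (.ofNat 0, .ofNat 0), (.ofNat 0, .ofNat 0), (.ofNat 1, .ofNat 0), (.ofNat 0, .ofNat 0), (.ofNat 0, .ofNat 0), (.ofNat 0, .ofNat 0)], [(.ofNat 0, .ofNat 0), (.ofNat 0, .ofNat 0), (.ofNat 0, .ofNat 0), (.ofNat 0, .ofNat 0), (.ofNat 0, .ofNat 0), (.ofNat 0, .ofNat 0), (.ofNat 1, .ofNat 0), (.ofNat 0, .ofNat 0), (.ofNat 0, .ofNat 0)], [(.ofNat 0, .ofNat 0), (.ofNat 0, .ofNat 0), (.ofNat 0, .ofNat 0), (.ofNat 0, .ofNat 0), (.ofNat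 0, .ofNat 0), (.ofNat 0, .ofNat 0), (.ofNat 0, .ofNat 0), (.ofNat 1, .ofNat 0), (.ofNat 0, .ofNat 0)], [(.ofNat 0, .ofNat 0), (.ofNat 0, .ofNat 0), (.ofNat 0, .ofNat 0), (.ofNat 0, .ofNat 0), (.ofNat 0, .ofNat 0), (.ofNat 0, .ofNat 0), (.ofNat 0, .ofNat 0), (.ofNat 0, .ofNat 0), (.ofNat 1, .ofNat 0)]], [[(.negSucc 13, .negSucc 2), (.negSucc 79, .ofNat 56), (.ofNat 56, .ofNat 140), (.ofNat 336, .negSucc 55), (.ofNat 140, .negSucc 209), (.negSucc 111, .negSucc 55), (.negSucc 55, .ofNat 28), (.ofNat 0, .ofNat 8), (.ofNat 1, .ofNat 0)], [(.negSucc 9, .ofNat 7), (.ofNat 14, .ofNat 35), (.ofNat 126, .negSucc 20), (.ofNat 70, .negSucc 104), (.negSucc 69, .negSucc 34), (.negSucc 41, .ofNat 21), (.ofNat 0, .ofNat 7), (.ofNat 1, .ofNat 0), (.ofNat 0, .ofNat 0)], [(.ofNat 2, .ofNat 5), (.ofNat 36, .negSucc 5), (.ofNat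 30, .negSucc 44), (.negSucc 39, .negSucc 19), (.negSucc 29, .ofNat 15), (.ofNat 0, .ofNat 6), (.ofNat 1, .ofNat 0), (.ofNat 0, .ofNat 0), (.ofNat 0, .ofNat 0)], [(.ofNat 6, .negSucc 0), (.ofNat 10, .negSucc 14), (.negSucc 19, .negSucc 9), (.negSucc 19, .ofNat 10), (.ofNat 0, .ofNat 5), (.ofNat 1, .ofNat 0), (.ofNat 0, .ofNat 0), (.ofNat 0, .ofNat 0), (.ofNat 0, .ofNat 0)], [(.ofNat 2, .negSucc 2), (.negSucc 7, .negSucc 3), (.negSucc 11, .ofNat 6), (.ofNat 0, .ofNat 4), (.ofNat 1, .ofNat 0), (.ofNat 0, .ofNat 0), (.ofNat 0, .ofNat 0), (.ofNat 0, .ofNat 0), (.ofNat 0, .ofNat 0)], [(.negSucc 1, .negSucc 0), (.negSucc 5, .ofNat 3), (.ofNat 0, .ofNat 3), (.ofNat 1, .ofNat 0), (.ofNat 0, .ofNat 0), (.ofNat 0, .ofNat 0), (.ofNat 0, .ofNat 0), (.ofNat 0, .ofNat 0), (.ofNat 0, .ofNat 0)], [(.negSucc 1, .ofNat 1), (.ofNat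 0, .ofNat 2), (.ofNat 1, .ofNat 0), (.ofNat 0, .ofNat 0), (.ofNat 0, .ofNat 0), (.ofNat 0, .ofNat 0), (.ofNat 0, .ofNat 0), (.ofNat 0, .ofNat 0), (.ofNat 0, .ofNat 0)], [(.ofNat 0, .ofNat 1), (.ofNat 1, .ofNat 0), (.ofNat 0, .ofNat 0), (.ofNat 0, .ofNat 0), (.ofNat 0, .ofNat 0), (.ofNat 0, .ofNat 0), (.ofNat 0, .ofNat 0), (.ofNat 0, .ofNat 0), (.ofNat 0, .ofNat 0)], [(.ofNat 1, .ofNat 0), (.ofNat 0, .ofNat 0), (.ofNat 0, .ofNat 0), (.ofNat 0, .ofNat 0), (.ofNat 0, .ofNat 0), (.ofNat 0, .ofNat 0), (.ofNat 0, .ofNat 0), (.ofNat 0, .ofNat 0), (.ofNat 0, .ofNat 0)]], [[(.ofNat 1, .ofNat 0), (.ofNat 8, .negSucc 7), (.negSucc 27, .negSucc 27), (.negSucc 167, .ofNat 56), (.negSucc 69, .ofNat 210), (.ofNat 280, .ofNat 56), (.ofNat 196, .negSucc 139), (.negSucc 23, .negSucc 55), (.negSucc 16, .ofNat 3)], [(.ofNat 0,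 .ofNat 1), (.ofNat 15, .ofNat 0), (.ofNat 49, .negSucc 48), (.negSucc 90, .negSucc 90), (.negSucc 314, .ofNat 105), (.negSucc 76, .ofNat 231), (.ofNat 175, .ofNat 35), (.ofNat 63, .negSucc 44), (.negSucc 2, .negSucc 6)], [(.negSucc 1, .ofNat 1), (.ofNat 0, .ofNat 14), (.ofNat 85, .ofNat 0), (.ofNat 146, .negSucc 145), (.negSucc 154, .negSucc 154), (.negSucc 311, .ofNat 104), (.negSucc 42, .ofNat 129), (.ofNat 50, .ofNat 10), (.ofNat 7, .negSucc 4)], [(.negSucc 1, .negSucc 0), (.negSucc 25, .ofNat 13), (.ofNat 0, .ofNat 73), (.ofNat 231, .ofNat 0), (.ofNat 225, .negSucc 224), (.negSucc 137, .negSucc 137), (.negSucc 155, .ofNat 52), (.negSucc 10, .ofNat 33), (.ofNat 5, .ofNat 1)], [(.ofNat 2, .negSucc 2), (.negSucc 23, .negSucc 11), (.negSucc 123, .ofNat 62), (.ofNat 0, .ofNat 180), (.ofNat 321, .ofNat 0), (.ofNat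 180, .negSucc 179), (.negSucc 61, .negSucc 61), (.negSucc 35, .ofNat 12), (.negSucc 0, .ofNat 3)], [(.ofNat 6, .negSucc 0), (.ofNat 22, .negSucc 32), (.negSucc 103, .negSucc 51), (.negSucc 275, .ofNat 138), (.ofNat 0, .ofNat 225), (.ofNat 231, .ofNat 0), (.ofNat 73, .negSucc 72), (.negSucc 12, .negSucc 12), (.negSucc 2, .ofNat 1)], [(.ofNat 2, .ofNat 5), (.ofNat 60, .negSucc 9), (.ofNat 86, .negSucc 128), (.negSucc 207, .negSucc 103), (.negSucc 309, .ofNat 155), (.ofNat 0, .ofNat 146), (.ofNat 85, .ofNat 0), (.ofNat 14, .negSucc 13), (.negSucc 0, .negSucc 0)], [(.negSucc 9, .ofNat 7), (.ofNat 18, .ofNat 45), (.ofNat 210, .negSucc 34), (.ofNat 154, .negSucc 230), (.negSucc 209, .negSucc 104), (.negSucc 181, .ofNat 91), (.ofNat 0, .ofNat 49), (.ofNat 15, .ofNat 0), (.ofNat 1, .negSucc 0)], [(.negSucc 13, .negSucc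 2), (.negSucc 79, .ofNat 56), (.ofNat 56, .ofNat 140), (.ofNat 336, .negSucc 55), (.ofNat 140, .negSucc 209), (.negSucc 111, .negSucc 55), (.negSucc 55, .ofNat 28), (.ofNat 0, .ofNat 8), (.ofNat 1, .ofNat 0)]], [[(.ofNat 0, .ofNat 0), (.ofNat 0, .ofNat 0), (.ofNat 0, .ofNat 0), (.ofNat 0, .ofNat 0), (.ofNat 0, .ofNat 0), (.ofNat 0, .ofNat 0), (.ofNat 0, .ofNat 0), (.ofNat 0, .ofNat 0), (.ofNat 1, .ofNat 0)], [(.ofNat 0, .ofNat 0), (.ofNat 0, .ofNat 0), (.ofNat 0, .ofNat 0), (.ofNat 0, .ofNat 0), (.ofNat 0, .ofNat 0), (.ofNat 0, .ofNat 0), (.ofNat 0, .ofNat 0), (.ofNat 1, .ofNat 0), (.ofNat 1, .negSucc 0)], [(.ofNat 0, .ofNat 0), (.ofNat 0, .ofNat 0), (.ofNat 0, .ofNat 0), (.ofNat 0, .ofNat 0), (.ofNat 0, .ofNat 0), (.ofNat 0, .ofNat 0), (.ofNat 1, .ofNat 0), (.ofNat 2, .negSucc 1), (.negSucc 0, .negSucc 0)],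 [(.ofNat 0, .ofNat 0), (.ofNat 0, .ofNat 0), (.ofNat 0, .ofNat 0), (.ofNat 0, .ofNat 0), (.ofNat 0, .ofNat 0), (.ofNat 1, .ofNat 0), (.ofNat 3, .negSucc 2), (.negSucc 2, .negSucc 2), (.negSucc 2, .ofNat 1)], [(.ofNat 0, .ofNat 0), (.ofNat 0, .ofNat 0), (.ofNat 0, .ofNat 0), (.ofNat 0, .ofNat 0), (.ofNat 1, .ofNat 0), (.ofNat 4, .negSucc 3), (.negSucc 5, .negSucc 5), (.negSucc 11, .ofNat 4), (.negSucc 0, .ofNat 3)], [(.ofNat 0, .ofNat 0), (.ofNat 0, .ofNat 0), (.ofNat 0, .ofNat 0), (.ofNat 1, .ofNat 0), (.ofNat 5, .negSucc 4), (.negSucc 9, .negSucc 9), (.negSucc 29, .ofNat 10), (.negSucc 4, .ofNat 15), (.ofNat 5, .ofNat 1)], [(.ofNat 0, .ofNat 0), (.ofNat 0, .ofNat 0), (.ofNat 1, .ofNat 0), (.ofNat 6, .negSucc 5), (.negSucc 14, .negSucc 14), (.negSucc 59, .ofNat 20), (.negSucc 14, .ofNat 45), (.ofNat 30, .ofNat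 6), (.ofNat 7, .negSucc 4)], [(.ofNat 0, .ofNat 0), (.ofNat 1, .ofNat 0), (.ofNat 7, .negSucc 6), (.negSucc 20, .negSucc 20), (.negSucc 104, .ofNat 35), (.negSucc 34, .ofNat 105), (.ofNat 105, .ofNat 21), (.ofNat 49, .negSucc 34), (.negSucc 2, .negSucc 6)], [(.ofNat 1, .ofNat 0), (.ofNat 8, .negSucc 7), (.negSucc 27, .negSucc 27), (.negSucc 167, .ofNat 56), (.negSucc 69, .ofNat 210), (.ofNat 280, .ofNat 56), (.ofNat 196, .negSucc 139), (.negSucc 23, .negSucc 55), (.negSucc 16, .ofNat 3)]]]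
  rws := [(0, 0, 6, 0), (0, 0, 7, 0), (0, 0, 8, 0), (0, 1, 5, 0), (0, 1, 6, 0), (0, 1, 7, 0), (0, 2, 4, 0), (0, 3, 5, 0), (1, 0, 2, 0), (1, 0, 8, 1)]
  cols := [((0, 2), [.negSucc 41, .ofNat 14, .negSucc 1, .negSucc 447, .ofNat 280, .negSucc 95, .negSucc 979, .negSucc 1567, .negSucc 867, .ofNat 22]), ((0, 4), [.negSucc 33, .ofNat 12, .negSucc 1, .negSucc 255, .ofNat 160, .negSucc 63, .negSucc 419, .negSucc 447, .negSucc 559, .negSucc 89]), ((0, 6), [.negSucc 28, .ofNat 10, .negSucc 1, .negSucc 111, .ofNat 64, .negSucc 31, .negSucc 69, .ofNat 0, .ofNat 1540, .ofNat 182]), ((0, 8), [.negSucc 55, .ofNat 16, .negSucc 1, .ofNat 0, .ofNat 0, .ofNat 0, .ofNat 0, .ofNat 0, .negSucc 1903, .negSucc 185]), ((1, 3), [.negSucc 6, .ofNat 1, .ofNat 0, .negSucc 107, .ofNat 45, .negSucc 9, .negSucc 279, .negSucc 349, .negSucc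 181, .ofNat 32]), ((1, 5), [.negSucc 6, .ofNat 1, .ofNat 0, .negSucc 63, .ofNat 24, .negSucc 5, .negSucc 104, .negSucc 41, .negSucc 573, .negSucc 95]), ((1, 7), [.negSucc 13, .ofNat 2, .ofNat 0, .negSucc 41, .ofNat 14, .negSucc 1, .ofNat 0, .ofNat 0, .ofNat 1316, .ofNat 184]), ((2, 4), [.negSucc 0, .ofNat 0, .ofNat 0, .negSucc 23, .ofNat 4, .ofNat 0, .negSucc 75, .negSucc 47, .ofNat 56, .ofNat 32]), ((2, 6), [.negSucc 1, .ofNat 0, .ofNat 0, .negSucc 23, .ofNat 4, .ofNat 0, .negSucc 29, .ofNat 0, .negSucc 559, .negSucc 95]), ((3, 5), [.ofNat 0, .ofNat 0, .ofNat 0, .negSucc 5, .ofNat 0, .ofNat 0, .negSucc 29, .negSucc 1, .ofNat 112, .ofNat 32])]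
  tg := [((0, 2), .ofNat 23520, [.negSucc 12223119, .negSucc 60505479, .negSucc 141720690, .ofNat 2123898, .ofNat 2969680, .ofNat 493066, .negSucc 452199, .ofNat 142170, .ofNat 2376, .negSucc 25136]), ((0, 4), .ofNat 1280, [.ofNat 892320, .ofNat 4415560, .ofNat 10337709, .negSucc 155031, .negSucc 216319, .negSucc 35243, .ofNat 33040, .negSucc 10359, .negSucc 183, .ofNat 1903]), ((0, 6), .ofNat 3840, [.negSucc 696159, .negSucc 3441719, .negSucc 8048602, .ofNat 120904, .ofNat 167680, .ofNat 25748, .negSucc 25839, .ofNat 8040, .ofNat 168, .negSucc 1640]), ((0, 8), .ofNat 23520, [.ofNat 181440, .ofNat 900200, .ofNat 2102443, .negSucc 31443, .negSucc 43679, .negSucc 6327, .ofNat 6720, .negSucc 2099, .negSucc 47, .ofNat 441]), ((1, 3), .ofNat 30, [.ofNat 64360, .ofNat 318680, .ofNat 746787, .negSucc 11185, .negSucc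 15669, .negSucc 2651, .ofNat 2380, .negSucc 749, .negSucc 11, .ofNat 129]), ((1, 5), .ofNat 1920, [.negSucc 3415199, .negSucc 16902439, .negSucc 39584400, .ofNat 593608, .ofNat 829440, .ofNat 137356, .negSucc 126479, .ofNat 39720, .ofNat 696, .negSucc 7226]), ((1, 7), .ofNat 47040, [.ofNat 13866720, .ofNat 68565560, .ofNat 160420267, .negSucc 2411415, .negSucc 3346559, .negSucc 523011, .ofNat 515760, .negSucc 160439, .negSucc 3431, .ofNat 33369]), ((2, 4), .ofNat 256, [.negSucc 948319, .negSucc 4697719, .negSucc 11017522, .ofNat 164904, .ofNat 231680, .ofNat 40468, .negSucc 35055, .ofNat 11080, .ofNat 168, .negSucc 1840]), ((2, 6), .ofNat 160, [.ofNat 358400, .ofNat 1774360, .ofNat 4158567, .negSucc 62355, .negSucc 87359, .negSucc 14951, .ofNat 13280, .negSucc 4179, .negSucc 71, .ofNat 749]), ((3, 5), .ofNat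 960, [.ofNat 4044960, .ofNat 20047400, .ofNat 47066161, .negSucc 704007, .negSucc 992639, .negSucc 180555, .ofNat 149520, .negSucc 47399, .negSucc 695, .ofNat 7707])]

theorem NIT_2_1_8 (l : ℕ) (hlp : l.Prime) (hl2 : l ≠ 2) (hls : ¬ l ∣ 7) (hE : ¬ l ∣ 7)
    (hj : 8 < l) : NUMA_stmt 2 1 l 8 :=
  @NI_fin 2 1 7 2 7 8 (by norm_num) NIC_2_1_8 (by decide +kernel) (by decide +kernel)
    (by decide +kernel) (by decide +kernel) l hlp hl2 hls hE hj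

/-- certificate, `d = 2`, `t = 1`, `j = 9` -/
def NIC_2_1_9 : NI_Cert where
  tab0 := [[[(.ofNat 1, .ofNat 0), (.ofNat 0, .ofNat 0), (.ofNat 0, .ofNat 0), (.ofNat 0, .ofNat 0), (.ofNat 0, .ofNat 0), (.ofNat 0, .ofNat 0), (.ofNat 0, .ofNat 0), (.ofNat 0, .ofNat 0), (.ofNat 0, .ofNat 0), (.ofNat 0, .ofNat 0)], [(.ofNat 0, .ofNat 0), (.ofNat 1, .ofNat 0), (.ofNat 0, .ofNat 0), (.ofNat 0, .ofNat 0), (.ofNat 0, .ofNat 0), (.ofNat 0, .ofNat 0), (.ofNat 0, .ofNat 0), (.ofNat 0, .ofNat 0), (.ofNat 0, .ofNat 0), (.ofNat 0, .ofNat 0)], [(.ofNat 0, .ofNat 0), (.ofNat 0, .ofNat 0), (.ofNat 1, .ofNat 0), (.ofNat 0, .ofNat 0), (.ofNat 0, .ofNat 0), (.ofNat 0, .ofNat 0), (.ofNat 0, .ofNat 0), (.ofNat 0, .ofNat 0), (.ofNat 0, .ofNat 0), (.ofNat 0, .ofNat 0)], [(.ofNat 0, .ofNat 0), (.ofNat 0, .ofNat 0), (.ofNat 0, .ofNat 0),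 (.ofNat 1, .ofNat 0), (.ofNat 0, .ofNat 0), (.ofNat 0, .ofNat 0), (.ofNat 0, .ofNat 0), (.ofNat 0, .ofNat 0), (.ofNat 0, .ofNat 0), (.ofNat 0, .ofNat 0)], [(.ofNat 0, .ofNat 0), (.ofNat 0, .ofNat 0), (.ofNat 0, .ofNat 0), (.ofNat 0, .ofNat 0), (.ofNat 1, .ofNat 0), (.ofNat 0, .ofNat 0), (.ofNat 0, .ofNat 0), (.ofNat 0, .ofNat 0), (.ofNat 0, .ofNat 0), (.ofNat 0, .ofNat 0)], [(.ofNat 0, .ofNat 0), (.ofNat 0, .ofNat 0), (.ofNat 0, .ofNat 0), (.ofNat 0, .ofNat 0), (.ofNat 0, .ofNat 0), (.ofNat 1, .ofNat 0), (.ofNat 0, .ofNat 0), (.ofNat 0, .ofNat 0), (.ofNat 0, .ofNat 0), (.ofNat 0, .ofNat 0)], [(.ofNat 0, .ofNat 0), (.ofNat 0, .ofNat 0), (.ofNat 0, .ofNat 0), (.ofNat 0, .ofNat 0), (.ofNat 0, .ofNat 0), (.ofNat 0, .ofNat 0), (.ofNat 1, .ofNat 0), (.ofNat 0, .ofNat 0), (.ofNat 0, .ofNat 0), (.ofNat 0, .ofNat 0)],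 [(.ofNat 0, .ofNat 0), (.ofNat 0, .ofNat 0), (.ofNat 0, .ofNat 0), (.ofNat 0, .ofNat 0), (.ofNat 0, .ofNat 0), (.ofNat 0, .ofNat 0), (.ofNat 0, .ofNat 0), (.ofNat 1, .ofNat 0), (.ofNat 0, .ofNat 0), (.ofNat 0, .ofNat 0)], [(.ofNat 0, .ofNat 0), (.ofNat 0, .ofNat 0), (.ofNat 0, .ofNat 0), (.ofNat 0, .ofNat 0), (.ofNat 0, .ofNat 0), (.ofNat 0, .ofNat 0), (.ofNat 0, .ofNat 0), (.ofNat 0, .ofNat 0), (.ofNat 1, .ofNat 0), (.ofNat 0, .ofNat 0)], [(.ofNat 0, .ofNat 0), (.ofNat 0, .ofNat 0), (.ofNat 0, .ofNat 0), (.ofNat 0, .ofNat 0), (.ofNat 0, .ofNat 0), (.ofNat 0, .ofNat 0), (.ofNat 0, .ofNat 0), (.ofNat 0, .ofNat 0), (.ofNat 0, .ofNat 0), (.ofNat 1, .ofNat 0)]], [[(.ofNat 1, .ofNat 0), (.negSucc 8, .ofNat 0), (.ofNat 36, .ofNat 0), (.negSucc 83, .ofNat 0), (.ofNat 126, .ofNat 0), (.negSucc 125, .ofNat 0), (.ofNat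 84, .ofNat 0), (.negSucc 35, .ofNat 0), (.ofNat 9, .ofNat 0), (.negSucc 0, .ofNat 0)], [(.ofNat 1, .ofNat 0), (.negSucc 7, .ofNat 0), (.ofNat 28, .ofNat 0), (.negSucc 55, .ofNat 0), (.ofNat 70, .ofNat 0), (.negSucc 55, .ofNat 0), (.ofNat 28, .ofNat 0), (.negSucc 7, .ofNat 0), (.ofNat 1, .ofNat 0), (.ofNat 0, .ofNat 0)], [(.ofNat 1, .ofNat 0), (.negSucc 6, .ofNat 0), (.ofNat 21, .ofNat 0), (.negSucc 34, .ofNat 0), (.ofNat 35, .ofNat 0), (.negSucc 20, .ofNat 0), (.ofNat 7, .ofNat 0), (.negSucc 0, .ofNat 0), (.ofNat 0, .ofNat 0), (.ofNat 0, .ofNat 0)], [(.ofNat 1, .ofNat 0), (.negSucc 5, .ofNat 0), (.ofNat 15, .ofNat 0), (.negSucc 19, .ofNat 0), (.ofNat 15, .ofNat 0), (.negSucc 5, .ofNat 0), (.ofNat 1, .ofNat 0), (.ofNat 0, .ofNat 0), (.ofNat 0, .ofNat 0), (.ofNat 0, .ofNat 0)], [(.ofNat 1, .ofNat 0), (.negSucc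 4, .ofNat 0), (.ofNat 10, .ofNat 0), (.negSucc 9, .ofNat 0), (.ofNat 5, .ofNat 0), (.negSucc 0, .ofNat 0), (.ofNat 0, .ofNat 0), (.ofNat 0, .ofNat 0), (.ofNat 0, .ofNat 0), (.ofNat 0, .ofNat 0)], [(.ofNat 1, .ofNat 0), (.negSucc 3, .ofNat 0), (.ofNat 6, .ofNat 0), (.negSucc 3, .ofNat 0), (.ofNat 1, .ofNat 0), (.ofNat 0, .ofNat 0), (.ofNat 0, .ofNat 0), (.ofNat 0, .ofNat 0), (.ofNat 0, .ofNat 0), (.ofNat 0, .ofNat 0)], [(.ofNat 1, .ofNat 0), (.negSucc 2, .ofNat 0), (.ofNat 3, .ofNat 0), (.negSucc 0, .ofNat 0), (.ofNat 0, .ofNat 0), (.ofNat 0, .ofNat 0), (.ofNat 0, .ofNat 0), (.ofNat 0, .ofNat 0), (.ofNat 0, .ofNat 0), (.ofNat 0, .ofNat 0)], [(.ofNat 1, .ofNat 0), (.negSucc 1, .ofNat 0), (.ofNat 1, .ofNat 0), (.ofNat 0, .ofNat 0), (.ofNat 0, .ofNat 0), (.ofNat 0, .ofNat 0), (.ofNat 0, .ofNat 0), (.ofNat 0, .ofNat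 0), (.ofNat 0, .ofNat 0), (.ofNat 0, .ofNat 0)], [(.ofNat 1, .ofNat 0), (.negSucc 0, .ofNat 0), (.ofNat 0, .ofNat 0), (.ofNat 0, .ofNat 0), (.ofNat 0, .ofNat 0), (.ofNat 0, .ofNat 0), (.ofNat 0, .ofNat 0), (.ofNat 0, .ofNat 0), (.ofNat 0, .ofNat 0), (.ofNat 0, .ofNat 0)], [(.ofNat 1, .ofNat 0), (.ofNat 0, .ofNat 0), (.ofNat 0, .ofNat 0), (.ofNat 0, .ofNat 0), (.ofNat 0, .ofNat 0), (.ofNat 0, .ofNat 0), (.ofNat 0, .ofNat 0), (.ofNat 0, .ofNat 0), (.ofNat 0, .ofNat 0), (.ofNat 0, .ofNat 0)]], [[(.ofNat 0, .ofNat 0), (.ofNat 0, .ofNat 0), (.ofNat 0, .ofNat 0), (.ofNat 0, .ofNat 0), (.ofNat 0, .ofNat 0), (.ofNat 0, .ofNat 0), (.ofNat 0, .ofNat 0), (.ofNat 0, .ofNat 0), (.ofNat 0, .ofNat 0), (.negSucc 0, .ofNat 0)], [(.ofNat 0, .ofNat 0), (.ofNat 0, .ofNat 0), (.ofNat 0, .ofNat 0), (.ofNat 0, .ofNat 0), (.ofNat 0,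 .ofNat 0), (.ofNat 0, .ofNat 0), (.ofNat 0, .ofNat 0), (.ofNat 0, .ofNat 0), (.ofNat 1, .ofNat 0), (.negSucc 0, .ofNat 0)], [(.ofNat 0, .ofNat 0), (.ofNat 0, .ofNat 0), (.ofNat 0, .ofNat 0), (.ofNat 0, .ofNat 0), (.ofNat 0, .ofNat 0), (.ofNat 0, .ofNat 0), (.ofNat 0, .ofNat 0), (.negSucc 0, .ofNat 0), (.ofNat 2, .ofNat 0), (.negSucc 0, .ofNat 0)], [(.ofNat 0, .ofNat 0), (.ofNat 0, .ofNat 0), (.ofNat 0, .ofNat 0), (.ofNat 0, .ofNat 0), (.ofNat 0, .ofNat 0), (.ofNat 0, .ofNat 0), (.ofNat 1, .ofNat 0), (.negSucc 2, .ofNat 0), (.ofNat 3, .ofNat 0), (.negSucc 0, .ofNat 0)], [(.ofNat 0, .ofNat 0), (.ofNat 0, .ofNat 0), (.ofNat 0, .ofNat 0), (.ofNat 0, .ofNat 0), (.ofNat 0, .ofNat 0), (.negSucc 0, .ofNat 0), (.ofNat 4, .ofNat 0), (.negSucc 5, .ofNat 0), (.ofNat 4, .ofNat 0), (.negSucc 0, .ofNat 0)], [(.ofNat 0, .ofNat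 0), (.ofNat 0, .ofNat 0), (.ofNat 0, .ofNat 0), (.ofNat 0, .ofNat 0), (.ofNat 1, .ofNat 0), (.negSucc 4, .ofNat 0), (.ofNat 10, .ofNat 0), (.negSucc 9, .ofNat 0), (.ofNat 5, .ofNat 0), (.negSucc 0, .ofNat 0)], [(.ofNat 0, .ofNat 0), (.ofNat 0, .ofNat 0), (.ofNat 0, .ofNat 0), (.negSucc 0, .ofNat 0), (.ofNat 6, .ofNat 0), (.negSucc 14, .ofNat 0), (.ofNat 20, .ofNat 0), (.negSucc 14, .ofNat 0), (.ofNat 6, .ofNat 0), (.negSucc 0, .ofNat 0)], [(.ofNat 0, .ofNat 0), (.ofNat 0, .ofNat 0), (.ofNat 1, .ofNat 0), (.negSucc 6, .ofNat 0), (.ofNat 21, .ofNat 0), (.negSucc 34, .ofNat 0), (.ofNat 35, .ofNat 0), (.negSucc 20, .ofNat 0), (.ofNat 7, .ofNat 0), (.negSucc 0, .ofNat 0)], [(.ofNat 0, .ofNat 0), (.negSucc 0, .ofNat 0), (.ofNat 8, .ofNat 0), (.negSucc 27, .ofNat 0), (.ofNat 56, .ofNat 0), (.negSucc 69, .ofNat 0),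 (.ofNat 56, .ofNat 0), (.negSucc 27, .ofNat 0), (.ofNat 8, .ofNat 0), (.negSucc 0, .ofNat 0)], [(.ofNat 1, .ofNat 0), (.negSucc 8, .ofNat 0), (.ofNat 36, .ofNat 0), (.negSucc 83, .ofNat 0), (.ofNat 126, .ofNat 0), (.negSucc 125, .ofNat 0), (.ofNat 84, .ofNat 0), (.negSucc 35, .ofNat 0), (.ofNat 9, .ofNat 0), (.negSucc 0, .ofNat 0)]]]
  tab1 := [[[(.ofNat 1, .ofNat 0), (.ofNat 0, .ofNat 0), (.ofNat 0, .ofNat 0), (.ofNat 0, .ofNat 0), (.ofNat 0, .ofNat 0), (.ofNat 0, .ofNat 0), (.ofNat 0, .ofNat 0), (.ofNat 0, .ofNat 0), (.ofNat 0, .ofNat 0), (.ofNat 0, .ofNat 0)], [(.ofNat 0, .ofNat 0), (.ofNat 1, .ofNat 0), (.ofNat 0, .ofNat 0), (.ofNat 0, .ofNat 0), (.ofNat 0, .ofNat 0), (.ofNat 0, .ofNat 0), (.ofNat 0, .ofNat 0), (.ofNat 0, .ofNat 0), (.ofNat 0, .ofNat 0), (.ofNat 0, .ofNat 0)], [(.ofNat 0, .ofNat 0), (.ofNat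 0, .ofNat 0), (.ofNat 1, .ofNat 0), (.ofNat 0, .ofNat 0), (.ofNat 0, .ofNat 0), (.ofNat 0, .ofNat 0), (.ofNat 0, .ofNat 0), (.ofNat 0, .ofNat 0), (.ofNat 0, .ofNat 0), (.ofNat 0, .ofNat 0)], [(.ofNat 0, .ofNat 0), (.ofNat 0, .ofNat 0), (.ofNat 0, .ofNat 0), (.ofNat 1, .ofNat 0), (.ofNat 0, .ofNat 0), (.ofNat 0, .ofNat 0), (.ofNat 0, .ofNat 0), (.ofNat 0, .ofNat 0), (.ofNat 0, .ofNat 0), (.ofNat 0, .ofNat 0)], [(.ofNat 0, .ofNat 0), (.ofNat 0, .ofNat 0), (.ofNat 0, .ofNat 0), (.ofNat 0, .ofNat 0), (.ofNat 1, .ofNat 0), (.ofNat 0, .ofNat 0), (.ofNat 0, .ofNat 0), (.ofNat 0, .ofNat 0), (.ofNat 0, .ofNat 0), (.ofNat 0, .ofNat 0)], [(.ofNat 0, .ofNat 0), (.ofNat 0, .ofNat 0), (.ofNat 0, .ofNat 0), (.ofNat 0, .ofNat 0), (.ofNat 0, .ofNat 0), (.ofNat 1, .ofNat 0), (.ofNat 0, .ofNat 0), (.ofNat 0, .ofNat 0), (.ofNat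 0, .ofNat 0), (.ofNat 0, .ofNat 0)], [(.ofNat 0, .ofNat 0), (.ofNat 0, .ofNat 0), (.ofNat 0, .ofNat 0), (.ofNat 0, .ofNat 0), (.ofNat 0, .ofNat 0), (.ofNat 0, .ofNat 0), (.ofNat 1, .ofNat 0), (.ofNat 0, .ofNat 0), (.ofNat 0, .ofNat 0), (.ofNat 0, .ofNat 0)], [(.ofNat 0, .ofNat 0), (.ofNat 0, .ofNat 0), (.ofNat 0, .ofNat 0), (.ofNat 0, .ofNat 0), (.ofNat 0, .ofNat 0), (.ofNat 0, .ofNat 0), (.ofNat 0, .ofNat 0), (.ofNat 1, .ofNat 0), (.ofNat 0, .ofNat 0), (.ofNat 0, .ofNat 0)], [(.ofNat 0, .ofNat 0), (.ofNat 0, .ofNat 0), (.ofNat 0, .ofNat 0), (.ofNat 0, .ofNat 0), (.ofNat 0, .ofNat 0), (.ofNat 0, .ofNat 0), (.ofNat 0, .ofNat 0), (.ofNat 0, .ofNat 0), (.ofNat 1, .ofNat 0), (.ofNat 0, .ofNat 0)], [(.ofNat 0, .ofNat 0), (.ofNat 0, .ofNat 0), (.ofNat 0, .ofNat 0), (.ofNat 0, .ofNat 0), (.ofNat 0, .ofNat 0), (.ofNat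 0, .ofNat 0), (.ofNat 0, .ofNat 0), (.ofNat 0, .ofNat 0), (.ofNat 0, .ofNat 0), (.ofNat 1, .ofNat 0)]], [[(.ofNat 6, .negSucc 16), (.negSucc 125, .negSucc 26), (.negSucc 359, .ofNat 252), (.ofNat 168, .ofNat 420), (.ofNat 756, .negSucc 125), (.ofNat 252, .negSucc 377), (.negSucc 167, .negSucc 83), (.negSucc 71, .ofNat 36), (.ofNat 0, .ofNat 9), (.ofNat 1, .ofNat 0)], [(.negSucc 13, .negSucc 2), (.negSucc 79, .ofNat 56), (.ofNat 56, .ofNat 140), (.ofNat 336, .negSucc 55), (.ofNat 140, .negSucc 209), (.negSucc 111, .negSucc 55), (.negSucc 55, .ofNat 28), (.ofNat 0, .ofNat 8), (.ofNat 1, .ofNat 0), (.ofNat 0, .ofNat 0)], [(.negSucc 9, .ofNat 7), (.ofNat 14, .ofNat 35), (.ofNat 126, .negSucc 20), (.ofNat 70, .negSucc 104), (.negSucc 69, .negSucc 34), (.negSucc 41, .ofNat 21), (.ofNat 0, .ofNat 7), (.ofNat 1, .ofNat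 0), (.ofNat 0, .ofNat 0), (.ofNat 0, .ofNat 0)], [(.ofNat 2, .ofNat 5), (.ofNat 36, .negSucc 5), (.ofNat 30, .negSucc 44), (.negSucc 39, .negSucc 19), (.negSucc 29, .ofNat 15), (.ofNat 0, .ofNat 6), (.ofNat 1, .ofNat 0), (.ofNat 0, .ofNat 0), (.ofNat 0, .ofNat 0), (.ofNat 0, .ofNat 0)], [(.ofNat 6, .negSucc 0), (.ofNat 10, .negSucc 14), (.negSucc 19, .negSucc 9), (.negSucc 19, .ofNat 10), (.ofNat 0, .ofNat 5), (.ofNat 1, .ofNat 0), (.ofNat 0, .ofNat 0), (.ofNat 0, .ofNat 0), (.ofNat 0, .ofNat 0), (.ofNat 0, .ofNat 0)], [(.ofNat 2, .negSucc 2), (.negSucc 7, .negSucc 3), (.negSucc 11, .ofNat 6), (.ofNat 0, .ofNat 4), (.ofNat 1, .ofNat 0), (.ofNat 0, .ofNat 0), (.ofNat 0, .ofNat 0), (.ofNat 0, .ofNat 0), (.ofNat 0, .ofNat 0), (.ofNat 0, .ofNat 0)], [(.negSucc 1, .negSucc 0), (.negSucc 5, .ofNat 3), (.ofNat 0, .ofNat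 3), (.ofNat 1, .ofNat 0), (.ofNat 0, .ofNat 0), (.ofNat 0, .ofNat 0), (.ofNat 0, .ofNat 0), (.ofNat 0, .ofNat 0), (.ofNat 0, .ofNat 0), (.ofNat 0, .ofNat 0)], [(.negSucc 1, .ofNat 1), (.ofNat 0, .ofNat 2), (.ofNat 1, .ofNat 0), (.ofNat 0, .ofNat 0), (.ofNat 0, .ofNat 0), (.ofNat 0, .ofNat 0), (.ofNat 0, .ofNat 0), (.ofNat 0, .ofNat 0), (.ofNat 0, .ofNat 0), (.ofNat 0, .ofNat 0)], [(.ofNat 0, .ofNat 1), (.ofNat 1, .ofNat 0), (.ofNat 0, .ofNat 0), (.ofNat 0, .ofNat 0), (.ofNat 0, .ofNat 0), (.ofNat 0, .ofNat 0), (.ofNat 0, .ofNat 0), (.ofNat 0, .ofNat 0), (.ofNat 0, .ofNat 0), (.ofNat 0, .ofNat 0)], [(.ofNat 1, .ofNat 0), (.ofNat 0, .ofNat 0), (.ofNat 0, .ofNat 0), (.ofNat 0, .ofNat 0), (.ofNat 0, .ofNat 0), (.ofNat 0, .ofNat 0), (.ofNat 0, .ofNat 0), (.ofNat 0, .ofNat 0), (.ofNat 0, .ofNat 0), (.ofNat 0, .ofNat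 0)]], [[(.ofNat 1, .ofNat 0), (.ofNat 9, .negSucc 8), (.negSucc 35, .negSucc 35), (.negSucc 251, .ofNat 84), (.negSucc 125, .ofNat 378), (.ofNat 630, .ofNat 126), (.ofNat 588, .negSucc 419), (.negSucc 107, .negSucc 251), (.negSucc 152, .ofNat 27), (.negSucc 10, .ofNat 17)], [(.ofNat 0, .ofNat 1), (.ofNat 17, .ofNat 0), (.ofNat 64, .negSucc 63), (.negSucc 139, .negSucc 139), (.negSucc 587, .ofNat 196), (.negSucc 181, .ofNat 546), (.ofNat 560, .ofNat 112), (.ofNat 308, .negSucc 219), (.negSucc 29, .negSucc 69), (.negSucc 16, .ofNat 3)], [(.negSucc 1, .ofNat 1), (.ofNat 0, .ofNat 16), (.ofNat 113, .ofNat 0), (.ofNat 231, .negSucc 230), (.negSucc 300, .negSucc 300), (.negSucc 776, .ofNat 259), (.negSucc 146, .ofNat 441), (.ofNat 265, .ofNat 53), (.ofNat 77, .negSucc 54), (.negSucc 2, .negSucc 6)], [(.negSucc 1,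 .negSucc 0), (.negSucc 29, .ofNat 15), (.ofNat 0, .ofNat 99), (.ofNat 377, .ofNat 0), (.ofNat 456, .negSucc 455), (.negSucc 362, .negSucc 362), (.negSucc 569, .ofNat 190), (.negSucc 62, .ofNat 189), (.ofNat 60, .ofNat 12), (.ofNat 7, .negSucc 4)], [(.ofNat 2, .negSucc 2), (.negSucc 27, .negSucc 13), (.negSucc 171, .ofNat 86), (.ofNat 0, .ofNat 304), (.ofNat 681, .ofNat 0), (.ofNat 501, .negSucc 500), (.negSucc 241, .negSucc 241), (.negSucc 221, .ofNat 74), (.negSucc 12, .ofNat 39), (.ofNat 5, .ofNat 1)], [(.ofNat 6, .negSucc 0), (.ofNat 26, .negSucc 38), (.negSucc 147, .negSucc 73), (.negSucc 483, .ofNat 242), (.ofNat 0, .ofNat 501), (.ofNat 681, .ofNat 0), (.ofNat 304, .negSucc 303), (.negSucc 85, .negSucc 85), (.negSucc 41, .ofNat 14), (.negSucc 0, .ofNat 3)], [(.ofNat 2, .ofNat 5), (.ofNat 72, .negSucc 11),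 (.ofNat 126, .negSucc 188), (.negSucc 379, .negSucc 189), (.negSucc 725, .ofNat 363), (.ofNat 0, .ofNat 456), (.ofNat 377, .ofNat 0), (.ofNat 99, .negSucc 98), (.negSucc 14, .negSucc 14), (.negSucc 2, .ofNat 1)], [(.negSucc 9, .ofNat 7), (.ofNat 22, .ofNat 55), (.ofNat 318, .negSucc 52), (.ofNat 294, .negSucc 440), (.negSucc 517, .negSucc 258), (.negSucc 601, .ofNat 301), (.ofNat 0, .ofNat 231), (.ofNat 113, .ofNat 0), (.ofNat 16, .negSucc 15), (.negSucc 0, .negSucc 0)], [(.negSucc 13, .negSucc 2), (.negSucc 99, .ofNat 70), (.ofNat 88, .ofNat 220), (.ofNat 672, .negSucc 111), (.ofNat 364, .negSucc 545), (.negSucc 391, .negSucc 195), (.negSucc 279, .ofNat 140), (.ofNat 0, .ofNat 64), (.ofNat 17, .ofNat 0), (.ofNat 1, .negSucc 0)], [(.ofNat 6, .negSucc 16), (.negSucc 125, .negSucc 26), (.negSucc 359, .ofNat 252),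 (.ofNat 168, .ofNat 420), (.ofNat 756, .negSucc 125), (.ofNat 252, .negSucc 377), (.negSucc 167, .negSucc 83), (.negSucc 71, .ofNat 36), (.ofNat 0, .ofNat 9), (.ofNat 1, .ofNat 0)]], [[(.ofNat 0, .ofNat 0), (.ofNat 0, .ofNat 0), (.ofNat 0, .ofNat 0), (.ofNat 0, .ofNat 0), (.ofNat 0, .ofNat 0), (.ofNat 0, .ofNat 0), (.ofNat 0, .ofNat 0), (.ofNat 0, .ofNat 0), (.ofNat 0, .ofNat 0), (.ofNat 1, .ofNat 0)], [(.ofNat 0, .ofNat 0), (.ofNat 0, .ofNat 0), (.ofNat 0, .ofNat 0), (.ofNat 0, .ofNat 0), (.ofNat 0, .ofNat 0), (.ofNat 0, .ofNat 0), (.ofNat 0, .ofNat 0), (.ofNat 0, .ofNat 0), (.ofNat 1, .ofNat 0), (.ofNat 1, .negSucc 0)], [(.ofNat 0, .ofNat 0), (.ofNat 0, .ofNat 0), (.ofNat 0, .ofNat 0), (.ofNat 0, .ofNat 0), (.ofNat 0, .ofNat 0), (.ofNat 0, .ofNat 0), (.ofNat 0, .ofNat 0), (.ofNat 1, .ofNat 0), (.ofNat 2, .negSucc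 1), (.negSucc 0, .negSucc 0)], [(.ofNat 0, .ofNat 0), (.ofNat 0, .ofNat 0), (.ofNat 0, .ofNat 0), (.ofNat 0, .ofNat 0), (.ofNat 0, .ofNat 0), (.ofNat 0, .ofNat 0), (.ofNat 1, .ofNat 0), (.ofNat 3, .negSucc 2), (.negSucc 2, .negSucc 2), (.negSucc 2, .ofNat 1)], [(.ofNat 0, .ofNat 0), (.ofNat 0, .ofNat 0), (.ofNat 0, .ofNat 0), (.ofNat 0, .ofNat 0), (.ofNat 0, .ofNat 0), (.ofNat 1, .ofNat 0), (.ofNat 4, .negSucc 3), (.negSucc 5, .negSucc 5), (.negSucc 11, .ofNat 4), (.negSucc 0, .ofNat 3)], [(.ofNat 0, .ofNat 0), (.ofNat 0, .ofNat 0), (.ofNat 0, .ofNat 0), (.ofNat 0, .ofNat 0), (.ofNat 1, .ofNat 0), (.ofNat 5, .negSucc 4), (.negSucc 9, .negSucc 9), (.negSucc 29, .ofNat 10), (.negSucc 4, .ofNat 15), (.ofNat 5, .ofNat 1)], [(.ofNat 0, .ofNat 0), (.ofNat 0, .ofNat 0), (.ofNat 0, .ofNat 0), (.ofNat 1, .ofNat 0), (.ofNat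 6, .negSucc 5), (.negSucc 14, .negSucc 14), (.negSucc 59, .ofNat 20), (.negSucc 14, .ofNat 45), (.ofNat 30, .ofNat 6), (.ofNat 7, .negSucc 4)], [(.ofNat 0, .ofNat 0), (.ofNat 0, .ofNat 0), (.ofNat 1, .ofNat 0), (.ofNat 7, .negSucc 6), (.negSucc 20, .negSucc 20), (.negSucc 104, .ofNat 35), (.negSucc 34, .ofNat 105), (.ofNat 105, .ofNat 21), (.ofNat 49, .negSucc 34), (.negSucc 2, .negSucc 6)], [(.ofNat 0, .ofNat 0), (.ofNat 1, .ofNat 0), (.ofNat 8, .negSucc 7), (.negSucc 27, .negSucc 27), (.negSucc 167, .ofNat 56), (.negSucc 69, .ofNat 210), (.ofNat 280, .ofNat 56), (.ofNat 196, .negSucc 139), (.negSucc 23, .negSucc 55), (.negSucc 16, .ofNat 3)], [(.ofNat 1, .ofNat 0), (.ofNat 9, .negSucc 8), (.negSucc 35, .negSucc 35), (.negSucc 251, .ofNat 84), (.negSucc 125, .ofNat 378), (.ofNat 630, .ofNat 126), (.ofNat 588,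 .negSucc 419), (.negSucc 107, .negSucc 251), (.negSucc 152, .ofNat 27), (.negSucc 10, .ofNat 17)]]]
  rws := [(0, 0, 1, 0), (0, 0, 3, 0), (0, 0, 7, 0), (0, 0, 8, 0), (0, 0, 9, 0), (0, 1, 2, 0), (0, 1, 7, 0), (0, 1, 8, 0), (0, 2, 7, 0), (1, 0, 9, 1)]
  cols := [((0, 2), [.ofNat 4, .ofNat 56, .ofNat 56, .negSucc 15, .ofNat 2, .ofNat 72, .negSucc 431, .ofNat 126, .ofNat 1440, .negSucc 45]), ((0, 4), [.ofNat 8, .ofNat 78, .ofNat 46, .negSucc 13, .ofNat 2, .ofNat 90, .negSucc 269, .ofNat 90, .ofNat 720, .ofNat 2]), ((0, 6), [.ofNat 12, .ofNat 103, .ofNat 39, .negSucc 11, .ofNat 2, .ofNat 81, .negSucc 134, .ofNat 54, .ofNat 216, .ofNat 178]), ((0, 8), [.ofNat 16, .ofNat 140, .ofNat 44, .negSucc 9, .ofNat 2, .ofNat 36, .negSucc 35, .ofNat 18, .ofNat 0, .negSucc 541]), ((1, 3), [.ofNat 4, .ofNat 37, .ofNat 8, .negSucc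 0, .ofNat 0, .ofNat 51, .negSucc 62, .ofNat 12, .ofNat 240, .negSucc 31]), ((1, 5), [.ofNat 8, .ofNat 62, .ofNat 8, .negSucc 0, .ofNat 0, .ofNat 74, .negSucc 37, .ofNat 8, .ofNat 96, .ofNat 0]), ((1, 7), [.ofNat 12, .ofNat 91, .ofNat 9, .negSucc 0, .ofNat 0, .ofNat 69, .negSucc 16, .ofNat 4, .ofNat 16, .ofNat 176]), ((2, 4), [.ofNat 4, .ofNat 29, .ofNat 1, .ofNat 0, .ofNat 0, .ofNat 43, .negSucc 4, .ofNat 0, .ofNat 20, .negSucc 31]), ((2, 6), [.ofNat 8, .ofNat 54, .ofNat 1, .ofNat 0, .ofNat 0, .ofNat 66, .negSucc 2, .ofNat 0, .ofNat 6, .ofNat 0]), ((3, 5), [.ofNat 4, .ofNat 25, .ofNat 0, .ofNat 0, .ofNat 0, .ofNat 39, .ofNat 0, .ofNat 0, .ofNat 0, .negSucc 31])]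
  tg := [((0, 2), .ofNat 1260, [.ofNat 76107, .negSucc 17393, .ofNat 107184, .ofNat 715008, .ofNat 1634817, .ofNat 3898, .ofNat 12048, .ofNat 57836, .ofNat 352, .ofNat 675]), ((0, 4), .ofNat 720, [.negSucc 55895, .ofNat 12762, .negSucc 78431, .negSucc 522863, .negSucc 1196180, .negSucc 2853, .negSucc 8783, .negSucc 42187, .negSucc 255, .negSucc 494]), ((0, 6), .ofNat 1440, [.ofNat 25392, .negSucc 5783, .ofNat 35184, .ofNat 234048, .ofNat 537267, .ofNat 1288, .ofNat 3888, .ofNat 18716, .ofNat 112, .ofNat 225]), ((0, 8), .ofNat 10080, [.negSucc 4055, .ofNat 972, .negSucc 5711, .negSucc 38303, .negSucc 87830, .negSucc 243, .negSucc 623, .negSucc 3067, .negSucc 15, .negSucc 44]), ((1, 3), .ofNat 240, [.negSucc 55735, .ofNat 12752, .negSucc 78751, .negSucc 525663, .negSucc 1201380, .negSucc 2863, .negSucc 8863, .negSucc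 42587, .negSucc 255, .negSucc 494]), ((1, 5), .ofNat 480, [.ofNat 76536, .negSucc 17471, .ofNat 107472, .ofNat 717024, .ofNat 1639041, .ofNat 3904, .ofNat 11984, .ofNat 57868, .ofNat 336, .ofNat 675]), ((1, 7), .ofNat 3360, [.negSucc 48263, .ofNat 10848, .negSucc 64847, .negSucc 435455, .negSucc 1006358, .negSucc 2335, .negSucc 6735, .negSucc 34051, .negSucc 143, .negSucc 404]), ((2, 4), .ofNat 48, [.ofNat 15036, .negSucc 3455, .ofNat 21456, .ofNat 143232, .ofNat 327321, .ofNat 784, .ofNat 2432, .ofNat 11632, .ofNat 72, .ofNat 135]), ((2, 6), .ofNat 60, [.negSucc 4985, .ofNat 1152, .negSucc 7151, .negSucc 47423, .negSucc 107900, .negSucc 263, .negSucc 823, .negSucc 3877, .negSucc 25, .negSucc 44]), ((3, 5), .ofNat 240, [.negSucc 35231, .ofNat 8064, .negSucc 50063, .negSucc 335807, .negSucc 769616, .negSucc 1807,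 .negSucc 5567, .negSucc 27075, .negSucc 151, .negSucc 314])]

theorem NIT_2_1_9 (l : ℕ) (hlp : l.Prime) (hl2 : l ≠ 2) (hls : ¬ l ∣ 7) (hE : ¬ l ∣ 7)
    (hj : 9 < l) : NUMA_stmt 2 1 l 9 :=
  @NI_fin 2 1 7 1 7 9 (by norm_num) NIC_2_1_9 (by decide +kernel) (by decide +kernel)
    (by decide +kernel) (by decide +kernel) l hlp hl2 hls hE hj

end Pool.Agent.OE
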