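import Pool.Agent.helper21.OE.NID

/-!
# Project OE: certificates over the integers
-/

namespace Pool.Agent.OE

set_option maxRecDepth 100000

/-- certificate, `d = 3`, `t = 1`, `j = 1` -/
def NIC_3_1_1 : NI_Cert where
  tab0 := [[[(.ofNat 1, .ofNat 0), (.ofNat 0, .ofNat 0)], [(.ofNat 0, .ofNat 0), (.ofNat 1, .ofNat 0)]], [[(.ofNat 1, .ofNat 0), (.negSucc 0, .ofNat 0)], [(.ofNat 1, .ofNat 0), (.ofNat 0, .ofNat 0)]], [[(.ofNat 0, .ofNat 0), (.negSucc 0, .ofNat 0)], [(.ofNat 1, .ofNat 0), (.negSucc 0, .ofNat 0)]]]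
  tab1 := [[[(.ofNat 1, .ofNat 0), (.ofNat 0, .ofNat 0)], [(.ofNat 0, .ofNat 0), (.ofNat 1, .ofNat 0)]], [[(.ofNat 1, .negSucc 0), (.ofNat 1, .ofNat 0)], [(.ofNat 1, .ofNat 0), (.ofNat 0, .ofNat 0)]], [[(.ofNat 2, .ofNat 0), (.ofNat 0, .ofNat 1)], [(.ofNat 1, .negSucc 0), (.ofNat 1, .ofNat 0)]], [[(.ofNat 1, .negSucc 0), (.ofNat 2, .ofNat 0)], [(.ofNat 2, .ofNat 0), (.ofNat 0, .ofNat 1)]], [[(.ofNat 1, .ofNat 0), (.ofNat 0, .ofNat 1)], [(.ofNat 1, .negSucc 0), (.ofNat 2, .ofNat 0)]], [[(.ofNat 0, .ofNat 0), (.ofNat 1, .ofNat 0)], [(.ofNat 1, .ofNat 0), (.ofNat 0, .ofNat 1)]]]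
  rws := []
  cols := []
  tg := []

theorem NIT_3_1_1 (l : ℕ) (hlp : l.Prime) (hl2 : l ≠ 2) (hls : ¬ l ∣ 11) (hE : ¬ l ∣ 11)
    (hj : 1 < l) : NUMA_stmt 3 1 l 1 :=
  @NI_fin 3 1 11 1 11 1 (by norm_num) NIC_3_1_1 (by decide +kernel) (by decide +kernel)
    (by decide +kernel) (by decide +kernel) l hlp hl2 hls hE hj

/-- certificate, `d = 3`, `t = 1`, `j = 2` -/
def NIC_3_1_2 : NI_Cert where
  tab0 := [[[(.ofNat 1, .ofNat 0), (.ofNat 0, .ofNat 0), (.ofNat 0, .ofNat 0)], [(.ofNat 0, .ofNat 0), (.ofNat 1, .ofNat 0), (.ofNat 0, .ofNat 0)], [(.ofNat 0, .ofNat 0), (.ofNat 0, .ofNat 0), (.ofNat 1, .ofNat 0)]], [[(.ofNat 1, .ofNat 0), (.negSucc 1, .ofNat 0), (.ofNat 1, .ofNat 0)], [(.ofNat 1, .ofNat 0), (.negSucc 0, .ofNat 0), (.ofNat 0, .ofNat 0)], [(.ofNat 1, .ofNat 0), (.ofNat 0, .ofNat 0), (.ofNat 0, .ofNat 0)]], [[(.ofNat 0, .ofNat 0),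 (.ofNat 0, .ofNat 0), (.ofNat 1, .ofNat 0)], [(.ofNat 0, .ofNat 0), (.negSucc 0, .ofNat 0), (.ofNat 1, .ofNat 0)], [(.ofNat 1, .ofNat 0), (.negSucc 1, .ofNat 0), (.ofNat 1, .ofNat 0)]]]
  tab1 := [[[(.ofNat 1, .ofNat 0), (.ofNat 0, .ofNat 0), (.ofNat 0, .ofNat 0)], [(.ofNat 0, .ofNat 0), (.ofNat 1, .ofNat 0), (.ofNat 0, .ofNat 0)], [(.ofNat 0, .ofNat 0), (.ofNat 0, .ofNat 0), (.ofNat 1, .ofNat 0)]], [[(.negSucc 1, .negSucc 0), (.ofNat 2, .negSucc 1), (.ofNat 1, .ofNat 0)], [(.ofNat 1, .negSucc 0), (.ofNat 1, .ofNat 0), (.ofNat 0, .ofNat 0)], [(.ofNat 1, .ofNat 0), (.ofNat 0, .ofNat 0), (.ofNat 0, .ofNat 0)]], [[(.ofNat 4, .ofNat 0), (.ofNat 0, .ofNat 4), (.negSucc 2, .ofNat 1)], [(.ofNat 2, .negSucc 1), (.ofNat 5, .ofNat 0), (.ofNat 0, .ofNat 1)], [(.negSucc 1, .negSucc 0), (.ofNat 2, .negSucc 1), (.ofNat 1, .ofNat 0)]], [[(.negSucc 1,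 .negSucc 0), (.ofNat 4, .negSucc 3), (.ofNat 4, .ofNat 0)], [(.ofNat 2, .negSucc 1), (.ofNat 7, .ofNat 0), (.ofNat 0, .ofNat 2)], [(.ofNat 4, .ofNat 0), (.ofNat 0, .ofNat 4), (.negSucc 2, .ofNat 1)]], [[(.ofNat 1, .ofNat 0), (.ofNat 0, .ofNat 2), (.negSucc 2, .ofNat 1)], [(.ofNat 1, .negSucc 0), (.ofNat 5, .ofNat 0), (.ofNat 0, .ofNat 2)], [(.negSucc 1, .negSucc 0), (.ofNat 4, .negSucc 3), (.ofNat 4, .ofNat 0)]], [[(.ofNat 0, .ofNat 0), (.ofNat 0, .ofNat 0), (.ofNat 1, .ofNat 0)], [(.ofNat 0, .ofNat 0), (.ofNat 1, .ofNat 0), (.ofNat 0, .ofNat 1)], [(.ofNat 1, .ofNat 0), (.ofNat 0, .ofNat 2), (.negSucc 2, .ofNat 1)]]]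
  rws := [(0, 0, 2, 0)]
  cols := [((0, 2), [.negSucc 1])]
  tg := [((0, 2), .ofNat 1, [.negSucc 0])]

theorem NIT_3_1_2 (l : ℕ) (hlp : l.Prime) (hl2 : l ≠ 2) (hls : ¬ l ∣ 11) (hE : ¬ l ∣ 11)
    (hj : 2 < l) : NUMA_stmt 3 1 l 2 :=
  @NI_fin 3 1 11 1 11 2 (by norm_num) NIC_3_1_2 (by decide +kernel) (by decide +kernel)
    (by decide +kernel) (by decide +kernel) l hlp hl2 hls hE hj

/-- certificate, `d = 3`, `t = 1`, `j = 3` -/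
def NIC_3_1_3 : NI_Cert where
  tab0 := [[[(.ofNat 1, .ofNat 0), (.ofNat 0, .ofNat 0), (.ofNat 0, .ofNat 0), (.ofNat 0, .ofNat 0)], [(.ofNat 0, .ofNat 0), (.ofNat 1, .ofNat 0), (.ofNat 0, .ofNat 0), (.ofNat 0, .ofNat 0)], [(.ofNat 0, .ofNat 0), (.ofNat 0, .ofNat 0), (.ofNat 1, .ofNat 0), (.ofNat 0, .ofNat 0)], [(.ofNat 0, .ofNat 0), (.ofNat 0, .ofNat 0), (.ofNat 0, .ofNat 0), (.ofNat 1, .ofNat 0)]], [[(.ofNat 1, .ofNat 0), (.negSucc 2, .ofNat 0), (.ofNat 3, .ofNat 0), (.negSucc 0, .ofNat 0)], [(.ofNat 1, .ofNat 0), (.negSucc 1, .ofNat 0), (.ofNat 1, .ofNat 0), (.ofNat 0, .ofNat 0)], [(.ofNat 1, .ofNat 0), (.negSucc 0, .ofNat 0), (.ofNat 0, .ofNat 0), (.ofNat 0, .ofNat 0)], [(.ofNat 1, .ofNat 0), (.ofNat 0, .ofNat 0), (.ofNat 0, .ofNat 0), (.ofNat 0, .ofNat 0)]], [[(.ofNat 0, .ofNat 0), (.ofNat 0, .ofNat 0), (.ofNat 0, .ofNat 0), (.negSucc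 0, .ofNat 0)], [(.ofNat 0, .ofNat 0), (.ofNat 0, .ofNat 0), (.ofNat 1, .ofNat 0), (.negSucc 0, .ofNat 0)], [(.ofNat 0, .ofNat 0), (.negSucc 0, .ofNat 0), (.ofNat 2, .ofNat 0), (.negSucc 0, .ofNat 0)], [(.ofNat 1, .ofNat 0), (.negSucc 2, .ofNat 0), (.ofNat 3, .ofNat 0), (.negSucc 0, .ofNat 0)]]]
  tab1 := [[[(.ofNat 1, .ofNat 0), (.ofNat 0, .ofNat 0), (.ofNat 0, .ofNat 0), (.ofNat 0, .ofNat 0)], [(.ofNat 0, .ofNat 0), (.ofNat 1, .ofNat 0), (.ofNat 0, .ofNat 0), (.ofNat 0, .ofNat 0)], [(.ofNat 0, .ofNat 0), (.ofNat 0, .ofNat 0), (.ofNat 1, .ofNat 0), (.ofNat 0, .ofNat 0)], [(.ofNat 0, .ofNat 0), (.ofNat 0, .ofNat 0), (.ofNat 0, .ofNat 0), (.ofNat 1, .ofNat 0)]], [[(.negSucc 4, .ofNat 2), (.negSucc 5, .negSucc 2), (.ofNat 3, .negSucc 2), (.ofNat 1, .ofNat 0)], [(.negSucc 1, .negSucc 0), (.ofNat 2, .negSucc 1), (.ofNat 1, .ofNat 0), (.ofNat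 0, .ofNat 0)], [(.ofNat 1, .negSucc 0), (.ofNat 1, .ofNat 0), (.ofNat 0, .ofNat 0), (.ofNat 0, .ofNat 0)], [(.ofNat 1, .ofNat 0), (.ofNat 0, .ofNat 0), (.ofNat 0, .ofNat 0), (.ofNat 0, .ofNat 0)]], [[(.ofNat 8, .ofNat 0), (.ofNat 0, .ofNat 12), (.negSucc 17, .ofNat 6), (.negSucc 2, .negSucc 1)], [(.ofNat 4, .negSucc 3), (.ofNat 16, .ofNat 0), (.ofNat 0, .ofNat 7), (.negSucc 2, .ofNat 1)], [(.negSucc 3, .negSucc 1), (.ofNat 7, .negSucc 6), (.ofNat 8, .ofNat 0), (.ofNat 0, .ofNat 1)], [(.negSucc 4, .ofNat 2), (.negSucc 5, .negSucc 2), (.ofNat 3, .negSucc 2), (.ofNat 1, .ofNat 0)]], [[(.negSucc 4, .ofNat 2), (.negSucc 11, .negSucc 5), (.ofNat 12, .negSucc 11), (.ofNat 8, .ofNat 0)], [(.negSucc 3, .negSucc 1), (.ofNat 11, .negSucc 10), (.ofNat 20, .ofNat 0), (.ofNat 0, .ofNat 4)], [(.ofNat 4, .negSucc 3), (.ofNat 20, .ofNat 0), (.ofNat 0,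 .ofNat 11), (.negSucc 5, .ofNat 2)], [(.ofNat 8, .ofNat 0), (.ofNat 0, .ofNat 12), (.negSucc 17, .ofNat 6), (.negSucc 2, .negSucc 1)]], [[(.ofNat 1, .ofNat 0), (.ofNat 0, .ofNat 3), (.negSucc 8, .ofNat 3), (.negSucc 2, .negSucc 1)], [(.ofNat 1, .negSucc 0), (.ofNat 8, .ofNat 0), (.ofNat 0, .ofNat 7), (.negSucc 5, .ofNat 2)], [(.negSucc 1, .negSucc 0), (.ofNat 7, .negSucc 6), (.ofNat 16, .ofNat 0), (.ofNat 0, .ofNat 4)], [(.negSucc 4, .ofNat 2), (.negSucc 11, .negSucc 5), (.ofNat 12, .negSucc 11), (.ofNat 8, .ofNat 0)]], [[(.ofNat 0, .ofNat 0), (.ofNat 0, .ofNat 0), (.ofNat 0, .ofNat 0), (.ofNat 1, .ofNat 0)], [(.ofNat 0, .ofNat 0), (.ofNat 0, .ofNat 0), (.ofNat 1, .ofNat 0), (.ofNat 0, .ofNat 1)], [(.ofNat 0, .ofNat 0), (.ofNat 1, .ofNat 0), (.ofNat 0, .ofNat 2), (.negSucc 2, .ofNat 1)], [(.ofNat 1, .ofNat 0), (.ofNat 0, .ofNat 3), (.negSucc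 8, .ofNat 3), (.negSucc 2, .negSucc 1)]]]
  rws := [(0, 0, 3, 0)]
  cols := [((0, 2), [.ofNat 2])]
  tg := [((0, 2), .ofNat 2, [.ofNat 1])]

theorem NIT_3_1_3 (l : ℕ) (hlp : l.Prime) (hl2 : l ≠ 2) (hls : ¬ l ∣ 11) (hE : ¬ l ∣ 11)
    (hj : 3 < l) : NUMA_stmt 3 1 l 3 :=
  @NI_fin 3 1 11 1 11 3 (by norm_num) NIC_3_1_3 (by decide +kernel) (by decide +kernel)
    (by decide +kernel) (by decide +kernel) l hlp hl2 hls hE hj

/-- certificate, `d = 3`, `t = 1`, `j = 4` -/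
def NIC_3_1_4 : NI_Cert where
  tab0 := [[[(.ofNat 1, .ofNat 0), (.ofNat 0, .ofNat 0), (.ofNat 0, .ofNat 0), (.ofNat 0, .ofNat 0), (.ofNat 0, .ofNat 0)], [(.ofNat 0, .ofNat 0), (.ofNat 1, .ofNat 0), (.ofNat 0, .ofNat 0), (.ofNat 0, .ofNat 0), (.ofNat 0, .ofNat 0)], [(.ofNat 0, .ofNat 0), (.ofNat 0, .ofNat 0), (.ofNat 1, .ofNat 0), (.ofNat 0, .ofNat 0), (.ofNat 0, .ofNat 0)], [(.ofNat 0, .ofNat 0), (.ofNat 0, .ofNat 0), (.ofNat 0, .ofNat 0), (.ofNat 1, .ofNat 0), (.ofNat 0, .ofNat 0)], [(.ofNat 0, .ofNat 0), (.ofNat 0, .ofNat 0), (.ofNat 0, .ofNat 0), (.ofNat 0, .ofNat 0), (.ofNat 1, .ofNat 0)]], [[(.ofNat 1, .ofNat 0), (.negSucc 3, .ofNat 0), (.ofNat 6, .ofNat 0), (.negSucc 3, .ofNat 0), (.ofNat 1, .ofNat 0)], [(.ofNat 1, .ofNat 0), (.negSucc 2, .ofNat 0), (.ofNat 3, .ofNat 0), (.negSucc 0, .ofNat 0), (.ofNat 0, .ofNat 0)], [(.ofNat 1,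 .ofNat 0), (.negSucc 1, .ofNat 0), (.ofNat 1, .ofNat 0), (.ofNat 0, .ofNat 0), (.ofNat 0, .ofNat 0)], [(.ofNat 1, .ofNat 0), (.negSucc 0, .ofNat 0), (.ofNat 0, .ofNat 0), (.ofNat 0, .ofNat 0), (.ofNat 0, .ofNat 0)], [(.ofNat 1, .ofNat 0), (.ofNat 0, .ofNat 0), (.ofNat 0, .ofNat 0), (.ofNat 0, .ofNat 0), (.ofNat 0, .ofNat 0)]], [[(.ofNat 0, .ofNat 0), (.ofNat 0, .ofNat 0), (.ofNat 0, .ofNat 0), (.ofNat 0, .ofNat 0), (.ofNat 1, .ofNat 0)], [(.ofNat 0, .ofNat 0), (.ofNat 0, .ofNat 0), (.ofNat 0, .ofNat 0), (.negSucc 0, .ofNat 0), (.ofNat 1, .ofNat 0)], [(.ofNat 0, .ofNat 0), (.ofNat 0, .ofNat 0), (.ofNat 1, .ofNat 0), (.negSucc 1, .ofNat 0), (.ofNat 1, .ofNat 0)], [(.ofNat 0, .ofNat 0), (.negSucc 0, .ofNat 0), (.ofNat 3, .ofNat 0), (.negSucc 2, .ofNat 0), (.ofNat 1, .ofNat 0)], [(.ofNat 1, .ofNat 0), (.negSucc 3, .ofNat 0), (.ofNat 6, .ofNat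 0), (.negSucc 3, .ofNat 0), (.ofNat 1, .ofNat 0)]]]
  tab1 := [[[(.ofNat 1, .ofNat 0), (.ofNat 0, .ofNat 0), (.ofNat 0, .ofNat 0), (.ofNat 0, .ofNat 0), (.ofNat 0, .ofNat 0)], [(.ofNat 0, .ofNat 0), (.ofNat 1, .ofNat 0), (.ofNat 0, .ofNat 0), (.ofNat 0, .ofNat 0), (.ofNat 0, .ofNat 0)], [(.ofNat 0, .ofNat 0), (.ofNat 0, .ofNat 0), (.ofNat 1, .ofNat 0), (.ofNat 0, .ofNat 0), (.ofNat 0, .ofNat 0)], [(.ofNat 0, .ofNat 0), (.ofNat 0, .ofNat 0), (.ofNat 0, .ofNat 0), (.ofNat 1, .ofNat 0), (.ofNat 0, .ofNat 0)], [(.ofNat 0, .ofNat 0), (.ofNat 0, .ofNat 0), (.ofNat 0, .ofNat 0), (.ofNat 0, .ofNat 0), (.ofNat 1, .ofNat 0)]], [[(.ofNat 1, .ofNat 5), (.negSucc 19, .ofNat 8), (.negSucc 11, .negSucc 5), (.ofNat 4, .negSucc 3), (.ofNat 1, .ofNat 0)], [(.negSucc 4, .ofNat 2), (.negSucc 5, .negSucc 2), (.ofNat 3, .negSucc 2), (.ofNat 1, .ofNat 0), (.ofNat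 0, .ofNat 0)], [(.negSucc 1, .negSucc 0), (.ofNat 2, .negSucc 1), (.ofNat 1, .ofNat 0), (.ofNat 0, .ofNat 0), (.ofNat 0, .ofNat 0)], [(.ofNat 1, .negSucc 0), (.ofNat 1, .ofNat 0), (.ofNat 0, .ofNat 0), (.ofNat 0, .ofNat 0), (.ofNat 0, .ofNat 0)], [(.ofNat 1, .ofNat 0), (.ofNat 0, .ofNat 0), (.ofNat 0, .ofNat 0), (.ofNat 0, .ofNat 0), (.ofNat 0, .ofNat 0)]], [[(.ofNat 16, .ofNat 0), (.ofNat 0, .ofNat 32), (.negSucc 71, .ofNat 24), (.negSucc 23, .negSucc 15), (.ofNat 6, .negSucc 4)], [(.ofNat 8, .negSucc 7), (.ofNat 44, .ofNat 0), (.ofNat 0, .ofNat 30), (.negSucc 26, .ofNat 9), (.negSucc 2, .negSucc 1)], [(.negSucc 7, .negSucc 3), (.ofNat 20, .negSucc 19), (.ofNat 37, .ofNat 0), (.ofNat 0, .ofNat 10), (.negSucc 2, .ofNat 1)], [(.negSucc 9, .ofNat 4), (.negSucc 17, .negSucc 8), (.ofNat 15, .negSucc 14), (.ofNat 11, .ofNat 0), (.ofNat 0,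 .ofNat 1)], [(.ofNat 1, .ofNat 5), (.negSucc 19, .ofNat 8), (.negSucc 11, .negSucc 5), (.ofNat 4, .negSucc 3), (.ofNat 1, .ofNat 0)]], [[(.ofNat 1, .ofNat 5), (.negSucc 39, .ofNat 16), (.negSucc 47, .negSucc 23), (.ofNat 32, .negSucc 31), (.ofNat 16, .ofNat 0)], [(.negSucc 9, .ofNat 4), (.negSucc 29, .negSucc 14), (.ofNat 42, .negSucc 41), (.ofNat 52, .ofNat 0), (.ofNat 0, .ofNat 8)], [(.negSucc 7, .negSucc 3), (.ofNat 28, .negSucc 27), (.ofNat 73, .ofNat 0), (.ofNat 0, .ofNat 28), (.negSucc 11, .ofNat 4)], [(.ofNat 8, .negSucc 7), (.ofNat 52, .ofNat 0), (.ofNat 0, .ofNat 42), (.negSucc 44, .ofNat 15), (.negSucc 5, .negSucc 3)], [(.ofNat 16, .ofNat 0), (.ofNat 0, .ofNat 32), (.negSucc 71, .ofNat 24), (.negSucc 23, .negSucc 15), (.ofNat 6, .negSucc 4)]], [[(.ofNat 1, .ofNat 0), (.ofNat 0, .ofNat 4), (.negSucc 17, .ofNat 6), (.negSucc 11,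 .negSucc 7), (.ofNat 6, .negSucc 4)], [(.ofNat 1, .negSucc 0), (.ofNat 11, .ofNat 0), (.ofNat 0, .ofNat 15), (.negSucc 26, .ofNat 9), (.negSucc 5, .negSucc 3)], [(.negSucc 1, .negSucc 0), (.ofNat 10, .negSucc 9), (.ofNat 37, .ofNat 0), (.ofNat 0, .ofNat 20), (.negSucc 11, .ofNat 4)], [(.negSucc 4, .ofNat 2), (.negSucc 17, .negSucc 8), (.ofNat 30, .negSucc 29), (.ofNat 44, .ofNat 0), (.ofNat 0, .ofNat 8)], [(.ofNat 1, .ofNat 5), (.negSucc 39, .ofNat 16), (.negSucc 47, .negSucc 23), (.ofNat 32, .negSucc 31), (.ofNat 16, .ofNat 0)]], [[(.ofNat 0, .ofNat 0), (.ofNat 0, .ofNat 0), (.ofNat 0, .ofNat 0), (.ofNat 0, .ofNat 0), (.ofNat 1, .ofNat 0)], [(.ofNat 0, .ofNat 0), (.ofNat 0, .ofNat 0), (.ofNat 0, .ofNat 0), (.ofNat 1, .ofNat 0), (.ofNat 0, .ofNat 1)], [(.ofNat 0, .ofNat 0), (.ofNat 0, .ofNat 0), (.ofNat 1, .ofNat 0), (.ofNat 0, .ofNat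 2), (.negSucc 2, .ofNat 1)], [(.ofNat 0, .ofNat 0), (.ofNat 1, .ofNat 0), (.ofNat 0, .ofNat 3), (.negSucc 8, .ofNat 3), (.negSucc 2, .negSucc 1)], [(.ofNat 1, .ofNat 0), (.ofNat 0, .ofNat 4), (.negSucc 17, .ofNat 6), (.negSucc 11, .negSucc 7), (.ofNat 6, .negSucc 4)]]]
  rws := [(0, 0, 4, 0), (0, 1, 2, 0), (0, 1, 3, 0)]
  cols := [((0, 2), [.negSucc 1, .ofNat 12, .negSucc 15]), ((0, 4), [.negSucc 1, .ofNat 0, .ofNat 0]), ((1, 3), [.ofNat 0, .ofNat 6, .negSucc 1])]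
  tg := [((0, 2), .ofNat 36, [.ofNat 0, .negSucc 0, .negSucc 2]), ((0, 4), .ofNat 18, [.negSucc 17, .ofNat 1, .ofNat 3]), ((1, 3), .ofNat 9, [.ofNat 0, .ofNat 4, .ofNat 3])]

theorem NIT_3_1_4 (l : ℕ) (hlp : l.Prime) (hl2 : l ≠ 2) (hls : ¬ l ∣ 11) (hE : ¬ l ∣ 11)
    (hj : 4 < l) : NUMA_stmt 3 1 l 4 :=
  @NI_fin 3 1 11 2 11 4 (by norm_num) NIC_3_1_4 (by decide +kernel) (by decide +kernel)
    (by decide +kernel) (by decide +kernel) l hlp hl2 hls hE hj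

/-- certificate, `d = 3`, `t = 1`, `j = 5` -/
def NIC_3_1_5 : NI_Cert where
  tab0 := [[[(.ofNat 1, .ofNat 0), (.ofNat 0, .ofNat 0), (.ofNat 0, .ofNat 0), (.ofNat 0, .ofNat 0), (.ofNat 0, .ofNat 0), (.ofNat 0, .ofNat 0)], [(.ofNat 0, .ofNat 0), (.ofNat 1, .ofNat 0), (.ofNat 0, .ofNat 0), (.ofNat 0, .ofNat 0), (.ofNat 0, .ofNat 0), (.ofNat 0, .ofNat 0)], [(.ofNat 0, .ofNat 0), (.ofNat 0, .ofNat 0), (.ofNat 1, .ofNat 0), (.ofNat 0, .ofNat 0), (.ofNat 0, .ofNat 0), (.ofNat 0, .ofNat 0)], [(.ofNat 0, .ofNat 0), (.ofNat 0, .ofNat 0), (.ofNat 0, .ofNat 0), (.ofNat 1, .ofNat 0), (.ofNat 0, .ofNat 0), (.ofNat 0, .ofNat 0)], [(.ofNat 0, .ofNat 0), (.ofNat 0, .ofNat 0), (.ofNat 0, .ofNat 0), (.ofNat 0, .ofNat 0), (.ofNat 1, .ofNat 0), (.ofNat 0, .ofNat 0)], [(.ofNat 0, .ofNat 0), (.ofNat 0, .ofNat 0), (.ofNat 0, .ofNat 0), (.ofNat 0, .ofNat 0),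 (.ofNat 0, .ofNat 0), (.ofNat 1, .ofNat 0)]], [[(.ofNat 1, .ofNat 0), (.negSucc 4, .ofNat 0), (.ofNat 10, .ofNat 0), (.negSucc 9, .ofNat 0), (.ofNat 5, .ofNat 0), (.negSucc 0, .ofNat 0)], [(.ofNat 1, .ofNat 0), (.negSucc 3, .ofNat 0), (.ofNat 6, .ofNat 0), (.negSucc 3, .ofNat 0), (.ofNat 1, .ofNat 0), (.ofNat 0, .ofNat 0)], [(.ofNat 1, .ofNat 0), (.negSucc 2, .ofNat 0), (.ofNat 3, .ofNat 0), (.negSucc 0, .ofNat 0), (.ofNat 0, .ofNat 0), (.ofNat 0, .ofNat 0)], [(.ofNat 1, .ofNat 0), (.negSucc 1, .ofNat 0), (.ofNat 1, .ofNat 0), (.ofNat 0, .ofNat 0), (.ofNat 0, .ofNat 0), (.ofNat 0, .ofNat 0)], [(.ofNat 1, .ofNat 0), (.negSucc 0, .ofNat 0), (.ofNat 0, .ofNat 0), (.ofNat 0, .ofNat 0), (.ofNat 0, .ofNat 0), (.ofNat 0, .ofNat 0)], [(.ofNat 1, .ofNat 0), (.ofNat 0, .ofNat 0), (.ofNat 0, .ofNat 0), (.ofNat 0, .ofNat 0), (.ofNat 0, .ofNat 0),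 (.ofNat 0, .ofNat 0)]], [[(.ofNat 0, .ofNat 0), (.ofNat 0, .ofNat 0), (.ofNat 0, .ofNat 0), (.ofNat 0, .ofNat 0), (.ofNat 0, .ofNat 0), (.negSucc 0, .ofNat 0)], [(.ofNat 0, .ofNat 0), (.ofNat 0, .ofNat 0), (.ofNat 0, .ofNat 0), (.ofNat 0, .ofNat 0), (.ofNat 1, .ofNat 0), (.negSucc 0, .ofNat 0)], [(.ofNat 0, .ofNat 0), (.ofNat 0, .ofNat 0), (.ofNat 0, .ofNat 0), (.negSucc 0, .ofNat 0), (.ofNat 2, .ofNat 0), (.negSucc 0, .ofNat 0)], [(.ofNat 0, .ofNat 0), (.ofNat 0, .ofNat 0), (.ofNat 1, .ofNat 0), (.negSucc 2, .ofNat 0), (.ofNat 3, .ofNat 0), (.negSucc 0, .ofNat 0)], [(.ofNat 0, .ofNat 0), (.negSucc 0, .ofNat 0), (.ofNat 4, .ofNat 0), (.negSucc 5, .ofNat 0), (.ofNat 4, .ofNat 0), (.negSucc 0, .ofNat 0)], [(.ofNat 1, .ofNat 0), (.negSucc 4, .ofNat 0), (.ofNat 10, .ofNat 0), (.negSucc 9, .ofNat 0), (.ofNat 5, .ofNat 0), (.negSucc 0, .ofNat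 0)]]]
  tab1 := [[[(.ofNat 1, .ofNat 0), (.ofNat 0, .ofNat 0), (.ofNat 0, .ofNat 0), (.ofNat 0, .ofNat 0), (.ofNat 0, .ofNat 0), (.ofNat 0, .ofNat 0)], [(.ofNat 0, .ofNat 0), (.ofNat 1, .ofNat 0), (.ofNat 0, .ofNat 0), (.ofNat 0, .ofNat 0), (.ofNat 0, .ofNat 0), (.ofNat 0, .ofNat 0)], [(.ofNat 0, .ofNat 0), (.ofNat 0, .ofNat 0), (.ofNat 1, .ofNat 0), (.ofNat 0, .ofNat 0), (.ofNat 0, .ofNat 0), (.ofNat 0, .ofNat 0)], [(.ofNat 0, .ofNat 0), (.ofNat 0, .ofNat 0), (.ofNat 0, .ofNat 0), (.ofNat 1, .ofNat 0), (.ofNat 0, .ofNat 0), (.ofNat 0, .ofNat 0)], [(.ofNat 0, .ofNat 0), (.ofNat 0, .ofNat 0), (.ofNat 0, .ofNat 0), (.ofNat 0, .ofNat 0), (.ofNat 1, .ofNat 0), (.ofNat 0, .ofNat 0)], [(.ofNat 0, .ofNat 0), (.ofNat 0, .ofNat 0), (.ofNat 0, .ofNat 0), (.ofNat 0, .ofNat 0), (.ofNat 0, .ofNat 0), (.ofNat 1, .ofNat 0)]], [[(.ofNat 16, .negSucc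 0), (.ofNat 5, .ofNat 25), (.negSucc 49, .ofNat 20), (.negSucc 19, .negSucc 9), (.ofNat 5, .negSucc 4), (.ofNat 1, .ofNat 0)], [(.ofNat 1, .ofNat 5), (.negSucc 19, .ofNat 8), (.negSucc 11, .negSucc 5), (.ofNat 4, .negSucc 3), (.ofNat 1, .ofNat 0), (.ofNat 0, .ofNat 0)], [(.negSucc 4, .ofNat 2), (.negSucc 5, .negSucc 2), (.ofNat 3, .negSucc 2), (.ofNat 1, .ofNat 0), (.ofNat 0, .ofNat 0), (.ofNat 0, .ofNat 0)], [(.negSucc 1, .negSucc 0), (.ofNat 2, .negSucc 1), (.ofNat 1, .ofNat 0), (.ofNat 0, .ofNat 0), (.ofNat 0, .ofNat 0), (.ofNat 0, .ofNat 0)], [(.ofNat 1, .negSucc 0), (.ofNat 1, .ofNat 0), (.ofNat 0, .ofNat 0), (.ofNat 0, .ofNat 0), (.ofNat 0, .ofNat 0), (.ofNat 0, .ofNat 0)], [(.ofNat 1, .ofNat 0), (.ofNat 0, .ofNat 0), (.ofNat 0, .ofNat 0), (.ofNat 0, .ofNat 0), (.ofNat 0, .ofNat 0), (.ofNat 0, .ofNat 0)]], [[(.ofNat 32, .ofNat 0),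 (.ofNat 0, .ofNat 80), (.negSucc 239, .ofNat 80), (.negSucc 119, .negSucc 79), (.ofNat 60, .negSucc 49), (.ofNat 15, .ofNat 1)], [(.ofNat 16, .negSucc 15), (.ofNat 112, .ofNat 0), (.ofNat 0, .ofNat 104), (.negSucc 143, .ofNat 48), (.negSucc 32, .negSucc 21), (.ofNat 6, .negSucc 4)], [(.negSucc 15, .negSucc 7), (.ofNat 52, .negSucc 51), (.ofNat 134, .ofNat 0), (.ofNat 0, .ofNat 57), (.negSucc 35, .ofNat 12), (.negSucc 2, .negSucc 1)], [(.negSucc 19, .ofNat 8), (.negSucc 47, .negSucc 23), (.ofNat 57, .negSucc 56), (.ofNat 67, .ofNat 0), (.ofNat 0, .ofNat 13), (.negSucc 2, .ofNat 1)], [(.ofNat 2, .ofNat 10), (.negSucc 54, .ofNat 22), (.negSucc 47, .negSucc 23), (.ofNat 26, .negSucc 25), (.ofNat 14, .ofNat 0), (.ofNat 0, .ofNat 1)], [(.ofNat 16, .negSucc 0), (.ofNat 5, .ofNat 25), (.negSucc 49, .ofNat 20), (.negSucc 19, .negSucc 9), (.ofNat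 5, .negSucc 4), (.ofNat 1, .ofNat 0)]], [[(.ofNat 16, .negSucc 0), (.ofNat 10, .ofNat 50), (.negSucc 199, .ofNat 80), (.negSucc 159, .negSucc 79), (.ofNat 80, .negSucc 79), (.ofNat 32, .ofNat 0)], [(.ofNat 2, .ofNat 10), (.negSucc 94, .ofNat 38), (.negSucc 143, .negSucc 71), (.ofNat 136, .negSucc 135), (.ofNat 128, .ofNat 0), (.ofNat 0, .ofNat 16)], [(.negSucc 19, .ofNat 8), (.negSucc 71, .negSucc 35), (.ofNat 129, .negSucc 128), (.ofNat 230, .ofNat 0), (.ofNat 0, .ofNat 68), (.negSucc 23, .ofNat 8)], [(.negSucc 15, .negSucc 7), (.ofNat 68, .negSucc 67), (.ofNat 230, .ofNat 0), (.ofNat 0, .ofNat 129), (.negSucc 107, .ofNat 36), (.negSucc 11, .negSucc 7)], [(.ofNat 16, .negSucc 15), (.ofNat 128, .ofNat 0), (.ofNat 0, .ofNat 136), (.negSucc 215, .ofNat 72), (.negSucc 56, .negSucc 37), (.ofNat 12, .negSucc 9)], [(.ofNat 32, .ofNat 0), (.ofNat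 0, .ofNat 80), (.negSucc 239, .ofNat 80), (.negSucc 119, .negSucc 79), (.ofNat 60, .negSucc 49), (.ofNat 15, .ofNat 1)]], [[(.ofNat 1, .ofNat 0), (.ofNat 0, .ofNat 5), (.negSucc 29, .ofNat 10), (.negSucc 29, .negSucc 19), (.ofNat 30, .negSucc 24), (.ofNat 15, .ofNat 1)], [(.ofNat 1, .negSucc 0), (.ofNat 14, .ofNat 0), (.ofNat 0, .ofNat 26), (.negSucc 71, .ofNat 24), (.negSucc 32, .negSucc 21), (.ofNat 12, .negSucc 9)], [(.negSucc 1, .negSucc 0), (.ofNat 13, .negSucc 12), (.ofNat 67, .ofNat 0), (.ofNat 0, .ofNat 57), (.negSucc 71, .ofNat 24), (.negSucc 11, .negSucc 7)], [(.negSucc 4, .ofNat 2), (.negSucc 23, .negSucc 11), (.ofNat 57, .negSucc 56), (.ofNat 134, .ofNat 0), (.ofNat 0, .ofNat 52), (.negSucc 23, .ofNat 8)], [(.ofNat 1, .ofNat 5), (.negSucc 54, .ofNat 22), (.negSucc 95, .negSucc 47), (.ofNat 104, .negSucc 103), (.ofNat 112,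 .ofNat 0), (.ofNat 0, .ofNat 16)], [(.ofNat 16, .negSucc 0), (.ofNat 10, .ofNat 50), (.negSucc 199, .ofNat 80), (.negSucc 159, .negSucc 79), (.ofNat 80, .negSucc 79), (.ofNat 32, .ofNat 0)]], [[(.ofNat 0, .ofNat 0), (.ofNat 0, .ofNat 0), (.ofNat 0, .ofNat 0), (.ofNat 0, .ofNat 0), (.ofNat 0, .ofNat 0), (.ofNat 1, .ofNat 0)], [(.ofNat 0, .ofNat 0), (.ofNat 0, .ofNat 0), (.ofNat 0, .ofNat 0), (.ofNat 0, .ofNat 0), (.ofNat 1, .ofNat 0), (.ofNat 0, .ofNat 1)], [(.ofNat 0, .ofNat 0), (.ofNat 0, .ofNat 0), (.ofNat 0, .ofNat 0), (.ofNat 1, .ofNat 0), (.ofNat 0, .ofNat 2), (.negSucc 2, .ofNat 1)], [(.ofNat 0, .ofNat 0), (.ofNat 0, .ofNat 0), (.ofNat 1, .ofNat 0), (.ofNat 0, .ofNat 3), (.negSucc 8, .ofNat 3), (.negSucc 2, .negSucc 1)], [(.ofNat 0, .ofNat 0), (.ofNat 1, .ofNat 0), (.ofNat 0, .ofNat 4), (.negSucc 17, .ofNat 6), (.negSucc 11, .negSucc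 7), (.ofNat 6, .negSucc 4)], [(.ofNat 1, .ofNat 0), (.ofNat 0, .ofNat 5), (.negSucc 29, .ofNat 10), (.negSucc 29, .negSucc 19), (.ofNat 30, .negSucc 24), (.ofNat 15, .ofNat 1)]]]
  rws := [(0, 0, 1, 0), (0, 0, 4, 0), (0, 0, 5, 0)]
  cols := [((0, 2), [.ofNat 4, .negSucc 7, .ofNat 2]), ((0, 4), [.ofNat 8, .negSucc 5, .ofNat 2]), ((1, 3), [.ofNat 4, .negSucc 0, .ofNat 0])]
  tg := [((0, 2), .ofNat 12, [.negSucc 0, .negSucc 3, .negSucc 7]), ((0, 4), .ofNat 12, [.ofNat 1, .ofNat 4, .ofNat 14]), ((1, 3), .ofNat 6, [.ofNat 1, .negSucc 1, .negSucc 9])]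

theorem NIT_3_1_5 (l : ℕ) (hlp : l.Prime) (hl2 : l ≠ 2) (hls : ¬ l ∣ 11) (hE : ¬ l ∣ 11)
    (hj : 5 < l) : NUMA_stmt 3 1 l 5 :=
  @NI_fin 3 1 11 1 11 5 (by norm_num) NIC_3_1_5 (by decide +kernel) (by decide +kernel)
    (by decide +kernel) (by decide +kernel) l hlp hl2 hls hE hj

/-- certificate, `d = 3`, `t = 1`, `j = 6` -/
def NIC_3_1_6 : NI_Cert where
  tab0 := [[[(.ofNat 1, .ofNat 0), (.ofNat 0, .ofNat 0), (.ofNat 0, .ofNat 0), (.ofNat 0, .ofNat 0), (.ofNat 0, .ofNat 0), (.ofNat 0, .ofNat 0), (.ofNat 0, .ofNat 0)], [(.ofNat 0, .ofNat 0), (.ofNat 1, .ofNat 0), (.ofNat 0, .ofNat 0), (.ofNat 0, .ofNat 0), (.ofNat 0, .ofNat 0), (.ofNat 0, .ofNat 0), (.ofNat 0, .ofNat 0)], [(.ofNat 0, .ofNat 0), (.ofNat 0, .ofNat 0), (.ofNat 1, .ofNat 0), (.ofNat 0, .ofNat 0), (.ofNat 0, .ofNat 0), (.ofNat 0, .ofNat 0), (.ofNat 0, .ofNat 0)], [(.ofNat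 0, .ofNat 0), (.ofNat 0, .ofNat 0), (.ofNat 0, .ofNat 0), (.ofNat 1, .ofNat 0), (.ofNat 0, .ofNat 0), (.ofNat 0, .ofNat 0), (.ofNat 0, .ofNat 0)], [(.ofNat 0, .ofNat 0), (.ofNat 0, .ofNat 0), (.ofNat 0, .ofNat 0), (.ofNat 0, .ofNat 0), (.ofNat 1, .ofNat 0), (.ofNat 0, .ofNat 0), (.ofNat 0, .ofNat 0)], [(.ofNat 0, .ofNat 0), (.ofNat 0, .ofNat 0), (.ofNat 0, .ofNat 0), (.ofNat 0, .ofNat 0), (.ofNat 0, .ofNat 0), (.ofNat 1, .ofNat 0), (.ofNat 0, .ofNat 0)], [(.ofNat 0, .ofNat 0), (.ofNat 0, .ofNat 0), (.ofNat 0, .ofNat 0), (.ofNat 0, .ofNat 0), (.ofNat 0, .ofNat 0), (.ofNat 0, .ofNat 0), (.ofNat 1, .ofNat 0)]], [[(.ofNat 1, .ofNat 0), (.negSucc 5, .ofNat 0), (.ofNat 15, .ofNat 0), (.negSucc 19, .ofNat 0), (.ofNat 15, .ofNat 0), (.negSucc 5, .ofNat 0), (.ofNat 1, .ofNat 0)], [(.ofNat 1, .ofNat 0), (.negSucc 4, .ofNat 0), (.ofNat 10, .ofNat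 0), (.negSucc 9, .ofNat 0), (.ofNat 5, .ofNat 0), (.negSucc 0, .ofNat 0), (.ofNat 0, .ofNat 0)], [(.ofNat 1, .ofNat 0), (.negSucc 3, .ofNat 0), (.ofNat 6, .ofNat 0), (.negSucc 3, .ofNat 0), (.ofNat 1, .ofNat 0), (.ofNat 0, .ofNat 0), (.ofNat 0, .ofNat 0)], [(.ofNat 1, .ofNat 0), (.negSucc 2, .ofNat 0), (.ofNat 3, .ofNat 0), (.negSucc 0, .ofNat 0), (.ofNat 0, .ofNat 0), (.ofNat 0, .ofNat 0), (.ofNat 0, .ofNat 0)], [(.ofNat 1, .ofNat 0), (.negSucc 1, .ofNat 0), (.ofNat 1, .ofNat 0), (.ofNat 0, .ofNat 0), (.ofNat 0, .ofNat 0), (.ofNat 0, .ofNat 0), (.ofNat 0, .ofNat 0)], [(.ofNat 1, .ofNat 0), (.negSucc 0, .ofNat 0), (.ofNat 0, .ofNat 0), (.ofNat 0, .ofNat 0), (.ofNat 0, .ofNat 0), (.ofNat 0, .ofNat 0), (.ofNat 0, .ofNat 0)], [(.ofNat 1, .ofNat 0), (.ofNat 0, .ofNat 0), (.ofNat 0, .ofNat 0), (.ofNat 0, .ofNat 0), (.ofNat 0, .ofNat 0), (.ofNat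 0, .ofNat 0), (.ofNat 0, .ofNat 0)]], [[(.ofNat 0, .ofNat 0), (.ofNat 0, .ofNat 0), (.ofNat 0, .ofNat 0), (.ofNat 0, .ofNat 0), (.ofNat 0, .ofNat 0), (.ofNat 0, .ofNat 0), (.ofNat 1, .ofNat 0)], [(.ofNat 0, .ofNat 0), (.ofNat 0, .ofNat 0), (.ofNat 0, .ofNat 0), (.ofNat 0, .ofNat 0), (.ofNat 0, .ofNat 0), (.negSucc 0, .ofNat 0), (.ofNat 1, .ofNat 0)], [(.ofNat 0, .ofNat 0), (.ofNat 0, .ofNat 0), (.ofNat 0, .ofNat 0), (.ofNat 0, .ofNat 0), (.ofNat 1, .ofNat 0), (.negSucc 1, .ofNat 0), (.ofNat 1, .ofNat 0)], [(.ofNat 0, .ofNat 0), (.ofNat 0, .ofNat 0), (.ofNat 0, .ofNat 0), (.negSucc 0, .ofNat 0), (.ofNat 3, .ofNat 0), (.negSucc 2, .ofNat 0), (.ofNat 1, .ofNat 0)], [(.ofNat 0, .ofNat 0), (.ofNat 0, .ofNat 0), (.ofNat 1, .ofNat 0), (.negSucc 3, .ofNat 0), (.ofNat 6, .ofNat 0), (.negSucc 3, .ofNat 0), (.ofNat 1, .ofNat 0)], [(.ofNat 0, .ofNat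 0), (.negSucc 0, .ofNat 0), (.ofNat 5, .ofNat 0), (.negSucc 9, .ofNat 0), (.ofNat 10, .ofNat 0), (.negSucc 4, .ofNat 0), (.ofNat 1, .ofNat 0)], [(.ofNat 1, .ofNat 0), (.negSucc 5, .ofNat 0), (.ofNat 15, .ofNat 0), (.negSucc 19, .ofNat 0), (.ofNat 15, .ofNat 0), (.negSucc 5, .ofNat 0), (.ofNat 1, .ofNat 0)]]]
  tab1 := [[[(.ofNat 1, .ofNat 0), (.ofNat 0, .ofNat 0), (.ofNat 0, .ofNat 0), (.ofNat 0, .ofNat 0), (.ofNat 0, .ofNat 0), (.ofNat 0, .ofNat 0), (.ofNat 0, .ofNat 0)], [(.ofNat 0, .ofNat 0), (.ofNat 1, .ofNat 0), (.ofNat 0, .ofNat 0), (.ofNat 0, .ofNat 0), (.ofNat 0, .ofNat 0), (.ofNat 0, .ofNat 0), (.ofNat 0, .ofNat 0)], [(.ofNat 0, .ofNat 0), (.ofNat 0, .ofNat 0), (.ofNat 1, .ofNat 0), (.ofNat 0, .ofNat 0), (.ofNat 0, .ofNat 0), (.ofNat 0, .ofNat 0), (.ofNat 0, .ofNat 0)], [(.ofNat 0, .ofNat 0), (.ofNat 0, .ofNat 0), (.ofNat 0,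 .ofNat 0), (.ofNat 1, .ofNat 0), (.ofNat 0, .ofNat 0), (.ofNat 0, .ofNat 0), (.ofNat 0, .ofNat 0)], [(.ofNat 0, .ofNat 0), (.ofNat 0, .ofNat 0), (.ofNat 0, .ofNat 0), (.ofNat 0, .ofNat 0), (.ofNat 1, .ofNat 0), (.ofNat 0, .ofNat 0), (.ofNat 0, .ofNat 0)], [(.ofNat 0, .ofNat 0), (.ofNat 0, .ofNat 0), (.ofNat 0, .ofNat 0), (.ofNat 0, .ofNat 0), (.ofNat 0, .ofNat 0), (.ofNat 1, .ofNat 0), (.ofNat 0, .ofNat 0)], [(.ofNat 0, .ofNat 0), (.ofNat 0, .ofNat 0), (.ofNat 0, .ofNat 0), (.ofNat 0, .ofNat 0), (.ofNat 0, .ofNat 0), (.ofNat 0, .ofNat 0), (.ofNat 1, .ofNat 0)]], [[(.ofNat 13, .negSucc 15), (.ofNat 96, .negSucc 5), (.ofNat 15, .ofNat 75), (.negSucc 99, .ofNat 40), (.negSucc 29, .negSucc 14), (.ofNat 6, .negSucc 5), (.ofNat 1, .ofNat 0)], [(.ofNat 16, .negSucc 0), (.ofNat 5, .ofNat 25), (.negSucc 49, .ofNat 20), (.negSucc 19, .negSucc 9),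 (.ofNat 5, .negSucc 4), (.ofNat 1, .ofNat 0), (.ofNat 0, .ofNat 0)], [(.ofNat 1, .ofNat 5), (.negSucc 19, .ofNat 8), (.negSucc 11, .negSucc 5), (.ofNat 4, .negSucc 3), (.ofNat 1, .ofNat 0), (.ofNat 0, .ofNat 0), (.ofNat 0, .ofNat 0)], [(.negSucc 4, .ofNat 2), (.negSucc 5, .negSucc 2), (.ofNat 3, .negSucc 2), (.ofNat 1, .ofNat 0), (.ofNat 0, .ofNat 0), (.ofNat 0, .ofNat 0), (.ofNat 0, .ofNat 0)], [(.negSucc 1, .negSucc 0), (.ofNat 2, .negSucc 1), (.ofNat 1, .ofNat 0), (.ofNat 0, .ofNat 0), (.ofNat 0, .ofNat 0), (.ofNat 0, .ofNat 0), (.ofNat 0, .ofNat 0)], [(.ofNat 1, .negSucc 0), (.ofNat 1, .ofNat 0), (.ofNat 0, .ofNat 0), (.ofNat 0, .ofNat 0), (.ofNat 0, .ofNat 0), (.ofNat 0, .ofNat 0), (.ofNat 0, .ofNat 0)], [(.ofNat 1, .ofNat 0), (.ofNat 0, .ofNat 0), (.ofNat 0, .ofNat 0), (.ofNat 0, .ofNat 0), (.ofNat 0, .ofNat 0), (.ofNat 0, .ofNat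 0), (.ofNat 0, .ofNat 0)]], [[(.ofNat 64, .ofNat 0), (.ofNat 0, .ofNat 192), (.negSucc 719, .ofNat 240), (.negSucc 479, .negSucc 319), (.ofNat 360, .negSucc 299), (.ofNat 180, .ofNat 12), (.negSucc 2, .ofNat 16)], [(.ofNat 32, .negSucc 31), (.ofNat 272, .ofNat 0), (.ofNat 0, .ofNat 320), (.negSucc 599, .ofNat 200), (.negSucc 209, .negSucc 139), (.ofNat 78, .negSucc 64), (.ofNat 15, .ofNat 1)], [(.negSucc 31, .negSucc 15), (.ofNat 128, .negSucc 127), (.ofNat 424, .ofNat 0), (.ofNat 0, .ofNat 248), (.negSucc 242, .ofNat 81), (.negSucc 41, .negSucc 27), (.ofNat 6, .negSucc 4)], [(.negSucc 39, .ofNat 16), (.negSucc 119, .negSucc 59), (.ofNat 186, .negSucc 185), (.ofNat 305, .ofNat 0), (.ofNat 0, .ofNat 93), (.negSucc 44, .ofNat 15), (.negSucc 2, .negSucc 1)], [(.ofNat 4, .ofNat 20), (.negSucc 139, .ofNat 56), (.negSucc 161, .negSucc 80),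 (.ofNat 124, .negSucc 123), (.ofNat 106, .ofNat 0), (.ofNat 0, .ofNat 16), (.negSucc 2, .ofNat 1)], [(.ofNat 32, .negSucc 1), (.ofNat 13, .ofNat 65), (.negSucc 174, .ofNat 70), (.negSucc 99, .negSucc 49), (.ofNat 40, .negSucc 39), (.ofNat 17, .ofNat 0), (.ofNat 0, .ofNat 1)], [(.ofNat 13, .negSucc 15), (.ofNat 96, .negSucc 5), (.ofNat 15, .ofNat 75), (.negSucc 99, .ofNat 40), (.negSucc 29, .negSucc 14), (.ofNat 6, .negSucc 5), (.ofNat 1, .ofNat 0)]], [[(.ofNat 13, .negSucc 15), (.ofNat 192, .negSucc 11), (.ofNat 60, .ofNat 300), (.negSucc 799, .ofNat 320), (.negSucc 479, .negSucc 239), (.ofNat 192, .negSucc 191), (.ofNat 64, .ofNat 0)], [(.ofNat 32, .negSucc 1), (.ofNat 23, .ofNat 115), (.negSucc 549, .ofNat 220), (.negSucc 559, .negSucc 279), (.ofNat 400, .negSucc 399), (.ofNat 304, .ofNat 0), (.ofNat 0, .ofNat 32)], [(.ofNat 4, .ofNat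 20), (.negSucc 219, .ofNat 88), (.negSucc 401, .negSucc 200), (.ofNat 488, .negSucc 487), (.ofNat 664, .ofNat 0), (.ofNat 0, .ofNat 160), (.negSucc 47, .ofNat 16)], [(.negSucc 39, .ofNat 16), (.negSucc 167, .negSucc 83), (.ofNat 366, .negSucc 365), (.ofNat 847, .ofNat 0), (.ofNat 0, .ofNat 366), (.negSucc 251, .ofNat 84), (.negSucc 23, .negSucc 15)], [(.negSucc 31, .negSucc 15), (.ofNat 160, .negSucc 159), (.ofNat 664, .ofNat 0), (.ofNat 0, .ofNat 488), (.negSucc 602, .ofNat 201), (.negSucc 131, .negSucc 87), (.ofNat 24, .negSucc 19)], [(.ofNat 32, .negSucc 31), (.ofNat 304, .ofNat 0), (.ofNat 0, .ofNat 400), (.negSucc 839, .ofNat 280), (.negSucc 329, .negSucc 219), (.ofNat 138, .negSucc 114), (.ofNat 30, .ofNat 2)], [(.ofNat 64, .ofNat 0), (.ofNat 0, .ofNat 192), (.negSucc 719, .ofNat 240), (.negSucc 479, .negSucc 319), (.ofNat 360,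 .negSucc 299), (.ofNat 180, .ofNat 12), (.negSucc 2, .ofNat 16)]], [[(.ofNat 1, .ofNat 0), (.ofNat 0, .ofNat 6), (.negSucc 44, .ofNat 15), (.negSucc 59, .negSucc 39), (.ofNat 90, .negSucc 74), (.ofNat 90, .ofNat 6), (.negSucc 2, .ofNat 16)], [(.ofNat 1, .negSucc 0), (.ofNat 17, .ofNat 0), (.ofNat 0, .ofNat 40), (.negSucc 149, .ofNat 50), (.negSucc 104, .negSucc 69), (.ofNat 78, .negSucc 64), (.ofNat 30, .ofNat 2)], [(.negSucc 1, .negSucc 0), (.ofNat 16, .negSucc 15), (.ofNat 106, .ofNat 0), (.ofNat 0, .ofNat 124), (.negSucc 242, .ofNat 81), (.negSucc 83, .negSucc 55), (.ofNat 24, .negSucc 19)], [(.negSucc 4, .ofNat 2), (.negSucc 29, .negSucc 14), (.ofNat 93, .negSucc 92), (.ofNat 305, .ofNat 0), (.ofNat 0, .ofNat 186), (.negSucc 179, .ofNat 60), (.negSucc 23, .negSucc 15)], [(.ofNat 1, .ofNat 5), (.negSucc 69, .ofNat 28), (.negSucc 161,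 .negSucc 80), (.ofNat 248, .negSucc 247), (.ofNat 424, .ofNat 0), (.ofNat 0, .ofNat 128), (.negSucc 47, .ofNat 16)], [(.ofNat 16, .negSucc 0), (.ofNat 13, .ofNat 65), (.negSucc 349, .ofNat 140), (.negSucc 399, .negSucc 199), (.ofNat 320, .negSucc 319), (.ofNat 272, .ofNat 0), (.ofNat 0, .ofNat 32)], [(.ofNat 13, .negSucc 15), (.ofNat 192, .negSucc 11), (.ofNat 60, .ofNat 300), (.negSucc 799, .ofNat 320), (.negSucc 479, .negSucc 239), (.ofNat 192, .negSucc 191), (.ofNat 64, .ofNat 0)]], [[(.ofNat 0, .ofNat 0), (.ofNat 0, .ofNat 0), (.ofNat 0, .ofNat 0), (.ofNat 0, .ofNat 0), (.ofNat 0, .ofNat 0), (.ofNat 0, .ofNat 0), (.ofNat 1, .ofNat 0)], [(.ofNat 0, .ofNat 0), (.ofNat 0, .ofNat 0), (.ofNat 0, .ofNat 0), (.ofNat 0, .ofNat 0), (.ofNat 0, .ofNat 0), (.ofNat 1, .ofNat 0), (.ofNat 0, .ofNat 1)], [(.ofNat 0, .ofNat 0), (.ofNat 0, .ofNat 0),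 (.ofNat 0, .ofNat 0), (.ofNat 0, .ofNat 0), (.ofNat 1, .ofNat 0), (.ofNat 0, .ofNat 2), (.negSucc 2, .ofNat 1)], [(.ofNat 0, .ofNat 0), (.ofNat 0, .ofNat 0), (.ofNat 0, .ofNat 0), (.ofNat 1, .ofNat 0), (.ofNat 0, .ofNat 3), (.negSucc 8, .ofNat 3), (.negSucc 2, .negSucc 1)], [(.ofNat 0, .ofNat 0), (.ofNat 0, .ofNat 0), (.ofNat 1, .ofNat 0), (.ofNat 0, .ofNat 4), (.negSucc 17, .ofNat 6), (.negSucc 11, .negSucc 7), (.ofNat 6, .negSucc 4)], [(.ofNat 0, .ofNat 0), (.ofNat 1, .ofNat 0), (.ofNat 0, .ofNat 5), (.negSucc 29, .ofNat 10), (.negSucc 29, .negSucc 19), (.ofNat 30, .negSucc 24), (.ofNat 15, .ofNat 1)], [(.ofNat 1, .ofNat 0), (.ofNat 0, .ofNat 6), (.negSucc 44, .ofNat 15), (.negSucc 59, .negSucc 39), (.ofNat 90, .negSucc 74), (.ofNat 90, .ofNat 6), (.negSucc 2, .ofNat 16)]]]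
  rws := [(0, 0, 4, 0), (0, 0, 5, 0), (0, 0, 6, 0), (0, 1, 5, 0), (0, 2, 3, 0), (1, 0, 6, 1)]
  cols := [((0, 2), [.negSucc 19, .ofNat 10, .negSucc 1, .negSucc 47, .ofNat 100, .negSucc 1959]), ((0, 4), [.negSucc 15, .ofNat 8, .negSucc 1, .negSucc 23, .ofNat 20, .ofNat 1952]), ((0, 6), [.negSucc 29, .ofNat 12, .negSucc 1, .ofNat 0, .ofNat 0, .ofNat 320]), ((1, 3), [.negSucc 4, .ofNat 1, .ofNat 0, .negSucc 5, .ofNat 25, .negSucc 1739]), ((1, 5), [.negSucc 9, .ofNat 2, .ofNat 0, .negSucc 1, .ofNat 0, .ofNat 1920]), ((2, 4), [.negSucc 1, .ofNat 0, .ofNat 0, .ofNat 0, .ofNat 8, .negSucc 1679])]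
  tg := [((0, 2), .ofNat 60, [.ofNat 128, .ofNat 1250, .ofNat 5420, .negSucc 349, .negSucc 177, .negSucc 0]), ((0, 4), .ofNat 288, [.negSucc 647, .negSucc 6299, .negSucc 27279, .ofNat 1740, .ofNat 888, .ofNat 5]), ((0, 6), .ofNat 720, [.ofNat 168, .ofNat 1500, .ofNat 5600, .negSucc 299, .negSucc 167, .negSucc 0]), ((1, 3), .ofNat 360, [.negSucc 3143, .negSucc 30971, .negSucc 134671, .ofNat 8748, .ofNat 4464, .ofNat 25]), ((1, 5), .ofNat 30, [.ofNat 120, .ofNat 1236, .ofNat 5456, .negSucc 353, .negSucc 179, .negSucc 0]), ((2, 4), .ofNat 48, [.ofNat 600, .ofNat 6060, .ofNat 26560, .negSucc 1739, .negSucc 887, .negSucc 4])]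

theorem NIT_3_1_6 (l : ℕ) (hlp : l.Prime) (hl2 : l ≠ 2) (hls : ¬ l ∣ 11) (hE : ¬ l ∣ 11)
    (hj : 6 < l) : NUMA_stmt 3 1 l 6 :=
  @NI_fin 3 1 11 2 11 6 (by norm_num) NIC_3_1_6 (by decide +kernel) (by decide +kernel)
    (by decide +kernel) (by decide +kernel) l hlp hl2 hls hE hj

/-- certificate, `d = 3`, `t = 1`, `j = 7` -/
def NIC_3_1_7 : NI_Cert where
  tab0 := [[[(.ofNat 1, .ofNat 0), (.ofNat 0, .ofNat 0), (.ofNat 0, .ofNat 0), (.ofNat 0, .ofNat 0), (.ofNat 0, .ofNat 0), (.ofNat 0, .ofNat 0), (.ofNat 0, .ofNat 0), (.ofNat 0, .ofNat 0)], [(.ofNat 0, .ofNat 0), (.ofNat 1, .ofNat 0), (.ofNat 0, .ofNat 0), (.ofNat 0, .ofNat 0), (.ofNat 0, .ofNat 0), (.ofNat 0, .ofNat 0), (.ofNat 0, .ofNat 0), (.ofNat 0, .ofNat 0)], [(.ofNat 0, .ofNat 0), (.ofNat 0, .ofNat 0), (.ofNat 1, .ofNat 0), (.ofNat 0, .ofNat 0), (.ofNat 0, .ofNat 0), (.ofNat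 0, .ofNat 0), (.ofNat 0, .ofNat 0), (.ofNat 0, .ofNat 0)], [(.ofNat 0, .ofNat 0), (.ofNat 0, .ofNat 0), (.ofNat 0, .ofNat 0), (.ofNat 1, .ofNat 0), (.ofNat 0, .ofNat 0), (.ofNat 0, .ofNat 0), (.ofNat 0, .ofNat 0), (.ofNat 0, .ofNat 0)], [(.ofNat 0, .ofNat 0), (.ofNat 0, .ofNat 0), (.ofNat 0, .ofNat 0), (.ofNat 0, .ofNat 0), (.ofNat 1, .ofNat 0), (.ofNat 0, .ofNat 0), (.ofNat 0, .ofNat 0), (.ofNat 0, .ofNat 0)], [(.ofNat 0, .ofNat 0), (.ofNat 0, .ofNat 0), (.ofNat 0, .ofNat 0), (.ofNat 0, .ofNat 0), (.ofNat 0, .ofNat 0), (.ofNat 1, .ofNat 0), (.ofNat 0, .ofNat 0), (.ofNat 0, .ofNat 0)], [(.ofNat 0, .ofNat 0), (.ofNat 0, .ofNat 0), (.ofNat 0, .ofNat 0), (.ofNat 0, .ofNat 0), (.ofNat 0, .ofNat 0), (.ofNat 0, .ofNat 0), (.ofNat 1, .ofNat 0), (.ofNat 0, .ofNat 0)], [(.ofNat 0, .ofNat 0), (.ofNat 0, .ofNat 0), (.ofNat 0, .ofNat 0), (.ofNat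 0, .ofNat 0), (.ofNat 0, .ofNat 0), (.ofNat 0, .ofNat 0), (.ofNat 0, .ofNat 0), (.ofNat 1, .ofNat 0)]], [[(.ofNat 1, .ofNat 0), (.negSucc 6, .ofNat 0), (.ofNat 21, .ofNat 0), (.negSucc 34, .ofNat 0), (.ofNat 35, .ofNat 0), (.negSucc 20, .ofNat 0), (.ofNat 7, .ofNat 0), (.negSucc 0, .ofNat 0)], [(.ofNat 1, .ofNat 0), (.negSucc 5, .ofNat 0), (.ofNat 15, .ofNat 0), (.negSucc 19, .ofNat 0), (.ofNat 15, .ofNat 0), (.negSucc 5, .ofNat 0), (.ofNat 1, .ofNat 0), (.ofNat 0, .ofNat 0)], [(.ofNat 1, .ofNat 0), (.negSucc 4, .ofNat 0), (.ofNat 10, .ofNat 0), (.negSucc 9, .ofNat 0), (.ofNat 5, .ofNat 0), (.negSucc 0, .ofNat 0), (.ofNat 0, .ofNat 0), (.ofNat 0, .ofNat 0)], [(.ofNat 1, .ofNat 0), (.negSucc 3, .ofNat 0), (.ofNat 6, .ofNat 0), (.negSucc 3, .ofNat 0), (.ofNat 1, .ofNat 0), (.ofNat 0, .ofNat 0), (.ofNat 0, .ofNat 0), (.ofNat 0, .ofNat 0)],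 [(.ofNat 1, .ofNat 0), (.negSucc 2, .ofNat 0), (.ofNat 3, .ofNat 0), (.negSucc 0, .ofNat 0), (.ofNat 0, .ofNat 0), (.ofNat 0, .ofNat 0), (.ofNat 0, .ofNat 0), (.ofNat 0, .ofNat 0)], [(.ofNat 1, .ofNat 0), (.negSucc 1, .ofNat 0), (.ofNat 1, .ofNat 0), (.ofNat 0, .ofNat 0), (.ofNat 0, .ofNat 0), (.ofNat 0, .ofNat 0), (.ofNat 0, .ofNat 0), (.ofNat 0, .ofNat 0)], [(.ofNat 1, .ofNat 0), (.negSucc 0, .ofNat 0), (.ofNat 0, .ofNat 0), (.ofNat 0, .ofNat 0), (.ofNat 0, .ofNat 0), (.ofNat 0, .ofNat 0), (.ofNat 0, .ofNat 0), (.ofNat 0, .ofNat 0)], [(.ofNat 1, .ofNat 0), (.ofNat 0, .ofNat 0), (.ofNat 0, .ofNat 0), (.ofNat 0, .ofNat 0), (.ofNat 0, .ofNat 0), (.ofNat 0, .ofNat 0), (.ofNat 0, .ofNat 0), (.ofNat 0, .ofNat 0)]], [[(.ofNat 0, .ofNat 0), (.ofNat 0, .ofNat 0), (.ofNat 0, .ofNat 0), (.ofNat 0, .ofNat 0), (.ofNat 0, .ofNat 0), (.ofNat 0, .ofNat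 0), (.ofNat 0, .ofNat 0), (.negSucc 0, .ofNat 0)], [(.ofNat 0, .ofNat 0), (.ofNat 0, .ofNat 0), (.ofNat 0, .ofNat 0), (.ofNat 0, .ofNat 0), (.ofNat 0, .ofNat 0), (.ofNat 0, .ofNat 0), (.ofNat 1, .ofNat 0), (.negSucc 0, .ofNat 0)], [(.ofNat 0, .ofNat 0), (.ofNat 0, .ofNat 0), (.ofNat 0, .ofNat 0), (.ofNat 0, .ofNat 0), (.ofNat 0, .ofNat 0), (.negSucc 0, .ofNat 0), (.ofNat 2, .ofNat 0), (.negSucc 0, .ofNat 0)], [(.ofNat 0, .ofNat 0), (.ofNat 0, .ofNat 0), (.ofNat 0, .ofNat 0), (.ofNat 0, .ofNat 0), (.ofNat 1, .ofNat 0), (.negSucc 2, .ofNat 0), (.ofNat 3, .ofNat 0), (.negSucc 0, .ofNat 0)], [(.ofNat 0, .ofNat 0), (.ofNat 0, .ofNat 0), (.ofNat 0, .ofNat 0), (.negSucc 0, .ofNat 0), (.ofNat 4, .ofNat 0), (.negSucc 5, .ofNat 0), (.ofNat 4, .ofNat 0), (.negSucc 0, .ofNat 0)], [(.ofNat 0, .ofNat 0), (.ofNat 0, .ofNat 0), (.ofNat 1, .ofNat 0),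 (.negSucc 4, .ofNat 0), (.ofNat 10, .ofNat 0), (.negSucc 9, .ofNat 0), (.ofNat 5, .ofNat 0), (.negSucc 0, .ofNat 0)], [(.ofNat 0, .ofNat 0), (.negSucc 0, .ofNat 0), (.ofNat 6, .ofNat 0), (.negSucc 14, .ofNat 0), (.ofNat 20, .ofNat 0), (.negSucc 14, .ofNat 0), (.ofNat 6, .ofNat 0), (.negSucc 0, .ofNat 0)], [(.ofNat 1, .ofNat 0), (.negSucc 6, .ofNat 0), (.ofNat 21, .ofNat 0), (.negSucc 34, .ofNat 0), (.ofNat 35, .ofNat 0), (.negSucc 20, .ofNat 0), (.ofNat 7, .ofNat 0), (.negSucc 0, .ofNat 0)]]]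
  tab1 := [[[(.ofNat 1, .ofNat 0), (.ofNat 0, .ofNat 0), (.ofNat 0, .ofNat 0), (.ofNat 0, .ofNat 0), (.ofNat 0, .ofNat 0), (.ofNat 0, .ofNat 0), (.ofNat 0, .ofNat 0), (.ofNat 0, .ofNat 0)], [(.ofNat 0, .ofNat 0), (.ofNat 1, .ofNat 0), (.ofNat 0, .ofNat 0), (.ofNat 0, .ofNat 0), (.ofNat 0, .ofNat 0), (.ofNat 0, .ofNat 0), (.ofNat 0, .ofNat 0), (.ofNat 0, .ofNat 0)], [(.ofNat 0, .ofNat 0), (.ofNat 0, .ofNat 0), (.ofNat 1, .ofNat 0), (.ofNat 0, .ofNat 0), (.ofNat 0, .ofNat 0), (.ofNat 0, .ofNat 0), (.ofNat 0, .ofNat 0), (.ofNat 0, .ofNat 0)], [(.ofNat 0, .ofNat 0), (.ofNat 0, .ofNat 0), (.ofNat 0, .ofNat 0), (.ofNat 1, .ofNat 0), (.ofNat 0, .ofNat 0), (.ofNat 0, .ofNat 0), (.ofNat 0, .ofNat 0), (.ofNat 0, .ofNat 0)], [(.ofNat 0, .ofNat 0), (.ofNat 0, .ofNat 0), (.ofNat 0, .ofNat 0), (.ofNat 0, .ofNat 0), (.ofNat 1, .ofNat 0), (.ofNat 0,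 .ofNat 0), (.ofNat 0, .ofNat 0), (.ofNat 0, .ofNat 0)], [(.ofNat 0, .ofNat 0), (.ofNat 0, .ofNat 0), (.ofNat 0, .ofNat 0), (.ofNat 0, .ofNat 0), (.ofNat 0, .ofNat 0), (.ofNat 1, .ofNat 0), (.ofNat 0, .ofNat 0), (.ofNat 0, .ofNat 0)], [(.ofNat 0, .ofNat 0), (.ofNat 0, .ofNat 0), (.ofNat 0, .ofNat 0), (.ofNat 0, .ofNat 0), (.ofNat 0, .ofNat 0), (.ofNat 0, .ofNat 0), (.ofNat 1, .ofNat 0), (.ofNat 0, .ofNat 0)], [(.ofNat 0, .ofNat 0), (.ofNat 0, .ofNat 0), (.ofNat 0, .ofNat 0), (.ofNat 0, .ofNat 0), (.ofNat 0, .ofNat 0), (.ofNat 0, .ofNat 0), (.ofNat 0, .ofNat 0), (.ofNat 1, .ofNat 0)]], [[(.negSucc 34, .negSucc 12), (.ofNat 91, .negSucc 111), (.ofNat 336, .negSucc 20), (.ofNat 35, .ofNat 175), (.negSucc 174, .ofNat 70), (.negSucc 41, .negSucc 20), (.ofNat 7, .negSucc 6), (.ofNat 1, .ofNat 0)], [(.ofNat 13, .negSucc 15), (.ofNat 96, .negSucc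 5), (.ofNat 15, .ofNat 75), (.negSucc 99, .ofNat 40), (.negSucc 29, .negSucc 14), (.ofNat 6, .negSucc 5), (.ofNat 1, .ofNat 0), (.ofNat 0, .ofNat 0)], [(.ofNat 16, .negSucc 0), (.ofNat 5, .ofNat 25), (.negSucc 49, .ofNat 20), (.negSucc 19, .negSucc 9), (.ofNat 5, .negSucc 4), (.ofNat 1, .ofNat 0), (.ofNat 0, .ofNat 0), (.ofNat 0, .ofNat 0)], [(.ofNat 1, .ofNat 5), (.negSucc 19, .ofNat 8), (.negSucc 11, .negSucc 5), (.ofNat 4, .negSucc 3), (.ofNat 1, .ofNat 0), (.ofNat 0, .ofNat 0), (.ofNat 0, .ofNat 0), (.ofNat 0, .ofNat 0)], [(.negSucc 4, .ofNat 2), (.negSucc 5, .negSucc 2), (.ofNat 3, .negSucc 2), (.ofNat 1, .ofNat 0), (.ofNat 0, .ofNat 0), (.ofNat 0, .ofNat 0), (.ofNat 0, .ofNat 0), (.ofNat 0, .ofNat 0)], [(.negSucc 1, .negSucc 0), (.ofNat 2, .negSucc 1), (.ofNat 1, .ofNat 0), (.ofNat 0, .ofNat 0), (.ofNat 0, .ofNat 0), (.ofNat 0,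 .ofNat 0), (.ofNat 0, .ofNat 0), (.ofNat 0, .ofNat 0)], [(.ofNat 1, .negSucc 0), (.ofNat 1, .ofNat 0), (.ofNat 0, .ofNat 0), (.ofNat 0, .ofNat 0), (.ofNat 0, .ofNat 0), (.ofNat 0, .ofNat 0), (.ofNat 0, .ofNat 0), (.ofNat 0, .ofNat 0)], [(.ofNat 1, .ofNat 0), (.ofNat 0, .ofNat 0), (.ofNat 0, .ofNat 0), (.ofNat 0, .ofNat 0), (.ofNat 0, .ofNat 0), (.ofNat 0, .ofNat 0), (.ofNat 0, .ofNat 0), (.ofNat 0, .ofNat 0)]], [[(.ofNat 128, .ofNat 0), (.ofNat 0, .ofNat 448), (.negSucc 2015, .ofNat 672), (.negSucc 1679, .negSucc 1119), (.ofNat 1680, .negSucc 1399), (.ofNat 1260, .ofNat 84), (.negSucc 41, .ofNat 224), (.negSucc 47, .ofNat 13)], [(.ofNat 64, .negSucc 63), (.ofNat 640, .ofNat 0), (.ofNat 0, .ofNat 912), (.negSucc 2159, .ofNat 720), (.negSucc 1019, .negSucc 679), (.ofNat 576, .negSucc 479), (.ofNat 225, .ofNat 15), (.negSucc 2, .ofNat 16)],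 [(.negSucc 63, .negSucc 31), (.ofNat 304, .negSucc 303), (.ofNat 1232, .ofNat 0), (.ofNat 0, .ofNat 920), (.negSucc 1229, .ofNat 410), (.negSucc 326, .negSucc 217), (.ofNat 96, .negSucc 79), (.ofNat 15, .ofNat 1)], [(.negSucc 79, .ofNat 32), (.negSucc 287, .negSucc 143), (.ofNat 552, .negSucc 551), (.ofNat 1168, .ofNat 0), (.ofNat 0, .ofNat 491), (.negSucc 368, .ofNat 123), (.negSucc 50, .negSucc 33), (.ofNat 6, .negSucc 4)], [(.ofNat 8, .ofNat 40), (.negSucc 339, .ofNat 136), (.negSucc 491, .negSucc 245), (.ofNat 491, .negSucc 490), (.ofNat 584, .ofNat 0), (.ofNat 0, .ofNat 138), (.negSucc 53, .ofNat 18), (.negSucc 2, .negSucc 1)], [(.ofNat 64, .negSucc 3), (.ofNat 32, .ofNat 160), (.negSucc 544, .ofNat 218), (.negSucc 409, .negSucc 204), (.ofNat 230, .negSucc 229), (.ofNat 154, .ofNat 0), (.ofNat 0, .ofNat 19), (.negSucc 2, .ofNat 1)],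 [(.ofNat 26, .negSucc 31), (.ofNat 240, .negSucc 14), (.ofNat 48, .ofNat 240), (.negSucc 424, .ofNat 170), (.negSucc 179, .negSucc 89), (.ofNat 57, .negSucc 56), (.ofNat 20, .ofNat 0), (.ofNat 0, .ofNat 1)], [(.negSucc 34, .negSucc 12), (.ofNat 91, .negSucc 111), (.ofNat 336, .negSucc 20), (.ofNat 35, .ofNat 175), (.negSucc 174, .ofNat 70), (.negSucc 41, .negSucc 20), (.ofNat 7, .negSucc 6), (.ofNat 1, .ofNat 0)]], [[(.negSucc 34, .negSucc 12), (.ofNat 182, .negSucc 223), (.ofNat 1344, .negSucc 83), (.ofNat 280, .ofNat 1400), (.negSucc 2799, .ofNat 1120), (.negSucc 1343, .negSucc 671), (.ofNat 448, .negSucc 447), (.ofNat 128, .ofNat 0)], [(.ofNat 26, .negSucc 31), (.ofNat 432, .negSucc 26), (.ofNat 156, .ofNat 780), (.negSucc 2499, .ofNat 1000), (.negSucc 1919, .negSucc 959), (.ofNat 1104, .negSucc 1103), (.ofNat 704, .ofNat 0), (.ofNat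 0, .ofNat 64)], [(.ofNat 64, .negSucc 3), (.ofNat 52, .ofNat 260), (.negSucc 1444, .ofNat 578), (.negSucc 1779, .negSucc 889), (.ofNat 1640, .negSucc 1639), (.ofNat 1808, .ofNat 0), (.ofNat 0, .ofNat 368), (.negSucc 95, .ofNat 32)], [(.ofNat 8, .ofNat 40), (.negSucc 499, .ofNat 200), (.negSucc 1067, .negSucc 533), (.ofNat 1579, .negSucc 1578), (.ofNat 2792, .ofNat 0), (.ofNat 0, .ofNat 984), (.negSucc 575, .ofNat 192), (.negSucc 47, .negSucc 31)], [(.negSucc 79, .ofNat 32), (.negSucc 383, .negSucc 191), (.ofNat 984, .negSucc 983), (.ofNat 2792, .ofNat 0), (.ofNat 0, .ofNat 1579), (.negSucc 1601, .ofNat 534), (.negSucc 299, .negSucc 199), (.ofNat 48, .negSucc 39)], [(.negSucc 63, .negSucc 31), (.ofNat 368, .negSucc 367), (.ofNat 1808, .ofNat 0), (.ofNat 0, .ofNat 1640), (.negSucc 2669, .ofNat 890), (.negSucc 866, .negSucc 577), (.ofNat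 312, .negSucc 259), (.ofNat 60, .ofNat 4)], [(.ofNat 64, .negSucc 63), (.ofNat 704, .ofNat 0), (.ofNat 0, .ofNat 1104), (.negSucc 2879, .ofNat 960), (.negSucc 1499, .negSucc 999), (.ofNat 936, .negSucc 779), (.ofNat 405, .ofNat 27), (.negSucc 5, .ofNat 32)], [(.ofNat 128, .ofNat 0), (.ofNat 0, .ofNat 448), (.negSucc 2015, .ofNat 672), (.negSucc 1679, .negSucc 1119), (.ofNat 1680, .negSucc 1399), (.ofNat 1260, .ofNat 84), (.negSucc 41, .ofNat 224), (.negSucc 47, .ofNat 13)]], [[(.ofNat 1, .ofNat 0), (.ofNat 0, .ofNat 7), (.negSucc 62, .ofNat 21), (.negSucc 104, .negSucc 69), (.ofNat 210, .negSucc 174), (.ofNat 315, .ofNat 21), (.negSucc 20, .ofNat 112), (.negSucc 47, .ofNat 13)], [(.ofNat 1, .negSucc 0), (.ofNat 20, .ofNat 0), (.ofNat 0, .ofNat 57), (.negSucc 269, .ofNat 90), (.negSucc 254, .negSucc 169), (.ofNat 288, .negSucc 239), (.ofNat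 225, .ofNat 15), (.negSucc 5, .ofNat 32)], [(.negSucc 1, .negSucc 0), (.ofNat 19, .negSucc 18), (.ofNat 154, .ofNat 0), (.ofNat 0, .ofNat 230), (.negSucc 614, .ofNat 205), (.negSucc 326, .negSucc 217), (.ofNat 192, .negSucc 159), (.ofNat 60, .ofNat 4)], [(.negSucc 4, .ofNat 2), (.negSucc 35, .negSucc 17), (.ofNat 138, .negSucc 137), (.ofNat 584, .ofNat 0), (.ofNat 0, .ofNat 491), (.negSucc 737, .ofNat 246), (.negSucc 203, .negSucc 135), (.ofNat 48, .negSucc 39)], [(.ofNat 1, .ofNat 5), (.negSucc 84, .ofNat 34), (.negSucc 245, .negSucc 122), (.ofNat 491, .negSucc 490), (.ofNat 1168, .ofNat 0), (.ofNat 0, .ofNat 552), (.negSucc 431, .ofNat 144), (.negSucc 47, .negSucc 31)], [(.ofNat 16, .negSucc 0), (.ofNat 16, .ofNat 80), (.negSucc 544, .ofNat 218), (.negSucc 819, .negSucc 409), (.ofNat 920, .negSucc 919), (.ofNat 1232, .ofNat 0), (.ofNat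 0, .ofNat 304), (.negSucc 95, .ofNat 32)], [(.ofNat 13, .negSucc 15), (.ofNat 240, .negSucc 14), (.ofNat 96, .ofNat 480), (.negSucc 1699, .ofNat 680), (.negSucc 1439, .negSucc 719), (.ofNat 912, .negSucc 911), (.ofNat 640, .ofNat 0), (.ofNat 0, .ofNat 64)], [(.negSucc 34, .negSucc 12), (.ofNat 182, .negSucc 223), (.ofNat 1344, .negSucc 83), (.ofNat 280, .ofNat 1400), (.negSucc 2799, .ofNat 1120), (.negSucc 1343, .negSucc 671), (.ofNat 448, .negSucc 447), (.ofNat 128, .ofNat 0)]], [[(.ofNat 0, .ofNat 0), (.ofNat 0, .ofNat 0), (.ofNat 0, .ofNat 0), (.ofNat 0, .ofNat 0), (.ofNat 0, .ofNat 0), (.ofNat 0, .ofNat 0), (.ofNat 0, .ofNat 0), (.ofNat 1, .ofNat 0)], [(.ofNat 0, .ofNat 0), (.ofNat 0, .ofNat 0), (.ofNat 0, .ofNat 0), (.ofNat 0, .ofNat 0), (.ofNat 0, .ofNat 0), (.ofNat 0, .ofNat 0), (.ofNat 1, .ofNat 0), (.ofNat 0, .ofNat 1)], [(.ofNat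 0, .ofNat 0), (.ofNat 0, .ofNat 0), (.ofNat 0, .ofNat 0), (.ofNat 0, .ofNat 0), (.ofNat 0, .ofNat 0), (.ofNat 1, .ofNat 0), (.ofNat 0, .ofNat 2), (.negSucc 2, .ofNat 1)], [(.ofNat 0, .ofNat 0), (.ofNat 0, .ofNat 0), (.ofNat 0, .ofNat 0), (.ofNat 0, .ofNat 0), (.ofNat 1, .ofNat 0), (.ofNat 0, .ofNat 3), (.negSucc 8, .ofNat 3), (.negSucc 2, .negSucc 1)], [(.ofNat 0, .ofNat 0), (.ofNat 0, .ofNat 0), (.ofNat 0, .ofNat 0), (.ofNat 1, .ofNat 0), (.ofNat 0, .ofNat 4), (.negSucc 17, .ofNat 6), (.negSucc 11, .negSucc 7), (.ofNat 6, .negSucc 4)], [(.ofNat 0, .ofNat 0), (.ofNat 0, .ofNat 0), (.ofNat 1, .ofNat 0), (.ofNat 0, .ofNat 5), (.negSucc 29, .ofNat 10), (.negSucc 29, .negSucc 19), (.ofNat 30, .negSucc 24), (.ofNat 15, .ofNat 1)], [(.ofNat 0, .ofNat 0), (.ofNat 1, .ofNat 0), (.ofNat 0, .ofNat 6), (.negSucc 44, .ofNat 15), (.negSucc 59, .negSucc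 39), (.ofNat 90, .negSucc 74), (.ofNat 90, .ofNat 6), (.negSucc 2, .ofNat 16)], [(.ofNat 1, .ofNat 0), (.ofNat 0, .ofNat 7), (.negSucc 62, .ofNat 21), (.negSucc 104, .negSucc 69), (.ofNat 210, .negSucc 174), (.ofNat 315, .ofNat 21), (.negSucc 20, .ofNat 112), (.negSucc 47, .ofNat 13)]]]
  rws := [(0, 0, 1, 0), (0, 0, 3, 0), (0, 0, 6, 0), (0, 0, 7, 0), (0, 1, 2, 0), (0, 1, 4, 0)]
  cols := [((0, 2), [.ofNat 4, .ofNat 30, .negSucc 11, .ofNat 2, .ofNat 42, .ofNat 210]), ((0, 4), [.ofNat 8, .ofNat 38, .negSucc 9, .ofNat 2, .ofNat 42, .ofNat 112]), ((0, 6), [.ofNat 12, .ofNat 55, .negSucc 7, .ofNat 2, .ofNat 21, .ofNat 35]), ((1, 3), [.ofNat 4, .ofNat 17, .negSucc 0, .ofNat 0, .ofNat 27, .ofNat 58]), ((1, 5), [.ofNat 8, .ofNat 30, .negSucc 0, .ofNat 0, .ofNat 34, .ofNat 35]), ((2, 4), [.ofNat 4, .ofNat 13, .ofNat 0, .ofNat 0, .ofNat 23, .ofNat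 17])]
  tg := [((0, 2), .ofNat 60, [.ofNat 125, .negSucc 25, .ofNat 20, .ofNat 80, .negSucc 9, .ofNat 4]), ((0, 4), .ofNat 24, [.negSucc 55, .ofNat 11, .negSucc 17, .negSucc 55, .ofNat 5, .negSucc 1]), ((0, 6), .ofNat 120, [.ofNat 30, .negSucc 2, .ofNat 50, .ofNat 180, .negSucc 4, .ofNat 2]), ((1, 3), .ofNat 24, [.negSucc 129, .ofNat 28, .ofNat 1, .negSucc 27, .ofNat 9, .negSucc 2]), ((1, 5), .ofNat 40, [.ofNat 70, .negSucc 13, .negSucc 34, .negSucc 139, .negSucc 4, .ofNat 1]), ((2, 4), .ofNat 8, [.ofNat 32, .negSucc 6, .ofNat 13, .ofNat 56, .negSucc 1, .ofNat 1])]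

theorem NIT_3_1_7 (l : ℕ) (hlp : l.Prime) (hl2 : l ≠ 2) (hls : ¬ l ∣ 11) (hE : ¬ l ∣ 11)
    (hj : 7 < l) : NUMA_stmt 3 1 l 7 :=
  @NI_fin 3 1 11 1 11 7 (by norm_num) NIC_3_1_7 (by decide +kernel) (by decide +kernel)
    (by decide +kernel) (by decide +kernel) l hlp hl2 hls hE hj

/-- certificate, `d = 3`, `t = 1`, `j = 8` -/
def NIC_3_1_8 : NI_Cert where
  tab0 := [[[(.ofNat 1, .ofNat 0), (.ofNat 0, .ofNat 0), (.ofNat 0, .ofNat 0), (.ofNat 0, .ofNat 0), (.ofNat 0, .ofNat 0), (.ofNat 0, .ofNat 0), (.ofNat 0, .ofNat 0), (.ofNat 0, .ofNat 0), (.ofNat 0, .ofNat 0)], [(.ofNat 0, .ofNat 0), (.ofNat 1, .ofNat 0), (.ofNat 0, .ofNat 0), (.ofNat 0, .ofNat 0), (.ofNat 0, .ofNat 0), (.ofNat 0, .ofNat 0), (.ofNat 0, .ofNat 0), (.ofNat 0, .ofNat 0), (.ofNat 0, .ofNat 0)], [(.ofNat 0, .ofNat 0), (.ofNat 0, .ofNat 0), (.ofNat 1, .ofNat 0), (.ofNat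 0, .ofNat 0), (.ofNat 0, .ofNat 0), (.ofNat 0, .ofNat 0), (.ofNat 0, .ofNat 0), (.ofNat 0, .ofNat 0), (.ofNat 0, .ofNat 0)], [(.ofNat 0, .ofNat 0), (.ofNat 0, .ofNat 0), (.ofNat 0, .ofNat 0), (.ofNat 1, .ofNat 0), (.ofNat 0, .ofNat 0), (.ofNat 0, .ofNat 0), (.ofNat 0, .ofNat 0), (.ofNat 0, .ofNat 0), (.ofNat 0, .ofNat 0)], [(.ofNat 0, .ofNat 0), (.ofNat 0, .ofNat 0), (.ofNat 0, .ofNat 0), (.ofNat 0, .ofNat 0), (.ofNat 1, .ofNat 0), (.ofNat 0, .ofNat 0), (.ofNat 0, .ofNat 0), (.ofNat 0, .ofNat 0), (.ofNat 0, .ofNat 0)], [(.ofNat 0, .ofNat 0), (.ofNat 0, .ofNat 0), (.ofNat 0, .ofNat 0), (.ofNat 0, .ofNat 0), (.ofNat 0, .ofNat 0), (.ofNat 1, .ofNat 0), (.ofNat 0, .ofNat 0), (.ofNat 0, .ofNat 0), (.ofNat 0, .ofNat 0)], [(.ofNat 0, .ofNat 0), (.ofNat 0, .ofNat 0), (.ofNat 0, .ofNat 0), (.ofNat 0, .ofNat 0), (.ofNat 0, .ofNat 0), (.ofNat 0,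 .ofNat 0), (.ofNat 1, .ofNat 0), (.ofNat 0, .ofNat 0), (.ofNat 0, .ofNat 0)], [(.ofNat 0, .ofNat 0), (.ofNat 0, .ofNat 0), (.ofNat 0, .ofNat 0), (.ofNat 0, .ofNat 0), (.ofNat 0, .ofNat 0), (.ofNat 0, .ofNat 0), (.ofNat 0, .ofNat 0), (.ofNat 1, .ofNat 0), (.ofNat 0, .ofNat 0)], [(.ofNat 0, .ofNat 0), (.ofNat 0, .ofNat 0), (.ofNat 0, .ofNat 0), (.ofNat 0, .ofNat 0), (.ofNat 0, .ofNat 0), (.ofNat 0, .ofNat 0), (.ofNat 0, .ofNat 0), (.ofNat 0, .ofNat 0), (.ofNat 1, .ofNat 0)]], [[(.ofNat 1, .ofNat 0), (.negSucc 7, .ofNat 0), (.ofNat 28, .ofNat 0), (.negSucc 55, .ofNat 0), (.ofNat 70, .ofNat 0), (.negSucc 55, .ofNat 0), (.ofNat 28, .ofNat 0), (.negSucc 7, .ofNat 0), (.ofNat 1, .ofNat 0)], [(.ofNat 1, .ofNat 0), (.negSucc 6, .ofNat 0), (.ofNat 21, .ofNat 0), (.negSucc 34, .ofNat 0), (.ofNat 35, .ofNat 0), (.negSucc 20, .ofNat 0), (.ofNat 7,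 .ofNat 0), (.negSucc 0, .ofNat 0), (.ofNat 0, .ofNat 0)], [(.ofNat 1, .ofNat 0), (.negSucc 5, .ofNat 0), (.ofNat 15, .ofNat 0), (.negSucc 19, .ofNat 0), (.ofNat 15, .ofNat 0), (.negSucc 5, .ofNat 0), (.ofNat 1, .ofNat 0), (.ofNat 0, .ofNat 0), (.ofNat 0, .ofNat 0)], [(.ofNat 1, .ofNat 0), (.negSucc 4, .ofNat 0), (.ofNat 10, .ofNat 0), (.negSucc 9, .ofNat 0), (.ofNat 5, .ofNat 0), (.negSucc 0, .ofNat 0), (.ofNat 0, .ofNat 0), (.ofNat 0, .ofNat 0), (.ofNat 0, .ofNat 0)], [(.ofNat 1, .ofNat 0), (.negSucc 3, .ofNat 0), (.ofNat 6, .ofNat 0), (.negSucc 3, .ofNat 0), (.ofNat 1, .ofNat 0), (.ofNat 0, .ofNat 0), (.ofNat 0, .ofNat 0), (.ofNat 0, .ofNat 0), (.ofNat 0, .ofNat 0)], [(.ofNat 1, .ofNat 0), (.negSucc 2, .ofNat 0), (.ofNat 3, .ofNat 0), (.negSucc 0, .ofNat 0), (.ofNat 0, .ofNat 0), (.ofNat 0, .ofNat 0), (.ofNat 0, .ofNat 0), (.ofNat 0,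 .ofNat 0), (.ofNat 0, .ofNat 0)], [(.ofNat 1, .ofNat 0), (.negSucc 1, .ofNat 0), (.ofNat 1, .ofNat 0), (.ofNat 0, .ofNat 0), (.ofNat 0, .ofNat 0), (.ofNat 0, .ofNat 0), (.ofNat 0, .ofNat 0), (.ofNat 0, .ofNat 0), (.ofNat 0, .ofNat 0)], [(.ofNat 1, .ofNat 0), (.negSucc 0, .ofNat 0), (.ofNat 0, .ofNat 0), (.ofNat 0, .ofNat 0), (.ofNat 0, .ofNat 0), (.ofNat 0, .ofNat 0), (.ofNat 0, .ofNat 0), (.ofNat 0, .ofNat 0), (.ofNat 0, .ofNat 0)], [(.ofNat 1, .ofNat 0), (.ofNat 0, .ofNat 0), (.ofNat 0, .ofNat 0), (.ofNat 0, .ofNat 0), (.ofNat 0, .ofNat 0), (.ofNat 0, .ofNat 0), (.ofNat 0, .ofNat 0), (.ofNat 0, .ofNat 0), (.ofNat 0, .ofNat 0)]], [[(.ofNat 0, .ofNat 0), (.ofNat 0, .ofNat 0), (.ofNat 0, .ofNat 0), (.ofNat 0, .ofNat 0), (.ofNat 0, .ofNat 0), (.ofNat 0, .ofNat 0), (.ofNat 0, .ofNat 0), (.ofNat 0, .ofNat 0), (.ofNat 1, .ofNat 0)], [(.ofNat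 0, .ofNat 0), (.ofNat 0, .ofNat 0), (.ofNat 0, .ofNat 0), (.ofNat 0, .ofNat 0), (.ofNat 0, .ofNat 0), (.ofNat 0, .ofNat 0), (.ofNat 0, .ofNat 0), (.negSucc 0, .ofNat 0), (.ofNat 1, .ofNat 0)], [(.ofNat 0, .ofNat 0), (.ofNat 0, .ofNat 0), (.ofNat 0, .ofNat 0), (.ofNat 0, .ofNat 0), (.ofNat 0, .ofNat 0), (.ofNat 0, .ofNat 0), (.ofNat 1, .ofNat 0), (.negSucc 1, .ofNat 0), (.ofNat 1, .ofNat 0)], [(.ofNat 0, .ofNat 0), (.ofNat 0, .ofNat 0), (.ofNat 0, .ofNat 0), (.ofNat 0, .ofNat 0), (.ofNat 0, .ofNat 0), (.negSucc 0, .ofNat 0), (.ofNat 3, .ofNat 0), (.negSucc 2, .ofNat 0), (.ofNat 1, .ofNat 0)], [(.ofNat 0, .ofNat 0), (.ofNat 0, .ofNat 0), (.ofNat 0, .ofNat 0), (.ofNat 0, .ofNat 0), (.ofNat 1, .ofNat 0), (.negSucc 3, .ofNat 0), (.ofNat 6, .ofNat 0), (.negSucc 3, .ofNat 0), (.ofNat 1, .ofNat 0)], [(.ofNat 0, .ofNat 0), (.ofNat 0, .ofNat 0),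 (.ofNat 0, .ofNat 0), (.negSucc 0, .ofNat 0), (.ofNat 5, .ofNat 0), (.negSucc 9, .ofNat 0), (.ofNat 10, .ofNat 0), (.negSucc 4, .ofNat 0), (.ofNat 1, .ofNat 0)], [(.ofNat 0, .ofNat 0), (.ofNat 0, .ofNat 0), (.ofNat 1, .ofNat 0), (.negSucc 5, .ofNat 0), (.ofNat 15, .ofNat 0), (.negSucc 19, .ofNat 0), (.ofNat 15, .ofNat 0), (.negSucc 5, .ofNat 0), (.ofNat 1, .ofNat 0)], [(.ofNat 0, .ofNat 0), (.negSucc 0, .ofNat 0), (.ofNat 7, .ofNat 0), (.negSucc 20, .ofNat 0), (.ofNat 35, .ofNat 0), (.negSucc 34, .ofNat 0), (.ofNat 21, .ofNat 0), (.negSucc 6, .ofNat 0), (.ofNat 1, .ofNat 0)], [(.ofNat 1, .ofNat 0), (.negSucc 7, .ofNat 0), (.ofNat 28, .ofNat 0), (.negSucc 55, .ofNat 0), (.ofNat 70, .ofNat 0), (.negSucc 55, .ofNat 0), (.ofNat 28, .ofNat 0), (.negSucc 7, .ofNat 0), (.ofNat 1, .ofNat 0)]]]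
  tab1 := [[[(.ofNat 1, .ofNat 0), (.ofNat 0, .ofNat 0), (.ofNat 0, .ofNat 0), (.ofNat 0, .ofNat 0), (.ofNat 0, .ofNat 0), (.ofNat 0, .ofNat 0), (.ofNat 0, .ofNat 0), (.ofNat 0, .ofNat 0), (.ofNat 0, .ofNat 0)], [(.ofNat 0, .ofNat 0), (.ofNat 1, .ofNat 0), (.ofNat 0, .ofNat 0), (.ofNat 0, .ofNat 0), (.ofNat 0, .ofNat 0), (.ofNat 0, .ofNat 0), (.ofNat 0, .ofNat 0), (.ofNat 0, .ofNat 0), (.ofNat 0, .ofNat 0)], [(.ofNat 0, .ofNat 0), (.ofNat 0, .ofNat 0), (.ofNat 1, .ofNat 0), (.ofNat 0, .ofNat 0), (.ofNat 0, .ofNat 0), (.ofNat 0, .ofNat 0), (.ofNat 0, .ofNat 0), (.ofNat 0, .ofNat 0), (.ofNat 0, .ofNat 0)], [(.ofNat 0, .ofNat 0), (.ofNat 0, .ofNat 0), (.ofNat 0, .ofNat 0), (.ofNat 1, .ofNat 0), (.ofNat 0, .ofNat 0), (.ofNat 0, .ofNat 0), (.ofNat 0, .ofNat 0), (.ofNat 0, .ofNat 0), (.ofNat 0, .ofNat 0)], [(.ofNat 0, .ofNat 0), (.ofNat 0,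 .ofNat 0), (.ofNat 0, .ofNat 0), (.ofNat 0, .ofNat 0), (.ofNat 1, .ofNat 0), (.ofNat 0, .ofNat 0), (.ofNat 0, .ofNat 0), (.ofNat 0, .ofNat 0), (.ofNat 0, .ofNat 0)], [(.ofNat 0, .ofNat 0), (.ofNat 0, .ofNat 0), (.ofNat 0, .ofNat 0), (.ofNat 0, .ofNat 0), (.ofNat 0, .ofNat 0), (.ofNat 1, .ofNat 0), (.ofNat 0, .ofNat 0), (.ofNat 0, .ofNat 0), (.ofNat 0, .ofNat 0)], [(.ofNat 0, .ofNat 0), (.ofNat 0, .ofNat 0), (.ofNat 0, .ofNat 0), (.ofNat 0, .ofNat 0), (.ofNat 0, .ofNat 0), (.ofNat 0, .ofNat 0), (.ofNat 1, .ofNat 0), (.ofNat 0, .ofNat 0), (.ofNat 0, .ofNat 0)], [(.ofNat 0, .ofNat 0), (.ofNat 0, .ofNat 0), (.ofNat 0, .ofNat 0), (.ofNat 0, .ofNat 0), (.ofNat 0, .ofNat 0), (.ofNat 0, .ofNat 0), (.ofNat 0, .ofNat 0), (.ofNat 1, .ofNat 0), (.ofNat 0, .ofNat 0)], [(.ofNat 0, .ofNat 0), (.ofNat 0, .ofNat 0), (.ofNat 0, .ofNat 0), (.ofNat 0, .ofNat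 0), (.ofNat 0, .ofNat 0), (.ofNat 0, .ofNat 0), (.ofNat 0, .ofNat 0), (.ofNat 0, .ofNat 0), (.ofNat 1, .ofNat 0)]], [[(.negSucc 73, .ofNat 35), (.negSucc 279, .negSucc 103), (.ofNat 364, .negSucc 447), (.ofNat 896, .negSucc 55), (.ofNat 70, .ofNat 350), (.negSucc 279, .ofNat 112), (.negSucc 55, .negSucc 27), (.ofNat 8, .negSucc 7), (.ofNat 1, .ofNat 0)], [(.negSucc 34, .negSucc 12), (.ofNat 91, .negSucc 111), (.ofNat 336, .negSucc 20), (.ofNat 35, .ofNat 175), (.negSucc 174, .ofNat 70), (.negSucc 41, .negSucc 20), (.ofNat 7, .negSucc 6), (.ofNat 1, .ofNat 0), (.ofNat 0, .ofNat 0)], [(.ofNat 13, .negSucc 15), (.ofNat 96, .negSucc 5), (.ofNat 15, .ofNat 75), (.negSucc 99, .ofNat 40), (.negSucc 29, .negSucc 14), (.ofNat 6, .negSucc 5), (.ofNat 1, .ofNat 0), (.ofNat 0, .ofNat 0), (.ofNat 0, .ofNat 0)], [(.ofNat 16, .negSucc 0), (.ofNat 5,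 .ofNat 25), (.negSucc 49, .ofNat 20), (.negSucc 19, .negSucc 9), (.ofNat 5, .negSucc 4), (.ofNat 1, .ofNat 0), (.ofNat 0, .ofNat 0), (.ofNat 0, .ofNat 0), (.ofNat 0, .ofNat 0)], [(.ofNat 1, .ofNat 5), (.negSucc 19, .ofNat 8), (.negSucc 11, .negSucc 5), (.ofNat 4, .negSucc 3), (.ofNat 1, .ofNat 0), (.ofNat 0, .ofNat 0), (.ofNat 0, .ofNat 0), (.ofNat 0, .ofNat 0), (.ofNat 0, .ofNat 0)], [(.negSucc 4, .ofNat 2), (.negSucc 5, .negSucc 2), (.ofNat 3, .negSucc 2), (.ofNat 1, .ofNat 0), (.ofNat 0, .ofNat 0), (.ofNat 0, .ofNat 0), (.ofNat 0, .ofNat 0), (.ofNat 0, .ofNat 0), (.ofNat 0, .ofNat 0)], [(.negSucc 1, .negSucc 0), (.ofNat 2, .negSucc 1), (.ofNat 1, .ofNat 0), (.ofNat 0, .ofNat 0), (.ofNat 0, .ofNat 0), (.ofNat 0, .ofNat 0), (.ofNat 0, .ofNat 0), (.ofNat 0, .ofNat 0), (.ofNat 0, .ofNat 0)], [(.ofNat 1, .negSucc 0), (.ofNat 1, .ofNat 0),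 (.ofNat 0, .ofNat 0), (.ofNat 0, .ofNat 0), (.ofNat 0, .ofNat 0), (.ofNat 0, .ofNat 0), (.ofNat 0, .ofNat 0), (.ofNat 0, .ofNat 0), (.ofNat 0, .ofNat 0)], [(.ofNat 1, .ofNat 0), (.ofNat 0, .ofNat 0), (.ofNat 0, .ofNat 0), (.ofNat 0, .ofNat 0), (.ofNat 0, .ofNat 0), (.ofNat 0, .ofNat 0), (.ofNat 0, .ofNat 0), (.ofNat 0, .ofNat 0), (.ofNat 0, .ofNat 0)]], [[(.ofNat 256, .ofNat 0), (.ofNat 0, .ofNat 1024), (.negSucc 5375, .ofNat 1792), (.negSucc 5375, .negSucc 3583), (.ofNat 6720, .negSucc 5599), (.ofNat 6720, .ofNat 448), (.negSucc 335, .ofNat 1792), (.negSucc 767, .ofNat 208), (.negSucc 38, .negSucc 34)], [(.ofNat 128, .negSucc 127), (.ofNat 1472, .ofNat 0), (.ofNat 0, .ofNat 2464), (.negSucc 7055, .ofNat 2352), (.negSucc 4199, .negSucc 2799), (.ofNat 3192, .negSucc 2659), (.ofNat 1890, .ofNat 126), (.negSucc 50, .ofNat 272), (.negSucc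 47, .ofNat 13)], [(.negSucc 127, .negSucc 63), (.ofNat 704, .negSucc 703), (.ofNat 3376, .ofNat 0), (.ofNat 0, .ofNat 3072), (.negSucc 5219, .ofNat 1740), (.negSucc 1883, .negSucc 1255), (.ofNat 846, .negSucc 704), (.ofNat 270, .ofNat 18), (.negSucc 2, .ofNat 16)], [(.negSucc 159, .ofNat 64), (.negSucc 671, .negSucc 335), (.ofNat 1536, .negSucc 1535), (.ofNat 3992, .ofNat 0), (.ofNat 0, .ofNat 2150), (.negSucc 2210, .ofNat 737), (.negSucc 470, .negSucc 313), (.ofNat 114, .negSucc 94), (.ofNat 15, .ofNat 1)], [(.ofNat 16, .ofNat 80), (.negSucc 799, .ofNat 320), (.negSucc 1391, .negSucc 695), (.ofNat 1720, .negSucc 1719), (.ofNat 2641, .ofNat 0), (.ofNat 0, .ofNat 860), (.negSucc 521, .ofNat 174), (.negSucc 59, .negSucc 39), (.ofNat 6, .negSucc 4)], [(.ofNat 128, .negSucc 7), (.ofNat 76, .ofNat 380), (.negSucc 1569, .ofNat 628), (.negSucc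 1473, .negSucc 736), (.ofNat 1075, .negSucc 1074), (.ofNat 998, .ofNat 0), (.ofNat 0, .ofNat 192), (.negSucc 62, .ofNat 21), (.negSucc 2, .negSucc 1)], [(.ofNat 52, .negSucc 63), (.ofNat 576, .negSucc 35), (.ofNat 141, .ofNat 705), (.negSucc 1569, .ofNat 628), (.negSucc 869, .negSucc 434), (.ofNat 384, .negSucc 383), (.ofNat 211, .ofNat 0), (.ofNat 0, .ofNat 22), (.negSucc 2, .ofNat 1)], [(.negSucc 69, .negSucc 25), (.ofNat 221, .negSucc 271), (.ofNat 1008, .negSucc 62), (.ofNat 133, .ofNat 665), (.negSucc 874, .ofNat 350), (.negSucc 293, .negSucc 146), (.ofNat 77, .negSucc 76), (.ofNat 23, .ofNat 0), (.ofNat 0, .ofNat 1)], [(.negSucc 73, .ofNat 35), (.negSucc 279, .negSucc 103), (.ofNat 364, .negSucc 447), (.ofNat 896, .negSucc 55), (.ofNat 70, .ofNat 350), (.negSucc 279, .ofNat 112), (.negSucc 55, .negSucc 27), (.ofNat 8, .negSucc 7),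 (.ofNat 1, .ofNat 0)]], [[(.negSucc 73, .ofNat 35), (.negSucc 559, .negSucc 207), (.ofNat 1456, .negSucc 1791), (.ofNat 7168, .negSucc 447), (.ofNat 1120, .ofNat 5600), (.negSucc 8959, .ofNat 3584), (.negSucc 3583, .negSucc 1791), (.ofNat 1024, .negSucc 1023), (.ofNat 256, .ofNat 0)], [(.negSucc 69, .negSucc 25), (.ofNat 403, .negSucc 495), (.ofNat 3360, .negSucc 209), (.ofNat 812, .ofNat 4060), (.negSucc 9799, .ofNat 3920), (.negSucc 6047, .negSucc 3023), (.ofNat 2912, .negSucc 2911), (.ofNat 1600, .ofNat 0), (.ofNat 0, .ofNat 128)], [(.ofNat 52, .negSucc 63), (.ofNat 960, .negSucc 59), (.ofNat 393, .ofNat 1965), (.negSucc 7339, .ofNat 2936), (.negSucc 6839, .negSucc 3419), (.ofNat 5088, .negSucc 5087), (.ofNat 4720, .ofNat 0), (.ofNat 0, .ofNat 832), (.negSucc 191, .ofNat 64)], [(.ofNat 128, .negSucc 7), (.ofNat 116, .ofNat 580), (.negSucc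 3669, .ofNat 1468), (.negSucc 5293, .negSucc 2646), (.ofNat 5950, .negSucc 5949), (.ofNat 8536, .ofNat 0), (.ofNat 0, .ofNat 2544), (.negSucc 1295, .ofNat 432), (.negSucc 95, .negSucc 63)], [(.ofNat 16, .ofNat 80), (.negSucc 1119, .ofNat 448), (.negSucc 2735, .negSucc 1367), (.ofNat 4760, .negSucc 4759), (.ofNat 10321, .ofNat 0), (.ofNat 0, .ofNat 4760), (.negSucc 4103, .ofNat 1368), (.negSucc 671, .negSucc 447), (.ofNat 96, .negSucc 79)], [(.negSucc 159, .ofNat 64), (.negSucc 863, .negSucc 431), (.ofNat 2544, .negSucc 2543), (.ofNat 8536, .ofNat 0), (.ofNat 0, .ofNat 5950), (.negSucc 7940, .ofNat 2647), (.negSucc 2201, .negSucc 1467), (.ofNat 696, .negSucc 579), (.ofNat 120, .ofNat 8)], [(.negSucc 127, .negSucc 63), (.ofNat 832, .negSucc 831), (.ofNat 4720, .ofNat 0), (.ofNat 0, .ofNat 5088), (.negSucc 10259, .ofNat 3420), (.negSucc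 4403, .negSucc 2935), (.ofNat 2358, .negSucc 1964), (.ofNat 900, .ofNat 60), (.negSucc 11, .ofNat 64)], [(.ofNat 128, .negSucc 127), (.ofNat 1600, .ofNat 0), (.ofNat 0, .ofNat 2912), (.negSucc 9071, .ofNat 3024), (.negSucc 5879, .negSucc 3919), (.ofNat 4872, .negSucc 4059), (.ofNat 3150, .ofNat 210), (.negSucc 92, .ofNat 496), (.negSucc 95, .ofNat 26)], [(.ofNat 256, .ofNat 0), (.ofNat 0, .ofNat 1024), (.negSucc 5375, .ofNat 1792), (.negSucc 5375, .negSucc 3583), (.ofNat 6720, .negSucc 5599), (.ofNat 6720, .ofNat 448), (.negSucc 335, .ofNat 1792), (.negSucc 767, .ofNat 208), (.negSucc 38, .negSucc 34)]], [[(.ofNat 1, .ofNat 0), (.ofNat 0, .ofNat 8), (.negSucc 83, .ofNat 28), (.negSucc 167, .negSucc 111), (.ofNat 420, .negSucc 349), (.ofNat 840, .ofNat 56), (.negSucc 83, .ofNat 448), (.negSucc 383, .ofNat 104), (.negSucc 38, .negSucc 34)],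 [(.ofNat 1, .negSucc 0), (.ofNat 23, .ofNat 0), (.ofNat 0, .ofNat 77), (.negSucc 440, .ofNat 147), (.negSucc 524, .negSucc 349), (.ofNat 798, .negSucc 664), (.ofNat 945, .ofNat 63), (.negSucc 50, .ofNat 272), (.negSucc 95, .ofNat 26)], [(.negSucc 1, .negSucc 0), (.ofNat 22, .negSucc 21), (.ofNat 211, .ofNat 0), (.ofNat 0, .ofNat 384), (.negSucc 1304, .ofNat 435), (.negSucc 941, .negSucc 627), (.ofNat 846, .negSucc 704), (.ofNat 540, .ofNat 36), (.negSucc 11, .ofNat 64)], [(.negSucc 4, .ofNat 2), (.negSucc 41, .negSucc 20), (.ofNat 192, .negSucc 191), (.ofNat 998, .ofNat 0), (.ofNat 0, .ofNat 1075), (.negSucc 2210, .ofNat 737), (.negSucc 941, .negSucc 627), (.ofNat 456, .negSucc 379), (.ofNat 120, .ofNat 8)], [(.ofNat 1, .ofNat 5), (.negSucc 99, .ofNat 40), (.negSucc 347, .negSucc 173), (.ofNat 860, .negSucc 859), (.ofNat 2641, .ofNat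 0), (.ofNat 0, .ofNat 1720), (.negSucc 2087, .ofNat 696), (.negSucc 479, .negSucc 319), (.ofNat 96, .negSucc 79)], [(.ofNat 16, .negSucc 0), (.ofNat 19, .ofNat 95), (.negSucc 784, .ofNat 314), (.negSucc 1473, .negSucc 736), (.ofNat 2150, .negSucc 2149), (.ofNat 3992, .ofNat 0), (.ofNat 0, .ofNat 1536), (.negSucc 1007, .ofNat 336), (.negSucc 95, .negSucc 63)], [(.ofNat 13, .negSucc 15), (.ofNat 288, .negSucc 17), (.ofNat 141, .ofNat 705), (.negSucc 3139, .ofNat 1256), (.negSucc 3479, .negSucc 1739), (.ofNat 3072, .negSucc 3071), (.ofNat 3376, .ofNat 0), (.ofNat 0, .ofNat 704), (.negSucc 191, .ofNat 64)], [(.negSucc 34, .negSucc 12), (.ofNat 221, .negSucc 271), (.ofNat 2016, .negSucc 125), (.ofNat 532, .ofNat 2660), (.negSucc 6999, .ofNat 2800), (.negSucc 4703, .negSucc 2351), (.ofNat 2464, .negSucc 2463), (.ofNat 1472, .ofNat 0), (.ofNat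 0, .ofNat 128)], [(.negSucc 73, .ofNat 35), (.negSucc 559, .negSucc 207), (.ofNat 1456, .negSucc 1791), (.ofNat 7168, .negSucc 447), (.ofNat 1120, .ofNat 5600), (.negSucc 8959, .ofNat 3584), (.negSucc 3583, .negSucc 1791), (.ofNat 1024, .negSucc 1023), (.ofNat 256, .ofNat 0)]], [[(.ofNat 0, .ofNat 0), (.ofNat 0, .ofNat 0), (.ofNat 0, .ofNat 0), (.ofNat 0, .ofNat 0), (.ofNat 0, .ofNat 0), (.ofNat 0, .ofNat 0), (.ofNat 0, .ofNat 0), (.ofNat 0, .ofNat 0), (.ofNat 1, .ofNat 0)], [(.ofNat 0, .ofNat 0), (.ofNat 0, .ofNat 0), (.ofNat 0, .ofNat 0), (.ofNat 0, .ofNat 0), (.ofNat 0, .ofNat 0), (.ofNat 0, .ofNat 0), (.ofNat 0, .ofNat 0), (.ofNat 1, .ofNat 0), (.ofNat 0, .ofNat 1)], [(.ofNat 0, .ofNat 0), (.ofNat 0, .ofNat 0), (.ofNat 0, .ofNat 0), (.ofNat 0, .ofNat 0), (.ofNat 0, .ofNat 0), (.ofNat 0, .ofNat 0), (.ofNat 1, .ofNat 0), (.ofNat 0,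 .ofNat 2), (.negSucc 2, .ofNat 1)], [(.ofNat 0, .ofNat 0), (.ofNat 0, .ofNat 0), (.ofNat 0, .ofNat 0), (.ofNat 0, .ofNat 0), (.ofNat 0, .ofNat 0), (.ofNat 1, .ofNat 0), (.ofNat 0, .ofNat 3), (.negSucc 8, .ofNat 3), (.negSucc 2, .negSucc 1)], [(.ofNat 0, .ofNat 0), (.ofNat 0, .ofNat 0), (.ofNat 0, .ofNat 0), (.ofNat 0, .ofNat 0), (.ofNat 1, .ofNat 0), (.ofNat 0, .ofNat 4), (.negSucc 17, .ofNat 6), (.negSucc 11, .negSucc 7), (.ofNat 6, .negSucc 4)], [(.ofNat 0, .ofNat 0), (.ofNat 0, .ofNat 0), (.ofNat 0, .ofNat 0), (.ofNat 1, .ofNat 0), (.ofNat 0, .ofNat 5), (.negSucc 29, .ofNat 10), (.negSucc 29, .negSucc 19), (.ofNat 30, .negSucc 24), (.ofNat 15, .ofNat 1)], [(.ofNat 0, .ofNat 0), (.ofNat 0, .ofNat 0), (.ofNat 1, .ofNat 0), (.ofNat 0, .ofNat 6), (.negSucc 44, .ofNat 15), (.negSucc 59, .negSucc 39), (.ofNat 90, .negSucc 74), (.ofNat 90,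 .ofNat 6), (.negSucc 2, .ofNat 16)], [(.ofNat 0, .ofNat 0), (.ofNat 1, .ofNat 0), (.ofNat 0, .ofNat 7), (.negSucc 62, .ofNat 21), (.negSucc 104, .negSucc 69), (.ofNat 210, .negSucc 174), (.ofNat 315, .ofNat 21), (.negSucc 20, .ofNat 112), (.negSucc 47, .ofNat 13)], [(.ofNat 1, .ofNat 0), (.ofNat 0, .ofNat 8), (.negSucc 83, .ofNat 28), (.negSucc 167, .negSucc 111), (.ofNat 420, .negSucc 349), (.ofNat 840, .ofNat 56), (.negSucc 83, .ofNat 448), (.negSucc 383, .ofNat 104), (.negSucc 38, .negSucc 34)]]]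
  rws := [(0, 0, 1, 0), (0, 0, 4, 0), (0, 0, 7, 0), (0, 0, 8, 0), (0, 1, 5, 0), (0, 1, 6, 0), (0, 1, 7, 0), (0, 3, 5, 0), (1, 1, 0, 0), (1, 2, 2, 0), (1, 5, 3, 0)]
  cols := [((0, 2), [.ofNat 4, .negSucc 69, .ofNat 14, .negSucc 1, .negSucc 447, .ofNat 280, .negSucc 95, .negSucc 1567, .ofNat 58968, .ofNat 4402944, .ofNat 48644064]), ((0, 4), [.ofNat 8, .negSucc 69, .ofNat 12, .negSucc 1, .negSucc 255, .ofNat 160, .negSucc 63, .negSucc 447, .negSucc 149759, .negSucc 11145119, .negSucc 74829887]), ((0, 6), [.ofNat 12, .negSucc 84, .ofNat 10, .negSucc 1, .negSucc 111, .ofNat 64, .negSucc 31, .ofNat 0, .ofNat 185856, .ofNat 13730304, .ofNat 54097344]), ((0, 8), [.ofNat 16, .negSucc 139, .ofNat 16, .negSucc 1, .ofNat 0, .ofNat 0, .ofNat 0, .ofNat 0, .negSucc 141119, .negSucc 10317439, .ofNat 11440128]), ((1, 3), [.ofNat 4, .negSucc 29, .ofNat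 1, .ofNat 0, .negSucc 107, .ofNat 45, .negSucc 9, .negSucc 349, .ofNat 89856, .ofNat 6707862, .ofNat 54836082]), ((1, 5), [.ofNat 8, .negSucc 39, .ofNat 1, .ofNat 0, .negSucc 63, .ofNat 24, .negSucc 5, .negSucc 41, .negSucc 174239, .negSucc 12958259, .negSucc 81559505]), ((1, 7), [.ofNat 12, .negSucc 69, .ofNat 2, .ofNat 0, .negSucc 41, .ofNat 14, .negSucc 1, .ofNat 0, .ofNat 193536, .ofNat 14290752, .ofNat 57297072]), ((2, 4), [.ofNat 4, .negSucc 14, .ofNat 0, .ofNat 0, .negSucc 23, .ofNat 4, .ofNat 0, .negSucc 47, .ofNat 104544, .ofNat 7805952, .ofNat 57849264]), ((2, 6), [.ofNat 8, .negSucc 29, .ofNat 0, .ofNat 0, .negSucc 23, .ofNat 4, .ofNat 0, .ofNat 0, .negSucc 181439, .negSucc 13492079, .negSucc 83549951]), ((3, 5), [.ofNat 4, .negSucc 9, .ofNat 0, .ofNat 0, .negSucc 5, .ofNat 0, .ofNat 0, .negSucc 1, .ofNat 108864, .ofNat 8129268,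 .ofNat 58747278])]
  tg := [((0, 2), .ofNat 776160, [.ofNat 351749099940, .ofNat 98677740656, .negSucc 2512367162759, .negSucc 23678609353279, .ofNat 215270934295, .ofNat 1611013112910, .ofNat 3042235673015, .ofNat 44659241720, .negSucc 352446569, .ofNat 4736655, .ofNat 14025]), ((0, 4), .ofNat 13305600, [.negSucc 13289776235819, .negSucc 3728251323983, .ofNat 94920048818280, .ofNat 894608735684160, .negSucc 8133205089194, .negSucc 60866241037109, .negSucc 114939842640314, .negSucc 1687287921719, .ofNat 13314475650, .negSucc 178937714, .negSucc 529924]), ((0, 6), .ofNat 266112, [.ofNat 150338362356, .ofNat 42175323696, .negSucc 1073746742039, .negSucc 10119960080831, .ofNat 92004033117, .ofNat 688529462490, .ofNat 1300220255565, .ofNat 19086909840, .negSucc 150602045, .ofNat 2023989, .ofNat 5995]), ((0, 8), .ofNat 5174400, [.negSucc 199987240739,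 .negSucc 56103656047, .ofNat 1428341946360, .ofNat 13461994925120, .negSucc 122387564664, .negSucc 915910906769, .negSucc 1729607969704, .negSucc 25390222039, .ofNat 200330550, .negSucc 2692304, .negSucc 7974]), ((1, 3), .ofNat 831600, [.negSucc 903615124859, .negSucc 253493776271, .ofNat 6454337669640, .ofNat 60830433814080, .negSucc 553033237934, .negSucc 4138690416029, .negSucc 7815488036894, .negSucc 114729316559, .ofNat 905613450, .negSucc 12170894, .negSucc 36024]), ((1, 5), .ofNat 55440, [.ofNat 131036654700, .ofNat 36760395408, .negSucc 935910261719, .negSucc 8820823945919, .ofNat 80193249825, .ofNat 600139835010, .ofNat 1133304289425, .ofNat 16636621230, .negSucc 131282129, .ofNat 1764345, .ofNat 5225]), ((1, 7), .ofNat 1455300, [.negSucc 1420626180959, .negSucc 398536888991, .ofNat 10146384428040, .ofNat 95628727682880, .negSucc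 869393527784, .negSucc 6506270733329, .negSucc 12286453778444, .negSucc 180362083484, .ofNat 1423111200, .negSucc 19125644, .negSucc 56649]), ((2, 4), .ofNat 95040, [.ofNat 34527981780, .ofNat 9685707504, .negSucc 246728192759, .negSucc 2325143757119, .ofNat 21139322805, .ofNat 158191555050, .ofNat 298724168325, .ofNat 4385172900, .negSucc 34682549, .ofNat 466125, .ofNat 1375]), ((2, 6), .ofNat 118800, [.negSucc 337937843339, .negSucc 94803451247, .ofNat 2413675512360, .ofNat 22748548926720, .negSucc 206815174064, .negSucc 1547736324569, .negSucc 2922745708904, .negSucc 42905170139, .ofNat 338573550, .negSucc 4550204, .negSucc 13474]), ((3, 5), .ofNat 29700, [.ofNat 13774842720, .ofNat 3864578784, .negSucc 98336143079, .negSucc 926902023359, .ofNat 8426542545, .ofNat 63064849410, .ofNat 119093683665, .ofNat 1748274645, .negSucc 13763399,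 .ofNat 184965, .ofNat 550])]

theorem NIT_3_1_8 (l : ℕ) (hlp : l.Prime) (hl2 : l ≠ 2) (hls : ¬ l ∣ 11) (hE : ¬ l ∣ 11)
    (hj : 8 < l) : NUMA_stmt 3 1 l 8 :=
  @NI_fin 3 1 11 2 11 8 (by norm_num) NIC_3_1_8 (by decide +kernel) (by decide +kernel)
    (by decide +kernel) (by decide +kernel) l hlp hl2 hls hE hj

/-- certificate, `d = 3`, `t = 1`, `j = 9` -/
def NIC_3_1_9 : NI_Cert where
  tab0 := [[[(.ofNat 1, .ofNat 0), (.ofNat 0, .ofNat 0), (.ofNat 0, .ofNat 0), (.ofNat 0, .ofNat 0), (.ofNat 0, .ofNat 0), (.ofNat 0, .ofNat 0), (.ofNat 0, .ofNat 0), (.ofNat 0, .ofNat 0), (.ofNat 0, .ofNat 0), (.ofNat 0, .ofNat 0)], [(.ofNat 0, .ofNat 0), (.ofNat 1, .ofNat 0), (.ofNat 0, .ofNat 0), (.ofNat 0, .ofNat 0), (.ofNat 0, .ofNat 0), (.ofNat 0, .ofNat 0), (.ofNat 0, .ofNat 0), (.ofNat 0, .ofNat 0), (.ofNat 0, .ofNat 0), (.ofNat 0, .ofNat 0)], [(.ofNat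 0, .ofNat 0), (.ofNat 0, .ofNat 0), (.ofNat 1, .ofNat 0), (.ofNat 0, .ofNat 0), (.ofNat 0, .ofNat 0), (.ofNat 0, .ofNat 0), (.ofNat 0, .ofNat 0), (.ofNat 0, .ofNat 0), (.ofNat 0, .ofNat 0), (.ofNat 0, .ofNat 0)], [(.ofNat 0, .ofNat 0), (.ofNat 0, .ofNat 0), (.ofNat 0, .ofNat 0), (.ofNat 1, .ofNat 0), (.ofNat 0, .ofNat 0), (.ofNat 0, .ofNat 0), (.ofNat 0, .ofNat 0), (.ofNat 0, .ofNat 0), (.ofNat 0, .ofNat 0), (.ofNat 0, .ofNat 0)], [(.ofNat 0, .ofNat 0), (.ofNat 0, .ofNat 0), (.ofNat 0, .ofNat 0), (.ofNat 0, .ofNat 0), (.ofNat 1, .ofNat 0), (.ofNat 0, .ofNat 0), (.ofNat 0, .ofNat 0), (.ofNat 0, .ofNat 0), (.ofNat 0, .ofNat 0), (.ofNat 0, .ofNat 0)], [(.ofNat 0, .ofNat 0), (.ofNat 0, .ofNat 0), (.ofNat 0, .ofNat 0), (.ofNat 0, .ofNat 0), (.ofNat 0, .ofNat 0), (.ofNat 1, .ofNat 0), (.ofNat 0, .ofNat 0), (.ofNat 0, .ofNat 0), (.ofNat 0, .ofNat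 0), (.ofNat 0, .ofNat 0)], [(.ofNat 0, .ofNat 0), (.ofNat 0, .ofNat 0), (.ofNat 0, .ofNat 0), (.ofNat 0, .ofNat 0), (.ofNat 0, .ofNat 0), (.ofNat 0, .ofNat 0), (.ofNat 1, .ofNat 0), (.ofNat 0, .ofNat 0), (.ofNat 0, .ofNat 0), (.ofNat 0, .ofNat 0)], [(.ofNat 0, .ofNat 0), (.ofNat 0, .ofNat 0), (.ofNat 0, .ofNat 0), (.ofNat 0, .ofNat 0), (.ofNat 0, .ofNat 0), (.ofNat 0, .ofNat 0), (.ofNat 0, .ofNat 0), (.ofNat 1, .ofNat 0), (.ofNat 0, .ofNat 0), (.ofNat 0, .ofNat 0)], [(.ofNat 0, .ofNat 0), (.ofNat 0, .ofNat 0), (.ofNat 0, .ofNat 0), (.ofNat 0, .ofNat 0), (.ofNat 0, .ofNat 0), (.ofNat 0, .ofNat 0), (.ofNat 0, .ofNat 0), (.ofNat 0, .ofNat 0), (.ofNat 1, .ofNat 0), (.ofNat 0, .ofNat 0)], [(.ofNat 0, .ofNat 0), (.ofNat 0, .ofNat 0), (.ofNat 0, .ofNat 0), (.ofNat 0, .ofNat 0), (.ofNat 0, .ofNat 0), (.ofNat 0, .ofNat 0), (.ofNat 0, .ofNat 0),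 (.ofNat 0, .ofNat 0), (.ofNat 0, .ofNat 0), (.ofNat 1, .ofNat 0)]], [[(.ofNat 1, .ofNat 0), (.negSucc 8, .ofNat 0), (.ofNat 36, .ofNat 0), (.negSucc 83, .ofNat 0), (.ofNat 126, .ofNat 0), (.negSucc 125, .ofNat 0), (.ofNat 84, .ofNat 0), (.negSucc 35, .ofNat 0), (.ofNat 9, .ofNat 0), (.negSucc 0, .ofNat 0)], [(.ofNat 1, .ofNat 0), (.negSucc 7, .ofNat 0), (.ofNat 28, .ofNat 0), (.negSucc 55, .ofNat 0), (.ofNat 70, .ofNat 0), (.negSucc 55, .ofNat 0), (.ofNat 28, .ofNat 0), (.negSucc 7, .ofNat 0), (.ofNat 1, .ofNat 0), (.ofNat 0, .ofNat 0)], [(.ofNat 1, .ofNat 0), (.negSucc 6, .ofNat 0), (.ofNat 21, .ofNat 0), (.negSucc 34, .ofNat 0), (.ofNat 35, .ofNat 0), (.negSucc 20, .ofNat 0), (.ofNat 7, .ofNat 0), (.negSucc 0, .ofNat 0), (.ofNat 0, .ofNat 0), (.ofNat 0, .ofNat 0)], [(.ofNat 1, .ofNat 0), (.negSucc 5, .ofNat 0), (.ofNat 15, .ofNat 0),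 (.negSucc 19, .ofNat 0), (.ofNat 15, .ofNat 0), (.negSucc 5, .ofNat 0), (.ofNat 1, .ofNat 0), (.ofNat 0, .ofNat 0), (.ofNat 0, .ofNat 0), (.ofNat 0, .ofNat 0)], [(.ofNat 1, .ofNat 0), (.negSucc 4, .ofNat 0), (.ofNat 10, .ofNat 0), (.negSucc 9, .ofNat 0), (.ofNat 5, .ofNat 0), (.negSucc 0, .ofNat 0), (.ofNat 0, .ofNat 0), (.ofNat 0, .ofNat 0), (.ofNat 0, .ofNat 0), (.ofNat 0, .ofNat 0)], [(.ofNat 1, .ofNat 0), (.negSucc 3, .ofNat 0), (.ofNat 6, .ofNat 0), (.negSucc 3, .ofNat 0), (.ofNat 1, .ofNat 0), (.ofNat 0, .ofNat 0), (.ofNat 0, .ofNat 0), (.ofNat 0, .ofNat 0), (.ofNat 0, .ofNat 0), (.ofNat 0, .ofNat 0)], [(.ofNat 1, .ofNat 0), (.negSucc 2, .ofNat 0), (.ofNat 3, .ofNat 0), (.negSucc 0, .ofNat 0), (.ofNat 0, .ofNat 0), (.ofNat 0, .ofNat 0), (.ofNat 0, .ofNat 0), (.ofNat 0, .ofNat 0), (.ofNat 0, .ofNat 0), (.ofNat 0, .ofNat 0)], [(.ofNat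 1, .ofNat 0), (.negSucc 1, .ofNat 0), (.ofNat 1, .ofNat 0), (.ofNat 0, .ofNat 0), (.ofNat 0, .ofNat 0), (.ofNat 0, .ofNat 0), (.ofNat 0, .ofNat 0), (.ofNat 0, .ofNat 0), (.ofNat 0, .ofNat 0), (.ofNat 0, .ofNat 0)], [(.ofNat 1, .ofNat 0), (.negSucc 0, .ofNat 0), (.ofNat 0, .ofNat 0), (.ofNat 0, .ofNat 0), (.ofNat 0, .ofNat 0), (.ofNat 0, .ofNat 0), (.ofNat 0, .ofNat 0), (.ofNat 0, .ofNat 0), (.ofNat 0, .ofNat 0), (.ofNat 0, .ofNat 0)], [(.ofNat 1, .ofNat 0), (.ofNat 0, .ofNat 0), (.ofNat 0, .ofNat 0), (.ofNat 0, .ofNat 0), (.ofNat 0, .ofNat 0), (.ofNat 0, .ofNat 0), (.ofNat 0, .ofNat 0), (.ofNat 0, .ofNat 0), (.ofNat 0, .ofNat 0), (.ofNat 0, .ofNat 0)]], [[(.ofNat 0, .ofNat 0), (.ofNat 0, .ofNat 0), (.ofNat 0, .ofNat 0), (.ofNat 0, .ofNat 0), (.ofNat 0, .ofNat 0), (.ofNat 0, .ofNat 0), (.ofNat 0, .ofNat 0), (.ofNat 0, .ofNat 0), (.ofNat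 0, .ofNat 0), (.negSucc 0, .ofNat 0)], [(.ofNat 0, .ofNat 0), (.ofNat 0, .ofNat 0), (.ofNat 0, .ofNat 0), (.ofNat 0, .ofNat 0), (.ofNat 0, .ofNat 0), (.ofNat 0, .ofNat 0), (.ofNat 0, .ofNat 0), (.ofNat 0, .ofNat 0), (.ofNat 1, .ofNat 0), (.negSucc 0, .ofNat 0)], [(.ofNat 0, .ofNat 0), (.ofNat 0, .ofNat 0), (.ofNat 0, .ofNat 0), (.ofNat 0, .ofNat 0), (.ofNat 0, .ofNat 0), (.ofNat 0, .ofNat 0), (.ofNat 0, .ofNat 0), (.negSucc 0, .ofNat 0), (.ofNat 2, .ofNat 0), (.negSucc 0, .ofNat 0)], [(.ofNat 0, .ofNat 0), (.ofNat 0, .ofNat 0), (.ofNat 0, .ofNat 0), (.ofNat 0, .ofNat 0), (.ofNat 0, .ofNat 0), (.ofNat 0, .ofNat 0), (.ofNat 1, .ofNat 0), (.negSucc 2, .ofNat 0), (.ofNat 3, .ofNat 0), (.negSucc 0, .ofNat 0)], [(.ofNat 0, .ofNat 0), (.ofNat 0, .ofNat 0), (.ofNat 0, .ofNat 0), (.ofNat 0, .ofNat 0), (.ofNat 0, .ofNat 0), (.negSucc 0, .ofNat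 0), (.ofNat 4, .ofNat 0), (.negSucc 5, .ofNat 0), (.ofNat 4, .ofNat 0), (.negSucc 0, .ofNat 0)], [(.ofNat 0, .ofNat 0), (.ofNat 0, .ofNat 0), (.ofNat 0, .ofNat 0), (.ofNat 0, .ofNat 0), (.ofNat 1, .ofNat 0), (.negSucc 4, .ofNat 0), (.ofNat 10, .ofNat 0), (.negSucc 9, .ofNat 0), (.ofNat 5, .ofNat 0), (.negSucc 0, .ofNat 0)], [(.ofNat 0, .ofNat 0), (.ofNat 0, .ofNat 0), (.ofNat 0, .ofNat 0), (.negSucc 0, .ofNat 0), (.ofNat 6, .ofNat 0), (.negSucc 14, .ofNat 0), (.ofNat 20, .ofNat 0), (.negSucc 14, .ofNat 0), (.ofNat 6, .ofNat 0), (.negSucc 0, .ofNat 0)], [(.ofNat 0, .ofNat 0), (.ofNat 0, .ofNat 0), (.ofNat 1, .ofNat 0), (.negSucc 6, .ofNat 0), (.ofNat 21, .ofNat 0), (.negSucc 34, .ofNat 0), (.ofNat 35, .ofNat 0), (.negSucc 20, .ofNat 0), (.ofNat 7, .ofNat 0), (.negSucc 0, .ofNat 0)], [(.ofNat 0, .ofNat 0), (.negSucc 0, .ofNat 0), (.ofNat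 8, .ofNat 0), (.negSucc 27, .ofNat 0), (.ofNat 56, .ofNat 0), (.negSucc 69, .ofNat 0), (.ofNat 56, .ofNat 0), (.negSucc 27, .ofNat 0), (.ofNat 8, .ofNat 0), (.negSucc 0, .ofNat 0)], [(.ofNat 1, .ofNat 0), (.negSucc 8, .ofNat 0), (.ofNat 36, .ofNat 0), (.negSucc 83, .ofNat 0), (.ofNat 126, .ofNat 0), (.negSucc 125, .ofNat 0), (.ofNat 84, .ofNat 0), (.negSucc 35, .ofNat 0), (.ofNat 9, .ofNat 0), (.negSucc 0, .ofNat 0)]]]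
  tab1 := [[[(.ofNat 1, .ofNat 0), (.ofNat 0, .ofNat 0), (.ofNat 0, .ofNat 0), (.ofNat 0, .ofNat 0), (.ofNat 0, .ofNat 0), (.ofNat 0, .ofNat 0), (.ofNat 0, .ofNat 0), (.ofNat 0, .ofNat 0), (.ofNat 0, .ofNat 0), (.ofNat 0, .ofNat 0)], [(.ofNat 0, .ofNat 0), (.ofNat 1, .ofNat 0), (.ofNat 0, .ofNat 0), (.ofNat 0, .ofNat 0), (.ofNat 0, .ofNat 0), (.ofNat 0, .ofNat 0), (.ofNat 0, .ofNat 0), (.ofNat 0, .ofNat 0), (.ofNat 0, .ofNat 0), (.ofNat 0, .ofNat 0)], [(.ofNat 0, .ofNat 0), (.ofNat 0, .ofNat 0), (.ofNat 1, .ofNat 0), (.ofNat 0, .ofNat 0), (.ofNat 0, .ofNat 0), (.ofNat 0, .ofNat 0), (.ofNat 0, .ofNat 0), (.ofNat 0, .ofNat 0), (.ofNat 0, .ofNat 0), (.ofNat 0, .ofNat 0)], [(.ofNat 0, .ofNat 0), (.ofNat 0, .ofNat 0), (.ofNat 0, .ofNat 0), (.ofNat 1, .ofNat 0), (.ofNat 0, .ofNat 0), (.ofNat 0, .ofNat 0), (.ofNat 0, .ofNat 0), (.ofNat 0, .ofNat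 0), (.ofNat 0, .ofNat 0), (.ofNat 0, .ofNat 0)], [(.ofNat 0, .ofNat 0), (.ofNat 0, .ofNat 0), (.ofNat 0, .ofNat 0), (.ofNat 0, .ofNat 0), (.ofNat 1, .ofNat 0), (.ofNat 0, .ofNat 0), (.ofNat 0, .ofNat 0), (.ofNat 0, .ofNat 0), (.ofNat 0, .ofNat 0), (.ofNat 0, .ofNat 0)], [(.ofNat 0, .ofNat 0), (.ofNat 0, .ofNat 0), (.ofNat 0, .ofNat 0), (.ofNat 0, .ofNat 0), (.ofNat 0, .ofNat 0), (.ofNat 1, .ofNat 0), (.ofNat 0, .ofNat 0), (.ofNat 0, .ofNat 0), (.ofNat 0, .ofNat 0), (.ofNat 0, .ofNat 0)], [(.ofNat 0, .ofNat 0), (.ofNat 0, .ofNat 0), (.ofNat 0, .ofNat 0), (.ofNat 0, .ofNat 0), (.ofNat 0, .ofNat 0), (.ofNat 0, .ofNat 0), (.ofNat 1, .ofNat 0), (.ofNat 0, .ofNat 0), (.ofNat 0, .ofNat 0), (.ofNat 0, .ofNat 0)], [(.ofNat 0, .ofNat 0), (.ofNat 0, .ofNat 0), (.ofNat 0, .ofNat 0), (.ofNat 0, .ofNat 0), (.ofNat 0, .ofNat 0), (.ofNat 0, .ofNat 0),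 (.ofNat 0, .ofNat 0), (.ofNat 1, .ofNat 0), (.ofNat 0, .ofNat 0), (.ofNat 0, .ofNat 0)], [(.ofNat 0, .ofNat 0), (.ofNat 0, .ofNat 0), (.ofNat 0, .ofNat 0), (.ofNat 0, .ofNat 0), (.ofNat 0, .ofNat 0), (.ofNat 0, .ofNat 0), (.ofNat 0, .ofNat 0), (.ofNat 0, .ofNat 0), (.ofNat 1, .ofNat 0), (.ofNat 0, .ofNat 0)], [(.ofNat 0, .ofNat 0), (.ofNat 0, .ofNat 0), (.ofNat 0, .ofNat 0), (.ofNat 0, .ofNat 0), (.ofNat 0, .ofNat 0), (.ofNat 0, .ofNat 0), (.ofNat 0, .ofNat 0), (.ofNat 0, .ofNat 0), (.ofNat 0, .ofNat 0), (.ofNat 1, .ofNat 0)]], [[(.ofNat 31, .ofNat 74), (.negSucc 665, .ofNat 315), (.negSucc 1259, .negSucc 467), (.ofNat 1092, .negSucc 1343), (.ofNat 2016, .negSucc 125), (.ofNat 126, .ofNat 630), (.negSucc 419, .ofNat 168), (.negSucc 71, .negSucc 35), (.ofNat 9, .negSucc 8), (.ofNat 1, .ofNat 0)], [(.negSucc 73, .ofNat 35), (.negSucc 279,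 .negSucc 103), (.ofNat 364, .negSucc 447), (.ofNat 896, .negSucc 55), (.ofNat 70, .ofNat 350), (.negSucc 279, .ofNat 112), (.negSucc 55, .negSucc 27), (.ofNat 8, .negSucc 7), (.ofNat 1, .ofNat 0), (.ofNat 0, .ofNat 0)], [(.negSucc 34, .negSucc 12), (.ofNat 91, .negSucc 111), (.ofNat 336, .negSucc 20), (.ofNat 35, .ofNat 175), (.negSucc 174, .ofNat 70), (.negSucc 41, .negSucc 20), (.ofNat 7, .negSucc 6), (.ofNat 1, .ofNat 0), (.ofNat 0, .ofNat 0), (.ofNat 0, .ofNat 0)], [(.ofNat 13, .negSucc 15), (.ofNat 96, .negSucc 5), (.ofNat 15, .ofNat 75), (.negSucc 99, .ofNat 40), (.negSucc 29, .negSucc 14), (.ofNat 6, .negSucc 5), (.ofNat 1, .ofNat 0), (.ofNat 0, .ofNat 0), (.ofNat 0, .ofNat 0), (.ofNat 0, .ofNat 0)], [(.ofNat 16, .negSucc 0), (.ofNat 5, .ofNat 25), (.negSucc 49, .ofNat 20), (.negSucc 19, .negSucc 9), (.ofNat 5, .negSucc 4), (.ofNat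 1, .ofNat 0), (.ofNat 0, .ofNat 0), (.ofNat 0, .ofNat 0), (.ofNat 0, .ofNat 0), (.ofNat 0, .ofNat 0)], [(.ofNat 1, .ofNat 5), (.negSucc 19, .ofNat 8), (.negSucc 11, .negSucc 5), (.ofNat 4, .negSucc 3), (.ofNat 1, .ofNat 0), (.ofNat 0, .ofNat 0), (.ofNat 0, .ofNat 0), (.ofNat 0, .ofNat 0), (.ofNat 0, .ofNat 0), (.ofNat 0, .ofNat 0)], [(.negSucc 4, .ofNat 2), (.negSucc 5, .negSucc 2), (.ofNat 3, .negSucc 2), (.ofNat 1, .ofNat 0), (.ofNat 0, .ofNat 0), (.ofNat 0, .ofNat 0), (.ofNat 0, .ofNat 0), (.ofNat 0, .ofNat 0), (.ofNat 0, .ofNat 0), (.ofNat 0, .ofNat 0)], [(.negSucc 1, .negSucc 0), (.ofNat 2, .negSucc 1), (.ofNat 1, .ofNat 0), (.ofNat 0, .ofNat 0), (.ofNat 0, .ofNat 0), (.ofNat 0, .ofNat 0), (.ofNat 0, .ofNat 0), (.ofNat 0, .ofNat 0), (.ofNat 0, .ofNat 0), (.ofNat 0, .ofNat 0)], [(.ofNat 1, .negSucc 0), (.ofNat 1, .ofNat 0), (.ofNat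 0, .ofNat 0), (.ofNat 0, .ofNat 0), (.ofNat 0, .ofNat 0), (.ofNat 0, .ofNat 0), (.ofNat 0, .ofNat 0), (.ofNat 0, .ofNat 0), (.ofNat 0, .ofNat 0), (.ofNat 0, .ofNat 0)], [(.ofNat 1, .ofNat 0), (.ofNat 0, .ofNat 0), (.ofNat 0, .ofNat 0), (.ofNat 0, .ofNat 0), (.ofNat 0, .ofNat 0), (.ofNat 0, .ofNat 0), (.ofNat 0, .ofNat 0), (.ofNat 0, .ofNat 0), (.ofNat 0, .ofNat 0), (.ofNat 0, .ofNat 0)]], [[(.ofNat 512, .ofNat 0), (.ofNat 0, .ofNat 2304), (.negSucc 13823, .ofNat 4608), (.negSucc 16127, .negSucc 10751), (.ofNat 24192, .negSucc 20159), (.ofNat 30240, .ofNat 2016), (.negSucc 2015, .ofNat 10752), (.negSucc 6911, .ofNat 1872), (.negSucc 701, .negSucc 629), (.ofNat 105, .negSucc 73)], [(.ofNat 256, .negSucc 255), (.ofNat 3328, .ofNat 0), (.ofNat 0, .ofNat 6400), (.negSucc 21503, .ofNat 7168), (.negSucc 15455, .negSucc 10303), (.ofNat 14784,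 .negSucc 12319), (.ofNat 11760, .ofNat 784), (.negSucc 479, .ofNat 2560), (.negSucc 911, .ofNat 247), (.negSucc 38, .negSucc 34)], [(.negSucc 255, .negSucc 127), (.ofNat 1600, .negSucc 1599), (.ofNat 8864, .ofNat 0), (.ofNat 0, .ofNat 9520), (.negSucc 19655, .ofNat 6552), (.negSucc 8987, .negSucc 5991), (.ofNat 5460, .negSucc 4549), (.ofNat 2655, .ofNat 177), (.negSucc 59, .ofNat 320), (.negSucc 47, .ofNat 13)], [(.negSucc 319, .ofNat 128), (.negSucc 1535, .negSucc 767), (.ofNat 4080, .negSucc 4079), (.ofNat 12592, .ofNat 0), (.ofNat 0, .ofNat 8292), (.negSucc 10871, .ofNat 3624), (.negSucc 3152, .negSucc 2101), (.ofNat 1170, .negSucc 974), (.ofNat 315, .ofNat 21), (.negSucc 2, .ofNat 16)], [(.ofNat 32, .ofNat 160), (.negSucc 1839, .ofNat 736), (.negSucc 3743, .negSucc 1871), (.ofNat 5528, .negSucc 5527), (.ofNat 10442, .ofNat 0), (.ofNat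 0, .ofNat 4361), (.negSucc 3623, .ofNat 1208), (.negSucc 641, .negSucc 427), (.ofNat 132, .negSucc 109), (.ofNat 15, .ofNat 1)], [(.ofNat 256, .negSucc 15), (.ofNat 176, .ofNat 880), (.negSucc 4279, .ofNat 1712), (.negSucc 4831, .negSucc 2415), (.ofNat 4361, .negSucc 4360), (.ofNat 5221, .ofNat 0), (.ofNat 0, .ofNat 1382), (.negSucc 701, .ofNat 234), (.negSucc 68, .negSucc 45), (.ofNat 6, .negSucc 4)], [(.ofNat 104, .negSucc 127), (.ofNat 1344, .negSucc 83), (.ofNat 390, .ofNat 1950), (.negSucc 5254, .ofNat 2102), (.negSucc 3623, .negSucc 1811), (.ofNat 2073, .negSucc 2072), (.ofNat 1574, .ofNat 0), (.ofNat 0, .ofNat 255), (.negSucc 71, .ofNat 24), (.negSucc 2, .negSucc 1)], [(.negSucc 139, .negSucc 51), (.ofNat 520, .negSucc 639), (.ofNat 2832, .negSucc 176), (.ofNat 455, .ofNat 2275), (.negSucc 3744, .ofNat 1498), (.negSucc 1637, .negSucc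 818), (.ofNat 595, .negSucc 594), (.ofNat 277, .ofNat 0), (.ofNat 0, .ofNat 25), (.negSucc 2, .ofNat 1)], [(.negSucc 147, .ofNat 70), (.negSucc 664, .negSucc 246), (.ofNat 1040, .negSucc 1279), (.ofNat 3136, .negSucc 195), (.ofNat 308, .ofNat 1540), (.negSucc 1609, .ofNat 644), (.negSucc 447, .negSucc 223), (.ofNat 100, .negSucc 99), (.ofNat 26, .ofNat 0), (.ofNat 0, .ofNat 1)], [(.ofNat 31, .ofNat 74), (.negSucc 665, .ofNat 315), (.negSucc 1259, .negSucc 467), (.ofNat 1092, .negSucc 1343), (.ofNat 2016, .negSucc 125), (.ofNat 126, .ofNat 630), (.negSucc 419, .ofNat 168), (.negSucc 71, .negSucc 35), (.ofNat 9, .negSucc 8), (.ofNat 1, .ofNat 0)]], [[(.ofNat 31, .ofNat 74), (.negSucc 1331, .ofNat 630), (.negSucc 5039, .negSucc 1871), (.ofNat 8736, .negSucc 10751), (.ofNat 32256, .negSucc 2015), (.ofNat 4032, .ofNat 20160), (.negSucc 26879,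 .ofNat 10752), (.negSucc 9215, .negSucc 4607), (.ofNat 2304, .negSucc 2303), (.ofNat 512, .ofNat 0)], [(.negSucc 147, .ofNat 70), (.negSucc 1224, .negSucc 454), (.ofNat 3536, .negSucc 4351), (.ofNat 19712, .negSucc 1231), (.ofNat 3584, .ofNat 17920), (.negSucc 34719, .ofNat 13888), (.negSucc 17919, .negSucc 8959), (.ofNat 7424, .negSucc 7423), (.ofNat 3584, .ofNat 0), (.ofNat 0, .ofNat 256)], [(.negSucc 139, .negSucc 51), (.ofNat 884, .negSucc 1087), (.ofNat 8208, .negSucc 512), (.ofNat 2254, .ofNat 11270), (.negSucc 31779, .ofNat 12712), (.negSucc 23855, .negSucc 11927), (.ofNat 14896, .negSucc 14895), (.ofNat 11936, .ofNat 0), (.ofNat 0, .ofNat 1856), (.negSucc 383, .ofNat 128)], [(.ofNat 104, .negSucc 127), (.ofNat 2112, .negSucc 131), (.ofNat 966, .ofNat 4830), (.negSucc 20574, .ofNat 8230), (.negSucc 22487, .negSucc 11243), (.ofNat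 20436, .negSucc 20435), (.ofNat 24704, .ofNat 0), (.ofNat 0, .ofNat 6384), (.negSucc 2879, .ofNat 960), (.negSucc 191, .negSucc 127)], [(.ofNat 256, .negSucc 15), (.ofNat 256, .ofNat 1280), (.negSucc 9079, .ofNat 3632), (.negSucc 14991, .negSucc 7495), (.ofNat 19841, .negSucc 19840), (.ofNat 34922, .ofNat 0), (.ofNat 0, .ofNat 13624), (.negSucc 10223, .ofNat 3408), (.negSucc 1487, .negSucc 991), (.ofNat 192, .negSucc 159)], [(.ofNat 32, .ofNat 160), (.negSucc 2479, .ofNat 992), (.negSucc 6815, .negSucc 3407), (.ofNat 13624, .negSucc 13623), (.ofNat 34922, .ofNat 0), (.ofNat 0, .ofNat 19841), (.negSucc 22487, .ofNat 7496), (.negSucc 5447, .negSucc 3631), (.ofNat 1536, .negSucc 1279), (.ofNat 240, .ofNat 16)], [(.negSucc 319, .ofNat 128), (.negSucc 1919, .negSucc 959), (.ofNat 6384, .negSucc 6383), (.ofNat 24704, .ofNat 0), (.ofNat 0, .ofNat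 20436), (.negSucc 33731, .ofNat 11244), (.negSucc 12344, .negSucc 8229), (.ofNat 5796, .negSucc 4829), (.ofNat 1980, .ofNat 132), (.negSucc 23, .ofNat 128)], [(.negSucc 255, .negSucc 127), (.ofNat 1856, .negSucc 1855), (.ofNat 11936, .ofNat 0), (.ofNat 0, .ofNat 14896), (.negSucc 35783, .ofNat 11928), (.negSucc 19067, .negSucc 12711), (.ofNat 13524, .negSucc 11269), (.ofNat 7695, .ofNat 513), (.negSucc 203, .ofNat 1088), (.negSucc 191, .ofNat 52)], [(.ofNat 256, .negSucc 255), (.ofNat 3584, .ofNat 0), (.ofNat 0, .ofNat 7424), (.negSucc 26879, .ofNat 8960), (.negSucc 20831, .negSucc 13887), (.ofNat 21504, .negSucc 17919), (.ofNat 18480, .ofNat 1232), (.negSucc 815, .ofNat 4352), (.negSucc 1679, .ofNat 455), (.negSucc 77, .negSucc 69)], [(.ofNat 512, .ofNat 0), (.ofNat 0, .ofNat 2304), (.negSucc 13823, .ofNat 4608), (.negSucc 16127, .negSucc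 10751), (.ofNat 24192, .negSucc 20159), (.ofNat 30240, .ofNat 2016), (.negSucc 2015, .ofNat 10752), (.negSucc 6911, .ofNat 1872), (.negSucc 701, .negSucc 629), (.ofNat 105, .negSucc 73)]], [[(.ofNat 1, .ofNat 0), (.ofNat 0, .ofNat 9), (.negSucc 107, .ofNat 36), (.negSucc 251, .negSucc 167), (.ofNat 756, .negSucc 629), (.ofNat 1890, .ofNat 126), (.negSucc 251, .ofNat 1344), (.negSucc 1727, .ofNat 468), (.negSucc 350, .negSucc 314), (.ofNat 105, .negSucc 73)], [(.ofNat 1, .negSucc 0), (.ofNat 26, .ofNat 0), (.ofNat 0, .ofNat 100), (.negSucc 671, .ofNat 224), (.negSucc 965, .negSucc 643), (.ofNat 1848, .negSucc 1539), (.ofNat 2940, .ofNat 196), (.negSucc 239, .ofNat 1280), (.negSucc 911, .ofNat 247), (.negSucc 77, .negSucc 69)], [(.negSucc 1, .negSucc 0), (.ofNat 25, .negSucc 24), (.ofNat 277, .ofNat 0), (.ofNat 0, .ofNat 595), (.negSucc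 2456, .ofNat 819), (.negSucc 2246, .negSucc 1497), (.ofNat 2730, .negSucc 2274), (.ofNat 2655, .ofNat 177), (.negSucc 119, .ofNat 640), (.negSucc 191, .ofNat 52)], [(.negSucc 4, .ofNat 2), (.negSucc 47, .negSucc 23), (.ofNat 255, .negSucc 254), (.ofNat 1574, .ofNat 0), (.ofNat 0, .ofNat 2073), (.negSucc 5435, .ofNat 1812), (.negSucc 3152, .negSucc 2101), (.ofNat 2340, .negSucc 1949), (.ofNat 1260, .ofNat 84), (.negSucc 23, .ofNat 128)], [(.ofNat 1, .ofNat 5), (.negSucc 114, .ofNat 46), (.negSucc 467, .negSucc 233), (.ofNat 1382, .negSucc 1381), (.ofNat 5221, .ofNat 0), (.ofNat 0, .ofNat 4361), (.negSucc 7247, .ofNat 2416), (.negSucc 2567, .negSucc 1711), (.ofNat 1056, .negSucc 879), (.ofNat 240, .ofNat 16)], [(.ofNat 16, .negSucc 0), (.ofNat 22, .ofNat 110), (.negSucc 1069, .ofNat 428), (.negSucc 2415, .negSucc 1207), (.ofNat 4361, .negSucc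 4360), (.ofNat 10442, .ofNat 0), (.ofNat 0, .ofNat 5528), (.negSucc 5615, .ofNat 1872), (.negSucc 1103, .negSucc 735), (.ofNat 192, .negSucc 159)], [(.ofNat 13, .negSucc 15), (.ofNat 336, .negSucc 20), (.ofNat 195, .ofNat 975), (.negSucc 5254, .ofNat 2102), (.negSucc 7247, .negSucc 3623), (.ofNat 8292, .negSucc 8291), (.ofNat 12592, .ofNat 0), (.ofNat 0, .ofNat 4080), (.negSucc 2303, .ofNat 768), (.negSucc 191, .negSucc 127)], [(.negSucc 34, .negSucc 12), (.ofNat 260, .negSucc 319), (.ofNat 2832, .negSucc 176), (.ofNat 910, .ofNat 4550), (.negSucc 14979, .ofNat 5992), (.negSucc 13103, .negSucc 6551), (.ofNat 9520, .negSucc 9519), (.ofNat 8864, .ofNat 0), (.ofNat 0, .ofNat 1600), (.negSucc 383, .ofNat 128)], [(.negSucc 73, .ofNat 35), (.negSucc 664, .negSucc 246), (.ofNat 2080, .negSucc 2559), (.ofNat 12544, .negSucc 783), (.ofNat 2464,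 .ofNat 12320), (.negSucc 25759, .ofNat 10304), (.negSucc 14335, .negSucc 7167), (.ofNat 6400, .negSucc 6399), (.ofNat 3328, .ofNat 0), (.ofNat 0, .ofNat 256)], [(.ofNat 31, .ofNat 74), (.negSucc 1331, .ofNat 630), (.negSucc 5039, .negSucc 1871), (.ofNat 8736, .negSucc 10751), (.ofNat 32256, .negSucc 2015), (.ofNat 4032, .ofNat 20160), (.negSucc 26879, .ofNat 10752), (.negSucc 9215, .negSucc 4607), (.ofNat 2304, .negSucc 2303), (.ofNat 512, .ofNat 0)]], [[(.ofNat 0, .ofNat 0), (.ofNat 0, .ofNat 0), (.ofNat 0, .ofNat 0), (.ofNat 0, .ofNat 0), (.ofNat 0, .ofNat 0), (.ofNat 0, .ofNat 0), (.ofNat 0, .ofNat 0), (.ofNat 0, .ofNat 0), (.ofNat 0, .ofNat 0), (.ofNat 1, .ofNat 0)], [(.ofNat 0, .ofNat 0), (.ofNat 0, .ofNat 0), (.ofNat 0, .ofNat 0), (.ofNat 0, .ofNat 0), (.ofNat 0, .ofNat 0), (.ofNat 0, .ofNat 0), (.ofNat 0, .ofNat 0), (.ofNat 0,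 .ofNat 0), (.ofNat 1, .ofNat 0), (.ofNat 0, .ofNat 1)], [(.ofNat 0, .ofNat 0), (.ofNat 0, .ofNat 0), (.ofNat 0, .ofNat 0), (.ofNat 0, .ofNat 0), (.ofNat 0, .ofNat 0), (.ofNat 0, .ofNat 0), (.ofNat 0, .ofNat 0), (.ofNat 1, .ofNat 0), (.ofNat 0, .ofNat 2), (.negSucc 2, .ofNat 1)], [(.ofNat 0, .ofNat 0), (.ofNat 0, .ofNat 0), (.ofNat 0, .ofNat 0), (.ofNat 0, .ofNat 0), (.ofNat 0, .ofNat 0), (.ofNat 0, .ofNat 0), (.ofNat 1, .ofNat 0), (.ofNat 0, .ofNat 3), (.negSucc 8, .ofNat 3), (.negSucc 2, .negSucc 1)], [(.ofNat 0, .ofNat 0), (.ofNat 0, .ofNat 0), (.ofNat 0, .ofNat 0), (.ofNat 0, .ofNat 0), (.ofNat 0, .ofNat 0), (.ofNat 1, .ofNat 0), (.ofNat 0, .ofNat 4), (.negSucc 17, .ofNat 6), (.negSucc 11, .negSucc 7), (.ofNat 6, .negSucc 4)], [(.ofNat 0, .ofNat 0), (.ofNat 0, .ofNat 0), (.ofNat 0, .ofNat 0), (.ofNat 0, .ofNat 0), (.ofNat 1, .ofNat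 0), (.ofNat 0, .ofNat 5), (.negSucc 29, .ofNat 10), (.negSucc 29, .negSucc 19), (.ofNat 30, .negSucc 24), (.ofNat 15, .ofNat 1)], [(.ofNat 0, .ofNat 0), (.ofNat 0, .ofNat 0), (.ofNat 0, .ofNat 0), (.ofNat 1, .ofNat 0), (.ofNat 0, .ofNat 6), (.negSucc 44, .ofNat 15), (.negSucc 59, .negSucc 39), (.ofNat 90, .negSucc 74), (.ofNat 90, .ofNat 6), (.negSucc 2, .ofNat 16)], [(.ofNat 0, .ofNat 0), (.ofNat 0, .ofNat 0), (.ofNat 1, .ofNat 0), (.ofNat 0, .ofNat 7), (.negSucc 62, .ofNat 21), (.negSucc 104, .negSucc 69), (.ofNat 210, .negSucc 174), (.ofNat 315, .ofNat 21), (.negSucc 20, .ofNat 112), (.negSucc 47, .ofNat 13)], [(.ofNat 0, .ofNat 0), (.ofNat 1, .ofNat 0), (.ofNat 0, .ofNat 8), (.negSucc 83, .ofNat 28), (.negSucc 167, .negSucc 111), (.ofNat 420, .negSucc 349), (.ofNat 840, .ofNat 56), (.negSucc 83, .ofNat 448), (.negSucc 383, .ofNat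 104), (.negSucc 38, .negSucc 34)], [(.ofNat 1, .ofNat 0), (.ofNat 0, .ofNat 9), (.negSucc 107, .ofNat 36), (.negSucc 251, .negSucc 167), (.ofNat 756, .negSucc 629), (.ofNat 1890, .ofNat 126), (.negSucc 251, .ofNat 1344), (.negSucc 1727, .ofNat 468), (.negSucc 350, .negSucc 314), (.ofNat 105, .negSucc 73)]]]
  rws := [(0, 0, 1, 0), (0, 0, 3, 0), (0, 0, 7, 0), (0, 0, 8, 0), (0, 0, 9, 0), (0, 1, 7, 0), (0, 1, 8, 0), (0, 2, 6, 0), (0, 2, 7, 0), (1, 1, 0, 0)]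
  cols := [((0, 2), [.ofNat 4, .ofNat 56, .ofNat 56, .negSucc 15, .ofNat 2, .negSucc 431, .ofNat 126, .negSucc 2687, .ofNat 1440, .ofNat 222876]), ((0, 4), [.ofNat 8, .ofNat 78, .ofNat 46, .negSucc 13, .ofNat 2, .negSucc 269, .ofNat 90, .negSucc 1199, .ofNat 720, .negSucc 568019]), ((0, 6), [.ofNat 12, .ofNat 103, .ofNat 39, .negSucc 11, .ofNat 2, .negSucc 134, .ofNat 54, .negSucc 287, .ofNat 216, .ofNat 711360]), ((0, 8), [.ofNat 16, .ofNat 140, .ofNat 44, .negSucc 9, .ofNat 2, .negSucc 35, .ofNat 18, .ofNat 0, .ofNat 0, .negSucc 550619]), ((1, 3), [.ofNat 4, .ofNat 37, .ofNat 8, .negSucc 0, .ofNat 0, .negSucc 62, .ofNat 12, .negSucc 551, .ofNat 240, .ofNat 340812]), ((1, 5), [.ofNat 8, .ofNat 62, .ofNat 8, .negSucc 0, .ofNat 0, .negSucc 37, .ofNat 8, .negSucc 199, .ofNat 96, .negSucc 666899]), ((1, 7), [.ofNat 12, .ofNat 91, .ofNat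 9, .negSucc 0, .ofNat 0, .negSucc 16, .ofNat 4, .negSucc 27, .ofNat 16, .ofNat 755136]), ((2, 4), [.ofNat 4, .ofNat 29, .ofNat 1, .ofNat 0, .ofNat 0, .negSucc 4, .ofNat 0, .negSucc 79, .ofNat 20, .ofNat 400140]), ((2, 6), [.ofNat 8, .ofNat 54, .ofNat 1, .ofNat 0, .ofNat 0, .negSucc 2, .ofNat 0, .negSucc 21, .ofNat 6, .negSucc 707939]), ((3, 5), [.ofNat 4, .ofNat 25, .ofNat 0, .ofNat 0, .ofNat 0, .ofNat 0, .ofNat 0, .negSucc 5, .ofNat 0, .ofNat 424764])]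
  tg := [((0, 2), .ofNat 1317120, [.ofNat 96394032, .negSucc 15222317, .ofNat 45816464, .negSucc 25766083, .negSucc 1192536245, .ofNat 34088142, .ofNat 104787992, .negSucc 4473186, .negSucc 7367455, .negSucc 74]), ((0, 4), .ofNat 752640, [.negSucc 70513967, .ofNat 11134182, .negSucc 33321935, .ofNat 21290196, .ofNat 879003534, .negSucc 24951557, .negSucc 76526327, .ofNat 3276783, .ofNat 5393184, .ofNat 55]), ((0, 6), .ofNat 1505280, [.ofNat 31497872, .negSucc 4970617, .ofNat 14454704, .negSucc 15203563, .negSucc 409707985, .ofNat 11246682, .ofNat 34133832, .negSucc 1482176, .negSucc 2431775, .negSucc 24]), ((0, 8), .ofNat 10536960, [.negSucc 4441807, .ofNat 694322, .negSucc 1207535, .ofNat 14490876, .ofNat 107464874, .negSucc 2110097, .negSucc 5872167, .ofNat 285773, .ofNat 457504, .ofNat 5]), ((1, 3), .ofNat 752640, [.negSucc 212780623,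 .ofNat 33606386, .negSucc 101627887, .ofNat 49444988, .ofNat 2609649002, .negSucc 75058513, .negSucc 231382183, .ofNat 9853869, .ofNat 16257952, .ofNat 165]), ((1, 5), .ofNat 1505280, [.ofNat 291571728, .negSucc 46052681, .ofNat 138747696, .negSucc 67589195, .negSucc 3557729633, .ofNat 102035498, .ofNat 314793608, .negSucc 13433672, .negSucc 22199583, .negSucc 224]), ((1, 7), .ofNat 10536960, [.negSucc 181174895, .ofNat 28625094, .negSucc 83971151, .ofNat 27728532, .ofNat 2069790318, .negSucc 59826405, .negSucc 186427575, .ofNat 8045151, .ofNat 13450208, .ofNat 135]), ((2, 4), .ofNat 150528, [.ofNat 58020816, .negSucc 9165377, .ofNat 27839856, .negSucc 12253403, .negSucc 709536377, .ofNat 20502434, .ofNat 63317480, .negSucc 2694260, .negSucc 4449951, .negSucc 44]), ((2, 6), .ofNat 188160, [.negSucc 19722863, .ofNat 3117846, .negSucc 9455567,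 .ofNat 3582708, .ofNat 237346302, .negSucc 6863413, .negSucc 21254263, .ofNat 904359, .ofNat 1497952, .ofNat 15]), ((3, 5), .ofNat 35840, [.negSucc 6292047, .ofNat 994482, .negSucc 3026415, .ofNat 1695996, .ofNat 79084074, .negSucc 2266897, .negSucc 6969767, .ofNat 296973, .ofNat 488864, .ofNat 5])]

theorem NIT_3_1_9 (l : ℕ) (hlp : l.Prime) (hl2 : l ≠ 2) (hls : ¬ l ∣ 11) (hE : ¬ l ∣ 11)
    (hj : 9 < l) : NUMA_stmt 3 1 l 9 :=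
  @NI_fin 3 1 11 3 11 9 (by norm_num) NIC_3_1_9 (by decide +kernel) (by decide +kernel)
    (by decide +kernel) (by decide +kernel) l hlp hl2 hls hE hj

end Pool.Agent.OE
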