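import Pool.Agent.helper21.OE.NID

/-!
# Project OE: certificates over the integers
-/

namespace Pool.Agent.OE

set_option maxRecDepth 100000

/-- certificate, `d = 2`, `t = 0`, `j = 13` -/
def NIC_2_0_13 : NI_Cert where
  tab0 := [[[(.ofNat 1, .ofNat 0), (.ofNat 0, .ofNat 0), (.ofNat 0, .ofNat 0), (.ofNat 0, .ofNat 0), (.ofNat 0, .ofNat 0), (.ofNat 0, .ofNat 0), (.ofNat 0, .ofNat 0), (.ofNat 0, .ofNat 0), (.ofNat 0, .ofNat 0), (.ofNat 0, .ofNat 0), (.ofNat 0, .ofNat 0), (.ofNat 0, .ofNat 0), (.ofNat 0, .ofNat 0), (.ofNat 0, .ofNat 0)], [(.ofNat 0, .ofNat 0), (.ofNat 1, .ofNat 0), (.ofNat 0, .ofNat 0), (.ofNat 0, .ofNat 0), (.ofNat 0, .ofNat 0), (.ofNat 0, .ofNat 0), (.ofNat 0, .ofNat 0), (.ofNat 0, .ofNat 0), (.ofNat 0, .ofNat 0), (.ofNat 0, .ofNat 0), (.ofNat 0, .ofNat 0), (.ofNat 0, .ofNat 0), (.ofNat 0, .ofNat 0), (.ofNat 0, .ofNat 0)], [(.ofNat 0, .ofNat 0), (.ofNat 0, .ofNat 0), (.ofNat 1, .ofNat 0), (.ofNat 0, .ofNat 0), (.ofNat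 0, .ofNat 0), (.ofNat 0, .ofNat 0), (.ofNat 0, .ofNat 0), (.ofNat 0, .ofNat 0), (.ofNat 0, .ofNat 0), (.ofNat 0, .ofNat 0), (.ofNat 0, .ofNat 0), (.ofNat 0, .ofNat 0), (.ofNat 0, .ofNat 0), (.ofNat 0, .ofNat 0)], [(.ofNat 0, .ofNat 0), (.ofNat 0, .ofNat 0), (.ofNat 0, .ofNat 0), (.ofNat 1, .ofNat 0), (.ofNat 0, .ofNat 0), (.ofNat 0, .ofNat 0), (.ofNat 0, .ofNat 0), (.ofNat 0, .ofNat 0), (.ofNat 0, .ofNat 0), (.ofNat 0, .ofNat 0), (.ofNat 0, .ofNat 0), (.ofNat 0, .ofNat 0), (.ofNat 0, .ofNat 0), (.ofNat 0, .ofNat 0)], [(.ofNat 0, .ofNat 0), (.ofNat 0, .ofNat 0), (.ofNat 0, .ofNat 0), (.ofNat 0, .ofNat 0), (.ofNat 1, .ofNat 0), (.ofNat 0, .ofNat 0), (.ofNat 0, .ofNat 0), (.ofNat 0, .ofNat 0), (.ofNat 0, .ofNat 0), (.ofNat 0, .ofNat 0), (.ofNat 0, .ofNat 0), (.ofNat 0, .ofNat 0), (.ofNat 0, .ofNat 0), (.ofNat 0, .ofNat 0)], [(.ofNat 0, .ofNat 0), (.ofNat 0, .ofNat 0), (.ofNat 0, .ofNat 0), (.ofNat 0, .ofNat 0), (.ofNat 0, .ofNat 0), (.ofNat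 1, .ofNat 0), (.ofNat 0, .ofNat 0), (.ofNat 0, .ofNat 0), (.ofNat 0, .ofNat 0), (.ofNat 0, .ofNat 0), (.ofNat 0, .ofNat 0), (.ofNat 0, .ofNat 0), (.ofNat 0, .ofNat 0), (.ofNat 0, .ofNat 0)], [(.ofNat 0, .ofNat 0), (.ofNat 0, .ofNat 0), (.ofNat 0, .ofNat 0), (.ofNat 0, .ofNat 0), (.ofNat 0, .ofNat 0), (.ofNat 0, .ofNat 0), (.ofNat 1, .ofNat 0), (.ofNat 0, .ofNat 0), (.ofNat 0, .ofNat 0), (.ofNat 0, .ofNat 0), (.ofNat 0, .ofNat 0), (.ofNat 0, .ofNat 0), (.ofNat 0, .ofNat 0), (.ofNat 0, .ofNat 0)], [(.ofNat 0, .ofNat 0), (.ofNat 0, .ofNat 0), (.ofNat 0, .ofNat 0), (.ofNat 0, .ofNat 0), (.ofNat 0, .ofNat 0), (.ofNat 0, .ofNat 0), (.ofNat 0, .ofNat 0), (.ofNat 1, .ofNat 0), (.ofNat 0, .ofNat 0), (.ofNat 0, .ofNat 0), (.ofNat 0, .ofNat 0), (.ofNat 0, .ofNat 0), (.ofNat 0, .ofNat 0), (.ofNat 0, .ofNat 0)], [(.ofNat 0, .ofNat 0), (.ofNat 0, .ofNat 0), (.ofNat 0, .ofNat 0), (.ofNat 0, .ofNat 0), (.ofNat 0, .ofNat 0), (.ofNat 0, .ofNat 0), (.ofNat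 0, .ofNat 0), (.ofNat 0, .ofNat 0), (.ofNat 1, .ofNat 0), (.ofNat 0, .ofNat 0), (.ofNat 0, .ofNat 0), (.ofNat 0, .ofNat 0), (.ofNat 0, .ofNat 0), (.ofNat 0, .ofNat 0)], [(.ofNat 0, .ofNat 0), (.ofNat 0, .ofNat 0), (.ofNat 0, .ofNat 0), (.ofNat 0, .ofNat 0), (.ofNat 0, .ofNat 0), (.ofNat 0, .ofNat 0), (.ofNat 0, .ofNat 0), (.ofNat 0, .ofNat 0), (.ofNat 0, .ofNat 0), (.ofNat 1, .ofNat 0), (.ofNat 0, .ofNat 0), (.ofNat 0, .ofNat 0), (.ofNat 0, .ofNat 0), (.ofNat 0, .ofNat 0)], [(.ofNat 0, .ofNat 0), (.ofNat 0, .ofNat 0), (.ofNat 0, .ofNat 0), (.ofNat 0, .ofNat 0), (.ofNat 0, .ofNat 0), (.ofNat 0, .ofNat 0), (.ofNat 0, .ofNat 0), (.ofNat 0, .ofNat 0), (.ofNat 0, .ofNat 0), (.ofNat 0, .ofNat 0), (.ofNat 1, .ofNat 0), (.ofNat 0, .ofNat 0), (.ofNat 0, .ofNat 0), (.ofNat 0, .ofNat 0)], [(.ofNat 0, .ofNat 0), (.ofNat 0, .ofNat 0), (.ofNat 0, .ofNat 0), (.ofNat 0, .ofNat 0), (.ofNat 0, .ofNat 0), (.ofNat 0, .ofNat 0), (.ofNat 0, .ofNat 0), (.ofNat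 0, .ofNat 0), (.ofNat 0, .ofNat 0), (.ofNat 0, .ofNat 0), (.ofNat 0, .ofNat 0), (.ofNat 1, .ofNat 0), (.ofNat 0, .ofNat 0), (.ofNat 0, .ofNat 0)], [(.ofNat 0, .ofNat 0), (.ofNat 0, .ofNat 0), (.ofNat 0, .ofNat 0), (.ofNat 0, .ofNat 0), (.ofNat 0, .ofNat 0), (.ofNat 0, .ofNat 0), (.ofNat 0, .ofNat 0), (.ofNat 0, .ofNat 0), (.ofNat 0, .ofNat 0), (.ofNat 0, .ofNat 0), (.ofNat 0, .ofNat 0), (.ofNat 0, .ofNat 0), (.ofNat 1, .ofNat 0), (.ofNat 0, .ofNat 0)], [(.ofNat 0, .ofNat 0), (.ofNat 0, .ofNat 0), (.ofNat 0, .ofNat 0), (.ofNat 0, .ofNat 0), (.ofNat 0, .ofNat 0), (.ofNat 0, .ofNat 0), (.ofNat 0, .ofNat 0), (.ofNat 0, .ofNat 0), (.ofNat 0, .ofNat 0), (.ofNat 0, .ofNat 0), (.ofNat 0, .ofNat 0), (.ofNat 0, .ofNat 0), (.ofNat 0, .ofNat 0), (.ofNat 1, .ofNat 0)]], [[(.ofNat 1, .ofNat 0), (.negSucc 12, .ofNat 0), (.ofNat 78, .ofNat 0), (.negSucc 285, .ofNat 0), (.ofNat 715, .ofNat 0), (.negSucc 1286, .ofNat 0), (.ofNat 1716, .ofNat 0), (.negSucc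 1715, .ofNat 0), (.ofNat 1287, .ofNat 0), (.negSucc 714, .ofNat 0), (.ofNat 286, .ofNat 0), (.negSucc 77, .ofNat 0), (.ofNat 13, .ofNat 0), (.negSucc 0, .ofNat 0)], [(.ofNat 1, .ofNat 0), (.negSucc 11, .ofNat 0), (.ofNat 66, .ofNat 0), (.negSucc 219, .ofNat 0), (.ofNat 495, .ofNat 0), (.negSucc 791, .ofNat 0), (.ofNat 924, .ofNat 0), (.negSucc 791, .ofNat 0), (.ofNat 495, .ofNat 0), (.negSucc 219, .ofNat 0), (.ofNat 66, .ofNat 0), (.negSucc 11, .ofNat 0), (.ofNat 1, .ofNat 0), (.ofNat 0, .ofNat 0)], [(.ofNat 1, .ofNat 0), (.negSucc 10, .ofNat 0), (.ofNat 55, .ofNat 0), (.negSucc 164, .ofNat 0), (.ofNat 330, .ofNat 0), (.negSucc 461, .ofNat 0), (.ofNat 462, .ofNat 0), (.negSucc 329, .ofNat 0), (.ofNat 165, .ofNat 0), (.negSucc 54, .ofNat 0), (.ofNat 11, .ofNat 0), (.negSucc 0, .ofNat 0), (.ofNat 0, .ofNat 0), (.ofNat 0, .ofNat 0)], [(.ofNat 1, .ofNat 0), (.negSucc 9, .ofNat 0), (.ofNat 45, .ofNat 0), (.negSucc 119, .ofNat 0), (.ofNat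 210, .ofNat 0), (.negSucc 251, .ofNat 0), (.ofNat 210, .ofNat 0), (.negSucc 119, .ofNat 0), (.ofNat 45, .ofNat 0), (.negSucc 9, .ofNat 0), (.ofNat 1, .ofNat 0), (.ofNat 0, .ofNat 0), (.ofNat 0, .ofNat 0), (.ofNat 0, .ofNat 0)], [(.ofNat 1, .ofNat 0), (.negSucc 8, .ofNat 0), (.ofNat 36, .ofNat 0), (.negSucc 83, .ofNat 0), (.ofNat 126, .ofNat 0), (.negSucc 125, .ofNat 0), (.ofNat 84, .ofNat 0), (.negSucc 35, .ofNat 0), (.ofNat 9, .ofNat 0), (.negSucc 0, .ofNat 0), (.ofNat 0, .ofNat 0), (.ofNat 0, .ofNat 0), (.ofNat 0, .ofNat 0), (.ofNat 0, .ofNat 0)], [(.ofNat 1, .ofNat 0), (.negSucc 7, .ofNat 0), (.ofNat 28, .ofNat 0), (.negSucc 55, .ofNat 0), (.ofNat 70, .ofNat 0), (.negSucc 55, .ofNat 0), (.ofNat 28, .ofNat 0), (.negSucc 7, .ofNat 0), (.ofNat 1, .ofNat 0), (.ofNat 0, .ofNat 0), (.ofNat 0, .ofNat 0), (.ofNat 0, .ofNat 0), (.ofNat 0, .ofNat 0), (.ofNat 0, .ofNat 0)], [(.ofNat 1, .ofNat 0), (.negSucc 6, .ofNat 0), (.ofNat 21, .ofNat 0),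 (.negSucc 34, .ofNat 0), (.ofNat 35, .ofNat 0), (.negSucc 20, .ofNat 0), (.ofNat 7, .ofNat 0), (.negSucc 0, .ofNat 0), (.ofNat 0, .ofNat 0), (.ofNat 0, .ofNat 0), (.ofNat 0, .ofNat 0), (.ofNat 0, .ofNat 0), (.ofNat 0, .ofNat 0), (.ofNat 0, .ofNat 0)], [(.ofNat 1, .ofNat 0), (.negSucc 5, .ofNat 0), (.ofNat 15, .ofNat 0), (.negSucc 19, .ofNat 0), (.ofNat 15, .ofNat 0), (.negSucc 5, .ofNat 0), (.ofNat 1, .ofNat 0), (.ofNat 0, .ofNat 0), (.ofNat 0, .ofNat 0), (.ofNat 0, .ofNat 0), (.ofNat 0, .ofNat 0), (.ofNat 0, .ofNat 0), (.ofNat 0, .ofNat 0), (.ofNat 0, .ofNat 0)], [(.ofNat 1, .ofNat 0), (.negSucc 4, .ofNat 0), (.ofNat 10, .ofNat 0), (.negSucc 9, .ofNat 0), (.ofNat 5, .ofNat 0), (.negSucc 0, .ofNat 0), (.ofNat 0, .ofNat 0), (.ofNat 0, .ofNat 0), (.ofNat 0, .ofNat 0), (.ofNat 0, .ofNat 0), (.ofNat 0, .ofNat 0), (.ofNat 0, .ofNat 0), (.ofNat 0, .ofNat 0), (.ofNat 0, .ofNat 0)], [(.ofNat 1, .ofNat 0), (.negSucc 3, .ofNat 0), (.ofNat 6, .ofNat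 0), (.negSucc 3, .ofNat 0), (.ofNat 1, .ofNat 0), (.ofNat 0, .ofNat 0), (.ofNat 0, .ofNat 0), (.ofNat 0, .ofNat 0), (.ofNat 0, .ofNat 0), (.ofNat 0, .ofNat 0), (.ofNat 0, .ofNat 0), (.ofNat 0, .ofNat 0), (.ofNat 0, .ofNat 0), (.ofNat 0, .ofNat 0)], [(.ofNat 1, .ofNat 0), (.negSucc 2, .ofNat 0), (.ofNat 3, .ofNat 0), (.negSucc 0, .ofNat 0), (.ofNat 0, .ofNat 0), (.ofNat 0, .ofNat 0), (.ofNat 0, .ofNat 0), (.ofNat 0, .ofNat 0), (.ofNat 0, .ofNat 0), (.ofNat 0, .ofNat 0), (.ofNat 0, .ofNat 0), (.ofNat 0, .ofNat 0), (.ofNat 0, .ofNat 0), (.ofNat 0, .ofNat 0)], [(.ofNat 1, .ofNat 0), (.negSucc 1, .ofNat 0), (.ofNat 1, .ofNat 0), (.ofNat 0, .ofNat 0), (.ofNat 0, .ofNat 0), (.ofNat 0, .ofNat 0), (.ofNat 0, .ofNat 0), (.ofNat 0, .ofNat 0), (.ofNat 0, .ofNat 0), (.ofNat 0, .ofNat 0), (.ofNat 0, .ofNat 0), (.ofNat 0, .ofNat 0), (.ofNat 0, .ofNat 0), (.ofNat 0, .ofNat 0)], [(.ofNat 1, .ofNat 0), (.negSucc 0, .ofNat 0), (.ofNat 0, .ofNat 0), (.ofNat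 0, .ofNat 0), (.ofNat 0, .ofNat 0), (.ofNat 0, .ofNat 0), (.ofNat 0, .ofNat 0), (.ofNat 0, .ofNat 0), (.ofNat 0, .ofNat 0), (.ofNat 0, .ofNat 0), (.ofNat 0, .ofNat 0), (.ofNat 0, .ofNat 0), (.ofNat 0, .ofNat 0), (.ofNat 0, .ofNat 0)], [(.ofNat 1, .ofNat 0), (.ofNat 0, .ofNat 0), (.ofNat 0, .ofNat 0), (.ofNat 0, .ofNat 0), (.ofNat 0, .ofNat 0), (.ofNat 0, .ofNat 0), (.ofNat 0, .ofNat 0), (.ofNat 0, .ofNat 0), (.ofNat 0, .ofNat 0), (.ofNat 0, .ofNat 0), (.ofNat 0, .ofNat 0), (.ofNat 0, .ofNat 0), (.ofNat 0, .ofNat 0), (.ofNat 0, .ofNat 0)]], [[(.ofNat 0, .ofNat 0), (.ofNat 0, .ofNat 0), (.ofNat 0, .ofNat 0), (.ofNat 0, .ofNat 0), (.ofNat 0, .ofNat 0), (.ofNat 0, .ofNat 0), (.ofNat 0, .ofNat 0), (.ofNat 0, .ofNat 0), (.ofNat 0, .ofNat 0), (.ofNat 0, .ofNat 0), (.ofNat 0, .ofNat 0), (.ofNat 0, .ofNat 0), (.ofNat 0, .ofNat 0), (.negSucc 0, .ofNat 0)], [(.ofNat 0, .ofNat 0), (.ofNat 0, .ofNat 0), (.ofNat 0, .ofNat 0), (.ofNat 0, .ofNat 0),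 (.ofNat 0, .ofNat 0), (.ofNat 0, .ofNat 0), (.ofNat 0, .ofNat 0), (.ofNat 0, .ofNat 0), (.ofNat 0, .ofNat 0), (.ofNat 0, .ofNat 0), (.ofNat 0, .ofNat 0), (.ofNat 0, .ofNat 0), (.ofNat 1, .ofNat 0), (.negSucc 0, .ofNat 0)], [(.ofNat 0, .ofNat 0), (.ofNat 0, .ofNat 0), (.ofNat 0, .ofNat 0), (.ofNat 0, .ofNat 0), (.ofNat 0, .ofNat 0), (.ofNat 0, .ofNat 0), (.ofNat 0, .ofNat 0), (.ofNat 0, .ofNat 0), (.ofNat 0, .ofNat 0), (.ofNat 0, .ofNat 0), (.ofNat 0, .ofNat 0), (.negSucc 0, .ofNat 0), (.ofNat 2, .ofNat 0), (.negSucc 0, .ofNat 0)], [(.ofNat 0, .ofNat 0), (.ofNat 0, .ofNat 0), (.ofNat 0, .ofNat 0), (.ofNat 0, .ofNat 0), (.ofNat 0, .ofNat 0), (.ofNat 0, .ofNat 0), (.ofNat 0, .ofNat 0), (.ofNat 0, .ofNat 0), (.ofNat 0, .ofNat 0), (.ofNat 0, .ofNat 0), (.ofNat 1, .ofNat 0), (.negSucc 2, .ofNat 0), (.ofNat 3, .ofNat 0), (.negSucc 0, .ofNat 0)], [(.ofNat 0, .ofNat 0), (.ofNat 0, .ofNat 0), (.ofNat 0, .ofNat 0), (.ofNat 0, .ofNat 0), (.ofNat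 0, .ofNat 0), (.ofNat 0, .ofNat 0), (.ofNat 0, .ofNat 0), (.ofNat 0, .ofNat 0), (.ofNat 0, .ofNat 0), (.negSucc 0, .ofNat 0), (.ofNat 4, .ofNat 0), (.negSucc 5, .ofNat 0), (.ofNat 4, .ofNat 0), (.negSucc 0, .ofNat 0)], [(.ofNat 0, .ofNat 0), (.ofNat 0, .ofNat 0), (.ofNat 0, .ofNat 0), (.ofNat 0, .ofNat 0), (.ofNat 0, .ofNat 0), (.ofNat 0, .ofNat 0), (.ofNat 0, .ofNat 0), (.ofNat 0, .ofNat 0), (.ofNat 1, .ofNat 0), (.negSucc 4, .ofNat 0), (.ofNat 10, .ofNat 0), (.negSucc 9, .ofNat 0), (.ofNat 5, .ofNat 0), (.negSucc 0, .ofNat 0)], [(.ofNat 0, .ofNat 0), (.ofNat 0, .ofNat 0), (.ofNat 0, .ofNat 0), (.ofNat 0, .ofNat 0), (.ofNat 0, .ofNat 0), (.ofNat 0, .ofNat 0), (.ofNat 0, .ofNat 0), (.negSucc 0, .ofNat 0), (.ofNat 6, .ofNat 0), (.negSucc 14, .ofNat 0), (.ofNat 20, .ofNat 0), (.negSucc 14, .ofNat 0), (.ofNat 6, .ofNat 0), (.negSucc 0, .ofNat 0)], [(.ofNat 0, .ofNat 0), (.ofNat 0, .ofNat 0), (.ofNat 0, .ofNat 0), (.ofNat 0, .ofNat 0), (.ofNat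 0, .ofNat 0), (.ofNat 0, .ofNat 0), (.ofNat 1, .ofNat 0), (.negSucc 6, .ofNat 0), (.ofNat 21, .ofNat 0), (.negSucc 34, .ofNat 0), (.ofNat 35, .ofNat 0), (.negSucc 20, .ofNat 0), (.ofNat 7, .ofNat 0), (.negSucc 0, .ofNat 0)], [(.ofNat 0, .ofNat 0), (.ofNat 0, .ofNat 0), (.ofNat 0, .ofNat 0), (.ofNat 0, .ofNat 0), (.ofNat 0, .ofNat 0), (.negSucc 0, .ofNat 0), (.ofNat 8, .ofNat 0), (.negSucc 27, .ofNat 0), (.ofNat 56, .ofNat 0), (.negSucc 69, .ofNat 0), (.ofNat 56, .ofNat 0), (.negSucc 27, .ofNat 0), (.ofNat 8, .ofNat 0), (.negSucc 0, .ofNat 0)], [(.ofNat 0, .ofNat 0), (.ofNat 0, .ofNat 0), (.ofNat 0, .ofNat 0), (.ofNat 0, .ofNat 0), (.ofNat 1, .ofNat 0), (.negSucc 8, .ofNat 0), (.ofNat 36, .ofNat 0), (.negSucc 83, .ofNat 0), (.ofNat 126, .ofNat 0), (.negSucc 125, .ofNat 0), (.ofNat 84, .ofNat 0), (.negSucc 35, .ofNat 0), (.ofNat 9, .ofNat 0), (.negSucc 0, .ofNat 0)], [(.ofNat 0, .ofNat 0), (.ofNat 0, .ofNat 0), (.ofNat 0, .ofNat 0), (.negSucc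 0, .ofNat 0), (.ofNat 10, .ofNat 0), (.negSucc 44, .ofNat 0), (.ofNat 120, .ofNat 0), (.negSucc 209, .ofNat 0), (.ofNat 252, .ofNat 0), (.negSucc 209, .ofNat 0), (.ofNat 120, .ofNat 0), (.negSucc 44, .ofNat 0), (.ofNat 10, .ofNat 0), (.negSucc 0, .ofNat 0)], [(.ofNat 0, .ofNat 0), (.ofNat 0, .ofNat 0), (.ofNat 1, .ofNat 0), (.negSucc 10, .ofNat 0), (.ofNat 55, .ofNat 0), (.negSucc 164, .ofNat 0), (.ofNat 330, .ofNat 0), (.negSucc 461, .ofNat 0), (.ofNat 462, .ofNat 0), (.negSucc 329, .ofNat 0), (.ofNat 165, .ofNat 0), (.negSucc 54, .ofNat 0), (.ofNat 11, .ofNat 0), (.negSucc 0, .ofNat 0)], [(.ofNat 0, .ofNat 0), (.negSucc 0, .ofNat 0), (.ofNat 12, .ofNat 0), (.negSucc 65, .ofNat 0), (.ofNat 220, .ofNat 0), (.negSucc 494, .ofNat 0), (.ofNat 792, .ofNat 0), (.negSucc 923, .ofNat 0), (.ofNat 792, .ofNat 0), (.negSucc 494, .ofNat 0), (.ofNat 220, .ofNat 0), (.negSucc 65, .ofNat 0), (.ofNat 12, .ofNat 0), (.negSucc 0, .ofNat 0)], [(.ofNat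 1, .ofNat 0), (.negSucc 12, .ofNat 0), (.ofNat 78, .ofNat 0), (.negSucc 285, .ofNat 0), (.ofNat 715, .ofNat 0), (.negSucc 1286, .ofNat 0), (.ofNat 1716, .ofNat 0), (.negSucc 1715, .ofNat 0), (.ofNat 1287, .ofNat 0), (.negSucc 714, .ofNat 0), (.ofNat 286, .ofNat 0), (.negSucc 77, .ofNat 0), (.ofNat 13, .ofNat 0), (.negSucc 0, .ofNat 0)]]]
  tab1 := [[[(.ofNat 1, .ofNat 0), (.ofNat 0, .ofNat 0), (.ofNat 0, .ofNat 0), (.ofNat 0, .ofNat 0), (.ofNat 0, .ofNat 0), (.ofNat 0, .ofNat 0), (.ofNat 0, .ofNat 0), (.ofNat 0, .ofNat 0), (.ofNat 0, .ofNat 0), (.ofNat 0, .ofNat 0), (.ofNat 0, .ofNat 0), (.ofNat 0, .ofNat 0), (.ofNat 0, .ofNat 0), (.ofNat 0, .ofNat 0)], [(.ofNat 0, .ofNat 0), (.ofNat 1, .ofNat 0), (.ofNat 0, .ofNat 0), (.ofNat 0, .ofNat 0), (.ofNat 0, .ofNat 0), (.ofNat 0, .ofNat 0), (.ofNat 0, .ofNat 0), (.ofNat 0, .ofNat 0), (.ofNat 0, .ofNat 0), (.ofNat 0, .ofNat 0), (.ofNat 0, .ofNat 0), (.ofNat 0, .ofNat 0), (.ofNat 0, .ofNat 0),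 (.ofNat 0, .ofNat 0)], [(.ofNat 0, .ofNat 0), (.ofNat 0, .ofNat 0), (.ofNat 1, .ofNat 0), (.ofNat 0, .ofNat 0), (.ofNat 0, .ofNat 0), (.ofNat 0, .ofNat 0), (.ofNat 0, .ofNat 0), (.ofNat 0, .ofNat 0), (.ofNat 0, .ofNat 0), (.ofNat 0, .ofNat 0), (.ofNat 0, .ofNat 0), (.ofNat 0, .ofNat 0), (.ofNat 0, .ofNat 0), (.ofNat 0, .ofNat 0)], [(.ofNat 0, .ofNat 0), (.ofNat 0, .ofNat 0), (.ofNat 0, .ofNat 0), (.ofNat 1, .ofNat 0), (.ofNat 0, .ofNat 0), (.ofNat 0, .ofNat 0), (.ofNat 0, .ofNat 0), (.ofNat 0, .ofNat 0), (.ofNat 0, .ofNat 0), (.ofNat 0, .ofNat 0), (.ofNat 0, .ofNat 0), (.ofNat 0, .ofNat 0), (.ofNat 0, .ofNat 0), (.ofNat 0, .ofNat 0)], [(.ofNat 0, .ofNat 0), (.ofNat 0, .ofNat 0), (.ofNat 0, .ofNat 0), (.ofNat 0, .ofNat 0), (.ofNat 1, .ofNat 0), (.ofNat 0, .ofNat 0), (.ofNat 0, .ofNat 0), (.ofNat 0, .ofNat 0), (.ofNat 0, .ofNat 0), (.ofNat 0, .ofNat 0), (.ofNat 0, .ofNat 0), (.ofNat 0, .ofNat 0), (.ofNat 0, .ofNat 0), (.ofNat 0, .ofNat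 0)], [(.ofNat 0, .ofNat 0), (.ofNat 0, .ofNat 0), (.ofNat 0, .ofNat 0), (.ofNat 0, .ofNat 0), (.ofNat 0, .ofNat 0), (.ofNat 1, .ofNat 0), (.ofNat 0, .ofNat 0), (.ofNat 0, .ofNat 0), (.ofNat 0, .ofNat 0), (.ofNat 0, .ofNat 0), (.ofNat 0, .ofNat 0), (.ofNat 0, .ofNat 0), (.ofNat 0, .ofNat 0), (.ofNat 0, .ofNat 0)], [(.ofNat 0, .ofNat 0), (.ofNat 0, .ofNat 0), (.ofNat 0, .ofNat 0), (.ofNat 0, .ofNat 0), (.ofNat 0, .ofNat 0), (.ofNat 0, .ofNat 0), (.ofNat 1, .ofNat 0), (.ofNat 0, .ofNat 0), (.ofNat 0, .ofNat 0), (.ofNat 0, .ofNat 0), (.ofNat 0, .ofNat 0), (.ofNat 0, .ofNat 0), (.ofNat 0, .ofNat 0), (.ofNat 0, .ofNat 0)], [(.ofNat 0, .ofNat 0), (.ofNat 0, .ofNat 0), (.ofNat 0, .ofNat 0), (.ofNat 0, .ofNat 0), (.ofNat 0, .ofNat 0), (.ofNat 0, .ofNat 0), (.ofNat 0, .ofNat 0), (.ofNat 1, .ofNat 0), (.ofNat 0, .ofNat 0), (.ofNat 0, .ofNat 0), (.ofNat 0, .ofNat 0), (.ofNat 0, .ofNat 0), (.ofNat 0, .ofNat 0), (.ofNat 0, .ofNat 0)], [(.ofNat 0,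 .ofNat 0), (.ofNat 0, .ofNat 0), (.ofNat 0, .ofNat 0), (.ofNat 0, .ofNat 0), (.ofNat 0, .ofNat 0), (.ofNat 0, .ofNat 0), (.ofNat 0, .ofNat 0), (.ofNat 0, .ofNat 0), (.ofNat 1, .ofNat 0), (.ofNat 0, .ofNat 0), (.ofNat 0, .ofNat 0), (.ofNat 0, .ofNat 0), (.ofNat 0, .ofNat 0), (.ofNat 0, .ofNat 0)], [(.ofNat 0, .ofNat 0), (.ofNat 0, .ofNat 0), (.ofNat 0, .ofNat 0), (.ofNat 0, .ofNat 0), (.ofNat 0, .ofNat 0), (.ofNat 0, .ofNat 0), (.ofNat 0, .ofNat 0), (.ofNat 0, .ofNat 0), (.ofNat 0, .ofNat 0), (.ofNat 1, .ofNat 0), (.ofNat 0, .ofNat 0), (.ofNat 0, .ofNat 0), (.ofNat 0, .ofNat 0), (.ofNat 0, .ofNat 0)], [(.ofNat 0, .ofNat 0), (.ofNat 0, .ofNat 0), (.ofNat 0, .ofNat 0), (.ofNat 0, .ofNat 0), (.ofNat 0, .ofNat 0), (.ofNat 0, .ofNat 0), (.ofNat 0, .ofNat 0), (.ofNat 0, .ofNat 0), (.ofNat 0, .ofNat 0), (.ofNat 0, .ofNat 0), (.ofNat 1, .ofNat 0), (.ofNat 0, .ofNat 0), (.ofNat 0, .ofNat 0), (.ofNat 0, .ofNat 0)], [(.ofNat 0, .ofNat 0), (.ofNat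 0, .ofNat 0), (.ofNat 0, .ofNat 0), (.ofNat 0, .ofNat 0), (.ofNat 0, .ofNat 0), (.ofNat 0, .ofNat 0), (.ofNat 0, .ofNat 0), (.ofNat 0, .ofNat 0), (.ofNat 0, .ofNat 0), (.ofNat 0, .ofNat 0), (.ofNat 0, .ofNat 0), (.ofNat 1, .ofNat 0), (.ofNat 0, .ofNat 0), (.ofNat 0, .ofNat 0)], [(.ofNat 0, .ofNat 0), (.ofNat 0, .ofNat 0), (.ofNat 0, .ofNat 0), (.ofNat 0, .ofNat 0), (.ofNat 0, .ofNat 0), (.ofNat 0, .ofNat 0), (.ofNat 0, .ofNat 0), (.ofNat 0, .ofNat 0), (.ofNat 0, .ofNat 0), (.ofNat 0, .ofNat 0), (.ofNat 0, .ofNat 0), (.ofNat 0, .ofNat 0), (.ofNat 1, .ofNat 0), (.ofNat 0, .ofNat 0)], [(.ofNat 0, .ofNat 0), (.ofNat 0, .ofNat 0), (.ofNat 0, .ofNat 0), (.ofNat 0, .ofNat 0), (.ofNat 0, .ofNat 0), (.ofNat 0, .ofNat 0), (.ofNat 0, .ofNat 0), (.ofNat 0, .ofNat 0), (.ofNat 0, .ofNat 0), (.ofNat 0, .ofNat 0), (.ofNat 0, .ofNat 0), (.ofNat 0, .ofNat 0), (.ofNat 0, .ofNat 0), (.ofNat 1, .ofNat 0)]], [[(.ofNat 0, .ofNat 64), (.ofNat 832, .ofNat 0),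 (.ofNat 0, .negSucc 2495), (.negSucc 9151, .ofNat 0), (.ofNat 0, .ofNat 11440), (.ofNat 20592, .ofNat 0), (.ofNat 0, .negSucc 13727), (.negSucc 13727, .ofNat 0), (.ofNat 0, .ofNat 5148), (.ofNat 2860, .ofNat 0), (.ofNat 0, .negSucc 571), (.negSucc 155, .ofNat 0), (.ofNat 0, .ofNat 13), (.ofNat 1, .ofNat 0)], [(.ofNat 64, .ofNat 0), (.ofNat 0, .negSucc 383), (.negSucc 2111, .ofNat 0), (.ofNat 0, .ofNat 3520), (.ofNat 7920, .ofNat 0), (.ofNat 0, .negSucc 6335), (.negSucc 7391, .ofNat 0), (.ofNat 0, .ofNat 3168), (.ofNat 1980, .ofNat 0), (.ofNat 0, .negSucc 439), (.negSucc 131, .ofNat 0), (.ofNat 0, .ofNat 12), (.ofNat 1, .ofNat 0), (.ofNat 0, .ofNat 0)], [(.ofNat 0, .negSucc 31), (.negSucc 351, .ofNat 0), (.ofNat 0, .ofNat 880), (.ofNat 2640, .ofNat 0), (.ofNat 0, .negSucc 2639), (.negSucc 3695, .ofNat 0), (.ofNat 0, .ofNat 1848), (.ofNat 1320, .ofNat 0), (.ofNat 0, .negSucc 329), (.negSucc 109, .ofNat 0), (.ofNat 0, .ofNat 11), (.ofNat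 1, .ofNat 0), (.ofNat 0, .ofNat 0), (.ofNat 0, .ofNat 0)], [(.negSucc 31, .ofNat 0), (.ofNat 0, .ofNat 160), (.ofNat 720, .ofNat 0), (.ofNat 0, .negSucc 959), (.negSucc 1679, .ofNat 0), (.ofNat 0, .ofNat 1008), (.ofNat 840, .ofNat 0), (.ofNat 0, .negSucc 239), (.negSucc 89, .ofNat 0), (.ofNat 0, .ofNat 10), (.ofNat 1, .ofNat 0), (.ofNat 0, .ofNat 0), (.ofNat 0, .ofNat 0), (.ofNat 0, .ofNat 0)], [(.ofNat 0, .ofNat 16), (.ofNat 144, .ofNat 0), (.ofNat 0, .negSucc 287), (.negSucc 671, .ofNat 0), (.ofNat 0, .ofNat 504), (.ofNat 504, .ofNat 0), (.ofNat 0, .negSucc 167), (.negSucc 71, .ofNat 0), (.ofNat 0, .ofNat 9), (.ofNat 1, .ofNat 0), (.ofNat 0, .ofNat 0), (.ofNat 0, .ofNat 0), (.ofNat 0, .ofNat 0), (.ofNat 0, .ofNat 0)], [(.ofNat 16, .ofNat 0), (.ofNat 0, .negSucc 63), (.negSucc 223, .ofNat 0), (.ofNat 0, .ofNat 224), (.ofNat 280, .ofNat 0), (.ofNat 0, .negSucc 111), (.negSucc 55, .ofNat 0), (.ofNat 0, .ofNat 8), (.ofNat 1, .ofNat 0),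 (.ofNat 0, .ofNat 0), (.ofNat 0, .ofNat 0), (.ofNat 0, .ofNat 0), (.ofNat 0, .ofNat 0), (.ofNat 0, .ofNat 0)], [(.ofNat 0, .negSucc 7), (.negSucc 55, .ofNat 0), (.ofNat 0, .ofNat 84), (.ofNat 140, .ofNat 0), (.ofNat 0, .negSucc 69), (.negSucc 41, .ofNat 0), (.ofNat 0, .ofNat 7), (.ofNat 1, .ofNat 0), (.ofNat 0, .ofNat 0), (.ofNat 0, .ofNat 0), (.ofNat 0, .ofNat 0), (.ofNat 0, .ofNat 0), (.ofNat 0, .ofNat 0), (.ofNat 0, .ofNat 0)], [(.negSucc 7, .ofNat 0), (.ofNat 0, .ofNat 24), (.ofNat 60, .ofNat 0), (.ofNat 0, .negSucc 39), (.negSucc 29, .ofNat 0), (.ofNat 0, .ofNat 6), (.ofNat 1, .ofNat 0), (.ofNat 0, .ofNat 0), (.ofNat 0, .ofNat 0), (.ofNat 0, .ofNat 0), (.ofNat 0, .ofNat 0), (.ofNat 0, .ofNat 0), (.ofNat 0, .ofNat 0), (.ofNat 0, .ofNat 0)], [(.ofNat 0, .ofNat 4), (.ofNat 20, .ofNat 0), (.ofNat 0, .negSucc 19), (.negSucc 19, .ofNat 0), (.ofNat 0, .ofNat 5), (.ofNat 1, .ofNat 0), (.ofNat 0, .ofNat 0), (.ofNat 0, .ofNat 0), (.ofNat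 0, .ofNat 0), (.ofNat 0, .ofNat 0), (.ofNat 0, .ofNat 0), (.ofNat 0, .ofNat 0), (.ofNat 0, .ofNat 0), (.ofNat 0, .ofNat 0)], [(.ofNat 4, .ofNat 0), (.ofNat 0, .negSucc 7), (.negSucc 11, .ofNat 0), (.ofNat 0, .ofNat 4), (.ofNat 1, .ofNat 0), (.ofNat 0, .ofNat 0), (.ofNat 0, .ofNat 0), (.ofNat 0, .ofNat 0), (.ofNat 0, .ofNat 0), (.ofNat 0, .ofNat 0), (.ofNat 0, .ofNat 0), (.ofNat 0, .ofNat 0), (.ofNat 0, .ofNat 0), (.ofNat 0, .ofNat 0)], [(.ofNat 0, .negSucc 1), (.negSucc 5, .ofNat 0), (.ofNat 0, .ofNat 3), (.ofNat 1, .ofNat 0), (.ofNat 0, .ofNat 0), (.ofNat 0, .ofNat 0), (.ofNat 0, .ofNat 0), (.ofNat 0, .ofNat 0), (.ofNat 0, .ofNat 0), (.ofNat 0, .ofNat 0), (.ofNat 0, .ofNat 0), (.ofNat 0, .ofNat 0), (.ofNat 0, .ofNat 0), (.ofNat 0, .ofNat 0)], [(.negSucc 1, .ofNat 0), (.ofNat 0, .ofNat 2), (.ofNat 1, .ofNat 0), (.ofNat 0, .ofNat 0), (.ofNat 0, .ofNat 0), (.ofNat 0, .ofNat 0), (.ofNat 0, .ofNat 0), (.ofNat 0, .ofNat 0), (.ofNat 0, .ofNat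 0), (.ofNat 0, .ofNat 0), (.ofNat 0, .ofNat 0), (.ofNat 0, .ofNat 0), (.ofNat 0, .ofNat 0), (.ofNat 0, .ofNat 0)], [(.ofNat 0, .ofNat 1), (.ofNat 1, .ofNat 0), (.ofNat 0, .ofNat 0), (.ofNat 0, .ofNat 0), (.ofNat 0, .ofNat 0), (.ofNat 0, .ofNat 0), (.ofNat 0, .ofNat 0), (.ofNat 0, .ofNat 0), (.ofNat 0, .ofNat 0), (.ofNat 0, .ofNat 0), (.ofNat 0, .ofNat 0), (.ofNat 0, .ofNat 0), (.ofNat 0, .ofNat 0), (.ofNat 0, .ofNat 0)], [(.ofNat 1, .ofNat 0), (.ofNat 0, .ofNat 0), (.ofNat 0, .ofNat 0), (.ofNat 0, .ofNat 0), (.ofNat 0, .ofNat 0), (.ofNat 0, .ofNat 0), (.ofNat 0, .ofNat 0), (.ofNat 0, .ofNat 0), (.ofNat 0, .ofNat 0), (.ofNat 0, .ofNat 0), (.ofNat 0, .ofNat 0), (.ofNat 0, .ofNat 0), (.ofNat 0, .ofNat 0), (.ofNat 0, .ofNat 0)]], [[(.ofNat 1, .ofNat 0), (.ofNat 0, .negSucc 12), (.negSucc 155, .ofNat 0), (.ofNat 0, .ofNat 572), (.ofNat 2860, .ofNat 0), (.ofNat 0, .negSucc 5147), (.negSucc 13727, .ofNat 0), (.ofNat 0, .ofNat 13728), (.ofNat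 20592, .ofNat 0), (.ofNat 0, .negSucc 11439), (.negSucc 9151, .ofNat 0), (.ofNat 0, .ofNat 2496), (.ofNat 832, .ofNat 0), (.ofNat 0, .negSucc 63)], [(.ofNat 0, .ofNat 1), (.ofNat 25, .ofNat 0), (.ofNat 0, .negSucc 143), (.negSucc 1011, .ofNat 0), (.ofNat 0, .ofNat 2420), (.ofNat 8316, .ofNat 0), (.ofNat 0, .negSucc 10559), (.negSucc 20063, .ofNat 0), (.ofNat 0, .ofNat 14256), (.ofNat 14960, .ofNat 0), (.ofNat 0, .negSucc 5631), (.negSucc 2879, .ofNat 0), (.ofNat 0, .ofNat 448), (.ofNat 64, .ofNat 0)], [(.negSucc 1, .ofNat 0), (.ofNat 0, .ofNat 24), (.ofNat 265, .ofNat 0), (.ofNat 0, .negSucc 890), (.negSucc 4069, .ofNat 0), (.ofNat 0, .ofNat 6666), (.ofNat 16104, .ofNat 0), (.ofNat 0, .negSucc 14519), (.negSucc 19535, .ofNat 0), (.ofNat 0, .ofNat 9680), (.ofNat 6864, .ofNat 0), (.ofNat 0, .negSucc 1647), (.negSucc 479, .ofNat 0), (.ofNat 0, .ofNat 32)], [(.ofNat 0, .negSucc 1), (.negSucc 45, .ofNat 0), (.ofNat 0, .ofNat 243), (.ofNat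 1561, .ofNat 0), (.ofNat 0, .negSucc 3399), (.negSucc 10601, .ofNat 0), (.ofNat 0, .ofNat 12168), (.ofNat 20808, .ofNat 0), (.ofNat 0, .negSucc 13247), (.negSucc 12399, .ofNat 0), (.ofNat 0, .ofNat 4144), (.ofNat 1872, .ofNat 0), (.ofNat 0, .negSucc 255), (.negSucc 31, .ofNat 0)], [(.ofNat 4, .ofNat 0), (.ofNat 0, .negSucc 43), (.negSucc 443, .ofNat 0), (.ofNat 0, .ofNat 1360), (.ofNat 5641, .ofNat 0), (.ofNat 0, .negSucc 8360), (.negSucc 18215, .ofNat 0), (.ofNat 0, .ofNat 14760), (.ofNat 17784, .ofNat 0), (.ofNat 0, .negSucc 7863), (.negSucc 4959, .ofNat 0), (.ofNat 0, .ofNat 1056), (.ofNat 272, .ofNat 0), (.ofNat 0, .negSucc 15)], [(.ofNat 0, .ofNat 4), (.ofNat 84, .ofNat 0), (.ofNat 0, .negSucc 403), (.negSucc 2355, .ofNat 0), (.ofNat 0, .ofNat 4645), (.ofNat 13073, .ofNat 0), (.ofNat 0, .negSucc 13503), (.negSucc 20727, .ofNat 0), (.ofNat 0, .ofNat 11816), (.ofNat 9880, .ofNat 0), (.ofNat 0, .negSucc 2943), (.negSucc 1183, .ofNat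 0), (.ofNat 0, .ofNat 144), (.ofNat 16, .ofNat 0)], [(.negSucc 7, .ofNat 0), (.ofNat 0, .ofNat 80), (.ofNat 732, .ofNat 0), (.ofNat 0, .negSucc 2027), (.negSucc 7589, .ofNat 0), (.ofNat 0, .ofNat 10128), (.ofNat 19825, .ofNat 0), (.ofNat 0, .negSucc 14406), (.negSucc 15545, .ofNat 0), (.ofNat 0, .ofNat 6150), (.ofNat 3468, .ofNat 0), (.ofNat 0, .negSucc 659), (.negSucc 151, .ofNat 0), (.ofNat 0, .ofNat 8)], [(.ofNat 0, .negSucc 7), (.negSucc 151, .ofNat 0), (.ofNat 0, .ofNat 660), (.ofNat 3468, .ofNat 0), (.ofNat 0, .negSucc 6149), (.negSucc 15545, .ofNat 0), (.ofNat 0, .ofNat 14407), (.ofNat 19825, .ofNat 0), (.ofNat 0, .negSucc 10127), (.negSucc 7589, .ofNat 0), (.ofNat 0, .ofNat 2028), (.ofNat 732, .ofNat 0), (.ofNat 0, .negSucc 79), (.negSucc 7, .ofNat 0)], [(.ofNat 16, .ofNat 0), (.ofNat 0, .negSucc 143), (.negSucc 1183, .ofNat 0), (.ofNat 0, .ofNat 2944), (.ofNat 9880, .ofNat 0), (.ofNat 0, .negSucc 11815), (.negSucc 20727, .ofNat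 0), (.ofNat 0, .ofNat 13504), (.ofNat 13073, .ofNat 0), (.ofNat 0, .negSucc 4644), (.negSucc 2355, .ofNat 0), (.ofNat 0, .ofNat 404), (.ofNat 84, .ofNat 0), (.ofNat 0, .negSucc 3)], [(.ofNat 0, .ofNat 16), (.ofNat 272, .ofNat 0), (.ofNat 0, .negSucc 1055), (.negSucc 4959, .ofNat 0), (.ofNat 0, .ofNat 7864), (.ofNat 17784, .ofNat 0), (.ofNat 0, .negSucc 14759), (.negSucc 18215, .ofNat 0), (.ofNat 0, .ofNat 8361), (.ofNat 5641, .ofNat 0), (.ofNat 0, .negSucc 1359), (.negSucc 443, .ofNat 0), (.ofNat 0, .ofNat 44), (.ofNat 4, .ofNat 0)], [(.negSucc 31, .ofNat 0), (.ofNat 0, .ofNat 256), (.ofNat 1872, .ofNat 0), (.ofNat 0, .negSucc 4143), (.negSucc 12399, .ofNat 0), (.ofNat 0, .ofNat 13248), (.ofNat 20808, .ofNat 0), (.ofNat 0, .negSucc 12167), (.negSucc 10601, .ofNat 0), (.ofNat 0, .ofNat 3400), (.ofNat 1561, .ofNat 0), (.ofNat 0, .negSucc 242), (.negSucc 45, .ofNat 0), (.ofNat 0, .ofNat 2)], [(.ofNat 0, .negSucc 31), (.negSucc 479, .ofNat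 0), (.ofNat 0, .ofNat 1648), (.ofNat 6864, .ofNat 0), (.ofNat 0, .negSucc 9679), (.negSucc 19535, .ofNat 0), (.ofNat 0, .ofNat 14520), (.ofNat 16104, .ofNat 0), (.ofNat 0, .negSucc 6665), (.negSucc 4069, .ofNat 0), (.ofNat 0, .ofNat 891), (.ofNat 265, .ofNat 0), (.ofNat 0, .negSucc 23), (.negSucc 1, .ofNat 0)], [(.ofNat 64, .ofNat 0), (.ofNat 0, .negSucc 447), (.negSucc 2879, .ofNat 0), (.ofNat 0, .ofNat 5632), (.ofNat 14960, .ofNat 0), (.ofNat 0, .negSucc 14255), (.negSucc 20063, .ofNat 0), (.ofNat 0, .ofNat 10560), (.ofNat 8316, .ofNat 0), (.ofNat 0, .negSucc 2419), (.negSucc 1011, .ofNat 0), (.ofNat 0, .ofNat 144), (.ofNat 25, .ofNat 0), (.ofNat 0, .negSucc 0)], [(.ofNat 0, .ofNat 64), (.ofNat 832, .ofNat 0), (.ofNat 0, .negSucc 2495), (.negSucc 9151, .ofNat 0), (.ofNat 0, .ofNat 11440), (.ofNat 20592, .ofNat 0), (.ofNat 0, .negSucc 13727), (.negSucc 13727, .ofNat 0), (.ofNat 0, .ofNat 5148), (.ofNat 2860, .ofNat 0), (.ofNat 0, .negSucc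 571), (.negSucc 155, .ofNat 0), (.ofNat 0, .ofNat 13), (.ofNat 1, .ofNat 0)]], [[(.ofNat 0, .ofNat 0), (.ofNat 0, .ofNat 0), (.ofNat 0, .ofNat 0), (.ofNat 0, .ofNat 0), (.ofNat 0, .ofNat 0), (.ofNat 0, .ofNat 0), (.ofNat 0, .ofNat 0), (.ofNat 0, .ofNat 0), (.ofNat 0, .ofNat 0), (.ofNat 0, .ofNat 0), (.ofNat 0, .ofNat 0), (.ofNat 0, .ofNat 0), (.ofNat 0, .ofNat 0), (.ofNat 1, .ofNat 0)], [(.ofNat 0, .ofNat 0), (.ofNat 0, .ofNat 0), (.ofNat 0, .ofNat 0), (.ofNat 0, .ofNat 0), (.ofNat 0, .ofNat 0), (.ofNat 0, .ofNat 0), (.ofNat 0, .ofNat 0), (.ofNat 0, .ofNat 0), (.ofNat 0, .ofNat 0), (.ofNat 0, .ofNat 0), (.ofNat 0, .ofNat 0), (.ofNat 0, .ofNat 0), (.ofNat 1, .ofNat 0), (.ofNat 0, .negSucc 0)], [(.ofNat 0, .ofNat 0), (.ofNat 0, .ofNat 0), (.ofNat 0, .ofNat 0), (.ofNat 0, .ofNat 0), (.ofNat 0, .ofNat 0), (.ofNat 0, .ofNat 0), (.ofNat 0, .ofNat 0), (.ofNat 0, .ofNat 0), (.ofNat 0, .ofNat 0), (.ofNat 0, .ofNat 0), (.ofNat 0, .ofNat 0), (.ofNat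 1, .ofNat 0), (.ofNat 0, .negSucc 1), (.negSucc 1, .ofNat 0)], [(.ofNat 0, .ofNat 0), (.ofNat 0, .ofNat 0), (.ofNat 0, .ofNat 0), (.ofNat 0, .ofNat 0), (.ofNat 0, .ofNat 0), (.ofNat 0, .ofNat 0), (.ofNat 0, .ofNat 0), (.ofNat 0, .ofNat 0), (.ofNat 0, .ofNat 0), (.ofNat 0, .ofNat 0), (.ofNat 1, .ofNat 0), (.ofNat 0, .negSucc 2), (.negSucc 5, .ofNat 0), (.ofNat 0, .ofNat 2)], [(.ofNat 0, .ofNat 0), (.ofNat 0, .ofNat 0), (.ofNat 0, .ofNat 0), (.ofNat 0, .ofNat 0), (.ofNat 0, .ofNat 0), (.ofNat 0, .ofNat 0), (.ofNat 0, .ofNat 0), (.ofNat 0, .ofNat 0), (.ofNat 0, .ofNat 0), (.ofNat 1, .ofNat 0), (.ofNat 0, .negSucc 3), (.negSucc 11, .ofNat 0), (.ofNat 0, .ofNat 8), (.ofNat 4, .ofNat 0)], [(.ofNat 0, .ofNat 0), (.ofNat 0, .ofNat 0), (.ofNat 0, .ofNat 0), (.ofNat 0, .ofNat 0), (.ofNat 0, .ofNat 0), (.ofNat 0, .ofNat 0), (.ofNat 0, .ofNat 0), (.ofNat 0, .ofNat 0), (.ofNat 1, .ofNat 0), (.ofNat 0, .negSucc 4), (.negSucc 19, .ofNat 0), (.ofNat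 0, .ofNat 20), (.ofNat 20, .ofNat 0), (.ofNat 0, .negSucc 3)], [(.ofNat 0, .ofNat 0), (.ofNat 0, .ofNat 0), (.ofNat 0, .ofNat 0), (.ofNat 0, .ofNat 0), (.ofNat 0, .ofNat 0), (.ofNat 0, .ofNat 0), (.ofNat 0, .ofNat 0), (.ofNat 1, .ofNat 0), (.ofNat 0, .negSucc 5), (.negSucc 29, .ofNat 0), (.ofNat 0, .ofNat 40), (.ofNat 60, .ofNat 0), (.ofNat 0, .negSucc 23), (.negSucc 7, .ofNat 0)], [(.ofNat 0, .ofNat 0), (.ofNat 0, .ofNat 0), (.ofNat 0, .ofNat 0), (.ofNat 0, .ofNat 0), (.ofNat 0, .ofNat 0), (.ofNat 0, .ofNat 0), (.ofNat 1, .ofNat 0), (.ofNat 0, .negSucc 6), (.negSucc 41, .ofNat 0), (.ofNat 0, .ofNat 70), (.ofNat 140, .ofNat 0), (.ofNat 0, .negSucc 83), (.negSucc 55, .ofNat 0), (.ofNat 0, .ofNat 8)], [(.ofNat 0, .ofNat 0), (.ofNat 0, .ofNat 0), (.ofNat 0, .ofNat 0), (.ofNat 0, .ofNat 0), (.ofNat 0, .ofNat 0), (.ofNat 1, .ofNat 0), (.ofNat 0, .negSucc 7), (.negSucc 55, .ofNat 0), (.ofNat 0, .ofNat 112), (.ofNat 280, .ofNat 0), (.ofNat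 0, .negSucc 223), (.negSucc 223, .ofNat 0), (.ofNat 0, .ofNat 64), (.ofNat 16, .ofNat 0)], [(.ofNat 0, .ofNat 0), (.ofNat 0, .ofNat 0), (.ofNat 0, .ofNat 0), (.ofNat 0, .ofNat 0), (.ofNat 1, .ofNat 0), (.ofNat 0, .negSucc 8), (.negSucc 71, .ofNat 0), (.ofNat 0, .ofNat 168), (.ofNat 504, .ofNat 0), (.ofNat 0, .negSucc 503), (.negSucc 671, .ofNat 0), (.ofNat 0, .ofNat 288), (.ofNat 144, .ofNat 0), (.ofNat 0, .negSucc 15)], [(.ofNat 0, .ofNat 0), (.ofNat 0, .ofNat 0), (.ofNat 0, .ofNat 0), (.ofNat 1, .ofNat 0), (.ofNat 0, .negSucc 9), (.negSucc 89, .ofNat 0), (.ofNat 0, .ofNat 240), (.ofNat 840, .ofNat 0), (.ofNat 0, .negSucc 1007), (.negSucc 1679, .ofNat 0), (.ofNat 0, .ofNat 960), (.ofNat 720, .ofNat 0), (.ofNat 0, .negSucc 159), (.negSucc 31, .ofNat 0)], [(.ofNat 0, .ofNat 0), (.ofNat 0, .ofNat 0), (.ofNat 1, .ofNat 0), (.ofNat 0, .negSucc 10), (.negSucc 109, .ofNat 0), (.ofNat 0, .ofNat 330), (.ofNat 1320, .ofNat 0), (.ofNat 0, .negSucc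 1847), (.negSucc 3695, .ofNat 0), (.ofNat 0, .ofNat 2640), (.ofNat 2640, .ofNat 0), (.ofNat 0, .negSucc 879), (.negSucc 351, .ofNat 0), (.ofNat 0, .ofNat 32)], [(.ofNat 0, .ofNat 0), (.ofNat 1, .ofNat 0), (.ofNat 0, .negSucc 11), (.negSucc 131, .ofNat 0), (.ofNat 0, .ofNat 440), (.ofNat 1980, .ofNat 0), (.ofNat 0, .negSucc 3167), (.negSucc 7391, .ofNat 0), (.ofNat 0, .ofNat 6336), (.ofNat 7920, .ofNat 0), (.ofNat 0, .negSucc 3519), (.negSucc 2111, .ofNat 0), (.ofNat 0, .ofNat 384), (.ofNat 64, .ofNat 0)], [(.ofNat 1, .ofNat 0), (.ofNat 0, .negSucc 12), (.negSucc 155, .ofNat 0), (.ofNat 0, .ofNat 572), (.ofNat 2860, .ofNat 0), (.ofNat 0, .negSucc 5147), (.negSucc 13727, .ofNat 0), (.ofNat 0, .ofNat 13728), (.ofNat 20592, .ofNat 0), (.ofNat 0, .negSucc 11439), (.negSucc 9151, .ofNat 0), (.ofNat 0, .ofNat 2496), (.ofNat 832, .ofNat 0), (.ofNat 0, .negSucc 63)]]]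
  rws := [(0, 0, 1, 0), (0, 0, 3, 0), (0, 0, 6, 0), (0, 0, 10, 0), (0, 0, 11, 0), (0, 0, 12, 0), (0, 0, 13, 0), (0, 1, 5, 0), (0, 1, 9, 0), (0, 1, 10, 0), (0, 1, 11, 0), (0, 1, 12, 0), (0, 2, 4, 0), (0, 2, 6, 0), (0, 2, 10, 0), (0, 2, 11, 0), (0, 3, 9, 0), (0, 3, 10, 0), (1, 0, 1, 1), (1, 0, 12, 0), (1, 0, 13, 1), (1, 1, 12, 1)]
  cols := [((0, 2), [.ofNat 4, .ofNat 132, .negSucc 1583, .negSucc 439, .ofNat 132, .negSucc 23, .ofNat 2, .negSucc 10295, .negSucc 11439, .ofNat 5148, .negSucc 1559, .ofNat 286, .negSucc 17159, .negSucc 82367, .negSucc 27455, .ofNat 8424, .negSucc 188759, .ofNat 88088, .ofNat 8196, .ofNat 4608, .ofNat 256, .negSucc 36607]), ((0, 4), [.ofNat 8, .ofNat 206, .negSucc 1667, .negSucc 369, .ofNat 114, .negSucc 21, .ofNat 2, .negSucc 10061, .negSucc 8059, .ofNat 3666, .negSucc 1169, .ofNat 234, .negSucc 15989, .negSucc 58031, .negSucc 16847, .ofNat 5616, .negSucc 95809, .ofNat 48048, .negSucc 8207, .negSucc 8831, .negSucc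 511, .ofNat 69888]), ((0, 6), [.ofNat 12, .ofNat 271, .negSucc 1709, .negSucc 320, .ofNat 99, .negSucc 19, .ofNat 2, .negSucc 8735, .negSucc 5459, .ofNat 2457, .negSucc 818, .ofNat 182, .negSucc 12284, .negSucc 35567, .negSucc 8735, .ofNat 3276, .negSucc 35034, .ofNat 20020, .ofNat 6192, .ofNat 16800, .ofNat 1024, .negSucc 130623]), ((0, 8), [.ofNat 16, .ofNat 332, .negSucc 1743, .negSucc 295, .ofNat 88, .negSucc 17, .ofNat 2, .negSucc 6421, .negSucc 3639, .ofNat 1560, .negSucc 519, .ofNat 130, .negSucc 6759, .negSucc 17159, .negSucc 3639, .ofNat 1560, .negSucc 8579, .ofNat 5720, .negSucc 4223, .negSucc 31679, .negSucc 2047, .ofNat 237952]), ((0, 10), [.ofNat 20, .ofNat 405, .negSucc 1925, .negSucc 286, .ofNat 81, .negSucc 15, .ofNat 2, .negSucc 3860, .negSucc 2144, .ofNat 871, .negSucc 272, .ofNat 78, .negSucc 2144, .negSucc 5147, .negSucc 935, .ofNat 468, .negSucc 714, .ofNat 572, .ofNat 2880, .ofNat 59352, .ofNat 4096, .negSucc 424943]),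 ((0, 12), [.ofNat 24, .ofNat 506, .negSucc 2639, .negSucc 351, .ofNat 90, .negSucc 13, .ofNat 2, .negSucc 1286, .negSucc 714, .ofNat 286, .negSucc 77, .ofNat 26, .ofNat 0, .ofNat 0, .ofNat 0, .ofNat 0, .ofNat 0, .ofNat 0, .negSucc 2303, .negSucc 110567, .negSucc 8191, .ofNat 744848]), ((1, 3), [.ofNat 4, .ofNat 101, .negSucc 713, .negSucc 64, .ofNat 12, .negSucc 0, .ofNat 0, .negSucc 4940, .negSucc 2289, .ofNat 768, .negSucc 164, .ofNat 20, .negSucc 8534, .negSucc 29159, .negSucc 4343, .ofNat 1080, .negSucc 37564, .ofNat 15400, .ofNat 4104, .ofNat 3456, .ofNat 192, .negSucc 28735]), ((1, 5), [.ofNat 8, .ofNat 174, .negSucc 895, .negSucc 65, .ofNat 12, .negSucc 0, .ofNat 0, .negSucc 5664, .negSucc 1829, .ofNat 584, .negSucc 123, .ofNat 16, .negSucc 9239, .negSucc 24119, .negSucc 2519, .ofNat 672, .negSucc 16939, .ofNat 7392, .negSucc 4127, .negSucc 8287, .negSucc 479, .ofNat 68192]), ((1, 7), [.ofNat 12, .ofNat 235, .negSucc 929, .negSucc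 65, .ofNat 12, .negSucc 0, .ofNat 0, .negSucc 4700, .negSucc 1334, .ofNat 416, .negSucc 86, .ofNat 12, .negSucc 6434, .negSucc 13793, .negSucc 1229, .ofNat 360, .negSucc 5389, .ofNat 2640, .ofNat 3168, .ofNat 16544, .ofNat 1008, .negSucc 132239]), ((1, 9), [.ofNat 16, .ofNat 300, .negSucc 1007, .negSucc 65, .ofNat 12, .negSucc 0, .ofNat 0, .negSucc 3293, .negSucc 880, .ofNat 268, .negSucc 53, .ofNat 8, .negSucc 2903, .negSucc 5543, .negSucc 443, .ofNat 144, .negSucc 945, .ofNat 528, .negSucc 2303, .negSucc 31559, .negSucc 2039, .ofNat 241528]), ((1, 11), [.ofNat 20, .ofNat 385, .negSucc 1385, .negSucc 76, .ofNat 13, .negSucc 0, .ofNat 0, .negSucc 2045, .negSucc 494, .ofNat 143, .negSucc 24, .ofNat 4, .negSucc 494, .negSucc 923, .negSucc 65, .ofNat 24, .ofNat 0, .ofNat 0, .ofNat 1920, .ofNat 59296, .ofNat 4092, .negSucc 428883]), ((2, 4), [.ofNat 4, .ofNat 85, .negSucc 377, .negSucc 10, .ofNat 1, .ofNat 0, .ofNat 0, .negSucc 2771, .negSucc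 483, .ofNat 99, .negSucc 8, .ofNat 0, .negSucc 4950, .negSucc 12047, .negSucc 479, .ofNat 72, .negSucc 5840, .ofNat 1848, .ofNat 2064, .ofNat 3424, .ofNat 192, .negSucc 29183]), ((2, 6), [.ofNat 8, .ofNat 150, .negSucc 455, .negSucc 10, .ofNat 1, .ofNat 0, .ofNat 0, .negSucc 3014, .negSucc 384, .ofNat 77, .negSucc 6, .ofNat 0, .negSucc 5019, .negSucc 9317, .negSucc 265, .ofNat 42, .negSucc 2309, .ofNat 770, .negSucc 2111, .negSucc 8271, .negSucc 479, .ofNat 69504]), ((2, 8), [.ofNat 12, .ofNat 211, .negSucc 489, .negSucc 10, .ofNat 1, .ofNat 0, .ofNat 0, .negSucc 2410, .negSucc 274, .ofNat 55, .negSucc 4, .ofNat 0, .negSucc 3094, .negSucc 4647, .negSucc 119, .ofNat 20, .negSucc 604, .ofNat 220, .ofNat 1728, .ofNat 16536, .ofNat 1008, .negSucc 134207]), ((2, 10), [.ofNat 16, .ofNat 284, .negSucc 671, .negSucc 11, .ofNat 1, .ofNat 0, .ofNat 0, .negSucc 1889, .negSucc 184, .ofNat 35, .negSucc 2, .ofNat 0, .negSucc 1199, .negSucc 1595, .negSucc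 33, .ofNat 6, .negSucc 54, .ofNat 22, .negSucc 1535, .negSucc 31555, .negSucc 2039, .ofNat 243552]), ((3, 5), [.ofNat 4, .ofNat 73, .negSucc 181, .negSucc 0, .ofNat 0, .ofNat 0, .ofNat 0, .negSucc 1458, .negSucc 79, .ofNat 8, .ofNat 0, .ofNat 0, .negSucc 2744, .negSucc 4619, .negSucc 27, .ofNat 0, .negSucc 629, .ofNat 112, .ofNat 1056, .ofNat 3424, .ofNat 192, .negSucc 29759]), ((3, 7), [.ofNat 8, .ofNat 134, .negSucc 215, .negSucc 0, .ofNat 0, .ofNat 0, .ofNat 0, .negSucc 1514, .negSucc 59, .ofNat 6, .ofNat 0, .ofNat 0, .negSucc 2579, .negSucc 3125, .negSucc 14, .ofNat 0, .negSucc 214, .ofNat 40, .negSucc 1151, .negSucc 8271, .negSucc 479, .ofNat 70464]), ((3, 9), [.ofNat 12, .ofNat 199, .negSucc 293, .negSucc 0, .ofNat 0, .ofNat 0, .ofNat 0, .negSucc 1385, .negSucc 42, .ofNat 4, .ofNat 0, .ofNat 0, .negSucc 1592, .negSucc 1511, .negSucc 5, .ofNat 0, .negSucc 40, .ofNat 8, .ofNat 1152, .ofNat 16536, .ofNat 1008, .negSucc 135215]), ((4,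 6), [.ofNat 4, .ofNat 65, .negSucc 77, .ofNat 0, .ofNat 0, .ofNat 0, .ofNat 0, .negSucc 716, .negSucc 6, .ofNat 0, .ofNat 0, .ofNat 0, .negSucc 1460, .negSucc 1517, .ofNat 0, .ofNat 0, .negSucc 34, .ofNat 0, .ofNat 576, .ofNat 3424, .ofNat 192, .negSucc 30143]), ((4, 8), [.ofNat 8, .ofNat 126, .negSucc 111, .ofNat 0, .ofNat 0, .ofNat 0, .ofNat 0, .negSucc 844, .negSucc 4, .ofNat 0, .ofNat 0, .ofNat 0, .negSucc 1471, .negSucc 1007, .ofNat 0, .ofNat 0, .negSucc 9, .ofNat 0, .negSucc 767, .negSucc 8271, .negSucc 479, .ofNat 70944]), ((5, 7), [.ofNat 4, .ofNat 61, .negSucc 33, .ofNat 0, .ofNat 0, .ofNat 0, .ofNat 0, .negSucc 385, .ofNat 0, .ofNat 0, .ofNat 0, .ofNat 0, .negSucc 874, .negSucc 461, .ofNat 0, .ofNat 0, .ofNat 0, .ofNat 0, .ofNat 384, .ofNat 3424, .ofNat 192, .negSucc 30335])]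
  tg := [((0, 2), .ofNat 3326400, [.ofNat 36815195357017350243614293334411, .negSucc 2537919707270988290493465889599, .negSucc 212901777126415120247451263053, .ofNat 2131040462757764667552378019292, .ofNat 10790492237989202314031238072060, .ofNat 45977388306551510537446093365020, .ofNat 84181082970438123731189692754180, .negSucc 6533449382934630828528708419, .ofNat 144545643614842869556187617884, .ofNat 754505952780683929087539011820, .ofNat 2184664650852977775471557583060, .ofNat 5474780218771307037738771480660, .ofNat 3358640572554529611934222128, .negSucc 1570470201294697698198403999, .ofNat 13115324353899986709835047840, .negSucc 16650749998923422543575770819, .ofNat 1625060851426981538986580880, .ofNat 6569815001106857906284703940, .ofNat 525237076704105055009125, .negSucc 10421870286123204245567999, .ofNat 22840710313803838714384000, .negSucc 1189987993771339967567999]), ((0, 4), .ofNat 359251200, [.negSucc 22823752186016538293458247163844020,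 .ofNat 1573395167539688390874904316349440, .ofNat 131989450387898233149674260441426, .negSucc 1321148480910784168301200040279523, .negSucc 6689616024489115368698696660977859, .negSucc 28503896467005014533337455007699619, .negSucc 52188455278740006522279681050126139, .ofNat 4050442437963576100978621943292, .negSucc 89611746384624315568882010240867, .negSucc 467759486867918893083349219096019, .negSucc 1354393046596028955123401520348779, .negSucc 3394115548603873514056137637510379, .negSucc 2082204898452989519898761090639, .ofNat 973620331014798068957845238880, .negSucc 8130906545239433188288556511839, .ofNat 10322710174463470968974193762300, .negSucc 1007464059350611015861169639279, .negSucc 4072987472675608509383331848699, .negSucc 325623177097096187728132874, .ofNat 6461087124991870429337664000, .negSucc 14160204961549490693942287999, .ofNat 737738610668409372465744000]), ((0, 6), .ofNat 359251200, [.ofNat 23690110179265255859646510784983241,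 .negSucc 1633119066959349153726456967496959, .negSucc 136999586952477642332803503951081, .ofNat 1371297445786362985215068556532180, .ofNat 6943544575208819292872208808827060, .ofNat 29585864862983890368708785546608660, .ofNat 54169456694175146526690032366671180, .negSucc 4204191617928538774975426800587, .ofNat 93013284051899787271188440777940, .ofNat 485514988551565083708687333574020, .ofNat 1405803929099294766794899670584380, .ofNat 3522951469690691751471746797155900, .ofNat 2161242509913808006755453203376, .negSucc 1010577609085882422481840948319, .ofNat 8439544486118511132170762227680, .negSucc 10714545942690726449447378182379, .ofNat 1045705998433000674062783023920, .ofNat 4227592430904883298504730018540, .ofNat 337983381500207016651816375, .negSucc 6706341035487909793933401599, .ofNat 14697706712115932867576278400, .negSucc 765742145629342152092169599]), ((0, 8), .ofNat 239500800, [.negSucc 3271777701204368462798270143098594, .ofNat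 225545702669036757149200194475520, .ofNat 18920646222137035490073546601246, .negSucc 189386219434690665965756053248795, .negSucc 958954354225437376365896025008699, .negSucc 4086024598327077649080729629925339, .negSucc 7481198658733072910806036476083139, .ofNat 580629650222906788817668279236, .negSucc 12845815674726086071630345562651, .negSucc 67053175402022204065695830745899, .negSucc 194151817475220013140522967146899, .negSucc 486545396949971010878947552960019, .negSucc 298483417650794025141789217775, .ofNat 139568168392797326795617825440, .negSucc 1165562897304398100857808193439, .ofNat 1479757258558790755087301362980, .negSucc 144419656210938457167967457039, .negSucc 583861473861830548531261490339, .negSucc 46677980077014684464480924, .ofNat 926194808320713083978179200, .negSucc 2029860929968630134708163999, .ofNat 105754597930712215069351200]), ((0, 10), .ofNat 359251200, [.ofNat 57898456962339602757495572851501, .negSucc 3991331120759468416799440346239,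 .negSucc 334825994012001694646243576625, .ofNat 3351440983036002644878533785764, .ofNat 16969972436248206199149803737860, .ofNat 72307638525140698961985205946980, .ofNat 132389758145831097741734860539580, .negSucc 10275013734005939142240453371, .ofNat 227323789668073768233811168548, .ofNat 1186595100508538020773056416020, .ofNat 3435774577261499575213785796140, .ofNat 8610067766878734064965711875820, .ofNat 5282060973905710998014790960, .negSucc 2469844325923591892244360479, .ofNat 20626185336991880744827720800, .negSucc 26186272349077341578136626459, .ofNat 2555697853973055588004531440, .ofNat 10332205150708614121468675740, .ofNat 826028925982085193865875, .negSucc 16390248710528006120822399, .ofNat 35921088297062831723957600, .negSucc 1871468234106165793274399]), ((0, 12), .ofNat 718502400, [.ofNat 14738006075243397882604681081567, .negSucc 1015990155736338164307768285439, .negSucc 85229689922618741220192811509, .ofNat 853106631165190588460407502476,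 .ofNat 4319692958740168521616748287020, .ofNat 18405851758073602487201233219660, .ofNat 33699707422641802176963798428500, .negSucc 2615496556902881212713197651, .ofNat 57865089485107449674027813772, .ofNat 302046837129426221956723896540, .ofNat 874573680362217426288591436260, .ofNat 2191685887916769524118276014820, .ofNat 1344544411155283538161866288, .negSucc 628696904721386743518072479, .ofNat 5250379038657523994987373600, .negSucc 6665694756247351746895498739, .ofNat 650550851861931503565068880, .ofNat 2630054586443531350554728820, .ofNat 210265004771533276373025, .negSucc 4172124746392393458729599, .ofNat 9143684397251231101652000, .negSucc 476380747449321373965599]), ((1, 3), .ofNat 71850240, [.ofNat 3897325310267309500760856505692143, .negSucc 268668918218522500505031802472319, .negSucc 22538179589953176370302053007541, .ofNat 225595921797180152767937411554316, .ofNat 1142301652932620714609366035315500, .ofNat 4867252160674905135753170685299660,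 .ofNat 8911566599737336464235238839842260, .negSucc 691643148882760707040952211539, .ofNat 15301871683308257606227505967372, .ofNat 79873408737976757231419164734940, .ofNat 231272678459186380599344611285860, .ofNat 579570454749771249419024702524260, .ofNat 355551961209746059511414644464, .negSucc 166252907397916790715181842719, .ofNat 1388412720919507164113694477600, .negSucc 1762679479938391575696621266099, .ofNat 172031975535441790023695683920, .ofNat 695492881112936758112155123380, .ofNat 55602577497651064673356305, .negSucc 1103278644932918384354941439, .ofNat 2417960234821994719488661120, .negSucc 125974350592580912795533439]), ((1, 5), .ofNat 239500800, [.ofNat 25379649108241973347077699750741959, .negSucc 1749590380026392540323171386206079, .negSucc 146770167741609313315218775523749, .ofNat 1469096079913874544310246546346732, .ofNat 7438746529785134060776094978809740, .ofNat 31695879128650172771156402393872940, .ofNat 58032731501838614939992760244305780,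 .negSucc 4504027513566748893406065712883, .ofNat 99646835484480246763649418180204, .ofNat 520141103312209724108773712046780, .ofNat 1506063507748301662432346061700740, .ofNat 3774202460416255752811418670098820, .ofNat 2315378701253884693961001167856, .negSucc 1082650309397644698356927931359, .ofNat 9041438645505247638757273765920, .negSucc 11478689390716132539512113593299, .ofNat 1120283996561661835113436892880, .ofNat 4529097233280717708487713726420, .ofNat 362087789460773945775341625, .negSucc 7184626031408611363717708799, .ofNat 15745922506339496727048083200, .negSucc 820353591283625631198892799]), ((1, 7), .ofNat 1871100, [.negSucc 227508649672987657075429195293769, .ofNat 15683705599829951878690973663260, .ofNat 1315679445872544878840625955523, .negSucc 13169294183525342401641307553377, .negSucc 66682528628870723253390019314299, .negSucc 284128698155076236936039570649319, .negSucc 520217924389298748840943988658619, .ofNat 40375074270384016057841753028,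 .negSucc 893255729760986405412907317635, .negSucc 4662657058388932051922841547499, .negSucc 13500678181492551250890470780099, .negSucc 33832765051228436697110499040259, .negSucc 20755554166932925635931880627, .ofNat 9705110929965977293338228495, .negSucc 81049406497588588613796695519, .ofNat 102897447957599961946878985140, .negSucc 10042467420293524964053787219, .negSucc 40599804646106708839848827819, .negSucc 3245833056712579309925549, .ofNat 64404537660859499250077700, .negSucc 141149846161957024931068074, .ofNat 7353826564399333716806325]), ((1, 9), .ofNat 102643200, [.ofNat 1808392926697655708190746377086217, .negSucc 124664720712411598055074794558079, .negSucc 10457911851427484575681286259321, .ofNat 104678474797854769470315505302868, .ofNat 530037927261634608034328152458420, .ofNat 2258447442565341210366432641361940, .ofNat 4135044606695852473702439567503180, .negSucc 320928451865028129398015577803, .ofNat 7100201885747087413899669777876,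 .ofNat 37061958110723090074476243268740, .ofNat 107312539387513503033235220275260, .ofNat 268925744569304033052374063308860, .ofNat 164979210237157113592050954000, .negSucc 77142798675097532033910550559, .ofNat 644235608773359679363435392480, .negSucc 817898648377663285899143640299, .ofNat 79824336681502032864709926960, .ofNat 322714761187575511182565349100, .ofNat 25800080785664211292656375, .negSucc 511930911288598589866636799, .ofNat 1121954632365135756699699200, .negSucc 58453197108487939030780799]), ((1, 11), .ofNat 17107200, [.ofNat 15994864445336501647897, .negSucc 1102633879768615329919, .negSucc 92498084888178162393, .ofNat 925859634827137072660, .ofNat 4688076729496304264820, .ofNat 19975504309627583748820, .ofNat 36573621242976448459660, .negSucc 2838546318363849995, .ofNat 62799829074998316180, .ofNat 327805416238991625540, .ofNat 949157395745102414460, .ofNat 2378593040674099448700, .ofNat 1459207269108718992, .negSucc 682312228457617439,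 .ofNat 5698131794846638560, .negSucc 7234145753212815659, .ofNat 706029882007425840, .ofNat 2854345857860763180, .ofNat 228196421670375, .negSucc 4527923887871999, .ofNat 9923458554651200, .negSucc 517006536767999]), ((2, 4), .ofNat 239500800, [.negSucc 63717310916203235935669691876626306, .ofNat 4392463967673109336487909875578880, .ofNat 368476347774975773864681326014302, .negSucc 3688264218721965094889197838832667, .negSucc 18675471967468002543677609260671419, .negSucc 79574629916642463927219109218392539, .negSucc 145695063814667877244704600844000579, .ofNat 11307663089946695512088747414724, .negSucc 250170062292881985034642896770075, .negSucc 1305849117877610141938088855149739, .negSucc 3781073425147658638388638414599059, .negSucc 9475388355662722928280695876563859, .negSucc 5812913486996900214274467206639, .ofNat 2718066198756511893862058038560, .negSucc 22699137992351029968161169528479, .ofNat 28818019417820317899673614228900, .negSucc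 2812548093905097279400008422159, .negSucc 11370602302336289871608826248099, .negSucc 909045675203623698420784124, .ofNat 18037485416267846345696140800, .negSucc 39531194293504269991299683199, .ofNat 2059552699649732696906044800]), ((2, 6), .ofNat 4989600, [.negSucc 311210661962306250739075672485696, .ofNat 21453849815207828089421654461040, .ofNat 1799727051559261276366204776610, .negSucc 18014368975958462391782539557915, .negSucc 91215494029523220306135163493819, .negSucc 388661619513924966164314412868459, .negSucc 711609711747468961843720290169299, .ofNat 55229344504150352305865608932, .negSucc 1221890716507319038203264464651, .negSucc 6378080972877955952914536328139, .negSucc 18467671448279080172544324349859, .negSucc 46280074286151921951658472779619, .negSucc 28391666694739409194313134607, .ofNat 13275688644249963509020489080, .negSucc 110868046045817640572483495999, .ofNat 140754133696213223197726786140, .negSucc 13737160930349958432081630479,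 .negSucc 55536754745880607230499532219, .negSucc 4439997580973698120420574, .ofNat 88099414363462504205095200, .negSucc 193079854867407607316944999, .ofNat 10059350430641827184692200]), ((2, 8), .ofNat 11404800, [.ofNat 1155395151777130391962503059286673, .negSucc 79649180099260498894013570885119, .negSucc 6681634545495025212440754796137, .ofNat 66879824893877536876578273562612, .ofNat 338645015900617545454312892724180, .ofNat 1442938195101510982689117411441460, .ofNat 2641909521114448142882209706274220, .negSucc 205043479145496230016613754795, .ofNat 4536369676258178022629302480884, .ofNat 23679149638509844236617990471460, .ofNat 68562747565952519623885428298140, .ofNat 171818578184130001775972542291740, .ofNat 105406395279437116112767459920, .negSucc 49287084829783010478294035039, .ofNat 411606729925777268836414276320, .negSucc 522561285785549578360491866699, .ofNat 51000338606750400921057509040, .ofNat 206184764924917217757695393100,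 .ofNat 16483855812049704310289775, .negSucc 327076314121518734863411199, .ofNat 716824824744129543891737600, .negSucc 37346164955616054272371199]), ((2, 10), .ofNat 119750400, [.negSucc 862167389420167627127547596756182, .ofNat 59435012835229942337114231781760, .ofNat 4985902359282411318911101504550, .negSucc 49906392583474293076003224047083, .negSucc 252700289463829946800081985376779, .negSucc 1076734877112665703352220971082539, .negSucc 1971419242499035874395281684106099, .ofNat 153005489819297200389255630708, .negSucc 3385084310946422191555743363947, .negSucc 17669617702759375213198398009659, .negSucc 51162206271585374415961970116739, .negSucc 128212737243224170681495340859779, .negSucc 78655303777657235228091441071, .ofNat 36778514428128029878034989920, .negSucc 307145048394951782900722778399, .ofNat 389940444950628720923379514260, .negSucc 38056961489317658381637792719, .negSucc 153857128654298611822992213779, .negSucc 12300417663337001910170024,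 .ofNat 244067608777465051583558400, .negSucc 534901835852976393752641599, .ofNat 27868080885672084050750400]), ((3, 5), .ofNat 21772800, [.ofNat 8910025213021482199569690829044851, .negSucc 614228129475302411382144708017919, .negSucc 51526555371975205946640867740989, .ofNat 515755086154158246411551512413788, .ofNat 2611518340974128599354398990225660, .ofNat 11127462045700315125615347797917980, .ofNat 20373532299702676956719088169885700, .negSucc 1581227484070682200142076739715, .ofNat 34982982340610607339652560396636, .ofNat 182605769097712558429814501162220, .ofNat 528733229100915230741775291069780, .ofNat 1325008038445884993167156428267860, .ofNat 812859252619276066733034807024, .negSucc 380085694348148676837440987039, .ofNat 3174174944257881417472473098400, .negSucc 4029819775975912502379555466019, .ofNat 393297740742496275402364711440, .ofNat 1590028702471385164783517025060, .ofNat 127118043266209163194790925, .negSucc 2522304339707850160442918399,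 .ofNat 5527915927261830799209385600, .negSucc 288001270260120563066390399]), ((3, 7), .ofNat 10886400, [.ofNat 150385698191129329412204512150867, .negSucc 10367100416818094279998891585279, .negSucc 869678459907596487505979611581, .ofNat 8705047053465856863515237534428, .ofNat 44077878530845767745920466493820, .ofNat 187812167623537288117539695459740, .ofNat 343869720484361636658906624456580, .negSucc 26688364343060478824950837763, .ofNat 590451777444144218232477906396, .ofNat 3082067157268485488800157144940, .ofNat 8924095489537619530609645493460, .ofNat 22363826611773553417077968040660, .ofNat 13719647623176111342584162160, .negSucc 6415184149363720255921356959, .ofNat 53574541458692011280565374880, .negSucc 68016335095088674671690612899, .ofNat 6638180468009801508127391760, .ofNat 26836913571876127837944008100, .ofNat 2145531043093015819802925, .negSucc 42572101661747111046700799, .ofNat 93301587412817817584532800, .negSucc 4860959545288767971332799]),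 ((3, 9), .ofNat 65318400, [.negSucc 2394872307500382255665681654661532, .ofNat 165094699801565471181854534897920, .ofNat 13849514183291790937417482066338, .negSucc 138626720323747461401923927096291, .negSucc 701934372327931854747743939379779, .negSucc 2990883871693594825919445988173859, .negSucc 5476079712907640813446922058642619, .ofNat 425008664164623894872429354556, .negSucc 9402866281328137286799853199843, .negSucc 49081510898847609249304570488659, .negSucc 142115037629578049621712850232939, .negSucc 356140974085232491228809933983339, .negSucc 218483569625412720515701257359, .ofNat 102160957136366879761312470240, .negSucc 853167470508979554984758471519, .ofNat 1083151119662139006777324534300, .negSucc 105712143948834214067593766639, .negSucc 427374290940775141438101059099, .negSucc 34167297434464148505019874, .ofNat 677955075303983114377555200, .negSucc 1485815410829829867974804799, .ofNat 77410136355495541762651200]), ((4, 6), .ofNat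 7257600, [.negSucc 2395079057806781952060854393080146, .ofNat 165108952494563773809998321338880, .ofNat 13850709817519100178505118983102, .negSucc 138638688025245515169192793988187, .negSucc 701994970609559133248294898298619, .negSucc 2991142075922246988523557378842139, .negSucc 5476552465110322766040933109349379, .ofNat 425045355336534549081786527364, .negSucc 9403678034622294769110487911515, .negSucc 49085748125769944924409153532139, .negSucc 142127306478936697506445914763859, .negSucc 356171719881274728189864586181459, .negSucc 218502431401392125743551922799, .ofNat 102169776733605479811838121760, .negSucc 853241124805864424411480491679, .ofNat 1083244628541575279482767809700, .negSucc 105721270121483645313507129359, .negSucc 427411186338213505340704692899, .negSucc 34170247111234513806190124, .ofNat 678013603443084871222444800, .negSucc 1485943681882311612531771199, .ofNat 77416819204246941601828800]), ((4, 8), .ofNat 3110400, [.ofNat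 11927868457000003826044095421, .negSucc 822268417407329036822695039, .negSucc 68978702060353568575383585, .ofNat 690442358646182131692792484, .ofNat 3496044792180678022950899460, .ofNat 14896355550981033728000978020, .ofNat 27274088172067712607745276540, .negSucc 2116792374843607848643451, .ofNat 46831787970985551614084388, .ofNat 244454705930985366053017620, .ofNat 707816224396733120560539180, .ofNat 1773790893874546328566510380, .ofNat 1088176296642616954515600, .negSucc 508821474258750408821279, .ofNat 4249274305002131679827040, .negSucc 5394727741399716585620699, .ofNat 526508467019359941124080, .ofNat 2128574583404756600017500, .ofNat 170173177105567687875, .negSucc 3376613831416209014399, .ofNat 7400232035861397293600, .negSucc 385547872759239866399]), ((5, 7), .ofNat 1451520, [.ofNat 172443020319553932547524419770987, .negSucc 11887660391483092472615626469119, .negSucc 997235655632113693653007372653, .ofNat 9981830878729340347384386762940,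 .ofNat 50542854769854809122000119501660, .ofNat 215358892682758363422141090802300, .ofNat 394305668092192695987322911370660, .negSucc 30602791422738522565730488355, .ofNat 677054328172299722612393339580, .ofNat 3534119107201307493835465921740, .ofNat 10233007515649177352245120870260, .ofNat 25643966502291552531292678522740, .ofNat 15731931309409785107337912432, .negSucc 7356109948809360586360768799, .ofNat 61432409148577918080131475360, .negSucc 77992404835979346586240358339, .ofNat 7611813510850210125945701520, .ofNat 30773128615644689719052421060, .ofNat 2460219673217213346883605, .negSucc 48816223086403873497196799, .ofNat 106986287443550403149293760, .negSucc 5573924619982281725601599])]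

theorem NIT_2_0_13 (l : ℕ) (hlp : l.Prime) (hl2 : l ≠ 2) (hls : ¬ l ∣ 8) (hE : ¬ l ∣ 1)
    (hj : 13 < l) : NUMA_stmt 2 0 l 13 :=
  @NI_fin 2 0 1 2 8 13 (by norm_num) NIC_2_0_13 (by decide +kernel) (by decide +kernel)
    (by decide +kernel) (by decide +kernel) l hlp hl2 hls hE hj

end Pool.Agent.OE
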