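import Pool.Agent.helper21.OE.NID

/-!
# Project OE: certificates over the integers
-/

namespace Pool.Agent.OE

set_option maxRecDepth 100000

/-- certificate, `d = 2`, `t = 1`, `j = 12` -/
def NIC_2_1_12 : NI_Cert where
  tab0 := [[[(.ofNat 1, .ofNat 0), (.ofNat 0, .ofNat 0), (.ofNat 0, .ofNat 0), (.ofNat 0, .ofNat 0), (.ofNat 0, .ofNat 0), (.ofNat 0, .ofNat 0), (.ofNat 0, .ofNat 0), (.ofNat 0, .ofNat 0), (.ofNat 0, .ofNat 0), (.ofNat 0, .ofNat 0), (.ofNat 0, .ofNat 0), (.ofNat 0, .ofNat 0), (.ofNat 0, .ofNat 0)], [(.ofNat 0, .ofNat 0), (.ofNat 1, .ofNat 0), (.ofNat 0, .ofNat 0), (.ofNat 0, .ofNat 0), (.ofNat 0, .ofNat 0), (.ofNat 0, .ofNat 0), (.ofNat 0, .ofNat 0), (.ofNat 0, .ofNat 0), (.ofNat 0, .ofNat 0), (.ofNat 0, .ofNat 0), (.ofNat 0, .ofNat 0), (.ofNat 0, .ofNat 0), (.ofNat 0, .ofNat 0)], [(.ofNat 0, .ofNat 0), (.ofNat 0, .ofNat 0), (.ofNat 1, .ofNat 0), (.ofNat 0, .ofNat 0), (.ofNat 0, .ofNat 0), (.ofNat 0, .ofNat 0), (.ofNat 0, .ofNat 0), (.ofNat 0, .ofNat 0), (.ofNat 0,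 .ofNat 0), (.ofNat 0, .ofNat 0), (.ofNat 0, .ofNat 0), (.ofNat 0, .ofNat 0), (.ofNat 0, .ofNat 0)], [(.ofNat 0, .ofNat 0), (.ofNat 0, .ofNat 0), (.ofNat 0, .ofNat 0), (.ofNat 1, .ofNat 0), (.ofNat 0, .ofNat 0), (.ofNat 0, .ofNat 0), (.ofNat 0, .ofNat 0), (.ofNat 0, .ofNat 0), (.ofNat 0, .ofNat 0), (.ofNat 0, .ofNat 0), (.ofNat 0, .ofNat 0), (.ofNat 0, .ofNat 0), (.ofNat 0, .ofNat 0)], [(.ofNat 0, .ofNat 0), (.ofNat 0, .ofNat 0), (.ofNat 0, .ofNat 0), (.ofNat 0, .ofNat 0), (.ofNat 1, .ofNat 0), (.ofNat 0, .ofNat 0), (.ofNat 0, .ofNat 0), (.ofNat 0, .ofNat 0), (.ofNat 0, .ofNat 0), (.ofNat 0, .ofNat 0), (.ofNat 0, .ofNat 0), (.ofNat 0, .ofNat 0), (.ofNat 0, .ofNat 0)], [(.ofNat 0, .ofNat 0), (.ofNat 0, .ofNat 0), (.ofNat 0, .ofNat 0), (.ofNat 0, .ofNat 0), (.ofNat 0, .ofNat 0), (.ofNat 1, .ofNat 0), (.ofNat 0, .ofNat 0), (.ofNat 0, .ofNat 0), (.ofNat 0, .ofNat 0), (.ofNat 0, .ofNat 0), (.ofNat 0, .ofNat 0), (.ofNat 0, .ofNat 0), (.ofNat 0, .ofNat 0)], [(.ofNat 0, .ofNat 0), (.ofNat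 0, .ofNat 0), (.ofNat 0, .ofNat 0), (.ofNat 0, .ofNat 0), (.ofNat 0, .ofNat 0), (.ofNat 0, .ofNat 0), (.ofNat 1, .ofNat 0), (.ofNat 0, .ofNat 0), (.ofNat 0, .ofNat 0), (.ofNat 0, .ofNat 0), (.ofNat 0, .ofNat 0), (.ofNat 0, .ofNat 0), (.ofNat 0, .ofNat 0)], [(.ofNat 0, .ofNat 0), (.ofNat 0, .ofNat 0), (.ofNat 0, .ofNat 0), (.ofNat 0, .ofNat 0), (.ofNat 0, .ofNat 0), (.ofNat 0, .ofNat 0), (.ofNat 0, .ofNat 0), (.ofNat 1, .ofNat 0), (.ofNat 0, .ofNat 0), (.ofNat 0, .ofNat 0), (.ofNat 0, .ofNat 0), (.ofNat 0, .ofNat 0), (.ofNat 0, .ofNat 0)], [(.ofNat 0, .ofNat 0), (.ofNat 0, .ofNat 0), (.ofNat 0, .ofNat 0), (.ofNat 0, .ofNat 0), (.ofNat 0, .ofNat 0), (.ofNat 0, .ofNat 0), (.ofNat 0, .ofNat 0), (.ofNat 0, .ofNat 0), (.ofNat 1, .ofNat 0), (.ofNat 0, .ofNat 0), (.ofNat 0, .ofNat 0), (.ofNat 0, .ofNat 0), (.ofNat 0, .ofNat 0)], [(.ofNat 0, .ofNat 0), (.ofNat 0, .ofNat 0), (.ofNat 0, .ofNat 0), (.ofNat 0, .ofNat 0), (.ofNat 0, .ofNat 0), (.ofNat 0, .ofNat 0), (.ofNat 0, .ofNat 0), (.ofNat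 0, .ofNat 0), (.ofNat 0, .ofNat 0), (.ofNat 1, .ofNat 0), (.ofNat 0, .ofNat 0), (.ofNat 0, .ofNat 0), (.ofNat 0, .ofNat 0)], [(.ofNat 0, .ofNat 0), (.ofNat 0, .ofNat 0), (.ofNat 0, .ofNat 0), (.ofNat 0, .ofNat 0), (.ofNat 0, .ofNat 0), (.ofNat 0, .ofNat 0), (.ofNat 0, .ofNat 0), (.ofNat 0, .ofNat 0), (.ofNat 0, .ofNat 0), (.ofNat 0, .ofNat 0), (.ofNat 1, .ofNat 0), (.ofNat 0, .ofNat 0), (.ofNat 0, .ofNat 0)], [(.ofNat 0, .ofNat 0), (.ofNat 0, .ofNat 0), (.ofNat 0, .ofNat 0), (.ofNat 0, .ofNat 0), (.ofNat 0, .ofNat 0), (.ofNat 0, .ofNat 0), (.ofNat 0, .ofNat 0), (.ofNat 0, .ofNat 0), (.ofNat 0, .ofNat 0), (.ofNat 0, .ofNat 0), (.ofNat 0, .ofNat 0), (.ofNat 1, .ofNat 0), (.ofNat 0, .ofNat 0)], [(.ofNat 0, .ofNat 0), (.ofNat 0, .ofNat 0), (.ofNat 0, .ofNat 0), (.ofNat 0, .ofNat 0), (.ofNat 0, .ofNat 0), (.ofNat 0, .ofNat 0), (.ofNat 0, .ofNat 0), (.ofNat 0, .ofNat 0), (.ofNat 0, .ofNat 0), (.ofNat 0, .ofNat 0), (.ofNat 0, .ofNat 0), (.ofNat 0, .ofNat 0), (.ofNat 1, .ofNat 0)]], [[(.ofNat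 1, .ofNat 0), (.negSucc 11, .ofNat 0), (.ofNat 66, .ofNat 0), (.negSucc 219, .ofNat 0), (.ofNat 495, .ofNat 0), (.negSucc 791, .ofNat 0), (.ofNat 924, .ofNat 0), (.negSucc 791, .ofNat 0), (.ofNat 495, .ofNat 0), (.negSucc 219, .ofNat 0), (.ofNat 66, .ofNat 0), (.negSucc 11, .ofNat 0), (.ofNat 1, .ofNat 0)], [(.ofNat 1, .ofNat 0), (.negSucc 10, .ofNat 0), (.ofNat 55, .ofNat 0), (.negSucc 164, .ofNat 0), (.ofNat 330, .ofNat 0), (.negSucc 461, .ofNat 0), (.ofNat 462, .ofNat 0), (.negSucc 329, .ofNat 0), (.ofNat 165, .ofNat 0), (.negSucc 54, .ofNat 0), (.ofNat 11, .ofNat 0), (.negSucc 0, .ofNat 0), (.ofNat 0, .ofNat 0)], [(.ofNat 1, .ofNat 0), (.negSucc 9, .ofNat 0), (.ofNat 45, .ofNat 0), (.negSucc 119, .ofNat 0), (.ofNat 210, .ofNat 0), (.negSucc 251, .ofNat 0), (.ofNat 210, .ofNat 0), (.negSucc 119, .ofNat 0), (.ofNat 45, .ofNat 0), (.negSucc 9, .ofNat 0), (.ofNat 1, .ofNat 0), (.ofNat 0, .ofNat 0), (.ofNat 0, .ofNat 0)], [(.ofNat 1, .ofNat 0), (.negSucc 8, .ofNat 0), (.ofNat 36, .ofNat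 0), (.negSucc 83, .ofNat 0), (.ofNat 126, .ofNat 0), (.negSucc 125, .ofNat 0), (.ofNat 84, .ofNat 0), (.negSucc 35, .ofNat 0), (.ofNat 9, .ofNat 0), (.negSucc 0, .ofNat 0), (.ofNat 0, .ofNat 0), (.ofNat 0, .ofNat 0), (.ofNat 0, .ofNat 0)], [(.ofNat 1, .ofNat 0), (.negSucc 7, .ofNat 0), (.ofNat 28, .ofNat 0), (.negSucc 55, .ofNat 0), (.ofNat 70, .ofNat 0), (.negSucc 55, .ofNat 0), (.ofNat 28, .ofNat 0), (.negSucc 7, .ofNat 0), (.ofNat 1, .ofNat 0), (.ofNat 0, .ofNat 0), (.ofNat 0, .ofNat 0), (.ofNat 0, .ofNat 0), (.ofNat 0, .ofNat 0)], [(.ofNat 1, .ofNat 0), (.negSucc 6, .ofNat 0), (.ofNat 21, .ofNat 0), (.negSucc 34, .ofNat 0), (.ofNat 35, .ofNat 0), (.negSucc 20, .ofNat 0), (.ofNat 7, .ofNat 0), (.negSucc 0, .ofNat 0), (.ofNat 0, .ofNat 0), (.ofNat 0, .ofNat 0), (.ofNat 0, .ofNat 0), (.ofNat 0, .ofNat 0), (.ofNat 0, .ofNat 0)], [(.ofNat 1, .ofNat 0), (.negSucc 5, .ofNat 0), (.ofNat 15, .ofNat 0), (.negSucc 19, .ofNat 0), (.ofNat 15, .ofNat 0), (.negSucc 5, .ofNat 0), (.ofNat 1, .ofNat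 0), (.ofNat 0, .ofNat 0), (.ofNat 0, .ofNat 0), (.ofNat 0, .ofNat 0), (.ofNat 0, .ofNat 0), (.ofNat 0, .ofNat 0), (.ofNat 0, .ofNat 0)], [(.ofNat 1, .ofNat 0), (.negSucc 4, .ofNat 0), (.ofNat 10, .ofNat 0), (.negSucc 9, .ofNat 0), (.ofNat 5, .ofNat 0), (.negSucc 0, .ofNat 0), (.ofNat 0, .ofNat 0), (.ofNat 0, .ofNat 0), (.ofNat 0, .ofNat 0), (.ofNat 0, .ofNat 0), (.ofNat 0, .ofNat 0), (.ofNat 0, .ofNat 0), (.ofNat 0, .ofNat 0)], [(.ofNat 1, .ofNat 0), (.negSucc 3, .ofNat 0), (.ofNat 6, .ofNat 0), (.negSucc 3, .ofNat 0), (.ofNat 1, .ofNat 0), (.ofNat 0, .ofNat 0), (.ofNat 0, .ofNat 0), (.ofNat 0, .ofNat 0), (.ofNat 0, .ofNat 0), (.ofNat 0, .ofNat 0), (.ofNat 0, .ofNat 0), (.ofNat 0, .ofNat 0), (.ofNat 0, .ofNat 0)], [(.ofNat 1, .ofNat 0), (.negSucc 2, .ofNat 0), (.ofNat 3, .ofNat 0), (.negSucc 0, .ofNat 0), (.ofNat 0, .ofNat 0), (.ofNat 0, .ofNat 0), (.ofNat 0, .ofNat 0), (.ofNat 0, .ofNat 0), (.ofNat 0, .ofNat 0), (.ofNat 0, .ofNat 0), (.ofNat 0, .ofNat 0), (.ofNat 0, .ofNat 0), (.ofNat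 0, .ofNat 0)], [(.ofNat 1, .ofNat 0), (.negSucc 1, .ofNat 0), (.ofNat 1, .ofNat 0), (.ofNat 0, .ofNat 0), (.ofNat 0, .ofNat 0), (.ofNat 0, .ofNat 0), (.ofNat 0, .ofNat 0), (.ofNat 0, .ofNat 0), (.ofNat 0, .ofNat 0), (.ofNat 0, .ofNat 0), (.ofNat 0, .ofNat 0), (.ofNat 0, .ofNat 0), (.ofNat 0, .ofNat 0)], [(.ofNat 1, .ofNat 0), (.negSucc 0, .ofNat 0), (.ofNat 0, .ofNat 0), (.ofNat 0, .ofNat 0), (.ofNat 0, .ofNat 0), (.ofNat 0, .ofNat 0), (.ofNat 0, .ofNat 0), (.ofNat 0, .ofNat 0), (.ofNat 0, .ofNat 0), (.ofNat 0, .ofNat 0), (.ofNat 0, .ofNat 0), (.ofNat 0, .ofNat 0), (.ofNat 0, .ofNat 0)], [(.ofNat 1, .ofNat 0), (.ofNat 0, .ofNat 0), (.ofNat 0, .ofNat 0), (.ofNat 0, .ofNat 0), (.ofNat 0, .ofNat 0), (.ofNat 0, .ofNat 0), (.ofNat 0, .ofNat 0), (.ofNat 0, .ofNat 0), (.ofNat 0, .ofNat 0), (.ofNat 0, .ofNat 0), (.ofNat 0, .ofNat 0), (.ofNat 0, .ofNat 0), (.ofNat 0, .ofNat 0)]], [[(.ofNat 0, .ofNat 0), (.ofNat 0, .ofNat 0), (.ofNat 0, .ofNat 0), (.ofNat 0, .ofNat 0), (.ofNat 0, .ofNat 0),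 (.ofNat 0, .ofNat 0), (.ofNat 0, .ofNat 0), (.ofNat 0, .ofNat 0), (.ofNat 0, .ofNat 0), (.ofNat 0, .ofNat 0), (.ofNat 0, .ofNat 0), (.ofNat 0, .ofNat 0), (.ofNat 1, .ofNat 0)], [(.ofNat 0, .ofNat 0), (.ofNat 0, .ofNat 0), (.ofNat 0, .ofNat 0), (.ofNat 0, .ofNat 0), (.ofNat 0, .ofNat 0), (.ofNat 0, .ofNat 0), (.ofNat 0, .ofNat 0), (.ofNat 0, .ofNat 0), (.ofNat 0, .ofNat 0), (.ofNat 0, .ofNat 0), (.ofNat 0, .ofNat 0), (.negSucc 0, .ofNat 0), (.ofNat 1, .ofNat 0)], [(.ofNat 0, .ofNat 0), (.ofNat 0, .ofNat 0), (.ofNat 0, .ofNat 0), (.ofNat 0, .ofNat 0), (.ofNat 0, .ofNat 0), (.ofNat 0, .ofNat 0), (.ofNat 0, .ofNat 0), (.ofNat 0, .ofNat 0), (.ofNat 0, .ofNat 0), (.ofNat 0, .ofNat 0), (.ofNat 1, .ofNat 0), (.negSucc 1, .ofNat 0), (.ofNat 1, .ofNat 0)], [(.ofNat 0, .ofNat 0), (.ofNat 0, .ofNat 0), (.ofNat 0, .ofNat 0), (.ofNat 0, .ofNat 0), (.ofNat 0, .ofNat 0), (.ofNat 0, .ofNat 0), (.ofNat 0, .ofNat 0), (.ofNat 0, .ofNat 0), (.ofNat 0, .ofNat 0), (.negSucc 0, .ofNat 0), (.ofNat 3, .ofNat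 0), (.negSucc 2, .ofNat 0), (.ofNat 1, .ofNat 0)], [(.ofNat 0, .ofNat 0), (.ofNat 0, .ofNat 0), (.ofNat 0, .ofNat 0), (.ofNat 0, .ofNat 0), (.ofNat 0, .ofNat 0), (.ofNat 0, .ofNat 0), (.ofNat 0, .ofNat 0), (.ofNat 0, .ofNat 0), (.ofNat 1, .ofNat 0), (.negSucc 3, .ofNat 0), (.ofNat 6, .ofNat 0), (.negSucc 3, .ofNat 0), (.ofNat 1, .ofNat 0)], [(.ofNat 0, .ofNat 0), (.ofNat 0, .ofNat 0), (.ofNat 0, .ofNat 0), (.ofNat 0, .ofNat 0), (.ofNat 0, .ofNat 0), (.ofNat 0, .ofNat 0), (.ofNat 0, .ofNat 0), (.negSucc 0, .ofNat 0), (.ofNat 5, .ofNat 0), (.negSucc 9, .ofNat 0), (.ofNat 10, .ofNat 0), (.negSucc 4, .ofNat 0), (.ofNat 1, .ofNat 0)], [(.ofNat 0, .ofNat 0), (.ofNat 0, .ofNat 0), (.ofNat 0, .ofNat 0), (.ofNat 0, .ofNat 0), (.ofNat 0, .ofNat 0), (.ofNat 0, .ofNat 0), (.ofNat 1, .ofNat 0), (.negSucc 5, .ofNat 0), (.ofNat 15, .ofNat 0), (.negSucc 19, .ofNat 0), (.ofNat 15, .ofNat 0), (.negSucc 5, .ofNat 0), (.ofNat 1, .ofNat 0)], [(.ofNat 0, .ofNat 0), (.ofNat 0, .ofNat 0), (.ofNat 0, .ofNat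 0), (.ofNat 0, .ofNat 0), (.ofNat 0, .ofNat 0), (.negSucc 0, .ofNat 0), (.ofNat 7, .ofNat 0), (.negSucc 20, .ofNat 0), (.ofNat 35, .ofNat 0), (.negSucc 34, .ofNat 0), (.ofNat 21, .ofNat 0), (.negSucc 6, .ofNat 0), (.ofNat 1, .ofNat 0)], [(.ofNat 0, .ofNat 0), (.ofNat 0, .ofNat 0), (.ofNat 0, .ofNat 0), (.ofNat 0, .ofNat 0), (.ofNat 1, .ofNat 0), (.negSucc 7, .ofNat 0), (.ofNat 28, .ofNat 0), (.negSucc 55, .ofNat 0), (.ofNat 70, .ofNat 0), (.negSucc 55, .ofNat 0), (.ofNat 28, .ofNat 0), (.negSucc 7, .ofNat 0), (.ofNat 1, .ofNat 0)], [(.ofNat 0, .ofNat 0), (.ofNat 0, .ofNat 0), (.ofNat 0, .ofNat 0), (.negSucc 0, .ofNat 0), (.ofNat 9, .ofNat 0), (.negSucc 35, .ofNat 0), (.ofNat 84, .ofNat 0), (.negSucc 125, .ofNat 0), (.ofNat 126, .ofNat 0), (.negSucc 83, .ofNat 0), (.ofNat 36, .ofNat 0), (.negSucc 8, .ofNat 0), (.ofNat 1, .ofNat 0)], [(.ofNat 0, .ofNat 0), (.ofNat 0, .ofNat 0), (.ofNat 1, .ofNat 0), (.negSucc 9, .ofNat 0), (.ofNat 45, .ofNat 0), (.negSucc 119, .ofNat 0), (.ofNat 210,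 .ofNat 0), (.negSucc 251, .ofNat 0), (.ofNat 210, .ofNat 0), (.negSucc 119, .ofNat 0), (.ofNat 45, .ofNat 0), (.negSucc 9, .ofNat 0), (.ofNat 1, .ofNat 0)], [(.ofNat 0, .ofNat 0), (.negSucc 0, .ofNat 0), (.ofNat 11, .ofNat 0), (.negSucc 54, .ofNat 0), (.ofNat 165, .ofNat 0), (.negSucc 329, .ofNat 0), (.ofNat 462, .ofNat 0), (.negSucc 461, .ofNat 0), (.ofNat 330, .ofNat 0), (.negSucc 164, .ofNat 0), (.ofNat 55, .ofNat 0), (.negSucc 10, .ofNat 0), (.ofNat 1, .ofNat 0)], [(.ofNat 1, .ofNat 0), (.negSucc 11, .ofNat 0), (.ofNat 66, .ofNat 0), (.negSucc 219, .ofNat 0), (.ofNat 495, .ofNat 0), (.negSucc 791, .ofNat 0), (.ofNat 924, .ofNat 0), (.negSucc 791, .ofNat 0), (.ofNat 495, .ofNat 0), (.negSucc 219, .ofNat 0), (.ofNat 66, .ofNat 0), (.negSucc 11, .ofNat 0), (.ofNat 1, .ofNat 0)]]]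
  tab1 := [[[(.ofNat 1, .ofNat 0), (.ofNat 0, .ofNat 0), (.ofNat 0, .ofNat 0), (.ofNat 0, .ofNat 0), (.ofNat 0, .ofNat 0), (.ofNat 0, .ofNat 0), (.ofNat 0, .ofNat 0), (.ofNat 0, .ofNat 0), (.ofNat 0, .ofNat 0), (.ofNat 0, .ofNat 0), (.ofNat 0, .ofNat 0), (.ofNat 0, .ofNat 0), (.ofNat 0, .ofNat 0)], [(.ofNat 0, .ofNat 0), (.ofNat 1, .ofNat 0), (.ofNat 0, .ofNat 0), (.ofNat 0, .ofNat 0), (.ofNat 0, .ofNat 0), (.ofNat 0, .ofNat 0), (.ofNat 0, .ofNat 0), (.ofNat 0, .ofNat 0), (.ofNat 0, .ofNat 0), (.ofNat 0, .ofNat 0), (.ofNat 0, .ofNat 0), (.ofNat 0, .ofNat 0), (.ofNat 0, .ofNat 0)], [(.ofNat 0, .ofNat 0), (.ofNat 0, .ofNat 0), (.ofNat 1, .ofNat 0), (.ofNat 0, .ofNat 0), (.ofNat 0, .ofNat 0), (.ofNat 0, .ofNat 0), (.ofNat 0, .ofNat 0), (.ofNat 0, .ofNat 0), (.ofNat 0, .ofNat 0), (.ofNat 0, .ofNat 0), (.ofNat 0, .ofNat 0), (.ofNat 0, .ofNat 0), (.ofNat 0, .ofNat 0)], [(.ofNat 0, .ofNat 0), (.ofNat 0, .ofNat 0), (.ofNat 0, .ofNat 0), (.ofNat 1, .ofNat 0), (.ofNat 0, .ofNat 0), (.ofNat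 0, .ofNat 0), (.ofNat 0, .ofNat 0), (.ofNat 0, .ofNat 0), (.ofNat 0, .ofNat 0), (.ofNat 0, .ofNat 0), (.ofNat 0, .ofNat 0), (.ofNat 0, .ofNat 0), (.ofNat 0, .ofNat 0)], [(.ofNat 0, .ofNat 0), (.ofNat 0, .ofNat 0), (.ofNat 0, .ofNat 0), (.ofNat 0, .ofNat 0), (.ofNat 1, .ofNat 0), (.ofNat 0, .ofNat 0), (.ofNat 0, .ofNat 0), (.ofNat 0, .ofNat 0), (.ofNat 0, .ofNat 0), (.ofNat 0, .ofNat 0), (.ofNat 0, .ofNat 0), (.ofNat 0, .ofNat 0), (.ofNat 0, .ofNat 0)], [(.ofNat 0, .ofNat 0), (.ofNat 0, .ofNat 0), (.ofNat 0, .ofNat 0), (.ofNat 0, .ofNat 0), (.ofNat 0, .ofNat 0), (.ofNat 1, .ofNat 0), (.ofNat 0, .ofNat 0), (.ofNat 0, .ofNat 0), (.ofNat 0, .ofNat 0), (.ofNat 0, .ofNat 0), (.ofNat 0, .ofNat 0), (.ofNat 0, .ofNat 0), (.ofNat 0, .ofNat 0)], [(.ofNat 0, .ofNat 0), (.ofNat 0, .ofNat 0), (.ofNat 0, .ofNat 0), (.ofNat 0, .ofNat 0), (.ofNat 0, .ofNat 0), (.ofNat 0, .ofNat 0), (.ofNat 1, .ofNat 0), (.ofNat 0, .ofNat 0), (.ofNat 0, .ofNat 0), (.ofNat 0, .ofNat 0), (.ofNat 0, .ofNat 0), (.ofNat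 0, .ofNat 0), (.ofNat 0, .ofNat 0)], [(.ofNat 0, .ofNat 0), (.ofNat 0, .ofNat 0), (.ofNat 0, .ofNat 0), (.ofNat 0, .ofNat 0), (.ofNat 0, .ofNat 0), (.ofNat 0, .ofNat 0), (.ofNat 0, .ofNat 0), (.ofNat 1, .ofNat 0), (.ofNat 0, .ofNat 0), (.ofNat 0, .ofNat 0), (.ofNat 0, .ofNat 0), (.ofNat 0, .ofNat 0), (.ofNat 0, .ofNat 0)], [(.ofNat 0, .ofNat 0), (.ofNat 0, .ofNat 0), (.ofNat 0, .ofNat 0), (.ofNat 0, .ofNat 0), (.ofNat 0, .ofNat 0), (.ofNat 0, .ofNat 0), (.ofNat 0, .ofNat 0), (.ofNat 0, .ofNat 0), (.ofNat 1, .ofNat 0), (.ofNat 0, .ofNat 0), (.ofNat 0, .ofNat 0), (.ofNat 0, .ofNat 0), (.ofNat 0, .ofNat 0)], [(.ofNat 0, .ofNat 0), (.ofNat 0, .ofNat 0), (.ofNat 0, .ofNat 0), (.ofNat 0, .ofNat 0), (.ofNat 0, .ofNat 0), (.ofNat 0, .ofNat 0), (.ofNat 0, .ofNat 0), (.ofNat 0, .ofNat 0), (.ofNat 0, .ofNat 0), (.ofNat 1, .ofNat 0), (.ofNat 0, .ofNat 0), (.ofNat 0, .ofNat 0), (.ofNat 0, .ofNat 0)], [(.ofNat 0, .ofNat 0), (.ofNat 0, .ofNat 0), (.ofNat 0, .ofNat 0), (.ofNat 0, .ofNat 0), (.ofNat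 0, .ofNat 0), (.ofNat 0, .ofNat 0), (.ofNat 0, .ofNat 0), (.ofNat 0, .ofNat 0), (.ofNat 0, .ofNat 0), (.ofNat 0, .ofNat 0), (.ofNat 1, .ofNat 0), (.ofNat 0, .ofNat 0), (.ofNat 0, .ofNat 0)], [(.ofNat 0, .ofNat 0), (.ofNat 0, .ofNat 0), (.ofNat 0, .ofNat 0), (.ofNat 0, .ofNat 0), (.ofNat 0, .ofNat 0), (.ofNat 0, .ofNat 0), (.ofNat 0, .ofNat 0), (.ofNat 0, .ofNat 0), (.ofNat 0, .ofNat 0), (.ofNat 0, .ofNat 0), (.ofNat 0, .ofNat 0), (.ofNat 1, .ofNat 0), (.ofNat 0, .ofNat 0)], [(.ofNat 0, .ofNat 0), (.ofNat 0, .ofNat 0), (.ofNat 0, .ofNat 0), (.ofNat 0, .ofNat 0), (.ofNat 0, .ofNat 0), (.ofNat 0, .ofNat 0), (.ofNat 0, .ofNat 0), (.ofNat 0, .ofNat 0), (.ofNat 0, .ofNat 0), (.ofNat 0, .ofNat 0), (.ofNat 0, .ofNat 0), (.ofNat 0, .ofNat 0), (.ofNat 1, .ofNat 0)]], [[(.negSucc 45, .ofNat 45), (.ofNat 264, .ofNat 276), (.ofNat 2244, .negSucc 725), (.ofNat 1320, .negSucc 3739), (.negSucc 6929, .negSucc 1484), (.negSucc 7919, .ofNat 5544), (.ofNat 1848, .ofNat 4620), (.ofNat 4752, .negSucc 791),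 (.ofNat 990, .negSucc 1484), (.negSucc 439, .negSucc 219), (.negSucc 131, .ofNat 66), (.ofNat 0, .ofNat 12), (.ofNat 1, .ofNat 0)], [(.ofNat 22, .ofNat 23), (.ofNat 374, .negSucc 120), (.ofNat 330, .negSucc 934), (.negSucc 2309, .negSucc 494), (.negSucc 3299, .ofNat 2310), (.ofNat 924, .ofNat 2310), (.ofNat 2772, .negSucc 461), (.ofNat 660, .negSucc 989), (.negSucc 329, .negSucc 164), (.negSucc 109, .ofNat 55), (.ofNat 0, .ofNat 11), (.ofNat 1, .ofNat 0), (.ofNat 0, .ofNat 0)], [(.ofNat 34, .negSucc 10), (.ofNat 60, .negSucc 169), (.negSucc 629, .negSucc 134), (.negSucc 1199, .ofNat 840), (.ofNat 420, .ofNat 1050), (.ofNat 1512, .negSucc 251), (.ofNat 420, .negSucc 629), (.negSucc 239, .negSucc 119), (.negSucc 89, .ofNat 45), (.ofNat 0, .ofNat 10), (.ofNat 1, .ofNat 0), (.ofNat 0, .ofNat 0), (.ofNat 0, .ofNat 0)], [(.ofNat 6, .negSucc 16), (.negSucc 125, .negSucc 26), (.negSucc 359, .ofNat 252), (.ofNat 168, .ofNat 420), (.ofNat 756, .negSucc 125), (.ofNat 252, .negSucc 377), (.negSucc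 167, .negSucc 83), (.negSucc 71, .ofNat 36), (.ofNat 0, .ofNat 9), (.ofNat 1, .ofNat 0), (.ofNat 0, .ofNat 0), (.ofNat 0, .ofNat 0), (.ofNat 0, .ofNat 0)], [(.negSucc 13, .negSucc 2), (.negSucc 79, .ofNat 56), (.ofNat 56, .ofNat 140), (.ofNat 336, .negSucc 55), (.ofNat 140, .negSucc 209), (.negSucc 111, .negSucc 55), (.negSucc 55, .ofNat 28), (.ofNat 0, .ofNat 8), (.ofNat 1, .ofNat 0), (.ofNat 0, .ofNat 0), (.ofNat 0, .ofNat 0), (.ofNat 0, .ofNat 0), (.ofNat 0, .ofNat 0)], [(.negSucc 9, .ofNat 7), (.ofNat 14, .ofNat 35), (.ofNat 126, .negSucc 20), (.ofNat 70, .negSucc 104), (.negSucc 69, .negSucc 34), (.negSucc 41, .ofNat 21), (.ofNat 0, .ofNat 7), (.ofNat 1, .ofNat 0), (.ofNat 0, .ofNat 0), (.ofNat 0, .ofNat 0), (.ofNat 0, .ofNat 0), (.ofNat 0, .ofNat 0), (.ofNat 0, .ofNat 0)], [(.ofNat 2, .ofNat 5), (.ofNat 36, .negSucc 5), (.ofNat 30, .negSucc 44), (.negSucc 39, .negSucc 19), (.negSucc 29, .ofNat 15), (.ofNat 0, .ofNat 6), (.ofNat 1, .ofNat 0), (.ofNat 0, .ofNat 0), (.ofNat 0,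 .ofNat 0), (.ofNat 0, .ofNat 0), (.ofNat 0, .ofNat 0), (.ofNat 0, .ofNat 0), (.ofNat 0, .ofNat 0)], [(.ofNat 6, .negSucc 0), (.ofNat 10, .negSucc 14), (.negSucc 19, .negSucc 9), (.negSucc 19, .ofNat 10), (.ofNat 0, .ofNat 5), (.ofNat 1, .ofNat 0), (.ofNat 0, .ofNat 0), (.ofNat 0, .ofNat 0), (.ofNat 0, .ofNat 0), (.ofNat 0, .ofNat 0), (.ofNat 0, .ofNat 0), (.ofNat 0, .ofNat 0), (.ofNat 0, .ofNat 0)], [(.ofNat 2, .negSucc 2), (.negSucc 7, .negSucc 3), (.negSucc 11, .ofNat 6), (.ofNat 0, .ofNat 4), (.ofNat 1, .ofNat 0), (.ofNat 0, .ofNat 0), (.ofNat 0, .ofNat 0), (.ofNat 0, .ofNat 0), (.ofNat 0, .ofNat 0), (.ofNat 0, .ofNat 0), (.ofNat 0, .ofNat 0), (.ofNat 0, .ofNat 0), (.ofNat 0, .ofNat 0)], [(.negSucc 1, .negSucc 0), (.negSucc 5, .ofNat 3), (.ofNat 0, .ofNat 3), (.ofNat 1, .ofNat 0), (.ofNat 0, .ofNat 0), (.ofNat 0, .ofNat 0), (.ofNat 0, .ofNat 0), (.ofNat 0, .ofNat 0), (.ofNat 0, .ofNat 0), (.ofNat 0, .ofNat 0), (.ofNat 0, .ofNat 0), (.ofNat 0, .ofNat 0), (.ofNat 0, .ofNat 0)], [(.negSucc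 1, .ofNat 1), (.ofNat 0, .ofNat 2), (.ofNat 1, .ofNat 0), (.ofNat 0, .ofNat 0), (.ofNat 0, .ofNat 0), (.ofNat 0, .ofNat 0), (.ofNat 0, .ofNat 0), (.ofNat 0, .ofNat 0), (.ofNat 0, .ofNat 0), (.ofNat 0, .ofNat 0), (.ofNat 0, .ofNat 0), (.ofNat 0, .ofNat 0), (.ofNat 0, .ofNat 0)], [(.ofNat 0, .ofNat 1), (.ofNat 1, .ofNat 0), (.ofNat 0, .ofNat 0), (.ofNat 0, .ofNat 0), (.ofNat 0, .ofNat 0), (.ofNat 0, .ofNat 0), (.ofNat 0, .ofNat 0), (.ofNat 0, .ofNat 0), (.ofNat 0, .ofNat 0), (.ofNat 0, .ofNat 0), (.ofNat 0, .ofNat 0), (.ofNat 0, .ofNat 0), (.ofNat 0, .ofNat 0)], [(.ofNat 1, .ofNat 0), (.ofNat 0, .ofNat 0), (.ofNat 0, .ofNat 0), (.ofNat 0, .ofNat 0), (.ofNat 0, .ofNat 0), (.ofNat 0, .ofNat 0), (.ofNat 0, .ofNat 0), (.ofNat 0, .ofNat 0), (.ofNat 0, .ofNat 0), (.ofNat 0, .ofNat 0), (.ofNat 0, .ofNat 0), (.ofNat 0, .ofNat 0), (.ofNat 0, .ofNat 0)]], [[(.ofNat 1, .ofNat 0), (.ofNat 12, .negSucc 11), (.negSucc 65, .negSucc 65), (.negSucc 659, .ofNat 220), (.negSucc 494, .ofNat 1485), (.ofNat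 3960, .ofNat 792), (.ofNat 6468, .negSucc 4619), (.negSucc 2375, .negSucc 5543), (.negSucc 8414, .ofNat 1485), (.negSucc 2419, .ofNat 3740), (.ofNat 1518, .ofNat 726), (.ofNat 540, .negSucc 275), (.negSucc 0, .negSucc 44)], [(.ofNat 0, .ofNat 1), (.ofNat 23, .ofNat 0), (.ofNat 121, .negSucc 120), (.negSucc 384, .negSucc 384), (.negSucc 2474, .ofNat 825), (.negSucc 1253, .ofNat 3762), (.ofNat 6930, .ofNat 1386), (.ofNat 7854, .negSucc 5609), (.negSucc 1979, .negSucc 4619), (.negSucc 4674, .ofNat 825), (.negSucc 846, .ofNat 1309), (.ofNat 299, .ofNat 143), (.ofNat 45, .negSucc 22)], [(.negSucc 1, .ofNat 1), (.ofNat 0, .ofNat 22), (.ofNat 221, .ofNat 0), (.ofNat 670, .negSucc 669), (.negSucc 1364, .negSucc 1364), (.negSucc 5903, .ofNat 1968), (.negSucc 2057, .ofNat 6174), (.ofNat 7860, .ofNat 1572), (.ofNat 6090, .negSucc 4349), (.negSucc 1019, .negSucc 2379), (.negSucc 1512, .ofNat 267), (.negSucc 153, .ofNat 238), (.ofNat 23, .ofNat 11)], [(.negSucc 1, .negSucc 0), (.negSucc 41, .ofNat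 21), (.ofNat 0, .ofNat 201), (.ofNat 1159, .ofNat 0), (.ofNat 2241, .negSucc 2240), (.negSucc 3059, .negSucc 3059), (.negSucc 9071, .ofNat 3024), (.negSucc 2177, .ofNat 6534), (.ofNat 5670, .ofNat 1134), (.ofNat 2912, .negSucc 2079), (.negSucc 305, .negSucc 713), (.negSucc 254, .ofNat 45), (.negSucc 10, .ofNat 17)], [(.ofNat 2, .negSucc 2), (.negSucc 39, .negSucc 19), (.negSucc 363, .ofNat 182), (.ofNat 0, .ofNat 996), (.ofNat 3649, .ofNat 0), (.ofNat 4712, .negSucc 4711), (.negSucc 4395, .negSucc 4395), (.negSucc 8951, .ofNat 2984), (.negSucc 1461, .ofNat 4386), (.ofNat 2520, .ofNat 504), (.ofNat 812, .negSucc 579), (.negSucc 47, .negSucc 111), (.negSucc 16, .ofNat 3)], [(.ofNat 6, .negSucc 0), (.ofNat 38, .negSucc 56), (.negSucc 327, .negSucc 163), (.negSucc 1699, .ofNat 850), (.ofNat 0, .ofNat 2945), (.ofNat 7183, .ofNat 0), (.ofNat 6321, .negSucc 6320), (.negSucc 4042, .negSucc 4042), (.negSucc 5594, .ofNat 1865), (.negSucc 604, .ofNat 1815), (.ofNat 655, .ofNat 131), (.ofNat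 119, .negSucc 84), (.negSucc 2, .negSucc 6)], [(.ofNat 2, .ofNat 5), (.ofNat 108, .negSucc 17), (.ofNat 294, .negSucc 440), (.negSucc 1439, .negSucc 719), (.negSucc 4709, .ofNat 2355), (.ofNat 0, .ofNat 5418), (.ofNat 8989, .ofNat 0), (.ofNat 5418, .negSucc 5417), (.negSucc 2354, .negSucc 2354), (.negSucc 2159, .ofNat 720), (.negSucc 146, .ofNat 441), (.ofNat 90, .ofNat 18), (.ofNat 7, .negSucc 4)], [(.negSucc 9, .ofNat 7), (.ofNat 34, .ofNat 85), (.ofNat 786, .negSucc 130), (.ofNat 1210, .negSucc 1814), (.negSucc 3729, .negSucc 1864), (.negSucc 8085, .ofNat 4043), (.ofNat 0, .ofNat 6321), (.ofNat 7183, .ofNat 0), (.ofNat 2945, .negSucc 2944), (.negSucc 849, .negSucc 849), (.negSucc 491, .ofNat 164), (.negSucc 18, .ofNat 57), (.ofNat 5, .ofNat 1)], [(.negSucc 13, .negSucc 2), (.negSucc 159, .ofNat 112), (.ofNat 232, .ofNat 580), (.ofNat 3024, .negSucc 503), (.ofNat 2924, .negSucc 4385), (.negSucc 5967, .negSucc 2983), (.negSucc 8791, .ofNat 4396), (.ofNat 0, .ofNat 4712), (.ofNat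 3649, .ofNat 0), (.ofNat 996, .negSucc 995), (.negSucc 181, .negSucc 181), (.negSucc 59, .ofNat 20), (.negSucc 0, .ofNat 3)], [(.ofNat 6, .negSucc 16), (.negSucc 209, .negSucc 44), (.negSucc 1019, .ofNat 714), (.ofNat 832, .ofNat 2080), (.ofNat 6804, .negSucc 1133), (.ofNat 4356, .negSucc 6533), (.negSucc 6047, .negSucc 3023), (.negSucc 6119, .ofNat 3060), (.ofNat 0, .ofNat 2241), (.ofNat 1159, .ofNat 0), (.ofNat 201, .negSucc 200), (.negSucc 20, .negSucc 20), (.negSucc 2, .ofNat 1)], [(.ofNat 34, .negSucc 10), (.ofNat 84, .negSucc 237), (.negSucc 1245, .negSucc 266), (.negSucc 3399, .ofNat 2380), (.ofNat 1740, .ofNat 4350), (.ofNat 9432, .negSucc 1571), (.ofNat 4116, .negSucc 6173), (.negSucc 3935, .negSucc 1967), (.negSucc 2729, .ofNat 1365), (.ofNat 0, .ofNat 670), (.ofNat 221, .ofNat 0), (.ofNat 22, .negSucc 21), (.negSucc 0, .negSucc 0)], [(.ofNat 22, .ofNat 23), (.ofNat 442, .negSucc 142), (.ofNat 462, .negSucc 1308), (.negSucc 3849, .negSucc 824), (.negSucc 6599, .ofNat 4620),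 (.ofNat 2244, .ofNat 5610), (.ofNat 8316, .negSucc 1385), (.ofNat 2508, .negSucc 3761), (.negSucc 1649, .negSucc 824), (.negSucc 769, .ofNat 385), (.ofNat 0, .ofNat 121), (.ofNat 23, .ofNat 0), (.ofNat 1, .negSucc 0)], [(.negSucc 45, .ofNat 45), (.ofNat 264, .ofNat 276), (.ofNat 2244, .negSucc 725), (.ofNat 1320, .negSucc 3739), (.negSucc 6929, .negSucc 1484), (.negSucc 7919, .ofNat 5544), (.ofNat 1848, .ofNat 4620), (.ofNat 4752, .negSucc 791), (.ofNat 990, .negSucc 1484), (.negSucc 439, .negSucc 219), (.negSucc 131, .ofNat 66), (.ofNat 0, .ofNat 12), (.ofNat 1, .ofNat 0)]], [[(.ofNat 0, .ofNat 0), (.ofNat 0, .ofNat 0), (.ofNat 0, .ofNat 0), (.ofNat 0, .ofNat 0), (.ofNat 0, .ofNat 0), (.ofNat 0, .ofNat 0), (.ofNat 0, .ofNat 0), (.ofNat 0, .ofNat 0), (.ofNat 0, .ofNat 0), (.ofNat 0, .ofNat 0), (.ofNat 0, .ofNat 0), (.ofNat 0, .ofNat 0), (.ofNat 1, .ofNat 0)], [(.ofNat 0, .ofNat 0), (.ofNat 0, .ofNat 0), (.ofNat 0, .ofNat 0), (.ofNat 0, .ofNat 0), (.ofNat 0, .ofNat 0), (.ofNat 0, .ofNat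 0), (.ofNat 0, .ofNat 0), (.ofNat 0, .ofNat 0), (.ofNat 0, .ofNat 0), (.ofNat 0, .ofNat 0), (.ofNat 0, .ofNat 0), (.ofNat 1, .ofNat 0), (.ofNat 1, .negSucc 0)], [(.ofNat 0, .ofNat 0), (.ofNat 0, .ofNat 0), (.ofNat 0, .ofNat 0), (.ofNat 0, .ofNat 0), (.ofNat 0, .ofNat 0), (.ofNat 0, .ofNat 0), (.ofNat 0, .ofNat 0), (.ofNat 0, .ofNat 0), (.ofNat 0, .ofNat 0), (.ofNat 0, .ofNat 0), (.ofNat 1, .ofNat 0), (.ofNat 2, .negSucc 1), (.negSucc 0, .negSucc 0)], [(.ofNat 0, .ofNat 0), (.ofNat 0, .ofNat 0), (.ofNat 0, .ofNat 0), (.ofNat 0, .ofNat 0), (.ofNat 0, .ofNat 0), (.ofNat 0, .ofNat 0), (.ofNat 0, .ofNat 0), (.ofNat 0, .ofNat 0), (.ofNat 0, .ofNat 0), (.ofNat 1, .ofNat 0), (.ofNat 3, .negSucc 2), (.negSucc 2, .negSucc 2), (.negSucc 2, .ofNat 1)], [(.ofNat 0, .ofNat 0), (.ofNat 0, .ofNat 0), (.ofNat 0, .ofNat 0), (.ofNat 0, .ofNat 0), (.ofNat 0, .ofNat 0), (.ofNat 0, .ofNat 0), (.ofNat 0, .ofNat 0), (.ofNat 0, .ofNat 0), (.ofNat 1, .ofNat 0), (.ofNat 4, .negSucc 3), (.negSucc 5, .negSucc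 5), (.negSucc 11, .ofNat 4), (.negSucc 0, .ofNat 3)], [(.ofNat 0, .ofNat 0), (.ofNat 0, .ofNat 0), (.ofNat 0, .ofNat 0), (.ofNat 0, .ofNat 0), (.ofNat 0, .ofNat 0), (.ofNat 0, .ofNat 0), (.ofNat 0, .ofNat 0), (.ofNat 1, .ofNat 0), (.ofNat 5, .negSucc 4), (.negSucc 9, .negSucc 9), (.negSucc 29, .ofNat 10), (.negSucc 4, .ofNat 15), (.ofNat 5, .ofNat 1)], [(.ofNat 0, .ofNat 0), (.ofNat 0, .ofNat 0), (.ofNat 0, .ofNat 0), (.ofNat 0, .ofNat 0), (.ofNat 0, .ofNat 0), (.ofNat 0, .ofNat 0), (.ofNat 1, .ofNat 0), (.ofNat 6, .negSucc 5), (.negSucc 14, .negSucc 14), (.negSucc 59, .ofNat 20), (.negSucc 14, .ofNat 45), (.ofNat 30, .ofNat 6), (.ofNat 7, .negSucc 4)], [(.ofNat 0, .ofNat 0), (.ofNat 0, .ofNat 0), (.ofNat 0, .ofNat 0), (.ofNat 0, .ofNat 0), (.ofNat 0, .ofNat 0), (.ofNat 1, .ofNat 0), (.ofNat 7, .negSucc 6), (.negSucc 20, .negSucc 20), (.negSucc 104, .ofNat 35), (.negSucc 34, .ofNat 105), (.ofNat 105, .ofNat 21), (.ofNat 49, .negSucc 34), (.negSucc 2, .negSucc 6)], [(.ofNat 0, .ofNat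 0), (.ofNat 0, .ofNat 0), (.ofNat 0, .ofNat 0), (.ofNat 0, .ofNat 0), (.ofNat 1, .ofNat 0), (.ofNat 8, .negSucc 7), (.negSucc 27, .negSucc 27), (.negSucc 167, .ofNat 56), (.negSucc 69, .ofNat 210), (.ofNat 280, .ofNat 56), (.ofNat 196, .negSucc 139), (.negSucc 23, .negSucc 55), (.negSucc 16, .ofNat 3)], [(.ofNat 0, .ofNat 0), (.ofNat 0, .ofNat 0), (.ofNat 0, .ofNat 0), (.ofNat 1, .ofNat 0), (.ofNat 9, .negSucc 8), (.negSucc 35, .negSucc 35), (.negSucc 251, .ofNat 84), (.negSucc 125, .ofNat 378), (.ofNat 630, .ofNat 126), (.ofNat 588, .negSucc 419), (.negSucc 107, .negSucc 251), (.negSucc 152, .ofNat 27), (.negSucc 10, .ofNat 17)], [(.ofNat 0, .ofNat 0), (.ofNat 0, .ofNat 0), (.ofNat 1, .ofNat 0), (.ofNat 10, .negSucc 9), (.negSucc 44, .negSucc 44), (.negSucc 359, .ofNat 120), (.negSucc 209, .ofNat 630), (.ofNat 1260, .ofNat 252), (.ofNat 1470, .negSucc 1049), (.negSucc 359, .negSucc 839), (.negSucc 764, .ofNat 135), (.negSucc 109, .ofNat 170), (.ofNat 23, .ofNat 11)], [(.ofNat 0,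 .ofNat 0), (.ofNat 1, .ofNat 0), (.ofNat 11, .negSucc 10), (.negSucc 54, .negSucc 54), (.negSucc 494, .ofNat 165), (.negSucc 329, .ofNat 990), (.ofNat 2310, .ofNat 462), (.ofNat 3234, .negSucc 2309), (.negSucc 989, .negSucc 2309), (.negSucc 2804, .ofNat 495), (.negSucc 604, .ofNat 935), (.ofNat 253, .ofNat 121), (.ofNat 45, .negSucc 22)], [(.ofNat 1, .ofNat 0), (.ofNat 12, .negSucc 11), (.negSucc 65, .negSucc 65), (.negSucc 659, .ofNat 220), (.negSucc 494, .ofNat 1485), (.ofNat 3960, .ofNat 792), (.ofNat 6468, .negSucc 4619), (.negSucc 2375, .negSucc 5543), (.negSucc 8414, .ofNat 1485), (.negSucc 2419, .ofNat 3740), (.ofNat 1518, .ofNat 726), (.ofNat 540, .negSucc 275), (.negSucc 0, .negSucc 44)]]]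
  rws := [(0, 0, 1, 0), (0, 0, 5, 0), (0, 0, 6, 0), (0, 0, 10, 0), (0, 0, 11, 0), (0, 0, 12, 0), (0, 1, 2, 0), (0, 1, 6, 0), (0, 1, 10, 0), (0, 1, 11, 0), (0, 2, 3, 0), (0, 2, 4, 0), (0, 2, 9, 0), (0, 2, 10, 0), (0, 3, 9, 0), (0, 5, 7, 0), (1, 0, 3, 0), (1, 0, 6, 1), (1, 0, 12, 0), (1, 0, 12, 1), (1, 6, 6, 1), (1, 11, 0, 0)]
  cols := [((0, 2), [.ofNat 4, .ofNat 660, .negSucc 923, .negSucc 109, .ofNat 22, .negSucc 1, .ofNat 132, .ofNat 9240, .ofNat 1188, .negSucc 239, .ofNat 2420, .negSucc 10889, .ofNat 16940, .negSucc 5807, .negSucc 48399, .negSucc 209087, .negSucc 170279, .ofNat 85932, .negSucc 3, .ofNat 182, .negSucc 109283327, .negSucc 3049]), ((0, 4), [.ofNat 8, .ofNat 744, .negSucc 923, .negSucc 93, .ofNat 20, .negSucc 1, .ofNat 192, .ofNat 7392, .ofNat 864, .negSucc 191, .ofNat 2464, .negSucc 9305, .ofNat 9856, .negSucc 3695, .negSucc 24639, .negSucc 76031, .ofNat 146552, .ofNat 206724, .negSucc 355, .negSucc 185, .ofNat 193729536, .ofNat 3000]), ((0, 6), [.ofNat 12, .ofNat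 792, .negSucc 923, .negSucc 80, .ofNat 18, .negSucc 1, .ofNat 216, .ofNat 5544, .ofNat 576, .negSucc 143, .ofNat 1980, .negSucc 6434, .ofNat 4620, .negSucc 1979, .negSucc 8799, .negSucc 9503, .negSucc 37019, .negSucc 446039, .ofNat 1084, .negSucc 169, .negSucc 166098239, .ofNat 2490]), ((0, 8), [.ofNat 16, .ofNat 848, .negSucc 951, .negSucc 71, .ofNat 16, .negSucc 1, .ofNat 192, .ofNat 3696, .ofNat 336, .negSucc 95, .ofNat 1056, .negSucc 2903, .ofNat 1584, .negSucc 791, .negSucc 1759, .ofNat 0, .negSucc 46247, .ofNat 479752, .negSucc 1827, .ofNat 1254, .ofNat 48742848, .negSucc 17507]), ((0, 10), [.ofNat 20, .ofNat 1044, .negSucc 1133, .negSucc 66, .ofNat 14, .negSucc 1, .ofNat 120, .ofNat 1848, .ofNat 144, .negSucc 47, .ofNat 220, .negSucc 494, .ofNat 220, .negSucc 131, .ofNat 0, .ofNat 0, .ofNat 79440, .negSucc 271781, .ofNat 1148, .negSucc 3081, .ofNat 83670048, .ofNat 40046]), ((0, 12), [.ofNat 24, .ofNat 1584, .negSucc 1847, .negSucc 131, .ofNat 24, .negSucc 1, .ofNat 0, .ofNat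 0, .ofNat 0, .ofNat 0, .ofNat 0, .ofNat 0, .ofNat 0, .ofNat 0, .ofNat 0, .ofNat 0, .negSucc 80079, .negSucc 157079, .ofNat 3868, .ofNat 4230, .negSucc 153679679, .negSucc 50759]), ((1, 3), [.ofNat 4, .ofNat 336, .negSucc 377, .negSucc 10, .ofNat 1, .ofNat 0, .ofNat 102, .ofNat 3318, .ofNat 135, .negSucc 17, .ofNat 1331, .negSucc 5048, .ofNat 2849, .negSucc 791, .negSucc 8909, .negSucc 49895, .negSucc 129797, .negSucc 23057, .ofNat 64, .ofNat 160, .negSucc 132878591, .negSucc 2686]), ((1, 5), [.ofNat 8, .ofNat 442, .negSucc 454, .negSucc 10, .ofNat 1, .ofNat 0, .ofNat 164, .ofNat 3164, .ofNat 98, .negSucc 13, .ofNat 1540, .negSucc 5004, .ofNat 1540, .negSucc 461, .negSucc 3849, .negSucc 12935, .ofNat 110810, .ofNat 190043, .negSucc 383, .negSucc 191, .ofNat 210184128, .ofNat 3093]), ((1, 7), [.ofNat 12, .ofNat 482, .negSucc 468, .negSucc 10, .ofNat 1, .ofNat 0, .ofNat 186, .ofNat 2317, .ofNat 65, .negSucc 9, .ofNat 1100, .negSucc 3024, .ofNat 660, .negSucc 219, .negSucc 1099, .negSucc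 659, .negSucc 36449, .negSucc 346814, .ofNat 1088, .negSucc 159, .negSucc 175218119, .ofNat 2345]), ((1, 9), [.ofNat 16, .ofNat 588, .negSucc 545, .negSucc 10, .ofNat 1, .ofNat 0, .ofNat 168, .ofNat 1470, .ofNat 36, .negSucc 5, .ofNat 440, .negSucc 989, .ofNat 176, .negSucc 65, .negSucc 109, .ofNat 0, .negSucc 26225, .ofNat 388038, .negSucc 1823, .ofNat 1248, .ofNat 50295168, .negSucc 17426]), ((1, 11), [.ofNat 20, .ofNat 924, .negSucc 923, .negSucc 21, .ofNat 2, .ofNat 0, .ofNat 110, .ofNat 924, .ofNat 22, .negSucc 1, .ofNat 0, .ofNat 0, .ofNat 0, .ofNat 0, .ofNat 0, .ofNat 0, .ofNat 67980, .negSucc 246707, .ofNat 1144, .negSucc 3079, .ofNat 84523824, .ofNat 40022]), ((2, 4), [.ofNat 4, .ofNat 196, .negSucc 181, .negSucc 0, .ofNat 0, .ofNat 0, .ofNat 88, .ofNat 1400, .ofNat 8, .ofNat 0, .ofNat 844, .negSucc 2730, .ofNat 336, .negSucc 55, .negSucc 1119, .negSucc 9407, .negSucc 90035, .negSucc 43301, .ofNat 64, .ofNat 160, .negSucc 144657407, .negSucc 2675]), ((2, 6), [.ofNat 8, .ofNat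 252, .negSucc 209, .negSucc 0, .ofNat 0, .ofNat 0, .ofNat 144, .ofNat 1252, .ofNat 6, .ofNat 0, .ofNat 920, .negSucc 2489, .ofNat 170, .negSucc 29, .negSucc 399, .negSucc 1439, .ofNat 79580, .ofNat 160062, .negSucc 383, .negSucc 191, .ofNat 221989824, .ofNat 3096]), ((2, 8), [.ofNat 12, .ofNat 308, .negSucc 237, .negSucc 0, .ofNat 0, .ofNat 0, .ofNat 168, .ofNat 896, .ofNat 4, .ofNat 0, .ofNat 596, .negSucc 1284, .ofNat 64, .negSucc 11, .negSucc 79, .ofNat 0, .negSucc 31859, .negSucc 290429, .ofNat 1088, .negSucc 159, .negSucc 180939359, .ofNat 2340]), ((2, 10), [.ofNat 16, .ofNat 504, .negSucc 419, .negSucc 1, .ofNat 0, .ofNat 0, .ofNat 160, .ofNat 840, .ofNat 4, .ofNat 0, .ofNat 240, .negSucc 419, .ofNat 20, .negSucc 1, .ofNat 0, .ofNat 0, .negSucc 20679, .ofNat 359772, .negSucc 1823, .ofNat 1248, .ofNat 50824368, .negSucc 17423]), ((3, 5), [.ofNat 4, .ofNat 106, .negSucc 76, .ofNat 0, .ofNat 0, .ofNat 0, .ofNat 78, .ofNat 525, .ofNat 0, .ofNat 0, .ofNat 524, .negSucc 1400, .ofNat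 21, .ofNat 0, .negSucc 69, .negSucc 1259, .negSucc 61667, .negSucc 42566, .ofNat 64, .ofNat 160, .negSucc 152912927, .negSucc 2675]), ((3, 7), [.ofNat 8, .ofNat 146, .negSucc 90, .ofNat 0, .ofNat 0, .ofNat 0, .ofNat 132, .ofNat 441, .ofNat 0, .ofNat 0, .ofNat 564, .negSucc 1184, .ofNat 10, .ofNat 0, .negSucc 19, .negSucc 71, .ofNat 60364, .ofNat 138943, .negSucc 383, .negSucc 191, .ofNat 229376448, .ofNat 3096]), ((3, 9), [.ofNat 12, .ofNat 252, .negSucc 167, .ofNat 0, .ofNat 0, .ofNat 0, .ofNat 162, .ofNat 504, .ofNat 0, .ofNat 0, .ofNat 432, .negSucc 755, .ofNat 6, .ofNat 0, .negSucc 1, .ofNat 0, .negSucc 29831, .negSucc 272159, .ofNat 1088, .negSucc 159, .negSucc 182891519, .ofNat 2340]), ((4, 6), [.ofNat 4, .ofNat 56, .negSucc 27, .ofNat 0, .ofNat 0, .ofNat 0, .ofNat 72, .ofNat 164, .ofNat 0, .ofNat 0, .ofNat 340, .negSucc 704, .ofNat 0, .ofNat 0, .ofNat 0, .negSucc 95, .negSucc 45503, .negSucc 39227, .ofNat 64, .ofNat 160, .negSucc 158062463, .negSucc 2675]), ((4, 8), [.ofNat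 8, .ofNat 112, .negSucc 55, .ofNat 0, .ofNat 0, .ofNat 0, .ofNat 128, .ofNat 224, .ofNat 0, .ofNat 0, .ofNat 448, .negSucc 783, .ofNat 0, .ofNat 0, .ofNat 0, .ofNat 0, .ofNat 54016, .ofNat 131656, .negSucc 383, .negSucc 191, .ofNat 231897792, .ofNat 3096]), ((5, 7), [.ofNat 4, .ofNat 40, .negSucc 13, .ofNat 0, .ofNat 0, .ofNat 0, .ofNat 70, .ofNat 70, .ofNat 0, .ofNat 0, .ofNat 280, .negSucc 489, .ofNat 0, .ofNat 0, .ofNat 0, .negSucc 1, .negSucc 40319, .negSucc 37841, .ofNat 64, .ofNat 160, .negSucc 159820163, .negSucc 2675])]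
  tg := [((0, 2), .ofNat 345822502410000, [.ofNat 64522122229573135582775397429353019680200, .negSucc 17380312901750416121202272661508772119, .ofNat 904245860537444065345356936395783929136, .negSucc 4723082361815440435971989652330655743519, .negSucc 22525245645929134452549365022602056750047, .negSucc 33633745001286736823348353809280377223454, .negSucc 5579048563747031556253083799802876113099, .ofNat 153329347293141813002575173102443607536, .negSucc 1505926465281435808211199243117302717887, .negSucc 3684907816819576463899394867324427742383, .ofNat 789533796776756415170278705338941437552, .ofNat 175466556078291658239835048771985938752, .ofNat 28977992532621091840879170475302462232, .negSucc 133254242956829165698589241532521504951, .ofNat 12840140966635482888222204375257521500, .negSucc 376845923063445573011609341987010953, .negSucc 52384948428908320281495079502399, .ofNat 2739564995586289569778448000016, .ofNat 3733031916134796203451985457623320, .ofNat 15587385672328221305796384191785659,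 .ofNat 145646478205844221460505223683, .ofNat 2450544140677371235169303975846040]), ((0, 4), .ofNat 11292163344000, [.negSucc 1210880485086156501294765813030172914199, .ofNat 326174666768395918151613865804872460, .negSucc 16969895415852832444516854592220950167, .ofNat 88637634097467077366444971292002201760, .ofNat 422729126568097897784017689668509526624, .ofNat 631201269504361940847233923514649941115, .ofNat 104701469786635126072091982522243456100, .negSucc 2877517167951523306549369296221537967, .ofNat 28261577669376202573167680282168734144, .ofNat 69154311894024292173889978554824927792, .negSucc 14817105107475300247096789254037281775, .negSucc 3292964043936791240978346186641957375, .negSucc 543827209059787755608604619144532215, .ofNat 2500769608557578642134667274294705176, .negSucc 240969695121528015929482841628914699, .ofNat 7072231327082067545024656697992402, .ofNat 983103307406964852782056891200, .negSucc 51413153754885829577607478607, .negSucc 70057452254408144470945447607159,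 .negSucc 292526973260077649571673227522566, .negSucc 2733333499996838751076338878, .negSucc 45989127066071784148559658326519]), ((0, 6), .ofNat 5809818040488000, [.negSucc 602589436381737453280636754516035968668199, .ofNat 162319412221746932282152663826527251140, .negSucc 8444995059415956474401200840591603680631, .ofNat 44110135253524203058716678575398844950240, .ofNat 210369321545957182800141810734585126160976, .ofNat 314114581842490931899272120225293268996810, .ofNat 52104233608636326250065008711383577929100, .negSucc 1431983973456560455705442621022526765231, .ofNat 14064251896698439506902533284074571319856, .ofNat 34414344223758764602231737894329129713708, .negSucc 7373668273204696224351847399292238007023, .negSucc 1638729314495485305572566288783758551423, .negSucc 270633258552411134987982963726821974983, .ofNat 1244497179945936601833090134556853374424, .negSucc 119917526590602376233690377487228896099, .ofNat 3519465332736306642180872698011168398, .ofNat 489237109039075783170639283228800,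 .negSucc 25585533605787610482585000096191, .negSucc 34863788118049110116825950116627839, .negSucc 145574783072586688500316749409539857, .negSucc 1360231594688904445436537681720, .negSucc 22886290182850292338458405030654479]), ((0, 8), .ofNat 184438667952000, [.ofNat 4369452756547339472054086881883236191000, .negSucc 1176998733054708809945020444534055259, .ofNat 61235734836243860801097521208723195448, .negSucc 319848209142998094501095690496443459359, .negSucc 1525414745803257470603221627723145488063, .negSucc 2277684842510098797224903300451350630114, .negSucc 377814434544479144826079200744386492499, .ofNat 10383498186960599368106975697953224048, .negSucc 101981681902360658844128127251005475583, .negSucc 249542793408698112703199478190142707711, .ofNat 53467407851818710712546586402869465136, .ofNat 11882634988511785721128996002147572736, .ofNat 1962396229007409167849187072380394776, .negSucc 9024007566547119784698033603623206135, .ofNat 869537259507668324356967288220030300, .negSucc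 25520091410888058902765256478360521, .negSucc 3547520593012552408399544443199, .ofNat 185523963069810303604300230288, .ofNat 252801768333005030779508241671760, .ofNat 1055581294288305387625094331885087, .ofNat 9863212549234034854061795619, .ofNat 165951405200617650821019777453720]), ((0, 10), .ofNat 4149870028920000, [.ofNat 2841450478925088431717415379715615549600, .negSucc 765401023897371203800480271455304559, .ofNat 39821533215355113668254411417497221968, .negSucc 207996950119411897195110124676706709759, .negSucc 991975586308206916120858655435573094223, .negSucc 1481176029857050762437162318589148428664, .negSucc 245692324827769492354559815105478648799, .ofNat 6752377823984221511035729128412843168, .negSucc 66318579242867076654383867434301716143, .negSucc 162277413065277875158019474215601233291, .ofNat 34769798442100932531171889476999836576, .ofNat 7727264891102392577565280584474562176, .ofNat 1276144179931580936389163287857120416, .negSucc 5868302519890429438075477295295381775,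 .ofNat 565459154757771444237305420821716000, .negSucc 16595688293693599429341191833518951, .negSucc 2306948867431454290325338411199, .ofNat 120646035805486706215743219408, .ofNat 164396720991333585001638685569660, .ofNat 686443392643504868698449249936117, .ofNat 6414036627302152544910851604, .ofNat 107918022246380969953388599676520]), ((0, 12), .ofNat 1833907209750, [.negSucc 13742387013765148105674, .ofNat 3701785984414819070, .negSucc 192592804354305027925, .ofNat 1005956110024751513320, .ofNat 4797589080619678131943, .ofNat 7163557353805342806855, .ofNat 1188266005481190863150, .negSucc 32657190365819349175, .ofNat 320743065604756941608, .ofNat 784838202485577757594, .negSucc 168160602838483576131, .negSucc 37372132692199640831, .negSucc 6171940811295063111, .ofNat 28381449834149259232, .negSucc 2734785625736806949, .ofNat 80263359611040914, .ofNat 11157292238400, .negSucc 583492030505, .negSucc 795090136710869, .negSucc 3319952607232568, .negSucc 31020830477, .negSucc 521937389257514]),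 ((1, 3), .ofNat 29641928778000, [.negSucc 23232449610570105046873636453547807500999, .ofNat 6258120932060504491828260610615331140, .negSucc 325591373385948766349058341279516944071, .ofNat 1700638001134383998225220160487932579040, .ofNat 8110654398080303562074973849782018067296, .ofNat 12110486434046851746191622145592336587485, .ofNat 2008845340997921663626212626662510073500, .negSucc 55209224553014020682132620185061875471, .ofNat 542238220209056046150963344280624160576, .ofNat 1326822990559017741183477730523600045168, .negSucc 284287055596116635440360954334724389503, .negSucc 63180158704710880303352712098586851903, .negSucc 10434091875251857160681205123535671463, .ofNat 47980791361358189572995644766479258504, .negSucc 4623343400556174133033841350620539699, .ofNat 135690730806549284442742138363802758, .ofNat 18862223260367450465913073924800, .negSucc 986433854242758347293591478831, .negSucc 1344151011922246707844295932325639, .negSucc 5612542484334269776611192001151792, .negSucc 52442857564957358730181066940,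 .negSucc 882366253611393290666933844379079]), ((1, 5), .ofNat 4841515033740000, [.negSucc 1052778260585230029950589966698823079263399, .ofNat 283586697908477771854231016831457906140, .negSucc 14754170372927965769185373375575216094791, .ofNat 77064396855716001209966024835280397393440, .ofNat 367534236490243041467280822946944674881456, .ofNat 548786591882938497963356963394830968811760, .ofNat 91030809894378508783743459925399063867700, .negSucc 2501805550747310223791414484205007608591, .ofNat 24571520432128577532082258100739428309936, .ofNat 60124972765234730362133497376270467425148, .negSucc 12882465556331487407332500270971672599743, .negSucc 2863008365436505729776011531214409926143, .negSucc 472820786414892976387351839167862905703, .ofNat 2174249160877614213884875313159024415544, .negSucc 209506767685454180016775794021401743499, .ofNat 6148824336244935772293993158285306438, .ofNat 854741489928173721513835444972800, .negSucc 44700241888379657193963926113151, .negSucc 60910191908973410844871948478909039,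 .negSucc 254332315927194302060296557314546447, .negSucc 2376447653726341404251334048800, .negSucc 39984419432614159600678682714954879]), ((1, 7), .ofNat 46109666988000, [.ofNat 28517379466690453941723439927201007538200, .negSucc 7681721573036850671261736738791864619, .ofNat 399657070242975276888652040379304709536, .negSucc 2087500028053782351344600285298372691519, .negSucc 9955670326214993306563616575209587991247, .negSucc 14865386257366175113130757545406764562329, .negSucc 2465818535685834585185012082868476708099, .ofNat 67768247990677099689858746147271001936, .negSucc 665586855723091234056911395836261507087, .negSucc 1628649382271147141634635192073774316483, .ofNat 348956824519015582195675179489059872352, .ofNat 77552414435377879301428978903933239552, .ofNat 12807644582665568601677960140816725032, .negSucc 58895487014913109428975979411948929751, .ofNat 5675063988882749426710259941276273500, .negSucc 166557729614632530356563534756426053, .negSucc 23153011727898208106877804662399,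 .ofNat 1210828346203844909957822899416, .ofNat 1649919191047458665632151836225320, .ofNat 6889286600490955140354206505191634, .ofNat 64372586385254102543238756633, .ofNat 1083087393048289712145892850753040]), ((1, 9), .ofNat 69164500482000, [.negSucc 6845269426784108826848171384259386096799, .ofNat 1843909041165470996270337909858836180, .negSucc 95933089761204579213260279542617161803, .ofNat 501080407375379169033050320761637275280, .ofNat 2389744323695049455077214820060814481872, .ofNat 3568265246241949472779981093810646070870, .ofNat 591891420249305797217089195203048755900, .negSucc 16266989630626881593581303225824517903, .ofNat 159766480635865964493906151108966059632, .ofNat 390938579627679147416105923104215063476, .negSucc 83763078053430356499603086971437928527, .negSucc 18615566417238962984548528525221131327, .negSucc 3074327989822564281374008254124513047, .ofNat 14137185259594010339886874201125689128, .negSucc 1362233933995160750395704314773714499, .ofNat 39980270124656539966554858233578706,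 .ofNat 5557614559362901285844957193600, .negSucc 290645438478455271130732937123, .negSucc 396044152946577327468772695005729, .negSucc 1653694126901735938672073319416825, .negSucc 15451900060476968275264398386, .negSucc 259982689742887009469085340000559]), ((1, 11), .ofNat 22006886517000, [.ofNat 14799589726936214061224427891580600, .negSucc 3986562924208764987779101445419, .ofNat 207408982931761344044349485747696, .negSucc 1083344421820017733552848136030719, .negSucc 5166668152545870854087382378297327, .negSucc 7714650569433517763804059926142679, .negSucc 1279679386805176658545701966347299, .ofNat 35169510155965450926348091900496, .negSucc 345417867158830259382850750533967, .negSucc 845215904034760200381919845997323, .ofNat 181097209206342820333749161404672, .ofNat 40247173388337918238021417279872, .ofNat 6646749762307851930282187960552, .negSucc 30564836632584493918124659238871, .ofNat 2945173093750678168234558386300, .negSucc 86438028677415702913477283893, .negSucc 12015657852295720090406399,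 .ofNat 628380415335591781238376, .ofNat 856254240983899009143661770, .ofNat 3575315022112687993225225524, .ofNat 33407272546774553729313, .ofNat 562087027465287882397741440]), ((2, 4), .ofNat 1936606013496000, [.ofNat 1820515785158857047902309139883491190665400, .negSucc 490392022073544600804050246357020366789, .ofNat 25513634795144000261865395395606660552412, .negSucc 133263533454412089197152839007843768771839, .negSucc 635558221676089798988764742730296893293615, .negSucc 948988681292720037043922038962944097005234, .negSucc 157414939643973265453861050952320131285449, .ofNat 4326244820064652424815041322612125997712, .negSucc 42490277855069755300018189993669244703895, .negSucc 103971050789469399155119876170530174809677, .ofNat 22276991057955153653633045788745695780084, .ofNat 4950854436737350050390051498444956457984, .ofNat 817624885929007026073717168546025509144, .negSucc 3759818250849649369720957609671328648383, .ofNat 362289374646619559440848262788363926250, .negSucc 10632848514634197544334729516333869117,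 .negSucc 1478060891739381915533338782580799, .ofNat 77297849893839277708037013853872, .ofNat 105328890231547677681077496551278440, .ofNat 439803910430369414722801425179327103, .ofNat 4109469798329183699263717782786, .ofNat 69143018489973432274535107241386680]), ((2, 6), .ofNat 3592961064000, [.ofNat 6603570879689853301287641691312019351000, .negSucc 1778802745351920980267471663878011439, .ofNat 92545803305711607890923645301482801112, .negSucc 483387837676639903397625122780331355839, .negSucc 2305365215298845427000436552905438708015, .negSucc 3442273926997590746995698224013183863309, .negSucc 570992418706422547926824258604939475999, .ofNat 15692621039094766469681569570849458512, .negSucc 154125310970146509965906560854420780895, .negSucc 377134990490722004641379931726879732927, .ofNat 80805500637055660845975429476457843784, .ofNat 17958272295435921045573480925677965184, .ofNat 2965777023877545946550686464827279944, .negSucc 13638017597342991125499034404849267783, .ofNat 1314135029171804049120686235908032200,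 .negSucc 38568613022635781147405520810797317, .negSucc 5361381616499911865872177660799, .ofNat 280383084169222758817608972072, .ofNat 382060291920184764626621032360440, .ofNat 1595304099732530857585045150698678, .ofNat 14906311339038216043186952811, .ofNat 250803001630883319137135383909680]), ((2, 8), .ofNat 18443866795200, [.negSucc 26197938662816905158764921667140892903199, .ofNat 7056934204993136899703413838709849910, .negSucc 367151246299338794845820601447717659187, .ofNat 1917714695961449221209742840673098487360, .ofNat 9145932951449961894666219400251641254784, .ofNat 13656320624566722648501943756802669273715, .ofNat 2265262936483675597340374923493847100250, .negSucc 62256365674134080824309023063193276287, .ofNat 611451821559477151662864728228255188504, .ofNat 1496184341545525821806054903583524982422, .negSucc 320574669050454976375832723152524891115, .negSucc 71244743890458661890260306291687577215, .negSucc 11765943907424945413396353472434473455, .ofNat 54105264410274616716438293707475693816,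 .negSucc 5213486690176780916013935431219290449, .ofNat 153010874977446948938039642098329232, .ofNat 21269877963907857823347187579200, .negSucc 1112346482680854943943166273527, .negSucc 1515724185532331037659602153161059, .negSucc 6328951368096179129633831669457446, .negSucc 59136887793550331835655314938, .negSucc 994995249219592524106344953131319]), ((2, 10), .ofNat 968303006748000, [.ofNat 142798350432042354379749645744826269669400, .negSucc 38465566949767120542884435264771041219, .ofNat 2001248762561105519297878321062889432976, .negSucc 10452978713598359688893021366569128752319, .negSucc 49852171784903562011265539804915124262767, .negSucc 74437156421280206325481584987099448641179, .negSucc 12347376440110033497257346531356581114699, .ofNat 339343733741090914795176522182494346576, .negSucc 3332869528826222212672724486286643679407, .negSucc 8155323159764195388922263681541344798243, .ofNat 1747371597433181106613580355931786826032, .ofNat 388337114436808736605964198154915311232, .ofNat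 64133190129225378795707742463344123112, .negSucc 294914138357096182941150040383478371831, .ofNat 28417399893118288067261505616792488900, .negSucc 834023654538685932506720993059539013, .negSucc 115936735566442730706323469158399, .ofNat 6063119884357772680696214788056, .ofNat 8261829916838770024977386905401120, .ofNat 34497516272586609678400947116332044, .ofNat 322340247272560273852634020053, .ofNat 5423467934060705806237039658372640]), ((3, 5), .ofNat 15369888996000, [.ofNat 9268220514670464653881725845703222783800, .negSucc 2496578956504987536059175998936984439, .ofNat 129889559508285136432419752831022731752, .negSucc 678442793349292754640665631579215176639, .negSucc 3235618057490126914015045081848314309935, .negSucc 4831288163414510069009677242751031963609, .negSucc 801397265993262686540414954506069449399, .ofNat 22024852143378279828457079400449871952, .negSucc 216317412955604836336565540971377289215, .negSucc 529315171949865652701102850487625307687, .ofNat 113411851306993298708466658976662792664,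 .ofNat 25204731005236764103466762419854392064, .ofNat 4162516910234357734201983530647242824, .negSucc 19141182366027346330497872907267320263, .ofNat 1844410162065107042306071884796036800, .negSucc 54131683743745648713122156355588477, .negSucc 7524787420371471634536974236799, .ofNat 393522277568983344357882063912, .ofNat 536227913643890822469004452033240, .ofNat 2239035584482644175874494434431538, .ofNat 20921253525944983199943283131, .ofNat 352006144434003005365774588667280]), ((3, 7), .ofNat 898240266000, [.negSucc 3787927992207459148736865384928695774799, .ofNat 1020353507896394010909544859811926230, .negSucc 53085950812039294560382449103305270843, .ofNat 277280028455449432435311654166719690080, .ofNat 1322399288262354521277262615508254672592, .ofNat 1974550739664729716517424642931038288320, .ofNat 327531604576020367706756037864436148650, .negSucc 9001571965845633185943668383434500943, .ofNat 88409072964916389202119400314745872952, .ofNat 216331468738288804831323103860904509986,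 .negSucc 46351500326716652939544581989018995307, .negSucc 10301190607158336023439806240460892607, .negSucc 1701223476217024431005880713945690527, .ofNat 7823014177689831119322868190121422408, .negSucc 753811680563658108786315437512631249, .ofNat 22123655753948808292369973600241016, .ofNat 3075385707528032713893161529600, .negSucc 160832820971543922837755136863, .negSucc 219156710943548156935857278511779, .negSucc 915095357580834747413647176885335, .negSucc 8550530464564988566381469006, .negSucc 143865149282973283487012834996159]), ((3, 9), .ofNat 72622725506100, [.ofNat 132748633469905574863016183647708005829100, .negSucc 35758476430417948976876916404014008204, .ofNat 1860406914082352517422561811525923899414, .negSucc 9717329617057170234469495573148197334479, .negSucc 46343726380105082997097362865824515436751, .negSucc 69198493991099154966000081275729377232519, .negSucc 11478405348548894781858243313199697151674, .ofNat 315461745842388737384280749878400463064, .negSucc 3098312229423988127102164853952599330211,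 .negSucc 7581376127165991528540634568129231142790, .ofNat 1624396857677784882650004757390716962198, .ofNat 361007120258478711292187691542559085248, .ofNat 59619689751051569098091459170283277068, .negSucc 274158971300514987882393417400677374647, .ofNat 26417469047547313796479392856349457375, .negSucc 775327586674585609915252770521998320, .negSucc 107777457994736247637333077417599, .ofNat 5636415804367038460569403888284, .ofNat 7680387260097037145816453257111305, .ofNat 32069685184991568389362008324846366, .ofNat 299654913437866891722736505367, .ofNat 5041780627970476403307715145376960]), ((4, 6), .ofNat 5646081672000, [.negSucc 18329699284144661120254050469698696178599, .ofNat 4937467924875670191223459067494637660, .negSucc 256881734974724113798137614591863643647, .ofNat 1341751889038841058947376199108128679360, .ofNat 6399060736445051551587189635492350940464, .ofNat 9554807101348318149144965776164893765190, .ofNat 1584918147937968240176486048632975985300, .negSucc 43558406484486509377639884574376964847,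 .ofNat 427809537237942312340109952534744369584, .ofNat 1046823164491930077673249889951990696212, .negSucc 224293878897769037167189040498413444335, .negSucc 49847232177143929852793079828078111935, .negSucc 8232182554244669773113768872647219575, .ofNat 37855391567010914004470529126862130536, .negSucc 3647677952176558648888104396167605499, .ofNat 107055878007727624996377301092870722, .ofNat 14881723020530416090010693923200, .negSucc 778266442628726874028331074487, .negSucc 1060494448669932318073099101023759, .negSucc 4428126077179894317755904815869661, .negSucc 41375826694123227099018975518, .negSucc 696160256808032634837751639596719]), ((4, 8), .ofNat 64553533783200, [.ofNat 348033130606180393300698471566631933876400, .negSucc 93749624176786831809036333953858413039, .ofNat 4877513429592104856139383276988147959992, .negSucc 25476365061966981346479349381569776712639, .negSucc 121501455453254940689638634661767046036255, .negSucc 181420839276774605837391507984807226372259, .negSucc 30093457411957783948233028594898560048999,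 .ofNat 827060408248252677150560132582931472592, .negSucc 8122986102499513924632254509183198605535, .negSucc 19876438640995198029127330892920752340047, .ofNat 4258755129502755428819286103711325549944, .ofNat 946468788043408576091196760581290998944, .ofNat 156307652496714207704238458457972099304, .negSucc 718775045523307150972031805395115107943, .ofNat 69259880233675614458357990138100939600, .negSucc 2032711600732703510596631147293099837, .negSucc 282565064017685687372764722892799, .ofNat 14777247693752912249964637814952, .ofNat 20136020631846112955015790948329040, .ofNat 84078552379355036067732930772757748, .ofNat 785618916739715876682005583651, .ofNat 13218265604067066490249390208384880]), ((5, 7), .ofNat 40345958614500, [.ofNat 185162207505225813089186205067223036003600, .negSucc 49877111800030677540246792532885440009, .ofNat 2594957417377611796303898601916650883828, .negSucc 13554054425412354386523620864016577292959, .negSucc 64641770361453715608205717987798444878703, .negSucc 96520360085919438344560164610439869830839,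 .negSucc 16010461406813124841871774891994886686549, .ofNat 440016531370706986374673736068910110528, .negSucc 4321628908297878887927063732830781014023, .negSucc 10574755482900814584809303227058310526381, .ofNat 2265762743993576357377365276931254300596, .ofNat 503544733869658506168427401758393133696, .ofNat 83159525461962916921548135377189320736, .negSucc 382406048231551059802895262753220602295, .ofNat 36847964138581917206643097454800512750, .negSucc 1081452695487906999162273965538664491, .negSucc 150331581726837544995563452435199, .ofNat 7861860159867800064286795439568, .ofNat 10712859502971664704283851948228360, .ofNat 44731863128345155898734434045965832, .ofNat 417968635997456909086152448809, .ofNat 7032443245781015108535295690033920])]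

theorem NIT_2_1_12 (l : ℕ) (hlp : l.Prime) (hl2 : l ≠ 2) (hls : ¬ l ∣ 7) (hE : ¬ l ∣ 889)
    (hj : 12 < l) : NUMA_stmt 2 1 l 12 :=
  @NI_fin 2 1 889 2 7 12 (by norm_num) NIC_2_1_12 (by decide +kernel) (by decide +kernel)
    (by decide +kernel) (by decide +kernel) l hlp hl2 hls hE hj

end Pool.Agent.OE
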