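import Pool.Agent.helper21.OE.NID

/-!
# Project OE: certificates over the integers
-/

namespace Pool.Agent.OE

set_option maxRecDepth 100000

/-- certificate, `d = 2`, `t = 1`, `j = 13` -/
def NIC_2_1_13 : NI_Cert where
  tab0 := [[[(.ofNat 1, .ofNat 0), (.ofNat 0, .ofNat 0), (.ofNat 0, .ofNat 0), (.ofNat 0, .ofNat 0), (.ofNat 0, .ofNat 0), (.ofNat 0, .ofNat 0), (.ofNat 0, .ofNat 0), (.ofNat 0, .ofNat 0), (.ofNat 0, .ofNat 0), (.ofNat 0, .ofNat 0), (.ofNat 0, .ofNat 0), (.ofNat 0, .ofNat 0), (.ofNat 0, .ofNat 0), (.ofNat 0, .ofNat 0)], [(.ofNat 0, .ofNat 0), (.ofNat 1, .ofNat 0), (.ofNat 0, .ofNat 0), (.ofNat 0, .ofNat 0), (.ofNat 0, .ofNat 0), (.ofNat 0, .ofNat 0), (.ofNat 0, .ofNat 0), (.ofNat 0, .ofNat 0), (.ofNat 0, .ofNat 0), (.ofNat 0, .ofNat 0), (.ofNat 0, .ofNat 0), (.ofNat 0, .ofNat 0), (.ofNat 0, .ofNat 0), (.ofNat 0, .ofNat 0)], [(.ofNat 0, .ofNat 0), (.ofNat 0, .ofNat 0), (.ofNat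 1, .ofNat 0), (.ofNat 0, .ofNat 0), (.ofNat 0, .ofNat 0), (.ofNat 0, .ofNat 0), (.ofNat 0, .ofNat 0), (.ofNat 0, .ofNat 0), (.ofNat 0, .ofNat 0), (.ofNat 0, .ofNat 0), (.ofNat 0, .ofNat 0), (.ofNat 0, .ofNat 0), (.ofNat 0, .ofNat 0), (.ofNat 0, .ofNat 0)], [(.ofNat 0, .ofNat 0), (.ofNat 0, .ofNat 0), (.ofNat 0, .ofNat 0), (.ofNat 1, .ofNat 0), (.ofNat 0, .ofNat 0), (.ofNat 0, .ofNat 0), (.ofNat 0, .ofNat 0), (.ofNat 0, .ofNat 0), (.ofNat 0, .ofNat 0), (.ofNat 0, .ofNat 0), (.ofNat 0, .ofNat 0), (.ofNat 0, .ofNat 0), (.ofNat 0, .ofNat 0), (.ofNat 0, .ofNat 0)], [(.ofNat 0, .ofNat 0), (.ofNat 0, .ofNat 0), (.ofNat 0, .ofNat 0), (.ofNat 0, .ofNat 0), (.ofNat 1, .ofNat 0), (.ofNat 0, .ofNat 0), (.ofNat 0, .ofNat 0), (.ofNat 0, .ofNat 0), (.ofNat 0, .ofNat 0), (.ofNat 0, .ofNat 0), (.ofNat 0, .ofNat 0), (.ofNat 0, .ofNat 0), (.ofNat 0, .ofNat 0), (.ofNat 0, .ofNat 0)], [(.ofNat 0, .ofNat 0),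 (.ofNat 0, .ofNat 0), (.ofNat 0, .ofNat 0), (.ofNat 0, .ofNat 0), (.ofNat 0, .ofNat 0), (.ofNat 1, .ofNat 0), (.ofNat 0, .ofNat 0), (.ofNat 0, .ofNat 0), (.ofNat 0, .ofNat 0), (.ofNat 0, .ofNat 0), (.ofNat 0, .ofNat 0), (.ofNat 0, .ofNat 0), (.ofNat 0, .ofNat 0), (.ofNat 0, .ofNat 0)], [(.ofNat 0, .ofNat 0), (.ofNat 0, .ofNat 0), (.ofNat 0, .ofNat 0), (.ofNat 0, .ofNat 0), (.ofNat 0, .ofNat 0), (.ofNat 0, .ofNat 0), (.ofNat 1, .ofNat 0), (.ofNat 0, .ofNat 0), (.ofNat 0, .ofNat 0), (.ofNat 0, .ofNat 0), (.ofNat 0, .ofNat 0), (.ofNat 0, .ofNat 0), (.ofNat 0, .ofNat 0), (.ofNat 0, .ofNat 0)], [(.ofNat 0, .ofNat 0), (.ofNat 0, .ofNat 0), (.ofNat 0, .ofNat 0), (.ofNat 0, .ofNat 0), (.ofNat 0, .ofNat 0), (.ofNat 0, .ofNat 0), (.ofNat 0, .ofNat 0), (.ofNat 1, .ofNat 0), (.ofNat 0, .ofNat 0), (.ofNat 0, .ofNat 0), (.ofNat 0, .ofNat 0), (.ofNat 0, .ofNat 0), (.ofNat 0, .ofNat 0), (.ofNat 0, .ofNat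 0)], [(.ofNat 0, .ofNat 0), (.ofNat 0, .ofNat 0), (.ofNat 0, .ofNat 0), (.ofNat 0, .ofNat 0), (.ofNat 0, .ofNat 0), (.ofNat 0, .ofNat 0), (.ofNat 0, .ofNat 0), (.ofNat 0, .ofNat 0), (.ofNat 1, .ofNat 0), (.ofNat 0, .ofNat 0), (.ofNat 0, .ofNat 0), (.ofNat 0, .ofNat 0), (.ofNat 0, .ofNat 0), (.ofNat 0, .ofNat 0)], [(.ofNat 0, .ofNat 0), (.ofNat 0, .ofNat 0), (.ofNat 0, .ofNat 0), (.ofNat 0, .ofNat 0), (.ofNat 0, .ofNat 0), (.ofNat 0, .ofNat 0), (.ofNat 0, .ofNat 0), (.ofNat 0, .ofNat 0), (.ofNat 0, .ofNat 0), (.ofNat 1, .ofNat 0), (.ofNat 0, .ofNat 0), (.ofNat 0, .ofNat 0), (.ofNat 0, .ofNat 0), (.ofNat 0, .ofNat 0)], [(.ofNat 0, .ofNat 0), (.ofNat 0, .ofNat 0), (.ofNat 0, .ofNat 0), (.ofNat 0, .ofNat 0), (.ofNat 0, .ofNat 0), (.ofNat 0, .ofNat 0), (.ofNat 0, .ofNat 0), (.ofNat 0, .ofNat 0), (.ofNat 0, .ofNat 0), (.ofNat 0, .ofNat 0), (.ofNat 1, .ofNat 0), (.ofNat 0, .ofNat 0), (.ofNat 0,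 .ofNat 0), (.ofNat 0, .ofNat 0)], [(.ofNat 0, .ofNat 0), (.ofNat 0, .ofNat 0), (.ofNat 0, .ofNat 0), (.ofNat 0, .ofNat 0), (.ofNat 0, .ofNat 0), (.ofNat 0, .ofNat 0), (.ofNat 0, .ofNat 0), (.ofNat 0, .ofNat 0), (.ofNat 0, .ofNat 0), (.ofNat 0, .ofNat 0), (.ofNat 0, .ofNat 0), (.ofNat 1, .ofNat 0), (.ofNat 0, .ofNat 0), (.ofNat 0, .ofNat 0)], [(.ofNat 0, .ofNat 0), (.ofNat 0, .ofNat 0), (.ofNat 0, .ofNat 0), (.ofNat 0, .ofNat 0), (.ofNat 0, .ofNat 0), (.ofNat 0, .ofNat 0), (.ofNat 0, .ofNat 0), (.ofNat 0, .ofNat 0), (.ofNat 0, .ofNat 0), (.ofNat 0, .ofNat 0), (.ofNat 0, .ofNat 0), (.ofNat 0, .ofNat 0), (.ofNat 1, .ofNat 0), (.ofNat 0, .ofNat 0)], [(.ofNat 0, .ofNat 0), (.ofNat 0, .ofNat 0), (.ofNat 0, .ofNat 0), (.ofNat 0, .ofNat 0), (.ofNat 0, .ofNat 0), (.ofNat 0, .ofNat 0), (.ofNat 0, .ofNat 0), (.ofNat 0, .ofNat 0), (.ofNat 0, .ofNat 0), (.ofNat 0, .ofNat 0), (.ofNat 0, .ofNat 0), (.ofNat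 0, .ofNat 0), (.ofNat 0, .ofNat 0), (.ofNat 1, .ofNat 0)]], [[(.ofNat 1, .ofNat 0), (.negSucc 12, .ofNat 0), (.ofNat 78, .ofNat 0), (.negSucc 285, .ofNat 0), (.ofNat 715, .ofNat 0), (.negSucc 1286, .ofNat 0), (.ofNat 1716, .ofNat 0), (.negSucc 1715, .ofNat 0), (.ofNat 1287, .ofNat 0), (.negSucc 714, .ofNat 0), (.ofNat 286, .ofNat 0), (.negSucc 77, .ofNat 0), (.ofNat 13, .ofNat 0), (.negSucc 0, .ofNat 0)], [(.ofNat 1, .ofNat 0), (.negSucc 11, .ofNat 0), (.ofNat 66, .ofNat 0), (.negSucc 219, .ofNat 0), (.ofNat 495, .ofNat 0), (.negSucc 791, .ofNat 0), (.ofNat 924, .ofNat 0), (.negSucc 791, .ofNat 0), (.ofNat 495, .ofNat 0), (.negSucc 219, .ofNat 0), (.ofNat 66, .ofNat 0), (.negSucc 11, .ofNat 0), (.ofNat 1, .ofNat 0), (.ofNat 0, .ofNat 0)], [(.ofNat 1, .ofNat 0), (.negSucc 10, .ofNat 0), (.ofNat 55, .ofNat 0), (.negSucc 164, .ofNat 0), (.ofNat 330, .ofNat 0), (.negSucc 461, .ofNat 0), (.ofNat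 462, .ofNat 0), (.negSucc 329, .ofNat 0), (.ofNat 165, .ofNat 0), (.negSucc 54, .ofNat 0), (.ofNat 11, .ofNat 0), (.negSucc 0, .ofNat 0), (.ofNat 0, .ofNat 0), (.ofNat 0, .ofNat 0)], [(.ofNat 1, .ofNat 0), (.negSucc 9, .ofNat 0), (.ofNat 45, .ofNat 0), (.negSucc 119, .ofNat 0), (.ofNat 210, .ofNat 0), (.negSucc 251, .ofNat 0), (.ofNat 210, .ofNat 0), (.negSucc 119, .ofNat 0), (.ofNat 45, .ofNat 0), (.negSucc 9, .ofNat 0), (.ofNat 1, .ofNat 0), (.ofNat 0, .ofNat 0), (.ofNat 0, .ofNat 0), (.ofNat 0, .ofNat 0)], [(.ofNat 1, .ofNat 0), (.negSucc 8, .ofNat 0), (.ofNat 36, .ofNat 0), (.negSucc 83, .ofNat 0), (.ofNat 126, .ofNat 0), (.negSucc 125, .ofNat 0), (.ofNat 84, .ofNat 0), (.negSucc 35, .ofNat 0), (.ofNat 9, .ofNat 0), (.negSucc 0, .ofNat 0), (.ofNat 0, .ofNat 0), (.ofNat 0, .ofNat 0), (.ofNat 0, .ofNat 0), (.ofNat 0, .ofNat 0)], [(.ofNat 1, .ofNat 0), (.negSucc 7, .ofNat 0), (.ofNat 28,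 .ofNat 0), (.negSucc 55, .ofNat 0), (.ofNat 70, .ofNat 0), (.negSucc 55, .ofNat 0), (.ofNat 28, .ofNat 0), (.negSucc 7, .ofNat 0), (.ofNat 1, .ofNat 0), (.ofNat 0, .ofNat 0), (.ofNat 0, .ofNat 0), (.ofNat 0, .ofNat 0), (.ofNat 0, .ofNat 0), (.ofNat 0, .ofNat 0)], [(.ofNat 1, .ofNat 0), (.negSucc 6, .ofNat 0), (.ofNat 21, .ofNat 0), (.negSucc 34, .ofNat 0), (.ofNat 35, .ofNat 0), (.negSucc 20, .ofNat 0), (.ofNat 7, .ofNat 0), (.negSucc 0, .ofNat 0), (.ofNat 0, .ofNat 0), (.ofNat 0, .ofNat 0), (.ofNat 0, .ofNat 0), (.ofNat 0, .ofNat 0), (.ofNat 0, .ofNat 0), (.ofNat 0, .ofNat 0)], [(.ofNat 1, .ofNat 0), (.negSucc 5, .ofNat 0), (.ofNat 15, .ofNat 0), (.negSucc 19, .ofNat 0), (.ofNat 15, .ofNat 0), (.negSucc 5, .ofNat 0), (.ofNat 1, .ofNat 0), (.ofNat 0, .ofNat 0), (.ofNat 0, .ofNat 0), (.ofNat 0, .ofNat 0), (.ofNat 0, .ofNat 0), (.ofNat 0, .ofNat 0), (.ofNat 0, .ofNat 0), (.ofNat 0, .ofNat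 0)], [(.ofNat 1, .ofNat 0), (.negSucc 4, .ofNat 0), (.ofNat 10, .ofNat 0), (.negSucc 9, .ofNat 0), (.ofNat 5, .ofNat 0), (.negSucc 0, .ofNat 0), (.ofNat 0, .ofNat 0), (.ofNat 0, .ofNat 0), (.ofNat 0, .ofNat 0), (.ofNat 0, .ofNat 0), (.ofNat 0, .ofNat 0), (.ofNat 0, .ofNat 0), (.ofNat 0, .ofNat 0), (.ofNat 0, .ofNat 0)], [(.ofNat 1, .ofNat 0), (.negSucc 3, .ofNat 0), (.ofNat 6, .ofNat 0), (.negSucc 3, .ofNat 0), (.ofNat 1, .ofNat 0), (.ofNat 0, .ofNat 0), (.ofNat 0, .ofNat 0), (.ofNat 0, .ofNat 0), (.ofNat 0, .ofNat 0), (.ofNat 0, .ofNat 0), (.ofNat 0, .ofNat 0), (.ofNat 0, .ofNat 0), (.ofNat 0, .ofNat 0), (.ofNat 0, .ofNat 0)], [(.ofNat 1, .ofNat 0), (.negSucc 2, .ofNat 0), (.ofNat 3, .ofNat 0), (.negSucc 0, .ofNat 0), (.ofNat 0, .ofNat 0), (.ofNat 0, .ofNat 0), (.ofNat 0, .ofNat 0), (.ofNat 0, .ofNat 0), (.ofNat 0, .ofNat 0), (.ofNat 0, .ofNat 0), (.ofNat 0, .ofNat 0), (.ofNat 0, .ofNat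 0), (.ofNat 0, .ofNat 0), (.ofNat 0, .ofNat 0)], [(.ofNat 1, .ofNat 0), (.negSucc 1, .ofNat 0), (.ofNat 1, .ofNat 0), (.ofNat 0, .ofNat 0), (.ofNat 0, .ofNat 0), (.ofNat 0, .ofNat 0), (.ofNat 0, .ofNat 0), (.ofNat 0, .ofNat 0), (.ofNat 0, .ofNat 0), (.ofNat 0, .ofNat 0), (.ofNat 0, .ofNat 0), (.ofNat 0, .ofNat 0), (.ofNat 0, .ofNat 0), (.ofNat 0, .ofNat 0)], [(.ofNat 1, .ofNat 0), (.negSucc 0, .ofNat 0), (.ofNat 0, .ofNat 0), (.ofNat 0, .ofNat 0), (.ofNat 0, .ofNat 0), (.ofNat 0, .ofNat 0), (.ofNat 0, .ofNat 0), (.ofNat 0, .ofNat 0), (.ofNat 0, .ofNat 0), (.ofNat 0, .ofNat 0), (.ofNat 0, .ofNat 0), (.ofNat 0, .ofNat 0), (.ofNat 0, .ofNat 0), (.ofNat 0, .ofNat 0)], [(.ofNat 1, .ofNat 0), (.ofNat 0, .ofNat 0), (.ofNat 0, .ofNat 0), (.ofNat 0, .ofNat 0), (.ofNat 0, .ofNat 0), (.ofNat 0, .ofNat 0), (.ofNat 0, .ofNat 0), (.ofNat 0, .ofNat 0), (.ofNat 0, .ofNat 0), (.ofNat 0, .ofNat 0), (.ofNat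 0, .ofNat 0), (.ofNat 0, .ofNat 0), (.ofNat 0, .ofNat 0), (.ofNat 0, .ofNat 0)]], [[(.ofNat 0, .ofNat 0), (.ofNat 0, .ofNat 0), (.ofNat 0, .ofNat 0), (.ofNat 0, .ofNat 0), (.ofNat 0, .ofNat 0), (.ofNat 0, .ofNat 0), (.ofNat 0, .ofNat 0), (.ofNat 0, .ofNat 0), (.ofNat 0, .ofNat 0), (.ofNat 0, .ofNat 0), (.ofNat 0, .ofNat 0), (.ofNat 0, .ofNat 0), (.ofNat 0, .ofNat 0), (.negSucc 0, .ofNat 0)], [(.ofNat 0, .ofNat 0), (.ofNat 0, .ofNat 0), (.ofNat 0, .ofNat 0), (.ofNat 0, .ofNat 0), (.ofNat 0, .ofNat 0), (.ofNat 0, .ofNat 0), (.ofNat 0, .ofNat 0), (.ofNat 0, .ofNat 0), (.ofNat 0, .ofNat 0), (.ofNat 0, .ofNat 0), (.ofNat 0, .ofNat 0), (.ofNat 0, .ofNat 0), (.ofNat 1, .ofNat 0), (.negSucc 0, .ofNat 0)], [(.ofNat 0, .ofNat 0), (.ofNat 0, .ofNat 0), (.ofNat 0, .ofNat 0), (.ofNat 0, .ofNat 0), (.ofNat 0, .ofNat 0), (.ofNat 0, .ofNat 0), (.ofNat 0, .ofNat 0), (.ofNat 0, .ofNat 0), (.ofNat 0, .ofNat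 0), (.ofNat 0, .ofNat 0), (.ofNat 0, .ofNat 0), (.negSucc 0, .ofNat 0), (.ofNat 2, .ofNat 0), (.negSucc 0, .ofNat 0)], [(.ofNat 0, .ofNat 0), (.ofNat 0, .ofNat 0), (.ofNat 0, .ofNat 0), (.ofNat 0, .ofNat 0), (.ofNat 0, .ofNat 0), (.ofNat 0, .ofNat 0), (.ofNat 0, .ofNat 0), (.ofNat 0, .ofNat 0), (.ofNat 0, .ofNat 0), (.ofNat 0, .ofNat 0), (.ofNat 1, .ofNat 0), (.negSucc 2, .ofNat 0), (.ofNat 3, .ofNat 0), (.negSucc 0, .ofNat 0)], [(.ofNat 0, .ofNat 0), (.ofNat 0, .ofNat 0), (.ofNat 0, .ofNat 0), (.ofNat 0, .ofNat 0), (.ofNat 0, .ofNat 0), (.ofNat 0, .ofNat 0), (.ofNat 0, .ofNat 0), (.ofNat 0, .ofNat 0), (.ofNat 0, .ofNat 0), (.negSucc 0, .ofNat 0), (.ofNat 4, .ofNat 0), (.negSucc 5, .ofNat 0), (.ofNat 4, .ofNat 0), (.negSucc 0, .ofNat 0)], [(.ofNat 0, .ofNat 0), (.ofNat 0, .ofNat 0), (.ofNat 0, .ofNat 0), (.ofNat 0, .ofNat 0), (.ofNat 0, .ofNat 0), (.ofNat 0, .ofNat 0), (.ofNat 0, .ofNat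 0), (.ofNat 0, .ofNat 0), (.ofNat 1, .ofNat 0), (.negSucc 4, .ofNat 0), (.ofNat 10, .ofNat 0), (.negSucc 9, .ofNat 0), (.ofNat 5, .ofNat 0), (.negSucc 0, .ofNat 0)], [(.ofNat 0, .ofNat 0), (.ofNat 0, .ofNat 0), (.ofNat 0, .ofNat 0), (.ofNat 0, .ofNat 0), (.ofNat 0, .ofNat 0), (.ofNat 0, .ofNat 0), (.ofNat 0, .ofNat 0), (.negSucc 0, .ofNat 0), (.ofNat 6, .ofNat 0), (.negSucc 14, .ofNat 0), (.ofNat 20, .ofNat 0), (.negSucc 14, .ofNat 0), (.ofNat 6, .ofNat 0), (.negSucc 0, .ofNat 0)], [(.ofNat 0, .ofNat 0), (.ofNat 0, .ofNat 0), (.ofNat 0, .ofNat 0), (.ofNat 0, .ofNat 0), (.ofNat 0, .ofNat 0), (.ofNat 0, .ofNat 0), (.ofNat 1, .ofNat 0), (.negSucc 6, .ofNat 0), (.ofNat 21, .ofNat 0), (.negSucc 34, .ofNat 0), (.ofNat 35, .ofNat 0), (.negSucc 20, .ofNat 0), (.ofNat 7, .ofNat 0), (.negSucc 0, .ofNat 0)], [(.ofNat 0, .ofNat 0), (.ofNat 0, .ofNat 0), (.ofNat 0, .ofNat 0), (.ofNat 0, .ofNat 0), (.ofNat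 0, .ofNat 0), (.negSucc 0, .ofNat 0), (.ofNat 8, .ofNat 0), (.negSucc 27, .ofNat 0), (.ofNat 56, .ofNat 0), (.negSucc 69, .ofNat 0), (.ofNat 56, .ofNat 0), (.negSucc 27, .ofNat 0), (.ofNat 8, .ofNat 0), (.negSucc 0, .ofNat 0)], [(.ofNat 0, .ofNat 0), (.ofNat 0, .ofNat 0), (.ofNat 0, .ofNat 0), (.ofNat 0, .ofNat 0), (.ofNat 1, .ofNat 0), (.negSucc 8, .ofNat 0), (.ofNat 36, .ofNat 0), (.negSucc 83, .ofNat 0), (.ofNat 126, .ofNat 0), (.negSucc 125, .ofNat 0), (.ofNat 84, .ofNat 0), (.negSucc 35, .ofNat 0), (.ofNat 9, .ofNat 0), (.negSucc 0, .ofNat 0)], [(.ofNat 0, .ofNat 0), (.ofNat 0, .ofNat 0), (.ofNat 0, .ofNat 0), (.negSucc 0, .ofNat 0), (.ofNat 10, .ofNat 0), (.negSucc 44, .ofNat 0), (.ofNat 120, .ofNat 0), (.negSucc 209, .ofNat 0), (.ofNat 252, .ofNat 0), (.negSucc 209, .ofNat 0), (.ofNat 120, .ofNat 0), (.negSucc 44, .ofNat 0), (.ofNat 10, .ofNat 0), (.negSucc 0, .ofNat 0)], [(.ofNat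 0, .ofNat 0), (.ofNat 0, .ofNat 0), (.ofNat 1, .ofNat 0), (.negSucc 10, .ofNat 0), (.ofNat 55, .ofNat 0), (.negSucc 164, .ofNat 0), (.ofNat 330, .ofNat 0), (.negSucc 461, .ofNat 0), (.ofNat 462, .ofNat 0), (.negSucc 329, .ofNat 0), (.ofNat 165, .ofNat 0), (.negSucc 54, .ofNat 0), (.ofNat 11, .ofNat 0), (.negSucc 0, .ofNat 0)], [(.ofNat 0, .ofNat 0), (.negSucc 0, .ofNat 0), (.ofNat 12, .ofNat 0), (.negSucc 65, .ofNat 0), (.ofNat 220, .ofNat 0), (.negSucc 494, .ofNat 0), (.ofNat 792, .ofNat 0), (.negSucc 923, .ofNat 0), (.ofNat 792, .ofNat 0), (.negSucc 494, .ofNat 0), (.ofNat 220, .ofNat 0), (.negSucc 65, .ofNat 0), (.ofNat 12, .ofNat 0), (.negSucc 0, .ofNat 0)], [(.ofNat 1, .ofNat 0), (.negSucc 12, .ofNat 0), (.ofNat 78, .ofNat 0), (.negSucc 285, .ofNat 0), (.ofNat 715, .ofNat 0), (.negSucc 1286, .ofNat 0), (.ofNat 1716, .ofNat 0), (.negSucc 1715, .ofNat 0), (.ofNat 1287, .ofNat 0), (.negSucc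 714, .ofNat 0), (.ofNat 286, .ofNat 0), (.negSucc 77, .ofNat 0), (.ofNat 13, .ofNat 0), (.negSucc 0, .ofNat 0)]]]
  tab1 := [[[(.ofNat 1, .ofNat 0), (.ofNat 0, .ofNat 0), (.ofNat 0, .ofNat 0), (.ofNat 0, .ofNat 0), (.ofNat 0, .ofNat 0), (.ofNat 0, .ofNat 0), (.ofNat 0, .ofNat 0), (.ofNat 0, .ofNat 0), (.ofNat 0, .ofNat 0), (.ofNat 0, .ofNat 0), (.ofNat 0, .ofNat 0), (.ofNat 0, .ofNat 0), (.ofNat 0, .ofNat 0), (.ofNat 0, .ofNat 0)], [(.ofNat 0, .ofNat 0), (.ofNat 1, .ofNat 0), (.ofNat 0, .ofNat 0), (.ofNat 0, .ofNat 0), (.ofNat 0, .ofNat 0), (.ofNat 0, .ofNat 0), (.ofNat 0, .ofNat 0), (.ofNat 0, .ofNat 0), (.ofNat 0, .ofNat 0), (.ofNat 0, .ofNat 0), (.ofNat 0, .ofNat 0), (.ofNat 0, .ofNat 0), (.ofNat 0, .ofNat 0), (.ofNat 0, .ofNat 0)], [(.ofNat 0, .ofNat 0), (.ofNat 0, .ofNat 0), (.ofNat 1, .ofNat 0), (.ofNat 0, .ofNat 0), (.ofNat 0, .ofNat 0), (.ofNat 0, .ofNat 0), (.ofNat 0, .ofNat 0),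 (.ofNat 0, .ofNat 0), (.ofNat 0, .ofNat 0), (.ofNat 0, .ofNat 0), (.ofNat 0, .ofNat 0), (.ofNat 0, .ofNat 0), (.ofNat 0, .ofNat 0), (.ofNat 0, .ofNat 0)], [(.ofNat 0, .ofNat 0), (.ofNat 0, .ofNat 0), (.ofNat 0, .ofNat 0), (.ofNat 1, .ofNat 0), (.ofNat 0, .ofNat 0), (.ofNat 0, .ofNat 0), (.ofNat 0, .ofNat 0), (.ofNat 0, .ofNat 0), (.ofNat 0, .ofNat 0), (.ofNat 0, .ofNat 0), (.ofNat 0, .ofNat 0), (.ofNat 0, .ofNat 0), (.ofNat 0, .ofNat 0), (.ofNat 0, .ofNat 0)], [(.ofNat 0, .ofNat 0), (.ofNat 0, .ofNat 0), (.ofNat 0, .ofNat 0), (.ofNat 0, .ofNat 0), (.ofNat 1, .ofNat 0), (.ofNat 0, .ofNat 0), (.ofNat 0, .ofNat 0), (.ofNat 0, .ofNat 0), (.ofNat 0, .ofNat 0), (.ofNat 0, .ofNat 0), (.ofNat 0, .ofNat 0), (.ofNat 0, .ofNat 0), (.ofNat 0, .ofNat 0), (.ofNat 0, .ofNat 0)], [(.ofNat 0, .ofNat 0), (.ofNat 0, .ofNat 0), (.ofNat 0, .ofNat 0), (.ofNat 0, .ofNat 0), (.ofNat 0, .ofNat 0), (.ofNat 1, .ofNat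 0), (.ofNat 0, .ofNat 0), (.ofNat 0, .ofNat 0), (.ofNat 0, .ofNat 0), (.ofNat 0, .ofNat 0), (.ofNat 0, .ofNat 0), (.ofNat 0, .ofNat 0), (.ofNat 0, .ofNat 0), (.ofNat 0, .ofNat 0)], [(.ofNat 0, .ofNat 0), (.ofNat 0, .ofNat 0), (.ofNat 0, .ofNat 0), (.ofNat 0, .ofNat 0), (.ofNat 0, .ofNat 0), (.ofNat 0, .ofNat 0), (.ofNat 1, .ofNat 0), (.ofNat 0, .ofNat 0), (.ofNat 0, .ofNat 0), (.ofNat 0, .ofNat 0), (.ofNat 0, .ofNat 0), (.ofNat 0, .ofNat 0), (.ofNat 0, .ofNat 0), (.ofNat 0, .ofNat 0)], [(.ofNat 0, .ofNat 0), (.ofNat 0, .ofNat 0), (.ofNat 0, .ofNat 0), (.ofNat 0, .ofNat 0), (.ofNat 0, .ofNat 0), (.ofNat 0, .ofNat 0), (.ofNat 0, .ofNat 0), (.ofNat 1, .ofNat 0), (.ofNat 0, .ofNat 0), (.ofNat 0, .ofNat 0), (.ofNat 0, .ofNat 0), (.ofNat 0, .ofNat 0), (.ofNat 0, .ofNat 0), (.ofNat 0, .ofNat 0)], [(.ofNat 0, .ofNat 0), (.ofNat 0, .ofNat 0), (.ofNat 0, .ofNat 0), (.ofNat 0, .ofNat 0), (.ofNat 0,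 .ofNat 0), (.ofNat 0, .ofNat 0), (.ofNat 0, .ofNat 0), (.ofNat 0, .ofNat 0), (.ofNat 1, .ofNat 0), (.ofNat 0, .ofNat 0), (.ofNat 0, .ofNat 0), (.ofNat 0, .ofNat 0), (.ofNat 0, .ofNat 0), (.ofNat 0, .ofNat 0)], [(.ofNat 0, .ofNat 0), (.ofNat 0, .ofNat 0), (.ofNat 0, .ofNat 0), (.ofNat 0, .ofNat 0), (.ofNat 0, .ofNat 0), (.ofNat 0, .ofNat 0), (.ofNat 0, .ofNat 0), (.ofNat 0, .ofNat 0), (.ofNat 0, .ofNat 0), (.ofNat 1, .ofNat 0), (.ofNat 0, .ofNat 0), (.ofNat 0, .ofNat 0), (.ofNat 0, .ofNat 0), (.ofNat 0, .ofNat 0)], [(.ofNat 0, .ofNat 0), (.ofNat 0, .ofNat 0), (.ofNat 0, .ofNat 0), (.ofNat 0, .ofNat 0), (.ofNat 0, .ofNat 0), (.ofNat 0, .ofNat 0), (.ofNat 0, .ofNat 0), (.ofNat 0, .ofNat 0), (.ofNat 0, .ofNat 0), (.ofNat 0, .ofNat 0), (.ofNat 1, .ofNat 0), (.ofNat 0, .ofNat 0), (.ofNat 0, .ofNat 0), (.ofNat 0, .ofNat 0)], [(.ofNat 0, .ofNat 0), (.ofNat 0, .ofNat 0), (.ofNat 0, .ofNat 0), (.ofNat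 0, .ofNat 0), (.ofNat 0, .ofNat 0), (.ofNat 0, .ofNat 0), (.ofNat 0, .ofNat 0), (.ofNat 0, .ofNat 0), (.ofNat 0, .ofNat 0), (.ofNat 0, .ofNat 0), (.ofNat 0, .ofNat 0), (.ofNat 1, .ofNat 0), (.ofNat 0, .ofNat 0), (.ofNat 0, .ofNat 0)], [(.ofNat 0, .ofNat 0), (.ofNat 0, .ofNat 0), (.ofNat 0, .ofNat 0), (.ofNat 0, .ofNat 0), (.ofNat 0, .ofNat 0), (.ofNat 0, .ofNat 0), (.ofNat 0, .ofNat 0), (.ofNat 0, .ofNat 0), (.ofNat 0, .ofNat 0), (.ofNat 0, .ofNat 0), (.ofNat 0, .ofNat 0), (.ofNat 0, .ofNat 0), (.ofNat 1, .ofNat 0), (.ofNat 0, .ofNat 0)], [(.ofNat 0, .ofNat 0), (.ofNat 0, .ofNat 0), (.ofNat 0, .ofNat 0), (.ofNat 0, .ofNat 0), (.ofNat 0, .ofNat 0), (.ofNat 0, .ofNat 0), (.ofNat 0, .ofNat 0), (.ofNat 0, .ofNat 0), (.ofNat 0, .ofNat 0), (.ofNat 0, .ofNat 0), (.ofNat 0, .ofNat 0), (.ofNat 0, .ofNat 0), (.ofNat 0, .ofNat 0), (.ofNat 1, .ofNat 0)]], [[(.negSucc 89, .negSucc 0), (.negSucc 597,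 .ofNat 585), (.ofNat 1716, .ofNat 1794), (.ofNat 9724, .negSucc 3145), (.ofNat 4290, .negSucc 12154), (.negSucc 18017, .negSucc 3860), (.negSucc 17159, .ofNat 12012), (.ofNat 3432, .ofNat 8580), (.ofNat 7722, .negSucc 1286), (.ofNat 1430, .negSucc 2144), (.negSucc 571, .negSucc 285), (.negSucc 155, .ofNat 78), (.ofNat 0, .ofNat 13), (.ofNat 1, .ofNat 0)], [(.negSucc 45, .ofNat 45), (.ofNat 264, .ofNat 276), (.ofNat 2244, .negSucc 725), (.ofNat 1320, .negSucc 3739), (.negSucc 6929, .negSucc 1484), (.negSucc 7919, .ofNat 5544), (.ofNat 1848, .ofNat 4620), (.ofNat 4752, .negSucc 791), (.ofNat 990, .negSucc 1484), (.negSucc 439, .negSucc 219), (.negSucc 131, .ofNat 66), (.ofNat 0, .ofNat 12), (.ofNat 1, .ofNat 0), (.ofNat 0, .ofNat 0)], [(.ofNat 22, .ofNat 23), (.ofNat 374, .negSucc 120), (.ofNat 330, .negSucc 934), (.negSucc 2309, .negSucc 494), (.negSucc 3299, .ofNat 2310), (.ofNat 924, .ofNat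 2310), (.ofNat 2772, .negSucc 461), (.ofNat 660, .negSucc 989), (.negSucc 329, .negSucc 164), (.negSucc 109, .ofNat 55), (.ofNat 0, .ofNat 11), (.ofNat 1, .ofNat 0), (.ofNat 0, .ofNat 0), (.ofNat 0, .ofNat 0)], [(.ofNat 34, .negSucc 10), (.ofNat 60, .negSucc 169), (.negSucc 629, .negSucc 134), (.negSucc 1199, .ofNat 840), (.ofNat 420, .ofNat 1050), (.ofNat 1512, .negSucc 251), (.ofNat 420, .negSucc 629), (.negSucc 239, .negSucc 119), (.negSucc 89, .ofNat 45), (.ofNat 0, .ofNat 10), (.ofNat 1, .ofNat 0), (.ofNat 0, .ofNat 0), (.ofNat 0, .ofNat 0), (.ofNat 0, .ofNat 0)], [(.ofNat 6, .negSucc 16), (.negSucc 125, .negSucc 26), (.negSucc 359, .ofNat 252), (.ofNat 168, .ofNat 420), (.ofNat 756, .negSucc 125), (.ofNat 252, .negSucc 377), (.negSucc 167, .negSucc 83), (.negSucc 71, .ofNat 36), (.ofNat 0, .ofNat 9), (.ofNat 1, .ofNat 0), (.ofNat 0, .ofNat 0), (.ofNat 0, .ofNat 0), (.ofNat 0, .ofNat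 0), (.ofNat 0, .ofNat 0)], [(.negSucc 13, .negSucc 2), (.negSucc 79, .ofNat 56), (.ofNat 56, .ofNat 140), (.ofNat 336, .negSucc 55), (.ofNat 140, .negSucc 209), (.negSucc 111, .negSucc 55), (.negSucc 55, .ofNat 28), (.ofNat 0, .ofNat 8), (.ofNat 1, .ofNat 0), (.ofNat 0, .ofNat 0), (.ofNat 0, .ofNat 0), (.ofNat 0, .ofNat 0), (.ofNat 0, .ofNat 0), (.ofNat 0, .ofNat 0)], [(.negSucc 9, .ofNat 7), (.ofNat 14, .ofNat 35), (.ofNat 126, .negSucc 20), (.ofNat 70, .negSucc 104), (.negSucc 69, .negSucc 34), (.negSucc 41, .ofNat 21), (.ofNat 0, .ofNat 7), (.ofNat 1, .ofNat 0), (.ofNat 0, .ofNat 0), (.ofNat 0, .ofNat 0), (.ofNat 0, .ofNat 0), (.ofNat 0, .ofNat 0), (.ofNat 0, .ofNat 0), (.ofNat 0, .ofNat 0)], [(.ofNat 2, .ofNat 5), (.ofNat 36, .negSucc 5), (.ofNat 30, .negSucc 44), (.negSucc 39, .negSucc 19), (.negSucc 29, .ofNat 15), (.ofNat 0, .ofNat 6), (.ofNat 1, .ofNat 0), (.ofNat 0, .ofNat 0), (.ofNat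 0, .ofNat 0), (.ofNat 0, .ofNat 0), (.ofNat 0, .ofNat 0), (.ofNat 0, .ofNat 0), (.ofNat 0, .ofNat 0), (.ofNat 0, .ofNat 0)], [(.ofNat 6, .negSucc 0), (.ofNat 10, .negSucc 14), (.negSucc 19, .negSucc 9), (.negSucc 19, .ofNat 10), (.ofNat 0, .ofNat 5), (.ofNat 1, .ofNat 0), (.ofNat 0, .ofNat 0), (.ofNat 0, .ofNat 0), (.ofNat 0, .ofNat 0), (.ofNat 0, .ofNat 0), (.ofNat 0, .ofNat 0), (.ofNat 0, .ofNat 0), (.ofNat 0, .ofNat 0), (.ofNat 0, .ofNat 0)], [(.ofNat 2, .negSucc 2), (.negSucc 7, .negSucc 3), (.negSucc 11, .ofNat 6), (.ofNat 0, .ofNat 4), (.ofNat 1, .ofNat 0), (.ofNat 0, .ofNat 0), (.ofNat 0, .ofNat 0), (.ofNat 0, .ofNat 0), (.ofNat 0, .ofNat 0), (.ofNat 0, .ofNat 0), (.ofNat 0, .ofNat 0), (.ofNat 0, .ofNat 0), (.ofNat 0, .ofNat 0), (.ofNat 0, .ofNat 0)], [(.negSucc 1, .negSucc 0), (.negSucc 5, .ofNat 3), (.ofNat 0, .ofNat 3), (.ofNat 1, .ofNat 0), (.ofNat 0, .ofNat 0), (.ofNat 0, .ofNat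 0), (.ofNat 0, .ofNat 0), (.ofNat 0, .ofNat 0), (.ofNat 0, .ofNat 0), (.ofNat 0, .ofNat 0), (.ofNat 0, .ofNat 0), (.ofNat 0, .ofNat 0), (.ofNat 0, .ofNat 0), (.ofNat 0, .ofNat 0)], [(.negSucc 1, .ofNat 1), (.ofNat 0, .ofNat 2), (.ofNat 1, .ofNat 0), (.ofNat 0, .ofNat 0), (.ofNat 0, .ofNat 0), (.ofNat 0, .ofNat 0), (.ofNat 0, .ofNat 0), (.ofNat 0, .ofNat 0), (.ofNat 0, .ofNat 0), (.ofNat 0, .ofNat 0), (.ofNat 0, .ofNat 0), (.ofNat 0, .ofNat 0), (.ofNat 0, .ofNat 0), (.ofNat 0, .ofNat 0)], [(.ofNat 0, .ofNat 1), (.ofNat 1, .ofNat 0), (.ofNat 0, .ofNat 0), (.ofNat 0, .ofNat 0), (.ofNat 0, .ofNat 0), (.ofNat 0, .ofNat 0), (.ofNat 0, .ofNat 0), (.ofNat 0, .ofNat 0), (.ofNat 0, .ofNat 0), (.ofNat 0, .ofNat 0), (.ofNat 0, .ofNat 0), (.ofNat 0, .ofNat 0), (.ofNat 0, .ofNat 0), (.ofNat 0, .ofNat 0)], [(.ofNat 1, .ofNat 0), (.ofNat 0, .ofNat 0), (.ofNat 0, .ofNat 0), (.ofNat 0, .ofNat 0), (.ofNat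 0, .ofNat 0), (.ofNat 0, .ofNat 0), (.ofNat 0, .ofNat 0), (.ofNat 0, .ofNat 0), (.ofNat 0, .ofNat 0), (.ofNat 0, .ofNat 0), (.ofNat 0, .ofNat 0), (.ofNat 0, .ofNat 0), (.ofNat 0, .ofNat 0), (.ofNat 0, .ofNat 0)]], [[(.ofNat 1, .ofNat 0), (.ofNat 13, .negSucc 12), (.negSucc 77, .negSucc 77), (.negSucc 857, .ofNat 286), (.negSucc 714, .ofNat 2145), (.ofNat 6435, .ofNat 1287), (.ofNat 12012, .negSucc 8579), (.negSucc 5147, .negSucc 12011), (.negSucc 21878, .ofNat 3861), (.negSucc 7864, .ofNat 12155), (.ofNat 6578, .ofNat 3146), (.ofNat 3510, .negSucc 1793), (.negSucc 12, .negSucc 584), (.negSucc 90, .ofNat 1)], [(.ofNat 0, .ofNat 1), (.ofNat 25, .ofNat 0), (.ofNat 144, .negSucc 143), (.negSucc 505, .negSucc 505), (.negSucc 3629, .ofNat 1210), (.negSucc 2078, .ofNat 6237), (.ofNat 13200, .ofNat 2640), (.ofNat 17556, .negSucc 12539), (.negSucc 5345, .negSucc 12473), (.negSucc 15894, .ofNat 2805),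 (.negSucc 3871, .ofNat 5984), (.ofNat 2070, .ofNat 990), (.ofNat 630, .negSucc 321), (.negSucc 0, .negSucc 44)], [(.negSucc 1, .ofNat 1), (.ofNat 0, .ofNat 24), (.ofNat 265, .ofNat 0), (.ofNat 891, .negSucc 890), (.negSucc 2034, .negSucc 2034), (.negSucc 9998, .ofNat 3333), (.negSucc 4025, .ofNat 12078), (.ofNat 18150, .ofNat 3630), (.ofNat 17094, .negSucc 12209), (.negSucc 3629, .negSucc 8469), (.negSucc 7292, .ofNat 1287), (.negSucc 1132, .ofNat 1751), (.ofNat 345, .ofNat 165), (.ofNat 45, .negSucc 22)], [(.negSucc 1, .negSucc 0), (.negSucc 45, .ofNat 23), (.ofNat 0, .ofNat 243), (.ofNat 1561, .ofNat 0), (.ofNat 3400, .negSucc 3399), (.negSucc 5300, .negSucc 5300), (.negSucc 18251, .ofNat 6084), (.negSucc 5201, .ofNat 15606), (.ofNat 16560, .ofNat 3312), (.ofNat 10850, .negSucc 7749), (.negSucc 1553, .negSucc 3625), (.negSucc 1988, .ofNat 351), (.negSucc 175, .ofNat 272), (.ofNat 23, .ofNat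 11)], [(.ofNat 2, .negSucc 2), (.negSucc 43, .negSucc 21), (.negSucc 443, .ofNat 222), (.ofNat 0, .ofNat 1360), (.ofNat 5641, .ofNat 0), (.ofNat 8361, .negSucc 8360), (.negSucc 9107, .negSucc 9107), (.negSucc 22139, .ofNat 7380), (.negSucc 4445, .ofNat 13338), (.ofNat 9830, .ofNat 1966), (.ofNat 4340, .negSucc 3099), (.negSucc 395, .negSucc 923), (.negSucc 288, .ofNat 51), (.negSucc 10, .ofNat 17)], [(.ofNat 6, .negSucc 0), (.ofNat 42, .negSucc 62), (.negSucc 403, .negSucc 201), (.negSucc 2355, .ofNat 1178), (.ofNat 0, .ofNat 4645), (.ofNat 13073, .ofNat 0), (.ofNat 13504, .negSucc 13503), (.negSucc 10363, .negSucc 10363), (.negSucc 17723, .ofNat 5908), (.negSucc 2469, .ofNat 7410), (.ofNat 3680, .ofNat 736), (.ofNat 1036, .negSucc 739), (.negSucc 53, .negSucc 125), (.negSucc 16, .ofNat 3)], [(.ofNat 2, .ofNat 5), (.ofNat 120, .negSucc 19), (.ofNat 366, .negSucc 548), (.negSucc 2027, .negSucc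 1013), (.negSucc 7589, .ofNat 3795), (.ofNat 0, .ofNat 10128), (.ofNat 19825, .ofNat 0), (.ofNat 14407, .negSucc 14406), (.negSucc 7772, .negSucc 7772), (.negSucc 9224, .ofNat 3075), (.negSucc 866, .ofNat 2601), (.ofNat 825, .ofNat 165), (.ofNat 133, .negSucc 94), (.negSucc 2, .negSucc 6)], [(.negSucc 9, .ofNat 7), (.ofNat 38, .ofNat 95), (.ofNat 990, .negSucc 164), (.ofNat 1734, .negSucc 2600), (.negSucc 6149, .negSucc 3074), (.negSucc 15545, .ofNat 7773), (.ofNat 0, .ofNat 14407), (.ofNat 19825, .ofNat 0), (.ofNat 10128, .negSucc 10127), (.negSucc 3794, .negSucc 3794), (.negSucc 3041, .ofNat 1014), (.negSucc 182, .ofNat 549), (.ofNat 100, .ofNat 20), (.ofNat 7, .negSucc 4)], [(.negSucc 13, .negSucc 2), (.negSucc 179, .ofNat 126), (.ofNat 296, .ofNat 740), (.ofNat 4416, .negSucc 735), (.ofNat 4940, .negSucc 7409), (.negSucc 11815, .negSucc 5907), (.negSucc 20727, .ofNat 10364), (.ofNat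 0, .ofNat 13504), (.ofNat 13073, .ofNat 0), (.ofNat 4645, .negSucc 4644), (.negSucc 1177, .negSucc 1177), (.negSucc 605, .ofNat 202), (.negSucc 20, .ofNat 63), (.ofNat 5, .ofNat 1)], [(.ofNat 6, .negSucc 16), (.negSucc 237, .negSucc 50), (.negSucc 1319, .ofNat 924), (.ofNat 1240, .ofNat 3100), (.ofNat 11796, .negSucc 1965), (.ofNat 8892, .negSucc 13337), (.negSucc 14759, .negSucc 7379), (.negSucc 18215, .ofNat 9108), (.ofNat 0, .ofNat 8361), (.ofNat 5641, .ofNat 0), (.ofNat 1360, .negSucc 1359), (.negSucc 221, .negSucc 221), (.negSucc 65, .ofNat 22), (.negSucc 0, .ofNat 3)], [(.ofNat 34, .negSucc 10), (.ofNat 96, .negSucc 271), (.negSucc 1637, .negSucc 350), (.negSucc 5179, .ofNat 3626), (.ofNat 3100, .ofNat 7750), (.ofNat 19872, .negSucc 3311), (.ofNat 10404, .negSucc 15605), (.negSucc 12167, .negSucc 6083), (.negSucc 10601, .ofNat 5301), (.ofNat 0, .ofNat 3400), (.ofNat 1561, .ofNat 0),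 (.ofNat 243, .negSucc 242), (.negSucc 22, .negSucc 22), (.negSucc 2, .ofNat 1)], [(.ofNat 22, .ofNat 23), (.ofNat 510, .negSucc 164), (.ofNat 618, .negSucc 1750), (.negSucc 6005, .negSucc 1286), (.negSucc 12099, .ofNat 8470), (.ofNat 4884, .ofNat 12210), (.ofNat 21780, .negSucc 3629), (.ofNat 8052, .negSucc 12077), (.negSucc 6665, .negSucc 3332), (.negSucc 4069, .ofNat 2035), (.ofNat 0, .ofNat 891), (.ofNat 265, .ofNat 0), (.ofNat 24, .negSucc 23), (.negSucc 0, .negSucc 0)], [(.negSucc 45, .ofNat 45), (.ofNat 308, .ofNat 322), (.ofNat 3060, .negSucc 989), (.ofNat 2112, .negSucc 5983), (.negSucc 13089, .negSucc 2804), (.negSucc 17819, .ofNat 12474), (.ofNat 5016, .ofNat 12540), (.ofNat 15840, .negSucc 2639), (.ofNat 4158, .negSucc 6236), (.negSucc 2419, .negSucc 1209), (.negSucc 1011, .ofNat 506), (.ofNat 0, .ofNat 144), (.ofNat 25, .ofNat 0), (.ofNat 1, .negSucc 0)], [(.negSucc 89, .negSucc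 0), (.negSucc 597, .ofNat 585), (.ofNat 1716, .ofNat 1794), (.ofNat 9724, .negSucc 3145), (.ofNat 4290, .negSucc 12154), (.negSucc 18017, .negSucc 3860), (.negSucc 17159, .ofNat 12012), (.ofNat 3432, .ofNat 8580), (.ofNat 7722, .negSucc 1286), (.ofNat 1430, .negSucc 2144), (.negSucc 571, .negSucc 285), (.negSucc 155, .ofNat 78), (.ofNat 0, .ofNat 13), (.ofNat 1, .ofNat 0)]], [[(.ofNat 0, .ofNat 0), (.ofNat 0, .ofNat 0), (.ofNat 0, .ofNat 0), (.ofNat 0, .ofNat 0), (.ofNat 0, .ofNat 0), (.ofNat 0, .ofNat 0), (.ofNat 0, .ofNat 0), (.ofNat 0, .ofNat 0), (.ofNat 0, .ofNat 0), (.ofNat 0, .ofNat 0), (.ofNat 0, .ofNat 0), (.ofNat 0, .ofNat 0), (.ofNat 0, .ofNat 0), (.ofNat 1, .ofNat 0)], [(.ofNat 0, .ofNat 0), (.ofNat 0, .ofNat 0), (.ofNat 0, .ofNat 0), (.ofNat 0, .ofNat 0), (.ofNat 0, .ofNat 0), (.ofNat 0, .ofNat 0), (.ofNat 0, .ofNat 0), (.ofNat 0, .ofNat 0), (.ofNat 0, .ofNat 0), (.ofNat 0, .ofNat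 0), (.ofNat 0, .ofNat 0), (.ofNat 0, .ofNat 0), (.ofNat 1, .ofNat 0), (.ofNat 1, .negSucc 0)], [(.ofNat 0, .ofNat 0), (.ofNat 0, .ofNat 0), (.ofNat 0, .ofNat 0), (.ofNat 0, .ofNat 0), (.ofNat 0, .ofNat 0), (.ofNat 0, .ofNat 0), (.ofNat 0, .ofNat 0), (.ofNat 0, .ofNat 0), (.ofNat 0, .ofNat 0), (.ofNat 0, .ofNat 0), (.ofNat 0, .ofNat 0), (.ofNat 1, .ofNat 0), (.ofNat 2, .negSucc 1), (.negSucc 0, .negSucc 0)], [(.ofNat 0, .ofNat 0), (.ofNat 0, .ofNat 0), (.ofNat 0, .ofNat 0), (.ofNat 0, .ofNat 0), (.ofNat 0, .ofNat 0), (.ofNat 0, .ofNat 0), (.ofNat 0, .ofNat 0), (.ofNat 0, .ofNat 0), (.ofNat 0, .ofNat 0), (.ofNat 0, .ofNat 0), (.ofNat 1, .ofNat 0), (.ofNat 3, .negSucc 2), (.negSucc 2, .negSucc 2), (.negSucc 2, .ofNat 1)], [(.ofNat 0, .ofNat 0), (.ofNat 0, .ofNat 0), (.ofNat 0, .ofNat 0), (.ofNat 0, .ofNat 0), (.ofNat 0, .ofNat 0), (.ofNat 0, .ofNat 0), (.ofNat 0, .ofNat 0), (.ofNat 0, .ofNat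 0), (.ofNat 0, .ofNat 0), (.ofNat 1, .ofNat 0), (.ofNat 4, .negSucc 3), (.negSucc 5, .negSucc 5), (.negSucc 11, .ofNat 4), (.negSucc 0, .ofNat 3)], [(.ofNat 0, .ofNat 0), (.ofNat 0, .ofNat 0), (.ofNat 0, .ofNat 0), (.ofNat 0, .ofNat 0), (.ofNat 0, .ofNat 0), (.ofNat 0, .ofNat 0), (.ofNat 0, .ofNat 0), (.ofNat 0, .ofNat 0), (.ofNat 1, .ofNat 0), (.ofNat 5, .negSucc 4), (.negSucc 9, .negSucc 9), (.negSucc 29, .ofNat 10), (.negSucc 4, .ofNat 15), (.ofNat 5, .ofNat 1)], [(.ofNat 0, .ofNat 0), (.ofNat 0, .ofNat 0), (.ofNat 0, .ofNat 0), (.ofNat 0, .ofNat 0), (.ofNat 0, .ofNat 0), (.ofNat 0, .ofNat 0), (.ofNat 0, .ofNat 0), (.ofNat 1, .ofNat 0), (.ofNat 6, .negSucc 5), (.negSucc 14, .negSucc 14), (.negSucc 59, .ofNat 20), (.negSucc 14, .ofNat 45), (.ofNat 30, .ofNat 6), (.ofNat 7, .negSucc 4)], [(.ofNat 0, .ofNat 0), (.ofNat 0, .ofNat 0), (.ofNat 0, .ofNat 0), (.ofNat 0, .ofNat 0), (.ofNat 0,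 .ofNat 0), (.ofNat 0, .ofNat 0), (.ofNat 1, .ofNat 0), (.ofNat 7, .negSucc 6), (.negSucc 20, .negSucc 20), (.negSucc 104, .ofNat 35), (.negSucc 34, .ofNat 105), (.ofNat 105, .ofNat 21), (.ofNat 49, .negSucc 34), (.negSucc 2, .negSucc 6)], [(.ofNat 0, .ofNat 0), (.ofNat 0, .ofNat 0), (.ofNat 0, .ofNat 0), (.ofNat 0, .ofNat 0), (.ofNat 0, .ofNat 0), (.ofNat 1, .ofNat 0), (.ofNat 8, .negSucc 7), (.negSucc 27, .negSucc 27), (.negSucc 167, .ofNat 56), (.negSucc 69, .ofNat 210), (.ofNat 280, .ofNat 56), (.ofNat 196, .negSucc 139), (.negSucc 23, .negSucc 55), (.negSucc 16, .ofNat 3)], [(.ofNat 0, .ofNat 0), (.ofNat 0, .ofNat 0), (.ofNat 0, .ofNat 0), (.ofNat 0, .ofNat 0), (.ofNat 1, .ofNat 0), (.ofNat 9, .negSucc 8), (.negSucc 35, .negSucc 35), (.negSucc 251, .ofNat 84), (.negSucc 125, .ofNat 378), (.ofNat 630, .ofNat 126), (.ofNat 588, .negSucc 419), (.negSucc 107, .negSucc 251), (.negSucc 152,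 .ofNat 27), (.negSucc 10, .ofNat 17)], [(.ofNat 0, .ofNat 0), (.ofNat 0, .ofNat 0), (.ofNat 0, .ofNat 0), (.ofNat 1, .ofNat 0), (.ofNat 10, .negSucc 9), (.negSucc 44, .negSucc 44), (.negSucc 359, .ofNat 120), (.negSucc 209, .ofNat 630), (.ofNat 1260, .ofNat 252), (.ofNat 1470, .negSucc 1049), (.negSucc 359, .negSucc 839), (.negSucc 764, .ofNat 135), (.negSucc 109, .ofNat 170), (.ofNat 23, .ofNat 11)], [(.ofNat 0, .ofNat 0), (.ofNat 0, .ofNat 0), (.ofNat 1, .ofNat 0), (.ofNat 11, .negSucc 10), (.negSucc 54, .negSucc 54), (.negSucc 494, .ofNat 165), (.negSucc 329, .ofNat 990), (.ofNat 2310, .ofNat 462), (.ofNat 3234, .negSucc 2309), (.negSucc 989, .negSucc 2309), (.negSucc 2804, .ofNat 495), (.negSucc 604, .ofNat 935), (.ofNat 253, .ofNat 121), (.ofNat 45, .negSucc 22)], [(.ofNat 0, .ofNat 0), (.ofNat 1, .ofNat 0), (.ofNat 12, .negSucc 11), (.negSucc 65, .negSucc 65), (.negSucc 659, .ofNat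 220), (.negSucc 494, .ofNat 1485), (.ofNat 3960, .ofNat 792), (.ofNat 6468, .negSucc 4619), (.negSucc 2375, .negSucc 5543), (.negSucc 8414, .ofNat 1485), (.negSucc 2419, .ofNat 3740), (.ofNat 1518, .ofNat 726), (.ofNat 540, .negSucc 275), (.negSucc 0, .negSucc 44)], [(.ofNat 1, .ofNat 0), (.ofNat 13, .negSucc 12), (.negSucc 77, .negSucc 77), (.negSucc 857, .ofNat 286), (.negSucc 714, .ofNat 2145), (.ofNat 6435, .ofNat 1287), (.ofNat 12012, .negSucc 8579), (.negSucc 5147, .negSucc 12011), (.negSucc 21878, .ofNat 3861), (.negSucc 7864, .ofNat 12155), (.ofNat 6578, .ofNat 3146), (.ofNat 3510, .negSucc 1793), (.negSucc 12, .negSucc 584), (.negSucc 90, .ofNat 1)]]]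
  rws := [(0, 0, 1, 0), (0, 0, 3, 0), (0, 0, 10, 0), (0, 0, 11, 0), (0, 0, 12, 0), (0, 0, 13, 0), (0, 1, 2, 0), (0, 1, 9, 0), (0, 1, 10, 0), (0, 1, 11, 0), (0, 1, 12, 0), (0, 2, 3, 0), (0, 2, 9, 0), (0, 2, 10, 0), (0, 2, 11, 0), (0, 3, 9, 0), (0, 3, 10, 0), (0, 6, 7, 0), (1, 0, 1, 1), (1, 0, 13, 0), (1, 0, 13, 1), (1, 1, 0, 0), (1, 2, 0, 0)]
  cols := [((0, 2), [.ofNat 4, .ofNat 132, .negSucc 439, .ofNat 132, .negSucc 23, .ofNat 2, .ofNat 156, .negSucc 11439, .ofNat 5148, .negSucc 1559, .ofNat 286, .ofNat 3432, .ofNat 60060, .negSucc 27455, .ofNat 8424, .negSucc 188759, .ofNat 88088, .ofNat 453024, .ofNat 4087, .negSucc 363, .ofNat 178, .negSucc 12326, .negSucc 24917]), ((0, 4), [.ofNat 8, .ofNat 206, .negSucc 369, .ofNat 114, .negSucc 21, .ofNat 2, .ofNat 234, .negSucc 8059, .ofNat 3666, .negSucc 1169, .ofNat 234, .ofNat 3744, .ofNat 35490, .negSucc 16847, .ofNat 5616, .negSucc 95809, .ofNat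 48048, .ofNat 164736, .ofNat 2079, .ofNat 372, .negSucc 541, .ofNat 10341, .ofNat 86994]), ((0, 6), [.ofNat 12, .ofNat 271, .negSucc 320, .ofNat 99, .negSucc 19, .ofNat 2, .ofNat 273, .negSucc 5459, .ofNat 2457, .negSucc 818, .ofNat 182, .ofNat 3276, .ofNat 17745, .negSucc 8735, .ofNat 3276, .negSucc 35034, .ofNat 20020, .ofNat 20592, .negSucc 5452, .ofNat 340, .ofNat 914, .negSucc 2426, .negSucc 79997]), ((0, 8), [.ofNat 16, .ofNat 332, .negSucc 295, .ofNat 88, .negSucc 17, .ofNat 2, .ofNat 260, .negSucc 3639, .ofNat 1560, .negSucc 519, .ofNat 130, .ofNat 2080, .ofNat 7540, .negSucc 3639, .ofNat 1560, .negSucc 8579, .ofNat 5720, .ofNat 0, .ofNat 4503, .negSucc 2507, .negSucc 573, .negSucc 2858, .ofNat 36882]), ((0, 10), [.ofNat 20, .ofNat 405, .negSucc 286, .ofNat 81, .negSucc 15, .ofNat 2, .ofNat 195, .negSucc 2144, .ofNat 871, .negSucc 272, .ofNat 78, .ofNat 780, .ofNat 2145, .negSucc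 935, .ofNat 468, .negSucc 714, .ofNat 572, .ofNat 0, .negSucc 2036, .ofNat 6164, .negSucc 1933, .ofNat 4149, .ofNat 450]), ((0, 12), [.ofNat 24, .ofNat 506, .negSucc 351, .ofNat 90, .negSucc 13, .ofNat 2, .ofNat 78, .negSucc 714, .ofNat 286, .negSucc 77, .ofNat 26, .ofNat 0, .ofNat 0, .ofNat 0, .ofNat 0, .ofNat 0, .ofNat 0, .ofNat 0, .negSucc 8, .negSucc 8459, .ofNat 8098, .negSucc 3410, .negSucc 20573]), ((1, 3), [.ofNat 4, .ofNat 101, .negSucc 64, .ofNat 12, .negSucc 0, .ofNat 0, .ofNat 123, .negSucc 2289, .ofNat 768, .negSucc 164, .ofNat 20, .ofNat 1992, .ofNat 11760, .negSucc 4343, .ofNat 1080, .negSucc 37564, .ofNat 15400, .ofNat 110880, .ofNat 1008, .negSucc 319, .ofNat 224, .negSucc 9287, .negSucc 43631]), ((1, 5), [.ofNat 8, .ofNat 174, .negSucc 65, .ofNat 12, .negSucc 0, .ofNat 0, .ofNat 202, .negSucc 1829, .ofNat 584, .negSucc 123, .ofNat 16, .ofNat 2464, .ofNat 7000, .negSucc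 2519, .ofNat 672, .negSucc 16939, .ofNat 7392, .ofNat 29568, .ofNat 1848, .ofNat 384, .negSucc 575, .ofNat 7608, .ofNat 67824]), ((1, 7), [.ofNat 12, .ofNat 235, .negSucc 65, .ofNat 12, .negSucc 0, .ofNat 0, .ofNat 237, .negSucc 1334, .ofNat 416, .negSucc 86, .ofNat 12, .ofNat 1980, .ofNat 3480, .negSucc 1229, .ofNat 360, .negSucc 5389, .ofNat 2640, .ofNat 1584, .negSucc 3151, .ofNat 320, .ofNat 928, .negSucc 2327, .negSucc 51791]), ((1, 9), [.ofNat 16, .ofNat 300, .negSucc 65, .ofNat 12, .negSucc 0, .ofNat 0, .ofNat 228, .negSucc 880, .ofNat 268, .negSucc 53, .ofNat 8, .ofNat 1056, .ofNat 1332, .negSucc 443, .ofNat 144, .negSucc 945, .ofNat 528, .ofNat 0, .ofNat 2520, .negSucc 2495, .negSucc 575, .negSucc 1367, .ofNat 22032]), ((1, 11), [.ofNat 20, .ofNat 385, .negSucc 76, .ofNat 13, .negSucc 0, .ofNat 0, .ofNat 175, .negSucc 494, .ofNat 143, .negSucc 24, .ofNat 4, .ofNat 220, .ofNat 220,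 .negSucc 65, .ofNat 24, .ofNat 0, .ofNat 0, .ofNat 0, .negSucc 1291, .ofNat 6160, .negSucc 1935, .ofNat 2964, .ofNat 2280]), ((2, 4), [.ofNat 4, .ofNat 85, .negSucc 10, .ofNat 1, .ofNat 0, .ofNat 0, .ofNat 107, .negSucc 483, .ofNat 99, .negSucc 8, .ofNat 0, .ofNat 1324, .ofNat 2051, .negSucc 479, .ofNat 72, .negSucc 5840, .ofNat 1848, .ofNat 22176, .negSucc 27, .negSucc 319, .ofNat 224, .negSucc 6275, .negSucc 37991]), ((2, 6), [.ofNat 8, .ofNat 150, .negSucc 10, .ofNat 1, .ofNat 0, .ofNat 0, .ofNat 178, .negSucc 384, .ofNat 77, .negSucc 6, .ofNat 0, .ofNat 1560, .ofNat 1190, .negSucc 265, .ofNat 42, .negSucc 2309, .ofNat 770, .ofNat 3696, .ofNat 1380, .ofNat 384, .negSucc 575, .ofNat 5196, .ofNat 47736]), ((2, 8), [.ofNat 12, .ofNat 211, .negSucc 10, .ofNat 1, .ofNat 0, .ofNat 0, .ofNat 213, .negSucc 274, .ofNat 55, .negSucc 4, .ofNat 0, .ofNat 1156, .ofNat 555, .negSucc 119, .ofNat 20,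 .negSucc 604, .ofNat 220, .ofNat 0, .negSucc 1931, .ofNat 320, .ofNat 928, .negSucc 1907, .negSucc 34631]), ((2, 10), [.ofNat 16, .ofNat 284, .negSucc 11, .ofNat 1, .ofNat 0, .ofNat 0, .ofNat 212, .negSucc 184, .ofNat 35, .negSucc 2, .ofNat 0, .ofNat 560, .ofNat 175, .negSucc 33, .ofNat 6, .negSucc 54, .ofNat 22, .ofNat 0, .ofNat 1716, .negSucc 2495, .negSucc 575, .negSucc 803, .ofNat 15768]), ((3, 5), [.ofNat 4, .ofNat 73, .negSucc 0, .ofNat 0, .ofNat 0, .ofNat 0, .ofNat 95, .negSucc 79, .ofNat 8, .ofNat 0, .ofNat 0, .ofNat 860, .ofNat 280, .negSucc 27, .ofNat 0, .negSucc 629, .ofNat 112, .ofNat 3360, .negSucc 303, .negSucc 319, .ofNat 224, .negSucc 4079, .negSucc 28127]), ((3, 7), [.ofNat 8, .ofNat 134, .negSucc 0, .ofNat 0, .ofNat 0, .ofNat 0, .ofNat 162, .negSucc 59, .ofNat 6, .ofNat 0, .ofNat 0, .ofNat 984, .ofNat 150, .negSucc 14, .ofNat 0, .negSucc 214, .ofNat 40, .ofNat 240, .ofNat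 1008, .ofNat 384, .negSucc 575, .ofNat 3600, .ofNat 33696]), ((3, 9), [.ofNat 12, .ofNat 199, .negSucc 0, .ofNat 0, .ofNat 0, .ofNat 0, .ofNat 201, .negSucc 42, .ofNat 4, .ofNat 0, .ofNat 0, .ofNat 756, .ofNat 63, .negSucc 5, .ofNat 0, .negSucc 40, .ofNat 8, .ofNat 0, .negSucc 1407, .ofNat 320, .ofNat 928, .negSucc 1631, .negSucc 26687]), ((4, 6), [.ofNat 4, .ofNat 65, .ofNat 0, .ofNat 0, .ofNat 0, .ofNat 0, .ofNat 87, .negSucc 6, .ofNat 0, .ofNat 0, .ofNat 0, .ofNat 564, .ofNat 21, .ofNat 0, .ofNat 0, .negSucc 34, .ofNat 0, .ofNat 336, .negSucc 335, .negSucc 319, .ofNat 224, .negSucc 2735, .negSucc 20447]), ((4, 8), [.ofNat 8, .ofNat 126, .ofNat 0, .ofNat 0, .ofNat 0, .ofNat 0, .ofNat 154, .negSucc 4, .ofNat 0, .ofNat 0, .ofNat 0, .ofNat 704, .ofNat 10, .ofNat 0, .ofNat 0, .negSucc 9, .ofNat 0, .ofNat 0, .ofNat 816, .ofNat 384, .negSucc 575, .ofNat 2832, .ofNat 26784]), ((5, 7), [.ofNat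 4, .ofNat 61, .ofNat 0, .ofNat 0, .ofNat 0, .ofNat 0, .ofNat 83, .ofNat 0, .ofNat 0, .ofNat 0, .ofNat 0, .ofNat 420, .ofNat 0, .ofNat 0, .ofNat 0, .ofNat 0, .ofNat 0, .ofNat 16, .negSucc 319, .negSucc 319, .ofNat 224, .negSucc 2111, .negSucc 16511])]
  tg := [((0, 2), .ofNat 10090080, [.ofNat 168835181475072, .negSucc 5754072608639, .ofNat 66420738816000, .ofNat 325339454151936, .ofNat 299274672784128, .negSucc 1017947590531052, .negSucc 5849678116767, .negSucc 381292270847, .ofNat 38925740899584, .ofNat 247026186164000, .ofNat 284231197145040, .ofNat 399119715904, .negSucc 2206406803839, .ofNat 2890676959232, .ofNat 38407527116160, .negSucc 1263607444607, .negSucc 2764106960831, .negSucc 26887960263, .negSucc 4245821579, .ofNat 2331238455, .ofNat 18542671875, .ofNat 4245821580, .ofNat 110110000]), ((0, 4), .ofNat 693463680, [.negSucc 14421799579963607, .ofNat 491419249333440, .negSucc 5679939074447999,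 .negSucc 27821061012522623, .negSucc 25560028862037887, .ofNat 87218949219945543, .ofNat 499784287653312, .ofNat 32446635851904, .negSucc 3329766783321215, .negSucc 21129814197945055, .negSucc 24312949947519983, .negSucc 34101428067615, .ofNat 188618281483904, .negSucc 247514120853503, .negSucc 3285175399970303, .ofNat 108038467742592, .ofNat 236321217607104, .ofNat 2298982169256, .ofNat 362796847140, .negSucc 199162958084, .negSucc 1584137543624, .negSucc 362796847139, .negSucc 9406917519]), ((0, 6), .ofNat 3467318400, [.ofNat 13990556527567704, .negSucc 476304155183759, .ofNat 5539578745664640, .ofNat 27132669323434752, .ofNat 24778006365721344, .negSucc 85853645129938958, .negSucc 485344823373455, .negSucc 30902494336511, .ofNat 3252371096341248, .ofNat 20633196521034848, .ofNat 23744981898023472, .ofNat 33123055096768, .negSucc 183670319076991, .ofNat 242883830452992, .ofNat 3207593151314112,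 .negSucc 105283165190015, .negSucc 230247786650111, .negSucc 2240635890047, .negSucc 352513483139, .ofNat 193349008125, .ofNat 1537855034625, .ofNat 352513483140, .ofNat 9132082960]), ((0, 8), .ofNat 165110400, [.ofNat 4095584896536, .negSucc 141505642079, .ofNat 1476092557440, .ofNat 7233548984928, .ofNat 7332421787136, .negSucc 19021169143430, .negSucc 139590645983, .negSucc 11853621119, .ofNat 842869134912, .ofNat 5373542433472, .ofNat 6166237846968, .ofNat 9492933632, .negSucc 50345114751, .ofNat 57495070848, .ofNat 837245005728, .negSucc 28474665599, .negSucc 62498079167, .negSucc 604557191, .negSucc 100458539, .ofNat 55810755, .ofNat 445024125, .ofNat 100458540, .ofNat 2642640]), ((0, 10), .ofNat 3467318400, [.ofNat 17981590585896, .negSucc 630377153039, .ofNat 5845637592960, .ofNat 28672955830848, .ofNat 32651208350976, .negSucc 56522251847060, .negSucc 601934419343, .negSucc 64669893887,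 .ofNat 3220640717952, .ofNat 20670358015072, .ofNat 23642332881408, .ofNat 40782228032, .negSucc 206183694207, .ofNat 192007792128, .ofNat 3228911011968, .negSucc 114773518463, .negSucc 253021281407, .negSucc 2430607151, .negSucc 428342459, .ofNat 242935875, .ofNat 1928437875, .ofNat 428342460, .ofNat 11451440]), ((0, 12), .ofNat 1466942400, [.negSucc 1461864944735, .ofNat 50131013280, .negSucc 553431786239, .negSucc 2711380500527, .negSucc 2603786905535, .ofNat 7901363554056, .ofNat 50278284384, .ofNat 3723267840, .negSucc 320745983711, .negSucc 2039491716271, .negSucc 2344060663667, .negSucc 3425409231, .ofNat 18595726592, .negSucc 22993885247, .negSucc 317376254927, .ofNat 10591858560, .ofNat 23203349568, .ofNat 225179592, .ofNat 36345540, .negSucc 20089754, .negSucc 159752249, .negSucc 36345539, .negSucc 948639]), ((1, 3), .ofNat 3467318400, [.negSucc 237518330379797879, .ofNat 8095764878942640,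 .negSucc 93377903013742079, .negSucc 457381908384575999, .negSucc 421059673227275519, .ofNat 1429390379439595755, .ofNat 8228278875418800, .ofNat 537635374685952, .negSucc 54713435850608639, .negSucc 347228087657861599, .negSucc 399517259782797359, .negSucc 561395370870879, .ofNat 3102503181966464, .negSucc 4060679359810559, .negSucc 53987668192392959, .ofNat 1776631893845376, .ofNat 3886434011275200, .ofNat 37803859748520, .ofNat 5971834120980, .negSucc 3279300565904, .negSucc 26083605673124, .negSucc 5971834120979, .negSucc 154889534799]), ((1, 5), .ofNat 2311545600, [.ofNat 111579891701212872, .negSucc 3802133969622479, .ofNat 43939677220235520, .ofNat 215222230661281536, .ofNat 197757951318815232, .negSucc 674577322712406476, .negSucc 3866684401337807, .negSucc 251140162043135, .ofNat 25757997849099264, .ofNat 163454383615292704, .ofNat 188077562204378256, .ofNat 263831504160224, .negSucc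 1459192609117695, .ofNat 1914485244813696, .ofNat 25413277144114176, .negSucc 835795138449407, .negSucc 1828210293233855, .negSucc 17785076137463, .negSucc 2806819180619, .ofNat 1540872599175, .ofNat 12256112743875, .ofNat 2806819180620, .ofNat 72779186480]), ((1, 7), .ofNat 20638800, [.negSucc 98436760984295, .ofNat 3347938061760, .negSucc 39208166699999, .negSucc 192033031376927, .negSucc 174193827269375, .ofNat 613848853709091, .ofNat 3418835834784, .ofNat 212903409024, .negSucc 23058065594591, .negSucc 146238381048671, .negSucc 168319972759787, .negSucc 233377463591, .ofNat 1297740793680, .negSucc 1730746173167, .negSucc 22731048826847, .ofNat 744508139952, .ofNat 1627827873168, .ofNat 15846843132, .ofNat 2484736800, .negSucc 1361472839, .negSucc 10828920374, .negSucc 2484736799, .negSucc 64304239]), ((1, 9), .ofNat 6934636800, [.negSucc 1857569721577415, .ofNat 63440970213840, .negSucc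 721428101448959, .negSucc 3533912859902207, .negSucc 3297753587486975, .ofNat 10807358910172461, .ofNat 64199830851024, .ofNat 4375543043328, .negSucc 421252635374591, .negSucc 2675020586568991, .negSucc 3076773686046287, .negSucc 4378142440671, .ofNat 24055531593728, .negSucc 30929206685567, .negSucc 416031364443647, .ofNat 13751735637504, .ofNat 30096202707648, .ofNat 292525116792, .ofNat 46536622860, .negSucc 25599421574, .negSucc 203672707874, .negSucc 46536622859, .negSucc 1209448239]), ((1, 11), .ofNat 6356750400, [.negSucc 28916992512071, .ofNat 1008434791440, .negSucc 9773269136639, .negSucc 47925339509375, .negSucc 52304711991551, .ofNat 106520329698237, .ofNat 974367206928, .ofNat 96789759744, .negSucc 5459052998783, .negSucc 34947564718623, .negSucc 40028227564175, .negSucc 66105070303, .ofNat 340326157312, .negSucc 343721156735, .negSucc 5453240551295, .ofNat 190578980352, .ofNat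 419445733056, .ofNat 4040206104, .ofNat 696035340, .negSucc 392223194, .negSucc 3115168874, .negSucc 696035339, .negSucc 18498479]), ((2, 4), .ofNat 2311545600, [.ofNat 251143653689498808, .negSucc 8561485021987919, .ofNat 98643203720609280, .ofNat 483175141822619904, .ofNat 445269793090937088, .negSucc 1507534294153221242, .negSucc 8698731096111311, .negSucc 570258754224383, .ofNat 57783360444208896, .ofNat 366727869838480096, .ofNat 421942847125082544, .ofNat 593471877916736, .negSucc 3278335668536703, .ofNat 4285025084285184, .ofNat 57020671075847424, .negSucc 1877076355350911, .negSucc 4106304127122623, .negSucc 39940276648295, .negSucc 6312653872979, .ofNat 3466991189025, .ofNat 27576513271125, .ofNat 6312653872980, .ofNat 163754711120]), ((2, 6), .ofNat 27518400, [.negSucc 1297855302701831, .ofNat 44225991100560, .negSucc 511019595818879, .negSucc 2503041692029535, .negSucc 2300280387935231,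 .ofNat 7843491229853097, .ofNat 44974618035408, .ofNat 2922529057920, .negSucc 299554664893343, .negSucc 1900918566298463, .negSucc 2187268795391615, .negSucc 3068690845583, .ofNat 16971139185984, .negSucc 22261973678975, .negSucc 295548629629535, .ofNat 9720528248640, .ofNat 21262703651616, .ofNat 206844632304, .ofNat 32646557580, .negSucc 17922475934, .negSucc 142556061374, .negSucc 32646557579, .negSucc 846525679]), ((2, 8), .ofNat 770515200, [.ofNat 1351433508231240, .negSucc 45805838681519, .ofNat 549347538147840, .ofNat 2690237902867200, .ofNat 2384648911445760, .negSucc 8894207016951164, .negSucc 47126645578799, .negSucc 2707244910335, .ofNat 324885694264320, .ofNat 2058445394029600, .ofNat 2370526373440080, .ofNat 3219549045440, .negSucc 18076352321151, .ofNat 24801871054080, .ofNat 319825938641280, .negSucc 10399730199167, .negSucc 22721150759999, .negSucc 221463203159, .negSucc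 34326140939, .ofNat 18743212215, .ofNat 149083081875, .ofNat 34326140940, .ofNat 885284400]), ((2, 10), .ofNat 385257600, [.ofNat 66265383455208, .negSucc 2261813964719, .ofNat 25828674919680, .ofNat 126519459751104, .ofNat 117592911506688, .negSucc 389436519938192, .negSucc 2291801537711, .negSucc 154304838143, .ofNat 15097135346496, .ofNat 95852200132896, .ofNat 110259899920944, .ofNat 156311946336, .negSucc 860324673023, .ofNat 1112008272384, .ofNat 14906089050624, .negSucc 492065428991, .negSucc 1076759303423, .negSucc 10468081895, .negSucc 1661821979, .ofNat 913696875, .ofNat 7268727375, .ofNat 1661821980, .ofNat 43163120]), ((3, 5), .ofNat 330220800, [.negSucc 31524457399199351, .ofNat 1074880047376080, .negSucc 12367227437925119, .negSucc 60577745197406975, .negSucc 55901013460284671, .ofNat 188605650708978867, .ofNat 1091641997122128, .ofNat 71870279053056, .negSucc 7242021556353023,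 .negSucc 45964997699673823, .negSucc 52883814484716335, .negSucc 74473937085183, .ofNat 411160769799296, .negSucc 536476099716095, .negSucc 7147050701645855, .ofNat 235378455854208, .ofNat 514938978303456, .ofNat 5008221010824, .ofNat 792101730420, .negSucc 435120510824, .negSucc 3460952620124, .negSucc 792101730419, .negSucc 20551811279]), ((3, 7), .ofNat 1155772800, [.ofNat 30202165705707576, .negSucc 1029191650775759, .ofNat 11890705374758400, .ofNat 58242267310579968, .ofNat 53529842143923456, .negSucc 182477170659099770, .negSucc 1046577046100303, .negSucc 68032206215423, .ofNat 6970025841754752, .ofNat 44230717554414432, .ofNat 50893387764384528, .ofNat 71409387346752, .negSucc 394906111290239, .ofNat 517945131566208, .ofNat 6876861345475488, .negSucc 226186530759551, .negSucc 494762916573407, .negSucc 4813045463591, .negSucc 759691432499, .ofNat 417064312665, .ofNat 3317358169125,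 .ofNat 759691432500, .ofNat 19699119440]), ((3, 9), .ofNat 6934636800, [.negSucc 706592596700087, .ofNat 23180428047120, .negSucc 341115371719679, .negSucc 1668835431884543, .negSucc 1213320446631167, .ofNat 6924668854699323, .ofNat 25563867238032, .ofNat 364640964864, .negSucc 210416576125055, .negSucc 1323510701116255, .negSucc 1530160860968783, .negSucc 1758959552895, .ofNat 10716832125824, .negSucc 18036636013823, .negSucc 204993072552863, .ofNat 6306813985152, .ofNat 13696222234464, .ofNat 134806270056, .ofNat 18986347380, .negSucc 10050665624, .negSucc 79956001124, .negSucc 18986347379, .negSucc 474794319]), ((4, 6), .ofNat 330220800, [.ofNat 17705084845302792, .negSucc 603821490421679, .ofNat 6936244189931520, .ofNat 33975746592391296, .ofNat 31401637766099712, .negSucc 105522891445310156, .negSucc 612935108759087, .negSucc 40551261755135, .ofNat 4060140603074304, .ofNat 25771448686803104,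 .ofNat 29649544922620656, .ofNat 41813393649664, .negSucc 230695976779135, .ofNat 300400416393216, .ofNat 4007295497662176, .negSucc 132041503736447, .negSucc 288883290886175, .negSucc 2809396723703, .negSucc 444684059819, .ofNat 244332863775, .ofNat 1943420353875, .ofNat 444684059820, .ofNat 11540408880]), ((4, 8), .ofNat 1155772800, [.negSucc 8423338662119303, .ofNat 287040577649760, .negSucc 3316259269578239, .negSucc 16243479123977951, .negSucc 14929337176009343, .ofNat 50891200980829209, .ofNat 291888103057056, .ofNat 18975090786432, .negSucc 1943898446773247, .negSucc 12335696104326847, .negSucc 14193871837272071, .negSucc 19915918863567, .ofNat 110137976560832, .negSucc 144449161564991, .negSucc 1917917129675711, .ofNat 63082502131776, .ofNat 137987530982112, .ofNat 1342337844048, .ofNat 211876004340, .negSucc 116318126924, .negSucc 925205155874, .negSucc 211876004339, .negSucc 5494048559]),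 ((5, 7), .ofNat 770515200, [.negSucc 12176780245029287, .ofNat 415356188718960, .negSucc 4765237992495359, .negSucc 23341690933634303, .negSucc 21599937897815807, .ofNat 72354028273145073, .ofNat 421460666556912, .ofNat 27991030822656, .negSucc 2788468523223935, .negSucc 17700581352977695, .negSucc 20363559931093103, .negSucc 28750118103615, .ofNat 158540467995008, .negSucc 206112001657343, .negSucc 2752392748610783, .ofNat 90728462456448, .ofNat 198506000661024, .ofNat 1930345137816, .ofNat 305734288860, .negSucc 168017804954, .negSucc 1336407447374, .negSucc 305734288859, .negSucc 7935847919])]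

theorem NIT_2_1_13 (l : ℕ) (hlp : l.Prime) (hl2 : l ≠ 2) (hls : ¬ l ∣ 7) (hE : ¬ l ∣ 7)
    (hj : 13 < l) : NUMA_stmt 2 1 l 13 :=
  @NI_fin 2 1 7 2 7 13 (by norm_num) NIC_2_1_13 (by decide +kernel) (by decide +kernel)
    (by decide +kernel) (by decide +kernel) l hlp hl2 hls hE hj

end Pool.Agent.OE
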