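import Pool.Agent.helper21.OE.NID

/-!
# Project OE: certificates over the integers
-/

namespace Pool.Agent.OE

set_option maxRecDepth 100000

/-- certificate, `d = 2`, `t = 0`, `j = 10` -/
def NIC_2_0_10 : NI_Cert where
  tab0 := [[[(.ofNat 1, .ofNat 0), (.ofNat 0, .ofNat 0), (.ofNat 0, .ofNat 0), (.ofNat 0, .ofNat 0), (.ofNat 0, .ofNat 0), (.ofNat 0, .ofNat 0), (.ofNat 0, .ofNat 0), (.ofNat 0, .ofNat 0), (.ofNat 0, .ofNat 0), (.ofNat 0, .ofNat 0), (.ofNat 0, .ofNat 0)], [(.ofNat 0, .ofNat 0), (.ofNat 1, .ofNat 0), (.ofNat 0, .ofNat 0), (.ofNat 0, .ofNat 0), (.ofNat 0, .ofNat 0), (.ofNat 0, .ofNat 0), (.ofNat 0, .ofNat 0), (.ofNat 0, .ofNat 0), (.ofNat 0, .ofNat 0), (.ofNat 0, .ofNat 0), (.ofNat 0, .ofNat 0)], [(.ofNat 0, .ofNat 0), (.ofNat 0, .ofNat 0), (.ofNat 1, .ofNat 0), (.ofNat 0, .ofNat 0), (.ofNat 0, .ofNat 0), (.ofNat 0, .ofNat 0), (.ofNat 0, .ofNat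 0), (.ofNat 0, .ofNat 0), (.ofNat 0, .ofNat 0), (.ofNat 0, .ofNat 0), (.ofNat 0, .ofNat 0)], [(.ofNat 0, .ofNat 0), (.ofNat 0, .ofNat 0), (.ofNat 0, .ofNat 0), (.ofNat 1, .ofNat 0), (.ofNat 0, .ofNat 0), (.ofNat 0, .ofNat 0), (.ofNat 0, .ofNat 0), (.ofNat 0, .ofNat 0), (.ofNat 0, .ofNat 0), (.ofNat 0, .ofNat 0), (.ofNat 0, .ofNat 0)], [(.ofNat 0, .ofNat 0), (.ofNat 0, .ofNat 0), (.ofNat 0, .ofNat 0), (.ofNat 0, .ofNat 0), (.ofNat 1, .ofNat 0), (.ofNat 0, .ofNat 0), (.ofNat 0, .ofNat 0), (.ofNat 0, .ofNat 0), (.ofNat 0, .ofNat 0), (.ofNat 0, .ofNat 0), (.ofNat 0, .ofNat 0)], [(.ofNat 0, .ofNat 0), (.ofNat 0, .ofNat 0), (.ofNat 0, .ofNat 0), (.ofNat 0, .ofNat 0), (.ofNat 0, .ofNat 0), (.ofNat 1, .ofNat 0), (.ofNat 0, .ofNat 0), (.ofNat 0, .ofNat 0), (.ofNat 0, .ofNat 0), (.ofNat 0, .ofNat 0), (.ofNat 0, .ofNat 0)], [(.ofNat 0, .ofNat 0), (.ofNat 0, .ofNat 0), (.ofNat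 0, .ofNat 0), (.ofNat 0, .ofNat 0), (.ofNat 0, .ofNat 0), (.ofNat 0, .ofNat 0), (.ofNat 1, .ofNat 0), (.ofNat 0, .ofNat 0), (.ofNat 0, .ofNat 0), (.ofNat 0, .ofNat 0), (.ofNat 0, .ofNat 0)], [(.ofNat 0, .ofNat 0), (.ofNat 0, .ofNat 0), (.ofNat 0, .ofNat 0), (.ofNat 0, .ofNat 0), (.ofNat 0, .ofNat 0), (.ofNat 0, .ofNat 0), (.ofNat 0, .ofNat 0), (.ofNat 1, .ofNat 0), (.ofNat 0, .ofNat 0), (.ofNat 0, .ofNat 0), (.ofNat 0, .ofNat 0)], [(.ofNat 0, .ofNat 0), (.ofNat 0, .ofNat 0), (.ofNat 0, .ofNat 0), (.ofNat 0, .ofNat 0), (.ofNat 0, .ofNat 0), (.ofNat 0, .ofNat 0), (.ofNat 0, .ofNat 0), (.ofNat 0, .ofNat 0), (.ofNat 1, .ofNat 0), (.ofNat 0, .ofNat 0), (.ofNat 0, .ofNat 0)], [(.ofNat 0, .ofNat 0), (.ofNat 0, .ofNat 0), (.ofNat 0, .ofNat 0), (.ofNat 0, .ofNat 0), (.ofNat 0, .ofNat 0), (.ofNat 0, .ofNat 0), (.ofNat 0, .ofNat 0), (.ofNat 0, .ofNat 0), (.ofNat 0, .ofNat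 0), (.ofNat 1, .ofNat 0), (.ofNat 0, .ofNat 0)], [(.ofNat 0, .ofNat 0), (.ofNat 0, .ofNat 0), (.ofNat 0, .ofNat 0), (.ofNat 0, .ofNat 0), (.ofNat 0, .ofNat 0), (.ofNat 0, .ofNat 0), (.ofNat 0, .ofNat 0), (.ofNat 0, .ofNat 0), (.ofNat 0, .ofNat 0), (.ofNat 0, .ofNat 0), (.ofNat 1, .ofNat 0)]], [[(.ofNat 1, .ofNat 0), (.negSucc 9, .ofNat 0), (.ofNat 45, .ofNat 0), (.negSucc 119, .ofNat 0), (.ofNat 210, .ofNat 0), (.negSucc 251, .ofNat 0), (.ofNat 210, .ofNat 0), (.negSucc 119, .ofNat 0), (.ofNat 45, .ofNat 0), (.negSucc 9, .ofNat 0), (.ofNat 1, .ofNat 0)], [(.ofNat 1, .ofNat 0), (.negSucc 8, .ofNat 0), (.ofNat 36, .ofNat 0), (.negSucc 83, .ofNat 0), (.ofNat 126, .ofNat 0), (.negSucc 125, .ofNat 0), (.ofNat 84, .ofNat 0), (.negSucc 35, .ofNat 0), (.ofNat 9, .ofNat 0), (.negSucc 0, .ofNat 0), (.ofNat 0, .ofNat 0)], [(.ofNat 1, .ofNat 0), (.negSucc 7, .ofNat 0), (.ofNat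 28, .ofNat 0), (.negSucc 55, .ofNat 0), (.ofNat 70, .ofNat 0), (.negSucc 55, .ofNat 0), (.ofNat 28, .ofNat 0), (.negSucc 7, .ofNat 0), (.ofNat 1, .ofNat 0), (.ofNat 0, .ofNat 0), (.ofNat 0, .ofNat 0)], [(.ofNat 1, .ofNat 0), (.negSucc 6, .ofNat 0), (.ofNat 21, .ofNat 0), (.negSucc 34, .ofNat 0), (.ofNat 35, .ofNat 0), (.negSucc 20, .ofNat 0), (.ofNat 7, .ofNat 0), (.negSucc 0, .ofNat 0), (.ofNat 0, .ofNat 0), (.ofNat 0, .ofNat 0), (.ofNat 0, .ofNat 0)], [(.ofNat 1, .ofNat 0), (.negSucc 5, .ofNat 0), (.ofNat 15, .ofNat 0), (.negSucc 19, .ofNat 0), (.ofNat 15, .ofNat 0), (.negSucc 5, .ofNat 0), (.ofNat 1, .ofNat 0), (.ofNat 0, .ofNat 0), (.ofNat 0, .ofNat 0), (.ofNat 0, .ofNat 0), (.ofNat 0, .ofNat 0)], [(.ofNat 1, .ofNat 0), (.negSucc 4, .ofNat 0), (.ofNat 10, .ofNat 0), (.negSucc 9, .ofNat 0), (.ofNat 5, .ofNat 0), (.negSucc 0, .ofNat 0), (.ofNat 0, .ofNat 0),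 (.ofNat 0, .ofNat 0), (.ofNat 0, .ofNat 0), (.ofNat 0, .ofNat 0), (.ofNat 0, .ofNat 0)], [(.ofNat 1, .ofNat 0), (.negSucc 3, .ofNat 0), (.ofNat 6, .ofNat 0), (.negSucc 3, .ofNat 0), (.ofNat 1, .ofNat 0), (.ofNat 0, .ofNat 0), (.ofNat 0, .ofNat 0), (.ofNat 0, .ofNat 0), (.ofNat 0, .ofNat 0), (.ofNat 0, .ofNat 0), (.ofNat 0, .ofNat 0)], [(.ofNat 1, .ofNat 0), (.negSucc 2, .ofNat 0), (.ofNat 3, .ofNat 0), (.negSucc 0, .ofNat 0), (.ofNat 0, .ofNat 0), (.ofNat 0, .ofNat 0), (.ofNat 0, .ofNat 0), (.ofNat 0, .ofNat 0), (.ofNat 0, .ofNat 0), (.ofNat 0, .ofNat 0), (.ofNat 0, .ofNat 0)], [(.ofNat 1, .ofNat 0), (.negSucc 1, .ofNat 0), (.ofNat 1, .ofNat 0), (.ofNat 0, .ofNat 0), (.ofNat 0, .ofNat 0), (.ofNat 0, .ofNat 0), (.ofNat 0, .ofNat 0), (.ofNat 0, .ofNat 0), (.ofNat 0, .ofNat 0), (.ofNat 0, .ofNat 0), (.ofNat 0, .ofNat 0)], [(.ofNat 1, .ofNat 0), (.negSucc 0, .ofNat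 0), (.ofNat 0, .ofNat 0), (.ofNat 0, .ofNat 0), (.ofNat 0, .ofNat 0), (.ofNat 0, .ofNat 0), (.ofNat 0, .ofNat 0), (.ofNat 0, .ofNat 0), (.ofNat 0, .ofNat 0), (.ofNat 0, .ofNat 0), (.ofNat 0, .ofNat 0)], [(.ofNat 1, .ofNat 0), (.ofNat 0, .ofNat 0), (.ofNat 0, .ofNat 0), (.ofNat 0, .ofNat 0), (.ofNat 0, .ofNat 0), (.ofNat 0, .ofNat 0), (.ofNat 0, .ofNat 0), (.ofNat 0, .ofNat 0), (.ofNat 0, .ofNat 0), (.ofNat 0, .ofNat 0), (.ofNat 0, .ofNat 0)]], [[(.ofNat 0, .ofNat 0), (.ofNat 0, .ofNat 0), (.ofNat 0, .ofNat 0), (.ofNat 0, .ofNat 0), (.ofNat 0, .ofNat 0), (.ofNat 0, .ofNat 0), (.ofNat 0, .ofNat 0), (.ofNat 0, .ofNat 0), (.ofNat 0, .ofNat 0), (.ofNat 0, .ofNat 0), (.ofNat 1, .ofNat 0)], [(.ofNat 0, .ofNat 0), (.ofNat 0, .ofNat 0), (.ofNat 0, .ofNat 0), (.ofNat 0, .ofNat 0), (.ofNat 0, .ofNat 0), (.ofNat 0, .ofNat 0), (.ofNat 0, .ofNat 0), (.ofNat 0, .ofNat 0), (.ofNat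 0, .ofNat 0), (.negSucc 0, .ofNat 0), (.ofNat 1, .ofNat 0)], [(.ofNat 0, .ofNat 0), (.ofNat 0, .ofNat 0), (.ofNat 0, .ofNat 0), (.ofNat 0, .ofNat 0), (.ofNat 0, .ofNat 0), (.ofNat 0, .ofNat 0), (.ofNat 0, .ofNat 0), (.ofNat 0, .ofNat 0), (.ofNat 1, .ofNat 0), (.negSucc 1, .ofNat 0), (.ofNat 1, .ofNat 0)], [(.ofNat 0, .ofNat 0), (.ofNat 0, .ofNat 0), (.ofNat 0, .ofNat 0), (.ofNat 0, .ofNat 0), (.ofNat 0, .ofNat 0), (.ofNat 0, .ofNat 0), (.ofNat 0, .ofNat 0), (.negSucc 0, .ofNat 0), (.ofNat 3, .ofNat 0), (.negSucc 2, .ofNat 0), (.ofNat 1, .ofNat 0)], [(.ofNat 0, .ofNat 0), (.ofNat 0, .ofNat 0), (.ofNat 0, .ofNat 0), (.ofNat 0, .ofNat 0), (.ofNat 0, .ofNat 0), (.ofNat 0, .ofNat 0), (.ofNat 1, .ofNat 0), (.negSucc 3, .ofNat 0), (.ofNat 6, .ofNat 0), (.negSucc 3, .ofNat 0), (.ofNat 1, .ofNat 0)], [(.ofNat 0, .ofNat 0), (.ofNat 0, .ofNat 0), (.ofNat 0, .ofNat 0), (.ofNat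 0, .ofNat 0), (.ofNat 0, .ofNat 0), (.negSucc 0, .ofNat 0), (.ofNat 5, .ofNat 0), (.negSucc 9, .ofNat 0), (.ofNat 10, .ofNat 0), (.negSucc 4, .ofNat 0), (.ofNat 1, .ofNat 0)], [(.ofNat 0, .ofNat 0), (.ofNat 0, .ofNat 0), (.ofNat 0, .ofNat 0), (.ofNat 0, .ofNat 0), (.ofNat 1, .ofNat 0), (.negSucc 5, .ofNat 0), (.ofNat 15, .ofNat 0), (.negSucc 19, .ofNat 0), (.ofNat 15, .ofNat 0), (.negSucc 5, .ofNat 0), (.ofNat 1, .ofNat 0)], [(.ofNat 0, .ofNat 0), (.ofNat 0, .ofNat 0), (.ofNat 0, .ofNat 0), (.negSucc 0, .ofNat 0), (.ofNat 7, .ofNat 0), (.negSucc 20, .ofNat 0), (.ofNat 35, .ofNat 0), (.negSucc 34, .ofNat 0), (.ofNat 21, .ofNat 0), (.negSucc 6, .ofNat 0), (.ofNat 1, .ofNat 0)], [(.ofNat 0, .ofNat 0), (.ofNat 0, .ofNat 0), (.ofNat 1, .ofNat 0), (.negSucc 7, .ofNat 0), (.ofNat 28, .ofNat 0), (.negSucc 55, .ofNat 0), (.ofNat 70, .ofNat 0), (.negSucc 55, .ofNat 0),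 (.ofNat 28, .ofNat 0), (.negSucc 7, .ofNat 0), (.ofNat 1, .ofNat 0)], [(.ofNat 0, .ofNat 0), (.negSucc 0, .ofNat 0), (.ofNat 9, .ofNat 0), (.negSucc 35, .ofNat 0), (.ofNat 84, .ofNat 0), (.negSucc 125, .ofNat 0), (.ofNat 126, .ofNat 0), (.negSucc 83, .ofNat 0), (.ofNat 36, .ofNat 0), (.negSucc 8, .ofNat 0), (.ofNat 1, .ofNat 0)], [(.ofNat 1, .ofNat 0), (.negSucc 9, .ofNat 0), (.ofNat 45, .ofNat 0), (.negSucc 119, .ofNat 0), (.ofNat 210, .ofNat 0), (.negSucc 251, .ofNat 0), (.ofNat 210, .ofNat 0), (.negSucc 119, .ofNat 0), (.ofNat 45, .ofNat 0), (.negSucc 9, .ofNat 0), (.ofNat 1, .ofNat 0)]]]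
  tab1 := [[[(.ofNat 1, .ofNat 0), (.ofNat 0, .ofNat 0), (.ofNat 0, .ofNat 0), (.ofNat 0, .ofNat 0), (.ofNat 0, .ofNat 0), (.ofNat 0, .ofNat 0), (.ofNat 0, .ofNat 0), (.ofNat 0, .ofNat 0), (.ofNat 0, .ofNat 0), (.ofNat 0, .ofNat 0), (.ofNat 0, .ofNat 0)], [(.ofNat 0, .ofNat 0), (.ofNat 1, .ofNat 0), (.ofNat 0, .ofNat 0), (.ofNat 0, .ofNat 0), (.ofNat 0, .ofNat 0), (.ofNat 0, .ofNat 0), (.ofNat 0, .ofNat 0), (.ofNat 0, .ofNat 0), (.ofNat 0, .ofNat 0), (.ofNat 0, .ofNat 0), (.ofNat 0, .ofNat 0)], [(.ofNat 0, .ofNat 0), (.ofNat 0, .ofNat 0), (.ofNat 1, .ofNat 0), (.ofNat 0, .ofNat 0), (.ofNat 0, .ofNat 0), (.ofNat 0, .ofNat 0), (.ofNat 0, .ofNat 0), (.ofNat 0, .ofNat 0), (.ofNat 0, .ofNat 0), (.ofNat 0, .ofNat 0), (.ofNat 0, .ofNat 0)], [(.ofNat 0, .ofNat 0), (.ofNat 0, .ofNat 0), (.ofNat 0, .ofNat 0), (.ofNat 1, .ofNat 0), (.ofNat 0, .ofNat 0), (.ofNat 0, .ofNat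 0), (.ofNat 0, .ofNat 0), (.ofNat 0, .ofNat 0), (.ofNat 0, .ofNat 0), (.ofNat 0, .ofNat 0), (.ofNat 0, .ofNat 0)], [(.ofNat 0, .ofNat 0), (.ofNat 0, .ofNat 0), (.ofNat 0, .ofNat 0), (.ofNat 0, .ofNat 0), (.ofNat 1, .ofNat 0), (.ofNat 0, .ofNat 0), (.ofNat 0, .ofNat 0), (.ofNat 0, .ofNat 0), (.ofNat 0, .ofNat 0), (.ofNat 0, .ofNat 0), (.ofNat 0, .ofNat 0)], [(.ofNat 0, .ofNat 0), (.ofNat 0, .ofNat 0), (.ofNat 0, .ofNat 0), (.ofNat 0, .ofNat 0), (.ofNat 0, .ofNat 0), (.ofNat 1, .ofNat 0), (.ofNat 0, .ofNat 0), (.ofNat 0, .ofNat 0), (.ofNat 0, .ofNat 0), (.ofNat 0, .ofNat 0), (.ofNat 0, .ofNat 0)], [(.ofNat 0, .ofNat 0), (.ofNat 0, .ofNat 0), (.ofNat 0, .ofNat 0), (.ofNat 0, .ofNat 0), (.ofNat 0, .ofNat 0), (.ofNat 0, .ofNat 0), (.ofNat 1, .ofNat 0), (.ofNat 0, .ofNat 0), (.ofNat 0, .ofNat 0), (.ofNat 0, .ofNat 0), (.ofNat 0, .ofNat 0)], [(.ofNat 0, .ofNat 0), (.ofNat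 0, .ofNat 0), (.ofNat 0, .ofNat 0), (.ofNat 0, .ofNat 0), (.ofNat 0, .ofNat 0), (.ofNat 0, .ofNat 0), (.ofNat 0, .ofNat 0), (.ofNat 1, .ofNat 0), (.ofNat 0, .ofNat 0), (.ofNat 0, .ofNat 0), (.ofNat 0, .ofNat 0)], [(.ofNat 0, .ofNat 0), (.ofNat 0, .ofNat 0), (.ofNat 0, .ofNat 0), (.ofNat 0, .ofNat 0), (.ofNat 0, .ofNat 0), (.ofNat 0, .ofNat 0), (.ofNat 0, .ofNat 0), (.ofNat 0, .ofNat 0), (.ofNat 1, .ofNat 0), (.ofNat 0, .ofNat 0), (.ofNat 0, .ofNat 0)], [(.ofNat 0, .ofNat 0), (.ofNat 0, .ofNat 0), (.ofNat 0, .ofNat 0), (.ofNat 0, .ofNat 0), (.ofNat 0, .ofNat 0), (.ofNat 0, .ofNat 0), (.ofNat 0, .ofNat 0), (.ofNat 0, .ofNat 0), (.ofNat 0, .ofNat 0), (.ofNat 1, .ofNat 0), (.ofNat 0, .ofNat 0)], [(.ofNat 0, .ofNat 0), (.ofNat 0, .ofNat 0), (.ofNat 0, .ofNat 0), (.ofNat 0, .ofNat 0), (.ofNat 0, .ofNat 0), (.ofNat 0, .ofNat 0), (.ofNat 0, .ofNat 0), (.ofNat 0, .ofNat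 0), (.ofNat 0, .ofNat 0), (.ofNat 0, .ofNat 0), (.ofNat 1, .ofNat 0)]], [[(.negSucc 31, .ofNat 0), (.ofNat 0, .ofNat 160), (.ofNat 720, .ofNat 0), (.ofNat 0, .negSucc 959), (.negSucc 1679, .ofNat 0), (.ofNat 0, .ofNat 1008), (.ofNat 840, .ofNat 0), (.ofNat 0, .negSucc 239), (.negSucc 89, .ofNat 0), (.ofNat 0, .ofNat 10), (.ofNat 1, .ofNat 0)], [(.ofNat 0, .ofNat 16), (.ofNat 144, .ofNat 0), (.ofNat 0, .negSucc 287), (.negSucc 671, .ofNat 0), (.ofNat 0, .ofNat 504), (.ofNat 504, .ofNat 0), (.ofNat 0, .negSucc 167), (.negSucc 71, .ofNat 0), (.ofNat 0, .ofNat 9), (.ofNat 1, .ofNat 0), (.ofNat 0, .ofNat 0)], [(.ofNat 16, .ofNat 0), (.ofNat 0, .negSucc 63), (.negSucc 223, .ofNat 0), (.ofNat 0, .ofNat 224), (.ofNat 280, .ofNat 0), (.ofNat 0, .negSucc 111), (.negSucc 55, .ofNat 0), (.ofNat 0, .ofNat 8), (.ofNat 1, .ofNat 0), (.ofNat 0, .ofNat 0), (.ofNat 0, .ofNat 0)],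 [(.ofNat 0, .negSucc 7), (.negSucc 55, .ofNat 0), (.ofNat 0, .ofNat 84), (.ofNat 140, .ofNat 0), (.ofNat 0, .negSucc 69), (.negSucc 41, .ofNat 0), (.ofNat 0, .ofNat 7), (.ofNat 1, .ofNat 0), (.ofNat 0, .ofNat 0), (.ofNat 0, .ofNat 0), (.ofNat 0, .ofNat 0)], [(.negSucc 7, .ofNat 0), (.ofNat 0, .ofNat 24), (.ofNat 60, .ofNat 0), (.ofNat 0, .negSucc 39), (.negSucc 29, .ofNat 0), (.ofNat 0, .ofNat 6), (.ofNat 1, .ofNat 0), (.ofNat 0, .ofNat 0), (.ofNat 0, .ofNat 0), (.ofNat 0, .ofNat 0), (.ofNat 0, .ofNat 0)], [(.ofNat 0, .ofNat 4), (.ofNat 20, .ofNat 0), (.ofNat 0, .negSucc 19), (.negSucc 19, .ofNat 0), (.ofNat 0, .ofNat 5), (.ofNat 1, .ofNat 0), (.ofNat 0, .ofNat 0), (.ofNat 0, .ofNat 0), (.ofNat 0, .ofNat 0), (.ofNat 0, .ofNat 0), (.ofNat 0, .ofNat 0)], [(.ofNat 4, .ofNat 0), (.ofNat 0, .negSucc 7), (.negSucc 11, .ofNat 0), (.ofNat 0, .ofNat 4), (.ofNat 1, .ofNat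 0), (.ofNat 0, .ofNat 0), (.ofNat 0, .ofNat 0), (.ofNat 0, .ofNat 0), (.ofNat 0, .ofNat 0), (.ofNat 0, .ofNat 0), (.ofNat 0, .ofNat 0)], [(.ofNat 0, .negSucc 1), (.negSucc 5, .ofNat 0), (.ofNat 0, .ofNat 3), (.ofNat 1, .ofNat 0), (.ofNat 0, .ofNat 0), (.ofNat 0, .ofNat 0), (.ofNat 0, .ofNat 0), (.ofNat 0, .ofNat 0), (.ofNat 0, .ofNat 0), (.ofNat 0, .ofNat 0), (.ofNat 0, .ofNat 0)], [(.negSucc 1, .ofNat 0), (.ofNat 0, .ofNat 2), (.ofNat 1, .ofNat 0), (.ofNat 0, .ofNat 0), (.ofNat 0, .ofNat 0), (.ofNat 0, .ofNat 0), (.ofNat 0, .ofNat 0), (.ofNat 0, .ofNat 0), (.ofNat 0, .ofNat 0), (.ofNat 0, .ofNat 0), (.ofNat 0, .ofNat 0)], [(.ofNat 0, .ofNat 1), (.ofNat 1, .ofNat 0), (.ofNat 0, .ofNat 0), (.ofNat 0, .ofNat 0), (.ofNat 0, .ofNat 0), (.ofNat 0, .ofNat 0), (.ofNat 0, .ofNat 0), (.ofNat 0, .ofNat 0), (.ofNat 0, .ofNat 0), (.ofNat 0, .ofNat 0), (.ofNat 0, .ofNat 0)],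 [(.ofNat 1, .ofNat 0), (.ofNat 0, .ofNat 0), (.ofNat 0, .ofNat 0), (.ofNat 0, .ofNat 0), (.ofNat 0, .ofNat 0), (.ofNat 0, .ofNat 0), (.ofNat 0, .ofNat 0), (.ofNat 0, .ofNat 0), (.ofNat 0, .ofNat 0), (.ofNat 0, .ofNat 0), (.ofNat 0, .ofNat 0)]], [[(.ofNat 1, .ofNat 0), (.ofNat 0, .negSucc 9), (.negSucc 89, .ofNat 0), (.ofNat 0, .ofNat 240), (.ofNat 840, .ofNat 0), (.ofNat 0, .negSucc 1007), (.negSucc 1679, .ofNat 0), (.ofNat 0, .ofNat 960), (.ofNat 720, .ofNat 0), (.ofNat 0, .negSucc 159), (.negSucc 31, .ofNat 0)], [(.ofNat 0, .ofNat 1), (.ofNat 19, .ofNat 0), (.ofNat 0, .negSucc 80), (.negSucc 407, .ofNat 0), (.ofNat 0, .ofNat 672), (.ofNat 1512, .ofNat 0), (.ofNat 0, .negSucc 1175), (.negSucc 1247, .ofNat 0), (.ofNat 0, .ofNat 432), (.ofNat 176, .ofNat 0), (.ofNat 0, .negSucc 15)], [(.negSucc 1, .ofNat 0), (.ofNat 0, .ofNat 18), (.ofNat 145, .ofNat 0), (.ofNat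 0, .negSucc 343), (.negSucc 1063, .ofNat 0), (.ofNat 0, .ofNat 1120), (.ofNat 1624, .ofNat 0), (.ofNat 0, .negSucc 799), (.negSucc 511, .ofNat 0), (.ofNat 0, .ofNat 96), (.ofNat 16, .ofNat 0)], [(.ofNat 0, .negSucc 1), (.negSucc 33, .ofNat 0), (.ofNat 0, .ofNat 129), (.ofNat 575, .ofNat 0), (.ofNat 0, .negSucc 832), (.negSucc 1637, .ofNat 0), (.ofNat 0, .ofNat 1106), (.ofNat 1012, .ofNat 0), (.ofNat 0, .negSucc 299), (.negSucc 103, .ofNat 0), (.ofNat 0, .ofNat 8)], [(.ofNat 4, .ofNat 0), (.ofNat 0, .negSucc 31), (.negSucc 227, .ofNat 0), (.ofNat 0, .ofNat 476), (.ofNat 1289, .ofNat 0), (.ofNat 0, .negSucc 1181), (.negSucc 1485, .ofNat 0), (.ofNat 0, .ofNat 632), (.ofNat 348, .ofNat 0), (.ofNat 0, .negSucc 55), (.negSucc 7, .ofNat 0)], [(.ofNat 0, .ofNat 4), (.ofNat 60, .ofNat 0), (.ofNat 0, .negSucc 199), (.negSucc 779, .ofNat 0), (.ofNat 0, .ofNat 985), (.ofNat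 1683, .ofNat 0), (.ofNat 0, .negSucc 984), (.negSucc 779, .ofNat 0), (.ofNat 0, .ofNat 200), (.ofNat 60, .ofNat 0), (.ofNat 0, .negSucc 3)], [(.negSucc 7, .ofNat 0), (.ofNat 0, .ofNat 56), (.ofNat 348, .ofNat 0), (.ofNat 0, .negSucc 631), (.negSucc 1485, .ofNat 0), (.ofNat 0, .ofNat 1182), (.ofNat 1289, .ofNat 0), (.ofNat 0, .negSucc 475), (.negSucc 227, .ofNat 0), (.ofNat 0, .ofNat 32), (.ofNat 4, .ofNat 0)], [(.ofNat 0, .negSucc 7), (.negSucc 103, .ofNat 0), (.ofNat 0, .ofNat 300), (.ofNat 1012, .ofNat 0), (.ofNat 0, .negSucc 1105), (.negSucc 1637, .ofNat 0), (.ofNat 0, .ofNat 833), (.ofNat 575, .ofNat 0), (.ofNat 0, .negSucc 128), (.negSucc 33, .ofNat 0), (.ofNat 0, .ofNat 2)], [(.ofNat 16, .ofNat 0), (.ofNat 0, .negSucc 95), (.negSucc 511, .ofNat 0), (.ofNat 0, .ofNat 800), (.ofNat 1624, .ofNat 0), (.ofNat 0, .negSucc 1119), (.negSucc 1063, .ofNat 0), (.ofNat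 0, .ofNat 344), (.ofNat 145, .ofNat 0), (.ofNat 0, .negSucc 17), (.negSucc 1, .ofNat 0)], [(.ofNat 0, .ofNat 16), (.ofNat 176, .ofNat 0), (.ofNat 0, .negSucc 431), (.negSucc 1247, .ofNat 0), (.ofNat 0, .ofNat 1176), (.ofNat 1512, .ofNat 0), (.ofNat 0, .negSucc 671), (.negSucc 407, .ofNat 0), (.ofNat 0, .ofNat 81), (.ofNat 19, .ofNat 0), (.ofNat 0, .negSucc 0)], [(.negSucc 31, .ofNat 0), (.ofNat 0, .ofNat 160), (.ofNat 720, .ofNat 0), (.ofNat 0, .negSucc 959), (.negSucc 1679, .ofNat 0), (.ofNat 0, .ofNat 1008), (.ofNat 840, .ofNat 0), (.ofNat 0, .negSucc 239), (.negSucc 89, .ofNat 0), (.ofNat 0, .ofNat 10), (.ofNat 1, .ofNat 0)]], [[(.ofNat 0, .ofNat 0), (.ofNat 0, .ofNat 0), (.ofNat 0, .ofNat 0), (.ofNat 0, .ofNat 0), (.ofNat 0, .ofNat 0), (.ofNat 0, .ofNat 0), (.ofNat 0, .ofNat 0), (.ofNat 0, .ofNat 0), (.ofNat 0, .ofNat 0), (.ofNat 0, .ofNat 0), (.ofNat 1, .ofNat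 0)], [(.ofNat 0, .ofNat 0), (.ofNat 0, .ofNat 0), (.ofNat 0, .ofNat 0), (.ofNat 0, .ofNat 0), (.ofNat 0, .ofNat 0), (.ofNat 0, .ofNat 0), (.ofNat 0, .ofNat 0), (.ofNat 0, .ofNat 0), (.ofNat 0, .ofNat 0), (.ofNat 1, .ofNat 0), (.ofNat 0, .negSucc 0)], [(.ofNat 0, .ofNat 0), (.ofNat 0, .ofNat 0), (.ofNat 0, .ofNat 0), (.ofNat 0, .ofNat 0), (.ofNat 0, .ofNat 0), (.ofNat 0, .ofNat 0), (.ofNat 0, .ofNat 0), (.ofNat 0, .ofNat 0), (.ofNat 1, .ofNat 0), (.ofNat 0, .negSucc 1), (.negSucc 1, .ofNat 0)], [(.ofNat 0, .ofNat 0), (.ofNat 0, .ofNat 0), (.ofNat 0, .ofNat 0), (.ofNat 0, .ofNat 0), (.ofNat 0, .ofNat 0), (.ofNat 0, .ofNat 0), (.ofNat 0, .ofNat 0), (.ofNat 1, .ofNat 0), (.ofNat 0, .negSucc 2), (.negSucc 5, .ofNat 0), (.ofNat 0, .ofNat 2)], [(.ofNat 0, .ofNat 0), (.ofNat 0, .ofNat 0), (.ofNat 0, .ofNat 0), (.ofNat 0, .ofNat 0), (.ofNat 0, .ofNat 0), (.ofNat 0, .ofNat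 0), (.ofNat 1, .ofNat 0), (.ofNat 0, .negSucc 3), (.negSucc 11, .ofNat 0), (.ofNat 0, .ofNat 8), (.ofNat 4, .ofNat 0)], [(.ofNat 0, .ofNat 0), (.ofNat 0, .ofNat 0), (.ofNat 0, .ofNat 0), (.ofNat 0, .ofNat 0), (.ofNat 0, .ofNat 0), (.ofNat 1, .ofNat 0), (.ofNat 0, .negSucc 4), (.negSucc 19, .ofNat 0), (.ofNat 0, .ofNat 20), (.ofNat 20, .ofNat 0), (.ofNat 0, .negSucc 3)], [(.ofNat 0, .ofNat 0), (.ofNat 0, .ofNat 0), (.ofNat 0, .ofNat 0), (.ofNat 0, .ofNat 0), (.ofNat 1, .ofNat 0), (.ofNat 0, .negSucc 5), (.negSucc 29, .ofNat 0), (.ofNat 0, .ofNat 40), (.ofNat 60, .ofNat 0), (.ofNat 0, .negSucc 23), (.negSucc 7, .ofNat 0)], [(.ofNat 0, .ofNat 0), (.ofNat 0, .ofNat 0), (.ofNat 0, .ofNat 0), (.ofNat 1, .ofNat 0), (.ofNat 0, .negSucc 6), (.negSucc 41, .ofNat 0), (.ofNat 0, .ofNat 70), (.ofNat 140, .ofNat 0), (.ofNat 0, .negSucc 83), (.negSucc 55, .ofNat 0), (.ofNat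 0, .ofNat 8)], [(.ofNat 0, .ofNat 0), (.ofNat 0, .ofNat 0), (.ofNat 1, .ofNat 0), (.ofNat 0, .negSucc 7), (.negSucc 55, .ofNat 0), (.ofNat 0, .ofNat 112), (.ofNat 280, .ofNat 0), (.ofNat 0, .negSucc 223), (.negSucc 223, .ofNat 0), (.ofNat 0, .ofNat 64), (.ofNat 16, .ofNat 0)], [(.ofNat 0, .ofNat 0), (.ofNat 1, .ofNat 0), (.ofNat 0, .negSucc 8), (.negSucc 71, .ofNat 0), (.ofNat 0, .ofNat 168), (.ofNat 504, .ofNat 0), (.ofNat 0, .negSucc 503), (.negSucc 671, .ofNat 0), (.ofNat 0, .ofNat 288), (.ofNat 144, .ofNat 0), (.ofNat 0, .negSucc 15)], [(.ofNat 1, .ofNat 0), (.ofNat 0, .negSucc 9), (.negSucc 89, .ofNat 0), (.ofNat 0, .ofNat 240), (.ofNat 840, .ofNat 0), (.ofNat 0, .negSucc 1007), (.negSucc 1679, .ofNat 0), (.ofNat 0, .ofNat 960), (.ofNat 720, .ofNat 0), (.ofNat 0, .negSucc 159), (.negSucc 31, .ofNat 0)]]]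
  rws := [(0, 0, 1, 0), (0, 0, 3, 0), (0, 0, 8, 0), (0, 0, 9, 0), (0, 0, 10, 0), (0, 1, 6, 0), (0, 1, 7, 0), (0, 1, 8, 0), (0, 1, 9, 0), (0, 2, 7, 0), (0, 2, 8, 0), (0, 4, 5, 0), (1, 0, 1, 1), (1, 0, 7, 1), (1, 0, 9, 1), (1, 0, 10, 0)]
  cols := [((0, 2), [.ofNat 4, .ofNat 72, .negSucc 71, .ofNat 18, .negSucc 1, .ofNat 2100, .negSucc 1439, .ofNat 630, .negSucc 159, .ofNat 5400, .negSucc 2429, .ofNat 10584, .ofNat 1028, .negSucc 12095, .ofNat 864, .negSucc 127]), ((0, 4), [.ofNat 8, .ofNat 104, .negSucc 59, .ofNat 16, .negSucc 1, .ofNat 1400, .negSucc 919, .ofNat 420, .negSucc 119, .ofNat 2700, .negSucc 1349, .ofNat 3528, .negSucc 1039, .ofNat 18480, .negSucc 1631, .ofNat 256]), ((0, 6), [.ofNat 12, .ofNat 136, .negSucc 50, .ofNat 14, .negSucc 1, .ofNat 850, .negSucc 519, .ofNat 240, .negSucc 79, .ofNat 900, .negSucc 539, .ofNat 252, .ofNat 816, .negSucc 27431,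 .ofNat 3048, .negSucc 511]), ((0, 8), [.ofNat 16, .ofNat 176, .negSucc 45, .ofNat 12, .negSucc 1, .ofNat 420, .negSucc 239, .ofNat 100, .negSucc 39, .ofNat 120, .negSucc 89, .ofNat 0, .negSucc 639, .ofNat 40624, .negSucc 5615, .ofNat 1024]), ((0, 10), [.ofNat 20, .ofNat 240, .negSucc 89, .ofNat 20, .negSucc 1, .ofNat 0, .ofNat 0, .ofNat 0, .ofNat 0, .ofNat 0, .ofNat 0, .ofNat 0, .ofNat 640, .negSucc 61439, .ofNat 10240, .negSucc 2047]), ((1, 3), [.ofNat 4, .ofNat 50, .negSucc 8, .ofNat 1, .ofNat 0, .ofNat 560, .negSucc 277, .ofNat 84, .negSucc 13, .ofNat 1035, .negSucc 377, .ofNat 2646, .ofNat 520, .negSucc 7979, .ofNat 648, .negSucc 95]), ((1, 5), [.ofNat 8, .ofNat 84, .negSucc 8, .ofNat 1, .ofNat 0, .ofNat 425, .negSucc 189, .ofNat 55, .negSucc 9, .ofNat 450, .negSucc 179, .ofNat 588, .negSucc 543, .ofNat 15348, .negSucc 1531, .ofNat 240]), ((1, 7), [.ofNat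 12, .ofNat 118, .negSucc 8, .ofNat 1, .ofNat 0, .ofNat 259, .negSucc 108, .ofNat 30, .negSucc 5, .ofNat 117, .negSucc 53, .ofNat 0, .ofNat 480, .negSucc 24929, .ofNat 3002, .negSucc 503]), ((1, 9), [.ofNat 16, .ofNat 168, .negSucc 17, .ofNat 2, .ofNat 0, .ofNat 168, .negSucc 71, .ofNat 18, .negSucc 1, .ofNat 0, .ofNat 0, .ofNat 0, .negSucc 511, .ofNat 39264, .negSucc 5595, .ofNat 1020]), ((2, 4), [.ofNat 4, .ofNat 40, .negSucc 0, .ofNat 0, .ofNat 0, .ofNat 160, .negSucc 47, .ofNat 6, .ofNat 0, .ofNat 140, .negSucc 29, .ofNat 532, .ofNat 272, .negSucc 6863, .ofNat 640, .negSucc 95]), ((2, 6), [.ofNat 8, .ofNat 72, .negSucc 0, .ofNat 0, .ofNat 0, .ofNat 114, .negSucc 31, .ofNat 4, .ofNat 0, .ofNat 52, .negSucc 11, .ofNat 56, .negSucc 319, .ofNat 14216, .negSucc 1527, .ofNat 240]), ((2, 8), [.ofNat 12, .ofNat 112, .negSucc 1, .ofNat 0, .ofNat 0, .ofNat 112, .negSucc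 31, .ofNat 4, .ofNat 0, .ofNat 16, .negSucc 1, .ofNat 0, .ofNat 384, .negSucc 24255, .ofNat 3000, .negSucc 503]), ((3, 5), [.ofNat 4, .ofNat 34, .ofNat 0, .ofNat 0, .ofNat 0, .ofNat 35, .negSucc 4, .ofNat 0, .ofNat 0, .ofNat 10, .ofNat 0, .ofNat 77, .ofNat 160, .negSucc 6431, .ofNat 640, .negSucc 95]), ((3, 7), [.ofNat 8, .ofNat 68, .ofNat 0, .ofNat 0, .ofNat 0, .ofNat 42, .negSucc 5, .ofNat 0, .ofNat 0, .ofNat 6, .ofNat 0, .ofNat 0, .negSucc 255, .ofNat 13896, .negSucc 1527, .ofNat 240]), ((4, 6), [.ofNat 4, .ofNat 32, .ofNat 0, .ofNat 0, .ofNat 0, .ofNat 8, .ofNat 0, .ofNat 0, .ofNat 0, .ofNat 0, .ofNat 0, .ofNat 12, .ofNat 128, .negSucc 6303, .ofNat 640, .negSucc 95])]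
  tg := [((0, 2), .ofNat 3780, [.ofNat 16990253669210613948, .negSucc 2055647406065238761, .negSucc 37491939548512570691, .negSucc 158847929973161700899, .ofNat 12351495857962157364, .negSucc 86069808674958893, .negSucc 152165343474030005, .negSucc 21110831417696330765, .negSucc 58228271298953935637, .ofNat 1945950402183169208, .ofNat 1640128630117258576, .negSucc 219901499034849423, .ofNat 73007994298950000, .ofNat 14279761508973921, .ofNat 273623507005675185, .ofNat 971847629440240329]), ((0, 4), .ofNat 18144, [.negSucc 96547360085700318431, .ofNat 11681245859340812142, .ofNat 213048484053017710608, .ofNat 902655639672946408272, .negSucc 70187552311625947871, .ofNat 489092921885367408, .ofNat 864681746074773948, .ofNat 119962602223320052680, .ofNat 330882986547493088160, .negSucc 11057891061918483111, .negSucc 9320054457206715919, .ofNat 1249593421266984464,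 .negSucc 414868974410260079, .negSucc 81144949521456944, .negSucc 1554869501840504672, .negSucc 5522538088883127416]), ((0, 6), .ofNat 9072, [.ofNat 7232971086322052382, .negSucc 875115730537156964, .negSucc 15960804353141821631, .negSucc 67623621576649398659, .ofNat 5258191793524858476, .negSucc 36641032539668831, .negSucc 64778757934576895, .negSucc 8987154413657163395, .negSucc 24788529407012161259, .ofNat 828416294920542862, .ofNat 698224004800240484, .negSucc 93614916841427233, .ofNat 31080448951251840, .ofNat 6079079460783042, .ofNat 116485071573518424, .ofNat 413728125601254576]), ((0, 8), .ofNat 18144, [.ofNat 528199732530285048, .negSucc 63906780393035753, .negSucc 1165564259788218191, .negSucc 4938327335092366463, .ofNat 383988193206887952, .negSucc 2675772287237615, .negSucc 4730576440426379, .negSucc 656301884917216007, .negSucc 1810223550785058647,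 .ofNat 60496476507175424, .ofNat 50988968181960112, .negSucc 6836384861264151, .ofNat 2269701430717680, .ofNat 443934879165585, .ofNat 8506515913665633, .ofNat 30213183859676517]), ((0, 10), .ofNat 2520, [.ofNat 157865272686, .negSucc 19100087888, .negSucc 348357086063, .negSucc 1475938633379, .ofNat 114764160708, .negSucc 799719287, .negSucc 1413847151, .negSucc 196151700611, .negSucc 541029115535, .ofNat 18080836046, .ofNat 15239287132, .negSucc 2043219057, .ofNat 678355200, .ofNat 132680682, .ofNat 2542378140, .ofNat 9029941158]), ((1, 3), .ofNat 4536, [.negSucc 86704446329211936959, .ofNat 10490353685181212550, .ofNat 191328388831118784816, .ofNat 810630734950311398160, .negSucc 63031996493553068927, .ofNat 439230352419489696, .ofNat 776528244561850812, .ofNat 107732526262260819240, .ofNat 297149773156831937184, .negSucc 9930549330829269511, .negSucc 8369883555105974703,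 .ofNat 1122198531698922640, .negSucc 372573467503194959, .negSucc 72872297227231010, .negSucc 1396351999180389410, .negSucc 4959520456111456682]), ((1, 5), .ofNat 7560, [.ofNat 95699005179736262922, .negSucc 11578603568306156102, .negSucc 211176441912309355727, .negSucc 894724067648264254499, .ofNat 69570819194447884356, .negSucc 484795296560504135, .negSucc 857083847999422823, .negSucc 118908499221042142163, .negSucc 327975540868104309011, .ofNat 10960726145926296922, .ofNat 9238159790013262604, .negSucc 1238613331200812005, .ofNat 411223549724791200, .ofNat 80431934520739824, .ofNat 1541206972188223110, .ofNat 5474011932632775966]), ((1, 7), .ofNat 1134, [.negSucc 845506491543289619, .ofNat 102297661941444864, .ofNat 1865756620588899024, .ofNat 7904941184245366608, .negSucc 614662390065965111, .ofNat 4283195729579340, .ofNat 7572387569909328, .ofNat 1050563773387330176,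 .ofNat 2897683715212553688, .negSucc 96838677591303271, .negSucc 81619699783734135, .ofNat 10943223600657052, .negSucc 3633184902129839, .negSucc 710621000050733, .negSucc 13616656697211668, .negSucc 48363226087194416]), ((1, 9), .ofNat 2268, [.negSucc 174184684012390013, .ofNat 21074570211699183, .ofNat 384368695748436096, .ofNat 1628514619445544924, .negSucc 126627974190087371, .ofNat 882390735239880, .ofNat 1560004505342028, .ofNat 216428993429040996, .ofNat 596958305288737512, .negSucc 19949952632096565, .negSucc 16814656963849987, .ofNat 2254437977736098, .negSucc 748480550374799, .negSucc 146396622124592, .negSucc 2805197911347734, .negSucc 9963416411432546]), ((2, 4), .ofNat 3024, [.ofNat 98947442012065297254, .negSucc 11971631293386261332, .negSucc 218344680816568092575, .negSucc 925094860016078254523, .ofNat 71932352745443244012, .negSucc 501251339071485599,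 .negSucc 886176969031004327, .negSucc 122944766346509633291, .negSucc 339108444758364457163, .ofNat 11332780447375173686, .ofNat 9551742762672556516, .negSucc 1280657207817192537, .ofNat 425182249950955200, .ofNat 83162141152477938, .ofNat 1593522181581387300, .ofNat 5659823498271998412]), ((2, 6), .ofNat 9072, [.negSucc 126055434355908280919, .ofNat 15251421885697436430, .ofNat 278163164402758279008, .ofNat 1178537130707483887320, .negSucc 91639195366574255183, .ofNat 638575934690866368, .ofNat 1128957156201241188, .ofNat 156627150823209538896, .ofNat 432011797662835426584, .negSucc 14437549194852644703, .negSucc 12168572105763005455, .ofNat 1631510601079868120, .negSucc 541666687972146479, .negSucc 105945536456262872, .negSucc 2030089173306036092, .negSucc 7210408828612984448]), ((2, 8), .ofNat 1512, [.ofNat 494304337759761342, .negSucc 59805783333538970, .negSucc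 1090768196324127167, .negSucc 4621427222842386635, .ofNat 359347076225441676, .negSucc 2504063836025447, .negSucc 4427008024654547, .negSucc 614185976657053667, .negSucc 1694058702341346599, .ofNat 56614323928995686, .ofNat 47716927135739140, .negSucc 6397683458356209, .ofNat 2124051175206000, .ofNat 415446890522679, .ofNat 7960639614882165, .ofNat 28274357065346931]), ((3, 5), .ofNat 1134, [.negSucc 39706104436104933485, .ofNat 4804033664132263308, .ofNat 87618401479378561176, .ofNat 371226505487866575852, .negSucc 28865359754296408619, .ofNat 201144543135176676, .ofNat 355609347404195232, .ofNat 49335865921949001936, .ofNat 136079064288483422268, .negSucc 4547672530433457027, .negSucc 3832969180094994235, .ofNat 513908270961058706, .negSucc 170619173953703279, .negSucc 33371703144460466, .negSucc 639456229251531512, .negSucc 2271201138124464524]), ((3, 7), .ofNat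 2268, [.ofNat 28811372474632281642, .negSucc 3485882214930402212, .negSucc 63577287082305080927, .negSucc 269367777926396114819, .ofNat 20945158013001085956, .negSucc 145953636998853335, .negSucc 258035722945339499, .negSucc 35798878525671341291, .negSucc 98741104495000597427, .ofNat 3299862553321411142, .ofNat 2781262586694074524, .negSucc 372899906015199045, .ofNat 123803950095504000, .ofNat 24215031493587144, .ofNat 463999474736625240, .ofNat 1648019187090357816]), ((4, 6), .ofNat 324, [.ofNat 10832535704076338502, .negSucc 1310626336412325863, .negSucc 23903867574992239127, .negSucc 101277232609608508511, .ofNat 7874986594381626996, .negSucc 54875830206367883, .negSucc 97016592465237383, .negSucc 13459706931236408987, .negSucc 37124803438080719555, .ofNat 1240686432375690676, .ofNat 1045702571069853764, .negSucc 140203371065124643, .ofNat 46547963339684400,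 .ofNat 9104397697838349, .ofNat 174455100366444405, .ofNat 619624306369891221])]

theorem NIT_2_0_10 (l : ℕ) (hlp : l.Prime) (hl2 : l ≠ 2) (hls : ¬ l ∣ 8) (hE : ¬ l ∣ 1)
    (hj : 10 < l) : NUMA_stmt 2 0 l 10 :=
  @NI_fin 2 0 1 1 8 10 (by norm_num) NIC_2_0_10 (by decide +kernel) (by decide +kernel)
    (by decide +kernel) (by decide +kernel) l hlp hl2 hls hE hj

/-- certificate, `d = 2`, `t = 0`, `j = 11` -/
def NIC_2_0_11 : NI_Cert where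
  tab0 := [[[(.ofNat 1, .ofNat 0), (.ofNat 0, .ofNat 0), (.ofNat 0, .ofNat 0), (.ofNat 0, .ofNat 0), (.ofNat 0, .ofNat 0), (.ofNat 0, .ofNat 0), (.ofNat 0, .ofNat 0), (.ofNat 0, .ofNat 0), (.ofNat 0, .ofNat 0), (.ofNat 0, .ofNat 0), (.ofNat 0, .ofNat 0), (.ofNat 0, .ofNat 0)], [(.ofNat 0, .ofNat 0), (.ofNat 1, .ofNat 0), (.ofNat 0, .ofNat 0), (.ofNat 0, .ofNat 0), (.ofNat 0, .ofNat 0), (.ofNat 0, .ofNat 0), (.ofNat 0, .ofNat 0), (.ofNat 0, .ofNat 0), (.ofNat 0, .ofNat 0), (.ofNat 0, .ofNat 0), (.ofNat 0, .ofNat 0), (.ofNat 0, .ofNat 0)], [(.ofNat 0, .ofNat 0), (.ofNat 0, .ofNat 0), (.ofNat 1, .ofNat 0), (.ofNat 0, .ofNat 0), (.ofNat 0, .ofNat 0), (.ofNat 0, .ofNat 0), (.ofNat 0, .ofNat 0), (.ofNat 0, .ofNat 0), (.ofNat 0, .ofNat 0), (.ofNat 0, .ofNat 0), (.ofNat 0, .ofNat 0), (.ofNat 0, .ofNat 0)], [(.ofNat 0, .ofNat 0), (.ofNat 0, .ofNat 0), (.ofNat 0, .ofNat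 0), (.ofNat 1, .ofNat 0), (.ofNat 0, .ofNat 0), (.ofNat 0, .ofNat 0), (.ofNat 0, .ofNat 0), (.ofNat 0, .ofNat 0), (.ofNat 0, .ofNat 0), (.ofNat 0, .ofNat 0), (.ofNat 0, .ofNat 0), (.ofNat 0, .ofNat 0)], [(.ofNat 0, .ofNat 0), (.ofNat 0, .ofNat 0), (.ofNat 0, .ofNat 0), (.ofNat 0, .ofNat 0), (.ofNat 1, .ofNat 0), (.ofNat 0, .ofNat 0), (.ofNat 0, .ofNat 0), (.ofNat 0, .ofNat 0), (.ofNat 0, .ofNat 0), (.ofNat 0, .ofNat 0), (.ofNat 0, .ofNat 0), (.ofNat 0, .ofNat 0)], [(.ofNat 0, .ofNat 0), (.ofNat 0, .ofNat 0), (.ofNat 0, .ofNat 0), (.ofNat 0, .ofNat 0), (.ofNat 0, .ofNat 0), (.ofNat 1, .ofNat 0), (.ofNat 0, .ofNat 0), (.ofNat 0, .ofNat 0), (.ofNat 0, .ofNat 0), (.ofNat 0, .ofNat 0), (.ofNat 0, .ofNat 0), (.ofNat 0, .ofNat 0)], [(.ofNat 0, .ofNat 0), (.ofNat 0, .ofNat 0), (.ofNat 0, .ofNat 0), (.ofNat 0, .ofNat 0), (.ofNat 0, .ofNat 0), (.ofNat 0, .ofNat 0), (.ofNat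 1, .ofNat 0), (.ofNat 0, .ofNat 0), (.ofNat 0, .ofNat 0), (.ofNat 0, .ofNat 0), (.ofNat 0, .ofNat 0), (.ofNat 0, .ofNat 0)], [(.ofNat 0, .ofNat 0), (.ofNat 0, .ofNat 0), (.ofNat 0, .ofNat 0), (.ofNat 0, .ofNat 0), (.ofNat 0, .ofNat 0), (.ofNat 0, .ofNat 0), (.ofNat 0, .ofNat 0), (.ofNat 1, .ofNat 0), (.ofNat 0, .ofNat 0), (.ofNat 0, .ofNat 0), (.ofNat 0, .ofNat 0), (.ofNat 0, .ofNat 0)], [(.ofNat 0, .ofNat 0), (.ofNat 0, .ofNat 0), (.ofNat 0, .ofNat 0), (.ofNat 0, .ofNat 0), (.ofNat 0, .ofNat 0), (.ofNat 0, .ofNat 0), (.ofNat 0, .ofNat 0), (.ofNat 0, .ofNat 0), (.ofNat 1, .ofNat 0), (.ofNat 0, .ofNat 0), (.ofNat 0, .ofNat 0), (.ofNat 0, .ofNat 0)], [(.ofNat 0, .ofNat 0), (.ofNat 0, .ofNat 0), (.ofNat 0, .ofNat 0), (.ofNat 0, .ofNat 0), (.ofNat 0, .ofNat 0), (.ofNat 0, .ofNat 0), (.ofNat 0, .ofNat 0), (.ofNat 0, .ofNat 0), (.ofNat 0, .ofNat 0), (.ofNat 1, .ofNat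 0), (.ofNat 0, .ofNat 0), (.ofNat 0, .ofNat 0)], [(.ofNat 0, .ofNat 0), (.ofNat 0, .ofNat 0), (.ofNat 0, .ofNat 0), (.ofNat 0, .ofNat 0), (.ofNat 0, .ofNat 0), (.ofNat 0, .ofNat 0), (.ofNat 0, .ofNat 0), (.ofNat 0, .ofNat 0), (.ofNat 0, .ofNat 0), (.ofNat 0, .ofNat 0), (.ofNat 1, .ofNat 0), (.ofNat 0, .ofNat 0)], [(.ofNat 0, .ofNat 0), (.ofNat 0, .ofNat 0), (.ofNat 0, .ofNat 0), (.ofNat 0, .ofNat 0), (.ofNat 0, .ofNat 0), (.ofNat 0, .ofNat 0), (.ofNat 0, .ofNat 0), (.ofNat 0, .ofNat 0), (.ofNat 0, .ofNat 0), (.ofNat 0, .ofNat 0), (.ofNat 0, .ofNat 0), (.ofNat 1, .ofNat 0)]], [[(.ofNat 1, .ofNat 0), (.negSucc 10, .ofNat 0), (.ofNat 55, .ofNat 0), (.negSucc 164, .ofNat 0), (.ofNat 330, .ofNat 0), (.negSucc 461, .ofNat 0), (.ofNat 462, .ofNat 0), (.negSucc 329, .ofNat 0), (.ofNat 165, .ofNat 0), (.negSucc 54, .ofNat 0), (.ofNat 11, .ofNat 0), (.negSucc 0, .ofNat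 0)], [(.ofNat 1, .ofNat 0), (.negSucc 9, .ofNat 0), (.ofNat 45, .ofNat 0), (.negSucc 119, .ofNat 0), (.ofNat 210, .ofNat 0), (.negSucc 251, .ofNat 0), (.ofNat 210, .ofNat 0), (.negSucc 119, .ofNat 0), (.ofNat 45, .ofNat 0), (.negSucc 9, .ofNat 0), (.ofNat 1, .ofNat 0), (.ofNat 0, .ofNat 0)], [(.ofNat 1, .ofNat 0), (.negSucc 8, .ofNat 0), (.ofNat 36, .ofNat 0), (.negSucc 83, .ofNat 0), (.ofNat 126, .ofNat 0), (.negSucc 125, .ofNat 0), (.ofNat 84, .ofNat 0), (.negSucc 35, .ofNat 0), (.ofNat 9, .ofNat 0), (.negSucc 0, .ofNat 0), (.ofNat 0, .ofNat 0), (.ofNat 0, .ofNat 0)], [(.ofNat 1, .ofNat 0), (.negSucc 7, .ofNat 0), (.ofNat 28, .ofNat 0), (.negSucc 55, .ofNat 0), (.ofNat 70, .ofNat 0), (.negSucc 55, .ofNat 0), (.ofNat 28, .ofNat 0), (.negSucc 7, .ofNat 0), (.ofNat 1, .ofNat 0), (.ofNat 0, .ofNat 0), (.ofNat 0, .ofNat 0), (.ofNat 0, .ofNat 0)], [(.ofNat 1, .ofNat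 0), (.negSucc 6, .ofNat 0), (.ofNat 21, .ofNat 0), (.negSucc 34, .ofNat 0), (.ofNat 35, .ofNat 0), (.negSucc 20, .ofNat 0), (.ofNat 7, .ofNat 0), (.negSucc 0, .ofNat 0), (.ofNat 0, .ofNat 0), (.ofNat 0, .ofNat 0), (.ofNat 0, .ofNat 0), (.ofNat 0, .ofNat 0)], [(.ofNat 1, .ofNat 0), (.negSucc 5, .ofNat 0), (.ofNat 15, .ofNat 0), (.negSucc 19, .ofNat 0), (.ofNat 15, .ofNat 0), (.negSucc 5, .ofNat 0), (.ofNat 1, .ofNat 0), (.ofNat 0, .ofNat 0), (.ofNat 0, .ofNat 0), (.ofNat 0, .ofNat 0), (.ofNat 0, .ofNat 0), (.ofNat 0, .ofNat 0)], [(.ofNat 1, .ofNat 0), (.negSucc 4, .ofNat 0), (.ofNat 10, .ofNat 0), (.negSucc 9, .ofNat 0), (.ofNat 5, .ofNat 0), (.negSucc 0, .ofNat 0), (.ofNat 0, .ofNat 0), (.ofNat 0, .ofNat 0), (.ofNat 0, .ofNat 0), (.ofNat 0, .ofNat 0), (.ofNat 0, .ofNat 0), (.ofNat 0, .ofNat 0)], [(.ofNat 1, .ofNat 0), (.negSucc 3, .ofNat 0), (.ofNat 6, .ofNat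 0), (.negSucc 3, .ofNat 0), (.ofNat 1, .ofNat 0), (.ofNat 0, .ofNat 0), (.ofNat 0, .ofNat 0), (.ofNat 0, .ofNat 0), (.ofNat 0, .ofNat 0), (.ofNat 0, .ofNat 0), (.ofNat 0, .ofNat 0), (.ofNat 0, .ofNat 0)], [(.ofNat 1, .ofNat 0), (.negSucc 2, .ofNat 0), (.ofNat 3, .ofNat 0), (.negSucc 0, .ofNat 0), (.ofNat 0, .ofNat 0), (.ofNat 0, .ofNat 0), (.ofNat 0, .ofNat 0), (.ofNat 0, .ofNat 0), (.ofNat 0, .ofNat 0), (.ofNat 0, .ofNat 0), (.ofNat 0, .ofNat 0), (.ofNat 0, .ofNat 0)], [(.ofNat 1, .ofNat 0), (.negSucc 1, .ofNat 0), (.ofNat 1, .ofNat 0), (.ofNat 0, .ofNat 0), (.ofNat 0, .ofNat 0), (.ofNat 0, .ofNat 0), (.ofNat 0, .ofNat 0), (.ofNat 0, .ofNat 0), (.ofNat 0, .ofNat 0), (.ofNat 0, .ofNat 0), (.ofNat 0, .ofNat 0), (.ofNat 0, .ofNat 0)], [(.ofNat 1, .ofNat 0), (.negSucc 0, .ofNat 0), (.ofNat 0, .ofNat 0), (.ofNat 0, .ofNat 0), (.ofNat 0, .ofNat 0), (.ofNat 0, .ofNat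 0), (.ofNat 0, .ofNat 0), (.ofNat 0, .ofNat 0), (.ofNat 0, .ofNat 0), (.ofNat 0, .ofNat 0), (.ofNat 0, .ofNat 0), (.ofNat 0, .ofNat 0)], [(.ofNat 1, .ofNat 0), (.ofNat 0, .ofNat 0), (.ofNat 0, .ofNat 0), (.ofNat 0, .ofNat 0), (.ofNat 0, .ofNat 0), (.ofNat 0, .ofNat 0), (.ofNat 0, .ofNat 0), (.ofNat 0, .ofNat 0), (.ofNat 0, .ofNat 0), (.ofNat 0, .ofNat 0), (.ofNat 0, .ofNat 0), (.ofNat 0, .ofNat 0)]], [[(.ofNat 0, .ofNat 0), (.ofNat 0, .ofNat 0), (.ofNat 0, .ofNat 0), (.ofNat 0, .ofNat 0), (.ofNat 0, .ofNat 0), (.ofNat 0, .ofNat 0), (.ofNat 0, .ofNat 0), (.ofNat 0, .ofNat 0), (.ofNat 0, .ofNat 0), (.ofNat 0, .ofNat 0), (.ofNat 0, .ofNat 0), (.negSucc 0, .ofNat 0)], [(.ofNat 0, .ofNat 0), (.ofNat 0, .ofNat 0), (.ofNat 0, .ofNat 0), (.ofNat 0, .ofNat 0), (.ofNat 0, .ofNat 0), (.ofNat 0, .ofNat 0), (.ofNat 0, .ofNat 0), (.ofNat 0, .ofNat 0), (.ofNat 0, .ofNat 0),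 (.ofNat 0, .ofNat 0), (.ofNat 1, .ofNat 0), (.negSucc 0, .ofNat 0)], [(.ofNat 0, .ofNat 0), (.ofNat 0, .ofNat 0), (.ofNat 0, .ofNat 0), (.ofNat 0, .ofNat 0), (.ofNat 0, .ofNat 0), (.ofNat 0, .ofNat 0), (.ofNat 0, .ofNat 0), (.ofNat 0, .ofNat 0), (.ofNat 0, .ofNat 0), (.negSucc 0, .ofNat 0), (.ofNat 2, .ofNat 0), (.negSucc 0, .ofNat 0)], [(.ofNat 0, .ofNat 0), (.ofNat 0, .ofNat 0), (.ofNat 0, .ofNat 0), (.ofNat 0, .ofNat 0), (.ofNat 0, .ofNat 0), (.ofNat 0, .ofNat 0), (.ofNat 0, .ofNat 0), (.ofNat 0, .ofNat 0), (.ofNat 1, .ofNat 0), (.negSucc 2, .ofNat 0), (.ofNat 3, .ofNat 0), (.negSucc 0, .ofNat 0)], [(.ofNat 0, .ofNat 0), (.ofNat 0, .ofNat 0), (.ofNat 0, .ofNat 0), (.ofNat 0, .ofNat 0), (.ofNat 0, .ofNat 0), (.ofNat 0, .ofNat 0), (.ofNat 0, .ofNat 0), (.negSucc 0, .ofNat 0), (.ofNat 4, .ofNat 0), (.negSucc 5, .ofNat 0), (.ofNat 4, .ofNat 0), (.negSucc 0, .ofNat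 0)], [(.ofNat 0, .ofNat 0), (.ofNat 0, .ofNat 0), (.ofNat 0, .ofNat 0), (.ofNat 0, .ofNat 0), (.ofNat 0, .ofNat 0), (.ofNat 0, .ofNat 0), (.ofNat 1, .ofNat 0), (.negSucc 4, .ofNat 0), (.ofNat 10, .ofNat 0), (.negSucc 9, .ofNat 0), (.ofNat 5, .ofNat 0), (.negSucc 0, .ofNat 0)], [(.ofNat 0, .ofNat 0), (.ofNat 0, .ofNat 0), (.ofNat 0, .ofNat 0), (.ofNat 0, .ofNat 0), (.ofNat 0, .ofNat 0), (.negSucc 0, .ofNat 0), (.ofNat 6, .ofNat 0), (.negSucc 14, .ofNat 0), (.ofNat 20, .ofNat 0), (.negSucc 14, .ofNat 0), (.ofNat 6, .ofNat 0), (.negSucc 0, .ofNat 0)], [(.ofNat 0, .ofNat 0), (.ofNat 0, .ofNat 0), (.ofNat 0, .ofNat 0), (.ofNat 0, .ofNat 0), (.ofNat 1, .ofNat 0), (.negSucc 6, .ofNat 0), (.ofNat 21, .ofNat 0), (.negSucc 34, .ofNat 0), (.ofNat 35, .ofNat 0), (.negSucc 20, .ofNat 0), (.ofNat 7, .ofNat 0), (.negSucc 0, .ofNat 0)], [(.ofNat 0, .ofNat 0), (.ofNat 0, .ofNat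 0), (.ofNat 0, .ofNat 0), (.negSucc 0, .ofNat 0), (.ofNat 8, .ofNat 0), (.negSucc 27, .ofNat 0), (.ofNat 56, .ofNat 0), (.negSucc 69, .ofNat 0), (.ofNat 56, .ofNat 0), (.negSucc 27, .ofNat 0), (.ofNat 8, .ofNat 0), (.negSucc 0, .ofNat 0)], [(.ofNat 0, .ofNat 0), (.ofNat 0, .ofNat 0), (.ofNat 1, .ofNat 0), (.negSucc 8, .ofNat 0), (.ofNat 36, .ofNat 0), (.negSucc 83, .ofNat 0), (.ofNat 126, .ofNat 0), (.negSucc 125, .ofNat 0), (.ofNat 84, .ofNat 0), (.negSucc 35, .ofNat 0), (.ofNat 9, .ofNat 0), (.negSucc 0, .ofNat 0)], [(.ofNat 0, .ofNat 0), (.negSucc 0, .ofNat 0), (.ofNat 10, .ofNat 0), (.negSucc 44, .ofNat 0), (.ofNat 120, .ofNat 0), (.negSucc 209, .ofNat 0), (.ofNat 252, .ofNat 0), (.negSucc 209, .ofNat 0), (.ofNat 120, .ofNat 0), (.negSucc 44, .ofNat 0), (.ofNat 10, .ofNat 0), (.negSucc 0, .ofNat 0)], [(.ofNat 1, .ofNat 0), (.negSucc 10, .ofNat 0), (.ofNat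 55, .ofNat 0), (.negSucc 164, .ofNat 0), (.ofNat 330, .ofNat 0), (.negSucc 461, .ofNat 0), (.ofNat 462, .ofNat 0), (.negSucc 329, .ofNat 0), (.ofNat 165, .ofNat 0), (.negSucc 54, .ofNat 0), (.ofNat 11, .ofNat 0), (.negSucc 0, .ofNat 0)]]]
  tab1 := [[[(.ofNat 1, .ofNat 0), (.ofNat 0, .ofNat 0), (.ofNat 0, .ofNat 0), (.ofNat 0, .ofNat 0), (.ofNat 0, .ofNat 0), (.ofNat 0, .ofNat 0), (.ofNat 0, .ofNat 0), (.ofNat 0, .ofNat 0), (.ofNat 0, .ofNat 0), (.ofNat 0, .ofNat 0), (.ofNat 0, .ofNat 0), (.ofNat 0, .ofNat 0)], [(.ofNat 0, .ofNat 0), (.ofNat 1, .ofNat 0), (.ofNat 0, .ofNat 0), (.ofNat 0, .ofNat 0), (.ofNat 0, .ofNat 0), (.ofNat 0, .ofNat 0), (.ofNat 0, .ofNat 0), (.ofNat 0, .ofNat 0), (.ofNat 0, .ofNat 0), (.ofNat 0, .ofNat 0), (.ofNat 0, .ofNat 0), (.ofNat 0, .ofNat 0)], [(.ofNat 0, .ofNat 0), (.ofNat 0, .ofNat 0), (.ofNat 1, .ofNat 0), (.ofNat 0, .ofNat 0),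 (.ofNat 0, .ofNat 0), (.ofNat 0, .ofNat 0), (.ofNat 0, .ofNat 0), (.ofNat 0, .ofNat 0), (.ofNat 0, .ofNat 0), (.ofNat 0, .ofNat 0), (.ofNat 0, .ofNat 0), (.ofNat 0, .ofNat 0)], [(.ofNat 0, .ofNat 0), (.ofNat 0, .ofNat 0), (.ofNat 0, .ofNat 0), (.ofNat 1, .ofNat 0), (.ofNat 0, .ofNat 0), (.ofNat 0, .ofNat 0), (.ofNat 0, .ofNat 0), (.ofNat 0, .ofNat 0), (.ofNat 0, .ofNat 0), (.ofNat 0, .ofNat 0), (.ofNat 0, .ofNat 0), (.ofNat 0, .ofNat 0)], [(.ofNat 0, .ofNat 0), (.ofNat 0, .ofNat 0), (.ofNat 0, .ofNat 0), (.ofNat 0, .ofNat 0), (.ofNat 1, .ofNat 0), (.ofNat 0, .ofNat 0), (.ofNat 0, .ofNat 0), (.ofNat 0, .ofNat 0), (.ofNat 0, .ofNat 0), (.ofNat 0, .ofNat 0), (.ofNat 0, .ofNat 0), (.ofNat 0, .ofNat 0)], [(.ofNat 0, .ofNat 0), (.ofNat 0, .ofNat 0), (.ofNat 0, .ofNat 0), (.ofNat 0, .ofNat 0), (.ofNat 0, .ofNat 0), (.ofNat 1, .ofNat 0), (.ofNat 0, .ofNat 0), (.ofNat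 0, .ofNat 0), (.ofNat 0, .ofNat 0), (.ofNat 0, .ofNat 0), (.ofNat 0, .ofNat 0), (.ofNat 0, .ofNat 0)], [(.ofNat 0, .ofNat 0), (.ofNat 0, .ofNat 0), (.ofNat 0, .ofNat 0), (.ofNat 0, .ofNat 0), (.ofNat 0, .ofNat 0), (.ofNat 0, .ofNat 0), (.ofNat 1, .ofNat 0), (.ofNat 0, .ofNat 0), (.ofNat 0, .ofNat 0), (.ofNat 0, .ofNat 0), (.ofNat 0, .ofNat 0), (.ofNat 0, .ofNat 0)], [(.ofNat 0, .ofNat 0), (.ofNat 0, .ofNat 0), (.ofNat 0, .ofNat 0), (.ofNat 0, .ofNat 0), (.ofNat 0, .ofNat 0), (.ofNat 0, .ofNat 0), (.ofNat 0, .ofNat 0), (.ofNat 1, .ofNat 0), (.ofNat 0, .ofNat 0), (.ofNat 0, .ofNat 0), (.ofNat 0, .ofNat 0), (.ofNat 0, .ofNat 0)], [(.ofNat 0, .ofNat 0), (.ofNat 0, .ofNat 0), (.ofNat 0, .ofNat 0), (.ofNat 0, .ofNat 0), (.ofNat 0, .ofNat 0), (.ofNat 0, .ofNat 0), (.ofNat 0, .ofNat 0), (.ofNat 0, .ofNat 0), (.ofNat 1, .ofNat 0), (.ofNat 0, .ofNat 0), (.ofNat 0, .ofNat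 0), (.ofNat 0, .ofNat 0)], [(.ofNat 0, .ofNat 0), (.ofNat 0, .ofNat 0), (.ofNat 0, .ofNat 0), (.ofNat 0, .ofNat 0), (.ofNat 0, .ofNat 0), (.ofNat 0, .ofNat 0), (.ofNat 0, .ofNat 0), (.ofNat 0, .ofNat 0), (.ofNat 0, .ofNat 0), (.ofNat 1, .ofNat 0), (.ofNat 0, .ofNat 0), (.ofNat 0, .ofNat 0)], [(.ofNat 0, .ofNat 0), (.ofNat 0, .ofNat 0), (.ofNat 0, .ofNat 0), (.ofNat 0, .ofNat 0), (.ofNat 0, .ofNat 0), (.ofNat 0, .ofNat 0), (.ofNat 0, .ofNat 0), (.ofNat 0, .ofNat 0), (.ofNat 0, .ofNat 0), (.ofNat 0, .ofNat 0), (.ofNat 1, .ofNat 0), (.ofNat 0, .ofNat 0)], [(.ofNat 0, .ofNat 0), (.ofNat 0, .ofNat 0), (.ofNat 0, .ofNat 0), (.ofNat 0, .ofNat 0), (.ofNat 0, .ofNat 0), (.ofNat 0, .ofNat 0), (.ofNat 0, .ofNat 0), (.ofNat 0, .ofNat 0), (.ofNat 0, .ofNat 0), (.ofNat 0, .ofNat 0), (.ofNat 0, .ofNat 0), (.ofNat 1, .ofNat 0)]], [[(.ofNat 0, .negSucc 31), (.negSucc 351, .ofNat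 0), (.ofNat 0, .ofNat 880), (.ofNat 2640, .ofNat 0), (.ofNat 0, .negSucc 2639), (.negSucc 3695, .ofNat 0), (.ofNat 0, .ofNat 1848), (.ofNat 1320, .ofNat 0), (.ofNat 0, .negSucc 329), (.negSucc 109, .ofNat 0), (.ofNat 0, .ofNat 11), (.ofNat 1, .ofNat 0)], [(.negSucc 31, .ofNat 0), (.ofNat 0, .ofNat 160), (.ofNat 720, .ofNat 0), (.ofNat 0, .negSucc 959), (.negSucc 1679, .ofNat 0), (.ofNat 0, .ofNat 1008), (.ofNat 840, .ofNat 0), (.ofNat 0, .negSucc 239), (.negSucc 89, .ofNat 0), (.ofNat 0, .ofNat 10), (.ofNat 1, .ofNat 0), (.ofNat 0, .ofNat 0)], [(.ofNat 0, .ofNat 16), (.ofNat 144, .ofNat 0), (.ofNat 0, .negSucc 287), (.negSucc 671, .ofNat 0), (.ofNat 0, .ofNat 504), (.ofNat 504, .ofNat 0), (.ofNat 0, .negSucc 167), (.negSucc 71, .ofNat 0), (.ofNat 0, .ofNat 9), (.ofNat 1, .ofNat 0), (.ofNat 0, .ofNat 0), (.ofNat 0, .ofNat 0)], [(.ofNat 16, .ofNat 0), (.ofNat 0,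 .negSucc 63), (.negSucc 223, .ofNat 0), (.ofNat 0, .ofNat 224), (.ofNat 280, .ofNat 0), (.ofNat 0, .negSucc 111), (.negSucc 55, .ofNat 0), (.ofNat 0, .ofNat 8), (.ofNat 1, .ofNat 0), (.ofNat 0, .ofNat 0), (.ofNat 0, .ofNat 0), (.ofNat 0, .ofNat 0)], [(.ofNat 0, .negSucc 7), (.negSucc 55, .ofNat 0), (.ofNat 0, .ofNat 84), (.ofNat 140, .ofNat 0), (.ofNat 0, .negSucc 69), (.negSucc 41, .ofNat 0), (.ofNat 0, .ofNat 7), (.ofNat 1, .ofNat 0), (.ofNat 0, .ofNat 0), (.ofNat 0, .ofNat 0), (.ofNat 0, .ofNat 0), (.ofNat 0, .ofNat 0)], [(.negSucc 7, .ofNat 0), (.ofNat 0, .ofNat 24), (.ofNat 60, .ofNat 0), (.ofNat 0, .negSucc 39), (.negSucc 29, .ofNat 0), (.ofNat 0, .ofNat 6), (.ofNat 1, .ofNat 0), (.ofNat 0, .ofNat 0), (.ofNat 0, .ofNat 0), (.ofNat 0, .ofNat 0), (.ofNat 0, .ofNat 0), (.ofNat 0, .ofNat 0)], [(.ofNat 0, .ofNat 4), (.ofNat 20, .ofNat 0), (.ofNat 0, .negSucc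 19), (.negSucc 19, .ofNat 0), (.ofNat 0, .ofNat 5), (.ofNat 1, .ofNat 0), (.ofNat 0, .ofNat 0), (.ofNat 0, .ofNat 0), (.ofNat 0, .ofNat 0), (.ofNat 0, .ofNat 0), (.ofNat 0, .ofNat 0), (.ofNat 0, .ofNat 0)], [(.ofNat 4, .ofNat 0), (.ofNat 0, .negSucc 7), (.negSucc 11, .ofNat 0), (.ofNat 0, .ofNat 4), (.ofNat 1, .ofNat 0), (.ofNat 0, .ofNat 0), (.ofNat 0, .ofNat 0), (.ofNat 0, .ofNat 0), (.ofNat 0, .ofNat 0), (.ofNat 0, .ofNat 0), (.ofNat 0, .ofNat 0), (.ofNat 0, .ofNat 0)], [(.ofNat 0, .negSucc 1), (.negSucc 5, .ofNat 0), (.ofNat 0, .ofNat 3), (.ofNat 1, .ofNat 0), (.ofNat 0, .ofNat 0), (.ofNat 0, .ofNat 0), (.ofNat 0, .ofNat 0), (.ofNat 0, .ofNat 0), (.ofNat 0, .ofNat 0), (.ofNat 0, .ofNat 0), (.ofNat 0, .ofNat 0), (.ofNat 0, .ofNat 0)], [(.negSucc 1, .ofNat 0), (.ofNat 0, .ofNat 2), (.ofNat 1, .ofNat 0), (.ofNat 0, .ofNat 0), (.ofNat 0, .ofNat 0), (.ofNat 0,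 .ofNat 0), (.ofNat 0, .ofNat 0), (.ofNat 0, .ofNat 0), (.ofNat 0, .ofNat 0), (.ofNat 0, .ofNat 0), (.ofNat 0, .ofNat 0), (.ofNat 0, .ofNat 0)], [(.ofNat 0, .ofNat 1), (.ofNat 1, .ofNat 0), (.ofNat 0, .ofNat 0), (.ofNat 0, .ofNat 0), (.ofNat 0, .ofNat 0), (.ofNat 0, .ofNat 0), (.ofNat 0, .ofNat 0), (.ofNat 0, .ofNat 0), (.ofNat 0, .ofNat 0), (.ofNat 0, .ofNat 0), (.ofNat 0, .ofNat 0), (.ofNat 0, .ofNat 0)], [(.ofNat 1, .ofNat 0), (.ofNat 0, .ofNat 0), (.ofNat 0, .ofNat 0), (.ofNat 0, .ofNat 0), (.ofNat 0, .ofNat 0), (.ofNat 0, .ofNat 0), (.ofNat 0, .ofNat 0), (.ofNat 0, .ofNat 0), (.ofNat 0, .ofNat 0), (.ofNat 0, .ofNat 0), (.ofNat 0, .ofNat 0), (.ofNat 0, .ofNat 0)]], [[(.ofNat 1, .ofNat 0), (.ofNat 0, .negSucc 10), (.negSucc 109, .ofNat 0), (.ofNat 0, .ofNat 330), (.ofNat 1320, .ofNat 0), (.ofNat 0, .negSucc 1847), (.negSucc 3695, .ofNat 0), (.ofNat 0, .ofNat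 2640), (.ofNat 2640, .ofNat 0), (.ofNat 0, .negSucc 879), (.negSucc 351, .ofNat 0), (.ofNat 0, .ofNat 32)], [(.ofNat 0, .ofNat 1), (.ofNat 21, .ofNat 0), (.ofNat 0, .negSucc 99), (.negSucc 569, .ofNat 0), (.ofNat 0, .ofNat 1080), (.ofNat 2856, .ofNat 0), (.ofNat 0, .negSucc 2687), (.negSucc 3599, .ofNat 0), (.ofNat 0, .ofNat 1680), (.ofNat 1040, .ofNat 0), (.ofNat 0, .negSucc 191), (.negSucc 31, .ofNat 0)], [(.negSucc 1, .ofNat 0), (.ofNat 0, .ofNat 20), (.ofNat 181, .ofNat 0), (.ofNat 0, .negSucc 488), (.negSucc 1751, .ofNat 0), (.ofNat 0, .ofNat 2184), (.ofNat 3864, .ofNat 0), (.ofNat 0, .negSucc 2423), (.negSucc 2111, .ofNat 0), (.ofNat 0, .ofNat 608), (.ofNat 208, .ofNat 0), (.ofNat 0, .negSucc 15)], [(.ofNat 0, .negSucc 1), (.negSucc 37, .ofNat 0), (.ofNat 0, .ofNat 163), (.ofNat 833, .ofNat 0), (.ofNat 0, .negSucc 1407), (.negSucc 3303, .ofNat 0), (.ofNat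 0, .ofNat 2744), (.ofNat 3224, .ofNat 0), (.ofNat 0, .negSucc 1311), (.negSucc 703, .ofNat 0), (.ofNat 0, .ofNat 112), (.ofNat 16, .ofNat 0)], [(.ofNat 4, .ofNat 0), (.ofNat 0, .negSucc 35), (.negSucc 291, .ofNat 0), (.ofNat 0, .ofNat 704), (.ofNat 2241, .ofNat 0), (.ofNat 0, .negSucc 2470), (.negSucc 3849, .ofNat 0), (.ofNat 0, .ofNat 2118), (.ofNat 1612, .ofNat 0), (.ofNat 0, .negSucc 403), (.negSucc 119, .ofNat 0), (.ofNat 0, .ofNat 8)], [(.ofNat 0, .ofNat 4), (.ofNat 68, .ofNat 0), (.ofNat 0, .negSucc 259), (.negSucc 1179, .ofNat 0), (.ofNat 0, .ofNat 1765), (.ofNat 3653, .ofNat 0), (.ofNat 0, .negSucc 2667), (.negSucc 2749, .ofNat 0), (.ofNat 0, .ofNat 980), (.ofNat 460, .ofNat 0), (.ofNat 0, .negSucc 63), (.negSucc 7, .ofNat 0)], [(.negSucc 7, .ofNat 0), (.ofNat 0, .ofNat 64), (.ofNat 460, .ofNat 0), (.ofNat 0, .negSucc 979), (.negSucc 2749, .ofNat 0), (.ofNat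 0, .ofNat 2668), (.ofNat 3653, .ofNat 0), (.ofNat 0, .negSucc 1764), (.negSucc 1179, .ofNat 0), (.ofNat 0, .ofNat 260), (.ofNat 68, .ofNat 0), (.ofNat 0, .negSucc 3)], [(.ofNat 0, .negSucc 7), (.negSucc 119, .ofNat 0), (.ofNat 0, .ofNat 404), (.ofNat 1612, .ofNat 0), (.ofNat 0, .negSucc 2117), (.negSucc 3849, .ofNat 0), (.ofNat 0, .ofNat 2471), (.ofNat 2241, .ofNat 0), (.ofNat 0, .negSucc 703), (.negSucc 291, .ofNat 0), (.ofNat 0, .ofNat 36), (.ofNat 4, .ofNat 0)], [(.ofNat 16, .ofNat 0), (.ofNat 0, .negSucc 111), (.negSucc 703, .ofNat 0), (.ofNat 0, .ofNat 1312), (.ofNat 3224, .ofNat 0), (.ofNat 0, .negSucc 2743), (.negSucc 3303, .ofNat 0), (.ofNat 0, .ofNat 1408), (.ofNat 833, .ofNat 0), (.ofNat 0, .negSucc 162), (.negSucc 37, .ofNat 0), (.ofNat 0, .ofNat 2)], [(.ofNat 0, .ofNat 16), (.ofNat 208, .ofNat 0), (.ofNat 0, .negSucc 607), (.negSucc 2111, .ofNat 0),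 (.ofNat 0, .ofNat 2424), (.ofNat 3864, .ofNat 0), (.ofNat 0, .negSucc 2183), (.negSucc 1751, .ofNat 0), (.ofNat 0, .ofNat 489), (.ofNat 181, .ofNat 0), (.ofNat 0, .negSucc 19), (.negSucc 1, .ofNat 0)], [(.negSucc 31, .ofNat 0), (.ofNat 0, .ofNat 192), (.ofNat 1040, .ofNat 0), (.ofNat 0, .negSucc 1679), (.negSucc 3599, .ofNat 0), (.ofNat 0, .ofNat 2688), (.ofNat 2856, .ofNat 0), (.ofNat 0, .negSucc 1079), (.negSucc 569, .ofNat 0), (.ofNat 0, .ofNat 100), (.ofNat 21, .ofNat 0), (.ofNat 0, .negSucc 0)], [(.ofNat 0, .negSucc 31), (.negSucc 351, .ofNat 0), (.ofNat 0, .ofNat 880), (.ofNat 2640, .ofNat 0), (.ofNat 0, .negSucc 2639), (.negSucc 3695, .ofNat 0), (.ofNat 0, .ofNat 1848), (.ofNat 1320, .ofNat 0), (.ofNat 0, .negSucc 329), (.negSucc 109, .ofNat 0), (.ofNat 0, .ofNat 11), (.ofNat 1, .ofNat 0)]], [[(.ofNat 0, .ofNat 0), (.ofNat 0, .ofNat 0), (.ofNat 0, .ofNat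 0), (.ofNat 0, .ofNat 0), (.ofNat 0, .ofNat 0), (.ofNat 0, .ofNat 0), (.ofNat 0, .ofNat 0), (.ofNat 0, .ofNat 0), (.ofNat 0, .ofNat 0), (.ofNat 0, .ofNat 0), (.ofNat 0, .ofNat 0), (.ofNat 1, .ofNat 0)], [(.ofNat 0, .ofNat 0), (.ofNat 0, .ofNat 0), (.ofNat 0, .ofNat 0), (.ofNat 0, .ofNat 0), (.ofNat 0, .ofNat 0), (.ofNat 0, .ofNat 0), (.ofNat 0, .ofNat 0), (.ofNat 0, .ofNat 0), (.ofNat 0, .ofNat 0), (.ofNat 0, .ofNat 0), (.ofNat 1, .ofNat 0), (.ofNat 0, .negSucc 0)], [(.ofNat 0, .ofNat 0), (.ofNat 0, .ofNat 0), (.ofNat 0, .ofNat 0), (.ofNat 0, .ofNat 0), (.ofNat 0, .ofNat 0), (.ofNat 0, .ofNat 0), (.ofNat 0, .ofNat 0), (.ofNat 0, .ofNat 0), (.ofNat 0, .ofNat 0), (.ofNat 1, .ofNat 0), (.ofNat 0, .negSucc 1), (.negSucc 1, .ofNat 0)], [(.ofNat 0, .ofNat 0), (.ofNat 0, .ofNat 0), (.ofNat 0, .ofNat 0), (.ofNat 0, .ofNat 0), (.ofNat 0, .ofNat 0), (.ofNat 0, .ofNat 0),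 (.ofNat 0, .ofNat 0), (.ofNat 0, .ofNat 0), (.ofNat 1, .ofNat 0), (.ofNat 0, .negSucc 2), (.negSucc 5, .ofNat 0), (.ofNat 0, .ofNat 2)], [(.ofNat 0, .ofNat 0), (.ofNat 0, .ofNat 0), (.ofNat 0, .ofNat 0), (.ofNat 0, .ofNat 0), (.ofNat 0, .ofNat 0), (.ofNat 0, .ofNat 0), (.ofNat 0, .ofNat 0), (.ofNat 1, .ofNat 0), (.ofNat 0, .negSucc 3), (.negSucc 11, .ofNat 0), (.ofNat 0, .ofNat 8), (.ofNat 4, .ofNat 0)], [(.ofNat 0, .ofNat 0), (.ofNat 0, .ofNat 0), (.ofNat 0, .ofNat 0), (.ofNat 0, .ofNat 0), (.ofNat 0, .ofNat 0), (.ofNat 0, .ofNat 0), (.ofNat 1, .ofNat 0), (.ofNat 0, .negSucc 4), (.negSucc 19, .ofNat 0), (.ofNat 0, .ofNat 20), (.ofNat 20, .ofNat 0), (.ofNat 0, .negSucc 3)], [(.ofNat 0, .ofNat 0), (.ofNat 0, .ofNat 0), (.ofNat 0, .ofNat 0), (.ofNat 0, .ofNat 0), (.ofNat 0, .ofNat 0), (.ofNat 1, .ofNat 0), (.ofNat 0, .negSucc 5), (.negSucc 29, .ofNat 0), (.ofNat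 0, .ofNat 40), (.ofNat 60, .ofNat 0), (.ofNat 0, .negSucc 23), (.negSucc 7, .ofNat 0)], [(.ofNat 0, .ofNat 0), (.ofNat 0, .ofNat 0), (.ofNat 0, .ofNat 0), (.ofNat 0, .ofNat 0), (.ofNat 1, .ofNat 0), (.ofNat 0, .negSucc 6), (.negSucc 41, .ofNat 0), (.ofNat 0, .ofNat 70), (.ofNat 140, .ofNat 0), (.ofNat 0, .negSucc 83), (.negSucc 55, .ofNat 0), (.ofNat 0, .ofNat 8)], [(.ofNat 0, .ofNat 0), (.ofNat 0, .ofNat 0), (.ofNat 0, .ofNat 0), (.ofNat 1, .ofNat 0), (.ofNat 0, .negSucc 7), (.negSucc 55, .ofNat 0), (.ofNat 0, .ofNat 112), (.ofNat 280, .ofNat 0), (.ofNat 0, .negSucc 223), (.negSucc 223, .ofNat 0), (.ofNat 0, .ofNat 64), (.ofNat 16, .ofNat 0)], [(.ofNat 0, .ofNat 0), (.ofNat 0, .ofNat 0), (.ofNat 1, .ofNat 0), (.ofNat 0, .negSucc 8), (.negSucc 71, .ofNat 0), (.ofNat 0, .ofNat 168), (.ofNat 504, .ofNat 0), (.ofNat 0, .negSucc 503), (.negSucc 671, .ofNat 0), (.ofNat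 0, .ofNat 288), (.ofNat 144, .ofNat 0), (.ofNat 0, .negSucc 15)], [(.ofNat 0, .ofNat 0), (.ofNat 1, .ofNat 0), (.ofNat 0, .negSucc 9), (.negSucc 89, .ofNat 0), (.ofNat 0, .ofNat 240), (.ofNat 840, .ofNat 0), (.ofNat 0, .negSucc 1007), (.negSucc 1679, .ofNat 0), (.ofNat 0, .ofNat 960), (.ofNat 720, .ofNat 0), (.ofNat 0, .negSucc 159), (.negSucc 31, .ofNat 0)], [(.ofNat 1, .ofNat 0), (.ofNat 0, .negSucc 10), (.negSucc 109, .ofNat 0), (.ofNat 0, .ofNat 330), (.ofNat 1320, .ofNat 0), (.ofNat 0, .negSucc 1847), (.negSucc 3695, .ofNat 0), (.ofNat 0, .ofNat 2640), (.ofNat 2640, .ofNat 0), (.ofNat 0, .negSucc 879), (.negSucc 351, .ofNat 0), (.ofNat 0, .ofNat 32)]]]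
  rws := [(0, 0, 2, 0), (0, 0, 6, 0), (0, 0, 8, 0), (0, 0, 9, 0), (0, 0, 10, 0), (0, 0, 11, 0), (0, 1, 7, 0), (0, 1, 8, 0), (0, 1, 9, 0), (0, 1, 10, 0), (0, 2, 8, 0), (0, 2, 9, 0), (0, 3, 6, 0), (1, 0, 2, 0), (1, 0, 10, 0), (1, 0, 11, 1)]
  cols := [((0, 2), [.negSucc 19, .negSucc 503, .negSucc 239, .ofNat 90, .negSucc 19, .ofNat 2, .negSucc 3959, .ofNat 2310, .negSucc 879, .ofNat 198, .negSucc 9899, .ofNat 3850, .ofNat 41580, .negSucc 20519, .negSucc 1919, .negSucc 127]), ((0, 4), [.negSucc 39, .negSucc 475, .negSucc 199, .ofNat 76, .negSucc 17, .ofNat 2, .negSucc 2683, .ofNat 1540, .negSucc 615, .ofNat 154, .negSucc 5389, .ofNat 2310, .ofNat 18480, .ofNat 20640, .ofNat 3648, .ofNat 256]), ((0, 6), [.negSucc 59, .negSucc 462, .negSucc 174, .ofNat 65, .negSucc 15, .ofNat 2, .negSucc 1704, .ofNat 935, .negSucc 384, .ofNat 110, .negSucc 2199, .ofNat 1100, .ofNat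 4785, .negSucc 15839, .negSucc 6863, .negSucc 511]), ((0, 8), [.negSucc 79, .negSucc 489, .negSucc 165, .ofNat 58, .negSucc 13, .ofNat 2, .negSucc 989, .ofNat 506, .negSucc 197, .ofNat 66, .negSucc 549, .ofNat 330, .ofNat 462, .ofNat 11520, .ofNat 12768, .ofNat 1024]), ((0, 10), [.negSucc 99, .negSucc 671, .negSucc 209, .ofNat 65, .negSucc 11, .ofNat 2, .negSucc 329, .ofNat 165, .negSucc 54, .ofNat 22, .ofNat 0, .ofNat 0, .ofNat 0, .negSucc 9599, .negSucc 23531, .negSucc 2047]), ((1, 3), [.negSucc 19, .negSucc 181, .negSucc 43, .ofNat 10, .negSucc 0, .ofNat 0, .negSucc 949, .ofNat 406, .negSucc 107, .ofNat 16, .negSucc 1774, .ofNat 560, .ofNat 10668, .negSucc 10319, .negSucc 1439, .negSucc 95]), ((1, 5), [.negSucc 39, .negSucc 208, .negSucc 44, .ofNat 10, .negSucc 0, .ofNat 0, .negSucc 734, .ofNat 290, .negSucc 74, .ofNat 12, .negSucc 874, .ofNat 300, .ofNat 4350,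 .ofNat 10560, .ofNat 3424, .ofNat 240]), ((1, 7), [.negSucc 59, .negSucc 216, .negSucc 44, .ofNat 10, .negSucc 0, .ofNat 0, .negSucc 480, .ofNat 184, .negSucc 45, .ofNat 8, .negSucc 309, .ofNat 120, .ofNat 840, .negSucc 8639, .negSucc 6759, .negSucc 503]), ((1, 9), [.negSucc 79, .negSucc 293, .negSucc 53, .ofNat 11, .negSucc 0, .ofNat 0, .negSucc 275, .ofNat 99, .negSucc 20, .ofNat 4, .negSucc 44, .ofNat 20, .ofNat 0, .ofNat 7680, .ofNat 12720, .ofNat 1020]), ((2, 4), [.negSucc 19, .negSucc 76, .negSucc 8, .ofNat 1, .ofNat 0, .ofNat 0, .negSucc 242, .ofNat 63, .negSucc 6, .ofNat 0, .negSucc 223, .ofNat 42, .ofNat 2541, .negSucc 5279, .negSucc 1423, .negSucc 95]), ((2, 6), [.negSucc 39, .negSucc 84, .negSucc 8, .ofNat 1, .ofNat 0, .ofNat 0, .negSucc 179, .ofNat 45, .negSucc 4, .ofNat 0, .negSucc 99, .ofNat 20, .ofNat 849, .ofNat 5760, .ofNat 3416, .ofNat 240]),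 ((2, 8), [.negSucc 59, .negSucc 111, .negSucc 9, .ofNat 1, .ofNat 0, .ofNat 0, .negSucc 123, .ofNat 29, .negSucc 2, .ofNat 0, .negSucc 27, .ofNat 6, .ofNat 84, .negSucc 5759, .negSucc 6755, .negSucc 503]), ((3, 5), [.negSucc 19, .negSucc 26, .negSucc 0, .ofNat 0, .ofNat 0, .ofNat 0, .negSucc 47, .ofNat 6, .ofNat 0, .ofNat 0, .negSucc 14, .ofNat 0, .ofNat 510, .negSucc 2879, .negSucc 1423, .negSucc 95]), ((3, 7), [.negSucc 39, .negSucc 34, .negSucc 0, .ofNat 0, .ofNat 0, .ofNat 0, .negSucc 34, .ofNat 4, .ofNat 0, .ofNat 0, .negSucc 5, .ofNat 0, .ofNat 119, .ofNat 3840, .ofNat 3416, .ofNat 240]), ((4, 6), [.negSucc 19, .negSucc 7, .ofNat 0, .ofNat 0, .ofNat 0, .ofNat 0, .negSucc 4, .ofNat 0, .ofNat 0, .ofNat 0, .ofNat 0, .ofNat 0, .ofNat 74, .negSucc 1919, .negSucc 1423, .negSucc 95])]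
  tg := [((0, 2), .ofNat 52920, [.negSucc 374234999, .ofNat 1630103060, .negSucc 59071477427, .negSucc 242304079751, .ofNat 49811968080, .ofNat 2511769951320, .negSucc 1823964815, .negSucc 32341776935, .negSucc 188718754727, .negSucc 260003652719, .negSucc 3585143575, .negSucc 21129896759, .ofNat 76319000, .negSucc 487934, .ofNat 38530800, .negSucc 465830399]), ((0, 4), .ofNat 1814400, [.ofNat 952577163182, .negSucc 4149156883859, .ofNat 150354118360700, .ofNat 616738148113920, .negSucc 126711977460039, .negSucc 6392925483145599, .ofNat 4642432482840, .ofNat 82317736129440, .ofNat 480335868342960, .ofNat 661778629415400, .ofNat 9124922112040, .ofNat 53780350086120, .negSucc 194256054759, .ofNat 1241886345, .negSucc 98073729599, .ofNat 1185699692800]), ((0, 6), .ofNat 2419200, [.negSucc 1606757254477, .ofNat 6998577906540, .negSucc 253609295713699, .negSucc 1040281054244879,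 .ofNat 213729200187160, .ofNat 10783238893453600, .negSucc 7830604964759, .negSucc 138849123624959, .negSucc 810204682615439, .negSucc 1116252686576999, .negSucc 15391423607559, .negSucc 90713787979079, .ofNat 327660784840, .negSucc 2094746324, .ofNat 165425568000, .negSucc 1999975532799]), ((0, 8), .ofNat 33868800, [.ofNat 5098211187766, .negSucc 22206357266779, .ofNat 804697530128500, .ofNat 3300792283785360, .negSucc 678157744160119, .negSucc 34215010779571999, .ofNat 24846361147320, .ofNat 440565638661120, .ofNat 2570764112886480, .ofNat 3541848699232200, .ofNat 48836693426920, .ofNat 287833124769960, .negSucc 1039661543079, .ofNat 6646589985, .negSucc 524892244799, .ofNat 6345885190400]), ((0, 10), .ofNat 14515200, [.negSucc 62374116201, .ofNat 271683906660, .negSucc 9845080278219, .negSucc 40383576332399, .ofNat 8296940524040, .ofNat 418603944869600, .negSucc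 303983073479, .negSucc 5390105038079, .negSucc 31452040991279, .negSucc 43332785071799, .negSucc 597493053079, .negSucc 3521497461719, .ofNat 12719750360, .negSucc 81317774, .ofNat 6421800000, .negSucc 77638803199]), ((1, 3), .ofNat 129600, [.negSucc 130059051261, .ofNat 566499804660, .negSucc 20528390352699, .negSucc 84205508214719, .ofNat 17299974740840, .ofNat 872847533040800, .negSucc 633847497239, .negSucc 11239128032639, .negSucc 65581936646159, .negSucc 90354983749799, .negSucc 1245856568839, .negSucc 7342816458119, .ofNat 26522492360, .negSucc 169558904, .ofNat 13390370400, .negSucc 161888019199]), ((1, 5), .ofNat 2419200, [.negSucc 1652164396821, .ofNat 7196363580060, .negSucc 260776631966259, .negSucc 1069680607055759, .ofNat 219773042779640, .ofNat 11088000244244000, .negSucc 8051912475959, .negSucc 142773257276159, .negSucc 833102550855119, .negSucc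 1147799790601799, .negSucc 15826420659559, .negSucc 93277547540519, .ofNat 336920830760, .negSucc 2153949104, .ofNat 170100638400, .negSucc 2056496287999]), ((1, 7), .ofNat 33868800, [.ofNat 35769310895258, .negSucc 155800949179139, .ofNat 5645799666416300, .ofNat 23158529901613680, .negSucc 4757995215205959, .negSucc 240054312939935199, .ofNat 174323365965960, .ofNat 3091031518229760, .ofNat 18036615221726640, .ofNat 24849795062782200, .ofNat 342640800223960, .ofNat 2019452260045080, .negSucc 7294319324439, .ofNat 46632825015, .negSucc 3682671115199, .ofNat 44523057913600]), ((1, 9), .ofNat 14515200, [.negSucc 1560351061897, .ofNat 6796445085540, .negSucc 246284542417099, .negSucc 1010235637002479, .ofNat 207555854404360, .ofNat 10471795501400800, .negSucc 7604440505159, .negSucc 134838868604159, .negSucc 786804269601839, .negSucc 1084012993068599, .negSucc 14946885972759,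 .negSucc 88093780443479, .ofNat 318197290840, .negSucc 2034245534, .ofNat 160647748800, .negSucc 1942212294399]), ((2, 4), .ofNat 161280, [.ofNat 526936768378, .negSucc 2295185827939, .ofNat 83171224833100, .ofNat 341160437135280, .negSucc 70091846458759, .negSucc 3536363152968799, .ofNat 2568047821320, .ofNat 45535586960640, .ofNat 265706728081200, .ofNat 366075257163000, .ofNat 5047617893080, .ofNat 29749593964440, .negSucc 107456444439, .ofNat 686972055, .negSucc 54251366399, .ofNat 655892652800]), ((2, 6), .ofNat 967680, [.ofNat 164367742866, .negSucc 715941240499, .ofNat 25943803380540, .ofNat 106418926822320, .negSucc 21865619016359, .negSucc 1103112429871199, .ofNat 801059341800, .ofNat 14204061231360, .ofNat 82882742381040, .ofNat 114190901525400, .ofNat 1574522841080, .ofNat 9279895523640, .negSucc 33519116599, .ofNat 214290027, .negSucc 16922727359,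 .ofNat 204593652480]), ((2, 8), .ofNat 967680, [.negSucc 479532201793, .ofNat 2088705947220, .negSucc 75688983772699, .negSucc 310468968504239, .ofNat 63786857307880, .ofNat 3218227378626400, .negSucc 2337022040999, .negSucc 41439131408639, .negSucc 241803315907439, .negSucc 333142487088599, .negSucc 4593527128119, .negSucc 27073275471479, .ofNat 97789446520, .negSucc 625171154, .ofNat 49370798400, .negSucc 596887110399]), ((3, 5), .ofNat 4838400, [.negSucc 19489173103901, .ofNat 84889273481260, .negSucc 3076154150566499, .negSucc 12618090789811919, .ofNat 2592409879324440, .ofNat 130795239154288800, .negSucc 94981307668439, .negSucc 1684170182634239, .negSucc 9827376266697359, .negSucc 13539586267640999, .negSucc 186690207424839, .negSucc 1100312616474119, .ofNat 3974362199560, .negSucc 25408214684, .ofNat 2006529940800, .negSucc 24258710918399]), ((3, 7), .ofNat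 967680, [.ofNat 55388440986, .negSucc 241255522179, .ofNat 8742416889900, .ofNat 35860586171760, .negSucc 7367060629319, .negSucc 371717525944799, .ofNat 269935868040, .ofNat 4786393140480, .ofNat 27929296878000, .ofNat 38479395070200, .ofNat 530570443480, .ofNat 3127073116440, .negSucc 11295129879, .ofNat 72209655, .negSucc 5702558399, .ofNat 68943302400]), ((4, 6), .ofNat 1209600, [.ofNat 2169122749758, .negSucc 9448080056139, .ofNat 342372489864900, .ofNat 1404379268344080, .negSucc 288532631132759, .negSucc 14557363891677599, .ofNat 10571312886360, .ofNat 187446250306560, .ofNat 1093775942570640, .ofNat 1506940723583400, .ofNat 20778411177160, .ofNat 122463560803080, .negSucc 442342024839, .ofNat 2827905885, .negSucc 223324516799, .ofNat 2699967110400])]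

theorem NIT_2_0_11 (l : ℕ) (hlp : l.Prime) (hl2 : l ≠ 2) (hls : ¬ l ∣ 8) (hE : ¬ l ∣ 1)
    (hj : 11 < l) : NUMA_stmt 2 0 l 11 :=
  @NI_fin 2 0 1 2 8 11 (by norm_num) NIC_2_0_11 (by decide +kernel) (by decide +kernel)
    (by decide +kernel) (by decide +kernel) l hlp hl2 hls hE hj

/-- certificate, `d = 2`, `t = 1`, `j = 10` -/
def NIC_2_1_10 : NI_Cert where
  tab0 := [[[(.ofNat 1, .ofNat 0), (.ofNat 0, .ofNat 0), (.ofNat 0, .ofNat 0), (.ofNat 0, .ofNat 0), (.ofNat 0, .ofNat 0), (.ofNat 0, .ofNat 0), (.ofNat 0, .ofNat 0), (.ofNat 0, .ofNat 0), (.ofNat 0, .ofNat 0), (.ofNat 0, .ofNat 0), (.ofNat 0, .ofNat 0)], [(.ofNat 0, .ofNat 0), (.ofNat 1, .ofNat 0), (.ofNat 0, .ofNat 0), (.ofNat 0, .ofNat 0), (.ofNat 0, .ofNat 0), (.ofNat 0, .ofNat 0), (.ofNat 0, .ofNat 0), (.ofNat 0, .ofNat 0), (.ofNat 0, .ofNat 0), (.ofNat 0, .ofNat 0), (.ofNat 0, .ofNat 0)], [(.ofNat 0,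 .ofNat 0), (.ofNat 0, .ofNat 0), (.ofNat 1, .ofNat 0), (.ofNat 0, .ofNat 0), (.ofNat 0, .ofNat 0), (.ofNat 0, .ofNat 0), (.ofNat 0, .ofNat 0), (.ofNat 0, .ofNat 0), (.ofNat 0, .ofNat 0), (.ofNat 0, .ofNat 0), (.ofNat 0, .ofNat 0)], [(.ofNat 0, .ofNat 0), (.ofNat 0, .ofNat 0), (.ofNat 0, .ofNat 0), (.ofNat 1, .ofNat 0), (.ofNat 0, .ofNat 0), (.ofNat 0, .ofNat 0), (.ofNat 0, .ofNat 0), (.ofNat 0, .ofNat 0), (.ofNat 0, .ofNat 0), (.ofNat 0, .ofNat 0), (.ofNat 0, .ofNat 0)], [(.ofNat 0, .ofNat 0), (.ofNat 0, .ofNat 0), (.ofNat 0, .ofNat 0), (.ofNat 0, .ofNat 0), (.ofNat 1, .ofNat 0), (.ofNat 0, .ofNat 0), (.ofNat 0, .ofNat 0), (.ofNat 0, .ofNat 0), (.ofNat 0, .ofNat 0), (.ofNat 0, .ofNat 0), (.ofNat 0, .ofNat 0)], [(.ofNat 0, .ofNat 0), (.ofNat 0, .ofNat 0), (.ofNat 0, .ofNat 0), (.ofNat 0, .ofNat 0), (.ofNat 0, .ofNat 0), (.ofNat 1, .ofNat 0), (.ofNat 0, .ofNat 0),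 (.ofNat 0, .ofNat 0), (.ofNat 0, .ofNat 0), (.ofNat 0, .ofNat 0), (.ofNat 0, .ofNat 0)], [(.ofNat 0, .ofNat 0), (.ofNat 0, .ofNat 0), (.ofNat 0, .ofNat 0), (.ofNat 0, .ofNat 0), (.ofNat 0, .ofNat 0), (.ofNat 0, .ofNat 0), (.ofNat 1, .ofNat 0), (.ofNat 0, .ofNat 0), (.ofNat 0, .ofNat 0), (.ofNat 0, .ofNat 0), (.ofNat 0, .ofNat 0)], [(.ofNat 0, .ofNat 0), (.ofNat 0, .ofNat 0), (.ofNat 0, .ofNat 0), (.ofNat 0, .ofNat 0), (.ofNat 0, .ofNat 0), (.ofNat 0, .ofNat 0), (.ofNat 0, .ofNat 0), (.ofNat 1, .ofNat 0), (.ofNat 0, .ofNat 0), (.ofNat 0, .ofNat 0), (.ofNat 0, .ofNat 0)], [(.ofNat 0, .ofNat 0), (.ofNat 0, .ofNat 0), (.ofNat 0, .ofNat 0), (.ofNat 0, .ofNat 0), (.ofNat 0, .ofNat 0), (.ofNat 0, .ofNat 0), (.ofNat 0, .ofNat 0), (.ofNat 0, .ofNat 0), (.ofNat 1, .ofNat 0), (.ofNat 0, .ofNat 0), (.ofNat 0, .ofNat 0)], [(.ofNat 0, .ofNat 0), (.ofNat 0, .ofNat 0), (.ofNat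 0, .ofNat 0), (.ofNat 0, .ofNat 0), (.ofNat 0, .ofNat 0), (.ofNat 0, .ofNat 0), (.ofNat 0, .ofNat 0), (.ofNat 0, .ofNat 0), (.ofNat 0, .ofNat 0), (.ofNat 1, .ofNat 0), (.ofNat 0, .ofNat 0)], [(.ofNat 0, .ofNat 0), (.ofNat 0, .ofNat 0), (.ofNat 0, .ofNat 0), (.ofNat 0, .ofNat 0), (.ofNat 0, .ofNat 0), (.ofNat 0, .ofNat 0), (.ofNat 0, .ofNat 0), (.ofNat 0, .ofNat 0), (.ofNat 0, .ofNat 0), (.ofNat 0, .ofNat 0), (.ofNat 1, .ofNat 0)]], [[(.ofNat 1, .ofNat 0), (.negSucc 9, .ofNat 0), (.ofNat 45, .ofNat 0), (.negSucc 119, .ofNat 0), (.ofNat 210, .ofNat 0), (.negSucc 251, .ofNat 0), (.ofNat 210, .ofNat 0), (.negSucc 119, .ofNat 0), (.ofNat 45, .ofNat 0), (.negSucc 9, .ofNat 0), (.ofNat 1, .ofNat 0)], [(.ofNat 1, .ofNat 0), (.negSucc 8, .ofNat 0), (.ofNat 36, .ofNat 0), (.negSucc 83, .ofNat 0), (.ofNat 126, .ofNat 0), (.negSucc 125, .ofNat 0), (.ofNat 84, .ofNat 0), (.negSucc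 35, .ofNat 0), (.ofNat 9, .ofNat 0), (.negSucc 0, .ofNat 0), (.ofNat 0, .ofNat 0)], [(.ofNat 1, .ofNat 0), (.negSucc 7, .ofNat 0), (.ofNat 28, .ofNat 0), (.negSucc 55, .ofNat 0), (.ofNat 70, .ofNat 0), (.negSucc 55, .ofNat 0), (.ofNat 28, .ofNat 0), (.negSucc 7, .ofNat 0), (.ofNat 1, .ofNat 0), (.ofNat 0, .ofNat 0), (.ofNat 0, .ofNat 0)], [(.ofNat 1, .ofNat 0), (.negSucc 6, .ofNat 0), (.ofNat 21, .ofNat 0), (.negSucc 34, .ofNat 0), (.ofNat 35, .ofNat 0), (.negSucc 20, .ofNat 0), (.ofNat 7, .ofNat 0), (.negSucc 0, .ofNat 0), (.ofNat 0, .ofNat 0), (.ofNat 0, .ofNat 0), (.ofNat 0, .ofNat 0)], [(.ofNat 1, .ofNat 0), (.negSucc 5, .ofNat 0), (.ofNat 15, .ofNat 0), (.negSucc 19, .ofNat 0), (.ofNat 15, .ofNat 0), (.negSucc 5, .ofNat 0), (.ofNat 1, .ofNat 0), (.ofNat 0, .ofNat 0), (.ofNat 0, .ofNat 0), (.ofNat 0, .ofNat 0), (.ofNat 0, .ofNat 0)], [(.ofNat 1, .ofNat 0),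 (.negSucc 4, .ofNat 0), (.ofNat 10, .ofNat 0), (.negSucc 9, .ofNat 0), (.ofNat 5, .ofNat 0), (.negSucc 0, .ofNat 0), (.ofNat 0, .ofNat 0), (.ofNat 0, .ofNat 0), (.ofNat 0, .ofNat 0), (.ofNat 0, .ofNat 0), (.ofNat 0, .ofNat 0)], [(.ofNat 1, .ofNat 0), (.negSucc 3, .ofNat 0), (.ofNat 6, .ofNat 0), (.negSucc 3, .ofNat 0), (.ofNat 1, .ofNat 0), (.ofNat 0, .ofNat 0), (.ofNat 0, .ofNat 0), (.ofNat 0, .ofNat 0), (.ofNat 0, .ofNat 0), (.ofNat 0, .ofNat 0), (.ofNat 0, .ofNat 0)], [(.ofNat 1, .ofNat 0), (.negSucc 2, .ofNat 0), (.ofNat 3, .ofNat 0), (.negSucc 0, .ofNat 0), (.ofNat 0, .ofNat 0), (.ofNat 0, .ofNat 0), (.ofNat 0, .ofNat 0), (.ofNat 0, .ofNat 0), (.ofNat 0, .ofNat 0), (.ofNat 0, .ofNat 0), (.ofNat 0, .ofNat 0)], [(.ofNat 1, .ofNat 0), (.negSucc 1, .ofNat 0), (.ofNat 1, .ofNat 0), (.ofNat 0, .ofNat 0), (.ofNat 0, .ofNat 0), (.ofNat 0, .ofNat 0), (.ofNat 0, .ofNat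 0), (.ofNat 0, .ofNat 0), (.ofNat 0, .ofNat 0), (.ofNat 0, .ofNat 0), (.ofNat 0, .ofNat 0)], [(.ofNat 1, .ofNat 0), (.negSucc 0, .ofNat 0), (.ofNat 0, .ofNat 0), (.ofNat 0, .ofNat 0), (.ofNat 0, .ofNat 0), (.ofNat 0, .ofNat 0), (.ofNat 0, .ofNat 0), (.ofNat 0, .ofNat 0), (.ofNat 0, .ofNat 0), (.ofNat 0, .ofNat 0), (.ofNat 0, .ofNat 0)], [(.ofNat 1, .ofNat 0), (.ofNat 0, .ofNat 0), (.ofNat 0, .ofNat 0), (.ofNat 0, .ofNat 0), (.ofNat 0, .ofNat 0), (.ofNat 0, .ofNat 0), (.ofNat 0, .ofNat 0), (.ofNat 0, .ofNat 0), (.ofNat 0, .ofNat 0), (.ofNat 0, .ofNat 0), (.ofNat 0, .ofNat 0)]], [[(.ofNat 0, .ofNat 0), (.ofNat 0, .ofNat 0), (.ofNat 0, .ofNat 0), (.ofNat 0, .ofNat 0), (.ofNat 0, .ofNat 0), (.ofNat 0, .ofNat 0), (.ofNat 0, .ofNat 0), (.ofNat 0, .ofNat 0), (.ofNat 0, .ofNat 0), (.ofNat 0, .ofNat 0), (.ofNat 1, .ofNat 0)], [(.ofNat 0, .ofNat 0), (.ofNat 0, .ofNat 0),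 (.ofNat 0, .ofNat 0), (.ofNat 0, .ofNat 0), (.ofNat 0, .ofNat 0), (.ofNat 0, .ofNat 0), (.ofNat 0, .ofNat 0), (.ofNat 0, .ofNat 0), (.ofNat 0, .ofNat 0), (.negSucc 0, .ofNat 0), (.ofNat 1, .ofNat 0)], [(.ofNat 0, .ofNat 0), (.ofNat 0, .ofNat 0), (.ofNat 0, .ofNat 0), (.ofNat 0, .ofNat 0), (.ofNat 0, .ofNat 0), (.ofNat 0, .ofNat 0), (.ofNat 0, .ofNat 0), (.ofNat 0, .ofNat 0), (.ofNat 1, .ofNat 0), (.negSucc 1, .ofNat 0), (.ofNat 1, .ofNat 0)], [(.ofNat 0, .ofNat 0), (.ofNat 0, .ofNat 0), (.ofNat 0, .ofNat 0), (.ofNat 0, .ofNat 0), (.ofNat 0, .ofNat 0), (.ofNat 0, .ofNat 0), (.ofNat 0, .ofNat 0), (.negSucc 0, .ofNat 0), (.ofNat 3, .ofNat 0), (.negSucc 2, .ofNat 0), (.ofNat 1, .ofNat 0)], [(.ofNat 0, .ofNat 0), (.ofNat 0, .ofNat 0), (.ofNat 0, .ofNat 0), (.ofNat 0, .ofNat 0), (.ofNat 0, .ofNat 0), (.ofNat 0, .ofNat 0), (.ofNat 1, .ofNat 0), (.negSucc 3, .ofNat 0),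 (.ofNat 6, .ofNat 0), (.negSucc 3, .ofNat 0), (.ofNat 1, .ofNat 0)], [(.ofNat 0, .ofNat 0), (.ofNat 0, .ofNat 0), (.ofNat 0, .ofNat 0), (.ofNat 0, .ofNat 0), (.ofNat 0, .ofNat 0), (.negSucc 0, .ofNat 0), (.ofNat 5, .ofNat 0), (.negSucc 9, .ofNat 0), (.ofNat 10, .ofNat 0), (.negSucc 4, .ofNat 0), (.ofNat 1, .ofNat 0)], [(.ofNat 0, .ofNat 0), (.ofNat 0, .ofNat 0), (.ofNat 0, .ofNat 0), (.ofNat 0, .ofNat 0), (.ofNat 1, .ofNat 0), (.negSucc 5, .ofNat 0), (.ofNat 15, .ofNat 0), (.negSucc 19, .ofNat 0), (.ofNat 15, .ofNat 0), (.negSucc 5, .ofNat 0), (.ofNat 1, .ofNat 0)], [(.ofNat 0, .ofNat 0), (.ofNat 0, .ofNat 0), (.ofNat 0, .ofNat 0), (.negSucc 0, .ofNat 0), (.ofNat 7, .ofNat 0), (.negSucc 20, .ofNat 0), (.ofNat 35, .ofNat 0), (.negSucc 34, .ofNat 0), (.ofNat 21, .ofNat 0), (.negSucc 6, .ofNat 0), (.ofNat 1, .ofNat 0)], [(.ofNat 0, .ofNat 0), (.ofNat 0, .ofNat 0),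 (.ofNat 1, .ofNat 0), (.negSucc 7, .ofNat 0), (.ofNat 28, .ofNat 0), (.negSucc 55, .ofNat 0), (.ofNat 70, .ofNat 0), (.negSucc 55, .ofNat 0), (.ofNat 28, .ofNat 0), (.negSucc 7, .ofNat 0), (.ofNat 1, .ofNat 0)], [(.ofNat 0, .ofNat 0), (.negSucc 0, .ofNat 0), (.ofNat 9, .ofNat 0), (.negSucc 35, .ofNat 0), (.ofNat 84, .ofNat 0), (.negSucc 125, .ofNat 0), (.ofNat 126, .ofNat 0), (.negSucc 83, .ofNat 0), (.ofNat 36, .ofNat 0), (.negSucc 8, .ofNat 0), (.ofNat 1, .ofNat 0)], [(.ofNat 1, .ofNat 0), (.negSucc 9, .ofNat 0), (.ofNat 45, .ofNat 0), (.negSucc 119, .ofNat 0), (.ofNat 210, .ofNat 0), (.negSucc 251, .ofNat 0), (.ofNat 210, .ofNat 0), (.negSucc 119, .ofNat 0), (.ofNat 45, .ofNat 0), (.negSucc 9, .ofNat 0), (.ofNat 1, .ofNat 0)]]]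
  tab1 := [[[(.ofNat 1, .ofNat 0), (.ofNat 0, .ofNat 0), (.ofNat 0, .ofNat 0), (.ofNat 0, .ofNat 0), (.ofNat 0, .ofNat 0), (.ofNat 0, .ofNat 0), (.ofNat 0, .ofNat 0), (.ofNat 0, .ofNat 0), (.ofNat 0, .ofNat 0), (.ofNat 0, .ofNat 0), (.ofNat 0, .ofNat 0)], [(.ofNat 0, .ofNat 0), (.ofNat 1, .ofNat 0), (.ofNat 0, .ofNat 0), (.ofNat 0, .ofNat 0), (.ofNat 0, .ofNat 0), (.ofNat 0, .ofNat 0), (.ofNat 0, .ofNat 0), (.ofNat 0, .ofNat 0), (.ofNat 0, .ofNat 0), (.ofNat 0, .ofNat 0), (.ofNat 0, .ofNat 0)], [(.ofNat 0, .ofNat 0), (.ofNat 0, .ofNat 0), (.ofNat 1, .ofNat 0), (.ofNat 0, .ofNat 0), (.ofNat 0, .ofNat 0), (.ofNat 0, .ofNat 0), (.ofNat 0, .ofNat 0), (.ofNat 0, .ofNat 0), (.ofNat 0, .ofNat 0), (.ofNat 0, .ofNat 0), (.ofNat 0, .ofNat 0)], [(.ofNat 0, .ofNat 0), (.ofNat 0, .ofNat 0), (.ofNat 0, .ofNat 0), (.ofNat 1, .ofNat 0), (.ofNat 0, .ofNat 0), (.ofNat 0, .ofNat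 0), (.ofNat 0, .ofNat 0), (.ofNat 0, .ofNat 0), (.ofNat 0, .ofNat 0), (.ofNat 0, .ofNat 0), (.ofNat 0, .ofNat 0)], [(.ofNat 0, .ofNat 0), (.ofNat 0, .ofNat 0), (.ofNat 0, .ofNat 0), (.ofNat 0, .ofNat 0), (.ofNat 1, .ofNat 0), (.ofNat 0, .ofNat 0), (.ofNat 0, .ofNat 0), (.ofNat 0, .ofNat 0), (.ofNat 0, .ofNat 0), (.ofNat 0, .ofNat 0), (.ofNat 0, .ofNat 0)], [(.ofNat 0, .ofNat 0), (.ofNat 0, .ofNat 0), (.ofNat 0, .ofNat 0), (.ofNat 0, .ofNat 0), (.ofNat 0, .ofNat 0), (.ofNat 1, .ofNat 0), (.ofNat 0, .ofNat 0), (.ofNat 0, .ofNat 0), (.ofNat 0, .ofNat 0), (.ofNat 0, .ofNat 0), (.ofNat 0, .ofNat 0)], [(.ofNat 0, .ofNat 0), (.ofNat 0, .ofNat 0), (.ofNat 0, .ofNat 0), (.ofNat 0, .ofNat 0), (.ofNat 0, .ofNat 0), (.ofNat 0, .ofNat 0), (.ofNat 1, .ofNat 0), (.ofNat 0, .ofNat 0), (.ofNat 0, .ofNat 0), (.ofNat 0, .ofNat 0), (.ofNat 0, .ofNat 0)], [(.ofNat 0, .ofNat 0), (.ofNat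 0, .ofNat 0), (.ofNat 0, .ofNat 0), (.ofNat 0, .ofNat 0), (.ofNat 0, .ofNat 0), (.ofNat 0, .ofNat 0), (.ofNat 0, .ofNat 0), (.ofNat 1, .ofNat 0), (.ofNat 0, .ofNat 0), (.ofNat 0, .ofNat 0), (.ofNat 0, .ofNat 0)], [(.ofNat 0, .ofNat 0), (.ofNat 0, .ofNat 0), (.ofNat 0, .ofNat 0), (.ofNat 0, .ofNat 0), (.ofNat 0, .ofNat 0), (.ofNat 0, .ofNat 0), (.ofNat 0, .ofNat 0), (.ofNat 0, .ofNat 0), (.ofNat 1, .ofNat 0), (.ofNat 0, .ofNat 0), (.ofNat 0, .ofNat 0)], [(.ofNat 0, .ofNat 0), (.ofNat 0, .ofNat 0), (.ofNat 0, .ofNat 0), (.ofNat 0, .ofNat 0), (.ofNat 0, .ofNat 0), (.ofNat 0, .ofNat 0), (.ofNat 0, .ofNat 0), (.ofNat 0, .ofNat 0), (.ofNat 0, .ofNat 0), (.ofNat 1, .ofNat 0), (.ofNat 0, .ofNat 0)], [(.ofNat 0, .ofNat 0), (.ofNat 0, .ofNat 0), (.ofNat 0, .ofNat 0), (.ofNat 0, .ofNat 0), (.ofNat 0, .ofNat 0), (.ofNat 0, .ofNat 0), (.ofNat 0, .ofNat 0), (.ofNat 0, .ofNat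 0), (.ofNat 0, .ofNat 0), (.ofNat 0, .ofNat 0), (.ofNat 1, .ofNat 0)]], [[(.ofNat 34, .negSucc 10), (.ofNat 60, .negSucc 169), (.negSucc 629, .negSucc 134), (.negSucc 1199, .ofNat 840), (.ofNat 420, .ofNat 1050), (.ofNat 1512, .negSucc 251), (.ofNat 420, .negSucc 629), (.negSucc 239, .negSucc 119), (.negSucc 89, .ofNat 45), (.ofNat 0, .ofNat 10), (.ofNat 1, .ofNat 0)], [(.ofNat 6, .negSucc 16), (.negSucc 125, .negSucc 26), (.negSucc 359, .ofNat 252), (.ofNat 168, .ofNat 420), (.ofNat 756, .negSucc 125), (.ofNat 252, .negSucc 377), (.negSucc 167, .negSucc 83), (.negSucc 71, .ofNat 36), (.ofNat 0, .ofNat 9), (.ofNat 1, .ofNat 0), (.ofNat 0, .ofNat 0)], [(.negSucc 13, .negSucc 2), (.negSucc 79, .ofNat 56), (.ofNat 56, .ofNat 140), (.ofNat 336, .negSucc 55), (.ofNat 140, .negSucc 209), (.negSucc 111, .negSucc 55), (.negSucc 55, .ofNat 28), (.ofNat 0, .ofNat 8), (.ofNat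 1, .ofNat 0), (.ofNat 0, .ofNat 0), (.ofNat 0, .ofNat 0)], [(.negSucc 9, .ofNat 7), (.ofNat 14, .ofNat 35), (.ofNat 126, .negSucc 20), (.ofNat 70, .negSucc 104), (.negSucc 69, .negSucc 34), (.negSucc 41, .ofNat 21), (.ofNat 0, .ofNat 7), (.ofNat 1, .ofNat 0), (.ofNat 0, .ofNat 0), (.ofNat 0, .ofNat 0), (.ofNat 0, .ofNat 0)], [(.ofNat 2, .ofNat 5), (.ofNat 36, .negSucc 5), (.ofNat 30, .negSucc 44), (.negSucc 39, .negSucc 19), (.negSucc 29, .ofNat 15), (.ofNat 0, .ofNat 6), (.ofNat 1, .ofNat 0), (.ofNat 0, .ofNat 0), (.ofNat 0, .ofNat 0), (.ofNat 0, .ofNat 0), (.ofNat 0, .ofNat 0)], [(.ofNat 6, .negSucc 0), (.ofNat 10, .negSucc 14), (.negSucc 19, .negSucc 9), (.negSucc 19, .ofNat 10), (.ofNat 0, .ofNat 5), (.ofNat 1, .ofNat 0), (.ofNat 0, .ofNat 0), (.ofNat 0, .ofNat 0), (.ofNat 0, .ofNat 0), (.ofNat 0, .ofNat 0), (.ofNat 0, .ofNat 0)], [(.ofNat 2, .negSucc 2),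 (.negSucc 7, .negSucc 3), (.negSucc 11, .ofNat 6), (.ofNat 0, .ofNat 4), (.ofNat 1, .ofNat 0), (.ofNat 0, .ofNat 0), (.ofNat 0, .ofNat 0), (.ofNat 0, .ofNat 0), (.ofNat 0, .ofNat 0), (.ofNat 0, .ofNat 0), (.ofNat 0, .ofNat 0)], [(.negSucc 1, .negSucc 0), (.negSucc 5, .ofNat 3), (.ofNat 0, .ofNat 3), (.ofNat 1, .ofNat 0), (.ofNat 0, .ofNat 0), (.ofNat 0, .ofNat 0), (.ofNat 0, .ofNat 0), (.ofNat 0, .ofNat 0), (.ofNat 0, .ofNat 0), (.ofNat 0, .ofNat 0), (.ofNat 0, .ofNat 0)], [(.negSucc 1, .ofNat 1), (.ofNat 0, .ofNat 2), (.ofNat 1, .ofNat 0), (.ofNat 0, .ofNat 0), (.ofNat 0, .ofNat 0), (.ofNat 0, .ofNat 0), (.ofNat 0, .ofNat 0), (.ofNat 0, .ofNat 0), (.ofNat 0, .ofNat 0), (.ofNat 0, .ofNat 0), (.ofNat 0, .ofNat 0)], [(.ofNat 0, .ofNat 1), (.ofNat 1, .ofNat 0), (.ofNat 0, .ofNat 0), (.ofNat 0, .ofNat 0), (.ofNat 0, .ofNat 0), (.ofNat 0, .ofNat 0), (.ofNat 0, .ofNat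 0), (.ofNat 0, .ofNat 0), (.ofNat 0, .ofNat 0), (.ofNat 0, .ofNat 0), (.ofNat 0, .ofNat 0)], [(.ofNat 1, .ofNat 0), (.ofNat 0, .ofNat 0), (.ofNat 0, .ofNat 0), (.ofNat 0, .ofNat 0), (.ofNat 0, .ofNat 0), (.ofNat 0, .ofNat 0), (.ofNat 0, .ofNat 0), (.ofNat 0, .ofNat 0), (.ofNat 0, .ofNat 0), (.ofNat 0, .ofNat 0), (.ofNat 0, .ofNat 0)]], [[(.ofNat 1, .ofNat 0), (.ofNat 10, .negSucc 9), (.negSucc 44, .negSucc 44), (.negSucc 359, .ofNat 120), (.negSucc 209, .ofNat 630), (.ofNat 1260, .ofNat 252), (.ofNat 1470, .negSucc 1049), (.negSucc 359, .negSucc 839), (.negSucc 764, .ofNat 135), (.negSucc 109, .ofNat 170), (.ofNat 23, .ofNat 11)], [(.ofNat 0, .ofNat 1), (.ofNat 19, .ofNat 0), (.ofNat 81, .negSucc 80), (.negSucc 203, .negSucc 203), (.negSucc 1007, .ofNat 336), (.negSucc 377, .ofNat 1134), (.ofNat 1470, .ofNat 294), (.ofNat 1092, .negSucc 779), (.negSucc 161, .negSucc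 377), (.negSucc 186, .ofNat 33), (.negSucc 10, .ofNat 17)], [(.negSucc 1, .ofNat 1), (.ofNat 0, .ofNat 18), (.ofNat 145, .ofNat 0), (.ofNat 344, .negSucc 343), (.negSucc 531, .negSucc 531), (.negSucc 1679, .ofNat 560), (.negSucc 405, .ofNat 1218), (.ofNat 1000, .ofNat 200), (.ofNat 448, .negSucc 319), (.negSucc 35, .negSucc 83), (.negSucc 16, .ofNat 3)], [(.negSucc 1, .negSucc 0), (.negSucc 33, .ofNat 17), (.ofNat 0, .ofNat 129), (.ofNat 575, .ofNat 0), (.ofNat 833, .negSucc 832), (.negSucc 818, .negSucc 818), (.negSucc 1658, .ofNat 553), (.negSucc 252, .ofNat 759), (.ofNat 375, .ofNat 75), (.ofNat 91, .negSucc 64), (.negSucc 2, .negSucc 6)], [(.ofNat 2, .negSucc 2), (.negSucc 31, .negSucc 15), (.negSucc 227, .ofNat 114), (.ofNat 0, .ofNat 476), (.ofNat 1289, .ofNat 0), (.ofNat 1182, .negSucc 1181), (.negSucc 742, .negSucc 742), (.negSucc 947, .ofNat 316), (.negSucc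 86, .ofNat 261), (.ofNat 70, .ofNat 14), (.ofNat 7, .negSucc 4)], [(.ofNat 6, .negSucc 0), (.ofNat 30, .negSucc 44), (.negSucc 199, .negSucc 99), (.negSucc 779, .ofNat 390), (.ofNat 0, .ofNat 985), (.ofNat 1683, .ofNat 0), (.ofNat 985, .negSucc 984), (.negSucc 389, .negSucc 389), (.negSucc 299, .ofNat 100), (.negSucc 14, .ofNat 45), (.ofNat 5, .ofNat 1)], [(.ofNat 2, .ofNat 5), (.ofNat 84, .negSucc 13), (.ofNat 174, .negSucc 260), (.negSucc 631, .negSucc 315), (.negSucc 1485, .ofNat 743), (.ofNat 0, .ofNat 1182), (.ofNat 1289, .ofNat 0), (.ofNat 476, .negSucc 475), (.negSucc 113, .negSucc 113), (.negSucc 47, .ofNat 16), (.negSucc 0, .ofNat 3)], [(.negSucc 9, .ofNat 7), (.ofNat 26, .ofNat 65), (.ofNat 450, .negSucc 74), (.ofNat 506, .negSucc 758), (.negSucc 1105, .negSucc 552), (.negSucc 1637, .ofNat 819), (.ofNat 0, .ofNat 833), (.ofNat 575, .ofNat 0), (.ofNat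 129, .negSucc 128), (.negSucc 16, .negSucc 16), (.negSucc 2, .ofNat 1)], [(.negSucc 13, .negSucc 2), (.negSucc 119, .ofNat 84), (.ofNat 128, .ofNat 320), (.ofNat 1200, .negSucc 199), (.ofNat 812, .negSucc 1217), (.negSucc 1119, .negSucc 559), (.negSucc 1063, .ofNat 532), (.ofNat 0, .ofNat 344), (.ofNat 145, .ofNat 0), (.ofNat 18, .negSucc 17), (.negSucc 0, .negSucc 0)], [(.ofNat 6, .negSucc 16), (.negSucc 153, .negSucc 32), (.negSucc 539, .ofNat 378), (.ofNat 312, .ofNat 780), (.ofNat 1764, .negSucc 293), (.ofNat 756, .negSucc 1133), (.negSucc 671, .negSucc 335), (.negSucc 407, .ofNat 204), (.ofNat 0, .ofNat 81), (.ofNat 19, .ofNat 0), (.ofNat 1, .negSucc 0)], [(.ofNat 34, .negSucc 10), (.ofNat 60, .negSucc 169), (.negSucc 629, .negSucc 134), (.negSucc 1199, .ofNat 840), (.ofNat 420, .ofNat 1050), (.ofNat 1512, .negSucc 251), (.ofNat 420, .negSucc 629), (.negSucc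 239, .negSucc 119), (.negSucc 89, .ofNat 45), (.ofNat 0, .ofNat 10), (.ofNat 1, .ofNat 0)]], [[(.ofNat 0, .ofNat 0), (.ofNat 0, .ofNat 0), (.ofNat 0, .ofNat 0), (.ofNat 0, .ofNat 0), (.ofNat 0, .ofNat 0), (.ofNat 0, .ofNat 0), (.ofNat 0, .ofNat 0), (.ofNat 0, .ofNat 0), (.ofNat 0, .ofNat 0), (.ofNat 0, .ofNat 0), (.ofNat 1, .ofNat 0)], [(.ofNat 0, .ofNat 0), (.ofNat 0, .ofNat 0), (.ofNat 0, .ofNat 0), (.ofNat 0, .ofNat 0), (.ofNat 0, .ofNat 0), (.ofNat 0, .ofNat 0), (.ofNat 0, .ofNat 0), (.ofNat 0, .ofNat 0), (.ofNat 0, .ofNat 0), (.ofNat 1, .ofNat 0), (.ofNat 1, .negSucc 0)], [(.ofNat 0, .ofNat 0), (.ofNat 0, .ofNat 0), (.ofNat 0, .ofNat 0), (.ofNat 0, .ofNat 0), (.ofNat 0, .ofNat 0), (.ofNat 0, .ofNat 0), (.ofNat 0, .ofNat 0), (.ofNat 0, .ofNat 0), (.ofNat 1, .ofNat 0), (.ofNat 2, .negSucc 1), (.negSucc 0, .negSucc 0)], [(.ofNat 0, .ofNat 0), (.ofNat 0, .ofNat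 0), (.ofNat 0, .ofNat 0), (.ofNat 0, .ofNat 0), (.ofNat 0, .ofNat 0), (.ofNat 0, .ofNat 0), (.ofNat 0, .ofNat 0), (.ofNat 1, .ofNat 0), (.ofNat 3, .negSucc 2), (.negSucc 2, .negSucc 2), (.negSucc 2, .ofNat 1)], [(.ofNat 0, .ofNat 0), (.ofNat 0, .ofNat 0), (.ofNat 0, .ofNat 0), (.ofNat 0, .ofNat 0), (.ofNat 0, .ofNat 0), (.ofNat 0, .ofNat 0), (.ofNat 1, .ofNat 0), (.ofNat 4, .negSucc 3), (.negSucc 5, .negSucc 5), (.negSucc 11, .ofNat 4), (.negSucc 0, .ofNat 3)], [(.ofNat 0, .ofNat 0), (.ofNat 0, .ofNat 0), (.ofNat 0, .ofNat 0), (.ofNat 0, .ofNat 0), (.ofNat 0, .ofNat 0), (.ofNat 1, .ofNat 0), (.ofNat 5, .negSucc 4), (.negSucc 9, .negSucc 9), (.negSucc 29, .ofNat 10), (.negSucc 4, .ofNat 15), (.ofNat 5, .ofNat 1)], [(.ofNat 0, .ofNat 0), (.ofNat 0, .ofNat 0), (.ofNat 0, .ofNat 0), (.ofNat 0, .ofNat 0), (.ofNat 1, .ofNat 0), (.ofNat 6, .negSucc 5), (.negSucc 14,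 .negSucc 14), (.negSucc 59, .ofNat 20), (.negSucc 14, .ofNat 45), (.ofNat 30, .ofNat 6), (.ofNat 7, .negSucc 4)], [(.ofNat 0, .ofNat 0), (.ofNat 0, .ofNat 0), (.ofNat 0, .ofNat 0), (.ofNat 1, .ofNat 0), (.ofNat 7, .negSucc 6), (.negSucc 20, .negSucc 20), (.negSucc 104, .ofNat 35), (.negSucc 34, .ofNat 105), (.ofNat 105, .ofNat 21), (.ofNat 49, .negSucc 34), (.negSucc 2, .negSucc 6)], [(.ofNat 0, .ofNat 0), (.ofNat 0, .ofNat 0), (.ofNat 1, .ofNat 0), (.ofNat 8, .negSucc 7), (.negSucc 27, .negSucc 27), (.negSucc 167, .ofNat 56), (.negSucc 69, .ofNat 210), (.ofNat 280, .ofNat 56), (.ofNat 196, .negSucc 139), (.negSucc 23, .negSucc 55), (.negSucc 16, .ofNat 3)], [(.ofNat 0, .ofNat 0), (.ofNat 1, .ofNat 0), (.ofNat 9, .negSucc 8), (.negSucc 35, .negSucc 35), (.negSucc 251, .ofNat 84), (.negSucc 125, .ofNat 378), (.ofNat 630, .ofNat 126), (.ofNat 588, .negSucc 419),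 (.negSucc 107, .negSucc 251), (.negSucc 152, .ofNat 27), (.negSucc 10, .ofNat 17)], [(.ofNat 1, .ofNat 0), (.ofNat 10, .negSucc 9), (.negSucc 44, .negSucc 44), (.negSucc 359, .ofNat 120), (.negSucc 209, .ofNat 630), (.ofNat 1260, .ofNat 252), (.ofNat 1470, .negSucc 1049), (.negSucc 359, .negSucc 839), (.negSucc 764, .ofNat 135), (.negSucc 109, .ofNat 170), (.ofNat 23, .ofNat 11)]]]
  rws := [(0, 0, 6, 0), (0, 0, 7, 0), (0, 0, 8, 0), (0, 0, 9, 0), (0, 0, 10, 0), (0, 1, 6, 0), (0, 1, 7, 0), (0, 1, 8, 0), (0, 1, 9, 0), (0, 3, 4, 0), (0, 3, 5, 0), (0, 3, 6, 0), (1, 0, 1, 1), (1, 0, 10, 1), (1, 1, 0, 0), (1, 9, 0, 0)]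
  cols := [((0, 2), [.negSucc 251, .ofNat 168, .negSucc 71, .ofNat 18, .negSucc 1, .ofNat 2100, .negSucc 1439, .ofNat 630, .negSucc 159, .ofNat 5040, .negSucc 12095, .ofNat 15120, .ofNat 506, .negSucc 89, .negSucc 1565, .ofNat 1272]), ((0, 4), [.negSucc 223, .ofNat 140, .negSucc 59, .ofNat 16, .negSucc 1, .ofNat 1400, .negSucc 919, .ofNat 420, .negSucc 119, .ofNat 2520, .negSucc 5039, .ofNat 5880, .ofNat 278, .ofNat 182, .ofNat 1354, .negSucc 2405]), ((0, 6), [.negSucc 210, .ofNat 124, .negSucc 50, .ofNat 14, .negSucc 1, .ofNat 850, .negSucc 519, .ofNat 240, .negSucc 79, .ofNat 720, .negSucc 1007, .ofNat 960, .negSucc 733, .negSucc 185, .negSucc 365, .ofNat 2268]), ((0, 8), [.negSucc 237, .ofNat 128, .negSucc 45, .ofNat 12, .negSucc 1, .ofNat 420, .negSucc 239, .ofNat 100, .negSucc 39, .ofNat 0, .ofNat 0, .ofNat 0, .ofNat 686, .negSucc 169, .negSucc 421, .ofNat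 1854]), ((0, 10), [.negSucc 419, .ofNat 240, .negSucc 89, .ofNat 20, .negSucc 1, .ofNat 0, .ofNat 0, .ofNat 0, .ofNat 0, .ofNat 0, .ofNat 0, .ofNat 0, .negSucc 459, .ofNat 1254, .ofNat 900, .negSucc 12539]), ((1, 3), [.negSucc 76, .ofNat 35, .negSucc 8, .ofNat 1, .ofNat 0, .ofNat 560, .negSucc 277, .ofNat 84, .negSucc 13, .ofNat 1638, .negSucc 3275, .ofNat 3486, .ofNat 118, .negSucc 95, .negSucc 1205, .ofNat 1353]), ((1, 5), [.negSucc 83, .ofNat 36, .negSucc 8, .ofNat 1, .ofNat 0, .ofNat 425, .negSucc 189, .ofNat 55, .negSucc 9, .ofNat 840, .negSucc 1211, .ofNat 1020, .ofNat 262, .ofNat 192, .ofNat 1058, .negSucc 2530]), ((1, 7), [.negSucc 90, .ofNat 37, .negSucc 8, .ofNat 1, .ofNat 0, .ofNat 259, .negSucc 108, .ofNat 30, .negSucc 5, .ofNat 126, .negSucc 125, .ofNat 84, .negSucc 489, .negSucc 191, .negSucc 389, .ofNat 2337]), ((1, 9), [.negSucc 167, .ofNat 72,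 .negSucc 17, .ofNat 2, .ofNat 0, .ofNat 168, .negSucc 71, .ofNat 18, .negSucc 1, .ofNat 0, .ofNat 0, .ofNat 0, .ofNat 556, .negSucc 167, .negSucc 315, .ofNat 1834]), ((2, 4), [.negSucc 26, .ofNat 8, .negSucc 0, .ofNat 0, .ofNat 0, .ofNat 160, .negSucc 47, .ofNat 6, .ofNat 0, .ofNat 568, .negSucc 831, .ofNat 624, .negSucc 15, .negSucc 95, .negSucc 863, .ofNat 1356]), ((2, 6), [.negSucc 28, .ofNat 8, .negSucc 0, .ofNat 0, .ofNat 0, .ofNat 114, .negSucc 31, .ofNat 4, .ofNat 0, .ofNat 224, .negSucc 223, .ofNat 120, .ofNat 224, .ofNat 192, .ofNat 832, .negSucc 2535]), ((2, 8), [.negSucc 55, .ofNat 16, .negSucc 1, .ofNat 0, .ofNat 0, .ofNat 112, .negSucc 31, .ofNat 4, .ofNat 0, .ofNat 0, .ofNat 0, .ofNat 0, .negSucc 415, .negSucc 191, .negSucc 383, .ofNat 2340]), ((3, 5), [.negSucc 6, .ofNat 1, .ofNat 0, .ofNat 0, .ofNat 0, .ofNat 35, .negSucc 4, .ofNat 0, .ofNat 0,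 .ofNat 180, .negSucc 175, .ofNat 75, .negSucc 55, .negSucc 95, .negSucc 647, .ofNat 1356]), ((3, 7), [.negSucc 13, .ofNat 2, .ofNat 0, .ofNat 0, .ofNat 0, .ofNat 42, .negSucc 5, .ofNat 0, .ofNat 0, .ofNat 70, .negSucc 41, .ofNat 14, .ofNat 208, .ofNat 192, .ofNat 752, .negSucc 2535]), ((4, 6), [.negSucc 1, .ofNat 0, .ofNat 0, .ofNat 0, .ofNat 0, .ofNat 8, .ofNat 0, .ofNat 0, .ofNat 0, .ofNat 80, .negSucc 47, .ofNat 8, .negSucc 63, .negSucc 95, .negSucc 575, .ofNat 1356])]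
  tg := [((0, 2), .ofNat 7056000, [.negSucc 164249524207, .ofNat 8832693461932, .ofNat 59077477813808, .ofNat 211341762692368, .ofNat 548171588374585, .negSucc 1584320131487, .negSucc 6020546005411, .negSucc 12081660719239, .negSucc 13407329796979, .ofNat 307770535742, .ofNat 288924709106, .ofNat 138080014664, .ofNat 130432680, .ofNat 10837731555, .ofNat 376705728, .ofNat 1293449472]), ((0, 4), .ofNat 15805440, [.ofNat 608847491952, .negSucc 32739459152587, .negSucc 218978348816431, .negSucc 783366478217231, .negSucc 2031875536969424, .ofNat 5872523244512, .ofNat 22316058405828, .ofNat 44782606783880, .ofNat 49696648846740, .negSucc 1140800168077, .negSucc 1070943500833, .negSucc 511815513095, .negSucc 482607719, .negSucc 40172340074, .negSucc 1397360831, .negSucc 4794655487]), ((0, 6), .ofNat 2822400, [.negSucc 48212729263, .ofNat 2592439625156, .ofNat 17339595047664,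 .ofNat 62030183825344, .ofNat 160892435150755, .negSucc 465011843103, .negSucc 1767081574795, .negSucc 3546083556119, .negSucc 3935206690939, .ofNat 90333613386, .ofNat 84801964998, .ofNat 40527807512, .ofNat 38170440, .ofNat 3180667665, .ofNat 110689824, .ofNat 379643376]), ((0, 8), .ofNat 322560, [.ofNat 593250768, .negSucc 31914857251, .negSucc 213460145167, .negSucc 763621153007, .negSucc 1980624170594, .ofNat 5724276128, .ofNat 21752759052, .ofNat 43651175960, .ofNat 48438891900, .negSucc 1111989961, .negSucc 1043908165, .negSucc 498887063, .negSucc 476279, .negSucc 39107984, .negSucc 1353407, .negSucc 4667711]), ((0, 10), .ofNat 24696000, [.negSucc 20504623, .ofNat 1224694796, .ofNat 8166749424, .ofNat 29177693104, .ofNat 75370695505, .negSucc 216746463, .negSucc 824151235, .negSucc 1645251719, .negSucc 1807297939, .ofNat 42003726, .ofNat 39526818, .ofNat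 18825992, .ofNat 68040, .ofNat 1167915, .negSucc 18815, .ofNat 136416]), ((1, 3), .ofNat 19756800, [.ofNat 1522582345872, .negSucc 81883317982387, .negSucc 547675550597071, .negSucc 1959234017552111, .negSucc 5081788555017614, .ofNat 14687294338592, .ofNat 55812943774908, .ofNat 112001685251960, .ofNat 124290556643820, .negSucc 2853153568177, .negSucc 2678449380253, .negSucc 1280055574775, .negSucc 1211316119, .negSucc 100468581044, .negSucc 3489605951, .negSucc 11990082047]), ((1, 5), .ofNat 147000, [.negSucc 12988697301, .ofNat 698407909858, .ofNat 4671318075702, .ofNat 16711041760217, .ofNat 43344740010740, .negSucc 125275155871, .negSucc 476055494727, .negSucc 955323397559, .negSucc 1060156441119, .ofNat 24336056748, .ofNat 22845818964, .ofNat 10918280416, .ofNat 10282545, .ofNat 857062920, .ofNat 29827182, .ofNat 102292743]), ((1, 7), .ofNat 352800, [.ofNat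 11891737312, .negSucc 639370120347, .negSucc 4276455172511, .negSucc 15298492183351, .negSucc 39681005910664, .ofNat 114686673632, .ofNat 435818103268, .ofNat 874579884360, .ofNat 970558162420, .negSucc 22279184237, .negSucc 20914853633, .negSucc 9995470695, .negSucc 9389519, .negSucc 784566194, .negSucc 27332591, .negSucc 93648407]), ((1, 9), .ofNat 3292800, [.negSucc 8773391087, .ofNat 471998910652, .ofNat 3156923904688, .ofNat 11293403780848, .ofNat 29291944821685, .negSucc 84657622367, .negSucc 321706478931, .negSucc 645565564839, .negSucc 716369111779, .ofNat 16445449862, .ofNat 15438585066, .ofNat 7378136104, .ofNat 7053480, .ofNat 578292855, .ofNat 20001408, .ofNat 69021792]), ((2, 4), .ofNat 940800, [.negSucc 79965139183, .ofNat 4301359712036, .ofNat 28769393703984, .ofNat 102918212624864, .ofNat 266943368254955, .negSucc 771507323423, .negSucc 2931796570475,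 .negSucc 5883276607319, .negSucc 6528674944539, .ofNat 149872111066, .ofNat 140695885238, .ofNat 67239421272, .ofNat 64025640, .ofNat 5276564265, .ofNat 182802144, .ofNat 629637456]), ((2, 6), .ofNat 5644800, [.ofNat 546584362128, .negSucc 29387960237811, .negSucc 196562542014927, .negSucc 703178053227887, .negSucc 1823893050555134, .ofNat 5271440754208, .ofNat 20031883444092, .ofNat 40199077198840, .ofNat 44610634462380, .negSucc 1024035987921, .negSucc 961326738045, .negSucc 459430159223, .negSucc 431849879, .negSucc 36069539204, .negSucc 1256259647, .negSucc 4305044351]), ((2, 8), .ofNat 6585600, [.negSucc 251740676207, .ofNat 13534356689932, .ofNat 90525298197808, .ofNat 323843368580368, .ofNat 839981781181585, .negSucc 2427734405087, .negSucc 9225572846211, .negSucc 18513501900039, .negSucc 20545303397779, .ofNat 471615421742, .ofNat 442734143106, .ofNat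 211588528264, .ofNat 198472680, .ofNat 16609392555, .ofNat 578977728, .ofNat 1982585472]), ((3, 5), .ofNat 705600, [.ofNat 24063845232, .negSucc 1295866932027, .negSucc 8667012707631, .negSucc 31004395137071, .negSucc 80413965619364, .ofNat 232396262752, .ofNat 883133518548, .ofNat 1772100961960, .ofNat 1966304458020, .negSucc 45143576517, .negSucc 42380775273, .negSucc 20253300455, .negSucc 19935719, .negSucc 1587524294, .negSucc 54227711, .negSucc 189321887]), ((3, 7), .ofNat 1234800, [.negSucc 111158124335, .ofNat 5976267128044, .ofNat 39972574295536, .ofNat 142997029651056, .ofNat 370904334927945, .negSucc 1071995296095, .negSucc 4073664084803, .negSucc 8174863863879, .negSucc 9072035974259, .ofNat 208247214814, .ofNat 195494482402, .ofNat 93429419688, .ofNat 87703560, .ofNat 7335756435, .ofNat 255634176, .ofNat 875560224]), ((4, 6), .ofNat 201600, [.negSucc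 572795663, .ofNat 31439654356, .ofNat 210146480464, .ofNat 751531696944, .ofNat 1947778055055, .negSucc 5624012703, .negSucc 21374768795, .negSucc 42851588919, .negSucc 47466748139, .ofNat 1091888386, .ofNat 1025557198, .ofNat 489801912, .ofNat 748440, .ofNat 37616565, .ofNat 969024, .ofNat 4440576])]

theorem NIT_2_1_10 (l : ℕ) (hlp : l.Prime) (hl2 : l ≠ 2) (hls : ¬ l ∣ 7) (hE : ¬ l ∣ 7)
    (hj : 10 < l) : NUMA_stmt 2 1 l 10 :=
  @NI_fin 2 1 7 2 7 10 (by norm_num) NIC_2_1_10 (by decide +kernel) (by decide +kernel)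
    (by decide +kernel) (by decide +kernel) l hlp hl2 hls hE hj

/-- certificate, `d = 2`, `t = 1`, `j = 11` -/
def NIC_2_1_11 : NI_Cert where
  tab0 := [[[(.ofNat 1, .ofNat 0), (.ofNat 0, .ofNat 0), (.ofNat 0, .ofNat 0), (.ofNat 0, .ofNat 0), (.ofNat 0, .ofNat 0), (.ofNat 0, .ofNat 0), (.ofNat 0, .ofNat 0), (.ofNat 0, .ofNat 0), (.ofNat 0, .ofNat 0), (.ofNat 0, .ofNat 0), (.ofNat 0, .ofNat 0), (.ofNat 0, .ofNat 0)], [(.ofNat 0, .ofNat 0), (.ofNat 1, .ofNat 0), (.ofNat 0, .ofNat 0), (.ofNat 0, .ofNat 0), (.ofNat 0, .ofNat 0), (.ofNat 0, .ofNat 0), (.ofNat 0, .ofNat 0), (.ofNat 0, .ofNat 0), (.ofNat 0, .ofNat 0), (.ofNat 0, .ofNat 0), (.ofNat 0, .ofNat 0), (.ofNat 0, .ofNat 0)], [(.ofNat 0, .ofNat 0), (.ofNat 0, .ofNat 0), (.ofNat 1, .ofNat 0), (.ofNat 0, .ofNat 0), (.ofNat 0, .ofNat 0), (.ofNat 0, .ofNat 0), (.ofNat 0, .ofNat 0), (.ofNat 0, .ofNat 0), (.ofNat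 0, .ofNat 0), (.ofNat 0, .ofNat 0), (.ofNat 0, .ofNat 0), (.ofNat 0, .ofNat 0)], [(.ofNat 0, .ofNat 0), (.ofNat 0, .ofNat 0), (.ofNat 0, .ofNat 0), (.ofNat 1, .ofNat 0), (.ofNat 0, .ofNat 0), (.ofNat 0, .ofNat 0), (.ofNat 0, .ofNat 0), (.ofNat 0, .ofNat 0), (.ofNat 0, .ofNat 0), (.ofNat 0, .ofNat 0), (.ofNat 0, .ofNat 0), (.ofNat 0, .ofNat 0)], [(.ofNat 0, .ofNat 0), (.ofNat 0, .ofNat 0), (.ofNat 0, .ofNat 0), (.ofNat 0, .ofNat 0), (.ofNat 1, .ofNat 0), (.ofNat 0, .ofNat 0), (.ofNat 0, .ofNat 0), (.ofNat 0, .ofNat 0), (.ofNat 0, .ofNat 0), (.ofNat 0, .ofNat 0), (.ofNat 0, .ofNat 0), (.ofNat 0, .ofNat 0)], [(.ofNat 0, .ofNat 0), (.ofNat 0, .ofNat 0), (.ofNat 0, .ofNat 0), (.ofNat 0, .ofNat 0), (.ofNat 0, .ofNat 0), (.ofNat 1, .ofNat 0), (.ofNat 0, .ofNat 0), (.ofNat 0, .ofNat 0), (.ofNat 0, .ofNat 0), (.ofNat 0, .ofNat 0), (.ofNat 0, .ofNat 0), (.ofNat 0, .ofNat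 0)], [(.ofNat 0, .ofNat 0), (.ofNat 0, .ofNat 0), (.ofNat 0, .ofNat 0), (.ofNat 0, .ofNat 0), (.ofNat 0, .ofNat 0), (.ofNat 0, .ofNat 0), (.ofNat 1, .ofNat 0), (.ofNat 0, .ofNat 0), (.ofNat 0, .ofNat 0), (.ofNat 0, .ofNat 0), (.ofNat 0, .ofNat 0), (.ofNat 0, .ofNat 0)], [(.ofNat 0, .ofNat 0), (.ofNat 0, .ofNat 0), (.ofNat 0, .ofNat 0), (.ofNat 0, .ofNat 0), (.ofNat 0, .ofNat 0), (.ofNat 0, .ofNat 0), (.ofNat 0, .ofNat 0), (.ofNat 1, .ofNat 0), (.ofNat 0, .ofNat 0), (.ofNat 0, .ofNat 0), (.ofNat 0, .ofNat 0), (.ofNat 0, .ofNat 0)], [(.ofNat 0, .ofNat 0), (.ofNat 0, .ofNat 0), (.ofNat 0, .ofNat 0), (.ofNat 0, .ofNat 0), (.ofNat 0, .ofNat 0), (.ofNat 0, .ofNat 0), (.ofNat 0, .ofNat 0), (.ofNat 0, .ofNat 0), (.ofNat 1, .ofNat 0), (.ofNat 0, .ofNat 0), (.ofNat 0, .ofNat 0), (.ofNat 0, .ofNat 0)], [(.ofNat 0, .ofNat 0), (.ofNat 0, .ofNat 0), (.ofNat 0, .ofNat 0), (.ofNat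 0, .ofNat 0), (.ofNat 0, .ofNat 0), (.ofNat 0, .ofNat 0), (.ofNat 0, .ofNat 0), (.ofNat 0, .ofNat 0), (.ofNat 0, .ofNat 0), (.ofNat 1, .ofNat 0), (.ofNat 0, .ofNat 0), (.ofNat 0, .ofNat 0)], [(.ofNat 0, .ofNat 0), (.ofNat 0, .ofNat 0), (.ofNat 0, .ofNat 0), (.ofNat 0, .ofNat 0), (.ofNat 0, .ofNat 0), (.ofNat 0, .ofNat 0), (.ofNat 0, .ofNat 0), (.ofNat 0, .ofNat 0), (.ofNat 0, .ofNat 0), (.ofNat 0, .ofNat 0), (.ofNat 1, .ofNat 0), (.ofNat 0, .ofNat 0)], [(.ofNat 0, .ofNat 0), (.ofNat 0, .ofNat 0), (.ofNat 0, .ofNat 0), (.ofNat 0, .ofNat 0), (.ofNat 0, .ofNat 0), (.ofNat 0, .ofNat 0), (.ofNat 0, .ofNat 0), (.ofNat 0, .ofNat 0), (.ofNat 0, .ofNat 0), (.ofNat 0, .ofNat 0), (.ofNat 0, .ofNat 0), (.ofNat 1, .ofNat 0)]], [[(.ofNat 1, .ofNat 0), (.negSucc 10, .ofNat 0), (.ofNat 55, .ofNat 0), (.negSucc 164, .ofNat 0), (.ofNat 330, .ofNat 0), (.negSucc 461, .ofNat 0),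 (.ofNat 462, .ofNat 0), (.negSucc 329, .ofNat 0), (.ofNat 165, .ofNat 0), (.negSucc 54, .ofNat 0), (.ofNat 11, .ofNat 0), (.negSucc 0, .ofNat 0)], [(.ofNat 1, .ofNat 0), (.negSucc 9, .ofNat 0), (.ofNat 45, .ofNat 0), (.negSucc 119, .ofNat 0), (.ofNat 210, .ofNat 0), (.negSucc 251, .ofNat 0), (.ofNat 210, .ofNat 0), (.negSucc 119, .ofNat 0), (.ofNat 45, .ofNat 0), (.negSucc 9, .ofNat 0), (.ofNat 1, .ofNat 0), (.ofNat 0, .ofNat 0)], [(.ofNat 1, .ofNat 0), (.negSucc 8, .ofNat 0), (.ofNat 36, .ofNat 0), (.negSucc 83, .ofNat 0), (.ofNat 126, .ofNat 0), (.negSucc 125, .ofNat 0), (.ofNat 84, .ofNat 0), (.negSucc 35, .ofNat 0), (.ofNat 9, .ofNat 0), (.negSucc 0, .ofNat 0), (.ofNat 0, .ofNat 0), (.ofNat 0, .ofNat 0)], [(.ofNat 1, .ofNat 0), (.negSucc 7, .ofNat 0), (.ofNat 28, .ofNat 0), (.negSucc 55, .ofNat 0), (.ofNat 70, .ofNat 0), (.negSucc 55, .ofNat 0), (.ofNat 28,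 .ofNat 0), (.negSucc 7, .ofNat 0), (.ofNat 1, .ofNat 0), (.ofNat 0, .ofNat 0), (.ofNat 0, .ofNat 0), (.ofNat 0, .ofNat 0)], [(.ofNat 1, .ofNat 0), (.negSucc 6, .ofNat 0), (.ofNat 21, .ofNat 0), (.negSucc 34, .ofNat 0), (.ofNat 35, .ofNat 0), (.negSucc 20, .ofNat 0), (.ofNat 7, .ofNat 0), (.negSucc 0, .ofNat 0), (.ofNat 0, .ofNat 0), (.ofNat 0, .ofNat 0), (.ofNat 0, .ofNat 0), (.ofNat 0, .ofNat 0)], [(.ofNat 1, .ofNat 0), (.negSucc 5, .ofNat 0), (.ofNat 15, .ofNat 0), (.negSucc 19, .ofNat 0), (.ofNat 15, .ofNat 0), (.negSucc 5, .ofNat 0), (.ofNat 1, .ofNat 0), (.ofNat 0, .ofNat 0), (.ofNat 0, .ofNat 0), (.ofNat 0, .ofNat 0), (.ofNat 0, .ofNat 0), (.ofNat 0, .ofNat 0)], [(.ofNat 1, .ofNat 0), (.negSucc 4, .ofNat 0), (.ofNat 10, .ofNat 0), (.negSucc 9, .ofNat 0), (.ofNat 5, .ofNat 0), (.negSucc 0, .ofNat 0), (.ofNat 0, .ofNat 0), (.ofNat 0, .ofNat 0), (.ofNat 0,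 .ofNat 0), (.ofNat 0, .ofNat 0), (.ofNat 0, .ofNat 0), (.ofNat 0, .ofNat 0)], [(.ofNat 1, .ofNat 0), (.negSucc 3, .ofNat 0), (.ofNat 6, .ofNat 0), (.negSucc 3, .ofNat 0), (.ofNat 1, .ofNat 0), (.ofNat 0, .ofNat 0), (.ofNat 0, .ofNat 0), (.ofNat 0, .ofNat 0), (.ofNat 0, .ofNat 0), (.ofNat 0, .ofNat 0), (.ofNat 0, .ofNat 0), (.ofNat 0, .ofNat 0)], [(.ofNat 1, .ofNat 0), (.negSucc 2, .ofNat 0), (.ofNat 3, .ofNat 0), (.negSucc 0, .ofNat 0), (.ofNat 0, .ofNat 0), (.ofNat 0, .ofNat 0), (.ofNat 0, .ofNat 0), (.ofNat 0, .ofNat 0), (.ofNat 0, .ofNat 0), (.ofNat 0, .ofNat 0), (.ofNat 0, .ofNat 0), (.ofNat 0, .ofNat 0)], [(.ofNat 1, .ofNat 0), (.negSucc 1, .ofNat 0), (.ofNat 1, .ofNat 0), (.ofNat 0, .ofNat 0), (.ofNat 0, .ofNat 0), (.ofNat 0, .ofNat 0), (.ofNat 0, .ofNat 0), (.ofNat 0, .ofNat 0), (.ofNat 0, .ofNat 0), (.ofNat 0, .ofNat 0), (.ofNat 0, .ofNat 0), (.ofNat 0,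 .ofNat 0)], [(.ofNat 1, .ofNat 0), (.negSucc 0, .ofNat 0), (.ofNat 0, .ofNat 0), (.ofNat 0, .ofNat 0), (.ofNat 0, .ofNat 0), (.ofNat 0, .ofNat 0), (.ofNat 0, .ofNat 0), (.ofNat 0, .ofNat 0), (.ofNat 0, .ofNat 0), (.ofNat 0, .ofNat 0), (.ofNat 0, .ofNat 0), (.ofNat 0, .ofNat 0)], [(.ofNat 1, .ofNat 0), (.ofNat 0, .ofNat 0), (.ofNat 0, .ofNat 0), (.ofNat 0, .ofNat 0), (.ofNat 0, .ofNat 0), (.ofNat 0, .ofNat 0), (.ofNat 0, .ofNat 0), (.ofNat 0, .ofNat 0), (.ofNat 0, .ofNat 0), (.ofNat 0, .ofNat 0), (.ofNat 0, .ofNat 0), (.ofNat 0, .ofNat 0)]], [[(.ofNat 0, .ofNat 0), (.ofNat 0, .ofNat 0), (.ofNat 0, .ofNat 0), (.ofNat 0, .ofNat 0), (.ofNat 0, .ofNat 0), (.ofNat 0, .ofNat 0), (.ofNat 0, .ofNat 0), (.ofNat 0, .ofNat 0), (.ofNat 0, .ofNat 0), (.ofNat 0, .ofNat 0), (.ofNat 0, .ofNat 0), (.negSucc 0, .ofNat 0)], [(.ofNat 0, .ofNat 0), (.ofNat 0, .ofNat 0), (.ofNat 0,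 .ofNat 0), (.ofNat 0, .ofNat 0), (.ofNat 0, .ofNat 0), (.ofNat 0, .ofNat 0), (.ofNat 0, .ofNat 0), (.ofNat 0, .ofNat 0), (.ofNat 0, .ofNat 0), (.ofNat 0, .ofNat 0), (.ofNat 1, .ofNat 0), (.negSucc 0, .ofNat 0)], [(.ofNat 0, .ofNat 0), (.ofNat 0, .ofNat 0), (.ofNat 0, .ofNat 0), (.ofNat 0, .ofNat 0), (.ofNat 0, .ofNat 0), (.ofNat 0, .ofNat 0), (.ofNat 0, .ofNat 0), (.ofNat 0, .ofNat 0), (.ofNat 0, .ofNat 0), (.negSucc 0, .ofNat 0), (.ofNat 2, .ofNat 0), (.negSucc 0, .ofNat 0)], [(.ofNat 0, .ofNat 0), (.ofNat 0, .ofNat 0), (.ofNat 0, .ofNat 0), (.ofNat 0, .ofNat 0), (.ofNat 0, .ofNat 0), (.ofNat 0, .ofNat 0), (.ofNat 0, .ofNat 0), (.ofNat 0, .ofNat 0), (.ofNat 1, .ofNat 0), (.negSucc 2, .ofNat 0), (.ofNat 3, .ofNat 0), (.negSucc 0, .ofNat 0)], [(.ofNat 0, .ofNat 0), (.ofNat 0, .ofNat 0), (.ofNat 0, .ofNat 0), (.ofNat 0, .ofNat 0), (.ofNat 0, .ofNat 0), (.ofNat 0,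 .ofNat 0), (.ofNat 0, .ofNat 0), (.negSucc 0, .ofNat 0), (.ofNat 4, .ofNat 0), (.negSucc 5, .ofNat 0), (.ofNat 4, .ofNat 0), (.negSucc 0, .ofNat 0)], [(.ofNat 0, .ofNat 0), (.ofNat 0, .ofNat 0), (.ofNat 0, .ofNat 0), (.ofNat 0, .ofNat 0), (.ofNat 0, .ofNat 0), (.ofNat 0, .ofNat 0), (.ofNat 1, .ofNat 0), (.negSucc 4, .ofNat 0), (.ofNat 10, .ofNat 0), (.negSucc 9, .ofNat 0), (.ofNat 5, .ofNat 0), (.negSucc 0, .ofNat 0)], [(.ofNat 0, .ofNat 0), (.ofNat 0, .ofNat 0), (.ofNat 0, .ofNat 0), (.ofNat 0, .ofNat 0), (.ofNat 0, .ofNat 0), (.negSucc 0, .ofNat 0), (.ofNat 6, .ofNat 0), (.negSucc 14, .ofNat 0), (.ofNat 20, .ofNat 0), (.negSucc 14, .ofNat 0), (.ofNat 6, .ofNat 0), (.negSucc 0, .ofNat 0)], [(.ofNat 0, .ofNat 0), (.ofNat 0, .ofNat 0), (.ofNat 0, .ofNat 0), (.ofNat 0, .ofNat 0), (.ofNat 1, .ofNat 0), (.negSucc 6, .ofNat 0), (.ofNat 21, .ofNat 0), (.negSucc 34,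 .ofNat 0), (.ofNat 35, .ofNat 0), (.negSucc 20, .ofNat 0), (.ofNat 7, .ofNat 0), (.negSucc 0, .ofNat 0)], [(.ofNat 0, .ofNat 0), (.ofNat 0, .ofNat 0), (.ofNat 0, .ofNat 0), (.negSucc 0, .ofNat 0), (.ofNat 8, .ofNat 0), (.negSucc 27, .ofNat 0), (.ofNat 56, .ofNat 0), (.negSucc 69, .ofNat 0), (.ofNat 56, .ofNat 0), (.negSucc 27, .ofNat 0), (.ofNat 8, .ofNat 0), (.negSucc 0, .ofNat 0)], [(.ofNat 0, .ofNat 0), (.ofNat 0, .ofNat 0), (.ofNat 1, .ofNat 0), (.negSucc 8, .ofNat 0), (.ofNat 36, .ofNat 0), (.negSucc 83, .ofNat 0), (.ofNat 126, .ofNat 0), (.negSucc 125, .ofNat 0), (.ofNat 84, .ofNat 0), (.negSucc 35, .ofNat 0), (.ofNat 9, .ofNat 0), (.negSucc 0, .ofNat 0)], [(.ofNat 0, .ofNat 0), (.negSucc 0, .ofNat 0), (.ofNat 10, .ofNat 0), (.negSucc 44, .ofNat 0), (.ofNat 120, .ofNat 0), (.negSucc 209, .ofNat 0), (.ofNat 252, .ofNat 0), (.negSucc 209, .ofNat 0), (.ofNat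 120, .ofNat 0), (.negSucc 44, .ofNat 0), (.ofNat 10, .ofNat 0), (.negSucc 0, .ofNat 0)], [(.ofNat 1, .ofNat 0), (.negSucc 10, .ofNat 0), (.ofNat 55, .ofNat 0), (.negSucc 164, .ofNat 0), (.ofNat 330, .ofNat 0), (.negSucc 461, .ofNat 0), (.ofNat 462, .ofNat 0), (.negSucc 329, .ofNat 0), (.ofNat 165, .ofNat 0), (.negSucc 54, .ofNat 0), (.ofNat 11, .ofNat 0), (.negSucc 0, .ofNat 0)]]]
  tab1 := [[[(.ofNat 1, .ofNat 0), (.ofNat 0, .ofNat 0), (.ofNat 0, .ofNat 0), (.ofNat 0, .ofNat 0), (.ofNat 0, .ofNat 0), (.ofNat 0, .ofNat 0), (.ofNat 0, .ofNat 0), (.ofNat 0, .ofNat 0), (.ofNat 0, .ofNat 0), (.ofNat 0, .ofNat 0), (.ofNat 0, .ofNat 0), (.ofNat 0, .ofNat 0)], [(.ofNat 0, .ofNat 0), (.ofNat 1, .ofNat 0), (.ofNat 0, .ofNat 0), (.ofNat 0, .ofNat 0), (.ofNat 0, .ofNat 0), (.ofNat 0, .ofNat 0), (.ofNat 0, .ofNat 0), (.ofNat 0, .ofNat 0), (.ofNat 0, .ofNat 0), (.ofNat 0,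 .ofNat 0), (.ofNat 0, .ofNat 0), (.ofNat 0, .ofNat 0)], [(.ofNat 0, .ofNat 0), (.ofNat 0, .ofNat 0), (.ofNat 1, .ofNat 0), (.ofNat 0, .ofNat 0), (.ofNat 0, .ofNat 0), (.ofNat 0, .ofNat 0), (.ofNat 0, .ofNat 0), (.ofNat 0, .ofNat 0), (.ofNat 0, .ofNat 0), (.ofNat 0, .ofNat 0), (.ofNat 0, .ofNat 0), (.ofNat 0, .ofNat 0)], [(.ofNat 0, .ofNat 0), (.ofNat 0, .ofNat 0), (.ofNat 0, .ofNat 0), (.ofNat 1, .ofNat 0), (.ofNat 0, .ofNat 0), (.ofNat 0, .ofNat 0), (.ofNat 0, .ofNat 0), (.ofNat 0, .ofNat 0), (.ofNat 0, .ofNat 0), (.ofNat 0, .ofNat 0), (.ofNat 0, .ofNat 0), (.ofNat 0, .ofNat 0)], [(.ofNat 0, .ofNat 0), (.ofNat 0, .ofNat 0), (.ofNat 0, .ofNat 0), (.ofNat 0, .ofNat 0), (.ofNat 1, .ofNat 0), (.ofNat 0, .ofNat 0), (.ofNat 0, .ofNat 0), (.ofNat 0, .ofNat 0), (.ofNat 0, .ofNat 0), (.ofNat 0, .ofNat 0), (.ofNat 0, .ofNat 0), (.ofNat 0, .ofNat 0)], [(.ofNat 0, .ofNat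 0), (.ofNat 0, .ofNat 0), (.ofNat 0, .ofNat 0), (.ofNat 0, .ofNat 0), (.ofNat 0, .ofNat 0), (.ofNat 1, .ofNat 0), (.ofNat 0, .ofNat 0), (.ofNat 0, .ofNat 0), (.ofNat 0, .ofNat 0), (.ofNat 0, .ofNat 0), (.ofNat 0, .ofNat 0), (.ofNat 0, .ofNat 0)], [(.ofNat 0, .ofNat 0), (.ofNat 0, .ofNat 0), (.ofNat 0, .ofNat 0), (.ofNat 0, .ofNat 0), (.ofNat 0, .ofNat 0), (.ofNat 0, .ofNat 0), (.ofNat 1, .ofNat 0), (.ofNat 0, .ofNat 0), (.ofNat 0, .ofNat 0), (.ofNat 0, .ofNat 0), (.ofNat 0, .ofNat 0), (.ofNat 0, .ofNat 0)], [(.ofNat 0, .ofNat 0), (.ofNat 0, .ofNat 0), (.ofNat 0, .ofNat 0), (.ofNat 0, .ofNat 0), (.ofNat 0, .ofNat 0), (.ofNat 0, .ofNat 0), (.ofNat 0, .ofNat 0), (.ofNat 1, .ofNat 0), (.ofNat 0, .ofNat 0), (.ofNat 0, .ofNat 0), (.ofNat 0, .ofNat 0), (.ofNat 0, .ofNat 0)], [(.ofNat 0, .ofNat 0), (.ofNat 0, .ofNat 0), (.ofNat 0, .ofNat 0), (.ofNat 0, .ofNat 0), (.ofNat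 0, .ofNat 0), (.ofNat 0, .ofNat 0), (.ofNat 0, .ofNat 0), (.ofNat 0, .ofNat 0), (.ofNat 1, .ofNat 0), (.ofNat 0, .ofNat 0), (.ofNat 0, .ofNat 0), (.ofNat 0, .ofNat 0)], [(.ofNat 0, .ofNat 0), (.ofNat 0, .ofNat 0), (.ofNat 0, .ofNat 0), (.ofNat 0, .ofNat 0), (.ofNat 0, .ofNat 0), (.ofNat 0, .ofNat 0), (.ofNat 0, .ofNat 0), (.ofNat 0, .ofNat 0), (.ofNat 0, .ofNat 0), (.ofNat 1, .ofNat 0), (.ofNat 0, .ofNat 0), (.ofNat 0, .ofNat 0)], [(.ofNat 0, .ofNat 0), (.ofNat 0, .ofNat 0), (.ofNat 0, .ofNat 0), (.ofNat 0, .ofNat 0), (.ofNat 0, .ofNat 0), (.ofNat 0, .ofNat 0), (.ofNat 0, .ofNat 0), (.ofNat 0, .ofNat 0), (.ofNat 0, .ofNat 0), (.ofNat 0, .ofNat 0), (.ofNat 1, .ofNat 0), (.ofNat 0, .ofNat 0)], [(.ofNat 0, .ofNat 0), (.ofNat 0, .ofNat 0), (.ofNat 0, .ofNat 0), (.ofNat 0, .ofNat 0), (.ofNat 0, .ofNat 0), (.ofNat 0, .ofNat 0), (.ofNat 0, .ofNat 0), (.ofNat 0, .ofNat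 0), (.ofNat 0, .ofNat 0), (.ofNat 0, .ofNat 0), (.ofNat 0, .ofNat 0), (.ofNat 1, .ofNat 0)]], [[(.ofNat 22, .ofNat 23), (.ofNat 374, .negSucc 120), (.ofNat 330, .negSucc 934), (.negSucc 2309, .negSucc 494), (.negSucc 3299, .ofNat 2310), (.ofNat 924, .ofNat 2310), (.ofNat 2772, .negSucc 461), (.ofNat 660, .negSucc 989), (.negSucc 329, .negSucc 164), (.negSucc 109, .ofNat 55), (.ofNat 0, .ofNat 11), (.ofNat 1, .ofNat 0)], [(.ofNat 34, .negSucc 10), (.ofNat 60, .negSucc 169), (.negSucc 629, .negSucc 134), (.negSucc 1199, .ofNat 840), (.ofNat 420, .ofNat 1050), (.ofNat 1512, .negSucc 251), (.ofNat 420, .negSucc 629), (.negSucc 239, .negSucc 119), (.negSucc 89, .ofNat 45), (.ofNat 0, .ofNat 10), (.ofNat 1, .ofNat 0), (.ofNat 0, .ofNat 0)], [(.ofNat 6, .negSucc 16), (.negSucc 125, .negSucc 26), (.negSucc 359, .ofNat 252), (.ofNat 168, .ofNat 420), (.ofNat 756, .negSucc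 125), (.ofNat 252, .negSucc 377), (.negSucc 167, .negSucc 83), (.negSucc 71, .ofNat 36), (.ofNat 0, .ofNat 9), (.ofNat 1, .ofNat 0), (.ofNat 0, .ofNat 0), (.ofNat 0, .ofNat 0)], [(.negSucc 13, .negSucc 2), (.negSucc 79, .ofNat 56), (.ofNat 56, .ofNat 140), (.ofNat 336, .negSucc 55), (.ofNat 140, .negSucc 209), (.negSucc 111, .negSucc 55), (.negSucc 55, .ofNat 28), (.ofNat 0, .ofNat 8), (.ofNat 1, .ofNat 0), (.ofNat 0, .ofNat 0), (.ofNat 0, .ofNat 0), (.ofNat 0, .ofNat 0)], [(.negSucc 9, .ofNat 7), (.ofNat 14, .ofNat 35), (.ofNat 126, .negSucc 20), (.ofNat 70, .negSucc 104), (.negSucc 69, .negSucc 34), (.negSucc 41, .ofNat 21), (.ofNat 0, .ofNat 7), (.ofNat 1, .ofNat 0), (.ofNat 0, .ofNat 0), (.ofNat 0, .ofNat 0), (.ofNat 0, .ofNat 0), (.ofNat 0, .ofNat 0)], [(.ofNat 2, .ofNat 5), (.ofNat 36, .negSucc 5), (.ofNat 30, .negSucc 44), (.negSucc 39, .negSucc 19), (.negSucc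 29, .ofNat 15), (.ofNat 0, .ofNat 6), (.ofNat 1, .ofNat 0), (.ofNat 0, .ofNat 0), (.ofNat 0, .ofNat 0), (.ofNat 0, .ofNat 0), (.ofNat 0, .ofNat 0), (.ofNat 0, .ofNat 0)], [(.ofNat 6, .negSucc 0), (.ofNat 10, .negSucc 14), (.negSucc 19, .negSucc 9), (.negSucc 19, .ofNat 10), (.ofNat 0, .ofNat 5), (.ofNat 1, .ofNat 0), (.ofNat 0, .ofNat 0), (.ofNat 0, .ofNat 0), (.ofNat 0, .ofNat 0), (.ofNat 0, .ofNat 0), (.ofNat 0, .ofNat 0), (.ofNat 0, .ofNat 0)], [(.ofNat 2, .negSucc 2), (.negSucc 7, .negSucc 3), (.negSucc 11, .ofNat 6), (.ofNat 0, .ofNat 4), (.ofNat 1, .ofNat 0), (.ofNat 0, .ofNat 0), (.ofNat 0, .ofNat 0), (.ofNat 0, .ofNat 0), (.ofNat 0, .ofNat 0), (.ofNat 0, .ofNat 0), (.ofNat 0, .ofNat 0), (.ofNat 0, .ofNat 0)], [(.negSucc 1, .negSucc 0), (.negSucc 5, .ofNat 3), (.ofNat 0, .ofNat 3), (.ofNat 1, .ofNat 0), (.ofNat 0, .ofNat 0), (.ofNat 0, .ofNat 0), (.ofNat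 0, .ofNat 0), (.ofNat 0, .ofNat 0), (.ofNat 0, .ofNat 0), (.ofNat 0, .ofNat 0), (.ofNat 0, .ofNat 0), (.ofNat 0, .ofNat 0)], [(.negSucc 1, .ofNat 1), (.ofNat 0, .ofNat 2), (.ofNat 1, .ofNat 0), (.ofNat 0, .ofNat 0), (.ofNat 0, .ofNat 0), (.ofNat 0, .ofNat 0), (.ofNat 0, .ofNat 0), (.ofNat 0, .ofNat 0), (.ofNat 0, .ofNat 0), (.ofNat 0, .ofNat 0), (.ofNat 0, .ofNat 0), (.ofNat 0, .ofNat 0)], [(.ofNat 0, .ofNat 1), (.ofNat 1, .ofNat 0), (.ofNat 0, .ofNat 0), (.ofNat 0, .ofNat 0), (.ofNat 0, .ofNat 0), (.ofNat 0, .ofNat 0), (.ofNat 0, .ofNat 0), (.ofNat 0, .ofNat 0), (.ofNat 0, .ofNat 0), (.ofNat 0, .ofNat 0), (.ofNat 0, .ofNat 0), (.ofNat 0, .ofNat 0)], [(.ofNat 1, .ofNat 0), (.ofNat 0, .ofNat 0), (.ofNat 0, .ofNat 0), (.ofNat 0, .ofNat 0), (.ofNat 0, .ofNat 0), (.ofNat 0, .ofNat 0), (.ofNat 0, .ofNat 0), (.ofNat 0, .ofNat 0), (.ofNat 0, .ofNat 0), (.ofNat 0, .ofNat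 0), (.ofNat 0, .ofNat 0), (.ofNat 0, .ofNat 0)]], [[(.ofNat 1, .ofNat 0), (.ofNat 11, .negSucc 10), (.negSucc 54, .negSucc 54), (.negSucc 494, .ofNat 165), (.negSucc 329, .ofNat 990), (.ofNat 2310, .ofNat 462), (.ofNat 3234, .negSucc 2309), (.negSucc 989, .negSucc 2309), (.negSucc 2804, .ofNat 495), (.negSucc 604, .ofNat 935), (.ofNat 253, .ofNat 121), (.ofNat 45, .negSucc 22)], [(.ofNat 0, .ofNat 1), (.ofNat 21, .ofNat 0), (.ofNat 100, .negSucc 99), (.negSucc 284, .negSucc 284), (.negSucc 1619, .ofNat 540), (.negSucc 713, .ofNat 2142), (.ofNat 3360, .ofNat 672), (.ofNat 3150, .negSucc 2249), (.negSucc 629, .negSucc 1469), (.negSucc 1104, .ofNat 195), (.negSucc 131, .ofNat 204), (.ofNat 23, .ofNat 11)], [(.negSucc 1, .ofNat 1), (.ofNat 0, .ofNat 20), (.ofNat 181, .ofNat 0), (.ofNat 489, .negSucc 488), (.negSucc 875, .negSucc 875), (.negSucc 3275, .ofNat 1092),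 (.negSucc 965, .ofNat 2898), (.ofNat 3030, .ofNat 606), (.ofNat 1848, .negSucc 1319), (.negSucc 227, .negSucc 531), (.negSucc 220, .ofNat 39), (.negSucc 10, .ofNat 17)], [(.negSucc 1, .negSucc 0), (.negSucc 37, .ofNat 19), (.ofNat 0, .ofNat 163), (.ofNat 833, .ofNat 0), (.ofNat 1408, .negSucc 1407), (.negSucc 1651, .negSucc 1651), (.negSucc 4115, .ofNat 1372), (.negSucc 805, .ofNat 2418), (.ofNat 1640, .ofNat 328), (.ofNat 616, .negSucc 439), (.negSucc 41, .negSucc 97), (.negSucc 16, .ofNat 3)], [(.ofNat 2, .negSucc 2), (.negSucc 35, .negSucc 17), (.negSucc 291, .ofNat 146), (.ofNat 0, .ofNat 704), (.ofNat 2241, .ofNat 0), (.ofNat 2471, .negSucc 2470), (.negSucc 1924, .negSucc 1924), (.negSucc 3176, .ofNat 1059), (.negSucc 402, .ofNat 1209), (.ofNat 505, .ofNat 101), (.ofNat 105, .negSucc 74), (.negSucc 2, .negSucc 6)], [(.ofNat 6, .negSucc 0), (.ofNat 34, .negSucc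 50), (.negSucc 259, .negSucc 129), (.negSucc 1179, .ofNat 590), (.ofNat 0, .ofNat 1765), (.ofNat 3653, .ofNat 0), (.ofNat 2668, .negSucc 2667), (.negSucc 1374, .negSucc 1374), (.negSucc 1469, .ofNat 490), (.negSucc 114, .ofNat 345), (.ofNat 80, .ofNat 16), (.ofNat 7, .negSucc 4)], [(.ofNat 2, .ofNat 5), (.ofNat 96, .negSucc 15), (.ofNat 230, .negSucc 344), (.negSucc 979, .negSucc 489), (.negSucc 2749, .ofNat 1375), (.ofNat 0, .ofNat 2668), (.ofNat 3653, .ofNat 0), (.ofNat 1765, .negSucc 1764), (.negSucc 589, .negSucc 589), (.negSucc 389, .ofNat 130), (.negSucc 16, .ofNat 51), (.ofNat 5, .ofNat 1)], [(.negSucc 9, .ofNat 7), (.ofNat 30, .ofNat 75), (.ofNat 606, .negSucc 100), (.ofNat 806, .negSucc 1208), (.negSucc 2117, .negSucc 1058), (.negSucc 3849, .ofNat 1925), (.ofNat 0, .ofNat 2471), (.ofNat 2241, .ofNat 0), (.ofNat 704, .negSucc 703), (.negSucc 145, .negSucc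 145), (.negSucc 53, .ofNat 18), (.negSucc 0, .ofNat 3)], [(.negSucc 13, .negSucc 2), (.negSucc 139, .ofNat 98), (.ofNat 176, .ofNat 440), (.ofNat 1968, .negSucc 327), (.ofNat 1612, .negSucc 2417), (.negSucc 2743, .negSucc 1371), (.negSucc 3303, .ofNat 1652), (.ofNat 0, .ofNat 1408), (.ofNat 833, .ofNat 0), (.ofNat 163, .negSucc 162), (.negSucc 18, .negSucc 18), (.negSucc 2, .ofNat 1)], [(.ofNat 6, .negSucc 16), (.negSucc 181, .negSucc 38), (.negSucc 759, .ofNat 532), (.ofNat 528, .ofNat 1320), (.ofNat 3636, .negSucc 605), (.ofNat 1932, .negSucc 2897), (.negSucc 2183, .negSucc 1091), (.negSucc 1751, .ofNat 876), (.ofNat 0, .ofNat 489), (.ofNat 181, .ofNat 0), (.ofNat 20, .negSucc 19), (.negSucc 0, .negSucc 0)], [(.ofNat 34, .negSucc 10), (.ofNat 72, .negSucc 203), (.negSucc 909, .negSucc 194), (.negSucc 2099, .ofNat 1470), (.ofNat 900, .ofNat 2250), (.ofNat 4032,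 .negSucc 671), (.ofNat 1428, .negSucc 2141), (.negSucc 1079, .negSucc 539), (.negSucc 569, .ofNat 285), (.ofNat 0, .ofNat 100), (.ofNat 21, .ofNat 0), (.ofNat 1, .negSucc 0)], [(.ofNat 22, .ofNat 23), (.ofNat 374, .negSucc 120), (.ofNat 330, .negSucc 934), (.negSucc 2309, .negSucc 494), (.negSucc 3299, .ofNat 2310), (.ofNat 924, .ofNat 2310), (.ofNat 2772, .negSucc 461), (.ofNat 660, .negSucc 989), (.negSucc 329, .negSucc 164), (.negSucc 109, .ofNat 55), (.ofNat 0, .ofNat 11), (.ofNat 1, .ofNat 0)]], [[(.ofNat 0, .ofNat 0), (.ofNat 0, .ofNat 0), (.ofNat 0, .ofNat 0), (.ofNat 0, .ofNat 0), (.ofNat 0, .ofNat 0), (.ofNat 0, .ofNat 0), (.ofNat 0, .ofNat 0), (.ofNat 0, .ofNat 0), (.ofNat 0, .ofNat 0), (.ofNat 0, .ofNat 0), (.ofNat 0, .ofNat 0), (.ofNat 1, .ofNat 0)], [(.ofNat 0, .ofNat 0), (.ofNat 0, .ofNat 0), (.ofNat 0, .ofNat 0), (.ofNat 0, .ofNat 0), (.ofNat 0,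 .ofNat 0), (.ofNat 0, .ofNat 0), (.ofNat 0, .ofNat 0), (.ofNat 0, .ofNat 0), (.ofNat 0, .ofNat 0), (.ofNat 0, .ofNat 0), (.ofNat 1, .ofNat 0), (.ofNat 1, .negSucc 0)], [(.ofNat 0, .ofNat 0), (.ofNat 0, .ofNat 0), (.ofNat 0, .ofNat 0), (.ofNat 0, .ofNat 0), (.ofNat 0, .ofNat 0), (.ofNat 0, .ofNat 0), (.ofNat 0, .ofNat 0), (.ofNat 0, .ofNat 0), (.ofNat 0, .ofNat 0), (.ofNat 1, .ofNat 0), (.ofNat 2, .negSucc 1), (.negSucc 0, .negSucc 0)], [(.ofNat 0, .ofNat 0), (.ofNat 0, .ofNat 0), (.ofNat 0, .ofNat 0), (.ofNat 0, .ofNat 0), (.ofNat 0, .ofNat 0), (.ofNat 0, .ofNat 0), (.ofNat 0, .ofNat 0), (.ofNat 0, .ofNat 0), (.ofNat 1, .ofNat 0), (.ofNat 3, .negSucc 2), (.negSucc 2, .negSucc 2), (.negSucc 2, .ofNat 1)], [(.ofNat 0, .ofNat 0), (.ofNat 0, .ofNat 0), (.ofNat 0, .ofNat 0), (.ofNat 0, .ofNat 0), (.ofNat 0, .ofNat 0), (.ofNat 0, .ofNat 0), (.ofNat 0, .ofNat 0), (.ofNat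 1, .ofNat 0), (.ofNat 4, .negSucc 3), (.negSucc 5, .negSucc 5), (.negSucc 11, .ofNat 4), (.negSucc 0, .ofNat 3)], [(.ofNat 0, .ofNat 0), (.ofNat 0, .ofNat 0), (.ofNat 0, .ofNat 0), (.ofNat 0, .ofNat 0), (.ofNat 0, .ofNat 0), (.ofNat 0, .ofNat 0), (.ofNat 1, .ofNat 0), (.ofNat 5, .negSucc 4), (.negSucc 9, .negSucc 9), (.negSucc 29, .ofNat 10), (.negSucc 4, .ofNat 15), (.ofNat 5, .ofNat 1)], [(.ofNat 0, .ofNat 0), (.ofNat 0, .ofNat 0), (.ofNat 0, .ofNat 0), (.ofNat 0, .ofNat 0), (.ofNat 0, .ofNat 0), (.ofNat 1, .ofNat 0), (.ofNat 6, .negSucc 5), (.negSucc 14, .negSucc 14), (.negSucc 59, .ofNat 20), (.negSucc 14, .ofNat 45), (.ofNat 30, .ofNat 6), (.ofNat 7, .negSucc 4)], [(.ofNat 0, .ofNat 0), (.ofNat 0, .ofNat 0), (.ofNat 0, .ofNat 0), (.ofNat 0, .ofNat 0), (.ofNat 1, .ofNat 0), (.ofNat 7, .negSucc 6), (.negSucc 20, .negSucc 20), (.negSucc 104, .ofNat 35), (.negSucc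 34, .ofNat 105), (.ofNat 105, .ofNat 21), (.ofNat 49, .negSucc 34), (.negSucc 2, .negSucc 6)], [(.ofNat 0, .ofNat 0), (.ofNat 0, .ofNat 0), (.ofNat 0, .ofNat 0), (.ofNat 1, .ofNat 0), (.ofNat 8, .negSucc 7), (.negSucc 27, .negSucc 27), (.negSucc 167, .ofNat 56), (.negSucc 69, .ofNat 210), (.ofNat 280, .ofNat 56), (.ofNat 196, .negSucc 139), (.negSucc 23, .negSucc 55), (.negSucc 16, .ofNat 3)], [(.ofNat 0, .ofNat 0), (.ofNat 0, .ofNat 0), (.ofNat 1, .ofNat 0), (.ofNat 9, .negSucc 8), (.negSucc 35, .negSucc 35), (.negSucc 251, .ofNat 84), (.negSucc 125, .ofNat 378), (.ofNat 630, .ofNat 126), (.ofNat 588, .negSucc 419), (.negSucc 107, .negSucc 251), (.negSucc 152, .ofNat 27), (.negSucc 10, .ofNat 17)], [(.ofNat 0, .ofNat 0), (.ofNat 1, .ofNat 0), (.ofNat 10, .negSucc 9), (.negSucc 44, .negSucc 44), (.negSucc 359, .ofNat 120), (.negSucc 209, .ofNat 630), (.ofNat 1260,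 .ofNat 252), (.ofNat 1470, .negSucc 1049), (.negSucc 359, .negSucc 839), (.negSucc 764, .ofNat 135), (.negSucc 109, .ofNat 170), (.ofNat 23, .ofNat 11)], [(.ofNat 1, .ofNat 0), (.ofNat 11, .negSucc 10), (.negSucc 54, .negSucc 54), (.negSucc 494, .ofNat 165), (.negSucc 329, .ofNat 990), (.ofNat 2310, .ofNat 462), (.ofNat 3234, .negSucc 2309), (.negSucc 989, .negSucc 2309), (.negSucc 2804, .ofNat 495), (.negSucc 604, .ofNat 935), (.ofNat 253, .ofNat 121), (.ofNat 45, .negSucc 22)]]]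
  rws := [(0, 0, 2, 0), (0, 0, 3, 0), (0, 0, 8, 0), (0, 0, 9, 0), (0, 0, 10, 0), (0, 0, 11, 0), (0, 1, 8, 0), (0, 1, 9, 0), (0, 1, 10, 0), (0, 2, 8, 0), (0, 2, 9, 0), (0, 3, 8, 0), (0, 4, 7, 0), (1, 0, 2, 0), (1, 0, 11, 0), (1, 11, 0, 0)]
  cols := [((0, 2), [.negSucc 19, .ofNat 90, .negSucc 239, .ofNat 90, .negSucc 19, .ofNat 2, .ofNat 2310, .negSucc 879, .ofNat 198, .negSucc 9899, .ofNat 3850, .ofNat 24750, .ofNat 59400, .negSucc 10169, .ofNat 180, .negSucc 181]), ((0, 4), [.negSucc 39, .ofNat 134, .negSucc 199, .ofNat 76, .negSucc 17, .ofNat 2, .ofNat 1540, .negSucc 615, .ofNat 154, .negSucc 5389, .ofNat 2310, .ofNat 11550, .ofNat 22440, .negSucc 5369, .negSucc 363, .ofNat 186]), ((0, 6), [.negSucc 59, .ofNat 175, .negSucc 174, .ofNat 65, .negSucc 15, .ofNat 2, .ofNat 935, .negSucc 384, .ofNat 110, .negSucc 2199, .ofNat 1100, .ofNat 3300, .ofNat 3300, .ofNat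 14110, .ofNat 372, .ofNat 170]), ((0, 8), [.negSucc 79, .ofNat 220, .negSucc 165, .ofNat 58, .negSucc 13, .ofNat 2, .ofNat 506, .negSucc 197, .ofNat 66, .negSucc 549, .ofNat 330, .ofNat 330, .ofNat 0, .negSucc 12329, .ofNat 340, .negSucc 1253]), ((0, 10), [.negSucc 99, .ofNat 285, .negSucc 209, .ofNat 65, .negSucc 11, .ofNat 2, .ofNat 165, .negSucc 54, .ofNat 22, .ofNat 0, .ofNat 0, .ofNat 0, .ofNat 0, .ofNat 6790, .negSucc 2507, .ofNat 3082]), ((1, 3), [.negSucc 19, .ofNat 65, .negSucc 43, .ofNat 10, .negSucc 0, .ofNat 0, .ofNat 406, .negSucc 107, .ofNat 16, .negSucc 1774, .ofNat 560, .ofNat 4800, .ofNat 13440, .negSucc 2439, .ofNat 192, .negSucc 159]), ((1, 5), [.negSucc 39, .ofNat 110, .negSucc 44, .ofNat 10, .negSucc 0, .ofNat 0, .ofNat 290, .negSucc 74, .ofNat 12, .negSucc 874, .ofNat 300, .ofNat 1800, .ofNat 3600, .negSucc 4919, .negSucc 383, .ofNat 192]),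 ((1, 7), [.negSucc 59, .ofNat 151, .negSucc 44, .ofNat 10, .negSucc 0, .ofNat 0, .ofNat 184, .negSucc 45, .ofNat 8, .negSucc 309, .ofNat 120, .ofNat 360, .ofNat 240, .ofNat 8760, .ofNat 384, .ofNat 160]), ((1, 9), [.negSucc 79, .ofNat 204, .negSucc 53, .ofNat 11, .negSucc 0, .ofNat 0, .ofNat 99, .negSucc 20, .ofNat 4, .negSucc 44, .ofNat 20, .ofNat 0, .ofNat 0, .negSucc 8399, .ofNat 336, .negSucc 1247]), ((2, 4), [.negSucc 19, .ofNat 53, .negSucc 8, .ofNat 1, .ofNat 0, .ofNat 0, .ofNat 63, .negSucc 6, .ofNat 0, .negSucc 223, .ofNat 42, .ofNat 630, .ofNat 2268, .ofNat 200, .ofNat 192, .negSucc 159]), ((2, 6), [.negSucc 39, .ofNat 94, .negSucc 8, .ofNat 1, .ofNat 0, .ofNat 0, .ofNat 45, .negSucc 4, .ofNat 0, .negSucc 99, .ofNat 20, .ofNat 180, .ofNat 360, .negSucc 3959, .negSucc 383, .ofNat 192]), ((2, 8), [.negSucc 59, .ofNat 139, .negSucc 9, .ofNat 1, .ofNat 0,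 .ofNat 0, .ofNat 29, .negSucc 2, .ofNat 0, .negSucc 27, .ofNat 6, .ofNat 18, .ofNat 0, .ofNat 6440, .ofNat 384, .ofNat 160]), ((3, 5), [.negSucc 19, .ofNat 45, .negSucc 0, .ofNat 0, .ofNat 0, .ofNat 0, .ofNat 6, .ofNat 0, .ofNat 0, .negSucc 14, .ofNat 0, .ofNat 40, .ofNat 240, .ofNat 960, .ofNat 192, .negSucc 159]), ((3, 7), [.negSucc 39, .ofNat 86, .negSucc 0, .ofNat 0, .ofNat 0, .ofNat 0, .ofNat 4, .ofNat 0, .ofNat 0, .negSucc 5, .ofNat 0, .ofNat 8, .ofNat 16, .negSucc 3359, .negSucc 383, .ofNat 192]), ((4, 6), [.negSucc 19, .ofNat 41, .ofNat 0, .ofNat 0, .ofNat 0, .ofNat 0, .ofNat 0, .ofNat 0, .ofNat 0, .ofNat 0, .ofNat 0, .ofNat 0, .ofNat 10, .ofNat 1120, .ofNat 192, .negSucc 159])]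
  tg := [((0, 2), .ofNat 69300, [.negSucc 1610422569278, .negSucc 787589259819, .negSucc 3532425606239, .negSucc 23175165205919, .negSucc 139831063000799, .negSucc 269567009275019, .negSucc 8719894559, .ofNat 1174386628800, .negSucc 11207242089929, .negSucc 49134128799, .ofNat 1179061964514, .negSucc 170609396837, .ofNat 25072638704, .ofNat 56826000, .negSucc 2604656249, .negSucc 1677692249]), ((0, 4), .ofNat 249480, [.ofNat 7406105974536, .ofNat 3622011781520, .ofNat 16245125835960, .ofNat 106579307876880, .ofNat 643063302058560, .ofNat 1239700644412965, .ofNat 40101329520, .negSucc 5400839978159, .ofNat 51540518240205, .ofNat 225960871760, .negSucc 5422339326812, .ofNat 784608454791, .negSucc 115305512727, .negSucc 261334655, .ofNat 11978442000, .ofNat 7715465460]), ((0, 6), .ofNat 237600, [.negSucc 1561652985935, .negSucc 763738125919, .negSucc 3425449782719,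 .negSucc 22473329877839, .negSucc 135596445537119, .negSucc 261403560810134, .negSucc 8455537439, .ofNat 1138823941200, .negSucc 10867838379539, .negSucc 47646106303, .ofNat 1143355408584, .negSucc 165442626791, .ofNat 24313331392, .ofNat 55104984, .negSucc 2525772374, .negSucc 1626880274]), ((0, 8), .ofNat 18480, [.ofNat 2147285864, .ofNat 1050146240, .ofNat 4710007760, .ofNat 30900924880, .ofNat 186445975840, .ofNat 359432644530, .ofNat 11621760, .negSucc 1565927439, .ofNat 14943253730, .ofNat 65512864, .negSucc 1572120381, .ofNat 227483658, .negSucc 33430799, .negSucc 75767, .ofNat 3472875, .ofNat 2236890]), ((0, 10), .ofNat 4989600, [.ofNat 43251018744, .ofNat 21152236160, .ofNat 94870272000, .ofNat 622415005680, .ofNat 3755437689120, .ofNat 7239745026675, .ofNat 234228960, .negSucc 31540066799, .ofNat 300993134100, .ofNat 1319597504, .negSucc 31665985871,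 .ofNat 4582051488, .negSucc 673375359, .negSucc 1526183, .ofNat 69953625, .ofNat 45058275]), ((1, 3), .ofNat 249480, [.ofNat 23290386009360, .ofNat 11390338309240, .ofNat 51086938207200, .ofNat 335165793089640, .ofNat 2022276345020040, .ofNat 3898554145677135, .ofNat 126110101320, .negSucc 16984307374319, .ofNat 162082311556800, .ofNat 710591764216, .negSucc 17051927355155, .ofNat 2467401419448, .negSucc 362607605947, .negSucc 821833847, .ofNat 37669282875, .ofNat 24263267715]), ((1, 5), .ofNat 3600, [.negSucc 245704520951, .negSucc 120163642399, .negSucc 538947319679, .negSucc 3535868713919, .negSucc 21334229205119, .negSucc 41128232726114, .negSucc 1330404479, .ofNat 179177904000, .negSucc 1709905192859, .negSucc 7496465503, .ofNat 179891200080, .negSucc 26030123423, .ofNat 3825368848, .ofNat 8670024, .negSucc 397396124, .negSucc 255967874]), ((1, 7), .ofNat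 166320, [.ofNat 1455825629112, .ofNat 711982461520, .ofNat 3193319889600, .ofNat 20950396540080, .ofNat 126407584619040, .ofNat 243689237008425, .ofNat 7882539120, .negSucc 1061650238879, .ofNat 10131365024580, .ofNat 44417318224, .negSucc 1065874425671, .ofNat 154231187328, .negSucc 22665705319, .negSucc 51370703, .ofNat 2354609250, .ofNat 1516631715]), ((1, 9), .ofNat 498960, [.negSucc 4602360863, .negSucc 2250818239, .negSucc 10094931839, .negSucc 66229681439, .negSucc 399612606719, .negSucc 770400247679, .negSucc 24847199, .ofNat 3356865600, .negSucc 32026272719, .negSucc 140408191, .ofNat 3369490512, .negSucc 487546415, .ofNat 71648416, .ofNat 162360, .negSucc 7441874, .negSucc 4792769]), ((2, 4), .ofNat 4320, [.negSucc 619322209439, .negSucc 302884180959, .negSucc 1358469389759, .negSucc 8912502582719, .negSucc 53775006818879, .negSucc 103667715513494, .negSucc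 3353451119, .ofNat 451635111120, .negSucc 4309983656579, .negSucc 18895579935, .ofNat 453433337112, .negSucc 65611475639, .ofNat 9642217184, .ofNat 21853656, .negSucc 1001676374, .negSucc 645192674]), ((2, 6), .ofNat 23760, [.ofNat 1511956771320, .ofNat 739433821280, .ofNat 3316443159360, .ofNat 21758170293120, .ofNat 131281396981440, .ofNat 253084921104600, .ofNat 8186767920, .negSucc 1102581142079, .ofNat 10521999794400, .ofNat 46129941344, .negSucc 1106970744767, .ofNat 160177856040, .negSucc 23539626495, .negSucc 53351495, .ofNat 2445400125, .ofNat 1575113310]), ((2, 8), .ofNat 332640, [.negSucc 1171470666839, .negSucc 572916530559, .negSucc 2569594090559, .negSucc 16858321854719, .negSucc 101717391161279, .negSucc 196091345363444, .negSucc 6343006319, .ofNat 854285923920, .negSucc 8152486039379, .negSucc 35741667615, .ofNat 857685463752, .negSucc 124106424119,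 .ofNat 18238590944, .ofNat 41336856, .negSucc 1894701374, .negSucc 1220399324]), ((3, 5), .ofNat 2640, [.ofNat 306133432840, .ofNat 149716856080, .ofNat 671496848800, .ofNat 4405485621920, .ofNat 26581200035120, .ofNat 51243362783145, .ofNat 1657633920, .negSucc 223244964799, .ofNat 2130442243780, .ofNat 9340162592, .negSucc 224133903559, .ofNat 32432015472, .negSucc 4766186663, .negSucc 10802351, .ofNat 495132750, .ofNat 318921435]), ((3, 7), .ofNat 55440, [.negSucc 1322386707239, .negSucc 646723156639, .negSucc 2900625593039, .negSucc 19030118212679, .negSucc 114821256784319, .negSucc 221352976243979, .negSucc 7160350679, .ofNat 964338558480, .negSucc 9202745729819, .negSucc 40346153503, .ofNat 968178069828, .negSucc 140094666179, .ofNat 20588214976, .ofNat 46662264, .negSucc 2138794874, .negSucc 1377625049]), ((4, 6), .ofNat 3960, [.negSucc 164723089727, .negSucc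 80559064959, .negSucc 361316416799, .negSucc 2370486590279, .negSucc 14302708789199, .negSucc 27572829140654, .negSucc 891933479, .ofNat 120122779920, .negSucc 1146340100519, .negSucc 5025718383, .ofNat 120601101372, .negSucc 17450893187, .ofNat 2564571260, .ofNat 5812488, .negSucc 266419124, .negSucc 171604034])]

theorem NIT_2_1_11 (l : ℕ) (hlp : l.Prime) (hl2 : l ≠ 2) (hls : ¬ l ∣ 7) (hE : ¬ l ∣ 7)
    (hj : 11 < l) : NUMA_stmt 2 1 l 11 :=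
  @NI_fin 2 1 7 1 7 11 (by norm_num) NIC_2_1_11 (by decide +kernel) (by decide +kernel)
    (by decide +kernel) (by decide +kernel) l hlp hl2 hls hE hj

end Pool.Agent.OE
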