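import Pool.Agent.helper21.OE.NID

/-!
# Project OE: certificates over the integers
-/

namespace Pool.Agent.OE

set_option maxRecDepth 100000

/-- certificate, `d = 3`, `t = 1`, `j = 11` -/
def NIC_3_1_11 : NI_Cert where
  tab0 := [[[(.ofNat 1, .ofNat 0), (.ofNat 0, .ofNat 0), (.ofNat 0, .ofNat 0), (.ofNat 0, .ofNat 0), (.ofNat 0, .ofNat 0), (.ofNat 0, .ofNat 0), (.ofNat 0, .ofNat 0), (.ofNat 0, .ofNat 0), (.ofNat 0, .ofNat 0), (.ofNat 0, .ofNat 0), (.ofNat 0, .ofNat 0), (.ofNat 0, .ofNat 0)], [(.ofNat 0, .ofNat 0), (.ofNat 1, .ofNat 0), (.ofNat 0, .ofNat 0), (.ofNat 0, .ofNat 0), (.ofNat 0, .ofNat 0), (.ofNat 0, .ofNat 0), (.ofNat 0, .ofNat 0), (.ofNat 0, .ofNat 0), (.ofNat 0, .ofNat 0), (.ofNat 0, .ofNat 0), (.ofNat 0, .ofNat 0), (.ofNat 0, .ofNat 0)], [(.ofNat 0, .ofNat 0), (.ofNat 0, .ofNat 0), (.ofNat 1, .ofNat 0), (.ofNat 0, .ofNat 0), (.ofNat 0, .ofNat 0), (.ofNat 0, .ofNat 0), (.ofNat 0, .ofNat 0), (.ofNat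 0, .ofNat 0), (.ofNat 0, .ofNat 0), (.ofNat 0, .ofNat 0), (.ofNat 0, .ofNat 0), (.ofNat 0, .ofNat 0)], [(.ofNat 0, .ofNat 0), (.ofNat 0, .ofNat 0), (.ofNat 0, .ofNat 0), (.ofNat 1, .ofNat 0), (.ofNat 0, .ofNat 0), (.ofNat 0, .ofNat 0), (.ofNat 0, .ofNat 0), (.ofNat 0, .ofNat 0), (.ofNat 0, .ofNat 0), (.ofNat 0, .ofNat 0), (.ofNat 0, .ofNat 0), (.ofNat 0, .ofNat 0)], [(.ofNat 0, .ofNat 0), (.ofNat 0, .ofNat 0), (.ofNat 0, .ofNat 0), (.ofNat 0, .ofNat 0), (.ofNat 1, .ofNat 0), (.ofNat 0, .ofNat 0), (.ofNat 0, .ofNat 0), (.ofNat 0, .ofNat 0), (.ofNat 0, .ofNat 0), (.ofNat 0, .ofNat 0), (.ofNat 0, .ofNat 0), (.ofNat 0, .ofNat 0)], [(.ofNat 0, .ofNat 0), (.ofNat 0, .ofNat 0), (.ofNat 0, .ofNat 0), (.ofNat 0, .ofNat 0), (.ofNat 0, .ofNat 0), (.ofNat 1, .ofNat 0), (.ofNat 0, .ofNat 0), (.ofNat 0, .ofNat 0), (.ofNat 0, .ofNat 0), (.ofNat 0, .ofNat 0), (.ofNat 0, .ofNat 0), (.ofNat 0, .ofNat 0)], [(.ofNat 0, .ofNat 0), (.ofNat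 0, .ofNat 0), (.ofNat 0, .ofNat 0), (.ofNat 0, .ofNat 0), (.ofNat 0, .ofNat 0), (.ofNat 0, .ofNat 0), (.ofNat 1, .ofNat 0), (.ofNat 0, .ofNat 0), (.ofNat 0, .ofNat 0), (.ofNat 0, .ofNat 0), (.ofNat 0, .ofNat 0), (.ofNat 0, .ofNat 0)], [(.ofNat 0, .ofNat 0), (.ofNat 0, .ofNat 0), (.ofNat 0, .ofNat 0), (.ofNat 0, .ofNat 0), (.ofNat 0, .ofNat 0), (.ofNat 0, .ofNat 0), (.ofNat 0, .ofNat 0), (.ofNat 1, .ofNat 0), (.ofNat 0, .ofNat 0), (.ofNat 0, .ofNat 0), (.ofNat 0, .ofNat 0), (.ofNat 0, .ofNat 0)], [(.ofNat 0, .ofNat 0), (.ofNat 0, .ofNat 0), (.ofNat 0, .ofNat 0), (.ofNat 0, .ofNat 0), (.ofNat 0, .ofNat 0), (.ofNat 0, .ofNat 0), (.ofNat 0, .ofNat 0), (.ofNat 0, .ofNat 0), (.ofNat 1, .ofNat 0), (.ofNat 0, .ofNat 0), (.ofNat 0, .ofNat 0), (.ofNat 0, .ofNat 0)], [(.ofNat 0, .ofNat 0), (.ofNat 0, .ofNat 0), (.ofNat 0, .ofNat 0), (.ofNat 0, .ofNat 0), (.ofNat 0, .ofNat 0), (.ofNat 0, .ofNat 0), (.ofNat 0, .ofNat 0), (.ofNat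 0, .ofNat 0), (.ofNat 0, .ofNat 0), (.ofNat 1, .ofNat 0), (.ofNat 0, .ofNat 0), (.ofNat 0, .ofNat 0)], [(.ofNat 0, .ofNat 0), (.ofNat 0, .ofNat 0), (.ofNat 0, .ofNat 0), (.ofNat 0, .ofNat 0), (.ofNat 0, .ofNat 0), (.ofNat 0, .ofNat 0), (.ofNat 0, .ofNat 0), (.ofNat 0, .ofNat 0), (.ofNat 0, .ofNat 0), (.ofNat 0, .ofNat 0), (.ofNat 1, .ofNat 0), (.ofNat 0, .ofNat 0)], [(.ofNat 0, .ofNat 0), (.ofNat 0, .ofNat 0), (.ofNat 0, .ofNat 0), (.ofNat 0, .ofNat 0), (.ofNat 0, .ofNat 0), (.ofNat 0, .ofNat 0), (.ofNat 0, .ofNat 0), (.ofNat 0, .ofNat 0), (.ofNat 0, .ofNat 0), (.ofNat 0, .ofNat 0), (.ofNat 0, .ofNat 0), (.ofNat 1, .ofNat 0)]], [[(.ofNat 1, .ofNat 0), (.negSucc 10, .ofNat 0), (.ofNat 55, .ofNat 0), (.negSucc 164, .ofNat 0), (.ofNat 330, .ofNat 0), (.negSucc 461, .ofNat 0), (.ofNat 462, .ofNat 0), (.negSucc 329, .ofNat 0), (.ofNat 165, .ofNat 0), (.negSucc 54, .ofNat 0), (.ofNat 11, .ofNat 0), (.negSucc 0, .ofNat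 0)], [(.ofNat 1, .ofNat 0), (.negSucc 9, .ofNat 0), (.ofNat 45, .ofNat 0), (.negSucc 119, .ofNat 0), (.ofNat 210, .ofNat 0), (.negSucc 251, .ofNat 0), (.ofNat 210, .ofNat 0), (.negSucc 119, .ofNat 0), (.ofNat 45, .ofNat 0), (.negSucc 9, .ofNat 0), (.ofNat 1, .ofNat 0), (.ofNat 0, .ofNat 0)], [(.ofNat 1, .ofNat 0), (.negSucc 8, .ofNat 0), (.ofNat 36, .ofNat 0), (.negSucc 83, .ofNat 0), (.ofNat 126, .ofNat 0), (.negSucc 125, .ofNat 0), (.ofNat 84, .ofNat 0), (.negSucc 35, .ofNat 0), (.ofNat 9, .ofNat 0), (.negSucc 0, .ofNat 0), (.ofNat 0, .ofNat 0), (.ofNat 0, .ofNat 0)], [(.ofNat 1, .ofNat 0), (.negSucc 7, .ofNat 0), (.ofNat 28, .ofNat 0), (.negSucc 55, .ofNat 0), (.ofNat 70, .ofNat 0), (.negSucc 55, .ofNat 0), (.ofNat 28, .ofNat 0), (.negSucc 7, .ofNat 0), (.ofNat 1, .ofNat 0), (.ofNat 0, .ofNat 0), (.ofNat 0, .ofNat 0), (.ofNat 0, .ofNat 0)], [(.ofNat 1, .ofNat 0), (.negSucc 6, .ofNat 0), (.ofNat 21, .ofNat 0),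 (.negSucc 34, .ofNat 0), (.ofNat 35, .ofNat 0), (.negSucc 20, .ofNat 0), (.ofNat 7, .ofNat 0), (.negSucc 0, .ofNat 0), (.ofNat 0, .ofNat 0), (.ofNat 0, .ofNat 0), (.ofNat 0, .ofNat 0), (.ofNat 0, .ofNat 0)], [(.ofNat 1, .ofNat 0), (.negSucc 5, .ofNat 0), (.ofNat 15, .ofNat 0), (.negSucc 19, .ofNat 0), (.ofNat 15, .ofNat 0), (.negSucc 5, .ofNat 0), (.ofNat 1, .ofNat 0), (.ofNat 0, .ofNat 0), (.ofNat 0, .ofNat 0), (.ofNat 0, .ofNat 0), (.ofNat 0, .ofNat 0), (.ofNat 0, .ofNat 0)], [(.ofNat 1, .ofNat 0), (.negSucc 4, .ofNat 0), (.ofNat 10, .ofNat 0), (.negSucc 9, .ofNat 0), (.ofNat 5, .ofNat 0), (.negSucc 0, .ofNat 0), (.ofNat 0, .ofNat 0), (.ofNat 0, .ofNat 0), (.ofNat 0, .ofNat 0), (.ofNat 0, .ofNat 0), (.ofNat 0, .ofNat 0), (.ofNat 0, .ofNat 0)], [(.ofNat 1, .ofNat 0), (.negSucc 3, .ofNat 0), (.ofNat 6, .ofNat 0), (.negSucc 3, .ofNat 0), (.ofNat 1, .ofNat 0), (.ofNat 0, .ofNat 0), (.ofNat 0, .ofNat 0), (.ofNat 0,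 .ofNat 0), (.ofNat 0, .ofNat 0), (.ofNat 0, .ofNat 0), (.ofNat 0, .ofNat 0), (.ofNat 0, .ofNat 0)], [(.ofNat 1, .ofNat 0), (.negSucc 2, .ofNat 0), (.ofNat 3, .ofNat 0), (.negSucc 0, .ofNat 0), (.ofNat 0, .ofNat 0), (.ofNat 0, .ofNat 0), (.ofNat 0, .ofNat 0), (.ofNat 0, .ofNat 0), (.ofNat 0, .ofNat 0), (.ofNat 0, .ofNat 0), (.ofNat 0, .ofNat 0), (.ofNat 0, .ofNat 0)], [(.ofNat 1, .ofNat 0), (.negSucc 1, .ofNat 0), (.ofNat 1, .ofNat 0), (.ofNat 0, .ofNat 0), (.ofNat 0, .ofNat 0), (.ofNat 0, .ofNat 0), (.ofNat 0, .ofNat 0), (.ofNat 0, .ofNat 0), (.ofNat 0, .ofNat 0), (.ofNat 0, .ofNat 0), (.ofNat 0, .ofNat 0), (.ofNat 0, .ofNat 0)], [(.ofNat 1, .ofNat 0), (.negSucc 0, .ofNat 0), (.ofNat 0, .ofNat 0), (.ofNat 0, .ofNat 0), (.ofNat 0, .ofNat 0), (.ofNat 0, .ofNat 0), (.ofNat 0, .ofNat 0), (.ofNat 0, .ofNat 0), (.ofNat 0, .ofNat 0), (.ofNat 0, .ofNat 0), (.ofNat 0, .ofNat 0), (.ofNat 0, .ofNat 0)], [(.ofNat 1, .ofNat 0),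 (.ofNat 0, .ofNat 0), (.ofNat 0, .ofNat 0), (.ofNat 0, .ofNat 0), (.ofNat 0, .ofNat 0), (.ofNat 0, .ofNat 0), (.ofNat 0, .ofNat 0), (.ofNat 0, .ofNat 0), (.ofNat 0, .ofNat 0), (.ofNat 0, .ofNat 0), (.ofNat 0, .ofNat 0), (.ofNat 0, .ofNat 0)]], [[(.ofNat 0, .ofNat 0), (.ofNat 0, .ofNat 0), (.ofNat 0, .ofNat 0), (.ofNat 0, .ofNat 0), (.ofNat 0, .ofNat 0), (.ofNat 0, .ofNat 0), (.ofNat 0, .ofNat 0), (.ofNat 0, .ofNat 0), (.ofNat 0, .ofNat 0), (.ofNat 0, .ofNat 0), (.ofNat 0, .ofNat 0), (.negSucc 0, .ofNat 0)], [(.ofNat 0, .ofNat 0), (.ofNat 0, .ofNat 0), (.ofNat 0, .ofNat 0), (.ofNat 0, .ofNat 0), (.ofNat 0, .ofNat 0), (.ofNat 0, .ofNat 0), (.ofNat 0, .ofNat 0), (.ofNat 0, .ofNat 0), (.ofNat 0, .ofNat 0), (.ofNat 0, .ofNat 0), (.ofNat 1, .ofNat 0), (.negSucc 0, .ofNat 0)], [(.ofNat 0, .ofNat 0), (.ofNat 0, .ofNat 0), (.ofNat 0, .ofNat 0), (.ofNat 0, .ofNat 0), (.ofNat 0, .ofNat 0), (.ofNat 0, .ofNat 0), (.ofNat 0, .ofNat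 0), (.ofNat 0, .ofNat 0), (.ofNat 0, .ofNat 0), (.negSucc 0, .ofNat 0), (.ofNat 2, .ofNat 0), (.negSucc 0, .ofNat 0)], [(.ofNat 0, .ofNat 0), (.ofNat 0, .ofNat 0), (.ofNat 0, .ofNat 0), (.ofNat 0, .ofNat 0), (.ofNat 0, .ofNat 0), (.ofNat 0, .ofNat 0), (.ofNat 0, .ofNat 0), (.ofNat 0, .ofNat 0), (.ofNat 1, .ofNat 0), (.negSucc 2, .ofNat 0), (.ofNat 3, .ofNat 0), (.negSucc 0, .ofNat 0)], [(.ofNat 0, .ofNat 0), (.ofNat 0, .ofNat 0), (.ofNat 0, .ofNat 0), (.ofNat 0, .ofNat 0), (.ofNat 0, .ofNat 0), (.ofNat 0, .ofNat 0), (.ofNat 0, .ofNat 0), (.negSucc 0, .ofNat 0), (.ofNat 4, .ofNat 0), (.negSucc 5, .ofNat 0), (.ofNat 4, .ofNat 0), (.negSucc 0, .ofNat 0)], [(.ofNat 0, .ofNat 0), (.ofNat 0, .ofNat 0), (.ofNat 0, .ofNat 0), (.ofNat 0, .ofNat 0), (.ofNat 0, .ofNat 0), (.ofNat 0, .ofNat 0), (.ofNat 1, .ofNat 0), (.negSucc 4, .ofNat 0), (.ofNat 10, .ofNat 0), (.negSucc 9, .ofNat 0), (.ofNat 5, .ofNat 0), (.negSucc 0, .ofNat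 0)], [(.ofNat 0, .ofNat 0), (.ofNat 0, .ofNat 0), (.ofNat 0, .ofNat 0), (.ofNat 0, .ofNat 0), (.ofNat 0, .ofNat 0), (.negSucc 0, .ofNat 0), (.ofNat 6, .ofNat 0), (.negSucc 14, .ofNat 0), (.ofNat 20, .ofNat 0), (.negSucc 14, .ofNat 0), (.ofNat 6, .ofNat 0), (.negSucc 0, .ofNat 0)], [(.ofNat 0, .ofNat 0), (.ofNat 0, .ofNat 0), (.ofNat 0, .ofNat 0), (.ofNat 0, .ofNat 0), (.ofNat 1, .ofNat 0), (.negSucc 6, .ofNat 0), (.ofNat 21, .ofNat 0), (.negSucc 34, .ofNat 0), (.ofNat 35, .ofNat 0), (.negSucc 20, .ofNat 0), (.ofNat 7, .ofNat 0), (.negSucc 0, .ofNat 0)], [(.ofNat 0, .ofNat 0), (.ofNat 0, .ofNat 0), (.ofNat 0, .ofNat 0), (.negSucc 0, .ofNat 0), (.ofNat 8, .ofNat 0), (.negSucc 27, .ofNat 0), (.ofNat 56, .ofNat 0), (.negSucc 69, .ofNat 0), (.ofNat 56, .ofNat 0), (.negSucc 27, .ofNat 0), (.ofNat 8, .ofNat 0), (.negSucc 0, .ofNat 0)], [(.ofNat 0, .ofNat 0), (.ofNat 0, .ofNat 0), (.ofNat 1, .ofNat 0), (.negSucc 8, .ofNat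 0), (.ofNat 36, .ofNat 0), (.negSucc 83, .ofNat 0), (.ofNat 126, .ofNat 0), (.negSucc 125, .ofNat 0), (.ofNat 84, .ofNat 0), (.negSucc 35, .ofNat 0), (.ofNat 9, .ofNat 0), (.negSucc 0, .ofNat 0)], [(.ofNat 0, .ofNat 0), (.negSucc 0, .ofNat 0), (.ofNat 10, .ofNat 0), (.negSucc 44, .ofNat 0), (.ofNat 120, .ofNat 0), (.negSucc 209, .ofNat 0), (.ofNat 252, .ofNat 0), (.negSucc 209, .ofNat 0), (.ofNat 120, .ofNat 0), (.negSucc 44, .ofNat 0), (.ofNat 10, .ofNat 0), (.negSucc 0, .ofNat 0)], [(.ofNat 1, .ofNat 0), (.negSucc 10, .ofNat 0), (.ofNat 55, .ofNat 0), (.negSucc 164, .ofNat 0), (.ofNat 330, .ofNat 0), (.negSucc 461, .ofNat 0), (.ofNat 462, .ofNat 0), (.negSucc 329, .ofNat 0), (.ofNat 165, .ofNat 0), (.negSucc 54, .ofNat 0), (.ofNat 11, .ofNat 0), (.negSucc 0, .ofNat 0)]]]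
  tab1 := [[[(.ofNat 1, .ofNat 0), (.ofNat 0, .ofNat 0), (.ofNat 0, .ofNat 0), (.ofNat 0, .ofNat 0), (.ofNat 0, .ofNat 0), (.ofNat 0, .ofNat 0), (.ofNat 0, .ofNat 0), (.ofNat 0, .ofNat 0), (.ofNat 0, .ofNat 0), (.ofNat 0, .ofNat 0), (.ofNat 0, .ofNat 0), (.ofNat 0, .ofNat 0)], [(.ofNat 0, .ofNat 0), (.ofNat 1, .ofNat 0), (.ofNat 0, .ofNat 0), (.ofNat 0, .ofNat 0), (.ofNat 0, .ofNat 0), (.ofNat 0, .ofNat 0), (.ofNat 0, .ofNat 0), (.ofNat 0, .ofNat 0), (.ofNat 0, .ofNat 0), (.ofNat 0, .ofNat 0), (.ofNat 0, .ofNat 0), (.ofNat 0, .ofNat 0)], [(.ofNat 0, .ofNat 0), (.ofNat 0, .ofNat 0), (.ofNat 1, .ofNat 0), (.ofNat 0, .ofNat 0), (.ofNat 0, .ofNat 0), (.ofNat 0, .ofNat 0), (.ofNat 0, .ofNat 0), (.ofNat 0, .ofNat 0), (.ofNat 0, .ofNat 0), (.ofNat 0, .ofNat 0), (.ofNat 0, .ofNat 0), (.ofNat 0, .ofNat 0)], [(.ofNat 0, .ofNat 0), (.ofNat 0, .ofNat 0), (.ofNat 0, .ofNat 0), (.ofNat 1, .ofNat 0), (.ofNat 0, .ofNat 0), (.ofNat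 0, .ofNat 0), (.ofNat 0, .ofNat 0), (.ofNat 0, .ofNat 0), (.ofNat 0, .ofNat 0), (.ofNat 0, .ofNat 0), (.ofNat 0, .ofNat 0), (.ofNat 0, .ofNat 0)], [(.ofNat 0, .ofNat 0), (.ofNat 0, .ofNat 0), (.ofNat 0, .ofNat 0), (.ofNat 0, .ofNat 0), (.ofNat 1, .ofNat 0), (.ofNat 0, .ofNat 0), (.ofNat 0, .ofNat 0), (.ofNat 0, .ofNat 0), (.ofNat 0, .ofNat 0), (.ofNat 0, .ofNat 0), (.ofNat 0, .ofNat 0), (.ofNat 0, .ofNat 0)], [(.ofNat 0, .ofNat 0), (.ofNat 0, .ofNat 0), (.ofNat 0, .ofNat 0), (.ofNat 0, .ofNat 0), (.ofNat 0, .ofNat 0), (.ofNat 1, .ofNat 0), (.ofNat 0, .ofNat 0), (.ofNat 0, .ofNat 0), (.ofNat 0, .ofNat 0), (.ofNat 0, .ofNat 0), (.ofNat 0, .ofNat 0), (.ofNat 0, .ofNat 0)], [(.ofNat 0, .ofNat 0), (.ofNat 0, .ofNat 0), (.ofNat 0, .ofNat 0), (.ofNat 0, .ofNat 0), (.ofNat 0, .ofNat 0), (.ofNat 0, .ofNat 0), (.ofNat 1, .ofNat 0), (.ofNat 0, .ofNat 0), (.ofNat 0, .ofNat 0), (.ofNat 0, .ofNat 0), (.ofNat 0, .ofNat 0), (.ofNat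 0, .ofNat 0)], [(.ofNat 0, .ofNat 0), (.ofNat 0, .ofNat 0), (.ofNat 0, .ofNat 0), (.ofNat 0, .ofNat 0), (.ofNat 0, .ofNat 0), (.ofNat 0, .ofNat 0), (.ofNat 0, .ofNat 0), (.ofNat 1, .ofNat 0), (.ofNat 0, .ofNat 0), (.ofNat 0, .ofNat 0), (.ofNat 0, .ofNat 0), (.ofNat 0, .ofNat 0)], [(.ofNat 0, .ofNat 0), (.ofNat 0, .ofNat 0), (.ofNat 0, .ofNat 0), (.ofNat 0, .ofNat 0), (.ofNat 0, .ofNat 0), (.ofNat 0, .ofNat 0), (.ofNat 0, .ofNat 0), (.ofNat 0, .ofNat 0), (.ofNat 1, .ofNat 0), (.ofNat 0, .ofNat 0), (.ofNat 0, .ofNat 0), (.ofNat 0, .ofNat 0)], [(.ofNat 0, .ofNat 0), (.ofNat 0, .ofNat 0), (.ofNat 0, .ofNat 0), (.ofNat 0, .ofNat 0), (.ofNat 0, .ofNat 0), (.ofNat 0, .ofNat 0), (.ofNat 0, .ofNat 0), (.ofNat 0, .ofNat 0), (.ofNat 0, .ofNat 0), (.ofNat 1, .ofNat 0), (.ofNat 0, .ofNat 0), (.ofNat 0, .ofNat 0)], [(.ofNat 0, .ofNat 0), (.ofNat 0, .ofNat 0), (.ofNat 0, .ofNat 0), (.ofNat 0, .ofNat 0), (.ofNat 0, .ofNat 0), (.ofNat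 0, .ofNat 0), (.ofNat 0, .ofNat 0), (.ofNat 0, .ofNat 0), (.ofNat 0, .ofNat 0), (.ofNat 0, .ofNat 0), (.ofNat 1, .ofNat 0), (.ofNat 0, .ofNat 0)], [(.ofNat 0, .ofNat 0), (.ofNat 0, .ofNat 0), (.ofNat 0, .ofNat 0), (.ofNat 0, .ofNat 0), (.ofNat 0, .ofNat 0), (.ofNat 0, .ofNat 0), (.ofNat 0, .ofNat 0), (.ofNat 0, .ofNat 0), (.ofNat 0, .ofNat 0), (.ofNat 0, .ofNat 0), (.ofNat 0, .ofNat 0), (.ofNat 1, .ofNat 0)]], [[(.ofNat 160, .negSucc 252), (.ofNat 2783, .negSucc 340), (.ofNat 1705, .ofNat 4070), (.negSucc 12209, .ofNat 5775), (.negSucc 11549, .negSucc 4289), (.ofNat 6006, .negSucc 7391), (.ofNat 7392, .negSucc 461), (.ofNat 330, .ofNat 1650), (.negSucc 824, .ofNat 330), (.negSucc 109, .negSucc 54), (.ofNat 11, .negSucc 10), (.ofNat 1, .ofNat 0)], [(.ofNat 253, .negSucc 30), (.ofNat 310, .ofNat 740), (.negSucc 3329, .ofNat 1575), (.negSucc 4199, .negSucc 1559), (.ofNat 2730, .negSucc 3359), (.ofNat 4032, .negSucc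 251), (.ofNat 210, .ofNat 1050), (.negSucc 599, .ofNat 240), (.negSucc 89, .negSucc 44), (.ofNat 10, .negSucc 9), (.ofNat 1, .ofNat 0), (.ofNat 0, .ofNat 0)], [(.ofNat 31, .ofNat 74), (.negSucc 665, .ofNat 315), (.negSucc 1259, .negSucc 467), (.ofNat 1092, .negSucc 1343), (.ofNat 2016, .negSucc 125), (.ofNat 126, .ofNat 630), (.negSucc 419, .ofNat 168), (.negSucc 71, .negSucc 35), (.ofNat 9, .negSucc 8), (.ofNat 1, .ofNat 0), (.ofNat 0, .ofNat 0), (.ofNat 0, .ofNat 0)], [(.negSucc 73, .ofNat 35), (.negSucc 279, .negSucc 103), (.ofNat 364, .negSucc 447), (.ofNat 896, .negSucc 55), (.ofNat 70, .ofNat 350), (.negSucc 279, .ofNat 112), (.negSucc 55, .negSucc 27), (.ofNat 8, .negSucc 7), (.ofNat 1, .ofNat 0), (.ofNat 0, .ofNat 0), (.ofNat 0, .ofNat 0), (.ofNat 0, .ofNat 0)], [(.negSucc 34, .negSucc 12), (.ofNat 91, .negSucc 111), (.ofNat 336, .negSucc 20), (.ofNat 35, .ofNat 175), (.negSucc 174, .ofNat 70), (.negSucc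 41, .negSucc 20), (.ofNat 7, .negSucc 6), (.ofNat 1, .ofNat 0), (.ofNat 0, .ofNat 0), (.ofNat 0, .ofNat 0), (.ofNat 0, .ofNat 0), (.ofNat 0, .ofNat 0)], [(.ofNat 13, .negSucc 15), (.ofNat 96, .negSucc 5), (.ofNat 15, .ofNat 75), (.negSucc 99, .ofNat 40), (.negSucc 29, .negSucc 14), (.ofNat 6, .negSucc 5), (.ofNat 1, .ofNat 0), (.ofNat 0, .ofNat 0), (.ofNat 0, .ofNat 0), (.ofNat 0, .ofNat 0), (.ofNat 0, .ofNat 0), (.ofNat 0, .ofNat 0)], [(.ofNat 16, .negSucc 0), (.ofNat 5, .ofNat 25), (.negSucc 49, .ofNat 20), (.negSucc 19, .negSucc 9), (.ofNat 5, .negSucc 4), (.ofNat 1, .ofNat 0), (.ofNat 0, .ofNat 0), (.ofNat 0, .ofNat 0), (.ofNat 0, .ofNat 0), (.ofNat 0, .ofNat 0), (.ofNat 0, .ofNat 0), (.ofNat 0, .ofNat 0)], [(.ofNat 1, .ofNat 5), (.negSucc 19, .ofNat 8), (.negSucc 11, .negSucc 5), (.ofNat 4, .negSucc 3), (.ofNat 1, .ofNat 0), (.ofNat 0, .ofNat 0), (.ofNat 0, .ofNat 0), (.ofNat 0, .ofNat 0), (.ofNat 0, .ofNat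 0), (.ofNat 0, .ofNat 0), (.ofNat 0, .ofNat 0), (.ofNat 0, .ofNat 0)], [(.negSucc 4, .ofNat 2), (.negSucc 5, .negSucc 2), (.ofNat 3, .negSucc 2), (.ofNat 1, .ofNat 0), (.ofNat 0, .ofNat 0), (.ofNat 0, .ofNat 0), (.ofNat 0, .ofNat 0), (.ofNat 0, .ofNat 0), (.ofNat 0, .ofNat 0), (.ofNat 0, .ofNat 0), (.ofNat 0, .ofNat 0), (.ofNat 0, .ofNat 0)], [(.negSucc 1, .negSucc 0), (.ofNat 2, .negSucc 1), (.ofNat 1, .ofNat 0), (.ofNat 0, .ofNat 0), (.ofNat 0, .ofNat 0), (.ofNat 0, .ofNat 0), (.ofNat 0, .ofNat 0), (.ofNat 0, .ofNat 0), (.ofNat 0, .ofNat 0), (.ofNat 0, .ofNat 0), (.ofNat 0, .ofNat 0), (.ofNat 0, .ofNat 0)], [(.ofNat 1, .negSucc 0), (.ofNat 1, .ofNat 0), (.ofNat 0, .ofNat 0), (.ofNat 0, .ofNat 0), (.ofNat 0, .ofNat 0), (.ofNat 0, .ofNat 0), (.ofNat 0, .ofNat 0), (.ofNat 0, .ofNat 0), (.ofNat 0, .ofNat 0), (.ofNat 0, .ofNat 0), (.ofNat 0, .ofNat 0), (.ofNat 0, .ofNat 0)], [(.ofNat 1, .ofNat 0), (.ofNat 0, .ofNat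 0), (.ofNat 0, .ofNat 0), (.ofNat 0, .ofNat 0), (.ofNat 0, .ofNat 0), (.ofNat 0, .ofNat 0), (.ofNat 0, .ofNat 0), (.ofNat 0, .ofNat 0), (.ofNat 0, .ofNat 0), (.ofNat 0, .ofNat 0), (.ofNat 0, .ofNat 0), (.ofNat 0, .ofNat 0)]], [[(.ofNat 2048, .ofNat 0), (.ofNat 0, .ofNat 11264), (.negSucc 84479, .ofNat 28160), (.negSucc 126719, .negSucc 84479), (.ofNat 253440, .negSucc 211199), (.ofNat 443520, .ofNat 29568), (.negSucc 44351, .ofNat 236544), (.negSucc 253439, .ofNat 68640), (.negSucc 51479, .negSucc 46199), (.ofNat 23100, .negSucc 16279), (.ofNat 4884, .ofNat 682), (.negSucc 92, .ofNat 253)], [(.ofNat 1024, .negSucc 1023), (.ofNat 16384, .ofNat 0), (.ofNat 0, .ofNat 39680), (.negSucc 172799, .ofNat 57600), (.negSucc 167039, .negSucc 111359), (.ofNat 225792, .negSucc 188159), (.ofNat 272160, .ofNat 18144), (.negSucc 18719, .ofNat 99840), (.negSucc 71999, .ofNat 19500), (.negSucc 9359, .negSucc 8399), (.ofNat 2415, .negSucc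 1701), (.ofNat 222, .ofNat 31)], [(.negSucc 1023, .negSucc 511), (.ofNat 7936, .negSucc 7935), (.ofNat 55808, .ofNat 0), (.ofNat 0, .ofNat 78336), (.negSucc 219455, .ofNat 73152), (.negSucc 143135, .negSucc 95423), (.ofNat 133056, .negSucc 110879), (.ofNat 110160, .ofNat 7344), (.negSucc 5093, .ofNat 27168), (.negSucc 12527, .ofNat 3393), (.negSucc 935, .negSucc 839), (.ofNat 105, .negSucc 73)], [(.negSucc 1279, .ofNat 512), (.negSucc 7679, .negSucc 3839), (.ofNat 26112, .negSucc 26111), (.ofNat 106240, .ofNat 0), (.ofNat 0, .ofNat 95776), (.negSucc 180767, .ofNat 60256), (.negSucc 80975, .negSucc 53983), (.ofNat 51648, .negSucc 43039), (.ofNat 28725, .ofNat 1915), (.negSucc 848, .ofNat 4528), (.negSucc 1199, .ofNat 325), (.negSucc 38, .negSucc 34)], [(.ofNat 128, .ofNat 640), (.negSucc 9279, .ofNat 3712), (.negSucc 24383, .negSucc 12191), (.ofNat 47888, .negSucc 47887), (.ofNat 124952, .ofNat 0), (.ofNat 0, .ofNat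 75796), (.negSucc 98153, .ofNat 32718), (.negSucc 30146, .negSucc 20097), (.ofNat 12912, .negSucc 10759), (.ofNat 4590, .ofNat 306), (.negSucc 77, .ofNat 416), (.negSucc 47, .ofNat 13)], [(.ofNat 1024, .negSucc 63), (.ofNat 896, .ofNat 4480), (.negSucc 28399, .ofNat 11360), (.negSucc 43039, .negSucc 21519), (.ofNat 54140, .negSucc 54139), (.ofNat 94960, .ofNat 0), (.ofNat 0, .ofNat 39495), (.negSucc 35054, .ofNat 11685), (.negSucc 7229, .negSucc 4819), (.ofNat 1980, .negSucc 1649), (.ofNat 405, .ofNat 27), (.negSucc 2, .ofNat 16)], [(.ofNat 416, .negSucc 511), (.ofNat 6912, .negSucc 431), (.ofNat 2640, .ofNat 13200), (.negSucc 48199, .ofNat 19280), (.negSucc 46739, .negSucc 23369), (.ofNat 39495, .negSucc 39494), (.ofNat 47480, .ofNat 0), (.ofNat 0, .ofNat 13535), (.negSucc 8069, .ofNat 2690), (.negSucc 1064, .negSucc 709), (.ofNat 168, .negSucc 139), (.ofNat 15, .ofNat 1)], [(.negSucc 559, .negSucc 207), (.ofNat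 2704, .negSucc 3327), (.ofNat 19584, .negSucc 1223), (.ofNat 4304, .ofNat 21520), (.negSucc 50244, .ofNat 20098), (.negSucc 32717, .negSucc 16358), (.ofNat 18949, .negSucc 18948), (.ofNat 15619, .ofNat 0), (.ofNat 0, .ofNat 2993), (.negSucc 1142, .ofNat 381), (.negSucc 86, .negSucc 57), (.ofNat 6, .negSucc 4)], [(.negSucc 591, .ofNat 280), (.negSucc 3499, .negSucc 1299), (.ofNat 7358, .negSucc 9055), (.ofNat 30640, .negSucc 1914), (.ofNat 4304, .ofNat 21520), (.negSucc 33739, .ofNat 13496), (.negSucc 15063, .negSucc 7531), (.ofNat 5986, .negSucc 5985), (.ofNat 3320, .ofNat 0), (.ofNat 0, .ofNat 408), (.negSucc 89, .ofNat 30), (.negSucc 2, .negSucc 1)], [(.ofNat 124, .ofNat 296), (.negSucc 3551, .ofNat 1680), (.negSucc 9134, .negSucc 3392), (.ofNat 11037, .negSucc 13583), (.ofNat 29376, .negSucc 1835), (.ofNat 2772, .ofNat 13860), (.negSucc 14909, .ofNat 5964), (.negSucc 4571, .negSucc 2285), (.ofNat 1224, .negSucc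 1223), (.ofNat 436, .ofNat 0), (.ofNat 0, .ofNat 31), (.negSucc 2, .ofNat 1)], [(.ofNat 506, .negSucc 61), (.ofNat 713, .ofNat 1702), (.negSucc 8879, .ofNat 4200), (.negSucc 13124, .negSucc 4874), (.ofNat 10140, .negSucc 12479), (.ofNat 18144, .negSucc 1133), (.ofNat 1176, .ofNat 5880), (.negSucc 4349, .ofNat 1740), (.negSucc 899, .negSucc 449), (.ofNat 155, .negSucc 154), (.ofNat 32, .ofNat 0), (.ofNat 0, .ofNat 1)], [(.ofNat 160, .negSucc 252), (.ofNat 2783, .negSucc 340), (.ofNat 1705, .ofNat 4070), (.negSucc 12209, .ofNat 5775), (.negSucc 11549, .negSucc 4289), (.ofNat 6006, .negSucc 7391), (.ofNat 7392, .negSucc 461), (.ofNat 330, .ofNat 1650), (.negSucc 824, .ofNat 330), (.negSucc 109, .negSucc 54), (.ofNat 11, .negSucc 10), (.ofNat 1, .ofNat 0)]], [[(.ofNat 160, .negSucc 252), (.ofNat 5566, .negSucc 681), (.ofNat 6820, .ofNat 16280), (.negSucc 97679, .ofNat 46200), (.negSucc 184799, .negSucc 68639), (.ofNat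 192192, .negSucc 236543), (.ofNat 473088, .negSucc 29567), (.ofNat 42240, .ofNat 211200), (.negSucc 211199, .ofNat 84480), (.negSucc 56319, .negSucc 28159), (.ofNat 11264, .negSucc 11263), (.ofNat 2048, .ofNat 0)], [(.ofNat 506, .negSucc 61), (.ofNat 1333, .ofNat 3182), (.negSucc 31079, .ofNat 14700), (.negSucc 86099, .negSucc 31979), (.ofNat 124800, .negSucc 153599), (.ofNat 419328, .negSucc 26207), (.ofNat 51072, .ofNat 255360), (.negSucc 355199, .ofNat 142080), (.negSucc 138239, .negSucc 69119), (.ofNat 44800, .negSucc 44799), (.ofNat 17408, .ofNat 0), (.ofNat 0, .ofNat 1024)], [(.ofNat 124, .ofNat 296), (.negSucc 6215, .ofNat 2940), (.negSucc 28034, .negSucc 10412), (.ofNat 59514, .negSucc 73247), (.ofNat 278784, .negSucc 17423), (.ofNat 46368, .ofNat 231840), (.negSucc 440159, .ofNat 176064), (.negSucc 238463, .negSucc 119231), (.ofNat 112896, .negSucc 112895), (.ofNat 71168, .ofNat 0), (.ofNat 0, .ofNat 8960),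 (.negSucc 1535, .ofNat 512)], [(.negSucc 591, .ofNat 280), (.negSucc 5739, .negSucc 2131), (.ofNat 19838, .negSucc 24415), (.ofNat 136112, .negSucc 8506), (.ofNat 31568, .ofNat 157840), (.negSucc 409359, .ofNat 163744), (.negSucc 302847, .negSucc 151423), (.ofNat 199712, .negSucc 199711), (.ofNat 184064, .ofNat 0), (.ofNat 0, .ofNat 37632), (.negSucc 13823, .ofNat 4608), (.negSucc 767, .negSucc 511)], [(.negSucc 559, .negSucc 207), (.ofNat 4160, .negSucc 5119), (.ofNat 46464, .negSucc 2903), (.ofNat 15784, .ofNat 78920), (.negSucc 285444, .ofNat 114178), (.negSucc 288539, .negSucc 144269), (.ofNat 259924, .negSucc 259923), (.ofNat 333848, .ofNat 0), (.ofNat 0, .ofNat 99856), (.negSucc 59615, .ofNat 19872), (.negSucc 7103, .negSucc 4735), (.ofNat 768, .negSucc 639)], [(.ofNat 416, .negSucc 511), (.ofNat 9984, .negSucc 623), (.ofNat 5520, .ofNat 27600), (.negSucc 146199, .ofNat 58480), (.negSucc 206099, .negSucc 103049),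 (.ofNat 253707, .negSucc 253706), (.ofNat 445244, .ofNat 0), (.ofNat 0, .ofNat 185660), (.negSucc 162239, .ofNat 54080), (.negSucc 31439, .negSucc 20959), (.ofNat 7296, .negSucc 6079), (.ofNat 960, .ofNat 64)], [(.ofNat 1024, .negSucc 63), (.ofNat 1216, .ofNat 6080), (.negSucc 52399, .ofNat 20960), (.negSucc 108159, .negSucc 54079), (.ofNat 185660, .negSucc 185659), (.ofNat 445244, .ofNat 0), (.ofNat 0, .ofNat 253707), (.negSucc 309149, .ofNat 103050), (.negSucc 87719, .negSucc 58479), (.ofNat 33120, .negSucc 27599), (.ofNat 9360, .ofNat 624), (.negSucc 95, .ofNat 512)], [(.ofNat 128, .ofNat 640), (.negSucc 11839, .ofNat 4736), (.negSucc 39743, .negSucc 19871), (.ofNat 99856, .negSucc 99855), (.ofNat 333848, .ofNat 0), (.ofNat 0, .ofNat 259924), (.negSucc 432809, .ofNat 144270), (.negSucc 171266, .negSucc 114177), (.ofNat 94704, .negSucc 78919), (.ofNat 43560, .ofNat 2904), (.negSucc 959, .ofNat 5120), (.negSucc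 767, .ofNat 208)], [(.negSucc 1279, .ofNat 512), (.negSucc 9215, .negSucc 4607), (.ofNat 37632, .negSucc 37631), (.ofNat 184064, .ofNat 0), (.ofNat 0, .ofNat 199712), (.negSucc 454271, .ofNat 151424), (.negSucc 245615, .negSucc 163743), (.ofNat 189408, .negSucc 157839), (.ofNat 127605, .ofNat 8507), (.negSucc 4577, .ofNat 24416), (.negSucc 7871, .ofNat 2132), (.negSucc 311, .negSucc 279)], [(.negSucc 1023, .negSucc 511), (.ofNat 8960, .negSucc 8959), (.ofNat 71168, .ofNat 0), (.ofNat 0, .ofNat 112896), (.negSucc 357695, .ofNat 119232), (.negSucc 264095, .negSucc 176063), (.ofNat 278208, .negSucc 231839), (.ofNat 261360, .ofNat 17424), (.negSucc 13733, .ofNat 73248), (.negSucc 38447, .ofNat 10413), (.negSucc 3275, .negSucc 2939), (.ofNat 420, .negSucc 295)], [(.ofNat 1024, .negSucc 1023), (.ofNat 17408, .ofNat 0), (.ofNat 0, .ofNat 44800), (.negSucc 207359, .ofNat 69120), (.negSucc 213119, .negSucc 142079), (.ofNat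 306432, .negSucc 255359), (.ofNat 393120, .ofNat 26208), (.negSucc 28799, .ofNat 153600), (.negSucc 118079, .ofNat 31980), (.negSucc 16379, .negSucc 14699), (.ofNat 4515, .negSucc 3181), (.ofNat 444, .ofNat 62)], [(.ofNat 2048, .ofNat 0), (.ofNat 0, .ofNat 11264), (.negSucc 84479, .ofNat 28160), (.negSucc 126719, .negSucc 84479), (.ofNat 253440, .negSucc 211199), (.ofNat 443520, .ofNat 29568), (.negSucc 44351, .ofNat 236544), (.negSucc 253439, .ofNat 68640), (.negSucc 51479, .negSucc 46199), (.ofNat 23100, .negSucc 16279), (.ofNat 4884, .ofNat 682), (.negSucc 92, .ofNat 253)]], [[(.ofNat 1, .ofNat 0), (.ofNat 0, .ofNat 11), (.negSucc 164, .ofNat 55), (.negSucc 494, .negSucc 329), (.ofNat 1980, .negSucc 1649), (.ofNat 6930, .ofNat 462), (.negSucc 1385, .ofNat 7392), (.negSucc 15839, .ofNat 4290), (.negSucc 6434, .negSucc 5774), (.ofNat 5775, .negSucc 4069), (.ofNat 2442, .ofNat 341), (.negSucc 92, .ofNat 253)], [(.ofNat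 1, .negSucc 0), (.ofNat 32, .ofNat 0), (.ofNat 0, .ofNat 155), (.negSucc 1349, .ofNat 450), (.negSucc 2609, .negSucc 1739), (.ofNat 7056, .negSucc 5879), (.ofNat 17010, .ofNat 1134), (.negSucc 2339, .ofNat 12480), (.negSucc 17999, .ofNat 4875), (.negSucc 4679, .negSucc 4199), (.ofNat 2415, .negSucc 1701), (.ofNat 444, .ofNat 62)], [(.negSucc 1, .negSucc 0), (.ofNat 31, .negSucc 30), (.ofNat 436, .ofNat 0), (.ofNat 0, .ofNat 1224), (.negSucc 6857, .ofNat 2286), (.negSucc 8945, .negSucc 5963), (.ofNat 16632, .negSucc 13859), (.ofNat 27540, .ofNat 1836), (.negSucc 2546, .ofNat 13584), (.negSucc 12527, .ofNat 3393), (.negSucc 1871, .negSucc 1679), (.ofNat 420, .negSucc 295)], [(.negSucc 4, .ofNat 2), (.negSucc 59, .negSucc 29), (.ofNat 408, .negSucc 407), (.ofNat 3320, .ofNat 0), (.ofNat 0, .ofNat 5986), (.negSucc 22595, .ofNat 7532), (.negSucc 20243, .negSucc 13495), (.ofNat 25824, .negSucc 21519), (.ofNat 28725, .ofNat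 1915), (.negSucc 1697, .ofNat 9056), (.negSucc 4799, .ofNat 1300), (.negSucc 311, .negSucc 279)], [(.ofNat 1, .ofNat 5), (.negSucc 144, .ofNat 58), (.negSucc 761, .negSucc 380), (.ofNat 2993, .negSucc 2992), (.ofNat 15619, .ofNat 0), (.ofNat 0, .ofNat 18949), (.negSucc 49076, .ofNat 16359), (.negSucc 30146, .negSucc 20097), (.ofNat 25824, .negSucc 21519), (.ofNat 18360, .ofNat 1224), (.negSucc 623, .ofNat 3328), (.negSucc 767, .ofNat 208)], [(.ofNat 16, .negSucc 0), (.ofNat 28, .ofNat 140), (.negSucc 1774, .ofNat 710), (.negSucc 5379, .negSucc 2689), (.ofNat 13535, .negSucc 13534), (.ofNat 47480, .ofNat 0), (.ofNat 0, .ofNat 39495), (.negSucc 70109, .ofNat 23370), (.negSucc 28919, .negSucc 19279), (.ofNat 15840, .negSucc 13199), (.ofNat 6480, .ofNat 432), (.negSucc 95, .ofNat 512)], [(.ofNat 13, .negSucc 15), (.ofNat 432, .negSucc 26), (.ofNat 330, .ofNat 1650), (.negSucc 12049, .ofNat 4820), (.negSucc 23369, .negSucc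 11684), (.ofNat 39495, .negSucc 39494), (.ofNat 94960, .ofNat 0), (.ofNat 0, .ofNat 54140), (.negSucc 64559, .ofNat 21520), (.negSucc 17039, .negSucc 11359), (.ofNat 5376, .negSucc 4479), (.ofNat 960, .ofNat 64)], [(.negSucc 34, .negSucc 12), (.ofNat 338, .negSucc 415), (.ofNat 4896, .negSucc 305), (.ofNat 2152, .ofNat 10760), (.negSucc 50244, .ofNat 20098), (.negSucc 65435, .negSucc 32717), (.ofNat 75796, .negSucc 75795), (.ofNat 124952, .ofNat 0), (.ofNat 0, .ofNat 47888), (.negSucc 36575, .ofNat 12192), (.negSucc 5567, .negSucc 3711), (.ofNat 768, .negSucc 639)], [(.negSucc 73, .ofNat 35), (.negSucc 874, .negSucc 324), (.ofNat 3679, .negSucc 4527), (.ofNat 30640, .negSucc 1914), (.ofNat 8608, .ofNat 43040), (.negSucc 134959, .ofNat 53984), (.negSucc 120511, .negSucc 60255), (.ofNat 95776, .negSucc 95775), (.ofNat 106240, .ofNat 0), (.ofNat 0, .ofNat 26112), (.negSucc 11519, .ofNat 3840), (.negSucc 767, .negSucc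 511)], [(.ofNat 31, .ofNat 74), (.negSucc 1775, .ofNat 840), (.negSucc 9134, .negSucc 3392), (.ofNat 22074, .negSucc 27167), (.ofNat 117504, .negSucc 7343), (.ofNat 22176, .ofNat 110880), (.negSucc 238559, .ofNat 95424), (.negSucc 146303, .negSucc 73151), (.ofNat 78336, .negSucc 78335), (.ofNat 55808, .ofNat 0), (.ofNat 0, .ofNat 7936), (.negSucc 1535, .ofNat 512)], [(.ofNat 253, .negSucc 30), (.ofNat 713, .ofNat 1702), (.negSucc 17759, .ofNat 8400), (.negSucc 52499, .negSucc 19499), (.ofNat 81120, .negSucc 99839), (.ofNat 290304, .negSucc 18143), (.ofNat 37632, .ofNat 188160), (.negSucc 278399, .ofNat 111360), (.negSucc 115199, .negSucc 57599), (.ofNat 39680, .negSucc 39679), (.ofNat 16384, .ofNat 0), (.ofNat 0, .ofNat 1024)], [(.ofNat 160, .negSucc 252), (.ofNat 5566, .negSucc 681), (.ofNat 6820, .ofNat 16280), (.negSucc 97679, .ofNat 46200), (.negSucc 184799, .negSucc 68639), (.ofNat 192192, .negSucc 236543),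 (.ofNat 473088, .negSucc 29567), (.ofNat 42240, .ofNat 211200), (.negSucc 211199, .ofNat 84480), (.negSucc 56319, .negSucc 28159), (.ofNat 11264, .negSucc 11263), (.ofNat 2048, .ofNat 0)]], [[(.ofNat 0, .ofNat 0), (.ofNat 0, .ofNat 0), (.ofNat 0, .ofNat 0), (.ofNat 0, .ofNat 0), (.ofNat 0, .ofNat 0), (.ofNat 0, .ofNat 0), (.ofNat 0, .ofNat 0), (.ofNat 0, .ofNat 0), (.ofNat 0, .ofNat 0), (.ofNat 0, .ofNat 0), (.ofNat 0, .ofNat 0), (.ofNat 1, .ofNat 0)], [(.ofNat 0, .ofNat 0), (.ofNat 0, .ofNat 0), (.ofNat 0, .ofNat 0), (.ofNat 0, .ofNat 0), (.ofNat 0, .ofNat 0), (.ofNat 0, .ofNat 0), (.ofNat 0, .ofNat 0), (.ofNat 0, .ofNat 0), (.ofNat 0, .ofNat 0), (.ofNat 0, .ofNat 0), (.ofNat 1, .ofNat 0), (.ofNat 0, .ofNat 1)], [(.ofNat 0, .ofNat 0), (.ofNat 0, .ofNat 0), (.ofNat 0, .ofNat 0), (.ofNat 0, .ofNat 0), (.ofNat 0, .ofNat 0), (.ofNat 0, .ofNat 0), (.ofNat 0, .ofNat 0), (.ofNat 0, .ofNat 0), (.ofNat 0, .ofNat 0), (.ofNat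 1, .ofNat 0), (.ofNat 0, .ofNat 2), (.negSucc 2, .ofNat 1)], [(.ofNat 0, .ofNat 0), (.ofNat 0, .ofNat 0), (.ofNat 0, .ofNat 0), (.ofNat 0, .ofNat 0), (.ofNat 0, .ofNat 0), (.ofNat 0, .ofNat 0), (.ofNat 0, .ofNat 0), (.ofNat 0, .ofNat 0), (.ofNat 1, .ofNat 0), (.ofNat 0, .ofNat 3), (.negSucc 8, .ofNat 3), (.negSucc 2, .negSucc 1)], [(.ofNat 0, .ofNat 0), (.ofNat 0, .ofNat 0), (.ofNat 0, .ofNat 0), (.ofNat 0, .ofNat 0), (.ofNat 0, .ofNat 0), (.ofNat 0, .ofNat 0), (.ofNat 0, .ofNat 0), (.ofNat 1, .ofNat 0), (.ofNat 0, .ofNat 4), (.negSucc 17, .ofNat 6), (.negSucc 11, .negSucc 7), (.ofNat 6, .negSucc 4)], [(.ofNat 0, .ofNat 0), (.ofNat 0, .ofNat 0), (.ofNat 0, .ofNat 0), (.ofNat 0, .ofNat 0), (.ofNat 0, .ofNat 0), (.ofNat 0, .ofNat 0), (.ofNat 1, .ofNat 0), (.ofNat 0, .ofNat 5), (.negSucc 29, .ofNat 10), (.negSucc 29, .negSucc 19), (.ofNat 30, .negSucc 24), (.ofNat 15, .ofNat 1)], [(.ofNat 0, .ofNat 0), (.ofNat 0, .ofNat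 0), (.ofNat 0, .ofNat 0), (.ofNat 0, .ofNat 0), (.ofNat 0, .ofNat 0), (.ofNat 1, .ofNat 0), (.ofNat 0, .ofNat 6), (.negSucc 44, .ofNat 15), (.negSucc 59, .negSucc 39), (.ofNat 90, .negSucc 74), (.ofNat 90, .ofNat 6), (.negSucc 2, .ofNat 16)], [(.ofNat 0, .ofNat 0), (.ofNat 0, .ofNat 0), (.ofNat 0, .ofNat 0), (.ofNat 0, .ofNat 0), (.ofNat 1, .ofNat 0), (.ofNat 0, .ofNat 7), (.negSucc 62, .ofNat 21), (.negSucc 104, .negSucc 69), (.ofNat 210, .negSucc 174), (.ofNat 315, .ofNat 21), (.negSucc 20, .ofNat 112), (.negSucc 47, .ofNat 13)], [(.ofNat 0, .ofNat 0), (.ofNat 0, .ofNat 0), (.ofNat 0, .ofNat 0), (.ofNat 1, .ofNat 0), (.ofNat 0, .ofNat 8), (.negSucc 83, .ofNat 28), (.negSucc 167, .negSucc 111), (.ofNat 420, .negSucc 349), (.ofNat 840, .ofNat 56), (.negSucc 83, .ofNat 448), (.negSucc 383, .ofNat 104), (.negSucc 38, .negSucc 34)], [(.ofNat 0, .ofNat 0), (.ofNat 0, .ofNat 0), (.ofNat 1, .ofNat 0), (.ofNat 0, .ofNat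 9), (.negSucc 107, .ofNat 36), (.negSucc 251, .negSucc 167), (.ofNat 756, .negSucc 629), (.ofNat 1890, .ofNat 126), (.negSucc 251, .ofNat 1344), (.negSucc 1727, .ofNat 468), (.negSucc 350, .negSucc 314), (.ofNat 105, .negSucc 73)], [(.ofNat 0, .ofNat 0), (.ofNat 1, .ofNat 0), (.ofNat 0, .ofNat 10), (.negSucc 134, .ofNat 45), (.negSucc 359, .negSucc 239), (.ofNat 1260, .negSucc 1049), (.ofNat 3780, .ofNat 252), (.negSucc 629, .ofNat 3360), (.negSucc 5759, .ofNat 1560), (.negSucc 1754, .negSucc 1574), (.ofNat 1050, .negSucc 739), (.ofNat 222, .ofNat 31)], [(.ofNat 1, .ofNat 0), (.ofNat 0, .ofNat 11), (.negSucc 164, .ofNat 55), (.negSucc 494, .negSucc 329), (.ofNat 1980, .negSucc 1649), (.ofNat 6930, .ofNat 462), (.negSucc 1385, .ofNat 7392), (.negSucc 15839, .ofNat 4290), (.negSucc 6434, .negSucc 5774), (.ofNat 5775, .negSucc 4069), (.ofNat 2442, .ofNat 341), (.negSucc 92, .ofNat 253)]]]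
  rws := [(0, 0, 1, 0), (0, 0, 7, 0), (0, 0, 8, 0), (0, 0, 9, 0), (0, 0, 10, 0), (0, 0, 11, 0), (0, 1, 7, 0), (0, 1, 8, 0), (0, 1, 9, 0), (0, 1, 10, 0), (0, 2, 9, 0), (0, 3, 8, 0), (0, 5, 6, 0), (1, 0, 1, 1), (1, 0, 11, 1), (1, 11, 0, 0)]
  cols := [((0, 2), [.ofNat 4, .ofNat 420, .negSucc 239, .ofNat 90, .negSucc 19, .ofNat 2, .negSucc 3959, .ofNat 2310, .negSucc 879, .ofNat 198, .ofNat 3850, .ofNat 24750, .ofNat 38808, .negSucc 2471121, .negSucc 910065, .ofNat 1288650]), ((0, 4), [.ofNat 8, .ofNat 364, .negSucc 199, .ofNat 76, .negSucc 17, .ofNat 2, .negSucc 2683, .ofNat 1540, .negSucc 615, .ofNat 154, .ofNat 2310, .ofNat 11550, .ofNat 12936, .ofNat 2751026, .ofNat 799766, .negSucc 2941205]), ((0, 6), [.ofNat 12, .ofNat 335, .negSucc 174, .ofNat 65, .negSucc 15, .ofNat 2, .negSucc 1704, .ofNat 935, .negSucc 384, .ofNat 110, .ofNat 1100, .ofNat 3300, .ofNat 924, .negSucc 874191, .ofNat 261524, .ofNat 3845100]),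 ((0, 8), [.ofNat 16, .ofNat 338, .negSucc 165, .ofNat 58, .negSucc 13, .ofNat 2, .negSucc 989, .ofNat 506, .negSucc 197, .ofNat 66, .ofNat 330, .ofNat 330, .ofNat 0, .negSucc 2195577, .negSucc 2118873, .negSucc 3071525]), ((0, 10), [.ofNat 20, .ofNat 450, .negSucc 209, .ofNat 65, .negSucc 11, .ofNat 2, .negSucc 329, .ofNat 165, .negSucc 54, .ofNat 22, .ofNat 0, .ofNat 0, .ofNat 0, .ofNat 5279798, .ofNat 4310414, .negSucc 88349]), ((1, 3), [.ofNat 4, .ofNat 112, .negSucc 43, .ofNat 10, .negSucc 0, .ofNat 0, .negSucc 949, .ofNat 406, .negSucc 107, .ofNat 16, .ofNat 560, .ofNat 4800, .ofNat 9408, .negSucc 2313941, .negSucc 755387, .ofNat 1747440]), ((1, 5), [.ofNat 8, .ofNat 120, .negSucc 44, .ofNat 10, .negSucc 0, .ofNat 0, .negSucc 734, .ofNat 290, .negSucc 74, .ofNat 12, .ofNat 300, .ofNat 1800, .ofNat 2016, .ofNat 2726394, .ofNat 735480, .negSucc 3445739]), ((1, 7), [.ofNat 12, .ofNat 121, .negSucc 44, .ofNat 10,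 .negSucc 0, .ofNat 0, .negSucc 480, .ofNat 184, .negSucc 45, .ofNat 8, .ofNat 120, .ofNat 360, .ofNat 0, .negSucc 1113551, .ofNat 209412, .ofNat 4229820]), ((1, 9), [.ofNat 16, .ofNat 156, .negSucc 53, .ofNat 11, .negSucc 0, .ofNat 0, .negSucc 275, .ofNat 99, .negSucc 20, .ofNat 4, .ofNat 20, .ofNat 0, .ofNat 0, .negSucc 1884641, .negSucc 2029139, .negSucc 3257279]), ((2, 4), [.ofNat 4, .ofNat 35, .negSucc 8, .ofNat 1, .ofNat 0, .ofNat 0, .negSucc 242, .ofNat 63, .negSucc 6, .ofNat 0, .ofNat 42, .ofNat 630, .ofNat 1764, .negSucc 2174237, .negSucc 679031, .ofNat 1974240]), ((2, 6), [.ofNat 8, .ofNat 36, .negSucc 8, .ofNat 1, .ofNat 0, .ofNat 0, .negSucc 179, .ofNat 45, .negSucc 4, .ofNat 0, .ofNat 20, .ofNat 180, .ofNat 168, .ofNat 2681514, .ofNat 704880, .negSucc 3686039]), ((2, 8), [.ofNat 12, .ofNat 44, .negSucc 9, .ofNat 1, .ofNat 0, .ofNat 0, .negSucc 123, .ofNat 29, .negSucc 2, .ofNat 0, .ofNat 6, .ofNat 18,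 .ofNat 0, .negSucc 1217807, .ofNat 188568, .ofNat 4383720]), ((3, 5), [.ofNat 4, .ofNat 8, .negSucc 0, .ofNat 0, .ofNat 0, .ofNat 0, .negSucc 47, .ofNat 6, .ofNat 0, .ofNat 0, .ofNat 0, .ofNat 40, .ofNat 224, .negSucc 2071277, .negSucc 642671, .ofNat 2082240]), ((3, 7), [.ofNat 8, .ofNat 9, .negSucc 0, .ofNat 0, .ofNat 0, .ofNat 0, .negSucc 34, .ofNat 4, .ofNat 0, .ofNat 0, .ofNat 0, .ofNat 8, .ofNat 0, .ofNat 2651346, .ofNat 692640, .negSucc 3782159]), ((4, 6), [.ofNat 4, .ofNat 1, .ofNat 0, .ofNat 0, .ofNat 0, .ofNat 0, .negSucc 4, .ofNat 0, .ofNat 0, .ofNat 0, .ofNat 0, .ofNat 0, .ofNat 14, .negSucc 2017061, .negSucc 628127, .ofNat 2125440])]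
  tg := [((0, 2), .ofNat 420, [.ofNat 1513406411690097338919393, .negSucc 6105749893943335269357751, .negSucc 41568234016093463991550979, .negSucc 186222048845595163072732115, .negSucc 1056860384506121487203865043, .negSucc 2248441603040564416330924063, .ofNat 21957443552477308973916, .ofNat 1649209762077247841695868, .ofNat 20330560318439344700506388, .negSucc 56497661674994753419057487, .ofNat 8620425237022056132989300, .negSucc 789477470312276699882235, .ofNat 113615906634692467151128, .ofNat 1096671150765361080, .negSucc 588187162566614015, .ofNat 194729397544073952]), ((0, 4), .ofNat 600, [.negSucc 2858656561397756570095614, .ofNat 11533083157142659724977822, .ofNat 78517775528068706368200340, .ofNat 351752759666782255285118264, .ofNat 1996291841578662645226378032, .ofNat 4247056370187873572229516034, .negSucc 41475171241486315624037, .negSucc 3115174001554817162118725, .negSucc 38402169570760633522609973, .ofNat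 106717805609460077780807532, .negSucc 16283025481788473200015961, .ofNat 1491235224822101600952462, .negSucc 214607824092479172438941, .negSucc 2071489955781281589, .ofNat 1111020198284509568, .negSucc 367822196130875295]), ((0, 6), .ofNat 25200, [.ofNat 30898714561163434058664500, .negSucc 124659061635745997890968325, .negSucc 848684786686318045800363229, .negSucc 3802033536946148369986743321, .negSucc 21577566408872217083124766925, .negSucc 45905683207863556300590677246, .ofNat 448297810541973224486514, .ofNat 33671366327172655434387258, .ofNat 415082277500360151273570972, .negSucc 1153493937903519679371003665, .ofNat 176000350426120125456269166, .negSucc 16118498520438132235922945, .ofNat 2319658118001964415396871, .ofNat 22390369561814937795, .negSucc 12008821361071388223, .ofNat 3975725241352914728]), ((0, 8), .ofNat 7200, [.negSucc 468435338845026669128269, .ofNat 1889875051657974086072486, .ofNat 12866358723016580151465170,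 .ofNat 57640160552765199214177582, .ofNat 327123466970871156388529466, .ofNat 695946241576540466559077067, .negSucc 6796351879591125911993, .negSucc 510469711082060176093937, .negSucc 6292792760830156279911911, .ofNat 17487372252587778465109416, .negSucc 2668226978358762790583255, .ofNat 244362085068246875504256, .negSucc 35166829816170604187120, .negSucc 339445847554353044, .ofNat 182057939409342784, .negSucc 60273387648581647]), ((0, 10), .ofNat 50400, [.ofNat 4188189784273390, .negSucc 16897007395777557, .negSucc 115035625402240689, .negSucc 515349529747836685, .negSucc 2924747663022121817, .negSucc 6222320772300618950, .ofNat 60764867960202, .ofNat 4564010978351874, .ofNat 56262643250712696, .negSucc 156351213814692707, .ofNat 23856101464169268, .negSucc 2184794150822387, .ofNat 314419825251873, .ofNat 3034919685, .negSucc 1627744831, .ofNat 538892704]), ((1, 3), .ofNat 8400, [.negSucc 118886481284127832919727894,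 .ofNat 479640574326112819217313282, .ofNat 3265415711996139321913154960, .ofNat 14628776483145549953688076484, .ofNat 83022254532546525862792013412, .ofNat 176627579012182618257516953129, .negSucc 1724879174414011664320817, .negSucc 129554588905063363541368385, .negSucc 1597078458320229459222387613, .ofNat 4438205194214983743775729177, .negSucc 677182292665155239880261406, .ofNat 62017841191583748057851957, .negSucc 8925160653059604131685711, .negSucc 86149611388726577439, .ofNat 46205369260956441088, .negSucc 15297075985517656735]), ((1, 5), .ofNat 3600, [.ofNat 38844097946115919325940260, .negSucc 156714247463746019933743213, .negSucc 1066918007678457455207849749, .negSucc 4779699259372454012759977617, .negSucc 27126083234496009131477701253, .negSucc 57710001213153348514471264082, .ofNat 563574385181997811226346, .ofNat 42329717276853482032067442, .ofNat 521817715458832256404190508, .negSucc 1450106651378062023050863193,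 .ofNat 221257581345983223519264054, .negSucc 20263255095381170956024553, .ofNat 2916141607082391401316339, .ofNat 28147892903028384255, .negSucc 15096803857114952895, .ofNat 4998054542892384512]), ((1, 7), .ofNat 50400, [.negSucc 85002994482700297682989099, .ofNat 342939623182917476261252378, .ofNat 2334749172087644451075636770, .ofNat 10459471869754896447478086886, .ofNat 59360325646323667638405310578, .ofNat 126287471561913623930982518841, .negSucc 1233276427751534837620781, .negSucc 92630616088188110138159813, .negSucc 1141899818336690790436636835, .ofNat 3173285369051586034972161198, .negSucc 484180556657483678191207217, .ofNat 44342318451147441594885918, .negSucc 6381426833014750758365912, .negSucc 61596363711543103484, .ofNat 33036512696288971072, .negSucc 10937301294087532783]), ((1, 9), .ofNat 50400, [.ofNat 1765640918343191502245290, .negSucc 7123375298692409375375637, .negSucc 48496275894666343046307129,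 .negSucc 217259069870265933948172405, .negSucc 1233003855042499977294986897, .negSucc 2623182025772011126577483510, .ofNat 25617018997011892808442, .ofNat 1924078169857063607447634, .ofNat 23718988444745316751788816, .negSucc 65913942529607557689761687, .ofNat 10057163372928268759408008, .negSucc 921057103317509920424207, .ofNat 132551898934303509640053, .ofNat 1279449751765913385, .negSucc 686218397021337151, .ofNat 227184310607070544]), ((2, 4), .ofNat 5040, [.ofNat 106821268902635423783000935, .negSucc 430964178713097511620587427, .negSucc 2934024508778187177430776369, .negSucc 13144172908003011469631886625, .negSucc 74596728581184838252427140517, .negSucc 158702502668827805585524053965, .ofNat 1549829552733461892140472, .ofNat 116406722021856898159942344, .ofNat 1434998711477620216472542746, .negSucc 3987793274521002881763200042, .ofNat 608458346142886982645762013, .negSucc 55723951277979047453360942, .ofNat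 8019389385755050095355833, .ofNat 77406705157832920485, .negSucc 41516210432490487231, .ofNat 13744649935157814904]), ((2, 6), .ofNat 50400, [.negSucc 499676350406267113849473409, .ofNat 2015915090575019786951880074, .ofNat 13724445268339772250289219550, .ofNat 61484313145224569882356941538, .ofNat 348940070386803945897600075414, .ofNat 742360469488340911822487510553, .negSucc 7249615948369695224838485, .negSucc 544514089938911713308991421, .negSucc 6712473333773916155726020727, .ofNat 18653644635166393570706955204, .negSucc 2846177066591745751154704763, .ofNat 260659144857904485689914764, .negSucc 37512185184892323454881398, .negSucc 362084258383918905554, .ofNat 194199794897714796736, .negSucc 64293156107996327791]), ((2, 8), .ofNat 10080, [.ofNat 7062563350882152619915640, .negSucc 28493499893700068026568845, .negSucc 193985094720922216212231709, .negSucc 869036239799149945206989241, .negSucc 4932015194964429856463955005,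 .negSucc 10492727623969345039133508386, .ofNat 102468071309152738296954, .ofNat 7696312327999409096679858, .ofNat 94875949446757736702127732, .negSucc 263655758079386767027085165, .ofNat 40228651654793262296530986, .negSucc 3684228245040890068367285, .ofNat 530207571526887494165271, .ofNat 5117798773374837795, .negSucc 2744873462748996543, .ofNat 908737200933543968]), ((3, 5), .ofNat 16800, [.negSucc 280736888049233274323393749, .ofNat 1132616600003931362795749862, .ofNat 7710907373749115568725457730, .ofNat 34544189898522800879415912894, .ofNat 196047600404590022024309487562, .ofNat 417085915403993655954606863839, .negSucc 4073105759843607407200377, .negSucc 305928409427666016453757105, .negSucc 3771318921347765817969449943, .ofNat 10480316191460894407604341492, .negSucc 1599088873952919451456044571, .ofNat 146448070054717170319088572, .negSucc 21075750581693207702192376, .negSucc 203432497510974779564, .ofNat 109108718143367277888,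 .negSucc 36122303074674516335]), ((3, 7), .ofNat 3360, [.ofNat 12359485691280938483567770, .negSucc 49863624116973563970639537, .negSucc 339473911016394330528727829, .negSucc 1520813398390344302012681625, .negSucc 8631026470541911149142205517, .negSucc 18362273085275621961067551060, .ofNat 179319122284466488660462, .ofNat 13468546385733513062166374, .ofNat 166032909210992005136759896, .negSucc 461397570189439272440896347, .ofNat 70400139411824023621907108, .negSucc 6447399338698798898215587, .ofNat 927863237202235323148963, .ofNat 8956147728215529135, .negSucc 4803528492666269631, .ofNat 1590290079404377904]), ((4, 6), .ofNat 600, [.ofNat 3531281606335944869444805, .negSucc 14246749668049411982945435, .negSucc 96992545462373288969068309, .negSucc 434518111396307731763779381, .negSucc 2466007549223878488364660305, .negSucc 5246363709316379776601484141, .ofNat 51234034651956047804824, .ofNat 3848156088693523405531448,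 .ofNat 47437973795045254714288702, .negSucc 131827876459898355570973260, .ofNat 20114325433770956989461251, .negSucc 1842114086471341545613200, .ofNat 265103780575516630426591, .ofNat 2558899336611244095, .negSucc 1372436704516708543, .ofNat 454368591575042368])]

theorem NIT_3_1_11 (l : ℕ) (hlp : l.Prime) (hl2 : l ≠ 2) (hls : ¬ l ∣ 11) (hE : ¬ l ∣ 11)
    (hj : 11 < l) : NUMA_stmt 3 1 l 11 :=
  @NI_fin 3 1 11 1 11 11 (by norm_num) NIC_3_1_11 (by decide +kernel) (by decide +kernel)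
    (by decide +kernel) (by decide +kernel) l hlp hl2 hls hE hj

end Pool.Agent.OE
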