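import Pool.Agent.helper21.OE.NID

/-!
# Project OE: certificates over the integers
-/

namespace Pool.Agent.OE

set_option maxRecDepth 100000

/-- certificate, `d = 3`, `t = 1`, `j = 13` -/
def NIC_3_1_13 : NI_Cert where
  tab0 := [[[(.ofNat 1, .ofNat 0), (.ofNat 0, .ofNat 0), (.ofNat 0, .ofNat 0), (.ofNat 0, .ofNat 0), (.ofNat 0, .ofNat 0), (.ofNat 0, .ofNat 0), (.ofNat 0, .ofNat 0), (.ofNat 0, .ofNat 0), (.ofNat 0, .ofNat 0), (.ofNat 0, .ofNat 0), (.ofNat 0, .ofNat 0), (.ofNat 0, .ofNat 0), (.ofNat 0, .ofNat 0), (.ofNat 0, .ofNat 0)], [(.ofNat 0, .ofNat 0), (.ofNat 1, .ofNat 0), (.ofNat 0, .ofNat 0), (.ofNat 0, .ofNat 0), (.ofNat 0, .ofNat 0), (.ofNat 0, .ofNat 0), (.ofNat 0, .ofNat 0), (.ofNat 0, .ofNat 0), (.ofNat 0, .ofNat 0), (.ofNat 0, .ofNat 0), (.ofNat 0, .ofNat 0), (.ofNat 0, .ofNat 0), (.ofNat 0, .ofNat 0), (.ofNat 0, .ofNat 0)], [(.ofNat 0, .ofNat 0), (.ofNat 0, .ofNat 0), (.ofNat 1, .ofNat 0), (.ofNat 0, .ofNat 0), (.ofNat 0, .ofNat 0), (.ofNat 0, .ofNat 0), (.ofNat 0, .ofNat 0), (.ofNat 0, .ofNat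 0), (.ofNat 0, .ofNat 0), (.ofNat 0, .ofNat 0), (.ofNat 0, .ofNat 0), (.ofNat 0, .ofNat 0), (.ofNat 0, .ofNat 0), (.ofNat 0, .ofNat 0)], [(.ofNat 0, .ofNat 0), (.ofNat 0, .ofNat 0), (.ofNat 0, .ofNat 0), (.ofNat 1, .ofNat 0), (.ofNat 0, .ofNat 0), (.ofNat 0, .ofNat 0), (.ofNat 0, .ofNat 0), (.ofNat 0, .ofNat 0), (.ofNat 0, .ofNat 0), (.ofNat 0, .ofNat 0), (.ofNat 0, .ofNat 0), (.ofNat 0, .ofNat 0), (.ofNat 0, .ofNat 0), (.ofNat 0, .ofNat 0)], [(.ofNat 0, .ofNat 0), (.ofNat 0, .ofNat 0), (.ofNat 0, .ofNat 0), (.ofNat 0, .ofNat 0), (.ofNat 1, .ofNat 0), (.ofNat 0, .ofNat 0), (.ofNat 0, .ofNat 0), (.ofNat 0, .ofNat 0), (.ofNat 0, .ofNat 0), (.ofNat 0, .ofNat 0), (.ofNat 0, .ofNat 0), (.ofNat 0, .ofNat 0), (.ofNat 0, .ofNat 0), (.ofNat 0, .ofNat 0)], [(.ofNat 0, .ofNat 0), (.ofNat 0, .ofNat 0), (.ofNat 0, .ofNat 0), (.ofNat 0, .ofNat 0), (.ofNat 0, .ofNat 0), (.ofNat 1, .ofNat 0), (.ofNat 0, .ofNat 0), (.ofNat 0, .ofNat 0), (.ofNat 0, .ofNat 0), (.ofNat 0, .ofNat 0), (.ofNat 0, .ofNat 0), (.ofNat 0, .ofNat 0), (.ofNat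 0, .ofNat 0), (.ofNat 0, .ofNat 0)], [(.ofNat 0, .ofNat 0), (.ofNat 0, .ofNat 0), (.ofNat 0, .ofNat 0), (.ofNat 0, .ofNat 0), (.ofNat 0, .ofNat 0), (.ofNat 0, .ofNat 0), (.ofNat 1, .ofNat 0), (.ofNat 0, .ofNat 0), (.ofNat 0, .ofNat 0), (.ofNat 0, .ofNat 0), (.ofNat 0, .ofNat 0), (.ofNat 0, .ofNat 0), (.ofNat 0, .ofNat 0), (.ofNat 0, .ofNat 0)], [(.ofNat 0, .ofNat 0), (.ofNat 0, .ofNat 0), (.ofNat 0, .ofNat 0), (.ofNat 0, .ofNat 0), (.ofNat 0, .ofNat 0), (.ofNat 0, .ofNat 0), (.ofNat 0, .ofNat 0), (.ofNat 1, .ofNat 0), (.ofNat 0, .ofNat 0), (.ofNat 0, .ofNat 0), (.ofNat 0, .ofNat 0), (.ofNat 0, .ofNat 0), (.ofNat 0, .ofNat 0), (.ofNat 0, .ofNat 0)], [(.ofNat 0, .ofNat 0), (.ofNat 0, .ofNat 0), (.ofNat 0, .ofNat 0), (.ofNat 0, .ofNat 0), (.ofNat 0, .ofNat 0), (.ofNat 0, .ofNat 0), (.ofNat 0, .ofNat 0), (.ofNat 0, .ofNat 0), (.ofNat 1, .ofNat 0), (.ofNat 0, .ofNat 0), (.ofNat 0, .ofNat 0), (.ofNat 0, .ofNat 0), (.ofNat 0, .ofNat 0), (.ofNat 0, .ofNat 0)], [(.ofNat 0, .ofNat 0), (.ofNat 0, .ofNat 0), (.ofNat 0, .ofNat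 0), (.ofNat 0, .ofNat 0), (.ofNat 0, .ofNat 0), (.ofNat 0, .ofNat 0), (.ofNat 0, .ofNat 0), (.ofNat 0, .ofNat 0), (.ofNat 0, .ofNat 0), (.ofNat 1, .ofNat 0), (.ofNat 0, .ofNat 0), (.ofNat 0, .ofNat 0), (.ofNat 0, .ofNat 0), (.ofNat 0, .ofNat 0)], [(.ofNat 0, .ofNat 0), (.ofNat 0, .ofNat 0), (.ofNat 0, .ofNat 0), (.ofNat 0, .ofNat 0), (.ofNat 0, .ofNat 0), (.ofNat 0, .ofNat 0), (.ofNat 0, .ofNat 0), (.ofNat 0, .ofNat 0), (.ofNat 0, .ofNat 0), (.ofNat 0, .ofNat 0), (.ofNat 1, .ofNat 0), (.ofNat 0, .ofNat 0), (.ofNat 0, .ofNat 0), (.ofNat 0, .ofNat 0)], [(.ofNat 0, .ofNat 0), (.ofNat 0, .ofNat 0), (.ofNat 0, .ofNat 0), (.ofNat 0, .ofNat 0), (.ofNat 0, .ofNat 0), (.ofNat 0, .ofNat 0), (.ofNat 0, .ofNat 0), (.ofNat 0, .ofNat 0), (.ofNat 0, .ofNat 0), (.ofNat 0, .ofNat 0), (.ofNat 0, .ofNat 0), (.ofNat 1, .ofNat 0), (.ofNat 0, .ofNat 0), (.ofNat 0, .ofNat 0)], [(.ofNat 0, .ofNat 0), (.ofNat 0, .ofNat 0), (.ofNat 0, .ofNat 0), (.ofNat 0, .ofNat 0), (.ofNat 0, .ofNat 0), (.ofNat 0, .ofNat 0), (.ofNat 0, .ofNat 0), (.ofNat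 0, .ofNat 0), (.ofNat 0, .ofNat 0), (.ofNat 0, .ofNat 0), (.ofNat 0, .ofNat 0), (.ofNat 0, .ofNat 0), (.ofNat 1, .ofNat 0), (.ofNat 0, .ofNat 0)], [(.ofNat 0, .ofNat 0), (.ofNat 0, .ofNat 0), (.ofNat 0, .ofNat 0), (.ofNat 0, .ofNat 0), (.ofNat 0, .ofNat 0), (.ofNat 0, .ofNat 0), (.ofNat 0, .ofNat 0), (.ofNat 0, .ofNat 0), (.ofNat 0, .ofNat 0), (.ofNat 0, .ofNat 0), (.ofNat 0, .ofNat 0), (.ofNat 0, .ofNat 0), (.ofNat 0, .ofNat 0), (.ofNat 1, .ofNat 0)]], [[(.ofNat 1, .ofNat 0), (.negSucc 12, .ofNat 0), (.ofNat 78, .ofNat 0), (.negSucc 285, .ofNat 0), (.ofNat 715, .ofNat 0), (.negSucc 1286, .ofNat 0), (.ofNat 1716, .ofNat 0), (.negSucc 1715, .ofNat 0), (.ofNat 1287, .ofNat 0), (.negSucc 714, .ofNat 0), (.ofNat 286, .ofNat 0), (.negSucc 77, .ofNat 0), (.ofNat 13, .ofNat 0), (.negSucc 0, .ofNat 0)], [(.ofNat 1, .ofNat 0), (.negSucc 11, .ofNat 0), (.ofNat 66, .ofNat 0), (.negSucc 219, .ofNat 0), (.ofNat 495, .ofNat 0), (.negSucc 791, .ofNat 0), (.ofNat 924, .ofNat 0), (.negSucc 791, .ofNat 0), (.ofNat 495, .ofNat 0),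 (.negSucc 219, .ofNat 0), (.ofNat 66, .ofNat 0), (.negSucc 11, .ofNat 0), (.ofNat 1, .ofNat 0), (.ofNat 0, .ofNat 0)], [(.ofNat 1, .ofNat 0), (.negSucc 10, .ofNat 0), (.ofNat 55, .ofNat 0), (.negSucc 164, .ofNat 0), (.ofNat 330, .ofNat 0), (.negSucc 461, .ofNat 0), (.ofNat 462, .ofNat 0), (.negSucc 329, .ofNat 0), (.ofNat 165, .ofNat 0), (.negSucc 54, .ofNat 0), (.ofNat 11, .ofNat 0), (.negSucc 0, .ofNat 0), (.ofNat 0, .ofNat 0), (.ofNat 0, .ofNat 0)], [(.ofNat 1, .ofNat 0), (.negSucc 9, .ofNat 0), (.ofNat 45, .ofNat 0), (.negSucc 119, .ofNat 0), (.ofNat 210, .ofNat 0), (.negSucc 251, .ofNat 0), (.ofNat 210, .ofNat 0), (.negSucc 119, .ofNat 0), (.ofNat 45, .ofNat 0), (.negSucc 9, .ofNat 0), (.ofNat 1, .ofNat 0), (.ofNat 0, .ofNat 0), (.ofNat 0, .ofNat 0), (.ofNat 0, .ofNat 0)], [(.ofNat 1, .ofNat 0), (.negSucc 8, .ofNat 0), (.ofNat 36, .ofNat 0), (.negSucc 83, .ofNat 0), (.ofNat 126, .ofNat 0), (.negSucc 125, .ofNat 0), (.ofNat 84, .ofNat 0), (.negSucc 35, .ofNat 0), (.ofNat 9, .ofNat 0), (.negSucc 0, .ofNat 0),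 (.ofNat 0, .ofNat 0), (.ofNat 0, .ofNat 0), (.ofNat 0, .ofNat 0), (.ofNat 0, .ofNat 0)], [(.ofNat 1, .ofNat 0), (.negSucc 7, .ofNat 0), (.ofNat 28, .ofNat 0), (.negSucc 55, .ofNat 0), (.ofNat 70, .ofNat 0), (.negSucc 55, .ofNat 0), (.ofNat 28, .ofNat 0), (.negSucc 7, .ofNat 0), (.ofNat 1, .ofNat 0), (.ofNat 0, .ofNat 0), (.ofNat 0, .ofNat 0), (.ofNat 0, .ofNat 0), (.ofNat 0, .ofNat 0), (.ofNat 0, .ofNat 0)], [(.ofNat 1, .ofNat 0), (.negSucc 6, .ofNat 0), (.ofNat 21, .ofNat 0), (.negSucc 34, .ofNat 0), (.ofNat 35, .ofNat 0), (.negSucc 20, .ofNat 0), (.ofNat 7, .ofNat 0), (.negSucc 0, .ofNat 0), (.ofNat 0, .ofNat 0), (.ofNat 0, .ofNat 0), (.ofNat 0, .ofNat 0), (.ofNat 0, .ofNat 0), (.ofNat 0, .ofNat 0), (.ofNat 0, .ofNat 0)], [(.ofNat 1, .ofNat 0), (.negSucc 5, .ofNat 0), (.ofNat 15, .ofNat 0), (.negSucc 19, .ofNat 0), (.ofNat 15, .ofNat 0), (.negSucc 5, .ofNat 0), (.ofNat 1, .ofNat 0), (.ofNat 0, .ofNat 0), (.ofNat 0, .ofNat 0), (.ofNat 0, .ofNat 0), (.ofNat 0, .ofNat 0), (.ofNat 0, .ofNat 0), (.ofNat 0, .ofNat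 0), (.ofNat 0, .ofNat 0)], [(.ofNat 1, .ofNat 0), (.negSucc 4, .ofNat 0), (.ofNat 10, .ofNat 0), (.negSucc 9, .ofNat 0), (.ofNat 5, .ofNat 0), (.negSucc 0, .ofNat 0), (.ofNat 0, .ofNat 0), (.ofNat 0, .ofNat 0), (.ofNat 0, .ofNat 0), (.ofNat 0, .ofNat 0), (.ofNat 0, .ofNat 0), (.ofNat 0, .ofNat 0), (.ofNat 0, .ofNat 0), (.ofNat 0, .ofNat 0)], [(.ofNat 1, .ofNat 0), (.negSucc 3, .ofNat 0), (.ofNat 6, .ofNat 0), (.negSucc 3, .ofNat 0), (.ofNat 1, .ofNat 0), (.ofNat 0, .ofNat 0), (.ofNat 0, .ofNat 0), (.ofNat 0, .ofNat 0), (.ofNat 0, .ofNat 0), (.ofNat 0, .ofNat 0), (.ofNat 0, .ofNat 0), (.ofNat 0, .ofNat 0), (.ofNat 0, .ofNat 0), (.ofNat 0, .ofNat 0)], [(.ofNat 1, .ofNat 0), (.negSucc 2, .ofNat 0), (.ofNat 3, .ofNat 0), (.negSucc 0, .ofNat 0), (.ofNat 0, .ofNat 0), (.ofNat 0, .ofNat 0), (.ofNat 0, .ofNat 0), (.ofNat 0, .ofNat 0), (.ofNat 0, .ofNat 0), (.ofNat 0, .ofNat 0), (.ofNat 0, .ofNat 0), (.ofNat 0, .ofNat 0), (.ofNat 0, .ofNat 0), (.ofNat 0, .ofNat 0)], [(.ofNat 1, .ofNat 0), (.negSucc 1, .ofNat 0), (.ofNat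 1, .ofNat 0), (.ofNat 0, .ofNat 0), (.ofNat 0, .ofNat 0), (.ofNat 0, .ofNat 0), (.ofNat 0, .ofNat 0), (.ofNat 0, .ofNat 0), (.ofNat 0, .ofNat 0), (.ofNat 0, .ofNat 0), (.ofNat 0, .ofNat 0), (.ofNat 0, .ofNat 0), (.ofNat 0, .ofNat 0), (.ofNat 0, .ofNat 0)], [(.ofNat 1, .ofNat 0), (.negSucc 0, .ofNat 0), (.ofNat 0, .ofNat 0), (.ofNat 0, .ofNat 0), (.ofNat 0, .ofNat 0), (.ofNat 0, .ofNat 0), (.ofNat 0, .ofNat 0), (.ofNat 0, .ofNat 0), (.ofNat 0, .ofNat 0), (.ofNat 0, .ofNat 0), (.ofNat 0, .ofNat 0), (.ofNat 0, .ofNat 0), (.ofNat 0, .ofNat 0), (.ofNat 0, .ofNat 0)], [(.ofNat 1, .ofNat 0), (.ofNat 0, .ofNat 0), (.ofNat 0, .ofNat 0), (.ofNat 0, .ofNat 0), (.ofNat 0, .ofNat 0), (.ofNat 0, .ofNat 0), (.ofNat 0, .ofNat 0), (.ofNat 0, .ofNat 0), (.ofNat 0, .ofNat 0), (.ofNat 0, .ofNat 0), (.ofNat 0, .ofNat 0), (.ofNat 0, .ofNat 0), (.ofNat 0, .ofNat 0), (.ofNat 0, .ofNat 0)]], [[(.ofNat 0, .ofNat 0), (.ofNat 0, .ofNat 0), (.ofNat 0, .ofNat 0), (.ofNat 0, .ofNat 0), (.ofNat 0, .ofNat 0), (.ofNat 0, .ofNat 0), (.ofNat 0,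 .ofNat 0), (.ofNat 0, .ofNat 0), (.ofNat 0, .ofNat 0), (.ofNat 0, .ofNat 0), (.ofNat 0, .ofNat 0), (.ofNat 0, .ofNat 0), (.ofNat 0, .ofNat 0), (.negSucc 0, .ofNat 0)], [(.ofNat 0, .ofNat 0), (.ofNat 0, .ofNat 0), (.ofNat 0, .ofNat 0), (.ofNat 0, .ofNat 0), (.ofNat 0, .ofNat 0), (.ofNat 0, .ofNat 0), (.ofNat 0, .ofNat 0), (.ofNat 0, .ofNat 0), (.ofNat 0, .ofNat 0), (.ofNat 0, .ofNat 0), (.ofNat 0, .ofNat 0), (.ofNat 0, .ofNat 0), (.ofNat 1, .ofNat 0), (.negSucc 0, .ofNat 0)], [(.ofNat 0, .ofNat 0), (.ofNat 0, .ofNat 0), (.ofNat 0, .ofNat 0), (.ofNat 0, .ofNat 0), (.ofNat 0, .ofNat 0), (.ofNat 0, .ofNat 0), (.ofNat 0, .ofNat 0), (.ofNat 0, .ofNat 0), (.ofNat 0, .ofNat 0), (.ofNat 0, .ofNat 0), (.ofNat 0, .ofNat 0), (.negSucc 0, .ofNat 0), (.ofNat 2, .ofNat 0), (.negSucc 0, .ofNat 0)], [(.ofNat 0, .ofNat 0), (.ofNat 0, .ofNat 0), (.ofNat 0, .ofNat 0), (.ofNat 0, .ofNat 0), (.ofNat 0, .ofNat 0), (.ofNat 0, .ofNat 0), (.ofNat 0, .ofNat 0), (.ofNat 0, .ofNat 0), (.ofNat 0, .ofNat 0), (.ofNat 0, .ofNat 0), (.ofNat 1,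 .ofNat 0), (.negSucc 2, .ofNat 0), (.ofNat 3, .ofNat 0), (.negSucc 0, .ofNat 0)], [(.ofNat 0, .ofNat 0), (.ofNat 0, .ofNat 0), (.ofNat 0, .ofNat 0), (.ofNat 0, .ofNat 0), (.ofNat 0, .ofNat 0), (.ofNat 0, .ofNat 0), (.ofNat 0, .ofNat 0), (.ofNat 0, .ofNat 0), (.ofNat 0, .ofNat 0), (.negSucc 0, .ofNat 0), (.ofNat 4, .ofNat 0), (.negSucc 5, .ofNat 0), (.ofNat 4, .ofNat 0), (.negSucc 0, .ofNat 0)], [(.ofNat 0, .ofNat 0), (.ofNat 0, .ofNat 0), (.ofNat 0, .ofNat 0), (.ofNat 0, .ofNat 0), (.ofNat 0, .ofNat 0), (.ofNat 0, .ofNat 0), (.ofNat 0, .ofNat 0), (.ofNat 0, .ofNat 0), (.ofNat 1, .ofNat 0), (.negSucc 4, .ofNat 0), (.ofNat 10, .ofNat 0), (.negSucc 9, .ofNat 0), (.ofNat 5, .ofNat 0), (.negSucc 0, .ofNat 0)], [(.ofNat 0, .ofNat 0), (.ofNat 0, .ofNat 0), (.ofNat 0, .ofNat 0), (.ofNat 0, .ofNat 0), (.ofNat 0, .ofNat 0), (.ofNat 0, .ofNat 0), (.ofNat 0, .ofNat 0), (.negSucc 0, .ofNat 0), (.ofNat 6, .ofNat 0), (.negSucc 14, .ofNat 0), (.ofNat 20, .ofNat 0), (.negSucc 14, .ofNat 0), (.ofNat 6, .ofNat 0), (.negSucc 0, .ofNat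 0)], [(.ofNat 0, .ofNat 0), (.ofNat 0, .ofNat 0), (.ofNat 0, .ofNat 0), (.ofNat 0, .ofNat 0), (.ofNat 0, .ofNat 0), (.ofNat 0, .ofNat 0), (.ofNat 1, .ofNat 0), (.negSucc 6, .ofNat 0), (.ofNat 21, .ofNat 0), (.negSucc 34, .ofNat 0), (.ofNat 35, .ofNat 0), (.negSucc 20, .ofNat 0), (.ofNat 7, .ofNat 0), (.negSucc 0, .ofNat 0)], [(.ofNat 0, .ofNat 0), (.ofNat 0, .ofNat 0), (.ofNat 0, .ofNat 0), (.ofNat 0, .ofNat 0), (.ofNat 0, .ofNat 0), (.negSucc 0, .ofNat 0), (.ofNat 8, .ofNat 0), (.negSucc 27, .ofNat 0), (.ofNat 56, .ofNat 0), (.negSucc 69, .ofNat 0), (.ofNat 56, .ofNat 0), (.negSucc 27, .ofNat 0), (.ofNat 8, .ofNat 0), (.negSucc 0, .ofNat 0)], [(.ofNat 0, .ofNat 0), (.ofNat 0, .ofNat 0), (.ofNat 0, .ofNat 0), (.ofNat 0, .ofNat 0), (.ofNat 1, .ofNat 0), (.negSucc 8, .ofNat 0), (.ofNat 36, .ofNat 0), (.negSucc 83, .ofNat 0), (.ofNat 126, .ofNat 0), (.negSucc 125, .ofNat 0), (.ofNat 84, .ofNat 0), (.negSucc 35, .ofNat 0), (.ofNat 9, .ofNat 0), (.negSucc 0, .ofNat 0)], [(.ofNat 0, .ofNat 0), (.ofNat 0, .ofNat 0),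 (.ofNat 0, .ofNat 0), (.negSucc 0, .ofNat 0), (.ofNat 10, .ofNat 0), (.negSucc 44, .ofNat 0), (.ofNat 120, .ofNat 0), (.negSucc 209, .ofNat 0), (.ofNat 252, .ofNat 0), (.negSucc 209, .ofNat 0), (.ofNat 120, .ofNat 0), (.negSucc 44, .ofNat 0), (.ofNat 10, .ofNat 0), (.negSucc 0, .ofNat 0)], [(.ofNat 0, .ofNat 0), (.ofNat 0, .ofNat 0), (.ofNat 1, .ofNat 0), (.negSucc 10, .ofNat 0), (.ofNat 55, .ofNat 0), (.negSucc 164, .ofNat 0), (.ofNat 330, .ofNat 0), (.negSucc 461, .ofNat 0), (.ofNat 462, .ofNat 0), (.negSucc 329, .ofNat 0), (.ofNat 165, .ofNat 0), (.negSucc 54, .ofNat 0), (.ofNat 11, .ofNat 0), (.negSucc 0, .ofNat 0)], [(.ofNat 0, .ofNat 0), (.negSucc 0, .ofNat 0), (.ofNat 12, .ofNat 0), (.negSucc 65, .ofNat 0), (.ofNat 220, .ofNat 0), (.negSucc 494, .ofNat 0), (.ofNat 792, .ofNat 0), (.negSucc 923, .ofNat 0), (.ofNat 792, .ofNat 0), (.negSucc 494, .ofNat 0), (.ofNat 220, .ofNat 0), (.negSucc 65, .ofNat 0), (.ofNat 12, .ofNat 0), (.negSucc 0, .ofNat 0)], [(.ofNat 1, .ofNat 0), (.negSucc 12, .ofNat 0), (.ofNat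 78, .ofNat 0), (.negSucc 285, .ofNat 0), (.ofNat 715, .ofNat 0), (.negSucc 1286, .ofNat 0), (.ofNat 1716, .ofNat 0), (.negSucc 1715, .ofNat 0), (.ofNat 1287, .ofNat 0), (.negSucc 714, .ofNat 0), (.ofNat 286, .ofNat 0), (.negSucc 77, .ofNat 0), (.ofNat 13, .ofNat 0), (.negSucc 0, .ofNat 0)]]]
  tab1 := [[[(.ofNat 1, .ofNat 0), (.ofNat 0, .ofNat 0), (.ofNat 0, .ofNat 0), (.ofNat 0, .ofNat 0), (.ofNat 0, .ofNat 0), (.ofNat 0, .ofNat 0), (.ofNat 0, .ofNat 0), (.ofNat 0, .ofNat 0), (.ofNat 0, .ofNat 0), (.ofNat 0, .ofNat 0), (.ofNat 0, .ofNat 0), (.ofNat 0, .ofNat 0), (.ofNat 0, .ofNat 0), (.ofNat 0, .ofNat 0)], [(.ofNat 0, .ofNat 0), (.ofNat 1, .ofNat 0), (.ofNat 0, .ofNat 0), (.ofNat 0, .ofNat 0), (.ofNat 0, .ofNat 0), (.ofNat 0, .ofNat 0), (.ofNat 0, .ofNat 0), (.ofNat 0, .ofNat 0), (.ofNat 0, .ofNat 0), (.ofNat 0, .ofNat 0), (.ofNat 0, .ofNat 0), (.ofNat 0, .ofNat 0), (.ofNat 0, .ofNat 0), (.ofNat 0, .ofNat 0)], [(.ofNat 0, .ofNat 0), (.ofNat 0, .ofNat 0), (.ofNat 1, .ofNat 0), (.ofNat 0, .ofNat 0), (.ofNat 0,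 .ofNat 0), (.ofNat 0, .ofNat 0), (.ofNat 0, .ofNat 0), (.ofNat 0, .ofNat 0), (.ofNat 0, .ofNat 0), (.ofNat 0, .ofNat 0), (.ofNat 0, .ofNat 0), (.ofNat 0, .ofNat 0), (.ofNat 0, .ofNat 0), (.ofNat 0, .ofNat 0)], [(.ofNat 0, .ofNat 0), (.ofNat 0, .ofNat 0), (.ofNat 0, .ofNat 0), (.ofNat 1, .ofNat 0), (.ofNat 0, .ofNat 0), (.ofNat 0, .ofNat 0), (.ofNat 0, .ofNat 0), (.ofNat 0, .ofNat 0), (.ofNat 0, .ofNat 0), (.ofNat 0, .ofNat 0), (.ofNat 0, .ofNat 0), (.ofNat 0, .ofNat 0), (.ofNat 0, .ofNat 0), (.ofNat 0, .ofNat 0)], [(.ofNat 0, .ofNat 0), (.ofNat 0, .ofNat 0), (.ofNat 0, .ofNat 0), (.ofNat 0, .ofNat 0), (.ofNat 1, .ofNat 0), (.ofNat 0, .ofNat 0), (.ofNat 0, .ofNat 0), (.ofNat 0, .ofNat 0), (.ofNat 0, .ofNat 0), (.ofNat 0, .ofNat 0), (.ofNat 0, .ofNat 0), (.ofNat 0, .ofNat 0), (.ofNat 0, .ofNat 0), (.ofNat 0, .ofNat 0)], [(.ofNat 0, .ofNat 0), (.ofNat 0, .ofNat 0), (.ofNat 0, .ofNat 0), (.ofNat 0, .ofNat 0), (.ofNat 0, .ofNat 0), (.ofNat 1, .ofNat 0), (.ofNat 0, .ofNat 0), (.ofNat 0, .ofNat 0), (.ofNat 0, .ofNat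 0), (.ofNat 0, .ofNat 0), (.ofNat 0, .ofNat 0), (.ofNat 0, .ofNat 0), (.ofNat 0, .ofNat 0), (.ofNat 0, .ofNat 0)], [(.ofNat 0, .ofNat 0), (.ofNat 0, .ofNat 0), (.ofNat 0, .ofNat 0), (.ofNat 0, .ofNat 0), (.ofNat 0, .ofNat 0), (.ofNat 0, .ofNat 0), (.ofNat 1, .ofNat 0), (.ofNat 0, .ofNat 0), (.ofNat 0, .ofNat 0), (.ofNat 0, .ofNat 0), (.ofNat 0, .ofNat 0), (.ofNat 0, .ofNat 0), (.ofNat 0, .ofNat 0), (.ofNat 0, .ofNat 0)], [(.ofNat 0, .ofNat 0), (.ofNat 0, .ofNat 0), (.ofNat 0, .ofNat 0), (.ofNat 0, .ofNat 0), (.ofNat 0, .ofNat 0), (.ofNat 0, .ofNat 0), (.ofNat 0, .ofNat 0), (.ofNat 1, .ofNat 0), (.ofNat 0, .ofNat 0), (.ofNat 0, .ofNat 0), (.ofNat 0, .ofNat 0), (.ofNat 0, .ofNat 0), (.ofNat 0, .ofNat 0), (.ofNat 0, .ofNat 0)], [(.ofNat 0, .ofNat 0), (.ofNat 0, .ofNat 0), (.ofNat 0, .ofNat 0), (.ofNat 0, .ofNat 0), (.ofNat 0, .ofNat 0), (.ofNat 0, .ofNat 0), (.ofNat 0, .ofNat 0), (.ofNat 0, .ofNat 0), (.ofNat 1, .ofNat 0), (.ofNat 0, .ofNat 0), (.ofNat 0, .ofNat 0), (.ofNat 0, .ofNat 0), (.ofNat 0, .ofNat 0), (.ofNat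 0, .ofNat 0)], [(.ofNat 0, .ofNat 0), (.ofNat 0, .ofNat 0), (.ofNat 0, .ofNat 0), (.ofNat 0, .ofNat 0), (.ofNat 0, .ofNat 0), (.ofNat 0, .ofNat 0), (.ofNat 0, .ofNat 0), (.ofNat 0, .ofNat 0), (.ofNat 0, .ofNat 0), (.ofNat 1, .ofNat 0), (.ofNat 0, .ofNat 0), (.ofNat 0, .ofNat 0), (.ofNat 0, .ofNat 0), (.ofNat 0, .ofNat 0)], [(.ofNat 0, .ofNat 0), (.ofNat 0, .ofNat 0), (.ofNat 0, .ofNat 0), (.ofNat 0, .ofNat 0), (.ofNat 0, .ofNat 0), (.ofNat 0, .ofNat 0), (.ofNat 0, .ofNat 0), (.ofNat 0, .ofNat 0), (.ofNat 0, .ofNat 0), (.ofNat 0, .ofNat 0), (.ofNat 1, .ofNat 0), (.ofNat 0, .ofNat 0), (.ofNat 0, .ofNat 0), (.ofNat 0, .ofNat 0)], [(.ofNat 0, .ofNat 0), (.ofNat 0, .ofNat 0), (.ofNat 0, .ofNat 0), (.ofNat 0, .ofNat 0), (.ofNat 0, .ofNat 0), (.ofNat 0, .ofNat 0), (.ofNat 0, .ofNat 0), (.ofNat 0, .ofNat 0), (.ofNat 0, .ofNat 0), (.ofNat 0, .ofNat 0), (.ofNat 0, .ofNat 0), (.ofNat 1, .ofNat 0), (.ofNat 0, .ofNat 0), (.ofNat 0, .ofNat 0)], [(.ofNat 0, .ofNat 0), (.ofNat 0, .ofNat 0), (.ofNat 0, .ofNat 0), (.ofNat 0, .ofNat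 0), (.ofNat 0, .ofNat 0), (.ofNat 0, .ofNat 0), (.ofNat 0, .ofNat 0), (.ofNat 0, .ofNat 0), (.ofNat 0, .ofNat 0), (.ofNat 0, .ofNat 0), (.ofNat 0, .ofNat 0), (.ofNat 0, .ofNat 0), (.ofNat 1, .ofNat 0), (.ofNat 0, .ofNat 0)], [(.ofNat 0, .ofNat 0), (.ofNat 0, .ofNat 0), (.ofNat 0, .ofNat 0), (.ofNat 0, .ofNat 0), (.ofNat 0, .ofNat 0), (.ofNat 0, .ofNat 0), (.ofNat 0, .ofNat 0), (.ofNat 0, .ofNat 0), (.ofNat 0, .ofNat 0), (.ofNat 0, .ofNat 0), (.ofNat 0, .ofNat 0), (.ofNat 0, .ofNat 0), (.ofNat 0, .ofNat 0), (.ofNat 1, .ofNat 0)]], [[(.negSucc 1078, .ofNat 599), (.negSucc 7786, .negSucc 2079), (.ofNat 12480, .negSucc 19733), (.ofNat 72358, .negSucc 8865), (.ofNat 22165, .ofNat 52910), (.negSucc 95237, .ofNat 45045), (.negSucc 60059, .negSucc 22307), (.ofNat 22308, .negSucc 27455), (.ofNat 20592, .negSucc 1286), (.ofNat 715, .ofNat 3575), (.negSucc 1429, .ofNat 572), (.negSucc 155, .negSucc 77), (.ofNat 13, .negSucc 12), (.ofNat 1, .ofNat 0)], [(.negSucc 598, .negSucc 159), (.ofNat 1920, .negSucc 3035), (.ofNat 16698,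 .negSucc 2045), (.ofNat 6820, .ofNat 16280), (.negSucc 36629, .ofNat 17325), (.negSucc 27719, .negSucc 10295), (.ofNat 12012, .negSucc 14783), (.ofNat 12672, .negSucc 791), (.ofNat 495, .ofNat 2475), (.negSucc 1099, .ofNat 440), (.negSucc 131, .negSucc 65), (.ofNat 12, .negSucc 11), (.ofNat 1, .ofNat 0), (.ofNat 0, .ofNat 0)], [(.ofNat 160, .negSucc 252), (.ofNat 2783, .negSucc 340), (.ofNat 1705, .ofNat 4070), (.negSucc 12209, .ofNat 5775), (.negSucc 11549, .negSucc 4289), (.ofNat 6006, .negSucc 7391), (.ofNat 7392, .negSucc 461), (.ofNat 330, .ofNat 1650), (.negSucc 824, .ofNat 330), (.negSucc 109, .negSucc 54), (.ofNat 11, .negSucc 10), (.ofNat 1, .ofNat 0), (.ofNat 0, .ofNat 0), (.ofNat 0, .ofNat 0)], [(.ofNat 253, .negSucc 30), (.ofNat 310, .ofNat 740), (.negSucc 3329, .ofNat 1575), (.negSucc 4199, .negSucc 1559), (.ofNat 2730, .negSucc 3359), (.ofNat 4032, .negSucc 251), (.ofNat 210, .ofNat 1050), (.negSucc 599, .ofNat 240), (.negSucc 89, .negSucc 44), (.ofNat 10, .negSucc 9), (.ofNat 1, .ofNat 0), (.ofNat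 0, .ofNat 0), (.ofNat 0, .ofNat 0), (.ofNat 0, .ofNat 0)], [(.ofNat 31, .ofNat 74), (.negSucc 665, .ofNat 315), (.negSucc 1259, .negSucc 467), (.ofNat 1092, .negSucc 1343), (.ofNat 2016, .negSucc 125), (.ofNat 126, .ofNat 630), (.negSucc 419, .ofNat 168), (.negSucc 71, .negSucc 35), (.ofNat 9, .negSucc 8), (.ofNat 1, .ofNat 0), (.ofNat 0, .ofNat 0), (.ofNat 0, .ofNat 0), (.ofNat 0, .ofNat 0), (.ofNat 0, .ofNat 0)], [(.negSucc 73, .ofNat 35), (.negSucc 279, .negSucc 103), (.ofNat 364, .negSucc 447), (.ofNat 896, .negSucc 55), (.ofNat 70, .ofNat 350), (.negSucc 279, .ofNat 112), (.negSucc 55, .negSucc 27), (.ofNat 8, .negSucc 7), (.ofNat 1, .ofNat 0), (.ofNat 0, .ofNat 0), (.ofNat 0, .ofNat 0), (.ofNat 0, .ofNat 0), (.ofNat 0, .ofNat 0), (.ofNat 0, .ofNat 0)], [(.negSucc 34, .negSucc 12), (.ofNat 91, .negSucc 111), (.ofNat 336, .negSucc 20), (.ofNat 35, .ofNat 175), (.negSucc 174, .ofNat 70), (.negSucc 41, .negSucc 20), (.ofNat 7, .negSucc 6), (.ofNat 1, .ofNat 0), (.ofNat 0, .ofNat 0), (.ofNat 0, .ofNat 0), (.ofNat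 0, .ofNat 0), (.ofNat 0, .ofNat 0), (.ofNat 0, .ofNat 0), (.ofNat 0, .ofNat 0)], [(.ofNat 13, .negSucc 15), (.ofNat 96, .negSucc 5), (.ofNat 15, .ofNat 75), (.negSucc 99, .ofNat 40), (.negSucc 29, .negSucc 14), (.ofNat 6, .negSucc 5), (.ofNat 1, .ofNat 0), (.ofNat 0, .ofNat 0), (.ofNat 0, .ofNat 0), (.ofNat 0, .ofNat 0), (.ofNat 0, .ofNat 0), (.ofNat 0, .ofNat 0), (.ofNat 0, .ofNat 0), (.ofNat 0, .ofNat 0)], [(.ofNat 16, .negSucc 0), (.ofNat 5, .ofNat 25), (.negSucc 49, .ofNat 20), (.negSucc 19, .negSucc 9), (.ofNat 5, .negSucc 4), (.ofNat 1, .ofNat 0), (.ofNat 0, .ofNat 0), (.ofNat 0, .ofNat 0), (.ofNat 0, .ofNat 0), (.ofNat 0, .ofNat 0), (.ofNat 0, .ofNat 0), (.ofNat 0, .ofNat 0), (.ofNat 0, .ofNat 0), (.ofNat 0, .ofNat 0)], [(.ofNat 1, .ofNat 5), (.negSucc 19, .ofNat 8), (.negSucc 11, .negSucc 5), (.ofNat 4, .negSucc 3), (.ofNat 1, .ofNat 0), (.ofNat 0, .ofNat 0), (.ofNat 0, .ofNat 0), (.ofNat 0, .ofNat 0), (.ofNat 0, .ofNat 0), (.ofNat 0, .ofNat 0), (.ofNat 0, .ofNat 0), (.ofNat 0, .ofNat 0), (.ofNat 0, .ofNat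 0), (.ofNat 0, .ofNat 0)], [(.negSucc 4, .ofNat 2), (.negSucc 5, .negSucc 2), (.ofNat 3, .negSucc 2), (.ofNat 1, .ofNat 0), (.ofNat 0, .ofNat 0), (.ofNat 0, .ofNat 0), (.ofNat 0, .ofNat 0), (.ofNat 0, .ofNat 0), (.ofNat 0, .ofNat 0), (.ofNat 0, .ofNat 0), (.ofNat 0, .ofNat 0), (.ofNat 0, .ofNat 0), (.ofNat 0, .ofNat 0), (.ofNat 0, .ofNat 0)], [(.negSucc 1, .negSucc 0), (.ofNat 2, .negSucc 1), (.ofNat 1, .ofNat 0), (.ofNat 0, .ofNat 0), (.ofNat 0, .ofNat 0), (.ofNat 0, .ofNat 0), (.ofNat 0, .ofNat 0), (.ofNat 0, .ofNat 0), (.ofNat 0, .ofNat 0), (.ofNat 0, .ofNat 0), (.ofNat 0, .ofNat 0), (.ofNat 0, .ofNat 0), (.ofNat 0, .ofNat 0), (.ofNat 0, .ofNat 0)], [(.ofNat 1, .negSucc 0), (.ofNat 1, .ofNat 0), (.ofNat 0, .ofNat 0), (.ofNat 0, .ofNat 0), (.ofNat 0, .ofNat 0), (.ofNat 0, .ofNat 0), (.ofNat 0, .ofNat 0), (.ofNat 0, .ofNat 0), (.ofNat 0, .ofNat 0), (.ofNat 0, .ofNat 0), (.ofNat 0, .ofNat 0), (.ofNat 0, .ofNat 0), (.ofNat 0, .ofNat 0), (.ofNat 0, .ofNat 0)], [(.ofNat 1, .ofNat 0), (.ofNat 0, .ofNat 0), (.ofNat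 0, .ofNat 0), (.ofNat 0, .ofNat 0), (.ofNat 0, .ofNat 0), (.ofNat 0, .ofNat 0), (.ofNat 0, .ofNat 0), (.ofNat 0, .ofNat 0), (.ofNat 0, .ofNat 0), (.ofNat 0, .ofNat 0), (.ofNat 0, .ofNat 0), (.ofNat 0, .ofNat 0), (.ofNat 0, .ofNat 0), (.ofNat 0, .ofNat 0)]], [[(.ofNat 8192, .ofNat 0), (.ofNat 0, .ofNat 53248), (.negSucc 479231, .ofNat 159744), (.negSucc 878591, .negSucc 585727), (.ofNat 2196480, .negSucc 1830399), (.ofNat 4942080, .ofNat 329472), (.negSucc 658943, .ofNat 3514368), (.negSucc 5271551, .ofNat 1427712), (.negSucc 1606175, .negSucc 1441439), (.ofNat 1201200, .negSucc 846559), (.ofNat 507936, .ofNat 70928), (.negSucc 29015, .ofNat 78936), (.negSucc 19733, .ofNat 4160), (.negSucc 479, .negSucc 598)], [(.ofNat 4096, .negSucc 4095), (.ofNat 77824, .ofNat 0), (.ofNat 0, .ofNat 227328), (.negSucc 1216511, .ofNat 405504), (.negSucc 1478399, .negSucc 985599), (.ofNat 2585088, .negSucc 2154239), (.ofNat 4181760, .ofNat 278784), (.negSucc 405503, .ofNat 2162688), (.negSucc 2356991, .ofNat 638352), (.negSucc 514799,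 .negSucc 461999), (.ofNat 267960, .negSucc 188847), (.ofNat 74592, .ofNat 10416), (.negSucc 2510, .ofNat 6831), (.negSucc 758, .ofNat 160)], [(.negSucc 4095, .negSucc 2047), (.ofNat 37888, .negSucc 37887), (.ofNat 323072, .ofNat 0), (.ofNat 0, .ofNat 560384), (.negSucc 1985279, .ofNat 661760), (.negSucc 1685375, .negSucc 1123583), (.ofNat 2116224, .negSucc 1763519), (.ofNat 2486880, .ofNat 165792), (.negSucc 175031, .ofNat 933504), (.negSucc 728639, .ofNat 197340), (.negSucc 110681, .negSucc 99329), (.ofNat 37905, .negSucc 26713), (.ofNat 6216, .ofNat 868), (.negSucc 92, .ofNat 253)], [(.negSucc 5119, .ofNat 2048), (.negSucc 36863, .negSucc 18431), (.ofNat 152832, .negSucc 152831), (.ofNat 772864, .ofNat 0), (.ofNat 0, .ofNat 886400), (.negSucc 2191103, .ofNat 730368), (.negSucc 1334303, .negSucc 889535), (.ofNat 1215936, .negSucc 1013279), (.ofNat 1036260, .ofNat 69084), (.negSucc 52199, .ofNat 278400), (.negSucc 151055, .ofNat 40911), (.negSucc 15092, .negSucc 13544), (.ofNat 3045, .negSucc 2145), (.ofNat 222,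 .ofNat 31)], [(.ofNat 512, .ofNat 2560), (.negSucc 44799, .ofNat 17920), (.negSucc 144383, .negSucc 72191), (.ofNat 354560, .negSucc 354559), (.ofNat 1184192, .ofNat 0), (.ofNat 0, .ofNat 946656), (.negSucc 1677023, .ofNat 559008), (.negSucc 740591, .negSucc 493727), (.ofNat 489132, .negSucc 407609), (.ofNat 298215, .ofNat 19881), (.negSucc 10439, .ofNat 55680), (.negSucc 19871, .ofNat 5382), (.negSucc 1169, .negSucc 1049), (.ofNat 105, .negSucc 73)], [(.ofNat 4096, .negSucc 255), (.ofNat 4352, .ofNat 21760), (.negSucc 170239, .ofNat 68096), (.negSucc 324607, .negSucc 162303), (.ofNat 525920, .negSucc 525919), (.ofNat 1223200, .ofNat 0), (.ofNat 0, .ofNat 700240), (.negSucc 899039, .ofNat 299680), (.negSucc 287624, .negSucc 191749), (.ofNat 135870, .negSucc 113224), (.ofNat 57570, .ofNat 3838), (.negSucc 1325, .ofNat 7072), (.negSucc 1487, .ofNat 403), (.negSucc 38, .negSucc 34)], [(.ofNat 1664, .negSucc 2047), (.ofNat 33792, .negSucc 2111), (.ofNat 16032, .ofNat 80160), (.negSucc 370639, .ofNat 148256), (.negSucc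 465839, .negSucc 232919), (.ofNat 525180, .negSucc 525179), (.ofNat 874190, .ofNat 0), (.ofNat 0, .ofNat 362545), (.negSucc 337139, .ofNat 112380), (.negSucc 77144, .negSucc 51429), (.ofNat 25332, .negSucc 21109), (.ofNat 7065, .ofNat 471), (.negSucc 95, .ofNat 512), (.negSucc 47, .ofNat 13)], [(.negSucc 2239, .negSucc 831), (.ofNat 13312, .negSucc 16383), (.ofNat 120576, .negSucc 7535), (.ofNat 33776, .ofNat 168880), (.negSucc 514299, .ofNat 205720), (.negSucc 449519, .negSucc 224759), (.ofNat 362545, .negSucc 362544), (.ofNat 437095, .ofNat 0), (.ofNat 0, .ofNat 131295), (.negSucc 87344, .ofNat 29115), (.negSucc 13898, .negSucc 9265), (.ofNat 3006, .negSucc 2504), (.ofNat 495, .ofNat 33), (.negSucc 2, .ofNat 16)], [(.negSucc 2367, .ofNat 1120), (.negSucc 17359, .negSucc 6447), (.ofNat 45968, .negSucc 56575), (.ofNat 245632, .negSucc 15351), (.ofNat 45290, .ofNat 226450), (.negSucc 479374, .ofNat 191750), (.negSucc 299679, .negSucc 149839), (.ofNat 175060, .negSucc 175059), (.ofNat 152900, .ofNat 0), (.ofNat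 0, .ofNat 32870), (.negSucc 15215, .ofNat 5072), (.negSucc 1595, .negSucc 1063), (.ofNat 204, .negSucc 169), (.ofNat 15, .ofNat 1)], [(.ofNat 496, .ofNat 1184), (.negSucc 17759, .ofNat 8400), (.negSucc 57959, .negSucc 21527), (.ofNat 90480, .negSucc 111359), (.ofNat 318096, .negSucc 19880), (.ofNat 40761, .ofNat 203805), (.negSucc 308579, .ofNat 123432), (.negSucc 139751, .negSucc 69875), (.ofNat 59166, .negSucc 59165), (.ofNat 37006, .ofNat 0), (.ofNat 0, .ofNat 5540), (.negSucc 1691, .ofNat 564), (.negSucc 104, .negSucc 69), (.ofNat 6, .negSucc 4)], [(.ofNat 2024, .negSucc 247), (.ofNat 3596, .ofNat 8584), (.negSucc 57275, .ofNat 27090), (.negSucc 110144, .negSucc 40910), (.ofNat 113100, .negSucc 139199), (.ofNat 276336, .negSucc 17270), (.ofNat 25332, .ofNat 126660), (.negSucc 138989, .ofNat 55596), (.negSucc 45647, .negSucc 22823), (.ofNat 13850, .negSucc 13849), (.ofNat 6038, .ofNat 0), (.ofNat 0, .ofNat 597), (.negSucc 107, .ofNat 36), (.negSucc 2, .negSucc 1)], [(.ofNat 640, .negSucc 1011), (.ofNat 14168,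 .negSucc 1735), (.ofNat 11191, .ofNat 26714), (.negSucc 105005, .ofNat 49665), (.negSucc 132824, .negSucc 49334), (.ofNat 94809, .negSucc 116687), (.ofNat 165792, .negSucc 10361), (.ofNat 11022, .ofNat 55110), (.negSucc 43889, .ofNat 17556), (.negSucc 10339, .negSucc 5169), (.ofNat 2189, .negSucc 2188), (.ofNat 631, .ofNat 0), (.ofNat 0, .ofNat 37), (.negSucc 2, .ofNat 1)], [(.negSucc 1197, .negSucc 319), (.ofNat 4320, .negSucc 6830), (.ofNat 42504, .negSucc 5207), (.ofNat 19778, .ofNat 47212), (.negSucc 122099, .ofNat 57750), (.negSucc 107414, .negSucc 39896), (.ofNat 54912, .negSucc 67583), (.ofNat 69696, .negSucc 4355), (.ofNat 3366, .ofNat 16830), (.negSucc 9624, .ofNat 3850), (.negSucc 1583, .negSucc 791), (.ofNat 222, .negSucc 221), (.ofNat 38, .ofNat 0), (.ofNat 0, .ofNat 1)], [(.negSucc 1078, .ofNat 599), (.negSucc 7786, .negSucc 2079), (.ofNat 12480, .negSucc 19733), (.ofNat 72358, .negSucc 8865), (.ofNat 22165, .ofNat 52910), (.negSucc 95237, .ofNat 45045), (.negSucc 60059, .negSucc 22307), (.ofNat 22308,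 .negSucc 27455), (.ofNat 20592, .negSucc 1286), (.ofNat 715, .ofNat 3575), (.negSucc 1429, .ofNat 572), (.negSucc 155, .negSucc 77), (.ofNat 13, .negSucc 12), (.ofNat 1, .ofNat 0)]], [[(.negSucc 1078, .ofNat 599), (.negSucc 15573, .negSucc 4159), (.ofNat 49920, .negSucc 78935), (.ofNat 578864, .negSucc 70927), (.ofNat 354640, .ofNat 846560), (.negSucc 3047615, .ofNat 1441440), (.negSucc 3843839, .negSucc 1427711), (.ofNat 2855424, .negSucc 3514367), (.ofNat 5271552, .negSucc 329471), (.ofNat 366080, .ofNat 1830400), (.negSucc 1464319, .ofNat 585728), (.negSucc 319487, .negSucc 159743), (.ofNat 53248, .negSucc 53247), (.ofNat 8192, .ofNat 0)], [(.negSucc 1197, .negSucc 319), (.ofNat 8160, .negSucc 12902), (.ofNat 151800, .negSucc 18599), (.ofNat 133672, .ofNat 319088), (.negSucc 1562879, .ofNat 739200), (.negSucc 2605679, .negSucc 967823), (.ofNat 2525952, .negSucc 3108863), (.ofNat 6082560, .negSucc 380159), (.ofNat 557568, .ofNat 2787840), (.negSucc 3027199, .ofNat 1210880), (.negSucc 946175, .negSucc 473087),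 (.ofNat 251904, .negSucc 251903), (.ofNat 81920, .ofNat 0), (.ofNat 0, .ofNat 4096)], [(.ofNat 640, .negSucc 1011), (.ofNat 25300, .negSucc 3099), (.ofNat 35743, .ofNat 85322), (.negSucc 600731, .ofNat 284130), (.negSucc 1362899, .negSucc 506219), (.ofNat 1746888, .negSucc 2150015), (.ofNat 5491200, .negSucc 343199), (.ofNat 656832, .ofNat 3284160), (.negSucc 4709759, .ofNat 1883904), (.negSucc 1999359, .negSucc 999679), (.ofNat 763136, .negSucc 763135), (.ofNat 396800, .ofNat 0), (.ofNat 0, .ofNat 41984), (.negSucc 6143, .ofNat 2048)], [(.ofNat 2024, .negSucc 247), (.ofNat 6076, .ofNat 14504), (.negSucc 163835, .ofNat 77490), (.negSucc 534344, .negSucc 198470), (.ofNat 932100, .negSucc 1147199), (.ofNat 3874752, .negSucc 242171), (.ofNat 605184, .ofNat 3025920), (.negSucc 5664479, .ofNat 2265792), (.negSucc 3177215, .negSucc 1588607), (.ofNat 1648000, .negSucc 1647999), (.ofNat 1229312, .ofNat 0), (.ofNat 0, .ofNat 208128), (.negSucc 64511, .ofNat 21504), (.negSucc 3071, .negSucc 2047)], [(.ofNat 496, .ofNat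 1184), (.negSucc 28415, .ofNat 13440), (.negSucc 148679, .negSucc 55223), (.ofNat 372840, .negSucc 458879), (.ofNat 2109456, .negSucc 131840), (.ofNat 435762, .ofNat 2178810), (.negSucc 5326799, .ofNat 2130720), (.negSucc 3901247, .negSucc 1950623), (.ofNat 2674656, .negSucc 2674655), (.ofNat 2712512, .ofNat 0), (.ofNat 0, .ofNat 659200), (.negSucc 327167, .ofNat 109056), (.negSucc 33023, .negSucc 22015), (.ofNat 3072, .negSucc 2559)], [(.negSucc 2367, .ofNat 1120), (.negSucc 26319, .negSucc 9775), (.ofNat 105872, .negSucc 130303), (.ofNat 861056, .negSucc 53815), (.ofNat 242090, .ofNat 1210450), (.negSucc 3914334, .ofNat 1565734), (.negSucc 3744543, .negSucc 1872271), (.ofNat 3352784, .negSucc 3352783), (.ofNat 4495616, .ofNat 0), (.ofNat 0, .ofNat 1485920), (.negSucc 1059071, .ofNat 353024), (.negSucc 171263, .negSucc 114175), (.ofNat 33792, .negSucc 28159), (.ofNat 3840, .ofNat 256)], [(.negSucc 2239, .negSucc 831), (.ofNat 19136, .negSucc 23551), (.ofNat 249600, .negSucc 15599), (.ofNat 100864, .ofNat 504320),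 (.negSucc 2219499, .ofNat 887800), (.negSucc 2808407, .negSucc 1404203), (.ofNat 3284737, .negSucc 3284736), (.ofNat 5752910, .ofNat 0), (.ofNat 0, .ofNat 2514588), (.negSucc 2438279, .ofNat 812760), (.negSucc 566447, .negSucc 377631), (.ofNat 179136, .negSucc 149279), (.ofNat 43200, .ofNat 2880), (.negSucc 383, .ofNat 2048)], [(.ofNat 1664, .negSucc 2047), (.ofNat 46080, .negSucc 2879), (.ofNat 29856, .ofNat 149280), (.negSucc 944079, .ofNat 377632), (.negSucc 1625519, .negSucc 812759), (.ofNat 2514588, .negSucc 2514587), (.ofNat 5752910, .ofNat 0), (.ofNat 0, .ofNat 3284737), (.negSucc 4212611, .ofNat 1404204), (.negSucc 1331699, .negSucc 887799), (.ofNat 605184, .negSucc 504319), (.ofNat 234000, .ofNat 15600), (.negSucc 4415, .ofNat 23552), (.negSucc 3071, .ofNat 832)], [(.ofNat 4096, .negSucc 255), (.ofNat 5632, .ofNat 28160), (.negSucc 285439, .ofNat 114176), (.negSucc 706047, .negSucc 353023), (.ofNat 1485920, .negSucc 1485919), (.ofNat 4495616, .ofNat 0), (.ofNat 0, .ofNat 3352784), (.negSucc 5616815, .ofNat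 1872272), (.negSucc 2348600, .negSucc 1565733), (.ofNat 1452540, .negSucc 1210449), (.ofNat 807240, .ofNat 53816), (.negSucc 24431, .ofNat 130304), (.negSucc 36095, .ofNat 9776), (.negSucc 1247, .negSucc 1119)], [(.ofNat 512, .ofNat 2560), (.negSucc 55039, .ofNat 22016), (.negSucc 218111, .negSucc 109055), (.ofNat 659200, .negSucc 659199), (.ofNat 2712512, .ofNat 0), (.ofNat 0, .ofNat 2674656), (.negSucc 5851871, .ofNat 1950624), (.negSucc 3196079, .negSucc 2130719), (.ofNat 2614572, .negSucc 2178809), (.ofNat 1977615, .ofNat 131841), (.negSucc 86039, .ofNat 458880), (.negSucc 203903, .ofNat 55224), (.negSucc 14975, .negSucc 13439), (.ofNat 1680, .negSucc 1183)], [(.negSucc 5119, .ofNat 2048), (.negSucc 43007, .negSucc 21503), (.ofNat 208128, .negSucc 208127), (.ofNat 1229312, .ofNat 0), (.ofNat 0, .ofNat 1648000), (.negSucc 4765823, .ofNat 1588608), (.negSucc 3398687, .negSucc 2265791), (.ofNat 3631104, .negSucc 3025919), (.ofNat 3632580, .ofNat 242172), (.negSucc 215099, .ofNat 1147200), (.negSucc 732815, .ofNat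 198471), (.negSucc 86345, .negSucc 77489), (.ofNat 20580, .negSucc 14503), (.ofNat 1776, .ofNat 248)], [(.negSucc 4095, .negSucc 2047), (.ofNat 41984, .negSucc 41983), (.ofNat 396800, .ofNat 0), (.ofNat 0, .ofNat 763136), (.negSucc 2999039, .ofNat 999680), (.negSucc 2825855, .negSucc 1883903), (.ofNat 3940992, .negSucc 3284159), (.ofNat 5148000, .ofNat 343200), (.negSucc 403127, .ofNat 2150016), (.negSucc 1869119, .ofNat 506220), (.negSucc 316601, .negSucc 284129), (.ofNat 121065, .negSucc 85321), (.ofNat 22200, .ofNat 3100), (.negSucc 371, .ofNat 1012)], [(.ofNat 4096, .negSucc 4095), (.ofNat 81920, .ofNat 0), (.ofNat 0, .ofNat 251904), (.negSucc 1419263, .ofNat 473088), (.negSucc 1816319, .negSucc 1210879), (.ofNat 3345408, .negSucc 2787839), (.ofNat 5702400, .ofNat 380160), (.negSucc 582911, .ofNat 3108864), (.negSucc 3573503, .ofNat 967824), (.negSucc 823679, .negSucc 739199), (.ofNat 452760, .negSucc 319087), (.ofNat 133200, .ofNat 18600), (.negSucc 4742, .ofNat 12903), (.negSucc 1517, .ofNat 320)], [(.ofNat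 8192, .ofNat 0), (.ofNat 0, .ofNat 53248), (.negSucc 479231, .ofNat 159744), (.negSucc 878591, .negSucc 585727), (.ofNat 2196480, .negSucc 1830399), (.ofNat 4942080, .ofNat 329472), (.negSucc 658943, .ofNat 3514368), (.negSucc 5271551, .ofNat 1427712), (.negSucc 1606175, .negSucc 1441439), (.ofNat 1201200, .negSucc 846559), (.ofNat 507936, .ofNat 70928), (.negSucc 29015, .ofNat 78936), (.negSucc 19733, .ofNat 4160), (.negSucc 479, .negSucc 598)]], [[(.ofNat 1, .ofNat 0), (.ofNat 0, .ofNat 13), (.negSucc 233, .ofNat 78), (.negSucc 857, .negSucc 571), (.ofNat 4290, .negSucc 3574), (.ofNat 19305, .ofNat 1287), (.negSucc 5147, .ofNat 27456), (.negSucc 82367, .ofNat 22308), (.negSucc 50192, .negSucc 45044), (.ofNat 75075, .negSucc 52909), (.ofNat 63492, .ofNat 8866), (.negSucc 7253, .ofNat 19734), (.negSucc 9866, .ofNat 2080), (.negSucc 479, .negSucc 598)], [(.ofNat 1, .negSucc 0), (.ofNat 38, .ofNat 0), (.ofNat 0, .ofNat 222), (.negSucc 2375, .ofNat 792), (.negSucc 5774, .negSucc 3849), (.ofNat 20196, .negSucc 16829),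 (.ofNat 65340, .ofNat 4356), (.negSucc 12671, .ofNat 67584), (.negSucc 147311, .ofNat 39897), (.negSucc 64349, .negSucc 57749), (.ofNat 66990, .negSucc 47211), (.ofNat 37296, .ofNat 5208), (.negSucc 2510, .ofNat 6831), (.negSucc 1517, .ofNat 320)], [(.negSucc 1, .negSucc 0), (.ofNat 37, .negSucc 36), (.ofNat 631, .ofNat 0), (.ofNat 0, .ofNat 2189), (.negSucc 15509, .ofNat 5170), (.negSucc 26333, .negSucc 17555), (.ofNat 66132, .negSucc 55109), (.ofNat 155430, .ofNat 10362), (.negSucc 21878, .ofNat 116688), (.negSucc 182159, .ofNat 49335), (.negSucc 55340, .negSucc 49664), (.ofNat 37905, .negSucc 26713), (.ofNat 12432, .ofNat 1736), (.negSucc 371, .ofNat 1012)], [(.negSucc 4, .ofNat 2), (.negSucc 71, .negSucc 35), (.ofNat 597, .negSucc 596), (.ofNat 6038, .ofNat 0), (.ofNat 0, .ofNat 13850), (.negSucc 68471, .ofNat 22824), (.negSucc 83393, .negSucc 55595), (.ofNat 151992, .negSucc 126659), (.ofNat 259065, .ofNat 17271), (.negSucc 26099, .ofNat 139200), (.negSucc 151055, .ofNat 40911), (.negSucc 30185, .negSucc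 27089), (.ofNat 12180, .negSucc 8583), (.ofNat 1776, .ofNat 248)], [(.ofNat 1, .ofNat 5), (.negSucc 174, .ofNat 70), (.negSucc 1127, .negSucc 563), (.ofNat 5540, .negSucc 5539), (.ofNat 37006, .ofNat 0), (.ofNat 0, .ofNat 59166), (.negSucc 209627, .ofNat 69876), (.negSucc 185147, .negSucc 123431), (.ofNat 244566, .negSucc 203804), (.ofNat 298215, .ofNat 19881), (.negSucc 20879, .ofNat 111360), (.negSucc 79487, .ofNat 21528), (.negSucc 9359, .negSucc 8399), (.ofNat 1680, .negSucc 1183)], [(.ofNat 16, .negSucc 0), (.ofNat 34, .ofNat 170), (.negSucc 2659, .ofNat 1064), (.negSucc 10143, .negSucc 5071), (.ofNat 32870, .negSucc 32869), (.ofNat 152900, .ofNat 0), (.ofNat 0, .ofNat 175060), (.negSucc 449519, .ofNat 149840), (.negSucc 287624, .negSucc 191749), (.ofNat 271740, .negSucc 226449), (.ofNat 230280, .ofNat 15352), (.negSucc 10607, .ofNat 56576), (.negSucc 23807, .ofNat 6448), (.negSucc 1247, .negSucc 1119)], [(.ofNat 13, .negSucc 15), (.ofNat 528, .negSucc 32), (.ofNat 501, .ofNat 2505), (.negSucc 23164, .ofNat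 9266), (.negSucc 58229, .negSucc 29114), (.ofNat 131295, .negSucc 131294), (.ofNat 437095, .ofNat 0), (.ofNat 0, .ofNat 362545), (.negSucc 674279, .ofNat 224760), (.negSucc 308579, .negSucc 205719), (.ofNat 202656, .negSucc 168879), (.ofNat 113040, .ofNat 7536), (.negSucc 3071, .ofNat 16384), (.negSucc 3071, .ofNat 832)], [(.negSucc 34, .negSucc 12), (.ofNat 416, .negSucc 511), (.ofNat 7536, .negSucc 470), (.ofNat 4222, .ofNat 21110), (.negSucc 128574, .ofNat 51430), (.negSucc 224759, .negSucc 112379), (.ofNat 362545, .negSucc 362544), (.ofNat 874190, .ofNat 0), (.ofNat 0, .ofNat 525180), (.negSucc 698759, .ofNat 232920), (.negSucc 222383, .negSucc 148255), (.ofNat 96192, .negSucc 80159), (.ofNat 31680, .ofNat 2112), (.negSucc 383, .ofNat 2048)], [(.negSucc 73, .ofNat 35), (.negSucc 1084, .negSucc 402), (.ofNat 5746, .negSucc 7071), (.ofNat 61408, .negSucc 3837), (.ofNat 22645, .ofNat 113225), (.negSucc 479374, .ofNat 191750), (.negSucc 599359, .negSucc 299679), (.ofNat 700240, .negSucc 700239), (.ofNat 1223200,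 .ofNat 0), (.ofNat 0, .ofNat 525920), (.negSucc 486911, .ofNat 162304), (.negSucc 102143, .negSucc 68095), (.ofNat 26112, .negSucc 21759), (.ofNat 3840, .ofNat 256)], [(.ofNat 31, .ofNat 74), (.negSucc 2219, .ofNat 1050), (.negSucc 14489, .negSucc 5381), (.ofNat 45240, .negSucc 55679), (.ofNat 318096, .negSucc 19880), (.ofNat 81522, .ofNat 407610), (.negSucc 1234319, .ofNat 493728), (.negSucc 1118015, .negSucc 559007), (.ofNat 946656, .negSucc 946655), (.ofNat 1184192, .ofNat 0), (.ofNat 0, .ofNat 354560), (.negSucc 216575, .ofNat 72192), (.negSucc 26879, .negSucc 17919), (.ofNat 3072, .negSucc 2559)], [(.ofNat 253, .negSucc 30), (.ofNat 899, .ofNat 2146), (.negSucc 28637, .ofNat 13545), (.negSucc 110144, .negSucc 40910), (.ofNat 226200, .negSucc 278399), (.ofNat 1105344, .negSucc 69083), (.ofNat 202656, .ofNat 1013280), (.negSucc 2223839, .ofNat 889536), (.negSucc 1460735, .negSucc 730367), (.ofNat 886400, .negSucc 886399), (.ofNat 772864, .ofNat 0), (.ofNat 0, .ofNat 152832), (.negSucc 55295, .ofNat 18432),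 (.negSucc 3071, .negSucc 2047)], [(.ofNat 160, .negSucc 252), (.ofNat 7084, .negSucc 867), (.ofNat 11191, .ofNat 26714), (.negSucc 210011, .ofNat 99330), (.negSucc 531299, .negSucc 197339), (.ofNat 758472, .negSucc 933503), (.ofNat 2652672, .negSucc 165791), (.ofNat 352704, .ofNat 1763520), (.negSucc 2808959, .ofNat 1123584), (.negSucc 1323519, .negSucc 661759), (.ofNat 560384, .negSucc 560383), (.ofNat 323072, .ofNat 0), (.ofNat 0, .ofNat 37888), (.negSucc 6143, .ofNat 2048)], [(.negSucc 598, .negSucc 159), (.ofNat 4320, .negSucc 6830), (.ofNat 85008, .negSucc 10415), (.ofNat 79112, .ofNat 188848), (.negSucc 976799, .ofNat 462000), (.negSucc 1718639, .negSucc 638351), (.ofNat 1757184, .negSucc 2162687), (.ofNat 4460544, .negSucc 278783), (.ofNat 430848, .ofNat 2154240), (.negSucc 2463999, .ofNat 985600), (.negSucc 811007, .negSucc 405503), (.ofNat 227328, .negSucc 227327), (.ofNat 77824, .ofNat 0), (.ofNat 0, .ofNat 4096)], [(.negSucc 1078, .ofNat 599), (.negSucc 15573, .negSucc 4159), (.ofNat 49920, .negSucc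 78935), (.ofNat 578864, .negSucc 70927), (.ofNat 354640, .ofNat 846560), (.negSucc 3047615, .ofNat 1441440), (.negSucc 3843839, .negSucc 1427711), (.ofNat 2855424, .negSucc 3514367), (.ofNat 5271552, .negSucc 329471), (.ofNat 366080, .ofNat 1830400), (.negSucc 1464319, .ofNat 585728), (.negSucc 319487, .negSucc 159743), (.ofNat 53248, .negSucc 53247), (.ofNat 8192, .ofNat 0)]], [[(.ofNat 0, .ofNat 0), (.ofNat 0, .ofNat 0), (.ofNat 0, .ofNat 0), (.ofNat 0, .ofNat 0), (.ofNat 0, .ofNat 0), (.ofNat 0, .ofNat 0), (.ofNat 0, .ofNat 0), (.ofNat 0, .ofNat 0), (.ofNat 0, .ofNat 0), (.ofNat 0, .ofNat 0), (.ofNat 0, .ofNat 0), (.ofNat 0, .ofNat 0), (.ofNat 0, .ofNat 0), (.ofNat 1, .ofNat 0)], [(.ofNat 0, .ofNat 0), (.ofNat 0, .ofNat 0), (.ofNat 0, .ofNat 0), (.ofNat 0, .ofNat 0), (.ofNat 0, .ofNat 0), (.ofNat 0, .ofNat 0), (.ofNat 0, .ofNat 0), (.ofNat 0, .ofNat 0), (.ofNat 0, .ofNat 0), (.ofNat 0, .ofNat 0), (.ofNat 0, .ofNat 0), (.ofNat 0, .ofNat 0), (.ofNat 1, .ofNat 0), (.ofNat 0, .ofNat 1)], [(.ofNat 0, .ofNat 0),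 (.ofNat 0, .ofNat 0), (.ofNat 0, .ofNat 0), (.ofNat 0, .ofNat 0), (.ofNat 0, .ofNat 0), (.ofNat 0, .ofNat 0), (.ofNat 0, .ofNat 0), (.ofNat 0, .ofNat 0), (.ofNat 0, .ofNat 0), (.ofNat 0, .ofNat 0), (.ofNat 0, .ofNat 0), (.ofNat 1, .ofNat 0), (.ofNat 0, .ofNat 2), (.negSucc 2, .ofNat 1)], [(.ofNat 0, .ofNat 0), (.ofNat 0, .ofNat 0), (.ofNat 0, .ofNat 0), (.ofNat 0, .ofNat 0), (.ofNat 0, .ofNat 0), (.ofNat 0, .ofNat 0), (.ofNat 0, .ofNat 0), (.ofNat 0, .ofNat 0), (.ofNat 0, .ofNat 0), (.ofNat 0, .ofNat 0), (.ofNat 1, .ofNat 0), (.ofNat 0, .ofNat 3), (.negSucc 8, .ofNat 3), (.negSucc 2, .negSucc 1)], [(.ofNat 0, .ofNat 0), (.ofNat 0, .ofNat 0), (.ofNat 0, .ofNat 0), (.ofNat 0, .ofNat 0), (.ofNat 0, .ofNat 0), (.ofNat 0, .ofNat 0), (.ofNat 0, .ofNat 0), (.ofNat 0, .ofNat 0), (.ofNat 0, .ofNat 0), (.ofNat 1, .ofNat 0), (.ofNat 0, .ofNat 4), (.negSucc 17, .ofNat 6), (.negSucc 11, .negSucc 7), (.ofNat 6, .negSucc 4)], [(.ofNat 0, .ofNat 0), (.ofNat 0, .ofNat 0), (.ofNat 0, .ofNat 0), (.ofNat 0, .ofNat 0), (.ofNat 0,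 .ofNat 0), (.ofNat 0, .ofNat 0), (.ofNat 0, .ofNat 0), (.ofNat 0, .ofNat 0), (.ofNat 1, .ofNat 0), (.ofNat 0, .ofNat 5), (.negSucc 29, .ofNat 10), (.negSucc 29, .negSucc 19), (.ofNat 30, .negSucc 24), (.ofNat 15, .ofNat 1)], [(.ofNat 0, .ofNat 0), (.ofNat 0, .ofNat 0), (.ofNat 0, .ofNat 0), (.ofNat 0, .ofNat 0), (.ofNat 0, .ofNat 0), (.ofNat 0, .ofNat 0), (.ofNat 0, .ofNat 0), (.ofNat 1, .ofNat 0), (.ofNat 0, .ofNat 6), (.negSucc 44, .ofNat 15), (.negSucc 59, .negSucc 39), (.ofNat 90, .negSucc 74), (.ofNat 90, .ofNat 6), (.negSucc 2, .ofNat 16)], [(.ofNat 0, .ofNat 0), (.ofNat 0, .ofNat 0), (.ofNat 0, .ofNat 0), (.ofNat 0, .ofNat 0), (.ofNat 0, .ofNat 0), (.ofNat 0, .ofNat 0), (.ofNat 1, .ofNat 0), (.ofNat 0, .ofNat 7), (.negSucc 62, .ofNat 21), (.negSucc 104, .negSucc 69), (.ofNat 210, .negSucc 174), (.ofNat 315, .ofNat 21), (.negSucc 20, .ofNat 112), (.negSucc 47, .ofNat 13)], [(.ofNat 0, .ofNat 0), (.ofNat 0, .ofNat 0), (.ofNat 0, .ofNat 0), (.ofNat 0, .ofNat 0), (.ofNat 0, .ofNat 0), (.ofNat 1, .ofNat 0),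 (.ofNat 0, .ofNat 8), (.negSucc 83, .ofNat 28), (.negSucc 167, .negSucc 111), (.ofNat 420, .negSucc 349), (.ofNat 840, .ofNat 56), (.negSucc 83, .ofNat 448), (.negSucc 383, .ofNat 104), (.negSucc 38, .negSucc 34)], [(.ofNat 0, .ofNat 0), (.ofNat 0, .ofNat 0), (.ofNat 0, .ofNat 0), (.ofNat 0, .ofNat 0), (.ofNat 1, .ofNat 0), (.ofNat 0, .ofNat 9), (.negSucc 107, .ofNat 36), (.negSucc 251, .negSucc 167), (.ofNat 756, .negSucc 629), (.ofNat 1890, .ofNat 126), (.negSucc 251, .ofNat 1344), (.negSucc 1727, .ofNat 468), (.negSucc 350, .negSucc 314), (.ofNat 105, .negSucc 73)], [(.ofNat 0, .ofNat 0), (.ofNat 0, .ofNat 0), (.ofNat 0, .ofNat 0), (.ofNat 1, .ofNat 0), (.ofNat 0, .ofNat 10), (.negSucc 134, .ofNat 45), (.negSucc 359, .negSucc 239), (.ofNat 1260, .negSucc 1049), (.ofNat 3780, .ofNat 252), (.negSucc 629, .ofNat 3360), (.negSucc 5759, .ofNat 1560), (.negSucc 1754, .negSucc 1574), (.ofNat 1050, .negSucc 739), (.ofNat 222, .ofNat 31)], [(.ofNat 0, .ofNat 0), (.ofNat 0, .ofNat 0), (.ofNat 1, .ofNat 0), (.ofNat 0,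 .ofNat 11), (.negSucc 164, .ofNat 55), (.negSucc 494, .negSucc 329), (.ofNat 1980, .negSucc 1649), (.ofNat 6930, .ofNat 462), (.negSucc 1385, .ofNat 7392), (.negSucc 15839, .ofNat 4290), (.negSucc 6434, .negSucc 5774), (.ofNat 5775, .negSucc 4069), (.ofNat 2442, .ofNat 341), (.negSucc 92, .ofNat 253)], [(.ofNat 0, .ofNat 0), (.ofNat 1, .ofNat 0), (.ofNat 0, .ofNat 12), (.negSucc 197, .ofNat 66), (.negSucc 659, .negSucc 439), (.ofNat 2970, .negSucc 2474), (.ofNat 11880, .ofNat 792), (.negSucc 2771, .ofNat 14784), (.negSucc 38015, .ofNat 10296), (.negSucc 19304, .negSucc 17324), (.ofNat 23100, .negSucc 16279), (.ofNat 14652, .ofNat 2046), (.negSucc 1115, .ofNat 3036), (.negSucc 758, .ofNat 160)], [(.ofNat 1, .ofNat 0), (.ofNat 0, .ofNat 13), (.negSucc 233, .ofNat 78), (.negSucc 857, .negSucc 571), (.ofNat 4290, .negSucc 3574), (.ofNat 19305, .ofNat 1287), (.negSucc 5147, .ofNat 27456), (.negSucc 82367, .ofNat 22308), (.negSucc 50192, .negSucc 45044), (.ofNat 75075, .negSucc 52909), (.ofNat 63492, .ofNat 8866), (.negSucc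 7253, .ofNat 19734), (.negSucc 9866, .ofNat 2080), (.negSucc 479, .negSucc 598)]]]
  rws := [(0, 0, 1, 0), (0, 0, 3, 0), (0, 0, 5, 0), (0, 0, 10, 0), (0, 0, 11, 0), (0, 0, 12, 0), (0, 0, 13, 0), (0, 1, 2, 0), (0, 1, 9, 0), (0, 1, 10, 0), (0, 1, 11, 0), (0, 1, 12, 0), (0, 2, 3, 0), (0, 2, 5, 0), (0, 2, 10, 0), (0, 2, 11, 0), (0, 3, 9, 0), (0, 3, 10, 0), (1, 0, 1, 0), (1, 0, 1, 1), (1, 0, 13, 1), (1, 11, 0, 0)]
  cols := [((0, 2), [.ofNat 4, .ofNat 132, .ofNat 990, .negSucc 439, .ofNat 132, .negSucc 23, .ofNat 2, .ofNat 156, .negSucc 11439, .ofNat 5148, .negSucc 1559, .ofNat 286, .ofNat 3432, .ofNat 46332, .negSucc 27455, .ofNat 8424, .negSucc 188759, .ofNat 88088, .negSucc 7971549, .negSucc 37274509, .ofNat 12435374, .ofNat 1168917300]), ((0, 4), [.ofNat 8, .ofNat 206, .ofNat 1170, .negSucc 369, .ofNat 114, .negSucc 21, .ofNat 2, .ofNat 234, .negSucc 8059, .ofNat 3666, .negSucc 1169, .ofNat 234, .ofNat 3744, .ofNat 37206, .negSucc 16847, .ofNat 5616, .negSucc 95809, .ofNat 48048, .ofNat 74757950, .ofNat 40423750,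 .negSucc 18180417, .negSucc 2659398677]), ((0, 6), [.ofNat 12, .ofNat 271, .ofNat 1272, .negSucc 320, .ofNat 99, .negSucc 19, .ofNat 2, .ofNat 273, .negSucc 5459, .ofNat 2457, .negSucc 818, .ofNat 182, .ofNat 3276, .ofNat 25389, .negSucc 8735, .ofNat 3276, .negSucc 35034, .ofNat 20020, .negSucc 132031119, .negSucc 12091183, .ofNat 13385924, .ofNat 3374050050]), ((0, 8), [.ofNat 16, .ofNat 332, .ofNat 1342, .negSucc 295, .ofNat 88, .negSucc 17, .ofNat 2, .ofNat 260, .negSucc 3639, .ofNat 1560, .negSucc 519, .ofNat 130, .ofNat 2080, .ofNat 12792, .negSucc 3639, .ofNat 1560, .negSucc 8579, .ofNat 5720, .ofNat 142469210, .negSucc 30237229, .ofNat 4299662, .negSucc 2612543447]), ((0, 10), [.ofNat 20, .ofNat 405, .ofNat 1539, .negSucc 286, .ofNat 81, .negSucc 15, .ofNat 2, .ofNat 195, .negSucc 2144, .ofNat 871, .negSucc 272, .ofNat 78, .ofNat 780, .ofNat 3861, .negSucc 935, .ofNat 468, .negSucc 714, .ofNat 572, .negSucc 102139389, .ofNat 68150122, .negSucc 33850425, .ofNat 43070625]), ((0, 12), [.ofNat 24, .ofNat 506,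 .ofNat 2079, .negSucc 351, .ofNat 90, .negSucc 13, .ofNat 2, .ofNat 78, .negSucc 714, .ofNat 286, .negSucc 77, .ofNat 26, .ofNat 0, .ofNat 0, .ofNat 0, .ofNat 0, .ofNat 0, .ofNat 0, .ofNat 28770080, .negSucc 87719839, .ofNat 67648292, .ofNat 4023963792]), ((1, 3), [.ofNat 4, .ofNat 101, .ofNat 540, .negSucc 64, .ofNat 12, .negSucc 0, .ofNat 0, .ofNat 123, .negSucc 2289, .ofNat 768, .negSucc 164, .ofNat 20, .ofNat 1992, .ofNat 19548, .negSucc 4343, .ofNat 1080, .negSucc 37564, .ofNat 15400, .negSucc 34847849, .negSucc 34261169, .ofNat 13036392, .ofNat 1603860030]), ((1, 5), [.ofNat 8, .ofNat 174, .ofNat 737, .negSucc 65, .ofNat 12, .negSucc 0, .ofNat 0, .ofNat 202, .negSucc 1829, .ofNat 584, .negSucc 123, .ofNat 16, .ofNat 2464, .ofNat 18492, .negSucc 2519, .ofNat 672, .negSucc 16939, .ofNat 7392, .ofNat 95894670, .ofNat 39219990, .negSucc 19702619, .negSucc 3115277999]), ((1, 7), [.ofNat 12, .ofNat 235, .ofNat 807, .negSucc 65, .ofNat 12, .negSucc 0, .ofNat 0, .ofNat 237, .negSucc 1334, .ofNat 416, .negSucc 86,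 .ofNat 12, .ofNat 1980, .ofNat 11484, .negSucc 1229, .ofNat 360, .negSucc 5389, .ofNat 2640, .negSucc 138010319, .negSucc 15907823, .ofNat 15439572, .ofNat 3710864070]), ((1, 9), [.ofNat 16, .ofNat 300, .ofNat 918, .negSucc 65, .ofNat 12, .negSucc 0, .ofNat 0, .ofNat 228, .negSucc 880, .ofNat 268, .negSucc 53, .ofNat 8, .ofNat 1056, .ofNat 4752, .negSucc 443, .ofNat 144, .negSucc 945, .ofNat 528, .ofNat 138081930, .negSucc 22956989, .ofNat 2473560, .negSucc 2794610987]), ((1, 11), [.ofNat 20, .ofNat 385, .ofNat 1254, .negSucc 76, .ofNat 13, .negSucc 0, .ofNat 0, .ofNat 175, .negSucc 494, .ofNat 143, .negSucc 24, .ofNat 4, .ofNat 220, .ofNat 792, .negSucc 65, .ofNat 24, .ofNat 0, .ofNat 0, .negSucc 96668789, .ofNat 62404242, .negSucc 32864147, .ofNat 93253425]), ((2, 4), [.ofNat 4, .ofNat 85, .ofNat 336, .negSucc 10, .ofNat 1, .ofNat 0, .ofNat 0, .ofNat 107, .negSucc 483, .ofNat 99, .negSucc 8, .ofNat 0, .ofNat 1324, .ofNat 9711, .negSucc 479, .ofNat 72, .negSucc 5840, .ofNat 1848, .negSucc 49663529, .negSucc 31405265,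 .ofNat 13336272, .ofNat 1824052065]), ((2, 6), [.ofNat 8, .ofNat 150, .ofNat 447, .negSucc 10, .ofNat 1, .ofNat 0, .ofNat 0, .ofNat 178, .negSucc 384, .ofNat 77, .negSucc 6, .ofNat 0, .ofNat 1560, .ofNat 8553, .negSucc 265, .ofNat 42, .negSucc 2309, .ofNat 770, .ofNat 106605270, .ofNat 37692990, .negSucc 20454839, .negSucc 3343581758]), ((2, 8), [.ofNat 12, .ofNat 211, .ofNat 517, .negSucc 10, .ofNat 1, .ofNat 0, .ofNat 0, .ofNat 213, .negSucc 274, .ofNat 55, .negSucc 4, .ofNat 0, .ofNat 1156, .ofNat 4621, .negSucc 119, .ofNat 20, .negSucc 604, .ofNat 220, .negSucc 139962959, .negSucc 17922671, .ofNat 16417512, .ofNat 3873338070]), ((2, 10), [.ofNat 16, .ofNat 284, .ofNat 714, .negSucc 11, .ofNat 1, .ofNat 0, .ofNat 0, .ofNat 212, .negSucc 184, .ofNat 35, .negSucc 2, .ofNat 0, .ofNat 560, .ofNat 1638, .negSucc 33, .ofNat 6, .negSucc 54, .ofNat 22, .ofNat 135604530, .negSucc 19547189, .ofNat 1743120, .negSucc 2868345650]), ((3, 5), [.ofNat 4, .ofNat 73, .ofNat 197, .negSucc 0, .ofNat 0, .ofNat 0, .ofNat 0, .ofNat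 95, .negSucc 79, .ofNat 8, .ofNat 0, .ofNat 0, .ofNat 860, .ofNat 4539, .negSucc 27, .ofNat 0, .negSucc 629, .ofNat 112, .negSucc 57531329, .negSucc 29047625, .ofNat 13484448, .ofNat 1933966800]), ((3, 7), [.ofNat 8, .ofNat 134, .ofNat 267, .negSucc 0, .ofNat 0, .ofNat 0, .ofNat 0, .ofNat 162, .negSucc 59, .ofNat 6, .ofNat 0, .ofNat 0, .ofNat 984, .ofNat 3573, .negSucc 14, .ofNat 0, .negSucc 214, .ofNat 40, .ofNat 111599910, .ofNat 36417870, .negSucc 20813039, .negSucc 3453199001]), ((3, 9), [.ofNat 12, .ofNat 199, .ofNat 378, .negSucc 0, .ofNat 0, .ofNat 0, .ofNat 0, .ofNat 201, .negSucc 42, .ofNat 4, .ofNat 0, .ofNat 0, .ofNat 756, .ofNat 1890, .negSucc 5, .ofNat 0, .negSucc 40, .ofNat 8, .negSucc 140380559, .negSucc 18783791, .ofNat 16808688, .ofNat 3938828850]), ((4, 6), [.ofNat 4, .ofNat 65, .ofNat 111, .ofNat 0, .ofNat 0, .ofNat 0, .ofNat 0, .ofNat 87, .negSucc 6, .ofNat 0, .ofNat 0, .ofNat 0, .ofNat 564, .ofNat 1926, .ofNat 0, .ofNat 0, .negSucc 34, .ofNat 0, .negSucc 61421489, .negSucc 27389177, .ofNat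 13555008, .ofNat 1986546960]), ((4, 8), [.ofNat 8, .ofNat 126, .ofNat 181, .ofNat 0, .ofNat 0, .ofNat 0, .ofNat 0, .ofNat 154, .negSucc 4, .ofNat 0, .ofNat 0, .ofNat 0, .ofNat 704, .ofNat 1560, .ofNat 0, .ofNat 0, .negSucc 9, .ofNat 0, .ofNat 113506110, .ofNat 35710470, .negSucc 20956319, .negSucc 3497206967]), ((5, 7), [.ofNat 4, .ofNat 61, .ofNat 70, .ofNat 0, .ofNat 0, .ofNat 0, .ofNat 0, .ofNat 83, .ofNat 0, .ofNat 0, .ofNat 0, .ofNat 0, .ofNat 420, .ofNat 861, .ofNat 0, .ofNat 0, .ofNat 0, .ofNat 0, .negSucc 62992889, .negSucc 26537057, .ofNat 13583232, .ofNat 2007588960])]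
  tg := [((0, 2), .ofNat 4324320, [.negSucc 257192272086583662728258279780504138670025034661680081, .ofNat 19696746350084376332392382494582752286588290715044357, .negSucc 1972136969506819786115386553067155909349123113819543, .negSucc 4424875043029654637875523786355176316900965753057015, .negSucc 22120473743927424971459716843465648643034128368348559, .negSucc 90679174821293817302750077547539179307310445425120711, .negSucc 157624026826425610742865467456961283847353606274877311, .negSucc 674753596675507097035366644791994020042505994015610, .negSucc 313084708392320312984591856470050590737431739616623, .negSucc 1636063650848112776780901284468009587954477414279631, .negSucc 4947838331631630682087470179224509181589528853839339, .negSucc 11696505468543630029835638886577875548558360254040363, .ofNat 63527524146193762434659951653152587258037000386733, .negSucc 6214282815627032577073469811457582440210627491235, .negSucc 18314025554379110099663210293694163188000165747759, .negSucc 12208016045113446612529544438406085941634275401070,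 .negSucc 1391624228080156695993196365144910255770738192059, .negSucc 5983207199015660679256212882149220656645134609172, .ofNat 558568089295590096853185961574400417703920, .ofNat 870748603926139226690351216474021259057900, .negSucc 265263445132875568847614219373184127911359, .ofNat 26166114658419387763052453990961024904320]), ((0, 4), .ofNat 3459456, [.ofNat 690483813600228358535195092154599316916980927966915166, .negSucc 52879833538482482474007151191440337204293992981003262, .ofNat 5294593980602344272361765461420624586330619982374088, .ofNat 11879457223298776149143366940371873133768369969964392, .ofNat 59386811840943657700417065234906708008695567643127984, .ofNat 243446282179311709770881103694005094175523135114860760, .ofNat 423173053665839472812893559460286775434490701033833088, .ofNat 1811510248317753946544209696249665974929854793738785, .ofNat 840538176659786559331809553234844581781392141185360, .ofNat 4392338306922428271944249284978248371490518524377456, .ofNat 13283456196352079558975932594442958035012165929703172,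 .ofNat 31401595530821650587052815520196738120887991045998788, .negSucc 170552275094320949886360544201410169067930817729590, .ofNat 16683478327373699443654586235474924727064688598188, .ofNat 49167644519671296871644482693240494331359475947920, .ofNat 32774847420318071342789630363414849738708584930077, .ofNat 3736092054040317575624791275050688981333200137332, .ofNat 16063109870369164828502824859390884210033064921391, .negSucc 1499587142814198531296470747009399283758959, .negSucc 2337697831463571145891202159062450137226979, .ofNat 712152483113575380970015731753922677150528, .negSucc 70248139611146303179147166719697458078591]), ((0, 6), .ofNat 2882880, [.negSucc 519158644629032602526573974398711889633151557332857897, .ofNat 39759111172940531619226437331636699441322573027300565, .negSucc 3980881493077245566779759778784193992412964920668023, .negSucc 8931886294074778371825551066226787721320943318107031, .negSucc 44651556107344349275657771728872668135247540120388527, .negSucc 183041570862026477267216673791524555161356116905635111,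 .negSucc 318173930593951636929479421409382710537419126016382239, .negSucc 1362032225411078621601064053356530416842868354936170, .negSucc 631981013831992944491501034427383904753543417767695, .negSucc 3302496535413749947981556071780095888552506808673775, .negSucc 9987520314096744029233241784644775981463495214505323, .negSucc 23610125905730665647986330054119142109037774047230699, .ofNat 128234270278825106006918135306138108034852958604493, .negSucc 12543917504707608058645819306669161298908633387267, .negSucc 36968002993931719361743902433539614089040074439087, .negSucc 24642641912105857045425146732434666542133364273286, .negSucc 2809080312645620320819534103115046465918342299611, .negSucc 12077476958288734030447641285652626971892315825308, .ofNat 1127504531217421403332512734852452660304984, .ofNat 1757660373538486819637142383596991289737220, .negSucc 535450810895477228696076132480857066792255, .ofNat 52817934656682458544685241282518669935360]), ((0, 8), .ofNat 138378240, [.ofNat 5829788656602391525112578318643130005227167497876517498,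 .negSucc 446467024503130111895939439184696989534495285866582156, .ofNat 44702516295771775391705258228252953865275582530031704, .ofNat 100298839165949196337856405654252111567434894353505464, .ofNat 501405761008268512825216500560142433054571087964265488, .ofNat 2055428883902379961577283329160363141709251499434651912, .ofNat 3572870818184361474740089987787179098583306315094356224, .ofNat 15294669750326976808690514389496135235722622265754067, .ofNat 7096704993246289381185748132836572480952251425531248, .ofNat 37084727452397527670636377260776310742406686496456784, .ofNat 112152871260214132797182092226906785861833634235208972, .ofNat 265125209047680807748908541304508628525416306660834636, .negSucc 1439981211895962707583852590212565580065560033130660, .ofNat 140859424638021473804612797880958486665576432311172, .ofNat 415124830802469183936905000763441072441232830225072, .ofNat 276719642009550584571070558439510375158552661794775, .ofNat 31544008197818482816789561825301337650414648817372, .ofNat 135621623371252186797110902788336831868173577465869,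 .negSucc 12661087693254094018987553663774957400342527, .negSucc 19737297286335444844693085537420876402002619, .ofNat 6012738294587264856176360563321467614206656, .negSucc 593108483335989980695967823503764365790079]), ((0, 10), .ofNat 138378240, [.negSucc 299373208945438370606792606254163260050205956263898941, .ofNat 22927120293194488122063350301437269877089492007712111, .negSucc 2295578200119594618557145035395131322385501998240199, .negSucc 5150578709333911981107957209393882739615178334324711, .negSucc 25748352212866962591267166932895538350241141728468655, .negSucc 105551054588592503185290290864570062071687826032933719, .negSucc 183475227832829052138238731917623330335598979883853695, .negSucc 785416870597956249024744504413512597389289393671344, .negSucc 364432309970813847051774630685741578670508561862863, .negSucc 1904387022283857702209765067844883498074625998006127, .negSucc 5759310832578760901401385541350037239859491900754947, .negSucc 13614796226797031278433600191199600202265036840724291, .ofNat 73946384958263044979496684963292368746211199730295,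 .negSucc 7233459126573053907472624077266871112060221955883, .negSucc 21317625737516238439234201950993208406981442853775, .negSucc 14210197330706115078681235275358455900521463466076, .negSucc 1619858199574215347713345208144797191261288005363, .negSucc 6964485847194334639103724042835733774508786070766, .ofNat 650176305649838210544096606779698296279328, .ofNat 1013556129145169006520280853153151621898740, .negSucc 308768098438886654270184006503008081246271, .ofNat 30457500326013540546871959200243025188480]), ((0, 12), .ofNat 23063040, [.negSucc 57116974227888962279076439380337353799856380577, .ofNat 4374231560395789484132610593579142784151192337, .negSucc 437969988551082982094982084210186770665410743, .negSucc 982671336677139985619580283569053055241799063, .negSucc 4912490248988724660174454397997196436399185487, .negSucc 20137930464452139060423594076846576868820300071, .negSucc 35004968869788481074667982599452650321152035903, .negSucc 149848529579908558423435332164284941962699726, .negSucc 69529504426051227761998094640294921465083567,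 .negSucc 363335199081015508507273408773148199566709903, .negSucc 1098810443170803893177523588183558014317244411, .negSucc 2597546947982417212492161285728498371543949435, .ofNat 14108122028636264787618361332684409252865481, .negSucc 1380061028060328877089321037366958211995731, .negSucc 4067158461301753343388992156499783591380591, .negSucc 2711142648903770345419147860775279382929954, .negSucc 309050363470491324497504123527289552296331, .negSucc 1328744011683405763196839218471918653523728, .ofNat 124046181100173287482345448232209488, .ofNat 193374883179524469617823578011990620, .negSucc 58909411376695249407992055886631615, .ofNat 5810941691458735403969961784984960]), ((1, 3), .ofNat 86486400, [.negSucc 679592801358390012926359494391773079382418504219979325, .ofNat 52045759077835638182204411303405050057359008603853375, .negSucc 5211082265016076578533887032231046134403796838923591, .negSucc 11692082354406847147104050243781010245858075899362151, .negSucc 58450102707399887850617189714466895668102139847177519, .negSucc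 239606400074587974593276461500006409558600667000158679, .negSucc 416498338318262715852048125807544641737595565467345919, .negSucc 1782937268181152298815755592262752331269635636224224, .negSucc 827280354548066039395852993664830982029052356786895, .negSucc 4323057884516054489710898926140638352220063745041391, .negSucc 13073936029189762635582498359752304632549180699758659, .negSucc 30906297661989288759825036602014986635960506848214019, .ofNat 167862151329883126527404683268614285700042235502215, .negSucc 16420329556727685281172339917865110054406296708075, .negSucc 48392122475824910837654276384418723717433432946831, .negSucc 32257889227456314757352948183452733208518776136204, .negSucc 3677162614282666156653390220687555038755087635763, .negSucc 15809746181323337965981081107463432980906452999294, .ofNat 1475934130812459375217251369957198110095120, .ofNat 2300825286157347204529816392670746363840900, .negSucc 700919690600735859035108016106385469783359, .ofNat 69140114580867576656418742285446182261120]), ((1, 5), .ofNat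 720720, [.negSucc 241121556929769231545876147749263203928878000395945283, .ofNat 18465990862992341953430031029442925241230235047099101, .negSucc 1848907561290006510688772044441142409706815978574391, .negSucc 4148385761901148861876427787840001799705477699191511, .negSucc 20738271122564159556358990942705431534794050715140103, .negSucc 85013066825959495184495962562445364704232150787224295, .negSucc 147774855168014407744559953329268345661912037111189551, .negSucc 632591471176038076310994588129089530185111157408490, .negSucc 293521542175438657179978377906086570069075335361823, .negSucc 1533833857169294583002681904125799748754347419518231, .negSucc 4638671575474777395716527216875158419838085370644635, .negSucc 10965646775978378409028246033151793221147505722606627, .ofNat 59557992958929184342017540199970948609928683215893, .negSucc 5825981999962523400373693287270395106342234140835, .negSucc 17169669677465496392611035689184409602967018153055, .negSucc 11445195502726424040586511168004962946918557059014, .negSucc 1304668284989965428061471934053233574878470451275,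 .negSucc 5609345193600459653740066549953735757612444205036, .ofNat 523665840538545204508869361850777195156697, .ofNat 816339687696417175252710853922387587076535, .negSucc 248688400969765611072992195181433418654447, .ofNat 24531119283074514144585378286464714910320]), ((1, 7), .ofNat 115315200, [.ofNat 35550580981251804934532806229926473247207781205096997626, .negSucc 2722596485908869606438690706897317110495898082971986924, .ofNat 272600006492302425154959594274710029398608777613044312, .ofNat 611631435396272374165389495817640138602256939282091192, .ofNat 3057617893403914043121919742305585611869589009212532240, .ofNat 12534192110998728828778692083146244207897912214302540040, .ofNat 21787690916301686278185862290721128646652910528382010240, .ofNat 93268285965170928239949502108827019893760786767756915, .ofNat 43276351926879687972909187243226370557238185968930416, .ofNat 226146037896417662307941267276623835039501591331123792, .ofNat 683918400283799936368180655244893173442033284572693900, .ofNat 1616757616718476319933319542203881319035593589712907340,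 .negSucc 8781136281331920565075931974357972131678729881044484, .ofNat 858973571348120533759426691277389323138013797033476, .ofNat 2531468940654973030503082343706956499372126238882992, .ofNat 1687461522506867439936605519734803449211307192001655, .ofNat 192358228396460382982413702367890385198714649700444, .ofNat 827032983264005244582480735309047236016946853894125, .negSucc 77208463267360434695369685796880978669675359, .negSucc 120359832381615925004864332365984936382244699, .ofNat 36666224498329568178732882181869327507345600, .negSucc 3616829427190953916569611238023430935989119]), ((1, 9), .ofNat 138378240, [.negSucc 7294048753243372083642991756341527412393193073507777033, .ofNat 558605540486137822666338573156985147092434546762578677, .negSucc 55930386581808815940427926395087475300471110841248279, .negSucc 125490762335202338315030919862665221903627733761781623, .negSucc 627343164800569560759725510825729534849727664284484751, .negSucc 2571688164206309297703651984005248235423437768562046023, .negSucc 4470263927554704043041820468518591180815581591727854207,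 .negSucc 19136211172474810679722523577472460375522113313586794, .negSucc 8879174744954145512263490308305263015929788271727087, .negSucc 46399248064024488909765058749269952768479083360821455, .negSucc 140322155565925619124015558109481323493378329014903659, .negSucc 331716347610217976881919327981457607752873519550187819, .ofNat 1801659336557315237509753620447542851669789500692685, .negSucc 176238894955469967614943563161372141731797280961187, .negSucc 519391170574578595167485462875768231895760980625455, .negSucc 346222938547148754025341447697769846841486451061774, .negSucc 39466873881786582309791939222847647279410545493691, .negSucc 169685522260501490412668693224379559043654427734004, .ofNat 15841155888060455313610253006525988374593376, .ofNat 24694687431034887956911036682551056069717180, .negSucc 7522949603249074872840697770861321346893503, .ofNat 742078735309804188725781904572394870975360]), ((1, 11), .ofNat 230630400, [.ofNat 266711914511200249818027407282508786023009808957361614, .negSucc 20425796179847734618099421666205313261017562183659254,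 .ofNat 2045133092639756060662813040367994775698156042410888, .ofNat 4588656123392253871738883544297031783495252943524008, .ofNat 22939234737781927333484481468379097962451554390309680, .ofNat 94035548294939268599349307994903584001912920068825240, .ofNat 163458278224191533557958662815706986550272760065768320, .ofNat 699728736530845938605655443923081278774147445325865, .ofNat 324673137734811896941451074406083400396834176735824, .ofNat 1696620450683620914297852488792755072625486633281008, .ofNat 5130976228077010176073430190180666637594453621393380, .ofNat 12129436632356448971464570429683154247135068010283300, .negSucc 65878914058054601002778041073087726639168655019454, .ofNat 6444296532020087676315249864789513875235550450124, .ofNat 18991895745495455940729131364503421973940352134928, .ofNat 12659880117546921296807808495896544945621598310645, .ofNat 1443133415869035185879042858447588774976955429716, .ofNat 6204667947524643795205021165883341585883892140535, .negSucc 579242771457522380446107623859747397720159, .negSucc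 902978247856966120558254048332985629774099, .ofNat 275081831686639379947135675990344427813440, .negSucc 27134619867261022136375130262273025034879]), ((2, 4), .ofNat 4942080, [.ofNat 2159708756288435787671832821678963345701877515258288830, .negSucc 165398576005225774946127537658001660943672769213618430, .ofNat 16560534447979629981807218850879922544239039398572616, .ofNat 37156798290953868614588847839827792386525639357720168, .ofNat 185751229811156518630038904222410410168973845201023536, .ofNat 761456035539934338030339546912025687688899865118706392, .ofNat 1323608941188838612886855875251889658233970973777786624, .ofNat 5666077130756940247672639119849758736464797893474465, .ofNat 2629051723401987637748480442314823481592547193086672, .ofNat 13738441532148254866193629070537350572656062747889904, .ofNat 41548253696856794406648654540160765205524898413520580, .ofNat 98218523727202548213518303987737107119009787330655620, .negSucc 533456736669253678433929774226444087555653080429254, .ofNat 52182909315581107450165431457930000811573820081772,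 .ofNat 153787518698723777987870755544732099698925900014224, .ofNat 102513807804711991604275700643736977624774495124525, .ofNat 11685821686881977825984161889218694833442875193268, .ofNat 50242508740900067168125305252412024119159699729375, .negSucc 4690437949974140489169339375542885206365647, .negSucc 7311896928971968127385681312240605966505539, .ofNat 2227484443948784971302771880105222281920832, .negSucc 219723502916180463983265722753857213587839]), ((2, 6), .ofNat 5405400, [.ofNat 1082367197129687878250465098806486830270113819538341794, .negSucc 82891729080950639346027978355080182032911818230376489, .ofNat 8299535389314998899060227072940193694206760460304928, .ofNat 18621631043256172613265670992758941696273377027673488, .ofNat 93091736276334759183563623483844526090019925682816660, .ofNat 381613971108413472721459232144038750102761919016712720, .ofNat 663344488278318969021910835320550332032405695014834380, .ofNat 2839631040473015616835814881737932124286652141582430, .ofNat 1317584760760930213695315625273219931170803493904544,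 .ofNat 6885205429104377668925783416037306945642103883912308, .ofNat 20822468200195663846580179981231758016509498466753920, .ofNat 49223539018068479072057458337586354829942934274747420, .negSucc 267349044716072383247554939573163500557742385052899, .ofNat 26152169420771187029839574202474202032689981843824, .ofNat 77072690974095674653236502336648655560728184629288, .ofNat 51376178615566492347927859304626955018547911326420, .ofNat 5856507285327013388124866786859801084822960856896, .ofNat 25179711479295923825287802010167444651757505173540, .negSucc 2350676294867144781290373073006807255364054, .negSucc 3664455849275448056312749477749650003837924, .ofNat 1116333897904906713805707440224194485948400, .negSucc 110117399534745994599054967348417285094879]), ((2, 8), .ofNat 57657600, [.negSucc 13729564983995367687565493505224436245941115961183948065, .ofNat 1051461448638385347033227189731491086588216451140269425, .negSucc 105277590421022657120056250630754668073130839017449271, .negSucc 236210866510339549344721949660764498534373125015051031,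 .negSucc 1180846062286711749989264214884831728791900167709754319, .negSucc 4840680527853909028602170461407608087736016709805703079, .negSucc 8414363704613539548044656362522737036212128125963920319, .negSucc 36020029989945534803288955362703330097206530837499374, .negSucc 16713242643311257164653172435547639005193616231493935, .negSucc 87337158422512404478783587774927818418687852003750671, .negSucc 264127951253412975091838174366754960998215581436814459, .negSucc 624388635837258358250630471950854586851397249592737019, .ofNat 3391257692003570721724629704160972128666475733095465, .negSucc 331733916629323568561575289346898400531262205605715, .negSucc 977648363722030518108932426477204268375597967462511, .negSucc 651694346246208774488831073101846772826288043137954, .negSucc 74288372343849985915106533585553985488281483869323, .negSucc 319398523855879013265976132382638000650109172000144, .ofNat 29817757811121948764603768528826874165047120, .ofNat 46482732336150937109845159875030806678007900, .negSucc 14160424332672964021309313013044557421319359,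 .ofNat 1396812465113654729198085807178734196552320]), ((2, 10), .ofNat 345945600, [.ofNat 7315827518890802397793507122210415534128108014426352234, .negSucc 560273439833560490190854838323545386633513109509697124, .ofNat 56097385024394459084891548586667505411837116689844888, .ofNat 125865456006203711268952800476813500307720567248580088, .ofNat 629216302783179503578566984450844589748493772070813840, .ofNat 2579366779436515277816215650377939764652818856760505800, .ofNat 4483611361024638640044033870651907239179752134672954240, .ofNat 19193348583068583952598941382709089436540131438278395, .ofNat 8905686422138500899487915241893852190532313838698224, .ofNat 46537788178573906598899047957695075944691845210526928, .ofNat 140741133207095573320121655220996988135258039204050860, .ofNat 332706795143600870460652894632946834344616530971154540, .negSucc 1807038779140549825014825121998704159544091496067644, .ofNat 176765113756720856655949472521335300126653345661284, .ofNat 520941982608602687818656019733402283583625001496368, .ofNat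 347256700247333462300582603758109332019775953971295, .ofNat 39584715128285780070556121423007447267294438699516, .ofNat 170192173826468885706066664704970299859412047462245, .negSucc 15888454834549820552984757448152685390951199, .negSucc 24768421488551010917999975995834066265629499, .ofNat 7545411827170149860595734845547998491514560, .negSucc 744294453824307851286738330944538641834879]), ((3, 5), .ofNat 10483200, [.negSucc 8059027896609361889808666556275197079865207138716699977, .ofNat 617190505064359021121388533040102306863685872077692405, .negSucc 61796206877629531555561342767669652500409755073930775, .negSucc 138651877529125563693650945646949846438391252445609335, .negSucc 693137136439743804131774020130009036375412341400412559, .negSucc 2841399524167294356783200044030007366169609742784729159, .negSucc 4939092528186156776000104893607156135153685540305750399, .negSucc 21143162719581096946250728288375808356413349774340714, .negSucc 9810397406054628514850564925512703076220825804905967, .negSucc 51265469587572785378182719269667299809197071623532495,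 .negSucc 155038745212020260678335270977791923957561538008826219, .negSucc 366505817220292114818564328264104554235755934825012779, .ofNat 1990612257293430128967796154272853826812619238357965, .negSucc 194722330349407445702872004306499734193841625101987, .negSucc 573863443269674851079986231120353736399146656713775, .negSucc 382533818266136633219831482143692400458205592188814, .negSucc 43606047665070903773663768691234714525904764788411, .negSucc 187481658515106250596435798138687469024585742946164, .ofNat 17502531383499409393613022857544984948986240, .ofNat 27284596201288707038386441212697969412636700, .negSucc 8311935218476833840043950373437068641010879, .ofNat 819905848131745338379840052686725705573760]), ((3, 7), .ofNat 31449600, [.negSucc 1437030985001244003273575864003082763095922879340208353, .ofNat 110053208749804889403640796949535417439337517495346145, .negSucc 11019078873776119282160165872827455242869897576322487, .negSucc 24723458796039093000595818627008153176201799345602967, .negSucc 123595494977503960792167601920241559435998461057925199,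 .negSucc 506659017611055844416030911775004031369398699257931559, .negSucc 880705352041006150745938339550552808506631684799589759, .negSucc 3770104823901188602538978462967035463908807629950974, .negSucc 1749323271806473594343137653711128475059641990066223, .negSucc 9141309498255479461118493016929173364811281951861647, .negSucc 27645453472015167718287176559959029649946064513265339, .negSucc 65352821988660697281512620416816283024081317355897979, .ofNat 354952424728228435468267134782463966471736550020185, .negSucc 34721560189843102082586090796218807090990502842643, .negSucc 102327422080891619311098203965693300998576262129007, .negSucc 68210826009245037816190108327988256424183944050194, .negSucc 7775533529858118163874180643151286591004205082315, .negSucc 33430452886132900478959660071079107506963545620704, .ofNat 3120932231122725607678823490728002172411040, .ofNat 4865203428690854294088528129567521438277900, .negSucc 1482127696728739884392234766260541497350079, .ofNat 146200028547457165081201531006784713706880]), ((3,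 9), .ofNat 2096640, [.ofNat 171466940836940763579223573103838659967707274222208002, .negSucc 13131579785387822253704474063067318007241016147637808, .ofNat 1314799586820125586891764900415309004233063455759928, .ofNat 2950010049130087517288859077434364150119921204357656, .ofNat 14747449182525271061762983860087482274198281302154064, .ofNat 60454696317590003144370024060252477907284569699658408, .ofNat 105086010022993040525579016006539851397685619681442816, .ofNat 449849966727314837472751575571530458509429680427695, .ofNat 208729744231134023724838900630161010868466605002800, .ofNat 1090743617409321250219317921783928516011021834587280, .ofNat 3298663274746521789640845504134200059460244610465660, .ofNat 7797917079322478606124344414252054342070778445930940, .negSucc 42353023035721896795265932862861092887186986941224, .ofNat 4142986316215687585621662023217949301881517648980, .ofNat 12209736749639897468117432514738076291860532725360, .ofNat 8138934921960610534356129964606866614476954099075, .ofNat 927778845171300857867505048059844365880801952140,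 .ofNat 3988931030024883840978318372666488877195151846065, .negSucc 372390510584264593285006160966642479629151, .negSucc 580517439897994891720723210301740439451659, .ofNat 176847893149331171099804055866733816835008, .negSucc 17444628478406947662599014477590777084799]), ((4, 6), .ofNat 12579840, [.ofNat 8001858636784857282250138065103535164499758250994831018, .negSucc 612812269277374516348900071466181412582251657718799748, .ofNat 61357835965842218048965897937960043726018679123426200, .ofNat 137668306642746959123345621103009654945686568438807288, .ofNat 688220149235392701401512491526083672169263716162162064, .ofNat 2821243159188003647383319343543478152823102241607497928, .ofNat 4904055515327578438697822816030925649322444686453289856, .ofNat 20993177016772442018600521742288947182451130021519835, .ofNat 9740804253445695583320353436938804945793243538423536, .ofNat 50901801786880563734835556940756945312135619221030352, .ofNat 153938928903949130280371687193919791353690314884526380, .ofNat 363905892445162017677562780685768152446481086006382060,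 .negSucc 1976491220512439328637235138160753164858701814458844, .ofNat 193341005996123861174976900033346100603197201204196, .ofNat 569792561680361605526979886686167378377169147960112, .ofNat 379820193803151772435038448618891043798871219481535, .ofNat 43296714393010509473568766977898142013251307119484, .ofNat 186151698154441837185582754173896128341457420888965, .negSucc 17378371648964825568773837965194721123705631, .negSucc 27091044300308884154096480285423923848259259, .ofNat 8252971880684011963240667730766391543963328, .negSucc 814089587031173220808797758992573050088319]), ((4, 8), .ofNat 120960, [.negSucc 108505798865162078887289990515695833, .ofNat 8309779996192418457646493352461337, .negSucc 832016823879600098017764758998679, .negSucc 1866792487687255914336135148956983, .negSucc 9332316462652741797022706332992911, .negSucc 38256267284367738293800160890086023, .negSucc 66499357902119590657006461102834767, .negSucc 284669043320903439193812929434694, .negSucc 132086030894188521583832810621327, .negSucc 690232221945476064262097643332495,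 .negSucc 2087423336921352240392099935579739, .negSucc 4934590994895089610942690456680939, .ofNat 26801368102880117237749037355585, .negSucc 2621718435834891240013672260307, .negSucc 7726429558295264743982421044975, .negSucc 5150390106153000685932936527194, .negSucc 587106670674451969926785406731, .negSucc 2524230886246947184753070024024, .ofNat 235652013405758848870356, .ofNat 367356577681009265275080, .negSucc 111910913148191701953023, .ofNat 11039115410331676671360]), ((5, 7), .ofNat 20966400, [.negSucc 4801115182070914360322400373480636135277327739074593061, .ofNat 367687361566424709117966347196499631873162747682594915, .negSucc 36814701579505330760155739015993298080533179525365543, .negSucc 82600983985648175318690237686226100894645496556844743, .negSucc 412932089541235620064458765222942085789269062169584879, .negSucc 1692745895512802185247070168066691065649687957550718839, .negSucc 2942433309196547057685947112162205446930529248557673599, .negSucc 12595906210063465187475848641074202168545442301137724, .negSucc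 5844482552067417339002654291766797971701056279359631, .negSucc 30541081072128338183474013298590558640674847550745263, .negSucc 92363357342369477994549390684495368411591473942439219, .negSucc 218343535467097210195979697636189435837456805095975539, .ofNat 1185894732307463594952467256736826144734501181738955, .negSucc 116004603597674316486859166158544709192780788664891, .negSucc 341875537008216962673348992761534400326964041060943, .negSucc 227892116281891063032510612339404969209702358532984, .negSucc 25978028635806305635293985186624481310042238431587, .negSucc 111691018892665102101333642768591671233419025276514, .ofNat 10427022989378895321658055263757696448209760, .ofNat 16254626580185330461893820908194383438068900, .negSucc 4951783128410407168633412664530285323886399, .ofNat 488453752218703931566824253255948330995840])]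

theorem NIT_3_1_13 (l : ℕ) (hlp : l.Prime) (hl2 : l ≠ 2) (hls : ¬ l ∣ 11) (hE : ¬ l ∣ 11)
    (hj : 13 < l) : NUMA_stmt 3 1 l 13 :=
  @NI_fin 3 1 11 1 11 13 (by norm_num) NIC_3_1_13 (by decide +kernel) (by decide +kernel)
    (by decide +kernel) (by decide +kernel) l hlp hl2 hls hE hj

end Pool.Agent.OE
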