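import Pool.Agent.helper21.OE.Final
import Pool.Agent.helper21.OE.Hecke
import Pool.Agent.helper21.OE.DefY
import Pool.Agent.helper21.OE.NJA
import Pool.Agent.helper21.OE.NJB
import Pool.Agent.helper21.OE.NJC
import Pool.Agent.helper21.OE.NJD
import Pool.Agent.helper21.OE.NJE
import Pool.Agent.helper21.OE.NJF
import Pool.Agent.helper21.OE.NJG
import Pool.Agent.helper21.OE.NJH
import Pool.Agent.helper21.OE.NJI
import Pool.Agent.helper21.OE.NJJ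
import Pool.Agent.helper21.OE.NJK

/-!
# Project OE: the integral certificates put together
-/

namespace Pool.Agent.OE

theorem QI_ram (l n : ℕ) (z : ℤ) (hz : z = -(n : ℤ)) (h : ¬ ((l : ℕ) : ℤ) ∣ z) : ¬ l ∣ n := by
  intro h'
  apply h
  rw [hz]
  exact (Int.natCast_dvd_natCast.mpr h').neg_right

theorem QI_pr (l p : ℕ) (hl : l.Prime) (hp : p.Prime) (h : l ≠ p) : ¬ l ∣ p :=
  fun h' => h ((Nat.prime_dvd_prime_iff_eq hl hp).mp h')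

theorem QI_one (l : ℕ) (hl : l.Prime) : ¬ l ∣ 1 := by
  intro h
  exact hl.one_lt.ne' (Nat.dvd_one.mp h)

theorem QI_mul (l a b : ℕ) (hl : l.Prime) (ha : ¬ l ∣ a) (hb : ¬ l ∣ b) : ¬ l ∣ a * b := by
  intro h
  rcases (Nat.Prime.dvd_mul hl).mp h with h | h
  · exact ha h
  · exact hb h

theorem QI_2_0 (l j : ℕ) (hl : l.Prime) (hl2 : l ≠ 2)
    (hram : ¬ ((l : ℕ) : ℤ) ∣ (0 : ℤ) ^ 2 - 4 * 2) (hj1 : 1 ≤ j) (hj : j ≤ 13) (hjl : j < l)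
    (hex : ¬ Exu 2 0 l j) : NUMA_stmt 2 0 l j := by
  have hls : ¬ l ∣ 8 := QI_ram l 8 _ (by norm_num) hram
  have hc : j = 1 ∨ j = 2 ∨ j = 3 ∨ j = 4 ∨ j = 5 ∨ j = 6 ∨ j = 7 ∨ j = 8 ∨ j = 9 ∨ j = 10 ∨ j = 11 ∨ j = 12 ∨ j = 13 := by omega
  rcases hc with rfl | rfl | rfl | rfl | rfl | rfl | rfl | rfl | rfl | rfl | rfl | rfl | rfl
  · exact @NIT_2_0_1 l hl hl2 hls (QI_one l hl) hjl
  · exact @NIT_2_0_2 l hl hl2 hls (QI_one l hl) hjl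
  · exact @NIT_2_0_3 l hl hl2 hls (QI_one l hl) hjl
  · exact @NIT_2_0_4 l hl hl2 hls (QI_one l hl) hjl
  · exact @NIT_2_0_5 l hl hl2 hls (QI_one l hl) hjl
  · exact @NIT_2_0_6 l hl hl2 hls (QI_one l hl) hjl
  · exact @NIT_2_0_7 l hl hl2 hls (QI_one l hl) hjl
  · exact @NIT_2_0_8 l hl hl2 hls (QI_one l hl) hjl
  · exact @NIT_2_0_9 l hl hl2 hls (QI_one l hl) hjl
  · exact @NIT_2_0_10 l hl hl2 hls (QI_one l hl) hjl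
  · exact @NIT_2_0_11 l hl hl2 hls (QI_one l hl) hjl
  · exact @NIT_2_0_12 l hl hl2 hls (QI_pr l 37 hl (by norm_num) fun h => hex
      (Or.inr (Or.inl ⟨rfl, rfl, rfl, h⟩))) hjl
  · exact @NIT_2_0_13 l hl hl2 hls (QI_one l hl) hjl

theorem QI_2_1 (l j : ℕ) (hl : l.Prime) (hl2 : l ≠ 2)
    (hram : ¬ ((l : ℕ) : ℤ) ∣ (1 : ℤ) ^ 2 - 4 * 2) (hj1 : 1 ≤ j) (hj : j ≤ 13) (hjl : j < l)
    (hex : ¬ Exu 2 1 l j) : NUMA_stmt 2 1 l j := by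
  have hls : ¬ l ∣ 7 := QI_ram l 7 _ (by norm_num) hram
  have hc : j = 1 ∨ j = 2 ∨ j = 3 ∨ j = 4 ∨ j = 5 ∨ j = 6 ∨ j = 7 ∨ j = 8 ∨ j = 9 ∨ j = 10 ∨ j = 11 ∨ j = 12 ∨ j = 13 := by omega
  rcases hc with rfl | rfl | rfl | rfl | rfl | rfl | rfl | rfl | rfl | rfl | rfl | rfl | rfl
  · exact @NIT_2_1_1 l hl hl2 hls hls hjl
  · exact @NIT_2_1_2 l hl hl2 hls hls hjl
  · exact @NIT_2_1_3 l hl hl2 hls hls hjl
  · exact @NIT_2_1_4 l hl hl2 hls hls hjl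
  · exact @NIT_2_1_5 l hl hl2 hls hls hjl
  · exact @NIT_2_1_6 l hl hl2 hls hls hjl
  · exact @NIT_2_1_7 l hl hl2 hls hls hjl
  · exact @NIT_2_1_8 l hl hl2 hls hls hjl
  · exact @NIT_2_1_9 l hl hl2 hls hls hjl
  · exact @NIT_2_1_10 l hl hl2 hls hls hjl
  · exact @NIT_2_1_11 l hl hl2 hls hls hjl
  · exact @NIT_2_1_12 l hl hl2 hls (QI_mul l 127 7 hl (QI_pr l 127 hl (by norm_num) fun h => hex
      (Or.inr (Or.inr (Or.inl ⟨rfl, rfl, rfl, h⟩)))) hls) hjl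
  · exact @NIT_2_1_13 l hl hl2 hls hls hjl

theorem QI_3_1 (l j : ℕ) (hl : l.Prime) (hl2 : l ≠ 2)
    (hram : ¬ ((l : ℕ) : ℤ) ∣ (1 : ℤ) ^ 2 - 4 * 3) (hj1 : 1 ≤ j) (hj : j ≤ 13) (hjl : j < l)
    (hex : ¬ Exu 3 1 l j) : NUMA_stmt 3 1 l j := by
  have hls : ¬ l ∣ 11 := QI_ram l 11 _ (by norm_num) hram
  have hc : j = 1 ∨ j = 2 ∨ j = 3 ∨ j = 4 ∨ j = 5 ∨ j = 6 ∨ j = 7 ∨ j = 8 ∨ j = 9 ∨ j = 10 ∨ j = 11 ∨ j = 12 ∨ j = 13 := by omega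
  rcases hc with rfl | rfl | rfl | rfl | rfl | rfl | rfl | rfl | rfl | rfl | rfl | rfl | rfl
  · exact @NIT_3_1_1 l hl hl2 hls hls hjl
  · exact @NIT_3_1_2 l hl hl2 hls hls hjl
  · exact @NIT_3_1_3 l hl hl2 hls hls hjl
  · exact @NIT_3_1_4 l hl hl2 hls hls hjl
  · exact @NIT_3_1_5 l hl hl2 hls hls hjl
  · exact @NIT_3_1_6 l hl hl2 hls hls hjl
  · exact @NIT_3_1_7 l hl hl2 hls hls hjl
  · exact @NIT_3_1_8 l hl hl2 hls hls hjl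
  · exact @NIT_3_1_9 l hl hl2 hls hls hjl
  · exfalso
    exact hex (Or.inl ⟨rfl, rfl⟩)
  · exact @NIT_3_1_11 l hl hl2 hls hls hjl
  · exact @NIT_3_1_12 l hl hl2 hls hls hjl
  · exact @NIT_3_1_13 l hl hl2 hls hls hjl

/-- uniformly in `ℓ`: all the classes `j ≤ 22` for the discriminants `-4`, `-3`, all the classes
`j ≤ 13` for the discriminants `-8`, `-7`, `-11` -/
theorem FIN_uni (d t : ℤ) (hdt : IsEuc d t) (ℓ : ℕ)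
    (hℓ : ℓ.Prime) (hℓ2 : ℓ ≠ 2) (hram : ¬ ((ℓ : ℕ) : ℤ) ∣ t ^ 2 - 4 * d)
    (F : Finset (GO d t)) (hF : IsReps ℓ F)
    {R L : Type} [CommRing R]
    [IsDomain R] [IsDiscreteValuationRing R] [Field L] [Algebra R L] [IsFractionRing R L]
    (f : Oz d t →+* R) (hf : ((ℓ : ℕ) : R) ∈ IsLocalRing.maximalIdeal R) (k r j : ℕ)
    (χ : Oz d t →* R) (hχ : ∀ x y : Oz d t, ((ℓ : ℕ) : Oz d t) ^ r ∣ x - y → χ x = χ y)
    (hχc : ∀ x, χ (star x) = χ x) (hj : 1 ≤ j) (hcl : InClass f ℓ k χ j)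
    (hjb : j ≤ if d = 1 then 22 else 13) (hjl : j < ℓ) (hex : ¬ Exu d t ℓ j)
    (φ : Sy d t L) (hφ : φ ∈ Ord L f ℓ F k r χ) : cj φ = φ := by
  refine FIN_num d t hdt ℓ hℓ hℓ2 F hF f hf k r j χ hχ hχc hj hcl ?_ φ hφ
  have hdt' := hdt
  rcases hdt' with ⟨rfl, rfl | rfl⟩ | ⟨rfl, rfl | rfl | rfl⟩
  · rw [if_pos rfl] at hjb
    exact @QL_four ℓ j hℓ hℓ2 hj hjb hjl fun h => hex (Or.inr (Or.inr (Or.inr ⟨rfl, rfl, h.1, h.2⟩)))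
  · rw [if_neg (by norm_num)] at hjb
    exact @QI_2_0 ℓ j hℓ hℓ2 hram hj hjb hjl hex
  · rw [if_pos rfl] at hjb
    have h3 : ℓ ≠ 3 := by
      rintro rfl
      exact hram ⟨-1, by norm_num⟩
    exact @QL_three ℓ j hℓ hℓ2 h3 hj hjb hjl
  · rw [if_neg (by norm_num)] at hjb
    exact @QI_2_1 ℓ j hℓ hℓ2 hram hj hjb hjl hex
  · rw [if_neg (by norm_num)] at hjb
    exact @QI_3_1 ℓ j hℓ hℓ2 hram hj hjb hjl hex

end Pool.Agent.OE
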