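import Pool.Agent.helper21.OE.NUB

/-!
# Project OE: certificates over the integers for all five fields, coefficients of the action
-/

namespace Pool.Agent.OE

open Finset

/-- product of pairs, `w ^ 2 = t w - d` -/
def NI_mul (d t : ℤ) (p q : ℤ × ℤ) : ℤ × ℤ :=
  (p.1 * q.1 - d * (p.2 * q.2), p.1 * q.2 + p.2 * q.1 + t * (p.2 * q.2))

/-- sum of pairs -/
def NI_add (p q : ℤ × ℤ) : ℤ × ℤ := (p.1 + q.1, p.2 + q.2)

/-- conjugate -/
def NI_st (t : ℤ) (p : ℤ × ℤ) : ℤ × ℤ := (p.1 + t * p.2, -p.2)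

/-- coefficients of `(u T + v) p + c` (auxiliary) -/
def NI_aux (d t : ℤ) (u v : ℤ × ℤ) : List (ℤ × ℤ) → ℤ × ℤ → List (ℤ × ℤ)
  | [], c => [c]
  | e :: p, c => NI_add c (NI_mul d t v e) :: NI_aux d t u v p (NI_mul d t u e)

/-- coefficients of `(u T + v) ^ n p` -/
def NI_pow (d t : ℤ) (u v : ℤ × ℤ) : ℕ → List (ℤ × ℤ) → List (ℤ × ℤ)
  | 0, p => p
  | n + 1, p => NI_aux d t u v (NI_pow d t u v n p) (0, 0)

/-- codes of matrices -/
abbrev NI_G : Type := (ℤ × ℤ) × (ℤ × ℤ) × (ℤ × ℤ) × (ℤ × ℤ)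

/-- coefficients of `(g00 T + g10) ^ a (g01 T + g11) ^ (j - a)` -/
def NI_co (d t : ℤ) (j : ℕ) (g : NI_G) (a : ℕ) : List (ℤ × ℤ) :=
  NI_pow d t g.2.1 g.2.2.2 (j - a) (NI_pow d t g.1 g.2.2.1 a [(1, 0)])

section sem

variable {κ : Type} [Field κ]

/-- the value of a pair -/
def NI_i (w : κ) (p : ℤ × ℤ) : κ := (p.1 : κ) + (p.2 : κ) * w

theorem NI_i_mul (d t : ℤ) (w : κ) (hw : w * w = t * w - d) (p q : ℤ × ℤ) :
    NI_i w (NI_mul d t p q) = NI_i w p * NI_i w q := by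
  simp only [NI_i, NI_mul]
  push_cast
  linear_combination (-(p.2 : κ) * q.2) * hw

theorem NI_i_add (w : κ) (p q : ℤ × ℤ) : NI_i w (NI_add p q) = NI_i w p + NI_i w q := by
  simp only [NI_i, NI_add]
  push_cast
  ring

theorem NI_i_st (t : ℤ) (w : κ) (p : ℤ × ℤ) : NI_i w (NI_st t p) = NI_i (t - w) p := by
  simp only [NI_i, NI_st]
  push_cast
  ring

/-- homogeneous polynomial with the coefficients `p` -/
noncomputable def NI_H {B : Type} [CommRing B] (h : κ →+* B) (w : κ) (X Y : B) :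
    List (ℤ × ℤ) → B
  | [] => 0
  | e :: p => h (NI_i w e) * Y ^ p.length + X * NI_H h w X Y p

theorem NI_aux_len (d t : ℤ) (u v : ℤ × ℤ) (p : List (ℤ × ℤ)) (c : ℤ × ℤ) :
    (NI_aux d t u v p c).length = p.length + 1 := by
  induction p generalizing c with
  | nil => rfl
  | cons e p ih => simp [NI_aux, ih]

theorem NI_pow_len (d t : ℤ) (u v : ℤ × ℤ) (n : ℕ) (p : List (ℤ × ℤ)) :
    (NI_pow d t u v n p).length = p.length + n := by
  induction n with
  | zero => rfl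
  | succ n ih => rw [NI_pow, NI_aux_len, ih]; rfl

theorem NI_co_len (d t : ℤ) (j : ℕ) (g : NI_G) (a : ℕ) (ha : a ≤ j) :
    (NI_co d t j g a).length = j + 1 := by
  rw [NI_co, NI_pow_len, NI_pow_len]
  simp
  omega

theorem NI_H_aux {B : Type} [CommRing B] (h : κ →+* B) (d t : ℤ) (w : κ)
    (hw : w * w = t * w - d) (X Y : B) (u v : ℤ × ℤ) (p : List (ℤ × ℤ)) (c : ℤ × ℤ) :
    NI_H h w X Y (NI_aux d t u v p c) = h (NI_i w c) * Y ^ p.length +
      (h (NI_i w u) * X + h (NI_i w v) * Y) * NI_H h w X Y p := by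
  induction p generalizing c with
  | nil => simp [NI_aux, NI_H]
  | cons e p ih =>
    rw [NI_aux, NI_H, ih, NI_aux_len, NI_H, NI_i_add, NI_i_mul d t w hw, NI_i_mul d t w hw,
      List.length_cons]
    simp only [map_add, map_mul]
    ring

theorem NI_H_pow {B : Type} [CommRing B] (h : κ →+* B) (d t : ℤ) (w : κ)
    (hw : w * w = t * w - d) (X Y : B) (u v : ℤ × ℤ) (n : ℕ) (p : List (ℤ × ℤ)) :
    NI_H h w X Y (NI_pow d t u v n p) =
      (h (NI_i w u) * X + h (NI_i w v) * Y) ^ n * NI_H h w X Y p := by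
  induction n with
  | zero => simp [NI_pow]
  | succ n ih =>
    rw [NI_pow, NI_H_aux h d t w hw, ih]
    have h0 : NI_i w (0, 0) = 0 := by simp [NI_i]
    rw [h0, map_zero]
    ring

theorem NI_H_co {B : Type} [CommRing B] (h : κ →+* B) (d t : ℤ) (w : κ)
    (hw : w * w = t * w - d) (X Y : B) (j : ℕ) (g : NI_G) (a : ℕ) :
    NI_H h w X Y (NI_co d t j g a) =
      (h (NI_i w g.1) * X + h (NI_i w g.2.2.1) * Y) ^ a *
      (h (NI_i w g.2.1) * X + h (NI_i w g.2.2.2) * Y) ^ (j - a) := by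
  rw [NI_co, NI_H_pow h d t w hw, NI_H_pow h d t w hw]
  have h1 : NI_i w (1, 0) = 1 := by simp [NI_i]
  simp only [NI_H, h1, map_one, List.length_nil, pow_zero, mul_zero, add_zero, mul_one]
  ring

theorem NI_H_sum {B : Type} [CommRing B] (h : κ →+* B) (w : κ) (X Y : B)
    (p : List (ℤ × ℤ)) (n : ℕ) (hn : p.length = n + 1) :
    NI_H h w X Y p = ∑ s ∈ range (n + 1), h (NI_i w (p.getD s (0, 0))) * X ^ s * Y ^ (n - s) := by
  induction p generalizing n with
  | nil => simp at hn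
  | cons e p ih =>
    rw [NI_H, Finset.sum_range_succ']
    simp only [List.getD_cons_zero, List.getD_cons_succ, pow_zero, mul_one, Nat.sub_zero]
    rw [List.length_cons, add_left_inj] at hn
    rcases n with _ | n
    · have hp : p = [] := List.length_eq_zero_iff.mp hn
      subst hp
      simp [NI_H]
    · rw [ih n hn, Finset.mul_sum, hn, add_comm]
      congr 1
      refine Finset.sum_congr rfl fun s _ => ?_
      rw [show n + 1 - (s + 1) = n - s by omega]
      ring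

end sem

end Pool.Agent.OE
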