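import Pool.Agent.helper21.OE.NIA

/-!
# Project OE: certificates over the integers for all five fields, the relations
-/

namespace Pool.Agent.OE

open Finset

/-- the cycle of the relation `tri` -/
def NI_tri : List NI_G :=
  [((1, 0), (0, 0), (0, 0), (1, 0)), ((0, 0), (-1, 0), (1, 0), (1, 0)),
    ((-1, 0), (-1, 0), (1, 0), (0, 0))]

/-- the cycle of the relation `sqr` -/
def NI_sqr (t : ℤ) : List NI_G :=
  [((1, 0), (0, 0), (0, 0), (1, 0)), ((0, 0), (1, 0), (1, 0), (0, 1)),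
    ((1, 0), (t, -1), (0, 1), (1, 0)), ((t, -1), (1, 0), (1, 0), (0, 0))]

/-- the cycle of the relation `hex` -/
def NI_hex (t : ℤ) : List NI_G :=
  [((1, 0), (0, 0), (0, 0), (1, 0)), ((0, 0), (1, 0), (1, 0), (t, -1)),
    ((1, 0), (0, 1), (t, -1), (2, 0)), ((0, 1), (2, 0), (2, 0), (t, -1)),
    ((2, 0), (0, 1), (t, -1), (1, 0)), ((0, 1), (1, 0), (1, 0), (0, 0))]

/-- the cycles -/
def NI_pl (d t : ℤ) (p : ℕ) : List NI_G :=
  if p = 0 then NI_tri else if d = 2 then NI_sqr t else if d = 3 then NI_hex t else []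

/-- the weight of a relation, from tables `T G a` of coefficients -/
def NI_wt (d t : ℤ) (T : NI_G → ℕ → List (ℤ × ℤ)) (s s' : ℕ) (a b : ℕ) : List NI_G → ℤ × ℤ
  | [] => (0, 0)
  | G :: L => NI_add (NI_mul d t ((T G a).getD s (0, 0)) (NI_st t ((T G b).getD s' (0, 0))))
      (NI_wt d t T s s' a b L)

section sem

variable {κ : Type} [Field κ]

theorem NI_cf_sum (j : ℕ) (γ : ℕ → ℕ → κ) (u v : ℕ) (hu : u ≤ j) (hv : v ≤ j) :
    cf (∑ s ∈ range (j + 1), ∑ s' ∈ range (j + 1), MvPolynomial.C (γ s s') * mon j s s') j u v =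
      γ u v := by
  have h1 : ∀ s t, s ≤ j → t ≤ j → cf (MvPolynomial.C (γ s t) * mon j s t) j u v =
      if s = u ∧ t = v then γ s t else 0 := by
    intro s t hs ht
    have h2 := ((EXQ (A := κ)) j).2 s t u v hs ht hu hv
    rw [MvPolynomial.C_mul', CL_cf_lin, map_smul, ← CL_cf_lin, h2]
    split_ifs <;> simp
  rw [CL_cf_lin, map_sum, Finset.sum_eq_single u]
  · rw [map_sum, Finset.sum_eq_single v]
    · rw [← CL_cf_lin, h1 u v hu hv, if_pos ⟨rfl, rfl⟩]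
    · intro t ht htv
      rw [Finset.mem_range] at ht
      rw [← CL_cf_lin, h1 u t hu (by omega), if_neg fun e => htv e.2]
    · intro h
      exact absurd (Finset.mem_range.mpr (by omega)) h
  · intro s hs hsu
    rw [map_sum]
    refine Finset.sum_eq_zero fun t ht => ?_
    rw [Finset.mem_range] at hs ht
    rw [← CL_cf_lin, h1 s t (by omega) (by omega), if_neg fun e => hsu e.1]
  · intro h
    exact absurd (Finset.mem_range.mpr (by omega)) h

theorem NI_act_mon {d t : ℤ} (π : Oz d t →+* κ) (w1 w2 : κ) (h1 : w1 * w1 = t * w1 - d)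
    (h2 : w2 * w2 = t * w2 - d) (γ : Mat d t) (G : NI_G)
    (e00 : π (γ 0 0) = NI_i w1 G.1) (e01 : π (γ 0 1) = NI_i w1 G.2.1)
    (e10 : π (γ 1 0) = NI_i w1 G.2.2.1) (e11 : π (γ 1 1) = NI_i w1 G.2.2.2)
    (f00 : π (star (γ 0 0)) = NI_i w2 G.1) (f01 : π (star (γ 0 1)) = NI_i w2 G.2.1)
    (f10 : π (star (γ 1 0)) = NI_i w2 G.2.2.1) (f11 : π (star (γ 1 1)) = NI_i w2 G.2.2.2)
    (j a b : ℕ) (ha : a ≤ j) (hb : b ≤ j) :
    act π γ (mon j a b) = ∑ s ∈ range (j + 1), ∑ s' ∈ range (j + 1),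
      MvPolynomial.C (NI_i w1 ((NI_co d t j G a).getD s (0, 0)) *
        NI_i w2 ((NI_co d t j G b).getD s' (0, 0))) * mon j s s' := by
  have k1 := NI_H_co (MvPolynomial.C : κ →+* Pol κ) d t w1 h1 (MvPolynomial.X 0)
    (MvPolynomial.X 1) j G a
  have k2 := NI_H_co (MvPolynomial.C : κ →+* Pol κ) d t w2 h2 (MvPolynomial.X 2)
    (MvPolynomial.X 3) j G b
  rw [NI_H_sum _ w1 _ _ _ j (NI_co_len d t j G a ha)] at k1
  rw [NI_H_sum _ w2 _ _ _ j (NI_co_len d t j G b hb)] at k2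
  have k3 : act π γ (mon j a b) =
      ((MvPolynomial.C (NI_i w1 G.1) * MvPolynomial.X 0 +
        MvPolynomial.C (NI_i w1 G.2.2.1) * MvPolynomial.X 1) ^ a *
      (MvPolynomial.C (NI_i w1 G.2.1) * MvPolynomial.X 0 +
        MvPolynomial.C (NI_i w1 G.2.2.2) * MvPolynomial.X 1) ^ (j - a)) *
      ((MvPolynomial.C (NI_i w2 G.1) * MvPolynomial.X 2 +
        MvPolynomial.C (NI_i w2 G.2.2.1) * MvPolynomial.X 3) ^ b *
      (MvPolynomial.C (NI_i w2 G.2.1) * MvPolynomial.X 2 +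
        MvPolynomial.C (NI_i w2 G.2.2.2) * MvPolynomial.X 3) ^ (j - b)) := by
    simp only [mon, map_mul, map_pow, act, MvPolynomial.aeval_X]
    simp only [Matrix.cons_val]
    rw [e00, e01, e10, e11, f00, f01, f10, f11]
    ring
  rw [k3, ← k1, ← k2, Finset.sum_mul_sum]
  refine Finset.sum_congr rfl fun s _ => Finset.sum_congr rfl fun s' _ => ?_
  rw [map_mul, mon]
  ring

theorem NI_act_cf {d t : ℤ} (π : Oz d t →+* κ) (w1 w2 : κ) (h1 : w1 * w1 = t * w1 - d)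
    (h2 : w2 * w2 = t * w2 - d) (γ : Mat d t) (G : NI_G)
    (e00 : π (γ 0 0) = NI_i w1 G.1) (e01 : π (γ 0 1) = NI_i w1 G.2.1)
    (e10 : π (γ 1 0) = NI_i w1 G.2.2.1) (e11 : π (γ 1 1) = NI_i w1 G.2.2.2)
    (f00 : π (star (γ 0 0)) = NI_i w2 G.1) (f01 : π (star (γ 0 1)) = NI_i w2 G.2.1)
    (f10 : π (star (γ 1 0)) = NI_i w2 G.2.2.1) (f11 : π (star (γ 1 1)) = NI_i w2 G.2.2.2)
    (j : ℕ) (P : Pol κ) (hP : BiHom j P) (s s' : ℕ) (hs : s ≤ j) (hs' : s' ≤ j) :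
    cf (act π γ P) j s s' = ∑ a ∈ range (j + 1), ∑ b ∈ range (j + 1),
      NI_i w1 ((NI_co d t j G a).getD s (0, 0)) * NI_i w2 ((NI_co d t j G b).getD s' (0, 0)) *
        cf P j a b := by
  conv_lhs => rw [((EXQ (A := κ)) j).1 P hP]
  rw [map_sum, CL_cf_lin, map_sum]
  refine Finset.sum_congr rfl fun a ha => ?_
  rw [map_sum, map_sum]
  refine Finset.sum_congr rfl fun b hb => ?_
  rw [Finset.mem_range] at ha hb
  have h3 : act π γ (MvPolynomial.C (cf P j a b) * mon j a b) =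
      cf P j a b • act π γ (mon j a b) := by
    rw [MvPolynomial.C_mul', map_smul]
  rw [h3, map_smul, ← CL_cf_lin, NI_act_mon π w1 w2 h1 h2 γ G e00 e01 e10 e11 f00 f01 f10 f11 j a b
    (by omega) (by omega), NI_cf_sum j (fun s s' => NI_i w1 ((NI_co d t j G a).getD s (0, 0)) *
        NI_i w2 ((NI_co d t j G b).getD s' (0, 0))) s s' hs hs', smul_eq_mul]
  ring

/-- matching of a matrix and its code, `w1`, `w2` the images of `ω` and its conjugate -/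
def NI_cd {d t : ℤ} (π : Oz d t →+* κ) (w1 w2 : κ) (γ : Mat d t) (G : NI_G) : Prop :=
  (π (γ 0 0) = NI_i w1 G.1 ∧ π (γ 0 1) = NI_i w1 G.2.1 ∧
    π (γ 1 0) = NI_i w1 G.2.2.1 ∧ π (γ 1 1) = NI_i w1 G.2.2.2) ∧
  π (star (γ 0 0)) = NI_i w2 G.1 ∧ π (star (γ 0 1)) = NI_i w2 G.2.1 ∧
    π (star (γ 1 0)) = NI_i w2 G.2.2.1 ∧ π (star (γ 1 1)) = NI_i w2 G.2.2.2

theorem NI_wt_sum {d t : ℤ} (π : Oz d t →+* κ) (w1 w2 : κ) (h1 : w1 * w1 = t * w1 - d)
    (h2 : w2 * w2 = t * w2 - d) (h12 : w2 = t - w1) (j : ℕ) (P : Pol κ) (hP : BiHom j P)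
    (s s' : ℕ) (hs : s ≤ j)
    (hs' : s' ≤ j) (M : List (Mat d t)) (L : List NI_G)
    (hML : List.Forall₂ (NI_cd π w1 w2) M L) :
    ∑ a ∈ range (j + 1), ∑ b ∈ range (j + 1),
      NI_i w1 (NI_wt d t (NI_co d t j) s s' a b L) * cf P j a b =
      (M.map (fun γ => cf (act π γ P) j s s')).sum := by
  induction hML with
  | nil => simp [NI_wt, NI_i]
  | cons h hML ih =>
    rename_i γ G M L
    obtain ⟨⟨e00, e01, e10, e11⟩, f00, f01, f10, f11⟩ := h
    rw [List.map_cons, List.sum_cons, ← ih, NI_act_cf π w1 w2 h1 h2 γ G e00 e01 e10 e11 f00 f01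
      f10 f11 j P hP s s' hs hs', ← Finset.sum_add_distrib]
    refine Finset.sum_congr rfl fun a _ => ?_
    rw [← Finset.sum_add_distrib]
    refine Finset.sum_congr rfl fun b _ => ?_
    rw [NI_wt, NI_i_add, NI_i_mul d t w1 h1, NI_i_st, ← h12]
    ring

end sem

end Pool.Agent.OE
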