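import Pool.Agent.helper21.OE.NIB

/-!
# Project OE: certificates over the integers for all five fields, the vanishing of the weights
-/

namespace Pool.Agent.OE

open Finset

section sem

variable {κ : Type} [Field κ]

theorem NI_cf_add (j a b : ℕ) (P Q : Pol κ) : cf (P + Q) j a b = cf P j a b + cf Q j a b := by
  simp [cf]

/-- the weights of a relation, with `ω` sent to `w1` -/
theorem NI_rel1 {d t : ℤ} (π : Oz d t →+* κ) (j : ℕ) (g : Pol κ) (hg : RelP π j g)
    (X Y : Oz d t) (hXY : X * Y = algebraMap ℤ (Oz d t) d) (hsX : star X = Y)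
    (w1 w2 : κ) (hX : π X = w1) (hY : π Y = w2)
    (h1 : w1 * w1 = t * w1 - d) (h2 : w2 * w2 = t * w2 - d) (h12 : w2 = t - w1)
    (p : ℕ) (s s' : ℕ) (hs : s ≤ j) (hs' : s' ≤ j) :
    ∑ a ∈ range (j + 1), ∑ b ∈ range (j + 1),
      NI_i w1 (NI_wt d t (NI_co d t j) s s' a b (NI_pl d t p)) * cf g j a b = 0 := by
  have hsY : star Y = X := by rw [← hsX, star_star]
  have h21 : w1 = t - w2 := by rw [h12]; ring
  have c0 : ∀ w : κ, NI_i w (0, 0) = 0 := fun w => by simp [NI_i]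
  have c1 : ∀ w : κ, NI_i w (1, 0) = 1 := fun w => by simp [NI_i]
  have c2 : ∀ w : κ, NI_i w (2, 0) = 2 := fun w => by simp [NI_i]
  have cm : ∀ w : κ, NI_i w (-1, 0) = -1 := fun w => by simp [NI_i]
  have cx : ∀ w : κ, NI_i w (0, 1) = w := fun w => by simp [NI_i]
  have cy1 : NI_i w1 (t, -1) = w2 := by simp [NI_i, h12]; ring
  have cy2 : NI_i w2 (t, -1) = w1 := by simp [NI_i, h21]; ring
  have hs2 : (star 2 : Oz d t) = 2 := by
    ext <;> simp
  have hπ2 : π 2 = 2 := map_ofNat π 2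
  have hg1 : cf g j s s' = cf (act π !![1, 0; 0, 1] g) j s s' := by rw [CK_act_one]
  have h0 : cf (0 : Pol κ) j s s' = 0 := by simp [cf]
  unfold NI_pl
  split_ifs with hp hd2 hd3
  · rw [NI_wt_sum π w1 w2 h1 h2 h12 j g hg.hom s s' hs hs'
      [!![1, 0; 0, 1], !![0, -1; 1, 1], !![-1, -1; 1, 0]] NI_tri (by
        refine .cons ?_ (.cons ?_ (.cons ?_ .nil)) <;>
        simp [NI_cd, c0, c1, cm])]
    have h := congrArg (fun P => cf P j s s') hg.tri
    simp only [NI_cf_add, h0] at h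
    rw [hg1] at h
    simp only [List.map_cons, List.map_nil, List.sum_cons, List.sum_nil]
    linear_combination h
  · subst hd2
    rw [NI_wt_sum π w1 w2 h1 h2 h12 j g hg.hom s s' hs hs'
      [!![1, 0; 0, 1], !![0, 1; 1, X], !![1, Y; X, 1], !![Y, 1; 1, 0]] (NI_sqr t) (by
        refine .cons ?_ (.cons ?_ (.cons ?_ (.cons ?_ .nil))) <;>
        simp [NI_cd, c0, c1, cx, cy1, cy2, hX, hY, hsX, hsY])]
    have hXY2 : X * Y = 2 := by rw [hXY]; simp
    have h := congrArg (fun P => cf P j s s') (hg.sqr X Y hXY2)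
    simp only [NI_cf_add, h0] at h
    rw [hg1] at h
    simp only [List.map_cons, List.map_nil, List.sum_cons, List.sum_nil]
    linear_combination h
  · subst hd3
    rw [NI_wt_sum π w1 w2 h1 h2 h12 j g hg.hom s s' hs hs'
      [!![1, 0; 0, 1], !![0, 1; 1, Y], !![1, X; Y, 2], !![X, 2; 2, Y], !![2, X; Y, 1],
        !![X, 1; 1, 0]] (NI_hex t) (by
        refine .cons ?_ (.cons ?_ (.cons ?_ (.cons ?_ (.cons ?_ (.cons ?_ .nil))))) <;>
        simp [NI_cd, c0, c1, c2, cx, cy1, cy2, hX, hY, hsX, hsY, hs2, hπ2])]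
    have hXY2 : X * Y = 3 := by rw [hXY]; simp
    have h := congrArg (fun P => cf P j s s') (hg.hex X Y hXY2)
    simp only [NI_cf_add, h0] at h
    rw [hg1] at h
    simp only [List.map_cons, List.map_nil, List.sum_cons, List.sum_nil]
    linear_combination h
  · simp [NI_wt, c0]

/-- both parts of the weights vanish -/
theorem NI_rel {d t : ℤ} (π : Oz d t →+* κ) (j : ℕ) (g : Pol κ) (hg : RelP π j g)
    (hD : ((t ^ 2 - 4 * d : ℤ) : κ) ≠ 0)
    (p : ℕ) (s s' : ℕ) (hs : s ≤ j) (hs' : s' ≤ j) :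
    ∑ a ∈ range (j + 1), ∑ b ∈ range (j + 1),
      ((NI_wt d t (NI_co d t j) s s' a b (NI_pl d t p)).1 : κ) * cf g j a b = 0 ∧
    ∑ a ∈ range (j + 1), ∑ b ∈ range (j + 1),
      ((NI_wt d t (NI_co d t j) s s' a b (NI_pl d t p)).2 : κ) * cf g j a b = 0 := by
  have hst : (star ⟨0, 1⟩ : Oz d t) = ⟨t, -1⟩ := by
    ext <;> simp
  have hnorm : (⟨0, 1⟩ : Oz d t) * star ⟨0, 1⟩ = algebraMap ℤ (Oz d t) d := by
    rw [hst]
    ext <;> simp
  have hsum : (⟨0, 1⟩ : Oz d t) + star ⟨0, 1⟩ = algebraMap ℤ (Oz d t) t := by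
    rw [hst]
    ext <;> simp
  have hm : ∀ n : ℤ, π (algebraMap ℤ (Oz d t) n) = (n : κ) := by
    intro n
    simp
  have e1 : π ⟨0, 1⟩ + π (star ⟨0, 1⟩) = (t : κ) := by
    rw [← map_add, hsum, hm]
  have e2 : π ⟨0, 1⟩ * π (star ⟨0, 1⟩) = (d : κ) := by
    rw [← map_mul, hnorm, hm]
  set w := π ⟨0, 1⟩ with hw
  set w' := π (star ⟨0, 1⟩) with hw'
  have h1 : w * w = t * w - d := by linear_combination w * e1 - e2
  have h2 : w' * w' = t * w' - d := by linear_combination w' * e1 - e2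
  have k1 := NI_rel1 π j g hg ⟨0, 1⟩ (star ⟨0, 1⟩) hnorm rfl w w' rfl rfl h1 h2
    (by linear_combination e1) p s s' hs hs'
  have k2 := NI_rel1 π j g hg (star ⟨0, 1⟩) ⟨0, 1⟩ (by rw [mul_comm]; exact hnorm)
    (star_star _) w' w rfl rfl h2 h1 (by linear_combination e1) p s s' hs hs'
  have hne : w - w' ≠ 0 := by
    intro h
    apply hD
    push_cast
    have h3 : (w - w') ^ 2 = (t : κ) ^ 2 - 4 * d := by
      linear_combination (w + w' + t) * e1 - 4 * e2
    rw [← h3, h]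
    ring
  set W := fun a b => NI_wt d t (NI_co d t j) s s' a b (NI_pl d t p) with hW
  have k3 : ∀ v : κ, ∑ a ∈ range (j + 1), ∑ b ∈ range (j + 1), NI_i v (W a b) * cf g j a b =
      (∑ a ∈ range (j + 1), ∑ b ∈ range (j + 1), ((W a b).1 : κ) * cf g j a b) +
      v * ∑ a ∈ range (j + 1), ∑ b ∈ range (j + 1), ((W a b).2 : κ) * cf g j a b := by
    intro v
    rw [Finset.mul_sum, ← Finset.sum_add_distrib]
    refine Finset.sum_congr rfl fun a _ => ?_
    rw [Finset.mul_sum, ← Finset.sum_add_distrib]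
    refine Finset.sum_congr rfl fun b _ => ?_
    simp only [NI_i]
    ring
  have k4 := k3 w
  have k5 := k3 w'
  have k1' : ∑ a ∈ range (j + 1), ∑ b ∈ range (j + 1), NI_i w (W a b) * cf g j a b = 0 := k1
  have k2' : ∑ a ∈ range (j + 1), ∑ b ∈ range (j + 1), NI_i w' (W a b) * cf g j a b = 0 := k2
  rw [k1'] at k4
  rw [k2'] at k5
  have k6 : (w - w') * ∑ a ∈ range (j + 1), ∑ b ∈ range (j + 1), ((W a b).2 : κ) * cf g j a b =
      0 := by linear_combination k5 - k4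
  have k7 := (mul_eq_zero.mp k6).resolve_left hne
  rw [k7, mul_zero, add_zero] at k4
  exact ⟨k4.symm, k7⟩

end sem

end Pool.Agent.OE
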