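import Pool.Agent.helper21.OE.NIC

/-!
# Project OE: certificates over the integers for all five fields, the checker
-/

namespace Pool.Agent.OE

open Finset

/-- certificates -/
structure NI_Cert where
  /-- the coefficients for the relation `tri` -/
  tab0 : List (List (List (ℤ × ℤ)))
  /-- the coefficients for the second relation -/
  tab1 : List (List (List (ℤ × ℤ)))
  /-- the relations used: kind, point, part -/
  rws : List (ℕ × ℕ × ℕ × ℕ)
  /-- the orbits, with the columns of the system -/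
  cols : List ((ℕ × ℕ) × List ℤ)
  /-- for each orbit a multiple and a combination of relations -/
  tg : List ((ℕ × ℕ) × ℤ × List ℤ)

/-- the tables of coefficients -/
def NI_tab (d t : ℤ) (j p : ℕ) : List (List (List (ℤ × ℤ))) :=
  (NI_pl d t p).map (fun G => (List.range (j + 1)).map (fun a => NI_co d t j G a))

/-- the weight from tables -/
def NI_wtT (d t : ℤ) (s s' a b : ℕ) : List (List (List (ℤ × ℤ))) → ℤ × ℤ
  | [] => (0, 0)
  | T :: L => NI_add (NI_mul d t ((T.getD a []).getD s (0, 0))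
      (NI_st t ((T.getD b []).getD s' (0, 0)))) (NI_wtT d t s s' a b L)

/-- a part -/
def NI_pt (x : ℤ × ℤ) (q : ℕ) : ℤ := if q = 0 then x.1 else x.2

/-- the weight of a row -/
def NI_W (d t : ℤ) (j : ℕ) (q : ℕ × ℕ × ℕ × ℕ) (a b : ℕ) : ℤ :=
  NI_pt (NI_wt d t (NI_co d t j) q.2.1 q.2.2.1 a b (NI_pl d t q.1)) q.2.2.2

/-- the weight of a row from tables -/
def NI_WT (d t : ℤ) (C : NI_Cert) (q : ℕ × ℕ × ℕ × ℕ) (a b : ℕ) : ℤ :=
  NI_pt (NI_wtT d t q.2.1 q.2.2.1 a b (if q.1 = 0 then C.tab0 else C.tab1)) q.2.2.2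

theorem NI_wtT_eq (d t : ℤ) (j s s' a b : ℕ) (ha : a ≤ j) (hb : b ≤ j) (L : List NI_G) :
    NI_wtT d t s s' a b (L.map (fun G => (List.range (j + 1)).map (fun a => NI_co d t j G a))) =
      NI_wt d t (NI_co d t j) s s' a b L := by
  induction L with
  | nil => rfl
  | cons G L ih =>
    rw [List.map_cons, NI_wtT, NI_wt, ih]
    have h : ∀ c, c ≤ j → ((List.range (j + 1)).map (fun a => NI_co d t j G a)).getD c [] =
        NI_co d t j G c := by
      intro c hc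
      rw [List.getD_eq_getElem _ _ (by simpa using Nat.lt_succ_of_le hc)]
      simp
    rw [h a ha, h b hb]

/-- test of the shape -/
def NI_chk1 (j : ℕ) (C : NI_Cert) : Bool :=
  OD.NUM_cov 2 j (-1) (C.cols.map Prod.fst) &&
  C.rws.all (fun q => q.1 ≤ 1 && q.2.1 ≤ j && q.2.2.1 ≤ j) &&
  C.cols.all (fun x => x.1.1 ≤ j && x.1.2 ≤ j && C.tg.any (fun y => y.1 == x.1))

/-- test of the tables -/
def NI_chkT (d t : ℤ) (j : ℕ) (C : NI_Cert) : Bool :=
  C.tab0 == NI_tab d t j 0 && C.tab1 == NI_tab d t j 1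

/-- test of the columns -/
def NI_chk2 (d t : ℤ) (j : ℕ) (C : NI_Cert) : Bool :=
  C.cols.all (fun x => x.2 == C.rws.map (fun q => OD.NUM_t j (-1) (NI_WT d t C q) x.1))

/-- test of the combinations, all multiples divide `Dn` -/
def NI_chk3 (Dn j : ℕ) (C : NI_Cert) : Bool :=
  C.tg.all (fun y => Dn % y.2.1.natAbs == 0 &&
    C.cols.all (fun x => OD.NUM_dot y.2.2 x.2 ==
      y.2.1 * OD.NUM_t j (-1) (OD.NUM_e y.1) x.1))

theorem NI_four {κ : Type} [Field κ] (m j : ℕ)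
    (c : ℕ → ℕ → κ)
    (hdia : ∀ a b, a ≤ j → b ≤ j → ¬ (m : ℤ) ∣ (a : ℤ) - b → c a b = 0)
    (hsym : ∀ a b, a ≤ j → b ≤ j → c b a = - c a b)
    (hant : ∀ a b, a ≤ j → b ≤ j → c (j - a) (j - b) = - c a b) (w : ℕ → ℕ → ℤ) :
    4 * OD.NUM_ev j c w = ∑ a ∈ range (j + 1), ∑ b ∈ range (j + 1),
      ((if (m : ℤ) ∣ (a : ℤ) - b then OD.NUM_t j (-1) w (a, b) else 0 : ℤ) : κ) * c a b := by
  have h1 : OD.NUM_ev j c w = ∑ a ∈ range (j + 1), ∑ b ∈ range (j + 1),
      ((-1 * w b a : ℤ) : κ) * c a b := by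
    unfold OD.NUM_ev
    rw [Finset.sum_comm]
    refine Finset.sum_congr rfl fun b hb => Finset.sum_congr rfl fun a ha => ?_
    rw [Finset.mem_range] at ha hb
    have h := hsym b a (by omega) (by omega)
    rw [h]
    push_cast
    ring
  have h2 : ∀ v : ℕ → ℕ → ℤ, (∑ a ∈ range (j + 1), ∑ b ∈ range (j + 1), (v a b : κ) * c a b) =
      ∑ a ∈ range (j + 1), ∑ b ∈ range (j + 1), ((- v (j - a) (j - b) : ℤ) : κ) * c a b := by
    intro v
    rw [← Finset.sum_flip (fun a => ∑ b ∈ range (j + 1), (v a b : κ) * c a b)]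
    refine Finset.sum_congr rfl fun a ha => ?_
    rw [← Finset.sum_flip (fun b => (v (j - a) b : κ) * c (j - a) b)]
    refine Finset.sum_congr rfl fun b hb => ?_
    rw [Finset.mem_range] at ha hb
    rw [hant a b (by omega) (by omega)]
    push_cast
    ring
  have h3 := h2 w
  have h4 := h2 (fun a b => -1 * w b a)
  have h5 : 4 * OD.NUM_ev j c w = ∑ a ∈ range (j + 1), ∑ b ∈ range (j + 1),
      ((OD.NUM_t j (-1) w (a, b) : ℤ) : κ) * c a b := by
    have h6 : 4 * OD.NUM_ev j c w = OD.NUM_ev j c w +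
        (∑ a ∈ range (j + 1), ∑ b ∈ range (j + 1),
        ((-1 * w b a : ℤ) : κ) * c a b) + (∑ a ∈ range (j + 1), ∑ b ∈ range (j + 1),
        ((- w (j - a) (j - b) : ℤ) : κ) * c a b) + (∑ a ∈ range (j + 1), ∑ b ∈ range (j + 1),
        ((- (-1 * w (j - b) (j - a)) : ℤ) : κ) * c a b) := by
      have h7 : OD.NUM_ev j c w = ∑ a ∈ range (j + 1), ∑ b ∈ range (j + 1),
        ((- (-1 * w (j - b) (j - a)) : ℤ) : κ) * c a b := h1.trans h4
      have h8 : OD.NUM_ev j c w = ∑ a ∈ range (j + 1), ∑ b ∈ range (j + 1),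
        ((- w (j - a) (j - b) : ℤ) : κ) * c a b := h3
      rw [← h1, ← h8, ← h7]
      ring
    rw [h6]
    unfold OD.NUM_ev
    rw [← Finset.sum_add_distrib, ← Finset.sum_add_distrib, ← Finset.sum_add_distrib]
    refine Finset.sum_congr rfl fun a _ => ?_
    rw [← Finset.sum_add_distrib, ← Finset.sum_add_distrib, ← Finset.sum_add_distrib]
    refine Finset.sum_congr rfl fun b _ => ?_
    unfold OD.NUM_t
    push_cast
    ring
  rw [h5]
  refine Finset.sum_congr rfl fun a ha => Finset.sum_congr rfl fun b hb => ?_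
  rw [Finset.mem_range] at ha hb
  by_cases h : (m : ℤ) ∣ (a : ℤ) - b
  · rw [if_pos h]
  · rw [if_neg h, hdia a b (by omega) (by omega) h]
    simp

theorem NI_sound (Dn j : ℕ) (C : NI_Cert) (d t : ℤ)
    (h1 : NI_chk1 j C = true) (hT : NI_chkT d t j C = true) (h2 : NI_chk2 d t j C = true)
    (h3 : NI_chk3 Dn j C = true)
    {κ : Type} [Field κ] (hκ : (2 : κ) ≠ 0) (hD : ((Dn : ℕ) : κ) ≠ 0)
    (c : ℕ → ℕ → κ)
    (hdia : ∀ a b, a ≤ j → b ≤ j → ¬ ((2 : ℕ) : ℤ) ∣ (a : ℤ) - b → c a b = 0)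
    (hsym : ∀ a b, a ≤ j → b ≤ j → c b a = - c a b)
    (hant : ∀ a b, a ≤ j → b ≤ j → c (j - a) (j - b) = - c a b)
    (hW : ∀ q : ℕ × ℕ × ℕ × ℕ, q.2.1 ≤ j → q.2.2.1 ≤ j → OD.NUM_ev j c (NI_W d t j q) = 0) :
    ∀ a b, a ≤ j → b ≤ j → c a b = 0 := by
  simp only [NI_chk1, Bool.and_eq_true, List.all_eq_true, List.any_eq_true, beq_iff_eq,
    decide_eq_true_eq] at h1
  simp only [NI_chkT, Bool.and_eq_true, beq_iff_eq] at hT
  simp only [NI_chk2, List.all_eq_true, beq_iff_eq] at h2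
  simp only [NI_chk3, Bool.and_eq_true, List.all_eq_true, beq_iff_eq] at h3
  obtain ⟨⟨hcov, hrws⟩, hcols⟩ := h1
  set ws := C.rws.map (NI_W d t j) with hws0
  have hws : ∀ w ∈ ws, OD.NUM_ev j c w = 0 := by
    intro w hw
    rw [hws0, List.mem_map] at hw
    obtain ⟨q, hq, rfl⟩ := hw
    exact hW q (hrws q hq).1.2 (hrws q hq).2
  have hval : ∀ q ∈ C.rws, ∀ a b, a ≤ j → b ≤ j → NI_WT d t C q a b = NI_W d t j q a b := by
    intro q hq a b ha hb
    rw [NI_WT, NI_W]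
    congr 1
    have hq1 := (hrws q hq).1.1
    by_cases h0 : q.1 = 0
    · rw [if_pos h0, hT.1, NI_tab, NI_wtT_eq d t j _ _ a b ha hb, h0]
    · have h10 : q.1 = 1 := by omega
      rw [if_neg h0, hT.2, NI_tab, NI_wtT_eq d t j _ _ a b ha hb, h10]
  have hcol : ∀ x ∈ C.cols, x.2 = ws.map (fun w => OD.NUM_t j (-1) w x.1) := by
    intro x hx
    rw [h2 x hx, hws0, List.map_map]
    refine List.map_congr_left fun q hq => ?_
    have hx1 := (hcols x hx).1
    simp only [Function.comp, OD.NUM_t]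
    rw [hval q hq _ _ hx1.1 hx1.2, hval q hq _ _ hx1.2 hx1.1,
      hval q hq (j - x.1.1) (j - x.1.2) (by omega) (by omega),
      hval q hq (j - x.1.2) (j - x.1.1) (by omega) (by omega)]
  have hsg : (-1 : ℤ) = 1 ∨ (-1 : ℤ) = -1 := Or.inr rfl
  refine OD.NUM_cov_zero hκ 2 j (-1) hsg (C.cols.map Prod.fst) hcov c hdia
    (fun a b ha hb => by rw [hsym a b ha hb]; simp) hant ?_
  intro p hp
  rw [List.mem_map] at hp
  obtain ⟨x, hx, rfl⟩ := hp
  obtain ⟨⟨hx1, hx2⟩, y, hy, hyx⟩ := hcols x hx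
  obtain ⟨hN, hy3⟩ := h3 y hy
  -- the weight
  set W : ℕ → ℕ → ℤ := fun a b => OD.NUM_comb y.2.2 ws a b - y.2.1 * OD.NUM_e y.1 a b with hWd
  have hWt : ∀ q, OD.NUM_t j (-1) W q = OD.NUM_t j (-1) (OD.NUM_comb y.2.2 ws) q -
      y.2.1 * OD.NUM_t j (-1) (OD.NUM_e y.1) q := by
    intro q
    simp only [OD.NUM_t, hWd]
    ring
  have hW0 : ∀ a b, a ≤ j → b ≤ j →
      ((if ((2 : ℕ) : ℤ) ∣ (a : ℤ) - b then OD.NUM_t j (-1) W (a, b) else 0 : ℤ) : κ) = 0 := by
    refine OD.NUM_cov_zero hκ 2 j (-1) hsg (C.cols.map Prod.fst) hcov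
      (fun a b => ((if ((2 : ℕ) : ℤ) ∣ (a : ℤ) - b then OD.NUM_t j (-1) W (a, b) else 0 : ℤ) : κ))
      ?_ ?_ ?_ ?_
    · intro a b _ _ hd
      rw [if_neg hd]
      simp
    · intro a b _ _
      have hd : ((2 : ℕ) : ℤ) ∣ (b : ℤ) - a ↔ ((2 : ℕ) : ℤ) ∣ (a : ℤ) - b := by
        rw [← dvd_neg, neg_sub]
      simp only [hd]
      by_cases hd' : ((2 : ℕ) : ℤ) ∣ (a : ℤ) - b
      · rw [if_pos hd', if_pos hd']
        rw [← Int.cast_mul]
        congr 1
        simp only [OD.NUM_t]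
        ring
      · rw [if_neg hd', if_neg hd']
        simp
    · intro a b ha hb
      have hd : ((2 : ℕ) : ℤ) ∣ ((j - a : ℕ) : ℤ) - ((j - b : ℕ) : ℤ) ↔
          ((2 : ℕ) : ℤ) ∣ (a : ℤ) - b := by
        rw [← dvd_neg, show -(((j - a : ℕ) : ℤ) - ((j - b : ℕ) : ℤ)) = (a : ℤ) - b by omega]
      simp only [hd]
      by_cases hd' : ((2 : ℕ) : ℤ) ∣ (a : ℤ) - b
      · rw [if_pos hd', if_pos hd']
        rw [← Int.cast_neg]
        congr 1
        simp only [OD.NUM_t]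
        rw [show j - (j - a) = a by omega, show j - (j - b) = b by omega]
        ring
      · rw [if_neg hd', if_neg hd']
        simp
    · intro q hq
      rw [List.mem_map] at hq
      obtain ⟨z, hz, rfl⟩ := hq
      split_ifs with hd
      · have h4 := hy3 z hz
        rw [hcol z hz, OD.NUM_dot_comb] at h4
        rw [show (z.1.1, z.1.2) = z.1 from rfl, hWt, h4]
        simp
      · simp
  have h4 : 4 * OD.NUM_ev j c W = 0 := by
    rw [NI_four 2 j c hdia hsym hant W]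
    refine Finset.sum_eq_zero fun a ha => Finset.sum_eq_zero fun b hb => ?_
    rw [Finset.mem_range] at ha hb
    rw [hW0 a b (by omega) (by omega), zero_mul]
  have h5 : OD.NUM_ev j c W = 0 := by
    have h6 : (4 : κ) ≠ 0 := by
      have : (4 : κ) = 2 * 2 := by norm_num
      rw [this]
      exact mul_ne_zero hκ hκ
    exact (mul_eq_zero.mp h4).resolve_left h6
  have h6 : OD.NUM_ev j c W = OD.NUM_ev j c (OD.NUM_comb y.2.2 ws) -
      (y.2.1 : κ) * OD.NUM_ev j c (OD.NUM_e y.1) := by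
    simp only [OD.NUM_ev, Finset.mul_sum, ← Finset.sum_sub_distrib, hWd]
    refine Finset.sum_congr rfl fun a _ => Finset.sum_congr rfl fun b _ => ?_
    push_cast
    ring
  rw [h5, OD.NUM_ev_comb j c _ _ hws, hyx, OD.NUM_ev_e j c x.1 hx1 hx2] at h6
  have h7 : (y.2.1 : κ) * c x.1.1 x.1.2 = 0 := by linear_combination h6
  have h8 : (y.2.1 : κ) ≠ 0 := by
    intro h9
    apply hD
    have h10 : y.2.1.natAbs ∣ Dn := Nat.dvd_of_mod_eq_zero hN
    obtain ⟨e, he⟩ := h10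
    rw [he]
    have h11 : ((y.2.1.natAbs : ℕ) : κ) = 0 := by
      rcases Int.natAbs_eq y.2.1 with h12 | h12
      · rw [h12] at h9
        simpa using h9
      · rw [h12] at h9
        simpa using h9
    rw [Nat.cast_mul, h11, zero_mul]
  exact (mul_eq_zero.mp h7).resolve_left h8

theorem NI_char {κ : Type} [Field κ] (l : ℕ) (hlp : l.Prime) (hl : (l : κ) = 0) (n : ℕ)
    (hn : ¬ l ∣ n) : ((n : ℕ) : κ) ≠ 0 := by
  intro h
  apply hn
  have hchar : CharP κ l := by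
    obtain ⟨p, hp⟩ := CharP.exists κ
    have h4 : p ∣ l := (CharP.cast_eq_zero_iff κ p l).mp hl
    rcases (Nat.dvd_prime hlp).mp h4 with h5 | h5
    · subst h5
      exact absurd rfl (@CharP.char_ne_one κ _ _ 1 hp)
    · rwa [h5] at hp
  exact (CharP.cast_eq_zero_iff κ l n).mp h

/-- no antisymmetric solution, from a certificate -/
theorem NI_thm (d t : ℤ) (Dn Ds j : ℕ) (hDs : (t ^ 2 - 4 * d).natAbs = Ds) (C : NI_Cert)
    (h1 : NI_chk1 j C = true) (hT : NI_chkT d t j C = true) (h2 : NI_chk2 d t j C = true)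
    (h3 : NI_chk3 Dn j C = true) (l : ℕ) (hlp : l.Prime) (hl2 : l ≠ 2) (hls : ¬ l ∣ Ds)
    (hD : ¬ l ∣ Dn) : NUMA_stmt d t l j := by
  intro κ _ π hl g hg hanti
  have h2ne : (2 : κ) ≠ 0 := by exact_mod_cast NUQ_ne l hlp hl 2 Nat.prime_two hl2
  have hDne := NI_char l hlp hl Dn hD
  have hdisc : ((t ^ 2 - 4 * d : ℤ) : κ) ≠ 0 := by
    intro h
    have h4 := NI_char l hlp hl Ds hls
    apply h4
    rw [← hDs]
    rcases Int.natAbs_eq (t ^ 2 - 4 * d) with h12 | h12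
    · rw [h12] at h
      simpa using h
    · rw [h12] at h
      simpa using h
  have hpar : ∀ a b, a ≤ j → b ≤ j → a % 2 ≠ b % 2 → cf g j a b = 0 :=
    fun a b ha hb hab => NUQ_hm2 (CFU EXQ) d t l hlp hl2 j π hl g hg a b ha hb hab
  have hdia : ∀ a b, a ≤ j → b ≤ j → ¬ ((2 : ℕ) : ℤ) ∣ (a : ℤ) - b → cf g j a b = 0 := by
    intro a b ha hb hab
    refine hpar a b ha hb fun h => hab ?_
    omega
  have hR : ∀ a b, a ≤ j → b ≤ j → cf g j (j - a) (j - b) = - cf g j a b := by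
    intro a b ha hb
    by_cases hab : a % 2 = b % 2
    · have hev : Even (a + b) := by
        rw [Nat.even_iff]
        omega
      have h3 := CFW EXQ d t π j g hg.hom a b ha hb
      rw [hg.inv, hev.neg_one_pow, one_mul] at h3
      have h4 : cf (-g) j a b = - cf g j a b := by simp [cf]
      rw [← h3, h4]
    · rw [hpar a b ha hb hab, hpar (j - a) (j - b) (by omega) (by omega) (by omega), neg_zero]
  have hsym : ∀ a b, a ≤ j → b ≤ j → cf g j b a = - cf g j a b := by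
    intro a b ha hb
    rw [← CL_sw_cf EXQ j g hg.hom a b ha hb, hanti]
    simp [cf]
  have hz := NI_sound Dn j C d t h1 hT h2 h3 h2ne hDne (cf g j) hdia hsym hR (by
    intro q hq1 hq2
    obtain ⟨h5, h6⟩ := NI_rel π j g hg hdisc q.1 q.2.1 q.2.2.1 hq1 hq2
    by_cases h7 : q.2.2.2 = 0
    · simp only [OD.NUM_ev, NI_W, NI_pt, if_pos h7]
      exact h5
    · simp only [OD.NUM_ev, NI_W, NI_pt, if_neg h7]
      exact h6)
  rw [((EXQ (A := κ)) j).1 g hg.hom]
  refine Finset.sum_eq_zero fun a ha => Finset.sum_eq_zero fun b hb => ?_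
  rw [Finset.mem_range] at ha hb
  rw [hz a b (by omega) (by omega)]
  simp

/-- the same, all multiples divide a power of `E * j!` -/
theorem NI_fin (d t : ℤ) (E e Ds j : ℕ) (hDs : (t ^ 2 - 4 * d).natAbs = Ds) (C : NI_Cert)
    (h1 : NI_chk1 j C = true) (hT : NI_chkT d t j C = true) (h2 : NI_chk2 d t j C = true)
    (h3 : NI_chk3 ((E * j.factorial) ^ e) j C = true) (l : ℕ) (hlp : l.Prime) (hl2 : l ≠ 2)
    (hls : ¬ l ∣ Ds) (hE : ¬ l ∣ E) (hj : j < l) : NUMA_stmt d t l j := by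
  refine @NI_thm d t _ Ds j hDs C h1 hT h2 h3 l hlp hl2 hls fun h => ?_
  rcases (Nat.Prime.dvd_mul hlp).mp (hlp.dvd_of_dvd_pow h) with h | h
  · exact hE h
  · rw [Nat.Prime.dvd_factorial hlp] at h
    omega

end Pool.Agent.OE
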