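import Pool.Agent.helper21.OE.CKE
import Pool.Agent.helper21.OD.SpecB

/-!
# Project OE: lemmas for the numerical statements
-/

namespace Pool.Agent.OE

open MvPolynomial Matrix

theorem NUQ_ne {κ : Type} [Field κ] (l : ℕ) (hl : l.Prime) (h0 : ((l : ℕ) : κ) = 0) (q : ℕ)
    (hq : q.Prime) (hne : l ≠ q) : (q : κ) ≠ 0 := by
  intro h
  have hc : Nat.Coprime l q := (Nat.coprime_primes hl hq).2 hne
  have hb := Nat.isCoprime_iff_coprime.2 hc
  obtain ⟨a, b, hab⟩ := hb
  have : ((a * (l : ℤ) + b * (q : ℤ) : ℤ) : κ) = ((1 : ℤ) : κ) := by rw [hab]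
  push_cast at this
  rw [h0, h] at this
  simp at this

/-- parity -/
theorem NUQ_hm2 (hCFU : CFU_stmt) (d t : ℤ) (l : ℕ) (hlp : l.Prime) (hl2 : l ≠ 2) (j : ℕ)
    {κ : Type} [Field κ] (π : Oz d t →+* κ) (hl : (l : κ) = 0) (g : Pol κ) (hg : RelP π j g)
    (a b : ℕ) (ha : a ≤ j) (hb : b ≤ j) (hab : a % 2 ≠ b % 2) : cf g j a b = 0 := by
  have h2 : (2 : κ) ≠ 0 := by exact_mod_cast NUQ_ne l hlp hl 2 Nat.prime_two hl2
  have hodd : Odd (a + b) := by
    rw [Nat.odd_iff]
    omega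
  have h3 := hCFU d t π j g hg.hom (-1) a b ha hb
  rw [hg.uni (-1) isUnit_one.neg] at h3
  have h4 : π (star (-1 : Oz d t)) = -1 := by simp
  rw [h4, map_neg, map_one, ← pow_add, hodd.neg_one_pow] at h3
  have h5 : 2 * cf g j a b = 0 := by linear_combination h3
  exact (mul_eq_zero.mp h5).resolve_left h2

theorem NUQ_unit (t : ℤ) : IsUnit (⟨0, 1⟩ : Oz 1 t) := by
  refine IsUnit.of_mul_eq_one (star ⟨0, 1⟩) ?_
  ext
  · simp
    rfl
  · simp
    rfl

/-- for the fields with more units -/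
theorem NUQ_dia (hCFD : OD.CFD_stmt) (t : ℤ) (ht : t = 0 ∨ t = 1) (l : ℕ) (hlp : l.Prime)
    (hl2 : l ≠ 2) (hl3 : l ≠ 3 ∨ t = 0) (j : ℕ)
    {κ : Type} [Field κ] (π : Oz 1 t →+* κ) (hl : (l : κ) = 0) (g : Pol κ) (hg : RelP π j g)
    (a b : ℕ) (ha : a ≤ j) (hb : b ≤ j)
    (hab : ¬ ((if t = 0 then 4 else 6 : ℤ) ∣ (a : ℤ) - b)) : cf g j a b = 0 := by
  have h2 : (2 : κ) ≠ 0 := by exact_mod_cast NUQ_ne l hlp hl 2 Nat.prime_two hl2
  refine hCFD t π j g hg.hom (hg.uni ⟨0, 1⟩ (NUQ_unit t)) ?_ a b ha hb hab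
  rcases ht with rfl | rfl
  · exact Or.inl ⟨rfl, h2⟩
  · refine Or.inr ⟨rfl, ?_⟩
    have h3 : (3 : κ) ≠ 0 := by
      exact_mod_cast NUQ_ne l hlp hl 3 Nat.prime_three (hl3.resolve_right one_ne_zero)
    have h6 : (6 : κ) = 2 * 3 := by norm_num
    rw [h6]
    exact mul_ne_zero h2 h3

/-- the statement for the fields with more units, from project OD -/
theorem NUQ_one (hEXQ : OD.EXQ_stmt) (hCFD : OD.CFD_stmt) (hCFW : OD.CFW_stmt)
    (hCFT : OD.CFT_stmt) (t : ℤ) (ht : t = 0 ∨ t = 1) (l : ℕ) (hlp : l.Prime)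
    (hl2 : l ≠ 2) (hl3 : l ≠ 3 ∨ t = 0) (h409 : l ≠ 409) (j s : ℕ) (hj : j < l)
    (hN : OD.NUM_stmt (if t = 0 then 4 else 6) j s) : NUMQ_stmt 1 t l j s := by
  intro κ _ π hl
  obtain ⟨F, hF⟩ := hN
  refine ⟨fun i => ∑ a ∈ Finset.range (j + 1), ∑ b ∈ Finset.range (j + 1),
    (F i a b : κ) • CK_lin κ j a b, fun g hg h0 => ?_⟩
  have hg' : OD.BiHom j g := hg.hom
  have hdia : ∀ a b, a ≤ j → b ≤ j → ¬ (((if t = 0 then 4 else 6 : ℕ) : ℤ) ∣ (a : ℤ) - b) →
      cf g j a b = 0 := by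
    intro a b ha hb hab
    refine NUQ_dia hCFD t ht l hlp hl2 hl3 j π hl g hg a b ha hb ?_
    rcases ht with rfl | rfl
    · simpa using hab
    · simpa using hab
  have hrel : OD.Rel (if t = 0 then 4 else 6) j (cf g j) := by
    refine ⟨hdia, fun a b ha hb => ?_, fun s s' hs hs' => ?_⟩
    · by_cases hab : (((if t = 0 then 4 else 6 : ℕ) : ℤ) ∣ (a : ℤ) - b)
      · have h1 := hCFW t π j g hg' a b ha hb
        have h2 : OD.act π !![0, -1; 1, 0] g = -g := hg.inv
        rw [h2] at h1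
        have h3 : Even (a + b) := by
          obtain ⟨c, hc⟩ := hab
          rcases ht with rfl | rfl
          · rw [if_pos rfl] at hc
            have : (a : ℤ) + b = 2 * (b + 2 * c) := by push_cast at hc; linarith
            exact (Int.even_coe_nat _).mp (by rw [Nat.cast_add, this]; exact even_two_mul _)
          · rw [if_neg one_ne_zero] at hc
            have : (a : ℤ) + b = 2 * (b + 3 * c) := by push_cast at hc; linarith
            exact (Int.even_coe_nat _).mp (by rw [Nat.cast_add, this]; exact even_two_mul _)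
        rw [h3.neg_one_pow, one_mul] at h1
        have h4 : OD.cf (-g) j a b = - OD.cf g j a b := by simp [OD.cf]
        rw [h4] at h1
        exact h1.symm
      · rw [hdia a b ha hb hab, neg_zero]
        refine hdia _ _ (by omega) (by omega) ?_
        intro h
        apply hab
        rw [Nat.cast_sub ha, Nat.cast_sub hb] at h
        have := h.neg_right
        rwa [show -((j : ℤ) - a - (j - b)) = a - b by ring] at this
    · obtain ⟨h1, h2⟩ := hCFT t π j g hg' s s' hs hs'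
      have h3 := congrArg (fun P => OD.cf P j s s') hg.tri
      have h4 : OD.cf g j s s' + OD.cf (OD.act π !![0, -1; 1, 1] g) j s s' +
          OD.cf (OD.act π !![-1, -1; 1, 0] g) j s s' = 0 := by
        have h5 : OD.cf (g + act π !![0, -1; 1, 1] g + act π !![-1, -1; 1, 0] g) j s s' =
          OD.cf (0 : Pol κ) j s s' := h3
        have h6 : OD.cf g j s s' + OD.cf (act π !![0, -1; 1, 1] g) j s s' +
          OD.cf (act π !![-1, -1; 1, 0] g) j s s' = 0 := by
          simpa [OD.cf] using h5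
        exact h6
      rw [h1, h2] at h4
      have h6 : ∀ a b, cf g j a b = OD.cf g j a b := fun a b => rfl
      simp only [h6]
      rw [← h4, add_assoc, ← Finset.sum_add_distrib]
      congr 1
      refine Finset.sum_congr rfl fun a _ => ?_
      rw [← Finset.sum_add_distrib]
      refine Finset.sum_congr rfl fun b _ => ?_
      push_cast
      ring
  have hz := hF l hlp hl2 h409 (by
    rcases ht with rfl | rfl
    · exact Or.inr (if_pos rfl)
    · exact Or.inl (hl3.resolve_right one_ne_zero)) hj hl (cf g j) hrel (by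
    intro i
    have h1 := h0 i
    simpa [LinearMap.sum_apply, CK_lin] using h1)
  rw [(hEXQ j).1 g hg']
  refine Finset.sum_eq_zero fun a ha => Finset.sum_eq_zero fun b hb => ?_
  rw [Finset.mem_range] at ha hb
  have h1 : OD.cf g j a b = 0 := hz a b (by omega) (by omega)
  rw [h1]
  simp

end Pool.Agent.OE
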