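import Pool.Agent.helper21.OD.NUMG
import Pool.Agent.helper21.OE.NUQ
import Pool.Agent.helper21.OE.CLC
import Pool.Agent.helper72.OE.EXQ
import Pool.Agent.helper45.OE.CFE
import Pool.Agent.helper32.OE.CFU
import Pool.Agent.helper11.OE.CFW
import Pool.Agent.helper17.OD.EXQ
import Pool.Agent.helper30.OD.CFD
import Pool.Agent.helper25.OD.CFW
import Pool.Agent.helper17.OD.CFT

/-!
# Project OE: certificates of the antisymmetric part
-/

namespace Pool.Agent.OD

open Finset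

/-- test of the combinations, all multiples divide `Dn` -/
def NUM_chk4 (Dn j : ℕ) (sg : ℤ) (C : NUM_Cert) : Bool :=
  C.tg.all (fun y => Dn % y.2.1.natAbs == 0 &&
    C.cols.all (fun x => NUM_dot y.2.2 x.2 == y.2.1 * NUM_t j sg (NUM_e y.1) x.1))

theorem NUM_sound2 (Dn m j : ℕ) (sg : ℤ) (hsg : sg = 1 ∨ sg = -1) (hj : j ≤ 22) (C : NUM_Cert)
    (h1 : NUM_chk1 m j sg C = true) (h2 : NUM_chk2 j sg C = true) (h3 : NUM_chk4 Dn j sg C = true)
    {κ : Type} [Field κ] (hκ : (2 : κ) ≠ 0) (hD : ((Dn : ℕ) : κ) ≠ 0)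
    (c : ℕ → ℕ → κ) (hc : NUM_Rel m j sg c) (hf : ∀ p ∈ C.fre, c p.1 p.2 = 0) :
    ∀ a b, a ≤ j → b ≤ j → c a b = 0 := by
  simp only [NUM_chk1, Bool.and_eq_true, List.all_eq_true, List.any_eq_true, beq_iff_eq,
    decide_eq_true_eq] at h1
  simp only [NUM_chk2, List.all_eq_true, beq_iff_eq] at h2
  simp only [NUM_chk4, Bool.and_eq_true, List.all_eq_true, beq_iff_eq] at h3
  obtain ⟨⟨⟨hcov, htri⟩, hfre⟩, hcols⟩ := h1
  have hws : ∀ w ∈ NUM_ws j C, NUM_ev j c w = 0 := by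
    intro w hw
    rw [NUM_ws, List.mem_append, List.mem_map, List.mem_map] at hw
    rcases hw with ⟨p, hp, rfl⟩ | ⟨p, hp, rfl⟩
    · exact NUM_ev_tri m j c hc.rel p.1 p.2 (htri p hp).1 (htri p hp).2
    · rw [NUM_ev_e j c p (hfre p hp).1 (hfre p hp).2, hf p hp]
  have hcol : ∀ x ∈ C.cols, x.2 = (NUM_ws j C).map (fun w => NUM_t j sg w x.1) := by
    intro x hx
    rw [h2 x hx, NUM_col, NUM_ws, List.map_append, List.map_map, List.map_map]
    congr 1
    refine List.map_congr_left fun p hp => ?_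
    have hx1 := (hcols x hx).1
    simp only [Function.comp, NUM_t]
    rw [NUM_triF_eq j _ _ _ _ hj (htri p hp).1 (htri p hp).2 hx1.1 hx1.2,
      NUM_triF_eq j _ _ _ _ hj (htri p hp).1 (htri p hp).2 hx1.2 hx1.1,
      NUM_triF_eq j _ _ _ _ hj (htri p hp).1 (htri p hp).2 (by omega) (by omega),
      NUM_triF_eq j _ _ _ _ hj (htri p hp).1 (htri p hp).2 (by omega) (by omega)]
  refine NUM_cov_zero hκ m j sg hsg (C.cols.map Prod.fst) hcov c hc.rel.dia hc.sym hc.rel.ant ?_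
  intro p hp
  rw [List.mem_map] at hp
  obtain ⟨x, hx, rfl⟩ := hp
  obtain ⟨⟨hx1, hx2⟩, y, hy, hyx⟩ := hcols x hx
  obtain ⟨hN, hy3⟩ := h3 y hy
  -- the weight
  set W : ℕ → ℕ → ℤ := fun a b => NUM_comb y.2.2 (NUM_ws j C) a b - y.2.1 * NUM_e y.1 a b with hW
  have hWt : ∀ q, NUM_t j sg W q = NUM_t j sg (NUM_comb y.2.2 (NUM_ws j C)) q -
      y.2.1 * NUM_t j sg (NUM_e y.1) q := by
    intro q
    simp only [NUM_t, hW]
    ring
  have hW0 : ∀ a b, a ≤ j → b ≤ j →
      ((if (m : ℤ) ∣ (a : ℤ) - b then NUM_t j sg W (a, b) else 0 : ℤ) : κ) = 0 := by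
    refine NUM_cov_zero hκ m j sg hsg (C.cols.map Prod.fst) hcov
      (fun a b => ((if (m : ℤ) ∣ (a : ℤ) - b then NUM_t j sg W (a, b) else 0 : ℤ) : κ))
      ?_ ?_ ?_ ?_
    · intro a b _ _ hd
      rw [if_neg hd]
      simp
    · intro a b _ _
      have hd : (m : ℤ) ∣ (b : ℤ) - a ↔ (m : ℤ) ∣ (a : ℤ) - b := by
        rw [← dvd_neg, neg_sub]
      simp only [hd]
      by_cases hd' : (m : ℤ) ∣ (a : ℤ) - b
      · rw [if_pos hd', if_pos hd']
        rw [← Int.cast_mul]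
        congr 1
        simp only [NUM_t]
        rcases hsg with h | h
        · rw [h]; ring
        · rw [h]; ring
      · rw [if_neg hd', if_neg hd']
        simp
    · intro a b ha hb
      have hd : (m : ℤ) ∣ ((j - a : ℕ) : ℤ) - ((j - b : ℕ) : ℤ) ↔ (m : ℤ) ∣ (a : ℤ) - b := by
        rw [← dvd_neg, show -(((j - a : ℕ) : ℤ) - ((j - b : ℕ) : ℤ)) = (a : ℤ) - b by omega]
      simp only [hd]
      by_cases hd' : (m : ℤ) ∣ (a : ℤ) - b
      · rw [if_pos hd', if_pos hd']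
        rw [← Int.cast_neg]
        congr 1
        simp only [NUM_t]
        rw [show j - (j - a) = a by omega, show j - (j - b) = b by omega]
        ring
      · rw [if_neg hd', if_neg hd']
        simp
    · intro q hq
      rw [List.mem_map] at hq
      obtain ⟨z, hz, rfl⟩ := hq
      split_ifs with hd
      · have h4 := hy3 z hz
        rw [hcol z hz, NUM_dot_comb] at h4
        rw [show (z.1.1, z.1.2) = z.1 from rfl, hWt, h4]
        simp
      · simp
  have h4 : 4 * NUM_ev j c W = 0 := by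
    rw [NUM_four m j sg c hc W]
    refine Finset.sum_eq_zero fun a ha => Finset.sum_eq_zero fun b hb => ?_
    rw [Finset.mem_range] at ha hb
    rw [hW0 a b (by omega) (by omega), zero_mul]
  have h5 : NUM_ev j c W = 0 := by
    have h6 : (4 : κ) ≠ 0 := by
      have : (4 : κ) = 2 * 2 := by norm_num
      rw [this]
      exact mul_ne_zero hκ hκ
    exact (mul_eq_zero.mp h4).resolve_left h6
  have h6 : NUM_ev j c W = NUM_ev j c (NUM_comb y.2.2 (NUM_ws j C)) -
      (y.2.1 : κ) * NUM_ev j c (NUM_e y.1) := by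
    simp only [NUM_ev, Finset.mul_sum, ← Finset.sum_sub_distrib, hW]
    refine Finset.sum_congr rfl fun a _ => Finset.sum_congr rfl fun b _ => ?_
    push_cast
    ring
  rw [h5, NUM_ev_comb j c _ _ hws, hyx, NUM_ev_e j c x.1 hx1 hx2] at h6
  have h7 : (y.2.1 : κ) * c x.1.1 x.1.2 = 0 := by linear_combination h6
  have h8 : (y.2.1 : κ) ≠ 0 := by
    intro h9
    apply hD
    have h10 : y.2.1.natAbs ∣ Dn := Nat.dvd_of_mod_eq_zero hN
    obtain ⟨d, hd⟩ := h10
    rw [hd]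
    have h11 : ((y.2.1.natAbs : ℕ) : κ) = 0 := by
      rcases Int.natAbs_eq y.2.1 with h12 | h12
      · rw [h12] at h9
        simpa using h9
      · rw [h12] at h9
        simpa using h9
    rw [Nat.cast_mul, h11, zero_mul]
  exact (mul_eq_zero.mp h7).resolve_left h8


end Pool.Agent.OD

namespace Pool.Agent.OE

open MvPolynomial Matrix

/-- the coefficients of a solution of the period relations satisfy the relations of project OD -/
theorem NUB_rel (t : ℤ) (ht : t = 0 ∨ t = 1) (l : ℕ) (hlp : l.Prime)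
    (hl2 : l ≠ 2) (hl3 : l ≠ 3 ∨ t = 0) (j : ℕ)
    {κ : Type} [Field κ] (π : Oz 1 t →+* κ) (hl : (l : κ) = 0) (g : Pol κ) (hg : RelP π j g) :
    OD.Rel (if t = 0 then 4 else 6) j (cf g j) := by
  have hg' : OD.BiHom j g := hg.hom
  have hdia : ∀ a b, a ≤ j → b ≤ j → ¬ (((if t = 0 then 4 else 6 : ℕ) : ℤ) ∣ (a : ℤ) - b) →
      cf g j a b = 0 := by
    intro a b ha hb hab
    refine NUQ_dia (OD.CFD OD.EXQ) t ht l hlp hl2 hl3 j π hl g hg a b ha hb ?_
    rcases ht with rfl | rfl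
    · simpa using hab
    · simpa using hab
  refine ⟨hdia, fun a b ha hb => ?_, fun s s' hs hs' => ?_⟩
  · by_cases hab : (((if t = 0 then 4 else 6 : ℕ) : ℤ) ∣ (a : ℤ) - b)
    · have h1 := OD.CFW OD.EXQ t π j g hg' a b ha hb
      have h2 : OD.act π !![0, -1; 1, 0] g = -g := hg.inv
      rw [h2] at h1
      have h3 : Even (a + b) := by
        obtain ⟨c, hc⟩ := hab
        rcases ht with rfl | rfl
        · rw [if_pos rfl] at hc
          have : (a : ℤ) + b = 2 * (b + 2 * c) := by push_cast at hc; linarith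
          exact (Int.even_coe_nat _).mp (by rw [Nat.cast_add, this]; exact even_two_mul _)
        · rw [if_neg one_ne_zero] at hc
          have : (a : ℤ) + b = 2 * (b + 3 * c) := by push_cast at hc; linarith
          exact (Int.even_coe_nat _).mp (by rw [Nat.cast_add, this]; exact even_two_mul _)
      rw [h3.neg_one_pow, one_mul] at h1
      have h4 : OD.cf (-g) j a b = - OD.cf g j a b := by simp [OD.cf]
      rw [h4] at h1
      exact h1.symm
    · rw [hdia a b ha hb hab, neg_zero]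
      refine hdia _ _ (by omega) (by omega) ?_
      intro h
      apply hab
      rw [Nat.cast_sub ha, Nat.cast_sub hb] at h
      have := h.neg_right
      rwa [show -((j : ℤ) - a - (j - b)) = a - b by ring] at this
  · obtain ⟨h1, h2⟩ := OD.CFT OD.EXQ t π j g hg' s s' hs hs'
    have h3 := congrArg (fun P => OD.cf P j s s') hg.tri
    have h4 : OD.cf g j s s' + OD.cf (OD.act π !![0, -1; 1, 1] g) j s s' +
        OD.cf (OD.act π !![-1, -1; 1, 0] g) j s s' = 0 := by
      have h5 : OD.cf (g + act π !![0, -1; 1, 1] g + act π !![-1, -1; 1, 0] g) j s s' =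
        OD.cf (0 : Pol κ) j s s' := h3
      have h6 : OD.cf g j s s' + OD.cf (act π !![0, -1; 1, 1] g) j s s' +
        OD.cf (act π !![-1, -1; 1, 0] g) j s s' = 0 := by
        simpa [OD.cf] using h5
      exact h6
    rw [h1, h2] at h4
    have h6 : ∀ a b, cf g j a b = OD.cf g j a b := fun a b => rfl
    simp only [h6]
    rw [← h4, add_assoc, ← Finset.sum_add_distrib]
    congr 1
    refine Finset.sum_congr rfl fun a _ => ?_
    rw [← Finset.sum_add_distrib]
    refine Finset.sum_congr rfl fun b _ => ?_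
    push_cast
    ring

/-- from a certificate of project OD for the antisymmetric part -/
theorem NUB_one (t : ℤ) (ht : t = 0 ∨ t = 1) (m j Dn : ℕ) (hm : m = if t = 0 then 4 else 6)
    (hj : j ≤ 22) (C : OD.NUM_Cert) (hC : C.fre = [])
    (h1 : OD.NUM_chk1 m j (-1) C = true) (h2 : OD.NUM_chk2 j (-1) C = true)
    (h3 : OD.NUM_chk4 Dn j (-1) C = true) (l : ℕ) (hlp : l.Prime) (hl2 : l ≠ 2)
    (hl3 : l ≠ 3 ∨ t = 0) (hD : ¬ l ∣ Dn) : NUMA_stmt 1 t l j := by
  intro κ _ π hl g hg hanti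
  have hrel := NUB_rel t ht l hlp hl2 hl3 j π hl g hg
  have h2ne : (2 : κ) ≠ 0 := by exact_mod_cast NUQ_ne l hlp hl 2 Nat.prime_two hl2
  have hDne : ((Dn : ℕ) : κ) ≠ 0 := by
    intro h
    apply hD
    have hchar : CharP κ l := by
      obtain ⟨p, hp⟩ := CharP.exists κ
      have h4 : p ∣ l := (CharP.cast_eq_zero_iff κ p l).mp hl
      rcases (Nat.dvd_prime hlp).mp h4 with h5 | h5
      · subst h5
        exact absurd rfl (@CharP.char_ne_one κ _ _ 1 hp)
      · rwa [h5] at hp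
    exact (CharP.cast_eq_zero_iff κ l Dn).mp h
  have hT : ∀ a b, a ≤ j → b ≤ j → cf g j b a = ((-1 : ℤ) : κ) * cf g j a b := by
    intro a b ha hb
    rw [← CL_sw_cf EXQ j g hg.hom a b ha hb, hanti]
    simp [cf]
  have hz := OD.NUM_sound2 Dn m j (-1) (Or.inr rfl) hj C h1 h2 h3 h2ne hDne (cf g j)
    ⟨by rw [hm]; exact hrel, hT⟩ (by rw [hC]; simp)
  rw [((EXQ (A := κ)) j).1 g hg.hom]
  refine Finset.sum_eq_zero fun a ha => Finset.sum_eq_zero fun b hb => ?_
  rw [Finset.mem_range] at ha hb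
  rw [hz a b (by omega) (by omega)]
  simp

/-- certificates modulo `ℓ`, parity -/
theorem NUB_two (d tn nd l j K n w : ℕ) (D T : ℤ) (hDd : (d : ℤ) = D) (hT : (tn : ℤ) = T)
    (hK : K = j + 1) (hn : n = K * K) (hw : w = 44 * K) (ht1 : tn ≤ 1) (hnd : l ∣ nd + d)
    (hlp : l.Prime) (hl2 : l ≠ 2) (r : List (ℕ × ℕ × ℕ × ℕ)) (p : List (ℕ × ℕ))
    (c : List (ℕ × ℕ × ℕ × ℕ × ℕ)) (h1 : CL_chk1 d j 2 l nd ⟨r, p, [c]⟩ = true)
    (h2 : CL_tgs nd tn l j K n w r p c = true) : NUMA_stmt D T l j := by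
  subst hDd hT hK hn hw
  refine CL_sound EXQ (CFE EXQ) (CFU EXQ) (CFW EXQ) d tn nd l j 2 ht1 hnd hlp hl2
    ?_ ⟨r, p, [c]⟩ h1 ?_
  · intro κ _ π hl g hg a b ha hb hab
    exact NUQ_hm2 (CFU EXQ) d tn l hlp hl2 j π hl g hg a b ha hb hab
  intro ch hch
  rw [List.mem_singleton] at hch
  subst hch
  exact h2

/-- certificates modulo `ℓ` for the fields with more units -/
theorem NUB_six (tn nd l j K n w m : ℕ) (T : ℤ) (hT : (tn : ℤ) = T)
    (hK : K = j + 1) (hn : n = K * K) (hw : w = 44 * K) (ht1 : tn ≤ 1) (hnd : l ∣ nd + 1)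
    (hlp : l.Prime) (hl2 : l ≠ 2) (hl3 : l ≠ 3) (hm : m = if tn = 0 then 4 else 6)
    (r : List (ℕ × ℕ × ℕ × ℕ)) (p : List (ℕ × ℕ))
    (c : List (ℕ × ℕ × ℕ × ℕ × ℕ)) (h1 : CL_chk1 1 j m l nd ⟨r, p, [c]⟩ = true)
    (h2 : CL_tgs nd tn l j K n w r p c = true) : NUMA_stmt 1 T l j := by
  subst hT hK hn hw
  have ht : (tn : ℤ) = 0 ∨ (tn : ℤ) = 1 := by omega
  suffices h : NUMA_stmt ((1 : ℕ) : ℤ) tn l j by
    rwa [Nat.cast_one] at h
  refine CL_sound EXQ (CFE EXQ) (CFU EXQ) (CFW EXQ) 1 tn nd l j m ht1 hnd hlp hl2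
    ?_ ⟨r, p, [c]⟩ h1 ?_
  · intro κ _ π hl g hg a b ha hb hab
    refine NUQ_dia (OD.CFD OD.EXQ) tn ht l hlp hl2 (Or.inl hl3) j π hl g hg a b ha hb ?_
    intro h
    apply hab
    have h3 : (m : ℤ) ∣ (a : ℤ) - b := by
      rw [hm]
      by_cases h0 : tn = 0
      · subst h0
        simpa using h
      · have h1' : tn = 1 := by omega
        subst h1'
        simpa using h
    have h4 : b ≡ a [MOD m] := (Nat.modEq_iff_dvd).mpr h3
    exact h4.symm
  · intro ch hch
    rw [List.mem_singleton] at hch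
    subst hch
    exact h2

end Pool.Agent.OE
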