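import Pool.Agent.helper21.OE.NUB

/-!
# Project OE: certificates of the antisymmetric part in several pieces
-/

namespace Pool.Agent.OE

/-- certificates modulo `ℓ`, parity, the combinations in several lists -/
theorem NUC_two (d tn nd l j K n w : ℕ) (D T : ℤ) (hDd : (d : ℤ) = D) (hT : (tn : ℤ) = T)
    (hK : K = j + 1) (hn : n = K * K) (hw : w = 44 * K) (ht1 : tn ≤ 1) (hnd : l ∣ nd + d)
    (hlp : l.Prime) (hl2 : l ≠ 2) (r : List (ℕ × ℕ × ℕ × ℕ)) (p : List (ℕ × ℕ))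
    (cs : List (List (ℕ × ℕ × ℕ × ℕ × ℕ))) (h1 : CL_chk1 d j 2 l nd ⟨r, p, cs⟩ = true)
    (h2 : ∀ c ∈ cs, CL_tgs nd tn l j K n w r p c = true) : NUMA_stmt D T l j := by
  subst hDd hT hK hn hw
  refine CL_sound EXQ (CFE EXQ) (CFU EXQ) (CFW EXQ) d tn nd l j 2 ht1 hnd hlp hl2
    ?_ ⟨r, p, cs⟩ h1 h2
  intro κ _ π hl g hg a b ha hb hab
  exact NUQ_hm2 (CFU EXQ) d tn l hlp hl2 j π hl g hg a b ha hb hab

/-- certificates modulo `ℓ` for the fields with more units, the combinations in several lists -/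
theorem NUC_six (tn nd l j K n w m : ℕ) (T : ℤ) (hT : (tn : ℤ) = T)
    (hK : K = j + 1) (hn : n = K * K) (hw : w = 44 * K) (ht1 : tn ≤ 1) (hnd : l ∣ nd + 1)
    (hlp : l.Prime) (hl2 : l ≠ 2) (hl3 : l ≠ 3) (hm : m = if tn = 0 then 4 else 6)
    (r : List (ℕ × ℕ × ℕ × ℕ)) (p : List (ℕ × ℕ))
    (cs : List (List (ℕ × ℕ × ℕ × ℕ × ℕ))) (h1 : CL_chk1 1 j m l nd ⟨r, p, cs⟩ = true)
    (h2 : ∀ c ∈ cs, CL_tgs nd tn l j K n w r p c = true) : NUMA_stmt 1 T l j := by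
  subst hT hK hn hw
  have ht : (tn : ℤ) = 0 ∨ (tn : ℤ) = 1 := by omega
  suffices h : NUMA_stmt ((1 : ℕ) : ℤ) tn l j by
    rwa [Nat.cast_one] at h
  refine CL_sound EXQ (CFE EXQ) (CFU EXQ) (CFW EXQ) 1 tn nd l j m ht1 hnd hlp hl2
    ?_ ⟨r, p, cs⟩ h1 h2
  intro κ _ π hl g hg a b ha hb hab
  refine NUQ_dia (OD.CFD OD.EXQ) tn ht l hlp hl2 (Or.inl hl3) j π hl g hg a b ha hb ?_
  intro h
  apply hab
  have h3 : (m : ℤ) ∣ (a : ℤ) - b := by
    rw [hm]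
    by_cases h0 : tn = 0
    · subst h0
      simpa using h
    · have h1' : tn = 1 := by omega
      subst h1'
      simpa using h
  have h4 : b ≡ a [MOD m] := (Nat.modEq_iff_dvd).mpr h3
  exact h4.symm

end Pool.Agent.OE
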