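import Pool.Agent.helper21.OE.NUB

/-!
# Project OE: certificates modulo `7` for the antisymmetric part, discriminant -7
-/

namespace Pool.Agent.OE

set_option maxRecDepth 100000

/-- certificate `NB_2_1_7_1`, rows -/
def NB_2_1_7_1_r : List (ℕ × ℕ × ℕ × ℕ) :=
  []

/-- certificate `NB_2_1_7_1`, coordinates -/
def NB_2_1_7_1_p : List (ℕ × ℕ) := []

/-- certificate `NB_2_1_7_1`, combinations -/
def NB_2_1_7_1_c : List (ℕ × ℕ × ℕ × ℕ × ℕ) :=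
  []

theorem NB_2_1_7_1 : NUMA_stmt 2 1 7 1 :=
  NUB_two 2 1 5 7 1 2 4 88 2 1 rfl rfl rfl rfl rfl (by norm_num) (by norm_num)
    (by norm_num) (by norm_num) NB_2_1_7_1_r NB_2_1_7_1_p NB_2_1_7_1_c (by decide +kernel) (by decide +kernel)

/-- certificate `NB_2_1_7_2`, rows -/
def NB_2_1_7_2_r : List (ℕ × ℕ × ℕ × ℕ) :=
  [(0, 0, 1, 2)]

/-- certificate `NB_2_1_7_2`, coordinates -/
def NB_2_1_7_2_p : List (ℕ × ℕ) := [(1, 3)]

/-- certificate `NB_2_1_7_2`, combinations -/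
def NB_2_1_7_2_c : List (ℕ × ℕ × ℕ × ℕ × ℕ) :=
  [(0, 2, 2, 1, 0)]

theorem NB_2_1_7_2 : NUMA_stmt 2 1 7 2 :=
  NUB_two 2 1 5 7 2 3 9 132 2 1 rfl rfl rfl rfl rfl (by norm_num) (by norm_num)
    (by norm_num) (by norm_num) NB_2_1_7_2_r NB_2_1_7_2_p NB_2_1_7_2_c (by decide +kernel) (by decide +kernel)

/-- certificate `NB_2_1_7_3`, rows -/
def NB_2_1_7_3_r : List (ℕ × ℕ × ℕ × ℕ) :=
  [(0, 0, 1, 2)]

/-- certificate `NB_2_1_7_3`, coordinates -/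
def NB_2_1_7_3_p : List (ℕ × ℕ) := [(1, 3)]

/-- certificate `NB_2_1_7_3`, combinations -/
def NB_2_1_7_3_c : List (ℕ × ℕ × ℕ × ℕ × ℕ) :=
  [(0, 2, 1, 4, 0)]

theorem NB_2_1_7_3 : NUMA_stmt 2 1 7 3 :=
  NUB_two 2 1 5 7 3 4 16 176 2 1 rfl rfl rfl rfl rfl (by norm_num) (by norm_num)
    (by norm_num) (by norm_num) NB_2_1_7_3_r NB_2_1_7_3_p NB_2_1_7_3_c (by decide +kernel) (by decide +kernel)

end Pool.Agent.OE
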