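import Pool.Agent.helper21.OE.SpecC

/-!
# Project OE (MP_2e0e07_nt): rows CLR, NEG (ramified primes, parity)
-/

namespace Pool.Agent.OE

open MvPolynomial Matrix

/-- ROW CLR (medium). The class for `ℓ` ramified (`ℓ ∣ t² - 4 d`, `ℓ` odd). Then `ℓ ∣ t² - 4d` and `w = π(ω)` satisfies
`(2w - t)² = t² - 4d = 0`, so `2w = t` in `κ`, and the same for `π(ω̄) = t - w = w`: `π(x̄) = π(x)`. (1) For
`x = a + b ω` let `n` be an integer with `2n ≡ 2a + t b` modulo `ℓ`; `π(x) = π(n) = n`, and `u = x - n` has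
`4 N(u) = (2(a-n) + tb)² + (4d - t²) b²` divisible by `ℓ`; more precisely `u² = tr(u) u - N(u)` with `ℓ ∣ tr(u) = 2(a-n) + tb`
and `ℓ ∣ N(u)`, so `ℓ ∣ u²`. Hence `(n + u)^ℓ ≡ n^ℓ` modulo `ℓ` (binomial theorem: the terms with `u^i`, `i ≥ 2`, are divisible
by `ℓ`, the term `ℓ n^(ℓ-1) u` too), and `ℓ^(r+1) ∣ x^(ℓ^(r+1)) - n^(ℓ^(r+1))` (`dvd_sub_pow_of_dvd_sub` as in CLU (1)), so
`(χ x - χ n)^(ℓ^(r+1)) = 0` (`sub_pow_char_pow`), `χ x = χ n`. (2) Let `g` be an integer primitive root modulo `ℓ`;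
`χ(g)^(ℓ-1) = χ(g^(ℓ-1)) = χ(1) = 1` (by (1), or directly, `x ≡ y` modulo `ℓ` implies `χ x = χ y`), so `χ(g) = g^i` in `κ`
(`IsPrimitiveRoot.eq_pow_of_pow_eq_one`). `g^((ℓ-1)/2) ≡ -1`, so `1 = χ(-1) = (g^i)^((ℓ-1)/2) = (-1)^i` and `i = 2 i'` is even
(`1 ≠ -1` in `κ`). (3) For `x` prime to `ℓ`: `n ≡ g^a` modulo `ℓ`, `χ(x) = χ(n) = (g^(2i'))^a = (n²)^(i')`, and
`π(x x̄) = n²`; so `χ(x) π(x x̄)^k = (n²)^(i' + k)`, and `(n²)^((ℓ-1)/2) = 1`: choose `j ≡ i' + k` modulo `(ℓ-1)/2` with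
`1 ≤ j ≤ (ℓ-1)/2`. (Model: OE.CLU helper20.) -/
def CLR_stmt : Prop := ∀ (d t : ℤ), IsEuc d t → ∀ ℓ : ℕ, ℓ.Prime → ℓ ≠ 2 →
  ((ℓ : ℕ) : ℤ) ∣ t ^ 2 - 4 * d → ∀ {κ : Type} [Field κ] (π : Oz d t →+* κ),
  ((ℓ : ℕ) : κ) = 0 → ∀ (r : ℕ) (χ : Oz d t →* κ),
  (∀ x y : Oz d t, ((ℓ : ℕ) : Oz d t) ^ r ∣ x - y → χ x = χ y) → χ (-1) = 1 →
  ∀ k : ℕ, ∃ j, 1 ≤ j ∧ 2 * j ≤ ℓ - 1 ∧ ∀ x : Oz d t, ¬ ((ℓ : ℕ) : ℤ) ∣ x.norm →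
    χ x * π (x * star x) ^ k = π (x * star x) ^ j

/-- ROW NEG (short). The element `γ = -1` of `GL₂(O)`: `φ(-u, -v) = φ(u, v)` (`smul_left`, `smul_right`, `c = -1`), and
`= χ(-1) act(-1) φ(u, v) = χ(-1) φ(u, v)` (`N ∣ 0`; ACS with `z = -1`). So `(1 - χ(-1)) φ = 0`. -/
def NEG_stmt : Prop := ∀ (d t : ℤ), IsEuc d t → ∀ {A : Type} [CommRing A] [IsDomain A]
  (f : Oz d t →+* A) (k N : ℕ) (χ : Oz d t → A) (φ : Sy d t A), IsSym f k N χ φ → χ (-1) ≠ 1 →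
  φ = 0

end Pool.Agent.OE
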