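import Pool.Agent.helper21.OE.Asm
import Pool.Agent.helper21.OE.SpecD
import Pool.Agent.helper91.OD.LAT
import Pool.Agent.helper40.OE.ACM
import Pool.Agent.helper27.OE.ACH
import Pool.Agent.helper45.OE.ACS
import Pool.Agent.helper45.OE.ACB
import Pool.Agent.helper30.OE.EVA
import Pool.Agent.helper30.OE.SNG
import Pool.Agent.helper85.OE.NRU
import Pool.Agent.helper99.OE.EUC
import Pool.Agent.helper68.OE.NRF
import Pool.Agent.helper68.OE.REQ
import Pool.Agent.helper18.OE.DTU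
import Pool.Agent.helper93.OE.REP
import Pool.Agent.helper32.OE.CNJ
import Pool.Agent.helper74.OE.PRG
import Pool.Agent.helper71.OE.PRV
import Pool.Agent.helper35.OE.FIX
import Pool.Agent.helper99.OE.FRE
import Pool.Agent.helper92.OE.MAN
import Pool.Agent.helper71.OE.TR1
import Pool.Agent.helper71.OE.TR2
import Pool.Agent.helper17.OE.TSU
import Pool.Agent.helper83.OE.USU
import Pool.Agent.helper63.OE.EVT
import Pool.Agent.helper99.OE.USD
import Pool.Agent.helper99.OE.BJH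
import Pool.Agent.helper45.OE.FUA
import Pool.Agent.helper99.OE.FUD
import Pool.Agent.helper68.OE.KZE
import Pool.Agent.helper48.OE.FIN
import Pool.Agent.helper40.OE.MPC
import Pool.Agent.helper29.OE.DEN
import Pool.Agent.helper27.OE.DVI
import Pool.Agent.helper72.OE.EXQ
import Pool.Agent.helper32.OE.CFU
import Pool.Agent.helper11.OE.CFW
import Pool.Agent.helper45.OE.CFE
import Pool.Agent.helper27.OE.WRQ
import Pool.Agent.helper20.OE.CLU
import Pool.Agent.helper54.OE.CLR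
import Pool.Agent.helper9.OE.NEG
import Pool.Agent.helper22.OE.CMG
import Pool.Agent.helper71.OE.CJA
import Pool.Agent.helper18.OE.CJS
import Pool.Agent.helper42.OE.PRC
import Pool.Agent.helper3.OE.PRX
import Pool.Agent.helper28.OE.CJU
import Pool.Agent.helper41.OE.CJT
import Pool.Agent.helper80.OE.CEV
import Pool.Agent.helper80.OE.CBU
import Pool.Agent.helper80.OE.WDA
import Pool.Agent.helper93.OE.CBT
import Pool.Agent.helper98.OE.FCV

/-!
# Project OE: the rows put together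
-/

namespace Pool.Agent.OE

theorem M_MAN : MAN_stmt := MAN EUC
theorem M_DTU : DTU_stmt := DTU NRU REQ
theorem M_PRV : PRV_stmt := PRV REP REQ M_DTU
theorem M_TR1 : TR1_stmt := TR1 ACM ACS NRU
theorem M_TR2 : TR2_stmt := TR2 ACM ACH ACS NRU
theorem M_TSU : TSU_stmt := TSU M_TR1 M_TR2 PRG CNJ ACH
theorem M_USU : USU_stmt := USU M_TR1 M_TR2 M_PRV CNJ ACH
theorem M_FUA : FUA_stmt := FUA SNG
theorem M_FUD : FUD_stmt := FUD REP REQ M_DTU CNJ NRF
theorem M_EVT : EVT_stmt := EVT EVA M_DTU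
theorem M_USD : USD_stmt := USD M_PRV CNJ
theorem M_BJH : BJH_stmt := BJH PRG CNJ NRU M_DTU
theorem M_KZE : KZE_stmt := KZE M_MAN
theorem M_FIN : FIN_stmt := FIN FIX M_MAN
theorem M_MPC : MPC_stmt := MPC ACB
theorem M_DEN : DEN_stmt := DEN FIX M_MAN ACB
theorem M_WRQ : WRQ_stmt := WRQ M_MAN
theorem M_CLU : CLU_stmt := CLU REQ NRF
theorem M_FRE : FRE_stmt := FRE FIX
theorem M_NEG : NEG_stmt := NEG ACS
theorem M_CJS : CJS_stmt := CJS CMG CJA
theorem M_PRC : PRC_stmt := PRC CMG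
theorem M_PRX : PRX_stmt := PRX REP
theorem M_CJU : CJU_stmt := CJU CMG CJA M_CJS M_PRX M_TR1
theorem M_CJT : CJT_stmt := CJT CMG CJA M_CJS M_PRC CNJ M_TR1
theorem M_CEV : CEV_stmt := CEV CMG CJA
theorem M_CBU : CBU_stmt := CBU CMG M_CEV M_PRX
theorem M_CBT : CBT_stmt := CBT CMG M_CEV M_PRC CNJ M_DTU
theorem M_FCV : FCV_stmt := FCV M_FUA M_FUD M_EVT M_USD M_BJH M_TSU M_KZE M_CBU M_CBT M_CEV
theorem M_WDA : WDA_stmt := WDA M_WRQ M_CJS CJA

end Pool.Agent.OE
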