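import Pool.Agent.helper21.OE.Defs

/-!
# Project OE (MP_2e0e07_nt): rows, blocks A (action), G (ring), M (Manin), H (Hecke), S (scalar
symbols), L (lattices). General form of project OD: five rings, every prime `ℓ`

Notation in the docstrings: `O = Oz d t`, `x̄ = star x`, `N(x) = x x̄` (the integer `x.norm`,
`QuadraticAlgebra.algebraMap_norm_eq_mul_star`), `e1 = ![1, 0]`, `e2 = ![0, 1]`,
`M_x = (1 x; 0 ℓ)`, `α = (1 0; 0 ℓ)`, `g_x = (1 x; 0 1)`, `w = (0 -1; 1 0)`, so `M_x = α g_x`, and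
`al ℓ g = α g`. There is no condition on the prime `ℓ` (it may be inert, split or ramified); an element
`x` is prime to `ℓ` if `¬ (ℓ : ℤ) ∣ x.norm`. For `γ : GO d t` the matrix is `γ.val`; `γ.val.det` is a unit and
`N(unit) = 1` (NRU). Rows with the same name as in project OD: the proofs in `Pool/Agent/*/OD/XXX.lean` with
`Oz t` replaced by `Oz d t` should go through with small changes.
-/

namespace Pool.Agent.OE

open MvPolynomial Matrix

/-! ## Block A: the action -/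

/-- ROW ACM (short). `act` is multiplicative: both sides are algebra homomorphisms, compare them on
the four variables (`MvPolynomial.algHom_ext`, `Fin` cases, `simp [act]`, `ring`); for the last two
variables use `star (a * b) = star b * star a`, `star (a + b) = star a + star b`, commutativity. -/
def ACM_stmt : Prop := ∀ {d t : ℤ} {A : Type} [CommRing A] (f : Oz d t →+* A) (g h : Mat d t)
  (P : Pol A), act f (g * h) P = act f g (act f h P)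

/-- ROW ACH (short-medium). `act` preserves `BiHom k`. Write `act f g P = aeval v P` with `v i` weighted
homogeneous of degree `w i` for both weights (`C a * X i + C b * X i'` is). Then a general lemma:
if `P` is weighted homogeneous of degree `k` for `w` and every `v i` is weighted homogeneous of
degree `w i` (for `w` on the target), then `aeval v P = ∑ monomials` is weighted homogeneous of
degree `k`: `aeval v P = ∑ d ∈ P.support, C (coeff d P) * ∏ i, v i ^ d i` and for `d` in the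
support `∑ i, d i * w i = k`; `IsWeightedHomogeneous.prod`, `.pow`, `.mul`, `isWeightedHomogeneous_C`,
`IsWeightedHomogeneous.sum` (or the submodule `weightedHomogeneousSubmodule`). -/
def ACH_stmt : Prop := ∀ {d t : ℤ} {A : Type} [CommRing A] (f : Oz d t →+* A) (g : Mat d t) (k : ℕ)
  (P : Pol A), BiHom k P → BiHom k (act f g P)

/-- ROW ACS (short-medium). A scalar matrix `z` acts on `BiHom k` by `N(z) ^ k`. On a monomial
`X^a Y^b Z^c W^d` (`a + b = k = c + d`) it acts by `f(z)^(a+b) f(z̄)^(c+d)`. Write `P` as the sum of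
its monomials (`MvPolynomial.induction_on'''` is inconvenient: use `P.as_sum`, `map_sum`, and for
`d ∈ P.support` the two equations `d 0 + d 1 = k`, `d 2 + d 3 = k` from the two homogeneities). -/
def ACS_stmt : Prop := ∀ {d t : ℤ} {A : Type} [CommRing A] (f : Oz d t →+* A) (z : Oz d t) (k : ℕ)
  (P : Pol A), BiHom k P → act f (z • (1 : Mat d t)) P = f (z * star z) ^ k • P

/-- ROW ACB (short). Base change: both sides are ring homomorphisms of `P`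
(`MvPolynomial.ringHom_ext` or `induction_on`), equal on constants and on the variables. -/
def ACB_stmt : Prop := ∀ {d t : ℤ} {A B : Type} [CommRing A] [CommRing B] (f : Oz d t →+* A)
  (φ : A →+* B) (g : Mat d t) (P : Pol A),
  MvPolynomial.map φ (act f g P) = act (φ.comp f) g (MvPolynomial.map φ P)

/-- ROW EVA (short). The value at `(0, 1, 0, 1)` of `act f g P` when `f` kills `g 1 0` and its
conjugate, for `P` of bidegree `(k, k)`: it is `P(0, f(g11), 0, f(ḡ11)) = f(g11)^k f(ḡ11)^k P(0,1,0,1)`.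
Proof: `eval x (act f g P) = eval y P` with `y = ![x0 f(g00) + x1 f(g10), ...]` (`MvPolynomial.aeval`,
`eval₂` composition), here `y = ![0, f g11, 0, f ḡ11]`; then homogeneity: only monomials
`X^a Y^b Z^c W^d` with `a + b = k`, `c + d = k`, and only `a = c = 0` contribute on both sides. -/
def EVA_stmt : Prop := ∀ {d t : ℤ} {A : Type} [CommRing A] (f : Oz d t →+* A) (g : Mat d t) (k : ℕ)
  (P : Pol A), BiHom k P → f (g 1 0) = 0 → f (star (g 1 0)) = 0 →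
  eval ![0, 1, 0, 1] (act f g P) = f (g 1 1 * star (g 1 1)) ^ k * eval ![0, 1, 0, 1] P

/-- the polynomial `(a Y - b X)^k (ā W - b̄ Z)^k`, the coefficients taken in `A` by `f` -/
noncomputable def lin {d t : ℤ} {A : Type} [CommRing A] (f : Oz d t →+* A) (k : ℕ)
    (a b : Oz d t) : Pol A :=
  (C (f a) * X 1 - C (f b) * X 0) ^ k * (C (f (star a)) * X 3 - C (f (star b)) * X 2) ^ k

/-- ROW SNG (short-medium). If `f ℓ = 0` then for `P` of bidegree `(k, k)` and every matrix `g` with top row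
`(a, b)`: `adj(α g) = (ℓ g11, -b; -ℓ g10, a)` sends `P` to
`P(0, aY - bX, 0, āW - b̄Z) = P(0,1,0,1) (aY - bX)^k (āW - b̄Z)^k`: only the monomial `Y^k W^k` of `P`
survives and its coefficient is `P(0,1,0,1)`. (`star ℓ = ℓ`; `Matrix.adjugate_fin_two`; model: OD.SNG.) -/
def SNG_stmt : Prop := ∀ {d t : ℤ} {A : Type} [CommRing A] (f : Oz d t →+* A) (ℓ k : ℕ) (P : Pol A),
  f ((ℓ : ℕ) : Oz d t) = 0 → BiHom k P → ∀ g : Mat d t,
  act f (al ℓ g).adjugate P = C (eval ![0, 1, 0, 1] P) * lin f k (g 0 0) (g 0 1)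

/-! ## Block G: arithmetic of the ring -/

/-- ROW NRU (short). A unit has `z z̄ = 1`: `norm z` is a unit of `ℤ` and `norm z = x² + t x y + d y² ≥ 0`
(`t² ≤ 4 d` in all five cases). -/
def NRU_stmt : Prop := ∀ (d t : ℤ), IsEuc d t → ∀ z : Oz d t, IsUnit z → z * star z = 1

/-- ROW EUC (short-medium). Euclidean division with the norm `x² + t x y + d y²`. Write
`p q̄ / N(q) = u + v ω` with rational `u, v`; choose `y` the nearest integer to `v`, `v' = v - y`, `|v'| ≤ 1/2`, and then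
`x` the nearest integer to `u + t v' / 2`; with `u' = u - x`: `(u' + t v'/2)² + (d - t²/4) v'² ≤ 1/4 + 1/4 (d - t²/4) < 1`
(`d - t²/4` is `1, 2, 3/4, 7/4, 11/4`). In integers: minimise as above after multiplication by `N(q)`
(for `t = 1` round `u + v'/2`, not `u`). -/
def EUC_stmt : Prop := ∀ (d t : ℤ), IsEuc d t → ∀ p q : Oz d t, q ≠ 0 →
  ∃ h : Oz d t, (p - h * q).norm < q.norm ∧ 0 ≤ (p - h * q).norm

/-- ROW NRF (short). Let `κ` be a field of characteristic `ℓ`. If `ℓ ∣ N(x)` then `π(x x̄) = 0`; otherwise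
`π(x x̄)^(ℓ-1) = 1` (Fermat), `π x ≠ 0` and `π x̄ ≠ 0`. -/
def NRF_stmt : Prop := ∀ (d t : ℤ) (ℓ : ℕ), ℓ.Prime → ∀ {κ : Type} [Field κ] (π : Oz d t →+* κ),
  ((ℓ : ℕ) : κ) = 0 → ∀ x : Oz d t,
  (((ℓ : ℕ) : ℤ) ∣ x.norm → π (x * star x) = 0) ∧
  (¬ ((ℓ : ℕ) : ℤ) ∣ x.norm → π (x * star x) ^ (ℓ - 1) = 1 ∧ π x ≠ 0 ∧ π (star x) ≠ 0)

/-- ROW REQ (short). Inverses modulo `ℓ`: if `ℓ ∤ N(p)` then `p' = m p̄` with `m` an integer inverse of `N(p)`
modulo `ℓ`; conversely if `ℓ ∣ p p' - 1` then `N(p) N(p') = N(1 + ℓ z) ≡ 1` modulo `ℓ` (norm is multiplicative,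
`N(1 + ℓ z) = 1 + ℓ (z + z̄) + ℓ² N(z)`). -/
def REQ_stmt : Prop := ∀ (d t : ℤ) (ℓ : ℕ), ℓ.Prime → ∀ p : Oz d t,
  ¬ ((ℓ : ℕ) : ℤ) ∣ p.norm ↔ ∃ p' : Oz d t, ((ℓ : ℕ) : Oz d t) ∣ p * p' - 1

/-- ROW DTU (short). If `ℓ ∣ γ10` or `ℓ ∣ γ01` for `γ ∈ GL₂(O)` then `γ00` and `γ11` are prime to `ℓ`, and
`π(γ00 γ11) = π(det γ)`, `π(N(γ00) N(γ11)) = 1` for every `π : O → κ` with `π(ℓ) = 0` (NRU). The inverse of the
determinant gives `γ00 (γ11 det⁻¹) ≡ 1` modulo `ℓ` (REQ). -/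
def DTU_stmt : Prop := ∀ (d t : ℤ), IsEuc d t → ∀ ℓ : ℕ, ℓ.Prime → ∀ γ : GO d t,
  (((ℓ : ℕ) : Oz d t) ∣ γ.val 1 0 ∨ ((ℓ : ℕ) : Oz d t) ∣ γ.val 0 1) →
  ¬ ((ℓ : ℕ) : ℤ) ∣ (γ.val 0 0).norm ∧ ¬ ((ℓ : ℕ) : ℤ) ∣ (γ.val 1 1).norm ∧
  ∀ {κ : Type} [Field κ] (π : Oz d t →+* κ), ((ℓ : ℕ) : κ) = 0 →
    π (γ.val 0 0) * π (γ.val 1 1) = π γ.val.det ∧
    π (γ.val 0 0 * star (γ.val 0 0)) * π (γ.val 1 1 * star (γ.val 1 1)) = 1

/-- ROW REP (short). Representatives modulo `ℓ`: every `z` is congruent to exactly one `rep d t x` (divide the two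
coordinates by `ℓ`; `ℓ ∣ z` iff `ℓ` divides both coordinates). -/
def REP_stmt : Prop := ∀ (d t : ℤ) (ℓ : ℕ), ℓ.Prime →
  (∀ z : Oz d t, ∃ x : Fin ℓ × Fin ℓ, ((ℓ : ℕ) : Oz d t) ∣ z - rep d t x) ∧
  (∀ x y : Fin ℓ × Fin ℓ, ((ℓ : ℕ) : Oz d t) ∣ rep d t x - rep d t y → x = y)

/-- ROW CNJ (short). Conjugation by `α = (1 0; 0 ℓ)`: for `h` in `GL₂(O)` with `ℓ ∣ h01` the matrix
`h' = (h00, h01/ℓ; ℓ h10, h11)` is in `GL₂(O)` (same determinant) and `α h = h' α`. -/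
def CNJ_stmt : Prop := ∀ (d t : ℤ) (ℓ : ℕ), ℓ ≠ 0 → ∀ h : GO d t, ((ℓ : ℕ) : Oz d t) ∣ h.val 0 1 →
  ∃ h' : GO d t, !![1, 0; 0, ((ℓ : ℕ) : Oz d t)] * h.val = h'.val * !![1, 0; 0, ((ℓ : ℕ) : Oz d t)] ∧
    h'.val 1 0 = ((ℓ : ℕ) : Oz d t) * h.val 1 0 ∧ h'.val 1 1 = h.val 1 1

/-- ROW PRG (short-medium). Right multiplication by `γ` permutes the classes of `Γ⁰(ℓ) \ GL₂(O)`: for `g ∈ F` let
`σ g` be the representative of `g γ`, so `g γ = h (σ g)`, `h = g γ (σ g)⁻¹` with `ℓ ∣ h01`. `σ` is injective: if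
`σ g = σ g'` then `g g'⁻¹ = h h'⁻¹` and `ℓ` divides its upper right entry (`Γ⁰(ℓ)` is a group: `h⁻¹ = det⁻¹ adj h`,
`(h h')01 = h00 h'01 + h01 h'11`), so `g = g'` by uniqueness for `γ = g` (`g` itself is a representative of `g`). -/
def PRG_stmt : Prop := ∀ (d t : ℤ) (ℓ : ℕ) (F : Finset (GO d t)), IsReps ℓ F → ∀ γ : GO d t,
  ∃ σ : Equiv.Perm F, ∀ g : F, ∃ h : GO d t, ((ℓ : ℕ) : Oz d t) ∣ h.val 0 1 ∧
    g.val * γ = h * (σ g).val

/-- ROW PRV (short-medium). The same for `U_ℓ`: if `ℓ ∣ γ10` then `γ00 + x γ10` is invertible modulo `ℓ` (DTU, REQ)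
and `g_x γ = h g_y` with `y` the unique representative (REP) with `ℓ ∣ (γ01 + x γ11) - (γ00 + x γ10) y`,
`h = (γ00 + x γ10, (γ01 + x γ11) - (γ00 + x γ10) y; γ10, γ11 - γ10 y)`; `x ↦ y` is injective:
`g_x g_x'⁻¹ = (1, x - x'; 0, 1)`. (Model: OD.PRU.) -/
def PRV_stmt : Prop := ∀ (d t : ℤ), IsEuc d t → ∀ ℓ : ℕ, ℓ.Prime → ∀ γ : GO d t,
  ((ℓ : ℕ) : Oz d t) ∣ γ.val 1 0 →
  ∃ σ : Equiv.Perm (Fin ℓ × Fin ℓ), ∀ x, ∃ h : GO d t, ((ℓ : ℕ) : Oz d t) ∣ h.val 0 1 ∧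
    h.val 1 0 = γ.val 1 0 ∧ h.val 1 1 = γ.val 1 1 - γ.val 1 0 * rep d t (σ x) ∧
    (!![1, rep d t x; 0, 1] : Mat d t) * γ.val = h.val * !![1, rep d t (σ x); 0, 1]

/-- ROW FIX (medium). `Γ₀(n)` has finite index in `GL₂(O)`, `n ≠ 0`: a finite set of matrices `δ` such that
every `γ` is `h δ` with `n ∣ h10`. Take the map from `GL₂(O)` to the finite set of matrices
`(Fin 2 → Fin 2 → ZMod n × ZMod n)` of coordinates modulo `n`; choose one `δ` in each nonempty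
fibre. If `γ ≡ δ` modulo `n` then `h = γ δ⁻¹ ≡ 1` modulo `n`: entries of `γ - δ` are divisible by
`n`, so those of `(γ - δ) δ⁻¹ = h - 1`. -/
def FIX_stmt : Prop := ∀ (d t : ℤ) (n : ℕ), n ≠ 0 → ∃ F : Finset (GO d t), ∀ γ : GO d t,
  ∃ δ ∈ F, ∃ h : GO d t, ((n : ℕ) : Oz d t) ∣ h.val 1 0 ∧ γ = h * δ

/-- ROW FRE (short-medium). A set of representatives exists. FIX with `n = ℓ` gives a finite `F0` such that every `γ` is
`h δ`, `ℓ ∣ h10`. Apply it to `w⁻¹ γ` (`w = (0 -1; 1 0)`): `γ = (w h w⁻¹) (w δ)` and `(w h w⁻¹)01 = - h10`. So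
finitely many classes cover `GL₂(O)` for the equivalence relation `ℓ ∣ (γ δ⁻¹)01`; choose one element in each class
(for instance a subset of minimal cardinality of the covering set, or the image of `Quotient.out`). -/
def FRE_stmt : Prop := ∀ (d t : ℤ) (ℓ : ℕ), ℓ ≠ 0 → ∃ F : Finset (GO d t), IsReps ℓ F

/-! ## Block M: the continued fraction trick -/

/-- a function of two cusps, additive -/
structure IsCus {d t : ℤ} {M : Type} [AddCommGroup M] (φ : Vec d t → Vec d t → M) : Prop where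
  zero_left : ∀ v, φ 0 v = 0
  zero_right : ∀ u, φ u 0 = 0
  add : ∀ u v w, u ≠ 0 → v ≠ 0 → w ≠ 0 → φ u v + φ v w = φ u w
  smul_left : ∀ (c : Oz d t) (u v : Vec d t), c ≠ 0 → φ (c • u) v = φ u v
  smul_right : ∀ (c : Oz d t) (u v : Vec d t), c ≠ 0 → φ u (c • v) = φ u v

/-- ROW MAN (medium). If `φ(γ e1, γ e2) ∈ S` for all `γ ∈ GL₂(O)` (`S` an additive subgroup) then all values
are in `S`. Proof: `φ u u = 0` for `u ≠ 0` (add with `u, u, u`), so `φ v u = - φ u v`, and it is enough to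
treat `φ(e1, u)`, `u ≠ 0` (add with `v, e1, u`). Claim: for all `u = (p, q) ≠ 0` and all `γ`:
`φ(γ e1, γ u) ∈ S`; strong induction on `norm q` (natural number). If `q = 0`: `γ u = p • γ e1`, so it
is `φ(γ e1, γ e1) = 0`. If `q ≠ 0`: `p = h q + r`, `norm r < norm q` (EUC), `g = (h 1; 1 0) ∈ GL₂(O)`,
`u = g (q, r)`, `g e1 = (h, 1)`; `φ(γ e1, γ u) = φ(γ e1, γ g e1) + φ(γ g e1, γ g (q, r))`; the second term is
in `S` by induction (for `γ g`), the first is `φ(γ δ e1, γ δ e2)` with `δ = (1 h; 0 1)`. -/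
def MAN_stmt : Prop := ∀ (d t : ℤ), IsEuc d t → ∀ {M : Type} [AddCommGroup M]
  (φ : Vec d t → Vec d t → M), IsCus φ → ∀ S : AddSubgroup M,
  (∀ γ : GO d t, φ (γ.val *ᵥ ![1, 0]) (γ.val *ᵥ ![0, 1]) ∈ S) → ∀ u v, φ u v ∈ S

/-! ## Block H: the Hecke operators preserve the modular symbols -/

/-- ROW TR1 (short-medium). For `φ` in `Sym f k N χ`, `M` a matrix and `h` in `GL₂(O)` with `N ∣ h10`:
`adj(hM) φ(hMu, hMv) = χ(h11) adj(M) φ(Mu, Mv)`. Proof: `equiv`, `adj(hM) = adj(M) adj(h)`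
(`Matrix.adjugate_mul_distrib`), ACM, `adj(h) h = det h • 1` (`Matrix.adjugate_mul`), ACS, NRU. -/
def TR1_stmt : Prop := ∀ (d t : ℤ), IsEuc d t → ∀ {A : Type} [CommRing A] (f : Oz d t →+* A)
  (k N : ℕ) (χ : Oz d t → A) (φ : Sy d t A), IsSym f k N χ φ → ∀ (M : Mat d t) (h : GO d t),
  ((N : ℕ) : Oz d t) ∣ h.val 1 0 → ∀ u v : Vec d t,
  act f (h.val * M).adjugate (φ ((h.val * M) *ᵥ u) ((h.val * M) *ᵥ v)) =
    χ (h.val 1 1) • act f M.adjugate (φ (M *ᵥ u) (M *ᵥ v))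

/-- ROW TR2 (short-medium). For `φ` with values in `BiHom k` and `γ` in `GL₂(O)`:
`adj(M) φ(Mγu, Mγv) = γ adj(Mγ) φ(Mγu, Mγv)`. Proof: `adj(Mγ) = adj(γ) adj(M)`, ACM,
`γ adj(γ) = det γ • 1`, ACH, ACS, NRU. -/
def TR2_stmt : Prop := ∀ (d t : ℤ), IsEuc d t → ∀ {A : Type} [CommRing A] (f : Oz d t →+* A)
  (k : ℕ) (P : Pol A), BiHom k P → ∀ (M : Mat d t) (γ : GO d t),
  act f M.adjugate P = act f γ.val (act f (M * γ.val).adjugate P)

/-- ROW TSU (medium). `T_ℓ` preserves the modular symbols of level one (model: OD.TST). The axioms zero, add, smul,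
hom: termwise (`M u ≠ 0` for `u ≠ 0` since `adj(M) M u = det(M) u`, `det (α g) = ℓ det g`, and `O` has no
`ℓ`-torsion). Equivariance: `∑ g ∈ F, adj(αg) φ(αgγu, αgγv) = γ ∑ g ∈ F, adj(αgγ) φ(αgγu, ..)` (TR2);
`αgγ = α h (σ g) = h' α (σ g)` (PRG, CNJ) and by TR1 the term is the term of `α (σ g)`; `Equiv.sum_comp`
(`Finset.sum_coe_sort`, `Finset.sum_attach`). -/
def TSU_stmt : Prop := ∀ (d t : ℤ), IsEuc d t → ∀ ℓ : ℕ, ℓ.Prime → ∀ F : Finset (GO d t),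
  IsReps ℓ F → ∀ {A : Type} [CommRing A] (f : Oz d t →+* A) (k : ℕ) (φ : Sy d t A),
  IsSym f k 1 (fun _ => 1) φ → IsSym f k 1 (fun _ => 1) (opT f ℓ F φ)

/-- ROW USU (medium). `U_ℓ` preserves the modular symbols of level `ℓ^r`, `r ≥ 1`, with a character `χ`
modulo `ℓ^r` (model: OD.UST; PRV in place of PRU). -/
def USU_stmt : Prop := ∀ (d t : ℤ), IsEuc d t → ∀ ℓ : ℕ, ℓ.Prime →
  ∀ {A : Type} [CommRing A] (f : Oz d t →+* A) (k r : ℕ) (χ : Oz d t → A),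
  1 ≤ r → (∀ x y : Oz d t, ((ℓ : ℕ) : Oz d t) ^ r ∣ x - y → χ x = χ y) → ∀ φ : Sy d t A,
  IsSym f k (ℓ ^ r) χ φ → IsSym f k (ℓ ^ r) χ (opU f ℓ φ)

/-! ## Block S: scalar symbols modulo `ℓ` -/

/-- scalar symbols of level `Γ₀(N)` with character `N^j`, over a field -/
structure IsSc {d t : ℤ} {κ : Type} [Field κ] (π : Oz d t →+* κ) (j N : ℕ)
    (ψ : Vec d t → Vec d t → κ) : Prop where
  cus : IsCus ψ
  equiv : ∀ (γ : GO d t) (u v : Vec d t), ((N : ℕ) : Oz d t) ∣ γ.val 1 0 →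
    ψ (γ.val *ᵥ u) (γ.val *ᵥ v) = π (γ.val 1 1 * star (γ.val 1 1)) ^ j * ψ u v

/-- the value at `(0, 1, 0, 1)` of a symbol -/
noncomputable def evS {d t : ℤ} {κ : Type} [Field κ] (φ : Sy d t κ) : Vec d t → Vec d t → κ :=
  fun u v => eval ![0, 1, 0, 1] (φ u v)

/-- `U_ℓ` on scalar symbols -/
def uS {d t : ℤ} {κ : Type} [Field κ] (ℓ : ℕ) (ψ : Vec d t → Vec d t → κ) : Vec d t → Vec d t → κ :=
  fun u v => ∑ x : Fin ℓ × Fin ℓ,
    ψ (!![1, rep d t x; 0, ((ℓ : ℕ) : Oz d t)] *ᵥ u) (!![1, rep d t x; 0, ((ℓ : ℕ) : Oz d t)] *ᵥ v)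

/-- from scalar symbols to weight `k + 2`, first kind -/
noncomputable def bU {d t : ℤ} {κ : Type} [Field κ] (π : Oz d t →+* κ) (ℓ k : ℕ)
    (ψ : Vec d t → Vec d t → κ) : Sy d t κ :=
  fun u v => ∑ x : Fin ℓ × Fin ℓ,
    C (ψ (!![1, rep d t x; 0, ((ℓ : ℕ) : Oz d t)] *ᵥ u)
      (!![1, rep d t x; 0, ((ℓ : ℕ) : Oz d t)] *ᵥ v)) * lin π k 1 (rep d t x)

/-- from scalar symbols to weight `k + 2`, second kind -/
noncomputable def bT {d t : ℤ} {κ : Type} [Field κ] (π : Oz d t →+* κ) (ℓ : ℕ)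
    (F : Finset (GO d t)) (k : ℕ) (ψ : Vec d t → Vec d t → κ) : Sy d t κ :=
  fun u v => ∑ g ∈ F, C (ψ (al ℓ g.val *ᵥ u) (al ℓ g.val *ᵥ v)) *
    lin π k (g.val 0 0) (g.val 0 1)

/-- ROW EVT (short-medium). The value at `(0,1,0,1)` of a modular symbol modulo `ℓ` of level `ℓ^r` in the class
`j` is a scalar symbol of level `ℓ^r` (`r ≥ 1`), of level `ℓ` (`r = 0`). `IsCus`: from `IsSym` and linearity
of `eval`. Equivariance for `ℓ^(max r 1) ∣ γ10`: EVA (`π` kills `γ10` and its conjugate), and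
`γ11` is prime to `ℓ` (DTU), so `χ(γ11) π(N γ11)^k = π(N γ11)^j` by hypothesis. (Model: OD.EVS.) -/
def EVT_stmt : Prop := ∀ (d t : ℤ), IsEuc d t → ∀ ℓ : ℕ, ℓ.Prime →
  ∀ {κ : Type} [Field κ] (π : Oz d t →+* κ), ((ℓ : ℕ) : κ) = 0 →
  ∀ (k r j : ℕ) (χ : Oz d t → κ),
  (∀ x : Oz d t, ¬ ((ℓ : ℕ) : ℤ) ∣ x.norm → χ x * π (x * star x) ^ k = π (x * star x) ^ j) →
  ∀ φ : Sy d t κ, IsSym π k (ℓ ^ r) χ φ → IsSc π j (ℓ ^ (max r 1)) (evS φ)

/-- ROW USD (short-medium). `U_ℓ` lowers the level of scalar symbols: from `ℓ^(r+1)` to `ℓ^r`, `r ≥ 1`. For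
`ℓ^r ∣ γ10`: `M_x γ = α g_x γ = α h g_y = h' M_y`, `h'10 = ℓ γ10` is divisible by `ℓ^(r+1)`,
`h'11 = γ11 - γ10 y`, `π(h'11) = π(γ11)` and the same for the conjugates (PRV, CNJ);
`Equiv.sum_comp`. (Model: OD.USC.) -/
def USD_stmt : Prop := ∀ (d t : ℤ), IsEuc d t → ∀ ℓ : ℕ, ℓ.Prime →
  ∀ {κ : Type} [Field κ] (π : Oz d t →+* κ), ((ℓ : ℕ) : κ) = 0 →
  ∀ (r j : ℕ), 1 ≤ r → ∀ ψ : Vec d t → Vec d t → κ, IsSc π j (ℓ ^ (r + 1)) ψ →
  IsSc π j (ℓ ^ r) (uS ℓ ψ)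

/-- ROW BJH (medium). For a scalar symbol `ψ` of level `ℓ` with character `N^j` the symbol `bT π ℓ F j ψ` is a
modular symbol of weight `j + 2` and LEVEL ONE. For `g ∈ GL₂(O)` with top row `(a, b)` put
`term g (u, v) = lin π j a b * ψ(αgu, αgv)`, so `bT π ℓ F j ψ (u, v) = ∑ g ∈ F, term g (u, v)`.
(1) If `ℓ ∣ h01` then `term (h g) = term g`: modulo `ℓ` the top row of `hg` is
`h00 (a, b)`, a factor `π(N h00)^j`; `ψ(αhgu, ..) = ψ(h'αgu, ..) = π(N h11)^j ψ(αgu, ..)` (CNJ, `h'10 = ℓ h10`);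
`π(N h00) π(N h11) = 1` (DTU). (2) `act π γ (term (gγ) (u, v)) = term g (γu, γv)`: the top
row of `gγ` is `(a, b) γ = (a', b')` and `act π γ (a' Y - b' X) = det(γ) (a Y - b X)`; `N(det γ) = 1` (NRU).
(3) PRG: `∑ g, term (g γ) = ∑ g, term (σ g) = ∑ g, term g`. The axioms zero, add, smul
from those of `ψ` (`α g u ≠ 0` if `u ≠ 0`); `hom`: `lin π j a b` is in `BiHom j`. (Model: OD.BJG.) -/
def BJH_stmt : Prop := ∀ (d t : ℤ), IsEuc d t → ∀ ℓ : ℕ, ℓ.Prime → ∀ F : Finset (GO d t),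
  IsReps ℓ F → ∀ {κ : Type} [Field κ] (π : Oz d t →+* κ), ((ℓ : ℕ) : κ) = 0 →
  ∀ (j : ℕ) (ψ : Vec d t → Vec d t → κ), IsSc π j (ℓ ^ 1) ψ →
  IsSym π j 1 (fun _ => 1) (bT π ℓ F j ψ)

/-- ROW FUA (short-medium). (a) modulo `ℓ`, `opU φ = bU (evS φ)` for `φ` with values in `BiHom k` (SNG with
`g = g_x`: `adj(α g_x) = (ℓ -x; 0 1)`, `α g_x = (1 x; 0 ℓ)`, top row `(1, x)`); (b)
`opT φ = bT (evS φ)` (SNG); (c) `evS (bU ψ) = uS ψ` (`lin π k 1 x` has value `1` at `(0,1,0,1)`).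
(Model: OD.FUT.) -/
def FUA_stmt : Prop := ∀ (d t : ℤ) (ℓ : ℕ) (F : Finset (GO d t)) {κ : Type} [Field κ]
  (π : Oz d t →+* κ), ((ℓ : ℕ) : κ) = 0 → ∀ (k : ℕ),
  (∀ φ : Sy d t κ, (∀ u v, BiHom k (φ u v)) → opU π ℓ φ = bU π ℓ k (evS φ)) ∧
  (∀ φ : Sy d t κ, (∀ u v, BiHom k (φ u v)) → opT π ℓ F φ = bT π ℓ F k (evS φ)) ∧
  (∀ ψ : Vec d t → Vec d t → κ, evS (bU π ℓ k ψ) = uS ℓ ψ)

/-- ROW FUD (medium). `evS (bT ψ) = uS ψ` for `k ≥ 1` and `ψ` a scalar symbol of level `ℓ` with character `N^k`.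
The value of `lin π k a b` at `(0,1,0,1)` is `π(a ā)^k`, so `evS (bT ψ)(u, v) = ∑ g ∈ F, π(N g00)^k ψ(αgu, αgv)`,
and the terms with `ℓ ∣ N(g00)` are `0` (NRF, `k ≥ 1`). For `x : Fin ℓ × Fin ℓ` let `G x ∈ F` be the representative
of `g_x`: `g_x = h (G x)`, `ℓ ∣ h01`. `G` is injective (`g_x g_y⁻¹ = (1, x - y; 0, 1)`; REP) and its image is the set of
the `g ∈ F` with `ℓ ∤ N(g00)`: for such `g` let `x` be the representative of `g01 g00'`, `g00 g00' ≡ 1` (REQ), then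
`(g g_x⁻¹)01 = g01 - g00 x ≡ 0`; conversely `(h⁻¹ g_x)00 = (h⁻¹)00` is prime to `ℓ` (DTU). For `g = G x = h⁻¹ g_x`:
`α g = α h⁻¹ g_x = h' α g_x` (CNJ), so `ψ(αgu, αgv) = π(N (h⁻¹)11)^k ψ(M_x u, M_x v)`, and
`π(N (h⁻¹)00) π(N (h⁻¹)11) = 1` (DTU). So the sum is `∑ x, ψ(M_x u, M_x v)` (`Finset.sum_nbij'` or
`Finset.sum_image` and `Finset.sum_subset`). -/
def FUD_stmt : Prop := ∀ (d t : ℤ), IsEuc d t → ∀ ℓ : ℕ, ℓ.Prime → ∀ F : Finset (GO d t),
  IsReps ℓ F → ∀ {κ : Type} [Field κ] (π : Oz d t →+* κ), ((ℓ : ℕ) : κ) = 0 → ∀ k : ℕ, 1 ≤ k →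
  ∀ ψ : Vec d t → Vec d t → κ, IsSc π k (ℓ ^ 1) ψ → evS (bT π ℓ F k ψ) = uS ℓ ψ

/-- ROW KZE (short). Weight two, level one: there are no modular symbols when `2 ≠ 0`:
`g = φ(e1, e2)` is a constant, `φ(γ e1, γ e2) = g` for all `γ` (`act` fixes constants; BiHom 0 means
constant), with `γ = w`: `φ(e2, -e1) = φ(e2, e1) = - g` (add: `φ(e1, e2) + φ(e2, e1) = φ(e1, e1) = 0`), so
`g = -g`, `g = 0`, and MAN with `S = 0`. -/
def KZE_stmt : Prop := ∀ (d t : ℤ), IsEuc d t → ∀ {κ : Type} [Field κ] (π : Oz d t →+* κ),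
  (2 : κ) ≠ 0 → ∀ φ : Sy d t κ, IsSym π 0 1 (fun _ => 1) φ → φ = 0

/-- ROW FCU (medium). THE FACTORISATION THROUGH LEVEL ONE AND WEIGHT `j + 2`. Let `S = Sym π j 1 1`,
`T = opT π ℓ F`. For every `n` there are a linear map `Λ` and `m` such that
`op^m φ ∈ Λ (T^n S)` for all `φ` of level `ℓ^r`, weight `k + 2`, character `χ` in the class `j ≥ 1`.
Proof: (i) for `w ∈ S`: `evS w` is scalar of level `ℓ` with character `N^j` (EVT with `r = 0`, `χ = 1`, `k = j`), so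
`uS (evS w) = evS (bT j (evS w)) = evS (T w)` (FUD, FUA (b)), and
`uS^s (evS w) = evS (T^s w)` (TSU). (ii) for `ψ` scalar of level `ℓ`: `uS ψ = evS (bT j ψ)` (FUD), `bT j ψ ∈ S` (BJH),
so `uS^(s+1) ψ = evS (T^s (bT j ψ))`. (iii) `r ≥ 1`: `evS φ` is scalar of level `ℓ^r` (EVT), `uS^(r-1) (evS φ)` of
level `ℓ` (USD), `op = opU`, `opU^(s+1) φ = bU k (uS^s (evS φ))` (FUA (a), (c); `bU k` has
values in `BiHom k`), so `opU^(r+1+n) φ = bU k (uS^(r+n) (evS φ)) = bU k (evS (T^n (bT j (uS^(r-1) (evS φ)))))`: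
`Λ w = bU k (evS w)`. (iv) `r = 0`, `k ≥ 1`: `op = opT`, `χ = 1` (periodic modulo `1`), all `opT^s φ` are of
level one (TSU), `evS (opT^s φ)` is scalar of level `ℓ` with character `N^k` (EVT) and also with character `N^j`,
`opT^(s+1) φ = bT k (uS^s (evS φ))` (FUA (b), FUD), `m = n + 2`, `Λ w = bT k (evS w)`.
(v) `r = 0`, `k = 0`: KZE, `Λ = 0`. (Model: OD.FCT.) -/
def FCU_stmt : Prop := ∀ (d t : ℤ), IsEuc d t → ∀ ℓ : ℕ, ℓ.Prime → ℓ ≠ 2 →
  ∀ F : Finset (GO d t), IsReps ℓ F → ∀ {κ : Type} [Field κ] (π : Oz d t →+* κ),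
  ((ℓ : ℕ) : κ) = 0 → ∀ (k r j : ℕ) (χ : Oz d t →* κ), 1 ≤ j →
  (∀ x y : Oz d t, ((ℓ : ℕ) : Oz d t) ^ r ∣ x - y → χ x = χ y) →
  (∀ x : Oz d t, ¬ ((ℓ : ℕ) : ℤ) ∣ x.norm → χ x * π (x * star x) ^ k = π (x * star x) ^ j) →
  ∀ n : ℕ, ∃ (Λ : Sy d t κ →ₗ[κ] Sy d t κ) (m : ℕ), ∀ φ : Sy d t κ, IsSym π k (ℓ ^ r) χ φ →
    ((op π ℓ F r) ^ m) φ ∈ ((Sym π j 1 (fun _ => 1)).map ((opT π ℓ F) ^ n)).map Λ

/-! ## Block L: lattices -/

/-- ROW FIN (medium). Over a noetherian ring the module of modular symbols is finitely generated. The map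
`φ ↦ (φ(δ e1, δ e2))_δ`, `δ` in the finite set `F` of FIX (`n = N`), is injective: if all are zero then
`φ(γ e1, γ e2) = φ(h δ e1, h δ e2) = χ(h11) • act h (φ(δ e1, δ e2)) = 0`, so `φ = 0` by MAN. Its values are in
the polynomials of total degree `≤ 2k`, a finitely generated module (`MvPolynomial.restrictTotalDegree`
or: polynomials with support in the finite set of exponents with `d 0 + d 1 = k`, `d 2 + d 3 = k`:
`Finsupp.supported`). A submodule of a finitely generated module over a noetherian ring is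
finitely generated. -/
def FIN_stmt : Prop := ∀ (d t : ℤ), IsEuc d t → ∀ {A : Type} [CommRing A] [IsNoetherianRing A]
  (f : Oz d t →+* A) (k N : ℕ) (χ : Oz d t → A), N ≠ 0 → Module.Finite A (Sym f k N χ)

/-- ROW MPC (short). Compatibility of everything with a ring homomorphism `ρ : A → B`:
`φ ↦ ρ(φ)` (coefficients) sends modular symbols to modular symbols and commutes with the Hecke
operators (ACB; `BiHom` is preserved by `MvPolynomial.map`). -/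
def MPC_stmt : Prop := ∀ (d t : ℤ) {A B : Type} [CommRing A] [CommRing B] (f : Oz d t →+* A)
  (ρ : A →+* B) (ℓ : ℕ) (F : Finset (GO d t)) (k r N : ℕ) (χ : Oz d t → A) (φ : Sy d t A),
  (IsSym f k N χ φ → IsSym (ρ.comp f) k N (fun x => ρ (χ x)) (fun u v => map ρ (φ u v))) ∧
  op (ρ.comp f) ℓ F r (fun u v => map ρ (φ u v)) = fun u v => map ρ (op f ℓ F r φ u v)

/-- ROW DEN (medium). Denominators: for `φ` over `L = Frac R` there are `s ≠ 0` in `R` and a modular symbol `φ'`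
over `R` with `φ' = s φ`. Choose `s` with `s φ(δ e1, δ e2)` integral coefficients for the finitely many
`δ` of FIX (`N ≠ 0`). The polynomials with coefficients in (the image of) `R` form an additive subgroup stable
under `act` and under `χ(h11) •`, so all `s φ(γ e1, γ e2)` and by MAN all `s φ(u, v)` are in it. Define
`φ'(u, v)` as the preimage (`MvPolynomial.map` of the injective map `R → L` is injective; axioms of
`IsSym` follow by injectivity, ACB). -/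
def DEN_stmt : Prop := ∀ (d t : ℤ), IsEuc d t → ∀ {R L : Type} [CommRing R] [IsDomain R]
  [Field L] [Algebra R L] [IsFractionRing R L] (f : Oz d t →+* R) (k N : ℕ) (χ : Oz d t → R), N ≠ 0 →
  ∀ φ : Sy d t L, IsSym ((algebraMap R L).comp f) k N (fun x => algebraMap R L (χ x)) φ →
  ∃ (s : R) (φ' : Sy d t R), s ≠ 0 ∧ IsSym f k N χ φ' ∧
    ∀ u v, map (algebraMap R L) (φ' u v) = algebraMap R L s • φ u v

/-- ROW DVI (short-medium). A modular symbol over a domain `R` all of whose values have coefficients divisible by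
`ϖ ≠ 0` is `ϖ` times a modular symbol over `R` (divide the values; axioms by cancelling `ϖ`, the ring
of polynomials has no `ϖ`-torsion). -/
def DVI_stmt : Prop := ∀ (d t : ℤ) {R : Type} [CommRing R] [IsDomain R] (f : Oz d t →+* R)
  (k N : ℕ) (χ : Oz d t → R) (ϖ : R), ϖ ≠ 0 → ∀ φ : Sy d t R, IsSym f k N χ φ →
  (∀ u v, ∀ d, ϖ ∣ coeff d (φ u v)) → ∃ φ' : Sy d t R, IsSym f k N χ φ' ∧ φ = ϖ • φ'

end Pool.Agent.OE
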