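import Pool.Agent.helper21.OE.DefC
import Pool.Agent.helper21.OE.DefY

/-!
# MP_2e0e07_nt, project OE: the definitions of the final statement
-/

namespace Pool.Agent.OE

/-- the Hecke operator `U_ℓ` of level `Γ₀(ℓ ^ r)`, `r ≥ 1`: sum over the matrices `M = (1 x; 0 ℓ)` of
`adj(M) φ(M u, M v)` -/
noncomputable def heckeU {d t : ℤ} {A : Type*} [CommRing A] (f : Oz d t →+* A) (ℓ : ℕ)
    (φ : Sy d t A) : Sy d t A :=
  fun u v => ∑ x : Fin ℓ × Fin ℓ, act f !![((ℓ : ℕ) : Oz d t), - rep d t x; 0, 1]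
    (φ (Matrix.mulVec !![1, rep d t x; 0, ((ℓ : ℕ) : Oz d t)] u)
      (Matrix.mulVec !![1, rep d t x; 0, ((ℓ : ℕ) : Oz d t)] v))

/-- the Hecke operator `T_ℓ` of level one, that is of the double coset of `α = diag(1, ℓ)`: sum over
`M = α g`, `g` in the set `F` of representatives of `Γ⁰(ℓ) \ GL₂(O)`, of `adj(M) φ(M u, M v)` -/
noncomputable def heckeT {d t : ℤ} {A : Type*} [CommRing A] (f : Oz d t →+* A) (ℓ : ℕ)
    (F : Finset (GO d t)) (φ : Sy d t A) : Sy d t A :=
  fun u v => ∑ g ∈ F, act f (al ℓ g.val).adjugate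
    (φ (Matrix.mulVec (al ℓ g.val) u) (Matrix.mulVec (al ℓ g.val) v))

/-- the Hecke operator at `ℓ` of level `Γ₀(ℓ ^ r)` -/
noncomputable def hecke {d t : ℤ} {A : Type*} [CommRing A] (f : Oz d t →+* A) (ℓ : ℕ)
    (F : Finset (GO d t)) (r : ℕ) (φ : Sy d t A) : Sy d t A :=
  if r = 0 then heckeT f ℓ F φ else heckeU f ℓ φ

/-- complex conjugation on modular symbols: `φ(ū, v̄)` with the variables `X, Y` and `Z, W` exchanged -/
noncomputable def conjS {d t : ℤ} {A : Type*} [CommRing A] (φ : Sy d t A) : Sy d t A :=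
  fun u v => sw (φ (cv u) (cv v))

/-- the operator `∑ i, c i • adj(M i) φ(M i u, M i v)` of matrices `M i` with coefficients `c i`; all
the Hecke operators are of this kind -/
noncomputable def heckeM {d t : ℤ} {A : Type*} [CommRing A] (f : Oz d t →+* A) {n : ℕ} (c : Fin n → A)
    (M : Fin n → Mat d t) (φ : Sy d t A) : Sy d t A :=
  fun u v => ∑ i, c i • act f (M i).adjugate (φ (Matrix.mulVec (M i) u) (Matrix.mulVec (M i) v))

/-- the conjugate matrix -/
def conjMat {d t : ℤ} (M : Mat d t) : Mat d t := fun i j => star (M i j)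

/-- `χ` is periodic modulo `ℓ ^ r` and invariant under complex conjugation -/
def IsChar {d t : ℤ} {R : Type*} [CommRing R] (ℓ r : ℕ) (χ : Oz d t →* R) : Prop :=
  (∀ x y : Oz d t, ((ℓ : ℕ) : Oz d t) ^ r ∣ x - y → χ x = χ y) ∧ ∀ x, χ (star x) = χ x

/-- `φ` is an ordinary modular symbol over `L` of weight `k + 2`, level `Γ₀(ℓ ^ r)` and character `χ`: it is
killed by `q(T)` for a monic polynomial `q` over `R` whose constant term is a unit, where `T` is the
Hecke operator at `ℓ` -/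
def IsOrd {d t : ℤ} {R : Type*} [CommRing R] (L : Type*) [Field L] [Algebra R L] (f : Oz d t →+* R)
    (ℓ : ℕ) (F : Finset (GO d t)) (k r : ℕ) (χ : Oz d t →* R) (φ : Sy d t L) : Prop :=
  IsSym ((algebraMap R L).comp f) k (ℓ ^ r) (fun x => algebraMap R L (χ x)) φ ∧
    ∃ q : Polynomial R, q.Monic ∧ IsUnit (q.coeff 0) ∧
      ∑ i ∈ Finset.range (q.natDegree + 1), algebraMap R L (q.coeff i) •
        (hecke ((algebraMap R L).comp f) ℓ F r)^[i] φ = 0

/-- complex conjugation fixes all the ordinary modular symbols -/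
def ConjFixes {d t : ℤ} {R : Type*} [CommRing R] (L : Type*) [Field L] [Algebra R L]
    (f : Oz d t →+* R) (ℓ : ℕ) (F : Finset (GO d t)) (k r : ℕ) (χ : Oz d t →* R) : Prop :=
  ∀ φ : Sy d t L, IsOrd L f ℓ F k r χ φ → conjS φ = φ

/-- complex conjugation fixes the image of a power of `T_ℓ` on the modular symbols of level one and
weight `j + 2` modulo the maximal ideal -/
def ConjFixesMod {d t : ℤ} {R : Type*} [CommRing R] [IsLocalRing R] (f : Oz d t →+* R) (ℓ : ℕ)
    (F : Finset (GO d t)) (j : ℕ) : Prop :=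
  ∃ n : ℕ, ∀ w : Sy d t (IsLocalRing.ResidueField R), IsSym (fbar f) j 1 (fun _ => 1) w →
    conjS ((heckeT (fbar f) ℓ F)^[n] w) = (heckeT (fbar f) ℓ F)^[n] w

/-- the classes of the uniform part: `ℓ` unramified, `ℓ > j`, `j ≤ 22` for the discriminants `-4`, `-3`,
`j ≤ 13` for the discriminants `-8`, `-7`, `-11`, and the pair is none of the exceptions -/
def IsUni (d t : ℤ) (ℓ j : ℕ) : Prop :=
  ¬ ((ℓ : ℕ) : ℤ) ∣ t ^ 2 - 4 * d ∧ 1 ≤ j ∧ j < ℓ ∧ j ≤ (if d = 1 then 22 else 13) ∧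
    ¬ Exu d t ℓ j

/-- a symbol fixed by complex conjugation which is an eigenvector of an operator is an eigenvector of
the conjugate operator for the same eigenvalue -/
def SameEigenvalues {d t : ℤ} {A : Type*} [CommRing A] (f : Oz d t →+* A) : Prop :=
  ∀ φ : Sy d t A, conjS φ = φ → ∀ (n : ℕ) (c : Fin n → A) (M : Fin n → Mat d t) (a : A),
    heckeM f c M φ = a • φ → heckeM f c (fun i => conjMat (M i)) φ = a • φ

end Pool.Agent.OE
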