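import Pool.Agent.helper21.OE.Stm
import Pool.Agent.helper21.OE.Final2

/-!
# MP_2e0e07_nt, project OE: the final statement in terms of the definitions of `Stm`
-/

namespace Pool.Agent.OE

theorem STM_ord {d t : ℤ} {R L : Type} [CommRing R] [Field L] [Algebra R L] (f : Oz d t →+* R)
    (ℓ : ℕ) (F : Finset (GO d t)) (k r : ℕ) (χ : Oz d t →* R) (φ : Sy d t L)
    (h : IsOrd L f ℓ F k r χ φ) : φ ∈ Ord L f ℓ F k r χ := by
  obtain ⟨h1, q, hq, hu, h0⟩ := h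
  refine ⟨h1, q, hq, hu, ?_⟩
  have hop : ∀ ψ : Sy d t L, op ((algebraMap R L).comp f) ℓ F r ψ =
      hecke ((algebraMap R L).comp f) ℓ F r ψ := by
    intro ψ
    unfold op hecke
    split_ifs <;> rfl
  have hpow : ∀ i : ℕ, ((op ((algebraMap R L).comp f) ℓ F r) ^ i) φ =
      (hecke ((algebraMap R L).comp f) ℓ F r)^[i] φ := by
    intro i
    induction i with
    | zero => rfl
    | succ i ih =>
      rw [pow_succ', Module.End.mul_apply, ih, hop, Function.iterate_succ_apply']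
  rw [Polynomial.aeval_eq_sum_range, hq.natDegree_map, LinearMap.sum_apply, ← h0]
  refine Finset.sum_congr rfl fun i _ => ?_
  rw [LinearMap.smul_apply, hpow, Polynomial.coeff_map]

theorem STM_iter {d t : ℤ} {A : Type} [CommRing A] (f : Oz d t →+* A) (ℓ : ℕ)
    (F : Finset (GO d t)) (n : ℕ) (w : Sy d t A) :
    ((opT f ℓ F) ^ n) w = (heckeT f ℓ F)^[n] w := by
  induction n with
  | zero => rfl
  | succ n ih =>
    rw [pow_succ', Module.End.mul_apply, ih, Function.iterate_succ_apply']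
    rfl

theorem STM_main (d t : ℤ) (hK : IsEuc d t) (ℓ : ℕ) (hℓ : ℓ.Prime) (hℓ2 : ℓ ≠ 2)
    (F : Finset (GO d t)) (hF : IsReps ℓ F)
    {R L : Type} [CommRing R] [IsDomain R] [IsDiscreteValuationRing R] [Field L] [Algebra R L]
    [IsFractionRing R L] (f : Oz d t →+* R) (hf : ((ℓ : ℕ) : R) ∈ IsLocalRing.maximalIdeal R)
    (k r : ℕ) (χ : Oz d t →* R) (hχ : IsChar ℓ r χ) :
    (χ (-1) = 1 → ∃ j, 1 ≤ j ∧ j ≤ ℓ - 1 ∧ InClass f ℓ k χ j) ∧
    (∀ j, 1 ≤ j → InClass f ℓ k χ j → ConjFixesMod f ℓ F j → ConjFixes L f ℓ F k r χ) ∧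
    (ℓ ≤ 31 → (∀ j, Exc d t ℓ j → ¬ InClass f ℓ k χ j) → ConjFixes L f ℓ F k r χ) ∧
    (∀ j, IsUni d t ℓ j → InClass f ℓ k χ j → ConjFixes L f ℓ F k r χ) ∧
    SameEigenvalues ((algebraMap R L).comp f) := by
  refine ⟨fun hneg => ?_, fun j hj hcl hcj φ hφ => ?_, fun h31 hexc φ hφ => ?_,
    fun j hu hcl φ hφ => ?_, fun φ hφ n c M a h => ?_⟩
  · obtain ⟨j, h1, h2, -, h4⟩ := FIN_class d t hK ℓ hℓ hℓ2 f hf k r χ hχ.1 hχ.2 hneg
    exact ⟨j, h1, h2, h4⟩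
  · obtain ⟨m, hm⟩ := hcj
    refine ASC_main d t hK ℓ hℓ hℓ2 F hF f hf k r j χ hχ.1 hχ.2 hj hcl m ?_ φ
      (STM_ord f ℓ F k r χ φ hφ)
    rintro w ⟨w', hw', rfl⟩
    rw [STM_iter]
    exact hm w' hw'
  · exact FIN_31 d t hK ℓ hℓ hℓ2 h31 F hF f hf k r χ hχ.1 hχ.2 hexc φ (STM_ord f ℓ F k r χ φ hφ)
  · obtain ⟨h1, h2, h3, h4, h5⟩ := hu
    exact FIN_uni d t hK ℓ hℓ hℓ2 h1 F hF f hf k r j χ hχ.1 hχ.2 h2 hcl h4 h3 h5 φ
      (STM_ord f ℓ F k r χ φ hφ)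
  · have hc : (fun i => conjMat (M i)) = conjM M := by
      funext i a b
      fin_cases a <;> fin_cases b <;> rfl
    rw [hc]
    exact HEK_eig _ c M φ hφ a h

end Pool.Agent.OE
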